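import Pool.Agent.Helper33_FPP.Unicoherent

/-! # Linking two long walks by a light path (module PB1) -/

set_option autoImplicit false

namespace Pool.Agent.Helper33_FPP

namespace Lnk

/-- connected inside `D` -/
def Cn (D : Set (ℤ × ℤ)) (x y : ℤ × ℤ) : Prop := ∃ q : Z2.Walk x y, ∀ v ∈ q.support, v ∈ D

theorem Cn.refl {D : Set (ℤ × ℤ)} {x : ℤ × ℤ} (h : x ∈ D) : Cn D x x :=
  ⟨SimpleGraph.Walk.nil, by intro v hv; simp at hv; rwa [hv]⟩

theorem Cn.symm {D : Set (ℤ × ℤ)} {x y : ℤ × ℤ} (h : Cn D x y) : Cn D y x := by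
  obtain ⟨q, hq⟩ := h
  exact ⟨q.reverse, fun v hv => hq v (by simpa using hv)⟩

theorem Cn.trans {D : Set (ℤ × ℤ)} {x y z : ℤ × ℤ} (h : Cn D x y) (h' : Cn D y z) : Cn D x z := by
  obtain ⟨q, hq⟩ := h
  obtain ⟨q', hq'⟩ := h'
  refine ⟨q.append q', fun v hv => ?_⟩
  rw [SimpleGraph.Walk.mem_support_append_iff] at hv
  rcases hv with hv | hv
  · exact hq v hv
  · exact hq' v hv

theorem Cn.step {D : Set (ℤ × ℤ)} {x y : ℤ × ℤ} (hx : x ∈ D) (hy : y ∈ D) (h : Z2.Adj x y) :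
    Cn D x y :=
  ⟨SimpleGraph.Walk.cons h SimpleGraph.Walk.nil, by
    intro v hv
    simp at hv
    rcases hv with rfl | rfl
    · exact hx
    · exact hy⟩

theorem Cn.mono {D D' : Set (ℤ × ℤ)} (hD : D ⊆ D') {x y : ℤ × ℤ} (h : Cn D x y) : Cn D' x y := by
  obtain ⟨q, hq⟩ := h
  exact ⟨q, fun v hv => hD (hq v hv)⟩

theorem Cn.left {D : Set (ℤ × ℤ)} {x y : ℤ × ℤ} (h : Cn D x y) : x ∈ D := by
  obtain ⟨q, hq⟩ := h
  exact hq x q.start_mem_support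

theorem Cn.right {D : Set (ℤ × ℤ)} {x y : ℤ × ℤ} (h : Cn D x y) : y ∈ D := h.symm.left

/-- all vertices of a walk are connected to its start -/
theorem Cn.of_mem {D : Set (ℤ × ℤ)} {x y : ℤ × ℤ} (q : Z2.Walk x y) (hq : ∀ v ∈ q.support, v ∈ D)
    {v : ℤ × ℤ} (hv : v ∈ q.support) : Cn D x v :=
  ⟨q.takeUntil v hv, fun u hu => hq u (q.support_takeUntil_subset_support hv hu)⟩

theorem Cn.exit {D : Set (ℤ × ℤ)} {K : Set (ℤ × ℤ)} {x y : ℤ × ℤ} (h : Cn D x y) (hx : x ∈ K)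
    (hy : y ∉ K) : ∃ v v', v ∈ D ∧ v ∈ K ∧ v' ∈ D ∧ v' ∉ K ∧ Z2.Adj v v' := by
  obtain ⟨q, hq⟩ := h
  induction q with
  | nil => exact absurd hx hy
  | @cons u v w hadj p ih =>
    by_cases hv : v ∈ K
    · exact ih hv hy (fun z hz => hq z (by simp [hz]))
    · exact ⟨u, v, hq u (by simp), hx, hq v (by simp), hv, hadj⟩

theorem hor {D : Set (ℤ × ℤ)} (r : ℤ) (n : ℕ) : ∀ c : ℤ, (∀ t : ℤ, c ≤ t → t ≤ c + n → (t, r) ∈ D) →
    Cn D (c, r) (c + n, r) := by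
  induction n with
  | zero =>
    intro c h
    simp only [Nat.cast_zero, add_zero]
    exact Cn.refl (h c le_rfl (by simp))
  | succ n ih =>
    intro c h
    have h1 := ih (c + 1) (fun t h1 h2 => h t (by omega) (by push_cast; omega))
    have h2 : Cn D (c, r) (c + 1, r) := Cn.step (h c le_rfl (by omega)) (h (c + 1) (by omega)
      (by push_cast; omega)) (by rw [Z2_adj_iff]; simp)
    have h3 : (c + 1 + (n : ℤ)) = c + ((n + 1 : ℕ) : ℤ) := by push_cast; ring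
    rw [h3] at h1
    exact h2.trans h1

theorem ver {D : Set (ℤ × ℤ)} (c : ℤ) (n : ℕ) : ∀ r : ℤ, (∀ t : ℤ, r ≤ t → t ≤ r + n → (c, t) ∈ D) →
    Cn D (c, r) (c, r + n) := by
  induction n with
  | zero =>
    intro r h
    simp only [Nat.cast_zero, add_zero]
    exact Cn.refl (h r le_rfl (by simp))
  | succ n ih =>
    intro r h
    have h1 := ih (r + 1) (fun t h1 h2 => h t (by omega) (by push_cast; omega))
    have h2 : Cn D (c, r) (c, r + 1) := Cn.step (h r le_rfl (by omega)) (h (r + 1) (by omega)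
      (by push_cast; omega)) (by rw [Z2_adj_iff]; simp)
    have h3 : (r + 1 + (n : ℤ)) = r + ((n + 1 : ℕ) : ℤ) := by push_cast; ring
    rw [h3] at h1
    exact h2.trans h1

theorem hor' {D : Set (ℤ × ℤ)} (r c c' : ℤ) (h : ∀ t : ℤ, min c c' ≤ t → t ≤ max c c' → (t, r) ∈ D) :
    Cn D (c, r) (c', r) := by
  rcases le_total c c' with hc | hc
  · have h1 := hor (D := D) r (c' - c).toNat c (fun t h1 h2 => h t (by omega) (by omega))
    have h2 : c + ((c' - c).toNat : ℤ) = c' := by omega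
    rwa [h2] at h1
  · have h1 := hor (D := D) r (c - c').toNat c' (fun t h1 h2 => h t (by omega) (by omega))
    have h2 : c' + ((c - c').toNat : ℤ) = c := by omega
    rw [h2] at h1
    exact h1.symm

theorem ver' {D : Set (ℤ × ℤ)} (c r r' : ℤ) (h : ∀ t : ℤ, min r r' ≤ t → t ≤ max r r' → (c, t) ∈ D) :
    Cn D (c, r) (c, r') := by
  rcases le_total r r' with hc | hc
  · have h1 := ver (D := D) c (r' - r).toNat r (fun t h1 h2 => h t (by omega) (by omega))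
    have h2 : r + ((r' - r).toNat : ℤ) = r' := by omega
    rwa [h2] at h1
  · have h1 := ver (D := D) c (r - r').toNat r' (fun t h1 h2 => h t (by omega) (by omega))
    have h2 : r' + ((r - r').toNat : ℤ) = r := by omega
    rw [h2] at h1
    exact h1.symm

/-- the box with lower left corner `lo` and `ℓ` points in each direction -/
def Q (lo : ℤ × ℤ) (ℓ : ℕ) : Set (ℤ × ℤ) :=
  {v | lo.1 ≤ v.1 ∧ v.1 < lo.1 + ℓ ∧ lo.2 ≤ v.2 ∧ v.2 < lo.2 + ℓ}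

theorem rect_conn {a b : ℤ × ℤ} {u v : ℤ × ℤ} (hu : u ∈ Rect a b) (hv : v ∈ Rect a b) :
    Cn (Rect a b) u v := by
  obtain ⟨u1, u2⟩ := u
  obtain ⟨v1, v2⟩ := v
  simp only [Rect, Set.mem_ofPred_eq] at hu hv
  have h1 : Cn (Rect a b) (u1, u2) (v1, u2) := by
    apply hor'
    intro t h1 h2
    simp only [Rect, Set.mem_ofPred_eq]
    refine ⟨?_, ?_, ?_, ?_⟩ <;> omega
  have h2 : Cn (Rect a b) (v1, u2) (v1, v2) := by
    apply ver'
    intro t h1 h2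
    simp only [Rect, Set.mem_ofPred_eq]
    refine ⟨?_, ?_, ?_, ?_⟩ <;> omega
  exact h1.trans h2

theorem rect_diff_conn {a b : ℤ × ℤ} {ℓ : ℕ} (hs1 : a.1 + ℓ ≤ b.1)
    (hs2 : a.2 + ℓ ≤ b.2) (lo : ℤ × ℤ) {u v : ℤ × ℤ} (hu : u ∈ Rect a b \ Q lo ℓ)
    (hv : v ∈ Rect a b \ Q lo ℓ) : Cn (Rect a b \ Q lo ℓ) u v := by
  -- a free column and a free row
  obtain ⟨c, hc1, hc2, hc3⟩ : ∃ c : ℤ, a.1 ≤ c ∧ c ≤ b.1 ∧ ¬ (lo.1 ≤ c ∧ c < lo.1 + ℓ) := by
    by_cases h : lo.1 ≤ a.1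
    · exact ⟨b.1, by omega, le_rfl, by omega⟩
    · exact ⟨a.1, le_rfl, by omega, by omega⟩
  obtain ⟨r, hr1, hr2, hr3⟩ : ∃ r : ℤ, a.2 ≤ r ∧ r ≤ b.2 ∧ ¬ (lo.2 ≤ r ∧ r < lo.2 + ℓ) := by
    by_cases h : lo.2 ≤ a.2
    · exact ⟨b.2, by omega, le_rfl, by omega⟩
    · exact ⟨a.2, le_rfl, by omega, by omega⟩
  have key : ∀ z ∈ Rect a b \ Q lo ℓ, Cn (Rect a b \ Q lo ℓ) z (c, r) := by
    rintro ⟨z1, z2⟩ hz
    simp only [Rect, Q, Set.mem_sdiff, Set.mem_ofPred_eq] at hz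
    obtain ⟨⟨hz1, hz2, hz3, hz4⟩, hz5⟩ := hz
    by_cases h : lo.1 ≤ z1 ∧ z1 < lo.1 + ℓ
    · -- move horizontally in row z2, then vertically in column c
      have hrow : ¬ (lo.2 ≤ z2 ∧ z2 < lo.2 + ℓ) := fun h' => hz5 ⟨h.1, h.2, h'.1, h'.2⟩
      have h1 : Cn (Rect a b \ Q lo ℓ) (z1, z2) (c, z2) := by
        apply hor'
        intro t h1 h2
        simp only [Rect, Q, Set.mem_sdiff, Set.mem_ofPred_eq]
        refine ⟨⟨?_, ?_, ?_, ?_⟩, ?_⟩ <;> omega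
      have h2 : Cn (Rect a b \ Q lo ℓ) (c, z2) (c, r) := by
        apply ver'
        intro t h1 h2
        simp only [Rect, Q, Set.mem_sdiff, Set.mem_ofPred_eq]
        refine ⟨⟨?_, ?_, ?_, ?_⟩, ?_⟩ <;> omega
      exact h1.trans h2
    · have h1 : Cn (Rect a b \ Q lo ℓ) (z1, z2) (z1, r) := by
        apply ver'
        intro t h1 h2
        simp only [Rect, Q, Set.mem_sdiff, Set.mem_ofPred_eq]
        refine ⟨⟨?_, ?_, ?_, ?_⟩, ?_⟩ <;> omega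
      have h2 : Cn (Rect a b \ Q lo ℓ) (z1, r) (c, r) := by
        apply hor'
        intro t h1 h2
        simp only [Rect, Q, Set.mem_sdiff, Set.mem_ofPred_eq]
        refine ⟨⟨?_, ?_, ?_, ?_⟩, ?_⟩ <;> omega
      exact h1.trans h2
  exact (key u hu).trans (key v hv).symm

/-- a nonempty set of sup-diameter `< ℓ` lies in a box with `ℓ` points in each direction -/
theorem exists_box {B : Set (ℤ × ℤ)} {ℓ : ℕ} (hne : B.Nonempty)
    (hB : ∀ x ∈ B, ∀ y ∈ B, dst x y < ℓ) : ∃ lo, B ⊆ Q lo ℓ := by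
  obtain ⟨x₀, hx₀⟩ := hne
  have hd : ∀ x ∈ B, ∀ y ∈ B, (x.1 - y.1).natAbs < ℓ ∧ (x.2 - y.2).natAbs < ℓ := by
    intro x hx y hy
    have := hB x hx y hy
    unfold dst at this
    exact max_lt_iff.1 this
  have h1 : ∃ m : ℤ, (∃ x ∈ B, x.1 = m) ∧ ∀ y ∈ B, m ≤ y.1 := by
    obtain ⟨m, hm1, hm2⟩ := Int.exists_least_of_bdd (P := fun m => ∃ x ∈ B, x.1 = m)
      ⟨x₀.1 - ℓ, by
        rintro z ⟨x, hx, rfl⟩
        have := (hd x hx x₀ hx₀).1
        omega⟩ ⟨x₀.1, x₀, hx₀, rfl⟩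
    exact ⟨m, hm1, fun y hy => hm2 y.1 ⟨y, hy, rfl⟩⟩
  have h2 : ∃ m : ℤ, (∃ x ∈ B, x.2 = m) ∧ ∀ y ∈ B, m ≤ y.2 := by
    obtain ⟨m, hm1, hm2⟩ := Int.exists_least_of_bdd (P := fun m => ∃ x ∈ B, x.2 = m)
      ⟨x₀.2 - ℓ, by
        rintro z ⟨x, hx, rfl⟩
        have := (hd x hx x₀ hx₀).2
        omega⟩ ⟨x₀.2, x₀, hx₀, rfl⟩
    exact ⟨m, hm1, fun y hy => hm2 y.2 ⟨y, hy, rfl⟩⟩
  obtain ⟨m, ⟨x, hx, rfl⟩, hm⟩ := h1
  obtain ⟨m', ⟨x', hx', rfl⟩, hm'⟩ := h2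
  refine ⟨(x.1, x'.2), fun y hy => ?_⟩
  have h3 := (hd y hy x hx).1
  have h4 := (hd y hy x' hx').2
  have h5 := hm y hy
  have h6 := hm' y hy
  simp only [Q, Set.mem_ofPred_eq]
  refine ⟨h5, ?_, h6, ?_⟩ <;> omega

theorem dst_lt_of_mem_Q {lo : ℤ × ℤ} {ℓ : ℕ} {u v : ℤ × ℤ} (hu : u ∈ Q lo ℓ) (hv : v ∈ Q lo ℓ) :
    dst u v < ℓ := by
  simp only [Q, Set.mem_ofPred_eq] at hu hv
  unfold dst
  rw [max_lt_iff]
  constructor <;> omega

end Lnk

open Lnk in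
theorem link {w : Sym2 (ℤ × ℤ) → ℝ} {M : ℝ} {a b : ℤ × ℤ} {ℓ : ℕ} (hℓ : 1 ≤ ℓ)
    (hs1 : a.1 + ℓ ≤ b.1) (hs2 : a.2 + ℓ ≤ b.2) (hno : NoChain w M (Rect a b) ℓ)
    {x x' y y' : ℤ × ℤ} (p₁ : Z2.Walk x x') (p₂ : Z2.Walk y y')
    (h1 : ∀ v ∈ p₁.support, v ∈ Rect a b) (h2 : ∀ v ∈ p₂.support, v ∈ Rect a b)
    (hd1 : ∃ u ∈ p₁.support, ∃ v ∈ p₁.support, ℓ ≤ dst u v)
    (hd2 : ∃ u ∈ p₂.support, ∃ v ∈ p₂.support, ℓ ≤ dst u v) :
    ∃ u ∈ p₁.support, ∃ v ∈ p₂.support, ∃ q : Z2.Walk u v, q.IsPath ∧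
      (∀ z ∈ q.support, z ∈ Rect a b) ∧ ∀ e ∈ q.edges, w e ≤ M := by
  classical
  -- vertices reached from `p₁` by light walks
  let R1 : Set (ℤ × ℤ) := {z | ∃ u ∈ p₁.support, ∃ q : Z2.Walk u z,
    (∀ v ∈ q.support, v ∈ Rect a b) ∧ ∀ e ∈ q.edges, w e ≤ M}
  by_contra hcon
  have hdisj : ∀ v ∈ p₂.support, v ∉ R1 := by
    rintro v hv ⟨u, hu, q, hq1, hq2⟩
    apply hcon
    refine ⟨u, hu, v, hv, q.bypass, q.bypass_isPath, fun z hz => hq1 z (q.support_bypass_subset_support hz),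
      fun e he => hq2 e (q.edges_bypass_subset_edges he)⟩
  have hR1sub : R1 ⊆ Rect a b := by
    rintro z ⟨u, hu, q, hq1, hq2⟩
    exact hq1 z q.end_mem_support
  have hp1R : ∀ v ∈ p₁.support, v ∈ R1 := fun v hv =>
    ⟨v, hv, SimpleGraph.Walk.nil, by intro z hz; simp at hz; rw [hz]; exact h1 v hv, by simp⟩
  -- `R1` is connected
  have hR1conn : ∀ z ∈ R1, Cn R1 x z := by
    rintro z ⟨u, hu, q, hq1, hq2⟩
    have hc1 : Cn R1 x u := Cn.of_mem p₁ hp1R hu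
    refine hc1.trans ⟨q, fun v hv => ⟨u, hu, q.takeUntil v hv, fun t ht =>
      hq1 t (q.support_takeUntil_subset_support hv ht), fun e he =>
      hq2 e (q.edges_takeUntil_subset_edges hv he)⟩⟩
  -- the component of `p₂`
  let K : Set (ℤ × ℤ) := {z | Cn (Rect a b \ R1) y z}
  have hKsub : K ⊆ Rect a b := fun z hz => hz.right.1
  have hKR1 : ∀ z ∈ K, z ∉ R1 := fun z hz => hz.right.2
  have hp2' : ∀ v ∈ p₂.support, v ∈ Rect a b \ R1 := fun v hv => ⟨h2 v hv, hdisj v hv⟩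
  have hp2K : ∀ v ∈ p₂.support, v ∈ K := fun v hv => Cn.of_mem p₂ hp2' hv
  have hKc : ∀ x ∈ K, ∀ y ∈ K, ∃ q : Z2.Walk x y, ∀ v ∈ q.support, v ∈ K := by
    have hyz : ∀ z ∈ K, Cn K y z := by
      rintro z ⟨q, hq⟩
      exact ⟨q, fun v hv => Cn.of_mem q hq hv⟩
    intro u hu v hv
    exact (hyz u hu).symm.trans (hyz v hv)
  -- neighbours of `K` in `Rect \ K` are in `R1`
  have hnb : ∀ v ∈ K, ∀ v' ∈ Rect a b \ K, Z2.Adj v v' → v' ∈ R1 := by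
    intro v hv v' hv' hadj
    by_contra hcon'
    exact hv'.2 (Cn.trans hv (Cn.step hv.right ⟨hv'.1, hcon'⟩ hadj))
  have hR1K : ∀ z ∈ R1, z ∈ Rect a b \ K := fun z hz => ⟨hR1sub hz, fun h => hKR1 z h hz⟩
  have hKc' : ∀ x ∈ Rect a b \ K, ∀ y ∈ Rect a b \ K,
      ∃ q : Z2.Walk x y, ∀ v ∈ q.support, v ∈ Rect a b \ K := by
    have hx0 : x ∈ R1 := hp1R x p₁.start_mem_support
    have hall : ∀ z ∈ Rect a b \ K, Cn (Rect a b \ K) z x := by
      intro z hz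
      by_cases hzR : z ∈ R1
      · exact ((hR1conn z hzR).mono (fun v hv => hR1K v hv)).symm
      · -- the component of `z` in `Rect \ R1`
        let K' : Set (ℤ × ℤ) := {v | Cn (Rect a b \ R1) z v}
        have hzK' : z ∈ K' := Cn.refl ⟨hz.1, hzR⟩
        have hxK' : x ∉ K' := fun h => h.right.2 hx0
        obtain ⟨v, v', hv, hvK', hv', hv'K', hadj⟩ :=
          (rect_conn hz.1 (hR1sub hx0)).exit hzK' hxK'
        have hv'R : v' ∈ R1 := by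
          by_contra hcon'
          exact hv'K' (Cn.trans hvK' (Cn.step hvK'.right ⟨hv', hcon'⟩ hadj))
        have hsub : ∀ t ∈ K', t ∈ Rect a b \ K := by
          intro t ht
          refine ⟨ht.right.1, fun htK => hz.2 ?_⟩
          exact Cn.trans htK ht.symm
        have h3 : Cn (Rect a b \ K) z v := by
          obtain ⟨q, hq⟩ := hvK'
          exact ⟨q, fun t ht => hsub t (Cn.of_mem q hq ht)⟩
        have h4 : Cn (Rect a b \ K) v v' := Cn.step h3.right (hR1K v' hv'R) hadj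
        exact (h3.trans h4).trans ((hR1conn v' hv'R).mono (fun v hv => hR1K v hv)).symm
    intro u hu v hv
    exact (hall u hu).trans (hall v hv).symm
  -- the inner boundary
  let B : Set (ℤ × ℤ) := {v | v ∈ K ∧ ∃ v' ∈ Rect a b \ K, Z2.Adj v v'}
  have hbad : ∀ v ∈ B, BadV w M v := by
    rintro v ⟨hv, v', hv', hadj⟩
    refine ⟨v', hadj, ?_⟩
    by_contra hcon'
    push Not at hcon'
    obtain ⟨u, hu, q, hq1, hq2⟩ := hnb v hv v' hv' hadj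
    apply hKR1 v hv
    refine ⟨u, hu, q.append (SimpleGraph.Walk.cons hadj.symm SimpleGraph.Walk.nil), ?_, ?_⟩
    · intro t ht
      rw [SimpleGraph.Walk.mem_support_append_iff] at ht
      rcases ht with ht | ht
      · exact hq1 t ht
      · simp at ht
        rcases ht with rfl | rfl
        · exact hv'.1
        · exact hKsub hv
    · intro e he
      rw [SimpleGraph.Walk.edges_append, List.mem_append] at he
      rcases he with he | he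
      · exact hq2 e he
      · simp at he
        rw [he, Sym2.eq_swap]
        exact hcon'
  have hBd : ∀ u ∈ B, ∀ v ∈ B, dst u v < ℓ := by
    intro u hu v hv
    obtain ⟨L, hL, huL, hvL, hall⟩ := unicoherent hKsub hKc hKc' hu hv
    exact hno L hL (fun t ht => ⟨hKsub (hall t ht).1, hbad t (hall t ht)⟩) u huL v hvL
  have hyK : y ∈ K := hp2K y p₂.start_mem_support
  have hxnK : x ∉ K := (hR1K x (hp1R x p₁.start_mem_support)).2
  have hBne : B.Nonempty := by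
    obtain ⟨v, v', hv, hvK, hv', hv'K, hadj⟩ :=
      (rect_conn (hKsub hyK) (h1 x p₁.start_mem_support)).exit hyK hxnK
    exact ⟨v, hvK, v', ⟨hv', hv'K⟩, hadj⟩
  obtain ⟨lo, hlo⟩ := exists_box hBne hBd
  have hdich : ∀ u ∈ Rect a b \ Q lo ℓ, ∀ v ∈ Rect a b \ Q lo ℓ, u ∈ K → v ∈ K := by
    intro u hu v hv huK
    by_contra hvK
    obtain ⟨t, t', ht, htK, ht', ht'K, hadj⟩ :=
      (rect_diff_conn hs1 hs2 lo hu hv).exit huK hvK
    exact ht.2 (hlo ⟨htK, t', ⟨ht'.1, ht'K⟩, hadj⟩)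
  by_cases hcase : ∃ u ∈ Rect a b \ Q lo ℓ, u ∈ K
  · obtain ⟨u, hu, huK⟩ := hcase
    obtain ⟨s, hs, t, ht, hst⟩ := hd1
    have hsQ : s ∈ Q lo ℓ := by
      by_contra hcon'
      exact (hR1K s (hp1R s hs)).2 (hdich u hu s ⟨h1 s hs, hcon'⟩ huK)
    have htQ : t ∈ Q lo ℓ := by
      by_contra hcon'
      exact (hR1K t (hp1R t ht)).2 (hdich u hu t ⟨h1 t ht, hcon'⟩ huK)
    exact absurd (dst_lt_of_mem_Q hsQ htQ) (not_lt.2 hst)
  · push Not at hcase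
    obtain ⟨s, hs, t, ht, hst⟩ := hd2
    have hsQ : s ∈ Q lo ℓ := by
      by_contra hcon'
      exact hcase s ⟨h2 s hs, hcon'⟩ (hp2K s hs)
    have htQ : t ∈ Q lo ℓ := by
      by_contra hcon'
      exact hcase t ⟨h2 t ht, hcon'⟩ (hp2K t ht)
    exact absurd (dst_lt_of_mem_Q hsQ htQ) (not_lt.2 hst)

end Pool.Agent.Helper33_FPP
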