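import Pool.Agent.Helper33_FPP.Bypass

/-! # Unicoherence of a rectangle of the square grid -/

set_option autoImplicit false

namespace Pool.Agent.Helper33_FPP

namespace Uni

/-- A closed `ZMod 2`-valued edge function on a rectangle is exact. -/
theorem exact {M N : ℕ} (h w : ℕ → ℕ → ZMod 2)
    (hc : ∀ m n, m < M → n < N → h m n + w (m + 1) n + h m (n + 1) + w m n = 0) :
    ∃ φ : ℕ → ℕ → ZMod 2, (∀ m n, φ m (n + 1) = φ m n + w m n) ∧
      ∀ m n, m < M → n ≤ N → φ (m + 1) n = φ m n + h m n := by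
  refine ⟨fun m n => ∑ i ∈ Finset.range m, h i 0 + ∑ j ∈ Finset.range n, w m j, ?_, ?_⟩
  · intro m n
    simp only [Finset.sum_range_succ, add_assoc]
  · intro m n hm hn
    induction n with
    | zero => simp [Finset.sum_range_succ]
    | succ n ih =>
      have ih' := ih (by omega)
      have hc' := hc m n hm (by omega)
      simp only [Finset.sum_range_succ] at ih' ⊢
      have two : (2 : ZMod 2) = 0 := by decide
      linear_combination ih' + hc' - (w m n + h m (n + 1)) * two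

theorem square_bool : ∀ k0 k1 k2 k3 c0 c1 c2 c3 : Bool,
    ((k0 && (!k1 || !k3)) = true → (k1 && (!k0 || !k2)) = true → c0 = c1) →
    ((k0 && (!k1 || !k3)) = true → (k2 && (!k1 || !k3)) = true → c0 = c2) →
    ((k0 && (!k1 || !k3)) = true → (k3 && (!k2 || !k0)) = true → c0 = c3) →
    ((k1 && (!k0 || !k2)) = true → (k2 && (!k1 || !k3)) = true → c1 = c2) →
    ((k1 && (!k0 || !k2)) = true → (k3 && (!k2 || !k0)) = true → c1 = c3) →
    ((k2 && (!k1 || !k3)) = true → (k3 && (!k2 || !k0)) = true → c2 = c3) →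
    (if ((k0 && (!k1 && c0)) || (k1 && (!k0 && c1))) = true then (1 : ZMod 2) else 0) +
      (if ((k1 && (!k2 && c1)) || (k2 && (!k1 && c2))) = true then (1 : ZMod 2) else 0) +
      (if ((k3 && (!k2 && c3)) || (k2 && (!k3 && c2))) = true then (1 : ZMod 2) else 0) +
      (if ((k0 && (!k3 && c0)) || (k3 && (!k0 && c3))) = true then (1 : ZMod 2) else 0) = 0 := by
  intro k0 k1 k2 k3 c0 c1 c2 c3
  cases k0 <;> cases k1 <;> cases k2 <;> cases k3 <;> cases c0 <;> cases c1 <;> cases c2 <;>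
    cases c3 <;> intro h1 h2 h3 h4 h5 h6 <;> first | decide | (simp at *)

open Classical in
theorem square (k0 k1 k2 k3 c0 c1 c2 c3 : Prop)
    (h01 : k0 ∧ (¬ k1 ∨ ¬ k3) → k1 ∧ (¬ k0 ∨ ¬ k2) → (c0 ↔ c1))
    (h02 : k0 ∧ (¬ k1 ∨ ¬ k3) → k2 ∧ (¬ k1 ∨ ¬ k3) → (c0 ↔ c2))
    (h03 : k0 ∧ (¬ k1 ∨ ¬ k3) → k3 ∧ (¬ k2 ∨ ¬ k0) → (c0 ↔ c3))
    (h12 : k1 ∧ (¬ k0 ∨ ¬ k2) → k2 ∧ (¬ k1 ∨ ¬ k3) → (c1 ↔ c2))
    (h13 : k1 ∧ (¬ k0 ∨ ¬ k2) → k3 ∧ (¬ k2 ∨ ¬ k0) → (c1 ↔ c3))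
    (h23 : k2 ∧ (¬ k1 ∨ ¬ k3) → k3 ∧ (¬ k2 ∨ ¬ k0) → (c2 ↔ c3)) :
    (if (k0 ∧ ¬ k1 ∧ c0) ∨ (k1 ∧ ¬ k0 ∧ c1) then (1 : ZMod 2) else 0) +
      (if (k1 ∧ ¬ k2 ∧ c1) ∨ (k2 ∧ ¬ k1 ∧ c2) then (1 : ZMod 2) else 0) +
      (if (k3 ∧ ¬ k2 ∧ c3) ∨ (k2 ∧ ¬ k3 ∧ c2) then (1 : ZMod 2) else 0) +
      (if (k0 ∧ ¬ k3 ∧ c0) ∨ (k3 ∧ ¬ k0 ∧ c3) then (1 : ZMod 2) else 0) = 0 := by
  have key := square_bool (decide k0) (decide k1) (decide k2) (decide k3) (decide c0) (decide c1)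
    (decide c2) (decide c3) (by simpa using h01) (by simpa using h02) (by simpa using h03)
    (by simpa using h12) (by simpa using h13) (by simpa using h23)
  simpa using key

end Uni

open Uni in
theorem unicoherent {a b : ℤ × ℤ} {K : Set (ℤ × ℤ)} (hK : K ⊆ Rect a b)
    (hKc : ∀ x ∈ K, ∀ y ∈ K, ∃ q : Z2.Walk x y, ∀ v ∈ q.support, v ∈ K)
    (hKc' : ∀ x ∈ Rect a b \ K, ∀ y ∈ Rect a b \ K,
      ∃ q : Z2.Walk x y, ∀ v ∈ q.support, v ∈ Rect a b \ K)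
    {x y : ℤ × ℤ} (hx : x ∈ K ∧ ∃ x' ∈ Rect a b \ K, Z2.Adj x x')
    (hy : y ∈ K ∧ ∃ y' ∈ Rect a b \ K, Z2.Adj y y') :
    ∃ L : List (ℤ × ℤ), L.IsChain (fun a b => dst a b ≤ 1) ∧ x ∈ L ∧ y ∈ L ∧
      ∀ v ∈ L, v ∈ K ∧ ∃ v' ∈ Rect a b \ K, Z2.Adj v v' := by
  classical
  let Bd : ℤ × ℤ → Prop := fun v => v ∈ K ∧ ∃ v' ∈ Rect a b \ K, Z2.Adj v v'
  let C : ℤ × ℤ → Prop := fun v => ∃ L : List (ℤ × ℤ),
    (v :: L).IsChain (fun a b => dst a b ≤ 1) ∧ x ∈ v :: L ∧ ∀ u ∈ v :: L, Bd u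
  have hCx : C x := ⟨[], by simp, by simp, by
    intro u hu
    have : u = x := by simpa using hu
    rw [this]
    exact hx⟩
  have hCstep : ∀ u v, C v → Bd u → dst u v ≤ 1 → C u := by
    rintro u v ⟨L, h1, h2, h3⟩ hu hd
    refine ⟨v :: L, ?_, List.mem_cons_of_mem _ h2, ?_⟩
    · rw [List.isChain_cons_cons]
      exact ⟨hd, h1⟩
    · intro z hz
      rcases List.mem_cons.1 hz with rfl | hz
      · exact hu
      · exact h3 z hz
  by_cases hCy : C y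
  · obtain ⟨L, h1, h2, h3⟩ := hCy
    exact ⟨y :: L, h1, h2, by simp, h3⟩
  exfalso
  have dsymm : ∀ u v : ℤ × ℤ, dst u v = dst v u := by
    intro u v
    unfold dst
    have h1 : (u.1 - v.1).natAbs = (v.1 - u.1).natAbs := by omega
    have h2 : (u.2 - v.2).natAbs = (v.2 - u.2).natAbs := by omega
    rw [h1, h2]
  have hCiff : ∀ u v, Bd u → Bd v → dst u v ≤ 1 → (C u ↔ C v) := fun u v hu hv hd =>
    ⟨fun h => hCstep v u h hv (by rw [dsymm]; exact hd), fun h => hCstep u v h hu hd⟩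
  let g : ℤ × ℤ → ℤ × ℤ → ZMod 2 := fun u v =>
    if (u ∈ K ∧ ¬ v ∈ K ∧ C u) ∨ (v ∈ K ∧ ¬ u ∈ K ∧ C v) then 1 else 0
  have gsymm : ∀ u v, g u v = g v u := by
    intro u v
    simp only [g]
    congr 1
    exact propext or_comm
  -- closedness
  have hclosed : ∀ i j : ℤ, (i, j) ∈ Rect a b → (i + 1, j + 1) ∈ Rect a b →
      g (i, j) (i + 1, j) + g (i + 1, j) (i + 1, j + 1) + g (i, j + 1) (i + 1, j + 1) +
        g (i, j) (i, j + 1) = 0 := by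
    intro i j h1 h2
    have m0 : (i, j) ∈ Rect a b := h1
    have m1 : (i + 1, j) ∈ Rect a b := by
      obtain ⟨p1, p2, p3, p4⟩ := h1
      obtain ⟨q1, q2, q3, q4⟩ := h2
      exact ⟨q1, q2, p3, p4⟩
    have m2 : (i + 1, j + 1) ∈ Rect a b := h2
    have m3 : (i, j + 1) ∈ Rect a b := by
      obtain ⟨p1, p2, p3, p4⟩ := h1
      obtain ⟨q1, q2, q3, q4⟩ := h2
      exact ⟨p1, p2, q3, q4⟩
    have bd : ∀ u v w : ℤ × ℤ, v ∈ Rect a b → w ∈ Rect a b → Z2.Adj u v → Z2.Adj u w →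
        u ∈ K ∧ (¬ v ∈ K ∨ ¬ w ∈ K) → Bd u := by
      rintro u v w hv hw hv' hw' ⟨h1, h2 | h2⟩
      · exact ⟨h1, v, ⟨hv, h2⟩, hv'⟩
      · exact ⟨h1, w, ⟨hw, h2⟩, hw'⟩
    have a01 : Z2.Adj (i, j) (i + 1, j) := by simp [Z2]
    have a03 : Z2.Adj (i, j) (i, j + 1) := by simp [Z2]
    have a12 : Z2.Adj (i + 1, j) (i + 1, j + 1) := by simp [Z2]
    have a32 : Z2.Adj (i, j + 1) (i + 1, j + 1) := by simp [Z2]
    have b0 := bd (i, j) (i + 1, j) (i, j + 1) m1 m3 a01 a03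
    have b1 := bd (i + 1, j) (i, j) (i + 1, j + 1) m0 m2 a01.symm a12
    have b2 := bd (i + 1, j + 1) (i + 1, j) (i, j + 1) m1 m3 a12.symm a32.symm
    have b3 := bd (i, j + 1) (i + 1, j + 1) (i, j) m2 m0 a32 a03.symm
    have d01 : dst (i, j) (i + 1, j) ≤ 1 := by simp [dst]
    have d02 : dst (i, j) (i + 1, j + 1) ≤ 1 := by simp [dst]
    have d03 : dst (i, j) (i, j + 1) ≤ 1 := by simp [dst]
    have d12 : dst (i + 1, j) (i + 1, j + 1) ≤ 1 := by simp [dst]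
    have d13 : dst (i + 1, j) (i, j + 1) ≤ 1 := by simp [dst]
    have d23 : dst (i + 1, j + 1) (i, j + 1) ≤ 1 := by simp [dst]
    exact square _ _ _ _ (C (i, j)) (C (i + 1, j)) (C (i + 1, j + 1)) (C (i, j + 1))
      (fun h h' => hCiff _ _ (b0 h) (b1 h') d01) (fun h h' => hCiff _ _ (b0 h) (b2 h') d02)
      (fun h h' => hCiff _ _ (b0 h) (b3 h') d03) (fun h h' => hCiff _ _ (b1 h) (b2 h') d12)
      (fun h h' => hCiff _ _ (b1 h) (b3 h') d13) (fun h h' => hCiff _ _ (b2 h) (b3 h') d23)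
  -- potential
  obtain ⟨φ, hφ1, hφ2⟩ := exact (M := (b.1 - a.1).toNat) (N := (b.2 - a.2).toNat)
    (fun m n => g (a.1 + m, a.2 + n) (a.1 + m + 1, a.2 + n))
    (fun m n => g (a.1 + m, a.2 + n) (a.1 + m, a.2 + n + 1)) (by
      intro m n hm hn
      have := hclosed (a.1 + m) (a.2 + n) ⟨by simp, by simp; omega, by simp, by simp; omega⟩
        ⟨by simp; omega, by simp; omega, by simp; omega, by simp; omega⟩
      push_cast
      rw [← this]
      simp only [add_assoc])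
  let Φ : ℤ × ℤ → ZMod 2 := fun v => φ (v.1 - a.1).toNat (v.2 - a.2).toNat
  have hright : ∀ v : ℤ × ℤ, v ∈ Rect a b → (v.1 + 1, v.2) ∈ Rect a b →
      Φ (v.1 + 1, v.2) = Φ v + g v (v.1 + 1, v.2) := by
    rintro ⟨i, j⟩ ⟨p1, p2, p3, p4⟩ ⟨q1, q2, q3, q4⟩
    simp only at p1 p2 p3 p4 q1 q2 q3 q4
    have h := hφ2 (i - a.1).toNat (j - a.2).toNat (by omega) (by omega)
    have e1 : (i + 1 - a.1).toNat = (i - a.1).toNat + 1 := by omega
    have e2 : a.1 + ((i - a.1).toNat : ℤ) = i := by omega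
    have e3 : a.2 + ((j - a.2).toNat : ℤ) = j := by omega
    simp only [e2, e3] at h
    simp only [Φ, e1]
    exact h
  have hup : ∀ v : ℤ × ℤ, v ∈ Rect a b → (v.1, v.2 + 1) ∈ Rect a b →
      Φ (v.1, v.2 + 1) = Φ v + g v (v.1, v.2 + 1) := by
    rintro ⟨i, j⟩ ⟨p1, p2, p3, p4⟩ ⟨q1, q2, q3, q4⟩
    simp only at p1 p2 p3 p4 q1 q2 q3 q4
    have h := hφ1 (i - a.1).toNat (j - a.2).toNat
    have e1 : (j + 1 - a.2).toNat = (j - a.2).toNat + 1 := by omega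
    have e2 : a.1 + ((i - a.1).toNat : ℤ) = i := by omega
    have e3 : a.2 + ((j - a.2).toNat : ℤ) = j := by omega
    simp only [e2, e3] at h
    simp only [Φ, e1]
    exact h
  have two : (2 : ZMod 2) = 0 := by decide
  have hΦ : ∀ u v : ℤ × ℤ, u ∈ Rect a b → v ∈ Rect a b → Z2.Adj u v → Φ v = Φ u + g u v := by
    rintro ⟨i, j⟩ ⟨k, l⟩ hu hv hadj
    have hadj' : (i - k).natAbs + (j - l).natAbs = 1 := hadj
    have cases : (k = i + 1 ∧ l = j) ∨ (i = k + 1 ∧ l = j) ∨ (k = i ∧ l = j + 1) ∨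
        (k = i ∧ j = l + 1) := by omega
    rcases cases with ⟨rfl, rfl⟩ | ⟨rfl, rfl⟩ | ⟨rfl, rfl⟩ | ⟨rfl, rfl⟩
    · exact hright (i, l) hu hv
    · have := hright (k, l) hv hu
      rw [gsymm]
      linear_combination -this - g (k, l) (k + 1, l) * two
    · exact hup (k, j) hu hv
    · have := hup (k, l) hv hu
      rw [gsymm]
      linear_combination -this - g (k, l) (k, l + 1) * two
  have gK : ∀ u v, u ∈ K → v ∈ K → g u v = 0 := by
    intro u v hu hv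
    simp [g, hu, hv]
  have gK' : ∀ u v, u ∉ K → v ∉ K → g u v = 0 := by
    intro u v hu hv
    simp [g, hu, hv]
  have hwalk : ∀ {u v : ℤ × ℤ} (q : Z2.Walk u v), (∀ z ∈ q.support, z ∈ K) → Φ u = Φ v := by
    intro u v q
    induction q with
    | nil => intro _; rfl
    | @cons p r s h q ih =>
      intro hq
      have hp : p ∈ K := hq p (by simp)
      have hr : r ∈ K := hq r (by simp)
      have h1 := hΦ p r (hK hp) (hK hr) h
      rw [gK p r hp hr, add_zero] at h1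
      rw [← h1]
      exact ih (fun z hz => hq z (by simp [hz]))
  have hwalk' : ∀ {u v : ℤ × ℤ} (q : Z2.Walk u v), (∀ z ∈ q.support, z ∈ Rect a b \ K) →
      Φ u = Φ v := by
    intro u v q
    induction q with
    | nil => intro _; rfl
    | @cons p r s h q ih =>
      intro hq
      have hp := hq p (by simp)
      have hr := hq r (by simp)
      have h1 := hΦ p r hp.1 hr.1 h
      rw [gK' p r hp.2 hr.2, add_zero] at h1
      rw [← h1]
      exact ih (fun z hz => hq z (by simp [hz]))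
  obtain ⟨hxK, x', hx', hxx'⟩ := hx
  obtain ⟨hyK, y', hy', hyy'⟩ := hy
  obtain ⟨q, hq⟩ := hKc x hxK y hyK
  obtain ⟨q', hq'⟩ := hKc' x' hx' y' hy'
  have e1 := hwalk q hq
  have e2 := hwalk' q' hq'
  have e3 := hΦ x x' (hK hxK) hx'.1 hxx'
  have e4 := hΦ y y' (hK hyK) hy'.1 hyy'
  have g1 : g x x' = 1 := by simp [g, hxK, hx'.2, hCx]
  have g2 : g y y' = 0 := by simp [g, hyK, hy'.2, hCy]
  rw [g1] at e3
  rw [g2, add_zero] at e4
  have : (1 : ZMod 2) = 0 := by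
    linear_combination -e3 + e4 - e1 + e2
  exact absurd this (by decide)

end Pool.Agent.Helper33_FPP
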