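import Pool.Agent.Helper33_FPP.Peierls

/-!
# Number of lattice animals

The number of connected sets of `n` vertices of the square lattice containing a given vertex is at
most `16 ^ n`: such a set is the set of vertices of a closed walk of length `2 (n - 1)`.
-/

set_option autoImplicit false

namespace Pool.Agent.Helper33_FPP

open Finset PeierlsAux

namespace AnimalsAux

/-- Vertex lists of walks with `m` steps from `x`. -/
def G : ℕ → (ℤ × ℤ) → Finset (List (ℤ × ℤ))
  | 0, x => {[x]}
  | (m + 1), x => (nb x).biUnion (fun v => (G m v).image (fun l => x :: l))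

lemma card_G : ∀ (m : ℕ) (x : ℤ × ℤ), (G m x).card ≤ 4 ^ m
  | 0, x => by simp [G]
  | (m + 1), x => by
    unfold G
    calc _ ≤ ∑ v ∈ nb x, ((G m v).image (fun l => x :: l)).card := Finset.card_biUnion_le
      _ ≤ ∑ v ∈ nb x, 4 ^ m := Finset.sum_le_sum fun v _ => Finset.card_image_le.trans (card_G m v)
      _ = (nb x).card * 4 ^ m := by simp
      _ ≤ 4 * 4 ^ m := Nat.mul_le_mul_right _ (card_nb x)
      _ = 4 ^ (m + 1) := by ring

lemma mem_G {x y : ℤ × ℤ} (q : Z2.Walk x y) : q.support ∈ G q.length x := by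
  induction q with
  | nil => simp [G]
  | @cons a b c h q ih =>
    simp only [SimpleGraph.Walk.support_cons, SimpleGraph.Walk.length_cons]
    unfold G
    rw [Finset.mem_biUnion]
    refine ⟨b, mem_nb h, ?_⟩
    rw [Finset.mem_image]
    exact ⟨q.support, ih, rfl⟩

/-- A proper subset of a connected set is adjacent to a further vertex. -/
lemma exists_adj {S A : Finset (ℤ × ℤ)} {z : ℤ × ℤ} (hz : z ∈ A) (hAS : A ⊆ S) (hne : A.card < S.card)
    (hS : (Z2.induce (S : Set (ℤ × ℤ))).Preconnected) : ∃ u ∈ A, ∃ v ∈ S, v ∉ A ∧ Z2.Adj u v := by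
  classical
  obtain ⟨s, hs, hsA⟩ : ∃ s ∈ S, s ∉ A := by
    by_contra h
    push Not at h
    exact absurd (Finset.card_le_card (fun s hs => h s hs : S ⊆ A)) (by omega)
  obtain ⟨p⟩ := hS ⟨z, hAS hz⟩ ⟨s, hs⟩
  obtain ⟨d, -, hd1, hd2⟩ := p.exists_boundary_dart {v | v.1 ∈ A} hz hsA
  exact ⟨d.fst.1, hd1, d.snd.1, d.snd.2, hd2, d.adj⟩

lemma exists_walk {S : Finset (ℤ × ℤ)} {z : ℤ × ℤ} (hz : z ∈ S)
    (hS : (Z2.induce (S : Set (ℤ × ℤ))).Preconnected) (j : ℕ) (hj : j < S.card) :
    ∃ q : Z2.Walk z z, q.length = 2 * j ∧ q.support.toFinset ⊆ S ∧ q.support.toFinset.card = j + 1 := by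
  classical
  induction j with
  | zero => exact ⟨.nil, rfl, by simpa using hz, by simp⟩
  | succ j ih =>
    obtain ⟨q, h1, h2, h3⟩ := ih (by omega)
    obtain ⟨u, hu, v, hv, hvA, huv⟩ := exists_adj (A := q.support.toFinset) (z := z) (by simp) h2
      (by omega) hS
    have hu' : u ∈ q.support := by simpa using hu
    refine ⟨(q.takeUntil u hu').append (.cons huv (.cons huv.symm (q.dropUntil u hu'))), ?_, ?_, ?_⟩
    · have := congrArg SimpleGraph.Walk.length (q.take_spec hu')
      rw [SimpleGraph.Walk.length_append] at this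
      simp only [SimpleGraph.Walk.length_append, SimpleGraph.Walk.length_cons]
      omega
    all_goals
      have hsup : ((q.takeUntil u hu').append (.cons huv (.cons huv.symm
          (q.dropUntil u hu')))).support.toFinset = insert v q.support.toFinset := by
        ext w
        have h4 : w ∈ q.support ↔ w ∈ (q.takeUntil u hu').support ∨ w ∈ (q.dropUntil u hu').support := by
          rw [← SimpleGraph.Walk.mem_support_append_iff, q.take_spec hu']
        simp only [List.mem_toFinset, SimpleGraph.Walk.mem_support_append_iff,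
          SimpleGraph.Walk.support_cons, List.mem_cons, Finset.mem_insert, h4]
        have h5 : u ∈ (q.takeUntil u hu').support := SimpleGraph.Walk.end_mem_support _
        constructor
        · rintro (h | rfl | rfl | h)
          · exact Or.inr (Or.inl h)
          · exact Or.inr (Or.inl h5)
          · exact Or.inl rfl
          · exact Or.inr (Or.inr h)
        · rintro (rfl | h | h)
          · exact Or.inr (Or.inr (Or.inl rfl))
          · exact Or.inl h
          · exact Or.inr (Or.inr (Or.inr h))
      rw [hsup]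
    · exact Finset.insert_subset hv h2
    · rw [Finset.card_insert_of_notMem hvA, h3]

end AnimalsAux

open AnimalsAux

/-- **Lattice animals**: at most `16 ^ n` connected sets of `n` vertices contain `z`. -/
theorem animal_count (n : ℕ) (z : ℤ × ℤ) (𝒜 : Finset (Finset (ℤ × ℤ)))
    (h : ∀ S ∈ 𝒜, z ∈ S ∧ S.card = n ∧ (Z2.induce (S : Set (ℤ × ℤ))).Preconnected) :
    𝒜.card ≤ 16 ^ n := by
  classical
  cases n with
  | zero =>
    have : 𝒜 = ∅ := by
      rw [Finset.eq_empty_iff_forall_notMem]
      intro S hS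
      obtain ⟨h1, h2, -⟩ := h S hS
      rw [Finset.card_eq_zero] at h2
      simp [h2] at h1
    simp [this]
  | succ n =>
    have hsub : 𝒜 ⊆ (G (2 * n) z).image List.toFinset := by
      intro S hS
      obtain ⟨h1, h2, h3⟩ := h S hS
      obtain ⟨q, hq1, hq2, hq3⟩ := exists_walk h1 h3 n (by omega)
      rw [Finset.mem_image]
      refine ⟨q.support, hq1 ▸ mem_G q, ?_⟩
      exact Finset.eq_of_subset_of_card_le hq2 (by omega)
    calc 𝒜.card ≤ ((G (2 * n) z).image List.toFinset).card := Finset.card_le_card hsub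
      _ ≤ (G (2 * n) z).card := Finset.card_image_le
      _ ≤ 4 ^ (2 * n) := card_G _ _
      _ = 16 ^ n := by rw [pow_mul]; norm_num
      _ ≤ 16 ^ (n + 1) := Nat.pow_le_pow_right (by norm_num) (by omega)

end Pool.Agent.Helper33_FPP
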