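import Mathlib

/-!
# First-passage percolation on the square lattice: basic definitions

`A x = x.1 + x.2` and `B x = x.1 - x.2` are the diagonal coordinates.  All finite-volume statements
use i.i.d. weights with finitely many values, so that expectations are finite sums (`Ex`).
-/

set_option autoImplicit false

namespace Pool.Agent.Helper33_FPP

/-- The nearest-neighbour graph on `ℤ × ℤ`. -/
def Z2 : SimpleGraph (ℤ × ℤ) where
  Adj x y := (x.1 - y.1).natAbs + (x.2 - y.2).natAbs = 1
  symm := ⟨by
    intro x y h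
    have h1 : (y.1 - x.1).natAbs = (x.1 - y.1).natAbs := by omega
    have h2 : (y.2 - x.2).natAbs = (x.2 - y.2).natAbs := by omega
    rw [h1, h2]
    exact h⟩
  loopless := ⟨by
    intro x h
    simp at h⟩

/-- First diagonal coordinate. -/
def A (x : ℤ × ℤ) : ℤ := x.1 + x.2

/-- Second diagonal coordinate. -/
def B (x : ℤ × ℤ) : ℤ := x.1 - x.2

/-- The weight of a walk. -/
def wt (w : Sym2 (ℤ × ℤ) → ℝ) {x y : ℤ × ℤ} (p : Z2.Walk x y) : ℝ := (p.edges.map w).sum

/-- The box of radius `R`. -/
noncomputable def box (R : ℕ) : Finset (ℤ × ℤ) := Finset.Icc (-(R : ℤ)) R ×ˢ Finset.Icc (-(R : ℤ)) R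

/-- The lattice edges inside the box of radius `R`. -/
noncomputable def edgesIn (R : ℕ) : Finset (Sym2 (ℤ × ℤ)) := by
  classical
  exact ((box R).sym2).filter (fun e => e ∈ Z2.edgeSet)

/-- Index type of the edges inside the box of radius `R`. -/
abbrev EIdx (R : ℕ) : Type := {e : Sym2 (ℤ × ℤ) // e ∈ edgesIn R}

/-- The weights given by a configuration `ω` of finitely many values; zero outside the box. -/
noncomputable def wOf {R : ℕ} {V : Type} (val : V → ℝ) (ω : EIdx R → V) (e : Sym2 (ℤ × ℤ)) : ℝ := by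
  classical
  exact if h : e ∈ edgesIn R then val (ω ⟨e, h⟩) else 0

/-- Expectation of `f` under the product of the one-coordinate weights `p`. -/
noncomputable def Ex {ι V : Type*} [Fintype ι] [DecidableEq ι] [Fintype V] (p : V → ℝ)
    (f : (ι → V) → ℝ) : ℝ :=
  ∑ ω : ι → V, (∏ i, p (ω i)) * f ω

/-- `p` is a probability vector. -/
structure IsProb {V : Type*} [Fintype V] (p : V → ℝ) : Prop where
  nonneg : ∀ v, 0 ≤ p v
  sum_eq : ∑ v, p v = 1

/-- Probability of an event under the product of the one-coordinate weights `p`. -/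
noncomputable def Pr {ι V : Type*} [Fintype ι] [DecidableEq ι] [Fintype V] (p : V → ℝ)
    (E : (ι → V) → Prop) : ℝ := by
  classical
  exact Ex p (fun ω => if E ω then 1 else 0)

/-- Smallest weight of a member of a finite nonempty family of edge sets. -/
noncomputable def minW {ι : Type*} (𝒮 : Finset (Finset ι)) (h : 𝒮.Nonempty) (x : ι → ℝ) : ℝ :=
  𝒮.inf' h (fun S => ∑ i ∈ S, x i)

/-- Every self-avoiding walk in the box of radius `R` with at least `m₀` edges has at least a
proportion `θ` of edges of weight at least `hi`. -/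
def PGood (R m₀ : ℕ) (θ hi : ℝ) (w : Sym2 (ℤ × ℤ) → ℝ) : Prop := by
  classical
  exact ∀ (x y : ℤ × ℤ) (q : Z2.Walk x y), q.IsPath → (∀ v ∈ q.support, v ∈ box R) →
    m₀ ≤ q.length → θ * q.length ≤ ((q.edges.filter (fun e => hi ≤ w e)).length : ℝ)

end Pool.Agent.Helper33_FPP
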