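import Mathlib
import Pool.Agent.Helper33_FPP.Basic

/-!
# Peierls counting for self-avoiding walks with few heavy edges
-/

set_option autoImplicit false

namespace Pool.Agent.Helper33_FPP

namespace PeierlsAux

open Finset

section PrBasics

variable {ι V : Type*} [Fintype ι] [DecidableEq ι] [Fintype V]

lemma Pr_eq (p : V → ℝ) (E : (ι → V) → Prop) [DecidablePred E] :
    Pr p E = ∑ ω : ι → V, (∏ i, p (ω i)) * (if E ω then 1 else 0) := by
  unfold Pr Ex
  refine Finset.sum_congr rfl fun ω _ => ?_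
  congr 1
  by_cases h : E ω <;> simp [h]

omit [DecidableEq ι] in
lemma prod_nonneg' {p : V → ℝ} (hp : IsProb p) (ω : ι → V) : 0 ≤ ∏ i, p (ω i) :=
  Finset.prod_nonneg fun _ _ => hp.nonneg _

lemma Pr_mono {p : V → ℝ} (hp : IsProb p) {E F : (ι → V) → Prop} (h : ∀ ω, E ω → F ω) :
    Pr p E ≤ Pr p F := by
  classical
  rw [Pr_eq, Pr_eq]
  refine Finset.sum_le_sum fun ω _ => ?_
  refine mul_le_mul_of_nonneg_left ?_ (prod_nonneg' hp ω)
  by_cases hE : E ω
  · simp [hE, h ω hE]
  · simp only [hE, if_false]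
    split_ifs <;> norm_num

lemma Pr_exists_le {α : Type*} {p : V → ℝ} (hp : IsProb p) (S : Finset α)
    (E : α → (ι → V) → Prop) :
    Pr p (fun ω => ∃ s ∈ S, E s ω) ≤ ∑ s ∈ S, Pr p (E s) := by
  classical
  simp only [Pr_eq]
  rw [Finset.sum_comm]
  refine Finset.sum_le_sum fun ω _ => ?_
  rw [← Finset.mul_sum]
  refine mul_le_mul_of_nonneg_left ?_ (prod_nonneg' hp ω)
  by_cases h : ∃ s ∈ S, E s ω
  · rw [if_pos h]
    obtain ⟨s, hs, hE⟩ := h
    calc (1 : ℝ) = (if E s ω then 1 else 0) := by simp [hE]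
      _ ≤ ∑ s ∈ S, (if E s ω then (1 : ℝ) else 0) :=
          Finset.single_le_sum (f := fun s => if E s ω then (1 : ℝ) else 0)
            (fun i _ => by split_ifs <;> norm_num) hs
  · rw [if_neg h]
    exact Finset.sum_nonneg fun i _ => by split_ifs <;> norm_num

lemma Pr_markov {p : V → ℝ} (hp : IsProb p) {E : (ι → V) → Prop} {f : (ι → V) → ℝ}
    (hf : ∀ ω, 0 ≤ f ω) {c : ℝ} (h : ∀ ω, E ω → c ≤ f ω) :
    c * Pr p E ≤ Ex p f := by
  classical
  rw [Pr_eq, Ex, Finset.mul_sum]
  refine Finset.sum_le_sum fun ω _ => ?_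
  have := prod_nonneg' hp ω
  by_cases hE : E ω
  · simp only [hE, if_true, mul_one]
    rw [mul_comm]
    exact mul_le_mul_of_nonneg_left (h ω hE) this
  · simp only [hE, if_false, mul_zero]
    exact mul_nonneg this (hf ω)

lemma Ex_prod {p : V → ℝ} (hp : IsProb p) (T : Finset ι) (ζ : V → ℝ) :
    Ex p (fun ω : ι → V => ∏ i ∈ T, ζ (ω i)) = (∑ v, p v * ζ v) ^ T.card := by
  classical
  have h1 : ∀ ω : ι → V, (∏ i, p (ω i)) * ∏ i ∈ T, ζ (ω i)
      = ∏ i, (p (ω i) * (if i ∈ T then ζ (ω i) else 1)) := by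
    intro ω
    rw [Finset.prod_mul_distrib]
    congr 1
    rw [← Finset.prod_filter_mul_prod_filter_not Finset.univ (fun i => i ∈ T)]
    have hA : ∏ i ∈ Finset.univ.filter (fun i => i ∈ T), (if i ∈ T then ζ (ω i) else 1)
        = ∏ i ∈ T, ζ (ω i) := by
      have : Finset.univ.filter (fun i => i ∈ T) = T := by ext; simp
      rw [this]
      exact Finset.prod_congr rfl fun i hi => by simp [hi]
    have hB : ∏ i ∈ Finset.univ.filter (fun i => ¬ i ∈ T), (if i ∈ T then ζ (ω i) else 1)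
        = 1 := by
      apply Finset.prod_eq_one
      intro i hi
      simp only [Finset.mem_filter, Finset.mem_univ, true_and] at hi
      simp [hi]
    rw [hA, hB, mul_one]
  unfold Ex
  simp only [h1]
  have h2 := (Finset.prod_univ_sum (fun _ : ι => (Finset.univ : Finset V))
    (fun i v => p v * (if i ∈ T then ζ v else 1))).symm
  rw [Fintype.piFinset_univ] at h2
  rw [h2]
  rw [← Finset.prod_filter_mul_prod_filter_not Finset.univ (fun i => i ∈ T)]
  have hA : ∏ i ∈ Finset.univ.filter (fun i => i ∈ T),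
      (∑ v, p v * (if i ∈ T then ζ v else 1)) = (∑ v, p v * ζ v) ^ T.card := by
    have : Finset.univ.filter (fun i => i ∈ T) = T := by ext; simp
    rw [this]
    rw [Finset.prod_congr rfl (g := fun _ => ∑ v, p v * ζ v) fun i hi => by simp [hi]]
    simp
  have hB : ∏ i ∈ Finset.univ.filter (fun i => ¬ i ∈ T),
      (∑ v, p v * (if i ∈ T then ζ v else 1)) = 1 := by
    apply Finset.prod_eq_one
    intro i hi
    simp only [Finset.mem_filter, Finset.mem_univ, true_and] at hi
    simp [hi, hp.sum_eq]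
  rw [hA, hB, mul_one]

end PrBasics

/-! ### Counting self-avoiding walks -/

/-- The four neighbours of a point. -/
def nb (x : ℤ × ℤ) : Finset (ℤ × ℤ) :=
  {(x.1 + 1, x.2), (x.1 - 1, x.2), (x.1, x.2 + 1), (x.1, x.2 - 1)}

lemma mem_nb {x y : ℤ × ℤ} (h : Z2.Adj x y) : y ∈ nb x := by
  obtain ⟨a, b⟩ := x
  obtain ⟨c, d⟩ := y
  simp only [Z2] at h
  simp only [nb, Finset.mem_insert, Finset.mem_singleton, Prod.mk.injEq]
  omega

lemma nb_symm {x y : ℤ × ℤ} (h : y ∈ nb x) : x ∈ nb y := by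
  obtain ⟨a, b⟩ := x
  obtain ⟨c, d⟩ := y
  simp only [nb, Finset.mem_insert, Finset.mem_singleton, Prod.mk.injEq] at h ⊢
  omega

lemma card_nb (x : ℤ × ℤ) : (nb x).card ≤ 4 := by
  unfold nb
  exact (Finset.card_le_four)

/-- Vertex lists of non-backtracking walks with `m` steps from `x` that do not step to `u` first. -/
def L : ℕ → (ℤ × ℤ) → (ℤ × ℤ) → Finset (List (ℤ × ℤ))
  | 0, _, x => {[x]}
  | (m + 1), u, x => ((nb x).erase u).biUnion (fun v => (L m x v).image (fun l => x :: l))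

/-- Vertex lists of non-backtracking walks with `m` steps from `x`. -/
def F : ℕ → (ℤ × ℤ) → Finset (List (ℤ × ℤ))
  | 0, x => {[x]}
  | (m + 1), x => (nb x).biUnion (fun v => (L m x v).image (fun l => x :: l))

lemma card_L : ∀ (m : ℕ) (u x : ℤ × ℤ), u ∈ nb x → (L m u x).card ≤ 3 ^ m
  | 0, u, x, _ => by simp [L]
  | (m + 1), u, x, hu => by
    unfold L
    calc _ ≤ ∑ v ∈ (nb x).erase u, ((L m x v).image (fun l => x :: l)).card :=
          Finset.card_biUnion_le
      _ ≤ ∑ v ∈ (nb x).erase u, 3 ^ m := by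
          refine Finset.sum_le_sum fun v hv => ?_
          refine Finset.card_image_le.trans ?_
          exact card_L m x v (nb_symm (Finset.mem_of_mem_erase hv))
      _ = ((nb x).erase u).card * 3 ^ m := by simp
      _ ≤ 3 * 3 ^ m := by
          refine Nat.mul_le_mul_right _ ?_
          rw [Finset.card_erase_of_mem hu]
          have := card_nb x
          omega
      _ = 3 ^ (m + 1) := by ring

lemma card_F (m : ℕ) (x : ℤ × ℤ) : (F m x).card ≤ 4 * 3 ^ m := by
  cases m with
  | zero => simp [F]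
  | succ m =>
    unfold F
    calc _ ≤ ∑ v ∈ nb x, ((L m x v).image (fun l => x :: l)).card :=
          Finset.card_biUnion_le
      _ ≤ ∑ v ∈ nb x, 3 ^ m := by
          refine Finset.sum_le_sum fun v hv => ?_
          refine Finset.card_image_le.trans ?_
          exact card_L m x v (nb_symm hv)
      _ = (nb x).card * 3 ^ m := by simp
      _ ≤ 4 * 3 ^ m := Nat.mul_le_mul_right _ (card_nb x)
      _ ≤ 4 * 3 ^ (m + 1) := by
          have : 3 ^ m ≤ 3 ^ (m + 1) := Nat.pow_le_pow_right (by norm_num) (by omega)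
          omega

lemma mem_L {x y : ℤ × ℤ} (q : Z2.Walk x y) : q.IsPath → ∀ u, u ∉ q.support →
    q.support ∈ L q.length u x := by
  induction q with
  | nil => intro _ u _; simp [L]
  | @cons a b c h q ih =>
    intro hq u hu
    rw [SimpleGraph.Walk.cons_isPath_iff] at hq
    simp only [SimpleGraph.Walk.support_cons, SimpleGraph.Walk.length_cons]
    unfold L
    rw [Finset.mem_biUnion]
    refine ⟨b, ?_, ?_⟩
    · rw [Finset.mem_erase]
      refine ⟨?_, mem_nb h⟩
      rintro rfl
      apply hu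
      simp
    · rw [Finset.mem_image]
      exact ⟨q.support, ih hq.1 a hq.2, rfl⟩

lemma mem_F {x y : ℤ × ℤ} (q : Z2.Walk x y) (hq : q.IsPath) :
    q.support ∈ F q.length x := by
  cases q with
  | nil => simp [F]
  | @cons a b c h q =>
    rw [SimpleGraph.Walk.cons_isPath_iff] at hq
    simp only [SimpleGraph.Walk.support_cons, SimpleGraph.Walk.length_cons]
    unfold F
    rw [Finset.mem_biUnion]
    refine ⟨b, mem_nb h, ?_⟩
    rw [Finset.mem_image]
    exact ⟨q.support, mem_L q hq.1 _ hq.2, rfl⟩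

/-- Consecutive pairs of a vertex list. -/
def eds : List (ℤ × ℤ) → List (Sym2 (ℤ × ℤ))
  | [] => []
  | [_] => []
  | a :: b :: l => s(a, b) :: eds (b :: l)

lemma edges_eq {x y : ℤ × ℤ} (q : Z2.Walk x y) : q.edges = eds q.support := by
  induction q with
  | nil => simp [eds]
  | @cons a b c h q ih =>
    rw [SimpleGraph.Walk.edges_cons, SimpleGraph.Walk.support_cons, ih]
    cases q with
    | nil => simp [eds]
    | cons h' q' => simp [eds]

/-! ### The bound for one edge list -/

/-- The event that an edge list has `m` distinct edges, all in the box, and few heavy ones. -/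
def Bad {R : ℕ} {V : Type} (val : V → ℝ) (hi θ : ℝ) (m : ℕ) (es : List (Sym2 (ℤ × ℤ)))
    (ω : EIdx R → V) : Prop := by
  classical
  exact es.Nodup ∧ es.length = m ∧ (∀ e ∈ es, e ∈ edgesIn R) ∧
    ((es.filter (fun e => hi ≤ wOf val ω e)).length : ℝ) ≤ θ * m

lemma mean_le {V : Type} [Fintype V] {p : V → ℝ} (hp : IsProb p) (val : V → ℝ) (hi p₀ K : ℝ)
    (hK : 0 < K) (hlow : (∑ v, if val v < hi then p v else 0) ≤ p₀) :
    ∑ v, p v * (if val v < hi then 1 else 1 / K) ≤ p₀ + 1 / K := by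
  have h1 : ∀ v, p v * (if val v < hi then 1 else 1 / K)
      ≤ (if val v < hi then p v else 0) + p v * (1 / K) := by
    intro v
    have h2 : 0 ≤ p v * (1 / K) := mul_nonneg (hp.nonneg v) (by positivity)
    split_ifs
    · linarith
    · linarith
  calc _ ≤ ∑ v, ((if val v < hi then p v else 0) + p v * (1 / K)) :=
        Finset.sum_le_sum fun v _ => h1 v
    _ = (∑ v, if val v < hi then p v else 0) + (∑ v, p v) * (1 / K) := by
        rw [Finset.sum_add_distrib, Finset.sum_mul]
    _ ≤ p₀ + 1 / K := by rw [hp.sum_eq]; linarith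

lemma Pr_bad_le {V : Type} [Fintype V] {p : V → ℝ} (hp : IsProb p) (val : V → ℝ)
    (hi p₀ K θ : ℝ) (hK : 1 ≤ K) (h0 : 0 ≤ p₀)
    (hlow : (∑ v, if val v < hi then p v else 0) ≤ p₀) (R m : ℕ) (es : List (Sym2 (ℤ × ℤ))) :
    Pr p (Bad (R := R) val hi θ m es) ≤ (K ^ θ * (p₀ + 1 / K)) ^ m := by
  classical
  have hK0 : 0 < K := by linarith
  have hrhs : 0 ≤ (K ^ θ * (p₀ + 1 / K)) ^ m := by positivity
  by_cases hes : es.Nodup ∧ es.length = m ∧ (∀ e ∈ es, e ∈ edgesIn R)
  swap
  · have : Pr p (Bad (R := R) val hi θ m es) = 0 := by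
      rw [Pr_eq]
      apply Finset.sum_eq_zero
      intro ω _
      rw [if_neg, mul_zero]
      intro hb
      exact hes ⟨hb.1, hb.2.1, hb.2.2.1⟩
    rw [this]
    exact hrhs
  obtain ⟨hnd, hlen, hin⟩ := hes
  set ζ : V → ℝ := fun v => if val v < hi then 1 else 1 / K with hζ
  set T : Finset (EIdx R) := Finset.univ.filter (fun i => i.1 ∈ es) with hT
  -- T is in bijection with es
  have hTmap : T.map (Function.Embedding.subtype _) = es.toFinset := by
    ext e
    simp only [hT, Finset.mem_map, Finset.mem_filter, Finset.mem_univ, true_and,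
      Function.Embedding.subtype_apply, List.mem_toFinset]
    constructor
    · rintro ⟨i, hi, rfl⟩
      exact hi
    · intro he
      exact ⟨⟨e, hin e he⟩, he, rfl⟩
  have hTcard : T.card = m := by
    rw [← Finset.card_map (Function.Embedding.subtype _), hTmap, List.toFinset_card_of_nodup hnd,
      hlen]
  have hprod : ∀ ω : EIdx R → V, ∏ i ∈ T, ζ (ω i)
      = (1 / K) ^ ((es.filter (fun e => hi ≤ wOf val ω e)).length) := by
    intro ω
    have h1 : (es.filter (fun e => hi ≤ wOf val ω e)).length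
        = (T.filter (fun i => hi ≤ val (ω i))).card := by
      rw [← List.toFinset_card_of_nodup (hnd.filter _),
        ← Finset.card_map (Function.Embedding.subtype _)]
      congr 1
      ext e
      simp only [List.mem_toFinset, List.mem_filter, decide_eq_true_eq, Finset.mem_map,
        Finset.mem_filter, hT, Finset.mem_univ, true_and, Function.Embedding.subtype_apply]
      constructor
      · rintro ⟨he, hw⟩
        refine ⟨⟨e, hin e he⟩, ⟨he, ?_⟩, rfl⟩
        unfold wOf at hw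
        rw [dif_pos (hin e he)] at hw
        exact hw
      · rintro ⟨i, ⟨hi1, hi2⟩, rfl⟩
        refine ⟨hi1, ?_⟩
        unfold wOf
        rw [dif_pos i.2]
        exact hi2
    rw [h1, ← Finset.prod_filter_mul_prod_filter_not T (fun i => hi ≤ val (ω i))]
    have hA : ∏ i ∈ T.filter (fun i => hi ≤ val (ω i)), ζ (ω i)
        = (1 / K) ^ (T.filter (fun i => hi ≤ val (ω i))).card := by
      rw [← Finset.prod_const]
      refine Finset.prod_congr rfl fun i hi' => ?_
      rw [Finset.mem_filter] at hi'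
      simp only [hζ]
      rw [if_neg (not_lt.mpr hi'.2)]
    have hB : ∏ i ∈ T.filter (fun i => ¬ hi ≤ val (ω i)), ζ (ω i) = 1 := by
      apply Finset.prod_eq_one
      intro i hi'
      rw [Finset.mem_filter] at hi'
      simp only [hζ]
      rw [if_pos (not_le.mp hi'.2)]
    rw [hA, hB, mul_one]
  have hmark := Pr_markov hp (E := Bad (R := R) val hi θ m es)
    (f := fun ω => ∏ i ∈ T, ζ (ω i)) (c := K ^ (-(θ * m)))
    (fun ω => by
      rw [hprod]
      positivity)
    (fun ω hb => by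
      show _ ≤ ∏ i ∈ T, ζ (ω i)
      rw [hprod, one_div, inv_pow, ← Real.rpow_natCast, ← Real.rpow_neg hK0.le]
      apply Real.rpow_le_rpow_of_exponent_le hK
      have := hb.2.2.2
      linarith)
  rw [Ex_prod hp, hTcard] at hmark
  have hmean : 0 ≤ ∑ v, p v * ζ v := Finset.sum_nonneg fun v _ =>
    mul_nonneg (hp.nonneg v) (by simp only [hζ]; split_ifs <;> positivity)
  have hmean2 : (∑ v, p v * ζ v) ≤ p₀ + 1 / K := mean_le hp val hi p₀ K hK0 hlow
  have hpow : (∑ v, p v * ζ v) ^ m ≤ (p₀ + 1 / K) ^ m := pow_le_pow_left₀ hmean hmean2 m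
  have hKm : 0 < K ^ (θ * m) := Real.rpow_pos_of_pos hK0 _
  have hinv : K ^ (-(θ * m)) = (K ^ (θ * m))⁻¹ := Real.rpow_neg hK0.le _
  rw [hinv] at hmark
  have h3 : Pr p (Bad (R := R) val hi θ m es) ≤ K ^ (θ * m) * (p₀ + 1 / K) ^ m := by
    have h4 : (K ^ (θ * m))⁻¹ * Pr p (Bad (R := R) val hi θ m es) ≤ (p₀ + 1 / K) ^ m :=
      hmark.trans hpow
    calc Pr p (Bad (R := R) val hi θ m es)
        = K ^ (θ * m) * ((K ^ (θ * m))⁻¹ * Pr p (Bad (R := R) val hi θ m es)) := by
          field_simp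
      _ ≤ K ^ (θ * m) * (p₀ + 1 / K) ^ m := mul_le_mul_of_nonneg_left h4 hKm.le
  refine h3.trans (le_of_eq ?_)
  rw [mul_pow, Real.rpow_mul hK0.le, Real.rpow_natCast]

end PeierlsAux

open PeierlsAux Finset

lemma PeierlsAux.exists_const (p₀ : ℝ) (h0 : 0 ≤ p₀) (h1 : p₀ < 1 / 3) :
    ∃ K θ : ℝ, 1 ≤ K ∧ 0 < θ ∧ θ ≤ 1 ∧ 3 * (K ^ θ * (p₀ + 1 / K)) < 1 := by
  set K : ℝ := 2 / (1 / 3 - p₀) with hK
  have hd : 0 < 1 / 3 - p₀ := by linarith
  have hK1 : 6 ≤ K := by
    rw [hK, le_div_iff₀ hd]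
    linarith
  have hK0 : 0 < K := by linarith
  have hinv : 1 / K = (1 / 3 - p₀) / 2 := by
    rw [hK]; field_simp
  set s : ℝ := 3 * (p₀ + 1 / K) with hs
  have hs1 : s < 1 := by rw [hs, hinv]; linarith
  have hs0 : 0 < s := by rw [hs]; positivity
  have hlogK : 0 < Real.log K := Real.log_pos (by linarith)
  have hlogs : Real.log s < 0 := Real.log_neg hs0 hs1
  refine ⟨K, min 1 (-Real.log s / (2 * Real.log K)), by linarith, ?_, min_le_left _ _, ?_⟩
  · apply lt_min one_pos
    apply div_pos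
    · linarith
    · linarith
  · have h2 : K ^ (min 1 (-Real.log s / (2 * Real.log K))) ≤ Real.exp (-Real.log s / 2) := by
      rw [Real.rpow_def_of_pos hK0]
      apply Real.exp_le_exp.mpr
      calc Real.log K * min 1 (-Real.log s / (2 * Real.log K))
          ≤ Real.log K * (-Real.log s / (2 * Real.log K)) :=
            mul_le_mul_of_nonneg_left (min_le_right _ _) hlogK.le
        _ = -Real.log s / 2 := by field_simp
    calc 3 * (K ^ (min 1 (-Real.log s / (2 * Real.log K))) * (p₀ + 1 / K))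
        = K ^ (min 1 (-Real.log s / (2 * Real.log K))) * s := by rw [hs]; ring
      _ ≤ Real.exp (-Real.log s / 2) * s := mul_le_mul_of_nonneg_right h2 hs0.le
      _ = Real.exp (-Real.log s / 2) * Real.exp (Real.log s) := by rw [Real.exp_log hs0]
      _ = Real.exp (Real.log s / 2) := by rw [← Real.exp_add]; congr 1; ring
      _ < 1 := by
          rw [Real.exp_lt_one_iff]
          linarith

lemma PeierlsAux.card_box (R : ℕ) : (box R).card = (2 * R + 1) ^ 2 := by
  unfold box
  rw [Finset.card_product]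
  simp only [Int.card_Icc]
  have : ((R : ℤ) + 1 - -(R : ℤ)).toNat = 2 * R + 1 := by omega
  rw [this]
  ring

/-- **Peierls bound**: except with exponentially small probability all long self-avoiding walks in
a box use a positive proportion of edges of weight at least `hi`. -/
theorem peierls (p₀ : ℝ) (h0 : 0 ≤ p₀) (h1 : p₀ < 1 / 3) : ∃ θ : ℝ, 0 < θ ∧ θ ≤ 1 ∧
    ∃ ρ : ℝ, 0 < ρ ∧ ρ < 1 ∧ ∃ C : ℝ, 0 < C ∧
    ∀ (V : Type) [Fintype V] (p : V → ℝ) (val : V → ℝ) (hi : ℝ), IsProb p →
      (∑ v, if val v < hi then p v else 0) ≤ p₀ → ∀ R m₀ : ℕ,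
      Pr p (fun ω : EIdx R → V => ¬ PGood R m₀ θ hi (wOf val ω)) ≤
        C * (2 * R + 1) ^ 2 * ρ ^ m₀ := by
  classical
  obtain ⟨K, θ, hK, hθ0, hθ1, hr⟩ := PeierlsAux.exists_const p₀ h0 h1
  have hK0 : 0 < K := by linarith
  set t : ℝ := K ^ θ * (p₀ + 1 / K) with ht
  have ht0 : 0 < t := by rw [ht]; positivity
  set r : ℝ := 3 * t with hrdef
  have hr0 : 0 < r := by rw [hrdef]; positivity
  refine ⟨θ, hθ0, hθ1, r, hr0, hr, 4 / (1 - r), by apply div_pos <;> linarith, ?_⟩
  intro V _ p val hi hp hlow R m₀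
  set M : ℕ := (box R).card + m₀ with hM
  set S : Finset ((ℤ × ℤ) × ℕ) := box R ×ˢ Finset.Ico m₀ (M + 1) with hS
  have hstep1 : Pr p (fun ω : EIdx R → V => ¬ PGood R m₀ θ hi (wOf val ω)) ≤
      Pr p (fun ω : EIdx R → V => ∃ s ∈ S.sigma (fun s => F s.2 s.1),
        Bad (R := R) val hi θ s.1.2 (eds s.2) ω) := by
    apply Pr_mono hp
    intro ω hω
    unfold PGood at hω
    push Not at hω
    obtain ⟨x, y, q, hq, hbox, hlen, hlt⟩ := hω
    have hmem : ∀ e ∈ q.edges, e ∈ edgesIn R := by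
      intro e he
      unfold edgesIn
      rw [Finset.mem_filter]
      refine ⟨?_, q.edges_subset_edgeSet he⟩
      induction e using Sym2.ind with
      | _ a b =>
        rw [Finset.mk_mem_sym2_iff]
        exact ⟨hbox a (q.fst_mem_support_of_mem_edges he),
          hbox b (q.snd_mem_support_of_mem_edges he)⟩
    refine ⟨⟨(x, q.length), q.support⟩, ?_, ?_⟩
    · rw [Finset.mem_sigma]
      refine ⟨?_, mem_F q hq⟩
      rw [hS, Finset.mem_product]
      refine ⟨hbox x q.start_mem_support, ?_⟩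
      rw [Finset.mem_Ico]
      refine ⟨hlen, ?_⟩
      have h5 : q.support.toFinset ⊆ box R := by
        intro v hv
        exact hbox v (List.mem_toFinset.mp hv)
      have h6 := Finset.card_le_card h5
      rw [List.toFinset_card_of_nodup hq.support_nodup, SimpleGraph.Walk.length_support] at h6
      show q.length < M + 1
      omega
    · show Bad (R := R) val hi θ q.length (eds q.support) ω
      rw [← edges_eq]
      refine ⟨hq.isTrail.edges_nodup, q.length_edges, hmem, ?_⟩
      convert hlt.le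
  refine hstep1.trans ?_
  refine (Pr_exists_le hp _ _).trans ?_
  rw [Finset.sum_sigma]
  calc ∑ s ∈ S, ∑ l ∈ F s.2 s.1, Pr p (Bad (R := R) val hi θ s.2 (eds l))
      ≤ ∑ s ∈ S, 4 * r ^ s.2 := by
        refine Finset.sum_le_sum fun s _ => ?_
        calc ∑ l ∈ F s.2 s.1, Pr p (Bad (R := R) val hi θ s.2 (eds l))
            ≤ ∑ l ∈ F s.2 s.1, t ^ s.2 := Finset.sum_le_sum fun l _ =>
              Pr_bad_le hp val hi p₀ K θ hK h0 hlow R s.2 (eds l)
          _ = (F s.2 s.1).card * t ^ s.2 := by simp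
          _ ≤ (4 * 3 ^ s.2) * t ^ s.2 := by
              refine mul_le_mul_of_nonneg_right ?_ (by positivity)
              exact_mod_cast card_F s.2 s.1
          _ = 4 * r ^ s.2 := by rw [hrdef, mul_pow 3 t]; ring
    _ = (2 * R + 1) ^ 2 * (4 * ∑ m ∈ Finset.Ico m₀ (M + 1), r ^ m) := by
        rw [hS, Finset.sum_product]
        simp only [Finset.sum_const, ← Finset.mul_sum]
        rw [PeierlsAux.card_box]
        simp
    _ ≤ (2 * R + 1) ^ 2 * (4 * (r ^ m₀ / (1 - r))) := by
        gcongr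
        exact geom_sum_Ico_le_of_lt_one hr0.le hr
    _ = 4 / (1 - r) * (2 * R + 1) ^ 2 * r ^ m₀ := by ring

end Pool.Agent.Helper33_FPP
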