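import Pool.Agent.Helper33_FPP.Basic

/-!
# Bernoulli bond percolation on the square lattice: definitions

Configurations are sets `O` of open edges (predicates on `Sym2 (ℤ × ℤ)`); finite-volume
probabilities are `Pr (bern t)` on `EIdx R → Bool`, with open edges `opn ω`.
The dual edge of `e` (in the coordinates in which the dual vertex `(i + 1/2, j + 1/2)` has index
`(i, j)`) crosses the edge `dualE e`.
-/

set_option autoImplicit false

namespace Pool.Agent.Helper33_FPP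

/-- Bernoulli weights: `true` (open) has probability `t`. -/
noncomputable def bern (t : ℝ) (v : Bool) : ℝ := if v then t else 1 - t

/-- The open edges of a configuration in a box. -/
def opn {R : ℕ} (ω : EIdx R → Bool) (e : Sym2 (ℤ × ℤ)) : Prop :=
  ∃ h : e ∈ edgesIn R, ω ⟨e, h⟩ = true

/-- `x` and `y` are joined by a walk with vertices in `S` and edges in `O`. -/
def Conn (O : Sym2 (ℤ × ℤ) → Prop) (S : Set (ℤ × ℤ)) (x y : ℤ × ℤ) : Prop :=
  ∃ q : Z2.Walk x y, (∀ v ∈ q.support, v ∈ S) ∧ ∀ e ∈ q.edges, O e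

/-- Sup-norm sphere of radius `n`. -/
def OnSph (n : ℕ) (v : ℤ × ℤ) : Prop := max v.1.natAbs v.2.natAbs = n

/-- Number of neighbours of `x` outside `S`. -/
noncomputable def outDeg (S : Finset (ℤ × ℤ)) (x : ℤ × ℤ) : ℕ := by
  classical
  exact ((({(x.1 + 1, x.2), (x.1 - 1, x.2), (x.1, x.2 + 1), (x.1, x.2 - 1)} :
    Finset (ℤ × ℤ))).filter (fun y => y ∉ S)).card

/-- The quantity `φ_t(S)` of Duminil-Copin and Tassion (for `S ⊆ box L`). -/
noncomputable def phi (t : ℝ) (L : ℕ) (S : Finset (ℤ × ℤ)) : ℝ :=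
  t * ∑ x ∈ S, (outDeg S x : ℝ) *
    Pr (bern t) (fun ω : EIdx L → Bool => Conn (opn ω) (S : Set (ℤ × ℤ)) 0 x)

/-- One-arm probability. -/
noncomputable def arm1 (t : ℝ) (n : ℕ) : ℝ :=
  Pr (bern t) (fun ω : EIdx n → Bool => ∃ y, OnSph n y ∧ Conn (opn ω) (box n : Set (ℤ × ℤ)) 0 y)

/-- Probability that the box of radius `k` is joined to the sphere of radius `n`. -/
noncomputable def armk (t : ℝ) (k n : ℕ) : ℝ :=
  Pr (bern t) (fun ω : EIdx n → Bool => ∃ x ∈ box k, ∃ y, OnSph n y ∧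
    Conn (opn ω) (box n : Set (ℤ × ℤ)) x y)

/-- The primal edge crossed by the dual edge with index `e`:
`s((i,j),(i+1,j)) ↦ s((i+1,j),(i+1,j+1))` and `s((i,j),(i,j+1)) ↦ s((i,j+1),(i+1,j+1))`. -/
def dualE : Sym2 (ℤ × ℤ) → Sym2 (ℤ × ℤ) :=
  Sym2.lift ⟨fun x y => if x.2 = y.2 then
      s((max x.1 y.1, min x.2 y.2), (max x.1 y.1, min x.2 y.2 + 1))
    else s((min x.1 y.1, max x.2 y.2), (min x.1 y.1 + 1, max x.2 y.2)), by
    intro x y
    simp only [max_comm x.1 y.1, min_comm x.2 y.2, min_comm x.1 y.1, max_comm x.2 y.2,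
      eq_comm (a := x.2) (b := y.2)]⟩

/-- The dual configuration: a dual edge is open if the primal edge crossed by it is closed. -/
def dualO (O : Sym2 (ℤ × ℤ) → Prop) (e : Sym2 (ℤ × ℤ)) : Prop := ¬ O (dualE e)

/-- Left half of the top side. -/
def Tm (n : ℕ) (v : ℤ × ℤ) : Prop := v.2 = n ∧ -(n : ℤ) ≤ v.1 ∧ v.1 ≤ 0
/-- Right half of the top side. -/
def Tp (n : ℕ) (v : ℤ × ℤ) : Prop := v.2 = n ∧ 0 ≤ v.1 ∧ v.1 ≤ n
/-- Lower half of the right side. -/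
def Rm (n : ℕ) (v : ℤ × ℤ) : Prop := v.1 = n ∧ -(n : ℤ) ≤ v.2 ∧ v.2 ≤ 0
/-- Upper half of the right side. -/
def Rp (n : ℕ) (v : ℤ × ℤ) : Prop := v.1 = n ∧ 0 ≤ v.2 ∧ v.2 ≤ n
/-- Lower half of the left side. -/
def Lm (n : ℕ) (v : ℤ × ℤ) : Prop := v.1 = -n ∧ -(n : ℤ) ≤ v.2 ∧ v.2 ≤ 0
/-- Upper half of the left side. -/
def Lp (n : ℕ) (v : ℤ × ℤ) : Prop := v.1 = -n ∧ 0 ≤ v.2 ∧ v.2 ≤ n
/-- Left half of the bottom side. -/
def Bm (n : ℕ) (v : ℤ × ℤ) : Prop := v.2 = -n ∧ -(n : ℤ) ≤ v.1 ∧ v.1 ≤ 0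
/-- Right half of the bottom side. -/
def Bp (n : ℕ) (v : ℤ × ℤ) : Prop := v.2 = -n ∧ 0 ≤ v.1 ∧ v.1 ≤ n

/-- An arm from the box of radius `k` to the part `a` of the sphere of radius `n + 1`, all vertices
but the last being in the box of radius `n`. -/
def Arm (O : Sym2 (ℤ × ℤ) → Prop) (k n : ℕ) (a : ℕ → ℤ × ℤ → Prop) : Prop :=
  ∃ x ∈ box k, ∃ u y, a (n + 1) y ∧ Z2.Adj u y ∧ O s(u, y) ∧ Conn O (box n : Set (ℤ × ℤ)) x u

/-- Three arms leave the box of radius `k` and reach the sphere of radius `n`, in different clusters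
of `box n` minus `box k`. -/
def Tri (O : Sym2 (ℤ × ℤ) → Prop) (k n : ℕ) : Prop :=
  ∃ v : Fin 3 → ℤ × ℤ,
    (∀ i, v i ∈ box n ∧ v i ∉ box k ∧ (∃ u ∈ box k, Z2.Adj u (v i) ∧ O s(u, v i)) ∧
      ∃ y, OnSph n y ∧ Conn O ((box n : Set (ℤ × ℤ)) \ (box k : Set (ℤ × ℤ))) (v i) y) ∧
    ∀ i j, i ≠ j → ¬ Conn O ((box n : Set (ℤ × ℤ)) \ (box k : Set (ℤ × ℤ))) (v i) (v j)

end Pool.Agent.Helper33_FPP
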