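import Mathlib
import Pool.Agent.Helper33_FPP.Perc

/-!
# Re-indexing of the coordinates of a product law
-/

set_option autoImplicit false

namespace Pool.Agent.Helper33_FPP

open Finset

namespace PercLawAux

lemma bern_sum (t : ℝ) : ∑ v, bern t v = 1 := by
  simp [bern]

/-- The law of a product configuration read along an injective map of indices. -/
lemma Ex_comp_inj {ι κ V : Type*} [Fintype ι] [DecidableEq ι] [Fintype κ] [DecidableEq κ]
    [Fintype V] (p : V → ℝ) (hp : ∑ v, p v = 1) (g : ι → κ) (hg : Function.Injective g)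
    (F : (ι → V) → ℝ) :
    Ex p (fun ω : κ → V => F (fun i => ω (g i))) = Ex p F := by
  classical
  unfold Ex
  let P : κ → Prop := fun k => k ∈ Set.range g
  let e := Equiv.piEquivPiSubtypeProd P (fun _ => V)
  have hcomp : ∑ b : ((k : {x // ¬ P x}) → V), ∏ k, p (b k) = 1 := by
    have h := (Finset.prod_univ_sum (fun _ : {x // ¬ P x} => (Finset.univ : Finset V))
      (fun _ v => p v)).symm
    rw [Fintype.piFinset_univ] at h
    rw [h]
    simp [hp]
  have hg' : ∀ i, P (g i) := fun i => ⟨i, rfl⟩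
  calc ∑ ω : κ → V, (∏ k, p (ω k)) * F (fun i => ω (g i))
      = ∑ ab : ((k : {x // P x}) → V) × ((k : {x // ¬ P x}) → V),
          ((∏ k, p (ab.1 k)) * F (fun i => ab.1 ⟨g i, hg' i⟩)) * ∏ k, p (ab.2 k) := by
        refine Fintype.sum_equiv e _ _ fun ω => ?_
        have h1 : ∏ k, p (ω k) = (∏ k : {x // P x}, p (ω k)) * ∏ k : {x // ¬ P x}, p (ω k) := by
          have h := (Fintype.prod_subtype_mul_prod_subtype P (fun k => p (ω k))).symm
          rw [h]
          have e1 : ∀ (i1 i2 : Fintype {x // P x}), @Finset.prod _ _ _ (@Finset.univ _ i1)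
              (fun k : {x // P x} => p (ω k)) = @Finset.prod _ _ _ (@Finset.univ _ i2)
              (fun k : {x // P x} => p (ω k)) := fun i1 i2 => by rw [Subsingleton.elim i1 i2]
          have e2 : ∀ (i1 i2 : Fintype {x // ¬ P x}), @Finset.prod _ _ _ (@Finset.univ _ i1)
              (fun k : {x // ¬ P x} => p (ω k)) = @Finset.prod _ _ _ (@Finset.univ _ i2)
              (fun k : {x // ¬ P x} => p (ω k)) := fun i1 i2 => by rw [Subsingleton.elim i1 i2]
          exact congrArg₂ (· * ·) (e1 _ _) (e2 _ _)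
        rw [h1]
        simp only [e, Equiv.piEquivPiSubtypeProd_apply]
        ring
    _ = ∑ a : ((k : {x // P x}) → V), (∏ k, p (a k)) * F (fun i => a ⟨g i, hg' i⟩) := by
        rw [Fintype.sum_prod_type]
        refine Finset.sum_congr rfl fun a _ => ?_
        change ∑ y : ((k : {x // ¬ P x}) → V), ((∏ k, p (a k)) * F (fun i => a ⟨g i, hg' i⟩)) *
          ∏ k, p (y k) = _
        rw [← Finset.mul_sum, hcomp, mul_one]
    _ = ∑ ω : ι → V, (∏ i, p (ω i)) * F ω := by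
        let r : ι ≃ {x // P x} := Equiv.ofInjective g hg
        refine Fintype.sum_equiv (Equiv.arrowCongr r.symm (Equiv.refl V)) _ _ fun a => ?_
        have h1 : ∏ k, p (a k) = ∏ i, p (a (r i)) := (Equiv.prod_comp r (fun k => p (a k))).symm
        rw [h1]
        rfl

end PercLawAux

open PercLawAux

theorem law_map {n m : ℕ} {t : ℝ} (f : Sym2 (ℤ × ℤ) → Sym2 (ℤ × ℤ))
    (hinj : Set.InjOn f (edgesIn n : Set (Sym2 (ℤ × ℤ)))) (hmaps : ∀ e ∈ edgesIn n, f e ∈ edgesIn m)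
    (E : (Sym2 (ℤ × ℤ) → Prop) → Prop) :
    Pr (bern t) (fun ω : EIdx m → Bool => E (fun e => e ∈ edgesIn n ∧ opn ω (f e))) =
      Pr (bern t) (fun ω : EIdx n → Bool => E (opn ω)) := by
  classical
  let g : EIdx n → EIdx m := fun e => ⟨f e.1, hmaps e.1 e.2⟩
  have hg : Function.Injective g := by
    intro a b hab
    have h1 : f a.1 = f b.1 := congrArg Subtype.val hab
    exact Subtype.ext (hinj a.2 b.2 h1)
  have hop : ∀ ω : EIdx m → Bool,
      (fun e => e ∈ edgesIn n ∧ opn ω (f e)) = opn (fun i => ω (g i)) := by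
    intro ω
    funext e
    refine propext ⟨?_, ?_⟩
    · rintro ⟨h, h', h''⟩
      exact ⟨h, h''⟩
    · rintro ⟨h, h''⟩
      exact ⟨h, hmaps e h, h''⟩
  have := Ex_comp_inj (bern t) (bern_sum t) g hg (fun ω => if E (opn ω) then (1 : ℝ) else 0)
  unfold Pr
  simp only [hop]
  convert this using 1

theorem law_map_not {n m : ℕ} (f : Sym2 (ℤ × ℤ) → Sym2 (ℤ × ℤ))
    (hinj : Set.InjOn f (edgesIn n : Set (Sym2 (ℤ × ℤ)))) (hmaps : ∀ e ∈ edgesIn n, f e ∈ edgesIn m)
    (E : (Sym2 (ℤ × ℤ) → Prop) → Prop) :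
    Pr (bern (1 / 2)) (fun ω : EIdx m → Bool => E (fun e => e ∈ edgesIn n ∧ ¬ opn ω (f e))) =
      Pr (bern (1 / 2)) (fun ω : EIdx n → Bool => E (opn ω)) := by
  classical
  let g : EIdx n → EIdx m := fun e => ⟨f e.1, hmaps e.1 e.2⟩
  have hg : Function.Injective g := by
    intro a b hab
    have h1 : f a.1 = f b.1 := congrArg Subtype.val hab
    exact Subtype.ext (hinj a.2 b.2 h1)
  have hop : ∀ ω : EIdx m → Bool,
      (fun e => e ∈ edgesIn n ∧ ¬ opn ω (f e)) = opn (fun i => ! ω (g i)) := by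
    intro ω
    funext e
    refine propext ⟨?_, ?_⟩
    · rintro ⟨h, h'⟩
      refine ⟨h, ?_⟩
      have : ¬ ω ⟨f e, hmaps e h⟩ = true := fun h2 => h' ⟨hmaps e h, h2⟩
      simpa [g] using this
    · rintro ⟨h, h''⟩
      refine ⟨h, ?_⟩
      rintro ⟨h3, h4⟩
      simp only [g] at h''
      rw [h4] at h''
      simp at h''
  have key := Ex_comp_inj (bern (1 / 2)) (bern_sum _) g hg
    (fun ω => if E (opn (fun i => ! ω i)) then (1 : ℝ) else 0)
  have flip : Ex (bern (1 / 2)) (fun ω : EIdx n → Bool =>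
      if E (opn (fun i => ! ω i)) then (1 : ℝ) else 0) =
      Ex (bern (1 / 2)) (fun ω : EIdx n → Bool => if E (opn ω) then (1 : ℝ) else 0) := by
    unfold Ex
    refine Fintype.sum_equiv (Equiv.arrowCongr (Equiv.refl _) Equiv.boolNot) _ _ fun ω => ?_
    have h1 : ∀ v, bern (1 / 2) v = 1 / 2 := by
      intro v; cases v <;> simp [bern]; norm_num
    simp only [h1]
    rfl
  unfold Pr
  simp only [hop]
  refine Eq.trans ?_ (key.trans (flip.trans ?_))
  · congr!
  · congr!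

namespace PercLawAux

/-- The two kinds of lattice edges. -/
lemma edge_cases {e : Sym2 (ℤ × ℤ)} (he : e ∈ Z2.edgeSet) :
    ∃ i j : ℤ, e = s((i, j), (i + 1, j)) ∨ e = s((i, j), (i, j + 1)) := by
  induction e using Sym2.ind with
  | _ x y =>
    obtain ⟨a, b⟩ := x
    obtain ⟨c, d⟩ := y
    rw [SimpleGraph.mem_edgeSet] at he
    change (a - c).natAbs + (b - d).natAbs = 1 at he
    have h4 : (c = a + 1 ∧ d = b) ∨ (a = c + 1 ∧ d = b) ∨ (c = a ∧ d = b + 1) ∨
        (c = a ∧ b = d + 1) := by omega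
    rcases h4 with ⟨h1, h2⟩ | ⟨h1, h2⟩ | ⟨h1, h2⟩ | ⟨h1, h2⟩
    · exact ⟨a, b, Or.inl (by rw [h1, h2])⟩
    · exact ⟨c, d, Or.inl (by rw [h1, h2, Sym2.eq_swap])⟩
    · exact ⟨a, b, Or.inr (by rw [h1, h2])⟩
    · exact ⟨c, d, Or.inr (by rw [h1, h2, Sym2.eq_swap])⟩

lemma dualE_hor (i j : ℤ) : dualE s((i, j), (i + 1, j)) = s((i + 1, j), (i + 1, j + 1)) := by
  simp [dualE]

lemma dualE_ver (i j : ℤ) : dualE s((i, j), (i, j + 1)) = s((i, j + 1), (i + 1, j + 1)) := by
  simp [dualE]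

end PercLawAux

theorem dualE_injOn : Set.InjOn dualE {e | e ∈ Z2.edgeSet} := by
  intro e he e' he' h
  obtain ⟨i, j, hij⟩ := edge_cases he
  obtain ⟨i', j', hij'⟩ := edge_cases he'
  rcases hij with rfl | rfl <;> rcases hij' with rfl | rfl <;>
    simp only [dualE_hor, dualE_ver, Sym2.eq_iff, Prod.mk.injEq] at h ⊢ <;> omega

namespace PercLawAux

lemma mem_edgesIn {n : ℕ} {x y : ℤ × ℤ} :
    s(x, y) ∈ edgesIn n ↔ x ∈ box n ∧ y ∈ box n ∧ Z2.Adj x y := by
  classical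
  simp [edgesIn, and_assoc]

lemma mem_edgesIn_edgeSet {n : ℕ} {e : Sym2 (ℤ × ℤ)} (he : e ∈ edgesIn n) : e ∈ Z2.edgeSet := by
  classical
  unfold edgesIn at he
  exact (Finset.mem_filter.mp he).2

lemma mem_box {n : ℕ} {x : ℤ × ℤ} :
    x ∈ box n ↔ (-(n : ℤ) ≤ x.1 ∧ x.1 ≤ n) ∧ (-(n : ℤ) ≤ x.2 ∧ x.2 ≤ n) := by
  simp [box]

end PercLawAux

theorem dualE_mem {n : ℕ} {e : Sym2 (ℤ × ℤ)} (he : e ∈ edgesIn n) : dualE e ∈ edgesIn (n + 1) := by
  obtain ⟨i, j, hij⟩ := edge_cases (mem_edgesIn_edgeSet he)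
  rcases hij with rfl | rfl
  · rw [dualE_hor]
    rw [mem_edgesIn] at he ⊢
    simp only [mem_box] at he ⊢
    push_cast
    refine ⟨⟨by omega, by omega⟩, ⟨by omega, by omega⟩, ?_⟩
    change (i + 1 - (i + 1)).natAbs + (j - (j + 1)).natAbs = 1
    omega
  · rw [dualE_ver]
    rw [mem_edgesIn] at he ⊢
    simp only [mem_box] at he ⊢
    push_cast
    refine ⟨⟨by omega, by omega⟩, ⟨by omega, by omega⟩, ?_⟩
    change (i - (i + 1)).natAbs + (j + 1 - (j + 1)).natAbs = 1
    omega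

end Pool.Agent.Helper33_FPP
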