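import Pool.Agent.Helper33_FPP.Perc
import Pool.Agent.Helper33_FPP.PercLaw
import Pool.Agent.Helper33_FPP.Peierls

/-!
# Annulus crossing probabilities under exponential decay

If the one-arm probability decays exponentially, then the probability that the box of radius `k` is
joined to the sphere of radius `3 k` tends to zero.
-/

set_option autoImplicit false

namespace Pool.Agent.Helper33_FPP

namespace AnnulusAux

open Finset

theorem memBox {n : ℕ} {x : ℤ × ℤ} :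
    x ∈ box n ↔ (-(n : ℤ) ≤ x.1 ∧ x.1 ≤ n) ∧ (-(n : ℤ) ≤ x.2 ∧ x.2 ≤ n) := by
  simp [box, Finset.mem_product]

theorem memEdges {n : ℕ} {x y : ℤ × ℤ} :
    s(x, y) ∈ edgesIn n ↔ x ∈ box n ∧ y ∈ box n ∧ Z2.Adj x y := by
  classical
  simp [edgesIn, and_assoc]

/-- Translation of edges. -/
def shE (x : ℤ × ℤ) (e : Sym2 (ℤ × ℤ)) : Sym2 (ℤ × ℤ) := Sym2.map (fun w => w + x) e

theorem shE_mk (x u v : ℤ × ℤ) : shE x s(u, v) = s(u + x, v + x) := by
  simp [shE]

theorem shE_inj (x : ℤ × ℤ) : Function.Injective (shE x) :=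
  Sym2.map.injective (add_left_injective x)

/-- Stop a walk when it leaves the box of radius `n` around `x`. -/
theorem stop {O : Sym2 (ℤ × ℤ) → Prop} {u v : ℤ × ℤ} (q : Z2.Walk u v) (hq : ∀ e ∈ q.edges, O e)
    {n : ℕ} (x : ℤ × ℤ) (hu : max (u - x).1.natAbs (u - x).2.natAbs ≤ n)
    (hv : n ≤ max (v - x).1.natAbs (v - x).2.natAbs) :
    ∃ y, OnSph n y ∧
      Conn (fun e => e ∈ edgesIn n ∧ O (shE x e)) (box n : Set (ℤ × ℤ)) (u - x) y := by
  induction q with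
  | nil =>
    refine ⟨_, le_antisymm hu hv, SimpleGraph.Walk.nil, ?_, by simp⟩
    intro w hw
    simp only [SimpleGraph.Walk.support_nil, List.mem_singleton] at hw
    subst hw
    rw [Finset.mem_coe, memBox]
    omega
  | @cons u w v h p ih =>
    have h' : (u.1 - w.1).natAbs + (u.2 - w.2).natAbs = 1 := h
    have hub : u - x ∈ box n := by
      rw [memBox]
      omega
    by_cases hn : max (u - x).1.natAbs (u - x).2.natAbs = n
    · refine ⟨_, hn, SimpleGraph.Walk.nil, ?_, by simp⟩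
      intro w hw
      simp only [SimpleGraph.Walk.support_nil, List.mem_singleton] at hw
      subst hw
      exact hub
    · have e1 : (u - x).1 = u.1 - x.1 := rfl
      have e2 : (u - x).2 = u.2 - x.2 := rfl
      have e3 : (w - x).1 = w.1 - x.1 := rfl
      have e4 : (w - x).2 = w.2 - x.2 := rfl
      have hw : max (w - x).1.natAbs (w - x).2.natAbs ≤ n := by
        rw [e1, e2] at hu hn
        rw [e3, e4]
        omega
      have hwb : w - x ∈ box n := by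
        rw [memBox]
        omega
      obtain ⟨y, hy, q', hq1, hq2⟩ := ih (fun e he => hq e (by simp [he])) hw hv
      have hadj : Z2.Adj (u - x) (w - x) := by
        change ((u - x).1 - (w - x).1).natAbs + ((u - x).2 - (w - x).2).natAbs = 1
        rw [e1, e2, e3, e4]
        omega
      refine ⟨y, hy, SimpleGraph.Walk.cons hadj q', ?_, ?_⟩
      · intro z hz
        rw [SimpleGraph.Walk.support_cons, List.mem_cons] at hz
        rcases hz with rfl | hz
        · exact hub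
        · exact hq1 z hz
      · intro e he
        rw [SimpleGraph.Walk.edges_cons, List.mem_cons] at he
        rcases he with rfl | he
        · refine ⟨memEdges.2 ⟨hub, hwb, hadj⟩, ?_⟩
          rw [shE_mk, sub_add_cancel, sub_add_cancel]
          exact hq _ (by simp)
        · exact hq2 e he

theorem isProb_bern {t : ℝ} (h0 : 0 ≤ t) (h1 : t ≤ 1) : IsProb (bern t) where
  nonneg v := by
    unfold bern
    split_ifs <;> linarith
  sum_eq := by simp [bern]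

theorem point_le {t : ℝ} (h0 : 0 ≤ t) (h1 : t ≤ 1) {k : ℕ} {x : ℤ × ℤ} (hx : x ∈ box k) :
    Pr (bern t) (fun ω : EIdx (3 * k) → Bool => ∃ y, OnSph (3 * k) y ∧
      Conn (opn ω) (box (3 * k) : Set (ℤ × ℤ)) x y) ≤ arm1 t (2 * k) := by
  have hx' := memBox.1 hx
  have hmaps : ∀ e ∈ edgesIn (2 * k), shE x e ∈ edgesIn (3 * k) := by
    intro e
    induction e using Sym2.ind with
    | _ u v =>
      intro he
      rw [shE_mk]
      rw [memEdges, memBox, memBox] at *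
      obtain ⟨hu, hv, hadj⟩ := he
      have e1 : (u + x).1 = u.1 + x.1 := rfl
      have e2 : (u + x).2 = u.2 + x.2 := rfl
      have e3 : (v + x).1 = v.1 + x.1 := rfl
      have e4 : (v + x).2 = v.2 + x.2 := rfl
      push_cast at *
      refine ⟨⟨⟨by omega, by omega⟩, by omega, by omega⟩,
        ⟨⟨by omega, by omega⟩, by omega, by omega⟩, ?_⟩
      have h' : (u.1 - v.1).natAbs + (u.2 - v.2).natAbs = 1 := hadj
      change ((u + x).1 - (v + x).1).natAbs + ((u + x).2 - (v + x).2).natAbs = 1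
      omega
  have hlaw := law_map (t := t) (shE x) ((shE_inj x).injOn) hmaps
    (fun O => ∃ y, OnSph (2 * k) y ∧ Conn O (box (2 * k) : Set (ℤ × ℤ)) 0 y)
  unfold arm1
  rw [← hlaw]
  refine PeierlsAux.Pr_mono (isProb_bern h0 h1) ?_
  rintro ω ⟨y, hy, q, -, hq⟩
  have hy' : max y.1.natAbs y.2.natAbs = 3 * k := hy
  have h := stop (n := 2 * k) q hq x (by simp) (by
    have e3 : (y - x).1 = y.1 - x.1 := rfl
    have e4 : (y - x).2 = y.2 - x.2 := rfl
    rw [e3, e4]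
    omega)
  rw [sub_self] at h
  exact h

theorem card_box (n : ℕ) : (box n).card = (2 * n + 1) ^ 2 := by
  unfold box
  rw [Finset.card_product, Int.card_Icc]
  have : ((n : ℤ) + 1 - -(n : ℤ)).toNat = 2 * n + 1 := by omega
  rw [this, sq]

theorem armk_le {t : ℝ} (h0 : 0 ≤ t) (h1 : t ≤ 1) (k : ℕ) :
    armk t k (3 * k) ≤ ((2 * k + 1 : ℕ) : ℝ) ^ 2 * arm1 t (2 * k) := by
  have h := PeierlsAux.Pr_exists_le (isProb_bern h0 h1) (box k)
    (fun x (ω : EIdx (3 * k) → Bool) => ∃ y, OnSph (3 * k) y ∧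
      Conn (opn ω) (box (3 * k) : Set (ℤ × ℤ)) x y)
  refine le_trans (le_trans (le_of_eq rfl) h) ?_
  refine le_trans (Finset.sum_le_sum fun x hx => point_le h0 h1 hx) ?_
  rw [Finset.sum_const, card_box, nsmul_eq_mul]
  push_cast
  exact le_rfl

theorem annulus_of_decay {t : ℝ} (h0 : 0 ≤ t) (h1 : t ≤ 1)
    (hdec : ∃ C ρ : ℝ, 0 < C ∧ 0 ≤ ρ ∧ ρ < 1 ∧ ∀ n : ℕ, arm1 t n ≤ C * ρ ^ n) {ε : ℝ}
    (hε : 0 < ε) : ∃ k : ℕ, 1 ≤ k ∧ armk t k (3 * k) ≤ ε := by
  obtain ⟨C, ρ, hC, hρ0, hρ1, h⟩ := hdec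
  have hlim : Filter.Tendsto (fun n : ℕ => (n : ℝ) ^ 2 * ρ ^ n) Filter.atTop (nhds 0) :=
    tendsto_pow_const_mul_const_pow_of_abs_lt_one 2 (by rwa [abs_of_nonneg hρ0])
  have hlim2 : Filter.Tendsto (fun n : ℕ => 9 * C * ((n : ℝ) ^ 2 * ρ ^ n)) Filter.atTop (nhds 0) := by
    simpa using hlim.const_mul (9 * C)
  obtain ⟨N, hN⟩ := (Filter.eventually_atTop.1 (hlim2.eventually (gt_mem_nhds hε)))
  refine ⟨N + 1, by omega, ?_⟩
  refine le_trans (armk_le h0 h1 (N + 1)) ?_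
  have h2 := hN (2 * (N + 1)) (by omega)
  have h3 := h (2 * (N + 1))
  refine le_trans ?_ h2.le
  have h4 : ((2 * (N + 1) + 1 : ℕ) : ℝ) ^ 2 ≤ 9 * ((2 * (N + 1) : ℕ) : ℝ) ^ 2 := by
    have : ((2 * (N + 1) + 1 : ℕ) : ℝ) ≤ 3 * ((2 * (N + 1) : ℕ) : ℝ) := by
      exact_mod_cast (by omega : 2 * (N + 1) + 1 ≤ 3 * (2 * (N + 1)))
    calc ((2 * (N + 1) + 1 : ℕ) : ℝ) ^ 2 ≤ (3 * ((2 * (N + 1) : ℕ) : ℝ)) ^ 2 :=
          pow_le_pow_left₀ (Nat.cast_nonneg _) this 2
      _ = 9 * ((2 * (N + 1) : ℕ) : ℝ) ^ 2 := by ring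
  have h5 : 0 ≤ C * ρ ^ (2 * (N + 1)) := mul_nonneg hC.le (pow_nonneg hρ0 _)
  calc ((2 * (N + 1) + 1 : ℕ) : ℝ) ^ 2 * arm1 t (2 * (N + 1))
      ≤ ((2 * (N + 1) + 1 : ℕ) : ℝ) ^ 2 * (C * ρ ^ (2 * (N + 1))) :=
        mul_le_mul_of_nonneg_left h3 (by positivity)
    _ ≤ 9 * ((2 * (N + 1) : ℕ) : ℝ) ^ 2 * (C * ρ ^ (2 * (N + 1))) :=
        mul_le_mul_of_nonneg_right h4 h5
    _ = 9 * C * (((2 * (N + 1) : ℕ) : ℝ) ^ 2 * ρ ^ (2 * (N + 1))) := by ring

end AnnulusAux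

end Pool.Agent.Helper33_FPP
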