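import Mathlib
import Pool.Agent.Helper33_FPP.Perc
import Pool.Agent.Helper33_FPP.PercLaw
import Pool.Agent.Helper33_FPP.Peierls

/-!
# Harris' inequality for decreasing events
-/

set_option autoImplicit false

namespace Pool.Agent.Helper33_FPP

open Finset

namespace HarrisAux

lemma bern_nonneg {t : ℝ} (h0 : 0 ≤ t) (h1 : t ≤ 1) (v : Bool) : 0 ≤ bern t v := by
  cases v <;> simp [bern] <;> linarith

lemma bern_isProb {t : ℝ} (h0 : 0 ≤ t) (h1 : t ≤ 1) : IsProb (bern t) :=
  ⟨bern_nonneg h0 h1, PercLawAux.bern_sum t⟩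

lemma Pr_true {ι V : Type*} [Fintype ι] [DecidableEq ι] [Fintype V] {p : V → ℝ}
    (hp : ∑ v, p v = 1) : Pr p (fun _ : ι → V => True) = 1 := by
  classical
  rw [PeierlsAux.Pr_eq]
  simp only [if_true, mul_one]
  have h := (Finset.prod_univ_sum (fun _ : ι => (Finset.univ : Finset V))
    (fun _ v => p v)).symm
  rw [Fintype.piFinset_univ] at h
  rw [h]
  simp [hp]

lemma Pr_not {ι V : Type*} [Fintype ι] [DecidableEq ι] [Fintype V] {p : V → ℝ}
    (hp : ∑ v, p v = 1) (E : (ι → V) → Prop) : Pr p (fun ω => ¬ E ω) = 1 - Pr p E := by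
  classical
  have h := Pr_true (ι := ι) hp
  rw [PeierlsAux.Pr_eq] at h
  rw [← h, PeierlsAux.Pr_eq, PeierlsAux.Pr_eq, ← Finset.sum_sub_distrib]
  refine Finset.sum_congr rfl fun ω _ => ?_
  by_cases hE : E ω <;> simp [hE]

lemma harris_two {ι : Type} [Fintype ι] [DecidableEq ι] {t : ℝ} (h0 : 0 ≤ t) (h1 : t ≤ 1)
    {E F : (ι → Bool) → Prop}
    (hE : ∀ ω ω' : ι → Bool, (∀ i, ω' i = true → ω i = true) → E ω → E ω')
    (hF : ∀ ω ω' : ι → Bool, (∀ i, ω' i = true → ω i = true) → F ω → F ω') :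
    Pr (bern t) E * Pr (bern t) F ≤ Pr (bern t) (fun ω => E ω ∧ F ω) := by
  classical
  let μ : (ι → Bool) → ℝ := fun ω => ∏ i, bern t (! ω i)
  let f : (ι → Bool) → ℝ := fun ω => if E (fun i => ! ω i) then 1 else 0
  let g : (ι → Bool) → ℝ := fun ω => if F (fun i => ! ω i) then 1 else 0
  have hμ : 0 ≤ μ := fun ω => Finset.prod_nonneg fun i _ => bern_nonneg h0 h1 _
  have hf : 0 ≤ f := fun ω => by simp only [f]; split_ifs <;> simp
  have hg : 0 ≤ g := fun ω => by simp only [g]; split_ifs <;> simp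
  have hle : ∀ ω ω' : ι → Bool, ω ≤ ω' → ∀ i, (! ω' i) = true → (! ω i) = true := by
    intro ω ω' h i hi
    have := h i
    revert this hi
    cases ω i <;> cases ω' i <;> simp
  have hfm : Monotone f := by
    intro ω ω' h
    simp only [f]
    by_cases h2 : E (fun i => ! ω i)
    · rw [if_pos h2, if_pos (hE _ _ (hle ω ω' h) h2)]
    · rw [if_neg h2]; exact hf ω'
  have hgm : Monotone g := by
    intro ω ω' h
    simp only [g]
    by_cases h2 : F (fun i => ! ω i)
    · rw [if_pos h2, if_pos (hF _ _ (hle ω ω' h) h2)]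
    · rw [if_neg h2]; exact hg ω'
  have hμl : ∀ a b : ι → Bool, μ a * μ b ≤ μ (a ⊓ b) * μ (a ⊔ b) := by
    intro a b
    simp only [μ]
    rw [← Finset.prod_mul_distrib, ← Finset.prod_mul_distrib]
    refine le_of_eq (Finset.prod_congr rfl fun i _ => ?_)
    simp only [Pi.inf_apply, Pi.sup_apply]
    cases a i <;> cases b i <;> simp [mul_comm]
  have key := fkg f g μ hμ hf hg hfm hgm hμl
  have flip : ∀ H : (ι → Bool) → ℝ, ∑ ω : ι → Bool, (∏ i, bern t (ω i)) * H ω =
      ∑ ω : ι → Bool, μ ω * H (fun i => ! ω i) := by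
    intro H
    refine Fintype.sum_equiv (Equiv.arrowCongr (Equiv.refl _) Equiv.boolNot) _ _ fun ω => ?_
    simp [μ, Equiv.arrowCongr]
  have hone : ∑ ω : ι → Bool, μ ω = 1 := by
    have h2 := Pr_true (ι := ι) (PercLawAux.bern_sum t)
    rw [PeierlsAux.Pr_eq, flip] at h2
    simpa using h2
  rw [hone, one_mul] at key
  rw [PeierlsAux.Pr_eq, PeierlsAux.Pr_eq, PeierlsAux.Pr_eq, flip, flip, flip]
  refine key.trans (le_of_eq (Finset.sum_congr rfl fun ω _ => ?_))
  congr 1
  simp only [f, g]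
  by_cases h2 : E (fun i => ! ω i) <;> by_cases h3 : F (fun i => ! ω i) <;> simp [h2, h3]

end HarrisAux

open HarrisAux

theorem harris_dec {ι κ : Type} [Fintype ι] [DecidableEq ι] {t : ℝ} (h0 : 0 ≤ t) (h1 : t ≤ 1)
    (s : Finset κ) (E : κ → (ι → Bool) → Prop)
    (hE : ∀ k ∈ s, ∀ ω ω' : ι → Bool, (∀ i, ω' i = true → ω i = true) → E k ω → E k ω') :
    ∏ k ∈ s, Pr (bern t) (E k) ≤ Pr (bern t) (fun ω => ∀ k ∈ s, E k ω) := by
  classical
  have hp := bern_isProb h0 h1
  have hnn : ∀ F : (ι → Bool) → Prop, 0 ≤ Pr (bern t) F := by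
    intro F
    rw [PeierlsAux.Pr_eq]
    exact Finset.sum_nonneg fun ω _ => mul_nonneg (PeierlsAux.prod_nonneg' hp ω)
      (by split_ifs <;> norm_num)
  induction s using Finset.induction_on with
  | empty =>
    simp only [Finset.prod_empty, Finset.notMem_empty, false_imp_iff, implies_true]
    rw [Pr_true (PercLawAux.bern_sum t)]
  | insert a s ha ih =>
    rw [Finset.prod_insert ha]
    have ih' := ih fun k hk => hE k (Finset.mem_insert_of_mem hk)
    calc Pr (bern t) (E a) * ∏ k ∈ s, Pr (bern t) (E k)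
        ≤ Pr (bern t) (E a) * Pr (bern t) (fun ω => ∀ k ∈ s, E k ω) :=
          mul_le_mul_of_nonneg_left ih' (hnn _)
      _ ≤ Pr (bern t) (fun ω => E a ω ∧ ∀ k ∈ s, E k ω) :=
          harris_two h0 h1 (hE a (Finset.mem_insert_self a s))
            (fun ω ω' h hω k hk => hE k (Finset.mem_insert_of_mem hk) ω ω' h (hω k hk))
      _ ≤ Pr (bern t) (fun ω => ∀ k ∈ insert a s, E k ω) := by
          refine PeierlsAux.Pr_mono hp fun ω h k hk => ?_
          rcases Finset.mem_insert.mp hk with rfl | hk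
          · exact h.1
          · exact h.2 k hk

end Pool.Agent.Helper33_FPP
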