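import Mathlib
import Pool.Agent.Helper33_FPP.Perc
import Pool.Agent.Helper33_FPP.Harris
import Pool.Agent.Helper33_FPP.PercLaw

/-!
# The square-root trick with eight half-sides
-/

set_option autoImplicit false

namespace Pool.Agent.Helper33_FPP

open Finset

namespace ArmsProbAux

open PercLawAux

lemma Z2_adj {x y : ℤ × ℤ} : Z2.Adj x y ↔ (x.1 - y.1).natAbs + (x.2 - y.2).natAbs = 1 := Iff.rfl

/-- A symmetry of the lattice fixing the origin (as an involution). -/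
structure Sym where
  /-- the underlying map -/
  s : ℤ × ℤ → ℤ × ℤ
  inv : ∀ x, s (s x) = x
  adj : ∀ x y, Z2.Adj x y → Z2.Adj (s x) (s y)
  box : ∀ (n : ℕ) (x : ℤ × ℤ), x ∈ box n → s x ∈ box n

/-- Reflection in the vertical axis. -/
def sX : Sym where
  s := fun x => (-x.1, x.2)
  inv := by intro x; simp
  adj := by intro x y h; rw [Z2_adj] at h ⊢; simp only; omega
  box := by intro n x h; rw [mem_box] at h ⊢; simp only; omega

/-- Reflection in the horizontal axis. -/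
def sY : Sym where
  s := fun x => (x.1, -x.2)
  inv := by intro x; simp
  adj := by intro x y h; rw [Z2_adj] at h ⊢; simp only; omega
  box := by intro n x h; rw [mem_box] at h ⊢; simp only; omega

/-- Reflection in the diagonal. -/
def sD : Sym where
  s := fun x => (x.2, x.1)
  inv := by intro x; simp
  adj := by intro x y h; rw [Z2_adj] at h ⊢; simp only; omega
  box := by intro n x h; rw [mem_box] at h ⊢; simp only; omega

/-- The graph homomorphism of a symmetry. -/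
def Sym.hom (σ : Sym) : Z2 →g Z2 := ⟨σ.s, fun {a b} h => σ.adj a b h⟩

lemma Sym.map_edge (σ : Sym) {n : ℕ} {e : Sym2 (ℤ × ℤ)} (he : e ∈ edgesIn n) :
    Sym2.map σ.s e ∈ edgesIn n := by
  induction e using Sym2.ind with
  | _ x y =>
    rw [mem_edgesIn] at he
    rw [Sym2.map_mk, mem_edgesIn]
    exact ⟨σ.box _ _ he.1, σ.box _ _ he.2.1, σ.adj _ _ he.2.2⟩

lemma Sym.map_map (σ : Sym) (e : Sym2 (ℤ × ℤ)) : Sym2.map σ.s (Sym2.map σ.s e) = e := by
  induction e using Sym2.ind with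
  | _ x y => simp [σ.inv]

lemma Sym.conn (σ : Sym) {O O' : Sym2 (ℤ × ℤ) → Prop} {S : Set (ℤ × ℤ)}
    (hO : ∀ e, O e → O' (Sym2.map σ.s e)) (hS : ∀ x ∈ S, σ.s x ∈ S) {x y : ℤ × ℤ}
    (h : Conn O S x y) : Conn O' S (σ.s x) (σ.s y) := by
  obtain ⟨q, hq, hq'⟩ := h
  change Conn O' S (σ.hom x) (σ.hom y)
  refine ⟨q.map σ.hom, ?_, ?_⟩
  · intro v hv
    rw [SimpleGraph.Walk.support_map, List.mem_map] at hv
    obtain ⟨u, hu, rfl⟩ := hv
    exact hS u (hq u hu)
  · intro e he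
    rw [SimpleGraph.Walk.edges_map, List.mem_map] at he
    obtain ⟨f, hf, rfl⟩ := he
    exact hO f (hq' f hf)

lemma Sym.arm (σ : Sym) {O O' : Sym2 (ℤ × ℤ) → Prop} {k n : ℕ} {a b : ℕ → ℤ × ℤ → Prop}
    (hO : ∀ e, O e → O' (Sym2.map σ.s e)) (hab : ∀ m v, a m v → b m (σ.s v))
    (h : Arm O k n a) : Arm O' k n b := by
  obtain ⟨x, hx, u, y, hy, hadj, hOe, hc⟩ := h
  refine ⟨σ.s x, σ.box _ _ hx, σ.s u, σ.s y, hab _ _ hy, σ.adj _ _ hadj, ?_,
    σ.conn hO (fun z hz => ?_) hc⟩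
  · have := hO _ hOe
    rwa [Sym2.map_mk] at this
  · exact Finset.mem_coe.mpr (σ.box _ _ (Finset.mem_coe.mp hz))

lemma Sym.prob (σ : Sym) {t : ℝ} {k n : ℕ} {a b : ℕ → ℤ × ℤ → Prop}
    (hab : ∀ m v, a m v → b m (σ.s v)) (hba : ∀ m v, b m v → a m (σ.s v)) :
    Pr (bern t) (fun ω : EIdx (n + 1) → Bool => Arm (opn ω) k n a) =
      Pr (bern t) (fun ω : EIdx (n + 1) → Bool => Arm (opn ω) k n b) := by
  have h := law_map (t := t) (n := n + 1) (m := n + 1) (Sym2.map σ.s)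
    (fun e _ e' _ hee => by
      have := congrArg (Sym2.map σ.s) hee
      rwa [σ.map_map, σ.map_map] at this)
    (fun e he => σ.map_edge he) (fun O => Arm O k n a)
  rw [← h]
  congr 1
  funext ω
  refine propext ⟨fun h => ?_, fun h => ?_⟩
  · exact σ.arm (fun e he => he.2) hab h
  · refine σ.arm (fun e he => ⟨?_, ?_⟩) hba h
    · obtain ⟨h1, _⟩ := he
      exact σ.map_edge h1
    · rw [σ.map_map]; exact he

/-- The eight half-sides. -/
def side : Fin 8 → ℕ → ℤ × ℤ → Prop := ![Tm, Tp, Rm, Rp, Lm, Lp, Bm, Bp]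

lemma prob_side {t : ℝ} {k n : ℕ} (i : Fin 8) :
    Pr (bern t) (fun ω : EIdx (n + 1) → Bool => Arm (opn ω) k n (side i)) =
      Pr (bern t) (fun ω : EIdx (n + 1) → Bool => Arm (opn ω) k n Tm) := by
  have e1 := Sym.prob (t := t) (k := k) (n := n) sX (a := Tp) (b := Tm)
    (by intro m v h; simp only [Tp, Tm, sX] at h ⊢; omega)
    (by intro m v h; simp only [Tp, Tm, sX] at h ⊢; omega)
  have e2 := Sym.prob (t := t) (k := k) (n := n) sD (a := Rm) (b := Tm)
    (by intro m v h; simp only [Rm, Tm, sD] at h ⊢; omega)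
    (by intro m v h; simp only [Rm, Tm, sD] at h ⊢; omega)
  have e3 := Sym.prob (t := t) (k := k) (n := n) sD (a := Rp) (b := Tp)
    (by intro m v h; simp only [Rp, Tp, sD] at h ⊢; omega)
    (by intro m v h; simp only [Rp, Tp, sD] at h ⊢; omega)
  have e4 := Sym.prob (t := t) (k := k) (n := n) sX (a := Lm) (b := Rm)
    (by intro m v h; simp only [Lm, Rm, sX] at h ⊢; omega)
    (by intro m v h; simp only [Lm, Rm, sX] at h ⊢; omega)
  have e5 := Sym.prob (t := t) (k := k) (n := n) sX (a := Lp) (b := Rp)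
    (by intro m v h; simp only [Lp, Rp, sX] at h ⊢; omega)
    (by intro m v h; simp only [Lp, Rp, sX] at h ⊢; omega)
  have e6 := Sym.prob (t := t) (k := k) (n := n) sY (a := Bm) (b := Tm)
    (by intro m v h; simp only [Bm, Tm, sY] at h ⊢; omega)
    (by intro m v h; simp only [Bm, Tm, sY] at h ⊢; omega)
  have e7 := Sym.prob (t := t) (k := k) (n := n) sY (a := Bp) (b := Tp)
    (by intro m v h; simp only [Bp, Tp, sY] at h ⊢; omega)
    (by intro m v h; simp only [Bp, Tp, sY] at h ⊢; omega)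
  fin_cases i
  · rfl
  · exact e1
  · exact e2
  · exact e3.trans e1
  · exact e4.trans e2
  · exact e5.trans (e3.trans e1)
  · exact e6
  · exact e7.trans e1

/-- First visit of the sphere of radius `n + 1`. -/
lemma first_hit {O : Sym2 (ℤ × ℤ) → Prop} {n : ℕ} {x y : ℤ × ℤ} (q : Z2.Walk x y) :
    x ∈ box n → y ∉ box n → (∀ e ∈ q.edges, O e) →
      ∃ u v, Z2.Adj u v ∧ O s(u, v) ∧ v ∉ box n ∧ v ∈ q.support ∧
        Conn O (box n : Set (ℤ × ℤ)) x u := by
  induction q with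
  | nil => intro h h'; exact absurd h h'
  | @cons a b c hab q ih =>
    intro ha hc hO
    by_cases hb : b ∈ box n
    · obtain ⟨u, v, huv, hOuv, hv, hvq, p, hp, hp'⟩ := ih hb hc
        (fun e he => hO e (by rw [SimpleGraph.Walk.edges_cons]; exact List.mem_cons_of_mem _ he))
      refine ⟨u, v, huv, hOuv, hv, ?_, SimpleGraph.Walk.cons hab p, ?_, ?_⟩
      · rw [SimpleGraph.Walk.support_cons]; exact List.mem_cons_of_mem _ hvq
      · intro w hw
        rw [SimpleGraph.Walk.support_cons] at hw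
        rcases List.mem_cons.mp hw with rfl | hw
        · exact Finset.mem_coe.mpr ha
        · exact hp w hw
      · intro e he
        rw [SimpleGraph.Walk.edges_cons] at he
        rcases List.mem_cons.mp he with rfl | he
        · exact hO _ (by rw [SimpleGraph.Walk.edges_cons]; exact List.mem_cons_self ..)
        · exact hp' e he
    · refine ⟨a, b, hab, hO _ (by rw [SimpleGraph.Walk.edges_cons]; exact List.mem_cons_self ..),
        hb, ?_, SimpleGraph.Walk.nil, ?_, ?_⟩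
      · rw [SimpleGraph.Walk.support_cons]
        exact List.mem_cons_of_mem _ (SimpleGraph.Walk.start_mem_support q)
      · intro w hw
        simp only [SimpleGraph.Walk.support_nil, List.mem_singleton] at hw
        subst hw; exact Finset.mem_coe.mpr ha
      · intro e he
        simp at he

lemma exists_side {m : ℕ} {v : ℤ × ℤ} (hv : v ∈ box m) (hv' : OnSph m v) : ∃ i, side i m v := by
  rw [mem_box] at hv
  unfold OnSph at hv'
  have h4 : v.1 = m ∨ v.1 = -m ∨ v.2 = m ∨ v.2 = -m := by omega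
  rcases h4 with h | h | h | h
  · rcases le_total v.2 0 with h2 | h2
    · exact ⟨2, h, hv.2.1, h2⟩
    · exact ⟨3, h, h2, hv.2.2⟩
  · rcases le_total v.2 0 with h2 | h2
    · exact ⟨4, h, hv.2.1, h2⟩
    · exact ⟨5, h, h2, hv.2.2⟩
  · rcases le_total v.1 0 with h2 | h2
    · exact ⟨0, h, hv.1.1, h2⟩
    · exact ⟨1, h, h2, hv.1.2⟩
  · rcases le_total v.1 0 with h2 | h2
    · exact ⟨6, h, hv.1.1, h2⟩
    · exact ⟨7, h, h2, hv.1.2⟩

lemma arm_of_armk {O : Sym2 (ℤ × ℤ) → Prop} {k n : ℕ} (hkn : k ≤ n)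
    (h : ∃ x ∈ box k, ∃ y, OnSph (n + 1) y ∧ Conn O (box (n + 1) : Set (ℤ × ℤ)) x y) :
    ∃ i, Arm O k n (side i) := by
  obtain ⟨x, hx, y, hy, q, hq, hq'⟩ := h
  have hxn : x ∈ box n := by
    rw [mem_box] at hx ⊢
    omega
  have hyn : y ∉ box n := by
    rw [mem_box]
    unfold OnSph at hy
    omega
  obtain ⟨u, v, huv, hO, hv, hvq, hc⟩ := first_hit q hxn hyn hq'
  have hvb : v ∈ box (n + 1) := Finset.mem_coe.mp (hq v hvq)
  have hvs : OnSph (n + 1) v := by
    rw [mem_box] at hv hvb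
    unfold OnSph
    push_cast at hvb
    omega
  obtain ⟨i, hi⟩ := exists_side hvb hvs
  exact ⟨i, x, hx, u, v, hi, huv, hO, hc⟩

lemma arm_mono {O O' : Sym2 (ℤ × ℤ) → Prop} {k n : ℕ} {a : ℕ → ℤ × ℤ → Prop}
    (hO : ∀ e, O e → O' e) (h : Arm O k n a) : Arm O' k n a := by
  obtain ⟨x, hx, u, y, hy, hadj, hOe, q, hq, hq'⟩ := h
  exact ⟨x, hx, u, y, hy, hadj, hO _ hOe, q, hq, fun e he => hO _ (hq' e he)⟩

end ArmsProbAux

open ArmsProbAux HarrisAux

theorem arms_prob {t ε : ℝ} (ht0 : 0 ≤ t) (ht1 : t ≤ 1) {k n : ℕ} (hkn : k ≤ n)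
    (h : 1 - ε ≤ armk t k (n + 1)) {a : ℕ → ℤ × ℤ → Prop}
    (ha : a = Tm ∨ a = Tp ∨ a = Rm ∨ a = Rp ∨ a = Lm ∨ a = Lp ∨ a = Bm ∨ a = Bp) :
    1 - ε ^ (1 / 8 : ℝ) ≤ Pr (bern t) (fun ω : EIdx (n + 1) → Bool => Arm (opn ω) k n a) := by
  have hp := bern_isProb ht0 ht1
  have hai : ∃ i, a = side i := by
    rcases ha with h | h | h | h | h | h | h | h
    exacts [⟨0, h⟩, ⟨1, h⟩, ⟨2, h⟩, ⟨3, h⟩, ⟨4, h⟩, ⟨5, h⟩, ⟨6, h⟩, ⟨7, h⟩]
  obtain ⟨i, rfl⟩ := hai
  rw [prob_side i]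
  set P := Pr (bern t) (fun ω : EIdx (n + 1) → Bool => Arm (opn ω) k n Tm) with hP
  have hE : ∀ j ∈ (Finset.univ : Finset (Fin 8)), ∀ ω ω' : EIdx (n + 1) → Bool,
      (∀ e, ω' e = true → ω e = true) → ¬ Arm (opn ω) k n (side j) →
        ¬ Arm (opn ω') k n (side j) := by
    intro j _ ω ω' hω hn harm
    refine hn (arm_mono ?_ harm)
    rintro e ⟨he, he'⟩
    exact ⟨he, hω _ he'⟩
  have hH := harris_dec ht0 ht1 (Finset.univ : Finset (Fin 8))
    (fun j (ω : EIdx (n + 1) → Bool) => ¬ Arm (opn ω) k n (side j)) hE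
  have hprod : ∏ j : Fin 8, Pr (bern t)
      (fun ω : EIdx (n + 1) → Bool => ¬ Arm (opn ω) k n (side j)) = (1 - P) ^ 8 := by
    rw [Finset.prod_congr rfl (g := fun _ => 1 - P)]
    · simp
    · intro j _
      rw [Pr_not (PercLawAux.bern_sum t), prob_side j]
  rw [hprod] at hH
  have hnone : Pr (bern t) (fun ω : EIdx (n + 1) → Bool =>
      ∀ j ∈ (Finset.univ : Finset (Fin 8)), ¬ Arm (opn ω) k n (side j)) ≤ ε := by
    have h1 : Pr (bern t) (fun ω : EIdx (n + 1) → Bool =>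
        ∀ j ∈ (Finset.univ : Finset (Fin 8)), ¬ Arm (opn ω) k n (side j)) ≤
        Pr (bern t) (fun ω : EIdx (n + 1) → Bool => ¬ ∃ x ∈ box k, ∃ y, OnSph (n + 1) y ∧
          Conn (opn ω) (box (n + 1) : Set (ℤ × ℤ)) x y) := by
      refine PeierlsAux.Pr_mono hp fun ω hω hex => ?_
      obtain ⟨j, hj⟩ := arm_of_armk hkn hex
      exact hω j (Finset.mem_univ j) hj
    rw [Pr_not (PercLawAux.bern_sum t)] at h1
    have h2 : armk t k (n + 1) = Pr (bern t) (fun ω : EIdx (n + 1) → Bool =>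
        ∃ x ∈ box k, ∃ y, OnSph (n + 1) y ∧
          Conn (opn ω) (box (n + 1) : Set (ℤ × ℤ)) x y) := rfl
    rw [← h2] at h1
    linarith
  have h8 : (1 - P) ^ 8 ≤ ε := hH.trans hnone
  have hP1 : 0 ≤ 1 - P := by
    classical
    rw [hP, ← Pr_not (PercLawAux.bern_sum t), PeierlsAux.Pr_eq]
    exact Finset.sum_nonneg fun ω _ => mul_nonneg (PeierlsAux.prod_nonneg' hp ω)
      (by split_ifs <;> norm_num)
  have h9 : ((1 - P) ^ 8) ^ (1 / 8 : ℝ) ≤ ε ^ (1 / 8 : ℝ) :=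
    Real.rpow_le_rpow (pow_nonneg hP1 8) h8 (by norm_num)
  have h10 : ((1 - P) ^ 8) ^ (1 / 8 : ℝ) = 1 - P := by
    rw [← Real.rpow_natCast, ← Real.rpow_mul hP1]
    norm_num
  rw [h10] at h9
  linarith

end Pool.Agent.Helper33_FPP
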