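import Mathlib

/-!
# The Burton-Keane counting lemma for a finite graph with connected blocks

Each block `z` splits the graph into at least three components, each of which contains a point of
`S`.  With one point of `S` chosen in each component of the graph, two of the three pieces avoid the
chosen point, and the difference of their (weighted) indicator functions is a Haar function on `S`;
the Haar functions of different blocks are orthogonal, hence there are at most `S.card` blocks.
-/

set_option autoImplicit false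

namespace Pool.Agent.Helper33_FPP
namespace BK

variable {V : Type} (G : SimpleGraph V)

/-- `a` and `b` are joined by a walk which avoids `B`. -/
def Av (B : Set V) (a b : V) : Prop := ∃ q : G.Walk a b, ∀ x ∈ q.support, x ∉ B

variable {G}

theorem Av.symm {B : Set V} {a b : V} (h : Av G B a b) : Av G B b a := by
  obtain ⟨q, hq⟩ := h
  refine ⟨q.reverse, fun x hx => hq x ?_⟩
  simpa using hx

theorem Av.trans {B : Set V} {a b c : V} (h : Av G B a b) (h' : Av G B b c) : Av G B a c := by
  obtain ⟨q, hq⟩ := h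
  obtain ⟨q', hq'⟩ := h'
  refine ⟨q.append q', fun x hx => ?_⟩
  rw [SimpleGraph.Walk.mem_support_append_iff] at hx
  rcases hx with hx | hx
  · exact hq x hx
  · exact hq' x hx

theorem Av.reach {B : Set V} {a b : V} (h : Av G B a b) : G.Reachable a b := by
  obtain ⟨q, _⟩ := h
  exact ⟨q⟩

theorem Av.refl {B : Set V} {a : V} (h : a ∉ B) : Av G B a a :=
  ⟨SimpleGraph.Walk.nil, by simpa using h⟩

theorem Av.adj {B : Set V} {a b : V} (h : G.Adj a b) (ha : a ∉ B) (hb : b ∉ B) : Av G B a b :=
  ⟨SimpleGraph.Walk.cons h SimpleGraph.Walk.nil, by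
    intro x hx
    simp at hx
    rcases hx with rfl | rfl
    · exact ha
    · exact hb⟩

theorem av_of_preconnected {B B' : Set V} (hc : (G.induce B').Preconnected) (hd : Disjoint B B')
    {a b : V} (ha : a ∈ B') (hb : b ∈ B') : Av G B a b := by
  obtain ⟨q⟩ := hc ⟨a, ha⟩ ⟨b, hb⟩
  refine ⟨q.map (SimpleGraph.Embedding.induce B').toHom, fun x hx hxB => ?_⟩
  have hx2 : x ∈ q.support.map (SimpleGraph.Embedding.induce (G := G) B').toHom := by
    rw [← SimpleGraph.Walk.support_map]
    exact hx
  rw [List.mem_map] at hx2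
  obtain ⟨y, _, rfl⟩ := hx2
  exact Set.disjoint_left.1 hd hxB y.2

theorem first_entrance {B : Set V} {s t : V} (q : G.Walk s t) (hs : s ∉ B) (ht : t ∈ B) :
    ∃ a u, Av G B s a ∧ G.Adj a u ∧ u ∈ B ∧ a ∉ B := by
  induction q with
  | nil => exact absurd ht hs
  | @cons x y z h q ih =>
    by_cases hy : y ∈ B
    · exact ⟨x, y, Av.refl hs, h, hy, hs⟩
    · obtain ⟨a, u, h1, h2, h3, h4⟩ := ih hy ht
      exact ⟨a, u, (Av.adj h hs hy).trans h1, h2, h3, h4⟩

/-- A component of the complement of `B'` which does not contain `w ∈ B` lies in the component of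
the complement of `B` which contains `u ∈ B'`. -/
theorem av_transfer {B B' : Set V} (hd : Disjoint B B') (hc : (G.induce B).Preconnected)
    {a u w x : V} (hu : u ∈ B') (hw : w ∈ B) (hau : G.Adj a u)
    (h : Av G B' a x) (hn : ¬ Av G B' a w) : Av G B u x := by
  obtain ⟨q, hq⟩ := h
  have key : ∀ y ∈ q.support, y ∉ B := by
    intro y hy hyB
    apply hn
    have h1 : Av G B' a y := by
      classical
      refine ⟨q.takeUntil y hy, fun v hv => hq v ?_⟩
      exact SimpleGraph.Walk.support_takeUntil_subset _ _ hv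
    exact h1.trans (av_of_preconnected hc hd.symm hyB hw)
  have huB : u ∉ B := fun h => Set.disjoint_left.1 hd h hu
  have haB : a ∉ B := key a q.start_mem_support
  exact (Av.adj hau.symm huB haB).trans ⟨q, key⟩

end BK

open BK in
theorem bk_count {V κ : Type} [Fintype V] (G : SimpleGraph V) (S : Finset V) (Z : Finset κ)
    (blk : κ → Set V) (hdisj : ∀ z ∈ Z, ∀ z' ∈ Z, z ≠ z' → Disjoint (blk z) (blk z'))
    (hconn : ∀ z ∈ Z, (G.induce (blk z)).Preconnected) (hS : ∀ z ∈ Z, ∀ v ∈ blk z, v ∉ S)
    (htri : ∀ z ∈ Z, ∃ v : Fin 3 → V,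
      (∀ i, v i ∉ blk z ∧ (∃ u ∈ blk z, G.Adj u (v i)) ∧
        ∃ y ∈ S, ∃ q : G.Walk (v i) y, ∀ x ∈ q.support, x ∉ blk z) ∧
      ∀ i j, i ≠ j → ¬ ∃ q : G.Walk (v i) (v j), ∀ x ∈ q.support, x ∉ blk z) :
    Z.card ≤ S.card := by
  classical
  -- the chosen point of `S` in each component
  have hroot : ∀ c : G.ConnectedComponent, ∃ s : V,
      (∃ y ∈ S, G.connectedComponentMk y = c) → s ∈ S ∧ G.connectedComponentMk s = c := by
    intro c
    by_cases h : ∃ y ∈ S, G.connectedComponentMk y = c
    · obtain ⟨y, hy⟩ := h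
      exact ⟨y, fun _ => hy⟩
    · obtain ⟨v, _⟩ := c.exists_rep
      exact ⟨v, fun h' => absurd h' h⟩
  choose root hroot using hroot
  -- the data of one block
  have data : ∀ z : Z, ∃ (a b ua ub s : V), ua ∈ blk z ∧ ub ∈ blk z ∧ G.Adj a ua ∧ G.Adj b ub ∧
      (∃ x ∈ S, Av G (blk z) a x) ∧ (∃ x ∈ S, Av G (blk z) b x) ∧ ¬ Av G (blk z) a b ∧
      ¬ Av G (blk z) a s ∧ ¬ Av G (blk z) b s ∧ s ∈ S ∧ G.Reachable s ua ∧
      s = root (G.connectedComponentMk ua) := by
    rintro ⟨z, hz⟩
    obtain ⟨v, hv, hsep⟩ := htri z hz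
    have hreach : ∀ i, ∀ u ∈ blk z, G.connectedComponentMk (v i) = G.connectedComponentMk u := by
      intro i u hu
      obtain ⟨-, ⟨w, hw, hwv⟩, -⟩ := hv i
      rw [SimpleGraph.ConnectedComponent.eq]
      refine hwv.symm.reachable.trans ?_
      obtain ⟨q⟩ := hconn z hz ⟨w, hw⟩ ⟨u, hu⟩
      exact ⟨q.map (SimpleGraph.Embedding.induce (blk z)).toHom⟩
    obtain ⟨i, j, hij, hi, hj⟩ : ∃ i j : Fin 3, i ≠ j ∧
        ¬ Av G (blk z) (v i) (root (G.connectedComponentMk (v 0))) ∧
        ¬ Av G (blk z) (v j) (root (G.connectedComponentMk (v 0))) := by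
      have amo : ∀ i j : Fin 3, i ≠ j →
          Av G (blk z) (v i) (root (G.connectedComponentMk (v 0))) →
          ¬ Av G (blk z) (v j) (root (G.connectedComponentMk (v 0))) := by
        intro i j hij h1 h2
        exact hsep i j hij (h1.trans h2.symm)
      by_cases h0 : Av G (blk z) (v 0) (root (G.connectedComponentMk (v 0)))
      · exact ⟨1, 2, by decide, amo 0 1 (by decide) h0, amo 0 2 (by decide) h0⟩
      · by_cases h1 : Av G (blk z) (v 1) (root (G.connectedComponentMk (v 0)))
        · exact ⟨0, 2, by decide, h0, amo 1 2 (by decide) h1⟩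
        · exact ⟨0, 1, by decide, h0, h1⟩
    obtain ⟨-, ⟨ua, hua, hadja⟩, xa, hxa, hxa'⟩ := hv i
    obtain ⟨-, ⟨ub, hub, hadjb⟩, xb, hxb, hxb'⟩ := hv j
    have hc : G.connectedComponentMk (v 0) = G.connectedComponentMk ua := hreach 0 ua hua
    have hr := hroot (G.connectedComponentMk (v 0)) ⟨xa, hxa, by
      rw [← hreach i ua hua |>.trans hc.symm]
      obtain ⟨q, _⟩ := hxa'
      exact SimpleGraph.ConnectedComponent.sound ⟨q.reverse⟩⟩
    refine ⟨v i, v j, ua, ub, root (G.connectedComponentMk (v 0)), hua, hub, hadja.symm,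
      hadjb.symm, ⟨xa, hxa, hxa'⟩, ⟨xb, hxb, hxb'⟩, hsep i j hij, hi, hj, hr.1, ?_, ?_⟩
    · rw [← SimpleGraph.ConnectedComponent.eq, ← hc]
      exact hr.2
    · rw [hc]
  choose a b ua ub s hua hub hadja hadjb hxa hxb hab hasn hbsn hsS hsr hroot' using data
  -- counting functions
  let nA : Z → ℝ := fun z => ((S.filter (fun x => Av G (blk z) (a z) x)).card : ℝ)
  let nB : Z → ℝ := fun z => ((S.filter (fun x => Av G (blk z) (b z) x)).card : ℝ)
  let g : Z → V → ℝ := fun z x =>
    nB z * (if Av G (blk z) (a z) x then 1 else 0) - nA z * (if Av G (blk z) (b z) x then 1 else 0)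
  have hnA : ∀ z : Z, 0 < nA z := by
    intro z
    obtain ⟨x, hx, hx'⟩ := hxa z
    have : 0 < (S.filter (fun x => Av G (blk z) (a z) x)).card :=
      Finset.card_pos.2 ⟨x, Finset.mem_filter.2 ⟨hx, hx'⟩⟩
    exact Nat.cast_pos.2 this
  have hnB : ∀ z : Z, 0 < nB z := by
    intro z
    obtain ⟨x, hx, hx'⟩ := hxb z
    have : 0 < (S.filter (fun x => Av G (blk z) (b z) x)).card :=
      Finset.card_pos.2 ⟨x, Finset.mem_filter.2 ⟨hx, hx'⟩⟩
    exact Nat.cast_pos.2 this
  have hsum : ∀ z : Z, ∑ x ∈ S, g z x = 0 := by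
    intro z
    simp only [g, Finset.sum_sub_distrib, ← Finset.mul_sum, Finset.sum_boole]
    simp only [nA, nB]
    ring
  -- support
  have hsupp : ∀ (z : Z) (x : V), g z x ≠ 0 → Av G (blk z) (a z) x ∨ Av G (blk z) (b z) x := by
    intro z x h
    by_contra hcon
    push_neg at hcon
    apply h
    simp [g, hcon.1, hcon.2]
  -- constancy
  have hconst : ∀ (z : Z) (x x' : V), Av G (blk z) x x' → g z x = g z x' := by
    intro z x x' h
    have h1 : Av G (blk z) (a z) x ↔ Av G (blk z) (a z) x' :=
      ⟨fun k => k.trans h, fun k => k.trans h.symm⟩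
    have h2 : Av G (blk z) (b z) x ↔ Av G (blk z) (b z) x' :=
      ⟨fun k => k.trans h, fun k => k.trans h.symm⟩
    simp only [g, h1, h2]
  -- reach
  have hreachA : ∀ (z : Z) (x : V), g z x ≠ 0 → G.Reachable (ua z) x := by
    intro z x h
    have hub' : G.Reachable (ua z) (ub z) := by
      obtain ⟨q⟩ := hconn z z.2 ⟨ua z, hua z⟩ ⟨ub z, hub z⟩
      exact ⟨q.map (SimpleGraph.Embedding.induce (blk z)).toHom⟩
    rcases hsupp z x h with h | h
    · exact (hadja z).symm.reachable.trans h.reach
    · exact hub'.trans ((hadjb z).symm.reachable.trans h.reach)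
  -- one-sided orthogonality
  have side : ∀ z z' : Z, z ≠ z' → Av G (blk z') (ua z) (s z') →
      ∑ x ∈ S, g z x * g z' x = 0 := by
    intro z z' hzz hK
    have hd : Disjoint (blk z) (blk z') :=
      hdisj z z.2 z' z'.2 (fun h => hzz (Subtype.ext h))
    have hsub : ∀ x, g z' x ≠ 0 → Av G (blk z) (ua z') x := by
      intro x hx
      rcases hsupp z' x hx with h | h
      · exact av_transfer hd (hconn z z.2) (hua z') (hua z) (hadja z') h
          (fun h' => hasn z' (h'.trans hK))
      · have h1 : Av G (blk z) (ub z') x :=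
          av_transfer hd (hconn z z.2) (hub z') (hua z) (hadjb z') h
            (fun h' => hbsn z' (h'.trans hK))
        exact (av_of_preconnected (hconn z' z'.2) hd (hua z') (hub z')).trans h1
    have : ∀ x ∈ S, g z x * g z' x = g z (ua z') * g z' x := by
      intro x _
      by_cases hx : g z' x = 0
      · rw [hx, mul_zero, mul_zero]
      · rw [hconst z (ua z') x (hsub x hx)]
    rw [Finset.sum_congr rfl this, ← Finset.mul_sum, hsum, mul_zero]
  have orth : ∀ z z' : Z, z ≠ z' → ∑ x ∈ S, g z x * g z' x = 0 := by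
    intro z z' hzz
    by_cases hre : G.Reachable (ua z) (ua z')
    · have hss : s z = s z' := by
        rw [hroot' z, hroot' z', SimpleGraph.ConnectedComponent.sound hre]
      by_cases hK : Av G (blk z') (ua z) (s z')
      · exact side z z' hzz hK
      · have hd : Disjoint (blk z) (blk z') :=
          hdisj z z.2 z' z'.2 (fun h => hzz (Subtype.ext h))
        have hK' : Av G (blk z) (ua z') (s z) := by
          obtain ⟨q⟩ := hsr z'
          obtain ⟨c, u, h1, h2, h3, h4⟩ := first_entrance (B := blk z') q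
            (fun h => hS z' z'.2 _ h (hsS z')) (hua z')
          have h5 : Av G (blk z) u (s z') := by
            refine av_transfer hd (hconn z z.2) h3 (hua z) h2 h1.symm (fun h' => hK ?_)
            exact (h1.trans h').symm
          rw [hss]
          exact (av_of_preconnected (hconn z' z'.2) hd (hua z') h3).trans h5
        have := side z' z hzz.symm hK'
        rw [← this]
        exact Finset.sum_congr rfl (fun x _ => mul_comm _ _)
    · refine Finset.sum_eq_zero (fun x _ => ?_)
      by_contra h
      have h1 : g z x ≠ 0 := left_ne_zero_of_mul h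
      have h2 : g z' x ≠ 0 := right_ne_zero_of_mul h
      exact hre ((hreachA z x h1).trans (hreachA z' x h2).symm)
  -- linear independence
  let f : Z → EuclideanSpace ℝ S := fun z => WithLp.toLp 2 (fun x : S => g z x)
  have hli : LinearIndependent ℝ f := by
    refine linearIndependent_of_ne_zero_of_inner_eq_zero (𝕜 := ℝ) (v := f) ?_ ?_
    · intro z h
      obtain ⟨x, hx, hx'⟩ := hxa z
      have h1 : g z x = 0 := by
        have := congrArg (fun F : EuclideanSpace ℝ S => F ⟨x, hx⟩) h
        simpa [f] using this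
      have h2 : ¬ Av G (blk z) (b z) x := fun h' => hab z (hx'.trans h'.symm)
      have h3 : g z x = nB z := by simp [g, hx', h2]
      rw [h3] at h1
      exact (hnB z).ne' h1
    · intro z z' hzz
      have := orth z z' hzz
      rw [← Finset.sum_coe_sort] at this
      simp only [f, PiLp.inner_apply]
      rw [← this]
      refine Finset.sum_congr rfl (fun x _ => ?_)
      simp [mul_comm]
  have := hli.fintype_card_le_finrank
  simpa using this

end Pool.Agent.Helper33_FPP
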