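import Pool.Agent.Helper33_FPP.Basic

/-!
# Two lattice walks that cross share a vertex

A walk that goes from left to right (first diagonal coordinate `A`) and a walk that goes from
bottom to top (second diagonal coordinate `B`) of a box share a vertex.  The proof counts modulo
two the steps of the first walk that pass below a vertex of the second walk.
-/

set_option autoImplicit false

namespace Pool.Agent.Helper33_FPP

open Finset

theorem adj_AB {x y : ℤ × ℤ} (h : Z2.Adj x y) :
    (A y = A x + 1 ∨ A y = A x - 1) ∧ (B y = B x + 1 ∨ B y = B x - 1) := by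
  have h' : (x.1 - y.1).natAbs + (x.2 - y.2).natAbs = 1 := h
  unfold A B
  omega

theorem AB_parity (x : ℤ × ℤ) : (A x + B x) % 2 = 0 := by
  unfold A B
  omega

theorem AB_inj {x y : ℤ × ℤ} (h1 : A x = A y) (h2 : B x = B y) : x = y := by
  unfold A at h1
  unfold B at h2
  exact Prod.ext (by omega) (by omega)

/-- Parity of the number of changes of a predicate along `0, …, n`. -/
theorem parity_changes (f : ℕ → Prop) [DecidablePred f] (n : ℕ) :
    (((range n).filter (fun t => ¬ (f t ↔ f (t + 1)))).card % 2 = if (f 0 ↔ f n) then 0 else 1) := by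
  induction n with
  | zero => simp
  | succ n ih =>
    rw [range_add_one, filter_insert]
    by_cases h1 : (f n ↔ f (n + 1))
    · rw [if_neg (not_not.2 h1), ih]
      by_cases h2 : (f 0 ↔ f n)
      · rw [if_pos h2, if_pos (h2.trans h1)]
      · rw [if_neg h2, if_neg (fun h => h2 (h.trans h1.symm))]
    · rw [if_pos h1, card_insert_of_notMem (by simp)]
      by_cases h2 : (f 0 ↔ f n)
      · rw [if_pos h2] at ih
        rw [if_neg (fun h => h1 (h2.symm.trans h))]
        omega
      · rw [if_neg h2] at ih
        have h3 : (f 0 ↔ f (n + 1)) := by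
          by_cases a : f 0 <;> by_cases b : f n <;> by_cases c : f (n + 1) <;> simp_all
        rw [if_pos h3]
        omega

/-- The integer arithmetic behind `below_step`. -/
theorem step_iff (a b a' b' av bv bv' : ℤ) (h1 : a' = a + 1 ∨ a' = a - 1)
    (h2 : b' = b + 1 ∨ b' = b - 1) (hb : bv' = bv + 1 ∨ bv' = bv - 1) (p1 : (a + b) % 2 = 0)
    (p3 : (av + bv) % 2 = 0) (e1 : ¬ (a = av ∧ b = bv)) (e2 : ¬ (a' = av ∧ b' = bv))
    (e3 : ¬ (a = av + 1 ∧ b = bv')) (e4 : ¬ (a' = av + 1 ∧ b' = bv')) :
    ¬ ((a = av + 1 ∧ b < bv') ↔ (a' = av + 1 ∧ b' < bv')) ↔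
      ((a = av ∧ b < bv ∧ a' = av + 1) ∨ (a' = av ∧ b' < bv ∧ a = av + 1)) ∨
      ((a = av + 1 ∧ b < bv' ∧ a' = av + 2) ∨ (a' = av + 1 ∧ b' < bv' ∧ a = av + 2)) := by
  rcases h1 with rfl | rfl <;> rcases h2 with rfl | rfl <;> rcases hb with rfl | rfl <;>
    constructor <;> intro h <;> omega

section

variable {x y : ℤ × ℤ} (p : Z2.Walk x y)

/-- Steps of `p` between the columns `A = a` and `A = a + 1` whose endpoint in column `a` is strictly
below height `b`. -/
noncomputable def below (a b : ℤ) : Finset ℕ := by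
  classical
  exact (range p.length).filter (fun t =>
    (A (p.getVert t) = a ∧ B (p.getVert t) < b ∧ A (p.getVert (t + 1)) = a + 1) ∨
    (A (p.getVert (t + 1)) = a ∧ B (p.getVert (t + 1)) < b ∧ A (p.getVert t) = a + 1))

theorem mem_below {a b : ℤ} {t : ℕ} : t ∈ below p a b ↔ t < p.length ∧
    ((A (p.getVert t) = a ∧ B (p.getVert t) < b ∧ A (p.getVert (t + 1)) = a + 1) ∨
    (A (p.getVert (t + 1)) = a ∧ B (p.getVert (t + 1)) < b ∧ A (p.getVert t) = a + 1)) := by
  unfold below
  simp

/-- One step to the right of a vertex off `p`. -/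
theorem below_step {v v' : ℤ × ℤ} (hv : v ∉ p.support) (hv' : v' ∉ p.support)
    (hadj : Z2.Adj v v') (hA : A v' = A v + 1) (hx : A x < A v') (hy : A v' < A y) :
    (below p (A v) (B v)).card % 2 = (below p (A v') (B v')).card % 2 := by
  classical
  have hB := (adj_AB hadj).2
  -- steps incident to the part of the column of `v'` below `v'`
  let f : ℕ → Prop := fun t => A (p.getVert t) = A v' ∧ B (p.getVert t) < B v'
  have hpar := parity_changes f p.length
  have hf0 : ¬ f 0 := by
    intro h
    have := h.1
    rw [p.getVert_zero] at this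
    omega
  have hfn : ¬ f p.length := by
    intro h
    have := h.1
    rw [p.getVert_length] at this
    omega
  rw [if_pos (by tauto)] at hpar
  have hunion : (range p.length).filter (fun t => ¬ (f t ↔ f (t + 1)))
      = below p (A v) (B v) ∪ below p (A v') (B v') := by
    ext t
    rw [mem_filter, mem_range, mem_union, mem_below, mem_below, ← and_or_left]
    refine and_congr_right ?_
    intro ht
    have hab := adj_AB (p.adj_getVert_succ ht)
    have hm1 := p.getVert_mem_support t
    have hm2 := p.getVert_mem_support (t + 1)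
    have e1 : ¬ (A (p.getVert t) = A v ∧ B (p.getVert t) = B v) := fun h =>
      hv ((AB_inj h.1 h.2) ▸ hm1)
    have e2 : ¬ (A (p.getVert (t + 1)) = A v ∧ B (p.getVert (t + 1)) = B v) := fun h =>
      hv ((AB_inj h.1 h.2) ▸ hm2)
    have e3 : ¬ (A (p.getVert t) = A v + 1 ∧ B (p.getVert t) = B v') := fun h =>
      hv' ((AB_inj (h.1.trans hA.symm) h.2) ▸ hm1)
    have e4 : ¬ (A (p.getVert (t + 1)) = A v + 1 ∧ B (p.getVert (t + 1)) = B v') := fun h =>
      hv' ((AB_inj (h.1.trans hA.symm) h.2) ▸ hm2)
    have key := step_iff _ _ _ _ _ _ _ hab.1 hab.2 hB (AB_parity (p.getVert t)) (AB_parity v)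
      e1 e2 e3 e4
    have hA2 : A v' + 1 = A v + 2 := by omega
    change ¬ ((A (p.getVert t) = A v' ∧ B (p.getVert t) < B v') ↔
      (A (p.getVert (t + 1)) = A v' ∧ B (p.getVert (t + 1)) < B v')) ↔ _
    rw [hA2, hA]
    exact key
  have hdisj : Disjoint (below p (A v) (B v)) (below p (A v') (B v')) := by
    rw [Finset.disjoint_left]
    intro t h1 h2
    rw [mem_below] at h1 h2
    obtain ⟨_, h1⟩ := h1
    obtain ⟨_, h2⟩ := h2
    omega
  rw [hunion, card_union_of_disjoint hdisj] at hpar
  omega

theorem below_step' {v v' : ℤ × ℤ} (hv : v ∉ p.support) (hv' : v' ∉ p.support)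
    (hadj : Z2.Adj v v') (hx : A x < A v) (hx' : A x < A v') (hy : A v < A y) (hy' : A v' < A y) :
    (below p (A v) (B v)).card % 2 = (below p (A v') (B v')).card % 2 := by
  rcases (adj_AB hadj).1 with h | h
  · exact below_step p hv hv' hadj h hx' hy'
  · exact (below_step p hv' hv hadj.symm (by omega) hx hy).symm

end

/-- Two crossing walks share a vertex. -/
theorem crossing {x y x' y' : ℤ × ℤ} (p : Z2.Walk x y) (q : Z2.Walk x' y') (a₀ a₁ b₀ b₁ : ℤ)
    (hx : A x < a₀) (hy : a₁ < A y) (hp : ∀ v ∈ p.support, b₀ ≤ B v ∧ B v ≤ b₁)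
    (hx' : B x' < b₀) (hy' : b₁ < B y') (hq : ∀ v ∈ q.support, a₀ ≤ A v ∧ A v ≤ a₁) :
    ∃ v, v ∈ p.support ∧ v ∈ q.support := by
  classical
  by_contra hcon
  push Not at hcon
  have hq' : ∀ v ∈ q.support, v ∉ p.support := fun v hv hv' => hcon v hv' hv
  have key : ∀ t, t ≤ q.length →
      (below p (A (q.getVert t)) (B (q.getVert t))).card % 2 = 0 := by
    intro t
    induction t with
    | zero =>
      intro _
      have : below p (A (q.getVert 0)) (B (q.getVert 0)) = ∅ := by
        rw [Finset.eq_empty_iff_forall_notMem]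
        intro s hs
        rw [mem_below, q.getVert_zero] at hs
        have h1 := (hp _ (p.getVert_mem_support s)).1
        have h2 := (hp _ (p.getVert_mem_support (s + 1))).1
        omega
      rw [this]
      rfl
    | succ t ih =>
      intro ht
      rw [← ih (by omega)]
      have h1 := hq _ (q.getVert_mem_support t)
      have h2 := hq _ (q.getVert_mem_support (t + 1))
      exact (below_step' p (hq' _ (q.getVert_mem_support t)) (hq' _ (q.getVert_mem_support (t + 1)))
        (q.adj_getVert_succ (by omega)) (by omega) (by omega) (by omega) (by omega)).symm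
  have hend := key q.length le_rfl
  rw [q.getVert_length] at hend
  have hyq := hq y' (by simp)
  let f : ℕ → Prop := fun t => A (p.getVert t) ≤ A y'
  have hpar := parity_changes f p.length
  have hf0 : f 0 := by
    change A (p.getVert 0) ≤ A y'
    rw [p.getVert_zero]
    omega
  have hfn : ¬ f p.length := by
    change ¬ A (p.getVert p.length) ≤ A y'
    rw [p.getVert_length]
    omega
  rw [if_neg (by tauto)] at hpar
  have heq : (range p.length).filter (fun t => ¬ (f t ↔ f (t + 1))) = below p (A y') (B y') := by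
    ext t
    simp only [mem_filter, mem_range, mem_below]
    constructor
    · rintro ⟨ht, hne⟩
      have hab := adj_AB (p.adj_getVert_succ ht)
      have h1 := (hp _ (p.getVert_mem_support t)).2
      have h2 := (hp _ (p.getVert_mem_support (t + 1))).2
      refine ⟨ht, ?_⟩
      have hne' : ¬ (A (p.getVert t) ≤ A y' ↔ A (p.getVert (t + 1)) ≤ A y') := hne
      omega
    · rintro ⟨ht, h⟩
      refine ⟨ht, ?_⟩
      change ¬ (A (p.getVert t) ≤ A y' ↔ A (p.getVert (t + 1)) ≤ A y')
      omega
  rw [heq] at hpar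
  omega

end Pool.Agent.Helper33_FPP
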