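import Pool.Agent.Helper33_FPP.Perc
import Pool.Agent.Helper33_FPP.Cross

/-!
# A primal walk from left to right and a dual walk from top to bottom cross

The dual vertex with index `(i, j)` is the point `(i + 1/2, j + 1/2)`.  The proof counts modulo two
the horizontal steps of the primal walk that pass below a dual vertex.
-/

set_option autoImplicit false

namespace Pool.Agent.Helper33_FPP

open Finset

section

variable {a b : ℤ × ℤ} (P : Z2.Walk a b)

/-- Horizontal steps of `P` between the columns `i` and `i + 1` at height at most `j`. -/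
noncomputable def lowS (i j : ℤ) : Finset ℕ := by
  classical
  exact (range P.length).filter (fun t =>
    ((P.getVert t).2 = (P.getVert (t + 1)).2 ∧ (P.getVert t).2 ≤ j) ∧
      (((P.getVert t).1 = i ∧ (P.getVert (t + 1)).1 = i + 1) ∨
        ((P.getVert t).1 = i + 1 ∧ (P.getVert (t + 1)).1 = i)))

theorem mem_lowS {i j : ℤ} {t : ℕ} : t ∈ lowS P i j ↔ t < P.length ∧
    ((P.getVert t).2 = (P.getVert (t + 1)).2 ∧ (P.getVert t).2 ≤ j) ∧
      (((P.getVert t).1 = i ∧ (P.getVert (t + 1)).1 = i + 1) ∨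
        ((P.getVert t).1 = i + 1 ∧ (P.getVert (t + 1)).1 = i)) := by
  unfold lowS
  simp

theorem edge_step {t : ℕ} (ht : t < P.length) {u v : ℤ × ℤ} (hne : s(u, v) ∉ P.edges) :
    ¬ ((P.getVert t).1 = u.1 ∧ (P.getVert t).2 = u.2 ∧ (P.getVert (t + 1)).1 = v.1 ∧
      (P.getVert (t + 1)).2 = v.2) ∧
    ¬ ((P.getVert t).1 = v.1 ∧ (P.getVert t).2 = v.2 ∧ (P.getVert (t + 1)).1 = u.1 ∧
      (P.getVert (t + 1)).2 = u.2) := by
  constructor
  · rintro ⟨h1, h2, h3, h4⟩
    refine hne (P.mk_mem_edges_iff_exists.2 ⟨t, ht, ?_⟩)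
    rw [Prod.ext h1 h2, Prod.ext h3 h4]
  · rintro ⟨h1, h2, h3, h4⟩
    refine hne (P.mk_mem_edges_iff_exists.2 ⟨t, ht, ?_⟩)
    rw [Prod.ext h1 h2, Prod.ext h3 h4, Sym2.eq_swap]

/-- A vertical dual step. -/
theorem lowS_vert {i j : ℤ} (hne : s((i, j + 1), (i + 1, j + 1)) ∉ P.edges) :
    lowS P i (j + 1) = lowS P i j := by
  ext t
  rw [mem_lowS, mem_lowS]
  refine and_congr_right ?_
  intro ht
  have he := edge_step P ht hne
  simp only at he
  omega

/-- A horizontal dual step. -/
theorem lowS_horiz {i j : ℤ} (hne : s((i + 1, j), (i + 1, j + 1)) ∉ P.edges) (ha : a.1 ≠ i + 1)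
    (hb : b.1 ≠ i + 1) : (lowS P i j).card % 2 = (lowS P (i + 1) j).card % 2 := by
  classical
  let f : ℕ → Prop := fun t => (P.getVert t).1 = i + 1 ∧ (P.getVert t).2 ≤ j
  have hpar := parity_changes f P.length
  have hf0 : ¬ f 0 := by
    intro h
    have := h.1
    rw [P.getVert_zero] at this
    exact ha this
  have hfn : ¬ f P.length := by
    intro h
    have := h.1
    rw [P.getVert_length] at this
    exact hb this
  rw [if_pos (by tauto)] at hpar
  have hunion : (range P.length).filter (fun t => ¬ (f t ↔ f (t + 1)))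
      = lowS P i j ∪ lowS P (i + 1) j := by
    ext t
    rw [mem_filter, mem_range, mem_union, mem_lowS, mem_lowS, ← and_or_left]
    refine and_congr_right ?_
    intro ht
    have hab : ((P.getVert t).1 - (P.getVert (t + 1)).1).natAbs +
      ((P.getVert t).2 - (P.getVert (t + 1)).2).natAbs = 1 := P.adj_getVert_succ ht
    have he := edge_step P ht hne
    simp only at he
    change ¬ (((P.getVert t).1 = i + 1 ∧ (P.getVert t).2 ≤ j) ↔
      ((P.getVert (t + 1)).1 = i + 1 ∧ (P.getVert (t + 1)).2 ≤ j)) ↔ _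
    generalize (P.getVert t).1 = x at *
    generalize (P.getVert t).2 = y at *
    generalize (P.getVert (t + 1)).1 = x' at *
    generalize (P.getVert (t + 1)).2 = y' at *
    constructor
    · intro h
      omega
    · intro h
      omega
  have hdisj : Disjoint (lowS P i j) (lowS P (i + 1) j) := by
    rw [Finset.disjoint_left]
    intro t h1 h2
    rw [mem_lowS] at h1 h2
    omega
  rw [hunion, card_union_of_disjoint hdisj] at hpar
  omega

end

theorem dualE_vert (i j : ℤ) : dualE s((i, j), (i, j + 1)) = s((i, j + 1), (i + 1, j + 1)) := by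
  simp [dualE]

theorem dualE_horiz (i j : ℤ) : dualE s((i, j), (i + 1, j)) = s((i + 1, j), (i + 1, j + 1)) := by
  simp [dualE]

/-- A dual step off `P` does not change the parity. -/
theorem lowS_step {a b : ℤ × ℤ} (P : Z2.Walk a b) {u v : ℤ × ℤ} (huv : Z2.Adj u v)
    (hne : dualE s(u, v) ∉ P.edges) (hau : a.1 < u.1 + 1) (hav : a.1 < v.1 + 1)
    (hbu : u.1 < b.1) (hbv : v.1 < b.1) :
    (lowS P u.1 u.2).card % 2 = (lowS P v.1 v.2).card % 2 := by
  obtain ⟨i, j⟩ := u
  obtain ⟨i', j'⟩ := v
  have h' : (i - i').natAbs + (j - j').natAbs = 1 := huv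
  simp only at hau hav hbu hbv ⊢
  have h4 : (i' = i + 1 ∧ j' = j) ∨ (i = i' + 1 ∧ j = j') ∨ (i' = i ∧ j' = j + 1) ∨
      (i = i' ∧ j = j' + 1) := by omega
  rcases h4 with ⟨rfl, rfl⟩ | ⟨rfl, rfl⟩ | ⟨rfl, rfl⟩ | ⟨rfl, rfl⟩
  · rw [dualE_horiz] at hne
    exact lowS_horiz P hne (by omega) (by omega)
  · rw [Sym2.eq_swap, dualE_horiz] at hne
    exact (lowS_horiz P hne (by omega) (by omega)).symm
  · rw [dualE_vert] at hne
    rw [lowS_vert P hne]
  · rw [Sym2.eq_swap, dualE_vert] at hne
    rw [lowS_vert P hne]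

/-- A primal left-right walk and a dual top-bottom walk cross. -/
theorem cross_pd {n : ℕ} {a b c d : ℤ × ℤ} (P : Z2.Walk a b) (D : Z2.Walk c d)
    (ha : a.1 = -((n : ℤ) + 1)) (hb : b.1 = (n : ℤ) + 1)
    (hP : ∀ v ∈ P.support, -(n : ℤ) ≤ v.2 ∧ v.2 ≤ (n : ℤ) + 1)
    (hc : c.2 = (n : ℤ) + 1) (hd : d.2 = -((n : ℤ) + 1))
    (hD : ∀ v ∈ D.support, -((n : ℤ) + 1) ≤ v.1 ∧ v.1 ≤ n) :
    ∃ e ∈ D.edges, dualE e ∈ P.edges := by
  classical
  by_contra hcon
  push Not at hcon
  have key : ∀ t, t ≤ D.length →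
      (lowS P (D.getVert t).1 (D.getVert t).2).card % 2 = (lowS P c.1 c.2).card % 2 := by
    intro t
    induction t with
    | zero =>
      intro _
      rw [D.getVert_zero]
    | succ t ih =>
      intro ht
      rw [← ih (by omega)]
      have h1 := hD _ (D.getVert_mem_support t)
      have h2 := hD _ (D.getVert_mem_support (t + 1))
      have he : s(D.getVert t, D.getVert (t + 1)) ∈ D.edges :=
        D.mk_mem_edges_iff_exists.2 ⟨t, by omega, rfl⟩
      exact (lowS_step P (D.adj_getVert_succ (by omega)) (hcon _ he) (by omega) (by omega)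
        (by omega) (by omega)).symm
  have hend := key D.length le_rfl
  rw [D.getVert_length] at hend
  have hdc := hD c (by simp)
  have h0 : lowS P d.1 d.2 = ∅ := by
    rw [Finset.eq_empty_iff_forall_notMem]
    intro s hs
    rw [mem_lowS] at hs
    have h1 := (hP _ (P.getVert_mem_support s)).1
    omega
  rw [h0] at hend
  let f : ℕ → Prop := fun t => (P.getVert t).1 ≤ c.1
  have hpar := parity_changes f P.length
  have hf0 : f 0 := by
    change (P.getVert 0).1 ≤ c.1
    rw [P.getVert_zero]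
    omega
  have hfn : ¬ f P.length := by
    change ¬ (P.getVert P.length).1 ≤ c.1
    rw [P.getVert_length]
    omega
  rw [if_neg (by tauto)] at hpar
  have heq : (range P.length).filter (fun t => ¬ (f t ↔ f (t + 1))) = lowS P c.1 c.2 := by
    ext t
    simp only [mem_filter, mem_range, mem_lowS]
    refine and_congr_right ?_
    intro ht
    have hab : ((P.getVert t).1 - (P.getVert (t + 1)).1).natAbs +
      ((P.getVert t).2 - (P.getVert (t + 1)).2).natAbs = 1 := P.adj_getVert_succ ht
    have h1 := (hP _ (P.getVert_mem_support t)).2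
    have h2 := (hP _ (P.getVert_mem_support (t + 1))).2
    change ¬ ((P.getVert t).1 ≤ c.1 ↔ (P.getVert (t + 1)).1 ≤ c.1) ↔ _
    generalize (P.getVert t).1 = x at *
    generalize (P.getVert t).2 = y at *
    generalize (P.getVert (t + 1)).1 = x' at *
    generalize (P.getVert (t + 1)).2 = y' at *
    constructor
    · intro h
      omega
    · intro h
      omega
  rw [heq] at hpar
  rw [card_empty] at hend
  omega

end Pool.Agent.Helper33_FPP
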