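import Pool.Agent.Helper33_FPP.Basic

/-!
# Transfer from i.i.d. real weights to finitely many values
-/

set_option autoImplicit false

open MeasureTheory ProbabilityTheory Filter Topology

namespace Pool.Agent.Helper33_FPP

/-- Discretisation of a real number with mesh `1 / m`, values `0, …, K`. -/
noncomputable def dsc (m K : ℕ) (x : ℝ) : Fin (K + 1) := ⟨min ⌊(m : ℝ) * x⌋₊ K, by omega⟩

/-- Law of the discretised weight. -/
noncomputable def dscP (F : Measure ℝ) (m K : ℕ) (v : Fin (K + 1)) : ℝ :=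
  F.real {x | dsc m K x = v}

theorem measurable_dsc (m K : ℕ) : Measurable (dsc m K) := by
  have h : Measurable (fun x : ℝ => min ⌊(m : ℝ) * x⌋₊ K) :=
    (Nat.measurable_floor.comp (measurable_const.mul measurable_id)).min measurable_const
  refine measurable_to_countable' (fun v => ?_)
  have : dsc m K ⁻¹' {v} = (fun x : ℝ => min ⌊(m : ℝ) * x⌋₊ K) ⁻¹' {v.1} := by
    ext x
    simp [dsc, Fin.ext_iff]
  rw [this]
  exact h (MeasurableSet.singleton _)

theorem dscP_isProb (F : Measure ℝ) [IsProbabilityMeasure F] (m K : ℕ) : IsProb (dscP F m K) := by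
  constructor
  · intro v
    exact measureReal_nonneg
  · have h1 : ∑ v, dscP F m K v = ∑ v : Fin (K + 1), (F.map (dsc m K)).real {v} := by
      refine Finset.sum_congr rfl (fun v _ => ?_)
      rw [map_measureReal_apply (measurable_dsc m K) (MeasurableSet.singleton _)]
      rfl
    rw [h1]
    have : IsProbabilityMeasure (F.map (dsc m K)) :=
      Measure.isProbabilityMeasure_map (measurable_dsc m K).aemeasurable
    rw [sum_measureReal_singleton]
    simp

theorem transfer {ι Ω : Type*} [Fintype ι] [DecidableEq ι] [MeasurableSpace Ω] {P : Measure Ω}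
    [IsProbabilityMeasure P] {F : Measure ℝ} [IsProbabilityMeasure F] {w : ι → Ω → ℝ}
    (hm : ∀ i, Measurable (w i)) (hind : iIndepFun w P) (hF : ∀ i, P.map (w i) = F) (m K : ℕ)
    (φ : (ι → Fin (K + 1)) → ℝ) :
    ∫ ω, φ (fun i => dsc m K (w i ω)) ∂P = Ex (dscP F m K) φ := by
  have hmi : ∀ i, Measurable (fun ω => dsc m K (w i ω)) := fun i => (measurable_dsc m K).comp (hm i)
  have hX : Measurable (fun ω => fun i => dsc m K (w i ω)) := measurable_pi_lambda _ hmi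
  have hind' : iIndepFun (fun i ω => dsc m K (w i ω)) P :=
    hind.comp (fun _ => dsc m K) (fun _ => measurable_dsc m K)
  have hmap : P.map (fun ω => fun i => dsc m K (w i ω)) =
      Measure.pi (fun i => P.map (fun ω => dsc m K (w i ω))) :=
    (iIndepFun_iff_map_fun_eq_pi_map (fun i => (hmi i).aemeasurable)).1 hind'
  have hFi : ∀ i, P.map (fun ω => dsc m K (w i ω)) = F.map (dsc m K) := by
    intro i
    rw [← hF i, Measure.map_map (measurable_dsc m K) (hm i)]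
    rfl
  have hpF : IsProbabilityMeasure (F.map (dsc m K)) :=
    Measure.isProbabilityMeasure_map (measurable_dsc m K).aemeasurable
  have h1 : ∫ ω, φ (fun i => dsc m K (w i ω)) ∂P
      = ∫ a, φ a ∂(P.map (fun ω => fun i => dsc m K (w i ω))) := by
    rw [integral_map hX.aemeasurable]
    exact (measurable_of_finite φ).aestronglyMeasurable
  rw [h1, hmap]
  simp_rw [hFi]
  rw [integral_fintype Integrable.of_finite]
  unfold Ex
  refine Finset.sum_congr rfl (fun a _ => ?_)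
  rw [smul_eq_mul]
  congr 1
  rw [Measure.real, Measure.pi_singleton, ENNReal.toReal_prod]
  refine Finset.prod_congr rfl (fun i _ => ?_)
  have := map_measureReal_apply (μ := F) (measurable_dsc m K) (MeasurableSet.singleton (a i))
  rw [Measure.real] at this
  rw [this]
  rfl

/-- The concentration estimate for finitely many values (module `Conc`). -/
def ConcFor (ι : Type*) [Fintype ι] [DecidableEq ι] : Prop :=
  ∀ {V : Type} [Fintype V] {p : V → ℝ} (_ : IsProb p)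
    {val : V → ℝ} {b : ℝ} (_ : 0 < b) (_ : ∀ v, 0 ≤ val v ∧ val v ≤ b)
    (𝒮 : Finset (Finset ι)) (h𝒮 : 𝒮.Nonempty) {k : ℕ} (_ : ∀ S ∈ 𝒮, S.card ≤ k) {t : ℝ}
    (_ : 0 ≤ t),
    Pr p (fun ω : ι → V => t ≤ |minW 𝒮 h𝒮 (fun i => val (ω i)) -
      Ex p (fun ω : ι → V => minW 𝒮 h𝒮 (fun i => val (ω i)))|) ≤
      4 * Real.exp (-(t / (2 * b * Real.sqrt (k + 1))))

theorem Pr_transfer {ι Ω : Type*} [Fintype ι] [DecidableEq ι] [MeasurableSpace Ω] {P : Measure Ω}
    [IsProbabilityMeasure P] {F : Measure ℝ} [IsProbabilityMeasure F] {w : ι → Ω → ℝ}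
    (hm : ∀ i, Measurable (w i)) (hind : iIndepFun w P) (hF : ∀ i, P.map (w i) = F) (m K : ℕ)
    (E : (ι → Fin (K + 1)) → Prop) :
    P.real {ω | E (fun i => dsc m K (w i ω))} = Pr (dscP F m K) E := by
  classical
  unfold Pr
  rw [← transfer hm hind hF m K]
  have hmi : ∀ i, Measurable (fun ω => dsc m K (w i ω)) := fun i => (measurable_dsc m K).comp (hm i)
  have hX : Measurable (fun ω => fun i => dsc m K (w i ω)) := measurable_pi_lambda _ hmi
  have hS : MeasurableSet {ω | E (fun i => dsc m K (w i ω))} := by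
    have : {ω | E (fun i => dsc m K (w i ω))} = (fun ω => fun i => dsc m K (w i ω)) ⁻¹' {a | E a} :=
      rfl
    rw [this]
    exact hX (Set.toFinite _).measurableSet
  rw [← integral_indicator_one hS]
  refine integral_congr_ae (Eventually.of_forall (fun ω => ?_))
  simp [Set.indicator_apply]

theorem abs_minW_sub_le {ι : Type*} (𝒮 : Finset (Finset ι)) (h : 𝒮.Nonempty) {x y : ι → ℝ} {k : ℕ}
    (hk : ∀ S ∈ 𝒮, S.card ≤ k) {δ : ℝ} (hδ : 0 ≤ δ) (hxy : ∀ i, |x i - y i| ≤ δ) :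
    |minW 𝒮 h x - minW 𝒮 h y| ≤ k * δ := by
  have key : ∀ (x y : ι → ℝ), (∀ i, |x i - y i| ≤ δ) → minW 𝒮 h x ≤ minW 𝒮 h y + k * δ := by
    intro x y hxy
    obtain ⟨S, hS, hSe⟩ := Finset.exists_mem_eq_inf' h (fun S => ∑ i ∈ S, y i)
    unfold minW
    rw [hSe]
    refine (Finset.inf'_le _ hS).trans ?_
    have h1 : ∑ i ∈ S, x i ≤ ∑ i ∈ S, (y i + δ) :=
      Finset.sum_le_sum (fun i _ => by have := abs_le.1 (hxy i); linarith [this.2])
    rw [Finset.sum_add_distrib, Finset.sum_const, nsmul_eq_mul] at h1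
    have h2 : (S.card : ℝ) * δ ≤ k * δ := by
      refine mul_le_mul_of_nonneg_right ?_ hδ
      exact_mod_cast hk S hS
    linarith
  have h1 := key x y hxy
  have h2 := key y x (fun i => by rw [abs_sub_comm]; exact hxy i)
  rw [abs_le]
  constructor <;> linarith

theorem dsc_close {m : ℕ} (hm : 0 < m) {b x : ℝ} (hx0 : 0 ≤ x) (hxb : x ≤ b) :
    |x - ((dsc m ⌊(m : ℝ) * b⌋₊ x : Fin _) : ℕ) / (m : ℝ)| ≤ 1 / m := by
  have hm' : (0 : ℝ) < m := by exact_mod_cast hm
  have h1 : ((dsc m ⌊(m : ℝ) * b⌋₊ x : Fin _) : ℕ) = ⌊(m : ℝ) * x⌋₊ := by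
    simp only [dsc]
    exact min_eq_left (Nat.floor_le_floor (mul_le_mul_of_nonneg_left hxb hm'.le))
  rw [h1]
  have h2 : (⌊(m : ℝ) * x⌋₊ : ℝ) ≤ m * x := Nat.floor_le (by positivity)
  have h3 : (m : ℝ) * x < ⌊(m : ℝ) * x⌋₊ + 1 := Nat.lt_floor_add_one _
  rw [abs_le]
  constructor
  · have : (⌊(m : ℝ) * x⌋₊ : ℝ) / m ≤ x := by
      rw [div_le_iff₀ hm']; linarith
    have h4 : (0 : ℝ) ≤ 1 / m := by positivity
    linarith
  · have : x ≤ ((⌊(m : ℝ) * x⌋₊ : ℝ) + 1) / m := by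
      rw [le_div_iff₀ hm']; linarith
    rw [add_div] at this
    linarith

theorem measurable_minW {ι Ω : Type*} [MeasurableSpace Ω] {w : ι → Ω → ℝ}
    (hm : ∀ i, Measurable (w i)) (𝒮 : Finset (Finset ι)) (h𝒮 : 𝒮.Nonempty) :
    Measurable (fun ω => minW 𝒮 h𝒮 (fun i => w i ω)) := by
  unfold minW
  have : (fun ω => 𝒮.inf' h𝒮 (fun S => ∑ i ∈ S, w i ω))
      = 𝒮.inf' h𝒮 (fun S => fun ω => ∑ i ∈ S, w i ω) := by
    ext ω
    rw [Finset.inf'_apply]
  rw [this]
  exact Finset.inf'_induction h𝒮 _ (fun _ hf _ hg => hf.inf hg)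
    (fun S _ => Finset.measurable_sum _ (fun i _ => hm i))

theorem minW_nonneg {ι : Type*} (𝒮 : Finset (Finset ι)) (h𝒮 : 𝒮.Nonempty) {x : ι → ℝ}
    (hx : ∀ i, 0 ≤ x i) : 0 ≤ minW 𝒮 h𝒮 x := by
  unfold minW
  exact Finset.le_inf' _ _ (fun S _ => Finset.sum_nonneg (fun i _ => hx i))

theorem minW_le {ι : Type*} (𝒮 : Finset (Finset ι)) (h𝒮 : 𝒮.Nonempty) {x : ι → ℝ} {b : ℝ}
    (hb : 0 ≤ b) (hx : ∀ i, x i ≤ b) {k : ℕ}
    (hk : ∀ S ∈ 𝒮, S.card ≤ k) : minW 𝒮 h𝒮 x ≤ k * b := by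
  unfold minW
  obtain ⟨S, hS⟩ := h𝒮
  refine (Finset.inf'_le _ hS).trans ?_
  refine (Finset.sum_le_sum (fun i _ => hx i)).trans ?_
  rw [Finset.sum_const, nsmul_eq_mul]
  refine mul_le_mul_of_nonneg_right ?_ hb
  exact_mod_cast hk S hS

/-- Concentration for finitely many i.i.d. bounded real weights. -/
theorem conc_measure_fintype {ι Ω : Type*} [Fintype ι] [DecidableEq ι] (hC : ConcFor ι)
    [MeasurableSpace Ω] {P : Measure Ω}
    [IsProbabilityMeasure P] {F : Measure ℝ} [IsProbabilityMeasure F] {w : ι → Ω → ℝ}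
    (hm : ∀ i, Measurable (w i)) (hind : iIndepFun w P) (hF : ∀ i, P.map (w i) = F) {b : ℝ}
    (hb : 0 < b) (hw : ∀ i ω, 0 ≤ w i ω ∧ w i ω ≤ b) (𝒮 : Finset (Finset ι)) (h𝒮 : 𝒮.Nonempty)
    {k : ℕ} (hk : ∀ S ∈ 𝒮, S.card ≤ k) {t : ℝ} (ht : 0 ≤ t) :
    P.real {ω | t ≤ |minW 𝒮 h𝒮 (fun i => w i ω) - ∫ ω', minW 𝒮 h𝒮 (fun i => w i ω') ∂P|} ≤
      4 * Real.exp (-(t / (2 * b * Real.sqrt (k + 1)))) := by
  rcases ht.eq_or_lt with ht0 | ht0
  · rw [← ht0]
    simp only [zero_div, neg_zero, Real.exp_zero, mul_one]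
    exact measureReal_le_one.trans (by norm_num)
  -- the bound for every mesh
  have hmesh : ∀ m : ℕ, 0 < m → 2 * (k : ℝ) / m ≤ t →
      P.real {ω | t ≤ |minW 𝒮 h𝒮 (fun i => w i ω) - ∫ ω', minW 𝒮 h𝒮 (fun i => w i ω') ∂P|} ≤
      4 * Real.exp (-((t - 2 * (k : ℝ) / m) / (2 * b * Real.sqrt (k + 1)))) := by
    intro m hm0 hmt
    have hm' : (0 : ℝ) < m := by exact_mod_cast hm0
    set K := ⌊(m : ℝ) * b⌋₊ with hK
    let val : Fin (K + 1) → ℝ := fun v => (v : ℕ) / (m : ℝ)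
    have hval : ∀ v, 0 ≤ val v ∧ val v ≤ b := by
      intro v
      refine ⟨by positivity, ?_⟩
      have h1 : ((v : ℕ) : ℝ) ≤ K := by exact_mod_cast Nat.lt_succ_iff.1 v.2
      have h2 : (K : ℝ) ≤ m * b := Nat.floor_le (by positivity)
      show ((v : ℕ) : ℝ) / m ≤ b
      rw [div_le_iff₀ hm']
      linarith
    set g : (ι → Fin (K + 1)) → ℝ := fun a => minW 𝒮 h𝒮 (fun i => val (a i)) with hg
    have hclose : ∀ ω, |minW 𝒮 h𝒮 (fun i => w i ω) - g (fun i => dsc m K (w i ω))| ≤ k * (1 / m) := by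
      intro ω
      refine abs_minW_sub_le 𝒮 h𝒮 hk (by positivity) (fun i => ?_)
      exact dsc_close hm0 (hw i ω).1 (hw i ω).2
    have hmi : ∀ i, Measurable (fun ω => dsc m K (w i ω)) :=
      fun i => (measurable_dsc m K).comp (hm i)
    have hX : Measurable (fun ω => fun i => dsc m K (w i ω)) := measurable_pi_lambda _ hmi
    have hint1 : Integrable (fun ω => minW 𝒮 h𝒮 (fun i => w i ω)) P := by
      refine Integrable.of_bound (measurable_minW hm 𝒮 h𝒮).aestronglyMeasurable (k * b)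
        (Eventually.of_forall (fun ω => ?_))
      rw [Real.norm_eq_abs, abs_of_nonneg (minW_nonneg 𝒮 h𝒮 (fun i => (hw i ω).1))]
      exact minW_le 𝒮 h𝒮 hb.le (fun i => (hw i ω).2) hk
    have hint2 : Integrable (fun ω => g (fun i => dsc m K (w i ω))) P := by
      refine Integrable.of_bound ((measurable_of_finite g).comp hX).aestronglyMeasurable (k * b)
        (Eventually.of_forall (fun ω => ?_))
      rw [Real.norm_eq_abs, hg, abs_of_nonneg (minW_nonneg 𝒮 h𝒮 (fun i => (hval _).1))]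
      exact minW_le 𝒮 h𝒮 hb.le (fun i => (hval _).2) hk
    have hE : |∫ ω', minW 𝒮 h𝒮 (fun i => w i ω') ∂P - Ex (dscP F m K) g| ≤ k * (1 / m) := by
      rw [← transfer hm hind hF m K, ← integral_sub hint1 hint2]
      refine (abs_integral_le_integral_abs).trans ?_
      have h1 : ∫ ω, |minW 𝒮 h𝒮 (fun i => w i ω) - g (fun i => dsc m K (w i ω))| ∂P ≤
          ∫ _ω, (k * (1 / m) : ℝ) ∂P :=
        integral_mono (hint1.sub hint2).abs (integrable_const _) hclose
      simpa using h1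
    have hsub : {ω | t ≤ |minW 𝒮 h𝒮 (fun i => w i ω) -
          ∫ ω', minW 𝒮 h𝒮 (fun i => w i ω') ∂P|} ⊆
        {ω | (fun a : ι → Fin (K + 1) => t - 2 * (k : ℝ) / m ≤
          |minW 𝒮 h𝒮 (fun i => val (a i)) -
            Ex (dscP F m K) (fun a : ι → Fin (K + 1) => minW 𝒮 h𝒮 (fun i => val (a i)))|)
          (fun i => dsc m K (w i ω))} := by
      intro ω hω
      simp only [Set.mem_ofPred_eq] at hω ⊢
      have h1 := hclose ω
      have h2 := hE
      simp only [hg] at h1 h2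
      have h3 : |minW 𝒮 h𝒮 (fun i => w i ω) - ∫ ω', minW 𝒮 h𝒮 (fun i => w i ω') ∂P| ≤
          |minW 𝒮 h𝒮 (fun i => w i ω) - minW 𝒮 h𝒮 (fun i => val (dsc m K (w i ω)))| +
          |minW 𝒮 h𝒮 (fun i => val (dsc m K (w i ω))) -
            Ex (dscP F m K) (fun a : ι → Fin (K + 1) => minW 𝒮 h𝒮 (fun i => val (a i)))| +
          |∫ ω', minW 𝒮 h𝒮 (fun i => w i ω') ∂P -
            Ex (dscP F m K) (fun a : ι → Fin (K + 1) => minW 𝒮 h𝒮 (fun i => val (a i)))| := by
        set A1 := minW 𝒮 h𝒮 (fun i => w i ω)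
        set A2 := ∫ ω', minW 𝒮 h𝒮 (fun i => w i ω') ∂P
        set A3 := minW 𝒮 h𝒮 (fun i => val (dsc m K (w i ω)))
        set A4 := Ex (dscP F m K) (fun a : ι → Fin (K + 1) => minW 𝒮 h𝒮 (fun i => val (a i)))
        have e : A1 - A2 = (A1 - A3) + (A3 - A4) + -(A2 - A4) := by ring
        rw [e]
        refine (abs_add_le _ _).trans ?_
        rw [abs_neg]
        gcongr
        exact abs_add_le _ _
      have h4 : 2 * (k : ℝ) / m = k * (1 / m) + k * (1 / m) := by ring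
      rw [h4]
      linarith
    refine (measureReal_mono hsub).trans ?_
    refine (Pr_transfer hm hind hF m K (fun a : ι → Fin (K + 1) => t - 2 * (k : ℝ) / m ≤
      |minW 𝒮 h𝒮 (fun i => val (a i)) -
        Ex (dscP F m K) (fun a : ι → Fin (K + 1) => minW 𝒮 h𝒮 (fun i => val (a i)))|)).le.trans ?_
    exact hC (dscP_isProb F m K) hb hval 𝒮 h𝒮 hk (by linarith)
  -- let the mesh go to zero
  have hlim : Tendsto (fun m : ℕ => 4 * Real.exp (-((t - 2 * (k : ℝ) / m) /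
      (2 * b * Real.sqrt (k + 1))))) atTop (𝓝 (4 * Real.exp (-(t / (2 * b * Real.sqrt (k + 1)))))) := by
    have h1 : Tendsto (fun m : ℕ => 2 * (k : ℝ) / m) atTop (𝓝 0) :=
      tendsto_const_div_atTop_nhds_zero_nat _
    have h2 : Tendsto (fun m : ℕ => t - 2 * (k : ℝ) / m) atTop (𝓝 t) := by
      simpa using (tendsto_const_nhds (x := t)).sub h1
    exact ((Real.continuous_exp.tendsto _).comp (h2.div_const _).neg).const_mul 4
  have hev : ∀ᶠ m : ℕ in atTop, 0 < m ∧ 2 * (k : ℝ) / m ≤ t := by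
    have h1 : Tendsto (fun m : ℕ => 2 * (k : ℝ) / m) atTop (𝓝 0) :=
      tendsto_const_div_atTop_nhds_zero_nat _
    filter_upwards [eventually_gt_atTop 0, h1.eventually (ge_mem_nhds ht0)] with m h1 h2
    exact ⟨h1, h2⟩
  exact ge_of_tendsto hlim (hev.mono (fun m hm => hmesh m hm.1 hm.2))

theorem minW_subtype {ι : Type*} [DecidableEq ι] (J : Finset ι) (𝒮 : Finset (Finset ι))
    (h𝒮 : 𝒮.Nonempty) (hJ : ∀ S ∈ 𝒮, S ⊆ J) (x : ι → ℝ) :
    minW (𝒮.image (fun S => S.subtype (· ∈ J))) (h𝒮.image _) (fun i : {i // i ∈ J} => x i.1) =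
      minW 𝒮 h𝒮 x := by
  unfold minW
  rw [Finset.inf'_image]
  refine Finset.inf'_congr _ rfl (fun S hS => ?_)
  simp only [Function.comp_apply]
  rw [Finset.sum_subtype_eq_sum_filter, Finset.filter_true_of_mem (fun i hi => hJ S hS hi)]

/-- Concentration for i.i.d. bounded real weights, from the finite statement. -/
theorem conc_measure_of {ι Ω : Type*} [DecidableEq ι] (hC : ∀ J : Finset ι, ConcFor {i // i ∈ J})
    [MeasurableSpace Ω] {P : Measure Ω}
    [IsProbabilityMeasure P] {F : Measure ℝ} [IsProbabilityMeasure F] {w : ι → Ω → ℝ}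
    (hm : ∀ i, Measurable (w i)) (hind : iIndepFun w P) (hF : ∀ i, P.map (w i) = F) {b : ℝ}
    (hb : 0 < b) (hw : ∀ i ω, 0 ≤ w i ω ∧ w i ω ≤ b) (𝒮 : Finset (Finset ι)) (h𝒮 : 𝒮.Nonempty)
    {k : ℕ} (hk : ∀ S ∈ 𝒮, S.card ≤ k) {t : ℝ} (ht : 0 ≤ t) :
    P.real {ω | t ≤ |minW 𝒮 h𝒮 (fun i => w i ω) - ∫ ω', minW 𝒮 h𝒮 (fun i => w i ω') ∂P|} ≤
      4 * Real.exp (-(t / (2 * b * Real.sqrt (k + 1)))) := by
  classical
  set J : Finset ι := 𝒮.biUnion id with hJdef
  have hJ : ∀ S ∈ 𝒮, S ⊆ J := fun S hS i hi => Finset.mem_biUnion.2 ⟨S, hS, hi⟩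
  have key := conc_measure_fintype (hC J) (P := P) (F := F)
    (w := fun (i : {i // i ∈ J}) ω => w i.1 ω) (fun i => hm i.1)
    (hind.precomp Subtype.val_injective) (fun i => hF i.1) hb (fun i ω => hw i.1 ω)
    (𝒮.image (fun S => S.subtype (· ∈ J))) (h𝒮.image _) (k := k) (by
      intro S' hS'
      obtain ⟨S, hS, rfl⟩ := Finset.mem_image.1 hS'
      refine le_trans ?_ (hk S hS)
      rw [Finset.card_subtype]
      exact Finset.card_filter_le _ _) ht
  have e : ∀ ω, minW (𝒮.image (fun S => S.subtype (· ∈ J))) (h𝒮.image _)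
      (fun i : {i // i ∈ J} => w i.1 ω) = minW 𝒮 h𝒮 (fun i => w i ω) :=
    fun ω => minW_subtype J 𝒮 h𝒮 hJ (fun i => w i ω)
  simpa only [e] using key

end Pool.Agent.Helper33_FPP
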