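import Pool.Agent.Helper33_FPP.Net
import Pool.Agent.Helper33_FPP.Transfer

/-!
# The time constant is at most the mean passage time in a box (module P1)
-/

set_option autoImplicit false
set_option linter.unusedSectionVars false

namespace Pool.Agent.Helper33_FPP

open Finset MeasureTheory ProbabilityTheory Filter Topology

namespace LM

/-! ### walks in a box -/

lemma box_hor {R : ℕ} (a b : ℤ) (n : ℕ) (h0 : ((a, b) : ℤ × ℤ) ∈ box R)
    (h1 : ((a + n, b) : ℤ × ℤ) ∈ box R) :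
    ∃ p : Z2.Walk (a, b) (a + n, b), IsIn (box R) p := by
  induction n with
  | zero =>
    have e : ((a, b) : ℤ × ℤ) = (a + ((0 : ℕ) : ℤ), b) := by simp
    refine ⟨(SimpleGraph.Walk.nil : Z2.Walk (a, b) (a, b)).copy rfl e, ?_⟩
    apply isIn_copy
    intro v hv
    simp only [SimpleGraph.Walk.support_nil, List.mem_singleton] at hv
    rw [hv]; exact h0
  | succ n ih =>
    have h2 : ((a + n, b) : ℤ × ℤ) ∈ box R := by
      rw [mem_box] at h0 h1 ⊢
      push_cast at h1
      simp only at h0 h1 ⊢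
      omega
    obtain ⟨p, hp⟩ := ih h2
    have hadj : Z2.Adj (a + (n : ℤ), b) (a + ((n + 1 : ℕ) : ℤ), b) := by
      rw [Z2_adj_iff]; push_cast; simp
    refine ⟨p.append (hadj.toWalk), isIn_append hp ?_⟩
    intro v hv
    simp only [SimpleGraph.Walk.support_cons, SimpleGraph.Walk.support_nil, List.mem_cons,
      List.not_mem_nil, or_false] at hv
    rcases hv with rfl | rfl
    · exact h2
    · exact h1

lemma box_ver {R : ℕ} (a b : ℤ) (n : ℕ) (h0 : ((a, b) : ℤ × ℤ) ∈ box R)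
    (h1 : ((a, b + n) : ℤ × ℤ) ∈ box R) :
    ∃ p : Z2.Walk (a, b) (a, b + n), IsIn (box R) p := by
  induction n with
  | zero =>
    have e : ((a, b) : ℤ × ℤ) = (a, b + ((0 : ℕ) : ℤ)) := by simp
    refine ⟨(SimpleGraph.Walk.nil : Z2.Walk (a, b) (a, b)).copy rfl e, ?_⟩
    apply isIn_copy
    intro v hv
    simp only [SimpleGraph.Walk.support_nil, List.mem_singleton] at hv
    rw [hv]; exact h0
  | succ n ih =>
    have h2 : ((a, b + n) : ℤ × ℤ) ∈ box R := by
      rw [mem_box] at h0 h1 ⊢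
      push_cast at h1
      simp only at h0 h1 ⊢
      omega
    obtain ⟨p, hp⟩ := ih h2
    have hadj : Z2.Adj (a, b + (n : ℤ)) (a, b + ((n + 1 : ℕ) : ℤ)) := by
      rw [Z2_adj_iff]; push_cast; simp
    refine ⟨p.append (hadj.toWalk), isIn_append hp ?_⟩
    intro v hv
    simp only [SimpleGraph.Walk.support_cons, SimpleGraph.Walk.support_nil, List.mem_cons,
      List.not_mem_nil, or_false] at hv
    rcases hv with rfl | rfl
    · exact h2
    · exact h1

lemma box_connected {R : ℕ} {x y : ℤ × ℤ} (hx : x ∈ box R) (hy : y ∈ box R) :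
    ∃ p : Z2.Walk x y, IsIn (box R) p := by
  obtain ⟨a, b⟩ := x
  obtain ⟨a', b'⟩ := y
  have hm : ((a', b) : ℤ × ℤ) ∈ box R := by
    rw [mem_box] at hx hy ⊢
    exact ⟨hy.1, hx.2⟩
  have h1 : ∃ p : Z2.Walk (a, b) (a', b), IsIn (box R) p := by
    rcases le_total a a' with h | h
    · have e : a + ((a' - a).toNat : ℤ) = a' := by omega
      have := box_hor a b (a' - a).toNat hx (by rw [e]; exact hm)
      rwa [e] at this
    · have e : a' + ((a - a').toNat : ℤ) = a := by omega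
      have := box_hor a' b (a - a').toNat hm (by rw [e]; exact hx)
      rw [e] at this
      obtain ⟨p, hp⟩ := this
      exact ⟨p.reverse, isIn_reverse hp⟩
  have h2 : ∃ p : Z2.Walk (a', b) (a', b'), IsIn (box R) p := by
    rcases le_total b b' with h | h
    · have e : b + ((b' - b).toNat : ℤ) = b' := by omega
      have := box_ver a' b (b' - b).toNat hm (by rw [e]; exact hy)
      rwa [e] at this
    · have e : b' + ((b - b').toNat : ℤ) = b := by omega
      have := box_ver a' b' (b - b').toNat hy (by rw [e]; exact hm)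
      rw [e] at this
      obtain ⟨p, hp⟩ := this
      exact ⟨p.reverse, isIn_reverse hp⟩
  obtain ⟨p, hp⟩ := h1
  obtain ⟨q, hq⟩ := h2
  exact ⟨p.append q, isIn_append hp hq⟩

/-! ### edge sets of paths -/

/-- the edge set of a walk inside the box -/
noncomputable def eset {R : ℕ} {x y : ℤ × ℤ} (p : Z2.Walk x y) : Finset (EIdx R) := by
  classical
  exact univ.filter (fun i => i.1 ∈ p.edges)

/-- the edge sets of the paths from `x` to `y` in the box -/
noncomputable def esets (R : ℕ) (x y : ℤ × ℤ) : Finset (Finset (EIdx R)) := by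
  classical
  exact univ.filter (fun S => ∃ p : Z2.Walk x y, p.IsPath ∧ IsIn (box R) p ∧ S = eset p)

lemma mem_esets {R : ℕ} {x y : ℤ × ℤ} {S : Finset (EIdx R)} :
    S ∈ esets R x y ↔ ∃ p : Z2.Walk x y, p.IsPath ∧ IsIn (box R) p ∧ S = eset p := by
  classical
  unfold esets
  simp

lemma esets_nonempty {R : ℕ} {x y : ℤ × ℤ} (hx : x ∈ box R) (hy : y ∈ box R) :
    (esets R x y).Nonempty := by
  obtain ⟨p, hp⟩ := box_connected hx hy
  exact ⟨eset p.bypass, mem_esets.2 ⟨p.bypass, p.bypass_isPath, isIn_bypass hp, rfl⟩⟩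

lemma edge_mem_box {R : ℕ} {x y : ℤ × ℤ} {p : Z2.Walk x y} (hp : IsIn (box R) p)
    {e : Sym2 (ℤ × ℤ)} (he : e ∈ p.edges) : e ∈ edgesIn R := by
  rw [mem_edgesIn]
  exact ⟨fun v hv => hp v (p.mem_support_of_mem_edges he hv), p.edges_subset_edgeSet he⟩

/-- the weight of a path in the box as a sum over its edge set -/
lemma wt_eq_sum {R : ℕ} {x y : ℤ × ℤ} {p : Z2.Walk x y} (hpp : p.IsPath) (hp : IsIn (box R) p)
    (w : Sym2 (ℤ × ℤ) → ℝ) : wt w p = ∑ i ∈ (eset p : Finset (EIdx R)), w i.1 := by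
  classical
  have h1 : wt w p = ∑ e ∈ p.edges.toFinset, w e := by
    rw [List.sum_toFinset _ hpp.isTrail.edges_nodup]
    rfl
  rw [h1]
  symm
  refine Finset.sum_bij (fun i _ => i.1) ?_ ?_ ?_ ?_
  · intro i hi
    unfold eset at hi
    simpa using hi
  · intro i _ j _ hij
    exact Subtype.ext hij
  · intro e he
    rw [List.mem_toFinset] at he
    exact ⟨⟨e, edge_mem_box hp he⟩, by unfold eset; simpa using he, rfl⟩
  · intro i _
    rfl

lemma TT_eq_minW {R : ℕ} {x y : ℤ × ℤ} (hx : x ∈ box R) (hy : y ∈ box R)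
    {w : Sym2 (ℤ × ℤ) → ℝ} (hw : ∀ e, 0 ≤ w e) :
    TT w (box R) x y = minW (esets R x y) (esets_nonempty hx hy) (fun i => w i.1) := by
  apply le_antisymm
  · unfold minW
    refine Finset.le_inf' _ _ (fun S hS => ?_)
    obtain ⟨p, hpp, hp, rfl⟩ := mem_esets.1 hS
    rw [← wt_eq_sum hpp hp]
    exact TT_le hw hp
  · obtain ⟨p, hp⟩ := box_connected hx hy
    unfold TT
    refine le_csInf (Set.nonempty_of_mem ⟨p, hp, rfl⟩) ?_
    rintro c ⟨q, hq, rfl⟩
    refine le_trans ?_ (wt_bypass_le hw q)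
    rw [wt_eq_sum q.bypass_isPath (isIn_bypass hq)]
    have hmem : (eset q.bypass : Finset (EIdx R)) ∈ esets R x y :=
      mem_esets.2 ⟨q.bypass, q.bypass_isPath, isIn_bypass hq, rfl⟩
    unfold minW
    exact Finset.inf'_le (fun S : Finset (EIdx R) => ∑ i ∈ S, w i.1) hmem

/-! ### translations -/

/-- translation by `s` -/
def shiftHom (s : ℤ × ℤ) : Z2 →g Z2 where
  toFun v := v + s
  map_rel' := by
    intro u v h
    rw [Z2_adj_iff] at h ⊢
    simpa using h

lemma shift_edge (s : ℤ × ℤ) {e : Sym2 (ℤ × ℤ)} (he : e ∈ Z2.edgeSet) :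
    Sym2.map (shiftHom s) e ∈ Z2.edgeSet := by
  induction e using Sym2.ind with
  | _ u v => exact (shiftHom s).map_adj he

lemma shift_inj (s : ℤ × ℤ) : Function.Injective (Sym2.map (shiftHom s)) := by
  apply Sym2.map.injective
  intro u v h
  have : u + s = v + s := h
  exact add_right_cancel this

/-- the translated edge -/
def shiftE {R : ℕ} (s : ℤ × ℤ) (i : EIdx R) : Z2.edgeSet :=
  ⟨Sym2.map (shiftHom s) i.1, shift_edge s (mem_edgesIn.1 i.2).2⟩

lemma shiftE_inj {R : ℕ} (s : ℤ × ℤ) : Function.Injective (shiftE (R := R) s) := by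
  intro i j h
  have := congrArg Subtype.val h
  exact Subtype.ext (shift_inj s this)

/-- a walk between the translated points with weight the translated passage time -/
lemma exists_shift_walk {Ω : Type*} (W : Z2.edgeSet → Ω → ℝ) (ω : Ω) {R : ℕ} {x y : ℤ × ℤ}
    (hx : x ∈ box R) (hy : y ∈ box R) (s : ℤ × ℤ) :
    ∃ q : Z2.Walk (x + s) (y + s), wt (ext W ω) q =
      minW (esets R x y) (esets_nonempty hx hy) (fun i => W (shiftE s i) ω) := by
  classical
  obtain ⟨S, hS, hSe⟩ := Finset.exists_mem_eq_inf' (esets_nonempty hx hy)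
    (fun S => ∑ i ∈ S, W (shiftE s i) ω)
  obtain ⟨p, hpp, hp, rfl⟩ := mem_esets.1 hS
  have e1 : shiftHom s x = x + s := rfl
  have e2 : shiftHom s y = y + s := rfl
  refine ⟨(p.map (shiftHom s)).copy e1 e2, ?_⟩
  unfold minW
  rw [hSe, wt_copy]
  have h1 : wt (ext W ω) (p.map (shiftHom s)) =
      wt (fun e => ext W ω (Sym2.map (shiftHom s) e)) p := by
    unfold wt
    rw [SimpleGraph.Walk.edges_map, List.map_map]
    rfl
  rw [h1, wt_eq_sum hpp hp]
  refine Finset.sum_congr rfl fun i _ => ?_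
  unfold ext
  rw [dif_pos (shift_edge s (mem_edgesIn.1 i.2).2)]
  rfl

/-- concatenation of translated walks -/
lemma exists_long_walk {Ω : Type*} (W : Z2.edgeSet → Ω → ℝ) (ω : Ω) {R : ℕ} {x y : ℤ × ℤ}
    (hx : x ∈ box R) (hy : y ∈ box R) (n : ℕ) :
    ∃ q : Z2.Walk 0 (n • (y - x)), wt (ext W ω) q =
      ∑ k ∈ range n, minW (esets R x y) (esets_nonempty hx hy)
        (fun i => W (shiftE (k • (y - x) - x) i) ω) := by
  induction n with
  | zero =>
    refine ⟨(SimpleGraph.Walk.nil : Z2.Walk 0 0).copy rfl (by simp), ?_⟩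
    rw [wt_copy, wt_nil]; simp
  | succ n ih =>
    obtain ⟨q, hq⟩ := ih
    obtain ⟨r, hr⟩ := exists_shift_walk W ω hx hy (n • (y - x) - x)
    have e1 : x + (n • (y - x) - x) = n • (y - x) := by abel
    have e2 : y + (n • (y - x) - x) = (n + 1) • (y - x) := by rw [succ_nsmul]; abel
    refine ⟨q.append (r.copy e1 e2), ?_⟩
    rw [wt_append, wt_copy, hq, hr, Finset.sum_range_succ]

lemma ext_nonneg {Ω : Type*} {W : Z2.edgeSet → Ω → ℝ} (h0 : ∀ e ω, 0 ≤ W e ω) (ω : Ω)
    (e : Sym2 (ℤ × ℤ)) : 0 ≤ ext W ω e := by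
  unfold ext
  split_ifs
  · exact h0 _ _
  · exact le_rfl

lemma passageTime_le {w : Sym2 (ℤ × ℤ) → ℝ} (hw : ∀ e, 0 ≤ w e) {x y : ℤ × ℤ}
    (q : Z2.Walk x y) : passageTime w x y ≤ wt w q := by
  apply ciInf_le
  refine ⟨0, ?_⟩
  rintro c ⟨p, rfl⟩
  exact wt_nonneg hw p

section

variable {Ω : Type*} [MeasurableSpace Ω] {P : Measure Ω} [IsProbabilityMeasure P]
    {F : Measure ℝ} [IsProbabilityMeasure F] {W : Z2.edgeSet → Ω → ℝ}

/-- law of a translated family of edges -/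
lemma map_shift (hm : ∀ e, Measurable (W e)) (hind : iIndepFun W P) (hF : ∀ e, P.map (W e) = F)
    (R : ℕ) (s : ℤ × ℤ) :
    P.map (fun ω => fun i : EIdx R => W (shiftE s i) ω) = Measure.pi (fun _ => F) := by
  have hind' : iIndepFun (fun i : EIdx R => W (shiftE s i)) P := hind.precomp (shiftE_inj s)
  have h1 := (iIndepFun_iff_map_fun_eq_pi_map
    (fun i : EIdx R => (hm (shiftE s i)).aemeasurable)).1 hind'
  rw [h1]
  congr 1
  funext i
  exact hF _

lemma mean_shift (hm : ∀ e, Measurable (W e)) (hind : iIndepFun W P)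
    (hF : ∀ e, P.map (W e) = F) {R : ℕ} (𝒮 : Finset (Finset (EIdx R))) (h𝒮 : 𝒮.Nonempty)
    (s : ℤ × ℤ) :
    ∫ ω, minW 𝒮 h𝒮 (fun i => W (shiftE s i) ω) ∂P =
      ∫ u, minW 𝒮 h𝒮 u ∂(Measure.pi (fun _ : EIdx R => F)) := by
  have hmeas : Measurable (fun u : EIdx R → ℝ => minW 𝒮 h𝒮 u) :=
    measurable_minW (Ω := EIdx R → ℝ) (w := fun i u => u i) (fun i => measurable_pi_apply i) 𝒮 h𝒮
  have hX : Measurable (fun ω => fun i : EIdx R => W (shiftE s i) ω) :=
    measurable_pi_lambda _ fun i => hm _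
  have h1 := integral_map (μ := P) (f := fun u : EIdx R → ℝ => minW 𝒮 h𝒮 u) hX.aemeasurable
    hmeas.aestronglyMeasurable
  rw [map_shift hm hind hF R s] at h1
  exact h1.symm

lemma integrable_minW_shift (hm : ∀ e, Measurable (W e)) (h0 : ∀ e ω, 0 ≤ W e ω)
    (hint : ∀ e, Integrable (W e) P) {R : ℕ} (𝒮 : Finset (Finset (EIdx R))) (h𝒮 : 𝒮.Nonempty)
    (s : ℤ × ℤ) : Integrable (fun ω => minW 𝒮 h𝒮 (fun i => W (shiftE s i) ω)) P := by
  obtain ⟨S, hS⟩ := id h𝒮
  have hI : Integrable (fun ω => ∑ i ∈ S, W (shiftE s i) ω) P :=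
    integrable_finsetSum _ fun i _ => hint _
  refine hI.mono' (measurable_minW (fun i => hm _) 𝒮 h𝒮).aestronglyMeasurable ?_
  filter_upwards with ω
  rw [Real.norm_of_nonneg (minW_nonneg 𝒮 h𝒮 fun i => h0 _ _)]
  unfold minW
  exact Finset.inf'_le (fun S : Finset (EIdx R) => ∑ i ∈ S, W (shiftE s i) ω) hS

end

end LM

open LM

/-- MODULE P1. -/
theorem lower_mean {Ω : Type*} [MeasurableSpace Ω] {P : Measure Ω} [IsProbabilityMeasure P]
    {F : Measure ℝ} [IsProbabilityMeasure F] {W : Z2.edgeSet → Ω → ℝ}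
    (hm : ∀ e, Measurable (W e)) (hind : iIndepFun W P) (hF : ∀ e, P.map (W e) = F)
    (h0 : ∀ e ω, 0 ≤ W e ω) (hint : ∀ e, Integrable (W e) P)
    {z : ℤ × ℤ} {μz : ℝ}
    (hμ : TendstoInMeasure P (fun (n : ℕ) ω => passageTime (ext W ω) 0 (n • z) / n) atTop
      (fun _ => μz)) {R : ℕ} {x y : ℤ × ℤ} (hx : x ∈ box R) (hy : y ∈ box R) (hxy : y - x = z) :
    μz ≤ ∫ ω, TT (ext W ω) (box R) x y ∂P := by
  subst hxy
  set z := y - x with hz
  set 𝒮 := esets R x y with h𝒮def
  have h𝒮 : 𝒮.Nonempty := esets_nonempty hx hy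
  -- the mean
  have hTT : ∀ ω, TT (ext W ω) (box R) x y = minW 𝒮 h𝒮 (fun i => W (shiftE 0 i) ω) := by
    intro ω
    rw [TT_eq_minW hx hy (ext_nonneg h0 ω)]
    congr 1
    funext i
    unfold ext
    rw [dif_pos (mem_edgesIn.1 i.2).2]
    congr 1
    apply Subtype.ext
    show i.1 = Sym2.map (shiftHom 0) i.1
    have : (shiftHom 0 : ℤ × ℤ → ℤ × ℤ) = id := by
      funext v; show v + 0 = v; simp
    rw [this, Sym2.map_id]; rfl
  set b := ∫ ω, TT (ext W ω) (box R) x y ∂P with hb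
  have hbk : ∀ s : ℤ × ℤ, ∫ ω, minW 𝒮 h𝒮 (fun i => W (shiftE s i) ω) ∂P = b := by
    intro s
    rw [mean_shift hm hind hF 𝒮 h𝒮 s, ← mean_shift hm hind hF 𝒮 h𝒮 0, hb]
    exact integral_congr_ae (Eventually.of_forall fun ω => (hTT ω).symm)
  have hb0 : 0 ≤ b := integral_nonneg fun ω => TT_nonneg (ext_nonneg h0 ω) _ _ _
  by_contra hlt
  push Not at hlt
  set a := (b + μz) / 2 with ha
  have hba : b < a := by rw [ha]; linarith
  have haμ : a < μz := by rw [ha]; linarith
  have ha0 : 0 < a := by linarith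
  -- the sum of the translated passage times
  let Sn : ℕ → Ω → ℝ := fun n ω => ∑ k ∈ range n, minW 𝒮 h𝒮 (fun i => W (shiftE (k • z - x) i) ω)
  have hSnI : ∀ n, Integrable (Sn n) P := fun n =>
    integrable_finsetSum _ fun k _ => integrable_minW_shift hm h0 hint 𝒮 h𝒮 _
  have hSn0 : ∀ n ω, 0 ≤ Sn n ω := fun n ω =>
    Finset.sum_nonneg fun k _ => minW_nonneg 𝒮 h𝒮 fun i => h0 _ _
  have hSnE : ∀ n : ℕ, ∫ ω, Sn n ω ∂P = n * b := by
    intro n
    show ∫ ω, ∑ k ∈ range n, minW 𝒮 h𝒮 (fun i => W (shiftE (k • z - x) i) ω) ∂P = n * b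
    rw [integral_finsetSum _ fun k _ => integrable_minW_shift hm h0 hint 𝒮 h𝒮 _]
    rw [Finset.sum_congr rfl fun k _ => hbk (k • z - x)]
    simp
  have hle : ∀ (n : ℕ) ω, passageTime (ext W ω) 0 (n • z) ≤ Sn n ω := by
    intro n ω
    obtain ⟨q, hq⟩ := exists_long_walk W ω hx hy n
    exact (passageTime_le (ext_nonneg h0 ω) q).trans (le_of_eq hq)
  -- Markov
  have hmarkov : ∀ n : ℕ, 1 ≤ n → P.real {ω | a * n ≤ Sn n ω} ≤ b / a := by
    intro n hn
    have hn' : (0 : ℝ) < n := by exact_mod_cast hn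
    have h1 := mul_meas_ge_le_integral_of_nonneg (μ := P) (f := Sn n)
      (Eventually.of_forall (hSn0 n)) (hSnI n) (a * n)
    rw [hSnE n] at h1
    rw [le_div_iff₀ ha0]
    have h2 : (n : ℝ) * (a * P.real {ω | a * n ≤ Sn n ω}) ≤ n * b := by
      calc _ = a * n * P.real {ω | a * n ≤ Sn n ω} := by ring
        _ ≤ _ := h1
    have h3 := le_of_mul_le_mul_left h2 hn'
    linarith
  have hcomp : ∀ n : ℕ, 1 ≤ n → 1 - b / a ≤ P.real {ω | μz - a ≤
      ‖passageTime (ext W ω) 0 (n • z) / n - μz‖} := by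
    intro n hn
    have hn' : (0 : ℝ) < n := by exact_mod_cast hn
    have hmeas : MeasurableSet {ω | a * n ≤ Sn n ω} := by
      have h1 : Measurable (Sn n) :=
        Finset.measurable_fun_sum _ fun k _ => measurable_minW (fun i => hm _) 𝒮 h𝒮
      exact measurableSet_le measurable_const h1
    have h2 : {ω | a * n ≤ Sn n ω}ᶜ ⊆ {ω | μz - a ≤
        ‖passageTime (ext W ω) 0 (n • z) / n - μz‖} := by
      intro ω hω
      have h3 : Sn n ω < a * n := not_le.1 hω
      have h4 : passageTime (ext W ω) 0 (n • z) / n < a := by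
        rw [div_lt_iff₀ hn']
        exact (hle n ω).trans_lt h3
      show μz - a ≤ ‖passageTime (ext W ω) 0 (n • z) / n - μz‖
      rw [Real.norm_eq_abs, abs_sub_comm]
      exact le_trans (by linarith) (le_abs_self _)
    calc 1 - b / a ≤ 1 - P.real {ω | a * n ≤ Sn n ω} := by linarith [hmarkov n hn]
      _ = P.real {ω | a * n ≤ Sn n ω}ᶜ := by rw [measureReal_compl hmeas]; simp
      _ ≤ _ := measureReal_mono h2
  have hlim : Tendsto (fun n : ℕ => P.real {ω | μz - a ≤
      ‖passageTime (ext W ω) 0 (n • z) / n - μz‖}) atTop (𝓝 0) := by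
    have h1 := tendstoInMeasure_iff_norm.1 hμ (μz - a) (by linarith)
    have h2 := (ENNReal.tendsto_toReal (by simp : (0 : ENNReal) ≠ ⊤)).comp h1
    simpa [Function.comp_def, Measure.real] using h2
  have hpos : 0 < 1 - b / a := by
    rw [sub_pos, div_lt_one ha0]; exact hba
  have h5 : 1 - b / a ≤ 0 := by
    refine ge_of_tendsto hlim ?_
    filter_upwards [eventually_ge_atTop 1] with n hn
    exact hcomp n hn
  linarith

end Pool.Agent.Helper33_FPP
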