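import Pool.Agent.Helper33_FPP.Geo

/-!
# The network of diagonal geodesics: definitions

Lines of the first kind (`U`) go in the direction of increasing `A`, line `j` at height
`B = 4 j σ`; lines of the second kind (`V`) go in the direction of increasing `B`, line `i` at
`A = 4 i σ`.
-/

set_option autoImplicit false

namespace Pool.Agent.Helper33_FPP

open Finset

/-- Parameters of the network: the spacing is `4 σ` (in the coordinates `A`, `B`), there are `N`
cells in each direction, the lines live in strips of half-width `w₀`, everything takes place in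
the box of radius `R`; the norm is `c (|A| + |B|)`; `E₂`, `E₃` are the errors at the scales
`4 N σ` and `σ`. -/
structure Par where
  σ : ℕ
  N : ℕ
  w₀ : ℕ
  R : ℕ
  c : ℝ
  E₂ : ℝ
  E₃ : ℝ

/-- Conditions on the parameters. -/
structure Par.Ok (P : Par) : Prop where
  hc : 0 < P.c
  hE₂ : 0 ≤ P.E₂
  hE₃ : 0 ≤ P.E₃
  hw1 : 2 ≤ P.w₀
  hw : 4 * P.E₂ ≤ P.c * P.w₀
  hσ : 8 * P.w₀ ≤ P.σ
  hN : 4 ≤ P.N
  hR : 8 * P.N * P.σ ≤ P.R

/-- Strip of the line `j` of the first kind. -/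
def Par.stripU (P : Par) (j : ℕ) : Set (ℤ × ℤ) :=
  {v | |B v - 4 * j * P.σ| ≤ P.w₀ ∧ -(P.w₀ : ℤ) ≤ A v ∧ A v ≤ 4 * P.N * P.σ + P.w₀}

/-- Strip of the line `i` of the second kind. -/
def Par.stripV (P : Par) (i : ℕ) : Set (ℤ × ℤ) :=
  {v | |A v - 4 * i * P.σ| ≤ P.w₀ ∧ -(P.w₀ : ℤ) ≤ B v ∧ B v ≤ 4 * P.N * P.σ + P.w₀}

/-- Two vertices of the lattice are joined by a walk. -/
theorem nonempty_walk (x y : ℤ × ℤ) : Nonempty (Z2.Walk x y) := by
  have h1 : ∀ (a b : ℤ) (n : ℕ), Nonempty (Z2.Walk (a, b) (a + n, b)) := by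
    intro a b n
    induction n with
    | zero => simpa using ⟨(SimpleGraph.Walk.nil : Z2.Walk (a, b) (a, b))⟩
    | succ n ih =>
      obtain ⟨p⟩ := ih
      refine ⟨p.concat (w := (a + ((n + 1 : ℕ) : ℤ), b)) ?_⟩
      rw [Z2_adj_iff]
      push_cast
      simp
  have h2 : ∀ (a b : ℤ) (n : ℕ), Nonempty (Z2.Walk (a, b) (a, b + n)) := by
    intro a b n
    induction n with
    | zero => simpa using ⟨(SimpleGraph.Walk.nil : Z2.Walk (a, b) (a, b))⟩
    | succ n ih =>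
      obtain ⟨p⟩ := ih
      refine ⟨p.concat (w := (a, b + ((n + 1 : ℕ) : ℤ))) ?_⟩
      rw [Z2_adj_iff]
      push_cast
      simp
  have h3 : ∀ a a' b : ℤ, Nonempty (Z2.Walk (a, b) (a', b)) := by
    intro a a' b
    rcases le_total a a' with h | h
    · have := h1 a b (a' - a).toNat
      rwa [Int.toNat_of_nonneg (by omega), add_sub_cancel] at this
    · have := h1 a' b (a - a').toNat
      rw [Int.toNat_of_nonneg (by omega), add_sub_cancel] at this
      exact ⟨this.some.reverse⟩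
  have h4 : ∀ a b b' : ℤ, Nonempty (Z2.Walk (a, b) (a, b')) := by
    intro a b b'
    rcases le_total b b' with h | h
    · have := h2 a b (b' - b).toNat
      rwa [Int.toNat_of_nonneg (by omega), add_sub_cancel] at this
    · have := h2 a b' (b - b').toNat
      rw [Int.toNat_of_nonneg (by omega), add_sub_cancel] at this
      exact ⟨this.some.reverse⟩
  obtain ⟨a, b⟩ := x
  obtain ⟨a', b'⟩ := y
  obtain ⟨p⟩ := h3 a a' b
  obtain ⟨q⟩ := h4 a' b b'
  exact ⟨p.append q⟩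

instance (x y : ℤ × ℤ) : Nonempty (Z2.Walk x y) := nonempty_walk x y

/-- A member of a set of walks (depends only on the set). -/
noncomputable def pick {x y : ℤ × ℤ} (M : Set (Z2.Walk x y)) : Z2.Walk x y :=
  Classical.epsilon (fun p => p ∈ M)

theorem pick_mem {x y : ℤ × ℤ} {M : Set (Z2.Walk x y)} (h : M.Nonempty) : pick M ∈ M :=
  Classical.epsilon_spec (p := fun p => p ∈ M) h

/-- Line `j` of the first kind. -/
noncomputable def Par.lineU (P : Par) (w : Sym2 (ℤ × ℤ) → ℝ) (j : ℕ) :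
    Z2.Walk (pt 0 (2 * j * P.σ)) (pt (2 * P.N * P.σ) (2 * j * P.σ)) :=
  pick (minPaths w (P.stripU j) _ _)

/-- Line `i` of the second kind. -/
noncomputable def Par.lineV (P : Par) (w : Sym2 (ℤ × ℤ) → ℝ) (i : ℕ) :
    Z2.Walk (pt (2 * i * P.σ) 0) (pt (2 * i * P.σ) (2 * P.N * P.σ)) :=
  pick (minPaths w (P.stripV i) _ _)

/-- A common vertex of two walks. -/
noncomputable def meet {x y x' y' : ℤ × ℤ} (p : Z2.Walk x y) (q : Z2.Walk x' y') : ℤ × ℤ :=
  Classical.epsilon (fun v => v ∈ p.support ∧ v ∈ q.support)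

/-- The crossing point of the line `i` of the second kind and the line `j` of the first kind. -/
noncomputable def Par.cr (P : Par) (w : Sym2 (ℤ × ℤ) → ℝ) (i j : ℕ) : ℤ × ℤ :=
  meet (P.lineU w j) (P.lineV w i)

/-- Weight of the piece of line `U j` between the lines `V i` and `V (i+1)`. -/
noncomputable def Par.aU (P : Par) (w : Sym2 (ℤ × ℤ) → ℝ) (i j : ℕ) : ℝ :=
  segv w (P.lineU w j) (P.cr w i j) (P.cr w (i + 1) j)

/-- Weight of the piece of line `V i` between the lines `U j` and `U (j+1)`. -/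
noncomputable def Par.bV (P : Par) (w : Sym2 (ℤ × ℤ) → ℝ) (i j : ℕ) : ℝ :=
  segv w (P.lineV w i) (P.cr w i j) (P.cr w i (j + 1))

/-- Weight of the piece of line `V i` between the lines `U j` and `U (j+2)`. -/
noncomputable def Par.bV2 (P : Par) (w : Sym2 (ℤ × ℤ) → ℝ) (i j : ℕ) : ℝ :=
  segv w (P.lineV w i) (P.cr w i j) (P.cr w i (j + 2))

/-- Passage time across a double cell. -/
noncomputable def Par.dia (P : Par) (w : Sym2 (ℤ × ℤ) → ℝ) (i j : ℕ) : ℝ :=
  TT w (box P.R) (P.cr w i j) (P.cr w (i + 1) (j + 2))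

/-- The route through the middle of a double cell. -/
noncomputable def Par.mid (P : Par) (w : Sym2 (ℤ × ℤ) → ℝ) (i j : ℕ) : ℝ :=
  P.bV w i j + P.aU w i (j + 1) + P.bV w (i + 1) (j + 1)

/-- The route along the boundary of a double cell. -/
noncomputable def Par.bot (P : Par) (w : Sym2 (ℤ × ℤ) → ℝ) (i j : ℕ) : ℝ :=
  P.aU w i j + P.bV2 w (i + 1) j

/-- Vertices of line `U j` in the middle part of column `i`. -/
noncomputable def Par.midV (P : Par) (w : Sym2 (ℤ × ℤ) → ℝ) (i j : ℕ) : Finset (ℤ × ℤ) := by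
  classical
  exact (P.lineU w j).support.toFinset.filter
    (fun v => 4 * i * P.σ + P.σ ≤ A v ∧ A v ≤ 4 * i * P.σ + 3 * P.σ)

/-- Range of the coordinate `B` of line `U j` in the middle part of column `i`. -/
noncomputable def Par.rng (P : Par) (w : Sym2 (ℤ × ℤ) → ℝ) (i j : ℕ) : ℕ :=
  (P.midV w i j ×ˢ P.midV w i j).sup (fun z => (B z.1 - B z.2).toNat)

/-- The good event. -/
structure Par.Good (P : Par) (w : Sym2 (ℤ × ℤ) → ℝ) : Prop where
  nonneg : ∀ e, 0 ≤ w e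
  low₂ : ∀ x ∈ box P.R, ∀ y ∈ box P.R,
    P.c * (|(A x - A y : ℤ)| + |(B x - B y : ℤ)| : ℤ) - P.E₂ ≤ TT w (box P.R) x y
  low₃ : ∀ x ∈ box P.R, ∀ y ∈ box P.R, |A x - A y| ≤ 8 * P.σ → |B x - B y| ≤ 8 * P.σ →
    P.c * (|(A x - A y : ℤ)| + |(B x - B y : ℤ)| : ℤ) - P.E₃ ≤ TT w (box P.R) x y
  upU : ∀ j ≤ P.N, TT w (box P.R) (pt 0 (2 * j * P.σ)) (pt (2 * P.N * P.σ) (2 * j * P.σ))
    ≤ P.c * (4 * P.N * P.σ) + P.E₂
  upV : ∀ i ≤ P.N, TT w (box P.R) (pt (2 * i * P.σ) 0) (pt (2 * i * P.σ) (2 * P.N * P.σ))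
    ≤ P.c * (4 * P.N * P.σ) + P.E₂

end Pool.Agent.Helper33_FPP
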