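import Pool.Agent.Helper33_FPP.Conc
import Pool.Agent.Helper33_FPP.Net

/-!
# Auxiliary facts for the final argument of Part I
-/

set_option autoImplicit false

namespace Pool.Agent.Helper33_FPP

open Finset

/-- Pigeonhole for three averages. -/
theorem select_three {κ : Type*} (s : Finset κ) (hs : s.Nonempty) (f g h : κ → ℝ)
    (hf : ∀ x ∈ s, 0 ≤ f x) (hg : ∀ x ∈ s, 0 ≤ g x) (hh : ∀ x ∈ s, 0 ≤ h x)
    {K₁ K₂ K₃ : ℝ} (h1 : 0 < K₁) (h2 : 0 < K₂) (h3 : 0 < K₃)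
    (sf : ∑ x ∈ s, f x ≤ K₁ * s.card) (sg : ∑ x ∈ s, g x ≤ K₂ * s.card)
    (sh : ∑ x ∈ s, h x ≤ K₃ * s.card) :
    ∃ x ∈ s, f x ≤ 3 * K₁ ∧ g x ≤ 3 * K₂ ∧ h x ≤ 3 * K₃ := by
  have hc : (0 : ℝ) < s.card := by exact_mod_cast hs.card_pos
  have hsum : ∑ x ∈ s, (f x / K₁ + g x / K₂ + h x / K₃) ≤ ∑ x ∈ s, (3 : ℝ) := by
    rw [sum_add_distrib, sum_add_distrib, ← sum_div, ← sum_div, ← sum_div, sum_const, nsmul_eq_mul]
    have e1 : (∑ x ∈ s, f x) / K₁ ≤ s.card := by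
      rw [div_le_iff₀ h1]; linarith
    have e2 : (∑ x ∈ s, g x) / K₂ ≤ s.card := by
      rw [div_le_iff₀ h2]; linarith
    have e3 : (∑ x ∈ s, h x) / K₃ ≤ s.card := by
      rw [div_le_iff₀ h3]; linarith
    linarith
  obtain ⟨x, hx, hle⟩ := exists_le_of_sum_le hs hsum
  refine ⟨x, hx, ?_, ?_, ?_⟩
  · have a := div_nonneg (hg x hx) h2.le
    have b := div_nonneg (hh x hx) h3.le
    have : f x / K₁ ≤ 3 := by linarith
    rwa [div_le_iff₀ h1] at this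
  · have a := div_nonneg (hf x hx) h1.le
    have b := div_nonneg (hh x hx) h3.le
    have : g x / K₂ ≤ 3 := by linarith
    rwa [div_le_iff₀ h2] at this
  · have a := div_nonneg (hf x hx) h1.le
    have b := div_nonneg (hg x hx) h2.le
    have : h x / K₃ ≤ 3 := by linarith
    rwa [div_le_iff₀ h3] at this

/-- Position of a vertex in the tube number `k` of width `2 r`, measured from the height `b₀`. -/
def InTube (b₀ : ℤ) (r k : ℕ) (v : ℤ × ℤ) : Prop :=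
  (k : ℤ) * r ≤ B v - b₀ ∧ B v - b₀ < ((k : ℤ) + 2) * r

/-- A nonempty set of vertices of small range lies in a tube. -/
theorem exists_tube {S : Finset (ℤ × ℤ)} (hS : S.Nonempty) {b₀ : ℤ} {r K : ℕ} (hr : 0 < r)
    (hlo : ∀ v ∈ S, 0 ≤ B v - b₀) (hhi : ∀ v ∈ S, B v - b₀ ≤ (K : ℤ) * r)
    (hrng : ∀ v ∈ S, ∀ v' ∈ S, B v - B v' ≤ (r : ℤ)) :
    ∃ k ∈ range (K + 1), ∀ v ∈ S, InTube b₀ r k v := by
  obtain ⟨v₀, hv₀, hmin⟩ := S.exists_min_image (fun v => B v) hS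
  have hr' : (0 : ℤ) < r := by exact_mod_cast hr
  refine ⟨((B v₀ - b₀) / r).toNat, ?_, ?_⟩
  · rw [mem_range]
    have h1 : (B v₀ - b₀) / r ≤ K := by
      apply Int.ediv_le_of_le_mul hr'
      exact hhi v₀ hv₀
    have h0 : 0 ≤ (B v₀ - b₀) / r := Int.ediv_nonneg (hlo v₀ hv₀) hr'.le
    omega
  · intro v hv
    have h0 : 0 ≤ (B v₀ - b₀) / r := Int.ediv_nonneg (hlo v₀ hv₀) hr'.le
    have h1 : (B v₀ - b₀) / r * r ≤ B v₀ - b₀ := Int.ediv_mul_le _ hr'.ne'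
    have h2 : B v₀ - b₀ < ((B v₀ - b₀) / r + 1) * r := Int.lt_ediv_add_one_mul_self _ hr'
    have h3 := hmin v hv
    have h4 := hrng v hv v₀ hv₀
    unfold InTube
    rw [Int.toNat_of_nonneg h0]
    constructor
    · linarith
    · nlinarith

/-- Number of tubes met by a set of small range. -/
theorem card_tubes_le (S : Finset (ℤ × ℤ)) {b₀ : ℤ} {r K ρ : ℕ} (hr : 0 < r)
    (hrng : ∀ v ∈ S, ∀ v' ∈ S, B v - B v' ≤ (ρ : ℤ)) (T : Finset ℕ)
    (hT : ∀ k ∈ T, ∃ v ∈ S, InTube b₀ r k v) :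
    (T.card : ℝ) ≤ ρ / r + 3 := by
  have hr' : (0 : ℤ) < r := by exact_mod_cast hr
  have hrR : (0 : ℝ) < r := by exact_mod_cast hr
  rcases T.eq_empty_or_nonempty with h | h
  · rw [h]
    simp only [card_empty, CharP.cast_eq_zero]
    positivity
  · set m := T.min' h
    set M := T.max' h
    obtain ⟨v, hv, h1, h2⟩ := hT m (T.min'_mem h)
    obtain ⟨v', hv', h3, h4⟩ := hT M (T.max'_mem h)
    have h5 := hrng v' hv' v hv
    have hcard : T.card ≤ M + 1 - m := by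
      have hsub : T ⊆ Icc m M := fun k hk => mem_Icc.2 ⟨T.min'_le k hk, T.le_max' k hk⟩
      have := card_le_card hsub
      rwa [Nat.card_Icc] at this
    have hmM : m ≤ M := T.min'_le_max' h
    have hcardR : (T.card : ℝ) ≤ (M : ℝ) + 1 - m := by
      have h6 : (T.card : ℝ) ≤ ((M + 1 - m : ℕ) : ℝ) := by exact_mod_cast hcard
      rw [Nat.cast_sub (by omega)] at h6
      push_cast at h6
      exact h6
    have h7 : (M : ℝ) * r ≤ ρ + ((m : ℝ) + 2) * r := by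
      have h8 : (M : ℤ) * r ≤ ρ + ((m : ℤ) + 2) * r := by linarith
      exact_mod_cast h8
    have h9 : (M : ℝ) - m ≤ ρ / r + 2 := by
      rw [← sub_le_iff_le_add, le_div_iff₀ hrR]
      linarith
    linarith

/-- Concavity of `x ↦ x ^ (31/32)` in the form needed. -/
theorem sum_rpow_le {κ : Type*} (s : Finset κ) (f : κ → ℝ) (hf : ∀ x ∈ s, 0 ≤ f x) :
    ∑ x ∈ s, f x ^ (1 - 1 / (32 : ℝ)) ≤
      (s.card : ℝ) ^ (1 / (32 : ℝ)) * (∑ x ∈ s, f x) ^ (1 - 1 / (32 : ℝ)) := by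
  have h := Real.inner_le_Lp_mul_Lq_of_nonneg s (f := fun _ => (1 : ℝ))
    (g := fun x => f x ^ (1 - 1 / (32 : ℝ))) (p := 32) (q := 32 / 31)
    ⟨by norm_num, by norm_num, by norm_num⟩ (fun _ _ => by norm_num)
    (fun x hx => Real.rpow_nonneg (hf x hx) _)
  simp only [one_mul, Real.one_rpow, sum_const, nsmul_eq_mul, mul_one] at h
  refine h.trans (le_of_eq ?_)
  congr 1
  have e : ∑ x ∈ s, (f x ^ (1 - 1 / (32 : ℝ))) ^ (32 / 31 : ℝ) = ∑ x ∈ s, f x := by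
    apply sum_congr rfl
    intro x hx
    rw [← Real.rpow_mul (hf x hx)]
    norm_num
  rw [e]
  norm_num

section

variable {ι V : Type*} [Fintype ι] [DecidableEq ι] [Fintype V] {p : V → ℝ}

theorem Pr_nonneg (hp : IsProb p) (E : (ι → V) → Prop) : 0 ≤ Pr p E := by
  classical
  unfold Pr
  apply ConcAux.Ex_nonneg hp.nonneg
  intro ω
  split_ifs <;> norm_num

theorem Pr_mono (hp : IsProb p) {E E' : (ι → V) → Prop} (h : ∀ ω, E ω → E' ω) :
    Pr p E ≤ Pr p E' := by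
  classical
  unfold Pr
  apply ConcAux.Ex_mono hp.nonneg
  intro ω
  by_cases h1 : E ω
  · rw [if_pos h1, if_pos (h ω h1)]
  · rw [if_neg h1]
    split_ifs <;> norm_num

theorem Pr_le_one (hp : IsProb p) (E : (ι → V) → Prop) : Pr p E ≤ 1 := by
  classical
  unfold Pr
  calc Ex p (fun ω => if E ω then (1 : ℝ) else 0) ≤ Ex p (fun _ => (1 : ℝ)) := by
        apply ConcAux.Ex_mono hp.nonneg
        intro ω
        split_ifs <;> norm_num
    _ = 1 := ConcAux.Ex_one hp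

theorem Pr_or_le (hp : IsProb p) (E E' : (ι → V) → Prop) :
    Pr p (fun ω => E ω ∨ E' ω) ≤ Pr p E + Pr p E' := by
  classical
  unfold Pr
  rw [← ConcAux.Ex_add]
  apply ConcAux.Ex_mono hp.nonneg
  intro ω
  by_cases h1 : E ω <;> by_cases h2 : E' ω <;> simp [h1, h2]

theorem Pr_exists_le (hp : IsProb p) {κ : Type*} (s : Finset κ) (E : κ → (ι → V) → Prop) :
    Pr p (fun ω => ∃ x ∈ s, E x ω) ≤ ∑ x ∈ s, Pr p (E x) := by
  classical
  unfold Pr
  rw [← ConcAux.Ex_sum]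
  apply ConcAux.Ex_mono hp.nonneg
  intro ω
  by_cases h : ∃ x ∈ s, E x ω
  · rw [if_pos h]
    obtain ⟨x, hx, hE⟩ := h
    calc (1 : ℝ) = if E x ω then 1 else 0 := by rw [if_pos hE]
      _ ≤ ∑ x ∈ s, if E x ω then (1 : ℝ) else 0 :=
        single_le_sum (f := fun x => if E x ω then (1 : ℝ) else 0)
          (fun y _ => by split_ifs <;> norm_num) hx
  · rw [if_neg h]
    exact sum_nonneg (fun y _ => by split_ifs <;> norm_num)

/-- Markov. -/
theorem Pr_markov (hp : IsProb p) {E : (ι → V) → Prop} {f : (ι → V) → ℝ} (hf : ∀ ω, 0 ≤ f ω)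
    {u : ℝ} (hu : 0 < u) (h : ∀ ω, E ω → u ≤ f ω) : Pr p E ≤ Ex p f / u := by
  classical
  rw [le_div_iff₀ hu, mul_comm]
  unfold Pr
  rw [← ConcAux.Ex_mul_left]
  apply ConcAux.Ex_mono hp.nonneg
  intro ω
  by_cases h1 : E ω
  · rw [if_pos h1, mul_one]
    exact h ω h1
  · rw [if_neg h1, mul_zero]
    exact hf ω

end

end Pool.Agent.Helper33_FPP
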