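import Pool.Agent.Helper33_FPP.ThreeArmsCore

/-!
# Three primal and three dual alternating arms give three separate clusters: main part
-/

set_option autoImplicit false

namespace Pool.Agent.Helper33_FPP

open Finset

theorem ta_prim_path {O : Sym2 (ℤ × ℤ) → Prop} {k n : ℕ} {v1 u1 y1 v2 u2 y2 : ℤ × ℤ}
    (h1 : Conn O ((box n : Set (ℤ × ℤ)) \ (box k : Set (ℤ × ℤ))) v1 u1) (a1 : Z2.Adj u1 y1)
    (o1 : O s(u1, y1)) (y1k : y1 ∉ box k)
    (h2 : Conn O ((box n : Set (ℤ × ℤ)) \ (box k : Set (ℤ × ℤ))) v2 u2) (a2 : Z2.Adj u2 y2)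
    (o2 : O s(u2, y2)) (y2k : y2 ∉ box k)
    (h : Conn O ((box n : Set (ℤ × ℤ)) \ (box k : Set (ℤ × ℤ))) v1 v2) :
    Conn (fun e => O e ∧ (∀ v ∈ e, v ∉ box k) ∧ ∀ v ∈ e, v ∈ box n ∨ v = y1 ∨ v = y2)
      {v | v ∈ box n ∨ v = y1 ∨ v = y2} y1 y2 := by
  have hu : ∀ {v u : ℤ × ℤ}, Conn O ((box n : Set (ℤ × ℤ)) \ (box k : Set (ℤ × ℤ))) v u →
      u ∈ box n ∧ u ∉ box k := by
    rintro v u ⟨q, hq, -⟩
    have := hq u (by simp)
    exact ⟨by simpa using this.1, by simpa using this.2⟩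
  have hmid : Conn (fun e => O e ∧ (∀ v ∈ e, v ∉ box k) ∧ ∀ v ∈ e, v ∈ box n ∨ v = y1 ∨ v = y2)
      {v | v ∈ box n ∨ v = y1 ∨ v = y2} u1 u2 := by
    refine ((h1.symm'.trans' h).trans' h2).mono' ?_ ?_
    · intro e _ he hO
      exact ⟨hO, fun v hv => by simpa using (he v hv).2, fun v hv =>
        Or.inl (by simpa using (he v hv).1)⟩
    · intro v hv
      exact Or.inl (by simpa using hv.1)
  have hs1 : Conn (fun e => O e ∧ (∀ v ∈ e, v ∉ box k) ∧ ∀ v ∈ e, v ∈ box n ∨ v = y1 ∨ v = y2)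
      {v | v ∈ box n ∨ v = y1 ∨ v = y2} u1 y1 := by
    refine Conn.single a1 ⟨o1, ?_, ?_⟩ (Or.inl (hu h1).1) (Or.inr (Or.inl rfl))
    · intro v hv
      rcases Sym2.mem_iff.1 hv with rfl | rfl
      · exact (hu h1).2
      · exact y1k
    · intro v hv
      rcases Sym2.mem_iff.1 hv with rfl | rfl
      · exact Or.inl (hu h1).1
      · exact Or.inr (Or.inl rfl)
  have hs2 : Conn (fun e => O e ∧ (∀ v ∈ e, v ∉ box k) ∧ ∀ v ∈ e, v ∈ box n ∨ v = y1 ∨ v = y2)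
      {v | v ∈ box n ∨ v = y1 ∨ v = y2} u2 y2 := by
    refine Conn.single a2 ⟨o2, ?_, ?_⟩ (Or.inl (hu h2).1) (Or.inr (Or.inr rfl))
    · intro v hv
      rcases Sym2.mem_iff.1 hv with rfl | rfl
      · exact (hu h2).2
      · exact y2k
    · intro v hv
      rcases Sym2.mem_iff.1 hv with rfl | rfl
      · exact Or.inl (hu h2).1
      · exact Or.inr (Or.inr rfl)
  exact (hs1.symm'.trans' hmid).trans' hs2

theorem ta_dual_path {O : Sym2 (ℤ × ℤ) → Prop} {k n : ℕ} (hkn : k < n) {a1 a2 : ℕ → ℤ × ℤ → Prop}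
    (h1 : Arm (dualO O) k n a1) (h2 : Arm (dualO O) k n a2) :
    ∃ y1 y2 u1 u2, a1 (n + 1) y1 ∧ a2 (n + 1) y2 ∧ u1 ∈ box n ∧ u2 ∈ box n ∧ Z2.Adj u1 y1 ∧
      Z2.Adj u2 y2 ∧
      Conn (fun e => (¬ O (dualE e) ∧ ∀ v ∈ e, v ∈ box n ∨ v = y1 ∨ v = y2) ∨
        (∀ v ∈ e, v ∈ box k)) {v | v ∈ box n ∨ v = y1 ∨ v = y2} y1 y2 := by
  obtain ⟨x1, hx1, u1, y1, hy1, hu1, o1, c1⟩ := h1
  obtain ⟨x2, hx2, u2, y2, hy2, hu2, o2, c2⟩ := h2
  have hu : ∀ {v u : ℤ × ℤ}, Conn (dualO O) (box n : Set (ℤ × ℤ)) v u → u ∈ box n := by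
    rintro v u ⟨q, hq, -⟩
    simpa using hq u (by simp)
  refine ⟨y1, y2, u1, u2, hy1, hy2, hu c1, hu c2, hu1, hu2, ?_⟩
  have hk : ∀ v : ℤ × ℤ, v ∈ box k → v ∈ box n := by
    intro v hv
    rw [ta_mem_box] at hv ⊢
    omega
  have hin : ∀ {x u : ℤ × ℤ}, Conn (dualO O) (box n : Set (ℤ × ℤ)) x u →
      Conn (fun e => (¬ O (dualE e) ∧ ∀ v ∈ e, v ∈ box n ∨ v = y1 ∨ v = y2) ∨
        (∀ v ∈ e, v ∈ box k)) {v | v ∈ box n ∨ v = y1 ∨ v = y2} x u := by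
    intro x u h
    refine h.mono' ?_ ?_
    · intro e _ he hO
      exact Or.inl ⟨hO, fun v hv => Or.inl (by simpa using he v hv)⟩
    · intro v hv
      exact Or.inl (by simpa using hv)
  have hbox : Conn (fun e => (¬ O (dualE e) ∧ ∀ v ∈ e, v ∈ box n ∨ v = y1 ∨ v = y2) ∨
        (∀ v ∈ e, v ∈ box k)) {v | v ∈ box n ∨ v = y1 ∨ v = y2} x1 x2 := by
    refine (ta_box_conn hx1 hx2).mono' ?_ ?_
    · intro e _ he hO
      exact Or.inr hO
    · intro v hv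
      exact Or.inl (hk v (by simpa using hv))
  have hs1 : Conn (fun e => (¬ O (dualE e) ∧ ∀ v ∈ e, v ∈ box n ∨ v = y1 ∨ v = y2) ∨
        (∀ v ∈ e, v ∈ box k)) {v | v ∈ box n ∨ v = y1 ∨ v = y2} u1 y1 := by
    refine Conn.single hu1 (Or.inl ⟨o1, ?_⟩) (Or.inl (hu c1)) (Or.inr (Or.inl rfl))
    intro v hv
    rcases Sym2.mem_iff.1 hv with rfl | rfl
    · exact Or.inl (hu c1)
    · exact Or.inr (Or.inl rfl)
  have hs2 : Conn (fun e => (¬ O (dualE e) ∧ ∀ v ∈ e, v ∈ box n ∨ v = y1 ∨ v = y2) ∨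
        (∀ v ∈ e, v ∈ box k)) {v | v ∈ box n ∨ v = y1 ∨ v = y2} u2 y2 := by
    refine Conn.single hu2 (Or.inl ⟨o2, ?_⟩) (Or.inl (hu c2)) (Or.inr (Or.inr rfl))
    intro v hv
    rcases Sym2.mem_iff.1 hv with rfl | rfl
    · exact Or.inl (hu c2)
    · exact Or.inr (Or.inr rfl)
  exact (((hs1.symm'.trans' (hin c1).symm').trans' hbox).trans' (hin c2)).trans' hs2

/-- Arithmetic facts about the sphere points. -/
theorem ta_adj_of {u y : ℤ × ℤ} (h : Z2.Adj u y) :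
    (u.1 - y.1).natAbs + (u.2 - y.2).natAbs = 1 := h

/-- The top-left and right-low arms are separated. -/
theorem ta_sep_TR (hc : CrossStatement) {O : Sym2 (ℤ × ℤ) → Prop} {k n : ℕ} (hkn : k < n)
    {uT yT uR yR : ℤ × ℤ} (buT : uT ∈ box n) (aT : Z2.Adj uT yT) (tT : Tm (n + 1) yT)
    (buR : uR ∈ box n) (aR : Z2.Adj uR yR) (tR : Rm (n + 1) yR)
    (hT' : Arm (dualO O) k n Tp) (hB' : Arm (dualO O) k n Bp)
    (hP : Conn (fun e => O e ∧ (∀ v ∈ e, v ∉ box k) ∧ ∀ v ∈ e, v ∈ box n ∨ v = yT ∨ v = yR)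
      {v | v ∈ box n ∨ v = yT ∨ v = yR} yT yR) : False := by
  obtain ⟨z1, z2, w1, w2, t1, t2, b1, b2, a1, a2, D, hD1, hD2⟩ := ta_dual_path hkn hT' hB'
  obtain ⟨yT1, yT2⟩ := yT
  obtain ⟨yR1, yR2⟩ := yR
  obtain ⟨z11, z12⟩ := z1
  obtain ⟨z21, z22⟩ := z2
  have eT := ta_adj_of aT
  have eR := ta_adj_of aR
  have e1 := ta_adj_of a1
  have e2 := ta_adj_of a2
  rw [ta_mem_box] at buT buR b1 b2
  simp only [Tm, Tp, Rm, Bp] at tT tR t1 t2
  simp only at eT eR e1 e2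
  push_cast at tT tR t1 t2
  have hrow : Conn (fun e => ∃ l : ℤ, -((n : ℤ) + 1) ≤ l ∧ l < yT1 ∧
      e = s((l, (n : ℤ) + 1), (l + 1, (n : ℤ) + 1)))
      {v | v.2 = (n : ℤ) + 1 ∧ -((n : ℤ) + 1) ≤ v.1 ∧ v.1 ≤ yT1} (-((n : ℤ) + 1), (n : ℤ) + 1)
      (yT1, (n : ℤ) + 1) := ta_row_conn' (by omega)
  obtain rfl : yT2 = (n : ℤ) + 1 := by omega
  have hPP := (hrow.mono' (O' := fun e => (O e ∧ (∀ v ∈ e, v ∉ box k) ∧
      ∀ v ∈ e, v ∈ box n ∨ v = (yT1, (n : ℤ) + 1) ∨ v = (yR1, yR2)) ∨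
      ∃ l : ℤ, -((n : ℤ) + 1) ≤ l ∧ l < yT1 ∧ e = s((l, (n : ℤ) + 1), (l + 1, (n : ℤ) + 1)))
      (S' := {v | -(n : ℤ) ≤ v.2 ∧ v.2 ≤ (n : ℤ) + 1})
      (fun e _ _ h => Or.inr h) (by
        rintro v ⟨hv1, hv2, hv3⟩
        exact ⟨by omega, by omega⟩)).trans' (hP.mono' (fun e _ _ h => Or.inl h) (by
        rintro v (hv | hv | hv)
        · rw [ta_mem_box] at hv
          exact ⟨by omega, by omega⟩
        · subst hv
          exact ⟨by show -(n : ℤ) ≤ (n : ℤ) + 1; omega, le_refl _⟩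
        · subst hv
          exact ⟨by show -(n : ℤ) ≤ yR2; omega, by show yR2 ≤ (n : ℤ) + 1; omega⟩))
  obtain ⟨P, hP1, hP2⟩ := hPP
  obtain ⟨e, he, he'⟩ := hc P D rfl (by show yR1 = (n : ℤ) + 1; omega)
    (fun v hv => hP1 v hv) (by show z12 = (n : ℤ) + 1; omega)
    (by show z22 = -((n : ℤ) + 1); omega) (by
      intro v hv
      rcases hD1 v hv with h | h | h
      · rw [ta_mem_box] at h
        exact ⟨by omega, by omega⟩
      · subst h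
        exact ⟨by show -((n : ℤ) + 1) ≤ z11; omega, by show z11 ≤ (n : ℤ); omega⟩
      · subst h
        exact ⟨by show -((n : ℤ) + 1) ≤ z21; omega, by show z21 ≤ (n : ℤ); omega⟩)
  have hDe := hD2 e he
  have hPe := hP2 _ he'
  rcases ta_edge_cases (D.edges_subset_edgeSet he) with ⟨i, j, rfl, hd⟩ | ⟨i, j, rfl, hd⟩
  · rw [hd] at hDe hPe
    rcases hPe with ⟨hO, hk, hloc⟩ | ⟨l, hl1, hl2, hl3⟩
    · rcases hDe with ⟨hno, -⟩ | hb
      · exact hno hO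
      · have := hb (i + 1, j) (by simp)
        exact hk (i + 1, j) (by simp) this
    · simp only [Sym2.eq_iff, Prod.mk.injEq] at hl3
      omega
  · rw [hd] at hDe hPe
    rcases hPe with ⟨hO, hk, hloc⟩ | ⟨l, hl1, hl2, hl3⟩
    · rcases hDe with ⟨hno, -⟩ | hb
      · exact hno hO
      · have := hb (i, j + 1) (by simp)
        exact hk (i, j + 1) (by simp) this
    · simp only [Sym2.eq_iff, Prod.mk.injEq] at hl3
      rcases hDe with ⟨-, hloc⟩ | hb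
      · have h1 := hloc (i, j + 1) (by simp)
        simp only [Prod.mk.injEq, ta_mem_box] at h1
        omega
      · have h1 := hb (i, j + 1) (by simp)
        rw [ta_mem_box] at h1
        simp only at h1
        omega

/-- The left-low and right-low arms are separated. -/
theorem ta_sep_LR (hc : CrossStatement) {O : Sym2 (ℤ × ℤ) → Prop} {k n : ℕ} (hkn : k < n)
    {uL yL uR yR : ℤ × ℤ} (buL : uL ∈ box n) (aL : Z2.Adj uL yL) (tL : Lm (n + 1) yL)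
    (buR : uR ∈ box n) (aR : Z2.Adj uR yR) (tR : Rm (n + 1) yR)
    (hT' : Arm (dualO O) k n Tp) (hB' : Arm (dualO O) k n Bp)
    (hP : Conn (fun e => O e ∧ (∀ v ∈ e, v ∉ box k) ∧ ∀ v ∈ e, v ∈ box n ∨ v = yL ∨ v = yR)
      {v | v ∈ box n ∨ v = yL ∨ v = yR} yL yR) : False := by
  obtain ⟨z1, z2, w1, w2, t1, t2, b1, b2, a1, a2, D, hD1, hD2⟩ := ta_dual_path hkn hT' hB'
  obtain ⟨yL1, yL2⟩ := yL
  obtain ⟨yR1, yR2⟩ := yR
  obtain ⟨z11, z12⟩ := z1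
  obtain ⟨z21, z22⟩ := z2
  have eT := ta_adj_of aL
  have eR := ta_adj_of aR
  have e1 := ta_adj_of a1
  have e2 := ta_adj_of a2
  rw [ta_mem_box] at buL buR b1 b2
  simp only [Lm, Tp, Rm, Bp] at tL tR t1 t2
  simp only at eT eR e1 e2
  push_cast at tL tR t1 t2
  obtain ⟨P, hP1, hP2⟩ := hP
  obtain ⟨e, he, he'⟩ := hc P D (by show yL1 = -((n : ℤ) + 1); omega)
    (by show yR1 = (n : ℤ) + 1; omega)
    (by
      intro v hv
      rcases hP1 v hv with h | h | h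
      · rw [ta_mem_box] at h
        exact ⟨by omega, by omega⟩
      · subst h
        exact ⟨by show -(n : ℤ) ≤ yL2; omega, by show yL2 ≤ (n : ℤ) + 1; omega⟩
      · subst h
        exact ⟨by show -(n : ℤ) ≤ yR2; omega, by show yR2 ≤ (n : ℤ) + 1; omega⟩)
    (by show z12 = (n : ℤ) + 1; omega)
    (by show z22 = -((n : ℤ) + 1); omega) (by
      intro v hv
      rcases hD1 v hv with h | h | h
      · rw [ta_mem_box] at h
        exact ⟨by omega, by omega⟩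
      · subst h
        exact ⟨by show -((n : ℤ) + 1) ≤ z11; omega, by show z11 ≤ (n : ℤ); omega⟩
      · subst h
        exact ⟨by show -((n : ℤ) + 1) ≤ z21; omega, by show z21 ≤ (n : ℤ); omega⟩)
  have hDe := hD2 e he
  obtain ⟨hO, hk, -⟩ := hP2 _ he'
  rcases hDe with ⟨hno, -⟩ | hb
  · exact hno hO
  · rcases ta_edge_cases (D.edges_subset_edgeSet he) with ⟨i, j, rfl, hd⟩ | ⟨i, j, rfl, hd⟩
    · rw [hd] at hk
      exact hk (i + 1, j) (by simp) (hb (i + 1, j) (by simp))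
    · rw [hd] at hk
      exact hk (i, j + 1) (by simp) (hb (i, j + 1) (by simp))

/-- The left-low and top-left arms are separated. -/
theorem ta_sep_LT (hc : CrossStatement) {O : Sym2 (ℤ × ℤ) → Prop} {k n : ℕ} (hkn : k < n)
    {uT yT uL yL : ℤ × ℤ} (buT : uT ∈ box n) (aT : Z2.Adj uT yT) (tT : Tm (n + 1) yT)
    (buL : uL ∈ box n) (aL : Z2.Adj uL yL) (tL : Lm (n + 1) yL)
    (hL' : Arm (dualO O) k n Lp) (hB' : Arm (dualO O) k n Bp)
    (hP : Conn (fun e => O e ∧ (∀ v ∈ e, v ∉ box k) ∧ ∀ v ∈ e, v ∈ box n ∨ v = yL ∨ v = yT)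
      {v | v ∈ box n ∨ v = yL ∨ v = yT} yL yT) : False := by
  obtain ⟨z1, z2, w1, w2, t1, t2, b1, b2, a1, a2, hDc⟩ := ta_dual_path hkn hL' hB'
  obtain ⟨yT1, yT2⟩ := yT
  obtain ⟨yL1, yL2⟩ := yL
  obtain ⟨z11, z12⟩ := z1
  obtain ⟨z21, z22⟩ := z2
  have eT := ta_adj_of aT
  have eR := ta_adj_of aL
  have e1 := ta_adj_of a1
  have e2 := ta_adj_of a2
  rw [ta_mem_box] at buT buL b1 b2
  simp only [Tm, Lp, Lm, Bp] at tT tL t1 t2
  simp only at eT eR e1 e2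
  push_cast at tT tL t1 t2
  obtain rfl : yT2 = (n : ℤ) + 1 := by omega
  obtain rfl : z11 = -((n : ℤ) + 1) := by omega
  have hrow : Conn (fun e => ∃ l : ℤ, yT1 ≤ l ∧ l < (n : ℤ) + 1 ∧
      e = s((l, (n : ℤ) + 1), (l + 1, (n : ℤ) + 1)))
      {v | v.2 = (n : ℤ) + 1 ∧ yT1 ≤ v.1 ∧ v.1 ≤ (n : ℤ) + 1} (yT1, (n : ℤ) + 1)
      ((n : ℤ) + 1, (n : ℤ) + 1) := ta_row_conn' (by omega)
  have hcol : Conn (fun e => ∃ l : ℤ, z12 ≤ l ∧ l < (n : ℤ) + 1 ∧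
      e = s((-((n : ℤ) + 1), l), (-((n : ℤ) + 1), l + 1)))
      {v | v.1 = -((n : ℤ) + 1) ∧ z12 ≤ v.2 ∧ v.2 ≤ (n : ℤ) + 1} (-((n : ℤ) + 1), z12)
      (-((n : ℤ) + 1), (n : ℤ) + 1) := ta_col_conn' (by omega)
  have hPP := (hP.mono' (O' := fun e => (O e ∧ (∀ v ∈ e, v ∉ box k) ∧
      ∀ v ∈ e, v ∈ box n ∨ v = (yL1, yL2) ∨ v = (yT1, (n : ℤ) + 1)) ∨
      ∃ l : ℤ, yT1 ≤ l ∧ l < (n : ℤ) + 1 ∧ e = s((l, (n : ℤ) + 1), (l + 1, (n : ℤ) + 1)))
      (S' := {v | -(n : ℤ) ≤ v.2 ∧ v.2 ≤ (n : ℤ) + 1})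
      (fun e _ _ h => Or.inl h) (by
        rintro v (hv | hv | hv)
        · rw [ta_mem_box] at hv
          exact ⟨by omega, by omega⟩
        · subst hv
          exact ⟨by show -(n : ℤ) ≤ yL2; omega, by show yL2 ≤ (n : ℤ) + 1; omega⟩
        · subst hv
          exact ⟨by show -(n : ℤ) ≤ (n : ℤ) + 1; omega, le_refl _⟩)).trans'
      (hrow.mono' (fun e _ _ h => Or.inr h) (by
        rintro v ⟨hv1, hv2, hv3⟩
        exact ⟨by omega, by omega⟩))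
  have hDD := (hcol.symm'.mono' (O' := fun e => ((¬ O (dualE e) ∧
      ∀ v ∈ e, v ∈ box n ∨ v = (-((n : ℤ) + 1), z12) ∨ v = (z21, z22)) ∨
        (∀ v ∈ e, v ∈ box k)) ∨ ∃ l : ℤ, z12 ≤ l ∧ l < (n : ℤ) + 1 ∧
      e = s((-((n : ℤ) + 1), l), (-((n : ℤ) + 1), l + 1)))
      (S' := {v | -((n : ℤ) + 1) ≤ v.1 ∧ v.1 ≤ (n : ℤ)})
      (fun e _ _ h => Or.inr h) (by
        rintro v ⟨hv1, hv2, hv3⟩
        exact ⟨by omega, by omega⟩)).trans' (hDc.mono' (fun e _ _ h => Or.inl h) (by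
        rintro v (hv | hv | hv)
        · rw [ta_mem_box] at hv
          exact ⟨by omega, by omega⟩
        · subst hv
          exact ⟨le_refl _, by show -((n : ℤ) + 1) ≤ (n : ℤ); omega⟩
        · subst hv
          exact ⟨by show -((n : ℤ) + 1) ≤ z21; omega, by show z21 ≤ (n : ℤ); omega⟩))
  obtain ⟨P, hP1, hP2⟩ := hPP
  obtain ⟨D, hD1, hD2⟩ := hDD
  obtain ⟨e, he, he'⟩ := hc P D (by show yL1 = -((n : ℤ) + 1); omega) rfl
    (fun v hv => hP1 v hv) rfl (by show z22 = -((n : ℤ) + 1); omega) (fun v hv => hD1 v hv)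
  have hDe := hD2 e he
  have hPe := hP2 _ he'
  rcases ta_edge_cases (D.edges_subset_edgeSet he) with ⟨i, j, rfl, hd⟩ | ⟨i, j, rfl, hd⟩
  · rw [hd] at hDe hPe
    rcases hPe with ⟨hO, hk, hloc⟩ | ⟨l, hl1, hl2, hl3⟩
    · rcases hDe with (⟨hno, -⟩ | hb) | ⟨l, hl1, hl2, hl3⟩
      · exact hno hO
      · exact hk (i + 1, j) (by simp) (hb (i + 1, j) (by simp))
      · simp only [Sym2.eq_iff, Prod.mk.injEq] at hl3
        omega
    · simp only [Sym2.eq_iff, Prod.mk.injEq] at hl3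
      omega
  · rw [hd] at hDe hPe
    rcases hPe with ⟨hO, hk, hloc⟩ | ⟨l, hl1, hl2, hl3⟩
    · rcases hDe with (⟨hno, -⟩ | hb) | ⟨l, hl1, hl2, hl3⟩
      · exact hno hO
      · exact hk (i, j + 1) (by simp) (hb (i, j + 1) (by simp))
      · simp only [Sym2.eq_iff, Prod.mk.injEq] at hl3
        have h1 := hloc (i, j + 1) (by simp)
        have h2 := hloc (i + 1, j + 1) (by simp)
        simp only [Prod.mk.injEq, ta_mem_box] at h1 h2
        omega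
    · simp only [Sym2.eq_iff, Prod.mk.injEq] at hl3
      rcases hDe with (⟨-, hloc⟩ | hb) | ⟨l', hl1', hl2', hl3'⟩
      · have h1 := hloc (i, j + 1) (by simp)
        simp only [Prod.mk.injEq, ta_mem_box] at h1
        omega
      · have h1 := hb (i, j + 1) (by simp)
        rw [ta_mem_box] at h1
        simp only at h1
        omega
      · simp only [Sym2.eq_iff, Prod.mk.injEq] at hl3'
        omega

theorem three_arms_of (hc : CrossStatement) {O : Sym2 (ℤ × ℤ) → Prop} {k n : ℕ} (hkn : k < n)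
    (hT : Arm O k n Tm) (hR : Arm O k n Rm) (hL : Arm O k n Lm) (hT' : Arm (dualO O) k n Tp)
    (hB' : Arm (dualO O) k n Bp) (hL' : Arm (dualO O) k n Lp) : Tri O k n := by
  obtain ⟨wT, vT, uT, yT, a1, a2, a3, a4, a5, a6, a7, a8, a9, a10, a11⟩ := ta_arm_tail hkn
    (by rintro y ⟨h, -⟩; right; right; left; rw [h]; push_cast; ring) hT
  obtain ⟨wR, vR, uR, yR, b1, b2, b3, b4, b5, b6, b7, b8, b9, b10, b11⟩ := ta_arm_tail hkn
    (by rintro y ⟨h, -⟩; left; rw [h]; push_cast; ring) hR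
  obtain ⟨wL, vL, uL, yL, c1, c2, c3, c4, c5, c6, c7, c8, c9, c10, c11⟩ := ta_arm_tail hkn
    (by rintro y ⟨h, -⟩; right; left; rw [h]; push_cast; ring) hL
  have kT : yT ∉ box k := by
    rw [ta_mem_box]
    have := a11.1
    push_cast at this
    omega
  have kR : yR ∉ box k := by
    rw [ta_mem_box]
    have := b11.1
    push_cast at this
    omega
  have kL : yL ∉ box k := by
    rw [ta_mem_box]
    have := c11.1
    push_cast at this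
    omega
  have sTR : ¬ Conn O ((box n : Set (ℤ × ℤ)) \ (box k : Set (ℤ × ℤ))) vT vR := fun h =>
    ta_sep_TR hc hkn a8 a9 a11 b8 b9 b11 hT' hB' (ta_prim_path a6 a9 a10 kT b6 b9 b10 kR h)
  have sLR : ¬ Conn O ((box n : Set (ℤ × ℤ)) \ (box k : Set (ℤ × ℤ))) vL vR := fun h =>
    ta_sep_LR hc hkn c8 c9 c11 b8 b9 b11 hT' hB' (ta_prim_path c6 c9 c10 kL b6 b9 b10 kR h)
  have sLT : ¬ Conn O ((box n : Set (ℤ × ℤ)) \ (box k : Set (ℤ × ℤ))) vL vT := fun h =>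
    ta_sep_LT hc hkn a8 a9 a11 c8 c9 c11 hL' hB' (ta_prim_path c6 c9 c10 kL a6 a9 a10 kT h)
  refine ⟨![vT, vR, vL], ?_, ?_⟩
  · intro i
    fin_cases i
    · exact ⟨a3, a2, ⟨wT, a1, a4, a5⟩, uT, a7, a6⟩
    · exact ⟨b3, b2, ⟨wR, b1, b4, b5⟩, uR, b7, b6⟩
    · exact ⟨c3, c2, ⟨wL, c1, c4, c5⟩, uL, c7, c6⟩
  · intro i j hij
    fin_cases i <;> fin_cases j
    · exact absurd rfl hij
    · exact sTR
    · exact fun h => sLT h.symm'
    · exact fun h => sTR h.symm'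
    · exact absurd rfl hij
    · exact fun h => sLR h.symm'
    · exact sLT
    · exact sLR
    · exact absurd rfl hij

end Pool.Agent.Helper33_FPP
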