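import Pool.Agent.Helper33_FPP.Perc
import Pool.Agent.Helper33_FPP.Peierls

/-!
# Large boxes are joined to infinity with probability close to one

Elementary proof: for `k ≤ m ≤ n` one has `armk t k n ≤ armk t k m * armk t m n`, since the first
arm up to the sphere of radius `m` uses edges inside the box of radius `m`, and the part of the arm
after its last visit to that box uses the other edges.
-/

set_option autoImplicit false
set_option maxHeartbeats 400000

namespace Pool.Agent.Helper33_FPP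

namespace ZeroOneAux

open Finset PeierlsAux

section General

variable {ι κ V : Type*} [Fintype ι] [DecidableEq ι] [Fintype κ] [DecidableEq κ] [Fintype V]

lemma Pr_true {p : V → ℝ} (hp : IsProb p) : Pr p (fun _ : ι → V => True) = 1 := by
  classical
  rw [Pr_eq]
  simp only [if_true, mul_one]
  have h2 := (Finset.prod_univ_sum (fun _ : ι => (Finset.univ : Finset V))
    (fun _ v => p v)).symm
  rw [Fintype.piFinset_univ] at h2
  rw [h2]
  simp [hp.sum_eq]

lemma Pr_le_one {p : V → ℝ} (hp : IsProb p) (E : (ι → V) → Prop) : Pr p E ≤ 1 := by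
  rw [← Pr_true (ι := ι) hp]
  exact Pr_mono hp fun _ _ => trivial

lemma Pr_nonneg {p : V → ℝ} (hp : IsProb p) (E : (ι → V) → Prop) : 0 ≤ Pr p E := by
  classical
  rw [Pr_eq]
  refine Finset.sum_nonneg fun ω _ => mul_nonneg (prod_nonneg' hp ω) ?_
  split_ifs <;> norm_num

lemma Pr_equiv (p : V → ℝ) (e : κ ≃ ι) (E : (κ → V) → Prop) :
    Pr p (fun ω : ι → V => E (fun k => ω (e k))) = Pr p E := by
  classical
  rw [Pr_eq, Pr_eq]
  refine Fintype.sum_equiv (Equiv.arrowCongr e.symm (Equiv.refl V)) _ _ fun ω => ?_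
  have h1 : (Equiv.arrowCongr e.symm (Equiv.refl V)) ω = fun k => ω (e k) := by
    funext k
    simp [Equiv.arrowCongr]
  rw [h1]
  congr 1
  exact (Equiv.prod_comp e (fun i => p (ω i))).symm

lemma Pr_split (p : V → ℝ) (P : ι → Prop) [DecidablePred P]
    (E1 : ({i // P i} → V) → Prop) (E2 : ({i // ¬ P i} → V) → Prop) :
    Pr p (fun ω : ι → V => E1 (fun i => ω i) ∧ E2 (fun i => ω i)) = Pr p E1 * Pr p E2 := by
  classical
  rw [Pr_eq, Pr_eq, Pr_eq, Finset.sum_mul_sum, ← Finset.sum_product']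
  refine Fintype.sum_equiv (Equiv.piEquivPiSubtypeProd P (fun _ => V)) _
    (fun x : ({i // P i} → V) × ({i // ¬ P i} → V) =>
      ((∏ i, p (x.1 i)) * if E1 x.1 then 1 else 0) *
        ((∏ i, p (x.2 i)) * if E2 x.2 then 1 else 0)) fun ω => ?_
  have h1 : ∏ i, p (ω i) = (∏ i : {i // P i}, p (ω i)) * ∏ i : {i // ¬ P i}, p (ω i) := by
    rw [← Fintype.prod_subtype_mul_prod_subtype P (fun i => p (ω i))]
  rw [h1]
  simp only [Equiv.piEquivPiSubtypeProd_apply]
  by_cases hE1 : E1 (fun i => ω i) <;> by_cases hE2 : E2 (fun i => ω i) <;> simp [hE1, hE2]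

end General

lemma mem_box {n : ℕ} {v : ℤ × ℤ} : v ∈ box n ↔ max v.1.natAbs v.2.natAbs ≤ n := by
  unfold box
  simp only [Finset.mem_product, Finset.mem_Icc]
  omega

lemma box_mono {m n : ℕ} (h : m ≤ n) {v : ℤ × ℤ} (hv : v ∈ box m) : v ∈ box n := by
  rw [mem_box] at hv ⊢
  omega

lemma mem_edgesIn {n : ℕ} {x y : ℤ × ℤ} :
    s(x, y) ∈ edgesIn n ↔ x ∈ box n ∧ y ∈ box n ∧ Z2.Adj x y := by
  classical
  unfold edgesIn
  simp only [Finset.mem_filter, Finset.mk_mem_sym2_iff, SimpleGraph.mem_edgeSet, and_assoc]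

lemma edgesIn_mono {m n : ℕ} (h : m ≤ n) {e : Sym2 (ℤ × ℤ)} (he : e ∈ edgesIn m) :
    e ∈ edgesIn n := by
  induction e with
  | _ x y =>
    rw [mem_edgesIn] at he ⊢
    exact ⟨box_mono h he.1, box_mono h he.2.1, he.2.2⟩

lemma isProb_bern {t : ℝ} (h0 : 0 ≤ t) (h1 : t ≤ 1) : IsProb (bern t) := by
  constructor
  · intro v
    cases v <;> simp [bern] <;> linarith
  · simp [bern]

lemma last_exit {m : ℕ} : ∀ {u y : ℤ × ℤ} (q : Z2.Walk u y), (∃ v ∈ q.support, v ∈ box m) →
    ∃ x ∈ box m, ∃ q' : Z2.Walk x y, (∀ v ∈ q'.support, v ∈ q.support) ∧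
      ∀ e ∈ q'.edges, e ∈ q.edges ∧ e ∉ edgesIn m := by
  intro u y q
  induction q with
  | nil =>
    rintro ⟨v, hv, hvm⟩
    simp only [SimpleGraph.Walk.support_nil, List.mem_singleton] at hv
    subst hv
    exact ⟨v, hvm, SimpleGraph.Walk.nil, by simp, by simp⟩
  | @cons u w y h q1 ih =>
    intro hv
    by_cases h1 : ∃ v ∈ q1.support, v ∈ box m
    · obtain ⟨x, hx, q', h2, h3⟩ := ih h1
      refine ⟨x, hx, q', fun v hv => ?_, fun e he => ?_⟩
      · rw [SimpleGraph.Walk.support_cons]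
        exact List.mem_cons_of_mem _ (h2 v hv)
      · rw [SimpleGraph.Walk.edges_cons]
        exact ⟨List.mem_cons_of_mem _ (h3 e he).1, (h3 e he).2⟩
    · push Not at h1
      have hu : u ∈ box m := by
        obtain ⟨v, hv, hvm⟩ := hv
        rw [SimpleGraph.Walk.support_cons, List.mem_cons] at hv
        rcases hv with rfl | hv
        · exact hvm
        · exact absurd hvm (h1 v hv)
      refine ⟨u, hu, SimpleGraph.Walk.cons h q1, fun v hv => hv, fun e he => ⟨he, ?_⟩⟩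
      rw [SimpleGraph.Walk.edges_cons, List.mem_cons] at he
      rcases he with rfl | he
      · rw [mem_edgesIn]
        rintro ⟨_, h2, _⟩
        exact h1 w q1.start_mem_support h2
      · induction e with
        | _ a b =>
          rw [mem_edgesIn]
          rintro ⟨h2, _, _⟩
          exact h1 a (q1.fst_mem_support_of_mem_edges he) h2

lemma first_exit {m : ℕ} : ∀ {x y : ℤ × ℤ} (q : Z2.Walk x y), x ∈ box m →
    m ≤ max y.1.natAbs y.2.natAbs →
    ∃ y', OnSph m y' ∧ ∃ q' : Z2.Walk x y', (∀ v ∈ q'.support, v ∈ box m) ∧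
      ∀ e ∈ q'.edges, e ∈ q.edges ∧ e ∈ edgesIn m := by
  intro x y q
  induction q with
  | @nil x =>
    intro hx hy
    rw [mem_box] at hx
    refine ⟨x, le_antisymm hx hy, SimpleGraph.Walk.nil, ?_, by simp⟩
    intro v hv
    simp only [SimpleGraph.Walk.support_nil, List.mem_singleton] at hv
    subst hv
    exact mem_box.2 hx
  | @cons x w y h q1 ih =>
    intro hx hy
    by_cases hs : OnSph m x
    · refine ⟨x, hs, SimpleGraph.Walk.nil, ?_, by simp⟩
      intro v hv
      simp only [SimpleGraph.Walk.support_nil, List.mem_singleton] at hv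
      subst hv
      exact hx
    · have hw : w ∈ box m := by
        rw [mem_box] at hx ⊢
        unfold OnSph at hs
        have h2 : (x.1 - w.1).natAbs + (x.2 - w.2).natAbs = 1 := h
        omega
      obtain ⟨y', hy', q', h2, h3⟩ := ih hw hy
      refine ⟨y', hy', SimpleGraph.Walk.cons h q', ?_, ?_⟩
      · intro v hv
        rw [SimpleGraph.Walk.support_cons, List.mem_cons] at hv
        rcases hv with rfl | hv
        · exact hx
        · exact h2 v hv
      · intro e he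
        rw [SimpleGraph.Walk.edges_cons, List.mem_cons] at he
        rw [SimpleGraph.Walk.edges_cons]
        rcases he with rfl | he
        · exact ⟨List.mem_cons_self, mem_edgesIn.2 ⟨hx, hw, h⟩⟩
        · exact ⟨List.mem_cons_of_mem _ (h3 e he).1, (h3 e he).2⟩

/-- The edges of the smaller box as a subtype of the edges of the larger box. -/
def inclEquiv {m n : ℕ} (h : m ≤ n) : EIdx m ≃ {i : EIdx n // i.1 ∈ edgesIn m} where
  toFun e := ⟨⟨e.1, edgesIn_mono h e.2⟩, e.2⟩
  invFun i := ⟨i.1.1, i.2⟩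
  left_inv _ := rfl
  right_inv _ := rfl

lemma armk_mul {t : ℝ} (h0 : 0 ≤ t) (h1 : t ≤ 1) {k m n : ℕ} (hkm : k ≤ m) (hmn : m ≤ n) :
    armk t k n ≤ armk t k m * armk t m n := by
  classical
  have hp := isProb_bern h0 h1
  let E1 : ({i : EIdx n // i.1 ∈ edgesIn m} → Bool) → Prop := fun η =>
    ∃ x ∈ box k, ∃ y, OnSph m y ∧
      Conn (opn (fun e : EIdx m => η (inclEquiv hmn e))) (box m : Set (ℤ × ℤ)) x y
  let E2 : ({i : EIdx n // ¬ i.1 ∈ edgesIn m} → Bool) → Prop := fun ζ =>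
    ∃ x ∈ box m, ∃ y, OnSph n y ∧ ∃ q : Z2.Walk x y, (∀ v ∈ q.support, v ∈ box n) ∧
      ∀ e ∈ q.edges, ∃ (h : e ∈ edgesIn n) (h' : ¬ e ∈ edgesIn m), ζ ⟨⟨e, h⟩, h'⟩ = true
  have hE1 : Pr (bern t) E1 = armk t k m :=
    Pr_equiv (bern t) (inclEquiv hmn) (fun ω : EIdx m → Bool => ∃ x ∈ box k, ∃ y, OnSph m y ∧
      Conn (opn ω) (box m : Set (ℤ × ℤ)) x y)
  have hE2 : Pr (bern t) E2 ≤ armk t m n := by
    have h2 := Pr_split (bern t) (fun i : EIdx n => i.1 ∈ edgesIn m) (fun _ => True) E2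
    rw [Pr_true hp, one_mul] at h2
    rw [← h2]
    refine Pr_mono hp fun ω hω => ?_
    obtain ⟨x, hx, y, hy, q, hq1, hq2⟩ := hω.2
    refine ⟨x, hx, y, hy, q, fun v hv => by exact_mod_cast hq1 v hv, fun e he => ?_⟩
    obtain ⟨h, h', h3⟩ := hq2 e he
    exact ⟨h, h3⟩
  have hmain : armk t k n ≤ Pr (bern t) E1 * Pr (bern t) E2 := by
    rw [← Pr_split (bern t) (fun i : EIdx n => i.1 ∈ edgesIn m) E1 E2]
    refine Pr_mono hp fun ω hω => ?_
    obtain ⟨x, hx, y, hy, q, hq1, hq2⟩ := hω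
    constructor
    · obtain ⟨y', hy', q', h2, h3⟩ := first_exit (m := m) q (box_mono hkm hx)
        (by unfold OnSph at hy; omega)
      refine ⟨x, hx, y', hy', q', fun v hv => by exact_mod_cast h2 v hv, fun e he => ?_⟩
      obtain ⟨h4, h5⟩ := h3 e he
      obtain ⟨h6, h7⟩ := hq2 e h4
      exact ⟨h5, h7⟩
    · obtain ⟨x', hx', q', h2, h3⟩ := last_exit (m := m) q
        ⟨x, q.start_mem_support, box_mono hkm hx⟩
      refine ⟨x', hx', y, hy, q', fun v hv => by exact_mod_cast hq1 v (h2 v hv), fun e he => ?_⟩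
      obtain ⟨h4, h5⟩ := h3 e he
      obtain ⟨h6, h7⟩ := hq2 e h4
      exact ⟨h6, h5, h7⟩
  calc armk t k n ≤ Pr (bern t) E1 * Pr (bern t) E2 := hmain
    _ ≤ armk t k m * armk t m n := by
        rw [hE1]
        exact mul_le_mul_of_nonneg_left hE2 (Pr_nonneg hp _)

lemma arm1_le_armk {t : ℝ} (h0 : 0 ≤ t) (h1 : t ≤ 1) (k n : ℕ) : arm1 t n ≤ armk t k n := by
  refine Pr_mono (isProb_bern h0 h1) fun ω hω => ?_
  obtain ⟨y, hy, h⟩ := hω
  exact ⟨0, mem_box.2 (by simp), y, hy, h⟩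

end ZeroOneAux

open ZeroOneAux in
/-- If the one-arm probabilities stay away from zero then large boxes are joined to far spheres
with probability close to one. -/
theorem zero_one {t c : ℝ} (ht0 : 0 ≤ t) (ht1 : t ≤ 1) (hc : 0 < c) (h : ∀ n : ℕ, c ≤ arm1 t n)
    {ε : ℝ} (hε : 0 < ε) : ∃ k : ℕ, ∀ n : ℕ, k ≤ n → 1 - ε ≤ armk t k n := by
  by_contra hcon
  push Not at hcon
  have hpos : 0 ≤ 1 - ε := by
    obtain ⟨n, _, hn⟩ := hcon 0
    have := (h n).trans (arm1_le_armk ht0 ht1 0 n)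
    linarith
  have key : ∀ j : ℕ, ∃ n : ℕ, armk t 0 n ≤ (1 - ε) ^ j := by
    intro j
    induction j with
    | zero =>
      refine ⟨0, ?_⟩
      rw [pow_zero]
      exact ZeroOneAux.Pr_le_one (isProb_bern ht0 ht1) _
    | succ j ih =>
      obtain ⟨m, hm⟩ := ih
      obtain ⟨n, hmn, hn⟩ := hcon m
      refine ⟨n, (armk_mul ht0 ht1 (Nat.zero_le m) hmn).trans ?_⟩
      rw [pow_succ]
      exact mul_le_mul hm hn.le (ZeroOneAux.Pr_nonneg (isProb_bern ht0 ht1) _)
        (pow_nonneg hpos _)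
  obtain ⟨j, hj⟩ := exists_pow_lt_of_lt_one hc (show (1 - ε) < 1 by linarith)
  obtain ⟨n, hn⟩ := key j
  have := (h n).trans (arm1_le_armk ht0 ht1 0 n)
  linarith

end Pool.Agent.Helper33_FPP
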