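import Pool.Agent.Helper33_FPP.Perc
import Pool.Agent.Helper33_FPP.Prelim
import Pool.Agent.Helper33_FPP.LowerMean
import Pool.Agent.Helper33_FPP.BKCount
import Pool.Agent.Helper33_FPP.PercLaw
import Pool.Agent.Helper33_FPP.ZeroOne
import Pool.Agent.Helper33_FPP.ArmsProb
import Pool.Agent.Helper33_FPP.ThreeArmsMain
import Pool.Agent.Helper33_FPP.CrossDual

/-!
# No percolation of `Z²` at `1/2` (module PA6)

Assembly of Zhang's argument (three primal and three dual arms around a large box) with the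
Burton-Keane count.
-/

set_option autoImplicit false

namespace Pool.Agent.Helper33_FPP

open Finset

namespace NC

/-! ### walks -/

theorem mem_support_of_mem_edges {V : Type*} {G : SimpleGraph V} {x y : V} (q : G.Walk x y)
    {e : Sym2 V} (he : e ∈ q.edges) : ∀ v ∈ e, v ∈ q.support := by
  induction e using Sym2.ind with
  | _ a b =>
    intro v hv
    rcases Sym2.mem_iff.1 hv with rfl | rfl
    · exact q.fst_mem_support_of_mem_edges he
    · exact q.snd_mem_support_of_mem_edges he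

theorem conn_mono {O O' : Sym2 (ℤ × ℤ) → Prop} {S S' : Set (ℤ × ℤ)} {x y : ℤ × ℤ}
    (hS : ∀ v ∈ S, v ∈ S') (h : ∀ e ∈ Z2.edgeSet, (∀ v ∈ e, v ∈ S) → O e → O' e)
    (hc : Conn O S x y) : Conn O' S' x y := by
  obtain ⟨q, h1, h2⟩ := hc
  exact ⟨q, fun v hv => hS v (h1 v hv), fun e he => h e (q.edges_subset_edgeSet he)
    (fun v hv => h1 v (mem_support_of_mem_edges q he v hv)) (h2 e he)⟩

theorem box_mono {k n : ℕ} (h : k ≤ n) {v : ℤ × ℤ} (hv : v ∈ box k) : v ∈ box n := by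
  rw [mem_box] at hv ⊢
  omega

theorem box_succ {n : ℕ} {u v : ℤ × ℤ} (hu : u ∈ box n) (h : Z2.Adj u v) : v ∈ box (n + 1) := by
  rw [Z2_adj_iff] at h
  rw [mem_box] at hu ⊢
  omega

theorem mem_edgesIn_mk {n : ℕ} {u v : ℤ × ℤ} (hu : u ∈ box n) (hv : v ∈ box n)
    (h : Z2.Adj u v) : s(u, v) ∈ edgesIn n := by
  rw [mem_edgesIn]
  refine ⟨fun w hw => ?_, h⟩
  rcases Sym2.mem_iff.1 hw with rfl | rfl
  · exact hu
  · exact hv

/-- `Tri O k n` only depends on the edges of `box n` outside `box k`. -/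
theorem tri_congr {O O' : Sym2 (ℤ × ℤ) → Prop} {k n : ℕ} (hkn : k ≤ n)
    (h : ∀ e ∈ edgesIn n, e ∉ edgesIn k → (O e ↔ O' e)) (hT : Tri O k n) : Tri O' k n := by
  obtain ⟨v, h1, h2⟩ := hT
  have key : ∀ e ∈ Z2.edgeSet,
      (∀ w ∈ e, w ∈ ((box n : Set (ℤ × ℤ)) \ (box k : Set (ℤ × ℤ)))) → (O e ↔ O' e) := by
    intro e he hw
    apply h e
    · rw [mem_edgesIn]
      exact ⟨fun w hw' => (hw w hw').1, he⟩
    · intro hk
      rw [mem_edgesIn] at hk
      induction e using Sym2.ind with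
      | _ a b => exact (hw a (Sym2.mem_mk_left a b)).2 (hk.1 a (Sym2.mem_mk_left a b))
  refine ⟨v, fun i => ?_, fun i j hij hc => h2 i j hij ?_⟩
  · obtain ⟨hv, hvk, ⟨u, hu, huv, ho⟩, y, hy, hc⟩ := h1 i
    refine ⟨hv, hvk, ⟨u, hu, huv, ?_⟩, y, hy, ?_⟩
    · refine (h _ (mem_edgesIn_mk (box_mono hkn hu) hv huv) ?_).1 ho
      intro hk
      rw [mem_edgesIn] at hk
      exact hvk (hk.1 _ (Sym2.mem_mk_right _ _))
    · exact conn_mono (fun _ h => h) (fun e he hw => (key e he hw).1) hc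
  · exact conn_mono (fun _ h => h) (fun e he hw => (key e he hw).2) hc

theorem arm_mono {O O' : Sym2 (ℤ × ℤ) → Prop} {k n : ℕ} {a : ℕ → ℤ × ℤ → Prop}
    (h : ∀ e ∈ edgesIn (n + 1), O e → O' e) (hA : Arm O k n a) : Arm O' k n a := by
  obtain ⟨x, hx, u, y, hy, hadj, ho, hc⟩ := hA
  have hu : u ∈ box n := by
    obtain ⟨q, h1, _⟩ := hc
    exact h1 u q.end_mem_support
  refine ⟨x, hx, u, y, hy, hadj, h _ (mem_edgesIn_mk (box_mono (Nat.le_succ n) hu)
    (box_succ hu hadj) hadj) ho, conn_mono (fun _ h => h) (fun e he hw => h e ?_) hc⟩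
  rw [mem_edgesIn]
  exact ⟨fun v hv => box_mono (Nat.le_succ n) (hw v hv), he⟩

/-- the first visit to a sphere -/
theorem first_hit {M : ℕ} {x y : ℤ × ℤ} (q : Z2.Walk x y) (hx : x ∈ box M)
    (hy : M ≤ max y.1.natAbs y.2.natAbs) :
    ∃ w, OnSph M w ∧ ∃ q' : Z2.Walk x w, (∀ v ∈ q'.support, v ∈ box M ∧ v ∈ q.support) ∧
      ∀ e ∈ q'.edges, e ∈ q.edges := by
  induction q with
  | @nil x =>
    refine ⟨x, ?_, SimpleGraph.Walk.nil, ?_, ?_⟩
    · rw [mem_box] at hx
      unfold OnSph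
      omega
    · intro v hv
      simp only [SimpleGraph.Walk.support_nil, List.mem_singleton] at hv
      subst hv
      exact ⟨hx, by simp⟩
    · simp
  | @cons x x' y hadj q ih =>
    by_cases hs : OnSph M x
    · refine ⟨x, hs, SimpleGraph.Walk.nil, ?_, by simp⟩
      intro v hv
      simp only [SimpleGraph.Walk.support_nil, List.mem_singleton] at hv
      subst hv
      exact ⟨hx, by simp⟩
    · have hx' : x' ∈ box M := by
        rw [Z2_adj_iff] at hadj
        unfold OnSph at hs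
        rw [mem_box] at hx ⊢
        omega
      obtain ⟨w, hw, q', h1, h2⟩ := ih hx' hy
      refine ⟨w, hw, SimpleGraph.Walk.cons hadj q', ?_, ?_⟩
      · intro v hv
        simp only [SimpleGraph.Walk.support_cons, List.mem_cons] at hv
        rcases hv with rfl | hv
        · exact ⟨hx, by simp⟩
        · exact ⟨(h1 v hv).1, by simp [(h1 v hv).2]⟩
      · intro e he
        simp only [SimpleGraph.Walk.edges_cons, List.mem_cons] at he ⊢
        rcases he with rfl | he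
        · exact Or.inl rfl
        · exact Or.inr (h2 e he)

/-! ### translations -/

/-- translation of edges -/
def shE (z : ℤ × ℤ) (e : Sym2 (ℤ × ℤ)) : Sym2 (ℤ × ℤ) := e.map (fun v => v + z)

/-- translation as a graph homomorphism -/
def shH (z : ℤ × ℤ) : Z2 →g Z2 where
  toFun v := v + z
  map_rel' := by
    intro a b h
    rw [Z2_adj_iff] at h ⊢
    simp only [Prod.fst_add, Prod.snd_add]
    omega

theorem conn_shift {O : Sym2 (ℤ × ℤ) → Prop} {S : Set (ℤ × ℤ)} {x y z : ℤ × ℤ}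
    (h : Conn (fun e => O (shE z e)) S x y) : Conn O {v | v - z ∈ S} (x + z) (y + z) := by
  obtain ⟨q, h1, h2⟩ := h
  have k1 : ∀ v ∈ (q.map (shH z)).support, v - z ∈ S := by
    intro v hv
    rw [SimpleGraph.Walk.support_map] at hv
    obtain ⟨w, hw, rfl⟩ := List.mem_map.1 hv
    change (w + z) - z ∈ S
    rw [add_sub_cancel_right]
    exact h1 w hw
  have k2 : ∀ e ∈ (q.map (shH z)).edges, O e := by
    intro e he
    rw [SimpleGraph.Walk.edges_map] at he
    obtain ⟨e', he', rfl⟩ := List.mem_map.1 he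
    exact h2 e' he'
  exact ⟨q.map (shH z), k1, k2⟩

theorem shE_shE (z : ℤ × ℤ) (e : Sym2 (ℤ × ℤ)) : shE z (shE (-z) e) = e := by
  unfold shE
  rw [Sym2.map_map]
  have : ((fun v : ℤ × ℤ => v + z) ∘ fun v => v + -z) = id := by
    funext v
    simp
  rw [this, Sym2.map_id, id]

theorem conn_unshift {O : Sym2 (ℤ × ℤ) → Prop} {S : Set (ℤ × ℤ)} {x y z : ℤ × ℤ}
    (h : Conn O {v | v - z ∈ S} (x + z) (y + z)) : Conn (fun e => O (shE z e)) S x y := by
  have h' : Conn (fun e => (fun e' => O (shE z e')) (shE (-z) e)) {v | v - z ∈ S}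
      (x + z) (y + z) := by
    simpa only [shE_shE] using h
  have h3 := conn_shift (O := fun e' => O (shE z e')) (z := -z) h'
  simp only [add_neg_cancel_right] at h3
  refine conn_mono ?_ (fun _ _ _ h => h) h3
  intro v hv
  have : v - -z - z ∈ S := hv
  simpa using this

/-! ### the deterministic count -/

section Det

variable (O : Sym2 (ℤ × ℤ) → Prop) (M : ℕ)

/-- the vertices of a box -/
abbrev BV : Type := {v : ℤ × ℤ // v ∈ box M}

/-- open subgraph of a box -/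
def GO : SimpleGraph (BV M) where
  Adj u v := Z2.Adj u.1 v.1 ∧ O s(u.1, v.1)
  symm := ⟨by
    intro u v h
    exact ⟨h.1.symm, by rw [Sym2.eq_swap]; exact h.2⟩⟩
  loopless := ⟨by
    intro u h
    exact Z2.loopless.irrefl _ h.1⟩

variable {O M}

theorem toG {x y : ℤ × ℤ} (q : Z2.Walk x y) (hs : ∀ v ∈ q.support, v ∈ box M)
    (he : ∀ e ∈ q.edges, O e) :
    ∃ q' : (GO O M).Walk ⟨x, hs x q.start_mem_support⟩ ⟨y, hs y q.end_mem_support⟩,
      ∀ v ∈ q'.support, v.1 ∈ q.support := by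
  induction q with
  | @nil x => exact ⟨SimpleGraph.Walk.nil, by simp⟩
  | @cons x x' y hadj q ih =>
    obtain ⟨q', h1⟩ := ih (fun v hv => hs v (by simp [hv])) (fun e h => he e (by simp [h]))
    refine ⟨SimpleGraph.Walk.cons ⟨hadj, he _ (by simp)⟩ q', ?_⟩
    intro v hv
    simp only [SimpleGraph.Walk.support_cons, List.mem_cons]
    rcases List.mem_cons.1 hv with hv | hv
    · left
      rw [hv]
    · exact Or.inr (h1 v hv)

theorem fromG {x y : BV M} (q : (GO O M).Walk x y) :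
    ∃ q' : Z2.Walk x.1 y.1, (∀ v ∈ q'.support, ∃ h : v ∈ box M, (⟨v, h⟩ : BV M) ∈ q.support) ∧ ∀ e ∈ q'.edges, O e := by
  induction q with
  | @nil x =>
    refine ⟨SimpleGraph.Walk.nil, ?_, by simp⟩
    intro v hv
    simp only [SimpleGraph.Walk.support_nil, List.mem_singleton] at hv
    subst hv
    exact ⟨x.2, by simp⟩
  | @cons x x' y hadj q ih =>
    obtain ⟨q', h1, h2⟩ := ih
    refine ⟨SimpleGraph.Walk.cons hadj.1 q', ?_, ?_⟩
    · intro v hv
      simp only [SimpleGraph.Walk.support_cons, List.mem_cons] at hv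
      rcases hv with rfl | hv
      · exact ⟨x.2, by simp⟩
      · obtain ⟨h, h'⟩ := h1 v hv
        exact ⟨h, by simp [h']⟩
    · intro e he
      simp only [SimpleGraph.Walk.edges_cons, List.mem_cons] at he
      rcases he with rfl | he
      · exact hadj.2
      · exact h2 e he

/-- the sphere as a set of vertices of the box -/
noncomputable def sph (M : ℕ) : Finset (BV M) := by
  classical
  exact (univ : Finset (BV M)).filter (fun v : BV M => OnSph M v.1)

theorem mem_sph {M : ℕ} {v : BV M} : v ∈ sph M ↔ OnSph M v.1 := by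
  classical
  unfold sph
  rw [mem_filter]
  exact ⟨fun h => h.2, fun h => ⟨mem_univ _, h⟩⟩

theorem card_sphere (M : ℕ) : (sph M).card ≤ 8 * M + 4 := by
  classical
  have h1 : ((sph M).image Subtype.val) ⊆
      ((Icc (-(M : ℤ)) M).image (fun a => ((M : ℤ), a)) ∪
        (Icc (-(M : ℤ)) M).image (fun a => (-(M : ℤ), a))) ∪
      ((Icc (-(M : ℤ)) M).image (fun a => (a, (M : ℤ))) ∪
        (Icc (-(M : ℤ)) M).image (fun a => (a, -(M : ℤ)))) := by
    intro v hv
    obtain ⟨w, hw, rfl⟩ := mem_image.1 hv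
    have h2 : OnSph M w.1 := mem_sph.1 hw
    have h3 := w.2
    rw [mem_box] at h3
    unfold OnSph at h2
    obtain ⟨⟨a, b⟩, hw'⟩ := w
    simp only [mem_union, mem_image, mem_Icc, Prod.mk.injEq] at h2 h3 ⊢
    have h4 : a = M ∨ a = -M ∨ b = M ∨ b = -M := by omega
    rcases h4 with h | h | h | h
    · left; left; exact ⟨b, ⟨h3.2.1, h3.2.2⟩, h.symm, rfl⟩
    · left; right; exact ⟨b, ⟨h3.2.1, h3.2.2⟩, h.symm, rfl⟩
    · right; left; exact ⟨a, ⟨h3.1.1, h3.1.2⟩, rfl, h.symm⟩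
    · right; right; exact ⟨a, ⟨h3.1.1, h3.1.2⟩, rfl, h.symm⟩
  have h2 := card_le_card h1
  rw [card_image_of_injective _ Subtype.val_injective] at h2
  refine h2.trans ((card_union_le _ _).trans ?_)
  have h3 : (Icc (-(M : ℤ)) M).card = 2 * M + 1 := by
    rw [Int.card_Icc]
    omega
  have h4 := card_union_le ((Icc (-(M : ℤ)) M).image (fun a => ((M : ℤ), a)))
    ((Icc (-(M : ℤ)) M).image (fun a => (-(M : ℤ), a)))
  have h5 := card_union_le ((Icc (-(M : ℤ)) M).image (fun a => (a, (M : ℤ))))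
    ((Icc (-(M : ℤ)) M).image (fun a => (a, -(M : ℤ))))
  have i1 := card_image_le (s := Icc (-(M : ℤ)) M) (f := fun a => ((M : ℤ), a))
  have i2 := card_image_le (s := Icc (-(M : ℤ)) M) (f := fun a => (-(M : ℤ), a))
  have i3 := card_image_le (s := Icc (-(M : ℤ)) M) (f := fun a => (a, (M : ℤ)))
  have i4 := card_image_le (s := Icc (-(M : ℤ)) M) (f := fun a => (a, -(M : ℤ)))
  omega

theorem det {k m N : ℕ} (hm : 1 ≤ m) (hN : N = (2 * k + 1) * m + k) (Z : Finset (ℤ × ℤ))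
    (hZ : ∀ z ∈ Z, ∃ a b : ℤ, z = ((2 * k + 1) * a, (2 * k + 1) * b) ∧
      (-(m : ℤ) ≤ a ∧ a ≤ m) ∧ (-(m : ℤ) ≤ b ∧ b ≤ m))
    (hT : ∀ z ∈ Z, Tri (fun e => O (shE z e)) k (3 * N) ∧ ∀ e ∈ edgesIn k, O (shE z e)) :
    Z.card ≤ 16 * N + 4 := by
  classical
  have hNk : k + 1 ≤ N := by
    rw [hN]
    nlinarith
  have hzN : ∀ z ∈ Z, (-(N : ℤ) + k ≤ z.1 ∧ z.1 ≤ N - k) ∧ (-(N : ℤ) + k ≤ z.2 ∧ z.2 ≤ N - k) := by
    intro z hz
    obtain ⟨a, b, rfl, ha, hb⟩ := hZ z hz
    have e : (N : ℤ) = (2 * k + 1) * m + k := by exact_mod_cast hN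
    have hk : (0 : ℤ) ≤ 2 * k + 1 := by positivity
    refine ⟨⟨?_, ?_⟩, ?_, ?_⟩
    · simp only; rw [e]; nlinarith [mul_le_mul_of_nonneg_left ha.1 hk]
    · simp only; rw [e]; nlinarith [mul_le_mul_of_nonneg_left ha.2 hk]
    · simp only; rw [e]; nlinarith [mul_le_mul_of_nonneg_left hb.1 hk]
    · simp only; rw [e]; nlinarith [mul_le_mul_of_nonneg_left hb.2 hk]
  have hblk : ∀ z ∈ Z, ∀ v : ℤ × ℤ, v - z ∈ box k → v ∈ box N := by
    intro z hz v hv
    have h1 := hzN z hz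
    rw [mem_box] at hv ⊢
    simp only [Prod.fst_sub, Prod.snd_sub] at hv
    omega
  have key := bk_count (GO O (2 * N)) (sph (2 * N)) Z
    (fun z => {v : BV (2 * N) | v.1 - z ∈ box k}) ?_ ?_ ?_ ?_
  · have := card_sphere (2 * N)
    omega
  · -- disjointness
    intro z hz z' hz' hne
    rw [Set.disjoint_left]
    rintro v (hv : v.1 - z ∈ box k) (hv' : v.1 - z' ∈ box k)
    obtain ⟨a, b, rfl, ha, hb⟩ := hZ z hz
    obtain ⟨a', b', rfl, ha', hb'⟩ := hZ z' hz'
    apply hne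
    rw [mem_box] at hv hv'
    simp only [Prod.fst_sub, Prod.snd_sub] at hv hv'
    have hk : (0 : ℤ) < 2 * k + 1 := by positivity
    have e1 : a = a' := by
      have h1 : (2 * (k : ℤ) + 1) * (a - a') < (2 * k + 1) * 1 := by linarith
      have h2 : (2 * (k : ℤ) + 1) * (a' - a) < (2 * k + 1) * 1 := by linarith
      have h3 := lt_of_mul_lt_mul_left h1 hk.le
      have h4 := lt_of_mul_lt_mul_left h2 hk.le
      omega
    have e2 : b = b' := by
      have h1 : (2 * (k : ℤ) + 1) * (b - b') < (2 * k + 1) * 1 := by linarith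
      have h2 : (2 * (k : ℤ) + 1) * (b' - b) < (2 * k + 1) * 1 := by linarith
      have h3 := lt_of_mul_lt_mul_left h1 hk.le
      have h4 := lt_of_mul_lt_mul_left h2 hk.le
      omega
    rw [e1, e2]
  · -- connectedness
    intro z hz
    rintro ⟨u, hu⟩ ⟨v, hv⟩
    have hu' : u.1 - z ∈ box k := hu
    have hv' : v.1 - z ∈ box k := hv
    obtain ⟨q, hq⟩ := LM.box_connected hu' hv'
    have hc : Conn (fun e => O (shE z e)) (box k : Set (ℤ × ℤ)) (u.1 - z) (v.1 - z) := by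
      refine ⟨q, hq, fun e he => (hT z hz).2 e ?_⟩
      rw [mem_edgesIn]
      exact ⟨fun w hw => hq w (mem_support_of_mem_edges q he w hw), q.edges_subset_edgeSet he⟩
    have hc' := conn_shift hc
    rw [sub_add_cancel, sub_add_cancel] at hc'
    obtain ⟨q1, h1, h2⟩ := hc'
    have h1' : ∀ v ∈ q1.support, v ∈ box (2 * N) := fun w hw =>
      box_mono (by omega) (hblk z hz w (h1 w hw))
    obtain ⟨q2, h3⟩ := toG q1 h1' h2
    have h4 : ∀ w ∈ q2.support, w ∈ {v : BV (2 * N) | v.1 - z ∈ box k} :=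
      fun w hw => h1 w.1 (h3 w hw)
    exact ⟨(q2.induce _ h4)⟩
  · -- blocks do not meet the sphere
    intro z hz v hv hs
    have h1 := hblk z hz v.1 hv
    have h2 : OnSph (2 * N) v.1 := mem_sph.1 hs
    rw [mem_box] at h1
    unfold OnSph at h2
    omega
  · -- trifurcations
    intro z hz
    obtain ⟨⟨v, h1, h2⟩, -⟩ := hT z hz
    have hz1 := hzN z hz
    have hvb : ∀ i, v i + z ∈ box (2 * N) := by
      intro i
      obtain ⟨-, -, ⟨u, hu, huv, -⟩, -⟩ := h1 i
      have h3 := box_succ hu huv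
      rw [mem_box] at h3 ⊢
      simp only [Prod.fst_add, Prod.snd_add]
      omega
    refine ⟨fun i => ⟨v i + z, hvb i⟩, fun i => ⟨?_, ?_, ?_⟩, fun i j hij => ?_⟩
    · change ¬ (v i + z - z ∈ box k)
      rw [add_sub_cancel_right]
      exact (h1 i).2.1
    · obtain ⟨-, -, ⟨u, hu, huv, ho⟩, -⟩ := h1 i
      have hub : u + z - z ∈ box k := by rwa [add_sub_cancel_right]
      refine ⟨⟨u + z, box_mono (by omega) (hblk z hz _ hub)⟩, hub, ?_, ?_⟩
      · exact (shH z).map_adj huv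
      · exact ho
    · obtain ⟨-, -, -, y, hy, hc⟩ := h1 i
      obtain ⟨q, h3, h4⟩ := conn_shift hc
      have hy' : 2 * N ≤ max (y + z).1.natAbs (y + z).2.natAbs := by
        unfold OnSph at hy
        simp only [Prod.fst_add, Prod.snd_add]
        omega
      obtain ⟨w, hw, q', h5, h6⟩ := first_hit q (hvb i) hy'
      obtain ⟨q2, h7⟩ := toG q' (fun v hv => (h5 v hv).1) (fun e he => h4 e (h6 e he))
      refine ⟨⟨w, (h5 w q'.end_mem_support).1⟩, ?_, q2, ?_⟩
      · exact mem_sph.2 hw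
      · intro x hx hxz
        exact (h3 x.1 ((h5 x.1 (h7 x hx)).2)).2 hxz
    · rintro ⟨q, hq⟩
      apply h2 i j hij
      obtain ⟨q', h3, h4⟩ := fromG q
      apply conn_unshift
      refine ⟨q', fun w hw => ?_, h4⟩
      obtain ⟨h5, h6⟩ := h3 w hw
      refine ⟨?_, hq _ h6⟩
      rw [Finset.mem_coe, mem_box]
      rw [mem_box] at h5
      simp only [Prod.fst_sub, Prod.snd_sub]
      omega

end Det

/-! ### probability -/

theorem isProb_bern {t : ℝ} (h0 : 0 ≤ t) (h1 : t ≤ 1) : IsProb (bern t) := by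
  refine ⟨fun v => ?_, ?_⟩
  · cases v <;> simp [bern] <;> linarith
  · simp [bern]

section

variable {ι V : Type*} [Fintype ι] [DecidableEq ι] [Fintype V] {p : V → ℝ}

theorem Pr_compl (hp : IsProb p) (E : (ι → V) → Prop) :
    Pr p (fun ω => ¬ E ω) = 1 - Pr p E := by
  classical
  have h1 : (1 : ℝ) - Pr p E = Ex p (fun ω : ι → V => (1 : ℝ) - (if E ω then 1 else 0)) := by
    rw [ConcAux.Ex_sub, ConcAux.Ex_one hp]
    rfl
  rw [h1]
  unfold Pr Ex
  refine sum_congr rfl (fun ω _ => ?_)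
  by_cases h : E ω <;> simp [h]

theorem Pr_inter_ge (hp : IsProb p) {κ : Type*} (s : Finset κ) (E : κ → (ι → V) → Prop) {δ : ℝ}
    (h : ∀ i ∈ s, 1 - δ ≤ Pr p (E i)) :
    1 - s.card * δ ≤ Pr p (fun ω => ∀ i ∈ s, E i ω) := by
  have h1 : Pr p (fun ω => ¬ ∀ i ∈ s, E i ω) ≤ s.card * δ := by
    calc Pr p (fun ω => ¬ ∀ i ∈ s, E i ω) ≤ Pr p (fun ω => ∃ i ∈ s, ¬ E i ω) :=
          Pr_mono hp (fun ω hω => by push Not at hω; exact hω)
      _ ≤ ∑ i ∈ s, Pr p (fun ω => ¬ E i ω) := Pr_exists_le hp s (fun i ω => ¬ E i ω)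
      _ ≤ ∑ i ∈ s, δ := sum_le_sum (fun i hi => by
          rw [Pr_compl hp]
          linarith [h i hi])
      _ = s.card * δ := by rw [sum_const, nsmul_eq_mul]
  rw [Pr_compl hp] at h1
  linarith

end

theorem Pr_half {ι : Type*} [Fintype ι] [DecidableEq ι] (E : (ι → Bool) → Prop)
    [DecidablePred E] :
    Pr (bern (1 / 2)) E = (1 / 2) ^ Fintype.card ι * ((univ.filter E).card : ℝ) := by
  classical
  have hb : ∀ v, bern (1 / 2) v = 1 / 2 := by
    intro v
    cases v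
    · simp only [bern]; norm_num
    · simp [bern]
  unfold Pr Ex
  simp only [hb, prod_const, card_univ]
  rw [← mul_sum]
  congr 1
  rw [card_filter]
  push_cast
  refine sum_congr rfl (fun ω _ => ?_)
  by_cases h : E ω <;> simp [h]

theorem force_open {ι : Type*} [Fintype ι] [DecidableEq ι] (E : (ι → Bool) → Prop)
    (W : Finset ι) (h : ∀ ω ω' : ι → Bool, (∀ i ∉ W, ω i = ω' i) → E ω → E ω') :
    Pr (bern (1 / 2)) E ≤ 2 ^ W.card *
      Pr (bern (1 / 2)) (fun ω => E ω ∧ ∀ i ∈ W, ω i = true) := by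
  classical
  rw [Pr_half, Pr_half]
  have key : (univ.filter E).card ≤
      2 ^ W.card * (univ.filter (fun ω : ι → Bool => E ω ∧ ∀ i ∈ W, ω i = true)).card := by
    apply card_le_mul_card_image_of_maps_to (f := fun ω i => if i ∈ W then true else ω i)
    · intro ω hω
      rw [mem_filter] at hω ⊢
      refine ⟨mem_univ _, h ω _ (fun i hi => ?_) hω.2, fun i hi => ?_⟩
      · simp [hi]
      · simp [hi]
    · intro b _
      rw [← card_powerset]
      apply card_le_card_of_injOn (fun ω => W.filter (fun i => ω i = true))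
      · intro ω _
        rw [Finset.mem_coe, mem_powerset]
        exact filter_subset _ _
      · intro ω hω ω' hω' he
        rw [Finset.mem_coe, mem_filter] at hω hω'
        funext i
        by_cases hi : i ∈ W
        · have h1 : i ∈ W.filter (fun i => ω i = true) ↔ i ∈ W.filter (fun i => ω' i = true) := by
            simp only at he
            rw [he]
          simp only [mem_filter, hi, true_and] at h1
          cases h2 : ω i <;> cases h3 : ω' i <;> simp_all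
        · have h1 := congrFun hω.2 i
          have h2 := congrFun hω'.2 i
          simp only [hi, if_false] at h1 h2
          rw [h1, h2]
  have h2 : ((univ.filter E).card : ℝ) ≤
      2 ^ W.card * ((univ.filter (fun ω : ι → Bool => E ω ∧ ∀ i ∈ W, ω i = true)).card : ℝ) := by
    exact_mod_cast key
  calc (1 / 2 : ℝ) ^ Fintype.card ι * ((univ.filter E).card : ℝ)
      ≤ (1 / 2 : ℝ) ^ Fintype.card ι * (2 ^ W.card *
        ((univ.filter (fun ω : ι → Bool => E ω ∧ ∀ i ∈ W, ω i = true)).card : ℝ)) :=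
        mul_le_mul_of_nonneg_left h2 (by positivity)
    _ = _ := by ring

theorem prob_tri {k : ℕ} (hk : ∀ n : ℕ, k ≤ n → 1 - (1 / 12 : ℝ) ^ 8 ≤ armk (1 / 2) k n)
    {n : ℕ} (hn : k < n) :
    1 / 2 ≤ Pr (bern (1 / 2)) (fun ω : EIdx (n + 2) → Bool => Tri (opn ω) k n) := by
  have hp : IsProb (bern (1 / 2)) := isProb_bern (by norm_num) (by norm_num)
  have hroot : ((1 / 12 : ℝ) ^ 8) ^ (1 / 8 : ℝ) = 1 / 12 := by
    have := Real.pow_rpow_inv_natCast (x := (1 / 12 : ℝ)) (n := 8) (by norm_num) (by norm_num)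
    rw [← this]
    norm_num
  have hone : ∀ a : ℕ → ℤ × ℤ → Prop,
      (a = Tm ∨ a = Tp ∨ a = Rm ∨ a = Rp ∨ a = Lm ∨ a = Lp ∨ a = Bm ∨ a = Bp) →
      1 - 1 / 12 ≤ Pr (bern (1 / 2)) (fun ω : EIdx (n + 1) → Bool => Arm (opn ω) k n a) := by
    intro a ha
    have := arms_prob (t := 1 / 2) (ε := (1 / 12) ^ 8) (by norm_num) (by norm_num) hn.le
      (hk (n + 1) (by omega)) ha
    rwa [hroot] at this
  have hprimal : ∀ a : ℕ → ℤ × ℤ → Prop,
      (a = Tm ∨ a = Tp ∨ a = Rm ∨ a = Rp ∨ a = Lm ∨ a = Lp ∨ a = Bm ∨ a = Bp) →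
      1 - 1 / 12 ≤ Pr (bern (1 / 2)) (fun ω : EIdx (n + 2) → Bool => Arm (opn ω) k n a) := by
    intro a ha
    refine (hone a ha).trans ?_
    rw [← law_map (n := n + 1) (m := n + 2) (t := 1 / 2) id (Function.injective_id.injOn)
      (fun e he => by
        rw [mem_edgesIn] at he ⊢
        exact ⟨fun v hv => box_mono (by omega) (he.1 v hv), he.2⟩) (fun O => Arm O k n a)]
    exact Pr_mono hp (fun ω hω => arm_mono (fun e _ h => h.2) hω)
  have hdual : ∀ a : ℕ → ℤ × ℤ → Prop,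
      (a = Tm ∨ a = Tp ∨ a = Rm ∨ a = Rp ∨ a = Lm ∨ a = Lp ∨ a = Bm ∨ a = Bp) →
      1 - 1 / 12 ≤ Pr (bern (1 / 2))
        (fun ω : EIdx (n + 2) → Bool => Arm (dualO (opn ω)) k n a) := by
    intro a ha
    refine (hone a ha).trans ?_
    rw [← law_map_not (n := n + 1) (m := n + 2) dualE
      (fun e he e' he' h => dualE_injOn ((mem_edgesIn.1 he).2) ((mem_edgesIn.1 he').2) h)
      (fun e he => dualE_mem he) (fun O => Arm O k n a)]
    exact Pr_mono hp (fun ω hω => arm_mono (fun e _ h => h.2) hω)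
  have hall := Pr_inter_ge hp (univ : Finset (Fin 6))
    (fun i => (![fun ω : EIdx (n + 2) → Bool => Arm (opn ω) k n Tm,
      fun ω => Arm (opn ω) k n Rm, fun ω => Arm (opn ω) k n Lm,
      fun ω => Arm (dualO (opn ω)) k n Tp, fun ω => Arm (dualO (opn ω)) k n Bp,
      fun ω => Arm (dualO (opn ω)) k n Lp] : Fin 6 → (EIdx (n + 2) → Bool) → Prop) i)
    (δ := 1 / 12) (by
      intro i _
      fin_cases i
      · exact hprimal Tm (by simp)
      · exact hprimal Rm (by simp)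
      · exact hprimal Lm (by simp)
      · exact hdual Tp (by simp)
      · exact hdual Bp (by simp)
      · exact hdual Lp (by simp))
  have h6 : (1 / 2 : ℝ) ≤ 1 - ((univ : Finset (Fin 6)).card : ℝ) * (1 / 12) := by
    simp; norm_num
  refine h6.trans (hall.trans (Pr_mono hp (fun ω hω => ?_)))
  exact three_arms_of (fun P D => cross_pd P D) hn (hω 0 (mem_univ _)) (hω 1 (mem_univ _)) (hω 2 (mem_univ _))
    (hω 3 (mem_univ _)) (hω 4 (mem_univ _)) (hω 5 (mem_univ _))

theorem shE_inj (z : ℤ × ℤ) : Function.Injective (shE z) := by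
  apply Sym2.map.injective
  intro a b h
  exact add_right_cancel h

theorem shE_mem {n m N : ℕ} (h : n + N ≤ m) {z : ℤ × ℤ} (hz : z ∈ box N) {e : Sym2 (ℤ × ℤ)}
    (he : e ∈ edgesIn n) : shE z e ∈ edgesIn m := by
  induction e using Sym2.ind with
  | _ a b =>
    rw [mem_edgesIn] at he
    have ha := he.1 a (Sym2.mem_mk_left a b)
    have hb := he.1 b (Sym2.mem_mk_right a b)
    have hadj : Z2.Adj a b := he.2
    apply mem_edgesIn_mk
    · rw [mem_box] at ha hz ⊢
      simp only [Prod.fst_add, Prod.snd_add]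
      omega
    · rw [mem_box] at hb hz ⊢
      simp only [Prod.fst_add, Prod.snd_add]
      omega
    · exact (shH z).map_adj hadj

theorem prob_shift {k N : ℕ} (hkN : k ≤ 3 * N) {z : ℤ × ℤ} (hz : z ∈ box N)
    (h : 1 / 2 ≤ Pr (bern (1 / 2)) (fun ω : EIdx (3 * N + 2) → Bool => Tri (opn ω) k (3 * N))) :
    1 / 2 / 2 ^ (edgesIn k).card ≤
      Pr (bern (1 / 2)) (fun ω : EIdx (4 * N + 2) → Bool =>
        Tri (fun e => opn ω (shE z e)) k (3 * N) ∧ ∀ e ∈ edgesIn k, opn ω (shE z e)) := by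
  classical
  have hp : IsProb (bern (1 / 2)) := isProb_bern (by norm_num) (by norm_num)
  set W : Finset (EIdx (3 * N + 2)) := univ.filter (fun i => i.1 ∈ edgesIn k) with hW
  have hsub : ∀ e ∈ edgesIn k, e ∈ edgesIn (3 * N + 2) := by
    intro e he
    rw [mem_edgesIn] at he ⊢
    exact ⟨fun v hv => box_mono (by omega) (he.1 v hv), he.2⟩
  have hWc : W.card ≤ (edgesIn k).card := by
    apply card_le_card_of_injOn Subtype.val
    · intro i hi
      exact (mem_filter.1 hi).2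
    · exact Subtype.val_injective.injOn
  have h1 := force_open (fun ω : EIdx (3 * N + 2) → Bool => Tri (opn ω) k (3 * N)) W (by
    intro ω ω' hω hT
    refine tri_congr hkN (fun e _ hek => ?_) hT
    unfold opn
    constructor
    · rintro ⟨h1, h2⟩
      exact ⟨h1, by rw [← hω ⟨e, h1⟩ (by simp [hW, hek])]; exact h2⟩
    · rintro ⟨h1, h2⟩
      exact ⟨h1, by rw [hω ⟨e, h1⟩ (by simp [hW, hek])]; exact h2⟩)
  have h2 : 1 / 2 / 2 ^ (edgesIn k).card ≤ Pr (bern (1 / 2))
      (fun ω : EIdx (3 * N + 2) → Bool => Tri (opn ω) k (3 * N) ∧ ∀ i ∈ W, ω i = true) := by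
    rw [div_le_iff₀ (by positivity)]
    have h3 : (2 : ℝ) ^ W.card ≤ 2 ^ (edgesIn k).card := pow_le_pow_right₀ (by norm_num) hWc
    have h4 := Pr_nonneg hp (fun ω : EIdx (3 * N + 2) → Bool =>
      Tri (opn ω) k (3 * N) ∧ ∀ i ∈ W, ω i = true)
    nlinarith [mul_le_mul_of_nonneg_right h3 h4]
  refine h2.trans ?_
  have h3 := law_map (n := 3 * N + 2) (m := 4 * N + 2) (t := 1 / 2) (shE z)
    ((shE_inj z).injOn) (fun e he => shE_mem (by omega) hz he)
    (fun O => Tri O k (3 * N) ∧ ∀ e ∈ edgesIn k, O e)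
  calc Pr (bern (1 / 2)) (fun ω : EIdx (3 * N + 2) → Bool =>
        Tri (opn ω) k (3 * N) ∧ ∀ i ∈ W, ω i = true)
      ≤ Pr (bern (1 / 2)) (fun ω : EIdx (3 * N + 2) → Bool =>
        Tri (opn ω) k (3 * N) ∧ ∀ e ∈ edgesIn k, opn ω e) :=
        Pr_mono hp (fun ω hω => ⟨hω.1, fun e he => ⟨hsub e he, hω.2 _ (by simp [hW, he])⟩⟩)
    _ = _ := h3.symm
    _ ≤ _ := Pr_mono hp (fun ω hω => ⟨tri_congr hkN (fun e he _ => by
        constructor
        · exact fun h => h.2
        · intro h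
          refine ⟨?_, h⟩
          rw [mem_edgesIn] at he ⊢
          exact ⟨fun v hv => box_mono (by omega) (he.1 v hv), he.2⟩) hω.1,
        fun e he => (hω.2 e he).2⟩)

end NC

open NC in
/-- There is no percolation at `1/2`: the one-arm probabilities are not bounded below. -/
theorem no_coexist : ¬ ∃ c : ℝ, 0 < c ∧ ∀ n : ℕ, c ≤ arm1 (1 / 2) n := by
  classical
  rintro ⟨c, hc, h⟩
  have hp : IsProb (bern (1 / 2)) := isProb_bern (by norm_num) (by norm_num)
  obtain ⟨k, hk⟩ := zero_one (t := 1 / 2) (by norm_num) (by norm_num) hc h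
    (ε := (1 / 12 : ℝ) ^ 8) (by positivity)
  set E := (edgesIn k).card with hE
  set m : ℕ := 2 ^ (E + 1) * (48 * k + 20) with hm
  have hm1 : 1 ≤ m := by
    rw [hm]
    have : 1 ≤ 2 ^ (E + 1) := Nat.one_le_two_pow
    nlinarith
  set N : ℕ := (2 * k + 1) * m + k with hN
  have hNk : k < 3 * N := by
    rw [hN]
    nlinarith
  -- the centres
  set Cz : Finset (ℤ × ℤ) := (Icc (-(m : ℤ)) m ×ˢ Icc (-(m : ℤ)) m).image
    (fun ab : ℤ × ℤ => ((2 * (k : ℤ) + 1) * ab.1, (2 * (k : ℤ) + 1) * ab.2)) with hCz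
  have hcard : Cz.card = (2 * m + 1) ^ 2 := by
    rw [hCz, card_image_of_injective, card_product, Int.card_Icc]
    · rw [show ((m : ℤ) + 1 - -(m : ℤ)).toNat = 2 * m + 1 by omega]
      ring
    · intro a b hab
      simp only [Prod.mk.injEq] at hab
      have hk0 : (2 * (k : ℤ) + 1) ≠ 0 := by positivity
      exact Prod.ext (mul_left_cancel₀ hk0 hab.1) (mul_left_cancel₀ hk0 hab.2)
  have hCzmem : ∀ z ∈ Cz, ∃ a b : ℤ, z = ((2 * k + 1) * a, (2 * k + 1) * b) ∧
      (-(m : ℤ) ≤ a ∧ a ≤ m) ∧ (-(m : ℤ) ≤ b ∧ b ≤ m) := by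
    intro z hz
    rw [hCz] at hz
    obtain ⟨ab, hab, rfl⟩ := mem_image.1 hz
    rw [mem_product, mem_Icc, mem_Icc] at hab
    exact ⟨ab.1, ab.2, rfl, hab.1, hab.2⟩
  have hbox : ∀ z ∈ Cz, z ∈ box N := by
    intro z hz
    obtain ⟨a, b, rfl, ha, hb⟩ := hCzmem z hz
    rw [mem_box]
    have e : (N : ℤ) = (2 * k + 1) * m + k := by rw [hN]; push_cast; ring
    have hk0 : (0 : ℤ) ≤ 2 * k + 1 := by positivity
    simp only
    rw [e]
    refine ⟨⟨?_, ?_⟩, ?_, ?_⟩
    · nlinarith [mul_le_mul_of_nonneg_left ha.1 hk0]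
    · nlinarith [mul_le_mul_of_nonneg_left ha.2 hk0]
    · nlinarith [mul_le_mul_of_nonneg_left hb.1 hk0]
    · nlinarith [mul_le_mul_of_nonneg_left hb.2 hk0]
  let T : (ℤ × ℤ) → (EIdx (4 * N + 2) → Bool) → Prop := fun z ω =>
    Tri (fun e => opn ω (shE z e)) k (3 * N) ∧ ∀ e ∈ edgesIn k, opn ω (shE z e)
  have hlow : ∀ z ∈ Cz, 1 / 2 / 2 ^ E ≤ Pr (bern (1 / 2)) (T z) := fun z hz =>
    prob_shift hNk.le (hbox z hz) (prob_tri hk hNk)
  have hsum : (Cz.card : ℝ) * (1 / 2 / 2 ^ E) ≤ 16 * N + 4 := by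
    calc (Cz.card : ℝ) * (1 / 2 / 2 ^ E) = ∑ z ∈ Cz, 1 / 2 / 2 ^ E := by
          rw [sum_const, nsmul_eq_mul]
      _ ≤ ∑ z ∈ Cz, Pr (bern (1 / 2)) (T z) := sum_le_sum hlow
      _ = Ex (bern (1 / 2)) (fun ω => ∑ z ∈ Cz, if T z ω then (1 : ℝ) else 0) := by
          rw [ConcAux.Ex_sum]
          refine sum_congr rfl (fun z _ => ?_)
          unfold Pr Ex
          refine sum_congr rfl (fun ω _ => ?_)
          by_cases h : T z ω <;> simp [h]
      _ ≤ Ex (bern (1 / 2)) (fun _ : EIdx (4 * N + 2) → Bool => (16 * N + 4 : ℝ)) := by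
          apply ConcAux.Ex_mono hp.nonneg
          intro ω
          rw [← sum_filter, sum_const, nsmul_eq_mul, mul_one]
          have := det (O := opn ω) (k := k) (m := m) (N := N) hm1 hN
            (Cz.filter (fun z => T z ω)) (fun z hz => hCzmem z (mem_filter.1 hz).1)
            (fun z hz => (mem_filter.1 hz).2)
          exact_mod_cast this
      _ = 16 * N + 4 := ConcAux.Ex_const hp _
  rw [hcard] at hsum
  push_cast at hsum
  have hm2 : (m : ℝ) = 2 ^ (E + 1) * (48 * k + 20) := by rw [hm]; push_cast; ring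
  have hN2 : (N : ℝ) = (2 * k + 1) * m + k := by rw [hN]; push_cast; ring
  rw [hN2] at hsum
  have h2 : (0 : ℝ) < 2 ^ (E + 1) := by positivity
  have e2 : (1 : ℝ) / 2 / 2 ^ E = 1 / 2 ^ (E + 1) := by
    rw [pow_succ]; field_simp
  rw [e2, mul_one_div, div_le_iff₀ h2] at hsum
  have hm3 : (1 : ℝ) ≤ m := by exact_mod_cast hm1
  have hk3 : (0 : ℝ) ≤ k := Nat.cast_nonneg k
  have h5 : (16 * ((2 * (k : ℝ) + 1) * m + k) + 4) * 2 ^ (E + 1) ≤ m * m := by
    calc (16 * ((2 * (k : ℝ) + 1) * m + k) + 4) * 2 ^ (E + 1)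
        ≤ ((48 * k + 20) * m) * 2 ^ (E + 1) := by
          apply mul_le_mul_of_nonneg_right _ h2.le
          nlinarith [mul_le_mul_of_nonneg_left hm3 hk3]
      _ = m * m := by rw [hm2]; ring
  nlinarith

end Pool.Agent.Helper33_FPP
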