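import Mathlib
import Pool.Agent.Helper33_FPP.Perc
import Pool.Agent.Helper33_FPP.Harris

/-!
# Monotonicity in the parameter of the probability of increasing events
-/

set_option autoImplicit false

namespace Pool.Agent.Helper33_FPP

open Finset

namespace PercMonoAux

variable {ι : Type} [Fintype ι] [DecidableEq ι]

/-- Toggle one coordinate. -/
def tog (j : ι) (ω : ι → Bool) : ι → Bool := Function.update ω j (! ω j)

omit [Fintype ι] in
lemma tog_tog (j : ι) (ω : ι → Bool) : tog j (tog j ω) = ω := by
  funext i
  by_cases h : i = j
  · subst h; simp [tog]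
  · simp [tog, h]

lemma sum_toggle (j : ι) (H : (ι → Bool) → ℝ) :
    2 * ∑ ω, H ω = ∑ ω : ι → Bool, (H (Function.update ω j true) + H (Function.update ω j false)) := by
  have h1 : ∀ ω : ι → Bool, H (Function.update ω j true) + H (Function.update ω j false) =
      H ω + H (tog j ω) := by
    intro ω
    cases h : ω j
    · have e1 : Function.update ω j false = ω := by rw [← h]; exact Function.update_eq_self j ω
      have e2 : Function.update ω j true = tog j ω := by simp [tog, h]
      rw [e1, e2, add_comm]
    · have e1 : Function.update ω j true = ω := by rw [← h]; exact Function.update_eq_self j ω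
      have e2 : Function.update ω j false = tog j ω := by simp [tog, h]
      rw [e1, e2]
  have h2 : ∑ ω : ι → Bool, H (tog j ω) = ∑ ω, H ω := by
    refine Fintype.sum_equiv ⟨tog j, tog j, tog_tog j, tog_tog j⟩ _ _ fun ω => rfl
  rw [Finset.sum_congr rfl fun ω _ => h1 ω, Finset.sum_add_distrib, h2]
  ring

lemma prod_update (q : ι → ℝ) (j : ι) (ω : ι → Bool) (b : Bool) :
    ∏ i, bern (q i) (Function.update ω j b i) =
      bern (q j) b * ∏ i ∈ Finset.univ.erase j, bern (q i) (ω i) := by
  rw [← Finset.mul_prod_erase Finset.univ _ (Finset.mem_univ j)]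
  congr 1
  · simp
  · refine Finset.prod_congr rfl fun i hi => ?_
    rw [Function.update_of_ne (Finset.ne_of_mem_erase hi)]

/-- Probability of an event under a product of different Bernoulli laws. -/
noncomputable def G (q : ι → ℝ) (E : (ι → Bool) → Prop) : ℝ := by
  classical
  exact ∑ ω : ι → Bool, (∏ i, bern (q i) (ω i)) * (if E ω then 1 else 0)

lemma G_update_le {q : ι → ℝ} (hq0 : ∀ i, 0 ≤ q i) (hq1 : ∀ i, q i ≤ 1) {j : ι} {s : ℝ}
    (hs : q j ≤ s) {E : (ι → Bool) → Prop}
    (hE : ∀ ω ω' : ι → Bool, (∀ i, ω i = true → ω' i = true) → E ω → E ω') :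
    G q E ≤ G (Function.update q j s) E := by
  classical
  have key : 2 * G q E ≤ 2 * G (Function.update q j s) E := by
    unfold G
    rw [sum_toggle j, sum_toggle j]
    refine Finset.sum_le_sum fun ω _ => ?_
    rw [prod_update, prod_update, prod_update, prod_update]
    have hrest : ∏ i ∈ Finset.univ.erase j, bern (Function.update q j s i) (ω i) =
        ∏ i ∈ Finset.univ.erase j, bern (q i) (ω i) := by
      refine Finset.prod_congr rfl fun i hi => ?_
      rw [Function.update_of_ne (Finset.ne_of_mem_erase hi)]
    rw [hrest, Function.update_self]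
    have hR : 0 ≤ ∏ i ∈ Finset.univ.erase j, bern (q i) (ω i) :=
      Finset.prod_nonneg fun i _ => HarrisAux.bern_nonneg (hq0 i) (hq1 i) _
    set R := ∏ i ∈ Finset.univ.erase j, bern (q i) (ω i)
    have hm : (if E (Function.update ω j false) then (1 : ℝ) else 0) ≤
        (if E (Function.update ω j true) then (1 : ℝ) else 0) := by
      by_cases h : E (Function.update ω j false)
      · have h' : E (Function.update ω j true) := by
          refine hE _ _ ?_ h
          intro i hi
          by_cases hij : i = j
          · subst hij; simp
          · simpa [hij] using hi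
        simp [h, h']
      · simp only [h, if_false]
        split_ifs <;> norm_num
    set a := (if E (Function.update ω j true) then (1 : ℝ) else 0)
    set b := (if E (Function.update ω j false) then (1 : ℝ) else 0)
    have : 0 ≤ (s - q j) * (a - b) * R :=
      mul_nonneg (mul_nonneg (by linarith) (by linarith)) hR
    simp only [bern, if_true, Bool.false_eq_true, if_false]
    nlinarith
  linarith

end PercMonoAux

open PercMonoAux

theorem Pr_bern_mono {ι : Type} [Fintype ι] [DecidableEq ι] {t t' : ℝ} (h0 : 0 ≤ t) (h : t ≤ t')
    (h1 : t' ≤ 1) {E : (ι → Bool) → Prop}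
    (hE : ∀ ω ω' : ι → Bool, (∀ i, ω i = true → ω' i = true) → E ω → E ω') :
    Pr (bern t) E ≤ Pr (bern t') E := by
  classical
  have hG : ∀ r : ℝ, Pr (bern r) E = G (fun _ : ι => r) E := by
    intro r
    rw [PeierlsAux.Pr_eq]
    unfold G
    refine Finset.sum_congr rfl fun ω _ => ?_
    congr!
  rw [hG, hG]
  have key : ∀ S : Finset ι, G (fun _ : ι => t) E ≤ G (fun i => if i ∈ S then t' else t) E := by
    intro S
    induction S using Finset.induction_on with
    | empty => simp
    | insert j S hj ih =>
      refine ih.trans ?_
      have h2 : (fun i => if i ∈ insert j S then t' else t) =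
          Function.update (fun i => if i ∈ S then t' else t) j t' := by
        funext i
        by_cases hij : i = j
        · subst hij; simp
        · simp [hij]
      rw [h2]
      refine G_update_le ?_ ?_ ?_ hE
      · intro i; split_ifs <;> linarith
      · intro i; split_ifs <;> linarith
      · simp only [hj, if_false]; exact h
  have := key Finset.univ
  simpa using this

end Pool.Agent.Helper33_FPP
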