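import Pool.Agent.Helper33_FPP.Basic

/-!
# Concentration for minima of sums over finite families (module M1)

Efron-Stein inequality on a finite product space, applied to exponentials of the minimum.
-/

set_option autoImplicit false

namespace Pool.Agent.Helper33_FPP

namespace ConcAux

open Finset Function

variable {ι V : Type*} [Fintype ι] [DecidableEq ι] [Fintype V]

lemma Ex_mono {p : V → ℝ} (hp : ∀ v, 0 ≤ p v) {f g : (ι → V) → ℝ} (h : ∀ ω, f ω ≤ g ω) :
    Ex p f ≤ Ex p g := by
  unfold Ex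
  exact Finset.sum_le_sum fun ω _ =>
    mul_le_mul_of_nonneg_left (h ω) (Finset.prod_nonneg fun i _ => hp _)

lemma Ex_nonneg {p : V → ℝ} (hp : ∀ v, 0 ≤ p v) {f : (ι → V) → ℝ} (h : ∀ ω, 0 ≤ f ω) :
    0 ≤ Ex p f := by
  unfold Ex
  exact Finset.sum_nonneg fun ω _ => mul_nonneg (Finset.prod_nonneg fun i _ => hp _) (h ω)

lemma Ex_add (p : V → ℝ) (f g : (ι → V) → ℝ) :
    Ex p (fun ω => f ω + g ω) = Ex p f + Ex p g := by
  unfold Ex
  rw [← Finset.sum_add_distrib]
  exact Finset.sum_congr rfl fun ω _ => by ring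

lemma Ex_sub (p : V → ℝ) (f g : (ι → V) → ℝ) :
    Ex p (fun ω => f ω - g ω) = Ex p f - Ex p g := by
  unfold Ex
  rw [← Finset.sum_sub_distrib]
  exact Finset.sum_congr rfl fun ω _ => by ring

lemma Ex_mul_left (p : V → ℝ) (c : ℝ) (f : (ι → V) → ℝ) :
    Ex p (fun ω => c * f ω) = c * Ex p f := by
  unfold Ex
  rw [Finset.mul_sum]
  exact Finset.sum_congr rfl fun ω _ => by ring

lemma Ex_sum {κ : Type*} (s : Finset κ) (p : V → ℝ) (f : κ → (ι → V) → ℝ) :
    Ex p (fun ω => ∑ j ∈ s, f j ω) = ∑ j ∈ s, Ex p (f j) := by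
  unfold Ex
  simp_rw [Finset.mul_sum]
  exact Finset.sum_comm

lemma Ex_one {p : V → ℝ} (hp : IsProb p) : Ex p (fun _ : ι → V => (1 : ℝ)) = 1 := by
  unfold Ex
  simp only [mul_one]
  have h := Finset.prod_univ_sum (fun _ : ι => (Finset.univ : Finset V)) (fun _ v => p v)
  rw [Fintype.piFinset_univ] at h
  rw [← h]
  simp [hp.sum_eq]

lemma Ex_const {p : V → ℝ} (hp : IsProb p) (c : ℝ) : Ex p (fun _ : ι → V => c) = c := by
  have := Ex_mul_left (ι := ι) p c (fun _ => (1 : ℝ))
  simp only [mul_one] at this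
  rw [this, Ex_one hp, mul_one]

/-- Exchange of a coordinate with an independent copy. -/
lemma Ex_swap (p : V → ℝ) (i : ι) (H : (ι → V) → V → ℝ) :
    Ex p (fun ω => ∑ v, p v * H ω v) = Ex p (fun ω => ∑ v, p v * H (update ω i v) (ω i)) := by
  unfold Ex
  simp_rw [Finset.mul_sum]
  rw [← Fintype.sum_prod_type' (f := fun (ω : ι → V) (v : V) => (∏ j, p (ω j)) * (p v * H ω v))]
  rw [← Fintype.sum_prod_type' (f := fun (ω : ι → V) (v : V) =>
    (∏ j, p (ω j)) * (p v * H (update ω i v) (ω i)))]
  let e : (ι → V) × V → (ι → V) × V := fun x => (update x.1 i x.2, x.1 i)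
  have he : Function.Involutive e := by
    rintro ⟨ω, v⟩
    simp [e]
  refine (Fintype.sum_equiv he.toPerm _ _ ?_).symm
  rintro ⟨ω, v⟩
  simp only [Function.Involutive.coe_toPerm, e]
  have h1 : (∏ j, p (ω j)) * p v = (∏ j, p ((update ω i v) j)) * p (ω i) := by
    rw [← Finset.mul_prod_erase Finset.univ (fun j => p (ω j)) (Finset.mem_univ i),
      ← Finset.mul_prod_erase Finset.univ (fun j => p ((update ω i v) j)) (Finset.mem_univ i)]
    have h2 : ∏ j ∈ Finset.univ.erase i, p ((update ω i v) j)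
        = ∏ j ∈ Finset.univ.erase i, p (ω j) := by
      refine Finset.prod_congr rfl fun j hj => ?_
      rw [update_of_ne (Finset.ne_of_mem_erase hj)]
    rw [h2, update_self]
    ring
  rw [← mul_assoc, h1, mul_assoc]

/-- Average over coordinate `i`. -/
noncomputable def av (p : V → ℝ) (i : ι) (g : (ι → V) → ℝ) : (ι → V) → ℝ :=
  fun ω => ∑ v, p v * g (update ω i v)

/-- Twice the mean conditional variance in coordinate `i`. -/
noncomputable def Dir (p : V → ℝ) (i : ι) (g : (ι → V) → ℝ) : ℝ :=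
  Ex p (fun ω => ∑ v, p v * (g ω - g (update ω i v)) ^ 2)

lemma Ex_av {p : V → ℝ} (hp : IsProb p) (i : ι) (g : (ι → V) → ℝ) :
    Ex p (av p i g) = Ex p g := by
  have h := Ex_swap p i (fun ω _ => g ω)
  unfold av
  rw [← h]
  congr 1
  funext ω
  rw [← Finset.sum_mul, hp.sum_eq, one_mul]

lemma Ex_av_mul {p : V → ℝ} (hp : IsProb p) (i : ι) (g : (ι → V) → ℝ) :
    Ex p (fun ω => g ω * av p i g ω) = Ex p (fun ω => (av p i g ω) ^ 2) := by
  rw [← Ex_av hp i (fun ω => g ω * av p i g ω)]
  congr 1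
  funext ω
  have h : ∀ v, av p i g (update ω i v) = av p i g ω := by
    intro v
    unfold av
    refine Finset.sum_congr rfl fun v' _ => ?_
    rw [update_idem]
  have h2 : av p i (fun ω => g ω * av p i g ω) ω = ∑ v, p v * (g (update ω i v) * av p i g ω) := by
    change ∑ v, p v * (g (update ω i v) * av p i g (update ω i v)) = _
    refine Finset.sum_congr rfl fun v _ => ?_
    rw [h v]
  have h3 : ∑ v, p v * (g (update ω i v) * av p i g ω) = av p i g ω * av p i g ω := by
    have h4 : ∀ v, p v * (g (update ω i v) * av p i g ω) = (p v * g (update ω i v)) * av p i g ω :=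
      fun v => by ring
    simp_rw [h4]
    rw [← Finset.sum_mul]
    rfl
  rw [h2, h3, sq]

/-- The variance decomposition in one coordinate. -/
lemma sq_sub_av {p : V → ℝ} (hp : IsProb p) (i : ι) (g : (ι → V) → ℝ) :
    Ex p (fun ω => g ω ^ 2) - Ex p (fun ω => (av p i g ω) ^ 2) = (1 / 2) * Dir p i g := by
  have h1 : Dir p i g = Ex p (fun ω => g ω ^ 2) + Ex p (av p i (fun ω => g ω ^ 2))
      - 2 * Ex p (fun ω => g ω * av p i g ω) := by
    rw [← Ex_mul_left, ← Ex_add, ← Ex_sub]
    unfold Dir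
    congr 1
    funext ω
    unfold av
    rw [Finset.mul_sum, Finset.mul_sum]
    have : g ω ^ 2 = ∑ v, p v * g ω ^ 2 := by rw [← Finset.sum_mul, hp.sum_eq, one_mul]
    rw [this, ← Finset.sum_add_distrib, ← Finset.sum_sub_distrib]
    exact Finset.sum_congr rfl fun v _ => by ring
  rw [h1, Ex_av hp, Ex_av_mul hp]
  ring

lemma av_sq_le {p : V → ℝ} (hp : IsProb p) (h : V → ℝ) :
    (∑ v, p v * h v) ^ 2 ≤ ∑ v, p v * h v ^ 2 := by
  have h1 : 0 ≤ ∑ v, p v * (h v - ∑ u, p u * h u) ^ 2 :=
    Finset.sum_nonneg fun v _ => mul_nonneg (hp.nonneg v) (sq_nonneg _)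
  have h2 : ∑ v, p v * (h v - ∑ u, p u * h u) ^ 2
      = ∑ v, p v * h v ^ 2 - (∑ v, p v * h v) ^ 2 := by
    set m := ∑ u, p u * h u with hm
    have : ∀ v, p v * (h v - m) ^ 2 = p v * h v ^ 2 - 2 * m * (p v * h v) + m ^ 2 * p v := by
      intro v; ring
    simp_rw [this]
    rw [Finset.sum_add_distrib, Finset.sum_sub_distrib, ← Finset.mul_sum, ← Finset.mul_sum,
      hp.sum_eq, ← hm]
    ring
  linarith

/-- Averaging in one coordinate does not increase the Dirichlet form of any coordinate. -/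
lemma Dir_av_le {p : V → ℝ} (hp : IsProb p) (i j : ι) (g : (ι → V) → ℝ) :
    Dir p i (av p j g) ≤ Dir p i g := by
  by_cases hij : i = j
  · subst hij
    have h0 : Dir p i (av p i g) = 0 := by
      unfold Dir
      have : (fun ω : ι → V => ∑ v, p v * (av p i g ω - av p i g (update ω i v)) ^ 2)
          = fun _ => (0 : ℝ) := by
        funext ω
        refine Finset.sum_eq_zero fun v _ => ?_
        have : av p i g (update ω i v) = av p i g ω := by
          unfold av
          refine Finset.sum_congr rfl fun v' _ => ?_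
          rw [update_idem]
        rw [this]
        ring
      rw [this, Ex_const hp]
    rw [h0]
    exact Ex_nonneg hp.nonneg fun ω =>
      Finset.sum_nonneg fun v _ => mul_nonneg (hp.nonneg v) (sq_nonneg _)
  · have h1 : Dir p i g = Ex p (av p j (fun ω => ∑ v, p v * (g ω - g (update ω i v)) ^ 2)) := by
      rw [Ex_av hp]
      rfl
    rw [h1]
    unfold Dir
    refine Ex_mono hp.nonneg fun ω => ?_
    unfold av
    simp_rw [Finset.mul_sum]
    rw [Finset.sum_comm]
    refine Finset.sum_le_sum fun v _ => ?_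
    rw [← Finset.sum_sub_distrib]
    have h2 : ∀ u, p u * g (update ω j u) - p u * g (update (update ω i v) j u)
        = p u * (g (update ω j u) - g (update (update ω j u) i v)) := by
      intro u
      rw [update_comm hij, mul_sub]
    simp_rw [h2]
    have h3 := av_sq_le hp (fun u => g (update ω j u) - g (update (update ω j u) i v))
    calc p v * (∑ u, p u * (g (update ω j u) - g (update (update ω j u) i v))) ^ 2
        ≤ p v * ∑ u, p u * (g (update ω j u) - g (update (update ω j u) i v)) ^ 2 :=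
          mul_le_mul_of_nonneg_left h3 (hp.nonneg v)
      _ = ∑ u, p u * (p v * (g (update ω j u) - g (update (update ω j u) i v)) ^ 2) := by
          rw [Finset.mul_sum]
          exact Finset.sum_congr rfl fun u _ => by ring

/-- Average over a list of coordinates. -/
noncomputable def avL (p : V → ℝ) (l : List ι) (g : (ι → V) → ℝ) : (ι → V) → ℝ :=
  l.foldr (fun i h => av p i h) g

lemma Dir_avL_le {p : V → ℝ} (hp : IsProb p) (i : ι) (l : List ι) (g : (ι → V) → ℝ) :
    Dir p i (avL p l g) ≤ Dir p i g := by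
  induction l with
  | nil => exact le_refl _
  | cons j l ih => exact (Dir_av_le hp i j _).trans ih

lemma Ex_avL {p : V → ℝ} (hp : IsProb p) (l : List ι) (g : (ι → V) → ℝ) :
    Ex p (avL p l g) = Ex p g := by
  induction l with
  | nil => rfl
  | cons j l ih => exact (Ex_av hp j _).trans ih

omit [Fintype ι] in
lemma avL_indep (p : V → ℝ) (l : List ι) (g : (ι → V) → ℝ) (ω ω' : ι → V)
    (h : ∀ i, i ∉ l → ω i = ω' i) : avL p l g ω = avL p l g ω' := by
  induction l generalizing ω ω' with
  | nil =>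
    have : ω = ω' := funext fun i => h i (by simp)
    rw [this]
  | cons j l ih =>
    change av p j (avL p l g) ω = av p j (avL p l g) ω'
    unfold av
    refine Finset.sum_congr rfl fun v _ => ?_
    congr 1
    apply ih
    intro i hi
    by_cases hij : i = j
    · subst hij
      simp
    · rw [update_of_ne hij, update_of_ne hij]
      apply h
      simp [hij, hi]

lemma sq_sub_avL {p : V → ℝ} (hp : IsProb p) (l : List ι) (g : (ι → V) → ℝ) :
    Ex p (fun ω => g ω ^ 2) - Ex p (fun ω => (avL p l g ω) ^ 2)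
      ≤ (1 / 2) * (l.map (fun i => Dir p i g)).sum := by
  induction l with
  | nil => simp [avL]
  | cons j l ih =>
    have h1 := sq_sub_av hp j (avL p l g)
    have h2 := Dir_avL_le hp j l g
    simp only [List.map_cons, List.sum_cons]
    change Ex p (fun ω => g ω ^ 2) - Ex p (fun ω => (av p j (avL p l g) ω) ^ 2) ≤ _
    linarith

/-- The Efron-Stein inequality. -/
lemma efron_stein {p : V → ℝ} (hp : IsProb p) (g : (ι → V) → ℝ) :
    Ex p (fun ω => g ω ^ 2) - (Ex p g) ^ 2 ≤ (1 / 2) * ∑ i, Dir p i g := by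
  have h := sq_sub_avL hp (Finset.univ : Finset ι).toList g
  rw [Finset.sum_map_toList] at h
  have hne : Nonempty (ι → V) ∨ IsEmpty (ι → V) := by
    rcases isEmpty_or_nonempty (ι → V) with h | h
    · exact Or.inr h
    · exact Or.inl h
  rcases hne with hne | hne
  · obtain ⟨ω₀⟩ := hne
    have hc : ∀ ω, avL p (Finset.univ : Finset ι).toList g ω
        = avL p (Finset.univ : Finset ι).toList g ω₀ := fun ω =>
      avL_indep p _ g ω ω₀ (fun i hi => absurd (by simp) hi)
    have h3 : avL p (Finset.univ : Finset ι).toList g ω₀ = Ex p g := by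
      rw [← Ex_avL hp (Finset.univ : Finset ι).toList g]
      have : avL p (Finset.univ : Finset ι).toList g
          = fun _ => avL p (Finset.univ : Finset ι).toList g ω₀ := funext hc
      conv_rhs => rw [this]
      rw [Ex_const hp]
    have h4 : Ex p (fun ω => (avL p (Finset.univ : Finset ι).toList g ω) ^ 2) = (Ex p g) ^ 2 := by
      have : (fun ω => (avL p (Finset.univ : Finset ι).toList g ω) ^ 2)
          = fun _ => (Ex p g) ^ 2 := by
        funext ω
        rw [hc ω, h3]
      rw [this, Ex_const hp]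
    rw [h4] at h
    exact h
  · exfalso
    have h1 := Ex_one (ι := ι) hp
    unfold Ex at h1
    simp at h1

/-- The one-sided forms of the Dirichlet form. -/
lemma Dir_eq_pos {p : V → ℝ} (i : ι) (g : (ι → V) → ℝ) :
    (1 / 2) * Dir p i g = Ex p (fun ω => ∑ v, p v * (max (g (update ω i v) - g ω) 0) ^ 2) := by
  have hs := Ex_swap p i (fun ω v => (max (g (update ω i v) - g ω) 0) ^ 2)
  have h2 : (fun ω : ι → V => ∑ v, p v * (max (g (update (update ω i v) i (ω i))
      - g (update ω i v)) 0) ^ 2) = fun ω => ∑ v, p v * (max (g ω - g (update ω i v)) 0) ^ 2 := by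
    funext ω
    refine Finset.sum_congr rfl fun v _ => ?_
    rw [update_idem, update_eq_self]
  rw [h2] at hs
  have h3 : Dir p i g = Ex p (fun ω => ∑ v, p v * (max (g (update ω i v) - g ω) 0) ^ 2)
      + Ex p (fun ω => ∑ v, p v * (max (g ω - g (update ω i v)) 0) ^ 2) := by
    rw [← Ex_add]
    unfold Dir
    congr 1
    funext ω
    rw [← Finset.sum_add_distrib]
    refine Finset.sum_congr rfl fun v _ => ?_
    rw [← mul_add]
    congr 1
    rcases le_total (g ω) (g (update ω i v)) with hle | hle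
    · rw [max_eq_left (by linarith), max_eq_right (by linarith)]
      ring
    · rw [max_eq_right (by linarith), max_eq_left (by linarith)]
      ring
  rw [h3, ← hs]
  ring

lemma Dir_eq_neg {p : V → ℝ} (i : ι) (g : (ι → V) → ℝ) :
    (1 / 2) * Dir p i g = Ex p (fun ω => ∑ v, p v * (max (g ω - g (update ω i v)) 0) ^ 2) := by
  rw [Dir_eq_pos]
  have hs := Ex_swap p i (fun ω v => (max (g (update ω i v) - g ω) 0) ^ 2)
  rw [hs]
  congr 1
  funext ω
  refine Finset.sum_congr rfl fun v _ => ?_
  rw [update_idem, update_eq_self]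

/-- The exponential moment recursion. -/
lemma exp_moment_step {p : V → ℝ} (hp : IsProb p) (T : (ι → V) → ℝ) (S : (ι → V) → Finset ι)
    {b : ℝ} (hb : 0 < b) {k : ℕ} (hcard : ∀ ω, (S ω).card ≤ k)
    (hout : ∀ ω i v, i ∉ S ω → T (update ω i v) ≤ T ω)
    (hin : ∀ ω i v, T (update ω i v) ≤ T ω + b) (lam : ℝ) :
    Ex p (fun ω => Real.exp (lam * T ω)) * (1 - k * b ^ 2 * Real.exp (|lam| * b) / 4 * lam ^ 2)
      ≤ (Ex p (fun ω => Real.exp (lam / 2 * T ω))) ^ 2 := by
  have hES := efron_stein hp (fun ω : ι → V => Real.exp (lam / 2 * T ω))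
  have hsq : ∀ ω, Real.exp (lam / 2 * T ω) ^ 2 = Real.exp (lam * T ω) := by
    intro ω
    rw [sq, ← Real.exp_add]
    congr 1
    ring
  simp_rw [hsq] at hES
  have hkey : (1 / 2) * ∑ i, Dir p i (fun ω : ι → V => Real.exp (lam / 2 * T ω))
      ≤ k * b ^ 2 * Real.exp (|lam| * b) / 4 * lam ^ 2 * Ex p (fun ω => Real.exp (lam * T ω)) := by
    rw [Finset.mul_sum]
    -- pointwise bound
    have hpt : ∀ D : ι → (ι → V) → V → ℝ,
        (∀ i ω v, D i ω v ≤ if i ∈ S ω then
          b ^ 2 * Real.exp (|lam| * b) / 4 * lam ^ 2 * Real.exp (lam * T ω) else 0) →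
        ∑ i, Ex p (fun ω => ∑ v, p v * D i ω v)
          ≤ k * b ^ 2 * Real.exp (|lam| * b) / 4 * lam ^ 2
            * Ex p (fun ω => Real.exp (lam * T ω)) := by
      intro D hD
      rw [← Ex_sum, ← Ex_mul_left]
      refine Ex_mono hp.nonneg fun ω => ?_
      have h1 : ∀ i ∈ Finset.univ, ∑ v, p v * D i ω v ≤ if i ∈ S ω then
          b ^ 2 * Real.exp (|lam| * b) / 4 * lam ^ 2 * Real.exp (lam * T ω) else 0 := by
        intro i _
        calc ∑ v, p v * D i ω v ≤ ∑ v, p v * (if i ∈ S ω then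
          b ^ 2 * Real.exp (|lam| * b) / 4 * lam ^ 2 * Real.exp (lam * T ω) else 0) :=
              Finset.sum_le_sum fun v _ => mul_le_mul_of_nonneg_left (hD i ω v) (hp.nonneg v)
          _ = _ := by rw [← Finset.sum_mul, hp.sum_eq, one_mul]
      refine (Finset.sum_le_sum h1).trans ?_
      rw [Finset.sum_ite_mem, Finset.univ_inter, Finset.sum_const, nsmul_eq_mul]
      have h2 : ((S ω).card : ℝ) ≤ k := by exact_mod_cast hcard ω
      have h3 : 0 ≤ b ^ 2 * Real.exp (|lam| * b) / 4 * lam ^ 2 * Real.exp (lam * T ω) := by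
        positivity
      calc ((S ω).card : ℝ) * (b ^ 2 * Real.exp (|lam| * b) / 4 * lam ^ 2 * Real.exp (lam * T ω))
          ≤ k * (b ^ 2 * Real.exp (|lam| * b) / 4 * lam ^ 2 * Real.exp (lam * T ω)) :=
            mul_le_mul_of_nonneg_right h2 h3
        _ = _ := by ring
    rcases le_total 0 lam with hlam | hlam
    · -- increasing exponential
      simp_rw [Dir_eq_pos]
      apply hpt
      intro i ω v
      by_cases hi : i ∈ S ω
      · rw [if_pos hi]
        have h1 : Real.exp (lam / 2 * T (update ω i v)) - Real.exp (lam / 2 * T ω)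
            ≤ Real.exp (lam / 2 * T ω) * (lam / 2 * b * Real.exp (lam / 2 * b)) := by
          have h2 : Real.exp (lam / 2 * T (update ω i v))
              ≤ Real.exp (lam / 2 * T ω) * Real.exp (lam / 2 * b) := by
            rw [← Real.exp_add]
            apply Real.exp_le_exp.mpr
            have := hin ω i v
            nlinarith
          have h3 : Real.exp (lam / 2 * b) ≤ 1 + lam / 2 * b * Real.exp (lam / 2 * b) := by
            have h4 := Real.add_one_le_exp (-(lam / 2 * b))
            have h5 : Real.exp (lam / 2 * b) * Real.exp (-(lam / 2 * b)) = 1 := by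
              rw [← Real.exp_add]; simp
            have h6 := Real.exp_pos (lam / 2 * b)
            nlinarith
          have h7 := Real.exp_pos (lam / 2 * T ω)
          nlinarith
        have h0 : 0 ≤ Real.exp (lam / 2 * T ω) * (lam / 2 * b * Real.exp (lam / 2 * b)) := by
          positivity
        have h8 : max (Real.exp (lam / 2 * T (update ω i v)) - Real.exp (lam / 2 * T ω)) 0
            ≤ Real.exp (lam / 2 * T ω) * (lam / 2 * b * Real.exp (lam / 2 * b)) :=
          max_le h1 h0
        refine (pow_le_pow_left₀ (le_max_right _ _) h8 2).trans (le_of_eq ?_)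
        rw [abs_of_nonneg hlam]
        have h9 : Real.exp (lam * T ω) = Real.exp (lam / 2 * T ω) ^ 2 := (hsq ω).symm
        have h10 : Real.exp (lam * b) = Real.exp (lam / 2 * b) ^ 2 := by
          rw [sq, ← Real.exp_add]; congr 1; ring
        rw [h9, h10]
        ring
      · rw [if_neg hi]
        have h1 : Real.exp (lam / 2 * T (update ω i v)) ≤ Real.exp (lam / 2 * T ω) := by
          apply Real.exp_le_exp.mpr
          have := hout ω i v hi
          nlinarith
        rw [max_eq_right (by linarith)]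
        simp
    · simp_rw [Dir_eq_neg]
      apply hpt
      intro i ω v
      by_cases hi : i ∈ S ω
      · rw [if_pos hi]
        have h1 : Real.exp (lam / 2 * T ω) - Real.exp (lam / 2 * T (update ω i v))
            ≤ Real.exp (lam / 2 * T ω) * (-lam / 2 * b) := by
          have h2 : Real.exp (lam / 2 * T ω) * Real.exp (lam / 2 * b)
              ≤ Real.exp (lam / 2 * T (update ω i v)) := by
            rw [← Real.exp_add]
            apply Real.exp_le_exp.mpr
            have := hin ω i v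
            nlinarith
          have h3 := Real.add_one_le_exp (lam / 2 * b)
          have h7 := Real.exp_pos (lam / 2 * T ω)
          nlinarith
        have h0 : 0 ≤ Real.exp (lam / 2 * T ω) * (-lam / 2 * b) := by
          have : 0 ≤ -lam / 2 * b := by nlinarith
          positivity
        have h8 : max (Real.exp (lam / 2 * T ω) - Real.exp (lam / 2 * T (update ω i v))) 0
            ≤ Real.exp (lam / 2 * T ω) * (-lam / 2 * b) :=
          max_le h1 h0
        refine (pow_le_pow_left₀ (le_max_right _ _) h8 2).trans ?_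
        rw [← hsq ω]
        have h11 : 1 ≤ Real.exp (|lam| * b) := by
          apply Real.one_le_exp
          positivity
        have h12 : 0 ≤ Real.exp (lam / 2 * T ω) ^ 2 * (b ^ 2 * lam ^ 2 / 4) := by positivity
        nlinarith
      · rw [if_neg hi]
        have h1 : Real.exp (lam / 2 * T ω) ≤ Real.exp (lam / 2 * T (update ω i v)) := by
          apply Real.exp_le_exp.mpr
          have := hout ω i v hi
          nlinarith
        rw [max_eq_right (by linarith)]
        simp
  linarith

/-- The iteration of the recursion. -/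
lemma iterate_bound {M : ℝ → ℝ} {κ lam0 C : ℝ} (hκ : 0 ≤ κ) (hlam0 : 0 ≤ lam0)
    (hsmall : κ * lam0 ^ 2 ≤ 1 / 6)
    (hstep : ∀ lam, |lam| ≤ lam0 → M lam * (1 - κ * lam ^ 2) ≤ M (lam / 2) ^ 2)
    (hpos : ∀ lam, 0 ≤ M lam)
    (hbase : ∀ lam, |lam| ≤ lam0 → M lam ≤ Real.exp (C * lam ^ 2)) :
    ∀ lam, |lam| ≤ lam0 → M lam ≤ Real.exp (12 / 5 * κ * lam ^ 2) := by
  have hn : ∀ n : ℕ, ∀ lam, |lam| ≤ lam0 →
      M lam ≤ Real.exp ((C / 2 ^ n + 12 / 5 * κ) * lam ^ 2) := by
    intro n
    induction n with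
    | zero =>
      intro lam hl
      refine (hbase lam hl).trans (Real.exp_le_exp.mpr ?_)
      have : 0 ≤ κ * lam ^ 2 := by positivity
      simp only [pow_zero, div_one]
      nlinarith
    | succ n ih =>
      intro lam hl
      have hl2 : |lam / 2| ≤ lam0 := by
        rw [abs_div, abs_two]
        have := abs_nonneg lam
        linarith
      have h1 := hstep lam hl
      have h2 := ih (lam / 2) hl2
      have hx : κ * lam ^ 2 ≤ 1 / 6 := by
        refine le_trans ?_ hsmall
        apply mul_le_mul_of_nonneg_left _ hκ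
        rw [← sq_abs lam]
        exact pow_le_pow_left₀ (abs_nonneg _) hl 2
      have hx0 : 0 ≤ κ * lam ^ 2 := by positivity
      have h3 : M (lam / 2) ^ 2 ≤ Real.exp ((C / 2 ^ n + 12 / 5 * κ) * (lam / 2) ^ 2) ^ 2 :=
        pow_le_pow_left₀ (hpos _) h2 2
      have h4 : 1 ≤ (1 - κ * lam ^ 2) * Real.exp (6 / 5 * (κ * lam ^ 2)) := by
        have h5 := Real.add_one_le_exp (6 / 5 * (κ * lam ^ 2))
        have h6 : 0 ≤ 1 - κ * lam ^ 2 := by linarith
        nlinarith
      have h7 : M lam ≤ M lam * ((1 - κ * lam ^ 2) * Real.exp (6 / 5 * (κ * lam ^ 2))) := by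
        have := hpos lam
        nlinarith
      calc M lam ≤ M lam * (1 - κ * lam ^ 2) * Real.exp (6 / 5 * (κ * lam ^ 2)) := by
            rw [mul_assoc]; exact h7
        _ ≤ Real.exp ((C / 2 ^ n + 12 / 5 * κ) * (lam / 2) ^ 2) ^ 2
            * Real.exp (6 / 5 * (κ * lam ^ 2)) :=
            mul_le_mul_of_nonneg_right (h1.trans h3) (Real.exp_pos _).le
        _ = Real.exp ((C / 2 ^ (n + 1) + 12 / 5 * κ) * lam ^ 2) := by
            rw [sq (Real.exp _), ← Real.exp_add, ← Real.exp_add]
            congr 1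
            rw [pow_succ]
            field_simp
            ring
  intro lam hl
  have hlim : Filter.Tendsto (fun n : ℕ => Real.exp ((C / 2 ^ n + 12 / 5 * κ) * lam ^ 2))
      Filter.atTop (nhds (Real.exp ((0 + 12 / 5 * κ) * lam ^ 2))) := by
    apply (Real.continuous_exp.tendsto _).comp
    apply Filter.Tendsto.mul_const
    apply Filter.Tendsto.add_const
    have h1 : Filter.Tendsto (fun n : ℕ => (1 / 2 : ℝ) ^ n) Filter.atTop (nhds 0) :=
      tendsto_pow_atTop_nhds_zero_of_lt_one (by norm_num) (by norm_num)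
    have h2 := h1.const_mul C
    rw [mul_zero] at h2
    refine h2.congr fun n => ?_
    rw [one_div, inv_pow, div_eq_mul_inv]
  have := ge_of_tendsto' hlim (fun n => hn n lam hl)
  simpa using this

/-- A centred bounded function has subgaussian exponential moments. -/
lemma base_bound {p : V → ℝ} (hp : IsProb p) (T : (ι → V) → ℝ) {B : ℝ} (hB : ∀ ω, |T ω| ≤ B)
    (h0 : Ex p T = 0) (lam : ℝ) :
    Ex p (fun ω => Real.exp (lam * T ω)) ≤ Real.exp (B ^ 2 * lam ^ 2) := by
  rcases le_total (|lam| * B) 1 with h | h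
  · have h1 : ∀ ω, Real.exp (lam * T ω) ≤ 1 + lam * T ω + B ^ 2 * lam ^ 2 := by
      intro ω
      have hle : |lam * T ω| ≤ |lam| * B := by
        rw [abs_mul]
        exact mul_le_mul_of_nonneg_left (hB ω) (abs_nonneg _)
      have h2 := Real.abs_exp_sub_one_sub_id_le (x := lam * T ω) (hle.trans h)
      have h3 := (abs_le.mp h2).2
      have h4 : (lam * T ω) ^ 2 ≤ B ^ 2 * lam ^ 2 := by
        rw [← sq_abs (lam * T ω)]
        refine (pow_le_pow_left₀ (abs_nonneg _) hle 2).trans (le_of_eq ?_)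
        rw [mul_pow, sq_abs]
        ring
      linarith
    have h5 : Ex p (fun ω => 1 + lam * T ω + B ^ 2 * lam ^ 2) = 1 + B ^ 2 * lam ^ 2 := by
      rw [Ex_add p (fun ω => 1 + lam * T ω) (fun _ => B ^ 2 * lam ^ 2),
        Ex_add p (fun _ => (1 : ℝ)) (fun ω => lam * T ω), Ex_mul_left, h0, Ex_const hp,
        Ex_const hp]
      ring
    calc Ex p (fun ω => Real.exp (lam * T ω)) ≤ Ex p (fun ω => 1 + lam * T ω + B ^ 2 * lam ^ 2) :=
          Ex_mono hp.nonneg h1
      _ = B ^ 2 * lam ^ 2 + 1 := by rw [h5]; ring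
      _ ≤ _ := Real.add_one_le_exp _
  · have h1 : ∀ ω, Real.exp (lam * T ω) ≤ Real.exp (B ^ 2 * lam ^ 2) := by
      intro ω
      apply Real.exp_le_exp.mpr
      have hle : lam * T ω ≤ |lam| * B := by
        refine (le_abs_self _).trans ?_
        rw [abs_mul]
        exact mul_le_mul_of_nonneg_left (hB ω) (abs_nonneg _)
      have h2 : |lam| * B ≤ (|lam| * B) ^ 2 := by nlinarith
      have h3 : (|lam| * B) ^ 2 = B ^ 2 * lam ^ 2 := by
        rw [mul_pow, sq_abs]; ring
      linarith
    calc Ex p (fun ω => Real.exp (lam * T ω)) ≤ Ex p (fun _ => Real.exp (B ^ 2 * lam ^ 2)) :=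
          Ex_mono hp.nonneg h1
      _ = _ := Ex_const hp _

end ConcAux

open ConcAux Function in
/-- Concentration for the minimum of sums over a finite family of small index sets. -/
theorem concentration {ι V : Type*} [Fintype ι] [DecidableEq ι] [Fintype V] {p : V → ℝ}
    (hp : IsProb p) {val : V → ℝ} {b : ℝ} (hb : 0 < b) (hval : ∀ v, 0 ≤ val v ∧ val v ≤ b)
    (𝒮 : Finset (Finset ι)) (h𝒮 : 𝒮.Nonempty) {k : ℕ} (hk : ∀ S ∈ 𝒮, S.card ≤ k) {t : ℝ}
    (ht : 0 ≤ t) :
    Pr p (fun ω : ι → V => t ≤ |minW 𝒮 h𝒮 (fun i => val (ω i))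
      - Ex p (fun ω : ι → V => minW 𝒮 h𝒮 (fun i => val (ω i)))|)
      ≤ 4 * Real.exp (-(t / (2 * b * Real.sqrt (k + 1)))) := by
  classical
  set m : ℝ := Ex p (fun ω : ι → V => minW 𝒮 h𝒮 (fun i => val (ω i))) with hm
  set T : (ι → V) → ℝ := fun ω => minW 𝒮 h𝒮 (fun i => val (ω i)) - m with hT
  -- minimizers
  have hmin : ∀ ω : ι → V, ∃ S ∈ 𝒮, minW 𝒮 h𝒮 (fun i => val (ω i)) = ∑ i ∈ S, val (ω i) := by
    intro ω
    obtain ⟨S, hS, h⟩ := Finset.exists_mem_eq_inf' h𝒮 (fun S => ∑ i ∈ S, val (ω i))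
    exact ⟨S, hS, h⟩
  choose S hSmem hSeq using hmin
  have hle : ∀ (ω : ι → V) (i : ι) (v : V),
      minW 𝒮 h𝒮 (fun j => val (update ω i v j)) ≤ ∑ j ∈ S ω, val (update ω i v j) := by
    intro ω i v
    exact Finset.inf'_le (fun S => ∑ j ∈ S, val (update ω i v j)) (hSmem ω)
  have hout : ∀ ω i v, i ∉ S ω → T (update ω i v) ≤ T ω := by
    intro ω i v hi
    have h1 := hle ω i v
    have h2 : ∑ j ∈ S ω, val (update ω i v j) = ∑ j ∈ S ω, val (ω j) := by
      refine Finset.sum_congr rfl fun j hj => ?_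
      have hji : j ≠ i := by
        rintro rfl
        exact hi hj
      rw [update_of_ne hji]
    simp only [hT]
    rw [hSeq ω]
    linarith
  have hin : ∀ ω i v, T (update ω i v) ≤ T ω + b := by
    intro ω i v
    by_cases hi : i ∈ S ω
    · have h1 := hle ω i v
      have h2 : ∑ j ∈ S ω, val (update ω i v j) ≤ ∑ j ∈ S ω, val (ω j) + b := by
        rw [← Finset.add_sum_erase (S ω) _ hi, ← Finset.add_sum_erase (S ω) (fun j => val (ω j)) hi]
        have h3 : ∑ j ∈ (S ω).erase i, val (update ω i v j) = ∑ j ∈ (S ω).erase i, val (ω j) := by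
          refine Finset.sum_congr rfl fun j hj => ?_
          rw [update_of_ne (Finset.ne_of_mem_erase hj)]
        rw [h3, update_self]
        have := hval v
        have := hval (ω i)
        linarith
      simp only [hT]
      rw [hSeq ω]
      linarith
    · have := hout ω i v hi
      linarith
  have hcard : ∀ ω, (S ω).card ≤ k := fun ω => hk _ (hSmem ω)
  have hET : Ex p T = 0 := by
    simp only [hT]
    rw [Ex_sub p (fun ω : ι → V => minW 𝒮 h𝒮 (fun i => val (ω i))) (fun _ => m), Ex_const hp, hm]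
    ring
  obtain ⟨B, hB⟩ : ∃ B : ℝ, ∀ ω, |T ω| ≤ B := by
    refine ⟨∑ ω, |T ω|, fun ω => ?_⟩
    exact Finset.single_le_sum (f := fun ω => |T ω|) (fun _ _ => abs_nonneg _) (Finset.mem_univ ω)
  have hk0 : (0 : ℝ) < k + 1 := by positivity
  have hsk : 0 < Real.sqrt (k + 1) := Real.sqrt_pos.mpr hk0
  have hsk2 : Real.sqrt (k + 1) ^ 2 = k + 1 := Real.sq_sqrt hk0.le
  have hsk1 : 1 ≤ Real.sqrt (k + 1) := by
    rw [Real.one_le_sqrt]
    have : (0 : ℝ) ≤ k := by positivity
    linarith
  set lam0 : ℝ := 1 / (2 * b * Real.sqrt (k + 1)) with hlam0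
  have hlam0pos : 0 < lam0 := by positivity
  have hlb : lam0 * b ≤ 1 / 2 := by
    rw [hlam0, div_mul_eq_mul_div, div_le_iff₀ (by positivity)]
    nlinarith
  set κ : ℝ := k * b ^ 2 * (5 / 3) / 4 with hκ
  have hκ0 : 0 ≤ κ := by positivity
  have hκl : κ * lam0 ^ 2 ≤ 5 / 48 := by
    rw [hκ, hlam0, div_pow, mul_pow, mul_pow, hsk2]
    rw [mul_div_assoc', div_le_iff₀ (by positivity)]
    have : (0 : ℝ) ≤ b ^ 2 := by positivity
    nlinarith
  have hexp : Real.exp (1 / 2) ≤ 5 / 3 := by
    have h1 := Real.exp_one_lt_d9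
    have h2 : Real.exp (1 / 2) ^ 2 = Real.exp 1 := by
      rw [sq, ← Real.exp_add]; norm_num
    by_contra hcon
    push Not at hcon
    nlinarith
  have hstep : ∀ lam, |lam| ≤ lam0 → Ex p (fun ω => Real.exp (lam * T ω)) * (1 - κ * lam ^ 2)
      ≤ (Ex p (fun ω => Real.exp (lam / 2 * T ω))) ^ 2 := by
    intro lam hl
    refine le_trans ?_ (exp_moment_step hp T S hb hcard hout hin lam)
    apply mul_le_mul_of_nonneg_left _ (Ex_nonneg hp.nonneg fun ω => (Real.exp_pos _).le)
    have h1 : Real.exp (|lam| * b) ≤ 5 / 3 := by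
      refine (Real.exp_le_exp.mpr ?_).trans hexp
      exact (mul_le_mul_of_nonneg_right hl hb.le).trans hlb
    have h2 : k * b ^ 2 * Real.exp (|lam| * b) / 4 * lam ^ 2 ≤ κ * lam ^ 2 := by
      rw [hκ]
      gcongr
    linarith
  have hbound := iterate_bound (M := fun lam => Ex p (fun ω => Real.exp (lam * T ω)))
    (κ := κ) (lam0 := lam0) (C := B ^ 2) hκ0 hlam0pos.le (by linarith) hstep
    (fun lam => Ex_nonneg hp.nonneg fun ω => (Real.exp_pos _).le)
    (fun lam _ => base_bound hp T hB hET lam)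
  have hfin : ∀ lam, |lam| = lam0 → Ex p (fun ω => Real.exp (lam * T ω)) ≤ 2 := by
    intro lam hl
    refine (hbound lam hl.le).trans ?_
    have h1 : 12 / 5 * κ * lam ^ 2 ≤ 1 / 2 := by
      rw [← sq_abs lam, hl]
      nlinarith
    refine (Real.exp_le_exp.mpr h1).trans (hexp.trans (by norm_num))
  -- Markov
  have hmark : Pr p (fun ω : ι → V => t ≤ |T ω|)
      ≤ Ex p (fun ω => Real.exp (-(t * lam0)) * (Real.exp (lam0 * T ω)
        + Real.exp (-lam0 * T ω))) := by
    unfold Pr
    refine Ex_mono hp.nonneg fun ω => ?_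
    split_ifs with h
    · replace h : t ≤ |T ω| := h
      rw [mul_add, ← Real.exp_add, ← Real.exp_add]
      rcases le_total 0 (T ω) with h0 | h0
      · rw [abs_of_nonneg h0] at h
        have h1 : 1 ≤ Real.exp (-(t * lam0) + lam0 * T ω) := by
          apply Real.one_le_exp
          nlinarith
        have h2 := Real.exp_pos (-(t * lam0) + -lam0 * T ω)
        linarith
      · rw [abs_of_nonpos h0] at h
        have h1 : 1 ≤ Real.exp (-(t * lam0) + -lam0 * T ω) := by
          apply Real.one_le_exp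
          nlinarith
        have h2 := Real.exp_pos (-(t * lam0) + lam0 * T ω)
        linarith
    · positivity
  have hm2 : t / (2 * b * Real.sqrt (k + 1)) = t * lam0 := by
    rw [hlam0]
    ring
  rw [hm2]
  refine hmark.trans ?_
  rw [Ex_mul_left, Ex_add p (fun ω => Real.exp (lam0 * T ω)) (fun ω => Real.exp (-lam0 * T ω))]
  have h1 := hfin lam0 (abs_of_pos hlam0pos)
  have h2 := hfin (-lam0) (by rw [abs_neg, abs_of_pos hlam0pos])
  have h3 := Real.exp_pos (-(t * lam0))
  nlinarith

end Pool.Agent.Helper33_FPP
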