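import Pool.Agent.Helper33_FPP.Perc
import Pool.Agent.Helper33_FPP.Peierls
import Pool.Agent.Helper33_FPP.Conc
import Pool.Agent.Helper33_FPP.PercLaw

/-!
# Exponential decay when `φ_t(S) < 1` (Duminil-Copin and Tassion)
-/

set_option autoImplicit false

namespace Pool.Agent.Helper33_FPP

open Finset

namespace PhiDecayAux

/-! ### Product measures -/

section Indep

variable {ι V : Type*} [Fintype ι] [DecidableEq ι] [Fintype V]

/-- Exchange two configurations outside `T`. -/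
def swp (T : ι → Prop) [DecidablePred T] (x : (ι → V) × (ι → V)) : (ι → V) × (ι → V) :=
  (fun i => if T i then x.1 i else x.2 i, fun i => if T i then x.2 i else x.1 i)

omit [Fintype ι] [DecidableEq ι] [Fintype V] in
lemma swp_swp (T : ι → Prop) [DecidablePred T] (x : (ι → V) × (ι → V)) : swp T (swp T x) = x := by
  ext i <;> simp only [swp] <;> split_ifs <;> rfl

lemma Pr_nonneg' {p : V → ℝ} (hp : IsProb p) (E : (ι → V) → Prop) : 0 ≤ Pr p E := by
  classical
  rw [PeierlsAux.Pr_eq]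
  refine Finset.sum_nonneg fun ω _ => mul_nonneg (PeierlsAux.prod_nonneg' hp ω) ?_
  split_ifs <;> norm_num

lemma Pr_le_one' {p : V → ℝ} (hp : IsProb p) (E : (ι → V) → Prop) : Pr p E ≤ 1 := by
  classical
  refine (PeierlsAux.Pr_mono hp (F := fun _ => True) fun _ _ => trivial).trans (le_of_eq ?_)
  rw [PeierlsAux.Pr_eq]
  have := ConcAux.Ex_one (ι := ι) hp
  unfold Ex at this
  simpa using this

lemma Pr_indep {p : V → ℝ} (hp : IsProb p) (T : ι → Prop) {E F : (ι → V) → Prop}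
    (hE : ∀ ω ω' : ι → V, (∀ i, T i → ω i = ω' i) → E ω → E ω')
    (hF : ∀ ω ω' : ι → V, (∀ i, ¬ T i → ω i = ω' i) → F ω → F ω') :
    Pr p (fun ω => E ω ∧ F ω) = Pr p E * Pr p F := by
  classical
  have hE' : ∀ ω ω' : ι → V, (∀ i, T i → ω i = ω' i) → (E ω ↔ E ω') := fun ω ω' h =>
    ⟨hE ω ω' h, hE ω' ω fun i hi => (h i hi).symm⟩
  have hF' : ∀ ω ω' : ι → V, (∀ i, ¬ T i → ω i = ω' i) → (F ω ↔ F ω') := fun ω ω' h =>
    ⟨hF ω ω' h, hF ω' ω fun i hi => (h i hi).symm⟩
  have h1 : Pr p (fun _ : ι → V => True) = 1 := by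
    rw [PeierlsAux.Pr_eq]
    have := ConcAux.Ex_one (ι := ι) hp
    unfold Ex at this
    simpa using this
  have key : Pr p (fun ω => E ω ∧ F ω) * Pr p (fun _ : ι → V => True) = Pr p E * Pr p F := by
    rw [PeierlsAux.Pr_eq, PeierlsAux.Pr_eq, PeierlsAux.Pr_eq, PeierlsAux.Pr_eq,
      Finset.sum_mul_sum, Finset.sum_mul_sum, ← Finset.sum_product', ← Finset.sum_product']
    refine Finset.sum_bij' (fun x _ => swp T x) (fun x _ => swp T x) ?_ ?_ ?_ ?_ ?_
    · intro x _; simp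
    · intro x _; simp
    · intro x _; exact swp_swp T x
    · intro x _; exact swp_swp T x
    · intro x _
      have a1 : (∏ i, p (x.1 i)) * (∏ i, p (x.2 i)) =
          (∏ i, p ((swp T x).1 i)) * (∏ i, p ((swp T x).2 i)) := by
        rw [← Finset.prod_mul_distrib, ← Finset.prod_mul_distrib]
        refine Finset.prod_congr rfl fun i _ => ?_
        simp only [swp]
        split_ifs
        · rfl
        · ring
      have a2 : E x.1 ↔ E (swp T x).1 := hE' _ _ fun i hi => by simp [swp, hi]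
      have a3 : F x.1 ↔ F (swp T x).2 := hF' _ _ fun i hi => by simp [swp, hi]
      have a4 : (if E x.1 ∧ F x.1 then (1 : ℝ) else 0) =
          (if E (swp T x).1 then 1 else 0) * (if F (swp T x).2 then 1 else 0) := by
        rw [a2, a3]
        by_cases b1 : E (swp T x).1 <;> by_cases b2 : F (swp T x).2 <;> simp [b1, b2]
      rw [a4]
      simp only [if_true, mul_one]
      calc (∏ i, p (x.1 i)) * ((if E (swp T x).1 then 1 else 0) *
            (if F (swp T x).2 then 1 else 0)) * (∏ i, p (x.2 i))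
          = ((∏ i, p (x.1 i)) * (∏ i, p (x.2 i))) * ((if E (swp T x).1 then 1 else 0) *
            (if F (swp T x).2 then 1 else 0)) := by ring
        _ = _ := by rw [a1]; ring
  rw [h1, mul_one] at key
  exact key

lemma isProb_bern {t : ℝ} (h0 : 0 ≤ t) (h1 : t ≤ 1) : IsProb (bern t) := by
  refine ⟨?_, ?_⟩
  · intro v
    cases v <;> simp [bern, h0, h1]
  · simp [bern]

lemma Pr_coord {t : ℝ} (h0 : 0 ≤ t) (h1 : t ≤ 1) (i : ι) :
    Pr (bern t) (fun ω : ι → Bool => ω i = true) = t := by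
  classical
  have h := PeierlsAux.Ex_prod (isProb_bern h0 h1) ({i} : Finset ι)
    (fun v : Bool => if v = true then (1 : ℝ) else 0)
  simp only [Finset.prod_singleton, Finset.card_singleton, pow_one] at h
  rw [Fintype.sum_bool] at h
  simp only [bern, if_true, mul_one, Bool.false_eq_true, if_false, mul_zero, add_zero] at h
  rw [PeierlsAux.Pr_eq]
  unfold Ex at h
  exact h

end Indep

/-! ### Walks -/

/-- Sup norm. -/
def N (v : ℤ × ℤ) : ℕ := max v.1.natAbs v.2.natAbs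

lemma N_adj {x y : ℤ × ℤ} (h : Z2.Adj x y) : N y ≤ N x + 1 := by
  obtain ⟨a, b⟩ := x
  obtain ⟨c, d⟩ := y
  simp only [Z2] at h
  simp only [N]
  omega

lemma mem_box {R : ℕ} {v : ℤ × ℤ} : v ∈ box R ↔ N v ≤ R := by
  obtain ⟨a, b⟩ := v
  simp only [box, N, mem_product, mem_Icc]
  omega

lemma exists_pre {x y : ℤ × ℤ} (q : Z2.Walk x y) (m : ℕ) (hx : N x ≤ m) (hy : m ≤ N y) :
    ∃ z, N z = m ∧ ∃ q' : Z2.Walk x z, (∀ v ∈ q'.support, N v ≤ m) ∧
      ∀ e ∈ q'.edges, e ∈ q.edges := by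
  induction q with
  | nil => exact ⟨_, le_antisymm hx hy, SimpleGraph.Walk.nil, by simpa using hx, by simp⟩
  | @cons u v w h q ih =>
    rcases Nat.lt_or_ge (N u) m with hlt | hge
    · obtain ⟨z, hz, q', h1, h2⟩ := ih (by have := N_adj h; omega) hy
      refine ⟨z, hz, SimpleGraph.Walk.cons h q', ?_, ?_⟩
      · intro a ha
        rw [SimpleGraph.Walk.support_cons, List.mem_cons] at ha
        rcases ha with rfl | ha
        · exact hx
        · exact h1 a ha
      · intro e he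
        rw [SimpleGraph.Walk.edges_cons, List.mem_cons] at he ⊢
        rcases he with rfl | he
        · exact Or.inl rfl
        · exact Or.inr (h2 e he)
    · exact ⟨u, le_antisymm hx hge, SimpleGraph.Walk.nil, by simpa using hx, by simp⟩

lemma exists_last {a z : ℤ × ℤ} (D : Set (ℤ × ℤ)) (q : Z2.Walk a z) (hz : z ∉ D)
    (h : ∃ v ∈ q.support, v ∈ D) :
    ∃ x ∈ D, ∃ y, y ∉ D ∧ Z2.Adj x y ∧ s(x, y) ∈ q.edges ∧ x ∈ q.support ∧ ∃ q' : Z2.Walk y z,
      (∀ v ∈ q'.support, v ∉ D ∧ v ∈ q.support) ∧ ∀ e ∈ q'.edges, e ∈ q.edges := by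
  induction q with
  | nil =>
    obtain ⟨v, hv, hvD⟩ := h
    rw [SimpleGraph.Walk.support_nil, List.mem_singleton] at hv
    subst hv
    exact absurd hvD hz
  | @cons u v w huv q ih =>
    by_cases h' : ∃ v ∈ q.support, v ∈ D
    · obtain ⟨x, hx, y, hy, hxy, he, hxs, q', h1, h2⟩ := ih hz h'
      refine ⟨x, hx, y, hy, hxy, ?_, ?_, q', ?_, ?_⟩
      · rw [SimpleGraph.Walk.edges_cons]; exact List.mem_cons_of_mem _ he
      · rw [SimpleGraph.Walk.support_cons]; exact List.mem_cons_of_mem _ hxs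
      · intro b hb
        refine ⟨(h1 b hb).1, ?_⟩
        rw [SimpleGraph.Walk.support_cons]
        exact List.mem_cons_of_mem _ (h1 b hb).2
      · intro e he
        rw [SimpleGraph.Walk.edges_cons]
        exact List.mem_cons_of_mem _ (h2 e he)
    · push Not at h'
      obtain ⟨b, hb, hbD⟩ := h
      rw [SimpleGraph.Walk.support_cons, List.mem_cons] at hb
      have hu : u ∈ D := by
        rcases hb with rfl | hb
        · exact hbD
        · exact absurd hbD (h' b hb)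
      refine ⟨u, hu, v, h' v q.start_mem_support, huv, ?_, ?_, q, ?_, ?_⟩
      · rw [SimpleGraph.Walk.edges_cons]; exact List.mem_cons_self
      · exact SimpleGraph.Walk.start_mem_support _
      · intro c hc
        refine ⟨h' c hc, ?_⟩
        rw [SimpleGraph.Walk.support_cons]
        exact List.mem_cons_of_mem _ hc
      · intro e he
        rw [SimpleGraph.Walk.edges_cons]
        exact List.mem_cons_of_mem _ he

lemma conn_refl {O : Sym2 (ℤ × ℤ) → Prop} {S : Set (ℤ × ℤ)} {x : ℤ × ℤ} (h : x ∈ S) :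
    Conn O S x x := ⟨SimpleGraph.Walk.nil, by simpa using h, by simp⟩

lemma conn_snoc {O : Sym2 (ℤ × ℤ) → Prop} {S : Set (ℤ × ℤ)} {x y z : ℤ × ℤ}
    (h : Conn O S x y) (ha : Z2.Adj y z) (ho : O s(y, z)) (hz : z ∈ S) : Conn O S x z := by
  obtain ⟨q, h1, h2⟩ := h
  refine ⟨q.concat ha, ?_, ?_⟩
  · intro v hv
    rw [SimpleGraph.Walk.support_concat, List.mem_append, List.mem_singleton] at hv
    rcases hv with hv | rfl
    · exact h1 v hv
    · exact hz
  · intro e he
    rw [SimpleGraph.Walk.edges_concat, List.concat_eq_append, List.mem_append,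
      List.mem_singleton] at he
    rcases he with he | rfl
    · exact h2 e he
    · exact ho

/-- Induction along a connection. -/
lemma conn_ind {O : Sym2 (ℤ × ℤ) → Prop} {S : Set (ℤ × ℤ)} {x y : ℤ × ℤ} (h : Conn O S x y)
    (P : ℤ × ℤ → Prop) (h0 : P x)
    (hs : ∀ a b, P a → Conn O S x a → Z2.Adj a b → O s(a, b) → b ∈ S → P b) : P y := by
  obtain ⟨q, h1, h2⟩ := h
  have key : ∀ (a y : ℤ × ℤ) (q : Z2.Walk a y), Conn O S x a → P a → (∀ v ∈ q.support, v ∈ S) →
      (∀ e ∈ q.edges, O e) → P y := by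
    intro a y q
    induction q with
    | nil => intro _ h _ _; exact h
    | @cons u v w huv q ih =>
      intro hc hP hv he
      have hvS : v ∈ S := hv v (by
        rw [SimpleGraph.Walk.support_cons]
        exact List.mem_cons_of_mem _ q.start_mem_support)
      have ho : O s(u, v) := he _ (by rw [SimpleGraph.Walk.edges_cons]; exact List.mem_cons_self)
      exact ih (conn_snoc hc huv ho hvS) (hs u v hP hc huv ho hvS)
        (fun b hb => hv b (by rw [SimpleGraph.Walk.support_cons]; exact List.mem_cons_of_mem _ hb))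
        (fun e hb => he e (by rw [SimpleGraph.Walk.edges_cons]; exact List.mem_cons_of_mem _ hb))
  exact key x y q (conn_refl (h1 x q.start_mem_support)) h0 h1 h2

/-! ### The cluster of the origin in `S` -/

/-- Cluster of `0` in `S`. -/
noncomputable def cl (O : Sym2 (ℤ × ℤ) → Prop) (S : Finset (ℤ × ℤ)) : Finset (ℤ × ℤ) := by
  classical
  exact S.filter (fun x => Conn O (S : Set (ℤ × ℤ)) 0 x)

lemma mem_cl {O : Sym2 (ℤ × ℤ) → Prop} {S : Finset (ℤ × ℤ)} {x : ℤ × ℤ} :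
    x ∈ cl O S ↔ x ∈ S ∧ Conn O (S : Set (ℤ × ℤ)) 0 x := by
  classical
  simp [cl]

/-- The cluster only depends on the edges inside `S` touching it. -/
lemma cl_congr {O O' : Sym2 (ℤ × ℤ) → Prop} {S D : Finset (ℤ × ℤ)} (hD : cl O S = D)
    (h : ∀ x y, x ∈ S → y ∈ S → x ∈ D → Z2.Adj x y → (O s(x, y) ↔ O' s(x, y))) (h0 : 0 ∈ S) :
    cl O' S = D := by
  have h00 : (0 : ℤ × ℤ) ∈ D := by rw [← hD, mem_cl]; exact ⟨h0, conn_refl (by simpa using h0)⟩
  have hDS : ∀ x ∈ D, x ∈ S := by intro x hx; rw [← hD, mem_cl] at hx; exact hx.1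
  ext x
  constructor
  · intro hx
    rw [mem_cl] at hx
    refine conn_ind hx.2 (fun y => y ∈ D) h00 ?_
    intro a b ha _ hab ho hb
    have hb' : b ∈ S := by simpa using hb
    have ho' : O s(a, b) := (h a b (hDS a ha) hb' ha hab).2 ho
    rw [← hD, mem_cl] at ha ⊢
    exact ⟨hb', conn_snoc ha.2 hab ho' hb⟩
  · intro hx
    have hx' := hx
    rw [← hD, mem_cl] at hx'
    have : x ∈ D ∧ Conn O' (S : Set (ℤ × ℤ)) 0 x := by
      refine conn_ind hx'.2 (fun y => y ∈ D ∧ Conn O' (S : Set (ℤ × ℤ)) 0 y)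
        ⟨h00, conn_refl (by simpa using h0)⟩ ?_
      intro a b ha hca hab ho hb
      have hb' : b ∈ S := by simpa using hb
      refine ⟨?_, conn_snoc ha.2 hab ((h a b (hDS a ha.1) hb' ha.1 hab).1 ho) hb⟩
      rw [← hD, mem_cl]
      exact ⟨hb', conn_snoc hca hab ho hb⟩
    rw [mem_cl]
    exact ⟨hDS x hx, this.2⟩

lemma conn_congr {O O' : Sym2 (ℤ × ℤ) → Prop} {S : Set (ℤ × ℤ)} {x y : ℤ × ℤ}
    (h : ∀ a b, a ∈ S → b ∈ S → Z2.Adj a b → O s(a, b) → O' s(a, b)) (hx : x ∈ S)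
    (hc : Conn O S x y) : Conn O' S x y := by
  have : y ∈ S ∧ Conn O' S x y := by
    refine conn_ind hc (fun z => z ∈ S ∧ Conn O' S x z) ⟨hx, conn_refl hx⟩ ?_
    intro a b ha _ hab ho hb
    exact ⟨hb, conn_snoc ha.2 hab (h a b ha.1 hb hab ho) hb⟩
  exact this.2

lemma conn_start {O : Sym2 (ℤ × ℤ) → Prop} {S : Set (ℤ × ℤ)} {x y : ℤ × ℤ} (h : Conn O S x y) :
    x ∈ S := by
  obtain ⟨q, h1, _⟩ := h
  exact h1 x q.start_mem_support

/-- Decomposition of a connection from `0` to a far point. -/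
lemma decomp {O : Sym2 (ℤ × ℤ) → Prop} {S : Finset (ℤ × ℤ)} {W : Set (ℤ × ℤ)} {z : ℤ × ℤ}
    (h0 : 0 ∈ S) (hz : z ∉ S) (h : Conn O W 0 z) :
    ∃ x ∈ cl O S, ∃ y, y ∉ S ∧ Z2.Adj x y ∧ O s(x, y) ∧
      Conn O (W \ (cl O S : Set (ℤ × ℤ))) y z := by
  obtain ⟨q, h1, h2⟩ := h
  have hz' : z ∉ (cl O S : Set (ℤ × ℤ)) := by
    intro hh
    rw [Finset.mem_coe, mem_cl] at hh
    exact hz hh.1
  have h0' : (0 : ℤ × ℤ) ∈ (cl O S : Set (ℤ × ℤ)) := by
    rw [Finset.mem_coe, mem_cl]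
    exact ⟨h0, conn_refl (by simpa using h0)⟩
  obtain ⟨x, hx, y, hy, hxy, he, _, q', h3, h4⟩ :=
    exists_last (cl O S : Set (ℤ × ℤ)) q hz' ⟨0, q.start_mem_support, h0'⟩
  have ho : O s(x, y) := h2 _ he
  refine ⟨x, by simpa using hx, y, ?_, hxy, ho, q', ?_, fun e he' => h2 e (h4 e he')⟩
  · intro hyS
    apply hy
    rw [Finset.mem_coe, mem_cl] at hx ⊢
    exact ⟨hyS, conn_snoc hx.2 hxy ho (by simpa using hyS)⟩
  · intro v hv
    exact ⟨h1 v (h3 v hv).2, (h3 v hv).1⟩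

lemma mem_edgesIn' {R : ℕ} {a b : ℤ × ℤ} :
    s(a, b) ∈ edgesIn R ↔ a ∈ box R ∧ b ∈ box R ∧ Z2.Adj a b := by
  classical
  simp only [edgesIn, mem_filter, Finset.mk_mem_sym2_iff, SimpleGraph.mem_edgeSet]
  tauto

lemma sum_Pr_le {ι V κ : Type*} [Fintype ι] [DecidableEq ι] [Fintype V] {p : V → ℝ}
    (hp : IsProb p) (s : Finset κ) (E : κ → (ι → V) → Prop) (F : (ι → V) → Prop)
    (h : ∀ ω, ∀ k ∈ s, E k ω → F ω)
    (hu : ∀ ω, ∀ k ∈ s, ∀ k' ∈ s, E k ω → E k' ω → k = k') :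
    ∑ k ∈ s, Pr p (E k) ≤ Pr p F := by
  classical
  simp only [PeierlsAux.Pr_eq]
  rw [Finset.sum_comm]
  refine Finset.sum_le_sum fun ω _ => ?_
  rw [← Finset.mul_sum]
  refine mul_le_mul_of_nonneg_left ?_ (PeierlsAux.prod_nonneg' hp ω)
  by_cases hk : ∃ k ∈ s, E k ω
  · obtain ⟨k, hks, hk⟩ := hk
    rw [if_pos (h ω k hks hk), Finset.sum_eq_single k]
    · rw [if_pos hk]
    · intro k' hk' hne
      rw [if_neg]
      intro hE
      exact hne (hu ω k' hk' k hks hE hk)
    · intro hh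
      exact absurd hks hh
  · push Not at hk
    rw [Finset.sum_eq_zero]
    · split_ifs <;> norm_num
    · intro k hks
      rw [if_neg (hk k hks)]

/-- Translation by `-y`. -/
def shf (y : ℤ × ℤ) : Z2 →g Z2 where
  toFun v := v - y
  map_rel' := by
    intro a b h
    simp only [Z2, Prod.fst_sub, Prod.snd_sub] at h ⊢
    omega

lemma N_sub {n m : ℕ} {y z : ℤ × ℤ} (hy : N y + m ≤ n) (hz : N z = n) : m ≤ N (z - y) := by
  obtain ⟨a, b⟩ := y
  obtain ⟨c, d⟩ := z
  simp only [N, Prod.mk_sub_mk] at *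
  omega

lemma N_add {n m : ℕ} {y a : ℤ × ℤ} (hy : N y + m ≤ n) (ha : N a ≤ m) : N (a + y) ≤ n := by
  obtain ⟨y1, y2⟩ := y
  obtain ⟨a1, a2⟩ := a
  simp only [N, Prod.mk_add_mk] at *
  omega

lemma adj_add {a b : ℤ × ℤ} (y : ℤ × ℤ) (h : Z2.Adj a b) : Z2.Adj (a + y) (b + y) := by
  obtain ⟨y1, y2⟩ := y
  obtain ⟨a1, a2⟩ := a
  obtain ⟨b1, b2⟩ := b
  simp only [Z2, Prod.mk_add_mk] at *
  omega

lemma map_edges_mem {n m : ℕ} {y : ℤ × ℤ} (hy : N y + m ≤ n) :
    ∀ e ∈ edgesIn m, Sym2.map (fun v : ℤ × ℤ => v + y) e ∈ edgesIn n := by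
  intro e
  induction e using Sym2.ind with
  | _ a b =>
    rw [Sym2.map_mk, mem_edgesIn', mem_edgesIn', mem_box, mem_box, mem_box, mem_box]
    rintro ⟨h1, h2, h3⟩
    exact ⟨N_add hy h1, N_add hy h2, adj_add y h3⟩

lemma id_edges_mem {L n : ℕ} (h : L ≤ n) : ∀ e ∈ edgesIn L, id e ∈ edgesIn n := by
  intro e
  induction e using Sym2.ind with
  | _ a b =>
    rw [id, mem_edgesIn', mem_edgesIn', mem_box, mem_box, mem_box, mem_box]
    rintro ⟨e1, e2, e3⟩
    exact ⟨e1.trans h, e2.trans h, e3⟩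

lemma cl_law {t : ℝ} {L n : ℕ} (hn : L ≤ n) {S : Finset (ℤ × ℤ)} (hS : S ⊆ box L)
    (h0 : (0 : ℤ × ℤ) ∈ S) {x : ℤ × ℤ} (hx : x ∈ S) :
    Pr (bern t) (fun ω : EIdx n → Bool => x ∈ cl (opn ω) S) =
      Pr (bern t) (fun ω : EIdx L → Bool => Conn (opn ω) (S : Set (ℤ × ℤ)) 0 x) := by
  have law := law_map (n := L) (m := n) (t := t) id (Function.injective_id.injOn)
    (id_edges_mem hn) (fun O => Conn O (S : Set (ℤ × ℤ)) 0 x)
  rw [← law]
  congr 1
  funext ω
  apply propext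
  rw [mem_cl]
  constructor
  · rintro ⟨_, hc⟩
    refine conn_congr ?_ (by simpa using h0) hc
    intro a b ha hb hab ho
    exact ⟨mem_edgesIn'.2 ⟨hS (by simpa using ha), hS (by simpa using hb), hab⟩, ho⟩
  · intro hc
    refine ⟨hx, conn_congr ?_ (by simpa using h0) hc⟩
    rintro a b _ _ _ ⟨_, ho⟩
    exact ho

lemma transl {t : ℝ} (ht0 : 0 ≤ t) (ht1 : t ≤ 1) {n m : ℕ} {y : ℤ × ℤ} (hy : N y + m ≤ n) :
    Pr (bern t) (fun ω : EIdx n → Bool => ∃ z, OnSph n z ∧
      Conn (opn ω) (box n : Set (ℤ × ℤ)) y z) ≤ arm1 t m := by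
  have hinj : Set.InjOn (Sym2.map (fun v : ℤ × ℤ => v + y))
      (edgesIn m : Set (Sym2 (ℤ × ℤ))) :=
    (Sym2.map.injective (add_left_injective y)).injOn
  have hmaps := map_edges_mem hy
  have law := law_map (t := t) _ hinj hmaps
    (fun O => ∃ z, OnSph m z ∧ Conn O (box m : Set (ℤ × ℤ)) 0 z)
  unfold arm1
  rw [← law]
  apply PeierlsAux.Pr_mono (isProb_bern ht0 ht1)
  rintro ω ⟨z, hz, q, h1, h2⟩
  have h0 : N (y - y) ≤ m := by simp [N]
  obtain ⟨z', hz', q', h3, h4⟩ := exists_pre (q.map (shf y)) m h0 (N_sub hy hz)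
  refine ⟨z', hz', ?_⟩
  have hyy : shf y y = 0 := by simp [shf]
  rw [← hyy]
  refine ⟨q', fun v hv => by simpa [mem_box] using h3 v hv, ?_⟩
  intro e he
  have he' := h4 e he
  rw [SimpleGraph.Walk.edges_map, List.mem_map] at he'
  obtain ⟨e₀, he₀, rfl⟩ := he'
  constructor
  · induction e₀ using Sym2.ind with
    | _ a b =>
      rw [Sym2.map_mk] at he ⊢
      rw [mem_edgesIn', mem_box, mem_box]
      exact ⟨h3 _ (q'.fst_mem_support_of_mem_edges he), h3 _ (q'.snd_mem_support_of_mem_edges he),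
        q'.adj_of_mem_edges he⟩
  · have : Sym2.map (fun v => v + y) (Sym2.map (shf y) e₀) = e₀ := by
      rw [Sym2.map_map]
      have : (fun v => v + y) ∘ (shf y) = id := by
        funext v
        simp [shf]
      rw [this, Sym2.map_id, id]
    rw [this]
    exact h2 e₀ he₀

/-- The one-step inequality. -/
lemma step {t : ℝ} (ht0 : 0 ≤ t) (ht1 : t ≤ 1) {L : ℕ} {S : Finset (ℤ × ℤ)}
    (hS : S ⊆ box L) (h0 : (0 : ℤ × ℤ) ∈ S) {n : ℕ} (hn : L + 1 ≤ n) :
    arm1 t n ≤ phi t L S * arm1 t (n - (L + 1)) := by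
  classical
  have hp := isProb_bern ht0 ht1
  have hSn : ∀ x ∈ S, x ∈ box n := by
    intro x hx
    have := hS hx
    rw [mem_box] at this ⊢
    omega
  set M := arm1 t (n - (L + 1)) with hM
  -- first decomposition
  have h1 : arm1 t n ≤ ∑ x ∈ S, ∑ y ∈ (PeierlsAux.nb x).filter (fun y => y ∉ S),
      Pr (bern t) (fun ω : EIdx n → Bool => x ∈ cl (opn ω) S ∧ opn ω s(x, y) ∧ ∃ z, OnSph n z ∧
        Conn (opn ω) ((box n : Set (ℤ × ℤ)) \ (cl (opn ω) S : Set (ℤ × ℤ))) y z) := by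
    calc arm1 t n ≤ Pr (bern t) (fun ω : EIdx n → Bool => ∃ x ∈ S,
          ∃ y ∈ (PeierlsAux.nb x).filter (fun y => y ∉ S), x ∈ cl (opn ω) S ∧ opn ω s(x, y) ∧
          ∃ z, OnSph n z ∧
            Conn (opn ω) ((box n : Set (ℤ × ℤ)) \ (cl (opn ω) S : Set (ℤ × ℤ))) y z) := by
          unfold arm1
          apply PeierlsAux.Pr_mono hp
          rintro ω ⟨z, hz, hc⟩
          have hzS : z ∉ S := by
            intro hh
            have := hS hh
            rw [mem_box] at this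
            have hz' : N z = n := hz
            omega
          obtain ⟨x, hx, y, hy, hxy, ho, hc'⟩ := decomp h0 hzS hc
          exact ⟨x, (mem_cl.1 hx).1, y, by
            rw [Finset.mem_filter]; exact ⟨PeierlsAux.mem_nb hxy, hy⟩, hx, ho, z, hz, hc'⟩
      _ ≤ ∑ x ∈ S, Pr (bern t) (fun ω : EIdx n → Bool =>
          ∃ y ∈ (PeierlsAux.nb x).filter (fun y => y ∉ S), x ∈ cl (opn ω) S ∧ opn ω s(x, y) ∧
          ∃ z, OnSph n z ∧
            Conn (opn ω) ((box n : Set (ℤ × ℤ)) \ (cl (opn ω) S : Set (ℤ × ℤ))) y z) :=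
          PeierlsAux.Pr_exists_le hp S _
      _ ≤ _ := Finset.sum_le_sum fun x _ => PeierlsAux.Pr_exists_le hp _ _
  -- one term
  have h2 : ∀ x ∈ S, ∀ y ∈ (PeierlsAux.nb x).filter (fun y => y ∉ S),
      Pr (bern t) (fun ω : EIdx n → Bool => x ∈ cl (opn ω) S ∧ opn ω s(x, y) ∧ ∃ z, OnSph n z ∧
        Conn (opn ω) ((box n : Set (ℤ × ℤ)) \ (cl (opn ω) S : Set (ℤ × ℤ))) y z) ≤
      t * Pr (bern t) (fun ω : EIdx L → Bool => Conn (opn ω) (S : Set (ℤ × ℤ)) 0 x) * M := by
    intro x hx y hy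
    rw [Finset.mem_filter] at hy
    obtain ⟨hxy, hyS⟩ := hy
    have hadj : Z2.Adj x y := by
      obtain ⟨a, b⟩ := x
      obtain ⟨c, d⟩ := y
      simp only [PeierlsAux.nb, Finset.mem_insert, Finset.mem_singleton, Prod.mk.injEq] at hxy
      simp only [Z2]
      omega
    have hyn : N y ≤ L + 1 := by
      have e1 := N_adj hadj
      have e2 := hS hx
      rw [mem_box] at e2
      omega
    have hxye : s(x, y) ∈ edgesIn n := by
      rw [mem_edgesIn']
      refine ⟨hSn x hx, ?_, hadj⟩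
      rw [mem_box]; omega
    have hopen : Pr (bern t) (fun ω : EIdx n → Bool => opn ω s(x, y)) = t := by
      have : (fun ω : EIdx n → Bool => opn ω s(x, y)) =
          fun ω : EIdx n → Bool => ω ⟨s(x, y), hxye⟩ = true := by
        funext ω
        apply propext
        exact ⟨fun ⟨_, h⟩ => h, fun h => ⟨hxye, h⟩⟩
      rw [this]
      exact Pr_coord ht0 ht1 _
    have hfar : ∀ D : Finset (ℤ × ℤ), Pr (bern t) (fun ω : EIdx n → Bool => ∃ z, OnSph n z ∧
        Conn (opn ω) ((box n : Set (ℤ × ℤ)) \ (D : Set (ℤ × ℤ))) y z) ≤ M := by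
      intro D
      refine (PeierlsAux.Pr_mono hp ?_).trans (transl ht0 ht1 (n := n) (m := n - (L + 1)) (y := y) (by omega))
      rintro ω ⟨z, hz, q, e1, e2⟩
      exact ⟨z, hz, q, fun v hv => (e1 v hv).1, e2⟩
    have hM0 : 0 ≤ M := Pr_nonneg' hp _
    calc Pr (bern t) (fun ω : EIdx n → Bool => x ∈ cl (opn ω) S ∧ opn ω s(x, y) ∧
          ∃ z, OnSph n z ∧
          Conn (opn ω) ((box n : Set (ℤ × ℤ)) \ (cl (opn ω) S : Set (ℤ × ℤ))) y z)
        ≤ Pr (bern t) (fun ω : EIdx n → Bool => ∃ D ∈ S.powerset.filter (fun D => x ∈ D),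
          (cl (opn ω) S = D ∧ (opn ω s(x, y) ∧ ∃ z, OnSph n z ∧
          Conn (opn ω) ((box n : Set (ℤ × ℤ)) \ (D : Set (ℤ × ℤ))) y z))) := by
          apply PeierlsAux.Pr_mono hp
          rintro ω ⟨hx1, ho, hz⟩
          refine ⟨cl (opn ω) S, ?_, rfl, ho, hz⟩
          rw [Finset.mem_filter, Finset.mem_powerset]
          exact ⟨fun v hv => (mem_cl.1 hv).1, hx1⟩
      _ ≤ ∑ D ∈ S.powerset.filter (fun D => x ∈ D), Pr (bern t) (fun ω : EIdx n → Bool =>
          (cl (opn ω) S = D ∧ (opn ω s(x, y) ∧ ∃ z, OnSph n z ∧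
          Conn (opn ω) ((box n : Set (ℤ × ℤ)) \ (D : Set (ℤ × ℤ))) y z))) :=
          PeierlsAux.Pr_exists_le hp _ _
      _ ≤ ∑ D ∈ S.powerset.filter (fun D => x ∈ D),
          Pr (bern t) (fun ω : EIdx n → Bool => cl (opn ω) S = D) * (t * M) := by
          refine Finset.sum_le_sum fun D hD => ?_
          rw [Finset.mem_filter, Finset.mem_powerset] at hD
          obtain ⟨hDS, hxD⟩ := hD
          rw [Pr_indep hp (fun i : EIdx n => ∃ a b, i.1 = s(a, b) ∧ a ∈ S ∧ b ∈ S ∧ a ∈ D)]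
          · refine mul_le_mul_of_nonneg_left ?_ (Pr_nonneg' hp _)
            rw [Pr_indep hp (fun i : EIdx n => i.1 = s(x, y))]
            · rw [hopen]
              exact mul_le_mul_of_nonneg_left (hfar D) ht0
            · rintro ω ω' h ⟨_, ho⟩
              refine ⟨hxye, ?_⟩
              rw [← h ⟨s(x, y), hxye⟩ rfl]
              exact ho
            · rintro ω ω' h ⟨z, hz, hc⟩
              refine ⟨z, hz, conn_congr ?_ (conn_start hc) hc⟩
              rintro a b ha hb _ ⟨he, ho⟩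
              refine ⟨he, ?_⟩
              rw [← h ⟨s(a, b), he⟩ ?_]
              · exact ho
              · intro heq
                simp only [Sym2.eq_iff] at heq
                rcases heq with ⟨rfl, _⟩ | ⟨_, rfl⟩
                · exact ha.2 (by simpa using hxD)
                · exact hb.2 (by simpa using hxD)
          · intro ω ω' h hcl
            refine cl_congr hcl ?_ h0
            intro a b ha hb haD hab
            have he : s(a, b) ∈ edgesIn n := mem_edgesIn'.2 ⟨hSn a ha, hSn b hb, hab⟩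
            have hi := h ⟨s(a, b), he⟩ ⟨a, b, rfl, ha, hb, haD⟩
            constructor
            · rintro ⟨_, ho⟩
              exact ⟨he, by rw [← hi]; exact ho⟩
            · rintro ⟨_, ho⟩
              exact ⟨he, by rw [hi]; exact ho⟩
          · rintro ω ω' h ⟨⟨_, ho⟩, z, hz, hc⟩
            refine ⟨⟨hxye, ?_⟩, z, hz, conn_congr ?_ (conn_start hc) hc⟩
            · rw [← h ⟨s(x, y), hxye⟩ ?_]
              · exact ho
              · rintro ⟨a, b, heq, ha, hb, _⟩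
                simp only [Sym2.eq_iff] at heq
                rcases heq with ⟨_, rfl⟩ | ⟨_, rfl⟩
                · exact hyS hb
                · exact hyS ha
            · rintro a b ha hb _ ⟨he, ho⟩
              refine ⟨he, ?_⟩
              rw [← h ⟨s(a, b), he⟩ ?_]
              · exact ho
              · rintro ⟨a', b', heq, _, _, haD⟩
                simp only [Sym2.eq_iff] at heq
                rcases heq with ⟨rfl, _⟩ | ⟨_, rfl⟩
                · exact ha.2 (by simpa using haD)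
                · exact hb.2 (by simpa using haD)
      _ = (∑ D ∈ S.powerset.filter (fun D => x ∈ D),
          Pr (bern t) (fun ω : EIdx n → Bool => cl (opn ω) S = D)) * (t * M) := by
          rw [Finset.sum_mul]
      _ ≤ Pr (bern t) (fun ω : EIdx n → Bool => x ∈ cl (opn ω) S) * (t * M) := by
          refine mul_le_mul_of_nonneg_right ?_ (mul_nonneg ht0 hM0)
          apply sum_Pr_le hp
          · rintro ω D hD rfl
            rw [Finset.mem_filter] at hD
            exact hD.2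
          · rintro ω D _ D' _ h h'
            rw [← h, ← h']
      _ = Pr (bern t) (fun ω : EIdx L → Bool => Conn (opn ω) (S : Set (ℤ × ℤ)) 0 x) * (t * M) := by
          rw [cl_law (by omega) hS h0 hx]
      _ = _ := by ring
  refine h1.trans ((Finset.sum_le_sum fun x hx => Finset.sum_le_sum fun y hy => h2 x hx y hy).trans
    (le_of_eq ?_))
  unfold phi
  rw [Finset.mul_sum, Finset.sum_mul]
  refine Finset.sum_congr rfl fun x _ => ?_
  rw [Finset.sum_const, nsmul_eq_mul]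
  have : (((PeierlsAux.nb x).filter (fun y => y ∉ S)).card : ℝ) = outDeg S x := by
    unfold outDeg PeierlsAux.nb
    congr!
  rw [this]
  ring

end PhiDecayAux

open PhiDecayAux in
theorem phi_decay {t : ℝ} (ht0 : 0 ≤ t) (ht1 : t ≤ 1) {L : ℕ} {S : Finset (ℤ × ℤ)}
    (hS : S ⊆ box L) (h0 : (0 : ℤ × ℤ) ∈ S) (hφ : phi t L S < 1) :
    ∃ C ρ : ℝ, 0 < C ∧ 0 ≤ ρ ∧ ρ < 1 ∧ ∀ n : ℕ, arm1 t n ≤ C * ρ ^ n := by
  have hp := isProb_bern ht0 ht1
  set φ := max (phi t L S) (1 / 2) with hφ'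
  have hφ0 : 0 < φ := lt_of_lt_of_le (by norm_num) (le_max_right _ _)
  have hφ1 : φ < 1 := max_lt hφ (by norm_num)
  have hstep : ∀ n, L + 1 ≤ n → arm1 t n ≤ φ * arm1 t (n - (L + 1)) := fun n hn =>
    (step ht0 ht1 hS h0 hn).trans (mul_le_mul_of_nonneg_right (le_max_left _ _) (Pr_nonneg' hp _))
  have hit : ∀ k r : ℕ, arm1 t (k * (L + 1) + r) ≤ φ ^ k := by
    intro k
    induction k with
    | zero => intro r; rw [pow_zero]; exact Pr_le_one' hp _
    | succ k ih =>
      intro r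
      have h1 := hstep ((k + 1) * (L + 1) + r) (by nlinarith)
      have h2 : (k + 1) * (L + 1) + r - (L + 1) = k * (L + 1) + r := by
        have : (k + 1) * (L + 1) = k * (L + 1) + (L + 1) := by ring
        omega
      rw [h2] at h1
      calc _ ≤ φ * arm1 t (k * (L + 1) + r) := h1
        _ ≤ φ * φ ^ k := mul_le_mul_of_nonneg_left (ih r) hφ0.le
        _ = φ ^ (k + 1) := by ring
  have hL : (0 : ℝ) < (L + 1 : ℝ) := by positivity
  refine ⟨φ⁻¹, φ ^ (1 / (L + 1 : ℝ)), inv_pos.2 hφ0, Real.rpow_nonneg hφ0.le _,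
    Real.rpow_lt_one hφ0.le hφ1 (by positivity), ?_⟩
  intro n
  have h1 := hit (n / (L + 1)) (n % (L + 1))
  have h2 : n / (L + 1) * (L + 1) + n % (L + 1) = n := Nat.div_add_mod' n (L + 1)
  rw [h2] at h1
  refine h1.trans ?_
  rw [← Real.rpow_natCast (φ ^ (1 / (L + 1 : ℝ))), ← Real.rpow_mul hφ0.le,
    ← Real.rpow_natCast φ, ← Real.rpow_neg_one φ, ← Real.rpow_add hφ0]
  apply Real.rpow_le_rpow_of_exponent_ge hφ0 hφ1.le
  have h3 : (n : ℝ) < ((n / (L + 1) : ℕ) + 1 : ℝ) * (L + 1) := by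
    have := Nat.lt_div_mul_add (a := n) (b := L + 1) (by omega)
    have h4 : n < (n / (L + 1) + 1) * (L + 1) := by nlinarith
    exact_mod_cast h4
  have h5 : 1 / (L + 1 : ℝ) * n < ((n / (L + 1) : ℕ) : ℝ) + 1 := by
    rw [one_div, inv_mul_lt_iff₀ hL]
    linarith
  linarith

end Pool.Agent.Helper33_FPP
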