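import Pool.Agent.Helper33_FPP.Perc
import Pool.Agent.Helper33_FPP.Conc

/-!
# Module PA1b: if `φ_{t₁}(S) ≥ 1` for all finite `S ∋ 0`, `t₁ < 1/2`, then the one-arm
probabilities at `1/2` are bounded below (Duminil-Copin and Tassion).
-/

set_option autoImplicit false

namespace Pool.Agent.Helper33_FPP

open Finset ConcAux

namespace TL

section Gen

variable {ι V : Type*} [Fintype ι] [DecidableEq ι] [Fintype V]

lemma Pr_eq (p : V → ℝ) (E : (ι → V) → Prop) [DecidablePred E] :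
    Pr p E = ∑ ω : ι → V, (∏ i, p (ω i)) * (if E ω then 1 else 0) := by
  unfold Pr Ex
  refine Finset.sum_congr rfl fun ω _ => ?_
  congr 1
  by_cases h : E ω <;> simp [h]

lemma Pr_Ex (p : V → ℝ) (E : (ι → V) → Prop) [DecidablePred E] :
    Pr p E = Ex p (fun ω => if E ω then 1 else 0) := Pr_eq p E

lemma bern_nonneg {t : ℝ} (h0 : 0 ≤ t) (h1 : t ≤ 1) (b : Bool) : 0 ≤ bern t b := by
  unfold bern
  cases b <;> simp <;> linarith

lemma isProb_bern {t : ℝ} (h0 : 0 ≤ t) (h1 : t ≤ 1) : IsProb (bern t) :=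
  ⟨bern_nonneg h0 h1, by simp [bern]⟩

/-- Events depending on disjoint sets of coordinates are independent. -/
lemma Pr_indep {p : V → ℝ} (hp : IsProb p) (I : ι → Prop) (E F : (ι → V) → Prop)
    (hE : ∀ ω ω' : ι → V, (∀ i, I i → ω i = ω' i) → E ω → E ω')
    (hF : ∀ ω ω' : ι → V, (∀ i, ¬ I i → ω i = ω' i) → F ω → F ω') :
    Pr p (fun ω => E ω ∧ F ω) = Pr p E * Pr p F := by
  classical
  let sw : (ι → V) × (ι → V) → (ι → V) × (ι → V) := fun z =>
    (fun i => if I i then z.1 i else z.2 i, fun i => if I i then z.2 i else z.1 i)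
  have hsw : Function.Involutive sw := by
    intro z
    simp only [sw]
    ext i
    · by_cases h : I i <;> simp [h]
    · by_cases h : I i <;> simp [h]
  have h1 : Pr p E * Pr p F = ∑ z : (ι → V) × (ι → V),
      ((∏ i, p (z.1 i)) * (∏ i, p (z.2 i))) * (if E z.1 ∧ F z.2 then 1 else 0) := by
    rw [Pr_eq, Pr_eq, Fintype.sum_mul_sum, Fintype.sum_prod_type]
    refine Finset.sum_congr rfl fun ω _ => Finset.sum_congr rfl fun ω' _ => ?_
    by_cases h : E ω <;> by_cases h' : F ω' <;> simp [h, h']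
  have h2 : Pr p (fun ω => E ω ∧ F ω) = ∑ z : (ι → V) × (ι → V),
      ((∏ i, p (z.1 i)) * (∏ i, p (z.2 i))) * (if E z.1 ∧ F z.1 then 1 else 0) := by
    rw [Pr_eq, Fintype.sum_prod_type]
    refine Finset.sum_congr rfl fun ω _ => ?_
    have : ∀ ω' : ι → V, ((∏ i, p (ω i)) * (∏ i, p (ω' i))) * (if E ω ∧ F ω then (1 : ℝ) else 0) =
        ((∏ i, p (ω i)) * (if E ω ∧ F ω then 1 else 0)) * (∏ i, p (ω' i)) := by
      intro ω'; ring
    simp only [this]
    rw [← Finset.mul_sum]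
    have h3 : ∑ ω' : ι → V, ∏ i, p (ω' i) = 1 := by
      have := Ex_one (ι := ι) hp
      unfold Ex at this
      simpa using this
    rw [h3, mul_one]
  rw [h1, h2]
  refine Fintype.sum_equiv hsw.toPerm _ _ fun z => ?_
  change _ = ((∏ i, p ((sw z).1 i)) * (∏ i, p ((sw z).2 i))) *
    (if E (sw z).1 ∧ F (sw z).2 then 1 else 0)
  have e1 : E (sw z).1 ↔ E z.1 := by
    constructor
    · refine hE _ _ fun i hi => ?_
      simp [sw, hi]
    · refine hE _ _ fun i hi => ?_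
      simp [sw, hi]
  have e2 : F (sw z).2 ↔ F z.1 := by
    constructor
    · refine hF _ _ fun i hi => ?_
      simp [sw, hi]
    · refine hF _ _ fun i hi => ?_
      simp [sw, hi]
  have e3 : (∏ i, p ((sw z).1 i)) * (∏ i, p ((sw z).2 i)) =
      (∏ i, p (z.1 i)) * (∏ i, p (z.2 i)) := by
    rw [← Finset.prod_mul_distrib, ← Finset.prod_mul_distrib]
    refine Finset.prod_congr rfl fun i _ => ?_
    by_cases h : I i
    · simp [sw, h]
    · simp [sw, h, mul_comm]
  rw [e3]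
  simp only [e1, e2]

lemma Pr_nonneg {p : V → ℝ} (hp : ∀ v, 0 ≤ p v) (E : (ι → V) → Prop) : 0 ≤ Pr p E := by
  classical
  rw [Pr_eq]
  refine Finset.sum_nonneg fun ω _ => mul_nonneg (Finset.prod_nonneg fun i _ => hp _) ?_
  split_ifs <;> norm_num

lemma Pr_le_one {p : V → ℝ} (hp : IsProb p) (E : (ι → V) → Prop) : Pr p E ≤ 1 := by
  classical
  have h := Ex_one (ι := ι) hp
  rw [← h]
  unfold Pr
  refine Ex_mono hp.nonneg fun ω => ?_
  split_ifs <;> norm_num

lemma Pr_not {p : V → ℝ} (hp : IsProb p) (E : (ι → V) → Prop) :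
    Pr p (fun ω => ¬ E ω) = 1 - Pr p E := by
  classical
  have h := Ex_one (ι := ι) hp
  rw [← h]
  unfold Pr
  rw [← Ex_sub]
  congr 1
  funext ω
  by_cases h : E ω <;> simp [h]

end Gen

section Deriv

variable {ι : Type*} [Fintype ι] [DecidableEq ι]

/-- The event that `i` is closed and pivotal. -/
def Piv (E : (ι → Bool) → Prop) (i : ι) (ω : ι → Bool) : Prop :=
  ω i = false ∧ ¬ E ω ∧ E (Function.update ω i true)

def flip (i : ι) (ω : ι → Bool) : ι → Bool := Function.update ω i (!(ω i))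

omit [Fintype ι] in
lemma flip_inv (i : ι) : Function.Involutive (flip (ι := ι) i) := by
  intro ω
  unfold flip
  simp

lemma hasDerivAt_bern (b : Bool) (t : ℝ) :
    HasDerivAt (fun t => bern t b) (if b then 1 else -1) t := by
  cases b
  · simp only [bern, Bool.false_eq_true, if_false]
    simpa using (hasDerivAt_id t).const_sub 1
  · simp only [bern, if_true]
    exact hasDerivAt_id t

/-- Russo's formula. -/
lemma russo {E : (ι → Bool) → Prop}
    (hE : ∀ ω ω' : ι → Bool, (∀ i, ω i = true → ω' i = true) → E ω → E ω') {t : ℝ} (ht : t ≠ 1) :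
    HasDerivAt (fun t => Pr (bern t) E) ((1 - t)⁻¹ * ∑ i, Pr (bern t) (Piv E i)) t := by
  classical
  have h1 : (fun t => Pr (bern t) E) = fun t => ∑ ω : ι → Bool, (∏ i, bern t (ω i)) *
      (if E ω then 1 else 0) := by
    funext t
    exact Pr_eq _ _
  rw [h1]
  have h2 : HasDerivAt (fun t => ∑ ω : ι → Bool, (∏ i, bern t (ω i)) * (if E ω then (1 : ℝ) else 0))
      (∑ ω : ι → Bool, (∑ i, (∏ j ∈ univ.erase i, bern t (ω j)) * (if ω i then 1 else -1)) *
        (if E ω then (1 : ℝ) else 0)) t := by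
    refine HasDerivAt.fun_sum fun ω _ => ?_
    refine HasDerivAt.mul_const ?_ _
    have := HasDerivAt.fun_finsetProd (u := (univ : Finset ι)) (x := t)
      (f := fun i t => bern t (ω i)) (f' := fun i => if ω i then 1 else -1)
      (fun i _ => hasDerivAt_bern (ω i) t)
    simpa [smul_eq_mul] using this
  convert h2 using 1
  -- interchange
  have h3 : (∑ ω : ι → Bool, (∑ i, (∏ j ∈ univ.erase i, bern t (ω j)) * (if ω i then (1:ℝ) else -1)) *
        (if E ω then (1 : ℝ) else 0)) = ∑ i, ∑ ω : ι → Bool,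
        (∏ j ∈ univ.erase i, bern t (ω j)) * (if ω i then (1:ℝ) else -1) *
        (if E ω then (1 : ℝ) else 0) := by
    simp_rw [Finset.sum_mul]
    rw [Finset.sum_comm]
  rw [h3, Finset.mul_sum]
  refine Finset.sum_congr rfl fun i _ => ?_
  have h4 : ∀ G : (ι → Bool) → ℝ, ∑ ω : ι → Bool, G ω =
      ∑ ω : ι → Bool, (if ω i = false then G ω + G (Function.update ω i true) else 0) := by
    intro G
    have h5 : ∑ ω : ι → Bool, G ω = ∑ ω : ι → Bool, (if ω i = false then G ω else 0) +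
        ∑ ω : ι → Bool, (if ω i = true then G ω else 0) := by
      rw [← Finset.sum_add_distrib]
      refine Finset.sum_congr rfl fun ω _ => ?_
      cases h : ω i <;> simp
    have h6 : ∑ ω : ι → Bool, (if ω i = true then G ω else 0) =
        ∑ ω : ι → Bool, (if ω i = false then G (Function.update ω i true) else 0) := by
      refine Fintype.sum_equiv (flip_inv i).toPerm _ _ fun ω => ?_
      change _ = if (flip i ω) i = false then G (Function.update (flip i ω) i true) else 0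
      cases h : ω i
      · simp [flip, h]
      · simp only [flip, Function.update_self, h, Bool.not_true, if_true, Function.update_idem]
        congr 1
        rw [← h, Function.update_eq_self]
    rw [h5, h6, ← Finset.sum_add_distrib]
    refine Finset.sum_congr rfl fun ω _ => ?_
    split_ifs <;> simp
  rw [h4, Pr_eq, Finset.mul_sum]
  refine Finset.sum_congr rfl fun ω _ => ?_
  by_cases hi : ω i = false
  · have hQ : ∏ j ∈ univ.erase i, bern t (Function.update ω i true j) =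
        ∏ j ∈ univ.erase i, bern t (ω j) := by
      refine Finset.prod_congr rfl fun j hj => ?_
      rw [Function.update_of_ne (Finset.ne_of_mem_erase hj)]
    have hP : ∏ j, bern t (ω j) = (1 - t) * ∏ j ∈ univ.erase i, bern t (ω j) := by
      rw [← Finset.mul_prod_erase univ _ (Finset.mem_univ i), hi]
      simp [bern]
    have ht' : 1 - t ≠ 0 := sub_ne_zero.mpr (Ne.symm ht)
    rw [hQ, hP]
    simp only [hi, if_true, Function.update_self, Bool.false_eq_true, if_false]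
    have hmono : E ω → E (Function.update ω i true) := hE _ _ fun j hj => by
      by_cases hji : j = i
      · subst hji; simp
      · rw [Function.update_of_ne hji]; exact hj
    by_cases h1 : E ω
    · have h2 := hmono h1
      simp [Piv, h1, h2]
    · by_cases h2 : E (Function.update ω i true)
      · simp only [Piv, h1, h2, hi, not_false_iff, and_self, if_true, if_false]
        field_simp
        ring
      · simp [Piv, h1, h2]
  · simp [Piv, hi]

lemma Pr_bern_mono {t t' : ℝ} (h0 : 0 ≤ t) (h : t ≤ t')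
    (h1 : t' < 1) {E : (ι → Bool) → Prop}
    (hE : ∀ ω ω' : ι → Bool, (∀ i, ω i = true → ω' i = true) → E ω → E ω') :
    Pr (bern t) E ≤ Pr (bern t') E := by
  have : MonotoneOn (fun t => Pr (bern t) E) (Set.Icc 0 t') := by
    refine monotoneOn_of_hasDerivWithinAt_nonneg (f' := fun t => (1 - t)⁻¹ * ∑ i, Pr (bern t) (Piv E i))
      (convex_Icc 0 t') ?_ ?_ ?_
    · intro x hx
      exact (russo hE (by linarith [hx.2] : x ≠ 1)).continuousAt.continuousWithinAt
    · intro x hx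
      rw [interior_Icc] at hx
      exact (russo hE (by linarith [hx.2] : x ≠ 1)).hasDerivWithinAt
    · intro x hx
      rw [interior_Icc] at hx
      refine mul_nonneg (inv_nonneg.mpr (by linarith [hx.2])) (Finset.sum_nonneg fun i _ => ?_)
      exact Pr_nonneg (bern_nonneg hx.1.le (by linarith [hx.2])) _
  exact this ⟨h0, h⟩ ⟨h0.trans h, le_refl _⟩ h

end Deriv


section Sph

variable {n : ℕ}

/-- `x` is joined to the sphere of radius `n`. -/
def W (n : ℕ) (ω : EIdx n → Bool) (x : ℤ × ℤ) : Prop :=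
  ∃ y, OnSph n y ∧ Conn (opn ω) (box n : Set (ℤ × ℤ)) x y

lemma mem_box {n : ℕ} {x : ℤ × ℤ} : x ∈ box n ↔ x.1.natAbs ≤ n ∧ x.2.natAbs ≤ n := by
  simp only [box, Finset.mem_product, Finset.mem_Icc]
  omega

lemma mem_box_of_onSph {y : ℤ × ℤ} (h : OnSph n y) : y ∈ box n := by
  unfold OnSph at h
  rw [mem_box]
  omega

lemma W_sph {ω : EIdx n → Bool} {y : ℤ × ℤ} (h : OnSph n y) : W n ω y :=
  ⟨y, h, .nil, by simpa using mem_box_of_onSph h, by simp⟩

lemma W_step {ω : EIdx n → Bool} {u v : ℤ × ℤ} (hu : u ∈ box n) (h : Z2.Adj u v)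
    (ho : opn ω s(u, v)) (hv : W n ω v) : W n ω u := by
  obtain ⟨y, hy, q, h1, h2⟩ := hv
  refine ⟨y, hy, .cons h q, ?_, ?_⟩
  · intro w hw
    rw [SimpleGraph.Walk.support_cons, List.mem_cons] at hw
    rcases hw with rfl | hw
    · exact hu
    · exact h1 w hw
  · intro e he
    rw [SimpleGraph.Walk.edges_cons, List.mem_cons] at he
    rcases he with rfl | he
    · exact ho
    · exact h2 e he

lemma W_ind {ω : EIdx n → Bool} {P : ℤ × ℤ → Prop} (h0 : ∀ y, OnSph n y → P y)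
    (h1 : ∀ u v, Z2.Adj u v → opn ω s(u, v) → u ∈ box n → W n ω v → P v → P u) :
    ∀ x, W n ω x → P x := by
  rintro x ⟨y, hy, q, hq1, hq2⟩
  induction q with
  | nil => exact h0 _ hy
  | @cons a b c h q ih =>
    have e1 : ∀ v ∈ q.support, v ∈ (box n : Set (ℤ × ℤ)) := fun v hv =>
      hq1 v (by rw [SimpleGraph.Walk.support_cons]; exact List.mem_cons_of_mem _ hv)
    have e2 : ∀ e ∈ q.edges, opn ω e := fun e he =>
      hq2 e (by rw [SimpleGraph.Walk.edges_cons]; exact List.mem_cons_of_mem _ he)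
    exact h1 _ _ h (hq2 _ (by simp)) (hq1 _ (by simp)) ⟨_, hy, q, e1, e2⟩ (ih hy e1 e2)

/-- The vertices of the box which are not joined to the sphere. -/
noncomputable def SS (ω : EIdx n → Bool) : Finset (ℤ × ℤ) := by
  classical
  exact (box n).filter (fun x => ¬ W n ω x)

lemma mem_SS {ω : EIdx n → Bool} {x : ℤ × ℤ} : x ∈ SS ω ↔ x ∈ box n ∧ ¬ W n ω x := by
  simp [SS]

lemma W_mem_box {ω : EIdx n → Bool} {x : ℤ × ℤ} (h : W n ω x) : x ∈ box n := by
  obtain ⟨y, hy, q, h1, h2⟩ := h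
  exact h1 x q.start_mem_support

lemma SS_congr {S : Finset (ℤ × ℤ)} {ω ω' : EIdx n → Bool}
    (h : ∀ i : EIdx n, ¬ (∀ v ∈ i.1, v ∈ S) → ω i = ω' i) (hS : SS ω = S) : SS ω' = S := by
  have key1 : ∀ x, W n ω x → W n ω' x := by
    refine W_ind (fun y hy => W_sph hy) ?_
    intro u v hadj ho hu hv hv'
    have hWu : W n ω u := W_step hu hadj ho hv
    have huS : u ∉ S := by
      rw [← hS, mem_SS]
      exact fun h => h.2 hWu
    obtain ⟨he, ho'⟩ := ho
    refine W_step hu hadj ⟨he, ?_⟩ hv'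
    rw [← h ⟨s(u, v), he⟩ (fun h' => huS (h' u (by simp)))]
    exact ho'
  have key2 : ∀ x, W n ω' x → W n ω x := by
    refine W_ind (fun y hy => W_sph hy) ?_
    intro u v hadj ho hu hv hv'
    have hvS : v ∉ S := by
      rw [← hS, mem_SS]
      exact fun h => h.2 hv'
    obtain ⟨he, ho'⟩ := ho
    refine W_step hu hadj ⟨he, ?_⟩ hv'
    rw [h ⟨s(u, v), he⟩ (fun h' => hvS (h' v (by simp)))]
    exact ho'
  rw [← hS]
  ext x
  rw [mem_SS, mem_SS]
  exact and_congr_right fun _ => not_congr ⟨key2 x, key1 x⟩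

lemma Conn_congr {S : Finset (ℤ × ℤ)} {ω ω' : EIdx n → Bool} {x y : ℤ × ℤ}
    (h : ∀ i : EIdx n, (∀ v ∈ i.1, v ∈ S) → ω i = ω' i)
    (hc : Conn (opn ω) (S : Set (ℤ × ℤ)) x y) : Conn (opn ω') (S : Set (ℤ × ℤ)) x y := by
  obtain ⟨q, h1, h2⟩ := hc
  refine ⟨q, h1, fun e he => ?_⟩
  obtain ⟨he', ho⟩ := h2 e he
  refine ⟨he', ?_⟩
  rw [← h ⟨e, he'⟩ ?_]
  · exact ho
  · induction e with
    | _ a b =>
      intro v hv
      simp only [Sym2.mem_iff] at hv
      rcases hv with rfl | rfl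
      · exact h1 _ (q.fst_mem_support_of_mem_edges he)
      · exact h1 _ (q.snd_mem_support_of_mem_edges he)

lemma opn_mono {ω ω' : EIdx n → Bool} (h : ∀ i, ω i = true → ω' i = true) {e : Sym2 (ℤ × ℤ)}
    (he : opn ω e) : opn ω' e := by
  obtain ⟨h1, h2⟩ := he
  exact ⟨h1, h _ h2⟩

lemma Conn_mono {O O' : Sym2 (ℤ × ℤ) → Prop} (h : ∀ e, O e → O' e) {S : Set (ℤ × ℤ)} {x y : ℤ × ℤ}
    (hc : Conn O S x y) : Conn O' S x y := by
  obtain ⟨q, h1, h2⟩ := hc
  exact ⟨q, h1, fun e he => h e (h2 e he)⟩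

lemma W_mono {ω ω' : EIdx n → Bool} (h : ∀ i, ω i = true → ω' i = true) {x : ℤ × ℤ}
    (hx : W n ω x) : W n ω' x := by
  obtain ⟨y, hy, hc⟩ := hx
  exact ⟨y, hy, Conn_mono (fun e => opn_mono h) hc⟩

lemma W_of_Conn {ω : EIdx n → Bool} {S : Set (ℤ × ℤ)} (hS : S ⊆ box n) {a x : ℤ × ℤ}
    (hc : Conn (opn ω) S a x) (hx : W n ω x) : W n ω a := by
  obtain ⟨q, h1, h2⟩ := hc
  obtain ⟨y, hy, r, h3, h4⟩ := hx
  refine ⟨y, hy, q.append r, ?_, ?_⟩
  · intro v hv
    rw [SimpleGraph.Walk.mem_support_append_iff] at hv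
    rcases hv with hv | hv
    · exact hS (h1 v hv)
    · exact h3 v hv
  · intro e he
    rw [SimpleGraph.Walk.edges_append, List.mem_append] at he
    rcases he with he | he
    · exact h2 e he
    · exact h4 e he

lemma mem_edgesIn {x y : ℤ × ℤ} (hx : x ∈ box n) (hy : y ∈ box n) (h : Z2.Adj x y) :
    s(x, y) ∈ edgesIn n := by
  classical
  simp only [edgesIn, Finset.mem_filter, Finset.mk_mem_sym2_iff, SimpleGraph.mem_edgeSet]
  exact ⟨⟨hx, hy⟩, h⟩

lemma piv_of {ω : EIdx n → Bool} {x y : ℤ × ℤ} (hx : x ∈ SS ω)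
    (hc : Conn (opn ω) (SS ω : Set (ℤ × ℤ)) 0 x) (hadj : Z2.Adj x y) (hy : y ∉ SS ω) :
    ∃ he : s(x, y) ∈ edgesIn n, Piv (fun ω => W n ω 0) ⟨s(x, y), he⟩ ω := by
  have hx' := mem_SS.mp hx
  have hsph : ¬ OnSph n x := fun h => hx'.2 (W_sph h)
  have hyb : y ∈ box n := by
    have h1 := hx'.1
    rw [mem_box] at h1 ⊢
    unfold OnSph at hsph
    have h2 : (x.1 - y.1).natAbs + (x.2 - y.2).natAbs = 1 := hadj
    omega
  have hWy : W n ω y := by
    by_contra h
    exact hy (mem_SS.mpr ⟨hyb, h⟩)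
  have he : s(x, y) ∈ edgesIn n := mem_edgesIn hx'.1 hyb hadj
  have hSb : (SS ω : Set (ℤ × ℤ)) ⊆ box n := fun v hv => (mem_SS.mp hv).1
  refine ⟨he, ?_, ?_, ?_⟩
  · by_contra h
    have h' : ω ⟨s(x, y), he⟩ = true := by simpa using h
    exact hx'.2 (W_step hx'.1 hadj ⟨he, h'⟩ hWy)
  · obtain ⟨q, h1, h2⟩ := hc
    exact (mem_SS.mp (h1 0 q.start_mem_support)).2
  · have hm : ∀ i, ω i = true → Function.update ω ⟨s(x, y), he⟩ true i = true := by
      intro i hi
      by_cases h : i = ⟨s(x, y), he⟩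
      · subst h; simp
      · rw [Function.update_of_ne h]; exact hi
    refine W_of_Conn hSb (Conn_mono (fun e => opn_mono hm) hc) ?_
    refine W_step hx'.1 hadj ⟨he, by simp⟩ (W_mono hm hWy)

/-- The four neighbours. -/
def nb4 (x : ℤ × ℤ) : Finset (ℤ × ℤ) := {(x.1 + 1, x.2), (x.1 - 1, x.2), (x.1, x.2 + 1), (x.1, x.2 - 1)}

lemma adj_of_mem_nb4 {x y : ℤ × ℤ} (h : y ∈ nb4 x) : Z2.Adj x y := by
  simp only [nb4, Finset.mem_insert, Finset.mem_singleton] at h
  change (x.1 - y.1).natAbs + (x.2 - y.2).natAbs = 1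
  rcases h with rfl | rfl | rfl | rfl <;> simp

lemma count {ω : EIdx n → Bool} [DecidablePred fun x => Conn (opn ω) (SS ω : Set (ℤ × ℤ)) 0 x]
    [DecidablePred fun i => Piv (fun ω => W n ω 0) i ω] :
    ∑ x ∈ SS ω, (outDeg (SS ω) x : ℝ) * (if Conn (opn ω) (SS ω : Set (ℤ × ℤ)) 0 x then 1 else 0) ≤
      ∑ i : EIdx n, (if Piv (fun ω => W n ω 0) i ω then 1 else 0) := by
  classical
  have h1 : ∑ x ∈ SS ω, (outDeg (SS ω) x : ℝ) *
      (if Conn (opn ω) (SS ω : Set (ℤ × ℤ)) 0 x then 1 else 0) =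
      ((((SS ω).filter (fun x => Conn (opn ω) (SS ω : Set (ℤ × ℤ)) 0 x)).sigma
        (fun x => (nb4 x).filter (fun y => y ∉ SS ω))).card : ℝ) := by
    rw [Finset.card_sigma, Nat.cast_sum, Finset.sum_filter]
    refine Finset.sum_congr rfl fun x _ => ?_
    by_cases h : Conn (opn ω) (SS ω : Set (ℤ × ℤ)) 0 x
    · simp only [h, if_true, mul_one]
      unfold outDeg nb4
      rfl
    · simp [h]
  have h2 : ∑ i : EIdx n, (if Piv (fun ω => W n ω 0) i ω then (1 : ℝ) else 0) =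
      ((((univ : Finset (EIdx n)).filter (fun i => Piv (fun ω => W n ω 0) i ω)).map
        ⟨Subtype.val, Subtype.val_injective⟩).card : ℝ) := by
    rw [Finset.card_map, ← Finset.sum_filter]
    simp
  rw [h1, h2]
  norm_cast
  refine Finset.card_le_card_of_injOn (fun z => s(z.1, z.2)) ?_ ?_
  · rintro ⟨x, y⟩ hz
    simp only [Finset.coe_sigma, Set.mem_sigma_iff, Finset.mem_coe, Finset.mem_filter] at hz
    obtain ⟨⟨hx, hc⟩, hy, hyS⟩ := hz
    obtain ⟨he, hp⟩ := piv_of hx hc (adj_of_mem_nb4 hy) hyS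
    simp only [Finset.coe_map, Set.mem_image, Finset.mem_coe, Finset.mem_filter,
      Finset.mem_univ, true_and, Function.Embedding.coeFn_mk]
    exact ⟨⟨s(x, y), he⟩, hp, rfl⟩
  · rintro ⟨x, y⟩ hz ⟨x', y'⟩ hz' heq
    simp only [Finset.coe_sigma, Set.mem_sigma_iff, Finset.mem_coe, Finset.mem_filter] at hz hz'
    simp only [Sym2.eq_iff] at heq
    rcases heq with ⟨rfl, rfl⟩ | ⟨rfl, rfl⟩
    · rfl
    · exact absurd hz.1.1 hz'.2.2

end Sph

section Main

lemma sum_piv {n : ℕ} {t : ℝ} (h0 : 0 < t) (h1 : t < 1)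
    (hφ : ∀ S : Finset (ℤ × ℤ), S ⊆ box n → (0 : ℤ × ℤ) ∈ S → 1 ≤ phi t n S) :
    t⁻¹ * (1 - arm1 t n) ≤ ∑ i, Pr (bern t) (Piv (fun ω : EIdx n → Bool => W n ω 0) i) := by
  classical
  have hp := isProb_bern h0.le h1.le
  have e1 : ∑ i, Pr (bern t) (Piv (fun ω : EIdx n → Bool => W n ω 0) i) =
      Ex (bern t) (fun ω => ∑ i, (if Piv (fun ω : EIdx n → Bool => W n ω 0) i ω then 1 else 0)) := by
    rw [Ex_sum]
    exact Finset.sum_congr rfl fun i _ => Pr_Ex _ _
  rw [e1]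
  obtain ⟨𝒮, h𝒮⟩ : ∃ 𝒮 : Finset (Finset (ℤ × ℤ)), 𝒮 =
    (box n).powerset.filter (fun S => (0 : ℤ × ℤ) ∈ S) := ⟨_, rfl⟩
  have mem𝒮 : ∀ S, S ∈ 𝒮 ↔ S ⊆ box n ∧ (0 : ℤ × ℤ) ∈ S := by
    intro S; rw [h𝒮]; simp
  have e2 : ∀ ω : EIdx n → Bool, ∑ S ∈ 𝒮, ∑ x ∈ S, (outDeg S x : ℝ) *
      (if (Conn (opn ω) (S : Set (ℤ × ℤ)) 0 x ∧ SS ω = S) then 1 else 0) ≤
      ∑ i, (if Piv (fun ω : EIdx n → Bool => W n ω 0) i ω then (1 : ℝ) else 0) := by
    intro ω
    by_cases h : SS ω ∈ 𝒮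
    · rw [Finset.sum_eq_single (SS ω)]
      · refine le_trans (le_of_eq ?_) (count (ω := ω))
        refine Finset.sum_congr rfl fun x _ => ?_
        simp
      · intro S _ hS
        refine Finset.sum_eq_zero fun x _ => ?_
        rw [if_neg (fun h' => hS h'.2.symm), mul_zero]
      · exact fun h' => absurd h h'
    · have : ∑ S ∈ 𝒮, ∑ x ∈ S, (outDeg S x : ℝ) *
          (if (Conn (opn ω) (S : Set (ℤ × ℤ)) 0 x ∧ SS ω = S) then 1 else 0) = 0 := by
        refine Finset.sum_eq_zero fun S hS => Finset.sum_eq_zero fun x _ => ?_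
        have h9 : ¬ (Conn (opn ω) (S : Set (ℤ × ℤ)) 0 x ∧ SS ω = S) := by
          rintro ⟨_, h'⟩
          exact h (h'.symm ▸ hS)
        rw [if_neg h9, mul_zero]
      rw [this]
      exact Finset.sum_nonneg fun i _ => by split_ifs <;> norm_num
  refine le_trans ?_ (Ex_mono hp.nonneg e2)
  have e3 : Ex (bern t) (fun ω : EIdx n → Bool => ∑ S ∈ 𝒮, ∑ x ∈ S, (outDeg S x : ℝ) *
      (if (Conn (opn ω) (S : Set (ℤ × ℤ)) 0 x ∧ SS ω = S) then 1 else 0)) =
      ∑ S ∈ 𝒮, (t⁻¹ * phi t n S) * Pr (bern t) (fun ω : EIdx n → Bool => SS ω = S) := by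
    rw [Ex_sum]
    refine Finset.sum_congr rfl fun S hS => ?_
    rw [Ex_sum]
    unfold phi
    rw [← mul_assoc, inv_mul_cancel₀ h0.ne', one_mul, Finset.sum_mul]
    refine Finset.sum_congr rfl fun x _ => ?_
    rw [Ex_mul_left, mul_assoc]
    congr 1
    rw [← Pr_indep hp (fun i : EIdx n => ∀ v ∈ i.1, v ∈ S)
      (fun ω : EIdx n → Bool => Conn (opn ω) (S : Set (ℤ × ℤ)) 0 x)
      (fun ω : EIdx n → Bool => SS ω = S)
      (fun ω ω' h => Conn_congr h) (fun ω ω' h => SS_congr h)]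
    unfold Pr
    congr 1
    funext ω
    by_cases h : Conn (opn ω) (S : Set (ℤ × ℤ)) 0 x ∧ SS ω = S <;> simp [h]
  rw [e3]
  have e4 : ∑ S ∈ 𝒮, Pr (bern t) (fun ω : EIdx n → Bool => SS ω = S) = 1 - arm1 t n := by
    have h5 : 1 - arm1 t n = Pr (bern t) (fun ω : EIdx n → Bool => ¬ W n ω 0) := by
      rw [Pr_not hp]
      rfl
    rw [h5]
    unfold Pr
    rw [← Ex_sum]
    congr 1
    funext ω
    by_cases h : W n ω 0
    · simp only [h, not_true_eq_false, if_false]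
      refine Finset.sum_eq_zero fun S hS => ?_
      rw [if_neg]
      intro h'
      have := ((mem𝒮 S).mp hS).2
      rw [← h', mem_SS] at this
      exact this.2 h
    · simp only [h, not_false_eq_true, if_true]
      have h10 : SS ω ∈ 𝒮 := by
        rw [mem𝒮]
        refine ⟨fun v hv => (mem_SS.mp hv).1, ?_⟩
        rw [mem_SS]
        exact ⟨by rw [mem_box]; simp, h⟩
      rw [Finset.sum_eq_single (SS ω)]
      · simp
      · intro S _ hS
        rw [if_neg (fun h' => hS h'.symm)]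
      · exact fun h' => absurd h10 h'
  rw [← e4, Finset.mul_sum]
  refine Finset.sum_le_sum fun S hS => ?_
  have h6 := hφ S ((mem𝒮 S).mp hS).1 ((mem𝒮 S).mp hS).2
  have h7 : 0 ≤ Pr (bern t) (fun ω : EIdx n → Bool => SS ω = S) := Pr_nonneg hp.nonneg _
  have h8 : t⁻¹ * 1 ≤ t⁻¹ * phi t n S := mul_le_mul_of_nonneg_left h6 (inv_nonneg.mpr h0.le)
  rw [mul_one] at h8
  exact mul_le_mul_of_nonneg_right h8 h7

lemma phi_mono {n : ℕ} {t t' : ℝ} (h0 : 0 < t) (h : t ≤ t') (h1 : t' < 1) (S : Finset (ℤ × ℤ)) :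
    phi t n S ≤ phi t' n S := by
  unfold phi
  refine mul_le_mul h ?_ ?_ (h0.le.trans h)
  · refine Finset.sum_le_sum fun x _ => mul_le_mul_of_nonneg_left ?_ (Nat.cast_nonneg _)
    exact Pr_bern_mono h0.le h h1 fun ω ω' hm => Conn_mono fun e => opn_mono hm
  · refine Finset.sum_nonneg fun x _ => mul_nonneg (Nat.cast_nonneg _) ?_
    exact Pr_nonneg (bern_nonneg h0.le (by linarith)) _

end Main

end TL

open TL in
/-- **PA1b.** If `φ_{t₁}(S) ≥ 1` for all finite sets `S` containing `0`, where `0 < t₁ < 1/2`, then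
the one-arm probabilities at `1/2` are bounded below. -/
theorem theta_lower {t₁ : ℝ} (h0 : 0 < t₁) (h1 : t₁ < 1 / 2)
    (hφ : ∀ (L : ℕ) (S : Finset (ℤ × ℤ)), S ⊆ box L → (0 : ℤ × ℤ) ∈ S → 1 ≤ phi t₁ L S) :
    ∃ c : ℝ, 0 < c ∧ ∀ n : ℕ, c ≤ arm1 (1 / 2) n := by
  refine ⟨1 - Real.exp (4 * t₁ - 2), ?_, fun n => ?_⟩
  · rw [sub_pos, Real.exp_lt_one_iff]
    linarith
  have hE : ∀ ω ω' : EIdx n → Bool, (∀ i, ω i = true → ω' i = true) →
      (fun ω : EIdx n → Bool => W n ω 0) ω → (fun ω : EIdx n → Bool => W n ω 0) ω' :=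
    fun ω ω' h => W_mono h
  have hd : ∀ t : ℝ, t < 1 → HasDerivAt (fun t => arm1 t n)
      ((1 - t)⁻¹ * ∑ i, Pr (bern t) (Piv (fun ω : EIdx n → Bool => W n ω 0) i)) t :=
    fun t ht => russo hE ht.ne
  have hd' : ∀ t : ℝ, t < 1 → HasDerivAt (fun t => (1 - arm1 t n) * Real.exp (4 * t))
      (-((1 - t)⁻¹ * ∑ i, Pr (bern t) (Piv (fun ω : EIdx n → Bool => W n ω 0) i)) *
        Real.exp (4 * t) + (1 - arm1 t n) * (Real.exp (4 * t) * 4)) t := by
    intro t ht
    refine HasDerivAt.mul ?_ ?_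
    · simpa using (hd t ht).const_sub 1
    · have := ((hasDerivAt_id t).const_mul 4).exp
      simpa using this
  have hanti : AntitoneOn (fun t => (1 - arm1 t n) * Real.exp (4 * t)) (Set.Icc t₁ (1 / 2)) := by
    refine antitoneOn_of_hasDerivWithinAt_nonpos (f' := fun t =>
      (-((1 - t)⁻¹ * ∑ i, Pr (bern t) (Piv (fun ω : EIdx n → Bool => W n ω 0) i)) *
        Real.exp (4 * t) + (1 - arm1 t n) * (Real.exp (4 * t) * 4)))
      (convex_Icc _ _) ?_ ?_ ?_
    · intro x hx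
      exact (hd' x (by linarith [hx.2])).continuousAt.continuousWithinAt
    · intro x hx
      rw [interior_Icc] at hx
      exact (hd' x (by linarith [hx.2])).hasDerivWithinAt
    · intro x hx
      rw [interior_Icc] at hx
      have hx0 : 0 < x := h0.trans hx.1
      have hx1 : x < 1 := by linarith [hx.2]
      have key := sum_piv (n := n) hx0 hx1 (fun S hS h => (hφ n S hS h).trans
        (phi_mono h0 hx.1.le hx1 S))
      have h2 : arm1 x n ≤ 1 := Pr_le_one (isProb_bern hx0.le hx1.le) _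
      have h3 : 4 * (1 - arm1 x n) ≤ (1 - x)⁻¹ * ∑ i, Pr (bern x)
          (Piv (fun ω : EIdx n → Bool => W n ω 0) i) := by
        calc 4 * (1 - arm1 x n) ≤ ((1 - x)⁻¹ * x⁻¹) * (1 - arm1 x n) := by
              refine mul_le_mul_of_nonneg_right ?_ (by linarith)
              rw [← mul_inv, le_inv_comm₀ (by norm_num) (mul_pos (by linarith) hx0)]
              nlinarith [sq_nonneg (x - 1 / 2)]
          _ = (1 - x)⁻¹ * (x⁻¹ * (1 - arm1 x n)) := by ring
          _ ≤ _ := mul_le_mul_of_nonneg_left key (inv_nonneg.mpr (by linarith))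
      have h4 := Real.exp_pos (4 * x)
      nlinarith
  have h5 := hanti (Set.left_mem_Icc.mpr h1.le) (Set.right_mem_Icc.mpr h1.le) h1.le
  simp only at h5
  have h6 : 0 ≤ arm1 t₁ n := Pr_nonneg (bern_nonneg h0.le (by linarith)) _
  have h7 : (1 - arm1 t₁ n) * Real.exp (4 * t₁) ≤ Real.exp (4 * t₁) := by
    have := Real.exp_pos (4 * t₁)
    nlinarith
  have h8 : (1 - arm1 (1 / 2) n) * Real.exp 2 ≤ Real.exp (4 * t₁) := by
    have : (4 : ℝ) * (1 / 2) = 2 := by norm_num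
    rw [this] at h5
    exact h5.trans h7
  have h9 : 1 - arm1 (1 / 2) n ≤ Real.exp (4 * t₁ - 2) := by
    rw [Real.exp_sub, le_div_iff₀ (Real.exp_pos 2)]
    exact h8
  linarith

end Pool.Agent.Helper33_FPP
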