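import Pool.Agent.Helper33_FPP.AnnulusCore
import Pool.Agent.Helper33_FPP.PhiDecay
import Pool.Agent.Helper33_FPP.ThetaLower
import Pool.Agent.Helper33_FPP.NoCoexist
import Pool.Agent.Helper33_FPP.PercMono

/-!
# Annulus crossing probabilities below one half
-/

set_option autoImplicit false

namespace Pool.Agent.Helper33_FPP

open Finset

theorem annulus_small {t : ℝ} (h0 : 0 ≤ t) (h1 : t < 1 / 2) {ε : ℝ} (hε : 0 < ε) :
    ∃ k : ℕ, 1 ≤ k ∧ armk t k (3 * k) ≤ ε := by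
  obtain ⟨t₁, ht, ht₁⟩ := exists_between h1
  have hpos : 0 < t₁ := lt_of_le_of_lt h0 ht
  have hdec : ∃ C ρ : ℝ, 0 < C ∧ 0 ≤ ρ ∧ ρ < 1 ∧ ∀ n : ℕ, arm1 t₁ n ≤ C * ρ ^ n := by
    by_contra hno
    refine no_coexist (theta_lower hpos ht₁ ?_)
    intro L S hS h0S
    by_contra hlt
    push Not at hlt
    exact hno (phi_decay hpos.le (by linarith) hS h0S hlt)
  obtain ⟨k, hk, hle⟩ := AnnulusAux.annulus_of_decay hpos.le (by linarith) hdec hε
  refine ⟨k, hk, le_trans ?_ hle⟩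
  unfold armk
  refine Pr_bern_mono h0 ht.le (by linarith) ?_
  rintro ω ω' hω ⟨x, hx, y, hy, q, hq1, hq2⟩
  refine ⟨x, hx, y, hy, q, hq1, ?_⟩
  intro e he
  obtain ⟨hmem, htrue⟩ := hq2 e he
  exact ⟨hmem, hω _ htrue⟩

end Pool.Agent.Helper33_FPP
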