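import Pool.Agent.Helper33_FPP.PartII

/-!
# Part II: assembly of the theorem for weights with all moments
-/

set_option autoImplicit false

open MeasureTheory ProbabilityTheory Filter Topology

namespace Pool.Agent.Helper33_FPP

/-! ### Law of the discretisation -/

theorem sum_dscP (F : Measure ℝ) [IsProbabilityMeasure F] (m K : ℕ) (Q : Fin (K + 1) → Prop)
    [DecidablePred Q] :
    (∑ v, if Q v then dscP F m K v else 0) = F.real {x | Q (dsc m K x)} := by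
  have h1 : {x | Q (dsc m K x)} = ⋃ v ∈ (Finset.univ.filter Q), {x | dsc m K x = v} := by
    ext x
    simp
  rw [h1, measureReal_biUnion_finset]
  · rw [Finset.sum_filter]
    rfl
  · intro v _ v' _ hvv
    rw [Function.onFun, Set.disjoint_left]
    intro x hx hx'
    exact hvv (hx.symm.trans hx')
  · intro v _
    exact measurable_dsc m K (MeasurableSet.singleton v)

theorem low_mass {F : Measure ℝ} [IsProbabilityMeasure F] (hF0 : F (Set.Iio 0) = 0) {m b : ℕ}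
    (hm : 0 < m) {hi hi' p₀ : ℝ} (hb : hi ≤ b) (h1 : 1 / (m : ℝ) ≤ hi - hi')
    (hlow : F.real (Set.Iio hi) ≤ p₀) :
    (∑ v, if dval m (m * b) v < hi' then dscP F m (m * b) v else 0) ≤ p₀ := by
  rw [sum_dscP F m (m * b) (fun v => dval m (m * b) v < hi')]
  refine le_trans ?_ hlow
  have h2 : F.real {x | dval m (m * b) (dsc m (m * b) x) < hi'} ≤
      F.real (Set.Iio hi ∪ Set.Iio 0) := by
    refine measureReal_mono ?_ (measure_ne_top F _)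
    intro x hx
    by_contra hcon
    rw [Set.mem_union, not_or, Set.mem_Iio, Set.mem_Iio, not_lt, not_lt] at hcon
    have h3 := le_dval_dsc (b := b) hm hcon.2
    have h4 : hi ≤ max 0 (min x b) := le_trans (le_min hcon.1 hb) (le_max_right _ _)
    have h5 : dval m (m * b) (dsc m (m * b) x) < hi' := hx
    linarith
  refine h2.trans ((measureReal_union_le _ _).trans ?_)
  have h3 : F.real (Set.Iio 0) = 0 := by
    rw [measureReal_def, hF0, ENNReal.toReal_zero]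
  rw [h3, add_zero]

theorem lo_mass {F : Measure ℝ} [IsProbabilityMeasure F] {m b : ℕ}
    (hm : 0 < m) {lo pL : ℝ} (hlo : 0 ≤ lo) (h : pL ≤ F.real (Set.Iic lo)) :
    pL ≤ (∑ v, if dval m (m * b) v ≤ lo then dscP F m (m * b) v else 0) := by
  rw [sum_dscP F m (m * b) (fun v => dval m (m * b) v ≤ lo)]
  refine h.trans ?_
  refine measureReal_mono ?_ (measure_ne_top F _)
  intro x hx
  rcases le_total 0 x with h0 | h0
  · have h3 := dval_dsc_le (b := b) hm h0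
    refine h3.trans (max_le hlo ((min_le_left _ _).trans hx))
  · have : dsc m (m * b) x = ⟨0, by omega⟩ := by
      unfold dsc
      have : ⌊(m : ℝ) * x⌋₊ = 0 := by
        apply Nat.floor_of_nonpos
        exact mul_nonpos_of_nonneg_of_nonpos (Nat.cast_nonneg m) h0
      simp [this]
    change dval m (m * b) (dsc m (m * b) x) ≤ lo
    rw [this]
    unfold dval
    simpa using hlo

/-! ### Moments -/

theorem trunc_small {F : Measure ℝ} [IsProbabilityMeasure F]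
    (hmom : ∀ k : ℕ, Integrable (fun x => |x| ^ k) F) (k : ℕ) :
    ∃ M : ℝ, 0 ≤ M ∧ ∀ b : ℝ, 1 ≤ b → ∫ t, max 0 (t - b) ∂F ≤ M / b ^ k := by
  refine ⟨∫ t, |t| ^ (k + 1) ∂F, integral_nonneg (fun t => by positivity), ?_⟩
  intro b hb
  have hb0 : 0 < b := by linarith
  have h1 : ∫ t, max 0 (t - b) ∂F ≤ ∫ t, |t| ^ (k + 1) * (1 / b ^ k) ∂F := by
    apply integral_mono_of_nonneg
    · filter_upwards with t
      exact le_max_left _ _
    · exact (hmom (k + 1)).mul_const _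
    · filter_upwards with t
      apply max_le (by positivity)
      rcases le_total t b with h | h
      · have : 0 ≤ |t| ^ (k + 1) * (1 / b ^ k) := by positivity
        linarith
      · have ht : 0 ≤ t := by linarith
        rw [abs_of_nonneg ht, mul_one_div, le_div_iff₀ (by positivity)]
        have h2 : b ^ k ≤ t ^ k := pow_le_pow_left₀ hb0.le h k
        calc (t - b) * b ^ k ≤ t * b ^ k := mul_le_mul_of_nonneg_right (by linarith) (by positivity)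
          _ ≤ t * t ^ k := mul_le_mul_of_nonneg_left h2 ht
          _ = t ^ (k + 1) := by ring
  rw [integral_mul_const] at h1
  rw [div_eq_mul_one_div]
  exact h1

/-! ### Geometry -/

theorem abs_AB (z : ℤ × ℤ) : |A z| + |B z| = 2 * max |z.1| |z.2| := by
  unfold A B
  rcases le_total 0 z.1 with h1 | h1 <;> rcases le_total 0 z.2 with h2 | h2 <;>
  rcases le_total 0 (z.1 + z.2) with h3 | h3 <;> rcases le_total 0 (z.1 - z.2) with h4 | h4 <;>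
  simp only [abs_of_nonneg, abs_of_nonpos, h1, h2, h3, h4] <;> omega

/-! ### Limits along the diagonals -/

section

variable {Ω : Type} [MeasurableSpace Ω] {P : Measure Ω} [IsProbabilityMeasure P]
  {W : Z2.edgeSet → Ω → ℝ}

theorem upper_tail_of_tendsto {z : ℤ × ℤ} {μz : ℝ}
    (hμ : TendstoInMeasure P (fun (n : ℕ) ω => passageTime (ext W ω) 0 (n • z) / n) atTop
      (fun _ => μz)) {ε : ℝ} (hε : 0 < ε) :
    Tendsto (fun n : ℕ => P.real {ω | (μz + ε) * n ≤ passageTime (ext W ω) 0 (n • z)}) atTop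
      (𝓝 0) := by
  have h1 := hμ (ENNReal.ofReal ε) (by simpa using hε)
  have h2 : Tendsto (fun n : ℕ => (P {ω | ENNReal.ofReal ε ≤
      edist (passageTime (ext W ω) 0 (n • z) / n) μz}).toReal) atTop (𝓝 0) := by
    have := (ENNReal.tendsto_toReal ENNReal.zero_ne_top).comp h1
    rw [ENNReal.toReal_zero] at this
    exact this
  refine squeeze_zero' (Eventually.of_forall (fun n => measureReal_nonneg)) ?_ h2
  filter_upwards [eventually_ge_atTop 1] with n hn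
  refine measureReal_mono ?_ (measure_ne_top P _)
  intro ω hω
  have hn' : (0 : ℝ) < n := by exact_mod_cast hn
  have h3 : (μz + ε) * n ≤ passageTime (ext W ω) 0 (n • z) := hω
  have h4 : μz + ε ≤ passageTime (ext W ω) 0 (n • z) / n := by
    rw [le_div_iff₀ hn']
    exact h3
  rw [Set.mem_setOf_eq, edist_dist, Real.dist_eq]
  apply ENNReal.ofReal_le_ofReal
  rw [le_abs]
  left
  linarith

end

/-! ### Choice of the scale -/

theorem exists_scale (X₀ : ℕ) (hi C M : ℝ) (hC : 0 ≤ C) : ∃ Y : ℕ, 8 ≤ Y ∧ X₀ ≤ Y ^ 4 ∧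
    hi ≤ Y ∧ 2 * C * Y + 2 ≤ (Y : ℝ) ^ 4 ∧ 18 * M ≤ (Y : ℝ) ^ 2 ∧
    C * Real.sqrt 2 * (Real.log (2 * ((Y : ℝ) ^ 4) ^ 200) + 1) ^ 2 ≤ ((Y : ℝ) ^ 4) ^ 2 := by
  obtain ⟨Y₁, hY₁⟩ := exists_nat_ge (8 + X₀ + |hi| + 2 * C + 18 * |M| + C * Real.sqrt 2 * 1000000)
  have hs : 0 ≤ Real.sqrt 2 := Real.sqrt_nonneg 2
  have hsC : 0 ≤ C * Real.sqrt 2 := mul_nonneg hC hs
  have e1 := abs_nonneg hi
  have e2 := abs_nonneg M
  have e3 : (0 : ℝ) ≤ X₀ := Nat.cast_nonneg X₀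
  have hY8 : (8 : ℝ) ≤ Y₁ := by linarith
  have hY1 : (1 : ℝ) ≤ Y₁ := by linarith
  have hY0 : (0 : ℝ) < Y₁ := by linarith
  have p4 : (Y₁ : ℝ) ≤ (Y₁ : ℝ) ^ 4 := le_pow_of_one_le hY1 (by norm_num)
  have p2 : (Y₁ : ℝ) ≤ (Y₁ : ℝ) ^ 2 := le_pow_of_one_le hY1 (by norm_num)
  have p3 : (Y₁ : ℝ) ≤ (Y₁ : ℝ) ^ 3 := le_pow_of_one_le hY1 (by norm_num)
  refine ⟨Y₁, by exact_mod_cast hY8, ?_, ?_, ?_, ?_, ?_⟩
  · have : (X₀ : ℝ) ≤ (Y₁ : ℝ) ^ 4 := by linarith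
    exact_mod_cast this
  · linarith [le_abs_self hi]
  · have h1 : 2 * C + 2 ≤ Y₁ := by linarith
    have h2 : 2 * C * Y₁ + 2 ≤ (2 * C + 2) * Y₁ := by nlinarith
    have h3 : (2 * C + 2) * Y₁ ≤ Y₁ * Y₁ := mul_le_mul_of_nonneg_right h1 hY0.le
    have h4 : (Y₁ : ℝ) * Y₁ ≤ (Y₁ : ℝ) ^ 4 := by
      calc (Y₁ : ℝ) * Y₁ = (Y₁ : ℝ) ^ 2 := by ring
        _ ≤ (Y₁ : ℝ) ^ 4 := pow_le_pow_right₀ hY1 (by norm_num)
    linarith
  · linarith [le_abs_self M]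
  · have h1 : Real.log (2 * ((Y₁ : ℝ) ^ 4) ^ 200) = Real.log 2 + 800 * Real.log Y₁ := by
      rw [Real.log_mul (by norm_num) (by positivity), ← pow_mul, Real.log_pow]
      norm_num
    have h2 : Real.log (Y₁ : ℝ) ≤ Y₁ := by
      have := Real.log_le_sub_one_of_pos hY0
      linarith
    have h3 : Real.log (2 : ℝ) ≤ 1 := by
      have := Real.log_le_sub_one_of_pos (show (0 : ℝ) < 2 by norm_num)
      linarith
    have h4 : 0 ≤ Real.log (Y₁ : ℝ) := Real.log_nonneg hY1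
    have h5 : 0 ≤ Real.log (2 : ℝ) := Real.log_nonneg (by norm_num)
    have h6 : Real.log (2 * ((Y₁ : ℝ) ^ 4) ^ 200) + 1 ≤ 1000 * Y₁ := by
      rw [h1]
      linarith
    have h7 : 0 ≤ Real.log (2 * ((Y₁ : ℝ) ^ 4) ^ 200) + 1 := by
      rw [h1]
      linarith
    have h8 : (Real.log (2 * ((Y₁ : ℝ) ^ 4) ^ 200) + 1) ^ 2 ≤ (1000 * Y₁) ^ 2 :=
      pow_le_pow_left₀ h7 h6 2
    have h9 : C * Real.sqrt 2 * 1000000 ≤ Y₁ := by linarith
    calc C * Real.sqrt 2 * (Real.log (2 * ((Y₁ : ℝ) ^ 4) ^ 200) + 1) ^ 2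
        ≤ C * Real.sqrt 2 * (1000 * Y₁) ^ 2 := mul_le_mul_of_nonneg_left h8 hsC
      _ = C * Real.sqrt 2 * 1000000 * (Y₁ : ℝ) ^ 2 := by ring
      _ ≤ Y₁ * (Y₁ : ℝ) ^ 2 := mul_le_mul_of_nonneg_right h9 (by positivity)
      _ = (Y₁ : ℝ) ^ 3 := by ring
      _ ≤ (Y₁ : ℝ) ^ 8 := pow_le_pow_right₀ hY1 (by norm_num)
      _ = ((Y₁ : ℝ) ^ 4) ^ 2 := by ring

/-- The bound for the mean passage times along the lines of the network. -/
theorem line_bound {c C : ℝ} {Y : ℕ} (hY : 8 ≤ Y)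
    (hlog : C * Real.sqrt 2 * (Real.log (2 * ((Y : ℝ) ^ 4) ^ 200) + 1) ^ 2 ≤ ((Y : ℝ) ^ 4) ^ 2) :
    2 * c * ((2 * (Pars (Y ^ 4) c).N * (Pars (Y ^ 4) c).σ : ℕ) : ℝ) +
      C * (Y : ℝ) ^ 4 * Real.sqrt ((2 * (Pars (Y ^ 4) c).N * (Pars (Y ^ 4) c).σ : ℕ) : ℝ) *
        (Real.log ((2 * (Pars (Y ^ 4) c).N * (Pars (Y ^ 4) c).σ : ℕ) : ℝ) + 1) ^ 2 ≤
      c * (4 * (Pars (Y ^ 4) c).N * (Pars (Y ^ 4) c).σ) + ((Y ^ 4 : ℕ) : ℝ) ^ 103 := by
  have hY0 : (0 : ℝ) < Y := by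
    have : (8 : ℝ) ≤ Y := by exact_mod_cast hY
    linarith
  have h1 : ((2 * (Pars (Y ^ 4) c).N * (Pars (Y ^ 4) c).σ : ℕ) : ℝ) = 2 * ((Y : ℝ) ^ 4) ^ 200 := by
    change ((2 * (Y ^ 4) ^ 94 * (Y ^ 4) ^ 106 : ℕ) : ℝ) = _
    push_cast
    ring
  have h2 : Real.sqrt (2 * ((Y : ℝ) ^ 4) ^ 200) = Real.sqrt 2 * ((Y : ℝ) ^ 4) ^ 100 := by
    rw [Real.sqrt_mul (by norm_num)]
    congr 1
    rw [show ((Y : ℝ) ^ 4) ^ 200 = (((Y : ℝ) ^ 4) ^ 100) ^ 2 by ring, Real.sqrt_sq (by positivity)]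
  have h3 : c * (4 * (Pars (Y ^ 4) c).N * (Pars (Y ^ 4) c).σ) = 2 * c * (2 * ((Y : ℝ) ^ 4) ^ 200) := by
    change c * (4 * (((Y ^ 4) ^ 94 : ℕ) : ℝ) * (((Y ^ 4) ^ 106 : ℕ) : ℝ)) = _
    push_cast
    ring
  rw [h1, h2, h3]
  have h4 : C * (Y : ℝ) ^ 4 * (Real.sqrt 2 * ((Y : ℝ) ^ 4) ^ 100) *
      (Real.log (2 * ((Y : ℝ) ^ 4) ^ 200) + 1) ^ 2 =
      (C * Real.sqrt 2 * (Real.log (2 * ((Y : ℝ) ^ 4) ^ 200) + 1) ^ 2) * ((Y : ℝ) ^ 4) ^ 101 := by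
    ring
  rw [h4]
  have h5 := mul_le_mul_of_nonneg_right hlog (show 0 ≤ ((Y : ℝ) ^ 4) ^ 101 by positivity)
  have h6 : ((Y ^ 4 : ℕ) : ℝ) ^ 103 = ((Y : ℝ) ^ 4) ^ 2 * ((Y : ℝ) ^ 4) ^ 101 := by
    push_cast
    ring
  rw [h6]
  linarith

/-! ### The contradiction -/

/-- Lower bound for the mean of the truncated passage times. -/
theorem mean_low {Ω : Type} [MeasurableSpace Ω] {P : Measure Ω} [IsProbabilityMeasure P]
    {F : Measure ℝ} [IsProbabilityMeasure F] {W : Z2.edgeSet → Ω → ℝ}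
    (hm : ∀ e, Measurable (W e)) (hind : iIndepFun W P) (hF : ∀ e, P.map (W e) = F)
    (h0 : ∀ e ω, 0 ≤ W e ω) (hint : ∀ e, Integrable (W e) P) {c : ℝ}
    (hμ : ∀ z : ℤ × ℤ, TendstoInMeasure P (fun (n : ℕ) ω => passageTime (ext W ω) 0 (n • z) / n)
      atTop (fun _ => c * ((|A z| + |B z| : ℤ) : ℝ))) {b : ℝ} (hb : 0 ≤ b) {R : ℕ}
    (hcard : (edgesIn R).card * ∫ t, max 0 (t - b) ∂F ≤ 1) {x y : ℤ × ℤ} (hx : x ∈ box R)
    (hy : y ∈ box R) : c * (|(A x - A y : ℤ)| + |(B x - B y : ℤ)| : ℤ) - 1 ≤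
      ∫ ω, TT (ext (Wb W b) ω) (box R) x y ∂P := by
  have h1 := lower_mean hm hind hF h0 hint (hμ (y - x)) hx hy rfl
  have h2 : |A (y - x)| + |B (y - x)| = |(A x - A y : ℤ)| + |(B x - B y : ℤ)| := by
    have e1 : A (y - x) = -(A x - A y) := by unfold A; simp; ring
    have e2 : B (y - x) = -(B x - B y) := by unfold B; simp; ring
    rw [e1, e2, abs_neg, abs_neg]
  rw [h2] at h1
  have h3 := mean_trunc hm hF h0 hint hb hx hy h1
  linarith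

/-- **No square, weights with all moments.** -/
theorem no_square_moments {Ω : Type} [MeasurableSpace Ω] {P : Measure Ω} [IsProbabilityMeasure P]
    {F : Measure ℝ} [IsProbabilityMeasure F] {W : Z2.edgeSet → Ω → ℝ}
    (hm : ∀ e, Measurable (W e)) (hind : iIndepFun W P) (hF : ∀ e, P.map (W e) = F)
    (h0 : ∀ e ω, 0 ≤ W e ω) (hmom : ∀ k : ℕ, Integrable (fun x => |x| ^ k) F)
    {p₀ hi lo pL c : ℝ} (hp0 : 0 ≤ p₀) (hp1 : p₀ < 1 / 2) (hlo : 0 ≤ lo) (hlohi : lo < hi)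
    (hpL : 0 < pL) (hlow : F.real (Set.Iio hi) ≤ p₀) (hloF : pL ≤ F.real (Set.Iic lo))
    (hc : 0 < c)
    (hμ : ∀ z : ℤ × ℤ, TendstoInMeasure P (fun (n : ℕ) ω => passageTime (ext W ω) 0 (n • z) / n)
      atTop (fun _ => c * ((|A z| + |B z| : ℤ) : ℝ))) : False := by
  have hhi : 0 < hi := by linarith
  set hi' : ℝ := (lo + hi) / 2 with hhi'
  have hhi'0 : 0 < hi' := by linarith
  have hlohi' : lo < hi' := by linarith
  -- the reflected weights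
  set W' : Z2.edgeSet → Ω → ℝ := fun e => W (rhoE e) with hW'
  have hm' : ∀ e, Measurable (W' e) := fun e => hm _
  have hind' : iIndepFun W' P := hind.precomp rhoE_injective
  have hF' : ∀ e, P.map (W' e) = F := fun e => hF _
  have h0' : ∀ e ω, 0 ≤ W' e ω := fun e ω => h0 _ ω
  have hμ' : ∀ z : ℤ × ℤ, TendstoInMeasure P
      (fun (n : ℕ) ω => passageTime (ext W' ω) 0 (n • z) / n) atTop
      (fun _ => c * ((|A z| + |B z| : ℤ) : ℝ)) := by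
    intro z
    have h1 := hμ (rho z)
    have h2 : (|A (rho z)| + |B (rho z)| : ℤ) = |A z| + |B z| := by
      rw [A_rho, B_rho, add_comm]
    rw [h2] at h1
    refine h1.congr_left ?_
    intro n
    filter_upwards with ω
    rw [passageTime_rho (w := ext W ω) (w' := ext W' ω) (fun e => ext_rho W ω e) 0 (n • z)]
    have h3 : rho (0 : ℤ × ℤ) = 0 := by simp
    have h4 : rho (n • z) = n • rho z := by
      apply Prod.ext <;> simp
    rw [h3, h4]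
  have hF0 : F (Set.Iio 0) = 0 := by
    have e : Z2.edgeSet := ⟨s((0, 0), (1, 0)), by
      rw [SimpleGraph.mem_edgeSet, Z2_adj_iff]; simp⟩
    rw [← hF e, Measure.map_apply (hm e) measurableSet_Iio]
    have : W e ⁻¹' Set.Iio 0 = ∅ := by
      ext ω
      simp only [Set.mem_preimage, Set.mem_Iio, Set.mem_empty_iff_false, iff_false, not_lt]
      exact h0 e ω
    rw [this, measure_empty]
  have hintF : Integrable (fun x : ℝ => x) F := by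
    have := hmom 1
    simp only [pow_one] at this
    exact (integrable_norm_iff (by fun_prop : Measurable (fun x : ℝ => x)).aestronglyMeasurable).1
      this
  have hint : ∀ e, Integrable (W e) P := by
    intro e
    have h1 : Integrable (fun x : ℝ => x) (P.map (W e)) := by
      rw [hF e]
      exact hintF
    exact (integrable_map_measure (by fun_prop) (hm e).aemeasurable).1 h1
  -- the constants
  obtain ⟨X₀, hX₀⟩ := no_square_finite hp0 hp1 hhi'0 hlohi' hpL hc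
  have hdiag : ∀ n : ℕ, (n • ((1, 1) : ℤ × ℤ)) = pt n 0 := by
    intro n
    unfold pt
    apply Prod.ext <;> simp
  have h11 : c * ((|A (1, 1)| + |B (1, 1)| : ℤ) : ℝ) = 2 * c := by
    unfold A B
    norm_num
    ring
  have hlimU : ∀ ε > 0, Tendsto (fun n : ℕ =>
      P.real {ω | (2 * c + ε) * n ≤ passageTime (ext W ω) 0 (pt n 0)}) atTop (𝓝 0) := by
    intro ε hε
    have := upper_tail_of_tendsto (hμ (1, 1)) hε
    rw [h11] at this
    refine this.congr (fun n => ?_)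
    rw [hdiag]
  have hlimV : ∀ ε > 0, Tendsto (fun n : ℕ =>
      P.real {ω | (2 * c + ε) * n ≤ passageTime (ext W' ω) 0 (pt n 0)}) atTop (𝓝 0) := by
    intro ε hε
    have := upper_tail_of_tendsto (hμ' (1, 1)) hε
    rw [h11] at this
    refine this.congr (fun n => ?_)
    rw [hdiag]
  obtain ⟨C₁, hC₁, hU⟩ := upper_mean_U hm hind hF h0 hp0 hp1 hhi hlow hc hlimU
  obtain ⟨C₂, hC₂, hV⟩ := upper_mean_U hm' hind' hF' h0' hp0 hp1 hhi hlow hc hlimV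
  obtain ⟨M, hM0, hM⟩ := trunc_small hmom 1610
  obtain ⟨Y, hY8, hYX, hYhi, hYbox, hYM, hYlog⟩ := exists_scale X₀ hi (max C₁ C₂) M
    (hC₁.le.trans (le_max_left _ _))
  have hY8' : (8 : ℝ) ≤ Y := by exact_mod_cast hY8
  have hY1 : (1 : ℝ) ≤ Y := by linarith
  have hY0 : (0 : ℝ) < Y := by linarith
  set Q : Par := Pars (Y ^ 4) c with hQ
  have hQR : Q.R = (Y ^ 4) ^ 201 := rfl
  have hQσ : Q.σ = (Y ^ 4) ^ 106 := rfl
  have hQN : Q.N = (Y ^ 4) ^ 94 := rfl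
  obtain ⟨m₁, hm₁⟩ := exists_nat_ge (2 / (hi - lo))
  obtain ⟨m, hmdef⟩ : ∃ m : ℕ, m = (edgesIn Q.R).card + m₁ + 1 := ⟨_, rfl⟩
  have hm0 : 0 < m := by omega
  have hm0' : (0 : ℝ) < m := by exact_mod_cast hm0
  have hmcard : (edgesIn Q.R).card ≤ m := by omega
  have hm1 : 1 / (m : ℝ) ≤ hi - hi' := by
    have h1 : (m₁ : ℝ) ≤ m := by exact_mod_cast (by omega : m₁ ≤ m)
    have h2 : 2 / (hi - lo) ≤ m := hm₁.trans h1
    rw [div_le_iff₀ (by linarith)] at h2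
    rw [div_le_iff₀ hm0', hhi']
    linarith
  have hcard : (edgesIn Q.R).card * ∫ t, max 0 (t - (Y : ℝ)) ∂F ≤ 1 := by
    have h1 := card_edgesIn_le Q.R
    have h2 := hM Y hY1
    have hR1 : (1 : ℝ) ≤ (Q.R : ℝ) := by
      rw [hQR]
      push_cast
      exact one_le_pow₀ (one_le_pow₀ hY1)
    have h3 : 2 * (2 * (Q.R : ℝ) + 1) ^ 2 ≤ 18 * (Q.R : ℝ) ^ 2 := by nlinarith
    have h4 : (Q.R : ℝ) ^ 2 = (Y : ℝ) ^ 1608 := by
      rw [hQR]
      push_cast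
      rw [← pow_mul, ← pow_mul]
    have h5 : 0 ≤ M / (Y : ℝ) ^ 1610 := by positivity
    have h6 : 0 ≤ ∫ t, max 0 (t - (Y : ℝ)) ∂F := integral_nonneg (fun t => le_max_left _ _)
    calc (edgesIn Q.R).card * ∫ t, max 0 (t - (Y : ℝ)) ∂F
        ≤ (18 * (Y : ℝ) ^ 1608) * (M / (Y : ℝ) ^ 1610) := by
          rw [← h4]
          exact mul_le_mul (h1.trans h3) h2 h6 (by positivity)
      _ = 18 * M / (Y : ℝ) ^ 2 := by
          have : (Y : ℝ) ^ 1610 = (Y : ℝ) ^ 1608 * (Y : ℝ) ^ 2 := by rw [← pow_add]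
          rw [this]
          field_simp
      _ ≤ 1 := by
          rw [div_le_one (by positivity)]
          exact hYM
  have hlowb : ∀ x ∈ box Q.R, ∀ y ∈ box Q.R,
      c * (|(A x - A y : ℤ)| + |(B x - B y : ℤ)| : ℤ) - 1 ≤
      ∫ ω, TT (ext (Wb W Y) ω) (box Q.R) x y ∂P := fun x hx y hy =>
    mean_low hm hind hF h0 hint hμ hY0.le hcard hx hy
  have hlowb' : ∀ x ∈ box Q.R, ∀ y ∈ box Q.R,
      c * (|(A x - A y : ℤ)| + |(B x - B y : ℤ)| : ℤ) - 1 ≤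
      ∫ ω, TT (ext (Wb W' Y) ω) (box Q.R) x y ∂P := fun x hx y hy =>
    mean_low hm' hind' hF' h0' (fun e => hint _) hμ' hY0.le hcard hx hy
  -- positions of the end points of the lines
  obtain ⟨ℓ, hℓ⟩ : ∃ ℓ : ℕ, ℓ = 2 * Q.N * Q.σ := ⟨_, rfl⟩
  have hℓ1 : 1 ≤ ℓ := by
    rw [hℓ, hQN, hQσ]
    have : 1 ≤ Y := by omega
    have h1 : 1 ≤ (Y ^ 4) ^ 94 := Nat.one_le_pow _ _ (Nat.pos_of_ne_zero (by positivity))
    have h2 : 1 ≤ (Y ^ 4) ^ 106 := Nat.one_le_pow _ _ (Nat.pos_of_ne_zero (by positivity))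
    nlinarith
  have hℓR : (ℓ : ℝ) * (2 * (max C₁ C₂) * Y + 2) ≤ 2 * Q.R := by
    have h1 : (ℓ : ℝ) = 2 * ((Y : ℝ) ^ 4) ^ 200 := by
      rw [hℓ, hQN, hQσ]
      push_cast
      ring
    have h2 : (Q.R : ℝ) = (Y : ℝ) ^ 4 * ((Y : ℝ) ^ 4) ^ 200 := by
      rw [hQR]
      push_cast
      ring
    rw [h1, h2]
    have := mul_le_mul_of_nonneg_left hYbox (show 0 ≤ 2 * ((Y : ℝ) ^ 4) ^ 200 by positivity)
    linarith
  have hbox : ∀ C' : ℝ, C' ≤ max C₁ C₂ → ∀ t : ℕ, t ≤ ℓ → ∀ x : ℤ × ℤ, |x.1| ≤ t → |x.2| ≤ t →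
      ∀ v : ℤ × ℤ, |(v.1 - x.1 : ℤ)| ≤ C' * Y * ℓ → |(v.2 - x.2 : ℤ)| ≤ C' * Y * ℓ →
      v ∈ box Q.R := by
    intro C' hC' t ht x hx1 hx2 v hv1 hv2
    have ht' : (t : ℝ) ≤ ℓ := by exact_mod_cast ht
    have key : ∀ a b : ℤ, |a| ≤ (t : ℤ) → ((|b - a| : ℤ) : ℝ) ≤ C' * Y * ℓ →
        -(Q.R : ℤ) ≤ b ∧ b ≤ Q.R := by
      intro a b ha hb
      have h1 : C' * Y * ℓ ≤ max C₁ C₂ * Y * ℓ := by
        apply mul_le_mul_of_nonneg_right _ (Nat.cast_nonneg ℓ)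
        exact mul_le_mul_of_nonneg_right hC' hY0.le
      have h2 : ((|a| : ℤ) : ℝ) ≤ ℓ := by
        have : ((|a| : ℤ) : ℝ) ≤ t := by exact_mod_cast ha
        linarith
      have h3 : ((|b| : ℤ) : ℝ) ≤ Q.R := by
        have h4 : |b| ≤ |b - a| + |a| := by
          have := abs_add_le (b - a) a
          simpa using this
        have h5 : ((|b| : ℤ) : ℝ) ≤ ((|b - a| : ℤ) : ℝ) + ((|a| : ℤ) : ℝ) := by exact_mod_cast h4
        linarith
      have h6 : |b| ≤ (Q.R : ℤ) := by exact_mod_cast h3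
      exact abs_le.1 h6
    rw [mem_box]
    exact ⟨key x.1 v.1 hx1 (by exact_mod_cast hv1), key x.2 v.2 hx2 (by exact_mod_cast hv2)⟩
  have hlineB : ∀ C' : ℝ, 0 < C' → C' ≤ max C₁ C₂ → 2 * c * (ℓ : ℝ) +
      C' * (Y : ℝ) ^ 4 * Real.sqrt (ℓ : ℝ) * (Real.log (ℓ : ℝ) + 1) ^ 2 ≤
      c * (4 * Q.N * Q.σ) + ((Y ^ 4 : ℕ) : ℝ) ^ 103 := by
    intro C' hC'0 hC'
    rw [hℓ, hQ]
    refine line_bound hY8 (le_trans ?_ hYlog)
    apply mul_le_mul_of_nonneg_right _ (sq_nonneg _)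
    exact mul_le_mul_of_nonneg_right hC' (Real.sqrt_nonneg _)
  have hj : ∀ j ≤ Q.N, 2 * j * Q.σ ≤ ℓ := by
    intro j hj
    rw [hℓ]
    exact Nat.mul_le_mul_right _ (Nat.mul_le_mul_left _ hj)
  have hptabs : ∀ t : ℕ, |(pt 0 (t : ℤ)).1| ≤ (t : ℤ) ∧ |(pt 0 (t : ℤ)).2| ≤ (t : ℤ) := by
    intro t
    unfold pt
    simp
  have hptsum : ∀ t : ℕ, pt 0 (t : ℤ) + pt (ℓ : ℤ) 0 = pt (ℓ : ℤ) (t : ℤ) := by
    intro t
    unfold pt
    apply Prod.ext <;> simp <;> ring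
  have hmemR : ∀ t : ℕ, t ≤ ℓ → pt 0 (t : ℤ) ∈ box Q.R ∧ pt (ℓ : ℤ) (t : ℤ) ∈ box Q.R := by
    intro t ht
    have h1 : 2 * ℓ ≤ Q.R := by
      rw [hℓ, hQN, hQσ, hQR]
      have h2 : 4 ≤ Y ^ 4 := by
        calc 4 ≤ Y := by omega
          _ = Y ^ 1 := (pow_one Y).symm
          _ ≤ Y ^ 4 := Nat.pow_le_pow_right (by omega) (by norm_num)
      calc 2 * (2 * (Y ^ 4) ^ 94 * (Y ^ 4) ^ 106) = 4 * (Y ^ 4) ^ 200 := by ring
        _ ≤ Y ^ 4 * (Y ^ 4) ^ 200 := Nat.mul_le_mul_right _ h2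
        _ = (Y ^ 4) ^ 201 := by ring
    rw [mem_box, mem_box]
    unfold pt
    simp only []
    omega
  have hmainU : ∀ t : ℕ, t ≤ ℓ → Ex (dscP F m (m * Y)) (fun ω : EIdx Q.R → Fin (m * Y + 1) =>
      TT (wOf (dval m (m * Y)) ω) (box Q.R) (pt 0 (t : ℤ)) (pt (ℓ : ℤ) (t : ℤ))) ≤
      c * (4 * Q.N * Q.σ) + ((Y ^ 4 : ℕ) : ℝ) ^ 103 := by
    intro t ht
    have h1 := hU Y hY1 hYhi ℓ Q.R (pt 0 (t : ℤ)) hℓ1
      (hbox C₁ (le_max_left _ _) t ht _ (hptabs t).1 (hptabs t).2)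
      (fun y hy => hlowb _ (hmemR t ht).1 y hy)
    rw [hptsum t] at h1
    exact Ex_le hm hind hF h0 hm0 (hmemR t ht).1 (hmemR t ht).2
      (h1.trans (hlineB C₁ hC₁ (le_max_left _ _)))
  have hmainV : ∀ t : ℕ, t ≤ ℓ → Ex (dscP F m (m * Y)) (fun ω : EIdx Q.R → Fin (m * Y + 1) =>
      TT (wOf (dval m (m * Y)) ω) (box Q.R) (pt (t : ℤ) 0) (pt (t : ℤ) (ℓ : ℤ))) ≤
      c * (4 * Q.N * Q.σ) + ((Y ^ 4 : ℕ) : ℝ) ^ 103 := by
    intro t ht
    have h1 := hV Y hY1 hYhi ℓ Q.R (pt 0 (t : ℤ)) hℓ1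
      (hbox C₂ (le_max_right _ _) t ht _ (hptabs t).1 (hptabs t).2)
      (fun y hy => hlowb' _ (hmemR t ht).1 y hy)
    rw [hptsum t] at h1
    have h2 : ∀ ω, TT (ext (Wb W' Y) ω) (box Q.R) (pt 0 (t : ℤ)) (pt (ℓ : ℤ) (t : ℤ)) =
        TT (ext (Wb W Y) ω) (box Q.R) (pt (t : ℤ) 0) (pt (t : ℤ) (ℓ : ℤ)) := by
      intro ω
      rw [TT_rho (w := ext (Wb W Y) ω) (w' := ext (Wb W' Y) ω)
        (fun e => ext_rho (Wb W Y) ω e), rho_pt, rho_pt]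
    simp_rw [h2] at h1
    have hx : pt (t : ℤ) 0 ∈ box Q.R := by
      rw [← rho_pt]
      exact rho_mem_box.2 (hmemR t ht).1
    have hy : pt (t : ℤ) (ℓ : ℤ) ∈ box Q.R := by
      rw [← rho_pt]
      exact rho_mem_box.2 (hmemR t ht).2
    exact Ex_le hm hind hF h0 hm0 hx hy (h1.trans (hlineB C₂ hC₂ (le_max_right _ _)))
  refine hX₀ (Y ^ 4) hYX (Fin (m * Y + 1)) (dscP F m (m * Y)) (dval m (m * Y)) Y
    (dscP_isProb F m (m * Y)) hY1 (by push_cast; exact le_rfl)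
    (fun v => ⟨dval_nonneg _ _ v, dval_le hm0 v⟩) (low_mass hF0 hm0 hYhi hm1 hlow)
    (lo_mass hm0 hlo hloF) ?_ ?_ ?_
  · intro x hx y hy
    have := low_Ex hm hind hF h0 (b := Y) hm0 hmcard hx hy (hlowb x hx y hy)
    linarith
  · intro j hjN
    have h1 := hmainU (2 * j * Q.σ) (hj j hjN)
    have e1 : ((2 * j * Q.σ : ℕ) : ℤ) = 2 * (j : ℤ) * (Q.σ : ℤ) := by push_cast; ring
    have e2 : (ℓ : ℤ) = 2 * (Q.N : ℤ) * (Q.σ : ℤ) := by rw [hℓ]; push_cast; ring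
    rw [e1, e2] at h1
    exact h1
  · intro i hiN
    have h1 := hmainV (2 * i * Q.σ) (hj i hiN)
    have e1 : ((2 * i * Q.σ : ℕ) : ℤ) = 2 * (i : ℤ) * (Q.σ : ℤ) := by push_cast; ring
    have e2 : (ℓ : ℤ) = 2 * (Q.N : ℤ) * (Q.σ : ℤ) := by rw [hℓ]; push_cast; ring
    rw [e1, e2] at h1
    exact h1

end Pool.Agent.Helper33_FPP
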