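import Pool.Agent.Helper33_FPP.ChainProb

/-!
# PB4: greedy lattice animals for failing vertices on a walk
-/

set_option autoImplicit false
open MeasureTheory ProbabilityTheory Filter Topology
namespace Pool.Agent.Helper33_FPP

namespace Greedy

open ChainProb

/-- total length of the jumps -/
def cost : ℤ × ℤ → List (ℤ × ℤ) → ℕ
  | _, [] => 0
  | x, u :: l => dst x u + cost u l

lemma dst_le_len {a b : ℤ × ℤ} (p : Z2.Walk a b) : dst a b ≤ p.length := by
  induction p with
  | nil => simp [dst_self]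
  | cons h p ih =>
      rename_i u v w
      have h1 := dst_tri u v w
      have h2 : dst u v ≤ 1 := by
        rw [Z2_adj_iff] at h
        unfold dst
        omega
      rw [SimpleGraph.Walk.length_cons]
      omega

lemma pick (h : ℕ) : ∀ (k n : ℕ) {x y : ℤ × ℤ} (q : Z2.Walk x y) (U : Finset (ℤ × ℤ)),
    q.length ≤ n → (∀ u ∈ U, u ∈ q.support) → (4 * h + 3) ^ 2 * k ≤ U.card →
    ∃ l : List (ℤ × ℤ), l.length = k ∧ (∀ u ∈ l, u ∈ U) ∧
      l.Pairwise (fun a b => 2 * h < dst a b) ∧ cost x l ≤ n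
  | 0, n, x, y, q, U => by
      intro _ _ _
      exact ⟨[], rfl, by simp, List.Pairwise.nil, Nat.zero_le _⟩
  | k + 1, n, x, y, q, U => by
      classical
      intro hn hU hc
      have hpos : 0 < (4 * h + 3) ^ 2 := by positivity
      have hne : U.Nonempty := by
        rw [← Finset.card_pos]
        have : 0 < (4 * h + 3) ^ 2 * (k + 1) := by positivity
        omega
      have hex : ∃ t, t ≤ q.length ∧ q.getVert t ∈ U := by
        obtain ⟨u, hu⟩ := hne
        obtain ⟨t, ht, ht2⟩ := (SimpleGraph.Walk.mem_support_iff_exists_getVert).mp (hU u hu)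
        exact ⟨t, ht2, by rw [ht]; exact hu⟩
      set t := Nat.find hex with htdef
      have ht := Nat.find_spec hex
      rw [← htdef] at ht
      have hmin : ∀ s, s ≤ q.length → q.getVert s ∈ U → t ≤ s := fun s h1 h2 =>
        Nat.find_min' hex ⟨h1, h2⟩
      set u1 := q.getVert t with hu1
      set U' := U.filter (fun u => 2 * h < dst u1 u) with hU'
      have hcard : (4 * h + 3) ^ 2 * k ≤ U'.card := by
        have h1 : U.card ≤ U'.card + (BxF u1 (2 * h)).card := by
          calc U.card ≤ (U' ∪ BxF u1 (2 * h)).card := by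
                apply Finset.card_le_card
                intro u hu
                rw [Finset.mem_union, hU', Finset.mem_filter, mem_BxF]
                by_cases h2 : 2 * h < dst u1 u
                · exact Or.inl ⟨hu, h2⟩
                · right
                  change dst u u1 ≤ 2 * h
                  rw [dst_comm]
                  omega
            _ ≤ _ := Finset.card_union_le _ _
        rw [card_BxF] at h1
        have h2 : (2 * (2 * h) + 1) ^ 2 ≤ (4 * h + 3) ^ 2 := Nat.pow_le_pow_left (by omega) 2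
        have h3 : (4 * h + 3) ^ 2 * (k + 1) = (4 * h + 3) ^ 2 * k + (4 * h + 3) ^ 2 := by ring
        omega
      have hsup : ∀ u ∈ U', u ∈ (q.drop t).support := by
        intro u hu
        have huU := (Finset.mem_filter.mp hu).1
        obtain ⟨s, hs, hs2⟩ := (SimpleGraph.Walk.mem_support_iff_exists_getVert).mp (hU u huU)
        have hts := hmin s hs2 (by rw [hs]; exact huU)
        rw [SimpleGraph.Walk.mem_support_iff_exists_getVert]
        refine ⟨s - t, ?_, ?_⟩
        · rw [SimpleGraph.Walk.drop_getVert]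
          rw [← hs]; congr 1; omega
        · rw [SimpleGraph.Walk.drop_length]; omega
      obtain ⟨l, hl1, hl2, hl3, hl4⟩ := pick h k (n - t) (q.drop t) U'
        (by rw [SimpleGraph.Walk.drop_length]; omega) hsup hcard
      refine ⟨u1 :: l, by simp [hl1], ?_, ?_, ?_⟩
      · intro u hu
        rcases List.mem_cons.mp hu with h1 | h1
        · rw [h1]; exact ht.2
        · exact (Finset.mem_filter.mp (hl2 u h1)).1
      · rw [List.pairwise_cons]
        exact ⟨fun u hu => (Finset.mem_filter.mp (hl2 u hu)).2, hl3⟩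
      · have h1 : dst x u1 ≤ t := by
          have := dst_le_len (q.take t)
          rw [SimpleGraph.Walk.take_length] at this
          exact this.trans (min_le_left _ _)
        change dst x u1 + cost u1 l ≤ n
        have h2 : cost u1 l ≤ n - t := hl4
        omega

/-- sequences of points with bounded jumps -/
noncomputable def SeqL (n : ℕ) : ℕ → (ℤ × ℤ) → Finset (List (ℤ × ℤ))
  | 0, _ => {[]}
  | k + 1, x => (BxF x n).biUnion (fun u => (SeqL n k u).image (fun l => u :: l))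

lemma mem_SeqL (n : ℕ) : ∀ (k : ℕ) (x : ℤ × ℤ) (l : List (ℤ × ℤ)), l.length = k → cost x l ≤ n →
    l ∈ SeqL n k x
  | 0, x, l => by
      intro h _
      rw [List.length_eq_zero_iff] at h
      simp [SeqL, h]
  | k + 1, x, l => by
      intro h hc
      rcases l with _ | ⟨u, l⟩
      · simp at h
      · have hc' : dst x u + cost u l ≤ n := hc
        unfold SeqL
        rw [Finset.mem_biUnion]
        refine ⟨u, ?_, Finset.mem_image.mpr ⟨l, mem_SeqL n k u l (by simpa using h) (by omega), rfl⟩⟩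
        rw [mem_BxF]
        change dst u x ≤ n
        rw [dst_comm]; omega

lemma sum_int {s : ℝ} (hs : 0 < s) (n : ℕ) :
    ∑ a ∈ Finset.Icc (-(n : ℤ)) n, Real.exp (-s * a.natAbs) ≤ 2 * (1 + 1 / s) := by
  have hr0 : 0 < Real.exp (-s) := Real.exp_pos _
  have hr1 : Real.exp (-s) < 1 := by rw [Real.exp_lt_one_iff]; linarith
  have hgeom : ∀ m : ℕ, ∑ i ∈ Finset.range m, (Real.exp (-s)) ^ i ≤ 1 + 1 / s := by
    intro m
    have h1 : ∑ i ∈ Finset.range m, (Real.exp (-s)) ^ i ≤ (1 - Real.exp (-s))⁻¹ := by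
      calc ∑ i ∈ Finset.range m, (Real.exp (-s)) ^ i ≤ ∑' i : ℕ, (Real.exp (-s)) ^ i :=
            (summable_geometric_of_lt_one hr0.le hr1).sum_le_tsum _
              (fun i _ => pow_nonneg hr0.le i)
        _ = _ := tsum_geometric_of_lt_one hr0.le hr1
    refine h1.trans ?_
    have h2 : s / (1 + s) ≤ 1 - Real.exp (-s) := by
      have h3 : Real.exp (-s) ≤ 1 / (1 + s) := by
        rw [Real.exp_neg, one_div]
        apply inv_anti₀ (by linarith)
        have := Real.add_one_le_exp s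
        linarith
      have h4 : s / (1 + s) = 1 - 1 / (1 + s) := by field_simp; ring
      rw [h4]; linarith
    calc (1 - Real.exp (-s))⁻¹ ≤ (s / (1 + s))⁻¹ := inv_anti₀ (by positivity) h2
      _ = 1 + 1 / s := by field_simp; ring
  have hpow : ∀ m : ℕ, Real.exp (-s * (m : ℝ)) = (Real.exp (-s)) ^ m := by
    intro m
    rw [← Real.exp_nat_mul]; congr 1; ring
  have hsub : Finset.Icc (-(n : ℤ)) n ⊆
      (Finset.range (n + 1)).image (fun i : ℕ => (i : ℤ)) ∪
        (Finset.range (n + 1)).image (fun i : ℕ => -(i : ℤ)) := by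
    intro a ha
    rw [Finset.mem_Icc] at ha
    rw [Finset.mem_union, Finset.mem_image, Finset.mem_image]
    rcases le_total 0 a with h | h
    · left; exact ⟨a.toNat, by rw [Finset.mem_range]; omega, by omega⟩
    · right; exact ⟨(-a).toNat, by rw [Finset.mem_range]; omega, by omega⟩
  have him : ∀ f : ℕ → ℤ, (∀ i, (f i).natAbs = i) →
      ∑ a ∈ (Finset.range (n + 1)).image f, Real.exp (-s * a.natAbs) ≤ 1 + 1 / s := by
    intro f hf
    rw [Finset.sum_image]
    · calc ∑ i ∈ Finset.range (n + 1), Real.exp (-s * ((f i).natAbs : ℝ))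
          = ∑ i ∈ Finset.range (n + 1), (Real.exp (-s)) ^ i :=
            Finset.sum_congr rfl fun i _ => by rw [hf i, hpow]
        _ ≤ _ := hgeom _
    · intro i _ j _ hij
      have := congrArg Int.natAbs hij
      rwa [hf i, hf j] at this
  calc ∑ a ∈ Finset.Icc (-(n : ℤ)) n, Real.exp (-s * a.natAbs)
      ≤ ∑ a ∈ (Finset.range (n + 1)).image (fun i : ℕ => (i : ℤ)) ∪
        (Finset.range (n + 1)).image (fun i : ℕ => -(i : ℤ)), Real.exp (-s * a.natAbs) :=
        Finset.sum_le_sum_of_subset_of_nonneg hsub fun _ _ _ => (Real.exp_pos _).le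
    _ ≤ ∑ a ∈ (Finset.range (n + 1)).image (fun i : ℕ => (i : ℤ)), Real.exp (-s * a.natAbs) +
        ∑ a ∈ (Finset.range (n + 1)).image (fun i : ℕ => -(i : ℤ)), Real.exp (-s * a.natAbs) := by
        have := Finset.sum_union_inter
          (s₁ := (Finset.range (n + 1)).image (fun i : ℕ => (i : ℤ)))
          (s₂ := (Finset.range (n + 1)).image (fun i : ℕ => -(i : ℤ)))
          (f := fun a : ℤ => Real.exp (-s * a.natAbs))
        have h0 : 0 ≤ ∑ a ∈ (Finset.range (n + 1)).image (fun i : ℕ => (i : ℤ)) ∩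
          (Finset.range (n + 1)).image (fun i : ℕ => -(i : ℤ)), Real.exp (-s * a.natAbs) :=
          Finset.sum_nonneg fun _ _ => (Real.exp_pos _).le
        linarith
    _ ≤ (1 + 1 / s) + (1 + 1 / s) := add_le_add (him _ (fun i => by simp)) (him _ (fun i => by simp))
    _ = _ := by ring

lemma sum_BxF {lam : ℝ} (hl : 0 < lam) (x : ℤ × ℤ) (n : ℕ) :
    ∑ u ∈ BxF x n, Real.exp (-lam * dst x u) ≤ (2 * (1 + 2 / lam)) ^ 2 := by
  have h1 : ∑ u ∈ BxF x n, Real.exp (-lam * dst x u) ≤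
      ∑ u ∈ BxF x n, Real.exp (-(lam / 2) * (u.1 - x.1).natAbs) *
        Real.exp (-(lam / 2) * (u.2 - x.2).natAbs) := by
    refine Finset.sum_le_sum fun u _ => ?_
    rw [← Real.exp_add]
    apply Real.exp_le_exp.mpr
    have h2 : ((u.1 - x.1).natAbs : ℝ) + ((u.2 - x.2).natAbs : ℝ) ≤ 2 * (dst x u : ℝ) := by
      have : (u.1 - x.1).natAbs + (u.2 - x.2).natAbs ≤ 2 * dst x u := by
        unfold dst; omega
      exact_mod_cast this
    nlinarith
  refine h1.trans ?_
  unfold BxF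
  rw [Finset.sum_product]
  have h3 : ∀ c : ℤ, ∑ a ∈ Finset.Icc (c - n) (c + n), Real.exp (-(lam / 2) * (a - c).natAbs) ≤
      2 * (1 + 2 / lam) := by
    intro c
    have h4 := sum_int (s := lam / 2) (by linarith) n
    have h5 : 2 * (1 + 1 / (lam / 2)) = 2 * (1 + 2 / lam) := by field_simp
    rw [h5] at h4
    refine le_trans (le_of_eq ?_) h4
    refine Finset.sum_nbij' (fun a => a - c) (fun a => a + c) ?_ ?_ ?_ ?_ ?_
    · intro a ha; rw [Finset.mem_Icc] at ha ⊢; omega
    · intro a ha; rw [Finset.mem_Icc] at ha ⊢; omega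
    · intro a _; ring
    · intro a _; ring
    · intro a _; rfl
  have h6 : ∀ c : ℤ, 0 ≤ ∑ a ∈ Finset.Icc (c - n) (c + n),
      Real.exp (-(lam / 2) * (a - c).natAbs) := fun c => Finset.sum_nonneg fun _ _ => (Real.exp_pos _).le
  calc ∑ a ∈ Finset.Icc (x.1 - n) (x.1 + n), ∑ b ∈ Finset.Icc (x.2 - n) (x.2 + n),
        Real.exp (-(lam / 2) * (a - x.1).natAbs) * Real.exp (-(lam / 2) * (b - x.2).natAbs)
      = (∑ a ∈ Finset.Icc (x.1 - n) (x.1 + n), Real.exp (-(lam / 2) * (a - x.1).natAbs)) *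
        ∑ b ∈ Finset.Icc (x.2 - n) (x.2 + n), Real.exp (-(lam / 2) * (b - x.2).natAbs) := by
        rw [Finset.sum_mul_sum]
    _ ≤ (2 * (1 + 2 / lam)) * (2 * (1 + 2 / lam)) :=
        mul_le_mul (h3 _) (h3 _) (h6 _) ((h6 x.1).trans (h3 x.1))
    _ = _ := by ring

lemma sum_SeqL {lam : ℝ} (hl : 0 < lam) (n : ℕ) : ∀ (k : ℕ) (x : ℤ × ℤ),
    ∑ l ∈ SeqL n k x, Real.exp (-lam * cost x l) ≤ ((2 * (1 + 2 / lam)) ^ 2) ^ k
  | 0, x => by simp [SeqL, cost]
  | k + 1, x => by
      unfold SeqL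
      calc ∑ l ∈ (BxF x n).biUnion (fun u => (SeqL n k u).image (fun l => u :: l)),
            Real.exp (-lam * cost x l)
          = ∑ u ∈ BxF x n, ∑ l ∈ (SeqL n k u).image (fun l => u :: l), Real.exp (-lam * cost x l) := by
            refine Finset.sum_biUnion ?_
            intro u _ u' _ huu
            refine Finset.disjoint_left.mpr fun l h1 h2 => ?_
            obtain ⟨l1, _, h1⟩ := Finset.mem_image.mp h1
            obtain ⟨l2, _, h2⟩ := Finset.mem_image.mp h2
            exact huu (List.cons.inj (h1.trans h2.symm)).1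
        _ = ∑ u ∈ BxF x n, Real.exp (-lam * dst x u) *
              ∑ l ∈ SeqL n k u, Real.exp (-lam * cost u l) := by
            refine Finset.sum_congr rfl fun u _ => ?_
            rw [Finset.sum_image (fun a _ b _ h => (List.cons.inj h).2), Finset.mul_sum]
            refine Finset.sum_congr rfl fun l _ => ?_
            rw [← Real.exp_add]
            congr 1
            have : cost x (u :: l) = dst x u + cost u l := rfl
            rw [this]
            push_cast
            ring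
        _ ≤ ∑ u ∈ BxF x n, Real.exp (-lam * dst x u) * ((2 * (1 + 2 / lam)) ^ 2) ^ k :=
            Finset.sum_le_sum fun u _ =>
              mul_le_mul_of_nonneg_left (sum_SeqL hl n k u) (Real.exp_pos _).le
        _ = (∑ u ∈ BxF x n, Real.exp (-lam * dst x u)) * ((2 * (1 + 2 / lam)) ^ 2) ^ k := by
            rw [Finset.sum_mul]
        _ ≤ (2 * (1 + 2 / lam)) ^ 2 * ((2 * (1 + 2 / lam)) ^ 2) ^ k := by
            gcongr
            exact sum_BxF hl x n
        _ = _ := by ring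

/-- edges with both end points in `D` -/
noncomputable def ES (D : Finset (ℤ × ℤ)) : Finset Z2.edgeSet := by
  classical
  exact D.sym2.subtype (· ∈ Z2.edgeSet)

lemma mem_ES {D : Finset (ℤ × ℤ)} {e : Z2.edgeSet} : e ∈ ES D ↔ ∀ v ∈ e.1, v ∈ D := by
  classical
  unfold ES
  rw [Finset.mem_subtype, Finset.mem_sym2_iff]

lemma ES_disjoint {D D' : Finset (ℤ × ℤ)} (h : Disjoint D D') : Disjoint (ES D) (ES D') := by
  rw [Finset.disjoint_left]
  rintro ⟨e, he⟩ h1 h2
  rw [mem_ES] at h1 h2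
  induction e with
  | h a b =>
    exact (Finset.disjoint_left.mp h) (h1 a (Sym2.mem_mk_left a b)) (h2 a (Sym2.mem_mk_left a b))

/-- `Ψ` depends only on the edges inside `D`. -/
def Loc (D : Finset (ℤ × ℤ)) (Ψ : (Sym2 (ℤ × ℤ) → ℝ) → Prop) : Prop :=
  ∀ w w', (∀ e : Sym2 (ℤ × ℤ), (∀ v ∈ e, v ∈ D) → w e = w' e) → (Ψ w ↔ Ψ w')

/-- weights from the weights of the edges inside `D` -/
noncomputable def unres (D : Finset (ℤ × ℤ)) (a : ES D → ℝ) (e : Sym2 (ℤ × ℤ)) : ℝ := by
  classical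
  exact if h : ∃ he : e ∈ Z2.edgeSet, (⟨e, he⟩ : Z2.edgeSet) ∈ ES D then a ⟨⟨e, h.1⟩, h.2⟩ else 0

lemma measurable_unres (D : Finset (ℤ × ℤ)) : Measurable (unres D) := by
  classical
  rw [measurable_pi_iff]
  intro e
  by_cases h : ∃ he : e ∈ Z2.edgeSet, (⟨e, he⟩ : Z2.edgeSet) ∈ ES D
  · have : (fun a : ES D → ℝ => unres D a e) = fun a => a ⟨⟨e, h.1⟩, h.2⟩ := by
      funext a
      unfold unres
      rw [dif_pos h]
    rw [this]
    exact measurable_pi_apply _
  · have : (fun a : ES D → ℝ => unres D a e) = fun a => 0 := by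
      funext a
      unfold unres
      rw [dif_neg h]
    rw [this]
    exact measurable_const

lemma loc_iff {Ω : Type} {D : Finset (ℤ × ℤ)} {Ψ : (Sym2 (ℤ × ℤ) → ℝ) → Prop} (h : Loc D Ψ)
    (W : Z2.edgeSet → Ω → ℝ) (ω : Ω) :
    Ψ (ext W ω) ↔ Ψ (unres D (fun e : ES D => W e ω)) := by
  classical
  apply h
  intro e he
  unfold ext unres
  by_cases h1 : e ∈ Z2.edgeSet
  · have h2 : ∃ he : e ∈ Z2.edgeSet, (⟨e, he⟩ : Z2.edgeSet) ∈ ES D := ⟨h1, mem_ES.mpr he⟩
    rw [dif_pos h1, dif_pos h2]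
  · have h2 : ¬ ∃ he : e ∈ Z2.edgeSet, (⟨e, he⟩ : Z2.edgeSet) ∈ ES D := fun h => h1 h.1
    rw [dif_neg h1, dif_neg h2]

section
variable {Ω : Type} [MeasurableSpace Ω] {P : Measure Ω} [IsProbabilityMeasure P]
  {W : Z2.edgeSet → Ω → ℝ}

lemma indep_loc (hm : ∀ e, Measurable (W e)) (hind : iIndepFun W P) {D D' : Finset (ℤ × ℤ)}
    (hD : Disjoint D D') {Ψ Ψ' : (Sym2 (ℤ × ℤ) → ℝ) → Prop} (h : Loc D Ψ) (h' : Loc D' Ψ')
    (hΨ : MeasurableSet {w | Ψ w}) (hΨ' : MeasurableSet {w | Ψ' w}) :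
    P.real {ω | Ψ (ext W ω) ∧ Ψ' (ext W ω)} =
      P.real {ω | Ψ (ext W ω)} * P.real {ω | Ψ' (ext W ω)} := by
  have hI := hind.indepFun_finset (ES D) (ES D') (ES_disjoint hD) hm
  have h1 := hI.measure_inter_preimage_eq_mul (unres D ⁻¹' {w | Ψ w}) (unres D' ⁻¹' {w | Ψ' w})
    ((measurable_unres D) hΨ) ((measurable_unres D') hΨ')
  have e1 : {ω | Ψ (ext W ω)} = (fun (a : Ω) (i : ES D) => W i a) ⁻¹' (unres D ⁻¹' {w | Ψ w}) := by
    ext ω
    exact loc_iff h W ω
  have e2 : {ω | Ψ' (ext W ω)} =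
      (fun (a : Ω) (i : ES D') => W i a) ⁻¹' (unres D' ⁻¹' {w | Ψ' w}) := by
    ext ω
    exact loc_iff h' W ω
  have e3 : {ω | Ψ (ext W ω) ∧ Ψ' (ext W ω)} = {ω | Ψ (ext W ω)} ∩ {ω | Ψ' (ext W ω)} := rfl
  rw [e3, e1, e2, Measure.real, Measure.real, Measure.real, h1, ENNReal.toReal_mul]

lemma prob_pairwise (hm : ∀ e, Measurable (W e)) (hind : iIndepFun W P) {h : ℕ}
    {Φ : ℤ × ℤ → (Sym2 (ℤ × ℤ) → ℝ) → Prop} (hloc : ∀ u, Loc (BxF u h) (Φ u))
    (hms : ∀ u, MeasurableSet {w | Φ u w}) {p : ℝ} (hp : ∀ u, P.real {ω | Φ u (ext W ω)} ≤ p) :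
    ∀ l : List (ℤ × ℤ), l.Pairwise (fun a b => 2 * h < dst a b) →
      P.real {ω | ∀ u ∈ l, Φ u (ext W ω)} ≤ p ^ l.length
  | [], _ => by
      simp
  | u :: l, hl => by
      classical
      rw [List.pairwise_cons] at hl
      have hloc' : Loc (l.toFinset.biUnion (fun v => BxF v h)) (fun w => ∀ v ∈ l, Φ v w) := by
        intro w w' hww
        refine forall_congr' fun v => ?_
        refine forall_congr' fun hv => ?_
        apply hloc v
        intro e he
        apply hww
        intro a ha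
        exact Finset.mem_biUnion.mpr ⟨v, List.mem_toFinset.mpr hv, he a ha⟩
      have hms' : MeasurableSet {w : Sym2 (ℤ × ℤ) → ℝ | ∀ v ∈ l, Φ v w} := by
        have : {w : Sym2 (ℤ × ℤ) → ℝ | ∀ v ∈ l, Φ v w} = ⋂ v ∈ {v | v ∈ l}, {w | Φ v w} := by
          ext w
          simp
        rw [this]
        exact MeasurableSet.biInter (Set.to_countable _) fun v _ => hms v
      have hdis : Disjoint (BxF u h) (l.toFinset.biUnion (fun v => BxF v h)) := by
        rw [Finset.disjoint_left]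
        intro a ha hb
        obtain ⟨v, hv, hav⟩ := Finset.mem_biUnion.mp hb
        rw [mem_BxF] at ha hav
        have h1 := hl.1 v (List.mem_toFinset.mp hv)
        have h2 := dst_tri u a v
        have h3 : dst a u ≤ h := ha
        have h4 : dst a v ≤ h := hav
        rw [dst_comm a u] at h3
        omega
      have h5 := indep_loc hm hind hdis (hloc u) hloc' (hms u) hms'
      have e1 : {ω | ∀ v ∈ u :: l, Φ v (ext W ω)} =
          {ω | Φ u (ext W ω) ∧ ∀ v ∈ l, Φ v (ext W ω)} := by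
        ext ω
        simp
      have hp0 : 0 ≤ p := measureReal_nonneg.trans (hp u)
      rw [e1, h5, List.length_cons, pow_succ, mul_comm (p ^ l.length)]
      exact mul_le_mul (hp u) (prob_pairwise hm hind hloc hms hp l hl.2) measureReal_nonneg hp0

end

end Greedy

open Greedy ChainProb in
/-- Greedy bound for the number of failing vertices on a walk. -/
theorem greedy : ∃ C₁ : ℝ, 0 < C₁ ∧
    ∀ {Ω : Type} [MeasurableSpace Ω] {P : Measure Ω} [IsProbabilityMeasure P]
      {F : Measure ℝ} [IsProbabilityMeasure F] {W : Z2.edgeSet → Ω → ℝ}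
      (_ : ∀ e, Measurable (W e)) (_ : iIndepFun W P) (_ : ∀ e, P.map (W e) = F)
      (h : ℕ) (Φ : ℤ × ℤ → (Sym2 (ℤ × ℤ) → ℝ) → Prop)
      (_ : ∀ u w w', (∀ e : Sym2 (ℤ × ℤ), (∀ v ∈ e, v ∈ Bx u h) → w e = w' e) → (Φ u w ↔ Φ u w'))
      (_ : ∀ u, MeasurableSet {w : Sym2 (ℤ × ℤ) → ℝ | Φ u w}) (p : ℝ)
      (_ : ∀ u, P.real {ω | Φ u (ext W ω)} ≤ p)
      (x : ℤ × ℤ) (n k : ℕ), 1 ≤ k →
      P.real {ω | ∃ (y : ℤ × ℤ) (q : Z2.Walk x y), q.length ≤ n ∧
        (4 * h + 3) ^ 2 * k ≤ {u ∈ (q.support.toFinset : Set (ℤ × ℤ)) | Φ u (ext W ω)}.ncard} ≤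
        (C₁ * (((n : ℝ) + k) / k) ^ 2 * p) ^ k := by
  refine ⟨36 * Real.exp 1, by positivity, ?_⟩
  intro Ω _ P _ F _ W hm hind _ h Φ hloc hms p hp x n k hk
  classical
  have hp0 : 0 ≤ p := measureReal_nonneg.trans (hp x)
  have hloc' : ∀ u, Loc (BxF u h) (Φ u) := by
    intro u w w' hw
    exact hloc u w w' (fun e he => hw e (fun v hv => mem_BxF.mpr (he v hv)))
  have hk0 : (0 : ℝ) < k := by exact_mod_cast hk
  have hn0 : (0 : ℝ) ≤ n := Nat.cast_nonneg n
  set lam : ℝ := k / (n + k) with hlam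
  have hlam0 : 0 < lam := by positivity
  have hlam1 : lam ≤ 1 := by rw [hlam, div_le_one (by positivity)]; linarith
  set S := (SeqL n k x).filter (fun l => l.length = k ∧ cost x l ≤ n ∧
    l.Pairwise (fun a b => 2 * h < dst a b)) with hS
  have hsub : {ω | ∃ (y : ℤ × ℤ) (q : Z2.Walk x y), q.length ≤ n ∧
        (4 * h + 3) ^ 2 * k ≤ {u ∈ (q.support.toFinset : Set (ℤ × ℤ)) | Φ u (ext W ω)}.ncard} ⊆
      ⋃ l ∈ S, {ω | ∀ u ∈ l, Φ u (ext W ω)} := by
    rintro ω ⟨y, q, hq, hc⟩
    have e1 : {u ∈ (q.support.toFinset : Set (ℤ × ℤ)) | Φ u (ext W ω)} =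
        ((q.support.toFinset.filter (fun u => Φ u (ext W ω)) : Finset (ℤ × ℤ)) : Set (ℤ × ℤ)) := by
      rw [Finset.coe_filter]
      rfl
    rw [e1, Set.ncard_coe_finset] at hc
    obtain ⟨l, h1, h2, h3, h4⟩ := pick h k n q (q.support.toFinset.filter (fun u => Φ u (ext W ω)))
      hq (fun u hu => List.mem_toFinset.mp (Finset.mem_filter.mp hu).1) hc
    rw [Set.mem_iUnion₂]
    refine ⟨l, Finset.mem_filter.mpr ⟨mem_SeqL n k x l h1 h4, h1, h4, h3⟩, ?_⟩
    intro u hu
    exact (Finset.mem_filter.mp (h2 u hu)).2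
  have hcard : (S.card : ℝ) ≤ (36 * Real.exp 1 * (((n : ℝ) + k) / k) ^ 2) ^ k := by
    have h1 : (S.card : ℝ) * Real.exp (-lam * n) ≤ ((2 * (1 + 2 / lam)) ^ 2) ^ k := by
      calc (S.card : ℝ) * Real.exp (-lam * n) = ∑ l ∈ S, Real.exp (-lam * n) := by
            rw [Finset.sum_const, nsmul_eq_mul]
        _ ≤ ∑ l ∈ S, Real.exp (-lam * cost x l) := by
            refine Finset.sum_le_sum fun l hl => ?_
            apply Real.exp_le_exp.mpr
            have : (cost x l : ℝ) ≤ n := by exact_mod_cast (Finset.mem_filter.mp hl).2.2.1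
            nlinarith
        _ ≤ ∑ l ∈ SeqL n k x, Real.exp (-lam * cost x l) :=
            Finset.sum_le_sum_of_subset_of_nonneg (Finset.filter_subset _ _)
              (fun _ _ _ => (Real.exp_pos _).le)
        _ ≤ _ := sum_SeqL hlam0 n k x
    have h2 : (2 * (1 + 2 / lam)) ^ 2 ≤ 36 * (((n : ℝ) + k) / k) ^ 2 := by
      have h3 : 1 + 2 / lam ≤ 3 * (((n : ℝ) + k) / k) := by
        have h4 : 2 / lam = 2 * (((n : ℝ) + k) / k) := by
          rw [hlam]; field_simp
        have h5 : 1 ≤ ((n : ℝ) + k) / k := by rw [le_div_iff₀ hk0]; linarith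
        rw [h4]; linarith
      have h6 : 0 ≤ 2 * (1 + 2 / lam) := by positivity
      calc (2 * (1 + 2 / lam)) ^ 2 ≤ (2 * (3 * (((n : ℝ) + k) / k))) ^ 2 := by gcongr
        _ = _ := by ring
    have h7 : Real.exp (lam * n) ≤ (Real.exp 1) ^ k := by
      rw [← Real.exp_nat_mul]
      apply Real.exp_le_exp.mpr
      rw [hlam]
      rw [div_mul_eq_mul_div, div_le_iff₀ (by positivity)]
      nlinarith
    have h8 : (S.card : ℝ) = (S.card : ℝ) * Real.exp (-lam * n) * Real.exp (lam * n) := by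
      rw [mul_assoc, ← Real.exp_add]
      simp
    rw [h8]
    calc (S.card : ℝ) * Real.exp (-lam * n) * Real.exp (lam * n)
        ≤ (36 * (((n : ℝ) + k) / k) ^ 2) ^ k * (Real.exp 1) ^ k := by
          refine mul_le_mul (h1.trans ?_) h7 (Real.exp_pos _).le (by positivity)
          exact pow_le_pow_left₀ (by positivity) h2 k
      _ = _ := by rw [← mul_pow]; congr 1; ring
  calc P.real {ω | ∃ (y : ℤ × ℤ) (q : Z2.Walk x y), q.length ≤ n ∧
        (4 * h + 3) ^ 2 * k ≤ {u ∈ (q.support.toFinset : Set (ℤ × ℤ)) | Φ u (ext W ω)}.ncard}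
      ≤ P.real (⋃ l ∈ S, {ω | ∀ u ∈ l, Φ u (ext W ω)}) := measureReal_mono hsub (measure_ne_top _ _)
    _ ≤ ∑ l ∈ S, P.real {ω | ∀ u ∈ l, Φ u (ext W ω)} := measureReal_biUnion_finset_le _ _
    _ ≤ ∑ l ∈ S, p ^ k := by
        refine Finset.sum_le_sum fun l hl => ?_
        have h1 := (Finset.mem_filter.mp hl).2
        have h2 := prob_pairwise hm hind hloc' hms hp l h1.2.2
        rwa [h1.1] at h2
    _ = S.card * p ^ k := by rw [Finset.sum_const, nsmul_eq_mul]
    _ ≤ (36 * Real.exp 1 * (((n : ℝ) + k) / k) ^ 2) ^ k * p ^ k := by gcongr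
    _ = _ := by rw [← mul_pow]

end Pool.Agent.Helper33_FPP
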