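import Pool.Agent.Helper33_FPP.LowerMean

/-!
# Module PB5a: concatenation of translated walks inside a box
-/

set_option autoImplicit false

namespace Pool.Agent.Helper33_FPP

open Finset MeasureTheory ProbabilityTheory Filter Topology

namespace NMConc

open LM

lemma exists_shift_walk {Ω : Type*} (W : Z2.edgeSet → Ω → ℝ) (ω : Ω) {R T : ℕ} {x y : ℤ × ℤ}
    (hx : x ∈ box R) (hy : y ∈ box R) (s : ℤ × ℤ) (hs : ∀ v ∈ box R, v + s ∈ box T) :
    ∃ q : Z2.Walk (x + s) (y + s), IsIn (box T : Set (ℤ × ℤ)) q ∧ wt (ext W ω) q =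
      minW (esets R x y) (esets_nonempty hx hy) (fun i => W (shiftE s i) ω) := by
  classical
  obtain ⟨S, hS, hSe⟩ := Finset.exists_mem_eq_inf' (esets_nonempty hx hy)
    (fun S => ∑ i ∈ S, W (shiftE s i) ω)
  obtain ⟨p, hpp, hp, rfl⟩ := mem_esets.1 hS
  have e1 : shiftHom s x = x + s := rfl
  have e2 : shiftHom s y = y + s := rfl
  refine ⟨(p.map (shiftHom s)).copy e1 e2, ?_, ?_⟩
  · apply isIn_copy
    intro v hv
    rw [SimpleGraph.Walk.support_map, List.mem_map] at hv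
    obtain ⟨u, hu, rfl⟩ := hv
    exact hs u (hp u hu)
  unfold minW
  rw [hSe, wt_copy]
  have h1 : wt (ext W ω) (p.map (shiftHom s)) =
      wt (fun e => ext W ω (Sym2.map (shiftHom s) e)) p := by
    unfold wt
    rw [SimpleGraph.Walk.edges_map, List.map_map]
    rfl
  rw [h1, wt_eq_sum hpp hp]
  refine Finset.sum_congr rfl fun i _ => ?_
  unfold ext
  rw [dif_pos (shift_edge s (mem_edgesIn.1 i.2).2)]
  rfl

lemma exists_long_walk {Ω : Type*} (W : Z2.edgeSet → Ω → ℝ) (ω : Ω) {R : ℕ} {x y : ℤ × ℤ}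
    (hx : x ∈ box R) (hy : y ∈ box R) (N : ℕ) : ∀ n ≤ N,
    ∃ q : Z2.Walk 0 (n • (y - x)), IsIn (box ((2 * N + 2) * R) : Set (ℤ × ℤ)) q ∧
      wt (ext W ω) q =
      ∑ k ∈ range n, minW (esets R x y) (esets_nonempty hx hy)
        (fun i => W (shiftE (k • (y - x) - x) i) ω) := by
  intro n
  induction n with
  | zero =>
    intro _
    refine ⟨(SimpleGraph.Walk.nil : Z2.Walk 0 0).copy rfl (by simp), ?_, ?_⟩
    · apply isIn_copy
      intro v hv
      rw [SimpleGraph.Walk.support_nil, List.mem_singleton] at hv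
      rw [hv, Finset.mem_coe, mem_box]
      have : (0 : ℤ) ≤ (((2 * N + 2) * R : ℕ) : ℤ) := Int.natCast_nonneg _
      simp only [Prod.fst_zero, Prod.snd_zero]
      omega
    · rw [wt_copy, wt_nil]; simp
  | succ n ih =>
    intro hn
    obtain ⟨q, hqb, hq⟩ := ih (by omega)
    obtain ⟨r, hrb, hr⟩ := exists_shift_walk W ω hx hy (T := (2 * N + 2) * R)
      (n • (y - x) - x) (by
        intro v hv
        rw [mem_box] at hv hx hy ⊢
        have h1 : (n : ℤ) ≤ N := by omega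
        have h2 : (0 : ℤ) ≤ n := Int.natCast_nonneg _
        have hR : (0 : ℤ) ≤ R := Int.natCast_nonneg _
        have key : ∀ a b c : ℤ, -(R : ℤ) ≤ a → a ≤ R → -(R : ℤ) ≤ b → b ≤ R → -(R : ℤ) ≤ c →
            c ≤ R → -(((2 * N + 2) * R : ℕ) : ℤ) ≤ c + ((n : ℤ) * (b - a) - a) ∧
              c + ((n : ℤ) * (b - a) - a) ≤ (((2 * N + 2) * R : ℕ) : ℤ) := by
          intro a b c ha1 ha2 hb1 hb2 hc1 hc2
          push_cast
          have h3 : (n : ℤ) * (b - a) ≤ n * (2 * R) := by nlinarith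
          have h4 : -((n : ℤ) * (2 * R)) ≤ n * (b - a) := by nlinarith
          have h5 : (n : ℤ) * (2 * R) ≤ N * (2 * R) := by nlinarith
          constructor <;> nlinarith
        simp only [Prod.fst_add, Prod.snd_add, Prod.fst_sub, Prod.snd_sub, Prod.smul_fst,
          Prod.smul_snd, nsmul_eq_mul]
        exact ⟨key _ _ _ hx.1.1 hx.1.2 hy.1.1 hy.1.2 hv.1.1 hv.1.2,
          key _ _ _ hx.2.1 hx.2.2 hy.2.1 hy.2.2 hv.2.1 hv.2.2⟩)
    have e1 : x + (n • (y - x) - x) = n • (y - x) := by abel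
    have e2 : y + (n • (y - x) - x) = (n + 1) • (y - x) := by rw [succ_nsmul]; abel
    refine ⟨q.append (r.copy e1 e2), isIn_append hqb (isIn_copy e1 e2 hrb), ?_⟩
    rw [wt_append, wt_copy, hq, hr, Finset.sum_range_succ]

end NMConc

open LM in
/-- MODULE PB5a. -/
theorem conc_box {Ω : Type} [MeasurableSpace Ω] {P : Measure Ω} [IsProbabilityMeasure P]
    {F : Measure ℝ} [IsProbabilityMeasure F] {W : Z2.edgeSet → Ω → ℝ}
    (hm : ∀ e, Measurable (W e)) (hind : iIndepFun W P) (hF : ∀ e, P.map (W e) = F)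
    (h0 : ∀ e ω, 0 ≤ W e ω) (hint : ∀ e, Integrable (W e) P) {R : ℕ} {x y : ℤ × ℤ}
    (hx : x ∈ box R) (hy : y ∈ box R) (N : ℕ) :
    ∃ S : Ω → ℝ, Measurable S ∧ Integrable S P ∧ (∀ ω, 0 ≤ S ω) ∧
      ∫ ω, S ω ∂P = N * ∫ ω, TT (ext W ω) (box R) x y ∂P ∧
      ∀ ω, ∃ q : Z2.Walk 0 (N • (y - x)), IsIn (box ((2 * N + 2) * R) : Set (ℤ × ℤ)) q ∧
        wt (ext W ω) q ≤ S ω := by
  set 𝒮 := esets R x y with h𝒮def
  have h𝒮 : 𝒮.Nonempty := esets_nonempty hx hy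
  have hTT : ∀ ω, TT (ext W ω) (box R) x y = minW 𝒮 h𝒮 (fun i => W (shiftE 0 i) ω) := by
    intro ω
    rw [TT_eq_minW hx hy (ext_nonneg h0 ω)]
    congr 1
    funext i
    unfold ext
    rw [dif_pos (mem_edgesIn.1 i.2).2]
    congr 1
    apply Subtype.ext
    show i.1 = Sym2.map (shiftHom 0) i.1
    have : (shiftHom 0 : ℤ × ℤ → ℤ × ℤ) = id := by
      funext v; show v + 0 = v; simp
    rw [this, Sym2.map_id]; rfl
  have hbk : ∀ s : ℤ × ℤ, ∫ ω, minW 𝒮 h𝒮 (fun i => W (shiftE s i) ω) ∂P =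
      ∫ ω, TT (ext W ω) (box R) x y ∂P := by
    intro s
    rw [mean_shift hm hind hF 𝒮 h𝒮 s, ← mean_shift hm hind hF 𝒮 h𝒮 0]
    exact integral_congr_ae (Eventually.of_forall fun ω => (hTT ω).symm)
  refine ⟨fun ω => ∑ k ∈ range N, minW 𝒮 h𝒮 (fun i => W (shiftE (k • (y - x) - x) i) ω),
    Finset.measurable_fun_sum _ fun k _ => measurable_minW (fun i => hm _) 𝒮 h𝒮,
    integrable_finsetSum _ fun k _ => integrable_minW_shift hm h0 hint 𝒮 h𝒮 _,
    fun ω => Finset.sum_nonneg fun k _ => minW_nonneg 𝒮 h𝒮 fun i => h0 _ _, ?_, ?_⟩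
  · rw [integral_finsetSum _ fun k _ => integrable_minW_shift hm h0 hint 𝒮 h𝒮 _,
      Finset.sum_congr rfl fun k _ => hbk (k • (y - x) - x)]
    simp
  · intro ω
    obtain ⟨q, hqb, hq⟩ := NMConc.exists_long_walk W ω hx hy N N le_rfl
    exact ⟨q, hqb, le_of_eq hq⟩

end Pool.Agent.Helper33_FPP
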