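import Pool.Agent.Helper33_FPP.Bypass

/-!
# PB2: probability of long chains of bad vertices
-/

set_option autoImplicit false
open MeasureTheory ProbabilityTheory Filter Topology
namespace Pool.Agent.Helper33_FPP

namespace ChainProb

lemma dst_self (a : ℤ × ℤ) : dst a a = 0 := by simp [dst]

lemma dst_comm (a b : ℤ × ℤ) : dst a b = dst b a := by
  unfold dst; congr 1 <;> omega

lemma dst_tri (a b c : ℤ × ℤ) : dst a c ≤ dst a b + dst b c := by
  unfold dst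
  omega

/-- neighbours in the king graph and the point itself -/
noncomputable def knb (x : ℤ × ℤ) : Finset (ℤ × ℤ) :=
  Finset.Icc (x.1 - 1) (x.1 + 1) ×ˢ Finset.Icc (x.2 - 1) (x.2 + 1)

lemma mem_knb {x y : ℤ × ℤ} (h : dst x y ≤ 1) : y ∈ knb x := by
  unfold dst at h
  unfold knb
  simp only [Finset.mem_product, Finset.mem_Icc]
  omega

lemma card_knb (x : ℤ × ℤ) : (knb x).card = 9 := by
  unfold knb
  rw [Finset.card_product, Int.card_Icc, Int.card_Icc]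
  have h1 : (x.1 + 1 + 1 - (x.1 - 1)).toNat = 3 := by omega
  have h2 : (x.2 + 1 + 1 - (x.2 - 1)).toNat = 3 := by omega
  rw [h1, h2]

/-- king chains with `m` steps from `x` -/
noncomputable def KF : ℕ → (ℤ × ℤ) → Finset (List (ℤ × ℤ))
  | 0, x => {[x]}
  | m + 1, x => (knb x).biUnion (fun y => (KF m y).image (fun l => x :: l))

lemma card_KF : ∀ (m : ℕ) (x : ℤ × ℤ), (KF m x).card ≤ 9 ^ m
  | 0, x => by simp [KF]
  | m + 1, x => by
      unfold KF
      calc ((knb x).biUnion (fun y => (KF m y).image (fun l => x :: l))).card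
          ≤ ∑ y ∈ knb x, ((KF m y).image (fun l => x :: l)).card := Finset.card_biUnion_le
        _ ≤ ∑ y ∈ knb x, 9 ^ m :=
            Finset.sum_le_sum fun y _ => Finset.card_image_le.trans (card_KF m y)
        _ = 9 ^ (m + 1) := by rw [Finset.sum_const, card_knb, smul_eq_mul]; ring

lemma mem_KF : ∀ (m : ℕ) (x : ℤ × ℤ) (l : List (ℤ × ℤ)),
    (x :: l).IsChain (fun a b => dst a b ≤ 1) → l.length = m → (x :: l) ∈ KF m x
  | 0, x, l => by
      intro _ h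
      rw [List.length_eq_zero_iff] at h
      simp [KF, h]
  | m + 1, x, l => by
      intro hc h
      rcases l with _ | ⟨y, l⟩
      · simp at h
      · rw [List.isChain_cons_cons] at hc
        unfold KF
        rw [Finset.mem_biUnion]
        exact ⟨y, mem_knb hc.1, Finset.mem_image.mpr ⟨y :: l, mem_KF m y l hc.2 (by simpa using h), rfl⟩⟩

/-- king graph on a set -/
def KG (S : Set (ℤ × ℤ)) : SimpleGraph (ℤ × ℤ) where
  Adj x y := dst x y = 1 ∧ x ∈ S ∧ y ∈ S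
  symm := ⟨fun x y h => ⟨by rw [dst_comm]; exact h.1, h.2.2, h.2.1⟩⟩
  loopless := ⟨fun x h => by
    have := h.1
    rw [dst_self] at this
    omega⟩

lemma KG_reach {S : Set (ℤ × ℤ)} {x y : ℤ × ℤ} (hx : x ∈ S) (hy : y ∈ S) (h : dst x y ≤ 1) :
    (KG S).Reachable x y := by
  by_cases h1 : dst x y = 1
  · exact SimpleGraph.Adj.reachable ⟨h1, hx, hy⟩
  · have : x = y := by
      unfold dst at h h1
      ext <;> omega
    rw [this]

lemma reach_chain {S : Set (ℤ × ℤ)} : ∀ (L : List (ℤ × ℤ)) (x : ℤ × ℤ),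
    (x :: L).IsChain (fun a b => dst a b ≤ 1) → (∀ v ∈ x :: L, v ∈ S) →
    ∀ v ∈ x :: L, (KG S).Reachable x v
  | [], x => by
      intro _ _ v hv
      simp only [List.mem_singleton] at hv
      rw [hv]
  | y :: L, x => by
      intro hc hS v hv
      rw [List.isChain_cons_cons] at hc
      rcases List.mem_cons.mp hv with h | h
      · rw [h]
      · have h1 := reach_chain L y hc.2 (fun v hv => hS v (List.mem_cons_of_mem _ hv)) v h
        exact (KG_reach (hS x (by simp)) (hS y (by simp)) hc.1).trans h1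

lemma dst_le_length {S : Set (ℤ × ℤ)} {a b : ℤ × ℤ} (p : (KG S).Walk a b) :
    dst a b ≤ p.length := by
  induction p with
  | nil => simp [dst_self]
  | cons h p ih =>
      rename_i u v w
      have := dst_tri u v w
      have h1 : dst u v = 1 := h.1
      rw [SimpleGraph.Walk.length_cons]
      omega

lemma support_mem {S : Set (ℤ × ℤ)} {a b : ℤ × ℤ} (p : (KG S).Walk a b) (ha : a ∈ S) :
    ∀ v ∈ p.support, v ∈ S := by
  induction p with
  | nil => intro v hv; simp at hv; rw [hv]; exact ha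
  | cons h p ih =>
      intro v hv
      rw [SimpleGraph.Walk.support_cons, List.mem_cons] at hv
      rcases hv with hv | hv
      · rw [hv]; exact ha
      · exact ih h.2.2 v hv

/-- Extraction of a self-avoiding king chain. -/
lemma extract {S : Set (ℤ × ℤ)} {L : List (ℤ × ℤ)} (hL : L.IsChain (fun a b => dst a b ≤ 1))
    (hS : ∀ v ∈ L, v ∈ S) {a b : ℤ × ℤ} (ha : a ∈ L) (hb : b ∈ L) {ℓ : ℕ} (hab : ℓ ≤ dst a b) :
    ∃ l ∈ KF ℓ a, l.Nodup ∧ l.length = ℓ + 1 ∧ ∀ v ∈ l, v ∈ S := by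
  classical
  have hr : (KG S).Reachable a b := by
    rcases L with _ | ⟨x, L⟩
    · simp at ha
    · exact (reach_chain L x hL hS a ha).symm.trans (reach_chain L x hL hS b hb)
  obtain ⟨p, hp⟩ := hr.exists_isPath
  have hlen := (hab.trans (dst_le_length p))
  set l := p.support.take (ℓ + 1) with hl
  have hll : l.length = ℓ + 1 := by
    rw [hl, List.length_take, SimpleGraph.Walk.length_support]
    omega
  have hne : a :: p.support.tail = p.support := p.cons_tail_support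
  have hl2 : l = a :: p.support.tail.take ℓ := by
    rw [hl, ← hne, List.take_succ_cons, List.tail_cons]
  have hchain : l.IsChain (fun a b => dst a b ≤ 1) := by
    have h1 := p.isChain_adj_support
    have h2 : l.IsChain (KG S).Adj := by
      rw [hl]
      exact List.IsChain.take h1 _
    exact h2.imp (fun a b h => h.1.le)
  refine ⟨l, ?_, ?_, hll, ?_⟩
  · rw [hl2] at hchain hll ⊢
    exact mem_KF ℓ a _ hchain (by simpa using hll)
  · exact hp.support_nodup.sublist (List.take_sublist _ _)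
  · intro v hv
    exact support_mem p (hS a ha) v (List.mem_of_mem_take hv)

/-- the four directions -/
def dir : Fin 4 → ℤ × ℤ := ![(1, 0), (-1, 0), (0, 1), (0, -1)]

lemma adj_dir (v : ℤ × ℤ) (i : Fin 4) : Z2.Adj v (v + dir i) := by
  rw [Z2_adj_iff]
  fin_cases i <;> simp [dir]

lemma exists_dir {v u : ℤ × ℤ} (h : Z2.Adj v u) : ∃ i, u = v + dir i := by
  rw [Z2_adj_iff] at h
  obtain ⟨v1, v2⟩ := v
  obtain ⟨u1, u2⟩ := u
  simp only at h
  have : (u1 = v1 + 1 ∧ u2 = v2) ∨ (u1 = v1 - 1 ∧ u2 = v2) ∨ (u1 = v1 ∧ u2 = v2 + 1) ∨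
      (u1 = v1 ∧ u2 = v2 - 1) := by omega
  rcases this with h | h | h | h
  · exact ⟨0, by simp [dir, h]⟩
  · exact ⟨1, by simp [dir, h, sub_eq_add_neg]⟩
  · exact ⟨2, by simp [dir, h]⟩
  · exact ⟨3, by simp [dir, h, sub_eq_add_neg]⟩

/-- the edge at `v` in direction `i` -/
def ed (v : ℤ × ℤ) (i : Fin 4) : Z2.edgeSet :=
  ⟨s(v, v + dir i), (SimpleGraph.mem_edgeSet Z2).mpr (adj_dir v i)⟩

lemma parity_dir (v : ℤ × ℤ) (i : Fin 4) :
    ((v + dir i).1 + (v + dir i).2) % 2 ≠ (v.1 + v.2) % 2 := by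
  fin_cases i <;> simp [dir] <;> omega

lemma ed_inj {v v' : ℤ × ℤ} {i i' : Fin 4} (hpar : (v.1 + v.2) % 2 = (v'.1 + v'.2) % 2)
    (h : ed v i = ed v' i') : v = v' := by
  have h := congrArg Subtype.val h
  change s(v, v + dir i) = s(v', v' + dir i') at h
  rw [Sym2.eq_iff] at h
  rcases h with h | h
  · exact h.1
  · exfalso
    have h1 := parity_dir v' i'
    rw [← h.1] at h1
    exact h1 hpar

lemma badV_iff {Ω : Type} (W : Z2.edgeSet → Ω → ℝ) (ω : Ω) (M : ℝ) (v : ℤ × ℤ) :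
    BadV (ext W ω) M v ↔ ∃ i, M < W (ed v i) ω := by
  unfold BadV
  constructor
  · rintro ⟨u, hu, h⟩
    obtain ⟨i, rfl⟩ := exists_dir hu
    refine ⟨i, ?_⟩
    have : ext W ω s(v, v + dir i) = W (ed v i) ω := by
      unfold ext ed
      rw [dif_pos ((SimpleGraph.mem_edgeSet Z2).mpr (adj_dir v i))]
    rwa [this] at h
  · rintro ⟨i, h⟩
    refine ⟨v + dir i, adj_dir v i, ?_⟩
    have : ext W ω s(v, v + dir i) = W (ed v i) ω := by
      unfold ext ed
      rw [dif_pos ((SimpleGraph.mem_edgeSet Z2).mpr (adj_dir v i))]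
    rwa [this]

variable {Ω : Type} [MeasurableSpace Ω] {P : Measure Ω} [IsProbabilityMeasure P]
  {F : Measure ℝ} {W : Z2.edgeSet → Ω → ℝ}

lemma prob_parity (hm : ∀ e, Measurable (W e)) (hind : iIndepFun W P) (hF : ∀ e, P.map (W e) = F)
    {M ε : ℝ} (hε : F.real (Set.Ioi M) ≤ ε) (T : Finset (ℤ × ℤ)) (c : ℤ)
    (hT : ∀ v ∈ T, (v.1 + v.2) % 2 = c) :
    P.real {ω | ∀ v ∈ T, BadV (ext W ω) M v} ≤ (4 * ε) ^ T.card := by
  classical
  have hε0 : 0 ≤ ε := measureReal_nonneg.trans hε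
  have hsub : {ω | ∀ v ∈ T, BadV (ext W ω) M v} ⊆
      ⋃ f ∈ (Finset.univ : Finset (T → Fin 4)), ⋂ v ∈ (Finset.univ : Finset T),
        (W (ed v.1 (f v))) ⁻¹' Set.Ioi M := by
    intro ω hω
    have hω' : ∀ v : T, ∃ i, M < W (ed v.1 i) ω := fun v =>
      (badV_iff W ω M v.1).mp (hω v.1 v.2)
    choose f hf using hω'
    rw [Set.mem_iUnion₂]
    refine ⟨f, Finset.mem_univ _, ?_⟩
    rw [Set.mem_iInter₂]
    intro v _
    exact hf v
  have hone : ∀ f : T → Fin 4, P.real (⋂ v ∈ (Finset.univ : Finset T),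
        (W (ed v.1 (f v))) ⁻¹' Set.Ioi M) ≤ ε ^ T.card := by
    intro f
    have hinj : Function.Injective (fun v : T => ed v.1 (f v)) := by
      intro v v' h
      exact Subtype.ext (ed_inj ((hT _ v.2).trans (hT _ v'.2).symm) h)
    have hi := hind.precomp hinj
    have h1 := hi.measure_inter_preimage_eq_mul (Finset.univ : Finset T)
      (sets := fun _ => Set.Ioi M) (fun _ _ => measurableSet_Ioi)
    have h2 : ∀ v : T, P ((W (ed v.1 (f v))) ⁻¹' Set.Ioi M) = F (Set.Ioi M) := by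
      intro v
      rw [← hF (ed v.1 (f v)), Measure.map_apply (hm _) measurableSet_Ioi]
    have h3 : P (⋂ v ∈ (Finset.univ : Finset T), (W (ed v.1 (f v))) ⁻¹' Set.Ioi M) =
        F (Set.Ioi M) ^ T.card := by
      rw [h1]
      calc ∏ i : T, P ((fun i : T => W (ed i.1 (f i))) i ⁻¹' Set.Ioi M)
          = ∏ i : T, F (Set.Ioi M) := Finset.prod_congr rfl fun v _ => h2 v
        _ = F (Set.Ioi M) ^ T.card := by
            rw [Finset.prod_const, Finset.card_univ, Fintype.card_coe]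
    rw [Measure.real, h3, ENNReal.toReal_pow]
    exact pow_le_pow_left₀ ENNReal.toReal_nonneg hε _
  calc P.real {ω | ∀ v ∈ T, BadV (ext W ω) M v}
      ≤ P.real (⋃ f ∈ (Finset.univ : Finset (T → Fin 4)), ⋂ v ∈ (Finset.univ : Finset T),
        (W (ed v.1 (f v))) ⁻¹' Set.Ioi M) := measureReal_mono hsub (measure_ne_top _ _)
    _ ≤ ∑ f ∈ (Finset.univ : Finset (T → Fin 4)), P.real (⋂ v ∈ (Finset.univ : Finset T),
        (W (ed v.1 (f v))) ⁻¹' Set.Ioi M) := measureReal_biUnion_finset_le _ _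
    _ ≤ ∑ f ∈ (Finset.univ : Finset (T → Fin 4)), ε ^ T.card := Finset.sum_le_sum fun f _ => hone f
    _ = (4 * ε) ^ T.card := by
        rw [Finset.sum_const, Finset.card_univ, Fintype.card_fun, Fintype.card_fin,
          Fintype.card_coe, mul_pow, nsmul_eq_mul]
        push_cast
        ring

lemma prob_list (hm : ∀ e, Measurable (W e)) (hind : iIndepFun W P) (hF : ∀ e, P.map (W e) = F)
    {M δ : ℝ} (hδ0 : 0 ≤ δ) (hδ1 : δ ≤ 1) (hε : F.real (Set.Ioi M) ≤ δ ^ 2 / 4)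
    {l : List (ℤ × ℤ)} (hl : l.Nodup) :
    P.real {ω | ∀ v ∈ l, BadV (ext W ω) M v} ≤ δ ^ l.length := by
  classical
  set T0 := l.toFinset.filter (fun v : ℤ × ℤ => (v.1 + v.2) % 2 = 0) with hT0
  set T1 := l.toFinset.filter (fun v : ℤ × ℤ => (v.1 + v.2) % 2 = 1) with hT1
  have hcard : l.length ≤ T0.card + T1.card := by
    rw [← List.toFinset_card_of_nodup hl]
    calc l.toFinset.card ≤ (T0 ∪ T1).card := by
          apply Finset.card_le_card
          intro v hv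
          rw [Finset.mem_union, hT0, hT1, Finset.mem_filter, Finset.mem_filter]
          have : (v.1 + v.2) % 2 = 0 ∨ (v.1 + v.2) % 2 = 1 := by omega
          tauto
      _ ≤ _ := Finset.card_union_le _ _
  have key : ∀ (T : Finset (ℤ × ℤ)) (c : ℤ), T ⊆ l.toFinset → (∀ v ∈ T, (v.1 + v.2) % 2 = c) →
      l.length ≤ 2 * T.card → P.real {ω | ∀ v ∈ l, BadV (ext W ω) M v} ≤ δ ^ l.length := by
    intro T c hTl hTc hc
    calc P.real {ω | ∀ v ∈ l, BadV (ext W ω) M v}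
        ≤ P.real {ω | ∀ v ∈ T, BadV (ext W ω) M v} := by
          refine measureReal_mono ?_ (measure_ne_top _ _)
          intro ω hω v hv
          exact hω v (List.mem_toFinset.mp (hTl hv))
      _ ≤ (4 * (δ ^ 2 / 4)) ^ T.card := prob_parity hm hind hF hε T c hTc
      _ = δ ^ (2 * T.card) := by rw [pow_mul]; congr 1; ring
      _ ≤ δ ^ l.length := pow_le_pow_of_le_one hδ0 hδ1 hc
  by_cases h : T1.card ≤ T0.card
  · exact key T0 0 (Finset.filter_subset _ _) (fun v hv => (Finset.mem_filter.mp hv).2) (by omega)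
  · exact key T1 1 (Finset.filter_subset _ _) (fun v hv => (Finset.mem_filter.mp hv).2) (by omega)

/-- the box as a finset -/
noncomputable def BxF (u : ℤ × ℤ) (n : ℕ) : Finset (ℤ × ℤ) :=
  Finset.Icc (u.1 - n) (u.1 + n) ×ˢ Finset.Icc (u.2 - n) (u.2 + n)

lemma mem_BxF {u v : ℤ × ℤ} {n : ℕ} : v ∈ BxF u n ↔ v ∈ Bx u n := by
  unfold BxF Bx dst
  simp only [Finset.mem_product, Finset.mem_Icc, Set.mem_ofPred_eq]
  omega

lemma card_BxF (u : ℤ × ℤ) (n : ℕ) : (BxF u n).card = (2 * n + 1) ^ 2 := by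
  unfold BxF
  rw [Finset.card_product, Int.card_Icc, Int.card_Icc]
  have h1 : (u.1 + n + 1 - (u.1 - n)).toNat = 2 * n + 1 := by omega
  have h2 : (u.2 + n + 1 - (u.2 - n)).toNat = 2 * n + 1 := by omega
  rw [h1, h2]
  ring

lemma not_noChain {w : Sym2 (ℤ × ℤ) → ℝ} {M : ℝ} {u : ℤ × ℤ} {n ℓ : ℕ}
    (h : ¬ NoChain w M (Bx u n) ℓ) :
    ∃ a ∈ BxF u n, ∃ l ∈ KF ℓ a, l.Nodup ∧ l.length = ℓ + 1 ∧ ∀ v ∈ l, BadV w M v := by
  unfold NoChain at h
  push Not at h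
  obtain ⟨L, hL, hS, a, ha, b, hb, hab⟩ := h
  obtain ⟨l, h1, h2, h3, h4⟩ := extract (S := {v | v ∈ Bx u n ∧ BadV w M v}) hL hS ha hb hab
  exact ⟨a, mem_BxF.mpr (hS a ha).1, l, h1, h2, h3, fun v hv => (h4 v hv).2⟩

lemma arith (ℓ : ℕ) : ((20 * ℓ + 1 : ℝ)) ^ 2 * 9 ^ ℓ * (1 / 500) ^ (ℓ + 1) ≤
    441 * Real.exp (-(ℓ : ℝ)) := by
  have h1 : (20 * ℓ + 1 : ℝ) ≤ 21 * 2 ^ ℓ := by
    have h2 : (ℓ : ℝ) ≤ 2 ^ ℓ := by exact_mod_cast (Nat.lt_two_pow_self (n := ℓ)).le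
    have h3 : (1 : ℝ) ≤ 2 ^ ℓ := one_le_pow₀ (by norm_num)
    linarith
  have h4 : Real.exp (-(ℓ : ℝ)) = (Real.exp (-1)) ^ ℓ := by
    rw [← Real.exp_nat_mul]; congr 1; ring
  have h5 : (9 / 125 : ℝ) ≤ Real.exp (-1) := by
    rw [Real.exp_neg]
    have := Real.exp_one_lt_d9
    have h6 : (0 : ℝ) < Real.exp 1 := Real.exp_pos 1
    rw [le_inv_comm₀ (by norm_num) h6]
    norm_num
    linarith
  rw [h4]
  calc ((20 * ℓ + 1 : ℝ)) ^ 2 * 9 ^ ℓ * (1 / 500) ^ (ℓ + 1)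
      ≤ (21 * 2 ^ ℓ) ^ 2 * 9 ^ ℓ * (1 / 500) ^ ℓ := by
        have h7 : (1 / 500 : ℝ) ^ (ℓ + 1) ≤ (1 / 500) ^ ℓ :=
          pow_le_pow_of_le_one (by norm_num) (by norm_num) (Nat.le_succ _)
        gcongr
    _ = 441 * (9 / 125) ^ ℓ := by
        rw [mul_pow, ← pow_mul, mul_comm ℓ 2, pow_mul]
        rw [mul_assoc, mul_assoc, ← mul_pow, ← mul_pow]
        norm_num
    _ ≤ 441 * (Real.exp (-1)) ^ ℓ := by gcongr

end ChainProb

open ChainProb in
theorem chain_prob : ∃ ε₁ C : ℝ, 0 < ε₁ ∧ 0 < C ∧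
    ∀ {Ω : Type} [MeasurableSpace Ω] {P : Measure Ω} [IsProbabilityMeasure P]
      {F : Measure ℝ} [IsProbabilityMeasure F] {W : Z2.edgeSet → Ω → ℝ}
      (_ : ∀ e, Measurable (W e)) (_ : iIndepFun W P) (_ : ∀ e, P.map (W e) = F)
      {M : ℝ} (_ : 0 ≤ M) (_ : F.real (Set.Ioi M) ≤ ε₁) (u : ℤ × ℤ) (ℓ : ℕ), 1 ≤ ℓ →
      P.real {ω | ¬ NoChain (ext W ω) M (Bx u (10 * ℓ)) ℓ} ≤ C * Real.exp (-(ℓ : ℝ)) := by
  refine ⟨(1 / 500) ^ 2 / 4, 441, by norm_num, by norm_num, ?_⟩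
  intro Ω _ P _ F _ W hm hind hF M _ hε u ℓ _
  classical
  have hsub : {ω | ¬ NoChain (ext W ω) M (Bx u (10 * ℓ)) ℓ} ⊆
      ⋃ a ∈ BxF u (10 * ℓ), ⋃ l ∈ (KF ℓ a).filter (fun l => l.Nodup ∧ l.length = ℓ + 1),
        {ω | ∀ v ∈ l, BadV (ext W ω) M v} := by
    intro ω hω
    obtain ⟨a, ha, l, hl, h1, h2, h3⟩ := not_noChain hω
    rw [Set.mem_iUnion₂]
    refine ⟨a, ha, ?_⟩
    rw [Set.mem_iUnion₂]
    exact ⟨l, Finset.mem_filter.mpr ⟨hl, h1, h2⟩, h3⟩
  calc P.real {ω | ¬ NoChain (ext W ω) M (Bx u (10 * ℓ)) ℓ}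
      ≤ P.real (⋃ a ∈ BxF u (10 * ℓ), ⋃ l ∈ (KF ℓ a).filter
          (fun l => l.Nodup ∧ l.length = ℓ + 1), {ω | ∀ v ∈ l, BadV (ext W ω) M v}) :=
        measureReal_mono hsub (measure_ne_top _ _)
    _ ≤ ∑ a ∈ BxF u (10 * ℓ), P.real (⋃ l ∈ (KF ℓ a).filter
          (fun l => l.Nodup ∧ l.length = ℓ + 1), {ω | ∀ v ∈ l, BadV (ext W ω) M v}) :=
        measureReal_biUnion_finset_le _ _
    _ ≤ ∑ a ∈ BxF u (10 * ℓ), ∑ l ∈ (KF ℓ a).filter
          (fun l => l.Nodup ∧ l.length = ℓ + 1), P.real {ω | ∀ v ∈ l, BadV (ext W ω) M v} :=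
        Finset.sum_le_sum fun a _ => measureReal_biUnion_finset_le _ _
    _ ≤ ∑ a ∈ BxF u (10 * ℓ), ∑ l ∈ (KF ℓ a).filter
          (fun l => l.Nodup ∧ l.length = ℓ + 1), (1 / 500 : ℝ) ^ (ℓ + 1) := by
        refine Finset.sum_le_sum fun a _ => Finset.sum_le_sum fun l hl => ?_
        have h := (Finset.mem_filter.mp hl).2
        have := prob_list hm hind hF (δ := 1 / 500) (by norm_num) (by norm_num) hε h.1
        rwa [h.2] at this
    _ ≤ ∑ a ∈ BxF u (10 * ℓ), (9 : ℝ) ^ ℓ * (1 / 500 : ℝ) ^ (ℓ + 1) := by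
        refine Finset.sum_le_sum fun a _ => ?_
        rw [Finset.sum_const, nsmul_eq_mul]
        gcongr
        calc ((((KF ℓ a).filter (fun l => l.Nodup ∧ l.length = ℓ + 1)).card : ℕ) : ℝ)
            ≤ ((KF ℓ a).card : ℝ) := by exact_mod_cast Finset.card_filter_le _ _
          _ ≤ (9 : ℝ) ^ ℓ := by exact_mod_cast card_KF ℓ a
    _ = ((20 * ℓ + 1 : ℝ)) ^ 2 * 9 ^ ℓ * (1 / 500) ^ (ℓ + 1) := by
        rw [Finset.sum_const, card_BxF, nsmul_eq_mul]
        push_cast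
        ring
    _ ≤ 441 * Real.exp (-(ℓ : ℝ)) := arith ℓ

/-- Measurability of `NoChain` in the product sigma-algebra. -/
theorem measurableSet_noChain (M : ℝ) (D : Set (ℤ × ℤ)) (ℓ : ℕ) :
    MeasurableSet {w : Sym2 (ℤ × ℤ) → ℝ | NoChain w M D ℓ} := by
  classical
  have hbad : ∀ v : ℤ × ℤ, MeasurableSet {w : Sym2 (ℤ × ℤ) → ℝ | BadV w M v} := by
    intro v
    have : {w : Sym2 (ℤ × ℤ) → ℝ | BadV w M v} =
        ⋃ u ∈ {u : ℤ × ℤ | Z2.Adj v u}, {w : Sym2 (ℤ × ℤ) → ℝ | M < w s(v, u)} := by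
      ext w
      simp only [Set.mem_ofPred_eq, Set.mem_iUnion, BadV, exists_prop]
    rw [this]
    refine MeasurableSet.biUnion (Set.to_countable _) fun u _ => ?_
    exact measurableSet_lt measurable_const (measurable_pi_apply _)
  have : {w : Sym2 (ℤ × ℤ) → ℝ | NoChain w M D ℓ} =
      ⋂ L ∈ {L : List (ℤ × ℤ) | L.IsChain (fun a b => dst a b ≤ 1) ∧ (∀ v ∈ L, v ∈ D) ∧
        ¬ ∀ a ∈ L, ∀ b ∈ L, dst a b < ℓ}, (⋂ v ∈ {v | v ∈ L}, {w | BadV w M v})ᶜ := by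
    ext w
    simp only [Set.mem_ofPred_eq, Set.mem_iInter, Set.mem_compl_iff, NoChain]
    constructor
    · rintro h L ⟨h1, h2, h3⟩ h4
      exact h3 (h L h1 (fun v hv => ⟨h2 v hv, h4 v hv⟩))
    · intro h L h1 h2
      by_contra h3
      exact h L ⟨h1, fun v hv => (h2 v hv).1, h3⟩ (fun v hv => (h2 v hv).2)
  rw [this]
  refine MeasurableSet.biInter (Set.to_countable _) fun L _ => ?_
  exact (MeasurableSet.biInter (Set.to_countable _) fun v _ => hbad v).compl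

end Pool.Agent.Helper33_FPP
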