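import Pool.Agent.Helper33_FPP.NMDefs
import Pool.Agent.Helper33_FPP.ChainProb

/-!
# PB5b: the cost of the end points
-/

set_option autoImplicit false
open MeasureTheory ProbabilityTheory Filter Topology
namespace Pool.Agent.Helper33_FPP

namespace NMEnd

open ChainProb

lemma poly_le (ℓ : ℕ) : (40 * ℓ + 1 : ℝ) ^ 2 * Real.exp (-(ℓ : ℝ)) ≤
    102400 * Real.exp (-((ℓ : ℝ) / 2)) := by
  have h0 : (0 : ℝ) ≤ ℓ := Nat.cast_nonneg ℓ
  have h1 : (40 * ℓ + 1 : ℝ) ≤ 320 * Real.exp (ℓ / 8) := by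
    have := Real.add_one_le_exp ((ℓ : ℝ) / 8)
    linarith
  have h2 : (40 * ℓ + 1 : ℝ) ^ 2 ≤ 102400 * Real.exp (ℓ / 4) := by
    calc (40 * ℓ + 1 : ℝ) ^ 2 ≤ (320 * Real.exp (ℓ / 8)) ^ 2 := by gcongr
      _ = 102400 * Real.exp (ℓ / 4) := by
          rw [mul_pow, ← Real.exp_nat_mul]
          have e : ((2 : ℕ) : ℝ) * ((ℓ : ℝ) / 8) = (ℓ : ℝ) / 4 := by push_cast; ring
          rw [e]
          norm_num
  calc (40 * ℓ + 1 : ℝ) ^ 2 * Real.exp (-(ℓ : ℝ)) ≤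
      102400 * Real.exp (ℓ / 4) * Real.exp (-(ℓ : ℝ)) := by gcongr
    _ = 102400 * Real.exp (-(3 * (ℓ : ℝ) / 4)) := by
        rw [mul_assoc, ← Real.exp_add]; congr 2; ring
    _ ≤ 102400 * Real.exp (-((ℓ : ℝ) / 2)) := by
        have : Real.exp (-(3 * (ℓ : ℝ) / 4)) ≤ Real.exp (-((ℓ : ℝ) / 2)) :=
          Real.exp_le_exp.mpr (by linarith)
        linarith

variable {Ω : Type} [MeasurableSpace Ω] {P : Measure Ω} [IsProbabilityMeasure P]
  {W : Z2.edgeSet → Ω → ℝ}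

lemma far_prob {M C : ℝ}
    (hch : ∀ (u : ℤ × ℤ) (ℓ : ℕ), 1 ≤ ℓ →
      P.real {ω | ¬ NoChain (ext W ω) M (Bx u (10 * ℓ)) ℓ} ≤ C * Real.exp (-(ℓ : ℝ)))
    {ℓ₀ : ℕ} (hℓ₀ : 1 ≤ ℓ₀) (r : ℕ) (v : ℤ × ℤ) :
    P.real {ω | ¬ FarGood (ext W ω) M ℓ₀ r v} ≤
      102400 * C * Real.exp (-((r : ℝ) / 80)) * (1 - Real.exp (-(1 / 4)))⁻¹ := by
  have hC : 0 ≤ C := by
    have h1 := hch 0 1 le_rfl
    have h2 : 0 ≤ P.real {ω | ¬ NoChain (ext W ω) M (Bx 0 (10 * 1)) 1} := measureReal_nonneg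
    have h3 : 0 < Real.exp (-((1 : ℕ) : ℝ)) := Real.exp_pos _
    by_contra h
    push Not at h
    have := mul_neg_of_neg_of_pos h h3
    linarith
  set D := 102400 * C * Real.exp (-((r : ℝ) / 80)) with hD
  have hD0 : 0 ≤ D := by positivity
  set ρ := Real.exp (-(1 / 4)) with hρ
  have hρ0 : 0 ≤ ρ := (Real.exp_pos _).le
  have hρ1 : ρ < 1 := by rw [hρ, Real.exp_lt_one_iff]; norm_num
  set A : ℕ → Set Ω := fun i => {ω | ∃ u : ℤ × ℤ, r < dst u v ∧ dst u v ≤ 20 * (ℓ₀ * 2 ^ i) ∧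
    ¬ NoChain (ext W ω) M (Bx u (10 * (ℓ₀ * 2 ^ i))) (ℓ₀ * 2 ^ i)} with hA
  have hsub : {ω | ¬ FarGood (ext W ω) M ℓ₀ r v} ⊆ ⋃ i, A i := by
    intro ω hω
    simp only [FarGood, Set.mem_ofPred_eq] at hω
    push Not at hω
    obtain ⟨u, i, h1, h2, h3⟩ := hω
    rw [Set.mem_iUnion]
    exact ⟨i, u, h1, h2, h3⟩
  have hAi : ∀ i, P.real (A i) ≤ D * ρ ^ i := by
    intro i
    have hpos : 0 ≤ D * ρ ^ i := by positivity
    by_cases hr : 20 * (ℓ₀ * 2 ^ i) ≤ r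
    · have : A i = ∅ := by
        ext ω
        simp only [hA, Set.mem_ofPred_eq, Set.mem_empty_iff_false, iff_false]
        rintro ⟨u, h1, h2, _⟩
        omega
      rw [this]
      simpa using hpos
    · push Not at hr
      set ℓ := ℓ₀ * 2 ^ i with hℓ
      have hi : i ≤ ℓ := by
        have h1 : i < 2 ^ i := Nat.lt_two_pow_self
        have h2 : 2 ^ i ≤ ℓ₀ * 2 ^ i := Nat.le_mul_of_pos_left _ hℓ₀
        omega
      have hℓ1 : 1 ≤ ℓ := by
        have h2 : 2 ^ i ≤ ℓ₀ * 2 ^ i := Nat.le_mul_of_pos_left _ hℓ₀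
        have h3 : 1 ≤ 2 ^ i := Nat.one_le_two_pow
        omega
      have hsub2 : A i ⊆ ⋃ u ∈ BxF v (20 * ℓ), {ω | ¬ NoChain (ext W ω) M (Bx u (10 * ℓ)) ℓ} := by
        rintro ω ⟨u, h1, h2, h3⟩
        rw [Set.mem_iUnion₂]
        exact ⟨u, mem_BxF.mpr h2, h3⟩
      have hexp : Real.exp (-((ℓ : ℝ) / 2)) ≤ Real.exp (-((r : ℝ) / 80)) * ρ ^ i := by
        rw [hρ, ← Real.exp_nat_mul, ← Real.exp_add]
        apply Real.exp_le_exp.mpr
        have h1 : (r : ℝ) ≤ 20 * ℓ := by exact_mod_cast hr.le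
        have h2 : (i : ℝ) ≤ ℓ := by exact_mod_cast hi
        linarith
      calc P.real (A i) ≤ P.real (⋃ u ∈ BxF v (20 * ℓ),
            {ω | ¬ NoChain (ext W ω) M (Bx u (10 * ℓ)) ℓ}) :=
            measureReal_mono hsub2 (measure_ne_top _ _)
        _ ≤ ∑ u ∈ BxF v (20 * ℓ), P.real {ω | ¬ NoChain (ext W ω) M (Bx u (10 * ℓ)) ℓ} :=
            measureReal_biUnion_finset_le _ _
        _ ≤ ∑ u ∈ BxF v (20 * ℓ), C * Real.exp (-(ℓ : ℝ)) :=
            Finset.sum_le_sum fun u _ => hch u ℓ hℓ1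
        _ = C * ((40 * ℓ + 1 : ℝ) ^ 2 * Real.exp (-(ℓ : ℝ))) := by
            rw [Finset.sum_const, card_BxF, nsmul_eq_mul]
            push_cast
            ring
        _ ≤ C * (102400 * Real.exp (-((ℓ : ℝ) / 2))) :=
            mul_le_mul_of_nonneg_left (poly_le ℓ) hC
        _ ≤ C * (102400 * (Real.exp (-((r : ℝ) / 80)) * ρ ^ i)) := by gcongr
        _ = D * ρ ^ i := by rw [hD]; ring
  have hsum : Summable fun i : ℕ => D * ρ ^ i :=
    (summable_geometric_of_lt_one hρ0 hρ1).mul_left D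
  have hE : P {ω | ¬ FarGood (ext W ω) M ℓ₀ r v} ≤ ENNReal.ofReal (D * (1 - ρ)⁻¹) := by
    calc P {ω | ¬ FarGood (ext W ω) M ℓ₀ r v} ≤ P (⋃ i, A i) := measure_mono hsub
      _ ≤ ∑' i, P (A i) := measure_iUnion_le _
      _ ≤ ∑' i : ℕ, ENNReal.ofReal (D * ρ ^ i) := by
          refine ENNReal.tsum_le_tsum fun i => ?_
          rw [← ofReal_measureReal (measure_ne_top _ _)]
          exact ENNReal.ofReal_le_ofReal (hAi i)
      _ = ENNReal.ofReal (∑' i : ℕ, D * ρ ^ i) :=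
          (ENNReal.ofReal_tsum_of_nonneg (fun i => by positivity) hsum).symm
      _ = ENNReal.ofReal (D * (1 - ρ)⁻¹) := by
          rw [tsum_mul_left, tsum_geometric_of_lt_one hρ0 hρ1]
  have h1ρ : 0 < 1 - ρ := by linarith
  rw [Measure.real]
  exact ENNReal.toReal_le_of_le_ofReal (by positivity) hE

lemma tail_tendsto (F : Measure ℝ) [IsProbabilityMeasure F] :
    Tendsto (fun t : ℝ => F.real (Set.Ioi t)) atTop (𝓝 0) := by
  have h1 := tendsto_cdf_atTop F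
  have h2 : (fun t : ℝ => F.real (Set.Ioi t)) = fun t => 1 - cdf F t := by
    funext t
    rw [cdf_eq_real, ← Set.compl_Iic, probReal_compl_eq_one_sub measurableSet_Iic]
  rw [h2]
  have := (tendsto_const_nhds (x := (1 : ℝ))).sub h1
  simpa using this

lemma ext_prob {F : Measure ℝ} [IsProbabilityMeasure F] (hm : ∀ e, Measurable (W e))
    (hF : ∀ e, P.map (W e) = F) {t : ℝ} (ht : 0 ≤ t) (e : Sym2 (ℤ × ℤ)) :
    P.real {ω | t < ext W ω e} ≤ F.real (Set.Ioi t) := by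
  classical
  by_cases he : e ∈ Z2.edgeSet
  · have : {ω | t < ext W ω e} = W ⟨e, he⟩ ⁻¹' Set.Ioi t := by
      ext ω
      simp only [Set.mem_ofPred_eq, Set.mem_preimage, Set.mem_Ioi]
      unfold ext
      rw [dif_pos he]
    rw [this, ← hF ⟨e, he⟩, Measure.real, Measure.real, Measure.map_apply (hm _) measurableSet_Ioi]
  · have : {ω | t < ext W ω e} = ∅ := by
      ext ω
      simp only [Set.mem_ofPred_eq, Set.mem_empty_iff_false, iff_false, not_lt]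
      unfold ext
      rw [dif_neg he]
      exact ht
    rw [this]
    simp

lemma card_near (v : ℤ × ℤ) (r : ℕ) :
    (near v r).card = (near 0 r).card := by
  unfold near
  rw [Finset.card_sym2, Finset.card_sym2, Finset.card_product, Finset.card_product]
  simp only [Int.card_Icc]
  have h1 : (v.1 + (r + 1) + 1 - (v.1 - (r + 1))).toNat = 2 * r + 3 := by omega
  have h2 : (v.2 + (r + 1) + 1 - (v.2 - (r + 1))).toNat = 2 * r + 3 := by omega
  have h3 : ((0 : ℤ × ℤ).1 + (r + 1) + 1 - ((0 : ℤ × ℤ).1 - (r + 1))).toNat = 2 * r + 3 := by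
    simp only [Prod.fst_zero]; omega
  have h4 : ((0 : ℤ × ℤ).2 + (r + 1) + 1 - ((0 : ℤ × ℤ).2 - (r + 1))).toNat = 2 * r + 3 := by
    simp only [Prod.snd_zero]; omega
  rw [h1, h2, h3, h4]

end NMEnd

open NMEnd in
theorem end_cost {Ω : Type} [MeasurableSpace Ω] {P : Measure Ω} [IsProbabilityMeasure P]
    {F : Measure ℝ} [IsProbabilityMeasure F] {W : Z2.edgeSet → Ω → ℝ}
    (hm : ∀ e, Measurable (W e)) (hF : ∀ e, P.map (W e) = F)
    (h0 : ∀ e ω, 0 ≤ W e ω) {M C : ℝ}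
    (hch : ∀ (u : ℤ × ℤ) (ℓ : ℕ), 1 ≤ ℓ →
      P.real {ω | ¬ NoChain (ext W ω) M (Bx u (10 * ℓ)) ℓ} ≤ C * Real.exp (-(ℓ : ℝ)))
    {ℓ₀ : ℕ} (hℓ₀ : 1 ≤ ℓ₀) {δ : ℝ} (hδ : 0 < δ) :
    ∃ (r : ℕ) (K : ℝ), 10 * ℓ₀ ≤ r ∧ ∀ v : ℤ × ℤ,
      P.real {ω | ¬ (FarGood (ext W ω) M ℓ₀ r v ∧ ∑ e ∈ near v r, ext W ω e ≤ K)} ≤ δ := by
  classical
  -- choice of `r`
  have hlim : Tendsto (fun r : ℕ => 102400 * C * Real.exp (-((r : ℝ) / 80)) *
      (1 - Real.exp (-(1 / 4)))⁻¹) atTop (𝓝 0) := by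
    have h1 : Tendsto (fun r : ℕ => Real.exp (-((r : ℝ) / 80))) atTop (𝓝 0) := by
      apply Real.tendsto_exp_neg_atTop_nhds_zero.comp
      exact tendsto_natCast_atTop_atTop.atTop_div_const (by norm_num)
    have := (h1.const_mul (102400 * C)).mul_const (1 - Real.exp (-(1 / 4)))⁻¹
    simpa using this
  obtain ⟨r, hr1, hr2⟩ := ((hlim.eventually (gt_mem_nhds (by linarith : (0 : ℝ) < δ / 2))).and
    (eventually_ge_atTop (10 * ℓ₀))).exists
  -- choice of `K`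
  set n := (near 0 r).card with hn
  have hlim2 : Tendsto (fun t : ℝ => (n : ℝ) * F.real (Set.Ioi t)) atTop (𝓝 0) := by
    have := (tail_tendsto F).const_mul (n : ℝ)
    simpa using this
  obtain ⟨t, ht1, ht2⟩ := ((hlim2.eventually (gt_mem_nhds (by linarith : (0 : ℝ) < δ / 2))).and
    (eventually_ge_atTop (0 : ℝ))).exists
  refine ⟨r, n * t, hr2, fun v => ?_⟩
  have hsum : P.real {ω | ¬ ∑ e ∈ near v r, ext W ω e ≤ n * t} ≤ δ / 2 := by
    have hsub : {ω | ¬ ∑ e ∈ near v r, ext W ω e ≤ n * t} ⊆ ⋃ e ∈ near v r, {ω | t < ext W ω e} := by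
      intro ω hω
      by_contra h
      apply hω
      simp only [Set.mem_iUnion, Set.mem_ofPred_eq, not_exists, not_lt] at h
      calc ∑ e ∈ near v r, ext W ω e ≤ ∑ e ∈ near v r, t := Finset.sum_le_sum fun e he => h e he
        _ = n * t := by rw [Finset.sum_const, card_near, nsmul_eq_mul]
    calc P.real {ω | ¬ ∑ e ∈ near v r, ext W ω e ≤ n * t}
        ≤ P.real (⋃ e ∈ near v r, {ω | t < ext W ω e}) :=
          measureReal_mono hsub (measure_ne_top _ _)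
      _ ≤ ∑ e ∈ near v r, P.real {ω | t < ext W ω e} := measureReal_biUnion_finset_le _ _
      _ ≤ ∑ e ∈ near v r, F.real (Set.Ioi t) := Finset.sum_le_sum fun e _ => ext_prob hm hF ht2 e
      _ = n * F.real (Set.Ioi t) := by rw [Finset.sum_const, card_near, nsmul_eq_mul]
      _ ≤ δ / 2 := ht1.le
  have hfar := (far_prob hch hℓ₀ r v).trans hr1.le
  calc P.real {ω | ¬ (FarGood (ext W ω) M ℓ₀ r v ∧ ∑ e ∈ near v r, ext W ω e ≤ n * t)}
      ≤ P.real ({ω | ¬ FarGood (ext W ω) M ℓ₀ r v} ∪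
          {ω | ¬ ∑ e ∈ near v r, ext W ω e ≤ n * t}) := by
        refine measureReal_mono ?_ (measure_ne_top _ _)
        intro ω hω
        by_cases h : FarGood (ext W ω) M ℓ₀ r v
        · right
          intro h2
          exact hω ⟨h, h2⟩
        · left; exact h
    _ ≤ _ := measureReal_union_le _ _
    _ ≤ δ / 2 + δ / 2 := add_le_add hfar hsum
    _ = δ := by ring

end Pool.Agent.Helper33_FPP
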