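import Pool.Agent.Helper33_FPP.PartIc

/-!
# Part I: the finite-volume contradiction
-/

set_option autoImplicit false

namespace Pool.Agent.Helper33_FPP

open Finset

/-- The contradiction at scale `X`, given the probability of the good event. -/
theorem scale_contra {θ hi lo pL c C : ℝ} (hθ0 : 0 < θ) (hlohi : lo < hi) (hpL : 0 < pL)
    (hc : 0 < c) (hC : 0 < C) {X : ℕ} (hX8 : 8 ≤ X) (hxc : 4 / c ≤ X) (hxp : 32 / pL ≤ X)
    (hxθ : 40 / θ ≤ X) (hxa₁ : 8 * (4800 * c / ((hi - lo) * θ)) ≤ X) (hxa₂ : 8 * (33 / c) ≤ X)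
    {V : Type} [Fintype V] {p : V → ℝ} {val : V → ℝ} (hp : IsProb p)
    (hgp : Pr p (fun ω : EIdx (Pars X c).R → V => ¬ Gd (Pars X c) X θ hi val ω) ≤
      1 / (X : ℝ) ^ 1000)
    (hone : ∀ {i j r k : ℕ} (_ : 1 ≤ i) (_ : i + 2 ≤ (Pars X c).N) (_ : 1 ≤ j)
      (_ : j + 3 ≤ (Pars X c).N) {q : ℝ} (_ : 0 < q) (_ : 32 * q ≤ pL)
      (_ : q ^ 2 * (24 * (Pars X c).σ * r) ≤ 1) {n : ℕ} (_ : 1 ≤ n)
      (_ : (n : ℝ) ≤ θ * (2 * (Pars X c).σ)),
      (1 - Real.exp (-(q * n / 8))) *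
          Pr p (evA (Pars X c) X θ hi val i j r k ((hi - lo) * (q * n) / 16)) ≤
        C * (Pr p (evB (Pars X c) X θ hi val i j r k ((hi - lo) * (q * n) / 16))) ^
          (1 - 1 / (32 : ℝ))) :
    (X : ℝ) ≤ 4 ^ 32 * (C ^ 32 * (3 * (3 + 33 / c + 4800 * c / ((hi - lo) * θ)) ^ 31)) := by
  have hx8 : (8 : ℝ) ≤ X := by exact_mod_cast hX8
  have hx1 : (1 : ℝ) ≤ X := by linarith
  have hx0 : (0 : ℝ) < X := by linarith
  have hgap : 0 < hi - lo := by linarith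
  have hP : (Pars X c).Ok := pars_ok hc hX8 hxc
  obtain ⟨z, hz, hMN, hzm, hzb, hzr⟩ := select_cell hc hX8 hP hp (val := val) (m₀ := X) (θ := θ)
    (hi := hi)
  obtain ⟨hi1, hi2, hj1, hj2⟩ := cells_idx hMN hz
  obtain ⟨q, n, hq0, hq1, hq2, hn1, hnle, hqn8, hu0, hfu⟩ :=
    choice_numeric hθ0 hgap hpL hc hX8 hxp hxθ
  have ha₁0 : 0 < 4800 * c / ((hi - lo) * θ) := by positivity
  have ha₂0 : 0 < 33 / c := by positivity
  generalize 4800 * c / ((hi - lo) * θ) = a₁ at *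
  have hexp : 1 / 2 ≤ 1 - Real.exp (-(q * n / 8)) := by
    have h3 : Real.exp (-(q * n / 8)) ≤ Real.exp (-1) := Real.exp_le_exp.2 (by linarith)
    have h4 : Real.exp (-1) ≤ 1 / 2 := by
      rw [Real.exp_neg, ← one_div]
      apply one_div_le_one_div_of_le (by norm_num)
      linarith [Real.add_one_le_exp 1]
    linarith
  have hr0 : 0 < X ^ 60 := by positivity
  have hKr : 2 * (Pars X c).w₀ = (2 * X ^ 45) * X ^ 60 := by
    change 2 * X ^ 105 = 2 * X ^ 45 * X ^ 60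
    ring
  have hx3 : (X : ℝ) ≤ (X : ℝ) ^ 3 := le_pow_of_one_le hx1 (by norm_num)
  have hx11 : (X : ℝ) ^ 3 ≤ (X : ℝ) ^ 11 := pow_le_pow_right₀ hx1 (by norm_num)
  have hg₃ : Ex p (frng (Pars X c) X θ hi val z) / ((X ^ 60 : ℕ) : ℝ) ≤
      33 / c / (X : ℝ) ^ 3 := by
    have hrR : ((X ^ 60 : ℕ) : ℝ) = (X : ℝ) ^ 60 := by
      push_cast
      ring
    rw [hrR, div_le_div_iff₀ (by positivity) (by positivity)]
    calc Ex p (frng (Pars X c) X θ hi val z) * (X : ℝ) ^ 3 ≤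
          33 / c * (X : ℝ) ^ 57 * (X : ℝ) ^ 3 :=
          mul_le_mul_of_nonneg_right hzr (by positivity)
      _ = 33 / c * (X : ℝ) ^ 60 := by ring
  have hone' : ∀ k, 1 / 2 * Pr p (evA (Pars X c) X θ hi val (1 + z.1) (z.2 + 2 * z.1) (X ^ 60) k
      ((hi - lo) * (q * n) / 16)) ≤ C * (Pr p (evB (Pars X c) X θ hi val (1 + z.1)
        (z.2 + 2 * z.1) (X ^ 60) k ((hi - lo) * (q * n) / 16))) ^ (1 - 1 / (32 : ℝ)) := by
    intro k
    refine le_trans ?_ (hone hi1 hi2 hj1 hj2 hq0 hq1 hq2 hn1 hnle)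
    exact mul_le_mul_of_nonneg_right hexp (Pr_nonneg hp _)
  have hg₀8 : 1 / (X : ℝ) ^ 1000 ≤ 1 / 8 := by
    apply one_div_le_one_div_of_le (by norm_num)
    exact hx8.trans (le_pow_of_one_le hx1 (by norm_num))
  have ha₂8 : 33 / c / (X : ℝ) ^ 3 ≤ 1 / 8 := by
    rw [div_le_iff₀ (by positivity)]
    linarith
  have ha₁8 : a₁ / (X : ℝ) ^ 11 ≤ 1 / 8 := by
    rw [div_le_iff₀ (by positivity)]
    linarith
  obtain ⟨S, hS0, hSle, hfin⟩ := cell_contra hP hp hi1 hi2 hj1 hj2 hr0 hKr hu0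
    (fmid_nonneg hP hMN hz) (fbot_nonneg hP hMN hz) (frng_nonneg z)
    (fun ω hG => (fmid_of hG z).ge) (fun ω hG => (fbot_of hG z).ge) (fun ω hG => (frng_of hG z).ge)
    hgp (hfu _ hzm) (hfu _ hzb) hg₃ (by linarith) hC hone'
  refine final_numeric hx1 hC (by positivity) hS0 ?_ (by positivity) ?_ hfin
  · refine hSle.trans ?_
    have h5 : (((2 * X ^ 45 : ℕ) : ℝ) + 1) ≤ 3 * (X : ℝ) ^ 45 := by
      push_cast
      have : (1 : ℝ) ≤ (X : ℝ) ^ 45 := one_le_pow₀ hx1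
      linarith
    have h6 : (((2 * X ^ 45 : ℕ) : ℝ) + 1) * (1 / (X : ℝ) ^ 1000) ≤ 3 / (X : ℝ) ^ 3 := by
      refine (mul_le_mul_of_nonneg_right h5 (by positivity)).trans ?_
      rw [mul_one_div, div_le_div_iff₀ (by positivity) (by positivity), mul_assoc, ← pow_add]
      apply mul_le_mul_of_nonneg_left _ (by norm_num)
      exact pow_le_pow_right₀ hx1 (by norm_num)
    have h7 : a₁ / (X : ℝ) ^ 11 ≤ a₁ / (X : ℝ) ^ 3 :=
      div_le_div_of_nonneg_left ha₁0.le (by positivity) hx11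
    have h8 : (3 + 33 / c + a₁) / (X : ℝ) ^ 3 =
        3 / (X : ℝ) ^ 3 + (33 / c / (X : ℝ) ^ 3 + a₁ / (X : ℝ) ^ 3) := by ring
    rw [h8]
    linarith
  · push_cast
    have : (1 : ℝ) ≤ (X : ℝ) ^ 45 := one_le_pow₀ hx1
    linarith

/-- The finite-volume contradiction. -/
theorem no_square_finite {p₀ lo hi pL c : ℝ} (h0 : 0 ≤ p₀) (h1 : p₀ < 1 / 2) (hhi : 0 < hi)
    (hlohi : lo < hi) (hpL : 0 < pL) (hc : 0 < c) :
    ∃ X₀ : ℕ, ∀ X : ℕ, X₀ ≤ X →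
      ∀ (V : Type) [Fintype V] (p : V → ℝ) (val : V → ℝ) (b : ℝ), IsProb p → 1 ≤ b →
        b ^ 4 ≤ X → (∀ v, 0 ≤ val v ∧ val v ≤ b) → (∑ v, if val v < hi then p v else 0) ≤ p₀ →
        pL ≤ (∑ v, if val v ≤ lo then p v else 0) →
        (∀ x ∈ box (Pars X c).R, ∀ y ∈ box (Pars X c).R,
          c * (|(A x - A y : ℤ)| + |(B x - B y : ℤ)| : ℤ) - 2 ≤
            Ex p (fun ω : EIdx (Pars X c).R → V => TT (wOf val ω) (box (Pars X c).R) x y)) →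
        (∀ j ≤ (Pars X c).N, Ex p (fun ω : EIdx (Pars X c).R → V =>
          TT (wOf val ω) (box (Pars X c).R) (pt 0 (2 * j * (Pars X c).σ))
            (pt (2 * (Pars X c).N * (Pars X c).σ) (2 * j * (Pars X c).σ)))
              ≤ c * (4 * (Pars X c).N * (Pars X c).σ) + X ^ 103) →
        (∀ i ≤ (Pars X c).N, Ex p (fun ω : EIdx (Pars X c).R → V =>
          TT (wOf val ω) (box (Pars X c).R) (pt (2 * i * (Pars X c).σ) 0)
            (pt (2 * i * (Pars X c).σ) (2 * (Pars X c).N * (Pars X c).σ)))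
              ≤ c * (4 * (Pars X c).N * (Pars X c).σ) + X ^ 103) → False := by
  obtain ⟨θ, hθ0, hθ1, X₁, hgood⟩ := good_prob h0 h1 hhi hc
  obtain ⟨C, hC, htube⟩ := tube_step hpL
  have hgap : 0 < hi - lo := by linarith
  obtain ⟨Z, hZ⟩ : ∃ Z : ℝ,
      Z = 4 ^ 32 * (C ^ 32 * (3 * (3 + 33 / c + 4800 * c / ((hi - lo) * θ)) ^ 31)) := ⟨_, rfl⟩
  obtain ⟨X₂, hX₂⟩ := exists_nat_ge (8 + 4 / c + 32 / pL + 40 / θ +
    8 * (4800 * c / ((hi - lo) * θ)) + 8 * (33 / c) + 2 * Z)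
  refine ⟨max (max X₁ X₂) 8, ?_⟩
  intro X hX V _ p val b hp hb hb4 hval hlow hlowm hH1 hH2 hH3
  have hXX₁ : X₁ ≤ X := (le_max_left _ _).trans ((le_max_left _ _).trans hX)
  have hXX₂ : X₂ ≤ X := (le_max_right _ _).trans ((le_max_left _ _).trans hX)
  have hX8 : 8 ≤ X := (le_max_right _ _).trans hX
  have hbig := hX₂.trans (by exact_mod_cast hXX₂ : (X₂ : ℝ) ≤ X)
  have hp1 : 0 < 4 / c := by positivity
  have hp2 : 0 < 32 / pL := by positivity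
  have hp3 : 0 < 40 / θ := by positivity
  have hp4 : 0 < 4800 * c / ((hi - lo) * θ) := by positivity
  have hp5 : 0 < 33 / c := by positivity
  have hp6 : 0 < Z := by
    rw [hZ]
    positivity
  have hgp := hgood X hXX₁ V p val b hp hb hb4 hval hlow hH1 hH2 hH3
  clear hH1 hH2 hH3
  have hval0 : ∀ v, 0 ≤ val v := fun v => (hval v).1
  have hm₀ : X ≤ 2 * (Pars X c).σ := by
    change X ≤ 2 * X ^ 106
    calc X = X ^ 1 := (pow_one X).symm
      _ ≤ X ^ 106 := Nat.pow_le_pow_right (by omega) (by norm_num)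
      _ ≤ 2 * X ^ 106 := by omega
  have i1 : 4 / c ≤ X := by clear hZ; linarith
  have i2 : 32 / pL ≤ X := by clear hZ; linarith
  have i3 : 40 / θ ≤ X := by clear hZ; linarith
  have i4 : 8 * (4800 * c / ((hi - lo) * θ)) ≤ X := by clear hZ; linarith
  have i5 : 8 * (33 / c) ≤ X := by clear hZ; linarith
  have hP : (Pars X c).Ok := pars_ok hc hX8 i1
  have hfin := scale_contra (X := X) hθ0 hlohi hpL hc hC hX8 i1 i2 i3 i4 i5 hp (val := val) hgp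
    (fun {_ _ _ _} a1 a2 a3 a4 {_} a5 a6 a7 {_} a8 a9 =>
      htube (Pars X c) hP hp hval0 hlohi hlowm hθ0.le hm₀ a1 a2 a3 a4 a5 a6 a7 a8 a9)
  rw [← hZ] at hfin
  clear hZ
  linarith

end Pool.Agent.Helper33_FPP
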