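import Pool.Agent.Helper33_FPP.Reflect
import Pool.Agent.Helper33_FPP.PartI

/-!
# Part II: means of discretised truncated passage times
-/

set_option autoImplicit false

open MeasureTheory ProbabilityTheory Filter Topology

namespace Pool.Agent.Helper33_FPP

variable {Ω : Type} [MeasurableSpace Ω] {P : Measure Ω} [IsProbabilityMeasure P]
  {F : Measure ℝ} [IsProbabilityMeasure F] {W : Z2.edgeSet → Ω → ℝ}

theorem ext_apply (W : Z2.edgeSet → Ω → ℝ) (ω : Ω) {R : ℕ} (i : EIdx R) :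
    ext W ω i.1 = W ⟨i.1, (mem_edgesIn.1 i.2).2⟩ ω := by
  unfold ext
  rw [dif_pos (mem_edgesIn.1 i.2).2]

theorem TT_ext_eq_minW (h0 : ∀ e ω, 0 ≤ W e ω) {R : ℕ} {x y : ℤ × ℤ} (hx : x ∈ box R)
    (hy : y ∈ box R) (ω : Ω) : TT (ext W ω) (box R) x y =
      minW (LM.esets R x y) (LM.esets_nonempty hx hy)
        (fun i => W ⟨i.1, (mem_edgesIn.1 i.2).2⟩ ω) := by
  rw [LM.TT_eq_minW hx hy (LM.ext_nonneg h0 ω)]
  congr 1
  funext i
  exact ext_apply W ω i

theorem measurable_TT (hm : ∀ e, Measurable (W e)) (h0 : ∀ e ω, 0 ≤ W e ω) {R : ℕ} {x y : ℤ × ℤ}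
    (hx : x ∈ box R) (hy : y ∈ box R) : Measurable (fun ω => TT (ext W ω) (box R) x y) := by
  simp_rw [TT_ext_eq_minW h0 hx hy]
  exact measurable_minW (fun i => hm _) _ _

theorem integrable_TT (hm : ∀ e, Measurable (W e)) (h0 : ∀ e ω, 0 ≤ W e ω)
    (hint : ∀ e, Integrable (W e) P) {R : ℕ} {x y : ℤ × ℤ} (hx : x ∈ box R) (hy : y ∈ box R) :
    Integrable (fun ω => TT (ext W ω) (box R) x y) P := by
  obtain ⟨S, hS⟩ := LM.esets_nonempty hx hy
  have hI : Integrable (fun ω => ∑ i ∈ S, W ⟨i.1, (mem_edgesIn.1 i.2).2⟩ ω) P :=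
    integrable_finsetSum _ fun i _ => hint _
  refine hI.mono' (measurable_TT hm h0 hx hy).aestronglyMeasurable ?_
  filter_upwards with ω
  rw [Real.norm_of_nonneg (TT_nonneg (LM.ext_nonneg h0 ω) _ _ _), TT_ext_eq_minW h0 hx hy ω]
  unfold minW
  exact Finset.inf'_le (fun S : Finset (EIdx R) => ∑ i ∈ S, W ⟨i.1, (mem_edgesIn.1 i.2).2⟩ ω) hS

theorem Wb_nonneg (W : Z2.edgeSet → Ω → ℝ) (b : ℝ) (e : Z2.edgeSet) (ω : Ω) : 0 ≤ Wb W b e ω :=
  le_max_left _ _

theorem measurable_Wb (hm : ∀ e, Measurable (W e)) (b : ℝ) (e : Z2.edgeSet) :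
    Measurable (Wb W b e) := by
  unfold Wb
  exact measurable_const.max ((hm e).min measurable_const)

theorem integrable_Wb (hm : ∀ e, Measurable (W e)) {b : ℝ} (hb : 0 ≤ b) (e : Z2.edgeSet) :
    Integrable (Wb W b e) P := by
  refine (integrable_const b).mono' (measurable_Wb hm b e).aestronglyMeasurable ?_
  filter_upwards with ω
  rw [Real.norm_of_nonneg (Wb_nonneg W b e ω)]
  unfold Wb
  exact max_le hb (min_le_right _ _)

theorem Ex_eq_integral (hm : ∀ e, Measurable (W e)) (hind : iIndepFun W P)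
    (hF : ∀ e, P.map (W e) = F) (m K R : ℕ) (φ : (EIdx R → Fin (K + 1)) → ℝ) :
    ∫ ω, φ (dcf W m K R ω) ∂P = Ex (dscP F m K) φ := by
  have hinj : Function.Injective
      (fun i : EIdx R => (⟨i.1, (mem_edgesIn.1 i.2).2⟩ : Z2.edgeSet)) := by
    intro i j h
    simp only [Subtype.mk.injEq] at h
    exact Subtype.ext h
  exact transfer (ι := EIdx R) (w := fun i => W ⟨i.1, (mem_edgesIn.1 i.2).2⟩) (fun i => hm _)
    (hind.precomp hinj) (fun i => hF _) m K φ

theorem measurable_dcf (hm : ∀ e, Measurable (W e)) (m K R : ℕ) :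
    Measurable (fun ω => dcf W m K R ω) :=
  measurable_pi_lambda _ (fun i => (measurable_dsc m K).comp (hm _))

theorem integrable_dcf (hm : ∀ e, Measurable (W e)) (m K R : ℕ)
    (φ : (EIdx R → Fin (K + 1)) → ℝ) : Integrable (fun ω => φ (dcf W m K R ω)) P := by
  have h1 : Measurable (fun ω => φ (dcf W m K R ω)) :=
    (measurable_of_finite φ).comp (measurable_dcf hm m K R)
  obtain ⟨C, hC⟩ : ∃ C : ℝ, ∀ a, ‖φ a‖ ≤ C := by
    obtain ⟨C, hC⟩ := (Set.finite_range (fun a => ‖φ a‖)).bddAbove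
    exact ⟨C, fun a => hC ⟨a, rfl⟩⟩
  refine (integrable_const C).mono' h1.aestronglyMeasurable ?_
  filter_upwards with ω
  exact hC _

theorem low_Ex (hm : ∀ e, Measurable (W e)) (hind : iIndepFun W P) (hF : ∀ e, P.map (W e) = F)
    (h0 : ∀ e ω, 0 ≤ W e ω) {m b R : ℕ} (hm0 : 0 < m) (hcard : (edgesIn R).card ≤ m)
    {x y : ℤ × ℤ} (hx : x ∈ box R) (hy : y ∈ box R) {L : ℝ}
    (hL : L ≤ ∫ ω, TT (ext (Wb W b) ω) (box R) x y ∂P) :
    L - 1 ≤ Ex (dscP F m (m * b)) (fun ω : EIdx R → Fin (m * b + 1) =>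
      TT (wOf (dval m (m * b)) ω) (box R) x y) := by
  rw [← Ex_eq_integral hm hind hF m (m * b) R
    (fun ω : EIdx R → Fin (m * b + 1) => TT (wOf (dval m (m * b)) ω) (box R) x y)]
  have hint := integrable_dcf (P := P) hm m (m * b) R
    (fun ω : EIdx R → Fin (m * b + 1) => TT (wOf (dval m (m * b)) ω) (box R) x y)
  have h1 : ∫ ω, TT (ext (Wb W b) ω) (box R) x y ∂P ≤
      ∫ ω, (TT (wOf (dval m (m * b)) (dcf W m (m * b) R ω)) (box R) x y + 1) ∂P := by
    apply integral_mono_of_nonneg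
    · filter_upwards with ω
      exact TT_nonneg (LM.ext_nonneg (Wb_nonneg W b) ω) _ _ _
    · exact hint.add (integrable_const 1)
    · filter_upwards with ω
      refine (le_TT_dcf h0 hm0 ω hx hy).trans (add_le_add le_rfl ?_)
      rw [div_le_one (by exact_mod_cast hm0)]
      exact_mod_cast hcard
  rw [integral_add hint (integrable_const 1), integral_const, probReal_univ, one_smul] at h1
  linarith

theorem Ex_le (hm : ∀ e, Measurable (W e)) (hind : iIndepFun W P) (hF : ∀ e, P.map (W e) = F)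
    (h0 : ∀ e ω, 0 ≤ W e ω) {m b R : ℕ} (hm0 : 0 < m)
    {x y : ℤ × ℤ} (hx : x ∈ box R) (hy : y ∈ box R) {U : ℝ}
    (hU : ∫ ω, TT (ext (Wb W b) ω) (box R) x y ∂P ≤ U) :
    Ex (dscP F m (m * b)) (fun ω : EIdx R → Fin (m * b + 1) =>
      TT (wOf (dval m (m * b)) ω) (box R) x y) ≤ U := by
  rw [← Ex_eq_integral hm hind hF m (m * b) R
    (fun ω : EIdx R → Fin (m * b + 1) => TT (wOf (dval m (m * b)) ω) (box R) x y)]
  refine le_trans ?_ hU
  apply integral_mono_of_nonneg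
  · filter_upwards with ω
    exact TT_nonneg (wOf_nonneg' (dval_nonneg m (m * b)) _) _ _ _
  · exact integrable_TT (measurable_Wb hm b) (Wb_nonneg W b)
      (fun e => integrable_Wb hm (Nat.cast_nonneg b) e) hx hy
  · filter_upwards with ω
    exact TT_dcf_le h0 hm0 ω hx hy

/-! ### Truncation -/

theorem TT_le_trunc (h0 : ∀ e ω, 0 ≤ W e ω) {b : ℝ} {R : ℕ} (ω : Ω) {x y : ℤ × ℤ}
    (hx : x ∈ box R) (hy : y ∈ box R) :
    TT (ext W ω) (box R) x y ≤ TT (ext (Wb W b) ω) (box R) x y +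
      ∑ i : EIdx R, max 0 (W ⟨i.1, (mem_edgesIn.1 i.2).2⟩ ω - b) := by
  classical
  have hnn : ∀ e, 0 ≤ ext (Wb W b) ω e := LM.ext_nonneg (Wb_nonneg W b) ω
  obtain ⟨p0, hp0⟩ := LM.box_connected hx hy
  obtain ⟨p, hp, hpw⟩ := exists_minPath hnn (box R).finite_toSet hp0
  rw [← hpw]
  refine (TT_le (LM.ext_nonneg h0 ω) hp.2.1).trans ?_
  rw [LM.wt_eq_sum hp.1 hp.2.1 (w := ext W ω), LM.wt_eq_sum hp.1 hp.2.1 (w := ext (Wb W b) ω)]
  have h1 : ∑ i ∈ (LM.eset p : Finset (EIdx R)), ext W ω i.1 ≤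
      ∑ i ∈ (LM.eset p : Finset (EIdx R)), (ext (Wb W b) ω i.1 +
      max 0 (W ⟨i.1, (mem_edgesIn.1 i.2).2⟩ ω - b)) := by
    apply Finset.sum_le_sum
    intro i _
    rw [ext_apply, ext_apply]
    unfold Wb
    rcases le_total (W ⟨i.1, (mem_edgesIn.1 i.2).2⟩ ω) b with h | h
    · rw [min_eq_left h]
      have := le_max_right 0 (W ⟨i.1, (mem_edgesIn.1 i.2).2⟩ ω)
      have := le_max_left 0 (W ⟨i.1, (mem_edgesIn.1 i.2).2⟩ ω - b)
      linarith
    · rw [min_eq_right h]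
      have := le_max_right 0 b
      have := le_max_right 0 (W ⟨i.1, (mem_edgesIn.1 i.2).2⟩ ω - b)
      linarith
  rw [Finset.sum_add_distrib] at h1
  refine h1.trans (add_le_add le_rfl ?_)
  exact Finset.sum_le_sum_of_subset_of_nonneg (Finset.subset_univ _)
    (fun i _ _ => le_max_left _ _)

theorem mean_trunc (hm : ∀ e, Measurable (W e)) (hF : ∀ e, P.map (W e) = F)
    (h0 : ∀ e ω, 0 ≤ W e ω) (hint : ∀ e, Integrable (W e) P) {b : ℝ} (hb : 0 ≤ b) {R : ℕ}
    {x y : ℤ × ℤ} (hx : x ∈ box R) (hy : y ∈ box R) {L : ℝ}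
    (hL : L ≤ ∫ ω, TT (ext W ω) (box R) x y ∂P) :
    L - (edgesIn R).card * ∫ t, max 0 (t - b) ∂F ≤ ∫ ω, TT (ext (Wb W b) ω) (box R) x y ∂P := by
  have hi : ∀ e, Integrable (fun ω => max 0 (W e ω - b)) P := fun e => by
    have := ((hint e).sub (integrable_const b)).pos_part
    refine this.congr ?_
    filter_upwards with ω
    simp [max_comm]
  have hIb : Integrable (fun ω => TT (ext (Wb W b) ω) (box R) x y) P :=
    integrable_TT (measurable_Wb hm b) (Wb_nonneg W b) (fun e => integrable_Wb hm hb e) hx hy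
  have hIs : Integrable (fun ω => ∑ i : EIdx R,
      max 0 (W ⟨i.1, (mem_edgesIn.1 i.2).2⟩ ω - b)) P :=
    integrable_finsetSum _ fun i _ => hi _
  have h1 : ∫ ω, TT (ext W ω) (box R) x y ∂P ≤ ∫ ω, (TT (ext (Wb W b) ω) (box R) x y +
      ∑ i : EIdx R, max 0 (W ⟨i.1, (mem_edgesIn.1 i.2).2⟩ ω - b)) ∂P := by
    apply integral_mono_of_nonneg
    · filter_upwards with ω
      exact TT_nonneg (LM.ext_nonneg h0 ω) _ _ _
    · exact hIb.add hIs
    · filter_upwards with ω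
      exact TT_le_trunc h0 ω hx hy
  rw [integral_add hIb hIs, integral_finsetSum _ (fun i _ => hi _)] at h1
  have h2 : ∀ e, ∫ ω, max 0 (W e ω - b) ∂P = ∫ t, max 0 (t - b) ∂F := by
    intro e
    rw [← hF e, integral_map (hm e).aemeasurable]
    exact (by fun_prop : Measurable (fun t : ℝ => max 0 (t - b))).aestronglyMeasurable
  rw [Finset.sum_congr rfl (fun i _ => h2 _), Finset.sum_const, nsmul_eq_mul, Finset.card_univ,
    Fintype.card_coe] at h1
  linarith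

end Pool.Agent.Helper33_FPP
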