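import Pool.Agent.Helper33_FPP.NMNum
import Pool.Agent.Helper33_FPP.NMConc
import Pool.Agent.Helper33_FPP.NMEnd
import Pool.Agent.Helper33_FPP.Greedy
import Pool.Agent.Helper33_FPP.PartII

/-!
# Module PB5: lower bound of the mean truncated passage time without moment assumptions
-/

set_option autoImplicit false

namespace Pool.Agent.Helper33_FPP

open Finset MeasureTheory ProbabilityTheory Filter Topology

namespace NM

lemma ext_Wb {Ω : Type} (W : Z2.edgeSet → Ω → ℝ) {b : ℝ} (hb : 0 ≤ b) (ω : Ω) :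
    ext (Wb W b) ω = fun e => max 0 (min (ext W ω e) b) := by
  funext e
  unfold ext
  split_ifs with h
  · rfl
  · rw [min_eq_left hb, max_self]

lemma box_sub {R R' : ℕ} (h : R ≤ R') {v : ℤ × ℤ} (hv : v ∈ box R) : v ∈ box R' := by
  rw [mem_box] at hv ⊢
  omega

lemma real_union_le₂ {Ω : Type} [MeasurableSpace Ω] {P : Measure Ω} [IsProbabilityMeasure P]
    {A B : Set Ω} {a b : ℝ} (hA : P.real A ≤ a) (hB : P.real B ≤ b) : P.real (A ∪ B) ≤ a + b :=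
  (measureReal_union_le _ _).trans (add_le_add hA hB)

/-- `∃ u ∈ box`, a chain at scale `ℓ` -/
lemma box_chain {Ω : Type} [MeasurableSpace Ω] {P : Measure Ω} [IsProbabilityMeasure P]
    {W : Z2.edgeSet → Ω → ℝ} {M C₂ : ℝ}
    (hch : ∀ (u : ℤ × ℤ) (ℓ : ℕ), 1 ≤ ℓ →
      P.real {ω | ¬ NoChain (ext W ω) M (Bx u (10 * ℓ)) ℓ} ≤ C₂ * Real.exp (-(ℓ : ℝ)))
    (RN ℓ : ℕ) (hℓ : 1 ≤ ℓ) :
    P.real {ω | ∃ u ∈ box RN, ¬ NoChain (ext W ω) M (Bx u (10 * ℓ)) ℓ} ≤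
      (2 * (RN : ℝ) + 1) ^ 2 * (C₂ * Real.exp (-(ℓ : ℝ))) := by
  have h1 : {ω | ∃ u ∈ box RN, ¬ NoChain (ext W ω) M (Bx u (10 * ℓ)) ℓ} =
      ⋃ u ∈ box RN, {ω | ¬ NoChain (ext W ω) M (Bx u (10 * ℓ)) ℓ} := by
    ext ω
    simp
  rw [h1]
  refine (measureReal_biUnion_finset_le _ _).trans ?_
  refine (Finset.sum_le_sum fun u _ => hch u ℓ hℓ).trans (le_of_eq ?_)
  rw [Finset.sum_const, QAux.card_box, nsmul_eq_mul]
  push_cast
  ring

theorem main {Ω : Type} [MeasurableSpace Ω] {P : Measure Ω} [IsProbabilityMeasure P]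
    {F : Measure ℝ} [IsProbabilityMeasure F] {W : Z2.edgeSet → Ω → ℝ}
    (hm : ∀ e, Measurable (W e)) (hind : iIndepFun W P) (hF : ∀ e, P.map (W e) = F)
    (h0 : ∀ e ω, 0 ≤ W e ω) {θ h₁ ρ C : ℝ} (hθ : 0 < θ) (hh₁ : 0 < h₁) (hρ : 0 < ρ) (hρ1 : ρ < 1)
    (hPei : ∀ (R m₀ : ℕ), P.real {ω | ¬ PGood R m₀ θ h₁ (ext W ω)} ≤ C * (2 * R + 1) ^ 2 * ρ ^ m₀)
    {M C₁ C₂ : ℝ} (hM : 0 ≤ M) (hC₁ : 0 < C₁) (hC₂ : 0 < C₂)
    (hch : ∀ (u : ℤ × ℤ) (ℓ : ℕ), 1 ≤ ℓ →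
      P.real {ω | ¬ NoChain (ext W ω) M (Bx u (10 * ℓ)) ℓ} ≤ C₂ * Real.exp (-(ℓ : ℝ)))
    (hgr : ∀ (ℓ : ℕ) (p : ℝ),
      (∀ u, P.real {ω | ¬ NoChain (ext W ω) M (Bx u (10 * ℓ)) ℓ} ≤ p) → ∀ (n k : ℕ), 1 ≤ k →
      P.real {ω | ∃ (y : ℤ × ℤ) (q : Z2.Walk 0 y), q.length ≤ n ∧
        (4 * (10 * ℓ + 1) + 3) ^ 2 * k ≤ {u ∈ (q.support.toFinset : Set (ℤ × ℤ)) |
          ¬ NoChain (ext W ω) M (Bx u (10 * ℓ)) ℓ}.ncard} ≤
        (C₁ * (((n : ℝ) + k) / k) ^ 2 * p) ^ k)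
    {b : ℝ} (hb1 : h₁ ≤ b) {ℓ₀ : ℕ} (hℓ₀ : 1 ≤ ℓ₀) (hb : M * (20 * (ℓ₀ : ℝ) + 1) ^ 2 < b)
    (hK : 4 * (C₁ * C₂ + 1) * Real.exp (-(ℓ₀ : ℝ) / 2) ≤ 1) {A : ℝ} (hA0 : 0 ≤ A)
    (hA : ∀ I, ∑ i ∈ range I, ai M (4 * (C₁ * C₂ + 1)) ℓ₀ i ≤ A)
    {z : ℤ × ℤ} {μz : ℝ}
    (hμ : TendstoInMeasure P (fun (n : ℕ) ω => passageTime (ext W ω) 0 (n • z) / n) atTop
        (fun _ => μz)) {R : ℕ} {x y : ℤ × ℤ} (hx : x ∈ box R) (hy : y ∈ box R)
    (hxy : y - x = z) :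
    μz ≤ (∫ ω, TT (ext (Wb W b) ω) (box R) x y ∂P) * (1 + A / (h₁ * θ)) := by
  classical
  subst hxy
  have hb0 : 0 ≤ b := hh₁.le.trans hb1
  set K₅ := 4 * (C₁ * C₂ + 1) with hK₅
  have hK₅0 : 0 < K₅ := by positivity
  set m := ∫ ω, TT (ext (Wb W b) ω) (box R) x y ∂P with hmdef
  have hm0 : 0 ≤ m := integral_nonneg fun ω => TT_nonneg (LM.ext_nonneg (Wb_nonneg W b) ω) _ _ _
  by_contra hlt
  push Not at hlt
  set B := 1 + A / (h₁ * θ) with hB
  have hB1 : 1 ≤ B := by rw [hB]; have : 0 ≤ A / (h₁ * θ) := by positivity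
                         linarith
  set g := μz - m * B with hg
  have hg0 : 0 < g := by rw [hg]; linarith
  set ε := g / (2 * (B + 1)) with hε
  have hε0 : 0 < ε := by positivity
  have hεB : ε * (B + 1) = g / 2 := by rw [hε]; field_simp
  set a := m + ε with ha
  have ha0 : 0 < a := by linarith
  have haB : a * B + ε = μz - g / 2 := by
    have : a * B + ε = m * B + ε * (B + 1) := by rw [ha]; ring
    rw [this, hεB, hg]; ring
  set δ := ε / (4 * a) with hδ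
  have hδ0 : 0 < δ := by positivity
  obtain ⟨r, K, hr, hKr⟩ := end_cost hm hF h0 hch hℓ₀ hδ0
  set R₁ := R + ℓ₀ with hR₁
  have hXi : UpperMean.Iid P (F.map (fun x => max 0 (min x b))) (Wb W b) b := UpperMean.iid_Wb hm hind hF hb0
  have hfm : Measurable fun x : ℝ => max 0 (min x b) := by fun_prop
  have hprob : IsProbabilityMeasure (F.map (fun x => max 0 (min x b))) :=
    Measure.isProbabilityMeasure_map hfm.aemeasurable
  -- error terms
  set K₆ : ℝ := 9 * R₁ with hK₆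
  set err : ℕ → ℝ := fun I => |C| * K₆ ^ 2 * (((2 : ℝ) ^ I) ^ 32 * ρ ^ (2 ^ I)) +
    K₆ ^ 2 * C₂ * (((2 : ℝ) ^ I) ^ 32 * (Real.exp (-1)) ^ (2 ^ I)) +
    ((2 : ℝ) ^ I) ^ 1 * (1 / 4) ^ (2 ^ I) with herr
  have herr0 : Tendsto err atTop (𝓝 0) := by
    have h1 := (tendsto_two_pow 32 hρ hρ1).const_mul (|C| * K₆ ^ 2)
    have h2 := (tendsto_two_pow 32 (Real.exp_pos (-1)) (by
      rw [Real.exp_lt_one_iff]; norm_num)).const_mul (K₆ ^ 2 * C₂)
    have h3 := tendsto_two_pow 1 (show (0 : ℝ) < 1 / 4 by norm_num) (by norm_num)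
    have h4 := (h1.add h2).add h3
    simp only [mul_zero, add_zero] at h4
    exact h4
  -- the limit along the subsequence
  have hlim : Tendsto (fun I : ℕ => P.real {ω | g / 2 ≤
      ‖passageTime (ext W ω) 0 (((2 ^ I) ^ 16 : ℕ) • (y - x)) / (((2 ^ I) ^ 16 : ℕ) : ℝ) - μz‖})
      atTop (𝓝 0) := by
    have h1 := tendstoInMeasure_iff_norm.1 hμ (g / 2) (by linarith)
    have h2 := (ENNReal.tendsto_toReal (by simp : (0 : ENNReal) ≠ ⊤)).comp h1
    have h3 : Tendsto (fun I : ℕ => (2 ^ I) ^ 16) atTop atTop :=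
      (tendsto_pow_atTop (by norm_num)).comp (tendsto_pow_atTop_atTop_of_one_lt (by norm_num))
    have h4 := h2.comp h3
    simpa [Function.comp_def, Measure.real] using h4
  set K₇ : ℝ := 8 * M * (47 * ℓ₀) ^ 4 with hK₇
  set K₈ : ℝ := 2 * |K| + 2 * A + K₇ with hK₈
  have hK₇0 : 0 ≤ K₇ := by positivity
  have hK₈0 : 0 ≤ K₈ := by positivity
  have hbig : ∀ᶠ I : ℕ in atTop, K₈ ≤ ε * 2 ^ I := by
    have h1 : Tendsto (fun I : ℕ => ε * (2 : ℝ) ^ I) atTop atTop :=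
      (tendsto_pow_atTop_atTop_of_one_lt (by norm_num)).const_mul_atTop hε0
    exact h1.eventually_ge_atTop K₈
  have hmain : ∀ I : ℕ, K₈ ≤ ε * 2 ^ I → 4 * δ ≤ P.real {ω | g / 2 ≤
      ‖passageTime (ext W ω) 0 (((2 ^ I) ^ 16 : ℕ) • (y - x)) / (((2 ^ I) ^ 16 : ℕ) : ℝ) - μz‖} +
      (err I + 2 * δ) := by
    intro I hI
    set t : ℕ := 2 ^ I with ht
    have ht1 : 1 ≤ t := Nat.one_le_two_pow
    have ht1' : (1 : ℝ) ≤ t := by exact_mod_cast ht1
    have htI : (I : ℝ) ≤ t := by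
      have : I ≤ t := Nat.lt_two_pow_self.le
      exact_mod_cast this
    have htR : ((2 : ℝ) ^ I) = t := by rw [ht]; push_cast; rfl
    rw [htR] at hI
    set N : ℕ := t ^ 16 with hN
    have hN1 : 1 ≤ N := Nat.one_le_pow _ _ ht1
    have hN' : (0 : ℝ) < N := by exact_mod_cast hN1
    have hNt : (N : ℝ) = (t : ℝ) ^ 16 := by rw [hN]; push_cast; rfl
    set RN : ℕ := (2 * N + 2) * R₁ with hRN
    obtain ⟨S, hSm, hSi, hS0, hSE, hSq⟩ := conc_box hXi.meas hXi.indep hXi.law hXi.nonneg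
      (fun e => integrable_Wb hm hb0 e) hx hy N
    -- Markov
    have hmarkov : P.real {ω | a * N ≤ S ω} ≤ m / a := by
      have h1 := mul_meas_ge_le_integral_of_nonneg (μ := P) (f := S)
        (Eventually.of_forall hS0) hSi (a * N)
      rw [hSE] at h1
      rw [le_div_iff₀ ha0]
      have h2 : (N : ℝ) * (a * P.real {ω | a * N ≤ S ω}) ≤ N * m := by
        calc _ = a * N * P.real {ω | a * N ≤ S ω} := by ring
          _ ≤ _ := h1
      have h3 := le_of_mul_le_mul_left h2 hN'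
      linarith
    have h4δ : 4 * δ ≤ P.real {ω | a * N ≤ S ω}ᶜ := by
      have hms : MeasurableSet {ω | a * N ≤ S ω} := measurableSet_le measurable_const hSm
      rw [measureReal_compl hms, probReal_univ]
      have : 4 * δ = 1 - m / a := by
        rw [hδ]
        field_simp
        rw [ha]; ring
      rw [this]
      linarith
    refine h4δ.trans ?_
    -- parameters
    set n : ℕ := ⌈a * N / (h₁ * θ)⌉₊ + t ^ 8 with hn
    set k : ℕ → ℕ := fun i => ⌈K₅ * Real.exp (-((ℓ₀ : ℝ) * 2 ^ i) / 2) * n⌉₊ + t ^ 8 with hk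
    have ht8 : 1 ≤ t ^ 8 := Nat.one_le_pow _ _ ht1
    -- the bad events
    set E1 : Set Ω := {ω | ¬ PGood RN (t ^ 8) θ h₁ (ext W ω)} with hE1
    set E2 : Set Ω := {ω | ∃ u ∈ box RN, ¬ NoChain (ext W ω) M (Bx u (10 * (ℓ₀ * 2 ^ I)))
      (ℓ₀ * 2 ^ I)} with hE2
    set E3 : ℕ → Set Ω := fun i => {ω | ∃ (y : ℤ × ℤ) (q : Z2.Walk 0 y), q.length ≤ n ∧
        (4 * (10 * (ℓ₀ * 2 ^ i) + 1) + 3) ^ 2 * k i ≤ {u ∈ (q.support.toFinset : Set (ℤ × ℤ)) |
          ¬ NoChain (ext W ω) M (Bx u (10 * (ℓ₀ * 2 ^ i))) (ℓ₀ * 2 ^ i)}.ncard} with hE3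
    set E4 : ℤ × ℤ → Set Ω := fun v => {ω | ¬ (FarGood (ext W ω) M ℓ₀ r v ∧
      ∑ e ∈ near v r, ext W ω e ≤ K)} with hE4
    have hincl : {ω | a * N ≤ S ω}ᶜ ⊆ {ω | g / 2 ≤
        ‖passageTime (ext W ω) 0 (N • (y - x)) / (N : ℝ) - μz‖} ∪
        (((E1 ∪ E2) ∪ ⋃ i ∈ range I, E3 i) ∪ (E4 0 ∪ E4 (N • (y - x)))) := by
      intro ω hω
      have hSω : S ω < a * N := not_le.1 hω
      by_contra hcon
      rw [Set.mem_union, not_or, Set.mem_union, not_or, Set.mem_union, not_or, Set.mem_union,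
        not_or, Set.mem_union, not_or] at hcon
      obtain ⟨c1, ⟨⟨c2, c3⟩, c4⟩, c5, c6⟩ := hcon
      have hw : ∀ e, 0 ≤ ext W ω e := LM.ext_nonneg h0 ω
      obtain ⟨q, hqb, hqw⟩ := hSq ω
      have d1 : PGood RN (t ^ 8) θ h₁ (ext W ω) := not_not.1 c2
      have d2 : ∀ u ∈ box RN, NoChain (ext W ω) M (Bx u (10 * (ℓ₀ * 2 ^ I))) (ℓ₀ * 2 ^ I) := by
        intro u hu
        by_contra hc
        exact c3 ⟨u, hu, hc⟩
      have d3 : ∀ i < I, ω ∉ E3 i := by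
        intro i hi hc
        apply c4
        rw [Set.mem_iUnion₂]
        exact ⟨i, Finset.mem_range.2 hi, hc⟩
      have d4 := not_not.1 c5
      have d5 := not_not.1 c6
      rw [ext_Wb W hb0 ω] at hqw
      have hnX : a * N ≤ h₁ * θ * n := by
        have i1 := Nat.le_ceil (a * N / (h₁ * θ))
        rw [div_le_iff₀ (by positivity)] at i1
        have i2 : ((⌈a * N / (h₁ * θ)⌉₊ : ℕ) : ℝ) ≤ n := by
          rw [hn]; push_cast
          have : (0 : ℝ) ≤ (t : ℝ) ^ 8 := by positivity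
          linarith
        have i3 := mul_le_mul_of_nonneg_right i2 (show 0 ≤ h₁ * θ by positivity)
        linarith
      have hT := good_bound (w := ext W ω) hw hθ hh₁ hM hb1 (ℓ₀ := ℓ₀) (I := I) (RN := RN)
        (r := r) (m₀ := t ^ 8) (n := n) hℓ₀ hb (by
          rw [hRN, ← ht]
          have i1 : t ≤ 2 * N + 2 := by
            have : t ≤ N := by
              rw [hN]
              exact Nat.le_self_pow (by norm_num) t
            omega
          have i2 : ℓ₀ ≤ R₁ := by rw [hR₁]; omega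
          rw [mul_comm ℓ₀ t]
          exact Nat.mul_le_mul i1 i2) hr (X := a * N) (K := K) q
        (fun v hv => box_sub (by
          rw [hRN, hR₁]
          exact Nat.mul_le_mul_left _ (by omega)) (hqb v hv)) (hqw.trans hSω.le)
        (by rw [hn]; omega) hnX d1 d2 d4.1 d4.2 d5.1 d5.2
        (fun i => (4 * (10 * (ℓ₀ * 2 ^ i) + 1) + 3) ^ 2 * k i) (fun i hi => d3 i hi)
      have hcost := sum_cost_le (M := M) (K := K₅) hM (ℓ₀ := ℓ₀) hℓ₀ (I := I) (n := n)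
        (T := t ^ 8) k (by
          intro i
          have i1 := (Nat.ceil_lt_add_one (show 0 ≤ K₅ * Real.exp (-((ℓ₀ : ℝ) * 2 ^ i) / 2) * n by
            positivity)).le
          have i2 : (1 : ℝ) ≤ ((t ^ 8 : ℕ) : ℝ) := by exact_mod_cast ht8
          show ((⌈K₅ * Real.exp (-((ℓ₀ : ℝ) * 2 ^ i) / 2) * n⌉₊ + t ^ 8 : ℕ) : ℝ) ≤ _
          rw [Nat.cast_add]
          linarith)
      -- arithmetic
      apply c1
      show g / 2 ≤ ‖passageTime (ext W ω) 0 (N • (y - x)) / (N : ℝ) - μz‖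
      have hfin : passageTime (ext W ω) 0 (N • (y - x)) ≤ (a * B + ε) * N := by
        have j1 : (n : ℝ) ≤ a * N / (h₁ * θ) + 2 * (t : ℝ) ^ 8 := by
          have i1 := (Nat.ceil_lt_add_one (show 0 ≤ a * N / (h₁ * θ) by positivity)).le
          have i2 : (1 : ℝ) ≤ (t : ℝ) ^ 8 := one_le_pow₀ ht1'
          rw [hn]
          push_cast
          linarith
        have j2 : (n : ℝ) * ∑ i ∈ range I, ai M K₅ ℓ₀ i ≤ (a * N / (h₁ * θ) + 2 * (t : ℝ) ^ 8) * A := by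
          refine le_trans (mul_le_mul_of_nonneg_left (hA I) (Nat.cast_nonneg n)) ?_
          exact mul_le_mul_of_nonneg_right j1 hA0
        have j3 : (I : ℝ) * (8 * M * ((t ^ 8 : ℕ) : ℝ) * (47 * (ℓ₀ * 2 ^ I)) ^ 4) ≤
            K₇ * (t : ℝ) ^ 13 := by
          rw [htR]
          have : (I : ℝ) * (8 * M * ((t ^ 8 : ℕ) : ℝ) * (47 * (ℓ₀ * (t : ℝ))) ^ 4) =
              I * (K₇ * (t : ℝ) ^ 12) := by
            rw [hK₇]; push_cast; ring
          rw [this]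
          calc _ ≤ (t : ℝ) * (K₇ * (t : ℝ) ^ 12) :=
                mul_le_mul_of_nonneg_right htI (by positivity)
            _ = _ := by ring
        have j4 : (t : ℝ) ^ 8 ≤ (t : ℝ) ^ 13 := pow_le_pow_right₀ ht1' (by norm_num)
        have j5 : (1 : ℝ) ≤ (t : ℝ) ^ 13 := one_le_pow₀ ht1'
        have j6 : K₈ * (t : ℝ) ^ 13 ≤ ε * N := by
          rw [hNt]
          calc K₈ * (t : ℝ) ^ 13 ≤ (ε * t) * (t : ℝ) ^ 13 :=
                mul_le_mul_of_nonneg_right hI (by positivity)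
            _ = ε * (t : ℝ) ^ 14 := by ring
            _ ≤ ε * (t : ℝ) ^ 16 := by
                apply mul_le_mul_of_nonneg_left _ hε0.le
                exact pow_le_pow_right₀ ht1' (by norm_num)
        have j7 : 2 * K ≤ 2 * |K| * (t : ℝ) ^ 13 := by
          have := le_abs_self K
          have h2 := abs_nonneg K
          nlinarith
        have j8 : 2 * (t : ℝ) ^ 8 * A ≤ 2 * A * (t : ℝ) ^ 13 := by nlinarith
        have j9 : K₈ * (t : ℝ) ^ 13 = 2 * |K| * (t : ℝ) ^ 13 + 2 * A * (t : ℝ) ^ 13 +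
            K₇ * (t : ℝ) ^ 13 := by rw [hK₈]; ring
        have j10 : (a * B + ε) * N = a * N + (a * N / (h₁ * θ)) * A + ε * N := by
          rw [hB]; ring
        have j11 : (a * N / (h₁ * θ) + 2 * (t : ℝ) ^ 8) * A = (a * N / (h₁ * θ)) * A +
          2 * (t : ℝ) ^ 8 * A := by ring
        linarith
      have hdiv : passageTime (ext W ω) 0 (N • (y - x)) / (N : ℝ) ≤ μz - g / 2 := by
        rw [div_le_iff₀ hN', ← haB]
        exact hfin
      rw [Real.norm_eq_abs, abs_sub_comm]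
      exact le_trans (by linarith) (le_abs_self _)
    refine (measureReal_mono hincl).trans ?_
    refine real_union_le₂ le_rfl ?_
    refine real_union_le₂ ?_ ?_
    · -- the error terms
      have hRN9 : 2 * (RN : ℝ) + 1 ≤ K₆ * (t : ℝ) ^ 16 := by
        rw [hRN, hK₆]
        push_cast
        rw [hNt]
        have hR1 : (1 : ℝ) ≤ R₁ := by
          rw [hR₁]
          have : 1 ≤ R + ℓ₀ := by omega
          exact_mod_cast this
        have ht16 : (1 : ℝ) ≤ (t : ℝ) ^ 16 := one_le_pow₀ ht1'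
        nlinarith [mul_le_mul hR1 ht16 (by norm_num) (by linarith)]
      have hRNsq : (2 * (RN : ℝ) + 1) ^ 2 ≤ K₆ ^ 2 * (t : ℝ) ^ 32 := by
        calc (2 * (RN : ℝ) + 1) ^ 2 ≤ (K₆ * (t : ℝ) ^ 16) ^ 2 :=
              pow_le_pow_left₀ (by positivity) hRN9 2
          _ = _ := by ring
      have hp1 : P.real E1 ≤ |C| * K₆ ^ 2 * ((t : ℝ) ^ 32 * ρ ^ t) := by
        refine (hPei RN (t ^ 8)).trans ?_
        have i1 : C * (2 * (RN : ℝ) + 1) ^ 2 * ρ ^ (t ^ 8) ≤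
            |C| * (2 * (RN : ℝ) + 1) ^ 2 * ρ ^ (t ^ 8) := by
          have := le_abs_self C
          gcongr
        have i2 : ρ ^ (t ^ 8) ≤ ρ ^ t :=
          pow_le_pow_of_le_one hρ.le hρ1.le (Nat.le_self_pow (by norm_num) t)
        refine i1.trans ?_
        calc |C| * (2 * (RN : ℝ) + 1) ^ 2 * ρ ^ (t ^ 8) ≤
              |C| * (K₆ ^ 2 * (t : ℝ) ^ 32) * ρ ^ t := by
              refine mul_le_mul (mul_le_mul_of_nonneg_left hRNsq (abs_nonneg C)) i2 (by positivity)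
                (by positivity)
          _ = _ := by ring
      have hp2 : P.real E2 ≤ K₆ ^ 2 * C₂ * ((t : ℝ) ^ 32 * (Real.exp (-1)) ^ t) := by
        refine (box_chain hch RN (ℓ₀ * 2 ^ I) (Nat.one_le_iff_ne_zero.2 (by positivity))).trans ?_
        have i1 : Real.exp (-((ℓ₀ * 2 ^ I : ℕ) : ℝ)) ≤ (Real.exp (-1)) ^ t := by
          rw [← Real.exp_nat_mul]
          apply Real.exp_le_exp.2
          have : t ≤ ℓ₀ * 2 ^ I := by rw [← ht]; exact Nat.le_mul_of_pos_left _ (by omega)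
          have h2 : (t : ℝ) ≤ ((ℓ₀ * 2 ^ I : ℕ) : ℝ) := by exact_mod_cast this
          linarith
        calc _ ≤ (K₆ ^ 2 * (t : ℝ) ^ 32) * (C₂ * (Real.exp (-1)) ^ t) := by
              refine mul_le_mul hRNsq (mul_le_mul_of_nonneg_left i1 hC₂.le) ?_ (by positivity)
              exact mul_nonneg hC₂.le (Real.exp_pos _).le
          _ = _ := by ring
      have hp3 : P.real (⋃ i ∈ range I, E3 i) ≤ (t : ℝ) ^ 1 * (1 / 4) ^ t := by
        refine (measureReal_biUnion_finset_le _ _).trans ?_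
        have hi3 : ∀ i ∈ range I, P.real (E3 i) ≤ (1 / 4) ^ t := by
          intro i _
          have hl1 : 1 ≤ ℓ₀ * 2 ^ i := Nat.one_le_iff_ne_zero.2 (by positivity)
          have hki : 1 ≤ k i := by
            show 1 ≤ ⌈K₅ * Real.exp (-((ℓ₀ : ℝ) * 2 ^ i) / 2) * n⌉₊ + t ^ 8
            omega
          have hcast : ((ℓ₀ * 2 ^ i : ℕ) : ℝ) = (ℓ₀ : ℝ) * 2 ^ i := by push_cast; ring
          refine (hgr (ℓ₀ * 2 ^ i) (C₂ * Real.exp (-((ℓ₀ * 2 ^ i : ℕ) : ℝ)))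
            (fun u => hch u _ hl1) n (k i) hki).trans ?_
          rw [hcast]
          have i1 : C₁ * (((n : ℝ) + k i) / k i) ^ 2 *
              (C₂ * Real.exp (-((ℓ₀ : ℝ) * 2 ^ i))) ≤ 1 / 4 := by
            apply greedy_num hC₁ hC₂ _ (Nat.cast_nonneg n) (by exact_mod_cast hki)
            · show K₅ * Real.exp (-((ℓ₀ : ℝ) * 2 ^ i) / 2) * n ≤ k i
              refine (Nat.le_ceil _).trans ?_
              have : ⌈K₅ * Real.exp (-((ℓ₀ : ℝ) * 2 ^ i) / 2) * n⌉₊ ≤ k i := by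
                show _ ≤ ⌈K₅ * Real.exp (-((ℓ₀ : ℝ) * 2 ^ i) / 2) * n⌉₊ + t ^ 8
                omega
              exact_mod_cast this
            · refine le_trans ?_ hK
              apply mul_le_mul_of_nonneg_left _ hK₅0.le
              apply Real.exp_le_exp.2
              have h2i : (1 : ℝ) ≤ 2 ^ i := one_le_pow₀ (by norm_num)
              have hl0 : (0 : ℝ) ≤ ℓ₀ := Nat.cast_nonneg _
              have : (ℓ₀ : ℝ) ≤ ℓ₀ * 2 ^ i := le_mul_of_one_le_right hl0 h2i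
              linarith
          have i0 : 0 ≤ C₁ * (((n : ℝ) + k i) / k i) ^ 2 *
              (C₂ * Real.exp (-((ℓ₀ : ℝ) * 2 ^ i))) := by positivity
          refine (pow_le_pow_left₀ i0 i1 _).trans ?_
          apply pow_le_pow_of_le_one (by norm_num) (by norm_num)
          calc t ≤ t ^ 8 := Nat.le_self_pow (by norm_num) t
            _ ≤ k i := by
                show t ^ 8 ≤ ⌈K₅ * Real.exp (-((ℓ₀ : ℝ) * 2 ^ i) / 2) * n⌉₊ + t ^ 8
                omega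
        refine (Finset.sum_le_sum hi3).trans ?_
        rw [Finset.sum_const, Finset.card_range, nsmul_eq_mul, pow_one]
        exact mul_le_mul_of_nonneg_right htI (by positivity)
      have hsum := real_union_le₂ (real_union_le₂ hp1 hp2) hp3
      refine hsum.trans (le_of_eq ?_)
      rw [herr]
      simp only [htR]
      rfl
    · have := real_union_le₂ (hKr 0) (hKr (N • (y - x)))
      refine this.trans (le_of_eq ?_)
      ring
  have hlim2 : Tendsto (fun I : ℕ => P.real {ω | g / 2 ≤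
      ‖passageTime (ext W ω) 0 (((2 ^ I) ^ 16 : ℕ) • (y - x)) / (((2 ^ I) ^ 16 : ℕ) : ℝ) - μz‖} +
      (err I + 2 * δ)) atTop (𝓝 (0 + (0 + 2 * δ))) := hlim.add (herr0.add tendsto_const_nhds)
  have hfinal : 4 * δ ≤ 0 + (0 + 2 * δ) := by
    refine ge_of_tendsto hlim2 ?_
    filter_upwards [hbig] with I hI
    exact hmain I hI
  linarith

lemma exists_M (F : Measure ℝ) [IsProbabilityMeasure F] {ε₁ : ℝ} (h : 0 < ε₁) :
    ∃ M : ℝ, 0 ≤ M ∧ F.real (Set.Ioi M) ≤ ε₁ := by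
  have h1 : Tendsto (fun n : ℕ => F.real (Set.Ioi (n : ℝ))) atTop (𝓝 0) := by
    have h2 : Tendsto (fun n : ℕ => F (Set.Ioi (n : ℝ))) atTop (𝓝 (F (⋂ n : ℕ, Set.Ioi (n : ℝ)))) := by
      apply tendsto_measure_iInter_atTop
      · exact fun n => measurableSet_Ioi.nullMeasurableSet
      · intro i j hij x hx
        exact Set.Ioi_subset_Ioi (by exact_mod_cast hij) hx
      · exact ⟨0, measure_ne_top _ _⟩
    have h3 : (⋂ n : ℕ, Set.Ioi (n : ℝ)) = ∅ := by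
      ext x
      simp only [Set.mem_iInter, Set.mem_Ioi, Set.mem_empty_iff_false, iff_false, not_forall, not_lt]
      exact exists_nat_ge x
    rw [h3, measure_empty] at h2
    have h4 := (ENNReal.tendsto_toReal (by simp : (0 : ENNReal) ≠ ⊤)).comp h2
    simpa [Function.comp_def, Measure.real] using h4
  obtain ⟨n, hn⟩ := (h1.eventually_le_const h).exists
  exact ⟨n, Nat.cast_nonneg n, hn⟩

/-- choice of the constants -/
lemma num_final {A₀ D C₃ : ℝ} (hA₀ : 0 ≤ A₀) (hC₃ : 0 < C₃) (hD : 0 < D) :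
    ∃ b₀ : ℝ, ∀ b : ℝ, b₀ ≤ b → 1 ≤ ⌊Real.sqrt b / C₃⌋₊ ∧ 0 < b ∧
      D * Real.exp (-(⌊Real.sqrt b / C₃⌋₊ : ℝ) / 2) ≤ 1 ∧
      b * (A₀ * Real.exp (-(⌊Real.sqrt b / C₃⌋₊ : ℝ) / 4)) ≤ Real.exp (-Real.sqrt b / (8 * C₃)) := by
  have hs : Tendsto (fun b : ℝ => Real.sqrt b / (8 * C₃)) atTop atTop :=
    Real.tendsto_sqrt_atTop.atTop_div_const (by positivity)
  have h1 : Tendsto (fun s : ℝ => s ^ 2 * Real.exp (-s)) atTop (𝓝 0) :=
    Real.tendsto_pow_mul_exp_neg_atTop_nhds_zero 2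
  have h2 := (h1.comp hs).const_mul (64 * C₃ ^ 2 * A₀ * Real.exp (1 / 4))
  rw [mul_zero] at h2
  have h3 : ∀ᶠ b : ℝ in atTop, 64 * C₃ ^ 2 * A₀ * Real.exp (1 / 4) *
      ((fun s : ℝ => s ^ 2 * Real.exp (-s)) ∘ fun b : ℝ => Real.sqrt b / (8 * C₃)) b ≤ 1 :=
    h2.eventually_le_const (by norm_num)
  have hs' : Tendsto (fun b : ℝ => Real.sqrt b / C₃) atTop atTop :=
    Real.tendsto_sqrt_atTop.atTop_div_const hC₃
  have h4 : ∀ᶠ b : ℝ in atTop, max 1 (2 * Real.log D + 1) ≤ Real.sqrt b / C₃ :=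
    hs'.eventually_ge_atTop _
  have h5 := (h3.and h4).and (eventually_gt_atTop (0 : ℝ))
  obtain ⟨b₀, hb₀⟩ := eventually_atTop.1 h5
  refine ⟨b₀, fun b hb => ?_⟩
  obtain ⟨⟨i1, i2⟩, i3⟩ := hb₀ b hb
  set s := Real.sqrt b / C₃ with hsdef
  set l : ℝ := (⌊s⌋₊ : ℝ) with hl
  have hls : s - 1 ≤ l := (Nat.sub_one_lt_floor s).le
  have hs1 : 1 ≤ s := (le_max_left _ _).trans i2
  have hs2 : 2 * Real.log D + 1 ≤ s := (le_max_right _ _).trans i2
  refine ⟨Nat.one_le_floor_iff s |>.2 hs1, i3, ?_, ?_⟩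
  · have : D = Real.exp (Real.log D) := (Real.exp_log hD).symm
    rw [this, ← Real.exp_add, Real.exp_le_one_iff]
    linarith
  · have hsq : b = 64 * C₃ ^ 2 * (Real.sqrt b / (8 * C₃)) ^ 2 := by
      rw [div_pow, Real.sq_sqrt i3.le]
      field_simp
      ring
    set u := Real.sqrt b / (8 * C₃) with hu
    have hus : s = 8 * u := by rw [hsdef, hu]; field_simp
    have e1 : -Real.sqrt b / (8 * C₃) = -u := by rw [hu]; ring
    rw [e1]
    have j1 : Real.exp (-l / 4) ≤ Real.exp (1 / 4) * (Real.exp (-u) * Real.exp (-u)) := by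
      rw [← Real.exp_add, ← Real.exp_add]
      apply Real.exp_le_exp.2
      linarith
    have j2 : 64 * C₃ ^ 2 * A₀ * Real.exp (1 / 4) * (u ^ 2 * Real.exp (-u)) ≤ 1 := i1
    calc b * (A₀ * Real.exp (-l / 4)) ≤ b * (A₀ * (Real.exp (1 / 4) *
          (Real.exp (-u) * Real.exp (-u)))) := by
          apply mul_le_mul_of_nonneg_left _ i3.le
          exact mul_le_mul_of_nonneg_left j1 hA₀
      _ = (64 * C₃ ^ 2 * A₀ * Real.exp (1 / 4) * (u ^ 2 * Real.exp (-u))) * Real.exp (-u) := by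
          rw [hsq]
          ring
      _ ≤ 1 * Real.exp (-u) := mul_le_mul_of_nonneg_right j2 (Real.exp_pos _).le
      _ = _ := one_mul _

end NM

open NM

/-- MODULE PB5. -/
theorem mean_low_gen {Ω : Type} [MeasurableSpace Ω] {P : Measure Ω} [IsProbabilityMeasure P]
    {F : Measure ℝ} [IsProbabilityMeasure F] {W : Z2.edgeSet → Ω → ℝ}
    (hm : ∀ e, Measurable (W e)) (hind : iIndepFun W P) (hF : ∀ e, P.map (W e) = F)
    (h0 : ∀ e ω, 0 ≤ W e ω) {θ h₁ ρ C : ℝ} (hθ : 0 < θ) (hh₁ : 0 < h₁) (hρ : 0 < ρ) (hρ1 : ρ < 1)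
    (hPei : ∀ (R m₀ : ℕ), P.real {ω | ¬ PGood R m₀ θ h₁ (ext W ω)} ≤ C * (2 * R + 1) ^ 2 * ρ ^ m₀) :
    ∃ C₀ b₀ : ℝ, 0 < C₀ ∧ ∀ (z : ℤ × ℤ) (μz : ℝ),
      TendstoInMeasure P (fun (n : ℕ) ω => passageTime (ext W ω) 0 (n • z) / n) atTop
        (fun _ => μz) → ∀ b : ℝ, b₀ ≤ b → ∀ (R : ℕ) (x y : ℤ × ℤ), x ∈ box R → y ∈ box R →
        y - x = z → μz ≤ ∫ ω, TT (ext (Wb W b) ω) (box R) x y ∂P +
          ((|z.1| + |z.2| : ℤ) : ℝ) * Real.exp (-Real.sqrt b / C₀) := by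
  obtain ⟨ε₁, C₂, hε₁, hC₂, hcp⟩ := chain_prob
  obtain ⟨C₁, hC₁, hgreedy⟩ := greedy
  obtain ⟨M, hM, hMF⟩ := exists_M F hε₁
  obtain ⟨A₀, hA₀, hsum⟩ := sum_ai_le hM (show 0 ≤ 4 * (C₁ * C₂ + 1) by positivity)
  set C₃ : ℝ := 21 * (M + 1) with hC₃
  have hC₃0 : 0 < C₃ := by positivity
  obtain ⟨b₀, hb₀⟩ := num_final (A₀ := A₀ / (h₁ * θ)) (D := 4 * (C₁ * C₂ + 1)) (by positivity)
    hC₃0 (by positivity)
  refine ⟨8 * C₃, max b₀ h₁, by positivity, ?_⟩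
  intro z μz hμ b hb R x y hx hy hxy
  obtain ⟨hl1, hb0, hK, hfin⟩ := hb₀ b ((le_max_left _ _).trans hb)
  have hb1 : h₁ ≤ b := (le_max_right _ _).trans hb
  set ℓ₀ : ℕ := ⌊Real.sqrt b / C₃⌋₊ with hℓ₀
  have hl1' : (1 : ℝ) ≤ ℓ₀ := by exact_mod_cast hl1
  have hls : (ℓ₀ : ℝ) ≤ Real.sqrt b / C₃ := Nat.floor_le (by positivity)
  have hbM : M * (20 * (ℓ₀ : ℝ) + 1) ^ 2 < b := by
    have h1 : 20 * (ℓ₀ : ℝ) + 1 ≤ Real.sqrt b / (M + 1) := by
      have : Real.sqrt b / (M + 1) = 21 * (Real.sqrt b / C₃) := by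
        rw [hC₃]
        field_simp
      rw [this]
      linarith
    have h2 : (20 * (ℓ₀ : ℝ) + 1) ^ 2 ≤ (Real.sqrt b / (M + 1)) ^ 2 :=
      pow_le_pow_left₀ (by positivity) h1 2
    rw [div_pow, Real.sq_sqrt hb0.le] at h2
    calc M * (20 * (ℓ₀ : ℝ) + 1) ^ 2 ≤ M * (b / (M + 1) ^ 2) := mul_le_mul_of_nonneg_left h2 hM
      _ < b := by
        rw [← mul_div_assoc, div_lt_iff₀ (by positivity)]
        have h3 : 0 < b * (M ^ 2 + M + 1) := by positivity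
        have h4 : b * (M + 1) ^ 2 = b * (M ^ 2 + M + 1) + M * b := by ring
        linarith
  have hch : ∀ (u : ℤ × ℤ) (ℓ : ℕ), 1 ≤ ℓ →
      P.real {ω | ¬ NoChain (ext W ω) M (Bx u (10 * ℓ)) ℓ} ≤ C₂ * Real.exp (-(ℓ : ℝ)) :=
    fun u ℓ hℓ => hcp hm hind hF hM hMF u ℓ hℓ
  have hmain := NM.main hm hind hF h0 hθ hh₁ hρ hρ1 hPei hM hC₁ hC₂ hch (by
    intro ℓ p hp n k hk
    exact hgreedy hm hind hF (10 * ℓ + 1) (fun u w => ¬ NoChain w M (Bx u (10 * ℓ)) ℓ) (by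
      intro u w w' hww
      have key : ∀ w w' : Sym2 (ℤ × ℤ) → ℝ, (∀ e : Sym2 (ℤ × ℤ),
          (∀ v ∈ e, v ∈ Bx u (10 * ℓ + 1)) → w e = w' e) →
          NoChain w M (Bx u (10 * ℓ)) ℓ → NoChain w' M (Bx u (10 * ℓ)) ℓ := by
        intro w w' h hno L hL hLb
        refine hno L hL (fun v hv => ⟨(hLb v hv).1, ?_⟩)
        obtain ⟨hvD, u', hadj, hu'⟩ := hLb v hv
        refine ⟨u', hadj, ?_⟩
        rwa [h s(v, u') ?_]
        intro c hc
        rw [Sym2.mem_iff] at hc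
        have hvD' : dst v u ≤ 10 * ℓ := hvD
        rw [Z2_adj_iff] at hadj
        unfold dst at hvD'
        have i1 : (v.1 - u.1).natAbs ≤ 10 * ℓ := le_trans (le_max_left _ _) hvD'
        have i2 : (v.2 - u.2).natAbs ≤ 10 * ℓ := le_trans (le_max_right _ _) hvD'
        show dst c u ≤ 10 * ℓ + 1
        unfold dst
        rcases hc with rfl | rfl
        · exact max_le (by omega) (by omega)
        · exact max_le (by omega) (by omega)
      exact not_congr ⟨key w w' hww, key w' w (fun e he => (hww e he).symm)⟩)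
      (fun u => (measurableSet_noChain M (Bx u (10 * ℓ)) ℓ).compl) p hp 0 n k hk)
    hb1 hl1 hbM hK (A := A₀ * Real.exp (-(ℓ₀ : ℝ) / 4)) (by positivity)
    (fun I => hsum ℓ₀ hl1 I) hμ hx hy hxy
  set m := ∫ ω, TT (ext (Wb W b) ω) (box R) x y ∂P with hmdef
  -- `m ≤ b |z|₁`
  have hmb : m ≤ b * ((|z.1| + |z.2| : ℤ) : ℝ) := by
    obtain ⟨q, hq, hql⟩ := QAux.lwalk hx hy
    have h1 : ∀ ω, TT (ext (Wb W b) ω) (box R) x y ≤ b * ((|z.1| + |z.2| : ℤ) : ℝ) := by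
      intro ω
      refine (TT_le (LM.ext_nonneg (Wb_nonneg W b) ω) hq).trans ?_
      have h2 : ∀ e, ext (Wb W b) ω e ≤ b := by
        intro e
        rw [ext_Wb W hb0.le ω]
        exact max_le hb0.le (min_le_right _ _)
      refine (wt_le_length h2 q).trans (le_of_eq ?_)
      rw [hql]
      have h3 : (((x.1 - y.1).natAbs + (x.2 - y.2).natAbs : ℕ) : ℤ) = |z.1| + |z.2| := by
        rw [← hxy]
        push_cast
        rw [Prod.fst_sub, Prod.snd_sub, abs_sub_comm x.1, abs_sub_comm x.2]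
      rw [← h3, Int.cast_natCast]
    calc m ≤ ∫ ω, b * ((|z.1| + |z.2| : ℤ) : ℝ) ∂P := by
          apply integral_mono_of_nonneg
          · filter_upwards with ω
            exact TT_nonneg (LM.ext_nonneg (Wb_nonneg W b) ω) _ _ _
          · exact integrable_const _
          · filter_upwards with ω
            exact h1 ω
      _ = _ := by simp
  have hz0 : (0 : ℝ) ≤ ((|z.1| + |z.2| : ℤ) : ℝ) := by
    have : (0 : ℤ) ≤ |z.1| + |z.2| := by positivity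
    exact_mod_cast this
  calc μz ≤ m * (1 + A₀ * Real.exp (-(ℓ₀ : ℝ) / 4) / (h₁ * θ)) := hmain
    _ = m + m * (A₀ / (h₁ * θ) * Real.exp (-(ℓ₀ : ℝ) / 4)) := by ring
    _ ≤ m + (b * ((|z.1| + |z.2| : ℤ) : ℝ)) * (A₀ / (h₁ * θ) * Real.exp (-(ℓ₀ : ℝ) / 4)) := by
        refine add_le_add le_rfl (mul_le_mul_of_nonneg_right hmb ?_)
        positivity
    _ = m + ((|z.1| + |z.2| : ℤ) : ℝ) * (b * (A₀ / (h₁ * θ) * Real.exp (-(ℓ₀ : ℝ) / 4))) := by ring
    _ ≤ _ := add_le_add le_rfl (mul_le_mul_of_nonneg_left hfin hz0)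

end Pool.Agent.Helper33_FPP
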