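import Pool.Agent.Helper33_FPP.Base
import Pool.Agent.Helper33_FPP.NoMoment

/-!
# The finite model, without moments
-/

set_option autoImplicit false

open MeasureTheory ProbabilityTheory Filter Topology

namespace Pool.Agent.Helper33_FPP

theorem exp_small (C₀ : ℝ) (hC₀ : 0 < C₀) : ∀ᶠ Y : ℕ in atTop,
    8 * (((Y : ℝ) ^ 4) ^ 201) * Real.exp (-Real.sqrt Y / C₀) ≤ 1 := by
  have h1 : Tendsto (fun x : ℝ => x ^ 1608 * Real.exp (-x)) atTop (𝓝 0) :=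
    Real.tendsto_pow_mul_exp_neg_atTop_nhds_zero 1608
  have h2 : Tendsto (fun Y : ℕ => Real.sqrt (Y : ℝ) / C₀) atTop atTop :=
    (Real.tendsto_sqrt_atTop.comp tendsto_natCast_atTop_atTop).atTop_div_const hC₀
  have h3 := h1.comp h2
  have h4 : Tendsto (fun Y : ℕ => (8 * C₀ ^ 1608) *
      ((Real.sqrt (Y : ℝ) / C₀) ^ 1608 * Real.exp (-(Real.sqrt (Y : ℝ) / C₀)))) atTop
      (𝓝 ((8 * C₀ ^ 1608) * 0)) := h3.const_mul _
  rw [mul_zero] at h4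
  filter_upwards [h4.eventually (gt_mem_nhds (show (0 : ℝ) < 1 by norm_num))] with Y hY
  have h5 : (Real.sqrt (Y : ℝ)) ^ 1608 = ((Y : ℝ) ^ 4) ^ 201 := by
    rw [show (1608 : ℕ) = 2 * 804 by norm_num, pow_mul, Real.sq_sqrt (Nat.cast_nonneg Y), ← pow_mul]
  have h6 : (8 * C₀ ^ 1608) *
      ((Real.sqrt (Y : ℝ) / C₀) ^ 1608 * Real.exp (-(Real.sqrt (Y : ℝ) / C₀))) =
      8 * (((Y : ℝ) ^ 4) ^ 201) * Real.exp (-Real.sqrt Y / C₀) := by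
    rw [div_pow, h5, neg_div]
    have : C₀ ^ 1608 ≠ 0 := by positivity
    generalize C₀ ^ 1608 = T at *
    field_simp
  rw [h6] at hY
  exact hY.le

theorem exists_scale_ev (hi C b₀ : ℝ) (C₀ : ℝ) (hC₀ : 0 < C₀) (hC : 0 ≤ C) :
    ∃ Y₀ : ℕ, ∀ Y : ℕ, Y₀ ≤ Y → 8 ≤ Y ∧
    hi ≤ Y ∧ b₀ ≤ Y ∧ 2 * C * Y + 2 ≤ (Y : ℝ) ^ 4 ∧
    C * Real.sqrt 2 * (Real.log (2 * ((Y : ℝ) ^ 4) ^ 200) + 1) ^ 2 ≤ ((Y : ℝ) ^ 4) ^ 2 ∧
    8 * (((Y : ℝ) ^ 4) ^ 201) * Real.exp (-Real.sqrt Y / C₀) ≤ 1 := by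
  obtain ⟨Y₁, hY₁⟩ := exists_nat_ge (8 + |hi| + |b₀| + 2 * C + C * Real.sqrt 2 * 1000000)
  obtain ⟨Y₂, hY₂⟩ := eventually_atTop.1 (exp_small C₀ hC₀)
  refine ⟨max Y₁ Y₂, fun Y hY => ?_⟩
  have hYY₁ : (Y₁ : ℝ) ≤ Y := by exact_mod_cast (le_max_left _ _).trans hY
  have hbig := hY₁.trans hYY₁
  have hs : 0 ≤ Real.sqrt 2 := Real.sqrt_nonneg 2
  have hsC : 0 ≤ C * Real.sqrt 2 := mul_nonneg hC hs
  have e1 := abs_nonneg hi
  have e2 := abs_nonneg b₀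
  have hY8 : (8 : ℝ) ≤ Y := by linarith
  have hY1 : (1 : ℝ) ≤ Y := by linarith
  have hY0 : (0 : ℝ) < Y := by linarith
  refine ⟨by exact_mod_cast hY8, ?_, ?_, ?_, ?_, hY₂ Y ((le_max_right _ _).trans hY)⟩
  · linarith [le_abs_self hi]
  · linarith [le_abs_self b₀]
  · have h1 : 2 * C + 2 ≤ Y := by linarith
    have h2 : 2 * C * Y + 2 ≤ (2 * C + 2) * Y := by nlinarith
    have h3 : (2 * C + 2) * Y ≤ Y * Y := mul_le_mul_of_nonneg_right h1 hY0.le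
    have h4 : (Y : ℝ) * Y ≤ (Y : ℝ) ^ 4 := by
      calc (Y : ℝ) * Y = (Y : ℝ) ^ 2 := by ring
        _ ≤ (Y : ℝ) ^ 4 := pow_le_pow_right₀ hY1 (by norm_num)
    linarith
  · have h1 : Real.log (2 * ((Y : ℝ) ^ 4) ^ 200) = Real.log 2 + 800 * Real.log Y := by
      rw [Real.log_mul (by norm_num) (by positivity), ← pow_mul, Real.log_pow]
      norm_num
    have h2 : Real.log (Y : ℝ) ≤ Y := by
      have := Real.log_le_sub_one_of_pos hY0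
      linarith
    have h3 : Real.log (2 : ℝ) ≤ 1 := by
      have := Real.log_le_sub_one_of_pos (show (0 : ℝ) < 2 by norm_num)
      linarith
    have h4 : 0 ≤ Real.log (Y : ℝ) := Real.log_nonneg hY1
    have h5 : 0 ≤ Real.log (2 : ℝ) := Real.log_nonneg (by norm_num)
    have h6 : Real.log (2 * ((Y : ℝ) ^ 4) ^ 200) + 1 ≤ 1000 * Y := by
      rw [h1]
      linarith
    have h7 : 0 ≤ Real.log (2 * ((Y : ℝ) ^ 4) ^ 200) + 1 := by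
      rw [h1]
      linarith
    have h8 : (Real.log (2 * ((Y : ℝ) ^ 4) ^ 200) + 1) ^ 2 ≤ (1000 * Y) ^ 2 :=
      pow_le_pow_left₀ h7 h6 2
    have h9 : C * Real.sqrt 2 * 1000000 ≤ Y := by linarith
    calc C * Real.sqrt 2 * (Real.log (2 * ((Y : ℝ) ^ 4) ^ 200) + 1) ^ 2
        ≤ C * Real.sqrt 2 * (1000 * Y) ^ 2 := mul_le_mul_of_nonneg_left h8 hsC
      _ = C * Real.sqrt 2 * 1000000 * (Y : ℝ) ^ 2 := by ring
      _ ≤ Y * (Y : ℝ) ^ 2 := mul_le_mul_of_nonneg_right h9 (by positivity)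
      _ = (Y : ℝ) ^ 3 := by ring
      _ ≤ (Y : ℝ) ^ 8 := pow_le_pow_right₀ hY1 (by norm_num)
      _ = ((Y : ℝ) ^ 4) ^ 2 := by ring

/-- Lower bound for the mean of the truncated passage times, without moments. -/
theorem mean_low' {Ω : Type} [MeasurableSpace Ω] {P : Measure Ω} [IsProbabilityMeasure P]
    {F : Measure ℝ} [IsProbabilityMeasure F] {W : Z2.edgeSet → Ω → ℝ}
    (hm : ∀ e, Measurable (W e)) (hind : iIndepFun W P) (hF : ∀ e, P.map (W e) = F)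
    (h0 : ∀ e ω, 0 ≤ W e ω) {p₀ hi c : ℝ} (hp0 : 0 ≤ p₀) (hp1 : p₀ < 1 / 2) (hhi : 0 < hi)
    (hlow : F.real (Set.Iio hi) ≤ p₀)
    (hμ : ∀ z : ℤ × ℤ, TendstoInMeasure P (fun (n : ℕ) ω => passageTime (ext W ω) 0 (n • z) / n)
      atTop (fun _ => c * ((|A z| + |B z| : ℤ) : ℝ))) :
    ∃ C₀ b₀ : ℝ, 0 < C₀ ∧ ∀ b : ℝ, b₀ ≤ b → ∀ R : ℕ, ∀ x ∈ box R, ∀ y ∈ box R,
      c * (|(A x - A y : ℤ)| + |(B x - B y : ℤ)| : ℤ) -
          (|(A x - A y : ℤ)| + |(B x - B y : ℤ)| : ℤ) * Real.exp (-Real.sqrt b / C₀) ≤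
        ∫ ω, TT (ext (Wb W b) ω) (box R) x y ∂P := by
  obtain ⟨θ, hθ0, hθ1, ρ, hρ0, hρ1, C, hC, hPei⟩ := peierls_measure hp0 hp1
  obtain ⟨C₀, b₀, hC₀, H⟩ := mean_low_gen hm hind hF h0 hθ0 (by linarith : 0 < hi / 2) hρ0 hρ1
    (fun R m₀ => hPei hi hm hind hF h0 hhi hlow R m₀)
  refine ⟨C₀, b₀, hC₀, fun b hb R x hx y hy => ?_⟩
  have h1 := H (y - x) _ (hμ (y - x)) b hb R x y hx hy rfl
  have h2 : |A (y - x)| + |B (y - x)| = |(A x - A y : ℤ)| + |(B x - B y : ℤ)| := by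
    have e1 : A (y - x) = -(A x - A y) := by unfold A; simp; ring
    have e2 : B (y - x) = -(B x - B y) := by unfold B; simp; ring
    rw [e1, e2, abs_neg, abs_neg]
  have h3 : |(y - x).1| + |(y - x).2| ≤ |A (y - x)| + |B (y - x)| := by
    rw [abs_AB]
    have := le_max_left |(y - x).1| |(y - x).2|
    have := le_max_right |(y - x).1| |(y - x).2|
    linarith
  rw [h2] at h1 h3
  have h4 : (((|(y - x).1| + |(y - x).2| : ℤ)) : ℝ) ≤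
      ((|(A x - A y : ℤ)| + |(B x - B y : ℤ)| : ℤ) : ℝ) := by exact_mod_cast h3
  have h5 := mul_le_mul_of_nonneg_right h4 (Real.exp_pos (-Real.sqrt b / C₀)).le
  linarith

/-- The discretised weights satisfy the hypotheses of the finite model. -/
theorem finite_model {Ω : Type} [MeasurableSpace Ω] {P : Measure Ω} [IsProbabilityMeasure P]
    {F : Measure ℝ} [IsProbabilityMeasure F] {W : Z2.edgeSet → Ω → ℝ}
    (hm : ∀ e, Measurable (W e)) (hind : iIndepFun W P) (hF : ∀ e, P.map (W e) = F)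
    (h0 : ∀ e ω, 0 ≤ W e ω)
    {p₀ hi c : ℝ} (hp0 : 0 ≤ p₀) (hp1 : p₀ < 1 / 2) (hhi : 0 < hi)
    (hlow : F.real (Set.Iio hi) ≤ p₀) (hc : 0 < c)
    (hμ : ∀ z : ℤ × ℤ, TendstoInMeasure P (fun (n : ℕ) ω => passageTime (ext W ω) 0 (n • z) / n)
      atTop (fun _ => c * ((|A z| + |B z| : ℤ) : ℝ))) :
    ∃ Y₀ : ℕ, ∀ Y : ℕ, Y₀ ≤ Y → 1 ≤ Y ∧ hi ≤ Y ∧ ∀ Q : Par, Q = Pars (Y ^ 4) c →
      ∃ m₁ : ℕ, ∀ m : ℕ, m₁ ≤ m → 0 < m ∧
      (∀ x ∈ box Q.R, ∀ y ∈ box Q.R,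
        c * (|(A x - A y : ℤ)| + |(B x - B y : ℤ)| : ℤ) - 2 ≤
          Ex (dscP F m (m * Y)) (fun ω : EIdx Q.R → Fin (m * Y + 1) =>
            TT (wOf (dval m (m * Y)) ω) (box Q.R) x y)) ∧
      (∀ j ≤ Q.N, Ex (dscP F m (m * Y)) (fun ω : EIdx Q.R → Fin (m * Y + 1) =>
        TT (wOf (dval m (m * Y)) ω) (box Q.R) (pt 0 (2 * j * Q.σ))
          (pt (2 * Q.N * Q.σ) (2 * j * Q.σ))) ≤
            c * (4 * Q.N * Q.σ) + ((Y ^ 4 : ℕ) : ℝ) ^ 103) ∧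
      (∀ i ≤ Q.N, Ex (dscP F m (m * Y)) (fun ω : EIdx Q.R → Fin (m * Y + 1) =>
        TT (wOf (dval m (m * Y)) ω) (box Q.R) (pt (2 * i * Q.σ) 0)
          (pt (2 * i * Q.σ) (2 * Q.N * Q.σ))) ≤
            c * (4 * Q.N * Q.σ) + ((Y ^ 4 : ℕ) : ℝ) ^ 103) := by
  -- the reflected weights
  set W' : Z2.edgeSet → Ω → ℝ := fun e => W (rhoE e) with hW'
  have hm' : ∀ e, Measurable (W' e) := fun e => hm _
  have hind' : iIndepFun W' P := hind.precomp rhoE_injective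
  have hF' : ∀ e, P.map (W' e) = F := fun e => hF _
  have h0' : ∀ e ω, 0 ≤ W' e ω := fun e ω => h0 _ ω
  have hμ' : ∀ z : ℤ × ℤ, TendstoInMeasure P
      (fun (n : ℕ) ω => passageTime (ext W' ω) 0 (n • z) / n) atTop
      (fun _ => c * ((|A z| + |B z| : ℤ) : ℝ)) := by
    intro z
    have h1 := hμ (rho z)
    have h2 : (|A (rho z)| + |B (rho z)| : ℤ) = |A z| + |B z| := by
      rw [A_rho, B_rho, add_comm]
    rw [h2] at h1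
    refine h1.congr_left ?_
    intro n
    filter_upwards with ω
    rw [passageTime_rho (w := ext W ω) (w' := ext W' ω) (fun e => ext_rho W ω e) 0 (n • z)]
    have h3 : rho (0 : ℤ × ℤ) = 0 := by simp
    have h4 : rho (n • z) = n • rho z := by
      apply Prod.ext <;> simp
    rw [h3, h4]
  have hdiag : ∀ n : ℕ, (n • ((1, 1) : ℤ × ℤ)) = pt n 0 := by
    intro n
    unfold pt
    apply Prod.ext <;> simp
  have h11 : c * ((|A (1, 1)| + |B (1, 1)| : ℤ) : ℝ) = 2 * c := by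
    unfold A B
    norm_num
    ring
  have hlimU : ∀ ε > 0, Tendsto (fun n : ℕ =>
      P.real {ω | (2 * c + ε) * n ≤ passageTime (ext W ω) 0 (pt n 0)}) atTop (𝓝 0) := by
    intro ε hε
    have := upper_tail_of_tendsto (hμ (1, 1)) hε
    rw [h11] at this
    refine this.congr (fun n => ?_)
    rw [hdiag]
  have hlimV : ∀ ε > 0, Tendsto (fun n : ℕ =>
      P.real {ω | (2 * c + ε) * n ≤ passageTime (ext W' ω) 0 (pt n 0)}) atTop (𝓝 0) := by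
    intro ε hε
    have := upper_tail_of_tendsto (hμ' (1, 1)) hε
    rw [h11] at this
    refine this.congr (fun n => ?_)
    rw [hdiag]
  obtain ⟨C₁, hC₁, hU⟩ := upper_mean_U hm hind hF h0 hp0 hp1 hhi hlow hc hlimU
  obtain ⟨C₂, hC₂, hV⟩ := upper_mean_U hm' hind' hF' h0' hp0 hp1 hhi hlow hc hlimV
  obtain ⟨C₀, b₀, hC₀, hml⟩ := mean_low' hm hind hF h0 hp0 hp1 hhi hlow hμ
  obtain ⟨C₀', b₀', hC₀', hml'⟩ := mean_low' hm' hind' hF' h0' hp0 hp1 hhi hlow hμ'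
  obtain ⟨Y₁, hY₁⟩ := exists_scale_ev hi (max C₁ C₂) (max b₀ b₀') (max C₀ C₀')
    (lt_of_lt_of_le hC₀ (le_max_left _ _)) (hC₁.le.trans (le_max_left _ _))
  refine ⟨Y₁, fun Y hY => ?_⟩
  obtain ⟨hY8, hYhi, hYb, hYbox, hYlog, hYexp⟩ := hY₁ Y hY
  have hY8' : (8 : ℝ) ≤ Y := by exact_mod_cast hY8
  have hY1 : (1 : ℝ) ≤ Y := by linarith
  have hY0 : (0 : ℝ) < Y := by linarith
  refine ⟨by omega, hYhi, fun Q hQ => ?_⟩
  have hQR : Q.R = (Y ^ 4) ^ 201 := by rw [hQ]; rfl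
  have hQσ : Q.σ = (Y ^ 4) ^ 106 := by rw [hQ]; rfl
  have hQN : Q.N = (Y ^ 4) ^ 94 := by rw [hQ]; rfl
  refine ⟨(edgesIn Q.R).card + 1, fun m hmm => ?_⟩
  have hm0 : 0 < m := by omega
  have hm0' : (0 : ℝ) < m := by exact_mod_cast hm0
  have hmcard : (edgesIn Q.R).card ≤ m := by omega
  have hexpb : ∀ C' : ℝ, 0 < C' → C' ≤ max C₀ C₀' → ∀ x ∈ box Q.R, ∀ y ∈ box Q.R,
      ((|(A x - A y : ℤ)| + |(B x - B y : ℤ)| : ℤ) : ℝ) * Real.exp (-Real.sqrt Y / C') ≤ 1 := by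
    intro C' hC'0 hC' x hx y hy
    have h1 := QAux.abs_A_le hx hy
    have h2 : ((|(A x - A y : ℤ)| + |(B x - B y : ℤ)| : ℤ) : ℝ) ≤ 8 * (((Y : ℝ) ^ 4) ^ 201) := by
      have h3 : ((|(A x - A y : ℤ)| + |(B x - B y : ℤ)| : ℤ) : ℝ) ≤ 8 * (Q.R : ℝ) := by
        exact_mod_cast h1
      rw [hQR] at h3
      push_cast at h3 ⊢
      exact h3
    have h4 : Real.exp (-Real.sqrt Y / C') ≤ Real.exp (-Real.sqrt Y / max C₀ C₀') := by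
      apply Real.exp_le_exp.2
      rw [neg_div, neg_div, neg_le_neg_iff]
      exact div_le_div_of_nonneg_left (Real.sqrt_nonneg _) hC'0 hC'
    have h5 : 0 ≤ ((|(A x - A y : ℤ)| + |(B x - B y : ℤ)| : ℤ) : ℝ) := by
      have : (0 : ℤ) ≤ |(A x - A y : ℤ)| + |(B x - B y : ℤ)| := by positivity
      exact_mod_cast this
    have h6 : 0 < Real.exp (-Real.sqrt Y / max C₀ C₀') := Real.exp_pos _
    have h7 := mul_le_mul h2 h4 (Real.exp_pos _).le (by positivity)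
    generalize ((Y : ℝ) ^ 4) ^ 201 = T at *
    linarith
  have hlowb : ∀ x ∈ box Q.R, ∀ y ∈ box Q.R,
      c * (|(A x - A y : ℤ)| + |(B x - B y : ℤ)| : ℤ) - 1 ≤
      ∫ ω, TT (ext (Wb W Y) ω) (box Q.R) x y ∂P := fun x hx y hy => by
    have h1 := hml Y ((le_max_left _ _).trans hYb) Q.R x hx y hy
    have h2 := hexpb C₀ hC₀ (le_max_left _ _) x hx y hy
    linarith
  have hlowb' : ∀ x ∈ box Q.R, ∀ y ∈ box Q.R,
      c * (|(A x - A y : ℤ)| + |(B x - B y : ℤ)| : ℤ) - 1 ≤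
      ∫ ω, TT (ext (Wb W' Y) ω) (box Q.R) x y ∂P := fun x hx y hy => by
    have h1 := hml' Y ((le_max_right _ _).trans hYb) Q.R x hx y hy
    have h2 := hexpb C₀' hC₀' (le_max_right _ _) x hx y hy
    linarith
  -- positions of the end points of the lines
  obtain ⟨ℓ, hℓ⟩ : ∃ ℓ : ℕ, ℓ = 2 * Q.N * Q.σ := ⟨_, rfl⟩
  have hℓ1 : 1 ≤ ℓ := by
    rw [hℓ, hQN, hQσ]
    have : 1 ≤ Y := by omega
    have h1 : 1 ≤ (Y ^ 4) ^ 94 := Nat.one_le_pow _ _ (Nat.pos_of_ne_zero (by positivity))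
    have h2 : 1 ≤ (Y ^ 4) ^ 106 := Nat.one_le_pow _ _ (Nat.pos_of_ne_zero (by positivity))
    nlinarith
  have hℓR : (ℓ : ℝ) * (2 * (max C₁ C₂) * Y + 2) ≤ 2 * Q.R := by
    have h1 : (ℓ : ℝ) = 2 * ((Y : ℝ) ^ 4) ^ 200 := by
      rw [hℓ, hQN, hQσ]
      push_cast
      ring
    have h2 : (Q.R : ℝ) = (Y : ℝ) ^ 4 * ((Y : ℝ) ^ 4) ^ 200 := by
      rw [hQR]
      push_cast
      ring
    rw [h1, h2]
    have := mul_le_mul_of_nonneg_left hYbox (show 0 ≤ 2 * ((Y : ℝ) ^ 4) ^ 200 by positivity)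
    linarith
  have hbox : ∀ C' : ℝ, C' ≤ max C₁ C₂ → ∀ t : ℕ, t ≤ ℓ → ∀ x : ℤ × ℤ, |x.1| ≤ t → |x.2| ≤ t →
      ∀ v : ℤ × ℤ, |(v.1 - x.1 : ℤ)| ≤ C' * Y * ℓ → |(v.2 - x.2 : ℤ)| ≤ C' * Y * ℓ →
      v ∈ box Q.R := by
    intro C' hC' t ht x hx1 hx2 v hv1 hv2
    have ht' : (t : ℝ) ≤ ℓ := by exact_mod_cast ht
    have key : ∀ a b : ℤ, |a| ≤ (t : ℤ) → ((|b - a| : ℤ) : ℝ) ≤ C' * Y * ℓ →
        -(Q.R : ℤ) ≤ b ∧ b ≤ Q.R := by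
      intro a b ha hb
      have h1 : C' * Y * ℓ ≤ max C₁ C₂ * Y * ℓ := by
        apply mul_le_mul_of_nonneg_right _ (Nat.cast_nonneg ℓ)
        exact mul_le_mul_of_nonneg_right hC' hY0.le
      have h2 : ((|a| : ℤ) : ℝ) ≤ ℓ := by
        have : ((|a| : ℤ) : ℝ) ≤ t := by exact_mod_cast ha
        linarith
      have h3 : ((|b| : ℤ) : ℝ) ≤ Q.R := by
        have h4 : |b| ≤ |b - a| + |a| := by
          have := abs_add_le (b - a) a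
          simpa using this
        have h5 : ((|b| : ℤ) : ℝ) ≤ ((|b - a| : ℤ) : ℝ) + ((|a| : ℤ) : ℝ) := by exact_mod_cast h4
        linarith
      have h6 : |b| ≤ (Q.R : ℤ) := by exact_mod_cast h3
      exact abs_le.1 h6
    rw [mem_box]
    exact ⟨key x.1 v.1 hx1 (by exact_mod_cast hv1), key x.2 v.2 hx2 (by exact_mod_cast hv2)⟩
  have hlineB : ∀ C' : ℝ, 0 < C' → C' ≤ max C₁ C₂ → 2 * c * (ℓ : ℝ) +
      C' * (Y : ℝ) ^ 4 * Real.sqrt (ℓ : ℝ) * (Real.log (ℓ : ℝ) + 1) ^ 2 ≤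
      c * (4 * Q.N * Q.σ) + ((Y ^ 4 : ℕ) : ℝ) ^ 103 := by
    intro C' hC'0 hC'
    rw [hℓ, hQ]
    refine line_bound hY8 (le_trans ?_ hYlog)
    apply mul_le_mul_of_nonneg_right _ (sq_nonneg _)
    exact mul_le_mul_of_nonneg_right hC' (Real.sqrt_nonneg _)
  have hj : ∀ j ≤ Q.N, 2 * j * Q.σ ≤ ℓ := by
    intro j hj
    rw [hℓ]
    exact Nat.mul_le_mul_right _ (Nat.mul_le_mul_left _ hj)
  have hptabs : ∀ t : ℕ, |(pt 0 (t : ℤ)).1| ≤ (t : ℤ) ∧ |(pt 0 (t : ℤ)).2| ≤ (t : ℤ) := by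
    intro t
    unfold pt
    simp
  have hptsum : ∀ t : ℕ, pt 0 (t : ℤ) + pt (ℓ : ℤ) 0 = pt (ℓ : ℤ) (t : ℤ) := by
    intro t
    unfold pt
    apply Prod.ext <;> simp <;> ring
  have hmemR : ∀ t : ℕ, t ≤ ℓ → pt 0 (t : ℤ) ∈ box Q.R ∧ pt (ℓ : ℤ) (t : ℤ) ∈ box Q.R := by
    intro t ht
    have h1 : 2 * ℓ ≤ Q.R := by
      rw [hℓ, hQN, hQσ, hQR]
      have h2 : 4 ≤ Y ^ 4 := by
        calc 4 ≤ Y := by omega
          _ = Y ^ 1 := (pow_one Y).symm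
          _ ≤ Y ^ 4 := Nat.pow_le_pow_right (by omega) (by norm_num)
      calc 2 * (2 * (Y ^ 4) ^ 94 * (Y ^ 4) ^ 106) = 4 * (Y ^ 4) ^ 200 := by ring
        _ ≤ Y ^ 4 * (Y ^ 4) ^ 200 := Nat.mul_le_mul_right _ h2
        _ = (Y ^ 4) ^ 201 := by ring
    rw [mem_box, mem_box]
    unfold pt
    simp only []
    omega
  have hmainU : ∀ t : ℕ, t ≤ ℓ → Ex (dscP F m (m * Y)) (fun ω : EIdx Q.R → Fin (m * Y + 1) =>
      TT (wOf (dval m (m * Y)) ω) (box Q.R) (pt 0 (t : ℤ)) (pt (ℓ : ℤ) (t : ℤ))) ≤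
      c * (4 * Q.N * Q.σ) + ((Y ^ 4 : ℕ) : ℝ) ^ 103 := by
    intro t ht
    have h1 := hU Y hY1 hYhi ℓ Q.R (pt 0 (t : ℤ)) hℓ1
      (hbox C₁ (le_max_left _ _) t ht _ (hptabs t).1 (hptabs t).2)
      (fun y hy => hlowb _ (hmemR t ht).1 y hy)
    rw [hptsum t] at h1
    exact Ex_le hm hind hF h0 hm0 (hmemR t ht).1 (hmemR t ht).2
      (h1.trans (hlineB C₁ hC₁ (le_max_left _ _)))
  have hmainV : ∀ t : ℕ, t ≤ ℓ → Ex (dscP F m (m * Y)) (fun ω : EIdx Q.R → Fin (m * Y + 1) =>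
      TT (wOf (dval m (m * Y)) ω) (box Q.R) (pt (t : ℤ) 0) (pt (t : ℤ) (ℓ : ℤ))) ≤
      c * (4 * Q.N * Q.σ) + ((Y ^ 4 : ℕ) : ℝ) ^ 103 := by
    intro t ht
    have h1 := hV Y hY1 hYhi ℓ Q.R (pt 0 (t : ℤ)) hℓ1
      (hbox C₂ (le_max_right _ _) t ht _ (hptabs t).1 (hptabs t).2)
      (fun y hy => hlowb' _ (hmemR t ht).1 y hy)
    rw [hptsum t] at h1
    have h2 : ∀ ω, TT (ext (Wb W' Y) ω) (box Q.R) (pt 0 (t : ℤ)) (pt (ℓ : ℤ) (t : ℤ)) =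
        TT (ext (Wb W Y) ω) (box Q.R) (pt (t : ℤ) 0) (pt (t : ℤ) (ℓ : ℤ)) := by
      intro ω
      rw [TT_rho (w := ext (Wb W Y) ω) (w' := ext (Wb W' Y) ω)
        (fun e => ext_rho (Wb W Y) ω e), rho_pt, rho_pt]
    simp_rw [h2] at h1
    have hx : pt (t : ℤ) 0 ∈ box Q.R := by
      rw [← rho_pt]
      exact rho_mem_box.2 (hmemR t ht).1
    have hy : pt (t : ℤ) (ℓ : ℤ) ∈ box Q.R := by
      rw [← rho_pt]
      exact rho_mem_box.2 (hmemR t ht).2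
    exact Ex_le hm hind hF h0 hm0 hx hy (h1.trans (hlineB C₂ hC₂ (le_max_right _ _)))
  refine ⟨hm0, ?_, ?_, ?_⟩
  · intro x hx y hy
    have := low_Ex hm hind hF h0 (b := Y) hm0 hmcard hx hy (hlowb x hx y hy)
    linarith
  · intro j hjN
    have h1 := hmainU (2 * j * Q.σ) (hj j hjN)
    have e1 : ((2 * j * Q.σ : ℕ) : ℤ) = 2 * (j : ℤ) * (Q.σ : ℤ) := by push_cast; ring
    have e2 : (ℓ : ℤ) = 2 * (Q.N : ℤ) * (Q.σ : ℤ) := by rw [hℓ]; push_cast; ring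
    rw [e1, e2] at h1
    exact h1
  · intro i hiN
    have h1 := hmainV (2 * i * Q.σ) (hj i hiN)
    have e1 : ((2 * i * Q.σ : ℕ) : ℤ) = 2 * (i : ℤ) * (Q.σ : ℤ) := by push_cast; ring
    have e2 : (ℓ : ℤ) = 2 * (Q.N : ℤ) * (Q.σ : ℤ) := by rw [hℓ]; push_cast; ring
    rw [e1, e2] at h1
    exact h1

end Pool.Agent.Helper33_FPP
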