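import Pool.Agent.Helper33_FPP.Perc
import Pool.Agent.Helper33_FPP.Animals

/-!
# Renormalization of long self-avoiding walks with few closed edges (deterministic part)
-/

set_option autoImplicit false

namespace Pool.Agent.Helper33_FPP

open Finset

namespace HalfAux

/-- Centre of the block `z` of side `2 k + 1`. -/
def ctr (k : ℕ) (z : ℤ × ℤ) : ℤ × ℤ := ((2 * k + 1) * z.1, (2 * k + 1) * z.2)

/-- Index of the block containing `v`. -/
def blk (k : ℕ) (v : ℤ × ℤ) : ℤ × ℤ := ((v.1 + k) / (2 * k + 1), (v.2 + k) / (2 * k + 1))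

/-- Translation. -/
def tr (c v : ℤ × ℤ) : ℤ × ℤ := (v.1 + c.1, v.2 + c.2)

/-- The box of radius `k` is joined to the sphere of radius `3 k` inside the box of radius `3 k`. -/
def A0 (k : ℕ) (O : Sym2 (ℤ × ℤ) → Prop) : Prop :=
  ∃ x ∈ box k, ∃ y, OnSph (3 * k) y ∧ Conn O (box (3 * k) : Set (ℤ × ℤ)) x y

/-- The block `z` is bad. -/
def BadBlk (k : ℕ) (O : Sym2 (ℤ × ℤ) → Prop) (z : ℤ × ℤ) : Prop :=
  A0 k (fun e => e ∈ edgesIn (3 * k) ∧ O (Sym2.map (tr (ctr k z)) e))

lemma mem_box {R : ℕ} {v : ℤ × ℤ} : v ∈ box R ↔ -(R : ℤ) ≤ v.1 ∧ v.1 ≤ R ∧ -(R : ℤ) ≤ v.2 ∧ v.2 ≤ R := by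
  simp [box, and_assoc]

lemma mem_edgesIn {R : ℕ} {a b : ℤ × ℤ} :
    s(a, b) ∈ edgesIn R ↔ a ∈ box R ∧ b ∈ box R ∧ Z2.Adj a b := by
  classical
  unfold edgesIn
  rw [Finset.mem_filter, Finset.mk_mem_sym2_iff, SimpleGraph.mem_edgeSet, and_assoc]

lemma blk_spec (k : ℕ) (v : ℤ × ℤ) :
    -(k : ℤ) ≤ v.1 - (ctr k (blk k v)).1 ∧ v.1 - (ctr k (blk k v)).1 ≤ k ∧
    -(k : ℤ) ≤ v.2 - (ctr k (blk k v)).2 ∧ v.2 - (ctr k (blk k v)).2 ≤ k := by
  have hpos : (0 : ℤ) < 2 * k + 1 := by positivity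
  have h1 := Int.emod_add_mul_ediv (v.1 + k) (2 * k + 1)
  have h2 := Int.emod_nonneg (v.1 + k) hpos.ne'
  have h3 := Int.emod_lt_of_pos (v.1 + k) hpos
  have h4 := Int.emod_add_mul_ediv (v.2 + k) (2 * k + 1)
  have h5 := Int.emod_nonneg (v.2 + k) hpos.ne'
  have h6 := Int.emod_lt_of_pos (v.2 + k) hpos
  simp only [ctr, blk]
  refine ⟨?_, ?_, ?_, ?_⟩ <;> linarith

/-- If `v` is within `3 k` of the centre of `z`, then `z` is next to the block of `v`. -/
lemma blk_near {k : ℕ} {v z : ℤ × ℤ} (h1 : -(3 * k : ℤ) ≤ v.1 - (ctr k z).1)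
    (h2 : v.1 - (ctr k z).1 ≤ 3 * k) (h3 : -(3 * k : ℤ) ≤ v.2 - (ctr k z).2)
    (h4 : v.2 - (ctr k z).2 ≤ 3 * k) :
    -1 ≤ z.1 - (blk k v).1 ∧ z.1 - (blk k v).1 ≤ 1 ∧ -1 ≤ z.2 - (blk k v).2 ∧
      z.2 - (blk k v).2 ≤ 1 := by
  obtain ⟨a1, a2, a3, a4⟩ := blk_spec k v
  have hk : (0 : ℤ) ≤ k := by positivity
  simp only [ctr] at *
  refine ⟨?_, ?_, ?_, ?_⟩
  · by_contra hc
    have : z.1 - (blk k v).1 ≤ -2 := by omega
    nlinarith
  · by_contra hc
    have : 2 ≤ z.1 - (blk k v).1 := by omega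
    nlinarith
  · by_contra hc
    have : z.2 - (blk k v).2 ≤ -2 := by omega
    nlinarith
  · by_contra hc
    have : 2 ≤ z.2 - (blk k v).2 := by omega
    nlinarith

lemma blk_adj {k : ℕ} {a b : ℤ × ℤ} (h : Z2.Adj a b) : blk k a = blk k b ∨ Z2.Adj (blk k a) (blk k b) := by
  obtain ⟨a1, a2, a3, a4⟩ := blk_spec k a
  obtain ⟨b1, b2, b3, b4⟩ := blk_spec k b
  have hk : (0 : ℤ) ≤ k := by positivity
  have hadj : (a.1 - b.1).natAbs + (a.2 - b.2).natAbs = 1 := h
  simp only [ctr] at *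
  have key : ∀ x y u v : ℤ, -(k : ℤ) ≤ x - (2 * k + 1) * u → x - (2 * k + 1) * u ≤ k →
      -(k : ℤ) ≤ y - (2 * k + 1) * v → y - (2 * k + 1) * v ≤ k → -1 ≤ x - y → x - y ≤ 1 →
      -1 ≤ u - v ∧ u - v ≤ 1 := by
    intro x y u v h1 h2 h3 h4 h5 h6
    constructor
    · by_contra hc
      have : u - v ≤ -2 := by omega
      nlinarith
    · by_contra hc
      have : 2 ≤ u - v := by omega
      nlinarith
  have heq : ∀ x y u v : ℤ, -(k : ℤ) ≤ x - (2 * k + 1) * u → x - (2 * k + 1) * u ≤ k →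
      -(k : ℤ) ≤ y - (2 * k + 1) * v → y - (2 * k + 1) * v ≤ k → x = y → u = v := by
    intro x y u v h1 h2 h3 h4 h5
    subst h5
    apply le_antisymm
    · by_contra hc
      have : 1 ≤ u - v := by omega
      nlinarith
    · by_contra hc
      have : 1 ≤ v - u := by omega
      nlinarith
  have c1 := key a.1 b.1 (blk k a).1 (blk k b).1 a1 a2 b1 b2 (by omega) (by omega)
  have c2 := key a.2 b.2 (blk k a).2 (blk k b).2 a3 a4 b3 b4 (by omega) (by omega)
  have d : a.1 = b.1 ∨ a.2 = b.2 := by omega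
  rcases d with d | d
  · have e := heq a.1 b.1 (blk k a).1 (blk k b).1 a1 a2 b1 b2 d
    by_cases f : (blk k a).2 = (blk k b).2
    · left; exact Prod.ext e f
    · right
      show ((blk k a).1 - (blk k b).1).natAbs + ((blk k a).2 - (blk k b).2).natAbs = 1
      omega
  · have e := heq a.2 b.2 (blk k a).2 (blk k b).2 a3 a4 b3 b4 d
    by_cases f : (blk k a).1 = (blk k b).1
    · left; exact Prod.ext f e
    · right
      show ((blk k a).1 - (blk k b).1).natAbs + ((blk k a).2 - (blk k b).2).natAbs = 1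
      omega

/-- The visited blocks are connected. -/
lemma visited_reachable {k : ℕ} {S : Set (ℤ × ℤ)} {x y : ℤ × ℤ} (q : Z2.Walk x y)
    (hS : ∀ v ∈ q.support, blk k v ∈ S) (v : ℤ × ℤ) (hv : v ∈ q.support) :
    (Z2.induce S).Reachable ⟨blk k x, hS x q.start_mem_support⟩ ⟨blk k v, hS v hv⟩ := by
  induction q with
  | nil =>
    simp only [SimpleGraph.Walk.support_nil, List.mem_singleton] at hv
    subst hv
    exact SimpleGraph.Reachable.refl _
  | @cons a b c h q ih =>
    rw [SimpleGraph.Walk.support_cons, List.mem_cons] at hv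
    rcases hv with hv | hv
    · subst hv
      exact SimpleGraph.Reachable.refl _
    · have hS' : ∀ v ∈ q.support, blk k v ∈ S := fun w hw => hS w (by simp [hw])
      refine SimpleGraph.Reachable.trans ?_ (ih hS' hv)
      rcases blk_adj (k := k) h with e | e
      · have : (⟨blk k a, hS a (by simp)⟩ : S) = ⟨blk k b, hS' b q.start_mem_support⟩ := Subtype.ext e
        rw [this]
      · exact SimpleGraph.Adj.reachable (by simpa using e)

/-- First hitting of the sphere of radius `m` round `c`. -/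
lemma first_hit {m : ℕ} (c : ℤ × ℤ) {v u : ℤ × ℤ} (q : Z2.Walk v u)
    (hv : (v.1 - c.1, v.2 - c.2) ∈ box m) (hu : (u.1 - c.1, u.2 - c.2) ∉ box m) :
    ∃ y, OnSph m y ∧ ∃ r : Z2.Walk (v.1 - c.1, v.2 - c.2) y, (∀ w ∈ r.support, w ∈ box m) ∧
      ∀ e ∈ r.edges, Sym2.map (tr c) e ∈ q.edges := by
  induction q with
  | nil => exact absurd hv hu
  | @cons a b d h q ih =>
    by_cases hs : OnSph m (a.1 - c.1, a.2 - c.2)
    · exact ⟨_, hs, .nil, by simpa using hv, by simp⟩
    · have hadj : (a.1 - b.1).natAbs + (a.2 - b.2).natAbs = 1 := h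
      have hb : (b.1 - c.1, b.2 - c.2) ∈ box m := by
        rw [mem_box] at hv ⊢
        simp only [OnSph] at hs hv ⊢
        omega
      obtain ⟨y, hy, r, hr1, hr2⟩ := ih hb hu
      have hadj' : Z2.Adj (a.1 - c.1, a.2 - c.2) (b.1 - c.1, b.2 - c.2) := by
        show ((a.1 - c.1) - (b.1 - c.1)).natAbs + ((a.2 - c.2) - (b.2 - c.2)).natAbs = 1
        omega
      refine ⟨y, hy, .cons hadj' r, ?_, ?_⟩
      · intro w hw
        rw [SimpleGraph.Walk.support_cons, List.mem_cons] at hw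
        rcases hw with rfl | hw
        · exact hv
        · exact hr1 w hw
      · intro e he
        rw [SimpleGraph.Walk.edges_cons, List.mem_cons] at he ⊢
        rcases he with rfl | he
        · left
          simp [tr]
        · right
          exact hr2 e he

/-- The blocks next to `z`. -/
noncomputable def nine (z : ℤ × ℤ) : Finset (ℤ × ℤ) :=
  Finset.Icc (z.1 - 1) (z.1 + 1) ×ˢ Finset.Icc (z.2 - 1) (z.2 + 1)

lemma card_nine (z : ℤ × ℤ) : (nine z).card = 9 := by
  unfold nine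
  rw [Finset.card_product, Int.card_Icc, Int.card_Icc]
  have h1 : (z.1 + 1 + 1 - (z.1 - 1)).toNat = 3 := by omega
  have h2 : (z.2 + 1 + 1 - (z.2 - 1)).toNat = 3 := by omega
  rw [h1, h2]

lemma conn_mono {O O' : Sym2 (ℤ × ℤ) → Prop} {S : Set (ℤ × ℤ)} {x y : ℤ × ℤ} (h : ∀ e, O e → O' e) :
    Conn O S x y → Conn O' S x y :=
  fun ⟨q, h1, h2⟩ => ⟨q, h1, fun e he => h e (h2 e he)⟩

lemma badBlk_mono {k : ℕ} {O O' : Sym2 (ℤ × ℤ) → Prop} {z : ℤ × ℤ} (h : ∀ e, O e → O' e) :
    BadBlk k O z → BadBlk k O' z := by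
  rintro ⟨x, hx, y, hy, hc⟩
  exact ⟨x, hx, y, hy, conn_mono (fun e he => ⟨he.1, h _ he.2⟩) hc⟩

/-- Number of closed edges of a walk. -/
noncomputable def cnt (O : Sym2 (ℤ × ℤ) → Prop) {x y : ℤ × ℤ} (q : Z2.Walk x y) : ℕ := by
  classical
  exact (q.edges.filter (fun e => ¬ O e)).length

/-- **Deterministic part**: a long self-avoiding walk with few closed edges meets many bad blocks. -/
theorem many_bad {k : ℕ} {O : Sym2 (ℤ × ℤ) → Prop} {x y : ℤ × ℤ} (q : Z2.Walk x y) (hq : q.IsPath)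
    (hlen : (6 * k + 1) ^ 2 ≤ q.length)
    (hcnt : 18 * (2 * k + 1) ^ 2 * cnt O q < q.length + 1) :
    ∃ S : Finset (ℤ × ℤ), (∀ z ∈ S, ∃ v ∈ q.support, z = blk k v) ∧ blk k x ∈ S ∧
      (Z2.induce (S : Set (ℤ × ℤ))).Preconnected ∧ q.length + 1 ≤ (2 * k + 1) ^ 2 * S.card ∧
      ∃ T ⊆ S, S.card ≤ 2 * T.card ∧ ∀ z ∈ T, BadBlk k O z := by
  classical
  set S : Finset (ℤ × ℤ) := q.support.toFinset.image (blk k) with hS
  have hmemS : ∀ v ∈ q.support, blk k v ∈ S := fun v hv =>
    Finset.mem_image_of_mem _ (List.mem_toFinset.mpr hv)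
  have hcard : q.support.toFinset.card = q.length + 1 := by
    rw [List.toFinset_card_of_nodup hq.support_nodup, SimpleGraph.Walk.length_support]
  have hn : q.length + 1 ≤ (2 * k + 1) ^ 2 * S.card := by
    rw [← hcard]
    apply Finset.card_le_mul_card_image
    intro z _
    calc (q.support.toFinset.filter (fun v => blk k v = z)).card
        ≤ ((box k).image (tr (ctr k z))).card := by
          apply Finset.card_le_card
          intro v hv
          rw [Finset.mem_filter] at hv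
          rw [Finset.mem_image]
          obtain ⟨a1, a2, a3, a4⟩ := blk_spec k v
          rw [hv.2] at a1 a2 a3 a4
          refine ⟨(v.1 - (ctr k z).1, v.2 - (ctr k z).2), ?_, ?_⟩
          · rw [mem_box]
            exact ⟨a1, a2, a3, a4⟩
          · simp [tr]
      _ ≤ (box k).card := Finset.card_image_le
      _ = (2 * k + 1) ^ 2 := PeierlsAux.card_box k
  -- spoiled blocks
  set H : Finset (Sym2 (ℤ × ℤ)) := (q.edges.filter (fun e => ¬ O e)).toFinset with hH
  set P : ℤ × ℤ → Prop := fun z => ∃ e ∈ H, ∀ a ∈ e, (a.1 - (ctr k z).1, a.2 - (ctr k z).2) ∈ box (3 * k)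
    with hP
  have hspoiled : (S.filter P).card ≤ 9 * cnt O q := by
    have hsub : S.filter P ⊆ H.biUnion (fun e => nine (blk k e.out.1)) := by
      intro z hz
      rw [Finset.mem_filter] at hz
      obtain ⟨-, e, he, h⟩ := hz
      rw [Finset.mem_biUnion]
      refine ⟨e, he, ?_⟩
      have h1 := h e.out.1 (Sym2.out_fst_mem e)
      rw [mem_box] at h1
      push_cast at h1
      obtain ⟨h1, h2, h3, h4⟩ := h1
      obtain ⟨b1, b2, b3, b4⟩ := blk_near h1 h2 h3 h4
      simp only [nine, Finset.mem_product, Finset.mem_Icc]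
      omega
    calc (S.filter P).card ≤ (H.biUnion (fun e => nine (blk k e.out.1))).card :=
          Finset.card_le_card hsub
      _ ≤ ∑ e ∈ H, (nine (blk k e.out.1)).card := Finset.card_biUnion_le
      _ = H.card * 9 := by simp [card_nine]
      _ ≤ 9 * cnt O q := by
          have : H.card ≤ cnt O q := List.toFinset_card_le _
          omega
  have h18 : 18 * cnt O q ≤ S.card := by
    have h1 : (2 * k + 1) ^ 2 * (18 * cnt O q) < (2 * k + 1) ^ 2 * S.card := by
      calc (2 * k + 1) ^ 2 * (18 * cnt O q) = 18 * (2 * k + 1) ^ 2 * cnt O q := by ring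
        _ < q.length + 1 := hcnt
        _ ≤ _ := hn
    exact (Nat.lt_of_mul_lt_mul_left h1).le
  refine ⟨S, ?_, hmemS x q.start_mem_support, ?_, hn, S.filter (fun z => ¬ P z),
    Finset.filter_subset _ _, ?_, ?_⟩
  · intro z hz
    rw [hS, Finset.mem_image] at hz
    obtain ⟨v, hv, rfl⟩ := hz
    exact ⟨v, List.mem_toFinset.mp hv, rfl⟩
  · have hS' : ∀ v ∈ q.support, blk k v ∈ (S : Set (ℤ × ℤ)) := hmemS
    have hfrom : ∀ z : (S : Set (ℤ × ℤ)), (Z2.induce (S : Set (ℤ × ℤ))).Reachable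
        ⟨blk k x, hS' x q.start_mem_support⟩ z := by
      rintro ⟨z, hz⟩
      have hz2 : z ∈ S := hz
      rw [hS, Finset.mem_image] at hz2
      obtain ⟨v, hv, rfl⟩ := hz2
      exact visited_reachable q hS' v (List.mem_toFinset.mp hv)
    intro z z'
    exact (hfrom z).symm.trans (hfrom z')
  · have h1 := Finset.card_filter_add_card_filter_not (s := S) P
    omega
  · intro z hz
    rw [Finset.mem_filter] at hz
    obtain ⟨hz1, hz2⟩ := hz
    rw [hS, Finset.mem_image] at hz1
    obtain ⟨v, hv, hvz⟩ := hz1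
    rw [List.mem_toFinset] at hv
    set c := ctr k z with hc
    -- a vertex of the walk outside the large box
    obtain ⟨u, hu, huc⟩ : ∃ u ∈ q.support, (u.1 - c.1, u.2 - c.2) ∉ box (3 * k) := by
      by_contra hcon
      push Not at hcon
      have h1 : q.support.toFinset ⊆ (box (3 * k)).image (tr c) := by
        intro u hu
        rw [Finset.mem_image]
        exact ⟨_, hcon u (List.mem_toFinset.mp hu), by simp [tr]⟩
      have h2 := (Finset.card_le_card h1).trans Finset.card_image_le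
      rw [hcard, PeierlsAux.card_box] at h2
      have h3 : 2 * (3 * k) + 1 = 6 * k + 1 := by ring
      rw [h3] at h2
      omega
    have hvk : (v.1 - c.1, v.2 - c.2) ∈ box k := by
      obtain ⟨a1, a2, a3, a4⟩ := blk_spec k v
      rw [hvz] at a1 a2 a3 a4
      rw [mem_box]
      exact ⟨a1, a2, a3, a4⟩
    have hv3 : (v.1 - c.1, v.2 - c.2) ∈ box (3 * k) := by
      rw [mem_box] at hvk ⊢
      push_cast
      simp only at hvk ⊢
      omega
    obtain ⟨y', hy', r, hr1, hr2⟩ := first_hit c ((q.takeUntil v hv).reverse.append (q.takeUntil u hu))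
      hv3 huc
    refine ⟨_, hvk, y', hy', r, fun w hw => hr1 w hw, fun e he => ?_⟩
    have he1 := hr2 e he
    have he2 : Sym2.map (tr c) e ∈ q.edges := by
      rw [SimpleGraph.Walk.edges_append, List.mem_append, SimpleGraph.Walk.edges_reverse,
        List.mem_reverse] at he1
      rcases he1 with h | h
      · exact q.edges_takeUntil_subset_edges hv h
      · exact q.edges_takeUntil_subset_edges hu h
    have hends : ∀ a ∈ e, a ∈ box (3 * k) := by
      intro a ha
      refine hr1 a ?_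
      induction e using Sym2.ind with
      | _ a' b' =>
        rw [Sym2.mem_iff] at ha
        rcases ha with rfl | rfl
        · exact r.fst_mem_support_of_mem_edges he
        · exact r.snd_mem_support_of_mem_edges he
    have hedge : e ∈ edgesIn (3 * k) := by
      have h1 := r.edges_subset_edgeSet he
      induction e using Sym2.ind with
      | _ a' b' =>
        rw [mem_edgesIn]
        exact ⟨hends a' (by simp), hends b' (by simp), h1⟩
    refine ⟨hedge, ?_⟩
    by_contra hO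
    apply hz2
    refine ⟨Sym2.map (tr c) e, ?_, ?_⟩
    · rw [hH, List.mem_toFinset, List.mem_filter]
      exact ⟨he2, by simpa using hO⟩
    · intro a ha
      rw [Sym2.mem_map] at ha
      obtain ⟨b, hb, rfl⟩ := ha
      have h5 := hends b hb
      show ((b.1 + c.1) - c.1, (b.2 + c.2) - c.2) ∈ box (3 * k)
      simpa using h5

end HalfAux

end Pool.Agent.Helper33_FPP
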