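import Pool.Agent.Helper33_FPP.Bypass
import Pool.Agent.Helper33_FPP.HalfGeo
import Pool.Agent.Helper33_FPP.Net

/-!
# Blocks: definitions

The plane is tiled by the boxes of radius `k` with centres `ctr k z`, `z ∈ ℤ²`; the outer box of the
block `z` is the concentric box of radius `3 k`.
-/

set_option autoImplicit false

namespace Pool.Agent.Helper33_FPP

open Finset

/-- Outer box of the block `z`. -/
def OB (k : ℕ) (z : ℤ × ℤ) : Set (ℤ × ℤ) := Bx (HalfAux.ctr k z) (3 * k)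

/-- Distance in the graph `Z2`. -/
def l1 (x y : ℤ × ℤ) : ℕ := (x.1 - y.1).natAbs + (x.2 - y.2).natAbs

/-- The block `z` is good: every walk in the outer box from the inner box to the boundary of the
outer box weighs at least `a` times the distance of its end points plus `δ`. -/
def BlkGood (w : Sym2 (ℤ × ℤ) → ℝ) (a δ : ℝ) (k : ℕ) (z : ℤ × ℤ) : Prop :=
  ∀ x ∈ Bx (HalfAux.ctr k z) k, ∀ y, dst y (HalfAux.ctr k z) = 3 * k → ∀ q : Z2.Walk x y,
    (∀ v ∈ q.support, v ∈ OB k z) → a * l1 x y + δ ≤ wt w q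

/-- The blocks visited by a walk. -/
noncomputable def vis (k : ℕ) {x y : ℤ × ℤ} (q : Z2.Walk x y) : Finset (ℤ × ℤ) := by
  classical
  exact q.support.toFinset.image (HalfAux.blk k)

/-- Same class modulo `3`. -/
def Same (z z' : ℤ × ℤ) : Prop := z.1 % 3 = z'.1 % 3 ∧ z.2 % 3 = z'.2 % 3

/-- Number of blocks visited by a walk which satisfy a condition. -/
noncomputable def gcount (G : ℤ × ℤ → Prop) (k : ℕ) {x y : ℤ × ℤ} (q : Z2.Walk x y) : ℕ := by
  classical
  exact ((vis k q).filter G).card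

/-- The middle part of column `i` of the strip of the line `U j`. -/
def Par.reg (P : Par) (i j : ℕ) (v : ℤ × ℤ) : Prop :=
  4 * i * P.σ + P.σ ≤ A v ∧ A v ≤ 4 * i * P.σ + 3 * P.σ ∧ |B v - 4 * (j : ℕ) * P.σ| ≤ P.w₀

/-- The good blocks visited by the line `U j` in the middle part of column `i`. -/
noncomputable def Par.gblk (P : Par) (w : Sym2 (ℤ × ℤ) → ℝ) (a δ : ℝ) (k i j : ℕ) :
    Finset (ℤ × ℤ) := by
  classical
  exact (vis k (P.lineU w j)).filter (fun z => BlkGood w a δ k z ∧ ∀ v ∈ OB k z, P.reg i j v)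

/-- Every long path visits many good blocks. -/
def BG (R m₀ k : ℕ) (a δ : ℝ) (w : Sym2 (ℤ × ℤ) → ℝ) : Prop :=
  ∀ (x y : ℤ × ℤ) (q : Z2.Walk x y), q.IsPath →
    (∀ v ∈ q.support, OB k (HalfAux.blk k v) ⊆ (box R : Set (ℤ × ℤ))) → m₀ ≤ q.length →
    q.length ≤ 2 * (2 * k + 1) ^ 2 * gcount (BlkGood w a δ k) k q

/-- Position in the wide tube number `t`. -/
def InTubeW (b₀ : ℤ) (r t : ℕ) (v : ℤ × ℤ) : Prop :=
  ((t : ℤ) - 1) * r ≤ B v - b₀ ∧ B v - b₀ < ((t : ℤ) + 3) * r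

end Pool.Agent.Helper33_FPP
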