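import Pool.Agent.Helper33_FPP.P2
import Pool.Agent.Helper33_FPP.LowerMean

/-!
# Reflection, truncation and discretisation of the weights
-/

set_option autoImplicit false

open MeasureTheory ProbabilityTheory Filter Topology

namespace Pool.Agent.Helper33_FPP

/-! ### Reflection -/

/-- Reflection in the horizontal axis; it exchanges `A` and `B`. -/
def rho : Z2 →g Z2 where
  toFun x := (x.1, -x.2)
  map_rel' := by
    intro a b h
    change (a.1 - b.1).natAbs + (-a.2 - -b.2).natAbs = 1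
    have h' : (a.1 - b.1).natAbs + (a.2 - b.2).natAbs = 1 := h
    omega

@[simp] theorem rho_apply (x : ℤ × ℤ) : rho x = (x.1, -x.2) := rfl

theorem rho_rho (x : ℤ × ℤ) : rho (rho x) = x := by simp

theorem rho_pt (a b : ℤ) : rho (pt a b) = pt b a := by
  unfold pt
  simp [add_comm]

theorem A_rho (x : ℤ × ℤ) : A (rho x) = B x := by unfold A B; simp; ring
theorem B_rho (x : ℤ × ℤ) : B (rho x) = A x := by unfold A B; simp

theorem rho_mem_box {R : ℕ} {x : ℤ × ℤ} : rho x ∈ box R ↔ x ∈ box R := by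
  rw [mem_box, mem_box]
  simp only [rho_apply]
  constructor
  · rintro ⟨h1, h2⟩
    exact ⟨h1, by omega⟩
  · rintro ⟨h1, h2⟩
    exact ⟨h1, by omega⟩

theorem map_rho_rho (e : Sym2 (ℤ × ℤ)) : Sym2.map rho (Sym2.map rho e) = e := by
  rw [Sym2.map_map]
  have : (rho : ℤ × ℤ → ℤ × ℤ) ∘ rho = id := by
    funext x
    exact rho_rho x
  rw [this, Sym2.map_id]
  rfl

/-- Reflection of an edge. -/
def rhoE (e : Z2.edgeSet) : Z2.edgeSet := ⟨Sym2.map rho e.1, rho.map_mem_edgeSet e.2⟩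

theorem rhoE_injective : Function.Injective rhoE := by
  intro e e' h
  have h1 : Sym2.map rho e.1 = Sym2.map rho e'.1 := congrArg Subtype.val h
  apply Subtype.ext
  rw [← map_rho_rho e.1, h1, map_rho_rho]

theorem ext_rho {Ω : Type*} (W : Z2.edgeSet → Ω → ℝ) (ω : Ω) (e : Sym2 (ℤ × ℤ)) :
    ext (fun e => W (rhoE e)) ω e = ext W ω (Sym2.map rho e) := by
  unfold ext
  by_cases h : e ∈ Z2.edgeSet
  · have h' : Sym2.map rho e ∈ Z2.edgeSet := rho.map_mem_edgeSet h
    rw [dif_pos h, dif_pos h']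
    rfl
  · have h' : Sym2.map rho e ∉ Z2.edgeSet := by
      intro h2
      apply h
      rw [← map_rho_rho e]
      exact rho.map_mem_edgeSet h2
    rw [dif_neg h, dif_neg h']

theorem wt_map_rho {w w' : Sym2 (ℤ × ℤ) → ℝ} (h : ∀ e, w' e = w (Sym2.map rho e)) {x y : ℤ × ℤ}
    (p : Z2.Walk x y) : wt w (p.map rho) = wt w' p := by
  unfold wt
  rw [SimpleGraph.Walk.edges_map, List.map_map]
  congr 1
  apply List.map_congr_left
  intro e _
  rw [Function.comp_apply, h]

theorem TT_rho {w w' : Sym2 (ℤ × ℤ) → ℝ} (h : ∀ e, w' e = w (Sym2.map rho e)) {R : ℕ}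
    (x y : ℤ × ℤ) : TT w' (box R) x y = TT w (box R) (rho x) (rho y) := by
  unfold TT
  congr 1
  ext c
  constructor
  · rintro ⟨p, hp, rfl⟩
    refine ⟨p.map rho, ?_, wt_map_rho h p⟩
    intro v hv
    rw [SimpleGraph.Walk.support_map, List.mem_map] at hv
    obtain ⟨u, hu, rfl⟩ := hv
    exact Finset.mem_coe.2 (rho_mem_box.2 (Finset.mem_coe.1 (hp u hu)))
  · rintro ⟨p, hp, rfl⟩
    have h' : ∀ e, w e = w' (Sym2.map rho e) := by
      intro e
      rw [h, map_rho_rho]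
    refine ⟨(p.map rho).copy (rho_rho x) (rho_rho y), ?_, ?_⟩
    · apply isIn_copy
      intro v hv
      rw [SimpleGraph.Walk.support_map, List.mem_map] at hv
      obtain ⟨u, hu, rfl⟩ := hv
      exact Finset.mem_coe.2 (rho_mem_box.2 (Finset.mem_coe.1 (hp u hu)))
    · rw [wt_copy, wt_map_rho h']

theorem passageTime_rho {w w' : Sym2 (ℤ × ℤ) → ℝ} (h : ∀ e, w' e = w (Sym2.map rho e))
    (x y : ℤ × ℤ) : passageTime w' x y = passageTime w (rho x) (rho y) := by
  unfold passageTime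
  have h' : ∀ e, w e = w' (Sym2.map rho e) := by
    intro e
    rw [h, map_rho_rho]
  rw [iInf, iInf]
  congr 1
  ext c
  constructor
  · rintro ⟨p, rfl⟩
    exact ⟨p.map rho, wt_map_rho h p⟩
  · rintro ⟨p, rfl⟩
    refine ⟨(p.map rho).copy (rho_rho x) (rho_rho y), ?_⟩
    change wt w' _ = _
    rw [wt_copy, wt_map_rho h']

/-! ### Discretisation -/

theorem length_le_card_edgesIn {R : ℕ} {x y : ℤ × ℤ} {p : Z2.Walk x y} (hp : p.IsPath)
    (hin : IsIn (box R : Set (ℤ × ℤ)) p) : p.length ≤ (edgesIn R).card := by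
  classical
  rw [← SimpleGraph.Walk.length_edges, ← List.toFinset_card_of_nodup hp.isTrail.edges_nodup]
  apply Finset.card_le_card
  intro e he
  rw [List.mem_toFinset] at he
  rw [mem_edgesIn]
  refine ⟨?_, p.edges_subset_edgeSet he⟩
  intro v hv
  exact Finset.mem_coe.1 (hin v (p.mem_support_of_mem_edges he hv))

theorem card_edgesIn_le (R : ℕ) : ((edgesIn R).card : ℝ) ≤ 2 * (2 * R + 1) ^ 2 := by
  classical
  -- every edge is `s(v, v + e₁)` or `s(v, v + e₂)` with `v` in the box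
  have h1 : edgesIn R ⊆ ((box R).image (fun v => s(v, (v.1 + 1, v.2)))) ∪
      ((box R).image (fun v => s(v, (v.1, v.2 + 1)))) := by
    intro e he
    obtain ⟨hv, hadj⟩ := mem_edgesIn.1 he
    induction e with
    | _ a b =>
      rw [SimpleGraph.mem_edgeSet, Z2_adj_iff] at hadj
      have ha := hv a (Sym2.mem_mk_left a b)
      have hb := hv b (Sym2.mem_mk_right a b)
      rw [Finset.mem_union, Finset.mem_image, Finset.mem_image]
      have h3 : (b = (a.1 + 1, a.2) ∨ a = (b.1 + 1, b.2)) ∨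
          (b = (a.1, a.2 + 1) ∨ a = (b.1, b.2 + 1)) := by
        rw [Prod.ext_iff, Prod.ext_iff, Prod.ext_iff, Prod.ext_iff]
        simp only []
        omega
      rcases h3 with (h | h) | (h | h)
      · left; exact ⟨a, ha, by rw [← h]⟩
      · left; exact ⟨b, hb, by rw [← h, Sym2.eq_swap]⟩
      · right; exact ⟨a, ha, by rw [← h]⟩
      · right; exact ⟨b, hb, by rw [← h, Sym2.eq_swap]⟩
  have h2 : (edgesIn R).card ≤ (box R).card + (box R).card :=
    (Finset.card_le_card h1).trans ((Finset.card_union_le _ _).trans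
      (add_le_add Finset.card_image_le Finset.card_image_le))
  have h3 : (box R).card = (2 * R + 1) ^ 2 := by
    unfold box
    rw [Finset.card_product, Int.card_Icc]
    have : ((R : ℤ) + 1 - -(R : ℤ)).toNat = 2 * R + 1 := by omega
    rw [this, sq]
  rw [h3] at h2
  have h4 : ((edgesIn R).card : ℝ) ≤ (((2 * R + 1) ^ 2 + (2 * R + 1) ^ 2 : ℕ) : ℝ) := by
    exact_mod_cast h2
  refine h4.trans (le_of_eq ?_)
  push_cast
  ring

/-- The values of the discretisation. -/
noncomputable def dval (m K : ℕ) (v : Fin (K + 1)) : ℝ := (v : ℕ) / (m : ℝ)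

theorem dval_nonneg (m K : ℕ) (v : Fin (K + 1)) : 0 ≤ dval m K v := by
  unfold dval
  positivity

theorem dval_le {m b : ℕ} (hm : 0 < m) (v : Fin (m * b + 1)) : dval m (m * b) v ≤ b := by
  unfold dval
  have hm' : (0 : ℝ) < m := by exact_mod_cast hm
  rw [div_le_iff₀ hm']
  have : (v : ℕ) ≤ m * b := by omega
  have h2 : ((v : ℕ) : ℝ) ≤ ((m * b : ℕ) : ℝ) := by exact_mod_cast this
  push_cast at h2
  linarith

theorem dval_dsc_le {m b : ℕ} (hm : 0 < m) {x : ℝ} (hx : 0 ≤ x) :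
    dval m (m * b) (dsc m (m * b) x) ≤ max 0 (min x b) := by
  have hm' : (0 : ℝ) < m := by exact_mod_cast hm
  unfold dval dsc
  simp only []
  refine le_trans ?_ (le_max_right _ _)
  rw [div_le_iff₀ hm', Nat.cast_min]
  have h1 : (⌊(m : ℝ) * x⌋₊ : ℝ) ≤ m * x := Nat.floor_le (by positivity)
  rcases le_total x b with h | h
  · rw [min_eq_left h]
    exact (min_le_left _ _).trans (by linarith)
  · rw [min_eq_right h]
    refine (min_le_right _ _).trans ?_
    push_cast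
    linarith

theorem le_dval_dsc {m b : ℕ} (hm : 0 < m) {x : ℝ} (hx : 0 ≤ x) :
    max 0 (min x b) ≤ dval m (m * b) (dsc m (m * b) x) + 1 / m := by
  have hm' : (0 : ℝ) < m := by exact_mod_cast hm
  unfold dval dsc
  simp only []
  have h1 : (m : ℝ) * x < ⌊(m : ℝ) * x⌋₊ + 1 := Nat.lt_floor_add_one _
  have h0 : 0 ≤ min x (b : ℝ) := le_min hx (Nat.cast_nonneg b)
  rw [max_eq_right h0, ← add_div, le_div_iff₀ hm', Nat.cast_min]
  rcases le_total (⌊(m : ℝ) * x⌋₊ : ℝ) ((m * b : ℕ) : ℝ) with h | h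
  · rw [min_eq_left h]
    have := mul_le_mul_of_nonneg_right (min_le_left x (b : ℝ)) hm'.le
    linarith
  · rw [min_eq_right h]
    have := mul_le_mul_of_nonneg_right (min_le_right x (b : ℝ)) hm'.le
    push_cast
    linarith

/-- The discretised configuration. -/
noncomputable def dcf {Ω : Type} (W : Z2.edgeSet → Ω → ℝ) (m K R : ℕ) (ω : Ω) :
    EIdx R → Fin (K + 1) :=
  fun i => dsc m K (W ⟨i.1, (mem_edgesIn.1 i.2).2⟩ ω)

theorem wOf_dcf {Ω : Type} (W : Z2.edgeSet → Ω → ℝ) (m K : ℕ) {R : ℕ} (ω : Ω)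
    {e : Sym2 (ℤ × ℤ)} (he : e ∈ edgesIn R) :
    wOf (dval m K) (dcf W m K R ω) e = dval m K (dsc m K (W ⟨e, (mem_edgesIn.1 he).2⟩ ω)) := by
  unfold wOf dcf
  rw [dif_pos he]

theorem wOf_nonneg' {R : ℕ} {V : Type} {val : V → ℝ} (h : ∀ v, 0 ≤ val v) (ω : EIdx R → V)
    (e : Sym2 (ℤ × ℤ)) : 0 ≤ wOf val ω e := by
  unfold wOf
  split_ifs
  · exact h _
  · exact le_rfl

theorem TT_dcf_le {Ω : Type} {W : Z2.edgeSet → Ω → ℝ} (h0 : ∀ e ω, 0 ≤ W e ω) {m b R : ℕ}
    (hm : 0 < m) (ω : Ω) {x y : ℤ × ℤ} (hx : x ∈ box R) (hy : y ∈ box R) :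
    TT (wOf (dval m (m * b)) (dcf W m (m * b) R ω)) (box R) x y ≤
      TT (ext (Wb W b) ω) (box R) x y := by
  have hnn : ∀ e, 0 ≤ ext (Wb W (b : ℝ)) ω e := LM.ext_nonneg (fun e ω => le_max_left _ _) ω
  obtain ⟨p0, hp0⟩ := LM.box_connected hx hy
  obtain ⟨p, hp, hpw⟩ := exists_minPath hnn (box R).finite_toSet hp0
  rw [← hpw]
  refine (TT_le (wOf_nonneg' (dval_nonneg m (m * b)) _) hp.2.1).trans ?_
  unfold wt
  apply List.sum_le_sum
  intro e he
  have hE : e ∈ edgesIn R := LM.edge_mem_box hp.2.1 he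
  rw [wOf_dcf W m (m * b) ω hE]
  unfold ext
  rw [dif_pos (mem_edgesIn.1 hE).2]
  exact dval_dsc_le hm (h0 _ _)

theorem le_TT_dcf {Ω : Type} {W : Z2.edgeSet → Ω → ℝ} (h0 : ∀ e ω, 0 ≤ W e ω) {m b R : ℕ}
    (hm : 0 < m) (ω : Ω) {x y : ℤ × ℤ} (hx : x ∈ box R) (hy : y ∈ box R) :
    TT (ext (Wb W b) ω) (box R) x y ≤
      TT (wOf (dval m (m * b)) (dcf W m (m * b) R ω)) (box R) x y + (edgesIn R).card / m := by
  have hnn : ∀ e, 0 ≤ ext (Wb W (b : ℝ)) ω e := LM.ext_nonneg (fun e ω => le_max_left _ _) ω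
  have hm' : (0 : ℝ) < m := by exact_mod_cast hm
  obtain ⟨p0, hp0⟩ := LM.box_connected hx hy
  obtain ⟨p, hp, hpw⟩ := exists_minPath (wOf_nonneg' (dval_nonneg m (m * b)) (dcf W m (m * b) R ω))
    (box R).finite_toSet hp0
  rw [← hpw]
  refine (TT_le hnn hp.2.1).trans ?_
  have h1 : wt (ext (Wb W b) ω) p ≤ wt (fun e => wOf (dval m (m * b)) (dcf W m (m * b) R ω) e +
      1 / m) p := by
    unfold wt
    apply List.sum_le_sum
    intro e he
    have hE : e ∈ edgesIn R := LM.edge_mem_box hp.2.1 he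
    rw [wOf_dcf W m (m * b) ω hE]
    unfold ext
    rw [dif_pos (mem_edgesIn.1 hE).2]
    exact le_dval_dsc hm (h0 _ _)
  have h2 : wt (fun e => wOf (dval m (m * b)) (dcf W m (m * b) R ω) e + 1 / m) p =
      wt (wOf (dval m (m * b)) (dcf W m (m * b) R ω)) p + p.length * (1 / m) := by
    unfold wt
    rw [List.sum_map_add, List.map_const', List.sum_replicate, SimpleGraph.Walk.length_edges,
      nsmul_eq_mul]
  rw [h2] at h1
  refine h1.trans (add_le_add le_rfl ?_)
  rw [mul_one_div]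
  apply div_le_div_of_nonneg_right _ hm'.le
  exact_mod_cast length_le_card_edgesIn hp.1 hp.2.1

end Pool.Agent.Helper33_FPP
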