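import Pool.Agent.Helper33_FPP.Block
import Pool.Agent.Helper33_FPP.ChainProb
import Pool.Agent.Helper33_FPP.Reflect

/-!
# Module PC2b: discretisation of the good blocks
-/

set_option autoImplicit false

namespace Pool.Agent.Helper33_FPP

open Finset MeasureTheory ProbabilityTheory Filter Topology

namespace BlockDiscAux

theorem length_le_card {D : Finset (ℤ × ℤ)} {x y : ℤ × ℤ} {p : Z2.Walk x y} (hp : p.IsPath)
    (hin : ∀ v ∈ p.support, v ∈ D) : p.length ≤ D.card := by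
  classical
  have h1 : p.support.toFinset.card = p.length + 1 := by
    rw [List.toFinset_card_of_nodup hp.support_nodup, SimpleGraph.Walk.length_support]
  have h2 : p.support.toFinset ⊆ D := by
    intro v hv
    exact hin v (List.mem_toFinset.1 hv)
  have h3 := Finset.card_le_card h2
  omega

theorem blk_disc {Ω : Type} {W : Z2.edgeSet → Ω → ℝ} {r b₁ : ℝ} (hr : 0 < r)
    (hW : ∀ e ω, r ≤ W e ω) {k : ℕ} {z : ℤ × ℤ} {m b R : ℕ} (hm1 : (6 * k + 1) ^ 2 ≤ m)
    (hb : b₁ ≤ b) (hR : OB k z ⊆ (box R : Set (ℤ × ℤ))) (ω : Ω)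
    (hg : BlkGood (ext (Wb W b₁) ω) r 2 k z) :
    BlkGood (wOf (dval m (m * b)) (dcf W m (m * b) R ω)) ((⌊(m : ℝ) * r⌋₊ : ℝ) / m) 1 k z := by
  classical
  have hm : 0 < m := lt_of_lt_of_le (by positivity) hm1
  have hm' : (0 : ℝ) < m := by exact_mod_cast hm
  intro x hx y hy q hq
  have hq' : ∀ v ∈ q.bypass.support, v ∈ OB k z :=
    fun v hv => hq v (q.support_bypass_subset_support hv)
  have h1 := hg x hx y hy q.bypass hq'
  have hlen : q.bypass.length ≤ m := by
    have h2 := length_le_card q.bypass_isPath (D := ChainProb.BxF (HalfAux.ctr k z) (3 * k))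
      (fun v hv => ChainProb.mem_BxF.2 (hq' v hv))
    rw [ChainProb.card_BxF] at h2
    have h3 : (2 * (3 * k) + 1) ^ 2 = (6 * k + 1) ^ 2 := by ring
    rw [h3] at h2
    exact h2.trans hm1
  have h2 : wt (ext (Wb W b₁) ω) q.bypass ≤
      wt (fun e => wOf (dval m (m * b)) (dcf W m (m * b) R ω) e + 1 / m) q.bypass := by
    unfold wt
    apply List.sum_le_sum
    intro e he
    have hE : e ∈ edgesIn R := by
      rw [mem_edgesIn]
      refine ⟨fun v hv => ?_, q.bypass.edges_subset_edgeSet he⟩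
      exact Finset.mem_coe.1 (hR (hq' v (q.bypass.mem_support_of_mem_edges he hv)))
    rw [wOf_dcf W m (m * b) ω hE]
    unfold ext
    rw [dif_pos (mem_edgesIn.1 hE).2]
    refine le_trans ?_ (le_dval_dsc (b := b) hm (hr.le.trans (hW _ _)))
    unfold Wb
    exact max_le_max le_rfl (min_le_min le_rfl hb)
  have h3 : wt (fun e => wOf (dval m (m * b)) (dcf W m (m * b) R ω) e + 1 / m) q.bypass =
      wt (wOf (dval m (m * b)) (dcf W m (m * b) R ω)) q.bypass + q.bypass.length * (1 / m) := by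
    unfold wt
    rw [List.sum_map_add, List.map_const', List.sum_replicate, SimpleGraph.Walk.length_edges,
      nsmul_eq_mul]
  have h4 : (q.bypass.length : ℝ) * (1 / m) ≤ 1 := by
    rw [mul_one_div, div_le_one hm']
    exact_mod_cast hlen
  have h5 := wt_bypass_le (wOf_nonneg' (dval_nonneg m (m * b)) (dcf W m (m * b) R ω)) q
  have h6 : (⌊(m : ℝ) * r⌋₊ : ℝ) / m ≤ r := by
    rw [div_le_iff₀ hm']
    have := Nat.floor_le (show 0 ≤ (m : ℝ) * r by positivity)
    linarith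
  have h7 : (⌊(m : ℝ) * r⌋₊ : ℝ) / m * (l1 x y : ℝ) ≤ r * l1 x y :=
    mul_le_mul_of_nonneg_right h6 (Nat.cast_nonneg _)
  rw [h3] at h2
  linarith

end BlockDiscAux

/-- MODULE PC2b. -/
theorem block_good_disc {Ω : Type} [MeasurableSpace Ω] {P : Measure Ω} [IsProbabilityMeasure P]
    {F : Measure ℝ} [IsProbabilityMeasure F] {W : Z2.edgeSet → Ω → ℝ}
    (hm : ∀ e, Measurable (W e)) (hind : iIndepFun W P) (hF : ∀ e, P.map (W e) = F)
    {r ε b₁ : ℝ} (hr : 0 < r) (hW : ∀ e ω, r ≤ W e ω) {k : ℕ} {z : ℤ × ℤ}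
    (hgood : P.real {ω | ¬ BlkGood (ext (Wb W b₁) ω) r 2 k z} ≤ ε)
    {m b R : ℕ} (hm1 : (6 * k + 1) ^ 2 ≤ m) (hb : b₁ ≤ b) (hR : OB k z ⊆ (box R : Set (ℤ × ℤ))) :
    Pr (dscP F m (m * b)) (fun ω : EIdx R → Fin (m * b + 1) =>
      ¬ BlkGood (wOf (dval m (m * b)) ω) ((⌊(m : ℝ) * r⌋₊ : ℝ) / m) 1 k z) ≤ ε := by
  have hinj : Function.Injective
      (fun i : EIdx R => (⟨i.1, (mem_edgesIn.1 i.2).2⟩ : Z2.edgeSet)) := by
    intro i j h
    simp only [Subtype.mk.injEq] at h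
    exact Subtype.ext h
  rw [← Pr_transfer (ι := EIdx R) (w := fun i => W ⟨i.1, (mem_edgesIn.1 i.2).2⟩) (fun i => hm _)
    (hind.precomp hinj) (fun i => hF _) m (m * b)]
  refine le_trans (measureReal_mono ?_) hgood
  intro ω hω hg
  exact hω (BlockDiscAux.blk_disc hr hW hm1 hb hR ω hg)

end Pool.Agent.Helper33_FPP
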