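import Pool.Agent.Helper33_FPP.Conc
import Pool.Agent.Helper33_FPP.Transfer

set_option autoImplicit false

open MeasureTheory ProbabilityTheory

namespace Pool.Agent.Helper33_FPP

/-- Concentration for i.i.d. bounded real weights. -/
theorem conc_measure {ι Ω : Type*} [DecidableEq ι]
    [MeasurableSpace Ω] {P : Measure Ω}
    [IsProbabilityMeasure P] {F : Measure ℝ} [IsProbabilityMeasure F] {w : ι → Ω → ℝ}
    (hm : ∀ i, Measurable (w i)) (hind : iIndepFun w P) (hF : ∀ i, P.map (w i) = F) {b : ℝ}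
    (hb : 0 < b) (hw : ∀ i ω, 0 ≤ w i ω ∧ w i ω ≤ b) (𝒮 : Finset (Finset ι)) (h𝒮 : 𝒮.Nonempty)
    {k : ℕ} (hk : ∀ S ∈ 𝒮, S.card ≤ k) {t : ℝ} (ht : 0 ≤ t) :
    P.real {ω | t ≤ |minW 𝒮 h𝒮 (fun i => w i ω) - ∫ ω', minW 𝒮 h𝒮 (fun i => w i ω') ∂P|} ≤
      4 * Real.exp (-(t / (2 * b * Real.sqrt (k + 1)))) := by
  refine conc_measure_of ?_ hm hind hF hb hw 𝒮 h𝒮 hk ht
  intro J V _ p hp val b hb hval 𝒮 h𝒮 k hk t ht
  exact concentration hp hb hval 𝒮 h𝒮 hk ht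

end Pool.Agent.Helper33_FPP
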