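import Pool.Agent.Helper33_FPP.Block
import Pool.Agent.Helper33_FPP.PartII
import Pool.Agent.Helper33_FPP.TransferConc

/-!
# Module PC2: large blocks are good with high probability
-/

set_option autoImplicit false

namespace Pool.Agent.Helper33_FPP

open Finset MeasureTheory ProbabilityTheory Filter Topology

namespace BlockGoodAux

/-- the box as a finset -/
noncomputable def BxF (u : ℤ × ℤ) (n : ℕ) : Finset (ℤ × ℤ) :=
  Finset.Icc (u.1 - n) (u.1 + n) ×ˢ Finset.Icc (u.2 - n) (u.2 + n)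

theorem mem_BxF {u v : ℤ × ℤ} {n : ℕ} : v ∈ BxF u n ↔ v ∈ Bx u n := by
  unfold BxF Bx dst
  rw [Finset.mem_product, Finset.mem_Icc, Finset.mem_Icc]
  show _ ↔ max (v.1 - u.1).natAbs (v.2 - u.2).natAbs ≤ n
  rw [max_le_iff]
  omega

theorem card_BxF (u : ℤ × ℤ) (n : ℕ) : (BxF u n).card = (2 * n + 1) ^ 2 := by
  unfold BxF
  rw [Finset.card_product, Int.card_Icc, Int.card_Icc]
  have h1 : (u.1 + n + 1 - (u.1 - n)).toNat = 2 * n + 1 := by omega
  have h2 : (u.2 + n + 1 - (u.2 - n)).toNat = 2 * n + 1 := by omega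
  rw [h1, h2, sq]

theorem l1_le_AB (x y : ℤ × ℤ) : (l1 x y : ℤ) ≤ |A x - A y| + |B x - B y| := by
  unfold l1 A B
  have h1 := le_abs_self (x.1 + x.2 - (y.1 + y.2))
  have h2 := neg_abs_le (x.1 + x.2 - (y.1 + y.2))
  have h3 := le_abs_self (x.1 - x.2 - (y.1 - y.2))
  have h4 := neg_abs_le (x.1 - x.2 - (y.1 - y.2))
  push_cast
  rcases abs_cases (x.1 - y.1) with ⟨h5, h6⟩ | ⟨h5, h6⟩ <;>
    rcases abs_cases (x.2 - y.2) with ⟨h7, h8⟩ | ⟨h7, h8⟩ <;> rw [h5, h7] <;> linarith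

theorem l1_ge {k : ℕ} {c x y : ℤ × ℤ} (hx : x ∈ Bx c k) (hy : dst y c = 3 * k) :
    2 * k ≤ l1 x y := by
  have hx' : dst x c ≤ k := hx
  unfold dst at hx' hy
  unfold l1
  omega

theorem l1_le {k : ℕ} {c x y : ℤ × ℤ} (hx : x ∈ Bx c k) (hy : dst y c = 3 * k) :
    l1 x y ≤ 8 * k := by
  have hx' : dst x c ≤ k := hx
  unfold dst at hx' hy
  unfold l1
  omega

variable {Ω : Type} [MeasurableSpace Ω] {P : Measure Ω} [IsProbabilityMeasure P]
    {F : Measure ℝ} [IsProbabilityMeasure F] {W : Z2.edgeSet → Ω → ℝ}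

theorem Wb_ge {r b : ℝ} (hrb : r ≤ b) (hW : ∀ e ω, r ≤ W e ω) (e : Z2.edgeSet) (ω : Ω) :
    r ≤ Wb W b e ω := le_max_of_le_right (le_min (hW e ω) hrb)

theorem length_le_wt {r b : ℝ} (hrb : r ≤ b) (hW : ∀ e ω, r ≤ W e ω) (ω : Ω) {x y : ℤ × ℤ}
    (q : Z2.Walk x y) : r * q.length ≤ wt (ext (Wb W b) ω) q := by
  unfold wt
  have h1 : ∀ v ∈ q.edges.map (ext (Wb W b) ω), r ≤ v := by
    intro v hv
    rw [List.mem_map] at hv
    obtain ⟨e, he, rfl⟩ := hv
    have he' := q.edges_subset_edgeSet he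
    unfold ext
    rw [dif_pos he']
    exact Wb_ge hrb hW _ ω
  have h2 := List.card_nsmul_le_sum _ r h1
  rw [List.length_map, SimpleGraph.Walk.length_edges, nsmul_eq_mul] at h2
  linarith

/-- one pair -/
theorem pair_bound (hm : ∀ e, Measurable (W e)) (hind : iIndepFun W P)
    (hF : ∀ e, P.map (W e) = F) {r c b : ℝ} (hr : 0 < r) (hW : ∀ e ω, r ≤ W e ω)
    (hrb : r ≤ b) {R : ℕ} {x y : ℤ × ℤ} (hx : x ∈ box R) (hy : y ∈ box R)
    (hmean : c * (|(A x - A y : ℤ)| + |(B x - B y : ℤ)| : ℤ) - 1 ≤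
        ∫ ω, TT (ext (Wb W b) ω) (box R) x y ∂P) (hc : 0 ≤ c)
    {K : ℕ} (hK : (l1 x y : ℝ) + 2 / r ≤ K) {t : ℝ} (ht : 0 ≤ t)
    (ht2 : t + 3 ≤ (c - r) * l1 x y) :
    P.real {ω | ∃ q : Z2.Walk x y, IsIn (box R) q ∧ wt (ext (Wb W b) ω) q < r * l1 x y + 2} ≤
      4 * Real.exp (-(t / (2 * b * Real.sqrt (K + 1)))) := by
  classical
  have hb0 : 0 < b := lt_of_lt_of_le hr hrb
  set X := Wb W b with hX
  have hX0 : ∀ e ω, 0 ≤ X e ω := Wb_nonneg W b
  have hXb : ∀ e ω, X e ω ≤ b := fun e ω => max_le hb0.le (min_le_right _ _)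
  have hXm : ∀ e, Measurable (X e) := measurable_Wb hm b
  set 𝒮 : Finset (Finset (EIdx R)) := (LM.esets R x y).filter (fun S => S.card ≤ K) with h𝒮def
  -- a bad walk gives a member of the family
  have hmem : ∀ ω, ∀ q : Z2.Walk x y, IsIn (box R) q → wt (ext X ω) q < r * l1 x y + 2 →
      (LM.eset q.bypass : Finset (EIdx R)) ∈ 𝒮 ∧
        ∑ i ∈ (LM.eset q.bypass : Finset (EIdx R)), X ⟨i.1, (mem_edgesIn.1 i.2).2⟩ ω <
          r * l1 x y + 2 := by
    intro ω q hq hlt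
    have h1 : wt (ext X ω) q.bypass < r * l1 x y + 2 :=
      lt_of_le_of_lt (wt_bypass_le (LM.ext_nonneg hX0 ω) q) hlt
    have h2 := LM.wt_eq_sum (R := R) q.bypass_isPath (isIn_bypass hq) (ext X ω)
    have h3 : ∑ i ∈ (LM.eset q.bypass : Finset (EIdx R)), X ⟨i.1, (mem_edgesIn.1 i.2).2⟩ ω =
        wt (ext X ω) q.bypass := by
      rw [h2]
      exact Finset.sum_congr rfl (fun i _ => (ext_apply X ω i).symm)
    refine ⟨?_, by rw [h3]; exact h1⟩
    rw [h𝒮def, Finset.mem_filter]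
    refine ⟨LM.mem_esets.2 ⟨q.bypass, q.bypass_isPath, isIn_bypass hq, rfl⟩, ?_⟩
    have h4 : r * ((LM.eset q.bypass : Finset (EIdx R)).card : ℝ) ≤ wt (ext X ω) q.bypass := by
      rw [← h3, mul_comm, ← nsmul_eq_mul, ← Finset.sum_const]
      exact Finset.sum_le_sum (fun i _ => Wb_ge hrb hW _ ω)
    have h5 : ((LM.eset q.bypass : Finset (EIdx R)).card : ℝ) ≤ K := by
      refine le_trans ?_ hK
      have h6 : r * ((LM.eset q.bypass : Finset (EIdx R)).card : ℝ) ≤ r * (l1 x y + 2 / r) := by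
        have : r * (l1 x y + 2 / r) = r * l1 x y + 2 := by field_simp
        rw [this]
        exact h4.trans h1.le
      exact le_of_mul_le_mul_left h6 hr
    exact_mod_cast h5
  by_cases hne : 𝒮.Nonempty
  · -- the mean
    set f : Ω → ℝ := fun ω => minW 𝒮 hne (fun i => X ⟨i.1, (mem_edgesIn.1 i.2).2⟩ ω) with hf
    have hfm : Measurable f := measurable_minW (fun i => hXm _) _ _
    have hf0 : ∀ ω, 0 ≤ f ω := fun ω => minW_nonneg _ _ (fun i => hX0 _ ω)
    have hfb : ∀ ω, f ω ≤ K * b := fun ω =>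
      minW_le _ _ hb0.le (fun i => hXb _ ω) (fun S hS => (Finset.mem_filter.1 hS).2)
    have hfi : Integrable f P := by
      refine (integrable_const (K * b)).mono' hfm.aestronglyMeasurable ?_
      filter_upwards with ω
      rw [Real.norm_of_nonneg (hf0 ω)]
      exact hfb ω
    have hle : ∫ ω, TT (ext X ω) (box R) x y ∂P ≤ ∫ ω, f ω ∂P := by
      refine integral_mono_of_nonneg ?_ hfi ?_
      · filter_upwards with ω
        exact TT_nonneg (LM.ext_nonneg hX0 ω) _ _ _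
      · filter_upwards with ω
        show TT (ext X ω) (box R) x y ≤ f ω
        rw [TT_ext_eq_minW hX0 hx hy ω]
        unfold minW at hf
        rw [hf]
        unfold minW
        refine Finset.le_inf' _ _ (fun S hS => ?_)
        exact Finset.inf'_le (fun S : Finset (EIdx R) =>
          ∑ i ∈ S, X ⟨i.1, (mem_edgesIn.1 i.2).2⟩ ω) (Finset.mem_filter.1 hS).1
    have hinj : Function.Injective
        (fun i : EIdx R => (⟨i.1, (mem_edgesIn.1 i.2).2⟩ : Z2.edgeSet)) := by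
      intro i j hij
      have : i.1 = j.1 := by simpa using hij
      exact Subtype.ext this
    have hg : Measurable fun v : ℝ => max 0 (min v b) := by fun_prop
    have hprob : IsProbabilityMeasure (F.map (fun v => max 0 (min v b))) :=
      Measure.isProbabilityMeasure_map hg.aemeasurable
    have hXi := UpperMean.iid_Wb hm hind hF hb0.le
    have hconc := conc_measure (P := P) (F := F.map (fun v => max 0 (min v b)))
      (w := fun (i : EIdx R) => X ⟨i.1, (mem_edgesIn.1 i.2).2⟩) (fun i => hXm _)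
      (hXi.indep.precomp hinj) (fun i => hXi.law _) hb0 (fun i ω => ⟨hX0 _ ω, hXb _ ω⟩) 𝒮 hne
      (k := K) (fun S hS => (Finset.mem_filter.1 hS).2) ht
    refine le_trans (measureReal_mono ?_) hconc
    rintro ω ⟨q, hq, hlt⟩
    obtain ⟨h1, h2⟩ := hmem ω q hq hlt
    show t ≤ |f ω - ∫ ω', f ω' ∂P|
    have h3 : f ω < r * l1 x y + 2 :=
      lt_of_le_of_lt (Finset.inf'_le (fun S : Finset (EIdx R) =>
        ∑ i ∈ S, X ⟨i.1, (mem_edgesIn.1 i.2).2⟩ ω) h1) h2
    have h4 : c * l1 x y - 1 ≤ ∫ ω', f ω' ∂P := by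
      refine le_trans ?_ (hmean.trans hle)
      have h5 : (l1 x y : ℝ) ≤ ((|(A x - A y : ℤ)| + |(B x - B y : ℤ)| : ℤ) : ℝ) := by
        exact_mod_cast l1_le_AB x y
      have := mul_le_mul_of_nonneg_left h5 hc
      linarith
    rw [abs_sub_comm]
    refine le_trans ?_ (le_abs_self _)
    have h6 : (c - r) * (l1 x y : ℝ) = c * l1 x y - r * l1 x y := by ring
    linarith
  · have : {ω | ∃ q : Z2.Walk x y, IsIn (box R) q ∧ wt (ext X ω) q < r * l1 x y + 2} = ∅ := by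
      ext ω
      simp only [Set.mem_setOf_eq, Set.mem_empty_iff_false, iff_false]
      rintro ⟨q, hq, hlt⟩
      exact hne ⟨_, (hmem ω q hq hlt).1⟩
    rw [this, measureReal_empty]
    positivity

theorem tend_zero {γ : ℝ} (hγ : 0 < γ) (C : ℝ) :
    Tendsto (fun k : ℕ => C * (k : ℝ) ^ 4 * Real.exp (-(γ * Real.sqrt k))) atTop (𝓝 0) := by
  have h1 := Real.tendsto_pow_mul_exp_neg_atTop_nhds_zero 8
  have h2 : Tendsto (fun k : ℕ => γ * Real.sqrt k) atTop atTop :=
    ((Real.tendsto_sqrt_atTop.comp tendsto_natCast_atTop_atTop).const_mul_atTop hγ)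
  have h3 := (h1.comp h2).const_mul (C / γ ^ 8)
  rw [mul_zero] at h3
  refine h3.congr (fun k => ?_)
  simp only [Function.comp]
  have h4 : Real.sqrt k ^ 8 = (k : ℝ) ^ 4 := by
    have : Real.sqrt k ^ 8 = (Real.sqrt k ^ 2) ^ 4 := by ring
    rw [this, Real.sq_sqrt (Nat.cast_nonneg k)]
  rw [mul_pow, h4]
  field_simp

end BlockGoodAux

open BlockGoodAux in
theorem block_good {Ω : Type} [MeasurableSpace Ω] {P : Measure Ω} [IsProbabilityMeasure P]
    {F : Measure ℝ} [IsProbabilityMeasure F] {W : Z2.edgeSet → Ω → ℝ}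
    (hm : ∀ e, Measurable (W e)) (hind : iIndepFun W P) (hF : ∀ e, P.map (W e) = F)
    {r c b : ℝ} (hr : 0 < r) (hW : ∀ e ω, r ≤ W e ω) (hrc : r < c) (hrb : r ≤ b)
    (hmean : ∀ (R : ℕ), ∀ x ∈ box R, ∀ y ∈ box R,
      c * (|(A x - A y : ℤ)| + |(B x - B y : ℤ)| : ℤ) - 1 ≤
        ∫ ω, TT (ext (Wb W b) ω) (box R) x y ∂P) {ε : ℝ} (hε : 0 < ε) :
    ∃ k₀ : ℕ, ∀ k : ℕ, k₀ ≤ k → ∀ z : ℤ × ℤ,
      P.real {ω | ¬ BlkGood (ext (Wb W b) ω) r 2 k z} ≤ ε := by
  classical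
  have hb0 : 0 < b := lt_of_lt_of_le hr hrb
  set k₁ : ℕ := ⌈2 / r⌉₊ with hk₁
  set γ : ℝ := (c - r) / (6 * b) with hγ
  have hγ0 : 0 < γ := div_pos (by linarith) (by linarith)
  have hT := tend_zero hγ0 1764
  have hev := hT.eventually (ge_mem_nhds hε)
  obtain ⟨k₂, hk₂⟩ := eventually_atTop.1 hev
  set k₃ : ℕ := ⌈3 / (c - r)⌉₊ with hk₃
  refine ⟨max (max k₂ k₃) (k₁ + 1), fun k hk z => ?_⟩
  have hk2 : k₂ ≤ k := (le_max_left _ _).trans ((le_max_left _ _).trans hk)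
  have hk3 : k₃ ≤ k := (le_max_right _ _).trans ((le_max_left _ _).trans hk)
  have hk1 : k₁ + 1 ≤ k := (le_max_right _ _).trans hk
  have hkpos : (1 : ℝ) ≤ k := by
    have : 1 ≤ k := by omega
    exact_mod_cast this
  set ctr := HalfAux.ctr k z with hctr
  set R : ℕ := ctr.1.natAbs + ctr.2.natAbs + 3 * k with hR
  have hOB : OB k z ⊆ (box R : Set (ℤ × ℤ)) := by
    intro v hv
    have hv' : dst v ctr ≤ 3 * k := hv
    unfold dst at hv'
    rw [Finset.mem_coe, mem_box]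
    omega
  set t : ℝ := (c - r) * (2 * k) - 3 with ht
  have h3 : 3 ≤ (c - r) * k := by
    have h4 : 3 / (c - r) ≤ k := (Nat.le_ceil _).trans (by exact_mod_cast hk3)
    rw [div_le_iff₀ (by linarith)] at h4
    linarith
  have ht1 : (c - r) * k ≤ t := by rw [ht]; linarith
  have ht0 : 0 ≤ t := by linarith
  set K : ℕ := 8 * k + k₁ with hK
  -- union bound
  have hsub : {ω | ¬ BlkGood (ext (Wb W b) ω) r 2 k z} ⊆
      ⋃ p ∈ BxF ctr k ×ˢ BxF ctr (3 * k), {ω | dst p.2 ctr = 3 * k ∧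
        ∃ q : Z2.Walk p.1 p.2, IsIn (box R) q ∧
          wt (ext (Wb W b) ω) q < r * l1 p.1 p.2 + 2} := by
    intro ω hω
    have hω' : ¬ BlkGood (ext (Wb W b) ω) r 2 k z := hω
    unfold BlkGood at hω'
    push Not at hω'
    obtain ⟨x, hx, y, hy, q, hq, hlt⟩ := hω'
    rw [Set.mem_iUnion₂]
    refine ⟨(x, y), ?_, hy, q, fun v hv => hOB (hq v hv), hlt⟩
    rw [Finset.mem_product]
    exact ⟨mem_BxF.2 hx, mem_BxF.2 (show dst y ctr ≤ 3 * k from hy.le)⟩
  refine (measureReal_mono hsub (measure_ne_top P _)).trans ?_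
  refine (measureReal_biUnion_finset_le _ _).trans ?_
  have hE : ∀ p ∈ BxF ctr k ×ˢ BxF ctr (3 * k), P.real {ω | dst p.2 ctr = 3 * k ∧
        ∃ q : Z2.Walk p.1 p.2, IsIn (box R) q ∧
          wt (ext (Wb W b) ω) q < r * l1 p.1 p.2 + 2} ≤
        4 * Real.exp (-(t / (2 * b * Real.sqrt (K + 1)))) := by
    intro p hp
    rw [Finset.mem_product] at hp
    have hx : p.1 ∈ Bx ctr k := mem_BxF.1 hp.1
    have hy : p.2 ∈ Bx ctr (3 * k) := mem_BxF.1 hp.2
    by_cases hd : dst p.2 ctr = 3 * k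
    · have hxR : p.1 ∈ box R := by
        have : p.1 ∈ OB k z := by
          show dst p.1 ctr ≤ 3 * k
          have : dst p.1 ctr ≤ k := hx
          omega
        exact_mod_cast hOB this
      have hyR : p.2 ∈ box R := by exact_mod_cast hOB (show p.2 ∈ OB k z from hy)
      have hl1 := l1_ge hx hd
      have hl2 := l1_le hx hd
      have hl1' : (2 * k : ℝ) ≤ l1 p.1 p.2 := by exact_mod_cast hl1
      have hl2' : (l1 p.1 p.2 : ℝ) ≤ 8 * k := by exact_mod_cast hl2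
      refine le_trans (measureReal_mono ?_) (pair_bound hm hind hF hr hW hrb hxR hyR
        (hmean R _ hxR _ hyR) (by linarith) (K := K) ?_ ht0 ?_)
      · exact fun ω hω => hω.2
      · rw [hK]
        push_cast
        have := Nat.le_ceil (2 / r)
        rw [← hk₁] at this
        linarith
      · rw [ht]
        have := mul_le_mul_of_nonneg_left hl1' (show 0 ≤ c - r by linarith)
        linarith
    · have : {ω : Ω | dst p.2 ctr = 3 * k ∧ ∃ q : Z2.Walk p.1 p.2, IsIn (box R) q ∧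
          wt (ext (Wb W b) ω) q < r * l1 p.1 p.2 + 2} = ∅ := by
        ext ω
        simp [hd]
      rw [this, measureReal_empty]
      positivity
  refine (Finset.sum_le_sum hE).trans ?_
  rw [Finset.sum_const, Finset.card_product, card_BxF, card_BxF, nsmul_eq_mul]
  refine le_trans ?_ (hk₂ k hk2)
  have e1 : (((2 * k + 1) ^ 2 * (2 * (3 * k) + 1) ^ 2 : ℕ) : ℝ) ≤ 441 * (k : ℝ) ^ 4 := by
    push_cast
    have a1 : (2 * (k : ℝ) + 1) ^ 2 ≤ (3 * k) ^ 2 := by
      apply pow_le_pow_left₀ (by positivity); linarith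
    have a2 : (2 * (3 * (k : ℝ)) + 1) ^ 2 ≤ (7 * k) ^ 2 := by
      apply pow_le_pow_left₀ (by positivity); linarith
    calc (2 * (k : ℝ) + 1) ^ 2 * (2 * (3 * (k : ℝ)) + 1) ^ 2 ≤ (3 * k) ^ 2 * (7 * k) ^ 2 :=
          mul_le_mul a1 a2 (by positivity) (by positivity)
      _ = 441 * (k : ℝ) ^ 4 := by ring
  have e2 : Real.exp (-(t / (2 * b * Real.sqrt (K + 1)))) ≤ Real.exp (-(γ * Real.sqrt k)) := by
    apply Real.exp_le_exp.2
    apply neg_le_neg
    have hsq : Real.sqrt (K + 1) ≤ 3 * Real.sqrt k := by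
      rw [Real.sqrt_le_left (by positivity), mul_pow, Real.sq_sqrt (by positivity), hK]
      push_cast
      have : (k₁ : ℝ) + 1 ≤ k := by exact_mod_cast hk1
      linarith
    have hsk : 0 < Real.sqrt k := Real.sqrt_pos.2 (by linarith)
    have hsK : 0 < Real.sqrt (K + 1) := Real.sqrt_pos.2 (by positivity)
    rw [le_div_iff₀ (by positivity)]
    calc γ * Real.sqrt k * (2 * b * Real.sqrt (K + 1)) ≤
          γ * Real.sqrt k * (2 * b * (3 * Real.sqrt k)) := by
          apply mul_le_mul_of_nonneg_left _ (by positivity)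
          apply mul_le_mul_of_nonneg_left hsq (by positivity)
      _ = (c - r) * (Real.sqrt k) ^ 2 := by
          rw [hγ]; field_simp; ring
      _ = (c - r) * k := by rw [Real.sq_sqrt (by positivity)]
      _ ≤ t := ht1
  calc (((2 * k + 1) ^ 2 * (2 * (3 * k) + 1) ^ 2 : ℕ) : ℝ) *
        (4 * Real.exp (-(t / (2 * b * Real.sqrt (K + 1))))) ≤
        (441 * (k : ℝ) ^ 4) * (4 * Real.exp (-(γ * Real.sqrt k))) := by
        apply mul_le_mul e1 _ (by positivity) (by positivity)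
        linarith
    _ = 1764 * (k : ℝ) ^ 4 * Real.exp (-(γ * Real.sqrt k)) := by ring

end Pool.Agent.Helper33_FPP
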