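import Pool.Agent.Helper33_FPP.HalfProb
import Pool.Agent.Helper33_FPP.HalfGeo
import Pool.Agent.Helper33_FPP.PercLaw
import Pool.Agent.Helper33_FPP.PercMono

/-!
# Peierls bound for all low probabilities below one half, given a small annulus crossing probability
-/

set_option autoImplicit false

namespace Pool.Agent.Helper33_FPP

open Finset

namespace HalfAux

lemma tr_inj (c : ℤ × ℤ) : Function.Injective (tr c) := by
  intro a b h
  simp only [tr, Prod.mk.injEq] at h
  exact Prod.ext (by omega) (by omega)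

lemma map_tr_mem {k m : ℕ} {z : ℤ × ℤ} (h1 : (ctr k z).1.natAbs + 3 * k ≤ m)
    (h2 : (ctr k z).2.natAbs + 3 * k ≤ m) {e : Sym2 (ℤ × ℤ)} (he : e ∈ edgesIn (3 * k)) :
    Sym2.map (tr (ctr k z)) e ∈ edgesIn m := by
  induction e using Sym2.ind with
  | _ a b =>
    rw [Sym2.map_mk, mem_edgesIn]
    rw [mem_edgesIn] at he
    obtain ⟨ha, hb, hadj⟩ := he
    rw [mem_box] at ha hb
    push_cast at ha hb
    refine ⟨?_, ?_, ?_⟩
    · rw [mem_box]
      simp only [tr]
      omega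
    · rw [mem_box]
      simp only [tr]
      omega
    · have h : (a.1 - b.1).natAbs + (a.2 - b.2).natAbs = 1 := hadj
      show ((a.1 + (ctr k z).1) - (b.1 + (ctr k z).1)).natAbs +
        ((a.2 + (ctr k z).2) - (b.2 + (ctr k z).2)).natAbs = 1
      omega

/-- Probability of a bad block. -/
lemma Pr_badBlk {k m : ℕ} {t : ℝ} {z : ℤ × ℤ} (h1 : (ctr k z).1.natAbs + 3 * k ≤ m)
    (h2 : (ctr k z).2.natAbs + 3 * k ≤ m) :
    Pr (bern t) (fun ω : EIdx m → Bool => BadBlk k (opn ω) z) = armk t k (3 * k) :=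
  law_map (Sym2.map (tr (ctr k z))) ((Sym2.map.injective (tr_inj _)).injOn)
    (fun _ he => map_tr_mem h1 h2 he) (A0 k)

/-- Coordinates on which a bad block depends. -/
noncomputable def supp (k m : ℕ) (z : ℤ × ℤ) : Finset (EIdx m) := by
  classical
  exact Finset.univ.filter (fun i => ∃ e ∈ edgesIn (3 * k), i.1 = Sym2.map (tr (ctr k z)) e)

lemma mem_supp {k m : ℕ} {z : ℤ × ℤ} {i : EIdx m} :
    i ∈ supp k m z ↔ ∃ e ∈ edgesIn (3 * k), i.1 = Sym2.map (tr (ctr k z)) e := by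
  classical
  unfold supp
  simp

lemma badBlk_dep {k m : ℕ} {z : ℤ × ℤ} {ω ω' : EIdx m → Bool} (h : ∀ i ∈ supp k m z, ω i = ω' i) :
    BadBlk k (opn ω) z → BadBlk k (opn ω') z := by
  rintro ⟨x, hx, y, hy, hc⟩
  refine ⟨x, hx, y, hy, conn_mono (fun e he => ⟨he.1, ?_⟩) hc⟩
  obtain ⟨h1, h2⟩ := he.2
  refine ⟨h1, ?_⟩
  rw [← h _ (mem_supp.mpr ⟨e, he.1, rfl⟩)]
  exact h2

lemma supp_disj {k m : ℕ} {z z' : ℤ × ℤ} (h1 : z.1 % 3 = z'.1 % 3) (h2 : z.2 % 3 = z'.2 % 3)
    (hne : z ≠ z') : Disjoint (supp k m z) (supp k m z') := by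
  rw [Finset.disjoint_left]
  intro i hi hi'
  rw [mem_supp] at hi hi'
  obtain ⟨e, he, hie⟩ := hi
  obtain ⟨e', he', hie'⟩ := hi'
  have hee : Sym2.map (tr (ctr k z)) e = Sym2.map (tr (ctr k z')) e' := by rw [← hie, ← hie']
  have key : ∃ a ∈ box (3 * k), ∃ b ∈ box (3 * k), tr (ctr k z) a = tr (ctr k z') b := by
    induction e using Sym2.ind with
    | _ a b =>
      induction e' using Sym2.ind with
      | _ a' b' =>
        rw [mem_edgesIn] at he he'
        have : tr (ctr k z) a ∈ Sym2.map (tr (ctr k z')) s(a', b') := by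
          rw [← hee]
          simp
        rw [Sym2.mem_map] at this
        obtain ⟨w, hw, hw2⟩ := this
        rw [Sym2.mem_iff] at hw
        refine ⟨a, he.1, w, ?_, hw2.symm⟩
        rcases hw with rfl | rfl
        · exact he'.1
        · exact he'.2.1
  obtain ⟨a, ha, b, hb, hab⟩ := key
  rw [mem_box] at ha hb
  push_cast at ha hb
  simp only [tr, ctr, Prod.mk.injEq] at hab
  obtain ⟨e1, e2⟩ := hab
  have hk : (0 : ℤ) ≤ k := by positivity
  have hc : z.1 ≠ z'.1 ∨ z.2 ≠ z'.2 := by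
    by_contra hcon
    push Not at hcon
    exact hne (Prod.ext hcon.1 hcon.2)
  have fin : ∀ u u' x x' : ℤ, u % 3 = u' % 3 → u ≠ u' → -(3 * (k : ℤ)) ≤ x → x ≤ 3 * k →
      -(3 * (k : ℤ)) ≤ x' → x' ≤ 3 * k → x + (2 * k + 1) * u = x' + (2 * k + 1) * u' → False := by
    intro u u' x x' g1 g2 g3 g4 g5 g6 g7
    have : u' - u ≤ -3 ∨ 3 ≤ u' - u := by omega
    rcases this with g | g
    · nlinarith
    · nlinarith
  rcases hc with hc | hc
  · exact fin z.1 z'.1 a.1 b.1 h1 hc ha.1 ha.2.1 hb.1 hb.2.1 e1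
  · exact fin z.2 z'.2 a.2 b.2 h2 hc ha.2.2.1 ha.2.2.2 hb.2.2.1 hb.2.2.2 e2

/-- All blocks of a set are bad. -/
lemma Pr_all_bad {k m : ℕ} {t δ : ℝ} (ht0 : 0 ≤ t) (ht1 : t ≤ 1) (hδ0 : 0 ≤ δ) (hδ1 : δ ≤ 1)
    (harm : armk t k (3 * k) ≤ δ ^ 9) (T : Finset (ℤ × ℤ))
    (hT : ∀ z ∈ T, (ctr k z).1.natAbs + 3 * k ≤ m ∧ (ctr k z).2.natAbs + 3 * k ≤ m) :
    Pr (bern t) (fun ω : EIdx m → Bool => ∀ z ∈ T, BadBlk k (opn ω) z) ≤ δ ^ T.card := by
  classical
  have hp := bern_prob ht0 ht1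
  set f : ℤ × ℤ → ℤ × ℤ := fun z => (z.1 % 3, z.2 % 3) with hf
  set Q : Finset (ℤ × ℤ) := Finset.Icc 0 2 ×ˢ Finset.Icc 0 2 with hQ
  have hQc : Q.card = 9 := by
    rw [hQ, Finset.card_product, Int.card_Icc]
    rfl
  have hmaps : ∀ z ∈ T, f z ∈ Q := by
    intro z _
    simp only [hf, hQ, Finset.mem_product, Finset.mem_Icc]
    omega
  obtain ⟨r, hr, hle⟩ : ∃ r ∈ Q, T.card ≤ 9 * (T.filter (fun z => f z = r)).card := by
    apply Finset.exists_le_of_sum_le (s := Q) (f := fun _ => T.card)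
      (g := fun r => 9 * (T.filter (fun z => f z = r)).card)
    · rw [← Finset.card_pos, hQc]; norm_num
    · rw [← Finset.mul_sum, ← Finset.card_eq_sum_card_fiberwise hmaps, Finset.sum_const, hQc]
      simp
  set T' := T.filter (fun z => f z = r) with hT'
  calc Pr (bern t) (fun ω : EIdx m → Bool => ∀ z ∈ T, BadBlk k (opn ω) z)
      ≤ Pr (bern t) (fun ω : EIdx m → Bool => ∀ z ∈ T', BadBlk k (opn ω) z) :=
        Pr_mono hp fun ω h z hz => h z (Finset.mem_of_mem_filter z hz)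
    _ = ∏ z ∈ T', Pr (bern t) (fun ω : EIdx m → Bool => BadBlk k (opn ω) z) := by
        refine Pr_forall hp T' (supp k m) (fun z ω => BadBlk k (opn ω) z) ?_ ?_
        · intro a ha b hb hab
          rw [hT', Finset.mem_filter] at ha hb
          have h1 := ha.2.trans hb.2.symm
          simp only [hf, Prod.mk.injEq] at h1
          exact supp_disj h1.1 h1.2 hab
        · intro a _ ω ω' h
          exact badBlk_dep h
    _ ≤ ∏ z ∈ T', δ ^ 9 := by
        refine Finset.prod_le_prod (fun z _ => Pr_nonneg hp _) fun z hz => ?_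
        obtain ⟨h1, h2⟩ := hT z (Finset.mem_of_mem_filter z hz)
        rw [Pr_badBlk h1 h2]
        exact harm
    _ = δ ^ (9 * T'.card) := by rw [Finset.prod_const, ← pow_mul]
    _ ≤ δ ^ T.card := pow_le_pow_of_le_one hδ0 hδ1 hle

/-- The event in question, for a configuration of open edges. -/
def Ev (k R m₀ : ℕ) (O : Sym2 (ℤ × ℤ) → Prop) : Prop :=
  ∃ (x y : ℤ × ℤ) (q : Z2.Walk x y), q.IsPath ∧ (∀ v ∈ q.support, v ∈ box R) ∧
    m₀ ≤ q.length ∧ 18 * (2 * k + 1) ^ 2 * cnt O q < q.length + 1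

lemma cnt_mono {O O' : Sym2 (ℤ × ℤ) → Prop} {x y : ℤ × ℤ} (q : Z2.Walk x y)
    (h : ∀ e ∈ q.edges, O e → O' e) : cnt O' q ≤ cnt O q := by
  classical
  unfold cnt
  rw [← List.countP_eq_length_filter, ← List.countP_eq_length_filter]
  apply List.countP_mono_left
  intro e he h1
  simp only [decide_not, Bool.not_eq_eq_eq_not, Bool.not_true, decide_eq_false_iff_not] at h1 ⊢
  exact fun h2 => h1 (h e he h2)

lemma Ev_mono {k R m₀ : ℕ} {O O' : Sym2 (ℤ × ℤ) → Prop} (h : ∀ e ∈ edgesIn R, O e → O' e) :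
    Ev k R m₀ O → Ev k R m₀ O' := by
  rintro ⟨x, y, q, h1, h2, h3, h4⟩
  refine ⟨x, y, q, h1, h2, h3, lt_of_le_of_lt (Nat.mul_le_mul_left _ (cnt_mono q fun e he => ?_)) h4⟩
  apply h
  have h5 := q.edges_subset_edgeSet he
  induction e using Sym2.ind with
  | _ a b =>
    rw [mem_edgesIn]
    exact ⟨h2 a (q.fst_mem_support_of_mem_edges he), h2 b (q.snd_mem_support_of_mem_edges he), h5⟩

lemma blk_bound {k R : ℕ} {v : ℤ × ℤ} (hv : v ∈ box R) : blk k v ∈ box R := by
  rw [mem_box] at hv ⊢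
  have hpos : (0 : ℤ) < 2 * k + 1 := by positivity
  have hk : (0 : ℤ) ≤ k := by positivity
  have hR : (0 : ℤ) ≤ R := by positivity
  simp only [blk]
  refine ⟨?_, ?_, ?_, ?_⟩
  · rw [Int.le_ediv_iff_mul_le hpos]
    nlinarith
  · rw [← Int.lt_add_one_iff, Int.ediv_lt_iff_lt_mul hpos]
    nlinarith
  · rw [Int.le_ediv_iff_mul_le hpos]
    nlinarith
  · rw [← Int.lt_add_one_iff, Int.ediv_lt_iff_lt_mul hpos]
    nlinarith

/-- Union bound over animals of blocks. -/
theorem Ev_bound {k R m₀ : ℕ} {t : ℝ} (ht0 : 0 ≤ t) (ht1 : t ≤ 1)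
    (harm : armk t k (3 * k) ≤ (1 / 64 : ℝ) ^ 18) (hm : (6 * k + 1) ^ 2 ≤ m₀) :
    Pr (bern t) (fun ω : EIdx R → Bool => Ev k R m₀ (opn ω)) ≤
      2 * (2 * R + 1) ^ 2 * (1 / 2 : ℝ) ^ (m₀ / (2 * k + 1) ^ 2 + 1) := by
  classical
  have hp := bern_prob ht0 ht1
  set M : ℕ := (2 * k + 1) * R + 3 * k with hM
  have hRM : R ≤ M := by rw [hM]; nlinarith [Nat.zero_le (k * R)]
  set n₀ : ℕ := m₀ / (2 * k + 1) ^ 2 + 1 with hn₀
  set N : ℕ := (box R).card with hN
  -- transfer to the larger box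
  have hlaw := law_map (n := R) (m := M) (t := t) id (Function.injective_id.injOn)
    (fun e he => by
      induction e using Sym2.ind with
      | _ a b =>
        simp only [id]
        rw [mem_edgesIn, mem_box, mem_box] at he ⊢
        obtain ⟨h1, h2, h3⟩ := he
        refine ⟨?_, ?_, h3⟩ <;> omega) (Ev k R m₀)
  rw [← hlaw]
  set 𝒮 : ℤ × ℤ → ℕ → Finset (Finset (ℤ × ℤ)) := fun x n => (box R).powerset.filter
    (fun S => blk k x ∈ S ∧ S.card = n ∧ (Z2.induce (S : Set (ℤ × ℤ))).Preconnected) with h𝒮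
  set 𝒯 : Finset (ℤ × ℤ) → Finset (Finset (ℤ × ℤ)) := fun S =>
    S.powerset.filter (fun T => S.card ≤ 2 * T.card) with h𝒯
  have hstep : Pr (bern t) (fun ω : EIdx M → Bool => Ev k R m₀ (fun e => e ∈ edgesIn R ∧ opn ω (id e)))
      ≤ Pr (bern t) (fun ω : EIdx M → Bool => ∃ x ∈ box R, ∃ n ∈ Finset.Ico n₀ (N + 1),
        ∃ S ∈ 𝒮 x n, ∃ T ∈ 𝒯 S, ∀ z ∈ T, BadBlk k (opn ω) z) := by
    apply Pr_mono hp
    rintro ω ⟨x, y, q, h1, h2, h3, h4⟩
    obtain ⟨S, hS1, hS2, hS3, hS4, T, hT1, hT2, hT3⟩ := many_bad q h1 (hm.trans h3) h4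
    have hSR : S ⊆ box R := by
      intro z hz
      obtain ⟨v, hv, rfl⟩ := hS1 z hz
      exact blk_bound (h2 v hv)
    refine ⟨x, h2 x q.start_mem_support, S.card, ?_, S, ?_, T, ?_, ?_⟩
    · rw [Finset.mem_Ico]
      refine ⟨?_, Nat.lt_succ_of_le (Finset.card_le_card hSR)⟩
      have h5 : m₀ < (2 * k + 1) ^ 2 * S.card := by omega
      exact Nat.succ_le_of_lt (Nat.div_lt_of_lt_mul h5)
    · simp only [h𝒮, Finset.mem_filter, Finset.mem_powerset]
      exact ⟨hSR, hS2, trivial, hS3⟩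
    · simp only [h𝒯, Finset.mem_filter, Finset.mem_powerset]
      exact ⟨hT1, hT2⟩
    · intro z hz
      exact badBlk_mono (fun e he => he.2) (hT3 z hz)
  refine hstep.trans ?_
  refine (Pr_exists_le hp _ _).trans ?_
  have hinner : ∀ x ∈ box R, ∀ n, ∀ S ∈ 𝒮 x n, ∀ T ∈ 𝒯 S,
      Pr (bern t) (fun ω : EIdx M → Bool => ∀ z ∈ T, BadBlk k (opn ω) z) ≤ (1 / 64 : ℝ) ^ n := by
    intro x _ n S hS T hT
    simp only [h𝒮, Finset.mem_filter, Finset.mem_powerset] at hS
    simp only [h𝒯, Finset.mem_filter, Finset.mem_powerset] at hT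
    have h1 := Pr_all_bad (m := M) (δ := (1 / 64 : ℝ) ^ 2) ht0 ht1 (by positivity) (by norm_num)
      (by rw [← pow_mul]; exact harm) T (fun z hz => by
        have h2 := hS.1 (hT.1 hz)
        rw [mem_box] at h2
        have e1 : (ctr k z).1.natAbs = (2 * k + 1) * z.1.natAbs := by
          simp only [ctr, Int.natAbs_mul]
          congr 1
        have e2 : (ctr k z).2.natAbs = (2 * k + 1) * z.2.natAbs := by
          simp only [ctr, Int.natAbs_mul]
          congr 1
        have e3 : z.1.natAbs ≤ R := by omega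
        have e4 : z.2.natAbs ≤ R := by omega
        rw [e1, e2, hM]
        exact ⟨Nat.add_le_add_right (Nat.mul_le_mul_left _ e3) _,
          Nat.add_le_add_right (Nat.mul_le_mul_left _ e4) _⟩)
    refine h1.trans ?_
    rw [← pow_mul]
    apply pow_le_pow_of_le_one (by norm_num) (by norm_num)
    rw [← hS.2.2.1]
    exact hT.2
  have hx : ∀ x ∈ box R, Pr (bern t) (fun ω : EIdx M → Bool => ∃ n ∈ Finset.Ico n₀ (N + 1),
      ∃ S ∈ 𝒮 x n, ∃ T ∈ 𝒯 S, ∀ z ∈ T, BadBlk k (opn ω) z) ≤ 2 * (1 / 2 : ℝ) ^ n₀ := by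
    intro x hx
    calc _ ≤ ∑ n ∈ Finset.Ico n₀ (N + 1), Pr (bern t) (fun ω : EIdx M → Bool =>
          ∃ S ∈ 𝒮 x n, ∃ T ∈ 𝒯 S, ∀ z ∈ T, BadBlk k (opn ω) z) := Pr_exists_le hp _ _
      _ ≤ ∑ n ∈ Finset.Ico n₀ (N + 1), (1 / 2 : ℝ) ^ n := by
          refine Finset.sum_le_sum fun n _ => ?_
          calc _ ≤ ∑ S ∈ 𝒮 x n, Pr (bern t) (fun ω : EIdx M → Bool =>
                ∃ T ∈ 𝒯 S, ∀ z ∈ T, BadBlk k (opn ω) z) := Pr_exists_le hp _ _
            _ ≤ ∑ S ∈ 𝒮 x n, (2 : ℝ) ^ n * (1 / 64) ^ n := by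
                refine Finset.sum_le_sum fun S hS => ?_
                calc _ ≤ ∑ T ∈ 𝒯 S, Pr (bern t) (fun ω : EIdx M → Bool =>
                      ∀ z ∈ T, BadBlk k (opn ω) z) := Pr_exists_le hp _ _
                  _ ≤ ∑ T ∈ 𝒯 S, (1 / 64 : ℝ) ^ n :=
                      Finset.sum_le_sum fun T hT => hinner x hx n S hS T hT
                  _ = ((𝒯 S).card : ℝ) * (1 / 64 : ℝ) ^ n := by simp
                  _ ≤ (2 : ℝ) ^ n * (1 / 64) ^ n := by
                      refine mul_le_mul_of_nonneg_right ?_ (by positivity)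
                      have h1 : (𝒯 S).card ≤ 2 ^ n := by
                        have h2 : (𝒯 S).card ≤ S.powerset.card := Finset.card_filter_le _ _
                        rw [Finset.card_powerset] at h2
                        simp only [h𝒮, Finset.mem_filter] at hS
                        rw [hS.2.2.1] at h2
                        exact h2
                      exact_mod_cast h1
            _ = ((𝒮 x n).card : ℝ) * ((2 : ℝ) ^ n * (1 / 64) ^ n) := by simp
            _ ≤ (16 : ℝ) ^ n * ((2 : ℝ) ^ n * (1 / 64) ^ n) := by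
                refine mul_le_mul_of_nonneg_right ?_ (by positivity)
                have h1 : (𝒮 x n).card ≤ 16 ^ n := by
                  apply animal_count n (blk k x)
                  intro S hS
                  simp only [h𝒮, Finset.mem_filter] at hS
                  exact hS.2
                exact_mod_cast h1
            _ = (1 / 2 : ℝ) ^ n := by
                rw [← mul_pow, ← mul_pow]
                norm_num
      _ ≤ (1 / 2 : ℝ) ^ n₀ / (1 - 1 / 2) := geom_sum_Ico_le_of_lt_one (by norm_num) (by norm_num)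
      _ = 2 * (1 / 2 : ℝ) ^ n₀ := by ring
  calc _ ≤ ∑ x ∈ box R, 2 * (1 / 2 : ℝ) ^ n₀ := Finset.sum_le_sum hx
    _ = (N : ℝ) * (2 * (1 / 2 : ℝ) ^ n₀) := by simp [hN]
    _ = 2 * (2 * R + 1) ^ 2 * (1 / 2 : ℝ) ^ n₀ := by
        rw [hN, PeierlsAux.card_box]
        push_cast
        ring

end HalfAux

open HalfAux

/-- Peierls bound for `p₀ < 1 / 2`, given smallness of some annulus crossing probability. -/
theorem peierls_half_of (p₀ : ℝ) (h0 : 0 ≤ p₀) (h1 : p₀ < 1 / 2)
    (hann : ∃ k : ℕ, 1 ≤ k ∧ armk p₀ k (3 * k) ≤ (1 / 64 : ℝ) ^ 18) : ∃ θ : ℝ, 0 < θ ∧ θ ≤ 1 ∧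
    ∃ ρ : ℝ, 0 < ρ ∧ ρ < 1 ∧ ∃ C : ℝ, 0 < C ∧
    ∀ (V : Type) [Fintype V] (p : V → ℝ) (val : V → ℝ) (hi : ℝ), IsProb p →
      (∑ v, if val v < hi then p v else 0) ≤ p₀ → ∀ R m₀ : ℕ,
      Pr p (fun ω : EIdx R → V => ¬ PGood R m₀ θ hi (wOf val ω)) ≤
        C * (2 * R + 1) ^ 2 * ρ ^ m₀ := by
  classical
  obtain ⟨k, -, hk⟩ := hann
  set D : ℕ := (2 * k + 1) ^ 2 with hD
  have hDpos : 0 < D := by rw [hD]; positivity
  have hD1 : (1 : ℝ) ≤ D := by exact_mod_cast hDpos
  set ρ : ℝ := (1 / 2 : ℝ) ^ ((1 : ℝ) / D) with hρ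
  have hρ0 : 0 < ρ := Real.rpow_pos_of_pos (by norm_num) _
  have hρ1 : ρ < 1 := Real.rpow_lt_one (by norm_num) (by norm_num) (by positivity)
  have hρD : ρ ^ D = 1 / 2 := by
    rw [hρ, ← Real.rpow_natCast, ← Real.rpow_mul (by norm_num)]
    rw [one_div_mul_cancel (by positivity), Real.rpow_one]
  set K : ℕ := (6 * k + 1) ^ 2 with hK
  refine ⟨1 / (18 * D), by positivity, ?_, ρ, hρ0, hρ1, 2 + (1 / ρ) ^ K, by positivity, ?_⟩
  · rw [div_le_one (by positivity)]
    linarith
  intro V _ p val hi hp hlow R m₀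
  have hsq : (1 : ℝ) ≤ (2 * R + 1) ^ 2 := by
    have : (0 : ℝ) ≤ R := by positivity
    nlinarith
  rcases Nat.lt_or_ge m₀ K with hm | hm
  · calc Pr p _ ≤ 1 := Pr_le_one hp _
      _ ≤ (1 / ρ) ^ K * ρ ^ m₀ := by
          have h2 : ρ ^ K ≤ ρ ^ m₀ := pow_le_pow_of_le_one hρ0.le hρ1.le hm.le
          calc (1 : ℝ) = (1 / ρ) ^ K * ρ ^ K := by
                rw [← mul_pow, one_div_mul_cancel hρ0.ne', one_pow]
            _ ≤ _ := mul_le_mul_of_nonneg_left h2 (by positivity)
      _ ≤ (2 + (1 / ρ) ^ K) * (2 * R + 1) ^ 2 * ρ ^ m₀ := by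
          refine mul_le_mul_of_nonneg_right ?_ (by positivity)
          have h3 : (0 : ℝ) < (1 / ρ) ^ K := by positivity
          nlinarith
  · set s : ℝ := ∑ v, if val v < hi then p v else 0 with hs
    have hs0 : 0 ≤ s := Finset.sum_nonneg fun v _ => by
      split_ifs
      · exact hp.nonneg v
      · exact le_rfl
    have hstep1 : Pr p (fun ω : EIdx R → V => ¬ PGood R m₀ (1 / (18 * D)) hi (wOf val ω)) ≤
        Pr p (fun ω : EIdx R → V => (fun η : EIdx R → Bool => Ev k R m₀ (opn η))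
          (fun i => decide (val (ω i) < hi))) := by
      apply Pr_mono hp
      intro ω hω
      unfold PGood at hω
      push Not at hω
      obtain ⟨x, y, q, hq, hbox, hlen, hlt⟩ := hω
      refine ⟨x, y, q, hq, hbox, hlen, ?_⟩
      have hcnt : cnt (opn (fun i : EIdx R => decide (val (ω i) < hi))) q =
          (q.edges.filter (fun e => hi ≤ wOf val ω e)).length := by
        unfold cnt
        congr 1
        apply List.filter_congr
        intro e he
        have hin : e ∈ edgesIn R := by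
          have h5 := q.edges_subset_edgeSet he
          induction e using Sym2.ind with
          | _ a b =>
            rw [HalfAux.mem_edgesIn]
            exact ⟨hbox a (q.fst_mem_support_of_mem_edges he),
              hbox b (q.snd_mem_support_of_mem_edges he), h5⟩
        have e1 : wOf val ω e = val (ω ⟨e, hin⟩) := by
          unfold wOf
          rw [dif_pos hin]
        have e2 : opn (fun i : EIdx R => decide (val (ω i) < hi)) e ↔ val (ω ⟨e, hin⟩) < hi := by
          unfold opn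
          constructor
          · rintro ⟨_, h⟩
            simpa using h
          · intro h
            exact ⟨hin, by simpa using h⟩
        rw [e1]
        simp only [e2, not_lt]
      have h6 : (18 * D * (cnt (opn (fun i : EIdx R => decide (val (ω i) < hi))) q) : ℝ) <
          (q.length : ℝ) + 1 := by
        rw [hcnt]
        have h7 : ((q.edges.filter (fun e => hi ≤ wOf val ω e)).length : ℝ) <
            1 / (18 * D) * q.length := by
          convert hlt
        have h8 : (18 * D * ((q.edges.filter (fun e => hi ≤ wOf val ω e)).length : ℝ)) <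
            18 * D * (1 / (18 * D) * q.length) := mul_lt_mul_of_pos_left h7 (by positivity)
        have h9 : 18 * (D : ℝ) * (1 / (18 * D) * q.length) = q.length := by
          field_simp
        rw [h9] at h8
        linarith
      rw [← hD]
      exact_mod_cast h6
    refine hstep1.trans ?_
    have hpush := Pr_push (ι := EIdx R) hp (fun v => decide (val v < hi))
      (fun η : EIdx R → Bool => Ev k R m₀ (opn η))
    simp only [decide_eq_true_eq] at hpush
    rw [← hs] at hpush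
    have hmono : Pr (bern s) (fun η : EIdx R → Bool => Ev k R m₀ (opn η)) ≤
        Pr (bern p₀) (fun η : EIdx R → Bool => Ev k R m₀ (opn η)) := by
      apply Pr_bern_mono hs0 hlow (by linarith)
      intro η η' hη h
      refine Ev_mono (fun e _ he => ?_) h
      obtain ⟨h2, h3⟩ := he
      exact ⟨h2, hη _ h3⟩
    have hb := Ev_bound (R := R) h0 (by linarith) hk hm
    rw [← hD] at hb
    calc _ = Pr (bern s) (fun η : EIdx R → Bool => Ev k R m₀ (opn η)) := hpush
      _ ≤ _ := hmono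
      _ ≤ _ := hb
      _ ≤ 2 * (2 * R + 1) ^ 2 * ρ ^ m₀ := by
          refine mul_le_mul_of_nonneg_left ?_ (by positivity)
          rw [← hρD, ← pow_mul]
          apply pow_le_pow_of_le_one hρ0.le hρ1.le
          have h2 := Nat.lt_mul_div_succ m₀ hDpos
          exact h2.le
      _ ≤ (2 + (1 / ρ) ^ K) * (2 * R + 1) ^ 2 * ρ ^ m₀ := by
          refine mul_le_mul_of_nonneg_right ?_ (by positivity)
          refine mul_le_mul_of_nonneg_right ?_ (by positivity)
          have h3 : (0 : ℝ) < (1 / ρ) ^ K := by positivity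
          linarith

end Pool.Agent.Helper33_FPP
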