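import Pool.Agent.Helper33_FPP.Block
import Pool.Agent.Helper33_FPP.PeierlsHalfCore

/-!
# PC3: a long path visits many good blocks (Peierls argument for blocks)
-/

set_option autoImplicit false

namespace Pool.Agent.Helper33_FPP

open Finset

namespace BlockPeiAux

open HalfAux

lemma mem_vis {k : ℕ} {x y : ℤ × ℤ} {q : Z2.Walk x y} {z : ℤ × ℤ} :
    z ∈ vis k q ↔ ∃ v ∈ q.support, blk k v = z := by
  classical
  unfold vis
  simp [Finset.mem_image]

lemma vis_card {k : ℕ} {x y : ℤ × ℤ} {q : Z2.Walk x y} (hq : q.IsPath) :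
    q.length + 1 ≤ (2 * k + 1) ^ 2 * (vis k q).card := by
  classical
  have hcard : q.support.toFinset.card = q.length + 1 := by
    rw [List.toFinset_card_of_nodup hq.support_nodup, SimpleGraph.Walk.length_support]
  have hv : vis k q = q.support.toFinset.image (blk k) := by
    unfold vis
    congr
  rw [hv, ← hcard]
  apply Finset.card_le_mul_card_image
  intro z _
  calc (q.support.toFinset.filter (fun v => blk k v = z)).card
      ≤ ((box k).image (tr (ctr k z))).card := by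
        apply Finset.card_le_card
        intro v hv
        rw [Finset.mem_filter] at hv
        rw [Finset.mem_image]
        obtain ⟨a1, a2, a3, a4⟩ := blk_spec k v
        rw [hv.2] at a1 a2 a3 a4
        refine ⟨(v.1 - (ctr k z).1, v.2 - (ctr k z).2), ?_, ?_⟩
        · rw [HalfAux.mem_box]
          exact ⟨a1, a2, a3, a4⟩
        · simp [tr]
    _ ≤ (box k).card := Finset.card_image_le
    _ = (2 * k + 1) ^ 2 := PeierlsAux.card_box k

lemma vis_connected {k : ℕ} {x y : ℤ × ℤ} (q : Z2.Walk x y) :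
    (Z2.induce (vis k q : Set (ℤ × ℤ))).Preconnected := by
  have hS' : ∀ v ∈ q.support, blk k v ∈ (vis k q : Set (ℤ × ℤ)) := fun v hv =>
    Finset.mem_coe.2 (mem_vis.2 ⟨v, hv, rfl⟩)
  have hfrom : ∀ z : (vis k q : Set (ℤ × ℤ)), (Z2.induce (vis k q : Set (ℤ × ℤ))).Reachable
      ⟨blk k x, hS' x q.start_mem_support⟩ z := by
    rintro ⟨z, hz⟩
    obtain ⟨v, hv, rfl⟩ := mem_vis.1 (Finset.mem_coe.1 hz)
    exact visited_reachable q hS' v hv
  intro z z'
  exact (hfrom z).symm.trans (hfrom z')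

/-- pigeonhole for the nine classes -/
lemma exists_class (T : Finset (ℤ × ℤ)) : ∃ T' ⊆ T, (∀ z ∈ T', ∀ z' ∈ T', Same z z') ∧
    T.card ≤ 9 * T'.card := by
  classical
  set f : ℤ × ℤ → ℤ × ℤ := fun z => (z.1 % 3, z.2 % 3) with hf
  set Q : Finset (ℤ × ℤ) := Finset.Icc 0 2 ×ˢ Finset.Icc 0 2 with hQ
  have hQc : Q.card = 9 := by
    rw [hQ, Finset.card_product, Int.card_Icc]
    rfl
  have hmaps : ∀ z ∈ T, f z ∈ Q := by
    intro z _
    simp only [hf, hQ, Finset.mem_product, Finset.mem_Icc]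
    omega
  obtain ⟨r, hr, hle⟩ : ∃ r ∈ Q, T.card ≤ 9 * (T.filter (fun z => f z = r)).card := by
    apply Finset.exists_le_of_sum_le (s := Q) (f := fun _ => T.card)
      (g := fun r => 9 * (T.filter (fun z => f z = r)).card)
    · rw [← Finset.card_pos, hQc]; norm_num
    · rw [← Finset.mul_sum, ← Finset.card_eq_sum_card_fiberwise hmaps, Finset.sum_const, hQc]
      simp
  refine ⟨T.filter (fun z => f z = r), Finset.filter_subset _ _, ?_, hle⟩
  intro z hz z' hz'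
  rw [Finset.mem_filter] at hz hz'
  have h1 := hz.2.trans hz'.2.symm
  simp only [hf, Prod.mk.injEq] at h1
  exact h1

end BlockPeiAux

open BlockPeiAux HalfAux

theorem block_peierls (k : ℕ) : ∃ C ρ : ℝ, 0 < C ∧ 0 < ρ ∧ ρ < 1 ∧
    ∀ {Ω : Type} (μ : (Ω → Prop) → ℝ), (∀ E, 0 ≤ μ E) → (∀ E, μ E ≤ 1) →
      (∀ E E' : Ω → Prop, (∀ ω, E ω → E' ω) → μ E ≤ μ E') →
      (∀ {κ : Type} (s : Finset κ) (E : κ → Ω → Prop),
        μ (fun ω => ∃ i ∈ s, E i ω) ≤ ∑ i ∈ s, μ (E i)) →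
      ∀ (D : Set (ℤ × ℤ)) (Good : ℤ × ℤ → Ω → Prop),
      (∀ T : Finset (ℤ × ℤ), (∀ z ∈ T, z ∈ D) → (∀ z ∈ T, ∀ z' ∈ T, Same z z') →
        μ (fun ω => ∀ z ∈ T, ¬ Good z ω) ≤ ((1 / 64 : ℝ) ^ 18) ^ T.card) →
      ∀ R m₀ : ℕ, μ (fun ω => ∃ (x y : ℤ × ℤ) (q : Z2.Walk x y), q.IsPath ∧
        (∀ v ∈ q.support, v ∈ box R ∧ HalfAux.blk k v ∈ D) ∧ m₀ ≤ q.length ∧
        2 * (2 * k + 1) ^ 2 * gcount (fun z => Good z ω) k q < q.length) ≤
          C * (2 * R + 1) ^ 2 * ρ ^ m₀ := by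
  classical
  set d : ℕ := (2 * k + 1) ^ 2 with hd
  have hdpos : 0 < d := by rw [hd]; positivity
  have hd1 : (1 : ℝ) ≤ d := by exact_mod_cast hdpos
  set ρ : ℝ := (1 / 2 : ℝ) ^ ((1 : ℝ) / d) with hρ
  have hρ0 : 0 < ρ := Real.rpow_pos_of_pos (by norm_num) _
  have hρ1 : ρ < 1 := Real.rpow_lt_one (by norm_num) (by norm_num) (by positivity)
  have hρD : ρ ^ d = 1 / 2 := by
    rw [hρ, ← Real.rpow_natCast, ← Real.rpow_mul (by norm_num)]
    rw [one_div_mul_cancel (by positivity), Real.rpow_one]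
  refine ⟨2, ρ, by norm_num, hρ0, hρ1, ?_⟩
  intro Ω μ hμ0 hμ1 hmono hsub D Good hbad R m₀
  set n₀ : ℕ := m₀ / d + 1 with hn₀
  set N : ℕ := (box R).card with hN
  set 𝒮 : ℤ × ℤ → ℕ → Finset (Finset (ℤ × ℤ)) := fun x n => (box R).powerset.filter
    (fun S => (∀ z ∈ S, z ∈ D) ∧ blk k x ∈ S ∧ S.card = n ∧
      (Z2.induce (S : Set (ℤ × ℤ))).Preconnected) with h𝒮
  set 𝒯 : Finset (ℤ × ℤ) → Finset (Finset (ℤ × ℤ)) := fun S =>
    S.powerset.filter (fun T => S.card ≤ 2 * T.card) with h𝒯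
  have hstep : μ (fun ω => ∃ (x y : ℤ × ℤ) (q : Z2.Walk x y), q.IsPath ∧
        (∀ v ∈ q.support, v ∈ box R ∧ HalfAux.blk k v ∈ D) ∧ m₀ ≤ q.length ∧
        2 * d * gcount (fun z => Good z ω) k q < q.length)
      ≤ μ (fun ω => ∃ x ∈ box R, ∃ n ∈ Finset.Ico n₀ (N + 1),
        ∃ S ∈ 𝒮 x n, ∃ T ∈ 𝒯 S, ∀ z ∈ T, ¬ Good z ω) := by
    apply hmono
    rintro ω ⟨x, y, q, h1, h2, h3, h4⟩
    have h5 := vis_card (k := k) h1
    rw [← hd] at h5
    have hSR : vis k q ⊆ box R := by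
      intro z hz
      obtain ⟨v, hv, rfl⟩ := mem_vis.1 hz
      exact blk_bound (h2 v hv).1
    refine ⟨x, (h2 x q.start_mem_support).1, (vis k q).card, ?_, vis k q, ?_,
      (vis k q).filter (fun z => ¬ Good z ω), ?_, ?_⟩
    · rw [Finset.mem_Ico]
      refine ⟨?_, Nat.lt_succ_of_le (Finset.card_le_card hSR)⟩
      have h6 : m₀ < d * (vis k q).card := by omega
      exact Nat.succ_le_of_lt (Nat.div_lt_of_lt_mul h6)
    · simp only [h𝒮, Finset.mem_filter, Finset.mem_powerset]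
      refine ⟨hSR, fun z hz => ?_, mem_vis.2 ⟨x, q.start_mem_support, rfl⟩, trivial,
        vis_connected q⟩
      obtain ⟨v, hv, rfl⟩ := mem_vis.1 hz
      exact (h2 v hv).2
    · simp only [h𝒯, Finset.mem_filter, Finset.mem_powerset]
      refine ⟨Finset.filter_subset _ _, ?_⟩
      have h6 := Finset.card_filter_add_card_filter_not (s := vis k q) (fun z => Good z ω)
      have h7 : gcount (fun z => Good z ω) k q = ((vis k q).filter (fun z => Good z ω)).card := by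
        unfold gcount
        congr
      rw [h7] at h4
      have h8 : d * (2 * ((vis k q).filter (fun z => Good z ω)).card) < d * (vis k q).card := by
        calc d * (2 * ((vis k q).filter (fun z => Good z ω)).card)
            = 2 * d * ((vis k q).filter (fun z => Good z ω)).card := by ring
          _ < q.length := h4
          _ ≤ _ := by omega
      have h9 := Nat.lt_of_mul_lt_mul_left h8
      omega
    · intro z hz
      exact (Finset.mem_filter.1 hz).2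
  refine hstep.trans ?_
  refine (hsub _ _).trans ?_
  have hinner : ∀ x ∈ box R, ∀ n, ∀ S ∈ 𝒮 x n, ∀ T ∈ 𝒯 S,
      μ (fun ω => ∀ z ∈ T, ¬ Good z ω) ≤ (1 / 64 : ℝ) ^ n := by
    intro x _ n S hS T hT
    simp only [h𝒮, Finset.mem_filter, Finset.mem_powerset] at hS
    simp only [h𝒯, Finset.mem_filter, Finset.mem_powerset] at hT
    obtain ⟨T', hT', hsame, hcard⟩ := exists_class T
    have h1 := hbad T' (fun z hz => hS.2.1 z (hT.1 (hT' hz))) hsame
    refine (hmono _ (fun ω => ∀ z ∈ T', ¬ Good z ω) fun ω h z hz => h z (hT' hz)).trans ?_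
    refine h1.trans ?_
    rw [← pow_mul]
    apply pow_le_pow_of_le_one (by norm_num) (by norm_num)
    have h2 := hS.2.2.2.1
    have h3 := hT.2
    omega
  have hx : ∀ x ∈ box R, μ (fun ω => ∃ n ∈ Finset.Ico n₀ (N + 1),
      ∃ S ∈ 𝒮 x n, ∃ T ∈ 𝒯 S, ∀ z ∈ T, ¬ Good z ω) ≤ 2 * (1 / 2 : ℝ) ^ n₀ := by
    intro x hx
    calc _ ≤ ∑ n ∈ Finset.Ico n₀ (N + 1), μ (fun ω =>
          ∃ S ∈ 𝒮 x n, ∃ T ∈ 𝒯 S, ∀ z ∈ T, ¬ Good z ω) := hsub _ _
      _ ≤ ∑ n ∈ Finset.Ico n₀ (N + 1), (1 / 2 : ℝ) ^ n := by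
          refine Finset.sum_le_sum fun n _ => ?_
          calc _ ≤ ∑ S ∈ 𝒮 x n, μ (fun ω => ∃ T ∈ 𝒯 S, ∀ z ∈ T, ¬ Good z ω) := hsub _ _
            _ ≤ ∑ S ∈ 𝒮 x n, (2 : ℝ) ^ n * (1 / 64) ^ n := by
                refine Finset.sum_le_sum fun S hS => ?_
                calc _ ≤ ∑ T ∈ 𝒯 S, μ (fun ω => ∀ z ∈ T, ¬ Good z ω) := hsub _ _
                  _ ≤ ∑ T ∈ 𝒯 S, (1 / 64 : ℝ) ^ n :=
                      Finset.sum_le_sum fun T hT => hinner x hx n S hS T hT
                  _ = ((𝒯 S).card : ℝ) * (1 / 64 : ℝ) ^ n := by simp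
                  _ ≤ (2 : ℝ) ^ n * (1 / 64) ^ n := by
                      refine mul_le_mul_of_nonneg_right ?_ (by positivity)
                      have h1 : (𝒯 S).card ≤ 2 ^ n := by
                        have h2 : (𝒯 S).card ≤ S.powerset.card := Finset.card_filter_le _ _
                        rw [Finset.card_powerset] at h2
                        simp only [h𝒮, Finset.mem_filter] at hS
                        rw [hS.2.2.2.1] at h2
                        exact h2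
                      exact_mod_cast h1
            _ = ((𝒮 x n).card : ℝ) * ((2 : ℝ) ^ n * (1 / 64) ^ n) := by simp
            _ ≤ (16 : ℝ) ^ n * ((2 : ℝ) ^ n * (1 / 64) ^ n) := by
                refine mul_le_mul_of_nonneg_right ?_ (by positivity)
                have h1 : (𝒮 x n).card ≤ 16 ^ n := by
                  apply animal_count n (blk k x)
                  intro S hS
                  simp only [h𝒮, Finset.mem_filter] at hS
                  exact hS.2.2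
                exact_mod_cast h1
            _ = (1 / 2 : ℝ) ^ n := by
                rw [← mul_pow, ← mul_pow]
                norm_num
      _ ≤ (1 / 2 : ℝ) ^ n₀ / (1 - 1 / 2) := geom_sum_Ico_le_of_lt_one (by norm_num) (by norm_num)
      _ = 2 * (1 / 2 : ℝ) ^ n₀ := by ring
  calc _ ≤ ∑ x ∈ box R, 2 * (1 / 2 : ℝ) ^ n₀ := Finset.sum_le_sum hx
    _ = (N : ℝ) * (2 * (1 / 2 : ℝ) ^ n₀) := by simp [hN]
    _ = 2 * (2 * R + 1) ^ 2 * (1 / 2 : ℝ) ^ n₀ := by
        rw [hN, PeierlsAux.card_box]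
        push_cast
        ring
    _ ≤ 2 * (2 * R + 1) ^ 2 * ρ ^ m₀ := by
        refine mul_le_mul_of_nonneg_left ?_ (by positivity)
        rw [← hρD, ← pow_mul]
        apply pow_le_pow_of_le_one hρ0.le hρ1.le
        exact (Nat.lt_mul_div_succ m₀ hdpos).le

namespace BlockPeiAux

/-- coordinates on which the goodness of a block depends -/
noncomputable def bsupp (k R : ℕ) (z : ℤ × ℤ) : Finset (EIdx R) := by
  classical
  exact Finset.univ.filter (fun i => ∀ v ∈ i.1, v ∈ OB k z)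

lemma mem_bsupp {k R : ℕ} {z : ℤ × ℤ} {i : EIdx R} :
    i ∈ bsupp k R z ↔ ∀ v ∈ i.1, v ∈ OB k z := by
  classical
  unfold bsupp
  simp

lemma OB_disj {k : ℕ} {z z' v : ℤ × ℤ} (hs : Same z z') (hne : z ≠ z') (h1 : v ∈ OB k z)
    (h2 : v ∈ OB k z') : False := by
  obtain ⟨s1, s2⟩ := hs
  have h1' : dst v (ctr k z) ≤ 3 * k := h1
  have h2' : dst v (ctr k z') ≤ 3 * k := h2
  unfold dst at h1' h2'
  rw [max_le_iff] at h1' h2'
  simp only [ctr] at h1' h2'
  obtain ⟨a1, a2⟩ := h1'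
  obtain ⟨b1, b2⟩ := h2'
  have hk : (0 : ℤ) ≤ k := by positivity
  have hc : z.1 ≠ z'.1 ∨ z.2 ≠ z'.2 := by
    by_contra hcon
    push Not at hcon
    exact hne (Prod.ext hcon.1 hcon.2)
  have fin : ∀ u u' x : ℤ, u % 3 = u' % 3 → u ≠ u' → (x - (2 * k + 1) * u).natAbs ≤ 3 * k →
      (x - (2 * k + 1) * u').natAbs ≤ 3 * k → False := by
    intro u u' x g1 g2 g3 g4
    have g5 : -(3 * (k : ℤ)) ≤ x - (2 * k + 1) * u ∧ x - (2 * k + 1) * u ≤ 3 * k := by omega
    have g6 : -(3 * (k : ℤ)) ≤ x - (2 * k + 1) * u' ∧ x - (2 * k + 1) * u' ≤ 3 * k := by omega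
    have : u' - u ≤ -3 ∨ 3 ≤ u' - u := by omega
    rcases this with g | g
    · nlinarith
    · nlinarith
  rcases hc with hc | hc
  · exact fin z.1 z'.1 v.1 s1 hc a1 b1
  · exact fin z.2 z'.2 v.2 s2 hc a2 b2

lemma bsupp_disj {k R : ℕ} {z z' : ℤ × ℤ} (hs : Same z z') (hne : z ≠ z') :
    Disjoint (bsupp k R z) (bsupp k R z') := by
  rw [Finset.disjoint_left]
  intro i hi hi'
  rw [mem_bsupp] at hi hi'
  have hv := Sym2.out_fst_mem i.1
  exact OB_disj hs hne (hi _ hv) (hi' _ hv)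

lemma wt_congr {w w' : Sym2 (ℤ × ℤ) → ℝ} {x y : ℤ × ℤ} (q : Z2.Walk x y)
    (h : ∀ e ∈ q.edges, w e = w' e) : wt w q = wt w' q := by
  unfold wt
  congr 1
  exact List.map_congr_left h

lemma blkGood_dep {V : Type} {val : V → ℝ} {a δ : ℝ} {k R : ℕ} {z : ℤ × ℤ} {ω ω' : EIdx R → V}
    (h : ∀ i ∈ bsupp k R z, ω i = ω' i) (hg : BlkGood (wOf val ω) a δ k z) :
    BlkGood (wOf val ω') a δ k z := by
  intro x hx y hy q hq
  have h1 := hg x hx y hy q hq
  have h2 : wt (wOf val ω) q = wt (wOf val ω') q := by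
    apply wt_congr
    intro e he
    unfold wOf
    by_cases hin : e ∈ edgesIn R
    · rw [dif_pos hin, dif_pos hin]
      rw [h ⟨e, hin⟩]
      rw [mem_bsupp]
      intro v hv
      apply hq
      induction e using Sym2.ind with
      | _ a' b' =>
        rw [Sym2.mem_iff] at hv
        rcases hv with rfl | rfl
        · exact q.fst_mem_support_of_mem_edges he
        · exact q.snd_mem_support_of_mem_edges he
    · rw [dif_neg hin, dif_neg hin]
  rw [← h2]
  exact h1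

end BlockPeiAux

theorem block_peierls_fin (k : ℕ) : ∃ C ρ : ℝ, 0 < C ∧ 0 < ρ ∧ ρ < 1 ∧
    ∀ {V : Type} [Fintype V] {p : V → ℝ} (val : V → ℝ) (a δ : ℝ), IsProb p → ∀ R : ℕ,
      (∀ z : ℤ × ℤ, OB k z ⊆ (box R : Set (ℤ × ℤ)) →
        Pr p (fun ω : EIdx R → V => ¬ BlkGood (wOf val ω) a δ k z) ≤ (1 / 64 : ℝ) ^ 18) →
      ∀ m₀ : ℕ, Pr p (fun ω : EIdx R → V => ¬ BG R m₀ k a δ (wOf val ω)) ≤
        C * (2 * R + 1) ^ 2 * ρ ^ m₀ := by
  classical
  obtain ⟨C, ρ, hC, hρ0, hρ1, h⟩ := block_peierls k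
  refine ⟨C, ρ, hC, hρ0, hρ1, ?_⟩
  intro V _ p val a δ hp R hgood m₀
  have hmain := h (Ω := EIdx R → V) (fun E => Pr p E) (fun E => Pr_nonneg hp E)
    (fun E => Pr_le_one hp E) (fun E E' hEE => PeierlsAux.Pr_mono hp hEE)
    (fun s E => PeierlsAux.Pr_exists_le hp s E)
    {z | OB k z ⊆ (box R : Set (ℤ × ℤ))} (fun z ω => BlkGood (wOf val ω) a δ k z)
    (fun T hT hsame => by
      have h1 : Pr p (fun ω : EIdx R → V => ∀ z ∈ T, ¬ BlkGood (wOf val ω) a δ k z) =
          ∏ z ∈ T, Pr p (fun ω : EIdx R → V => ¬ BlkGood (wOf val ω) a δ k z) := by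
        refine Pr_forall hp T (bsupp k R) (fun z ω => ¬ BlkGood (wOf val ω) a δ k z) ?_ ?_
        · intro z hz z' hz' hne
          exact bsupp_disj (hsame z hz z' hz') hne
        · intro z _ ω ω' hω h2 h3
          exact h2 (blkGood_dep (fun i hi => (hω i hi).symm) h3)
      rw [h1]
      calc ∏ z ∈ T, Pr p (fun ω : EIdx R → V => ¬ BlkGood (wOf val ω) a δ k z)
          ≤ ∏ _z ∈ T, (1 / 64 : ℝ) ^ 18 :=
            Finset.prod_le_prod (fun z _ => Pr_nonneg hp _) fun z hz => hgood z (hT z hz)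
        _ = _ := by rw [Finset.prod_const]) R m₀
  refine (PeierlsAux.Pr_mono hp ?_).trans hmain
  intro ω hω
  unfold BG at hω
  push Not at hω
  obtain ⟨x, y, q, hq, hbox, hlen, hlt⟩ := hω
  refine ⟨x, y, q, hq, fun v hv => ⟨?_, hbox v hv⟩, hlen, hlt⟩
  have h1 := hbox v hv
  have h2 : v ∈ OB k (blk k v) := by
    obtain ⟨a1, a2, a3, a4⟩ := blk_spec k v
    change dst v (ctr k (blk k v)) ≤ 3 * k
    unfold dst
    rw [max_le_iff]
    constructor <;> omega
  exact Finset.mem_coe.1 (h1 h2)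

end Pool.Agent.Helper33_FPP
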