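import Pool.Agent.Helper33_FPP.Net

/-!
# Edges of a line in the middle part of a column
-/

set_option autoImplicit false

namespace Pool.Agent.Helper33_FPP

open Finset

variable {P : Par} {w w' : Sym2 (ℤ × ℤ) → ℝ}

/-- Edges of line `U j` in the middle part of column `i`. -/
noncomputable def Par.midE (P : Par) (w : Sym2 (ℤ × ℤ) → ℝ) (i j : ℕ) : Finset (Sym2 (ℤ × ℤ)) := by
  classical
  exact (P.lineU w j).edges.toFinset.filter
    (fun e => ∀ v ∈ e, 4 * i * P.σ + P.σ ≤ A v ∧ A v ≤ 4 * i * P.σ + 3 * P.σ)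

theorem mem_midE {i j : ℕ} {e : Sym2 (ℤ × ℤ)} : e ∈ P.midE w i j ↔ e ∈ (P.lineU w j).edges ∧
    ∀ v ∈ e, 4 * i * P.σ + P.σ ≤ A v ∧ A v ≤ 4 * i * P.σ + 3 * P.σ := by
  unfold Par.midE
  simp only [Finset.mem_filter, List.mem_toFinset]

/-- All vertices of an edge of `midE` are in `midV`. -/
theorem midE_midV {i j : ℕ} {e : Sym2 (ℤ × ℤ)} (he : e ∈ P.midE w i j) {v : ℤ × ℤ} (hv : v ∈ e) :
    v ∈ P.midV w i j := by
  rw [mem_midE] at he
  unfold Par.midV
  simp only [Finset.mem_filter, List.mem_toFinset]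
  exact ⟨(P.lineU w j).mem_support_of_mem_edges he.1 hv, he.2 v hv⟩

/-- An edge of a walk is the edge after some index. -/
theorem exists_index_of_mem_edges {x y : ℤ × ℤ} (p : Z2.Walk x y) {e : Sym2 (ℤ × ℤ)}
    (he : e ∈ p.edges) : ∃ t < p.length, e = s(p.getVert t, p.getVert (t + 1)) := by
  induction p with
  | nil => simp at he
  | cons h p ih =>
    rw [SimpleGraph.Walk.edges_cons, List.mem_cons] at he
    rcases he with rfl | he
    · refine ⟨0, by simp, ?_⟩
      simp
    · obtain ⟨t, ht, rfl⟩ := ih he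
      refine ⟨t + 1, by simpa using ht, ?_⟩
      simp

theorem edge_mem_edges {x y : ℤ × ℤ} (p : Z2.Walk x y) {t : ℕ} (ht : t < p.length) :
    s(p.getVert t, p.getVert (t + 1)) ∈ p.edges := by
  induction p generalizing t with
  | nil => simp at ht
  | cons h p ih =>
    rw [SimpleGraph.Walk.edges_cons, List.mem_cons]
    cases t with
    | zero => left; simp
    | succ t =>
      right
      simp only [SimpleGraph.Walk.getVert_cons_succ]
      apply ih
      simpa using ht

/-- The coordinate `A` changes by one along an edge. -/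
theorem A_step {x y : ℤ × ℤ} (p : Z2.Walk x y) {t : ℕ} (ht : t < p.length) :
    A (p.getVert (t + 1)) ≤ A (p.getVert t) + 1 ∧ A (p.getVert t) ≤ A (p.getVert (t + 1)) + 1 := by
  have h := p.adj_getVert_succ ht
  rw [Z2_adj_iff] at h
  unfold A
  omega

end Pool.Agent.Helper33_FPP
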