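import Pool.Agent.Helper33_FPP.Lines
import Pool.Agent.Helper33_FPP.MidE

/-!
# Many high edges in the middle part of a column
-/

set_option autoImplicit false

namespace Pool.Agent.Helper33_FPP

open Finset

variable {P : Par} {w : Sym2 (ℤ × ℤ) → ℝ}

theorem getVert_of_mem_part {x y : ℤ × ℤ} (p : Z2.Walk x y) {i j : ℕ} (hij : i ≤ j)
    {v : ℤ × ℤ} (hv : v ∈ (part p i j).support) :
    ∃ t, i ≤ t ∧ t ≤ j ∧ p.getVert t = v := by
  unfold part at hv
  rw [SimpleGraph.Walk.support_copy] at hv
  obtain ⟨n, hn, hle⟩ := SimpleGraph.Walk.mem_support_iff_exists_getVert.1 hv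
  rw [SimpleGraph.Walk.take_getVert, SimpleGraph.Walk.drop_getVert] at hn
  refine ⟨_, ?_, ?_, hn⟩
  · omega
  · have := min_le_left (j - i) n
    omega

theorem isPath_part {x y : ℤ × ℤ} {p : Z2.Walk x y} (hp : p.IsPath) (i j : ℕ) :
    (part p i j).IsPath := by
  unfold part
  rw [SimpleGraph.Walk.isPath_copy]
  exact (hp.drop i).take (j - i)

theorem edges_part_subset {x y : ℤ × ℤ} (p : Z2.Walk x y) (i j : ℕ) :
    ∀ e ∈ (part p i j).edges, e ∈ p.edges := by
  intro e he
  unfold part at he
  rw [SimpleGraph.Walk.edges_copy] at he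
  exact (p.isSubwalk_drop i).edges_subset (((p.drop i).isSubwalk_take (j - i)).edges_subset he)

/-- Discrete intermediate value: the part of a walk between two levels of `A`. -/
theorem exists_crossing {x y : ℤ × ℤ} (p : Z2.Walk x y) {a b : ℤ} (hab : a ≤ b)
    (hx : A x ≤ a) (hy : b ≤ A y) :
    ∃ i j, i ≤ j ∧ j ≤ p.length ∧ A (p.getVert i) = a ∧ A (p.getVert j) = b ∧
      ∀ t, i ≤ t → t ≤ j → a ≤ A (p.getVert t) ∧ A (p.getVert t) ≤ b := by
  classical
  have hex : ∃ j, b ≤ A (p.getVert j) := ⟨p.length, by rw [p.getVert_length]; exact hy⟩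
  set j := Nat.find hex with hj
  have hj1 : b ≤ A (p.getVert j) := Nat.find_spec hex
  have hj2 : ∀ t < j, A (p.getVert t) < b := fun t ht => by
    have := Nat.find_min hex ht
    push Not at this
    exact this
  have hjl : j ≤ p.length := Nat.find_min' hex (by rw [p.getVert_length]; exact hy)
  have hjb : A (p.getVert j) = b := by
    rcases Nat.eq_zero_or_pos j with h0 | h0
    · have : p.getVert j = x := by rw [h0, p.getVert_zero]
      rw [this] at hj1 ⊢
      omega
    · have h1 := hj2 (j - 1) (by omega)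
      have h2 := (A_step p (t := j - 1) (by omega)).1
      rw [show j - 1 + 1 = j by omega] at h2
      omega
  set S := (Finset.range (j + 1)).filter (fun t => A (p.getVert t) ≤ a) with hS
  have hSne : S.Nonempty := ⟨0, by
    rw [hS, Finset.mem_filter, Finset.mem_range, p.getVert_zero]
    exact ⟨by omega, hx⟩⟩
  set i := S.max' hSne with hi
  have hiS := S.max'_mem hSne
  rw [← hi, hS, Finset.mem_filter, Finset.mem_range] at hiS
  have himax : ∀ t, i < t → t ≤ j → a < A (p.getVert t) := by
    intro t ht htj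
    by_contra hn
    push Not at hn
    have : t ∈ S := by
      rw [hS, Finset.mem_filter, Finset.mem_range]
      exact ⟨by omega, hn⟩
    have := S.le_max' t this
    omega
  have hia : A (p.getVert i) = a := by
    rcases Nat.lt_or_ge i j with h | h
    · have h1 := himax (i + 1) (by omega) (by omega)
      have h2 := (A_step p (t := i) (by omega)).1
      omega
    · have : i = j := by omega
      rw [this] at hiS ⊢
      omega
  refine ⟨i, j, by omega, hjl, hia, hjb, fun t h1 h2 => ⟨?_, ?_⟩⟩
  · rcases Nat.lt_or_ge i t with h | h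
    · exact (himax t h h2).le
    · have : t = i := by omega
      rw [this, hia]
  · rcases Nat.lt_or_ge t j with h | h
    · exact (hj2 t h).le
    · have : t = j := by omega
      rw [this, hjb]

theorem length_ge_A {x y : ℤ × ℤ} (p : Z2.Walk x y) {i j : ℕ} (hij : i ≤ j) (hj : j ≤ p.length) :
    A (p.getVert j) - A (p.getVert i) ≤ ((j - i : ℕ) : ℤ) := by
  induction j, hij using Nat.le_induction with
  | base => simp
  | succ j hij ih =>
    have h1 := ih (by omega)
    have h2 := (A_step p (t := j) (by omega)).1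
    have : ((j + 1 - i : ℕ) : ℤ) = ((j - i : ℕ) : ℤ) + 1 := by omega
    omega

theorem midE_high (hP : P.Ok) (hG : P.Good w) {m₀ : ℕ} {θ hi : ℝ} (hθ : 0 ≤ θ)
    (hPG : PGood P.R m₀ θ hi w) (hm : m₀ ≤ 2 * P.σ) {i j : ℕ} (h1 : 1 ≤ i) (h2 : i + 2 ≤ P.N)
    (hj : 1 ≤ j) (hj' : j + 1 ≤ P.N) :
    θ * (2 * P.σ) ≤ (((P.midE w i j).filter (fun e => hi ≤ w e)).card : ℝ) := by
  classical
  have mU := lineU_mem hP hG.nonneg (j := j) (by omega)
  set p := P.lineU w j with hp
  have hσ0 : 0 ≤ (P.σ : ℤ) := by positivity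
  have hx : A (pt 0 (2 * j * P.σ)) ≤ 4 * i * P.σ + P.σ := by
    rw [A_pt]
    have : (0 : ℤ) ≤ 4 * i * P.σ := by positivity
    omega
  have hy : 4 * (i : ℤ) * P.σ + 3 * P.σ ≤ A (pt (2 * P.N * P.σ) (2 * j * P.σ)) := by
    rw [A_pt]
    have h3 : ((i : ℤ) + 1) ≤ P.N := by omega
    nlinarith
  obtain ⟨s, t, hst, htl, hs, ht, hbet⟩ := exists_crossing p (a := 4 * i * P.σ + P.σ)
    (b := 4 * i * P.σ + 3 * P.σ) (by omega) hx hy
  set q := part p s t with hq
  have hlen : q.length = t - s := length_part p hst htl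
  have hlen2 : 2 * P.σ ≤ q.length := by
    rw [hlen]
    have := length_ge_A p hst htl
    rw [hs, ht] at this
    omega
  have hqpath : q.IsPath := isPath_part mU.1 s t
  have hqbox : ∀ v ∈ q.support, v ∈ box P.R := by
    intro v hv
    exact stripU_subset_box hP (by omega) (mU.2.1 v (support_part_subset p s t v hv))
  have hPG' := hPG _ _ q hqpath hqbox (by omega)
  have hsub : (q.edges.filter (fun e => hi ≤ w e)).toFinset ⊆
      (P.midE w i j).filter (fun e => hi ≤ w e) := by
    intro e he
    rw [List.mem_toFinset, List.mem_filter] at he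
    rw [Finset.mem_filter]
    refine ⟨mem_midE.2 ⟨edges_part_subset p s t e he.1, ?_⟩, by simpa using he.2⟩
    intro v hv
    have hvs := q.mem_support_of_mem_edges he.1 hv
    obtain ⟨r, hr1, hr2, rfl⟩ := getVert_of_mem_part p hst hvs
    exact hbet r hr1 hr2
  have hcard := Finset.card_le_card hsub
  rw [List.toFinset_card_of_nodup (hqpath.isTrail.edges_nodup.filter _)] at hcard
  have hcard' : ((q.edges.filter (fun e => hi ≤ w e)).length : ℝ) ≤
      (((P.midE w i j).filter (fun e => hi ≤ w e)).card : ℝ) := by exact_mod_cast hcard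
  have hl : (2 * P.σ : ℝ) ≤ q.length := by exact_mod_cast hlen2
  calc θ * (2 * P.σ) ≤ θ * q.length := mul_le_mul_of_nonneg_left hl hθ
    _ ≤ _ := hPG'
    _ ≤ _ := hcard'

end Pool.Agent.Helper33_FPP
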