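import Pool.Agent.Helper33_FPP.Lines

/-!
# Order of the crossing points along the lines (module N2)
-/

set_option autoImplicit false

namespace Pool.Agent.Helper33_FPP

open Finset

variable {P : Par} {w w' : Sym2 (ℤ × ℤ) → ℝ}

theorem lineU_isIn_box (hP : P.Ok) (hw : ∀ e, 0 ≤ w e) {j : ℕ} (hj : j ≤ P.N) :
    IsIn (box P.R : Set (ℤ × ℤ)) (P.lineU w j) := fun v hv =>
  stripU_subset_box hP hj ((lineU_mem hP hw hj).2.1 v hv)

theorem lineV_isIn_box (hP : P.Ok) (hw : ∀ e, 0 ≤ w e) {i : ℕ} (hi : i ≤ P.N) :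
    IsIn (box P.R : Set (ℤ × ℤ)) (P.lineV w i) := fun v hv =>
  stripV_subset_box hP hi ((lineV_mem hP hw hi).2.1 v hv)

theorem near_U (hP : P.Ok) (hG : P.Good w) {j : ℕ} (hj : j ≤ P.N) :
    Near w (box P.R) P.c P.E₂ A B (4 * P.N * P.σ) (P.lineU w j) := by
  refine ⟨hP.hc, hG.nonneg, low_UD hG, lineU_isIn_box hP hG.nonneg hj, by simp,
    by rw [A_pt]; ring, ?_⟩
  refine (wt_lineU_le hP hG hj).trans_eq ?_
  push_cast
  ring

theorem near_V (hP : P.Ok) (hG : P.Good w) {i : ℕ} (hi : i ≤ P.N) :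
    Near w (box P.R) P.c P.E₂ B A (4 * P.N * P.σ) (P.lineV w i) := by
  refine ⟨hP.hc, hG.nonneg, low_VD hG, lineV_isIn_box hP hG.nonneg hi, by simp,
    by rw [B_pt]; ring, ?_⟩
  refine (wt_lineV_le hP hG hi).trans_eq ?_
  push_cast
  ring

theorem backtrack_U (hP : P.Ok) (hG : P.Good w) {j : ℕ} (hj : j ≤ P.N) {t t' : ℕ} (htt : t ≤ t')
    (ht' : t' ≤ (P.lineU w j).length) :
    P.c * ((A ((P.lineU w j).getVert t) - A ((P.lineU w j).getVert t') : ℤ) : ℝ) ≤ 2 * P.E₂ :=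
  (near_U hP hG hj).backtrack htt ht'

theorem backtrack_V (hP : P.Ok) (hG : P.Good w) {i : ℕ} (hi : i ≤ P.N) {t t' : ℕ} (htt : t ≤ t')
    (ht' : t' ≤ (P.lineV w i).length) :
    P.c * ((B ((P.lineV w i).getVert t) - B ((P.lineV w i).getVert t') : ℤ) : ℝ) ≤ 2 * P.E₂ :=
  (near_V hP hG hi).backtrack htt ht'

theorem meet_mem {x y x' y' : ℤ × ℤ} {p : Z2.Walk x y} {q : Z2.Walk x' y'}
    (h : ∃ v, v ∈ p.support ∧ v ∈ q.support) :
    meet p q ∈ p.support ∧ meet p q ∈ q.support :=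
  Classical.epsilon_spec (p := fun v => v ∈ p.support ∧ v ∈ q.support) h

theorem cr_mem (hP : P.Ok) (hw : ∀ e, 0 ≤ w e) {i j : ℕ} (hi : 1 ≤ i) (hi' : i + 1 ≤ P.N)
    (hj : 1 ≤ j) (hj' : j + 1 ≤ P.N) : P.cr w i j ∈ (P.lineU w j).support ∧
      P.cr w i j ∈ (P.lineV w i).support := by
  obtain ⟨a1, a2, a3, a4, a5, a6, a7⟩ := par_bound hP (show i ≤ P.N by omega)
  obtain ⟨b1, b2, -⟩ := par_bound hP (show j ≤ P.N by omega)
  have h1 : (P.σ : ℤ) ≤ i * P.σ := by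
    have : 1 * P.σ ≤ i * P.σ := Nat.mul_le_mul_right _ hi
    rw [one_mul] at this
    exact_mod_cast this
  have h2 : (i : ℤ) * P.σ + P.σ ≤ P.N * P.σ := by
    have : (i + 1) * P.σ ≤ P.N * P.σ := Nat.mul_le_mul_right _ hi'
    rw [Nat.add_mul, one_mul] at this
    exact_mod_cast this
  have h3 : (P.σ : ℤ) ≤ j * P.σ := by
    have : 1 * P.σ ≤ j * P.σ := Nat.mul_le_mul_right _ hj
    rw [one_mul] at this
    exact_mod_cast this
  have h4 : (j : ℤ) * P.σ + P.σ ≤ P.N * P.σ := by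
    have : (j + 1) * P.σ ≤ P.N * P.σ := Nat.mul_le_mul_right _ hj'
    rw [Nat.add_mul, one_mul] at this
    exact_mod_cast this
  refine meet_mem ?_
  refine crossing (P.lineU w j) (P.lineV w i) (4 * i * P.σ - P.w₀) (4 * i * P.σ + P.w₀)
    (4 * j * P.σ - P.w₀) (4 * j * P.σ + P.w₀) ?_ ?_ ?_ ?_ ?_ ?_
  · rw [A_pt]; linarith
  · rw [A_pt]; linarith
  · intro v hv
    have h5 := ((lineU_mem hP hw (show j ≤ P.N by omega)).2.1 v hv).1
    rw [abs_le] at h5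
    constructor <;> linarith
  · rw [B_pt]; linarith
  · rw [B_pt]; linarith
  · intro v hv
    have h5 := ((lineV_mem hP hw (show i ≤ P.N by omega)).2.1 v hv).1
    rw [abs_le] at h5
    constructor <;> linarith

theorem cr_mem_U (hP : P.Ok) (hw : ∀ e, 0 ≤ w e) {i j : ℕ} (hi : 1 ≤ i) (hi' : i + 1 ≤ P.N)
    (hj : 1 ≤ j) (hj' : j + 1 ≤ P.N) : P.cr w i j ∈ (P.lineU w j).support :=
  (cr_mem hP hw hi hi' hj hj').1

theorem cr_mem_V (hP : P.Ok) (hw : ∀ e, 0 ≤ w e) {i j : ℕ} (hi : 1 ≤ i) (hi' : i + 1 ≤ P.N)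
    (hj : 1 ≤ j) (hj' : j + 1 ≤ P.N) : P.cr w i j ∈ (P.lineV w i).support :=
  (cr_mem hP hw hi hi' hj hj').2

/-- Coordinates of the crossing points. -/
theorem cr_A (hP : P.Ok) (hw : ∀ e, 0 ≤ w e) {i j : ℕ} (hi : 1 ≤ i) (hi' : i + 1 ≤ P.N)
    (hj : 1 ≤ j) (hj' : j + 1 ≤ P.N) : |A (P.cr w i j) - 4 * i * P.σ| ≤ P.w₀ :=
  ((lineV_mem hP hw (by omega)).2.1 _ (cr_mem_V hP hw hi hi' hj hj')).1

theorem cr_B (hP : P.Ok) (hw : ∀ e, 0 ≤ w e) {i j : ℕ} (hi : 1 ≤ i) (hi' : i + 1 ≤ P.N)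
    (hj : 1 ≤ j) (hj' : j + 1 ≤ P.N) : |B (P.cr w i j) - 4 * j * P.σ| ≤ P.w₀ :=
  ((lineU_mem hP hw (by omega)).2.1 _ (cr_mem_U hP hw hi hi' hj hj')).1

theorem cr_mem_box (hP : P.Ok) (hw : ∀ e, 0 ≤ w e) {i j : ℕ} (hi : 1 ≤ i) (hi' : i + 1 ≤ P.N)
    (hj : 1 ≤ j) (hj' : j + 1 ≤ P.N) : P.cr w i j ∈ (box P.R : Set (ℤ × ℤ)) :=
  lineU_isIn_box hP hw (by omega) _ (cr_mem_U hP hw hi hi' hj hj')

/-- A nearly optimal walk visits points in the order of the coordinate `f`, up to `w₀`. -/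
theorem order_of_gap (hP : P.Ok) {D : Set (ℤ × ℤ)} {f g : ℤ × ℤ → ℤ} {L : ℤ} {x y : ℤ × ℤ}
    {p : Z2.Walk x y} (h : Near w D P.c P.E₂ f g L p) {s t : ℕ} (ht : t ≤ p.length)
    (hs : s ≤ p.length) (hgap : f (p.getVert s) + P.w₀ ≤ f (p.getVert t)) : s < t := by
  by_contra hcon
  push Not at hcon
  have h1 := h.backtrack hcon hs
  have h2 : (P.w₀ : ℤ) ≤ f (p.getVert t) - f (p.getVert s) := by linarith
  have h3 : P.c * (P.w₀ : ℝ) ≤ P.c * ((f (p.getVert t) - f (p.getVert s) : ℤ) : ℝ) :=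
    mul_le_mul_of_nonneg_left (by exact_mod_cast h2) hP.hc.le
  have h4 := hP.hw
  have h5 : 0 < P.c * (P.w₀ : ℝ) := by
    have : (0 : ℝ) < P.w₀ := by
      have := hP.hw1
      exact_mod_cast (show 0 < P.w₀ by omega)
    exact mul_pos hP.hc this
  have h6 := hP.hE₂
  linarith

theorem pos_cr_U (hP : P.Ok) (hG : P.Good w) {i i' j : ℕ} (hi : 1 ≤ i) (hii : i < i')
    (hi' : i' + 1 ≤ P.N) (hj : 1 ≤ j) (hj' : j + 1 ≤ P.N) :
    pos (P.lineU w j) (P.cr w i j) < pos (P.lineU w j) (P.cr w i' j) := by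
  have m1 := cr_mem_U hP hG.nonneg hi (by omega) hj hj'
  have m2 := cr_mem_U hP hG.nonneg (show 1 ≤ i' by omega) hi' hj hj'
  have c1 := cr_A hP hG.nonneg hi (by omega) hj hj'
  have c2 := cr_A hP hG.nonneg (show 1 ≤ i' by omega) hi' hj hj'
  refine order_of_gap hP (near_U hP hG (show j ≤ P.N by omega)) (pos_le_length _ m2)
    (pos_le_length _ m1) ?_
  rw [getVert_pos _ m1, getVert_pos _ m2]
  rw [abs_le] at c1 c2
  obtain ⟨a1, a2, a3, a4, a5, a6, a7⟩ := par_bound hP (show i ≤ P.N by omega)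
  have h2 : (i : ℤ) * P.σ + P.σ ≤ i' * P.σ := by
    have : (i + 1) * P.σ ≤ i' * P.σ := Nat.mul_le_mul_right _ hii
    rw [Nat.add_mul, one_mul] at this
    exact_mod_cast this
  linarith

theorem pos_cr_V (hP : P.Ok) (hG : P.Good w) {i j j' : ℕ} (hi : 1 ≤ i) (hi' : i + 1 ≤ P.N)
    (hj : 1 ≤ j) (hjj : j < j') (hj' : j' + 1 ≤ P.N) :
    pos (P.lineV w i) (P.cr w i j) < pos (P.lineV w i) (P.cr w i j') := by
  have m1 := cr_mem_V hP hG.nonneg hi hi' hj (by omega)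
  have m2 := cr_mem_V hP hG.nonneg hi hi' (show 1 ≤ j' by omega) hj'
  have c1 := cr_B hP hG.nonneg hi hi' hj (by omega)
  have c2 := cr_B hP hG.nonneg hi hi' (show 1 ≤ j' by omega) hj'
  refine order_of_gap hP (near_V hP hG (show i ≤ P.N by omega)) (pos_le_length _ m2)
    (pos_le_length _ m1) ?_
  rw [getVert_pos _ m1, getVert_pos _ m2]
  rw [abs_le] at c1 c2
  obtain ⟨a1, a2, a3, a4, a5, a6, a7⟩ := par_bound hP (show i ≤ P.N by omega)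
  have h2 : (j : ℤ) * P.σ + P.σ ≤ j' * P.σ := by
    have : (j + 1) * P.σ ≤ j' * P.σ := Nat.mul_le_mul_right _ hjj
    rw [Nat.add_mul, one_mul] at this
    exact_mod_cast this
  linarith

end Pool.Agent.Helper33_FPP
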