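import Pool.Agent.Helper33_FPP.Block
import Pool.Agent.Helper33_FPP.High
import Pool.Agent.Helper33_FPP.Order

/-!
# Module PC4: the lines of the net visit many good blocks
-/

set_option autoImplicit false

namespace Pool.Agent.Helper33_FPP

open Finset

namespace BlocksLineAux

variable {P : Par} {w : Sym2 (ℤ × ℤ) → ℝ}

theorem line_confined (hP : P.Ok) (hG : P.Good w) {j : ℕ} (hj : j ≤ P.N) {v : ℤ × ℤ}
    (hv : v ∈ (P.lineU w j).support) : 8 * |B v - 4 * (j : ℕ) * P.σ| ≤ 3 * P.w₀ := by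
  have h1 := (near_U hP hG hj).confined (g₀ := 4 * (j : ℕ) * P.σ) (by rw [B_pt]; ring)
    (by rw [B_pt]; ring) hv
  have h0 : (0 : ℤ) ≤ |A v| + |4 * P.N * P.σ - A v| - 4 * P.N * P.σ := by
    have := le_abs_self (A v)
    have := le_abs_self (4 * (P.N : ℤ) * P.σ - A v)
    linarith
  have h2 : P.c * ((8 * |B v - 4 * (j : ℕ) * P.σ| : ℤ) : ℝ) ≤ P.c * ((3 * P.w₀ : ℤ) : ℝ) := by
    have h3 : P.c * ((2 * |B v - 4 * (j : ℕ) * P.σ| : ℤ) : ℝ) ≤ 3 * P.E₂ := by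
      refine le_trans ?_ h1
      apply mul_le_mul_of_nonneg_left _ hP.hc.le
      have : (2 * |B v - 4 * (j : ℕ) * P.σ| : ℤ) ≤
        (|A v| + |4 * P.N * P.σ - A v| - 4 * P.N * P.σ + 2 * |B v - 4 * (j : ℕ) * P.σ| : ℤ) := by
        linarith
      exact_mod_cast this
    have h4 := hP.hw
    push_cast at h3 ⊢
    nlinarith [h3, h4]
  have := le_of_mul_le_mul_left h2 hP.hc
  exact_mod_cast this

theorem OB_near {k : ℕ} {v u : ℤ × ℤ} (hu : u ∈ OB k (HalfAux.blk k v)) :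
    |A u - A v| ≤ 8 * k ∧ |B u - B v| ≤ 8 * k := by
  obtain ⟨a1, a2, a3, a4⟩ := HalfAux.blk_spec k v
  have h : dst u (HalfAux.ctr k (HalfAux.blk k v)) ≤ 3 * k := hu
  unfold dst at h
  rw [max_le_iff] at h
  obtain ⟨h1, h2⟩ := h
  generalize HalfAux.ctr k (HalfAux.blk k v) = c at *
  unfold A B
  rw [abs_le, abs_le]
  omega

end BlocksLineAux

theorem gblk_card {P : Par} {w : Sym2 (ℤ × ℤ) → ℝ} (hP : P.Ok) (hG : P.Good w) {a δ : ℝ}
    {k m₀ : ℕ} (hk : 16 * k ≤ P.w₀) (hm : m₀ ≤ P.σ) (hBG : BG P.R m₀ k a δ w) {i j : ℕ}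
    (hi : 1 ≤ i) (hi' : i + 2 ≤ P.N) (hj : 1 ≤ j) (hj' : j + 1 ≤ P.N) :
    P.σ ≤ 2 * (2 * k + 1) ^ 2 * (P.gblk w a δ k i j).card := by
  classical
  have mU := lineU_mem hP hG.nonneg (j := j) (by omega)
  set p := P.lineU w j with hp
  have hσ0 : 0 ≤ (P.σ : ℤ) := by positivity
  have hσw := hP.hσ
  have hiσ : (0 : ℤ) ≤ 4 * i * P.σ := by positivity
  have hx : A (pt 0 (2 * j * P.σ)) ≤ 4 * i * P.σ + P.σ + 8 * k := by
    rw [A_pt]
    omega
  have hN : 4 * (i : ℤ) * P.σ + 8 * P.σ ≤ 4 * P.N * P.σ := by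
    have h3 : ((i : ℤ) + 2) ≤ P.N := by omega
    nlinarith
  have hy : 4 * (i : ℤ) * P.σ + 3 * P.σ - 8 * k ≤ A (pt (2 * P.N * P.σ) (2 * j * P.σ)) := by
    rw [A_pt]
    have e : (2 * (P.N : ℤ) * P.σ + 2 * P.N * P.σ) = 4 * P.N * P.σ := by ring
    have e2 : 2 * (2 * (P.N : ℤ) * P.σ) = 4 * P.N * P.σ := by ring
    first
      | omega
      | (rw [e2]; omega)
      | (rw [e]; omega)
  obtain ⟨s, t, hst, htl, hs, ht, hbet⟩ := exists_crossing p (a := 4 * i * P.σ + P.σ + 8 * k)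
    (b := 4 * i * P.σ + 3 * P.σ - 8 * k) (by omega) hx hy
  set q := part p s t with hq
  have hlen : q.length = t - s := length_part p hst htl
  have hlen2 : P.σ ≤ q.length := by
    rw [hlen]
    have := length_ge_A p hst htl
    rw [hs, ht] at this
    omega
  have hqpath : q.IsPath := isPath_part mU.1 s t
  have hreg : ∀ v ∈ q.support, ∀ u ∈ OB k (HalfAux.blk k v), P.reg i j u := by
    intro v hv u hu
    obtain ⟨r, hr1, hr2, hr3⟩ := getVert_of_mem_part p hst hv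
    have h1 := hbet r hr1 hr2
    rw [hr3] at h1
    obtain ⟨h2, h3⟩ := BlocksLineAux.OB_near hu
    have h4 := BlocksLineAux.line_confined hP hG (j := j) (by omega)
      (support_part_subset p s t v hv)
    unfold Par.reg
    rw [abs_le] at h2 h3
    have h5 : |B v - 4 * (j : ℕ) * P.σ| ≤ |B v - 4 * (j : ℕ) * P.σ| := le_rfl
    have h6 : |B u - 4 * (j : ℕ) * P.σ| ≤ |B v - 4 * (j : ℕ) * P.σ| + 8 * k := by
      have h7 : B u - 4 * (j : ℕ) * P.σ = (B v - 4 * (j : ℕ) * P.σ) + (B u - B v) := by ring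
      rw [h7]
      refine (abs_add_le _ _).trans ?_
      have : |B u - B v| ≤ 8 * k := abs_le.2 h3
      linarith
    refine ⟨by omega, by omega, by omega⟩
  have hqbox : ∀ v ∈ q.support, OB k (HalfAux.blk k v) ⊆ (box P.R : Set (ℤ × ℤ)) := by
    intro v hv u hu
    obtain ⟨h1, h2, h3⟩ := hreg v hv u hu
    apply stripU_subset_box hP (j := j) (by omega)
    refine ⟨h3, by omega, ?_⟩
    omega
  have hBG' := hBG _ _ q hqpath hqbox (by omega)
  refine (hlen2.trans hBG').trans ?_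
  apply Nat.mul_le_mul_left
  unfold gcount Par.gblk
  apply Finset.card_le_card
  intro z hz
  rw [Finset.mem_filter] at hz ⊢
  obtain ⟨hz1, hz2⟩ := hz
  unfold vis at hz1 ⊢
  rw [Finset.mem_image] at hz1 ⊢
  obtain ⟨v, hv, rfl⟩ := hz1
  rw [List.mem_toFinset] at hv
  exact ⟨⟨v, List.mem_toFinset.2 (support_part_subset p s t v hv), rfl⟩, hz2, hreg v hv⟩

end Pool.Agent.Helper33_FPP
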