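import Pool.Agent.Helper33_FPP.Geo

/-!
# Bypassing heavy edges: definitions

An edge is light if its weight is at most `M`; a vertex is bad if one of its four edges is not
light.  `NoChain w M D ℓ`: there is no chain of bad vertices of `D`, consecutive ones at sup-distance
at most `1`, of diameter at least `ℓ`.
-/

set_option autoImplicit false

namespace Pool.Agent.Helper33_FPP

/-- Sup-distance. -/
def dst (a b : ℤ × ℤ) : ℕ := max (a.1 - b.1).natAbs (a.2 - b.2).natAbs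

/-- Square of radius `n` around `u`. -/
def Bx (u : ℤ × ℤ) (n : ℕ) : Set (ℤ × ℤ) := {v | dst v u ≤ n}

/-- Rectangle with corners `a` and `b`. -/
def Rect (a b : ℤ × ℤ) : Set (ℤ × ℤ) := {v | a.1 ≤ v.1 ∧ v.1 ≤ b.1 ∧ a.2 ≤ v.2 ∧ v.2 ≤ b.2}

/-- A vertex with an edge of weight more than `M`. -/
def BadV (w : Sym2 (ℤ × ℤ) → ℝ) (M : ℝ) (v : ℤ × ℤ) : Prop := ∃ u, Z2.Adj v u ∧ M < w s(v, u)

/-- No chain of bad vertices in `D` has diameter `ℓ` or more. -/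
def NoChain (w : Sym2 (ℤ × ℤ) → ℝ) (M : ℝ) (D : Set (ℤ × ℤ)) (ℓ : ℕ) : Prop :=
  ∀ L : List (ℤ × ℤ), L.IsChain (fun a b => dst a b ≤ 1) → (∀ v ∈ L, v ∈ D ∧ BadV w M v) →
    ∀ a ∈ L, ∀ b ∈ L, dst a b < ℓ

end Pool.Agent.Helper33_FPP
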