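import Pool.Agent.Helper33_FPP.Perc
import Pool.Agent.Helper33_FPP.Prelim

/-!
# Product probabilities: independence of events with disjoint supports, pushforward to Bernoulli
-/

set_option autoImplicit false

namespace Pool.Agent.Helper33_FPP

open Finset

namespace HalfAux

theorem Pr_congr {ι V : Type*} [Fintype ι] [DecidableEq ι] [Fintype V] {p : V → ℝ}
    {E F : (ι → V) → Prop} (h : ∀ ω, E ω ↔ F ω) : Pr p E = Pr p F := by
  have : E = F := funext fun ω => propext (h ω)
  rw [this]

theorem bern_prob {t : ℝ} (h0 : 0 ≤ t) (h1 : t ≤ 1) : IsProb (bern t) := by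
  refine ⟨fun v => ?_, ?_⟩
  · cases v <;> simp [bern] <;> linarith
  · simp [bern]

section Indep

variable {ι V : Type*} [Fintype ι] [DecidableEq ι] [Fintype V] {p : V → ℝ}

/-- Events depending on disjoint sets of coordinates are independent. -/
theorem Pr_indep (hp : IsProb p) (D : Finset ι) {E F : (ι → V) → Prop}
    (hE : ∀ ω ω' : ι → V, (∀ i ∈ D, ω i = ω' i) → E ω → E ω')
    (hF : ∀ ω ω' : ι → V, (∀ i, i ∉ D → ω i = ω' i) → F ω → F ω') :
    Pr p (fun ω => E ω ∧ F ω) = Pr p E * Pr p F := by
  classical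
  have hne : Nonempty V := by
    by_contra h
    rw [not_nonempty_iff] at h
    have := hp.sum_eq
    simp at this
  obtain ⟨v₀⟩ := hne
  set e := Equiv.piEquivPiSubtypeProd (fun i => i ∈ D) (fun _ : ι => V) with he
  set f : ({i // i ∈ D} → V) → ℝ := fun a => if E (e.symm (a, fun _ => v₀)) then 1 else 0 with hf
  set g : ({i // ¬ i ∈ D} → V) → ℝ := fun b => if F (e.symm (fun _ => v₀, b)) then 1 else 0 with hg
  have h1 : ∀ ω, (if E ω then (1 : ℝ) else 0) = f (e ω).1 := by
    intro ω
    simp only [hf]
    have : E ω ↔ E (e.symm ((e ω).1, fun _ => v₀)) := by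
      constructor
      · apply hE
        intro i hi
        simp [he, Equiv.piEquivPiSubtypeProd, hi]
      · apply hE
        intro i hi
        simp [he, Equiv.piEquivPiSubtypeProd, hi]
    simp only [this]
  have h2 : ∀ ω, (if F ω then (1 : ℝ) else 0) = g (e ω).2 := by
    intro ω
    simp only [hg]
    have : F ω ↔ F (e.symm (fun _ => v₀, (e ω).2)) := by
      constructor
      · apply hF
        intro i hi
        simp [he, Equiv.piEquivPiSubtypeProd, hi]
      · apply hF
        intro i hi
        simp [he, Equiv.piEquivPiSubtypeProd, hi]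
    simp only [this]
  have h3 : ∀ ω : ι → V, ∏ i, p (ω i) = (∏ i, p ((e ω).1 i)) * ∏ i, p ((e ω).2 i) := by
    intro ω
    rw [← Fintype.prod_subtype_mul_prod_subtype (fun i => i ∈ D) (fun i => p (ω i))]
    refine congrArg₂ (· * ·) ?_ ?_
    · exact Finset.prod_congr (by ext; simp) fun _ _ => rfl
    · exact Finset.prod_congr (by ext; simp) fun _ _ => rfl
  have key : ∀ (F1 : ({i // i ∈ D} → V) → ℝ) (F2 : ({i // ¬ i ∈ D} → V) → ℝ),
      ∑ ω : ι → V, (∏ i, p (ω i)) * (F1 (e ω).1 * F2 (e ω).2) = Ex p F1 * Ex p F2 := by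
    intro F1 F2
    rw [← Equiv.sum_comp e.symm]
    unfold Ex
    rw [Fintype.sum_prod_type, Finset.sum_mul_sum]
    refine Finset.sum_congr rfl fun a _ => Finset.sum_congr rfl fun b _ => ?_
    rw [h3]
    simp only [Equiv.apply_symm_apply]
    ring
  have hEF : Pr p (fun ω => E ω ∧ F ω) = Ex p f * Ex p g := by
    rw [← key]
    unfold Pr Ex
    refine Finset.sum_congr rfl fun ω _ => ?_
    rw [← h1, ← h2]
    by_cases hE' : E ω <;> by_cases hF' : F ω <;> simp [hE', hF']
  have hE1 : Pr p E = Ex p f := by
    have := key f (fun _ => 1)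
    rw [ConcAux.Ex_one hp, mul_one] at this
    rw [← this]
    unfold Pr Ex
    refine Finset.sum_congr rfl fun ω _ => ?_
    rw [← h1, mul_one]
  have hF1 : Pr p F = Ex p g := by
    have := key (fun _ => 1) g
    rw [ConcAux.Ex_one hp, one_mul] at this
    rw [← this]
    unfold Pr Ex
    refine Finset.sum_congr rfl fun ω _ => ?_
    rw [← h2, one_mul]
  rw [hEF, hE1, hF1]

theorem Pr_true (hp : IsProb p) {E : (ι → V) → Prop} (h : ∀ ω, E ω) : Pr p E = 1 := by
  classical
  rw [← ConcAux.Ex_one (ι := ι) hp]
  unfold Pr Ex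
  exact Finset.sum_congr rfl fun ω _ => by simp [h ω]

/-- Finitely many events with pairwise disjoint supports. -/
theorem Pr_forall {κ : Type*} (hp : IsProb p) (T : Finset κ) (D : κ → Finset ι)
    (E : κ → (ι → V) → Prop) (hdisj : ∀ a ∈ T, ∀ b ∈ T, a ≠ b → Disjoint (D a) (D b))
    (hE : ∀ a ∈ T, ∀ ω ω' : ι → V, (∀ i ∈ D a, ω i = ω' i) → E a ω → E a ω') :
    Pr p (fun ω => ∀ a ∈ T, E a ω) = ∏ a ∈ T, Pr p (E a) := by
  classical
  induction T using Finset.induction_on with
  | empty => rw [Finset.prod_empty]; exact Pr_true hp (by simp)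
  | insert a T ha ih =>
    rw [Finset.prod_insert ha, ← ih
      (fun b hb c hc => hdisj b (Finset.mem_insert_of_mem hb) c (Finset.mem_insert_of_mem hc))
      (fun b hb => hE b (Finset.mem_insert_of_mem hb)),
      ← Pr_indep hp (D a) (hE a (Finset.mem_insert_self _ _))]
    · exact Pr_congr fun ω => by simp
    · intro ω ω' h h2 b hb
      refine hE b (Finset.mem_insert_of_mem hb) ω ω' (fun i hi => h i fun hia => ?_) (h2 b hb)
      exact Finset.disjoint_left.mp (hdisj a (Finset.mem_insert_self _ _) b
        (Finset.mem_insert_of_mem hb) (fun hab => ha (hab ▸ hb))) hia hi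

/-- Pushforward of the product law under a map of the values to `Bool`. -/
theorem Pr_push (hp : IsProb p) (g : V → Bool) (E : (ι → Bool) → Prop) :
    Pr p (fun ω => E (fun i => g (ω i))) =
      Pr (bern (∑ v, if g v = true then p v else 0)) E := by
  classical
  set s := ∑ v, if g v = true then p v else 0 with hs
  have hb : ∀ b : Bool, ∑ v ∈ Finset.univ.filter (fun v => g v = b), p v = bern s b := by
    intro b
    cases b
    · have h1 := Finset.sum_filter_add_sum_filter_not Finset.univ (fun v => g v = true) p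
      rw [hp.sum_eq, Finset.sum_filter, ← hs] at h1
      have h2 : ∑ v ∈ Finset.univ.filter (fun v => g v = false), p v =
          ∑ v ∈ Finset.univ.filter (fun v => ¬ g v = true), p v := by
        congr 1
        ext v
        simp
      rw [h2]
      simp only [bern]
      simp
      linarith
    · rw [Finset.sum_filter]
      simp [bern, hs]
  have key : ∀ η : ι → Bool, ∏ i, bern s (η i) =
      ∑ ω : ι → V, if (fun i => g (ω i)) = η then ∏ i, p (ω i) else 0 := by
    intro η
    rw [Finset.prod_congr rfl (fun i _ => (hb (η i)).symm),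
      Finset.prod_univ_sum, ← Finset.sum_filter]
    refine Finset.sum_congr ?_ fun _ _ => rfl
    ext ω
    simp [Fintype.mem_piFinset, funext_iff]
  unfold Pr Ex
  simp only [key]
  simp only [Finset.sum_mul]
  rw [Finset.sum_comm]
  refine Finset.sum_congr rfl fun ω _ => ?_
  rw [Finset.sum_eq_single (fun i => g (ω i))]
  · simp
  · intro η _ hη
    rw [if_neg (Ne.symm hη), zero_mul]
  · simp

end Indep

end HalfAux

end Pool.Agent.Helper33_FPP
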