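import Pool.Agent.Helper33_FPP.OrBasic
import Pool.Agent.Helper33_FPP.HalfProb
import Pool.Agent.Helper33_FPP.PercLaw

/-!
# Oriented percolation: laws (module PD2)
-/

set_option autoImplicit false

namespace Pool.Agent.Helper33_FPP

open Finset

/-- Expectations of products of functions of disjoint sets of coordinates. -/
theorem Ex_indep {ι V : Type*} [Fintype ι] [DecidableEq ι] [Fintype V] {p : V → ℝ}
    (hp : IsProb p) (D : Finset ι) {f g : (ι → V) → ℝ}
    (hf : ∀ ω ω' : ι → V, (∀ i ∈ D, ω i = ω' i) → f ω = f ω')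
    (hg : ∀ ω ω' : ι → V, (∀ i, i ∉ D → ω i = ω' i) → g ω = g ω') :
    Ex p (fun ω => f ω * g ω) = Ex p f * Ex p g := by
  classical
  have hne : Nonempty V := by
    by_contra h
    rw [not_nonempty_iff] at h
    have := hp.sum_eq
    simp at this
  obtain ⟨v₀⟩ := hne
  set e := Equiv.piEquivPiSubtypeProd (fun i => i ∈ D) (fun _ : ι => V) with he
  set F : ({i // i ∈ D} → V) → ℝ := fun a => f (e.symm (a, fun _ => v₀)) with hF
  set G : ({i // ¬ i ∈ D} → V) → ℝ := fun b => g (e.symm (fun _ => v₀, b)) with hG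
  have h1 : ∀ ω, f ω = F (e ω).1 := by
    intro ω
    simp only [hF]
    apply hf
    intro i hi
    simp [he, Equiv.piEquivPiSubtypeProd, hi]
  have h2 : ∀ ω, g ω = G (e ω).2 := by
    intro ω
    simp only [hG]
    apply hg
    intro i hi
    simp [he, Equiv.piEquivPiSubtypeProd, hi]
  have h3 : ∀ ω : ι → V, ∏ i, p (ω i) = (∏ i, p ((e ω).1 i)) * ∏ i, p ((e ω).2 i) := by
    intro ω
    rw [← Fintype.prod_subtype_mul_prod_subtype (fun i => i ∈ D) (fun i => p (ω i))]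
    refine congrArg₂ (· * ·) ?_ ?_
    · exact Finset.prod_congr (by ext; simp) fun _ _ => rfl
    · exact Finset.prod_congr (by ext; simp) fun _ _ => rfl
  have key : ∀ (F1 : ({i // i ∈ D} → V) → ℝ) (F2 : ({i // ¬ i ∈ D} → V) → ℝ),
      ∑ ω : ι → V, (∏ i, p (ω i)) * (F1 (e ω).1 * F2 (e ω).2) = Ex p F1 * Ex p F2 := by
    intro F1 F2
    rw [← Equiv.sum_comp e.symm]
    unfold Ex
    rw [Fintype.sum_prod_type, Finset.sum_mul_sum]
    refine Finset.sum_congr rfl fun a _ => Finset.sum_congr rfl fun b _ => ?_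
    rw [h3]
    simp only [Equiv.apply_symm_apply]
    ring
  have hfg : Ex p (fun ω => f ω * g ω) = Ex p F * Ex p G := by
    rw [← key]
    unfold Ex
    refine Finset.sum_congr rfl fun ω _ => ?_
    rw [← h1, ← h2]
  have hf1 : Ex p f = Ex p F := by
    have := key F (fun _ => 1)
    rw [ConcAux.Ex_one hp, mul_one] at this
    rw [← this]
    unfold Ex
    refine Finset.sum_congr rfl fun ω _ => ?_
    rw [← h1, mul_one]
  have hg1 : Ex p g = Ex p G := by
    have := key (fun _ => 1) G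
    rw [ConcAux.Ex_one hp, one_mul] at this
    rw [← this]
    unfold Ex
    refine Finset.sum_congr rfl fun ω _ => ?_
    rw [← h2, one_mul]
  rw [hfg, hf1, hg1]

theorem law_Ex_map {n m : ℕ} {t : ℝ} (f : Sym2 (ℤ × ℤ) → Sym2 (ℤ × ℤ))
    (hinj : Set.InjOn f (edgesIn n : Set (Sym2 (ℤ × ℤ)))) (hmaps : ∀ e ∈ edgesIn n, f e ∈ edgesIn m)
    (G : (Sym2 (ℤ × ℤ) → Prop) → ℝ) :
    Ex (bern t) (fun ω : EIdx m → Bool => G (fun e => e ∈ edgesIn n ∧ opn ω (f e))) =
      Ex (bern t) (fun ω : EIdx n → Bool => G (opn ω)) := by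
  classical
  let g : EIdx n → EIdx m := fun e => ⟨f e.1, hmaps e.1 e.2⟩
  have hg : Function.Injective g := by
    intro a b hab
    have h1 : f a.1 = f b.1 := congrArg Subtype.val hab
    exact Subtype.ext (hinj a.2 b.2 h1)
  have hop : ∀ ω : EIdx m → Bool,
      (fun e => e ∈ edgesIn n ∧ opn ω (f e)) = opn (fun i => ω (g i)) := by
    intro ω
    funext e
    refine propext ⟨?_, ?_⟩
    · rintro ⟨h, h', h''⟩
      exact ⟨h, h''⟩
    · rintro ⟨h, h''⟩
      exact ⟨h, hmaps e h, h''⟩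
  have h0 := PercLawAux.Ex_comp_inj (bern t) (PercLawAux.bern_sum t) g hg (fun ω => G (opn ω))
  rw [← h0]
  unfold Ex
  refine Finset.sum_congr rfl fun ω _ => ?_
  simp only [hop]

namespace OrLawAux

/-- Translation of the edges. -/
def sh (u : ℤ × ℤ) (e : Sym2 (ℤ × ℤ)) : Sym2 (ℤ × ℤ) := Sym2.map (fun w => w + u) e

/-- The translated environment. -/
def shO (u : ℤ × ℤ) (O : Sym2 (ℤ × ℤ) → Prop) (e : Sym2 (ℤ × ℤ)) : Prop := O (sh u e)

theorem sh_mk (u x y : ℤ × ℤ) : sh u s(x, y) = s(x + u, y + u) := by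
  simp [sh]

theorem sh_inj (u : ℤ × ℤ) : Function.Injective (sh u) := by
  apply Sym2.map.injective
  intro a b h
  exact add_right_cancel h

theorem sh_sh (u : ℤ × ℤ) (e : Sym2 (ℤ × ℤ)) : sh u (sh (-u) e) = e := by
  induction e using Sym2.ind with
  | _ a b => rw [sh_mk, sh_mk]; simp

theorem sh_sh' (u : ℤ × ℤ) (e : Sym2 (ℤ × ℤ)) : sh (-u) (sh u e) = e := by
  induction e using Sym2.ind with
  | _ a b => rw [sh_mk, sh_mk]; simp

theorem sh_mem {n m : ℕ} {u : ℤ × ℤ} (h1 : (n : ℤ) + |u.1| ≤ m) (h2 : (n : ℤ) + |u.2| ≤ m)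
    {e : Sym2 (ℤ × ℤ)} (he : e ∈ edgesIn n) : sh u e ∈ edgesIn m := by
  induction e using Sym2.ind with
  | _ a b =>
    rw [mem_edgesIn] at he
    have ha := he.1 a (Sym2.mem_mk_left a b)
    have hb := he.1 b (Sym2.mem_mk_right a b)
    have hadj : Z2.Adj a b := he.2
    rw [sh_mk, mem_edgesIn]
    have hu1 := abs_le.1 (le_refl |u.1|)
    have hu2 := abs_le.1 (le_refl |u.2|)
    refine ⟨?_, ?_⟩
    · intro v hv
      rw [Sym2.mem_iff] at hv
      rw [mem_box] at ha hb ⊢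
      rcases hv with rfl | rfl
      · simp only [Prod.fst_add, Prod.snd_add]
        omega
      · simp only [Prod.fst_add, Prod.snd_add]
        omega
    · rw [SimpleGraph.mem_edgeSet, Z2_adj_iff]
      rw [Z2_adj_iff] at hadj
      simp only [Prod.fst_add, Prod.snd_add]
      rw [show a.1 + u.1 - (b.1 + u.1) = a.1 - b.1 by ring,
        show a.2 + u.2 - (b.2 + u.2) = a.2 - b.2 by ring]
      exact hadj

theorem stp_shift {O : Sym2 (ℤ × ℤ) → Prop} {u : ℤ × ℤ} {S T : Set (ℤ × ℤ)}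
    (h : ∀ v, v ∈ S ↔ v + u ∈ T) (v : ℤ × ℤ) : v ∈ stp (shO u O) S ↔ v + u ∈ stp O T := by
  obtain ⟨a, b⟩ := v
  obtain ⟨c, d⟩ := u
  have e1 : ((a - 1, b) : ℤ × ℤ) + (c, d) = (a + c - 1, b + d) := by
    ext
    · simp; ring
    · simp
  have e2 : ((a, b - 1) : ℤ × ℤ) + (c, d) = (a + c, b + d - 1) := by
    ext
    · simp
    · simp; ring
  have e3 : ((a, b) : ℤ × ℤ) + (c, d) = (a + c, b + d) := rfl
  unfold stp
  simp only [Set.mem_ofPred_eq, shO, sh_mk, h, e1, e2, e3]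

theorem stp_iter_shift {O : Sym2 (ℤ × ℤ) → Prop} {u : ℤ × ℤ} {S T : Set (ℤ × ℤ)}
    (h : ∀ v, v ∈ S ↔ v + u ∈ T) (k : ℕ) (v : ℤ × ℤ) :
    v ∈ (stp (shO u O))^[k] S ↔ v + u ∈ (stp O)^[k] T := by
  induction k generalizing v with
  | zero => exact h v
  | succ k ih =>
    rw [Function.iterate_succ_apply', Function.iterate_succ_apply']
    exact stp_shift ih v

theorem HL_shift (s j a b : ℤ) (v : ℤ × ℤ) :
    v ∈ HL s j ↔ v + (a, b) ∈ HL (s + a + b) (j + a) := by
  unfold HL A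
  simp only [Set.mem_ofPred_eq, Prod.fst_add, Prod.snd_add]
  constructor
  · rintro ⟨h1, h2⟩
    constructor <;> linarith
  · rintro ⟨h1, h2⟩
    constructor <;> linarith

theorem bdd_of_subset {S : Set (ℤ × ℤ)} {s j : ℤ} (h : S ⊆ HL s j) : BddAbove (Prod.fst '' S) := by
  refine ⟨j, ?_⟩
  rintro _ ⟨v, hv, rfl⟩
  exact (h hv).2

theorem bdd_iter (O : Sym2 (ℤ × ℤ) → Prop) (k : ℕ) (s j : ℤ) :
    BddAbove (Prod.fst '' ((stp O)^[k] (HL s j))) :=
  bdd_of_subset (stp_iter_HL O k (le_refl _))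

theorem redge_le_iff {M : ℕ} {S : Set (ℤ × ℤ)} (hS : BddAbove (Prod.fst '' S)) {r : ℤ} :
    redge M S ≤ r ↔ -(M : ℤ) ≤ r ∧ ∀ v ∈ S, v.1 ≤ r := by
  constructor
  · intro h
    exact ⟨(neg_le_redge hS).trans h, fun v hv => (le_redge hS hv).trans h⟩
  · rintro ⟨h1, h2⟩
    rcases redge_cases (M := M) hS with h | ⟨v, hv, h⟩
    · rw [h]; exact h1
    · rw [← h]; exact h2 v hv

theorem mem_iter_congr {O O' : Sym2 (ℤ × ℤ) → Prop} {k m K : ℕ} {s j : ℤ} (h0 : K + k ≤ m)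
    (h1 : j + k ≤ m) (h2 : -(m : ℤ) ≤ s - j) (h3 : s + k + K ≤ m)
    (h : ∀ e ∈ edgesIn m, O e → O' e) {v : ℤ × ℤ} (hv : v ∈ (stp O)^[k] (HL s j))
    (hK : -(K : ℤ) ≤ v.1) : v ∈ (stp O')^[k] (HL s j) := by
  obtain ⟨u, hu, hvu, h4, h5, h6⟩ := stp_iter_start hv
  have h7 : v ∈ (stp O')^[k] {u} := by
    apply stp_iter_congr (O := O) _ hvu
    intro e he hz hO
    apply h e _ hO
    rw [mem_edgesIn]
    refine ⟨fun z hze => ?_, he⟩
    obtain ⟨a1, a2, a3, a4⟩ := hz z hze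
    have hus : u.1 + u.2 = s := hu.1
    have huj : u.1 ≤ j := hu.2
    rw [mem_box]
    omega
  have h8 : ({u} : Set (ℤ × ℤ)) ⊆ HL s j := by
    rintro _ rfl
    exact hu
  exact stp_iter_mono (fun _ h => h) k h8 h7

theorem redge_iter_congr {O O' : Sym2 (ℤ × ℤ) → Prop} {k m K : ℕ} {s j : ℤ} (h0 : K + k ≤ m)
    (h1 : j + k ≤ m) (h2 : -(m : ℤ) ≤ s - j) (h3 : s + k + K ≤ m)
    (h : ∀ e ∈ edgesIn m, (O e ↔ O' e)) :
    redge K ((stp O)^[k] (HL s j)) = redge K ((stp O')^[k] (HL s j)) := by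
  apply le_antisymm
  · rw [redge_le_iff (bdd_iter _ _ _ _)]
    refine ⟨neg_le_redge (bdd_iter _ _ _ _), fun v hv => ?_⟩
    by_cases hK : -(K : ℤ) ≤ v.1
    · exact le_redge (bdd_iter _ _ _ _)
        (mem_iter_congr h0 h1 h2 h3 (fun e he => (h e he).1) hv hK)
    · have := neg_le_redge (M := K) (bdd_iter O' k s j)
      omega
  · rw [redge_le_iff (bdd_iter _ _ _ _)]
    refine ⟨neg_le_redge (bdd_iter _ _ _ _), fun v hv => ?_⟩
    by_cases hK : -(K : ℤ) ≤ v.1
    · exact le_redge (bdd_iter _ _ _ _)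
        (mem_iter_congr h0 h1 h2 h3 (fun e he => (h e he).2) hv hK)
    · have := neg_le_redge (M := K) (bdd_iter O k s j)
      omega

/-- The law of a local functional does not depend on the position. -/
theorem law_local {m R : ℕ} {t : ℝ} (u : ℤ × ℤ) (hu1 : (m : ℤ) + |u.1| ≤ R)
    (hu2 : (m : ℤ) + |u.2| ≤ R) (G : (Sym2 (ℤ × ℤ) → Prop) → ℝ)
    (hG : ∀ O O' : Sym2 (ℤ × ℤ) → Prop, (∀ e ∈ edgesIn m, (O e ↔ O' e)) → G O = G O') :
    Ex (bern t) (fun ω : EIdx R → Bool => G (shO u (opn ω))) =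
      Ex (bern t) (fun ω : EIdx m → Bool => G (opn ω)) := by
  rw [← law_Ex_map (t := t) (sh u) ((sh_inj u).injOn) (fun e he => sh_mem hu1 hu2 he) G]
  unfold Ex
  refine Finset.sum_congr rfl fun ω _ => ?_
  congr 1
  apply hG
  intro e he
  constructor
  · intro h
    exact ⟨he, h⟩
  · intro h
    exact h.2

theorem shO_zero (O : Sym2 (ℤ × ℤ) → Prop) : shO 0 O = O := by
  funext e
  unfold shO
  congr 1
  induction e using Sym2.ind with
  | _ a b => rw [sh_mk]; simp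

theorem law_local₀ {m R : ℕ} {t : ℝ} (hm : m ≤ R) (G : (Sym2 (ℤ × ℤ) → Prop) → ℝ)
    (hG : ∀ O O' : Sym2 (ℤ × ℤ) → Prop, (∀ e ∈ edgesIn m, (O e ↔ O' e)) → G O = G O') :
    Ex (bern t) (fun ω : EIdx R → Bool => G (opn ω)) =
      Ex (bern t) (fun ω : EIdx m → Bool => G (opn ω)) := by
  rw [← law_local (t := t) (R := R) 0 (by simpa using hm) (by simpa using hm) G hG]
  simp only [shO_zero]

end OrLawAux

open OrLawAux

theorem mr_eq {t : ℝ} {n M R : ℕ} (hR : M + 3 * n + 3 ≤ R) :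
    Ex (bern t) (fun ω : EIdx R → Bool => (redge M ((stp (opn ω))^[n] (HL 0 0)) : ℝ)) =
      mr t n M := by
  unfold mr
  exact law_local₀ hR (fun O => (redge M ((stp O)^[n] (HL 0 0)) : ℝ)) (fun O O' h => by
    rw [redge_iter_congr (m := M + 3 * n + 3) (by omega) (by push_cast; omega)
      (by push_cast; omega) (by push_cast; omega) h])

namespace OrLawAux

theorem Pr_neg {ι V : Type*} [Fintype ι] [DecidableEq ι] [Fintype V] {p : V → ℝ}
    (hp : IsProb p) (E : (ι → V) → Prop) : Pr p (fun ω => ¬ E ω) = 1 - Pr p E := by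
  classical
  have h := ConcAux.Ex_sub p (fun _ : ι → V => (1 : ℝ)) (fun ω => if E ω then (1 : ℝ) else 0)
  rw [ConcAux.Ex_one hp] at h
  unfold Pr
  rw [← h]
  unfold Ex
  refine Finset.sum_congr rfl fun ω _ => ?_
  by_cases hE : E ω <;> simp [hE]

theorem Pr_opn {R : ℕ} {p : ℝ} {e : Sym2 (ℤ × ℤ)} (he : e ∈ edgesIn R) :
    Pr (bern p) (fun ω : EIdx R → Bool => opn ω e) = p := by
  classical
  have h := PercLawAux.Ex_comp_inj (bern p) (PercLawAux.bern_sum p)
    (fun _ : Unit => (⟨e, he⟩ : EIdx R)) (fun _ _ _ => rfl)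
    (fun ω : Unit → Bool => if ω () = true then (1 : ℝ) else 0)
  have h2 : Ex (bern p) (fun ω : Unit → Bool => if ω () = true then (1 : ℝ) else 0) = p := by
    unfold Ex
    rw [← Equiv.sum_comp (Equiv.funUnique Unit Bool).symm]
    simp [bern]
  refine Eq.trans ?_ (h.trans h2)
  unfold Pr Ex
  refine Finset.sum_congr rfl fun ω _ => ?_
  have : opn ω e ↔ ω ⟨e, he⟩ = true := ⟨fun ⟨_, h⟩ => h, fun h => ⟨he, h⟩⟩
  simp only [this]

/-- Vertical edge. -/
def ve (a b : ℤ) : Sym2 (ℤ × ℤ) := s((a, b), (a, b + 1))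

theorem ve_inj {a b a' b' : ℤ} (h : ve a b = ve a' b') : a = a' ∧ b = b' := by
  unfold ve at h
  rw [Sym2.eq_iff] at h
  simp only [Prod.mk.injEq] at h
  omega

theorem ve_mem {R : ℕ} {a b : ℤ} (h1 : -(R : ℤ) ≤ a) (h2 : a ≤ R) (h3 : -(R : ℤ) ≤ b)
    (h4 : b + 1 ≤ R) : ve a b ∈ edgesIn R := by
  unfold ve
  rw [mem_edgesIn]
  refine ⟨fun v hv => ?_, ?_⟩
  · rw [Sym2.mem_iff] at hv
    rw [mem_box]
    rcases hv with rfl | rfl
    · exact ⟨⟨h1, h2⟩, ⟨h3, by simp only; omega⟩⟩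
    · exact ⟨⟨h1, h2⟩, ⟨by simp only; omega, h4⟩⟩
  · rw [SimpleGraph.mem_edgeSet, Z2_adj_iff]
    simp

/-- The vertical path of `k` steps from `(a, b)` is open. -/
def vpath (O : Sym2 (ℤ × ℤ) → Prop) (k : ℕ) (a b : ℤ) : Prop := ∀ l ∈ range k, O (ve a (b + l))

theorem vpath_mem {O : Sym2 (ℤ × ℤ) → Prop} {k : ℕ} {a b : ℤ} (h : vpath O k a b)
    {S : Set (ℤ × ℤ)} (hS : (a, b) ∈ S) : (a, b + k) ∈ (stp O)^[k] S := by
  induction k with
  | zero => simpa using hS
  | succ k ih =>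
    have h1 := ih (fun l hl => h l (by rw [mem_range] at hl ⊢; omega))
    rw [Function.iterate_succ_apply']
    refine Or.inr ⟨?_, ?_⟩
    · have e : ((a, b + ((k + 1 : ℕ) : ℤ)).1, (a, b + ((k + 1 : ℕ) : ℤ)).2 - 1) = (a, b + (k : ℤ)) := by
        push_cast
        simp only [Prod.mk.injEq, true_and]
        ring
      rw [e]
      exact h1
    · have h2 := h k (by rw [mem_range]; omega)
      unfold ve at h2
      have e : ((a, b + ((k + 1 : ℕ) : ℤ)).1, (a, b + ((k + 1 : ℕ) : ℤ)).2 - 1) = (a, b + (k : ℤ)) := by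
        push_cast
        simp only [Prod.mk.injEq, true_and]
        ring
      rw [e]
      have e2 : b + ((k + 1 : ℕ) : ℤ) = b + k + 1 := by push_cast; ring
      rw [e2]
      exact h2

theorem Pr_vpath {R : ℕ} {p : ℝ} (hp0 : 0 ≤ p) (hp1 : p ≤ 1) {k : ℕ} {a b : ℤ}
    (h1 : -(R : ℤ) ≤ a) (h2 : a ≤ R) (h3 : -(R : ℤ) ≤ b) (h4 : b + k ≤ R) :
    Pr (bern p) (fun ω : EIdx R → Bool => vpath (opn ω) k a b) = p ^ k := by
  classical
  have hp := HalfAux.bern_prob hp0 hp1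
  have h := HalfAux.Pr_forall (ι := EIdx R) hp (range k)
    (fun l => univ.filter (fun i : EIdx R => i.1 = ve a (b + l)))
    (fun l ω => opn ω (ve a (b + l))) ?_ ?_
  · have e : Pr (bern p) (fun ω : EIdx R → Bool => vpath (opn ω) k a b) =
        ∏ l ∈ range k, Pr (bern p) (fun ω : EIdx R → Bool => opn ω (ve a (b + l))) := h
    rw [e]
    rw [prod_congr rfl (fun l hl => Pr_opn (p := p) (ve_mem h1 h2 (by omega) (by
      rw [mem_range] at hl; omega)))]
    simp
  · intro l hl l' hl' hne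
    rw [disjoint_left]
    intro i hi hi'
    rw [mem_filter] at hi hi'
    have := (ve_inj (hi.2.symm.trans hi'.2)).2
    omega
  · rintro l hl ω ω' hω ⟨he, h⟩
    exact ⟨he, by rw [← hω ⟨_, he⟩ (by simp)]; exact h⟩

end OrLawAux

theorem survive {p : ℝ} (hp0 : 0 < p) (hp1 : p ≤ 1) (n : ℕ) {η : ℝ} (hη : 0 < η) :
    ∃ M₀ : ℕ, ∀ M, M₀ ≤ M → ∀ R, 2 * M + 10 * n + 10 ≤ R → ∀ k ≤ n, ∀ s ≤ n, ∀ j : ℤ,
      -(M : ℤ) ≤ j → j ≤ 3 * n + 3 →
      1 - η ≤ Pr (bern p) (fun ω : EIdx R → Bool =>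
        ∃ v ∈ (stp (opn ω))^[k] (HL s j), -(2 * M : ℤ) ≤ v.1) := by
  classical
  have hq1 : 1 - p ^ n < 1 := by
    have := pow_pos hp0 n
    linarith
  have hq0 : 0 ≤ 1 - p ^ n := by
    have := pow_le_one₀ hp0.le hp1 (n := n)
    linarith
  obtain ⟨M₀, hM₀⟩ := exists_pow_lt_of_lt_one hη hq1
  refine ⟨M₀, fun M hM R hR k hk s hs j hj1 hj2 => ?_⟩
  have hp := HalfAux.bern_prob hp0.le hp1
  have h := HalfAux.Pr_forall (ι := EIdx R) hp (range (M + 1))
    (fun i => univ.filter (fun e : EIdx R => ∃ b, e.1 = ve (j - i) b))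
    (fun i ω => ¬ vpath (opn ω) k (j - i) (s - (j - i))) ?_ ?_
  · have h2 : ∀ i ∈ range (M + 1), Pr (bern p) (fun ω : EIdx R → Bool =>
        ¬ vpath (opn ω) k (j - i) (s - (j - i))) = 1 - p ^ k := by
      intro i hi
      rw [mem_range] at hi
      rw [Pr_neg hp, Pr_vpath hp0.le hp1 (by omega) (by omega) (by omega) (by omega)]
    rw [prod_congr rfl h2, prod_const, card_range] at h
    have h3 : Pr (bern p) (fun ω : EIdx R → Bool =>
        ¬ ∀ i ∈ range (M + 1), ¬ vpath (opn ω) k (j - i) (s - (j - i))) ≤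
        Pr (bern p) (fun ω : EIdx R → Bool =>
        ∃ v ∈ (stp (opn ω))^[k] (HL s j), -(2 * M : ℤ) ≤ v.1) := by
      apply Pr_mono hp
      intro ω hω
      push Not at hω
      obtain ⟨i, hi, hv⟩ := hω
      rw [mem_range] at hi
      have hmem : (j - i, (s : ℤ) - (j - i)) ∈ HL s j := by
        refine ⟨?_, ?_⟩
        · show j - i + ((s : ℤ) - (j - i)) = s
          ring
        · show j - i ≤ j
          omega
      refine ⟨_, vpath_mem hv hmem, ?_⟩
      show -(2 * M : ℤ) ≤ j - i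
      omega
    rw [Pr_neg hp, h] at h3
    have h4 : (1 - p ^ k) ^ (M + 1) ≤ η := by
      have h5 : 1 - p ^ k ≤ 1 - p ^ n := by
        have := pow_le_pow_of_le_one hp0.le hp1 hk
        linarith
      have h6 : 0 ≤ 1 - p ^ k := by
        have := pow_le_one₀ hp0.le hp1 (n := k)
        linarith
      calc (1 - p ^ k) ^ (M + 1) ≤ (1 - p ^ n) ^ (M + 1) := pow_le_pow_left₀ h6 h5 _
        _ ≤ (1 - p ^ n) ^ M₀ := pow_le_pow_of_le_one hq0 hq1.le (by omega)
        _ ≤ η := hM₀.le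
    linarith
  · intro i hi i' hi' hne
    rw [disjoint_left]
    intro e he he'
    rw [mem_filter] at he he'
    obtain ⟨_, b, hb⟩ := he
    obtain ⟨_, b', hb'⟩ := he'
    have := (ve_inj (hb.symm.trans hb')).1
    omega
  · intro i hi ω ω' hω h1 h2
    apply h1
    intro l hl
    obtain ⟨he, h3⟩ := h2 l hl
    exact ⟨he, by rw [hω ⟨_, he⟩ (by simp)]; exact h3⟩

theorem gain {p : ℝ} (hp0 : 0 < p) (hp1 : p ≤ 1) (n : ℕ) {η : ℝ} (hη : 0 < η) :
    ∃ M₀ : ℕ, ∀ M, M₀ ≤ M → ∀ R, 2 * M + 10 * n + 10 ≤ R → ∀ k ≤ n, ∀ s ≤ n, ∀ j : ℤ,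
      -(M : ℤ) ≤ j → j ≤ 3 * n + 3 →
      1 - η ≤ Ex (bern p) (fun ω : EIdx R → Bool =>
          (redge (2 * M) ((stp (opn ω))^[k] (HL s (j + 1))) : ℝ)) -
        Ex (bern p) (fun ω : EIdx R → Bool =>
          (redge (2 * M) ((stp (opn ω))^[k] (HL s j)) : ℝ)) := by
  classical
  obtain ⟨M₀, hM₀⟩ := survive hp0 hp1 n hη
  refine ⟨M₀, fun M hM R hR k hk s hs j hj1 hj2 => ?_⟩
  have hp := HalfAux.bern_prob hp0.le hp1
  have hsur := hM₀ M hM R hR k hk s hs j hj1 hj2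
  -- the half-line `HL s (j + 1)` is the translate of `HL s j` by `(1, -1)`
  have hshift : ∀ O : Sym2 (ℤ × ℤ) → Prop, redge (2 * M) ((stp O)^[k] (HL s (j + 1))) =
      1 + redge (2 * M + 1) ((stp (shO (1, -1) O))^[k] (HL s j)) := by
    intro O
    have hHL : ∀ v : ℤ × ℤ, v ∈ HL s j ↔ v + (1, -1) ∈ HL s (j + 1) := by
      intro v
      have := HL_shift s j 1 (-1) v
      simpa using this
    have hst := stp_iter_shift (O := O) (u := (1, -1)) hHL k
    apply le_antisymm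
    · rw [redge_le_iff (bdd_iter _ _ _ _)]
      constructor
      · have := neg_le_redge (M := 2 * M + 1) (bdd_iter (shO (1, -1) O) k s j)
        push_cast at this ⊢
        omega
      · intro v hv
        have h1 : (v - (1, -1)) + (1, -1) ∈ (stp O)^[k] (HL s (j + 1)) := by
          rw [sub_add_cancel]
          exact hv
        have h2 := le_redge (M := 2 * M + 1) (bdd_iter _ _ _ _) ((hst _).2 h1)
        simp only [Prod.fst_sub] at h2
        omega
    · have h3 : redge (2 * M + 1) ((stp (shO (1, -1) O))^[k] (HL s j)) ≤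
          redge (2 * M) ((stp O)^[k] (HL s (j + 1))) - 1 := by
        rw [redge_le_iff (bdd_iter _ _ _ _)]
        constructor
        · have := neg_le_redge (M := 2 * M) (bdd_iter O k s (j + 1))
          push_cast at this ⊢
          omega
        · intro v hv
          have h2 := le_redge (M := 2 * M) (bdd_iter _ _ _ _) ((hst v).1 hv)
          simp only [Prod.fst_add] at h2
          omega
      omega
  -- law
  have hloc : ∀ (K : ℕ), K ≤ 2 * M + 1 → ∀ O O' : Sym2 (ℤ × ℤ) → Prop,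
      (∀ e ∈ edgesIn (R - 1), (O e ↔ O' e)) →
      (redge K ((stp O)^[k] (HL s j)) : ℝ) = (redge K ((stp O')^[k] (HL s j)) : ℝ) := by
    intro K hK O O' h
    rw [redge_iter_congr (m := R - 1) (by omega) (by omega) (by omega) (by omega) h]
  have hlaw : Ex (bern p) (fun ω : EIdx R → Bool =>
      (redge (2 * M + 1) ((stp (shO (1, -1) (opn ω)))^[k] (HL s j)) : ℝ)) =
      Ex (bern p) (fun ω : EIdx R → Bool =>
      (redge (2 * M + 1) ((stp (opn ω))^[k] (HL s j)) : ℝ)) := by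
    rw [law_local (m := R - 1) (1, -1) (by simp; omega) (by simp; omega)
        (fun O => (redge (2 * M + 1) ((stp O)^[k] (HL s j)) : ℝ)) (hloc _ le_rfl),
      law_local₀ (m := R - 1) (R := R) (by omega)
        (fun O => (redge (2 * M + 1) ((stp O)^[k] (HL s j)) : ℝ)) (hloc _ le_rfl)]
  have h1 : Ex (bern p) (fun ω : EIdx R → Bool =>
      (redge (2 * M) ((stp (opn ω))^[k] (HL s (j + 1))) : ℝ)) =
      1 + Ex (bern p) (fun ω : EIdx R → Bool =>
      (redge (2 * M + 1) ((stp (opn ω))^[k] (HL s j)) : ℝ)) := by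
    rw [← hlaw]
    have e : ∀ ω : EIdx R → Bool, (redge (2 * M) ((stp (opn ω))^[k] (HL s (j + 1))) : ℝ) =
        1 + (redge (2 * M + 1) ((stp (shO (1, -1) (opn ω)))^[k] (HL s j)) : ℝ) := by
      intro ω
      rw [hshift]
      push_cast
      ring
    simp only [e]
    rw [ConcAux.Ex_add, ConcAux.Ex_one hp]
  have h2 : Ex (bern p) (fun ω : EIdx R → Bool =>
      (redge (2 * M) ((stp (opn ω))^[k] (HL s j)) : ℝ)) - η ≤
      Ex (bern p) (fun ω : EIdx R → Bool =>
      (redge (2 * M + 1) ((stp (opn ω))^[k] (HL s j)) : ℝ)) := by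
    have h3 : Ex (bern p) (fun ω : EIdx R → Bool =>
        (redge (2 * M) ((stp (opn ω))^[k] (HL s j)) : ℝ)) -
        Pr (bern p) (fun ω : EIdx R → Bool =>
          ¬ ∃ v ∈ (stp (opn ω))^[k] (HL s j), -(2 * M : ℤ) ≤ v.1) ≤
        Ex (bern p) (fun ω : EIdx R → Bool =>
        (redge (2 * M + 1) ((stp (opn ω))^[k] (HL s j)) : ℝ)) := by
      unfold Pr
      rw [← ConcAux.Ex_sub]
      apply ConcAux.Ex_mono hp.nonneg
      intro ω
      have hb := bdd_iter (opn ω) k s j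
      split_ifs with hc
      · have a1 : redge (2 * M) ((stp (opn ω))^[k] (HL s j)) ≤ -(2 * M : ℤ) := by
          rw [redge_le_iff hb]
          push Not at hc
          refine ⟨by push_cast; omega, fun v hv => (hc v hv).le⟩
        have a2 := neg_le_redge (M := 2 * M + 1) hb
        have a3 : redge (2 * M) ((stp (opn ω))^[k] (HL s j)) - 1 ≤
            redge (2 * M + 1) ((stp (opn ω))^[k] (HL s j)) := by
          push_cast at a2
          omega
        exact_mod_cast a3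
      · push Not at hc
        obtain ⟨v, hv, hvM⟩ := hc
        have a1 : redge (2 * M) ((stp (opn ω))^[k] (HL s j)) ≤
            redge (2 * M + 1) ((stp (opn ω))^[k] (HL s j)) := by
          rw [redge_le_iff hb]
          refine ⟨?_, fun v hv => le_redge hb hv⟩
          have := le_redge (M := 2 * M + 1) hb hv
          push_cast
          omega
        rw [sub_zero]
        exact_mod_cast a1
    rw [Pr_neg hp] at h3
    linarith
  linarith

end Pool.Agent.Helper33_FPP
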