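import Pool.Agent.Helper33_FPP.OrBasic
import Pool.Agent.Helper33_FPP.OrLaw
import Pool.Agent.Helper33_FPP.Conc
import Pool.Agent.Helper33_FPP.HalfProb
import Pool.Agent.Helper33_FPP.Peierls

/-!
# The enhanced oriented process (module PD3)
-/

set_option autoImplicit false

namespace Pool.Agent.Helper33_FPP

open Finset

namespace EnhAux

/-! ### Deterministic facts -/

lemma rmost_spec {S : Set (ℤ × ℤ)} {s j : ℤ} (hS : S ⊆ HL s j) (hne : S.Nonempty) :
    (∃ v ∈ S, v.1 = rmost S) ∧ (∀ v ∈ S, v.1 ≤ rmost S) ∧ rmost S ≤ j := by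
  have hb : BddAbove (Prod.fst '' S) := ⟨j, by
    rintro _ ⟨v, hv, rfl⟩
    exact (hS hv).2⟩
  obtain ⟨v, hv, h⟩ := Int.csSup_mem (hne.image Prod.fst) hb
  refine ⟨⟨v, hv, h⟩, fun w hw => le_csSup hb ⟨w, hw, rfl⟩, ?_⟩
  change sSup (Prod.fst '' S) ≤ j
  rw [← h]
  exact (hS hv).2

lemma stp_sub {O : Sym2 (ℤ × ℤ) → Prop} {s j : ℤ} {S : Set (ℤ × ℤ)} (h : S ⊆ HL s j) :
    stp O S ⊆ HL (s + 1) (j + 1) := by
  have := stp_iter_HL O 1 h
  simpa using this

lemma HL_mono {s j j' : ℤ} (h : j ≤ j') : HL s j ⊆ HL s j' := fun _ hv => ⟨hv.1, hv.2.trans h⟩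

lemma enh_sub (O : Sym2 (ℤ × ℤ) → Prop) (M t : ℕ) : enh O M t ⊆ HL t (2 * t) := by
  induction t with
  | zero => simp [enh]
  | succ t ih =>
    rintro v (hv | ⟨⟨hne, -, -⟩, rfl⟩)
    · obtain ⟨h1, h2⟩ := stp_sub ih hv
      exact ⟨by push_cast; exact h1, by push_cast; linarith⟩
    · obtain ⟨-, -, h⟩ := rmost_spec ih hne
      refine ⟨?_, ?_⟩
      · simp only [A, xadd]; push_cast; ring
      · simp only [xadd]; push_cast; linarith

lemma iter_sub_enh (O : Sym2 (ℤ × ℤ) → Prop) (M t : ℕ) :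
    (stp O)^[t] (HL 0 0) ⊆ enh O M t := by
  induction t with
  | zero => exact subset_rfl
  | succ t ih =>
    rw [Function.iterate_succ_apply']
    intro v hv
    exact Or.inl (stp_iter_mono (O := O) (O' := O) (fun _ h => h) 1 ih hv)

lemma stp_congr {O O' : Sym2 (ℤ × ℤ) → Prop} {s j : ℤ} {S : Set (ℤ × ℤ)} (hS : S ⊆ HL s j)
    (h : ∀ x y : ℤ × ℤ, A x = s → A y = s + 1 → (O s(x, y) ↔ O' s(x, y))) :
    stp O S = stp O' S := by
  ext v
  have key : ∀ x : ℤ × ℤ, A v = A x + 1 → ((x ∈ S ∧ O s(x, v)) ↔ (x ∈ S ∧ O' s(x, v))) := by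
    intro x hx
    constructor
    · rintro ⟨h1, h2⟩
      have h3 := (hS h1).1
      exact ⟨h1, (h x v h3 (by rw [hx, h3])).1 h2⟩
    · rintro ⟨h1, h2⟩
      have h3 := (hS h1).1
      exact ⟨h1, (h x v h3 (by rw [hx, h3])).2 h2⟩
  have k1 := key (v.1 - 1, v.2) (by simp only [A]; ring)
  have k2 := key (v.1, v.2 - 1) (by simp only [A]; ring)
  exact or_congr k1 k2

lemma GG_congr {O O' : Sym2 (ℤ × ℤ) → Prop} {M t : ℕ} {S : Set (ℤ × ℤ)}
    (h : ∀ e : Sym2 (ℤ × ℤ), (∀ z ∈ e, A z ≤ t + 1) → (O e ↔ O' e)) :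
    GG O M t S ↔ GG O' M t S := by
  unfold GG
  have h1 := h s((rmost S, t - rmost S), (rmost S + 1, t - rmost S)) (by
    intro z hz
    rw [Sym2.mem_iff] at hz
    rcases hz with rfl | rfl <;> simp only [A] <;> omega)
  have h2 := h s((rmost S + 1, t - rmost S - 1), (rmost S + 1, t - rmost S)) (by
    intro z hz
    rw [Sym2.mem_iff] at hz
    rcases hz with rfl | rfl <;> simp only [A] <;> omega)
  have h3 := h s((rmost S + 1, t - rmost S - 1), (rmost S + 2, t - rmost S - 1)) (by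
    intro z hz
    rw [Sym2.mem_iff] at hz
    rcases hz with rfl | rfl <;> simp only [A] <;> omega)
  rw [h1, h2, h3]

lemma enh_congr {O O' : Sym2 (ℤ × ℤ) → Prop} (M : ℕ) {t : ℕ}
    (h : ∀ e : Sym2 (ℤ × ℤ), (∀ z ∈ e, A z ≤ t) → (O e ↔ O' e)) :
    enh O M t = enh O' M t := by
  induction t with
  | zero => rfl
  | succ t ih =>
    have ih' := ih (fun e he => h e fun z hz => by
      have := he z hz
      push_cast
      linarith)
    have h1 : stp O (enh O M t) = stp O' (enh O M t) := by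
      refine stp_congr (enh_sub O M t) fun x y hx hy => h _ ?_
      intro z hz
      rw [Sym2.mem_iff] at hz
      rcases hz with rfl | rfl
      · rw [hx]; push_cast; linarith
      · rw [hy]; push_cast; exact le_rfl
    have h2 : GG O M t (enh O M t) ↔ GG O' M t (enh O M t) := by
      refine GG_congr fun e he => h e fun z hz => ?_
      have := he z hz
      push_cast
      exact this
    change stp O (enh O M t) ∪ {v | GG O M t (enh O M t) ∧ v = xadd t (enh O M t)} =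
      stp O' (enh O' M t) ∪ {v | GG O' M t (enh O' M t) ∧ v = xadd t (enh O' M t)}
    rw [← ih', h1]
    simp only [h2]

lemma iter_congr_hi {O O' : Sym2 (ℤ × ℤ) → Prop} {s j : ℤ} (k : ℕ)
    (h : ∀ e : Sym2 (ℤ × ℤ), (∀ z ∈ e, s ≤ A z) → (O e ↔ O' e)) :
    (stp O)^[k] (HL s j) = (stp O')^[k] (HL s j) := by
  induction k with
  | zero => rfl
  | succ k ih =>
    rw [Function.iterate_succ_apply', Function.iterate_succ_apply', ← ih]
    refine stp_congr (stp_iter_HL O k subset_rfl) fun x y hx hy => h _ ?_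
    intro z hz
    rw [Sym2.mem_iff] at hz
    rcases hz with rfl | rfl
    · rw [hx]; linarith [Int.natCast_nonneg k]
    · rw [hy]; linarith [Int.natCast_nonneg k]

lemma iter_empty (O : Sym2 (ℤ × ℤ) → Prop) (k : ℕ) : (stp O)^[k] ∅ = ∅ := by
  rw [Set.eq_empty_iff_forall_notMem]
  intro v hv
  obtain ⟨u, hu, -⟩ := stp_iter_start hv
  exact hu

lemma bdd_iter (O : Sym2 (ℤ × ℤ) → Prop) (k : ℕ) {s j : ℤ} {S : Set (ℤ × ℤ)} (h : S ⊆ HL s j) :
    BddAbove (Prod.fst '' ((stp O)^[k] S)) := ⟨j + k, by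
  rintro _ ⟨v, hv, rfl⟩
  exact (stp_iter_HL O k h hv).2⟩

/-- Effect of the addition on the final right edge. -/
lemma step_ineq (O : Sym2 (ℤ × ℤ) → Prop) (M N t k : ℕ) (hG : GG O M t (enh O M t)) :
    redge N ((stp O)^[k + 1] (enh O M t)) +
      (redge N ((stp O)^[k] (HL ((t + 1 : ℕ) : ℤ) (rmost (enh O M t) + 2))) -
        redge N ((stp O)^[k] (HL ((t + 1 : ℕ) : ℤ) (rmost (enh O M t) + 1)))) ≤
      redge N ((stp O)^[k] (enh O M (t + 1))) := by
  set b := rmost (enh O M t) with hb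
  obtain ⟨-, hbmax, -⟩ := rmost_spec (enh_sub O M t) hG.1
  have hS : stp O (enh O M t) ⊆ HL ((t + 1 : ℕ) : ℤ) (b + 1) := by
    have : enh O M t ⊆ HL t b := fun v hv => ⟨(enh_sub O M t hv).1, hbmax v hv⟩
    have := stp_sub (O := O) this
    push_cast
    exact this
  have hX : {v | GG O M t (enh O M t) ∧ v = xadd t (enh O M t)} = {xadd t (enh O M t)} := by
    ext v
    simp only [Set.mem_ofPred_eq, Set.mem_singleton_iff]
    exact ⟨fun h => h.2, fun h => ⟨hG, h⟩⟩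
  have hE : enh O M (t + 1) = stp O (enh O M t) ∪ {xadd t (enh O M t)} := by
    change stp O (enh O M t) ∪ {v | GG O M t (enh O M t) ∧ v = xadd t (enh O M t)} = _
    rw [hX]
  have hx : ({xadd t (enh O M t)} : Set (ℤ × ℤ)) ⊆ HL ((t + 1 : ℕ) : ℤ) (b + 2) := by
    rintro v rfl
    refine ⟨?_, ?_⟩
    · simp only [A, xadd]; push_cast; ring
    · simp only [xadd]; rfl
  have hH : HL ((t + 1 : ℕ) : ℤ) (b + 2) =
      HL ((t + 1 : ℕ) : ℤ) (b + 1) ∪ {xadd t (enh O M t)} := by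
    apply Set.Subset.antisymm
    · rintro v ⟨h1, h2⟩
      by_cases h : v.1 ≤ b + 1
      · exact Or.inl ⟨h1, h⟩
      · right
        simp only [Set.mem_singleton_iff, xadd]
        simp only [A] at h1
        push_cast at h1
        refine Prod.ext ?_ ?_
        · simp only; omega
        · simp only; omega
    · rintro v (h | h)
      · exact HL_mono (by linarith) h
      · exact hx h
  rw [Function.iterate_succ_apply, hE, hH, stp_iter_union, stp_iter_union,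
    redge_union (bdd_iter O k hS) (bdd_iter O k hx),
    redge_union (bdd_iter O k subset_rfl) (bdd_iter O k hx)]
  have h1 := redge_mono (M := N) (stp_iter_mono (O := O) (O' := O) (fun _ h => h) k hS)
    (bdd_iter O k subset_rfl)
  omega

lemma step_eq (O : Sym2 (ℤ × ℤ) → Prop) (M N t k : ℕ) (hG : ¬ GG O M t (enh O M t)) :
    redge N ((stp O)^[k + 1] (enh O M t)) = redge N ((stp O)^[k] (enh O M (t + 1))) := by
  have hX : {v | GG O M t (enh O M t) ∧ v = xadd t (enh O M t)} = ∅ := by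
    ext v
    simp only [Set.mem_ofPred_eq, Set.mem_empty_iff_false, iff_false]
    exact fun h => hG h.1
  have hE : enh O M (t + 1) = stp O (enh O M t) := by
    change stp O (enh O M t) ∪ {v | GG O M t (enh O M t) ∧ v = xadd t (enh O M t)} = _
    rw [hX, Set.union_empty]
  rw [Function.iterate_succ_apply, hE]

/-! ### Indicators -/

/-- Indicator of a proposition. -/
noncomputable def ind (P : Prop) : ℝ := by
  classical
  exact if P then 1 else 0

lemma ind_pos {P : Prop} (h : P) : ind P = 1 := by unfold ind; exact if_pos h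
lemma ind_neg {P : Prop} (h : ¬ P) : ind P = 0 := by unfold ind; exact if_neg h
lemma ind_nonneg (P : Prop) : 0 ≤ ind P := by
  by_cases h : P
  · rw [ind_pos h]; norm_num
  · rw [ind_neg h]
lemma ind_le_one (P : Prop) : ind P ≤ 1 := by
  by_cases h : P
  · rw [ind_pos h]
  · rw [ind_neg h]; norm_num
lemma ind_congr {P Q : Prop} (h : P ↔ Q) : ind P = ind Q := by rw [propext h]
lemma ind_not (P : Prop) : ind (¬ P) = 1 - ind P := by
  by_cases h : P
  · rw [ind_pos h, ind_neg (not_not.2 h)]; norm_num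
  · rw [ind_neg h, ind_pos h]; norm_num

lemma Pr_eq_ind {ι V : Type*} [Fintype ι] [DecidableEq ι] [Fintype V] (p : V → ℝ)
    (E : (ι → V) → Prop) : Pr p E = Ex p (fun ω => ind (E ω)) := rfl

/-! ### Edges -/

lemma opn_congr {R : ℕ} {ω ω' : EIdx R → Bool} {e : Sym2 (ℤ × ℤ)}
    (h : ∀ i : EIdx R, i.1 = e → ω i = ω' i) : opn ω e ↔ opn ω' e := by
  constructor
  · rintro ⟨h1, h2⟩
    exact ⟨h1, by rw [← h ⟨e, h1⟩ rfl]; exact h2⟩
  · rintro ⟨h1, h2⟩
    exact ⟨h1, by rw [h ⟨e, h1⟩ rfl]; exact h2⟩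

section Expect

variable {R : ℕ} {p : ℝ}

lemma Ex_open_eq (hp : IsProb (bern p)) {e : Sym2 (ℤ × ℤ)} (he : e ∈ edgesIn R)
    {f : (EIdx R → Bool) → ℝ}
    (hf : ∀ ω ω' : EIdx R → Bool, (∀ i : EIdx R, i.1 ≠ e → ω i = ω' i) → f ω = f ω') :
    Ex (bern p) (fun ω => ind (opn ω e) * f ω) = p * Ex (bern p) f := by
  have h1 := Ex_indep hp ({⟨e, he⟩} : Finset (EIdx R)) (f := fun ω => ind (opn ω e)) (g := f)
    (fun ω ω' h => ind_congr (opn_congr fun i hi => h i (by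
      rw [Finset.mem_singleton]; exact Subtype.ext hi)))
    (fun ω ω' h => hf ω ω' fun i hi => h i (by
      rw [Finset.mem_singleton]
      intro h2
      exact hi (by rw [h2])))
  rw [h1]
  have h2 := PeierlsAux.Ex_prod hp ({⟨e, he⟩} : Finset (EIdx R)) (fun v : Bool => ind (v = true))
  simp only [Finset.prod_singleton, Finset.card_singleton, pow_one, Fintype.sum_bool] at h2
  have h3 : (fun ω : EIdx R → Bool => ind (opn ω e)) = fun ω => ind (ω ⟨e, he⟩ = true) := by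
    funext ω
    refine ind_congr ⟨fun h => h.2, fun h => ⟨he, h⟩⟩
  rw [h3, h2, ind_pos trivial, ind_neg (P := (false = true)) (by decide)]
  simp [bern]

lemma Ex_open_le (hp : IsProb (bern p)) (hp0 : 0 ≤ p) (e : Sym2 (ℤ × ℤ))
    {f : (EIdx R → Bool) → ℝ} (hf0 : ∀ ω, 0 ≤ f ω)
    (hf : ∀ ω ω' : EIdx R → Bool, (∀ i : EIdx R, i.1 ≠ e → ω i = ω' i) → f ω = f ω') :
    Ex (bern p) (fun ω => ind (opn ω e) * f ω) ≤ p * Ex (bern p) f := by
  by_cases he : e ∈ edgesIn R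
  · exact (Ex_open_eq hp he hf).le
  · have h1 : (fun ω : EIdx R → Bool => ind (opn ω e) * f ω) = fun _ => 0 := by
      funext ω
      rw [ind_neg (fun h => he h.1), zero_mul]
    rw [h1, ConcAux.Ex_const hp]
    exact mul_nonneg hp0 (ConcAux.Ex_nonneg hp.nonneg hf0)

lemma Ex_closed_ge (hp : IsProb (bern p)) (hp0 : 0 ≤ p) (e : Sym2 (ℤ × ℤ))
    {f : (EIdx R → Bool) → ℝ} (hf0 : ∀ ω, 0 ≤ f ω)
    (hf : ∀ ω ω' : EIdx R → Bool, (∀ i : EIdx R, i.1 ≠ e → ω i = ω' i) → f ω = f ω') :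
    (1 - p) * Ex (bern p) f ≤ Ex (bern p) (fun ω => ind (¬ opn ω e) * f ω) := by
  have h1 : (fun ω : EIdx R → Bool => ind (¬ opn ω e) * f ω) =
      fun ω => f ω - ind (opn ω e) * f ω := by
    funext ω
    rw [ind_not]
    ring
  rw [h1, ConcAux.Ex_sub]
  have := Ex_open_le hp hp0 e hf0 hf
  linarith

end Expect

/-- The rightmost point of the enhanced process has first coordinate `c`. -/
def Ue (O : Sym2 (ℤ × ℤ) → Prop) (M t : ℕ) (c : ℤ) : Prop :=
  (enh O M t).Nonempty ∧ rmost (enh O M t) = c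

/-- The edges of `GG`. -/
def e1 (t : ℕ) (c : ℤ) : Sym2 (ℤ × ℤ) := s((c, t - c), (c + 1, t - c))
/-- The edges of `GG`. -/
def e2 (t : ℕ) (c : ℤ) : Sym2 (ℤ × ℤ) := s((c + 1, t - c - 1), (c + 1, t - c))
/-- The edges of `GG`. -/
def e3 (t : ℕ) (c : ℤ) : Sym2 (ℤ × ℤ) := s((c + 1, t - c - 1), (c + 2, t - c - 1))
/-- The out-edges of the added point. -/
def f1 (t : ℕ) (c : ℤ) : Sym2 (ℤ × ℤ) := s((c + 2, t - c - 1), (c + 2 + 1, t - c - 1))
/-- The out-edges of the added point. -/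
def f2 (t : ℕ) (c : ℤ) : Sym2 (ℤ × ℤ) := s((c + 2, t - c - 1), (c + 2, t - c - 1 + 1))

lemma Ue_congr {R M t : ℕ} {c : ℤ} {ω ω' : EIdx R → Bool}
    (h : ∀ i : EIdx R, (∀ z ∈ i.1, A z ≤ t) → ω i = ω' i) :
    ind (Ue (opn ω) M t c) = ind (Ue (opn ω') M t c) := by
  have : enh (opn ω) M t = enh (opn ω') M t :=
    enh_congr M fun e he => opn_congr fun i hi => h i (by rw [hi]; exact he)
  unfold Ue
  rw [this]

/-- A vertex above the level `t`. -/
lemma not_lo {e : Sym2 (ℤ × ℤ)} {t : ℕ} {z : ℤ × ℤ} (hz : z ∈ e) (h : (t : ℤ) < A z) :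
    ¬ ∀ z ∈ e, A z ≤ t := fun h' => absurd (h' z hz) (by omega)

lemma Ue_congr_ne {R M t : ℕ} {c : ℤ} {ω ω' : EIdx R → Bool} {e : Sym2 (ℤ × ℤ)}
    {z : ℤ × ℤ} (hz : z ∈ e) (hA : (t : ℤ) < A z)
    (h : ∀ i : EIdx R, i.1 ≠ e → ω i = ω' i) :
    ind (Ue (opn ω) M t c) = ind (Ue (opn ω') M t c) := by
  refine Ue_congr fun i hi => h i ?_
  rintro rfl
  exact not_lo hz hA hi

lemma opn_congr_ne {R : ℕ} {ω ω' : EIdx R → Bool} {e e' : Sym2 (ℤ × ℤ)}
    (h : ∀ i : EIdx R, i.1 ≠ e → ω i = ω' i) (hne : e' ≠ e) :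
    ind (opn ω e') = ind (opn ω' e') :=
  ind_congr (opn_congr fun i hi => h i (by rw [hi]; exact hne))

lemma nopn_congr_ne {R : ℕ} {ω ω' : EIdx R → Bool} {e e' : Sym2 (ℤ × ℤ)}
    (h : ∀ i : EIdx R, i.1 ≠ e → ω i = ω' i) (hne : e' ≠ e) :
    ind (¬ opn ω e') = ind (¬ opn ω' e') :=
  ind_congr (not_congr (opn_congr fun i hi => h i (by rw [hi]; exact hne)))

lemma hz1 (t : ℕ) (c : ℤ) : (c + 1, (t : ℤ) - c) ∈ e1 t c ∧ (c, (t : ℤ) - c) ∈ e1 t c := by
  simp [e1]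
lemma hz2 (t : ℕ) (c : ℤ) : (c + 1, (t : ℤ) - c) ∈ e2 t c ∧ (c + 1, (t : ℤ) - c - 1) ∈ e2 t c := by
  simp [e2]
lemma hz3 (t : ℕ) (c : ℤ) :
    (c + 2, (t : ℤ) - c - 1) ∈ e3 t c ∧ (c + 1, (t : ℤ) - c - 1) ∈ e3 t c := by
  simp [e3]

lemma ne12 (t : ℕ) (c : ℤ) : e1 t c ≠ e2 t c := by
  unfold e1 e2; simp
lemma ne13 (t : ℕ) (c : ℤ) : e1 t c ≠ e3 t c := by
  unfold e1 e3; simp
lemma ne23 (t : ℕ) (c : ℤ) : e2 t c ≠ e3 t c := by
  unfold e2 e3; simp
lemma nef1 (t : ℕ) (c : ℤ) : f1 t c ≠ e1 t c ∧ f1 t c ≠ e2 t c ∧ f1 t c ≠ e3 t c := by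
  unfold f1 e1 e2 e3
  refine ⟨?_, ?_, ?_⟩ <;> simp
lemma nef2 (t : ℕ) (c : ℤ) :
    f2 t c ≠ e1 t c ∧ f2 t c ≠ e2 t c ∧ f2 t c ≠ e3 t c ∧ f2 t c ≠ f1 t c := by
  unfold f1 f2 e1 e2 e3
  refine ⟨?_, ?_, ?_, ?_⟩ <;> simp

lemma GG_iff {O : Sym2 (ℤ × ℤ) → Prop} {M t : ℕ} {S : Set (ℤ × ℤ)} :
    GG O M t S ↔ S.Nonempty ∧ -(M : ℤ) ≤ rmost S ∧ O (e1 t (rmost S)) ∧ O (e2 t (rmost S)) ∧
      O (e3 t (rmost S)) := Iff.rfl

/-- Decomposition according to the position of the right edge. -/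
lemma sum_GG (O : Sym2 (ℤ × ℤ) → Prop) (M t : ℕ) (F : ℤ → ℝ) :
    ind (GG O M t (enh O M t)) * F (rmost (enh O M t)) =
      ∑ c ∈ Icc (-(M : ℤ)) (2 * t), ind (O (e1 t c)) * (ind (O (e2 t c)) * (ind (O (e3 t c)) *
        (ind (Ue O M t c) * F c))) := by
  by_cases h : (enh O M t).Nonempty ∧ -(M : ℤ) ≤ rmost (enh O M t)
  · obtain ⟨-, -, h3⟩ := rmost_spec (enh_sub O M t) h.1
    rw [Finset.sum_eq_single_of_mem (rmost (enh O M t)) (Finset.mem_Icc.2 ⟨h.2, h3⟩)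
      (fun c _ hc => by
        rw [ind_neg (P := Ue O M t c) (fun h' => hc h'.2.symm)]
        ring)]
    rw [ind_pos (P := Ue O M t (rmost (enh O M t))) ⟨h.1, rfl⟩, one_mul]
    by_cases h1 : O (e1 t (rmost (enh O M t)))
    · by_cases h2 : O (e2 t (rmost (enh O M t)))
      · by_cases h3 : O (e3 t (rmost (enh O M t)))
        · rw [ind_pos h1, ind_pos h2, ind_pos h3, ind_pos (GG_iff.2 ⟨h.1, h.2, h1, h2, h3⟩)]
          ring
        · rw [ind_neg h3, ind_neg (fun hG => h3 (GG_iff.1 hG).2.2.2.2)]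
          ring
      · rw [ind_neg h2, ind_neg (fun hG => h2 (GG_iff.1 hG).2.2.2.1)]
        ring
    · rw [ind_neg h1, ind_neg (fun hG => h1 (GG_iff.1 hG).2.2.1)]
      ring
  · rw [ind_neg (P := GG O M t (enh O M t)) (fun hG => h ⟨hG.1, hG.2.1⟩), zero_mul]
    symm
    apply Finset.sum_eq_zero
    intro c hc
    rw [ind_neg (P := Ue O M t c) (fun h' => h ⟨h'.1, by
      rw [h'.2]
      exact (Finset.mem_Icc.1 hc).1⟩)]
    ring

lemma sum_Ue_le (O : Sym2 (ℤ × ℤ) → Prop) (M t : ℕ) :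
    ∑ c ∈ Icc (-(M : ℤ)) (2 * t), ind (Ue O M t c) ≤ 1 := by
  by_cases h : (enh O M t).Nonempty ∧ rmost (enh O M t) ∈ Icc (-(M : ℤ)) (2 * t)
  · rw [Finset.sum_eq_single_of_mem (rmost (enh O M t)) h.2
      (fun c _ hc => ind_neg (fun h' => hc h'.2.symm))]
    exact ind_le_one _
  · rw [Finset.sum_eq_zero (fun c hc => ind_neg (fun h' => h ⟨h'.1, by rw [h'.2]; exact hc⟩))]
    norm_num

lemma le_sum_Ue (O : Sym2 (ℤ × ℤ) → Prop) (M t : ℕ) :
    ind (∃ v ∈ (stp O)^[t] (HL 0 0), -(M : ℤ) ≤ v.1) ≤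
      ∑ c ∈ Icc (-(M : ℤ)) (2 * t), ind (Ue O M t c) := by
  by_cases h : ∃ v ∈ (stp O)^[t] (HL 0 0), -(M : ℤ) ≤ v.1
  · obtain ⟨v, hv, hv1⟩ := h
    have hv' := iter_sub_enh O M t hv
    obtain ⟨-, h2, h3⟩ := rmost_spec (enh_sub O M t) ⟨v, hv'⟩
    have h4 : rmost (enh O M t) ∈ Icc (-(M : ℤ)) (2 * t) :=
      Finset.mem_Icc.2 ⟨hv1.trans (h2 v hv'), h3⟩
    calc ind (∃ v ∈ (stp O)^[t] (HL 0 0), -(M : ℤ) ≤ v.1) ≤ 1 := ind_le_one _
      _ = ind (Ue O M t (rmost (enh O M t))) := (ind_pos ⟨⟨v, hv'⟩, rfl⟩).symm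
      _ ≤ _ := Finset.single_le_sum (f := fun c => ind (Ue O M t c))
        (fun c _ => ind_nonneg _) h4
  · rw [ind_neg h]
    exact Finset.sum_nonneg fun c _ => ind_nonneg _

lemma edge_mem {R : ℕ} {x y : ℤ × ℤ} (hx : -(R : ℤ) ≤ x.1 ∧ x.1 ≤ R ∧ -(R : ℤ) ≤ x.2 ∧ x.2 ≤ R)
    (hy : -(R : ℤ) ≤ y.1 ∧ y.1 ≤ R ∧ -(R : ℤ) ≤ y.2 ∧ y.2 ≤ R)
    (h : (x.1 - y.1).natAbs + (x.2 - y.2).natAbs = 1) : s(x, y) ∈ edgesIn R := by
  rw [mem_edgesIn]
  refine ⟨?_, h⟩
  intro v hv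
  rw [Sym2.mem_iff] at hv
  rw [mem_box]
  rcases hv with rfl | rfl
  · exact ⟨⟨hx.1, hx.2.1⟩, hx.2.2⟩
  · exact ⟨⟨hy.1, hy.2.1⟩, hy.2.2⟩

/-- The gain of the final right edge for half-lines. -/
noncomputable def gn (O : Sym2 (ℤ × ℤ) → Prop) (N t k : ℕ) (c : ℤ) : ℝ :=
  (redge N ((stp O)^[k] (HL ((t + 1 : ℕ) : ℤ) (c + 2))) : ℝ) -
    redge N ((stp O)^[k] (HL ((t + 1 : ℕ) : ℤ) (c + 1)))

lemma gn_congr {R N t k : ℕ} {c : ℤ} {ω ω' : EIdx R → Bool}
    (h : ∀ i : EIdx R, (∀ z ∈ i.1, ((t + 1 : ℕ) : ℤ) ≤ A z) → ω i = ω' i) :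
    gn (opn ω) N t k c = gn (opn ω') N t k c := by
  have h1 : ∀ j : ℤ, (stp (opn ω))^[k] (HL ((t + 1 : ℕ) : ℤ) j) =
      (stp (opn ω'))^[k] (HL ((t + 1 : ℕ) : ℤ) j) := fun j =>
    iter_congr_hi k fun e he => opn_congr fun i hi => h i (by rw [hi]; exact he)
  unfold gn
  rw [h1, h1]

lemma gn_congr_ne {R N t k : ℕ} {c : ℤ} {ω ω' : EIdx R → Bool} {e : Sym2 (ℤ × ℤ)}
    {z : ℤ × ℤ} (hz : z ∈ e) (hA : A z ≤ t)
    (h : ∀ i : EIdx R, i.1 ≠ e → ω i = ω' i) :
    gn (opn ω) N t k c = gn (opn ω') N t k c := by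
  refine gn_congr fun i hi => h i ?_
  rintro rfl
  have := hi z hz
  push_cast at this
  omega

lemma mean_term {R M N t k : ℕ} {p : ℝ} (hp : IsProb (bern p)) {c : ℤ}
    (hc : c ∈ Icc (-(M : ℤ)) (2 * t)) (hR : 2 * M + 10 * t + 10 ≤ R) :
    Ex (bern p) (fun ω : EIdx R → Bool => ind (opn ω (e1 t c)) * (ind (opn ω (e2 t c)) *
      (ind (opn ω (e3 t c)) * (ind (Ue (opn ω) M t c) * gn (opn ω) N t k c)))) =
    p ^ 3 * (Ex (bern p) (fun ω : EIdx R → Bool => ind (Ue (opn ω) M t c)) *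
      Ex (bern p) (fun ω : EIdx R → Bool => gn (opn ω) N t k c)) := by
  rw [Finset.mem_Icc] at hc
  obtain ⟨hc1, hc2⟩ := hc
  have hR' : (2 * M + 10 * t + 10 : ℤ) ≤ R := by exact_mod_cast hR
  have m1 : e1 t c ∈ edgesIn R := edge_mem (by simp only; omega) (by simp only; omega)
    (by simp only; omega)
  have m2 : e2 t c ∈ edgesIn R := edge_mem (by simp only; omega) (by simp only; omega)
    (by simp only; omega)
  have m3 : e3 t c ∈ edgesIn R := edge_mem (by simp only; omega) (by simp only; omega)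
    (by simp only; omega)
  have A1 : (t : ℤ) < A (c + 1, (t : ℤ) - c) := by simp only [A]; omega
  have A2 : A (c, (t : ℤ) - c) ≤ t := by simp only [A]; omega
  have A3 : A (c + 1, (t : ℤ) - c - 1) ≤ t := by simp only [A]; omega
  have A4 : (t : ℤ) < A (c + 2, (t : ℤ) - c - 1) := by simp only [A]; omega
  rw [Ex_open_eq hp m1 (fun ω ω' h => by
    rw [opn_congr_ne h (ne12 t c).symm, opn_congr_ne h (ne13 t c).symm,
      Ue_congr_ne (hz1 t c).1 A1 h, gn_congr_ne (hz1 t c).2 A2 h])]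
  rw [Ex_open_eq hp m2 (fun ω ω' h => by
    rw [opn_congr_ne h (ne23 t c).symm,
      Ue_congr_ne (hz2 t c).1 A1 h, gn_congr_ne (hz2 t c).2 A3 h])]
  rw [Ex_open_eq hp m3 (fun ω ω' h => by
    rw [Ue_congr_ne (hz3 t c).1 A4 h, gn_congr_ne (hz3 t c).2 A3 h])]
  classical
  have h5 := Ex_indep hp (Finset.univ.filter (fun i : EIdx R => ∀ z ∈ i.1, A z ≤ t))
    (f := fun ω : EIdx R → Bool => ind (Ue (opn ω) M t c))
    (g := fun ω : EIdx R → Bool => gn (opn ω) N t k c)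
    (fun ω ω' h => Ue_congr fun i hi => h i (by simp only [Finset.mem_filter, Finset.mem_univ, true_and]; exact hi))
    (fun ω ω' h => gn_congr fun i hi => h i (by
      simp only [Finset.mem_filter, Finset.mem_univ, true_and]
      intro h6
      obtain ⟨z, hz⟩ : ∃ z, z ∈ i.1 := by
        obtain ⟨e, he⟩ := i
        induction e using Sym2.ind with
        | _ x y => exact ⟨x, by simp⟩
      have h7 := hi z hz
      have h8 := h6 z hz
      push_cast at h7
      omega))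
  rw [h5]
  ring

lemma step_mean {R M n t k : ℕ} {p θ : ℝ} (hp : IsProb (bern p)) (hp0 : 0 ≤ p)
    (htk : t + k + 1 = n) (hR : 2 * M + 10 * n + 10 ≤ R) (hθ : 0 ≤ θ)
    (hgain : ∀ j : ℤ, -(M : ℤ) ≤ j → j ≤ 3 * n + 3 →
      θ ≤ Ex (bern p) (fun ω : EIdx R → Bool =>
          (redge (2 * M) ((stp (opn ω))^[k] (HL ((t + 1 : ℕ) : ℤ) (j + 1))) : ℝ)) -
        Ex (bern p) (fun ω : EIdx R → Bool =>
          (redge (2 * M) ((stp (opn ω))^[k] (HL ((t + 1 : ℕ) : ℤ) j)) : ℝ)))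
    (hsurv : θ ≤ Pr (bern p) (fun ω : EIdx R → Bool =>
      ∃ v ∈ (stp (opn ω))^[t] (HL 0 0), -(M : ℤ) ≤ v.1)) :
    Ex (bern p) (fun ω : EIdx R → Bool =>
        (redge (2 * M) ((stp (opn ω))^[k + 1] (enh (opn ω) M t)) : ℝ)) + p ^ 3 * (θ * θ) ≤
      Ex (bern p) (fun ω : EIdx R → Bool =>
        (redge (2 * M) ((stp (opn ω))^[k] (enh (opn ω) M (t + 1))) : ℝ)) := by
  have h1 : ∀ ω : EIdx R → Bool,
      (redge (2 * M) ((stp (opn ω))^[k + 1] (enh (opn ω) M t)) : ℝ) +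
        ind (GG (opn ω) M t (enh (opn ω) M t)) *
          gn (opn ω) (2 * M) t k (rmost (enh (opn ω) M t)) ≤
      (redge (2 * M) ((stp (opn ω))^[k] (enh (opn ω) M (t + 1))) : ℝ) := by
    intro ω
    by_cases hG : GG (opn ω) M t (enh (opn ω) M t)
    · rw [ind_pos hG, one_mul]
      have := step_ineq (opn ω) M (2 * M) t k hG
      unfold gn
      exact_mod_cast this
    · rw [ind_neg hG, zero_mul, add_zero, step_eq (opn ω) M (2 * M) t k hG]
  have h2 := ConcAux.Ex_mono hp.nonneg h1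
  rw [ConcAux.Ex_add] at h2
  have h3 : Ex (bern p) (fun ω : EIdx R → Bool => ind (GG (opn ω) M t (enh (opn ω) M t)) *
      gn (opn ω) (2 * M) t k (rmost (enh (opn ω) M t))) =
      ∑ c ∈ Icc (-(M : ℤ)) (2 * t), p ^ 3 *
        (Ex (bern p) (fun ω : EIdx R → Bool => ind (Ue (opn ω) M t c)) *
          Ex (bern p) (fun ω : EIdx R → Bool => gn (opn ω) (2 * M) t k c)) := by
    simp only [sum_GG]
    rw [ConcAux.Ex_sum]
    exact Finset.sum_congr rfl fun c hc => mean_term hp hc (by omega)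
  have h4 : p ^ 3 * (θ * θ) ≤ ∑ c ∈ Icc (-(M : ℤ)) (2 * t), p ^ 3 *
        (Ex (bern p) (fun ω : EIdx R → Bool => ind (Ue (opn ω) M t c)) *
          Ex (bern p) (fun ω : EIdx R → Bool => gn (opn ω) (2 * M) t k c)) := by
    have h5 : ∀ c ∈ Icc (-(M : ℤ)) (2 * t),
        θ ≤ Ex (bern p) (fun ω : EIdx R → Bool => gn (opn ω) (2 * M) t k c) := by
      intro c hc
      rw [Finset.mem_Icc] at hc
      have h6 := hgain (c + 1) (by omega) (by omega)
      unfold gn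
      rw [ConcAux.Ex_sub]
      have h7 : c + 1 + 1 = c + 2 := by ring
      rw [h7] at h6
      exact h6
    rw [← Finset.mul_sum]
    refine mul_le_mul_of_nonneg_left ?_ (pow_nonneg hp0 3)
    calc θ * θ ≤ (∑ c ∈ Icc (-(M : ℤ)) (2 * t),
          Ex (bern p) (fun ω : EIdx R → Bool => ind (Ue (opn ω) M t c))) * θ := by
          refine mul_le_mul_of_nonneg_right ?_ hθ
          refine hsurv.trans ?_
          rw [Pr_eq_ind, ← ConcAux.Ex_sum]
          exact ConcAux.Ex_mono hp.nonneg fun ω => le_sum_Ue (opn ω) M t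
      _ = ∑ c ∈ Icc (-(M : ℤ)) (2 * t),
          Ex (bern p) (fun ω : EIdx R → Bool => ind (Ue (opn ω) M t c)) * θ := by
          rw [Finset.sum_mul]
      _ ≤ _ := Finset.sum_le_sum fun c hc => mul_le_mul_of_nonneg_left (h5 c hc)
          (ConcAux.Ex_nonneg hp.nonneg fun ω => ind_nonneg _)
  linarith

end EnhAux

open EnhAux

theorem enh_mean {p : ℝ} (hp0 : 0 < p) (hp1 : p ≤ 1) (n : ℕ) {η : ℝ} (hη : 0 < η) :
    ∃ M₀ : ℕ, ∀ M, M₀ ≤ M → ∀ R, 2 * M + 10 * n + 10 ≤ R →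
      mr p n (2 * M) + (1 - η) * p ^ 3 * n ≤
        Ex (bern p) (fun ω : EIdx R → Bool => (redge (2 * M) (enh (opn ω) M n) : ℝ)) := by
  have hp := HalfAux.bern_prob hp0.le hp1
  set η' : ℝ := min (η / 2) (1 / 2) with hη'
  have hη'0 : 0 < η' := lt_min (by linarith) (by norm_num)
  have hη'1 : η' ≤ η / 2 := min_le_left _ _
  have hη'2 : η' ≤ 1 / 2 := min_le_right _ _
  obtain ⟨M1, hM1⟩ := survive hp0 hp1 n hη'0
  obtain ⟨M2, hM2⟩ := gain hp0 hp1 n hη'0
  refine ⟨2 * M1 + 2 + M2, fun M hM R hR => ?_⟩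
  have key : ∀ t : ℕ, t ≤ n → mr p n (2 * M) + p ^ 3 * ((1 - η') * (1 - η')) * t ≤
      Ex (bern p) (fun ω : EIdx R → Bool =>
        (redge (2 * M) ((stp (opn ω))^[n - t] (enh (opn ω) M t)) : ℝ)) := by
    intro t
    induction t with
    | zero =>
      intro _
      have := mr_eq (t := p) (n := n) (M := 2 * M) (R := R) (by omega)
      simp only [Nat.sub_zero, Nat.cast_zero, mul_zero, add_zero]
      rw [← this]
      exact le_rfl
    | succ t ih =>
      intro ht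
      have h1 := ih (by omega)
      have h2 := step_mean (R := R) (M := M) (n := n) (t := t) (k := n - (t + 1)) (θ := 1 - η') hp
        hp0.le (by omega) hR (by linarith)
        (fun j hj1 hj2 => hM2 M (by omega) R hR _ (by omega) (t + 1) ht j hj1 hj2)
        (by
          refine (hM1 (M / 2) (by omega) R (by omega) t (by omega) 0 (by omega) 0 (by omega)
            (by omega)).trans ?_
          rw [Pr_eq_ind, Pr_eq_ind]
          refine ConcAux.Ex_mono hp.nonneg fun ω => ?_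
          by_cases h : ∃ v ∈ (stp (opn ω))^[t] (HL 0 0), -(M : ℤ) ≤ v.1
          · rw [ind_pos h]
            exact ind_le_one _
          · rw [ind_neg h, ind_neg]
            rintro ⟨v, hv, hv1⟩
            exact h ⟨v, hv, by push_cast at hv1; omega⟩)
      have h3 : n - t = n - (t + 1) + 1 := by omega
      rw [h3] at h1
      push_cast
      linarith
  have h1 := key n le_rfl
  simp only [Nat.sub_self, Function.iterate_zero, id_eq] at h1
  refine le_trans ?_ h1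
  have h2 : 1 - η ≤ (1 - η') * (1 - η') := by nlinarith
  have h3 : 0 ≤ p ^ 3 * (n : ℝ) := by positivity
  nlinarith

theorem enh_used {p : ℝ} (hp0 : 0 ≤ p) (hp1 : p ≤ 1) (n M R : ℕ) :
    Ex (bern p) (fun ω : EIdx R → Bool => (nused (opn ω) M n : ℝ)) ≤
      n * (p ^ 3 * (1 - (1 - p) ^ 2)) := by
  have hp := HalfAux.bern_prob hp0 hp1
  have h1 : ∀ ω : EIdx R → Bool, (nused (opn ω) M n : ℝ) =
      ∑ t ∈ range n, ind (usedAt (opn ω) M t) := by
    intro ω
    classical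
    unfold nused
    rw [Finset.card_filter]
    push_cast
    refine Finset.sum_congr rfl fun t _ => ?_
    by_cases h : usedAt (opn ω) M t
    · rw [ind_pos h, if_pos h]
    · rw [ind_neg h, if_neg h]
  simp only [h1]
  rw [ConcAux.Ex_sum]
  have h2 : ∀ t ∈ range n, Ex (bern p) (fun ω : EIdx R → Bool => ind (usedAt (opn ω) M t)) ≤
      p ^ 3 * (1 - (1 - p) ^ 2) := by
    intro t _
    have h3 : ∀ ω : EIdx R → Bool, ind (usedAt (opn ω) M t) =
        ind (GG (opn ω) M t (enh (opn ω) M t)) *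
          (fun c => 1 - ind (¬ opn ω (f1 t c)) * ind (¬ opn ω (f2 t c)))
            (rmost (enh (opn ω) M t)) := by
      intro ω
      by_cases hG : GG (opn ω) M t (enh (opn ω) M t)
      · rw [ind_pos hG, one_mul]
        by_cases ha : opn ω (f1 t (rmost (enh (opn ω) M t)))
        · rw [ind_pos (P := usedAt (opn ω) M t) ⟨hG, Or.inl ha⟩]
          simp only
          rw [ind_neg (P := ¬ opn ω (f1 t (rmost (enh (opn ω) M t)))) (not_not.2 ha)]
          ring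
        · by_cases hb : opn ω (f2 t (rmost (enh (opn ω) M t)))
          · rw [ind_pos (P := usedAt (opn ω) M t) ⟨hG, Or.inr hb⟩]
            simp only
            rw [ind_neg (P := ¬ opn ω (f2 t (rmost (enh (opn ω) M t)))) (not_not.2 hb)]
            ring
          · rw [ind_neg (P := usedAt (opn ω) M t) (fun h => h.2.elim ha hb)]
            simp only
            rw [ind_pos ha, ind_pos hb]
            ring
      · rw [ind_neg hG, ind_neg (P := usedAt (opn ω) M t) (fun h => hG h.1), zero_mul]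
    simp only [h3]
    have h4 : ∀ ω : EIdx R → Bool, ind (GG (opn ω) M t (enh (opn ω) M t)) *
        (1 - ind (¬ opn ω (f1 t (rmost (enh (opn ω) M t)))) *
          ind (¬ opn ω (f2 t (rmost (enh (opn ω) M t))))) = _ := fun ω =>
      sum_GG (opn ω) M t (fun c => 1 - ind (¬ opn ω (f1 t c)) * ind (¬ opn ω (f2 t c)))
    simp only [h4]
    rw [ConcAux.Ex_sum]
    have h5 : ∀ c ∈ Icc (-(M : ℤ)) (2 * t),
        Ex (bern p) (fun ω : EIdx R → Bool => ind (opn ω (e1 t c)) * (ind (opn ω (e2 t c)) *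
          (ind (opn ω (e3 t c)) * (ind (Ue (opn ω) M t c) *
            (1 - ind (¬ opn ω (f1 t c)) * ind (¬ opn ω (f2 t c))))))) ≤
        p ^ 3 * (1 - (1 - p) ^ 2) *
          Ex (bern p) (fun ω : EIdx R → Bool => ind (Ue (opn ω) M t c)) := by
      intro c _
      have A1 : (t : ℤ) < A (c + 1, (t : ℤ) - c) := by simp only [A]; omega
      have A4 : (t : ℤ) < A (c + 2, (t : ℤ) - c - 1) := by simp only [A]; omega
      have hn : ∀ ω : EIdx R → Bool, 0 ≤ 1 - ind (¬ opn ω (f1 t c)) * ind (¬ opn ω (f2 t c)) := by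
        intro ω
        have a1 := ind_le_one (¬ opn ω (f1 t c))
        have a2 := ind_le_one (¬ opn ω (f2 t c))
        have a3 := ind_nonneg (¬ opn ω (f1 t c))
        have a4 := ind_nonneg (¬ opn ω (f2 t c))
        nlinarith
      have hn1 : ∀ ω : EIdx R → Bool, 0 ≤ ind (Ue (opn ω) M t c) *
          (1 - ind (¬ opn ω (f1 t c)) * ind (¬ opn ω (f2 t c))) :=
        fun ω => mul_nonneg (ind_nonneg _) (hn ω)
      have s1 := Ex_open_le hp hp0 (e1 t c) (f := fun ω : EIdx R → Bool => (ind (opn ω (e2 t c)) *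
          (ind (opn ω (e3 t c)) * (ind (Ue (opn ω) M t c) *
            (1 - ind (¬ opn ω (f1 t c)) * ind (¬ opn ω (f2 t c)))))))
        (fun ω => mul_nonneg (ind_nonneg _) (mul_nonneg (ind_nonneg _) (hn1 ω)))
        (fun ω ω' h => by
          rw [opn_congr_ne h (ne12 t c).symm, opn_congr_ne h (ne13 t c).symm,
            Ue_congr_ne (hz1 t c).1 A1 h, nopn_congr_ne h (nef1 t c).1,
            nopn_congr_ne h (nef2 t c).1])
      have s2 := Ex_open_le hp hp0 (e2 t c) (f := fun ω : EIdx R → Bool =>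
          (ind (opn ω (e3 t c)) * (ind (Ue (opn ω) M t c) *
            (1 - ind (¬ opn ω (f1 t c)) * ind (¬ opn ω (f2 t c))))))
        (fun ω => (mul_nonneg (ind_nonneg _) (hn1 ω)))
        (fun ω ω' h => by
          rw [opn_congr_ne h (ne23 t c).symm,
            Ue_congr_ne (hz2 t c).1 A1 h, nopn_congr_ne h (nef1 t c).2.1,
            nopn_congr_ne h (nef2 t c).2.1])
      have s3 := Ex_open_le hp hp0 (e3 t c) (f := fun ω : EIdx R → Bool =>
          (ind (Ue (opn ω) M t c) *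
            (1 - ind (¬ opn ω (f1 t c)) * ind (¬ opn ω (f2 t c)))))
        hn1
        (fun ω ω' h => by
          rw [Ue_congr_ne (hz3 t c).1 A4 h, nopn_congr_ne h (nef1 t c).2.2,
            nopn_congr_ne h (nef2 t c).2.2.1])
      have hf1 : (c + 2, (t : ℤ) - c - 1) ∈ f1 t c := by simp [f1]
      have hf2 : (c + 2, (t : ℤ) - c - 1) ∈ f2 t c := by simp [f2]
      have s4 := Ex_closed_ge hp hp0 (f2 t c) (f := fun ω : EIdx R → Bool =>
          ind (Ue (opn ω) M t c)) (fun ω => ind_nonneg _)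
        (fun ω ω' h => Ue_congr_ne hf2 A4 h)
      have s5 := Ex_closed_ge hp hp0 (f1 t c) (f := fun ω : EIdx R → Bool =>
          ind (¬ opn ω (f2 t c)) * ind (Ue (opn ω) M t c))
        (fun ω => mul_nonneg (ind_nonneg _) (ind_nonneg _))
        (fun ω ω' h => by
          rw [Ue_congr_ne hf1 A4 h, nopn_congr_ne h (nef2 t c).2.2.2])
      have s6 : Ex (bern p) (fun ω : EIdx R → Bool => (ind (Ue (opn ω) M t c) *
            (1 - ind (¬ opn ω (f1 t c)) * ind (¬ opn ω (f2 t c))))) =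
          Ex (bern p) (fun ω : EIdx R → Bool => ind (Ue (opn ω) M t c)) -
          Ex (bern p) (fun ω : EIdx R → Bool => ind (¬ opn ω (f1 t c)) *
            (ind (¬ opn ω (f2 t c)) * ind (Ue (opn ω) M t c))) := by
        rw [← ConcAux.Ex_sub]
        congr 1
        funext ω
        ring
      have hU : 0 ≤ Ex (bern p) (fun ω : EIdx R → Bool => ind (Ue (opn ω) M t c)) :=
        ConcAux.Ex_nonneg hp.nonneg fun ω => ind_nonneg _
      have s7 : (1 - p) * ((1 - p) *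
          Ex (bern p) (fun ω : EIdx R → Bool => ind (Ue (opn ω) M t c))) ≤
          Ex (bern p) (fun ω : EIdx R → Bool => ind (¬ opn ω (f1 t c)) *
            (ind (¬ opn ω (f2 t c)) * ind (Ue (opn ω) M t c))) :=
        (mul_le_mul_of_nonneg_left s4 (by linarith)).trans s5
      have s8 : Ex (bern p) (fun ω : EIdx R → Bool => (ind (Ue (opn ω) M t c) *
            (1 - ind (¬ opn ω (f1 t c)) * ind (¬ opn ω (f2 t c))))) ≤
          (1 - (1 - p) ^ 2) *
            Ex (bern p) (fun ω : EIdx R → Bool => ind (Ue (opn ω) M t c)) := by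
        rw [s6]
        nlinarith
      calc _ ≤ p * (p * (p * ((1 - (1 - p) ^ 2) *
            Ex (bern p) (fun ω : EIdx R → Bool => ind (Ue (opn ω) M t c))))) := by
            refine s1.trans (mul_le_mul_of_nonneg_left ?_ hp0)
            refine s2.trans (mul_le_mul_of_nonneg_left ?_ hp0)
            exact s3.trans (mul_le_mul_of_nonneg_left s8 hp0)
        _ = _ := by ring
    refine (Finset.sum_le_sum h5).trans ?_
    rw [← Finset.mul_sum, ← ConcAux.Ex_sum]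
    have h6 : Ex (bern p) (fun ω : EIdx R → Bool =>
        ∑ c ∈ Icc (-(M : ℤ)) (2 * t), ind (Ue (opn ω) M t c)) ≤ 1 := by
      rw [← ConcAux.Ex_one (ι := EIdx R) hp]
      exact ConcAux.Ex_mono hp.nonneg fun ω => sum_Ue_le (opn ω) M t
    have h7 : 0 ≤ p ^ 3 * (1 - (1 - p) ^ 2) := by
      have : 0 ≤ 1 - (1 - p) ^ 2 := by nlinarith
      positivity
    nlinarith
  refine (Finset.sum_le_sum h2).trans ?_
  rw [Finset.sum_const, Finset.card_range, nsmul_eq_mul]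

end Pool.Agent.Helper33_FPP
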