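import Pool.Agent.Helper33_FPP.CaseACore
import Pool.Agent.Helper33_FPP.Enh

/-!
# Case (a): the final statement (module PD5)
-/

set_option autoImplicit false

open Finset MeasureTheory ProbabilityTheory Filter Topology

namespace Pool.Agent.Helper33_FPP

theorem case_a {Ω : Type} [MeasurableSpace Ω] {P : Measure Ω} [IsProbabilityMeasure P]
    {F : Measure ℝ} [IsProbabilityMeasure F] {W : Z2.edgeSet → Ω → ℝ}
    (hm : ∀ e, Measurable (W e)) (hind : iIndepFun W P) (hF : ∀ e, P.map (W e) = F)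
    {r p : ℝ} (hr : 0 < r) (hW : ∀ e ω, r ≤ W e ω) (hp : F.real {r} = p) (hp0 : 0 < p)
    (hp1 : p < 1)
    (hlow : ∀ ε : ℝ, 0 < ε → ∃ n₀ : ℕ, ∀ n : ℕ, n₀ ≤ n →
      P.real {ω | ∃ x ∈ box (8 * n), ∃ y ∈ box (8 * n), TT (ext W ω) (box (8 * n)) x y <
        r * (|(A x - A y : ℤ)| + |(B x - B y : ℤ)| : ℤ) - ε * n} ≤ ε)
    (ha : ∀ n M : ℕ, 1 ≤ n → (1 - p ^ 3 * (1 - p) ^ 2) * n ≤ 2 * mr p n M) : False :=
  CaseAAux.case_a_of hm hind hF hr hW hp hp0 hp1 hlow ha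
    (fun n _ h => enh_mean hp0 hp1.le n h)
    (fun n M R => enh_used hp0.le hp1.le n M R)

end Pool.Agent.Helper33_FPP
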