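import Pool.Agent.Helper33_FPP.EnhPath
import Pool.Agent.Helper33_FPP.PartII
import Pool.Agent.Helper33_FPP.HalfProb

/-!
# Case (a) of the time constant `r (|A| + |B|)`: comparison with the enhanced process
-/

set_option autoImplicit false

open Finset MeasureTheory ProbabilityTheory Filter Topology

namespace Pool.Agent.Helper33_FPP

namespace CaseAAux

/-- General form of the law of finitely many discretised independent weights. -/
theorem law_gen {ι Ω V : Type*} [Fintype ι] [DecidableEq ι] [Fintype V] [MeasurableSpace V]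
    [MeasurableSingletonClass V] [MeasurableSpace Ω] {P : Measure Ω}
    [IsProbabilityMeasure P] {F : Measure ℝ} [IsProbabilityMeasure F] {w : ι → Ω → ℝ}
    (hm : ∀ i, Measurable (w i)) (hind : iIndepFun w P) (hF : ∀ i, P.map (w i) = F) {g : ℝ → V}
    (hg : Measurable g) (φ : (ι → V) → ℝ) :
    ∫ ω, φ (fun i => g (w i ω)) ∂P = Ex (fun v => F.real {x | g x = v}) φ := by
  have hmi : ∀ i, Measurable (fun ω => g (w i ω)) := fun i => hg.comp (hm i)
  have hX : Measurable (fun ω => fun i => g (w i ω)) := measurable_pi_lambda _ hmi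
  have hind' : iIndepFun (fun i ω => g (w i ω)) P := hind.comp (fun _ => g) (fun _ => hg)
  have hmap : P.map (fun ω => fun i => g (w i ω)) =
      Measure.pi (fun i => P.map (fun ω => g (w i ω))) :=
    (iIndepFun_iff_map_fun_eq_pi_map (fun i => (hmi i).aemeasurable)).1 hind'
  have hFi : ∀ i, P.map (fun ω => g (w i ω)) = F.map g := by
    intro i
    rw [← hF i, Measure.map_map hg (hm i)]
    rfl
  have hpF : IsProbabilityMeasure (F.map g) := Measure.isProbabilityMeasure_map hg.aemeasurable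
  have h1 : ∫ ω, φ (fun i => g (w i ω)) ∂P = ∫ a, φ a ∂(P.map (fun ω => fun i => g (w i ω))) := by
    rw [integral_map hX.aemeasurable]
    exact (measurable_of_finite φ).aestronglyMeasurable
  rw [h1, hmap]
  simp_rw [hFi]
  rw [integral_fintype Integrable.of_finite]
  unfold Ex
  refine Finset.sum_congr rfl (fun a _ => ?_)
  rw [smul_eq_mul]
  congr 1
  rw [Measure.real, Measure.pi_singleton, ENNReal.toReal_prod]
  refine Finset.prod_congr rfl (fun i _ => ?_)
  have := map_measureReal_apply (μ := F) hg (MeasurableSet.singleton (a i))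
  rw [Measure.real] at this
  rw [this]
  rfl

theorem law_gen_Pr {ι Ω V : Type*} [Fintype ι] [DecidableEq ι] [Fintype V] [MeasurableSpace V]
    [MeasurableSingletonClass V] [MeasurableSpace Ω] {P : Measure Ω}
    [IsProbabilityMeasure P] {F : Measure ℝ} [IsProbabilityMeasure F] {w : ι → Ω → ℝ}
    (hm : ∀ i, Measurable (w i)) (hind : iIndepFun w P) (hF : ∀ i, P.map (w i) = F) {g : ℝ → V}
    (hg : Measurable g) (E : (ι → V) → Prop) :
    P.real {ω | E (fun i => g (w i ω))} = Pr (fun v => F.real {x | g x = v}) E := by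
  classical
  unfold Pr
  rw [← law_gen hm hind hF hg]
  have hX : Measurable (fun ω => fun i => g (w i ω)) :=
    measurable_pi_lambda _ (fun i => hg.comp (hm i))
  have hS : MeasurableSet {ω | E (fun i => g (w i ω))} := by
    have : {ω | E (fun i => g (w i ω))} = (fun ω => fun i => g (w i ω)) ⁻¹' {a | E a} := rfl
    rw [this]
    exact hX (Set.toFinite _).measurableSet
  rw [← integral_indicator_one hS]
  refine integral_congr_ae (Eventually.of_forall (fun ω => ?_))
  simp [Set.indicator_apply]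

section

variable {Ω : Type} [MeasurableSpace Ω] {P : Measure Ω} [IsProbabilityMeasure P]
  {F : Measure ℝ} [IsProbabilityMeasure F] {W : Z2.edgeSet → Ω → ℝ}

/-- The configuration of the edges of weight exactly `r`. -/
noncomputable def bcf {Ω : Type} (W : Z2.edgeSet → Ω → ℝ) (r : ℝ) (R : ℕ) (ω : Ω) :
    EIdx R → Bool := by
  classical
  exact fun i => decide (W ⟨i.1, (mem_edgesIn.1 i.2).2⟩ ω = r)

theorem opn_bcf {r : ℝ} {R : ℕ} {ω : Ω} {e : Sym2 (ℤ × ℤ)} (h : opn (bcf W r R ω) e) :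
    ext W ω e = r := by
  obtain ⟨h1, h2⟩ := h
  unfold bcf at h2
  have h3 := of_decide_eq_true h2
  have h4 := ext_apply W ω (⟨e, h1⟩ : EIdx R)
  rw [h4]; exact h3

theorem Pr_bcf (hm : ∀ e, Measurable (W e)) (hind : iIndepFun W P)
    (hF : ∀ e, P.map (W e) = F) {r p : ℝ} (hp : F.real {r} = p) (R : ℕ)
    (E : (EIdx R → Bool) → Prop) :
    P.real {ω | E (bcf W r R ω)} = Pr (bern p) E := by
  classical
  have hinj : Function.Injective
      (fun i : EIdx R => (⟨i.1, (mem_edgesIn.1 i.2).2⟩ : Z2.edgeSet)) := by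
    intro i j h
    simp only [Subtype.mk.injEq] at h
    exact Subtype.ext h
  have hg : Measurable (fun x : ℝ => (decide (x = r) : Bool)) := by
    refine measurable_to_bool ?_
    have : (fun x : ℝ => (decide (x = r) : Bool)) ⁻¹' {true} = {r} := by
      ext x; simp
    rw [this]
    exact MeasurableSet.singleton r
  have h1 := law_gen_Pr (ι := EIdx R) (P := P) (F := F)
    (w := fun i => W ⟨i.1, (mem_edgesIn.1 i.2).2⟩) (fun i => hm _)
    (hind.precomp hinj) (fun i => hF _) hg E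
  have h2 : (fun v : Bool => F.real {x : ℝ | (decide (x = r) : Bool) = v}) = bern p := by
    funext v
    cases v
    · unfold bern
      have : {x : ℝ | (decide (x = r) : Bool) = false} = {r}ᶜ := by
        ext x; simp
      rw [this, probReal_compl_eq_one_sub (MeasurableSet.singleton r), hp]; simp
    · unfold bern
      have : {x : ℝ | (decide (x = r) : Bool) = true} = {r} := by
        ext x; simp
      rw [this, hp]; simp
  rw [h2] at h1
  rw [← h1]
  rfl

end

theorem support_close {x y : ℤ × ℤ} (q : Z2.Walk x y) : ∀ z ∈ q.support,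
    (z.1 - y.1).natAbs ≤ q.length ∧ (z.2 - y.2).natAbs ≤ q.length := by
  induction q with
  | nil =>
    intro z hz
    rw [SimpleGraph.Walk.support_nil, List.mem_singleton] at hz
    subst hz; simp
  | @cons a b c h p ih =>
    intro z hz
    rw [SimpleGraph.Walk.support_cons, List.mem_cons] at hz
    rw [SimpleGraph.Walk.length_cons]
    rcases hz with rfl | hz
    · have h1 := ih b p.start_mem_support
      rw [Z2_adj_iff] at h
      omega
    · have h1 := ih z hz
      omega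

theorem nused_le_n (O : Sym2 (ℤ × ℤ) → Prop) (M n : ℕ) : nused O M n ≤ n := by
  classical
  unfold nused
  exact (Finset.card_filter_le _ _).trans (by rw [Finset.card_range])

theorem bdd (O : Sym2 (ℤ × ℤ) → Prop) (M n : ℕ) :
    BddAbove (insert (-((2 * M : ℕ) : ℤ)) (Prod.fst '' enh O M n)) := by
  refine ⟨2 * n, ?_⟩
  rintro z (rfl | ⟨u, hu, rfl⟩)
  · omega
  · exact (enh_path hu).1

theorem redge_le (O : Sym2 (ℤ × ℤ) → Prop) (M n : ℕ) : redge (2 * M) (enh O M n) ≤ 2 * n := by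
  unfold redge
  apply csSup_le ⟨_, Set.mem_insert _ _⟩
  rintro z (rfl | ⟨u, hu, rfl⟩)
  · omega
  · exact (enh_path hu).1

theorem det_bound {w : Sym2 (ℤ × ℤ) → ℝ} (hw : ∀ e, 0 ≤ w e) {r ε : ℝ} (hr : 0 < r) (hε : 0 ≤ ε)
    {O : Sym2 (ℤ × ℤ) → Prop} (hO : ∀ e, O e → w e = r) {n M : ℕ} (hn : 1 ≤ n)
    (hLB : ∀ x ∈ box (8 * n), ∀ y ∈ box (8 * n),
      r * (|(A x - A y : ℤ)| + |(B x - B y : ℤ)| : ℤ) - ε * n ≤ TT w (box (8 * n)) x y) :
    (2 * redge (2 * M) (enh O M n) : ℝ) ≤ n + 2 * (nused O M n + 1) + ε * n / r := by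
  have hpos : (0 : ℝ) ≤ n + 2 * (nused O M n + 1) + ε * n / r := by positivity
  obtain ⟨Z, hZ⟩ : ∃ Z, Z = redge (2 * M) (enh O M n) := ⟨_, rfl⟩
  rw [← hZ]
  have hmem : Z ∈ insert (-((2 * M : ℕ) : ℤ)) (Prod.fst '' enh O M n) := by
    rw [hZ]
    exact Int.csSup_mem ⟨_, Set.mem_insert _ _⟩ (bdd O M n)
  by_cases hZ0 : Z ≤ 0
  · have : (Z : ℝ) ≤ 0 := by exact_mod_cast hZ0
    linarith
  rcases hmem with h | ⟨v, hv, hvZ⟩
  · omega
  obtain ⟨h1, h2, u, ⟨hu1, hu2⟩, q, hq, hl⟩ := enh_path hv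
  have hnu := nused_le_n O M n
  unfold A at h2 hu1
  have hin : IsIn (box (8 * n) : Set (ℤ × ℤ)) q := by
    intro z hz
    obtain ⟨h3, h4⟩ := support_close q z hz
    rw [Finset.mem_coe, mem_box]
    push_cast
    omega
  have hu := hin u q.start_mem_support
  have hvb := hin v q.end_mem_support
  have h5 := hLB u hu v hvb
  have h6 := TT_le hw hin
  have h7 : wt w q ≤ r * q.length := by
    unfold wt
    have h1 := List.sum_le_card_nsmul (q.edges.map w) r (by
      intro a ha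
      obtain ⟨e, he, rfl⟩ := List.mem_map.1 ha
      exact (hO e (hq e he)).le)
    simp only [List.length_map, SimpleGraph.Walk.length_edges, nsmul_eq_mul] at h1
    linarith [mul_comm r (q.length : ℝ)]
  have h8 : 2 * Z ≤ |(A u - A v : ℤ)| + |(B u - B v : ℤ)| := by
    have h9 : |(A u - A v : ℤ)| ≥ -(A u - A v) := neg_le_abs _
    have h10 : |(B u - B v : ℤ)| ≥ -(B u - B v) := neg_le_abs _
    unfold A B at *
    omega
  have h8' : (2 * Z : ℝ) ≤ ((|(A u - A v : ℤ)| + |(B u - B v : ℤ)| : ℤ) : ℝ) := by exact_mod_cast h8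
  have hl' : (q.length : ℝ) ≤ n + 2 * (nused O M n + 1) := by exact_mod_cast hl
  have h11 : r * (2 * Z) ≤ r * ((|(A u - A v : ℤ)| + |(B u - B v : ℤ)| : ℤ) : ℝ) :=
    mul_le_mul_of_nonneg_left h8' hr.le
  have h12 : r * q.length ≤ r * (n + 2 * (nused O M n + 1)) := mul_le_mul_of_nonneg_left hl' hr.le
  have h13 : r * (2 * Z) ≤ r * (n + 2 * (nused O M n + 1)) + ε * n := by linarith
  have h14 : r * (n + 2 * (nused O M n + 1) + ε * n / r) =
      r * (n + 2 * (nused O M n + 1)) + ε * n := by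
    field_simp
  rw [← h14] at h13
  exact le_of_mul_le_mul_left h13 hr

theorem case_a_of {Ω : Type} [MeasurableSpace Ω] {P : Measure Ω} [IsProbabilityMeasure P]
    {F : Measure ℝ} [IsProbabilityMeasure F] {W : Z2.edgeSet → Ω → ℝ}
    (hm : ∀ e, Measurable (W e)) (hind : iIndepFun W P) (hF : ∀ e, P.map (W e) = F)
    {r p : ℝ} (hr : 0 < r) (hW : ∀ e ω, r ≤ W e ω) (hp : F.real {r} = p) (hp0 : 0 < p)
    (hp1 : p < 1)
    (hlow : ∀ ε : ℝ, 0 < ε → ∃ n₀ : ℕ, ∀ n : ℕ, n₀ ≤ n →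
      P.real {ω | ∃ x ∈ box (8 * n), ∃ y ∈ box (8 * n), TT (ext W ω) (box (8 * n)) x y <
        r * (|(A x - A y : ℤ)| + |(B x - B y : ℤ)| : ℤ) - ε * n} ≤ ε)
    (ha : ∀ n M : ℕ, 1 ≤ n → (1 - p ^ 3 * (1 - p) ^ 2) * n ≤ 2 * mr p n M)
    (hmean : ∀ (n : ℕ) {η : ℝ}, 0 < η → ∃ M₀ : ℕ, ∀ M, M₀ ≤ M → ∀ R, 2 * M + 10 * n + 10 ≤ R →
      mr p n (2 * M) + (1 - η) * p ^ 3 * n ≤
        Ex (bern p) (fun ω : EIdx R → Bool => (redge (2 * M) (enh (opn ω) M n) : ℝ)))
    (hused : ∀ n M R : ℕ, Ex (bern p) (fun ω : EIdx R → Bool => (nused (opn ω) M n : ℝ)) ≤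
      n * (p ^ 3 * (1 - (1 - p) ^ 2))) : False := by
  classical
  obtain ⟨κ, hκ⟩ : ∃ κ, κ = p ^ 3 * (1 - p) ^ 2 := ⟨_, rfl⟩
  have h1p : 0 < 1 - p := by linarith
  have hκ0 : 0 < κ := by rw [hκ]; positivity
  obtain ⟨ε, hε⟩ : ∃ ε, ε = κ / (4 * (1 / r + 4)) := ⟨_, rfl⟩
  have hε0 : 0 < ε := by rw [hε]; positivity
  have hεκ : ε / r + 4 * ε = κ / 4 := by
    rw [hε]; field_simp
  obtain ⟨n₀, hn₀⟩ := hlow ε hε0
  obtain ⟨n₁, hn₁⟩ := exists_nat_gt (8 / κ)
  obtain ⟨n, hn⟩ : ∃ n, n = n₀ + n₁ + 1 := ⟨_, rfl⟩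
  have hn1 : 1 ≤ n := by omega
  have hnκ : 8 / κ < n := by
    have : (n₁ : ℝ) ≤ n := by exact_mod_cast (by omega : n₁ ≤ n)
    linarith
  have hLBf := hn₀ n (by omega)
  obtain ⟨M, hM⟩ := hmean n (η := (1 - p) ^ 2 / 4) (by positivity)
  have h1 := hM M le_rfl (2 * M + 10 * n + 10) le_rfl
  obtain ⟨R, hR⟩ : ∃ R, R = 2 * M + 10 * n + 10 := ⟨_, rfl⟩
  rw [← hR] at h1
  have h2 := hused n M R
  have h3 := ha n (2 * M) hn1
  have hpp : IsProb (bern p) := HalfAux.bern_prob hp0.le hp1.le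
  -- the function to be integrated
  let g : (EIdx R → Bool) → ℝ := fun c =>
    2 * (redge (2 * M) (enh (opn c) M n) : ℝ) - (n + 2 * (nused (opn c) M n + 1) + ε * n / r)
  have hg4 : ∀ c, g c ≤ 4 * n := by
    intro c
    have h5 : (redge (2 * M) (enh (opn c) M n) : ℝ) ≤ 2 * n := by
      exact_mod_cast redge_le (opn c) M n
    have h6 : (0 : ℝ) ≤ n + 2 * (nused (opn c) M n + 1) + ε * n / r := by positivity
    change 2 * (redge (2 * M) (enh (opn c) M n) : ℝ) -
      (n + 2 * (nused (opn c) M n + 1) + ε * n / r) ≤ 4 * n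
    linarith
  have hPg : Pr (bern p) (fun c => 0 < g c) ≤ ε := by
    rw [← Pr_bcf hm hind hF hp R]
    refine (measureReal_mono ?_).trans hLBf
    intro ω hω
    by_contra hcon
    have hcon' : ∀ x ∈ box (8 * n), ∀ y ∈ box (8 * n),
        r * (|(A x - A y : ℤ)| + |(B x - B y : ℤ)| : ℤ) - ε * n ≤
          TT (ext W ω) (box (8 * n)) x y := by
      intro x hx y hy
      by_contra h
      exact hcon ⟨x, hx, y, hy, not_le.mp h⟩
    have h7 := det_bound (w := ext W ω) (LM.ext_nonneg (fun e ω => hr.le.trans (hW e ω)) ω) hr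
      hε0.le (O := opn (bcf W r R ω)) (fun e he => opn_bcf he) (M := M) hn1 hcon'
    have h8 : 0 < g (bcf W r R ω) := hω
    change 0 < 2 * (redge (2 * M) (enh (opn (bcf W r R ω)) M n) : ℝ) -
      (n + 2 * (nused (opn (bcf W r R ω)) M n + 1) + ε * n / r) at h8
    linarith
  have hEg : Ex (bern p) g ≤ 4 * n * ε := by
    have h9 : Ex (bern p) g ≤ 4 * n * Pr (bern p) (fun c => 0 < g c) := by
      unfold Pr
      rw [← ConcAux.Ex_mul_left]
      apply ConcAux.Ex_mono hpp.nonneg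
      intro c
      by_cases h : 0 < g c
      · rw [if_pos h, mul_one]; exact hg4 c
      · rw [if_neg h, mul_zero]; exact not_lt.mp h
    exact h9.trans (mul_le_mul_of_nonneg_left hPg (by positivity))
  have hEg' : Ex (bern p) g = 2 * Ex (bern p) (fun ω : EIdx R → Bool =>
        (redge (2 * M) (enh (opn ω) M n) : ℝ)) -
      (2 * Ex (bern p) (fun ω : EIdx R → Bool => (nused (opn ω) M n : ℝ)) +
        (n + 2 + ε * n / r)) := by
    have e1 : g = fun c => (2 * (redge (2 * M) (enh (opn c) M n) : ℝ)) -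
        ((2 * (nused (opn c) M n : ℝ)) + (n + 2 + ε * n / r)) := by
      funext c
      change 2 * (redge (2 * M) (enh (opn c) M n) : ℝ) -
        (n + 2 * (nused (opn c) M n + 1) + ε * n / r) = _
      ring
    rw [e1, ConcAux.Ex_sub, ConcAux.Ex_add, ConcAux.Ex_mul_left, ConcAux.Ex_mul_left,
      ConcAux.Ex_const hpp]
  rw [hEg'] at hEg
  have hn0 : (0 : ℝ) < n := by exact_mod_cast hn1
  have hk8 : 8 < κ * n := by
    rw [div_lt_iff₀ hκ0] at hnκ
    linarith [mul_comm κ (n : ℝ)]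
  have e2 : ε * n / r + 4 * n * ε = κ / 4 * n := by
    rw [← hεκ]; ring
  have e3 : (1 - p ^ 3 * (1 - p) ^ 2) * n = n - κ * n := by rw [hκ]; ring
  have e4 : (1 - (1 - p) ^ 2 / 4) * p ^ 3 * n = p ^ 3 * n - κ / 4 * n := by rw [hκ]; ring
  have e5 : n * (p ^ 3 * (1 - (1 - p) ^ 2)) = p ^ 3 * n - κ * n := by rw [hκ]; ring
  rw [e3] at h3
  rw [e4] at h1
  rw [e5] at h2
  linarith

end CaseAAux

end Pool.Agent.Helper33_FPP
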