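import Pool.Agent.Helper33_FPP.Base2

/-!
# Small mass at the infimum of the support
-/

set_option autoImplicit false

open MeasureTheory ProbabilityTheory Filter Topology

namespace Pool.Agent.Helper33_FPP

theorem law_Iio {Ω : Type} [MeasurableSpace Ω] {P : Measure Ω}
    {F : Measure ℝ} {W : Z2.edgeSet → Ω → ℝ}
    (hm : ∀ e, Measurable (W e)) (hF : ∀ e, P.map (W e) = F)
    (h0 : ∀ e ω, 0 ≤ W e ω) : F (Set.Iio 0) = 0 := by
  have e : Z2.edgeSet := ⟨s((0, 0), (1, 0)), by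
    rw [SimpleGraph.mem_edgeSet, Z2_adj_iff]; simp⟩
  rw [← hF e, Measure.map_apply (hm e) measurableSet_Iio]
  have : W e ⁻¹' Set.Iio 0 = ∅ := by
    ext ω
    simp only [Set.mem_preimage, Set.mem_Iio, Set.mem_empty_iff_false, iff_false, not_lt]
    exact h0 e ω
  rw [this, measure_empty]

/-- **No square**, case of a low level of positive mass below a level of mass less than `1/2`. -/
theorem no_square_I {Ω : Type} [MeasurableSpace Ω] {P : Measure Ω} [IsProbabilityMeasure P]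
    {F : Measure ℝ} [IsProbabilityMeasure F] {W : Z2.edgeSet → Ω → ℝ}
    (hm : ∀ e, Measurable (W e)) (hind : iIndepFun W P) (hF : ∀ e, P.map (W e) = F)
    (h0 : ∀ e ω, 0 ≤ W e ω)
    {p₀ hi lo pL c : ℝ} (hp0 : 0 ≤ p₀) (hp1 : p₀ < 1 / 2) (hlo : 0 ≤ lo) (hlohi : lo < hi)
    (hpL : 0 < pL) (hlow : F.real (Set.Iio hi) ≤ p₀) (hloF : pL ≤ F.real (Set.Iic lo))
    (hc : 0 < c)
    (hμ : ∀ z : ℤ × ℤ, TendstoInMeasure P (fun (n : ℕ) ω => passageTime (ext W ω) 0 (n • z) / n)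
      atTop (fun _ => c * ((|A z| + |B z| : ℤ) : ℝ))) : False := by
  have hhi : 0 < hi := by linarith
  set hi' : ℝ := (lo + hi) / 2 with hhi'
  have hhi'0 : 0 < hi' := by linarith
  have hlohi' : lo < hi' := by linarith
  have hF0 := law_Iio hm hF h0
  obtain ⟨X₀, hX₀⟩ := no_square_finite hp0 hp1 hhi'0 hlohi' hpL hc
  obtain ⟨Y₀, hY₀⟩ := finite_model hm hind hF h0 hp0 hp1 hhi hlow hc hμ
  obtain ⟨Y, hYdef⟩ : ∃ Y : ℕ, Y = max Y₀ X₀ := ⟨_, rfl⟩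
  obtain ⟨hY1, hYhi, hY⟩ := hY₀ Y (by rw [hYdef]; exact le_max_left _ _)
  obtain ⟨m₁, hm₁⟩ := hY _ rfl
  obtain ⟨m₂, hm₂⟩ := exists_nat_ge (2 / (hi - lo))
  obtain ⟨hm0, hH1, hH2, hH3⟩ := hm₁ (m₁ + m₂) (Nat.le_add_right _ _)
  obtain ⟨m, hmdef⟩ : ∃ m : ℕ, m = m₁ + m₂ := ⟨_, rfl⟩
  rw [← hmdef] at hm0 hH1 hH2 hH3
  have hm0' : (0 : ℝ) < m := by exact_mod_cast hm0
  have hgap : 1 / (m : ℝ) ≤ hi - hi' := by
    have h1 : (m₂ : ℝ) ≤ m := by exact_mod_cast (by omega : m₂ ≤ m)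
    have h2 : 2 / (hi - lo) ≤ m := hm₂.trans h1
    rw [div_le_iff₀ (by linarith)] at h2
    rw [div_le_iff₀ hm0', hhi']
    linarith
  have hX : X₀ ≤ Y ^ 4 := by
    calc X₀ ≤ Y := by rw [hYdef]; exact le_max_right _ _
      _ = Y ^ 1 := (pow_one Y).symm
      _ ≤ Y ^ 4 := Nat.pow_le_pow_right (by omega) (by norm_num)
  exact hX₀ (Y ^ 4) hX (Fin (m * Y + 1)) (dscP F m (m * Y)) (dval m (m * Y)) Y
    (dscP_isProb F m (m * Y)) (by exact_mod_cast hY1) (by push_cast; exact le_rfl)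
    (fun v => ⟨dval_nonneg _ _ v, dval_le hm0 v⟩) (low_mass hF0 hm0 hYhi hgap hlow)
    (lo_mass hm0 hlo hloF) hH1 hH2 hH3

end Pool.Agent.Helper33_FPP
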