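import Pool.Agent.Helper33_FPP.PartBb
import Pool.Agent.Helper33_FPP.PartI
import Pool.Agent.Helper33_FPP.BlockPei

/-!
# Part I for blocks: the finite-volume contradiction
-/

set_option autoImplicit false

open Filter Topology

namespace Pool.Agent.Helper33_FPP

open Finset

namespace PartB

/-- The contradiction at scale `X`, given the probability of the good event. -/
theorem scale_contra {k : ℕ} {a pL c C : ℝ} (hpL : 0 < pL)
    (hc : 0 < c) (hC : 0 < C) {X : ℕ} (hX8 : 8 ≤ X) (hxk : 16 * k ≤ X) (hxc : 4 / c ≤ X)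
    (hxp : 32 / (pL ^ (2 * (6 * k + 1) ^ 2)) ≤ X) {θ : ℝ}
    (hθ : θ = 1 / (36 * (2 * k + 1) ^ 2)) (hxθ : 40 / θ ≤ X)
    (hxa₁ : 8 * (4800 * c / (1 * θ)) ≤ X) (hxa₂ : 8 * (33 / c) ≤ X)
    {V : Type} [Fintype V] {p : V → ℝ} {val : V → ℝ} (hp : IsProb p)
    (hgp : Pr p (fun ω : EIdx (Pars X c).R → V => ¬ GdB (Pars X c) X k a val ω) ≤
      1 / (X : ℝ) ^ 999)
    (hone : ∀ {i j r t : ℕ} {s : ℤ × ℤ} (_ : 1 ≤ i) (_ : i + 2 ≤ (Pars X c).N) (_ : 1 ≤ j)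
      (_ : j + 3 ≤ (Pars X c).N) (_ : 8 * k ≤ r) {q : ℝ} (_ : 0 < q)
      (_ : 32 * q ≤ pL ^ (2 * (6 * k + 1) ^ 2))
      (_ : q ^ 2 * (24 * (Pars X c).σ * r) ≤ 1) {n : ℕ} (_ : 1 ≤ n),
      (1 - Real.exp (-(q * n / 8))) *
          Pr p (evAB (Pars X c) X k a val i j r t s n (q * n / 16)) ≤
        C * (Pr p (evBB (Pars X c) X k a val i j r t (q * n / 16))) ^
          (1 - 1 / (32 : ℝ))) :
    (X : ℝ) ≤ 4 ^ 32 * ((9 * C) ^ 32 * (3 * (3 + 33 / c + 4800 * c / (1 * θ)) ^ 31)) := by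
  have hx8 : (8 : ℝ) ≤ X := by exact_mod_cast hX8
  have hx1 : (1 : ℝ) ≤ X := by linarith
  have hx0 : (0 : ℝ) < X := by linarith
  have hθ0 : 0 < θ := by
    rw [hθ]
    positivity
  have hpL' : 0 < pL ^ (2 * (6 * k + 1) ^ 2) := by positivity
  generalize pL ^ (2 * (6 * k + 1) ^ 2) = pM at *
  have hP : (Pars X c).Ok := pars_ok hc hX8 hxc
  obtain ⟨z, hz, hMN, hzm, hzb, hzr⟩ := select_cell hc hX8 hP hp (val := val)
    (G := fun ω => GdB (Pars X c) X k a val ω) (fun ω h => h.1)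
  obtain ⟨hi1, hi2, hj1, hj2⟩ := cells_idx hMN hz
  obtain ⟨q, n, hq0, hq1, hq2, hn1, hnle, hqn8, hu0, hfu⟩ :=
    choice_numeric (gap := 1) hθ0 one_pos hpL' hc hX8 hxp hxθ
  rw [one_mul] at hu0
  have hfu' : ∀ t : ℝ, t ≤ 60 * c * (X : ℝ) ^ 12 →
      t / (q * n / 16) ≤ 4800 * c / (1 * θ) / (X : ℝ) ^ 11 := by
    intro t ht
    have := hfu t ht
    rwa [one_mul (q * (n : ℝ))] at this
  clear hfu
  have ha₁0 : 0 < 4800 * c / (1 * θ) := by positivity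
  have ha₂0 : 0 < 33 / c := by positivity
  generalize 4800 * c / (1 * θ) = a₁ at *
  have hexp : 1 / 2 ≤ 1 - Real.exp (-(q * n / 8)) := by
    have h3 : Real.exp (-(q * n / 8)) ≤ Real.exp (-1) := Real.exp_le_exp.2 (by linarith)
    have h4 : Real.exp (-1) ≤ 1 / 2 := by
      rw [Real.exp_neg, ← one_div]
      apply one_div_le_one_div_of_le (by norm_num)
      linarith [Real.add_one_le_exp 1]
    linarith
  have hr0 : 0 < X ^ 60 := by positivity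
  have hKr : 2 * (Pars X c).w₀ = (2 * X ^ 45) * X ^ 60 := by
    change 2 * X ^ 105 = 2 * X ^ 45 * X ^ 60
    ring
  have hx3 : (X : ℝ) ≤ (X : ℝ) ^ 3 := le_pow_of_one_le hx1 (by norm_num)
  have hx11 : (X : ℝ) ^ 3 ≤ (X : ℝ) ^ 11 := pow_le_pow_right₀ hx1 (by norm_num)
  have hXn : ∀ e : ℕ, 1 ≤ e → X ≤ X ^ e := fun e he => by
    calc X = X ^ 1 := (pow_one X).symm
      _ ≤ X ^ e := Nat.pow_le_pow_right (by omega) he
  have hkr : 8 * k ≤ X ^ 60 := by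
    have := hXn 60 (by norm_num)
    omega
  have hkw : 16 * k ≤ (Pars X c).w₀ := by
    change 16 * k ≤ X ^ 105
    have := hXn 105 (by norm_num)
    omega
  have hmσ : X ≤ (Pars X c).σ := by
    change X ≤ X ^ 106
    exact hXn 106 (by norm_num)
  have hnσ : 18 * (2 * k + 1) ^ 2 * n ≤ (Pars X c).σ := by
    have h3 : (n : ℝ) ≤ 1 / (36 * (2 * (k : ℝ) + 1) ^ 2) * (2 * (Pars X c).σ) := by
      rw [← hθ]
      exact hnle
    have h4 : (0 : ℝ) < 36 * (2 * (k : ℝ) + 1) ^ 2 := by positivity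
    rw [div_mul_eq_mul_div, one_mul, le_div_iff₀ h4] at h3
    have h5 : (18 * (2 * (k : ℝ) + 1) ^ 2 * n) ≤ (Pars X c).σ := by linarith
    exact_mod_cast h5
  have hg₃ : Ex p (frng (Pars X c) (fun ω => GdB (Pars X c) X k a val ω) val z) /
      ((X ^ 60 : ℕ) : ℝ) ≤ 33 / c / (X : ℝ) ^ 3 := by
    have hrR : ((X ^ 60 : ℕ) : ℝ) = (X : ℝ) ^ 60 := by
      push_cast
      ring
    rw [hrR, div_le_div_iff₀ (by positivity) (by positivity)]
    calc Ex p (frng (Pars X c) (fun ω => GdB (Pars X c) X k a val ω) val z) * (X : ℝ) ^ 3 ≤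
          33 / c * (X : ℝ) ^ 57 * (X : ℝ) ^ 3 :=
          mul_le_mul_of_nonneg_right hzr (by positivity)
      _ = 33 / c * (X : ℝ) ^ 60 := by ring
  have hone' : ∀ t, ∀ s : ℤ × ℤ, 1 / 2 * Pr p (evAB (Pars X c) X k a val (1 + z.1)
      (z.2 + 2 * z.1) (X ^ 60) t s n (q * n / 16)) ≤ C * (Pr p (evBB (Pars X c) X k a val (1 + z.1)
        (z.2 + 2 * z.1) (X ^ 60) t (q * n / 16))) ^ (1 - 1 / (32 : ℝ)) := by
    intro t s
    refine le_trans ?_ (hone (s := s) hi1 hi2 hj1 hj2 hkr hq0 hq1 hq2 hn1)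
    exact mul_le_mul_of_nonneg_right hexp (Pr_nonneg hp _)
  have hg₀8 : 1 / (X : ℝ) ^ 999 ≤ 1 / 8 := by
    apply one_div_le_one_div_of_le (by norm_num)
    exact hx8.trans (le_pow_of_one_le hx1 (by norm_num))
  have ha₂8 : 33 / c / (X : ℝ) ^ 3 ≤ 1 / 8 := by
    rw [div_le_iff₀ (by positivity)]
    linarith
  have ha₁8 : a₁ / (X : ℝ) ^ 11 ≤ 1 / 8 := by
    rw [div_le_iff₀ (by positivity)]
    linarith
  obtain ⟨S, hS0, hSle, hfin⟩ := cell_contra hP hp hi1 hi2 hj2 hr0 hKr hkw hmσ hnσ hu0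
    (fmid_nonneg hP (fun ω h => h.1) hMN hz) (fbot_nonneg hP (fun ω h => h.1) hMN hz)
    (frng_nonneg z)
    (fun ω hG => (fmid_of hG z).ge) (fun ω hG => (fbot_of hG z).ge) (fun ω hG => (frng_of hG z).ge)
    hgp (hfu' _ hzm) (hfu' _ hzb) hg₃ (by linarith) hC hone'
  refine final_numeric hx1 (by positivity) (by positivity) hS0 ?_ (by positivity) ?_ hfin
  · refine hSle.trans ?_
    have h5 : (((2 * X ^ 45 : ℕ) : ℝ) + 1) ≤ 3 * (X : ℝ) ^ 45 := by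
      push_cast
      have : (1 : ℝ) ≤ (X : ℝ) ^ 45 := one_le_pow₀ hx1
      linarith
    have h6 : (((2 * X ^ 45 : ℕ) : ℝ) + 1) * (1 / (X : ℝ) ^ 999) ≤ 3 / (X : ℝ) ^ 3 := by
      refine (mul_le_mul_of_nonneg_right h5 (by positivity)).trans ?_
      rw [mul_one_div, div_le_div_iff₀ (by positivity) (by positivity), mul_assoc, ← pow_add]
      apply mul_le_mul_of_nonneg_left _ (by norm_num)
      exact pow_le_pow_right₀ hx1 (by norm_num)
    have h7 : a₁ / (X : ℝ) ^ 11 ≤ a₁ / (X : ℝ) ^ 3 :=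
      div_le_div_of_nonneg_left ha₁0.le (by positivity) hx11
    have h8 : (3 + 33 / c + a₁) / (X : ℝ) ^ 3 =
        3 / (X : ℝ) ^ 3 + (33 / c / (X : ℝ) ^ 3 + a₁ / (X : ℝ) ^ 3) := by ring
    rw [h8]
    linarith
  · push_cast
    have : (1 : ℝ) ≤ (X : ℝ) ^ 45 := one_le_pow₀ hx1
    linarith

/-- The exponential bound beats the powers. -/
theorem exp_beats (C : ℝ) {ρ : ℝ} (h0 : 0 < ρ) (h1 : ρ < 1) :
    ∃ X₀ : ℕ, ∀ X : ℕ, X₀ ≤ X →
      C * (2 * ((X ^ 201 : ℕ) : ℝ) + 1) ^ 2 * ρ ^ X ≤ 1 / (X : ℝ) ^ 1000 := by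
  have h2 : Tendsto (fun n : ℕ => (n : ℝ) ^ 1402 * ρ ^ n) atTop (𝓝 0) :=
    tendsto_pow_const_mul_const_pow_of_abs_lt_one 1402 (by rwa [abs_of_pos h0])
  have h3 : Tendsto (fun n : ℕ => (9 * |C|) * ((n : ℝ) ^ 1402 * ρ ^ n)) atTop (𝓝 0) := by
    have := h2.const_mul (9 * |C|)
    rwa [mul_zero] at this
  obtain ⟨X₀, hX₀⟩ := eventually_atTop.1 (h3.eventually (gt_mem_nhds (show (0 : ℝ) < 1 by norm_num)))
  refine ⟨max X₀ 1, fun X hX => ?_⟩
  have h4 := (hX₀ X ((le_max_left _ _).trans hX)).le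
  have hX1 : 1 ≤ X := (le_max_right _ _).trans hX
  have hx1 : (1 : ℝ) ≤ X := by exact_mod_cast hX1
  have hx0 : (0 : ℝ) < X := by linarith
  rw [le_div_iff₀ (by positivity)]
  have h5 : (2 * ((X ^ 201 : ℕ) : ℝ) + 1) ^ 2 ≤ 9 * (X : ℝ) ^ 402 := by
    push_cast
    have h6 : (1 : ℝ) ≤ (X : ℝ) ^ 201 := one_le_pow₀ hx1
    have h7 : (X : ℝ) ^ 402 = ((X : ℝ) ^ 201) ^ 2 := by rw [← pow_mul]
    rw [h7]
    generalize (X : ℝ) ^ 201 = T at *
    nlinarith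
  have h8 : C ≤ |C| := le_abs_self C
  have h9 : 0 ≤ ρ ^ X := by positivity
  calc C * (2 * ((X ^ 201 : ℕ) : ℝ) + 1) ^ 2 * ρ ^ X * (X : ℝ) ^ 1000
      ≤ |C| * (2 * ((X ^ 201 : ℕ) : ℝ) + 1) ^ 2 * ρ ^ X * (X : ℝ) ^ 1000 := by
        apply mul_le_mul_of_nonneg_right _ (by positivity)
        apply mul_le_mul_of_nonneg_right _ h9
        exact mul_le_mul_of_nonneg_right h8 (sq_nonneg _)
    _ ≤ |C| * (9 * (X : ℝ) ^ 402) * ρ ^ X * (X : ℝ) ^ 1000 := by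
        apply mul_le_mul_of_nonneg_right _ (by positivity)
        apply mul_le_mul_of_nonneg_right _ h9
        exact mul_le_mul_of_nonneg_left h5 (abs_nonneg C)
    _ = (9 * |C|) * ((X : ℝ) ^ 1402 * ρ ^ X) := by
        have : (X : ℝ) ^ 1402 = (X : ℝ) ^ 402 * (X : ℝ) ^ 1000 := by rw [← pow_add]
        rw [this]
        ring
    _ ≤ 1 := h4

/-- The finite-volume contradiction, for blocks. -/
theorem no_square_blocks {a₀ pL c : ℝ} {k : ℕ} (ha₀ : 0 < a₀) (hpL : 0 < pL) (hc : 0 < c) :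
    ∃ X₀ : ℕ, ∀ X : ℕ, X₀ ≤ X →
      ∀ (V : Type) [Fintype V] (p : V → ℝ) (val : V → ℝ) (a b : ℝ), IsProb p → 1 ≤ b →
        b ^ 4 ≤ X → a₀ ≤ a → (∀ v, a ≤ val v ∧ val v ≤ b) →
        pL ≤ (∑ v, if val v ≤ a then p v else 0) →
        (∀ z : ℤ × ℤ, OB k z ⊆ (box (Pars X c).R : Set (ℤ × ℤ)) →
          Pr p (fun ω : EIdx (Pars X c).R → V => ¬ BlkGood (wOf val ω) a 1 k z) ≤
            (1 / 64 : ℝ) ^ 18) →
        (∀ x ∈ box (Pars X c).R, ∀ y ∈ box (Pars X c).R,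
          c * (|(A x - A y : ℤ)| + |(B x - B y : ℤ)| : ℤ) - 2 ≤
            Ex p (fun ω : EIdx (Pars X c).R → V => TT (wOf val ω) (box (Pars X c).R) x y)) →
        (∀ j ≤ (Pars X c).N, Ex p (fun ω : EIdx (Pars X c).R → V =>
          TT (wOf val ω) (box (Pars X c).R) (pt 0 (2 * j * (Pars X c).σ))
            (pt (2 * (Pars X c).N * (Pars X c).σ) (2 * j * (Pars X c).σ)))
              ≤ c * (4 * (Pars X c).N * (Pars X c).σ) + X ^ 103) →
        (∀ i ≤ (Pars X c).N, Ex p (fun ω : EIdx (Pars X c).R → V =>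
          TT (wOf val ω) (box (Pars X c).R) (pt (2 * i * (Pars X c).σ) 0)
            (pt (2 * i * (Pars X c).σ) (2 * (Pars X c).N * (Pars X c).σ)))
              ≤ c * (4 * (Pars X c).N * (Pars X c).σ) + X ^ 103) → False := by
  obtain ⟨θ₀, -, -, X₁, hgood⟩ := good_prob (p₀ := 0) le_rfl (by norm_num) ha₀ hc
  obtain ⟨C, hC, htube⟩ := tube_step_blk hpL k
  obtain ⟨C₃, ρ, hC₃, hρ0, hρ1, hpei⟩ := block_peierls_fin k
  obtain ⟨X₃, hX₃⟩ := exp_beats C₃ hρ0 hρ1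
  obtain ⟨θ, hθ⟩ : ∃ θ : ℝ, θ = 1 / (36 * (2 * k + 1) ^ 2) := ⟨_, rfl⟩
  have hθ0 : 0 < θ := by
    rw [hθ]
    positivity
  obtain ⟨Z, hZ⟩ : ∃ Z : ℝ,
      Z = 4 ^ 32 * ((9 * C) ^ 32 * (3 * (3 + 33 / c + 4800 * c / (1 * θ)) ^ 31)) := ⟨_, rfl⟩
  obtain ⟨X₂, hX₂⟩ := exists_nat_ge (8 + 4 / c + 32 / (pL ^ (2 * (6 * k + 1) ^ 2)) + 40 / θ +
    8 * (4800 * c / (1 * θ)) + 8 * (33 / c) + 2 * Z)
  refine ⟨max (max X₁ X₂) (max X₃ (16 * k + 8)), ?_⟩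
  intro X hX V _ p val a b hp hb hb4 ha₀a hval hmass hblk hH1 hH2 hH3
  have hXX₁ : X₁ ≤ X := (le_max_left _ _).trans ((le_max_left _ _).trans hX)
  have hXX₂ : X₂ ≤ X := (le_max_right _ _).trans ((le_max_left _ _).trans hX)
  have hXX₃ : X₃ ≤ X := (le_max_left _ _).trans ((le_max_right _ _).trans hX)
  have hX16 : 16 * k + 8 ≤ X := (le_max_right _ _).trans ((le_max_right _ _).trans hX)
  have hX8 : 8 ≤ X := by omega
  have hx8 : (8 : ℝ) ≤ X := by exact_mod_cast hX8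
  have hx0 : (0 : ℝ) < X := by linarith
  have hbig := hX₂.trans (by exact_mod_cast hXX₂ : (X₂ : ℝ) ≤ X)
  have ha : 0 < a := lt_of_lt_of_le ha₀ ha₀a
  have hp1 : 0 < 4 / c := by positivity
  have hp2 : 0 < 32 / (pL ^ (2 * (6 * k + 1) ^ 2)) := by positivity
  have hp3 : 0 < 40 / θ := by positivity
  have hp4 : 0 < 4800 * c / (1 * θ) := by positivity
  have hp5 : 0 < 33 / c := by positivity
  have hp6 : 0 < Z := by
    rw [hZ]
    positivity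
  have hlow : (∑ v, if val v < a₀ then p v else 0) ≤ 0 := by
    apply le_of_eq
    apply sum_eq_zero
    intro v _
    rw [if_neg]
    have := (hval v).1
    linarith
  have hgp := hgood X hXX₁ V p val b hp hb hb4
    (fun v => ⟨ha.le.trans (hval v).1, (hval v).2⟩) hlow hH1 hH2 hH3
  have hbg := hpei val a 1 hp (Pars X c).R hblk X
  have hbg' : Pr p (fun ω : EIdx (Pars X c).R → V =>
      ¬ BG (Pars X c).R X k a 1 (wOf val ω)) ≤ 1 / (X : ℝ) ^ 1000 :=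
    hbg.trans (hX₃ X hXX₃)
  have hgd : Pr p (fun ω : EIdx (Pars X c).R → V => ¬ GdB (Pars X c) X k a val ω) ≤
      1 / (X : ℝ) ^ 999 := by
    have h1 : Pr p (fun ω : EIdx (Pars X c).R → V => ¬ GdB (Pars X c) X k a val ω) ≤
        Pr p (fun ω : EIdx (Pars X c).R → V => (¬ ((Pars X c).Good (wOf val ω) ∧
          PGood (Pars X c).R X θ₀ a₀ (wOf val ω))) ∨
          ¬ BG (Pars X c).R X k a 1 (wOf val ω)) := by
      apply Pr_mono hp
      intro ω hω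
      by_contra hcon
      rw [not_or, not_not, not_not] at hcon
      exact hω ⟨hcon.1.1, hcon.2⟩
    refine h1.trans ((Pr_or_le hp _ _).trans ((add_le_add hgp hbg').trans ?_))
    have h2 : 1 / (X : ℝ) ^ 1000 + 1 / (X : ℝ) ^ 1000 = 2 / (X : ℝ) ^ 1000 := by ring
    rw [h2, div_le_div_iff₀ (by positivity) (by positivity), one_mul]
    calc 2 * (X : ℝ) ^ 999 ≤ X * (X : ℝ) ^ 999 :=
          mul_le_mul_of_nonneg_right (by linarith) (by positivity)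
      _ = (X : ℝ) ^ 1000 := by rw [← pow_succ']
  clear hH1 hH2 hH3 hgp hbg hbg' hblk
  have i1 : 4 / c ≤ X := by clear hZ; linarith
  have i2 : 32 / (pL ^ (2 * (6 * k + 1) ^ 2)) ≤ X := by clear hZ; linarith
  have i3 : 40 / θ ≤ X := by clear hZ; linarith
  have i4 : 8 * (4800 * c / (1 * θ)) ≤ X := by clear hZ; linarith
  have i5 : 8 * (33 / c) ≤ X := by clear hZ; linarith
  have hP : (Pars X c).Ok := pars_ok hc hX8 i1
  have hfin := scale_contra (X := X) (k := k) (a := a) hpL hc hC hX8 (by omega) i1 i2 hθ i3 i4 i5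
    hp (val := val) hgd
    (fun {_ _ _ _ _} a1 a2 a3 a4 a5 {_} a6 a7 a8 {_} a9 =>
      htube (Pars X c) hP hp ha (fun v => (hval v).1) hmass a1 a2 a3 a4 a5 a6 a7 a8 a9)
  rw [← hZ] at hfin
  clear hZ
  linarith

end PartB

end Pool.Agent.Helper33_FPP
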