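import Pool.Agent.Helper33_FPP.Reduce
import Pool.Agent.Helper33_FPP.PartBc
import Pool.Agent.Helper33_FPP.BlockGood
import Pool.Agent.Helper33_FPP.BlockDisc

/-!
# Large mass at the infimum of the support, slope larger than the infimum
-/

set_option autoImplicit false

open MeasureTheory ProbabilityTheory Filter Topology

namespace Pool.Agent.Helper33_FPP

section

variable {V : Type} [Fintype V] {p : V → ℝ} {R : ℕ} {val val' : V → ℝ}

omit [Fintype V] in
theorem wOf_congr {ω : EIdx R → V} (h : ∀ i, val (ω i) = val' (ω i)) :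
    wOf val ω = wOf val' ω := by
  funext e
  by_cases he : e ∈ edgesIn R
  · rw [wOf_of_mem val ω he, wOf_of_mem val' ω he, h]
  · rw [wOf_of_notMem val ω he, wOf_of_notMem val' ω he]

/-- Values of mass zero do not matter. -/
theorem Ex_val_congr (hp : ∀ v, val v ≠ val' v → p v = 0) (f : (Sym2 (ℤ × ℤ) → ℝ) → ℝ) :
    Ex p (fun ω : EIdx R → V => f (wOf val ω)) = Ex p (fun ω : EIdx R → V => f (wOf val' ω)) := by
  unfold Ex
  apply Finset.sum_congr rfl
  intro ω _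
  by_cases h : ∀ i, val (ω i) = val' (ω i)
  · simp only [wOf_congr h]
  · push Not at h
    obtain ⟨i, hi⟩ := h
    rw [Finset.prod_eq_zero (Finset.mem_univ i) (hp _ hi), zero_mul, zero_mul]

theorem Pr_val_congr (hp : ∀ v, val v ≠ val' v → p v = 0) (E : (Sym2 (ℤ × ℤ) → ℝ) → Prop) :
    Pr p (fun ω : EIdx R → V => E (wOf val ω)) = Pr p (fun ω : EIdx R → V => E (wOf val' ω)) := by
  classical
  unfold Pr
  exact Ex_val_congr hp (fun w => if E w then (1 : ℝ) else 0)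

end

/-- **No square**, case of an atom at the infimum `r > 0`, slope `c > r`. -/
theorem no_square_II {Ω : Type} [MeasurableSpace Ω] {P : Measure Ω} [IsProbabilityMeasure P]
    {F : Measure ℝ} [IsProbabilityMeasure F] {W : Z2.edgeSet → Ω → ℝ}
    (hm : ∀ e, Measurable (W e)) (hind : iIndepFun W P) (hF : ∀ e, P.map (W e) = F)
    {r c : ℝ} (hr : 0 < r) (hW : ∀ e ω, r ≤ W e ω) (hFr : F (Set.Iio r) = 0)
    (hatom : 0 < F.real {r}) (hrc : r < c)
    (hμ : ∀ z : ℤ × ℤ, TendstoInMeasure P (fun (n : ℕ) ω => passageTime (ext W ω) 0 (n • z) / n)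
      atTop (fun _ => c * ((|A z| + |B z| : ℤ) : ℝ))) : False := by
  have hc : 0 < c := hr.trans hrc
  have h0 : ∀ e ω, 0 ≤ W e ω := fun e ω => hr.le.trans (hW e ω)
  have hlow : F.real (Set.Iio r) ≤ 0 := by
    rw [measureReal_def, hFr, ENNReal.toReal_zero]
  -- good blocks
  obtain ⟨C₀, b₀, hC₀, hml⟩ := mean_low' hm hind hF h0 le_rfl (by norm_num : (0 : ℝ) < 1 / 2) hr
    hlow hμ
  obtain ⟨b₁, hb₁0, hb₁r, hb₁e⟩ : ∃ b₁ : ℝ, b₀ ≤ b₁ ∧ r ≤ b₁ ∧
      Real.exp (-Real.sqrt b₁ / C₀) ≤ (c - r) / 2 := by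
    have h1 : Tendsto (fun b : ℝ => Real.exp (-Real.sqrt b / C₀)) atTop (𝓝 0) := by
      have h2 : Tendsto (fun b : ℝ => Real.sqrt b / C₀) atTop atTop :=
        Real.tendsto_sqrt_atTop.atTop_div_const hC₀
      have h3 := Real.tendsto_exp_neg_atTop_nhds_zero.comp h2
      refine h3.congr (fun b => ?_)
      simp only [Function.comp]
      rw [neg_div]
    have h4 := h1.eventually (gt_mem_nhds (show 0 < (c - r) / 2 by linarith))
    obtain ⟨b₁, h5, h6⟩ := (h4.and (eventually_ge_atTop (max b₀ r))).exists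
    exact ⟨b₁, (le_max_left _ _).trans h6, (le_max_right _ _).trans h6, h5.le⟩
  obtain ⟨k, hk⟩ : ∃ k : ℕ, ∀ z : ℤ × ℤ,
      P.real {ω | ¬ BlkGood (ext (Wb W b₁) ω) r 2 k z} ≤ (1 / 64 : ℝ) ^ 18 := by
    obtain ⟨k₀, hk₀⟩ := block_good hm hind hF hr hW (c := (c + r) / 2) (b := b₁) (by linarith)
      hb₁r (fun R x hx y hy => by
        have h1 := hml b₁ hb₁0 R x hx y hy
        have h2 : 0 ≤ ((|(A x - A y : ℤ)| + |(B x - B y : ℤ)| : ℤ) : ℝ) := by
          have : (0 : ℤ) ≤ |(A x - A y : ℤ)| + |(B x - B y : ℤ)| := by positivity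
          exact_mod_cast this
        have h3 := mul_le_mul_of_nonneg_left hb₁e h2
        linarith) (ε := (1 / 64 : ℝ) ^ 18) (by positivity)
    exact ⟨k₀, fun z => hk₀ k₀ le_rfl z⟩
  -- the finite model
  obtain ⟨X₀, hX₀⟩ := PartB.no_square_blocks (a₀ := r / 2) (pL := F.real {r}) (c := c) (k := k)
    (by linarith) hatom hc
  obtain ⟨Y₀, hY₀⟩ := finite_model hm hind hF h0 le_rfl (by norm_num : (0 : ℝ) < 1 / 2) hr hlow hc
    hμ
  obtain ⟨m₃, hm₃⟩ := exists_nat_ge b₁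
  obtain ⟨Y, hYdef⟩ : ∃ Y : ℕ, Y = max (max Y₀ X₀) m₃ := ⟨_, rfl⟩
  have hYY₀ : Y₀ ≤ Y := by
    rw [hYdef]
    exact (le_max_left _ _).trans (le_max_left _ _)
  have hYX₀ : X₀ ≤ Y := by
    rw [hYdef]
    exact (le_max_right _ _).trans (le_max_left _ _)
  have hYm₃ : m₃ ≤ Y := by
    rw [hYdef]
    exact le_max_right _ _
  obtain ⟨hY1, hYr, hY⟩ := hY₀ Y hYY₀
  have hYb : b₁ ≤ Y := hm₃.trans (by exact_mod_cast hYm₃)
  obtain ⟨m₁, hm₁⟩ := hY _ rfl
  obtain ⟨m₂, hm₂⟩ := exists_nat_ge (2 / r)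
  obtain ⟨m, hmdef⟩ : ∃ m : ℕ, m = m₁ + m₂ + (6 * k + 1) ^ 2 := ⟨_, rfl⟩
  obtain ⟨hm0, hH1, hH2, hH3⟩ := hm₁ m (by omega)
  have hm0' : (0 : ℝ) < m := by exact_mod_cast hm0
  have hm6 : (6 * k + 1) ^ 2 ≤ m := by omega
  have hX : X₀ ≤ Y ^ 4 := by
    calc X₀ ≤ Y := hYX₀
      _ = Y ^ 1 := (pow_one Y).symm
      _ ≤ Y ^ 4 := Nat.pow_le_pow_right (by omega) (by norm_num)
  -- the discretised infimum
  obtain ⟨a, ha⟩ : ∃ a : ℝ, a = (⌊(m : ℝ) * r⌋₊ : ℝ) / m := ⟨_, rfl⟩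
  have ha₀ : r / 2 ≤ a := by
    have h1 : (m₂ : ℝ) ≤ m := by exact_mod_cast (by omega : m₂ ≤ m)
    have h2 : 2 / r ≤ m := hm₂.trans h1
    rw [div_le_iff₀ hr] at h2
    have h3 : (m : ℝ) * r - 1 < ⌊(m : ℝ) * r⌋₊ := Nat.sub_one_lt_floor _
    rw [ha, le_div_iff₀ hm0']
    linarith
  have haY : a ≤ Y := by
    rw [ha, div_le_iff₀ hm0']
    have h3 : (⌊(m : ℝ) * r⌋₊ : ℝ) ≤ m * r := Nat.floor_le (by positivity)
    have h4 : (m : ℝ) * r ≤ m * Y := mul_le_mul_of_nonneg_left hYr hm0'.le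
    linarith
  -- small values have mass zero
  set val' : Fin (m * Y + 1) → ℝ := fun v => max (dval m (m * Y) v) a with hval'
  have hzero : ∀ v, dval m (m * Y) v ≠ val' v → dscP F m (m * Y) v = 0 := by
    intro v hv
    have h1 : dval m (m * Y) v < a := by
      by_contra h
      push Not at h
      exact hv (max_eq_left h).symm
    unfold dval at h1
    rw [ha, div_lt_div_iff_of_pos_right hm0'] at h1
    have h2 : (v : ℕ) < ⌊(m : ℝ) * r⌋₊ := by exact_mod_cast h1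
    unfold dscP
    rw [measureReal_def]
    have h3 : F {x | dsc m (m * Y) x = v} = 0 := by
      refine measure_mono_null ?_ hFr
      intro x hx
      have hx' : dsc m (m * Y) x = v := hx
      rw [Set.mem_Iio]
      by_contra h
      push Not at h
      have h4 : ⌊(m : ℝ) * r⌋₊ ≤ ⌊(m : ℝ) * x⌋₊ :=
        Nat.floor_le_floor (mul_le_mul_of_nonneg_left h hm0'.le)
      have h5 : ((dsc m (m * Y) x : Fin _) : ℕ) = v := by rw [hx']
      unfold dsc at h5
      simp only at h5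
      have h6 : ⌊(m : ℝ) * r⌋₊ ≤ m * Y := by
        have h7 : (⌊(m : ℝ) * r⌋₊ : ℝ) ≤ m * r := Nat.floor_le (by positivity)
        have h8 : (m : ℝ) * r ≤ m * Y := mul_le_mul_of_nonneg_left hYr hm0'.le
        have h9 : (⌊(m : ℝ) * r⌋₊ : ℝ) ≤ ((m * Y : ℕ) : ℝ) := by
          push_cast
          linarith
        exact_mod_cast h9
      omega
    rw [h3, ENNReal.toReal_zero]
  have hmassr : F.real {r} ≤ (∑ v, if val' v ≤ a then dscP F m (m * Y) v else 0) := by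
    classical
    rw [sum_dscP F m (m * Y) (fun v => val' v ≤ a)]
    refine measureReal_mono ?_ (measure_ne_top F _)
    intro x hx
    rw [Set.mem_singleton_iff] at hx
    change val' (dsc m (m * Y) x) ≤ a
    rw [hval', hx]
    refine max_le ?_ le_rfl
    rw [ha]
    unfold dval dsc
    simp only
    apply div_le_div_of_nonneg_right _ hm0'.le
    exact_mod_cast min_le_left _ _
  refine hX₀ (Y ^ 4) hX (Fin (m * Y + 1)) (dscP F m (m * Y)) val' a Y
    (dscP_isProb F m (m * Y)) (by exact_mod_cast hY1) (by push_cast; exact le_rfl) ha₀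
    (fun v => ⟨le_max_right _ _, max_le (dval_le hm0 v) haY⟩) hmassr ?_ ?_ ?_ ?_
  · intro z hz
    rw [← Pr_val_congr hzero (fun w => ¬ BlkGood w a 1 k z), ha]
    exact block_good_disc hm hind hF hr hW (hk z) hm6 hYb hz
  · intro x hx y hy
    rw [← Ex_val_congr hzero (fun w => TT w (box (Pars (Y ^ 4) c).R) x y)]
    exact hH1 x hx y hy
  · intro j hj
    rw [← Ex_val_congr hzero (fun w => TT w (box (Pars (Y ^ 4) c).R)
      (pt 0 (2 * j * (Pars (Y ^ 4) c).σ))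
      (pt (2 * (Pars (Y ^ 4) c).N * (Pars (Y ^ 4) c).σ) (2 * j * (Pars (Y ^ 4) c).σ)))]
    exact hH2 j hj
  · intro i hi
    rw [← Ex_val_congr hzero (fun w => TT w (box (Pars (Y ^ 4) c).R)
      (pt (2 * i * (Pars (Y ^ 4) c).σ) 0)
      (pt (2 * i * (Pars (Y ^ 4) c).σ) (2 * (Pars (Y ^ 4) c).N * (Pars (Y ^ 4) c).σ)))]
    exact hH3 i hi

end Pool.Agent.Helper33_FPP
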