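import Pool.Agent.Helper33_FPP.P2
import Pool.Agent.Helper33_FPP.LowerMean
import Pool.Agent.Helper33_FPP.TransferConc

/-!
# Uniform lower bound for the passage times of all pairs in a box (module PD0)
-/

set_option autoImplicit false

open Finset MeasureTheory ProbabilityTheory Filter Topology

namespace Pool.Agent.Helper33_FPP

namespace LowUnifAux

open LM

/-- the probability bound tends to zero -/
theorem tendsto_bound {ε b : ℝ} (hε : 0 < ε) (hb : 0 < b) (K : ℕ) :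
    Tendsto (fun n : ℕ => ((2 * (8 * n : ℕ) + 1 : ℝ) ^ 4) *
      (4 * Real.exp (-((ε * n - 1) / (2 * b * Real.sqrt ((K * n : ℕ) + 1)))))) atTop (𝓝 0) := by
  set a : ℝ := ε / (4 * b * Real.sqrt (K + 1)) with ha
  have hK : 0 < Real.sqrt (K + 1 : ℝ) := Real.sqrt_pos.2 (by positivity)
  have ha0 : 0 < a := by positivity
  have h1 : Tendsto (fun n : ℕ => a * Real.sqrt n) atTop atTop :=
    (Real.tendsto_sqrt_atTop.comp tendsto_natCast_atTop_atTop).const_mul_atTop ha0
  have h2 := (Real.tendsto_pow_mul_exp_neg_atTop_nhds_zero 8).comp h1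
  have h3 := h2.const_mul (4 * 17 ^ 4 * (a ^ 8)⁻¹)
  rw [mul_zero] at h3
  refine squeeze_zero' (Eventually.of_forall fun n => by positivity) ?_ h3
  obtain ⟨N, hN⟩ := exists_nat_ge (2 / ε)
  filter_upwards [eventually_ge_atTop (max N 1)] with n hn
  have hn1 : (1 : ℝ) ≤ n := by exact_mod_cast (le_max_right N 1).trans hn
  have hn2 : 2 / ε ≤ n := hN.trans (by exact_mod_cast (le_max_left N 1).trans hn)
  have hεn : 2 ≤ ε * n := by
    rw [div_le_iff₀ hε] at hn2
    linarith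
  have hsn : 0 < Real.sqrt n := Real.sqrt_pos.2 (by linarith)
  have hsq : Real.sqrt n ^ 2 = n := Real.sq_sqrt (by positivity)
  simp only [Function.comp_apply]
  -- the exponent
  have e1 : a * Real.sqrt n ≤ (ε * n - 1) / (2 * b * Real.sqrt ((K * n : ℕ) + 1)) := by
    have h4 : Real.sqrt ((K * n : ℕ) + 1) ≤ Real.sqrt (K + 1) * Real.sqrt n := by
      rw [← Real.sqrt_mul (by positivity)]
      apply Real.sqrt_le_sqrt
      push_cast
      nlinarith
    have h5 : 0 < Real.sqrt (((K * n : ℕ) : ℝ) + 1) := Real.sqrt_pos.2 (by positivity)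
    rw [le_div_iff₀ (by positivity)]
    calc a * Real.sqrt n * (2 * b * Real.sqrt ((K * n : ℕ) + 1))
        ≤ a * Real.sqrt n * (2 * b * (Real.sqrt (K + 1) * Real.sqrt n)) := by gcongr
      _ = ε / 2 * Real.sqrt n ^ 2 := by
          rw [ha]
          field_simp
          ring
      _ ≤ ε * n - 1 := by rw [hsq]; linarith
  have e2 : (2 * (8 * n : ℕ) + 1 : ℝ) ^ 4 ≤ 17 ^ 4 * (Real.sqrt n) ^ 8 := by
    have : (Real.sqrt n) ^ 8 = (n : ℝ) ^ 4 := by
      rw [show (8 : ℕ) = 2 * 4 by norm_num, pow_mul, hsq]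
    rw [this, ← mul_pow]
    apply pow_le_pow_left₀ (by positivity)
    push_cast
    linarith
  have e3 : Real.exp (-((ε * n - 1) / (2 * b * Real.sqrt ((K * n : ℕ) + 1)))) ≤
      Real.exp (-(a * Real.sqrt n)) := by
    apply Real.exp_le_exp.2
    linarith
  calc (2 * (8 * n : ℕ) + 1 : ℝ) ^ 4 *
        (4 * Real.exp (-((ε * n - 1) / (2 * b * Real.sqrt ((K * n : ℕ) + 1)))))
      ≤ (17 ^ 4 * (Real.sqrt n) ^ 8) * (4 * Real.exp (-(a * Real.sqrt n))) := by gcongr
    _ = 4 * 17 ^ 4 * (a ^ 8)⁻¹ * ((a * Real.sqrt n) ^ 8 * Real.exp (-(a * Real.sqrt n))) := by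
        rw [mul_pow]
        field_simp

theorem le_Wb {Ω : Type*} {W : Z2.edgeSet → Ω → ℝ} {r b : ℝ} (hW : ∀ e ω, r ≤ W e ω)
    (hrb : r ≤ b) (e : Z2.edgeSet) (ω : Ω) : r ≤ Wb W b e ω :=
  (le_min (hW e ω) hrb).trans (le_max_right _ _)

/-- the estimate for one pair -/
theorem one_pair {Ω : Type} [MeasurableSpace Ω] {P : Measure Ω} [IsProbabilityMeasure P]
    {F : Measure ℝ} [IsProbabilityMeasure F] {W : Z2.edgeSet → Ω → ℝ}
    (hm : ∀ e, Measurable (W e)) (hind : iIndepFun W P) (hF : ∀ e, P.map (W e) = F)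
    {r b : ℝ} (hr : 0 < r) (hW : ∀ e ω, r ≤ W e ω) (hrb : r ≤ b) {R k : ℕ} {x y : ℤ × ℤ}
    (hx : x ∈ box R) (hy : y ∈ box R) {D t : ℝ} (ht : 0 ≤ t) (hk : D ≤ r * k)
    (hmean : D - 1 ≤ ∫ ω, TT (ext (Wb W b) ω) (box R) x y ∂P) :
    P.real {ω | TT (ext (Wb W b) ω) (box R) x y < D - (t + 1)} ≤
      4 * Real.exp (-(t / (2 * b * Real.sqrt (k + 1)))) := by
  classical
  have hb : 0 < b := lt_of_lt_of_le hr hrb
  have hI := UpperMean.iid_Wb hm hind hF hb.le
  have hprob : IsProbabilityMeasure (F.map (fun x => max 0 (min x b))) :=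
    Measure.isProbabilityMeasure_map (by fun_prop)
  set X := Wb W b with hX
  have hXr : ∀ e ω, r ≤ X e ω := fun e ω => le_Wb hW hrb e ω
  set w : EIdx R → Ω → ℝ := fun i ω => X ⟨i.1, (mem_edgesIn.1 i.2).2⟩ ω with hw
  have hext : ∀ ω (i : EIdx R), ext X ω i.1 = w i ω := by
    intro ω i
    unfold ext
    rw [dif_pos (mem_edgesIn.1 i.2).2]
  have hTT : ∀ ω, TT (ext X ω) (box R) x y =
      minW (esets R x y) (esets_nonempty hx hy) (fun i => w i ω) := by
    intro ω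
    rw [TT_eq_minW hx hy (ext_nonneg hI.nonneg ω)]
    congr 1
    funext i
    exact hext ω i
  set 𝒮 : Finset (Finset (EIdx R)) := (esets R x y).filter (fun S => S.card ≤ k) with h𝒮
  -- a light path has few edges
  have key : ∀ ω, TT (ext X ω) (box R) x y < D - (t + 1) → ∃ S ∈ 𝒮, ∑ i ∈ S, w i ω < D - (t + 1) := by
    intro ω hω
    rw [hTT] at hω
    obtain ⟨S, hS, hSe⟩ := Finset.exists_mem_eq_inf' (esets_nonempty hx hy)
      (fun S => ∑ i ∈ S, w i ω)
    unfold minW at hω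
    rw [hSe] at hω
    refine ⟨S, ?_, hω⟩
    rw [h𝒮, Finset.mem_filter]
    refine ⟨hS, ?_⟩
    by_contra hcon
    push Not at hcon
    have h1 : (S.card : ℝ) * r ≤ ∑ i ∈ S, w i ω := by
      rw [← nsmul_eq_mul]
      exact Finset.card_nsmul_le_sum _ _ _ (fun i _ => hXr _ _)
    have h2 : (k : ℝ) * r ≤ S.card * r := by
      apply mul_le_mul_of_nonneg_right _ hr.le
      exact_mod_cast hcon.le
    linarith
  rcases 𝒮.eq_empty_or_nonempty with hemp | hne
  · have : {ω | TT (ext X ω) (box R) x y < D - (t + 1)} = ∅ := by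
      rw [Set.eq_empty_iff_forall_notMem]
      intro ω hω
      obtain ⟨S, hS, _⟩ := key ω hω
      rw [hemp] at hS
      exact absurd hS (Finset.notMem_empty _)
    rw [this, measureReal_empty]
    positivity
  · have hcard : ∀ S ∈ 𝒮, S.card ≤ k := fun S hS => (Finset.mem_filter.1 hS).2
    have hinj : Function.Injective
        (fun i : EIdx R => (⟨i.1, (mem_edgesIn.1 i.2).2⟩ : Z2.edgeSet)) := by
      intro i j h
      have := congrArg Subtype.val h
      exact Subtype.ext this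
    have hmw : ∀ i, Measurable (w i) := fun i => hI.meas _
    have hconc := conc_measure (P := P) (F := F.map (fun x => max 0 (min x b))) (w := w) hmw
      (hI.indep.precomp hinj) (fun i => hI.law _) hb (fun i ω => ⟨hI.nonneg _ _, hI.le _ _⟩)
      𝒮 hne hcard ht
    refine le_trans (measureReal_mono ?_ (measure_ne_top _ _)) hconc
    intro ω hω
    obtain ⟨S, hS, hlt⟩ := key ω hω
    have h1 : minW 𝒮 hne (fun i => w i ω) < D - (t + 1) := by
      unfold minW
      exact lt_of_le_of_lt (Finset.inf'_le (fun S : Finset (EIdx R) => ∑ i ∈ S, w i ω) hS) hlt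
    have h2 : ∫ ω, TT (ext X ω) (box R) x y ∂P ≤ ∫ ω', minW 𝒮 hne (fun i => w i ω') ∂P := by
      apply integral_mono_of_nonneg
      · filter_upwards with ω
        exact TT_nonneg (ext_nonneg hI.nonneg ω) _ _ _
      · refine Integrable.of_bound (measurable_minW hmw 𝒮 hne).aestronglyMeasurable (k * b)
          (Eventually.of_forall (fun ω => ?_))
        rw [Real.norm_eq_abs, abs_of_nonneg (minW_nonneg 𝒮 hne (fun i => hI.nonneg _ _))]
        exact minW_le 𝒮 hne hb.le (fun i => hI.le _ _) hcard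
      · filter_upwards with ω
        rw [hTT]
        unfold minW
        apply Finset.inf'_mono
        exact Finset.filter_subset _ _
    show t ≤ |minW 𝒮 hne (fun i => w i ω) - ∫ ω', minW 𝒮 hne (fun i => w i ω') ∂P|
    rw [abs_sub_comm]
    refine le_trans ?_ (le_abs_self _)
    linarith

theorem card_box (R : ℕ) : (box R).card = (2 * R + 1) ^ 2 := by
  unfold box
  rw [Finset.card_product, Int.card_Icc, sq]
  congr 1 <;> omega

end LowUnifAux

open LowUnifAux in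
theorem low_unif {Ω : Type} [MeasurableSpace Ω] {P : Measure Ω} [IsProbabilityMeasure P]
    {F : Measure ℝ} [IsProbabilityMeasure F] {W : Z2.edgeSet → Ω → ℝ}
    (hm : ∀ e, Measurable (W e)) (hind : iIndepFun W P) (hF : ∀ e, P.map (W e) = F)
    {r c b : ℝ} (hr : 0 < r) (hW : ∀ e ω, r ≤ W e ω) (hc : 0 ≤ c) (hrb : r ≤ b)
    (hmean : ∀ (R : ℕ), ∀ x ∈ box R, ∀ y ∈ box R,
      c * (|(A x - A y : ℤ)| + |(B x - B y : ℤ)| : ℤ) - 1 ≤
        ∫ ω, TT (ext (Wb W b) ω) (box R) x y ∂P) {ε : ℝ} (hε : 0 < ε) :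
    ∃ n₀ : ℕ, ∀ n : ℕ, n₀ ≤ n → P.real {ω | ∃ x ∈ box (8 * n), ∃ y ∈ box (8 * n),
      TT (ext (Wb W b) ω) (box (8 * n)) x y <
        c * (|(A x - A y : ℤ)| + |(B x - B y : ℤ)| : ℤ) - ε * n} ≤ ε := by
  classical
  have hb : 0 < b := lt_of_lt_of_le hr hrb
  obtain ⟨K, hK⟩ := exists_nat_ge (64 * c / r)
  have hK' : 64 * c ≤ r * K := by
    rw [div_le_iff₀ hr] at hK
    linarith
  have hlim := tendsto_bound hε hb K
  obtain ⟨N, hN⟩ := exists_nat_ge (1 / ε)
  obtain ⟨n₀, hn₀⟩ := eventually_atTop.1 (hlim.eventually (gt_mem_nhds hε))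
  refine ⟨max n₀ N, fun n hn => ?_⟩
  have hn1 := hn₀ n ((le_max_left _ _).trans hn)
  have hn2 : (1 : ℝ) ≤ ε * n := by
    have : 1 / ε ≤ n := hN.trans (by exact_mod_cast (le_max_right _ _).trans hn)
    rw [div_le_iff₀ hε] at this
    linarith
  have hsub : {ω | ∃ x ∈ box (8 * n), ∃ y ∈ box (8 * n),
      TT (ext (Wb W b) ω) (box (8 * n)) x y <
        c * (|(A x - A y : ℤ)| + |(B x - B y : ℤ)| : ℤ) - ε * n} ⊆
      ⋃ p ∈ (box (8 * n)) ×ˢ (box (8 * n)), {ω | TT (ext (Wb W b) ω) (box (8 * n)) p.1 p.2 <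
        c * (|(A p.1 - A p.2 : ℤ)| + |(B p.1 - B p.2 : ℤ)| : ℤ) - ((ε * n - 1) + 1)} := by
    rintro ω ⟨x, hx, y, hy, h⟩
    simp only [Set.mem_iUnion]
    refine ⟨(x, y), Finset.mem_product.2 ⟨hx, hy⟩, ?_⟩
    rw [Set.mem_ofPred_eq, sub_add_cancel]
    exact h
  refine le_trans (measureReal_mono hsub (measure_ne_top _ _)) ?_
  refine le_trans (measureReal_biUnion_finset_le _ _) ?_
  have hone : ∀ p ∈ (box (8 * n)) ×ˢ (box (8 * n)),
      P.real {ω | TT (ext (Wb W b) ω) (box (8 * n)) p.1 p.2 <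
        c * (|(A p.1 - A p.2 : ℤ)| + |(B p.1 - B p.2 : ℤ)| : ℤ) - ((ε * n - 1) + 1)} ≤
      4 * Real.exp (-((ε * n - 1) / (2 * b * Real.sqrt ((K * n : ℕ) + 1)))) := by
    rintro ⟨x, y⟩ hp
    obtain ⟨hx, hy⟩ := Finset.mem_product.1 hp
    refine one_pair hm hind hF hr hW hrb hx hy (by linarith) ?_ (hmean _ x hx y hy)
    have hx' := mem_box.1 hx
    have hy' := mem_box.1 hy
    simp only at hx' hy' ⊢
    have hD : (|(A x - A y : ℤ)| + |(B x - B y : ℤ)| : ℤ) ≤ 64 * n := by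
      simp only [A, B]
      push_cast at hx' hy'
      have h1 : |(x.1 + x.2 - (y.1 + y.2) : ℤ)| ≤ 32 * n := by
        rw [abs_le]
        constructor <;> linarith [hx'.1.1, hx'.1.2, hx'.2.1, hx'.2.2, hy'.1.1, hy'.1.2, hy'.2.1,
          hy'.2.2]
      have h2 : |(x.1 - x.2 - (y.1 - y.2) : ℤ)| ≤ 32 * n := by
        rw [abs_le]
        constructor <;> linarith [hx'.1.1, hx'.1.2, hx'.2.1, hx'.2.2, hy'.1.1, hy'.1.2, hy'.2.1,
          hy'.2.2]
      linarith
    have hD' : (((|(A x - A y : ℤ)| + |(B x - B y : ℤ)| : ℤ)) : ℝ) ≤ 64 * n := by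
      exact_mod_cast hD
    calc c * (((|(A x - A y : ℤ)| + |(B x - B y : ℤ)| : ℤ)) : ℝ) ≤ c * (64 * n) :=
          mul_le_mul_of_nonneg_left hD' hc
      _ = 64 * c * n := by ring
      _ ≤ r * K * n := mul_le_mul_of_nonneg_right hK' (Nat.cast_nonneg _)
      _ = r * (K * n : ℕ) := by push_cast; ring
  refine le_trans (Finset.sum_le_sum hone) ?_
  rw [Finset.sum_const, Finset.card_product, card_box, nsmul_eq_mul]
  refine le_trans (le_of_eq ?_) hn1.le
  push_cast
  ring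

end Pool.Agent.Helper33_FPP
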