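import Pool.Agent.Helper33_FPP.Orient

/-!
# Oriented percolation: elementary facts
-/

set_option autoImplicit false

namespace Pool.Agent.Helper33_FPP

open Finset

namespace OrBasicAux

lemma stp_mono {O O' : Sym2 (ℤ × ℤ) → Prop} (h : ∀ e, O e → O' e) {S T : Set (ℤ × ℤ)}
    (hST : S ⊆ T) : stp O S ⊆ stp O' T := by
  rintro v (⟨h1, h2⟩ | ⟨h1, h2⟩)
  · exact Or.inl ⟨hST h1, h _ h2⟩
  · exact Or.inr ⟨hST h1, h _ h2⟩

lemma stp_HL (O : Sym2 (ℤ × ℤ) → Prop) {s j : ℤ} {S : Set (ℤ × ℤ)} (h : S ⊆ HL s j) :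
    stp O S ⊆ HL (s + 1) (j + 1) := by
  rintro v (⟨h1, -⟩ | ⟨h1, -⟩)
  · obtain ⟨h2, h3⟩ := h h1
    simp only [A] at h2
    refine ⟨?_, ?_⟩
    · simp only [A]; omega
    · simp only at h3; omega
  · obtain ⟨h2, h3⟩ := h h1
    simp only [A] at h2
    refine ⟨?_, ?_⟩
    · simp only [A]; omega
    · simp only at h3; omega

end OrBasicAux

open OrBasicAux

theorem stp_union (O : Sym2 (ℤ × ℤ) → Prop) (S T : Set (ℤ × ℤ)) :
    stp O (S ∪ T) = stp O S ∪ stp O T := by
  ext v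
  simp only [stp, Set.mem_ofPred_eq, Set.mem_union]
  tauto

theorem stp_iter_union (O : Sym2 (ℤ × ℤ) → Prop) (n : ℕ) (S T : Set (ℤ × ℤ)) :
    (stp O)^[n] (S ∪ T) = (stp O)^[n] S ∪ (stp O)^[n] T := by
  induction n with
  | zero => rfl
  | succ n ih =>
    rw [Function.iterate_succ_apply', Function.iterate_succ_apply', Function.iterate_succ_apply',
      ih, stp_union]

theorem stp_iter_mono {O O' : Sym2 (ℤ × ℤ) → Prop} (h : ∀ e, O e → O' e) (n : ℕ)
    {S T : Set (ℤ × ℤ)} (hST : S ⊆ T) : (stp O)^[n] S ⊆ (stp O')^[n] T := by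
  induction n with
  | zero => exact hST
  | succ n ih =>
    rw [Function.iterate_succ_apply', Function.iterate_succ_apply']
    exact stp_mono h ih

theorem stp_iter_HL (O : Sym2 (ℤ × ℤ) → Prop) (n : ℕ) {s j : ℤ} {S : Set (ℤ × ℤ)}
    (h : S ⊆ HL s j) : (stp O)^[n] S ⊆ HL (s + n) (j + n) := by
  induction n with
  | zero => simpa using h
  | succ n ih =>
    rw [Function.iterate_succ_apply']
    have := stp_HL O ih
    push_cast
    rw [← add_assoc, ← add_assoc]
    exact this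

theorem stp_iter_start {O : Sym2 (ℤ × ℤ) → Prop} {n : ℕ} {S : Set (ℤ × ℤ)} {v : ℤ × ℤ}
    (h : v ∈ (stp O)^[n] S) : ∃ u ∈ S, v ∈ (stp O)^[n] {u} ∧ u.1 ≤ v.1 ∧ u.2 ≤ v.2 ∧
      v.1 + v.2 = u.1 + u.2 + n := by
  induction n generalizing v with
  | zero => exact ⟨v, h, rfl, le_rfl, le_rfl, by simp⟩
  | succ n ih =>
    rw [Function.iterate_succ_apply'] at h
    rcases h with ⟨h1, h2⟩ | ⟨h1, h2⟩
    · obtain ⟨u, hu, h3, h4, h5, h6⟩ := ih h1
      refine ⟨u, hu, ?_, ?_, ?_, ?_⟩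
      · rw [Function.iterate_succ_apply']
        exact Or.inl ⟨h3, h2⟩
      · simp only at h4; omega
      · exact h5
      · simp only at h6; push_cast; omega
    · obtain ⟨u, hu, h3, h4, h5, h6⟩ := ih h1
      refine ⟨u, hu, ?_, ?_, ?_, ?_⟩
      · rw [Function.iterate_succ_apply']
        exact Or.inr ⟨h3, h2⟩
      · exact h4
      · simp only at h5; omega
      · simp only at h6; push_cast; omega

/-- only the edges in the rectangle between the end points matter -/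
theorem stp_iter_congr {O O' : Sym2 (ℤ × ℤ) → Prop} {n : ℕ} {u v : ℤ × ℤ}
    (h : ∀ e ∈ Z2.edgeSet, (∀ z ∈ e, u.1 ≤ z.1 ∧ u.2 ≤ z.2 ∧ z.1 ≤ v.1 ∧ z.2 ≤ v.2) → O e → O' e)
    (hv : v ∈ (stp O)^[n] {u}) : v ∈ (stp O')^[n] {u} := by
  induction n generalizing v with
  | zero => exact hv
  | succ n ih =>
    rw [Function.iterate_succ_apply'] at hv ⊢
    rcases hv with ⟨h1, h2⟩ | ⟨h1, h2⟩
    · obtain ⟨u', hu', -, h4, h5, -⟩ := stp_iter_start h1
      rw [Set.mem_singleton_iff] at hu'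
      subst hu'
      simp only at h4 h5
      refine Or.inl ⟨ih (fun e he hz => h e he fun z hzz => ?_) h1, h _ ?_ ?_ h2⟩
      · obtain ⟨h6, h7, h8, h9⟩ := hz z hzz
        simp only at h8 h9
        exact ⟨h6, h7, by omega, h9⟩
      · rw [SimpleGraph.mem_edgeSet]
        change (v.1 - 1 - v.1).natAbs + (v.2 - v.2).natAbs = 1
        omega
      · intro z hz
        rw [Sym2.mem_iff] at hz
        rcases hz with rfl | rfl
        · exact ⟨h4, h5, by simp, le_rfl⟩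
        · exact ⟨by omega, h5, le_rfl, le_rfl⟩
    · obtain ⟨u', hu', -, h4, h5, -⟩ := stp_iter_start h1
      rw [Set.mem_singleton_iff] at hu'
      subst hu'
      simp only at h4 h5
      refine Or.inr ⟨ih (fun e he hz => h e he fun z hzz => ?_) h1, h _ ?_ ?_ h2⟩
      · obtain ⟨h6, h7, h8, h9⟩ := hz z hzz
        simp only at h8 h9
        exact ⟨h6, h7, h8, by omega⟩
      · rw [SimpleGraph.mem_edgeSet]
        change (v.1 - v.1).natAbs + (v.2 - 1 - v.2).natAbs = 1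
        omega
      · intro z hz
        rw [Sym2.mem_iff] at hz
        rcases hz with rfl | rfl
        · exact ⟨h4, h5, le_rfl, by simp⟩
        · exact ⟨h4, by omega, le_rfl, le_rfl⟩

theorem redge_union {M : ℕ} {S T : Set (ℤ × ℤ)} (hS : BddAbove (Prod.fst '' S))
    (hT : BddAbove (Prod.fst '' T)) : redge M (S ∪ T) = max (redge M S) (redge M T) := by
  unfold redge
  rw [Set.image_union, Set.insert_union_distrib]
  exact csSup_union (hS.insert _) (Set.insert_nonempty _ _) (hT.insert _) (Set.insert_nonempty _ _)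

theorem redge_mono {M : ℕ} {S T : Set (ℤ × ℤ)} (hST : S ⊆ T) (hT : BddAbove (Prod.fst '' T)) :
    redge M S ≤ redge M T :=
  csSup_le_csSup (hT.insert _) (Set.insert_nonempty _ _)
    (Set.insert_subset_insert (Set.image_mono hST))

theorem neg_le_redge {M : ℕ} {S : Set (ℤ × ℤ)} (hS : BddAbove (Prod.fst '' S)) :
    -(M : ℤ) ≤ redge M S :=
  le_csSup (hS.insert _) (Set.mem_insert _ _)

theorem le_redge {M : ℕ} {S : Set (ℤ × ℤ)} (hS : BddAbove (Prod.fst '' S)) {v : ℤ × ℤ}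
    (hv : v ∈ S) : v.1 ≤ redge M S :=
  le_csSup (hS.insert _) (Set.mem_insert_of_mem _ ⟨v, hv, rfl⟩)

theorem redge_cases {M : ℕ} {S : Set (ℤ × ℤ)} (hS : BddAbove (Prod.fst '' S)) :
    redge M S = -(M : ℤ) ∨ ∃ v ∈ S, v.1 = redge M S := by
  have h := Int.csSup_mem (s := insert (-(M : ℤ)) (Prod.fst '' S)) (Set.insert_nonempty _ _)
    (hS.insert _)
  rcases h with h | ⟨v, hv, h⟩
  · exact Or.inl h
  · exact Or.inr ⟨v, hv, h⟩

end Pool.Agent.Helper33_FPP
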