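import Pool.Agent.Helper33_FPP.OrGeo
import Pool.Agent.Helper33_FPP.OrBasic
import Pool.Agent.Helper33_FPP.LowerMean

/-!
# Almost all large blocks are good if oriented paths are slow (module PD7b)
-/

set_option autoImplicit false

open Finset MeasureTheory ProbabilityTheory Filter Topology

namespace Pool.Agent.Helper33_FPP

namespace OrBlkAux

/-! ### transfer to finitely many values -/

theorem transferG {ι Ω V : Type*} [Fintype ι] [DecidableEq ι] [Fintype V] [MeasurableSpace V]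
    [MeasurableSingletonClass V] [MeasurableSpace Ω] {P : Measure Ω}
    [IsProbabilityMeasure P] {F : Measure ℝ} [IsProbabilityMeasure F] {w : ι → Ω → ℝ}
    (hm : ∀ i, Measurable (w i)) (hind : iIndepFun w P) (hF : ∀ i, P.map (w i) = F) {f : ℝ → V}
    (hf : Measurable f) (φ : (ι → V) → ℝ) :
    ∫ ω, φ (fun i => f (w i ω)) ∂P = Ex (fun v => F.real (f ⁻¹' {v})) φ := by
  have hmi : ∀ i, Measurable (fun ω => f (w i ω)) := fun i => hf.comp (hm i)
  have hX : Measurable (fun ω => fun i => f (w i ω)) := measurable_pi_lambda _ hmi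
  have hind' : iIndepFun (fun i ω => f (w i ω)) P :=
    hind.comp (fun _ => f) (fun _ => hf)
  have hmap : P.map (fun ω => fun i => f (w i ω)) =
      Measure.pi (fun i => P.map (fun ω => f (w i ω))) :=
    (iIndepFun_iff_map_fun_eq_pi_map (fun i => (hmi i).aemeasurable)).1 hind'
  have hFi : ∀ i, P.map (fun ω => f (w i ω)) = F.map f := by
    intro i
    rw [← hF i, Measure.map_map hf (hm i)]
    rfl
  have hpF : IsProbabilityMeasure (F.map f) := Measure.isProbabilityMeasure_map hf.aemeasurable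
  have h1 : ∫ ω, φ (fun i => f (w i ω)) ∂P
      = ∫ a, φ a ∂(P.map (fun ω => fun i => f (w i ω))) := by
    rw [integral_map hX.aemeasurable]
    exact (measurable_of_finite φ).aestronglyMeasurable
  rw [h1, hmap]
  simp_rw [hFi]
  rw [integral_fintype Integrable.of_finite]
  unfold Ex
  refine Finset.sum_congr rfl (fun a _ => ?_)
  rw [smul_eq_mul]
  congr 1
  rw [Measure.real, Measure.pi_singleton, ENNReal.toReal_prod]
  refine Finset.prod_congr rfl (fun i _ => ?_)
  have := map_measureReal_apply (μ := F) hf (MeasurableSet.singleton (a i))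
  rw [Measure.real] at this
  rw [this]

theorem Pr_transferG {ι Ω V : Type*} [Fintype ι] [DecidableEq ι] [Fintype V] [MeasurableSpace V]
    [MeasurableSingletonClass V] [MeasurableSpace Ω] {P : Measure Ω}
    [IsProbabilityMeasure P] {F : Measure ℝ} [IsProbabilityMeasure F] {w : ι → Ω → ℝ}
    (hm : ∀ i, Measurable (w i)) (hind : iIndepFun w P) (hF : ∀ i, P.map (w i) = F) {f : ℝ → V}
    (hf : Measurable f) (E : (ι → V) → Prop) :
    P.real {ω | E (fun i => f (w i ω))} = Pr (fun v => F.real (f ⁻¹' {v})) E := by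
  classical
  unfold Pr
  rw [← transferG hm hind hF hf]
  have hmi : ∀ i, Measurable (fun ω => f (w i ω)) := fun i => hf.comp (hm i)
  have hX : Measurable (fun ω => fun i => f (w i ω)) := measurable_pi_lambda _ hmi
  have hS : MeasurableSet {ω | E (fun i => f (w i ω))} := by
    have : {ω | E (fun i => f (w i ω))} = (fun ω => fun i => f (w i ω)) ⁻¹' {a | E a} := rfl
    rw [this]
    exact hX (Set.toFinite _).measurableSet
  rw [← integral_indicator_one hS]
  refine integral_congr_ae (Eventually.of_forall (fun ω => ?_))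
  simp [Set.indicator_apply]

/-- indicator of the value `r` -/
noncomputable def fr (r x : ℝ) : Bool := by
  classical
  exact decide (x = r)

theorem measurable_fr (r : ℝ) : Measurable (fr r) := by
  classical
  apply measurable_to_countable'
  intro b
  have : fr r ⁻¹' {true} = {r} := by
    ext x
    simp [fr]
  have h2 : fr r ⁻¹' {false} = {r}ᶜ := by
    ext x
    simp [fr]
  cases b
  · rw [h2]
    exact (measurableSet_singleton r).compl
  · rw [this]
    exact measurableSet_singleton r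

theorem law_fr (F : Measure ℝ) [IsProbabilityMeasure F] (r : ℝ) :
    (fun v => F.real (fr r ⁻¹' {v})) = bern (F.real {r}) := by
  funext v
  have h1 : fr r ⁻¹' {true} = {r} := by
    ext x
    simp [fr]
  have h2 : fr r ⁻¹' {false} = {r}ᶜ := by
    ext x
    simp [fr]
  cases v
  · rw [h2, measureReal_compl (measurableSet_singleton r), probReal_univ]
    simp [bern]
  · rw [h1]
    simp [bern]

/-! ### swapping the coordinates -/

theorem stp_swap {O : Sym2 (ℤ × ℤ) → Prop} {S : Set (ℤ × ℤ)} {v : ℤ × ℤ} (h : v ∈ stp O S) :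
    v.swap ∈ stp (fun e => O (Sym2.map Prod.swap e)) (Prod.swap ⁻¹' S) := by
  obtain ⟨a, b⟩ := v
  rcases h with ⟨h1, h2⟩ | ⟨h1, h2⟩
  · right
    exact ⟨h1, h2⟩
  · left
    exact ⟨h1, h2⟩

theorem stp_iter_swap {O : Sym2 (ℤ × ℤ) → Prop} {S : Set (ℤ × ℤ)} (k : ℕ) {v : ℤ × ℤ}
    (h : v ∈ (stp O)^[k] S) :
    v.swap ∈ (stp (fun e => O (Sym2.map Prod.swap e)))^[k] (Prod.swap ⁻¹' S) := by
  induction k generalizing v with
  | zero => exact h
  | succ k ih =>
    rw [Function.iterate_succ_apply'] at h ⊢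
    have h1 := stp_swap h
    have h2 : Prod.swap ⁻¹' ((stp O)^[k] S) ⊆
        (stp (fun e => O (Sym2.map Prod.swap e)))^[k] (Prod.swap ⁻¹' S) := by
      intro u hu
      have := ih hu
      rwa [Prod.swap_swap] at this
    have h3 := stp_iter_mono (O := fun e => O (Sym2.map Prod.swap e)) (fun _ h => h) 1 h2
    rw [Function.iterate_one] at h3
    exact h3 h1

theorem swap_adj {x y : ℤ × ℤ} (h : Z2.Adj x y) : Z2.Adj x.swap y.swap := by
  rw [Z2_adj_iff] at h ⊢
  simp only [Prod.fst_swap, Prod.snd_swap]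
  omega

theorem refl2_adj {x y : ℤ × ℤ} (h : Z2.Adj x y) : Z2.Adj (refl2 x) (refl2 y) := by
  rw [Z2_adj_iff] at h ⊢
  simp only [refl2]
  omega

theorem map_edge {τ : ℤ × ℤ → ℤ × ℤ} (hτ : ∀ x y, Z2.Adj x y → Z2.Adj (τ x) (τ y))
    {e : Sym2 (ℤ × ℤ)} (he : e ∈ Z2.edgeSet) : Sym2.map τ e ∈ Z2.edgeSet := by
  induction e using Sym2.ind with
  | _ u v => exact hτ u v he

section

variable {Ω : Type} [MeasurableSpace Ω] {P : Measure Ω} [IsProbabilityMeasure P]
    {F : Measure ℝ} [IsProbabilityMeasure F] {W : Z2.edgeSet → Ω → ℝ}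

/-- the estimate for one starting point, in the direction of the first coordinate -/
theorem dir_bound (hm : ∀ e, Measurable (W e)) (hind : iIndepFun W P) (hF : ∀ e, P.map (W e) = F)
    {r ε C ρ : ℝ} {n : ℕ}
    (hdec : ∀ (m R : ℕ) (s j : ℤ), Pr (bern (F.real {r})) (fun ω : EIdx R → Bool =>
      ∃ v ∈ (stp (opn ω))^[n * m] (HL s j), (j : ℝ) + (1 - ε / 2) * (n * m) / 2 ≤ v.1) ≤
        C * ρ ^ m) {τ : ℤ × ℤ → ℤ × ℤ} (hτi : Function.Injective τ)
    (hτ : ∀ x y, Z2.Adj x y → Z2.Adj (τ x) (τ y)) (m : ℕ) (u : ℤ × ℤ) :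
    P.real {ω | ∃ v ∈ (stp (fun e => ext W ω (Sym2.map τ e) = r))^[n * m] {u},
      (u.1 : ℝ) + (1 - ε / 2) * (n * m) / 2 ≤ v.1} ≤ C * ρ ^ m := by
  classical
  set R : ℕ := u.1.natAbs + u.2.natAbs + n * m with hR
  let g : EIdx R → Z2.edgeSet := fun i => ⟨Sym2.map τ i.1, map_edge hτ (mem_edgesIn.1 i.2).2⟩
  have hg : Function.Injective g := by
    intro i j h
    have h1 := congrArg Subtype.val h
    exact Subtype.ext (Sym2.map.injective hτi h1)
  have htr := Pr_transferG (P := P) (F := F) (w := fun i : EIdx R => W (g i)) (fun i => hm _)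
    (hind.precomp hg) (fun i => hF _) (measurable_fr r) (fun ω : EIdx R → Bool =>
      ∃ v ∈ (stp (opn ω))^[n * m] (HL (A u) u.1), (u.1 : ℝ) + (1 - ε / 2) * (n * m) / 2 ≤ v.1)
  rw [law_fr] at htr
  refine le_trans (le_trans (measureReal_mono ?_ (measure_ne_top _ _)) htr.le)
    (hdec m R (A u) u.1)
  rintro ω ⟨v, hv, hvj⟩
  refine ⟨v, ?_, hvj⟩
  obtain ⟨u', hu', -, h1, h2, h3⟩ := stp_iter_start hv
  rw [Set.mem_singleton_iff] at hu'
  subst hu'
  have h4 : v ∈ (stp (opn (fun i : EIdx R => fr r (W (g i) ω))))^[n * m] {u'} := by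
    refine stp_iter_congr (fun e he hz hO => ?_) hv
    have hmem : e ∈ edgesIn R := by
      rw [mem_edgesIn]
      refine ⟨fun x hx => ?_, he⟩
      obtain ⟨a1, a2, a3, a4⟩ := hz x hx
      rw [mem_box, hR, Nat.cast_add, Nat.cast_add]
      omega
    refine ⟨hmem, ?_⟩
    have e1 : ext W ω (Sym2.map τ e) = W (g ⟨e, hmem⟩) ω := by
      unfold ext
      rw [dif_pos (map_edge hτ he)]
    rw [e1] at hO
    simp only [fr]
    rw [decide_eq_true_eq]
    exact hO
  refine stp_iter_mono (fun _ h => h) _ ?_ h4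
  intro x hx
  rw [Set.mem_singleton_iff] at hx
  subst hx
  exact ⟨rfl, le_rfl⟩

/-- the estimate for one starting point -/
theorem pt_bound (hm : ∀ e, Measurable (W e)) (hind : iIndepFun W P) (hF : ∀ e, P.map (W e) = F)
    {r ε C ρ : ℝ} (hε : 0 < ε) {n : ℕ}
    (hdec : ∀ (m R : ℕ) (s j : ℤ), Pr (bern (F.real {r})) (fun ω : EIdx R → Bool =>
      ∃ v ∈ (stp (opn ω))^[n * m] (HL s j), (j : ℝ) + (1 - ε / 2) * (n * m) / 2 ≤ v.1) ≤
        C * ρ ^ m) {τ : ℤ × ℤ → ℤ × ℤ} (hτi : Function.Injective τ)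
    (hτ : ∀ x y, Z2.Adj x y → Z2.Adj (τ x) (τ y)) (m : ℕ) (u : ℤ × ℤ) :
    P.real {ω | ((stp (fun e => ext W ω (Sym2.map τ e) = r))^[n * m] {u}).Nonempty} ≤
      2 * (C * ρ ^ m) := by
  have h1 := dir_bound hm hind hF hdec hτi hτ m u
  have h2 := dir_bound hm hind hF hdec (τ := fun x => τ x.swap)
    (fun x y h => Prod.swap_injective (hτi h)) (fun x y h => hτ _ _ (swap_adj h)) m u.swap
  refine le_trans (measureReal_mono (s₂ := {ω | ∃ v ∈ (stp (fun e =>
      ext W ω (Sym2.map τ e) = r))^[n * m] {u}, (u.1 : ℝ) + (1 - ε / 2) * (n * m) / 2 ≤ v.1} ∪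
    {ω | ∃ v ∈ (stp (fun e => ext W ω (Sym2.map (fun x => τ x.swap) e) = r))^[n * m] {u.swap},
      (u.swap.1 : ℝ) + (1 - ε / 2) * (n * m) / 2 ≤ v.1}) ?_ (measure_ne_top _ _)) ?_
  · rintro ω ⟨v, hv⟩
    obtain ⟨u', hu', -, a1, a2, a3⟩ := stp_iter_start hv
    rw [Set.mem_singleton_iff] at hu'
    subst hu'
    have a3' : (v.1 : ℝ) + v.2 = u'.1 + u'.2 + n * m := by exact_mod_cast a3
    have hnm : (0 : ℝ) ≤ ε * (n * m) := by positivity
    by_cases hc : (u'.1 : ℝ) + (n * m) / 2 ≤ v.1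
    · left
      refine ⟨v, hv, ?_⟩
      linarith
    · right
      refine ⟨v.swap, ?_, ?_⟩
      · have h5 := stp_iter_swap (n * m) hv
        have e1 : (Prod.swap ⁻¹' {u'} : Set (ℤ × ℤ)) = {u'.swap} := by
          ext x
          rw [Set.mem_preimage, Set.mem_singleton_iff, Set.mem_singleton_iff]
          constructor
          · intro h
            rw [← h, Prod.swap_swap]
          · intro h
            rw [h, Prod.swap_swap]
        rw [e1] at h5
        refine stp_iter_mono (fun e he => ?_) _ (Set.Subset.refl _) h5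
        rw [Sym2.map_map] at he
        exact he
      · rw [Prod.fst_swap, Prod.fst_swap]
        push Not at hc
        linarith
  · refine (measureReal_union_le _ _).trans ?_
    linarith

theorem tendsto_Ioo (F : Measure ℝ) [IsProbabilityMeasure F] (r : ℝ) {η : ℝ} (hη : 0 < η) :
    ∃ δ : ℝ, 0 < δ ∧ F.real (Set.Ioo r (r + δ)) ≤ η := by
  have h1 : Tendsto (fun N : ℕ => F (Set.Ioo r (r + 1 / ((N : ℝ) + 1)))) atTop
      (𝓝 (F (⋂ N : ℕ, Set.Ioo r (r + 1 / ((N : ℝ) + 1))))) := by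
    apply tendsto_measure_iInter_atTop
    · intro N
      exact measurableSet_Ioo.nullMeasurableSet
    · intro N M hNM
      apply Set.Ioo_subset_Ioo_right
      have : (N : ℝ) ≤ M := by exact_mod_cast hNM
      have h2 : 1 / ((M : ℝ) + 1) ≤ 1 / ((N : ℝ) + 1) := by
        apply one_div_le_one_div_of_le (by positivity)
        linarith
      linarith
    · exact ⟨0, measure_ne_top _ _⟩
  have h2 : (⋂ N : ℕ, Set.Ioo r (r + 1 / ((N : ℝ) + 1))) = ∅ := by
    rw [Set.eq_empty_iff_forall_notMem]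
    intro x hx
    rw [Set.mem_iInter] at hx
    have h0 := (hx 0).1
    obtain ⟨N, hN⟩ := exists_nat_one_div_lt (sub_pos.2 h0)
    have := (hx N).2
    linarith
  rw [h2, measure_empty] at h1
  have h3 : Tendsto (fun N : ℕ => F.real (Set.Ioo r (r + 1 / ((N : ℝ) + 1)))) atTop (𝓝 0) := by
    have := (ENNReal.tendsto_toReal ENNReal.zero_ne_top).comp h1
    simpa [Measure.real, Function.comp_def] using this
  obtain ⟨N, hN⟩ := (h3.eventually (gt_mem_nhds hη)).exists
  exact ⟨1 / ((N : ℝ) + 1), by positivity, hN.le⟩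

theorem card_box (R : ℕ) : (box R).card = (2 * R + 1) ^ 2 := by
  unfold box
  rw [Finset.card_product, Int.card_Icc, sq]
  congr 1 <;> omega

theorem mem_OB {k : ℕ} {z v : ℤ × ℤ} (h : v ∈ OB k z) :
    ∃ t ∈ box (3 * k), v = HalfAux.ctr k z + t := by
  refine ⟨v - HalfAux.ctr k z, ?_, by abel⟩
  have h' : max (v.1 - (HalfAux.ctr k z).1).natAbs (v.2 - (HalfAux.ctr k z).2).natAbs ≤ 3 * k := h
  rw [mem_box, Prod.fst_sub, Prod.snd_sub]
  omega

omit [IsProbabilityMeasure P] [IsProbabilityMeasure F] in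
/-- one edge in the gap -/
theorem gap_edge (hm : ∀ e, Measurable (W e)) (hF : ∀ e, P.map (W e) = F)
    {r δ : ℝ} (e : Sym2 (ℤ × ℤ)) :
    P.real {ω | e ∈ Z2.edgeSet ∧ ext W ω e ∈ Set.Ioo r (r + δ)} ≤
      F.real (Set.Ioo r (r + δ)) := by
  by_cases he : e ∈ Z2.edgeSet
  · refine le_of_eq ?_
    rw [← hF ⟨e, he⟩, map_measureReal_apply (hm _) measurableSet_Ioo]
    congr 1
    ext ω
    have : ext W ω e = W ⟨e, he⟩ ω := by
      unfold ext
      rw [dif_pos he]
    simp [he, this]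
  · have : {ω | e ∈ Z2.edgeSet ∧ ext W ω e ∈ Set.Ioo r (r + δ)} = ∅ := by
      rw [Set.eq_empty_iff_forall_notMem]
      rintro ω ⟨h, _⟩
      exact he h
    rw [this, measureReal_empty]
    exact measureReal_nonneg

/-- polynomial times geometric tends to zero -/
theorem tendsto_poly {C ρ : ℝ} (hρ0 : 0 < ρ) (hρ1 : ρ < 1) (n : ℕ) :
    Tendsto (fun m : ℕ => ((2 * (3 * (n * m) : ℕ) + 1 : ℝ) ^ 2) * (4 * (C * ρ ^ m))) atTop
      (𝓝 0) := by
  have h2 : Tendsto (fun m : ℕ => (m : ℝ) ^ 2 * ρ ^ m) atTop (𝓝 0) :=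
    tendsto_pow_const_mul_const_pow_of_abs_lt_one 2 (by rw [abs_of_pos hρ0]; exact hρ1)
  have h3 : Tendsto (fun m : ℕ => (m : ℝ) ^ 1 * ρ ^ m) atTop (𝓝 0) :=
    tendsto_pow_const_mul_const_pow_of_abs_lt_one 1 (by rw [abs_of_pos hρ0]; exact hρ1)
  have h4 : Tendsto (fun m : ℕ => ρ ^ m) atTop (𝓝 0) :=
    tendsto_pow_atTop_nhds_zero_of_lt_one hρ0.le hρ1
  have h5 := ((h2.const_mul (144 * C * n ^ 2)).add (h3.const_mul (48 * C * n))).add
    (h4.const_mul (4 * C))
  simp only [mul_zero, add_zero] at h5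
  refine h5.congr (fun m => ?_)
  push_cast
  ring

end

end OrBlkAux

open OrBlkAux

theorem or_block {Ω : Type} [MeasurableSpace Ω] {P : Measure Ω} [IsProbabilityMeasure P]
    {F : Measure ℝ} [IsProbabilityMeasure F] {W : Z2.edgeSet → Ω → ℝ}
    (hm : ∀ e, Measurable (W e)) (hind : iIndepFun W P) (hF : ∀ e, P.map (W e) = F)
    {r : ℝ} (hr : 0 < r) (hW : ∀ e ω, r ≤ W e ω) {ε C ρ : ℝ} (hε : 0 < ε) (hC : 0 < C)
    (hρ0 : 0 < ρ) (hρ1 : ρ < 1) {n : ℕ} (hn : 1 ≤ n)
    (hdec : ∀ (m R : ℕ) (s j : ℤ), Pr (bern (F.real {r})) (fun ω : EIdx R → Bool =>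
      ∃ v ∈ (stp (opn ω))^[n * m] (HL s j), (j : ℝ) + (1 - ε / 2) * (n * m) / 2 ≤ v.1) ≤
        C * ρ ^ m) {η : ℝ} (hη : 0 < η) :
    ∃ k : ℕ, 1 ≤ k ∧ ∃ δ : ℝ, 0 < δ ∧ ∀ z : ℤ × ℤ,
      P.real {ω | ¬ BlkGood (ext W ω) r δ k z} ≤ η := by
  classical
  obtain ⟨m, hm1, hm2⟩ : ∃ m : ℕ, 1 ≤ m ∧
      ((2 * (3 * (n * m) : ℕ) + 1 : ℝ) ^ 2) * (4 * (C * ρ ^ m)) ≤ η / 2 := by
    obtain ⟨m, h1, h2⟩ := ((eventually_ge_atTop 1).and
      ((tendsto_poly (C := C) hρ0 hρ1 n).eventually (gt_mem_nhds (half_pos hη)))).exists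
    exact ⟨m, h1, h2.le⟩
  set k : ℕ := n * m with hk
  have hk1 : 1 ≤ k := Nat.one_le_iff_ne_zero.2 (by positivity)
  set Nk : ℝ := ((2 * (3 * k : ℕ) + 1 : ℝ) ^ 2) with hNk
  have hNk0 : 0 < Nk := by positivity
  obtain ⟨δ₀, hδ₀, hδ₁⟩ := tendsto_Ioo F r (η := η / 2 / (Nk * Nk)) (by positivity)
  set δ : ℝ := min δ₀ r with hδ
  have hδ0 : 0 < δ := lt_min hδ₀ hr
  have hδ2 : F.real (Set.Ioo r (r + δ)) ≤ η / 2 / (Nk * Nk) := by
    refine le_trans (measureReal_mono ?_ (measure_ne_top _ _)) hδ₁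
    apply Set.Ioo_subset_Ioo_right
    have := min_le_left δ₀ r
    linarith
  refine ⟨k, hk1, δ, hδ0, fun z => ?_⟩
  set c := HalfAux.ctr k z with hc
  have hsub : {ω | ¬ BlkGood (ext W ω) r δ k z} ⊆
      (⋃ p ∈ (box (3 * k)) ×ˢ (box (3 * k)),
        {ω | s(c + p.1, c + p.2) ∈ Z2.edgeSet ∧
          ext W ω s(c + p.1, c + p.2) ∈ Set.Ioo r (r + δ)}) ∪
      ((⋃ t ∈ box (3 * k),
        {ω | ((stp (fun e => ext W ω (Sym2.map id e) = r))^[n * m] {c + t}).Nonempty}) ∪
      (⋃ t ∈ box (3 * k),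
        {ω | ((stp (fun e => ext W ω (Sym2.map refl2 e) = r))^[n * m]
          {refl2 (c + t)}).Nonempty})) := by
    intro ω hω
    by_cases hgap : ∀ e ∈ Z2.edgeSet, (∀ v ∈ e, v ∈ OB k z) → ext W ω e < r + δ → ext W ω e = r
    · right
      have hw : ∀ e ∈ Z2.edgeSet, r ≤ ext W ω e := by
        intro e he
        unfold ext
        rw [dif_pos he]
        exact hW _ _
      obtain ⟨u, j, h | h⟩ := or_geo hr hδ0 (min_le_right _ _) hk1 hw hgap hω
      · left
        obtain ⟨h1, -, h3⟩ := h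
        obtain ⟨t, ht, rfl⟩ := mem_OB h1
        simp only [Set.mem_iUnion]
        refine ⟨t, ht, ?_⟩
        obtain ⟨v, hv⟩ := h3
        refine ⟨v, stp_iter_mono (fun e he => ?_) _ (Set.Subset.refl _) hv⟩
        rw [Sym2.map_id, id]
        exact he.2.2
      · right
        obtain ⟨h1, -, h3⟩ := h
        obtain ⟨t, ht, htu⟩ := mem_OB h1
        simp only [Set.mem_iUnion]
        refine ⟨t, ht, ?_⟩
        rw [hc, ← htu, OrGeoAux.refl2_refl2]
        obtain ⟨v, hv⟩ := h3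
        exact ⟨v, stp_iter_mono (fun e he => he.2.2) _ (Set.Subset.refl _) hv⟩
    · left
      push Not at hgap
      obtain ⟨e, he, hv, h1, h2⟩ := hgap
      induction e using Sym2.ind with
      | _ x y =>
        obtain ⟨t, ht, rfl⟩ := mem_OB (hv x (Sym2.mem_mk_left _ _))
        obtain ⟨t', ht', rfl⟩ := mem_OB (hv y (Sym2.mem_mk_right _ _))
        simp only [Set.mem_iUnion]
        refine ⟨(t, t'), Finset.mem_product.2 ⟨ht, ht'⟩, he, ?_, h1⟩
        have h3 : r ≤ ext W ω s(HalfAux.ctr k z + t, HalfAux.ctr k z + t') := by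
          unfold ext
          rw [dif_pos he]
          exact hW _ _
        exact lt_of_le_of_ne h3 (Ne.symm h2)
  refine le_trans (measureReal_mono hsub (measure_ne_top _ _)) ?_
  refine le_trans (measureReal_union_le _ _) ?_
  have b1 : P.real (⋃ p ∈ (box (3 * k)) ×ˢ (box (3 * k)),
        {ω | s(c + p.1, c + p.2) ∈ Z2.edgeSet ∧
          ext W ω s(c + p.1, c + p.2) ∈ Set.Ioo r (r + δ)}) ≤ η / 2 := by
    refine le_trans (measureReal_biUnion_finset_le _ _) ?_
    refine le_trans (Finset.sum_le_sum (fun p _ => gap_edge hm hF _)) ?_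
    rw [Finset.sum_const, Finset.card_product, card_box, nsmul_eq_mul]
    have e1 : (((2 * (3 * k) + 1) ^ 2 * (2 * (3 * k) + 1) ^ 2 : ℕ) : ℝ) = Nk * Nk := by
      rw [hNk]
      push_cast
      ring
    rw [e1]
    calc Nk * Nk * F.real (Set.Ioo r (r + δ)) ≤ Nk * Nk * (η / 2 / (Nk * Nk)) :=
          mul_le_mul_of_nonneg_left hδ2 (by positivity)
      _ = η / 2 := by field_simp
  have b2 : P.real ((⋃ t ∈ box (3 * k),
        {ω | ((stp (fun e => ext W ω (Sym2.map id e) = r))^[n * m] {c + t}).Nonempty}) ∪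
      (⋃ t ∈ box (3 * k),
        {ω | ((stp (fun e => ext W ω (Sym2.map refl2 e) = r))^[n * m]
          {refl2 (c + t)}).Nonempty})) ≤ η / 2 := by
    refine le_trans (measureReal_union_le _ _) ?_
    have e1 : (((2 * (3 * k) + 1) ^ 2 : ℕ) : ℝ) = Nk := by
      rw [hNk]
      push_cast
      ring
    have c1 : P.real (⋃ t ∈ box (3 * k),
        {ω | ((stp (fun e => ext W ω (Sym2.map id e) = r))^[n * m] {c + t}).Nonempty}) ≤
        Nk * (2 * (C * ρ ^ m)) := by
      refine le_trans (measureReal_biUnion_finset_le _ _) ?_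
      refine le_trans (Finset.sum_le_sum (fun t _ => pt_bound hm hind hF hε hdec
        Function.injective_id (fun x y h => h) m (c + t))) ?_
      rw [Finset.sum_const, card_box, nsmul_eq_mul, e1]
    have c2 : P.real (⋃ t ∈ box (3 * k),
        {ω | ((stp (fun e => ext W ω (Sym2.map refl2 e) = r))^[n * m]
          {refl2 (c + t)}).Nonempty}) ≤ Nk * (2 * (C * ρ ^ m)) := by
      refine le_trans (measureReal_biUnion_finset_le _ _) ?_
      refine le_trans (Finset.sum_le_sum (fun t _ => pt_bound hm hind hF hε hdec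
        (fun x y h => by rw [← OrGeoAux.refl2_refl2 x, h, OrGeoAux.refl2_refl2])
        (fun x y h => refl2_adj h) m (refl2 (c + t)))) ?_
      rw [Finset.sum_const, card_box, nsmul_eq_mul, e1]
    have c3 : Nk * (4 * (C * ρ ^ m)) ≤ η / 2 := hm2
    linarith
  linarith

end Pool.Agent.Helper33_FPP
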