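import Pool.Agent.Helper33_FPP.OrLaw

/-!
# Oriented percolation: exponential decay above the mean (module PD6)
-/

set_option autoImplicit false

namespace Pool.Agent.Helper33_FPP

open Finset OrLawAux

namespace OrExpAux

/-- Only the edges between the levels `s` and `s + k` matter. -/
theorem iter_congr_levels {O O' : Sym2 (ℤ × ℤ) → Prop} {k : ℕ} {s j : ℤ}
    (h : ∀ e ∈ Z2.edgeSet, (∀ z ∈ e, s ≤ A z ∧ A z ≤ s + k) → (O e ↔ O' e)) :
    (stp O)^[k] (HL s j) = (stp O')^[k] (HL s j) := by
  have key : ∀ {P Q : Sym2 (ℤ × ℤ) → Prop},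
      (∀ e ∈ Z2.edgeSet, (∀ z ∈ e, s ≤ A z ∧ A z ≤ s + k) → (P e → Q e)) →
      (stp P)^[k] (HL s j) ⊆ (stp Q)^[k] (HL s j) := by
    intro P Q hPQ v hv
    obtain ⟨u, hu, hvu, h4, h5, h6⟩ := stp_iter_start hv
    have hus : u.1 + u.2 = s := hu.1
    have h7 : v ∈ (stp Q)^[k] {u} := by
      apply stp_iter_congr (O := P) _ hvu
      intro e he hz hP
      apply hPQ e he _ hP
      intro z hze
      obtain ⟨a1, a2, a3, a4⟩ := hz z hze
      unfold A
      omega
    have h8 : ({u} : Set (ℤ × ℤ)) ⊆ HL s j := by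
      rintro _ rfl
      exact hu
    exact stp_iter_mono (fun _ h => h) k h8 h7
  exact Set.Subset.antisymm (key fun e he hz => (h e he hz).1) (key fun e he hz => (h e he hz).2)

/-- Translating the environment of a box can only decrease an increasing functional. -/
theorem Ex_shift_le {R m : ℕ} {t : ℝ} (hp : IsProb (bern t)) (u : ℤ × ℤ)
    (G : (Sym2 (ℤ × ℤ) → Prop) → ℝ)
    (hG : ∀ O O' : Sym2 (ℤ × ℤ) → Prop, (∀ e, O e → O' e) → G O ≤ G O')
    (h1 : (R : ℤ) + |u.1| ≤ m) (h2 : (R : ℤ) + |u.2| ≤ m) :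
    Ex (bern t) (fun ω : EIdx R → Bool => G (shO u (opn ω))) ≤
      Ex (bern t) (fun ω : EIdx m → Bool => G (opn ω)) := by
  rw [← law_Ex_map (t := t) (n := R) (m := m) (sh (-u)) ((sh_inj (-u)).injOn)
    (fun e he => sh_mem (by simpa using h1) (by simpa using h2) he) (fun O => G (shO u O))]
  apply ConcAux.Ex_mono hp.nonneg
  intro ω
  apply hG
  intro e he
  have h3 := he.2
  rw [sh_sh'] at h3
  exact h3

theorem redge_iter_mono {O O' : Sym2 (ℤ × ℤ) → Prop} (h : ∀ e, O e → O' e) (M k : ℕ) (s j : ℤ) :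
    redge M ((stp O)^[k] (HL s j)) ≤ redge M ((stp O')^[k] (HL s j)) :=
  redge_mono (stp_iter_mono h k (le_refl _)) (bdd_iter _ _ _ _)

theorem redge_le_add (O : Sym2 (ℤ × ℤ) → Prop) (M k : ℕ) (s j : ℤ) (hM : -(M : ℤ) ≤ j + k) :
    redge M ((stp O)^[k] (HL s j)) ≤ j + k := by
  rw [redge_le_iff (bdd_iter _ _ _ _)]
  exact ⟨hM, fun v hv => (stp_iter_HL O k (le_refl _) hv).2⟩

/-- The exponential moment. -/
noncomputable def phiE (t lam : ℝ) (n M : ℕ) : ℝ :=
  Ex (bern t) (fun ω : EIdx (M + 3 * n + 3) → Bool =>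
    Real.exp (lam * (redge M ((stp (opn ω))^[n] (HL 0 0)) : ℝ)))

theorem shift_le_phiE {t lam : ℝ} (hp : IsProb (bern t)) (hlam : 0 ≤ lam) (n M R : ℕ) (u : ℤ × ℤ) :
    Ex (bern t) (fun ω : EIdx R → Bool =>
      Real.exp (lam * (redge M ((stp (shO u (opn ω)))^[n] (HL 0 0)) : ℝ))) ≤ phiE t lam n M := by
  set G : (Sym2 (ℤ × ℤ) → Prop) → ℝ :=
    fun O => Real.exp (lam * (redge M ((stp O)^[n] (HL 0 0)) : ℝ)) with hG
  have hmono : ∀ O O' : Sym2 (ℤ × ℤ) → Prop, (∀ e, O e → O' e) → G O ≤ G O' := by
    intro O O' h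
    apply Real.exp_le_exp.2
    apply mul_le_mul_of_nonneg_left _ hlam
    exact_mod_cast redge_iter_mono h M n 0 0
  set m : ℕ := R + u.1.natAbs + u.2.natAbs + (M + 3 * n + 3) with hm
  have a1 := Int.abs_eq_natAbs u.1
  have a2 := Int.abs_eq_natAbs u.2
  have h1 := Ex_shift_le (R := R) (m := m) hp u G hmono (by omega) (by omega)
  have h2 : Ex (bern t) (fun ω : EIdx m → Bool => G (opn ω)) = phiE t lam n M := by
    apply law_local₀ (m := M + 3 * n + 3) (R := m) (by omega) G
    intro O O' h
    simp only [hG]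
    rw [redge_iter_congr (m := M + 3 * n + 3) (by omega) (by push_cast; omega)
      (by push_cast; omega) (by push_cast; omega) h]
  rw [h2] at h1
  exact h1

theorem exp_moment_le {t lam : ℝ} (hp : IsProb (bern t)) (hlam : 0 ≤ lam) (n M : ℕ) (m : ℕ) :
    ∀ R : ℕ, Ex (bern t) (fun ω : EIdx R → Bool =>
      Real.exp (lam * (redge (m * M) ((stp (opn ω))^[n * m] (HL 0 0)) : ℝ))) ≤
        phiE t lam n M ^ m := by
  classical
  have hphi : 0 ≤ phiE t lam n M := ConcAux.Ex_nonneg hp.nonneg fun ω => (Real.exp_pos _).le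
  induction m with
  | zero =>
    intro R
    rw [pow_zero, ← ConcAux.Ex_one (ι := EIdx R) hp]
    apply ConcAux.Ex_mono hp.nonneg
    intro ω
    rw [Real.exp_le_one_iff]
    apply mul_nonpos_of_nonneg_of_nonpos hlam
    have := redge_le_add (opn ω) (0 * M) (n * 0) 0 0 (by simp)
    have h2 : redge (0 * M) ((stp (opn ω))^[n * 0] (HL 0 0)) ≤ 0 := by simpa using this
    exact_mod_cast h2
  | succ m ih =>
    intro R
    set b : (EIdx R → Bool) → ℤ := fun ω => redge (m * M) ((stp (opn ω))^[n * m] (HL 0 0)) with hb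
    have hb1 : ∀ ω, -((m * M : ℕ) : ℤ) ≤ b ω := fun ω => neg_le_redge (bdd_iter _ _ _ _)
    have hb2 : ∀ ω, b ω ≤ ((n * m : ℕ) : ℤ) := by
      intro ω
      have := redge_le_add (opn ω) (m * M) (n * m) 0 0 (by
        have : (0 : ℤ) ≤ ((m * M : ℕ) : ℤ) := by positivity
        have h3 : (0 : ℤ) ≤ ((n * m : ℕ) : ℤ) := by positivity
        omega)
      simpa using this
    set g : ℤ → (EIdx R → Bool) → ℝ := fun c ω =>
      Real.exp (lam * (redge M ((stp (shO (c, ((n * m : ℕ) : ℤ) - c) (opn ω)))^[n] (HL 0 0)) : ℝ))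
      with hg
    -- pointwise bound
    have hpt : ∀ ω : EIdx R → Bool,
        Real.exp (lam * (redge ((m + 1) * M) ((stp (opn ω))^[n * (m + 1)] (HL 0 0)) : ℝ)) ≤
          Real.exp (lam * b ω) * g (b ω) ω := by
      intro ω
      simp only [hg]
      rw [← Real.exp_add, ← mul_add, Real.exp_le_exp]
      apply mul_le_mul_of_nonneg_left _ hlam
      have key : redge ((m + 1) * M) ((stp (opn ω))^[n * (m + 1)] (HL 0 0)) ≤ b ω +
          redge M ((stp (shO (b ω, ((n * m : ℕ) : ℤ) - b ω) (opn ω)))^[n] (HL 0 0)) := by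
        rw [redge_le_iff (bdd_iter _ _ _ _)]
        constructor
        · have h1 := neg_le_redge (M := M)
            (bdd_iter (shO (b ω, ((n * m : ℕ) : ℤ) - b ω) (opn ω)) n 0 0)
          have h2 := hb1 ω
          have h3 : (((m + 1) * M : ℕ) : ℤ) = ((m * M : ℕ) : ℤ) + M := by push_cast; ring
          rw [h3]
          omega
        · intro v hv
          have h1 : v ∈ (stp (opn ω))^[n] (HL ((n * m : ℕ) : ℤ) (b ω)) := by
            have h2 : (stp (opn ω))^[n * (m + 1)] (HL 0 0) =
                (stp (opn ω))^[n] ((stp (opn ω))^[n * m] (HL 0 0)) := by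
              rw [← Function.iterate_add_apply]
              congr 1
              ring_nf
            rw [h2] at hv
            refine stp_iter_mono (fun _ h => h) n ?_ hv
            intro x hx
            refine ⟨?_, le_redge (bdd_iter _ _ _ _) hx⟩
            have := (stp_iter_HL (opn ω) (n * m) (le_refl (HL 0 0)) hx).1
            simpa using this
          have hHL : ∀ x : ℤ × ℤ, x ∈ HL 0 0 ↔
              x + (b ω, ((n * m : ℕ) : ℤ) - b ω) ∈ HL ((n * m : ℕ) : ℤ) (b ω) := by
            intro x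
            have := HL_shift 0 0 (b ω) (((n * m : ℕ) : ℤ) - b ω) x
            rwa [show (0 : ℤ) + b ω + (((n * m : ℕ) : ℤ) - b ω) = ((n * m : ℕ) : ℤ) by ring,
              zero_add] at this
          have hst := stp_iter_shift (O := opn ω) hHL n
          have h2 : (v - (b ω, ((n * m : ℕ) : ℤ) - b ω)) + (b ω, ((n * m : ℕ) : ℤ) - b ω) ∈
              (stp (opn ω))^[n] (HL ((n * m : ℕ) : ℤ) (b ω)) := by
            rw [sub_add_cancel]
            exact h1
          have h3 := le_redge (M := M) (bdd_iter _ _ _ _) ((hst _).2 h2)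
          simp only [Prod.fst_sub] at h3
          omega
      exact_mod_cast key
    -- decomposition according to the value of `b`
    set D : Finset (EIdx R) := univ.filter (fun i => ∀ z ∈ i.1, A z ≤ ((n * m : ℕ) : ℤ)) with hD
    have hindep : ∀ c : ℤ, Ex (bern t) (fun ω : EIdx R → Bool =>
        (if b ω = c then Real.exp (lam * c) else 0) * g c ω) ≤
        Ex (bern t) (fun ω : EIdx R → Bool => if b ω = c then Real.exp (lam * c) else 0) *
          phiE t lam n M := by
      intro c
      rw [Ex_indep hp D]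
      · apply mul_le_mul_of_nonneg_left (shift_le_phiE hp hlam n M R _)
        apply ConcAux.Ex_nonneg hp.nonneg
        intro ω
        split_ifs
        · exact (Real.exp_pos _).le
        · exact le_rfl
      · intro ω ω' h
        have : b ω = b ω' := by
          simp only [hb]
          rw [iter_congr_levels (O := opn ω) (O' := opn ω')]
          intro e he hz
          constructor
          · rintro ⟨h1, h2⟩
            refine ⟨h1, ?_⟩
            rw [← h ⟨e, h1⟩]
            · exact h2
            · rw [hD, mem_filter]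
              exact ⟨mem_univ _, fun z hze => by simpa using (hz z hze).2⟩
          · rintro ⟨h1, h2⟩
            refine ⟨h1, ?_⟩
            rw [h ⟨e, h1⟩]
            · exact h2
            · rw [hD, mem_filter]
              exact ⟨mem_univ _, fun z hze => by simpa using (hz z hze).2⟩
        rw [this]
      · intro ω ω' h
        simp only [hg]
        have hset : (stp (shO (c, ((n * m : ℕ) : ℤ) - c) (opn ω)))^[n] (HL 0 0) =
            (stp (shO (c, ((n * m : ℕ) : ℤ) - c) (opn ω')))^[n] (HL 0 0) := by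
          apply iter_congr_levels
          intro e he hz
          have hnot : ∀ h1 : sh (c, ((n * m : ℕ) : ℤ) - c) e ∈ edgesIn R,
              (⟨_, h1⟩ : EIdx R) ∉ D := by
            intro h1 h2
            rw [hD, mem_filter] at h2
            have h3 := h2.2
            revert h3 he hz
            simp only
            clear h1 h2
            induction e using Sym2.ind with
            | _ x y =>
              intro he hz h3
              rw [sh_mk] at h3
              have a1 := h3 _ (Sym2.mem_mk_left _ _)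
              have a2 := h3 _ (Sym2.mem_mk_right _ _)
              have a3 := (hz x (Sym2.mem_mk_left _ _)).1
              have a4 := (hz y (Sym2.mem_mk_right _ _)).1
              rw [SimpleGraph.mem_edgeSet, Z2_adj_iff] at he
              unfold A at a1 a2 a3 a4
              simp only [Prod.fst_add, Prod.snd_add] at a1 a2
              omega
          constructor
          · rintro ⟨h1, h2⟩
            refine ⟨h1, ?_⟩
            rw [← h ⟨_, h1⟩ (hnot h1)]
            exact h2
          · rintro ⟨h1, h2⟩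
            refine ⟨h1, ?_⟩
            rw [h ⟨_, h1⟩ (hnot h1)]
            exact h2
        rw [hset]
    calc Ex (bern t) (fun ω : EIdx R → Bool =>
        Real.exp (lam * (redge ((m + 1) * M) ((stp (opn ω))^[n * (m + 1)] (HL 0 0)) : ℝ)))
        ≤ Ex (bern t) (fun ω : EIdx R → Bool =>
          ∑ c ∈ Icc (-((m * M : ℕ) : ℤ)) ((n * m : ℕ) : ℤ),
            (if b ω = c then Real.exp (lam * c) else 0) * g c ω) := by
          apply ConcAux.Ex_mono hp.nonneg
          intro ω
          refine (hpt ω).trans (le_of_eq ?_)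
          rw [sum_eq_single (b ω)]
          · rw [if_pos rfl]
          · intro c _ hc
            rw [if_neg (Ne.symm hc), zero_mul]
          · intro hc
            exact absurd (mem_Icc.2 ⟨hb1 ω, hb2 ω⟩) hc
      _ = ∑ c ∈ Icc (-((m * M : ℕ) : ℤ)) ((n * m : ℕ) : ℤ), Ex (bern t) (fun ω : EIdx R → Bool =>
            (if b ω = c then Real.exp (lam * c) else 0) * g c ω) := ConcAux.Ex_sum _ _ _
      _ ≤ ∑ c ∈ Icc (-((m * M : ℕ) : ℤ)) ((n * m : ℕ) : ℤ),
            Ex (bern t) (fun ω : EIdx R → Bool => if b ω = c then Real.exp (lam * c) else 0) *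
              phiE t lam n M := sum_le_sum fun c _ => hindep c
      _ = Ex (bern t) (fun ω : EIdx R → Bool => Real.exp (lam * b ω)) * phiE t lam n M := by
          rw [← sum_mul, ← ConcAux.Ex_sum]
          congr 2
          funext ω
          rw [sum_eq_single (b ω)]
          · rw [if_pos rfl]
          · intro c _ hc
            rw [if_neg (Ne.symm hc)]
          · intro hc
            exact absurd (mem_Icc.2 ⟨hb1 ω, hb2 ω⟩) hc
      _ ≤ phiE t lam n M ^ m * phiE t lam n M := mul_le_mul_of_nonneg_right (ih R) hphi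
      _ = phiE t lam n M ^ (m + 1) := (pow_succ _ _).symm

end OrExpAux

open OrExpAux

theorem or_decay {t ε : ℝ} (ht0 : 0 ≤ t) (ht1 : t ≤ 1) (hε : 0 < ε) {n M : ℕ} (hn : 1 ≤ n)
    (h : 2 * mr t n M ≤ (1 - ε) * n) : ∃ C ρ : ℝ, 0 < C ∧ 0 < ρ ∧ ρ < 1 ∧
    ∀ (m R : ℕ) (s j : ℤ), Pr (bern t) (fun ω : EIdx R → Bool =>
      ∃ v ∈ (stp (opn ω))^[n * m] (HL s j), (j : ℝ) + (1 - ε / 2) * (n * m) / 2 ≤ v.1) ≤
        C * ρ ^ m := by
  classical
  have hp := HalfAux.bern_prob ht0 ht1
  have hn' : (1 : ℝ) ≤ n := by exact_mod_cast hn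
  set a : ℝ := (1 - ε / 2) * n / 2 with ha
  set K : ℝ := n + M + |a| + ε * n with hK
  have hεn : 0 < ε * n := by positivity
  have hM0 : (0 : ℝ) ≤ M := by positivity
  have hK0 : 0 < K := by
    have := abs_nonneg a
    rw [hK]
    linarith
  have hεK : ε * n ≤ K := by
    have := abs_nonneg a
    rw [hK]
    linarith
  set lam : ℝ := ε * n / (8 * K ^ 2) with hlam
  have hlam0 : 0 < lam := by rw [hlam]; positivity
  set ρ : ℝ := 1 - (ε * n) ^ 2 / (64 * K ^ 2) with hρ
  have hρ0 : 0 < ρ := by
    have h1 : (ε * n) ^ 2 / (64 * K ^ 2) ≤ 1 / 64 := by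
      rw [div_le_div_iff₀ (by positivity) (by norm_num)]
      have : (ε * n) ^ 2 ≤ K ^ 2 := pow_le_pow_left₀ hεn.le hεK 2
      linarith
    rw [hρ]
    linarith
  have hρ1 : ρ < 1 := by
    have : 0 < (ε * n) ^ 2 / (64 * K ^ 2) := by positivity
    rw [hρ]
    linarith
  -- the exponential moment of one step
  have hphi : Real.exp (-(lam * a)) * phiE t lam n M ≤ ρ := by
    unfold phiE
    rw [← ConcAux.Ex_mul_left]
    set X : (EIdx (M + 3 * n + 3) → Bool) → ℝ :=
      fun ω => (redge M ((stp (opn ω))^[n] (HL 0 0)) : ℝ) with hX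
    have hX1 : ∀ ω, -(M : ℝ) ≤ X ω := by
      intro ω
      have := neg_le_redge (M := M) (bdd_iter (opn ω) n 0 0)
      simp only [hX]
      exact_mod_cast this
    have hX2 : ∀ ω, X ω ≤ n := by
      intro ω
      have := redge_le_add (opn ω) M n 0 0 (by omega)
      simp only [hX]
      rw [zero_add] at this
      exact_mod_cast this
    have hpt : ∀ ω, Real.exp (-(lam * a)) * Real.exp (lam * X ω) ≤
        (1 + (lam * K) ^ 2 - lam * a) + lam * X ω := by
      intro ω
      rw [← Real.exp_add]
      have e1 : -(lam * a) + lam * X ω = lam * (X ω - a) := by ring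
      rw [e1]
      have h1 : |X ω - a| ≤ K := by
        rw [abs_le]
        have h3 := neg_abs_le a
        have h4 := le_abs_self a
        have h5 := hX1 ω
        have h6 := hX2 ω
        constructor
        · rw [hK]; linarith
        · rw [hK]; linarith
      have h2 : |lam * (X ω - a)| ≤ lam * K := by
        rw [abs_mul, abs_of_pos hlam0]
        exact mul_le_mul_of_nonneg_left h1 hlam0.le
      have h3 : lam * K ≤ 1 := by
        rw [hlam]
        have : ε * n / (8 * K ^ 2) * K = ε * n / (8 * K) := by field_simp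
        rw [this, div_le_one (by positivity)]
        linarith
      have h4 := Real.abs_exp_sub_one_sub_id_le (h2.trans h3)
      have h5 := (abs_le.1 h4).2
      have h6 : (lam * (X ω - a)) ^ 2 ≤ (lam * K) ^ 2 := by
        rw [← sq_abs]
        exact pow_le_pow_left₀ (abs_nonneg _) h2 2
      linarith
    have h1 : Ex (bern t) (fun ω : EIdx (M + 3 * n + 3) → Bool =>
        Real.exp (-(lam * a)) * Real.exp (lam * X ω)) ≤
        (1 + (lam * K) ^ 2 - lam * a) + lam * mr t n M := by
      refine (ConcAux.Ex_mono hp.nonneg hpt).trans (le_of_eq ?_)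
      rw [ConcAux.Ex_add, ConcAux.Ex_mul_left]
      congr 1
      have h2 := ConcAux.Ex_mul_left (ι := EIdx (M + 3 * n + 3)) (bern t)
        (1 + (lam * K) ^ 2 - lam * a) (fun _ => (1 : ℝ))
      rw [ConcAux.Ex_one hp] at h2
      simp only [mul_one] at h2
      exact h2
    refine h1.trans ?_
    have h2 : lam * mr t n M ≤ lam * ((1 - ε) * n / 2) := by
      apply mul_le_mul_of_nonneg_left _ hlam0.le
      linarith
    have h3 : (1 + (lam * K) ^ 2 - lam * a) + lam * ((1 - ε) * n / 2) = ρ := by
      rw [ha, hρ, hlam]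
      field_simp
      ring
    linarith
  refine ⟨1, ρ, one_pos, hρ0, hρ1, fun m R s j => ?_⟩
  rw [one_mul]
  -- translate to the origin
  set u : ℤ × ℤ := (j, s - j) with hu
  set G : (Sym2 (ℤ × ℤ) → Prop) → ℝ := fun O =>
    Real.exp (-(lam * (a * m))) *
      Real.exp (lam * (redge (m * M) ((stp O)^[n * m] (HL 0 0)) : ℝ)) with hG
  have hmono : ∀ O O' : Sym2 (ℤ × ℤ) → Prop, (∀ e, O e → O' e) → G O ≤ G O' := by
    intro O O' h
    apply mul_le_mul_of_nonneg_left _ (Real.exp_pos _).le
    apply Real.exp_le_exp.2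
    apply mul_le_mul_of_nonneg_left _ hlam0.le
    exact_mod_cast redge_iter_mono h (m * M) (n * m) 0 0
  have h1 : Pr (bern t) (fun ω : EIdx R → Bool =>
      ∃ v ∈ (stp (opn ω))^[n * m] (HL s j), (j : ℝ) + (1 - ε / 2) * (n * m) / 2 ≤ v.1) ≤
      Ex (bern t) (fun ω : EIdx R → Bool => G (shO u (opn ω))) / 1 := by
    apply Pr_markov hp
    · intro ω
      exact mul_nonneg (Real.exp_pos _).le (Real.exp_pos _).le
    · exact one_pos
    · rintro ω ⟨v, hv, hvj⟩
      simp only [hG]
      rw [← Real.exp_add, Real.one_le_exp_iff]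
      have hHL : ∀ x : ℤ × ℤ, x ∈ HL 0 0 ↔ x + u ∈ HL s j := by
        intro x
        have := HL_shift 0 0 j (s - j) x
        rwa [show (0 : ℤ) + j + (s - j) = s by ring, zero_add] at this
      have hst := stp_iter_shift (O := opn ω) hHL (n * m)
      have h2 : (v - u) + u ∈ (stp (opn ω))^[n * m] (HL s j) := by
        rw [sub_add_cancel]
        exact hv
      have h3 := le_redge (M := m * M) (bdd_iter _ _ _ _) ((hst _).2 h2)
      simp only [Prod.fst_sub, hu] at h3
      have h4 : (v.1 : ℝ) - j ≤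
          (redge (m * M) ((stp (shO u (opn ω)))^[n * m] (HL 0 0)) : ℝ) := by
        exact_mod_cast h3
      have h5 : a * m ≤ (redge (m * M) ((stp (shO u (opn ω)))^[n * m] (HL 0 0)) : ℝ) := by
        have : a * m = (1 - ε / 2) * (n * m) / 2 := by rw [ha]; ring
        linarith
      have h6 := mul_le_mul_of_nonneg_left h5 hlam0.le
      linarith
  set m' : ℕ := R + u.1.natAbs + u.2.natAbs with hm'
  have a1 := Int.abs_eq_natAbs u.1
  have a2 := Int.abs_eq_natAbs u.2
  have h2 := Ex_shift_le (R := R) (m := m') hp u G hmono (by omega) (by omega)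
  have h3 : Ex (bern t) (fun ω : EIdx m' → Bool => G (opn ω)) ≤ ρ ^ m := by
    simp only [hG]
    rw [ConcAux.Ex_mul_left]
    have h4 := exp_moment_le hp hlam0.le n M m m'
    calc Real.exp (-(lam * (a * m))) * Ex (bern t) (fun ω : EIdx m' → Bool =>
          Real.exp (lam * (redge (m * M) ((stp (opn ω))^[n * m] (HL 0 0)) : ℝ)))
        ≤ Real.exp (-(lam * (a * m))) * phiE t lam n M ^ m :=
          mul_le_mul_of_nonneg_left h4 (Real.exp_pos _).le
      _ = (Real.exp (-(lam * a)) * phiE t lam n M) ^ m := by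
          rw [mul_pow, ← Real.exp_nat_mul]
          congr 2
          ring
      _ ≤ ρ ^ m := by
          apply pow_le_pow_left₀ _ hphi
          apply mul_nonneg (Real.exp_pos _).le
          exact ConcAux.Ex_nonneg hp.nonneg fun ω => (Real.exp_pos _).le
  rw [div_one] at h1
  linarith

end Pool.Agent.Helper33_FPP
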