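import Pool.Agent.Helper33_FPP.Basic

/-!
# Passage times in a region: definitions
-/

set_option autoImplicit false

namespace Pool.Agent.Helper33_FPP

/-- The walk `p` stays in `D`. -/
def IsIn (D : Set (ℤ × ℤ)) {x y : ℤ × ℤ} (p : Z2.Walk x y) : Prop := ∀ v ∈ p.support, v ∈ D

/-- Passage time from `x` to `y` with walks in the region `D`. -/
noncomputable def TT (w : Sym2 (ℤ × ℤ) → ℝ) (D : Set (ℤ × ℤ)) (x y : ℤ × ℤ) : ℝ :=
  sInf {c : ℝ | ∃ p : Z2.Walk x y, IsIn D p ∧ wt w p = c}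

/-- Passage time from `x` to `y` in the whole lattice. -/
noncomputable def passageTime (w : Sym2 (ℤ × ℤ) → ℝ) (x y : ℤ × ℤ) : ℝ :=
  ⨅ p : Z2.Walk x y, wt w p

/-- Extension by zero of weights given on the edges of the lattice. -/
noncomputable def ext {Ω : Type*} (W : Z2.edgeSet → Ω → ℝ) (ω : Ω) (e : Sym2 (ℤ × ℤ)) : ℝ := by
  classical
  exact if h : e ∈ Z2.edgeSet then W ⟨e, h⟩ ω else 0

/-- The point with diagonal coordinates `2 a`, `2 b`. -/
def pt (a b : ℤ) : ℤ × ℤ := (a + b, a - b)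

/-- Paths of smallest weight among the walks in `D`. -/
def minPaths (w : Sym2 (ℤ × ℤ) → ℝ) (D : Set (ℤ × ℤ)) (x y : ℤ × ℤ) : Set (Z2.Walk x y) :=
  {p | p.IsPath ∧ IsIn D p ∧ ∀ q : Z2.Walk x y, IsIn D q → wt w p ≤ wt w q}

/-- The partial weight of a walk between two indices. -/
noncomputable def segw (w : Sym2 (ℤ × ℤ) → ℝ) {x y : ℤ × ℤ} (p : Z2.Walk x y) (i j : ℕ) : ℝ :=
  ∑ t ∈ Finset.Ico i j, w s(p.getVert t, p.getVert (t + 1))

/-- The first index at which a walk visits a vertex. -/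
noncomputable def pos {x y : ℤ × ℤ} (p : Z2.Walk x y) (v : ℤ × ℤ) : ℕ := sInf {t | p.getVert t = v}

/-- The partial weight of a walk between (the first visits to) two vertices. -/
noncomputable def segv (w : Sym2 (ℤ × ℤ) → ℝ) {x y : ℤ × ℤ} (p : Z2.Walk x y) (u v : ℤ × ℤ) : ℝ :=
  segw w p (pos p u) (pos p v)

@[simp] theorem A_pt (a b : ℤ) : A (pt a b) = 2 * a := by unfold A pt; ring
@[simp] theorem B_pt (a b : ℤ) : B (pt a b) = 2 * b := by unfold B pt; ring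

theorem Z2_adj_iff {x y : ℤ × ℤ} : Z2.Adj x y ↔ (x.1 - y.1).natAbs + (x.2 - y.2).natAbs = 1 :=
  Iff.rfl

theorem mem_box {R : ℕ} {x : ℤ × ℤ} : x ∈ box R ↔ (-(R : ℤ) ≤ x.1 ∧ x.1 ≤ R) ∧
    (-(R : ℤ) ≤ x.2 ∧ x.2 ≤ R) := by
  unfold box
  simp only [Finset.mem_product, Finset.mem_Icc]

theorem mem_edgesIn {R : ℕ} {e : Sym2 (ℤ × ℤ)} :
    e ∈ edgesIn R ↔ (∀ v ∈ e, v ∈ box R) ∧ e ∈ Z2.edgeSet := by
  unfold edgesIn
  simp only [Finset.mem_filter, Finset.mem_sym2_iff]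

theorem wt_nonneg {w : Sym2 (ℤ × ℤ) → ℝ} (hw : ∀ e, 0 ≤ w e) {x y : ℤ × ℤ} (p : Z2.Walk x y) :
    0 ≤ wt w p := by
  unfold wt
  apply List.sum_nonneg
  intro a ha
  obtain ⟨e, _, rfl⟩ := List.mem_map.1 ha
  exact hw e

theorem wt_nil (w : Sym2 (ℤ × ℤ) → ℝ) (x : ℤ × ℤ) : wt w (SimpleGraph.Walk.nil : Z2.Walk x x) = 0 := by
  simp [wt]

theorem wt_append (w : Sym2 (ℤ × ℤ) → ℝ) {x y z : ℤ × ℤ} (p : Z2.Walk x y) (q : Z2.Walk y z) :
    wt w (p.append q) = wt w p + wt w q := by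
  simp [wt, SimpleGraph.Walk.edges_append]

theorem wt_reverse (w : Sym2 (ℤ × ℤ) → ℝ) {x y : ℤ × ℤ} (p : Z2.Walk x y) :
    wt w p.reverse = wt w p := by
  simp [wt, SimpleGraph.Walk.edges_reverse]

theorem wt_copy (w : Sym2 (ℤ × ℤ) → ℝ) {x y x' y' : ℤ × ℤ} (p : Z2.Walk x y) (h : x = x')
    (h' : y = y') : wt w (p.copy h h') = wt w p := by
  subst h h'
  rfl

theorem wt_bypass_le {w : Sym2 (ℤ × ℤ) → ℝ} (hw : ∀ e, 0 ≤ w e) {x y : ℤ × ℤ} (p : Z2.Walk x y) :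
    wt w p.bypass ≤ wt w p := by
  unfold wt
  apply List.Sublist.sum_le_sum (p.edges_bypass_sublist_edges.map w)
  intro a ha
  obtain ⟨e, _, rfl⟩ := List.mem_map.1 ha
  exact hw e

theorem wt_mono {w w' : Sym2 (ℤ × ℤ) → ℝ} (h : ∀ e, w e ≤ w' e) {x y : ℤ × ℤ} (p : Z2.Walk x y) :
    wt w p ≤ wt w' p := by
  unfold wt
  exact List.sum_le_sum (fun e _ => h e)

theorem wt_le_length {w : Sym2 (ℤ × ℤ) → ℝ} {b : ℝ} (h : ∀ e, w e ≤ b) {x y : ℤ × ℤ}
    (p : Z2.Walk x y) : wt w p ≤ b * p.length := by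
  unfold wt
  have h1 := List.sum_le_card_nsmul (p.edges.map w) b (by
    intro a ha
    obtain ⟨e, _, rfl⟩ := List.mem_map.1 ha
    exact h e)
  simp only [List.length_map, SimpleGraph.Walk.length_edges, nsmul_eq_mul] at h1
  linarith [mul_comm b (p.length : ℝ)]

theorem wt_congr {w w' : Sym2 (ℤ × ℤ) → ℝ} {x y : ℤ × ℤ} (p : Z2.Walk x y)
    (h : ∀ e ∈ p.edges, w e = w' e) : wt w p = wt w' p := by
  unfold wt
  rw [List.map_congr_left h]

theorem wt_eq_segw (w : Sym2 (ℤ × ℤ) → ℝ) {x y : ℤ × ℤ} (p : Z2.Walk x y) :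
    wt w p = segw w p 0 p.length := by
  induction p with
  | nil => simp [wt, segw]
  | cons h p ih =>
    unfold wt segw at ih ⊢
    rw [SimpleGraph.Walk.edges_cons, List.map_cons, List.sum_cons, ih,
      SimpleGraph.Walk.length_cons, ← Finset.range_eq_Ico, ← Finset.range_eq_Ico,
      Finset.sum_range_succ']
    simp only [SimpleGraph.Walk.getVert_cons_succ, SimpleGraph.Walk.getVert_zero]
    rw [add_comm]

theorem segw_add (w : Sym2 (ℤ × ℤ) → ℝ) {x y : ℤ × ℤ} (p : Z2.Walk x y) {i j k : ℕ} (h1 : i ≤ j)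
    (h2 : j ≤ k) : segw w p i j + segw w p j k = segw w p i k :=
  Finset.sum_Ico_consecutive _ h1 h2

theorem segw_nonneg {w : Sym2 (ℤ × ℤ) → ℝ} (hw : ∀ e, 0 ≤ w e) {x y : ℤ × ℤ} (p : Z2.Walk x y)
    (i j : ℕ) : 0 ≤ segw w p i j :=
  Finset.sum_nonneg fun _ _ => hw _

theorem segw_take (w : Sym2 (ℤ × ℤ) → ℝ) {x y : ℤ × ℤ} (p : Z2.Walk x y) (i : ℕ) {a b : ℕ}
    (hb : b ≤ i) : segw w (p.take i) a b = segw w p a b := by
  unfold segw
  apply Finset.sum_congr rfl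
  intro t ht
  rw [Finset.mem_Ico] at ht
  rw [SimpleGraph.Walk.take_getVert, SimpleGraph.Walk.take_getVert,
    min_eq_right (by omega), min_eq_right (by omega)]

theorem segw_drop (w : Sym2 (ℤ × ℤ) → ℝ) {x y : ℤ × ℤ} (p : Z2.Walk x y) (i a b : ℕ) :
    segw w (p.drop i) a b = segw w p (i + a) (i + b) := by
  unfold segw
  rw [add_comm i a, add_comm i b, ← Finset.sum_Ico_add']
  apply Finset.sum_congr rfl
  intro t _
  rw [SimpleGraph.Walk.drop_getVert, SimpleGraph.Walk.drop_getVert, add_comm i t,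
    show i + (t + 1) = t + i + 1 by ring]

/-- The part of a walk between two indices. -/
noncomputable def part {x y : ℤ × ℤ} (p : Z2.Walk x y) (i j : ℕ) :
    Z2.Walk (p.getVert i) (p.getVert (i + (j - i))) :=
  ((p.drop i).take (j - i)).copy rfl (by rw [SimpleGraph.Walk.drop_getVert])

theorem wt_part (w : Sym2 (ℤ × ℤ) → ℝ) {x y : ℤ × ℤ} (p : Z2.Walk x y) {i j : ℕ} (hij : i ≤ j)
    (hj : j ≤ p.length) : wt w (part p i j) = segw w p i j := by
  unfold part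
  rw [wt_copy, wt_eq_segw, SimpleGraph.Walk.take_length, SimpleGraph.Walk.drop_length,
    min_eq_left (by omega), segw_take w _ _ le_rfl, segw_drop]
  congr 1
  omega

theorem length_part {x y : ℤ × ℤ} (p : Z2.Walk x y) {i j : ℕ} (hij : i ≤ j)
    (hj : j ≤ p.length) : (part p i j).length = j - i := by
  unfold part
  rw [SimpleGraph.Walk.length_copy, SimpleGraph.Walk.take_length, SimpleGraph.Walk.drop_length,
    min_eq_left (by omega)]

theorem support_part_subset {x y : ℤ × ℤ} (p : Z2.Walk x y) (i j : ℕ) :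
    ∀ v ∈ (part p i j).support, v ∈ p.support := by
  intro v hv
  unfold part at hv
  rw [SimpleGraph.Walk.support_copy] at hv
  obtain ⟨n, hn, hle⟩ := SimpleGraph.Walk.mem_support_iff_exists_getVert.1 hv
  rw [SimpleGraph.Walk.take_getVert, SimpleGraph.Walk.drop_getVert] at hn
  rw [← hn]
  exact p.getVert_mem_support _

theorem isIn_part {D : Set (ℤ × ℤ)} {x y : ℤ × ℤ} {p : Z2.Walk x y} (h : IsIn D p) (i j : ℕ) :
    IsIn D (part p i j) := fun v hv => h v (support_part_subset p i j v hv)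

theorem isIn_append {D : Set (ℤ × ℤ)} {x y z : ℤ × ℤ} {p : Z2.Walk x y} {q : Z2.Walk y z}
    (hp : IsIn D p) (hq : IsIn D q) : IsIn D (p.append q) := by
  intro v hv
  rw [SimpleGraph.Walk.mem_support_append_iff] at hv
  rcases hv with h | h
  · exact hp v h
  · exact hq v h

theorem isIn_reverse {D : Set (ℤ × ℤ)} {x y : ℤ × ℤ} {p : Z2.Walk x y} (hp : IsIn D p) :
    IsIn D p.reverse := by
  intro v hv
  rw [SimpleGraph.Walk.support_reverse, List.mem_reverse] at hv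
  exact hp v hv

theorem isIn_bypass {D : Set (ℤ × ℤ)} {x y : ℤ × ℤ} {p : Z2.Walk x y} (hp : IsIn D p) :
    IsIn D p.bypass := fun v hv => hp v (p.support_bypass_subset_support hv)

theorem isIn_copy {D : Set (ℤ × ℤ)} {x y x' y' : ℤ × ℤ} {p : Z2.Walk x y} (h : x = x')
    (h' : y = y') (hp : IsIn D p) : IsIn D (p.copy h h') := by
  subst h h'
  exact hp

theorem TT_le {w : Sym2 (ℤ × ℤ) → ℝ} (hw : ∀ e, 0 ≤ w e) {D : Set (ℤ × ℤ)} {x y : ℤ × ℤ}
    {p : Z2.Walk x y} (hp : IsIn D p) : TT w D x y ≤ wt w p := by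
  apply csInf_le
  · refine ⟨0, ?_⟩
    rintro c ⟨q, _, rfl⟩
    exact wt_nonneg hw q
  · exact ⟨p, hp, rfl⟩

theorem TT_nonneg {w : Sym2 (ℤ × ℤ) → ℝ} (hw : ∀ e, 0 ≤ w e) (D : Set (ℤ × ℤ)) (x y : ℤ × ℤ) :
    0 ≤ TT w D x y := by
  apply Real.sInf_nonneg
  rintro c ⟨q, _, rfl⟩
  exact wt_nonneg hw q

/-- In a finite region the passage time is attained by a self-avoiding walk. -/
theorem exists_minPath {w : Sym2 (ℤ × ℤ) → ℝ} (hw : ∀ e, 0 ≤ w e) {D : Set (ℤ × ℤ)}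
    (hD : D.Finite) {x y : ℤ × ℤ} {p : Z2.Walk x y} (hp : IsIn D p) :
    ∃ q ∈ minPaths w D x y, wt w q = TT w D x y := by
  classical
  set C : Set ℝ := {c : ℝ | ∃ q : Z2.Walk x y, q.IsPath ∧ IsIn D q ∧ wt w q = c} with hC
  have hfin : C.Finite := by
    set E : Set (Sym2 (ℤ × ℤ)) := {e | ∀ v ∈ e, v ∈ D} with hE
    have hEfin : E.Finite := by
      have := (hD.toFinset.sym2 : Finset (Sym2 (ℤ × ℤ))).finite_toSet
      apply this.subset
      intro e he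
      rw [Finset.mem_coe, Finset.mem_sym2_iff]
      intro v hv
      rw [Set.Finite.mem_toFinset]
      exact he v hv
    have himg := ((hEfin.toFinset.powerset).image
      (fun S : Finset (Sym2 (ℤ × ℤ)) => ∑ e ∈ S, w e)).finite_toSet
    apply himg.subset
    rintro c ⟨q, hq, hqD, rfl⟩
    rw [Finset.mem_coe, Finset.mem_image]
    refine ⟨q.edges.toFinset, ?_, ?_⟩
    · rw [Finset.mem_powerset]
      intro e he
      rw [List.mem_toFinset] at he
      rw [Set.Finite.mem_toFinset]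
      intro v hv
      exact hqD v (q.mem_support_of_mem_edges he hv)
    · rw [List.sum_toFinset _ hq.isTrail.edges_nodup]
      rfl
  have hne : C.Nonempty := ⟨_, p.bypass, p.bypass_isPath, isIn_bypass hp, rfl⟩
  obtain ⟨q, hq, hqD, hqc⟩ := hne.csInf_mem hfin
  have hmin : ∀ r : Z2.Walk x y, IsIn D r → wt w q ≤ wt w r := by
    intro r hr
    have h1 : sInf C ≤ wt w r.bypass := by
      apply csInf_le hfin.bddBelow
      exact ⟨r.bypass, r.bypass_isPath, isIn_bypass hr, rfl⟩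
    rw [hqc]
    exact h1.trans (wt_bypass_le hw r)
  refine ⟨q, ⟨hq, hqD, hmin⟩, ?_⟩
  apply le_antisymm
  · unfold TT
    refine le_csInf (Set.nonempty_of_mem ⟨q, hqD, rfl⟩) ?_
    rintro c ⟨r, hr, rfl⟩
    exact hmin r hr
  · exact TT_le hw hqD

theorem wt_minPath {w : Sym2 (ℤ × ℤ) → ℝ} (hw : ∀ e, 0 ≤ w e) {D : Set (ℤ × ℤ)} {x y : ℤ × ℤ}
    {q : Z2.Walk x y} (hq : q ∈ minPaths w D x y) : wt w q = TT w D x y := by
  apply le_antisymm
  · unfold TT
    refine le_csInf (Set.nonempty_of_mem ⟨q, hq.2.1, rfl⟩) ?_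
    rintro c ⟨r, hr, rfl⟩
    exact hq.2.2 r hr
  · exact TT_le hw hq.2.1

theorem TT_symm (w : Sym2 (ℤ × ℤ) → ℝ) (D : Set (ℤ × ℤ)) (x y : ℤ × ℤ) : TT w D x y = TT w D y x := by
  unfold TT
  congr 1
  ext c
  constructor
  · rintro ⟨p, hp, rfl⟩
    exact ⟨p.reverse, isIn_reverse hp, wt_reverse w p⟩
  · rintro ⟨p, hp, rfl⟩
    exact ⟨p.reverse, isIn_reverse hp, wt_reverse w p⟩

theorem TT_triangle {w : Sym2 (ℤ × ℤ) → ℝ} (hw : ∀ e, 0 ≤ w e) {D : Set (ℤ × ℤ)} {x y z : ℤ × ℤ}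
    {p : Z2.Walk x y} (hp : IsIn D p) {q : Z2.Walk y z} (hq : IsIn D q) :
    TT w D x z ≤ TT w D x y + TT w D y z := by
  have h1 : ∀ p' : Z2.Walk x y, IsIn D p' → TT w D x z - wt w p' ≤ TT w D y z := by
    intro p' hp'
    refine le_csInf (Set.nonempty_of_mem ⟨q, hq, rfl⟩) ?_
    rintro c ⟨q', hq', rfl⟩
    have := TT_le hw (isIn_append hp' hq')
    rw [wt_append] at this
    linarith
  have h2 : TT w D x z - TT w D y z ≤ TT w D x y := by
    refine le_csInf (Set.nonempty_of_mem ⟨p, hp, rfl⟩) ?_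
    rintro c ⟨p', hp', rfl⟩
    have := h1 p' hp'
    linarith
  linarith

/-- The passage time between two vertices of a walk is at most the partial weight. -/
theorem TT_le_segw {w : Sym2 (ℤ × ℤ) → ℝ} (hw : ∀ e, 0 ≤ w e) {D : Set (ℤ × ℤ)} {x y : ℤ × ℤ}
    {p : Z2.Walk x y} (hp : IsIn D p) {i j : ℕ} (hij : i ≤ j) (hj : j ≤ p.length) :
    TT w D (p.getVert i) (p.getVert j) ≤ segw w p i j := by
  have h := TT_le hw (isIn_part hp i j)
  rw [wt_part w p hij hj] at h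
  have : i + (j - i) = j := by omega
  rwa [this] at h

theorem exists_getVert {x y v : ℤ × ℤ} (p : Z2.Walk x y) (hv : v ∈ p.support) :
    ∃ t, p.getVert t = v ∧ t ≤ p.length := by
  obtain ⟨n, hn, hle⟩ := SimpleGraph.Walk.mem_support_iff_exists_getVert.1 hv
  exact ⟨n, hn, hle⟩

theorem getVert_pos {x y v : ℤ × ℤ} (p : Z2.Walk x y) (hv : v ∈ p.support) :
    p.getVert (pos p v) = v := by
  obtain ⟨t, ht, _⟩ := exists_getVert p hv
  exact Nat.sInf_mem (s := {t | p.getVert t = v}) ⟨t, ht⟩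

theorem pos_le_length {x y v : ℤ × ℤ} (p : Z2.Walk x y) (hv : v ∈ p.support) :
    pos p v ≤ p.length := by
  obtain ⟨t, ht, hle⟩ := exists_getVert p hv
  exact (Nat.sInf_le (s := {t | p.getVert t = v}) ht).trans hle

/-- For a self-avoiding walk the index of a vertex is unique. -/
theorem pos_getVert {x y : ℤ × ℤ} {p : Z2.Walk x y} (hp : p.IsPath) {i : ℕ} (hi : i ≤ p.length) :
    pos p (p.getVert i) = i := by
  apply hp.getVert_injOn
  · exact pos_le_length p (p.getVert_mem_support i)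
  · exact hi
  · exact getVert_pos p (p.getVert_mem_support i)

theorem TT_le_segv {w : Sym2 (ℤ × ℤ) → ℝ} (hw : ∀ e, 0 ≤ w e) {D : Set (ℤ × ℤ)} {x y u v : ℤ × ℤ}
    {p : Z2.Walk x y} (hp : IsIn D p) (hu : u ∈ p.support) (hv : v ∈ p.support)
    (h : pos p u ≤ pos p v) : TT w D u v ≤ segv w p u v := by
  have h1 := TT_le_segw hw hp h (pos_le_length p hv)
  rwa [getVert_pos p hu, getVert_pos p hv] at h1

theorem segv_add (w : Sym2 (ℤ × ℤ) → ℝ) {x y u v z : ℤ × ℤ} (p : Z2.Walk x y)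
    (h1 : pos p u ≤ pos p v) (h2 : pos p v ≤ pos p z) :
    segv w p u v + segv w p v z = segv w p u z := segw_add w p h1 h2

end Pool.Agent.Helper33_FPP
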