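import Pool.Agent.Helper33_FPP.Block
import Pool.Agent.Helper33_FPP.Geo

/-!
# Improving a walk through good blocks all of whose edges are lowered
-/

set_option autoImplicit false

namespace Pool.Agent.Helper33_FPP

open Finset

namespace ImproveAux

lemma dst_le_iff {u v : ℤ × ℤ} {n : ℕ} :
    dst u v ≤ n ↔ (u.1 - v.1).natAbs ≤ n ∧ (u.2 - v.2).natAbs ≤ n := by
  unfold dst
  exact max_le_iff

/-- First hit of the sphere of radius `m` round `c`. -/
lemma first_hit {m : ℕ} {c v u : ℤ × ℤ} (q : Z2.Walk v u) (hv : dst v c ≤ m) (hu : m ≤ dst u c) :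
    ∃ (y : ℤ × ℤ) (q₁ : Z2.Walk v y) (q₂ : Z2.Walk y u), q = q₁.append q₂ ∧ dst y c = m ∧
      ∀ s ∈ q₁.support, s ∈ Bx c m := by
  induction q with
  | nil =>
    exact ⟨_, .nil, .nil, rfl, le_antisymm hv hu, by simpa [Bx] using hv⟩
  | @cons a b d h q ih =>
    by_cases hs : dst a c = m
    · exact ⟨_, .nil, .cons h q, rfl, hs, by simpa [Bx] using hs.le⟩
    · have hadj : (a.1 - b.1).natAbs + (a.2 - b.2).natAbs = 1 := h
      have hb : dst b c ≤ m := by
        have hlt : dst a c < m := lt_of_le_of_ne hv hs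
        have h1 : dst a c ≤ m - 1 := by omega
        rw [dst_le_iff] at h1 ⊢
        omega
      obtain ⟨y, q₁, q₂, hq, hy, hin⟩ := ih hb hu
      refine ⟨y, .cons h q₁, q₂, by rw [hq]; rfl, hy, ?_⟩
      intro s hs'
      rw [SimpleGraph.Walk.support_cons, List.mem_cons] at hs'
      rcases hs' with rfl | hs'
      · exact hv
      · exact hin s hs'

/-- A straight path in a square. -/
lemma straight {m : ℕ} {c : ℤ × ℤ} : ∀ (n : ℕ) (u v : ℤ × ℤ), u ∈ Bx c m → v ∈ Bx c m →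
    l1 u v = n → ∃ L : Z2.Walk u v, (∀ s ∈ L.support, s ∈ Bx c m) ∧ L.length = n := by
  intro n
  induction n with
  | zero =>
    intro u v hu hv h
    have : u = v := by
      unfold l1 at h
      exact Prod.ext (by omega) (by omega)
    subst this
    exact ⟨.nil, by simpa using hu, rfl⟩
  | succ n ih =>
    intro u v hu hv h
    obtain ⟨u', hadj, hu', hn⟩ : ∃ u', Z2.Adj u u' ∧ u' ∈ Bx c m ∧ l1 u' v = n := by
      unfold l1 at h
      simp only [Bx, Set.mem_ofPred_eq, dst_le_iff] at hu hv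
      rcases lt_trichotomy u.1 v.1 with h1 | h1 | h1
      · refine ⟨(u.1 + 1, u.2), ?_, ?_, ?_⟩
        · show (u.1 - (u.1 + 1)).natAbs + (u.2 - u.2).natAbs = 1
          omega
        · simp only [Bx, Set.mem_ofPred_eq, dst_le_iff]; omega
        · unfold l1; simp only; omega
      · rcases lt_trichotomy u.2 v.2 with h2 | h2 | h2
        · refine ⟨(u.1, u.2 + 1), ?_, ?_, ?_⟩
          · show (u.1 - u.1).natAbs + (u.2 - (u.2 + 1)).natAbs = 1
            omega
          · simp only [Bx, Set.mem_ofPred_eq, dst_le_iff]; omega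
          · unfold l1; simp only; omega
        · exfalso; omega
        · refine ⟨(u.1, u.2 - 1), ?_, ?_, ?_⟩
          · show (u.1 - u.1).natAbs + (u.2 - (u.2 - 1)).natAbs = 1
            omega
          · simp only [Bx, Set.mem_ofPred_eq, dst_le_iff]; omega
          · unfold l1; simp only; omega
      · refine ⟨(u.1 - 1, u.2), ?_, ?_, ?_⟩
        · show (u.1 - (u.1 - 1)).natAbs + (u.2 - u.2).natAbs = 1
          omega
        · simp only [Bx, Set.mem_ofPred_eq, dst_le_iff]; omega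
        · unfold l1; simp only; omega
    obtain ⟨L, hL, hlen⟩ := ih u' v hu' hv hn
    refine ⟨.cons hadj L, ?_, by rw [SimpleGraph.Walk.length_cons, hlen]⟩
    intro s hs
    rw [SimpleGraph.Walk.support_cons, List.mem_cons] at hs
    rcases hs with rfl | hs
    · exact hu
    · exact hL s hs

lemma wt_mono_edges {w w' : Sym2 (ℤ × ℤ) → ℝ} {x y : ℤ × ℤ} (p : Z2.Walk x y)
    (h : ∀ e ∈ p.edges, w e ≤ w' e) : wt w p ≤ wt w' p := by
  unfold wt
  exact List.sum_le_sum h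

/-- One block. -/
lemma one {w w₁ : Sym2 (ℤ × ℤ) → ℝ} {a δ : ℝ} (ha : 0 ≤ a) {k : ℕ} {z : ℤ × ℤ}
    (hgood : BlkGood w a δ k z) (hle : ∀ e ∈ Z2.edgeSet, w₁ e ≤ w e)
    (hlow : ∀ e ∈ Z2.edgeSet, (∀ v ∈ e, v ∈ OB k z) → w₁ e ≤ a)
    {x y : ℤ × ℤ} (p : Z2.Walk x y) (hx : 3 * k ≤ dst x (HalfAux.ctr k z))
    (hy : 3 * k ≤ dst y (HalfAux.ctr k z))
    (hvis : ∃ v ∈ p.support, v ∈ Bx (HalfAux.ctr k z) k) :
    ∃ p₁ : Z2.Walk x y, (∀ v ∈ p₁.support, v ∈ p.support ∨ v ∈ OB k z) ∧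
      (∀ v ∈ p.support, v ∉ OB k z → v ∈ p₁.support) ∧ wt w₁ p₁ ≤ wt w p - 2 * δ := by
  obtain ⟨v, hv, hvk⟩ := hvis
  have hvk' : dst v (HalfAux.ctr k z) ≤ 3 * k := by
    have : dst v (HalfAux.ctr k z) ≤ k := hvk
    omega
  obtain ⟨y₂, q₁, q₂, hq, hy₂, hq₁⟩ := first_hit (p.dropUntil v hv) hvk' hy
  obtain ⟨y₁, r₁, r₂, hr, hy₁, hr₁⟩ := first_hit (p.takeUntil v hv).reverse hvk' hx
  obtain ⟨L, hL, hLlen⟩ := straight (c := HalfAux.ctr k z) (m := 3 * k) (l1 y₁ y₂) y₁ y₂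
    hy₁.le hy₂.le rfl
  have hr' : p.takeUntil v hv = r₂.reverse.append r₁.reverse := by
    rw [← SimpleGraph.Walk.reverse_append, ← hr, SimpleGraph.Walk.reverse_reverse]
  have hp : p = (r₂.reverse.append r₁.reverse).append (q₁.append q₂) := by
    rw [← hr', ← hq, SimpleGraph.Walk.take_spec]
  refine ⟨r₂.reverse.append (L.append q₂), ?_, ?_, ?_⟩
  · intro s hs
    rw [SimpleGraph.Walk.mem_support_append_iff, SimpleGraph.Walk.mem_support_append_iff] at hs
    rcases hs with hs | hs | hs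
    · left
      rw [hp, SimpleGraph.Walk.mem_support_append_iff, SimpleGraph.Walk.mem_support_append_iff]
      exact Or.inl (Or.inl hs)
    · right; exact hL s hs
    · left
      rw [hp, SimpleGraph.Walk.mem_support_append_iff, SimpleGraph.Walk.mem_support_append_iff,
        SimpleGraph.Walk.mem_support_append_iff]
      exact Or.inr (Or.inr hs)
  · intro s hs hsO
    rw [hp, SimpleGraph.Walk.mem_support_append_iff, SimpleGraph.Walk.mem_support_append_iff,
      SimpleGraph.Walk.mem_support_append_iff] at hs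
    rw [SimpleGraph.Walk.mem_support_append_iff, SimpleGraph.Walk.mem_support_append_iff]
    rcases hs with (hs | hs) | (hs | hs)
    · exact Or.inl hs
    · exfalso
      rw [SimpleGraph.Walk.support_reverse, List.mem_reverse] at hs
      exact hsO (hr₁ s hs)
    · exact absurd (hq₁ s hs) hsO
    · exact Or.inr (Or.inr hs)
  · have h1 : a * l1 v y₁ + δ ≤ wt w r₁ := hgood v hvk y₁ hy₁ r₁ hr₁
    have h2 : a * l1 v y₂ + δ ≤ wt w q₁ := hgood v hvk y₂ hy₂ q₁ hq₁
    have h3 : wt w₁ L ≤ a * l1 y₁ y₂ := by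
      unfold wt
      have h := List.sum_le_card_nsmul (L.edges.map w₁) a (by
        intro b hb
        obtain ⟨e, he, rfl⟩ := List.mem_map.1 hb
        exact hlow e (L.edges_subset_edgeSet he) fun s hs =>
          hL s (L.mem_support_of_mem_edges he hs))
      rw [List.length_map, SimpleGraph.Walk.length_edges, hLlen, nsmul_eq_mul] at h
      linarith [mul_comm a (l1 y₁ y₂ : ℝ)]
    have h4 : (l1 y₁ y₂ : ℝ) ≤ l1 v y₁ + l1 v y₂ := by
      have : l1 y₁ y₂ ≤ l1 v y₁ + l1 v y₂ := by unfold l1; omega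
      exact_mod_cast this
    have h5 : a * l1 y₁ y₂ ≤ a * (l1 v y₁ + l1 v y₂) := mul_le_mul_of_nonneg_left h4 ha
    have h6 : wt w₁ r₂ ≤ wt w r₂ := wt_mono_edges _ fun e he => hle e (r₂.edges_subset_edgeSet he)
    have h7 : wt w₁ q₂ ≤ wt w q₂ := wt_mono_edges _ fun e he => hle e (q₂.edges_subset_edgeSet he)
    rw [hp]
    simp only [wt_append, wt_reverse]
    linarith

/-- The outer boxes of two blocks of the same class are disjoint. -/
lemma disj {k : ℕ} {z z' : ℤ × ℤ} (hs : Same z z') (hne : z ≠ z') {v : ℤ × ℤ} (hv : v ∈ OB k z) :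
    v ∉ OB k z' := by
  intro hv'
  simp only [OB, Bx, Set.mem_ofPred_eq, dst_le_iff, HalfAux.ctr] at hv hv'
  obtain ⟨h1, h2⟩ := hs
  have hk : (0 : ℤ) ≤ k := by positivity
  have key : ∀ s t t' : ℤ, (s - (2 * k + 1) * t).natAbs ≤ 3 * k →
      (s - (2 * k + 1) * t').natAbs ≤ 3 * k → t % 3 = t' % 3 → t = t' := by
    intro s t t' a1 a2 a3
    by_contra hc
    have h3 : t - t' ≤ -3 ∨ 3 ≤ t - t' := by omega
    have b1 : (2 * k + 1) * t - (2 * k + 1) * t' ≤ 6 * k := by omega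
    have b2 : -(6 * k : ℤ) ≤ (2 * k + 1) * t - (2 * k + 1) * t' := by omega
    rcases h3 with h3 | h3
    · nlinarith
    · nlinarith
  exact hne (Prod.ext (key _ _ _ hv.1 hv'.1 h1) (key _ _ _ hv.2 hv'.2 h2))

lemma main {w' : Sym2 (ℤ × ℤ) → ℝ} {a δ : ℝ} (ha : 0 ≤ a) {k : ℕ}
    (Bs : Finset (ℤ × ℤ)) : ∀ (w : Sym2 (ℤ × ℤ) → ℝ), (∀ z ∈ Bs, ∀ z' ∈ Bs, Same z z') →
    (∀ z ∈ Bs, BlkGood w a δ k z) → (∀ e ∈ Z2.edgeSet, w' e ≤ w e) →
    (∀ z ∈ Bs, ∀ e ∈ Z2.edgeSet, (∀ v ∈ e, v ∈ OB k z) → w' e ≤ a) →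
    ∀ {x y : ℤ × ℤ} (p : Z2.Walk x y), (∀ z ∈ Bs, 3 * k ≤ dst x (HalfAux.ctr k z)) →
    (∀ z ∈ Bs, 3 * k ≤ dst y (HalfAux.ctr k z)) →
    (∀ z ∈ Bs, ∃ v ∈ p.support, v ∈ Bx (HalfAux.ctr k z) k) →
    ∃ p' : Z2.Walk x y, (∀ v ∈ p'.support, v ∈ p.support ∨ ∃ z ∈ Bs, v ∈ OB k z) ∧
      wt w' p' ≤ wt w p - 2 * δ * Bs.card := by
  classical
  induction Bs using Finset.induction_on with
  | empty =>
    intro w _ _ hle _ x y p _ _ _
    refine ⟨p, fun v hv => Or.inl hv, ?_⟩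
    have := wt_mono_edges (w := w') (w' := w) p fun e he => hle e (p.edges_subset_edgeSet he)
    simpa using this
  | insert z Bs hz ih =>
    intro w hsame hgood hle hlow x y p hx hy hvis
    set w₁ : Sym2 (ℤ × ℤ) → ℝ := fun e => if ∀ v ∈ e, v ∈ OB k z then w' e else w e with hw₁
    have hz' : z ∈ insert z Bs := Finset.mem_insert_self _ _
    have hsub : ∀ {z'}, z' ∈ Bs → z' ∈ insert z Bs := fun h => Finset.mem_insert_of_mem h
    have hle1 : ∀ e ∈ Z2.edgeSet, w₁ e ≤ w e := by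
      intro e he
      rw [hw₁]
      simp only
      split_ifs with h
      · exact hle e he
      · exact le_rfl
    have hle2 : ∀ e ∈ Z2.edgeSet, w' e ≤ w₁ e := by
      intro e he
      rw [hw₁]
      simp only
      split_ifs with h
      · exact le_rfl
      · exact hle e he
    obtain ⟨p₁, hp₁, hp₁', hwt⟩ := one ha (hgood z hz') hle1 (fun e he hv => by
      rw [hw₁]
      simp only
      rw [if_pos hv]
      exact hlow z hz' e he hv) p (hx z hz') (hy z hz') (hvis z hz')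
    have hne : ∀ z' ∈ Bs, z' ≠ z := fun z' hz'' h => hz (h ▸ hz'')
    have hgood1 : ∀ z' ∈ Bs, BlkGood w₁ a δ k z' := by
      intro z' hz'' s hs t ht q hq
      rw [wt_congr (w := w₁) (w' := w) q]
      · exact hgood z' (hsub hz'') s hs t ht q hq
      · intro e he
        rw [hw₁]
        simp only
        rw [if_neg]
        intro hcon
        induction e with
        | h u v =>
          have hu := hq u (q.mem_support_of_mem_edges he (Sym2.mem_mk_left u v))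
          exact disj (hsame z' (hsub hz'') z hz') (hne z' hz'') hu (hcon u (Sym2.mem_mk_left u v))
    obtain ⟨p', hp', hwt'⟩ := ih w₁ (fun a ha b hb => hsame a (hsub ha) b (hsub hb)) hgood1 hle2
      (fun z' hz'' => hlow z' (hsub hz'')) p₁ (fun z' hz'' => hx z' (hsub hz''))
      (fun z' hz'' => hy z' (hsub hz'')) (fun z' hz'' => by
        obtain ⟨v, hv, hvk⟩ := hvis z' (hsub hz'')
        refine ⟨v, hp₁' v hv ?_, hvk⟩
        refine disj (hsame z' (hsub hz'') z hz') (hne z' hz'') ?_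
        have : dst v (HalfAux.ctr k z') ≤ k := hvk
        show dst v (HalfAux.ctr k z') ≤ 3 * k
        omega)
    refine ⟨p', ?_, ?_⟩
    · intro v hv
      rcases hp' v hv with h | ⟨z', hz'', h⟩
      · rcases hp₁ v h with h | h
        · exact Or.inl h
        · exact Or.inr ⟨z, hz', h⟩
      · exact Or.inr ⟨z', hsub hz'', h⟩
    · rw [Finset.card_insert_of_notMem hz]
      push_cast
      linarith

end ImproveAux

theorem improve {w w' : Sym2 (ℤ × ℤ) → ℝ} (hw : ∀ e, 0 ≤ w e) {a δ : ℝ} (ha : 0 ≤ a) {k : ℕ}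
    (Bs : Finset (ℤ × ℤ)) (hsame : ∀ z ∈ Bs, ∀ z' ∈ Bs, Same z z')
    (hgood : ∀ z ∈ Bs, BlkGood w a δ k z) (hle : ∀ e ∈ Z2.edgeSet, w' e ≤ w e)
    (hlow : ∀ z ∈ Bs, ∀ e ∈ Z2.edgeSet, (∀ v ∈ e, v ∈ OB k z) → w' e ≤ a)
    {x y : ℤ × ℤ} (p : Z2.Walk x y) (hx : ∀ z ∈ Bs, 3 * k ≤ dst x (HalfAux.ctr k z))
    (hy : ∀ z ∈ Bs, 3 * k ≤ dst y (HalfAux.ctr k z))
    (hvis : ∀ z ∈ Bs, ∃ v ∈ p.support, v ∈ Bx (HalfAux.ctr k z) k) :
    ∃ p' : Z2.Walk x y, (∀ v ∈ p'.support, v ∈ p.support ∨ ∃ z ∈ Bs, v ∈ OB k z) ∧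
      wt w' p' ≤ wt w p - 2 * δ * Bs.card :=
  ImproveAux.main ha Bs w hsame hgood hle hlow p hx hy hvis

end Pool.Agent.Helper33_FPP
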