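import Pool.Agent.Helper33_FPP.Orient
import Pool.Agent.Helper33_FPP.Block

/-!
# Bad blocks contain oriented paths of edges of minimal weight
-/

set_option autoImplicit false
open Finset MeasureTheory ProbabilityTheory Filter Topology
namespace Pool.Agent.Helper33_FPP

namespace OrGeoAux

lemma l1_getVert {x y : ℤ × ℤ} (q : Z2.Walk x y) (m : ℕ) : ∀ i, i + m ≤ q.length →
    l1 (q.getVert i) (q.getVert (i + m)) ≤ m := by
  induction m with
  | zero => intro i _; simp [l1]
  | succ m ih =>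
    intro i hi
    have h1 := ih i (by omega)
    have h2 : Z2.Adj (q.getVert (i + m)) (q.getVert (i + m + 1)) := q.adj_getVert_succ (by omega)
    rw [Z2_adj_iff] at h2
    rw [← add_assoc]
    unfold l1 at h1 ⊢
    omega

lemma mem_edges_getVert {x y : ℤ × ℤ} (q : Z2.Walk x y) {i : ℕ} (hi : i < q.length) :
    s(q.getVert i, q.getVert (i + 1)) ∈ q.edges := by
  have h : i < q.edges.length := by rw [SimpleGraph.Walk.length_edges]; exact hi
  rw [← SimpleGraph.Walk.getElem_edges h]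
  exact List.getElem_mem h

lemma sum_ge {l : List (Sym2 (ℤ × ℤ))} {w : Sym2 (ℤ × ℤ) → ℝ} {r : ℝ} (h : ∀ e ∈ l, r ≤ w e) :
    r * l.length ≤ (l.map w).sum := by
  induction l with
  | nil => simp
  | cons a l ih =>
    have h1 := ih (fun e he => h e (List.mem_cons_of_mem _ he))
    have h2 := h a List.mem_cons_self
    simp only [List.length_cons, List.map_cons, List.sum_cons]
    push_cast
    linarith

lemma wt_ge_len {x y : ℤ × ℤ} (q : Z2.Walk x y) {w : Sym2 (ℤ × ℤ) → ℝ} {r : ℝ}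
    (h : ∀ e ∈ Z2.edgeSet, r ≤ w e) : r * q.length ≤ wt w q := by
  have h1 := sum_ge (l := q.edges) (w := w) (r := r) (fun e he => h e (q.edges_subset_edgeSet he))
  rwa [SimpleGraph.Walk.length_edges] at h1

lemma wt_ge_edge {x y : ℤ × ℤ} (q : Z2.Walk x y) {w : Sym2 (ℤ × ℤ) → ℝ} {r : ℝ}
    (h : ∀ e ∈ Z2.edgeSet, r ≤ w e) {e : Sym2 (ℤ × ℤ)} (he : e ∈ q.edges) :
    w e + r * (q.length - 1) ≤ wt w q := by
  have hp := List.perm_cons_erase he
  have h1 : wt w q = ((e :: q.edges.erase e).map w).sum := (hp.map w).sum_eq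
  have h2 : (q.length : ℝ) = (q.edges.erase e).length + 1 := by
    rw [← SimpleGraph.Walk.length_edges, hp.length_eq]
    simp
  have h3 := sum_ge (l := q.edges.erase e) (w := w) (r := r)
    (fun e' he' => h e' (q.edges_subset_edgeSet (List.mem_of_mem_erase he')))
  rw [h1, h2, List.map_cons, List.sum_cons]
  linarith

/-- Oriented sequences. -/
lemma seq_stp {O : Sym2 (ℤ × ℤ) → Prop} {f : ℕ → ℤ × ℤ} {n : ℕ}
    (hf : ∀ i < n, (f (i + 1) = ((f i).1 + 1, (f i).2) ∨ f (i + 1) = ((f i).1, (f i).2 + 1)) ∧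
      O s(f i, f (i + 1))) (i m : ℕ) (h : i + m ≤ n) : f (i + m) ∈ (stp O)^[m] {f i} := by
  induction m with
  | zero => simp
  | succ m ih =>
    have h1 := ih (by omega)
    obtain ⟨h2, h3⟩ := hf (i + m) (by omega)
    rw [Function.iterate_succ_apply', ← add_assoc]
    rcases h2 with h2 | h2
    · left
      have e : ((f (i + m + 1)).1 - 1, (f (i + m + 1)).2) = f (i + m) := by
        rw [h2]
        exact Prod.ext (by simp) (by simp)
      rw [e]
      exact ⟨h1, h3⟩
    · right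
      have e : ((f (i + m + 1)).1, (f (i + m + 1)).2 - 1) = f (i + m) := by
        rw [h2]
        exact Prod.ext (by simp) (by simp)
      rw [e]
      exact ⟨h1, h3⟩

lemma exists_level {f : ℕ → ℤ × ℤ} {n k : ℕ} (hk : 1 ≤ k) (hn : 2 * k ≤ n)
    (hf : ∀ i < n, f (i + 1) = ((f i).1 + 1, (f i).2) ∨ f (i + 1) = ((f i).1, (f i).2 + 1)) :
    ∃ i, i + k ≤ n ∧ ∃ j : ℤ, A (f i) = j * k := by
  have hA : ∀ i ≤ n, A (f i) = A (f 0) + i := by
    intro i
    induction i with
    | zero => intro _; simp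
    | succ i ih =>
      intro hi
      have h1 := ih (by omega)
      have h2 := hf i (by omega)
      unfold A at *
      rcases h2 with h2 | h2 <;> rw [h2] <;> push_cast <;> omega
  have hk' : (0 : ℤ) < k := by exact_mod_cast hk
  set a := A (f 0) with ha
  have h1 := Int.emod_add_mul_ediv (-a) k
  have h2 := Int.emod_nonneg (-a) hk'.ne'
  have h3 := Int.emod_lt_of_pos (-a) hk'
  refine ⟨((-a) % k).toNat, by omega, -((-a) / k), ?_⟩
  rw [hA _ (by omega), Int.toNat_of_nonneg h2]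
  linarith

/-- A geodesic is monotone. -/
lemma steps {x y : ℤ × ℤ} (q : Z2.Walk x y) (hq : q.length = l1 x y) {i : ℕ} (hi : i < q.length) :
    (x.1 ≤ y.1 → x.2 ≤ y.2 → (q.getVert (i + 1) = ((q.getVert i).1 + 1, (q.getVert i).2) ∨
      q.getVert (i + 1) = ((q.getVert i).1, (q.getVert i).2 + 1))) ∧
    (x.1 ≤ y.1 → y.2 ≤ x.2 → (q.getVert (i + 1) = ((q.getVert i).1 + 1, (q.getVert i).2) ∨
      q.getVert (i + 1) = ((q.getVert i).1, (q.getVert i).2 - 1))) := by
  have h1 := l1_getVert q i 0 (by omega)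
  have h2 := l1_getVert q (i + 1) 0 (by omega)
  have h3 := l1_getVert q (q.length - i) i (by omega)
  have h4 := l1_getVert q (q.length - (i + 1)) (i + 1) (by omega)
  have h5 : Z2.Adj (q.getVert i) (q.getVert (i + 1)) := q.adj_getVert_succ hi
  rw [show i + (q.length - i) = q.length by omega, q.getVert_length] at h3
  rw [show i + 1 + (q.length - (i + 1)) = q.length by omega, q.getVert_length] at h4
  rw [zero_add, q.getVert_zero] at h1 h2
  rw [Z2_adj_iff] at h5
  unfold l1 at *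
  constructor
  · intro a b
    by_cases hc : (q.getVert i).1 = (q.getVert (i + 1)).1
    · right; exact Prod.ext (by simp only; omega) (by simp only; omega)
    · left; exact Prod.ext (by simp only; omega) (by simp only; omega)
  · intro a b
    by_cases hc : (q.getVert i).1 = (q.getVert (i + 1)).1
    · right; exact Prod.ext (by simp only; omega) (by simp only; omega)
    · left; exact Prod.ext (by simp only; omega) (by simp only; omega)

lemma refl2_refl2 (v : ℤ × ℤ) : refl2 (refl2 v) = v := by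
  unfold refl2
  exact Prod.ext rfl (by simp)

lemma key {w : Sym2 (ℤ × ℤ) → ℝ} {r : ℝ} {k : ℕ} (hk : 1 ≤ k) {z : ℤ × ℤ} {x y : ℤ × ℤ}
    (q : Z2.Walk x y) (hlen : q.length = l1 x y) (h2k : 2 * k ≤ q.length)
    (hin : ∀ v ∈ q.support, v ∈ OB k z) (hr : ∀ e ∈ q.edges, w e = r) (hxy : x.1 ≤ y.1) :
    ∃ u : ℤ × ℤ, ∃ j : ℤ,
      (u ∈ OB k z ∧ A u = j * k ∧ ((stp (fun e => e ∈ Z2.edgeSet ∧ (∀ v ∈ e, v ∈ OB k z) ∧
          w e = r))^[k] {u}).Nonempty) ∨
      (refl2 u ∈ OB k z ∧ A u = j * k ∧ ((stp (fun e => Sym2.map refl2 e ∈ Z2.edgeSet ∧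
          (∀ v ∈ Sym2.map refl2 e, v ∈ OB k z) ∧ w (Sym2.map refl2 e) = r))^[k] {u}).Nonempty) := by
  have hO : ∀ i < q.length, s(q.getVert i, q.getVert (i + 1)) ∈ Z2.edgeSet ∧
      (∀ v ∈ s(q.getVert i, q.getVert (i + 1)), v ∈ OB k z) ∧
      w s(q.getVert i, q.getVert (i + 1)) = r := by
    intro i hi
    refine ⟨q.adj_getVert_succ hi, ?_, hr _ (mem_edges_getVert q hi)⟩
    intro v hv
    rw [Sym2.mem_iff] at hv
    rcases hv with rfl | rfl
    · exact hin _ (q.getVert_mem_support _)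
    · exact hin _ (q.getVert_mem_support _)
  rcases le_total x.2 y.2 with h2 | h2
  · have hst : ∀ i < q.length, q.getVert (i + 1) = ((q.getVert i).1 + 1, (q.getVert i).2) ∨
      q.getVert (i + 1) = ((q.getVert i).1, (q.getVert i).2 + 1) :=
      fun i hi => (steps q hlen hi).1 hxy h2
    obtain ⟨i, hi, j, hj⟩ := exists_level hk h2k hst
    refine ⟨q.getVert i, j, Or.inl ⟨hin _ (q.getVert_mem_support _), hj, ?_⟩⟩
    exact ⟨_, seq_stp (n := q.length) (fun i hi => ⟨hst i hi, hO i hi⟩) i k hi⟩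
  · have hst : ∀ i < q.length,
        refl2 (q.getVert (i + 1)) = ((refl2 (q.getVert i)).1 + 1, (refl2 (q.getVert i)).2) ∨
        refl2 (q.getVert (i + 1)) = ((refl2 (q.getVert i)).1, (refl2 (q.getVert i)).2 + 1) := by
      intro i hi
      rcases (steps q hlen hi).2 hxy h2 with h | h
      · left; rw [h]; rfl
      · right; rw [h]; unfold refl2; exact Prod.ext rfl (by simp only; ring)
    obtain ⟨i, hi, j, hj⟩ := exists_level (f := fun i => refl2 (q.getVert i)) hk h2k hst
    refine ⟨refl2 (q.getVert i), j, Or.inr ⟨?_, hj, ?_⟩⟩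
    · rw [refl2_refl2]
      exact hin _ (q.getVert_mem_support _)
    · refine ⟨_, seq_stp (f := fun i => refl2 (q.getVert i)) (n := q.length)
        (fun i hi => ⟨hst i hi, ?_⟩) i k hi⟩
      simp only [Sym2.map_mk, refl2_refl2]
      exact hO i hi

lemma l1_comm (x y : ℤ × ℤ) : l1 x y = l1 y x := by unfold l1; omega

end OrGeoAux

open OrGeoAux

theorem or_geo {w : Sym2 (ℤ × ℤ) → ℝ} {r δ : ℝ} (hr : 0 < r) (hδ : 0 < δ) (hδr : δ ≤ r) {k : ℕ}
    (hk : 1 ≤ k) {z : ℤ × ℤ} (hw : ∀ e ∈ Z2.edgeSet, r ≤ w e)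
    (hgap : ∀ e ∈ Z2.edgeSet, (∀ v ∈ e, v ∈ OB k z) → w e < r + δ → w e = r)
    (hbad : ¬ BlkGood w r δ k z) : ∃ u : ℤ × ℤ, ∃ j : ℤ,
      (u ∈ OB k z ∧ A u = j * k ∧ ((stp (fun e => e ∈ Z2.edgeSet ∧ (∀ v ∈ e, v ∈ OB k z) ∧
          w e = r))^[k] {u}).Nonempty) ∨
      (refl2 u ∈ OB k z ∧ A u = j * k ∧ ((stp (fun e => Sym2.map refl2 e ∈ Z2.edgeSet ∧
          (∀ v ∈ Sym2.map refl2 e, v ∈ OB k z) ∧ w (Sym2.map refl2 e) = r))^[k] {u}).Nonempty) := by
  unfold BlkGood at hbad
  push Not at hbad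
  obtain ⟨x, hx, y, hy, q, hin, hlt⟩ := hbad
  have hl : l1 x y ≤ q.length := by
    have := l1_getVert q q.length 0 (by omega)
    rwa [zero_add, q.getVert_zero, q.getVert_length] at this
  have hge := wt_ge_len q hw
  have hlen : q.length = l1 x y := by
    by_contra hne
    have h1 : l1 x y + 1 ≤ q.length := by omega
    have h2 : ((l1 x y : ℕ) : ℝ) + 1 ≤ q.length := by exact_mod_cast h1
    have h3 : r * (((l1 x y : ℕ) : ℝ) + 1) ≤ r * q.length := mul_le_mul_of_nonneg_left h2 hr.le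
    linarith
  have hall : ∀ e ∈ q.edges, w e = r := by
    intro e he
    apply hgap e (q.edges_subset_edgeSet he)
    · intro v hv
      exact hin v (q.mem_support_of_mem_edges he hv)
    · have h1 := wt_ge_edge q hw he
      rw [hlen] at h1
      linarith
  have h2k : 2 * k ≤ q.length := by
    rw [hlen]
    have hx' : dst x (HalfAux.ctr k z) ≤ k := hx
    unfold dst at hx' hy
    unfold l1
    omega
  rcases le_total x.1 y.1 with h | h
  · exact key hk q hlen h2k hin hall h
  · refine key hk q.reverse ?_ ?_ ?_ ?_ h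
    · rw [SimpleGraph.Walk.length_reverse, hlen, l1_comm]
    · rw [SimpleGraph.Walk.length_reverse]; exact h2k
    · intro v hv
      rw [SimpleGraph.Walk.support_reverse, List.mem_reverse] at hv
      exact hin v hv
    · intro e he
      rw [SimpleGraph.Walk.edges_reverse, List.mem_reverse] at he
      exact hall e he

end Pool.Agent.Helper33_FPP
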