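import Pool.Agent.Helper33_FPP.Block
import Pool.Agent.Helper33_FPP.Improve
import Pool.Agent.Helper33_FPP.Greedy
import Pool.Agent.Helper33_FPP.LowerMean
import Pool.Agent.Helper33_FPP.OrGeo
import Pool.Agent.Helper33_FPP.BlockPei

/-!
# If almost all blocks are good, the time constant is larger than the minimal weight
-/

set_option autoImplicit false
open Finset MeasureTheory ProbabilityTheory Filter Topology
namespace Pool.Agent.Helper33_FPP

namespace SlopeGtAux

open Greedy ChainProb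

/-- The block centred at `u` is bad (and `u` is the centre of a block). -/
def BadC (r δ : ℝ) (k : ℕ) (u : ℤ × ℤ) (w : Sym2 (ℤ × ℤ) → ℝ) : Prop :=
  (∃ z, u = HalfAux.ctr k z) ∧ ¬ ∀ x ∈ Bx u k, ∀ y, dst y u = 3 * k → ∀ q : Z2.Walk x y,
    (∀ v ∈ q.support, v ∈ Bx u (3 * k)) → r * l1 x y + δ ≤ wt w q

lemma badC_ctr {r δ : ℝ} {k : ℕ} {z : ℤ × ℤ} {w : Sym2 (ℤ × ℤ) → ℝ} :
    BadC r δ k (HalfAux.ctr k z) w ↔ ¬ BlkGood w r δ k z :=
  ⟨fun h => h.2, fun h => ⟨⟨z, rfl⟩, h⟩⟩

lemma badC_loc (r δ : ℝ) (k : ℕ) (u : ℤ × ℤ) : Loc (BxF u (3 * k)) (BadC r δ k u) := by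
  intro w w' h
  unfold BadC
  refine and_congr Iff.rfl (not_congr ?_)
  refine forall_congr' fun x => forall_congr' fun _ => forall_congr' fun y => forall_congr' fun _ =>
    forall_congr' fun q => forall_congr' fun hq => ?_
  have : wt w q = wt w' q := by
    apply wt_congr
    intro e he
    apply h
    intro v hv
    rw [mem_BxF]
    exact hq v (q.mem_support_of_mem_edges he hv)
  rw [this]

lemma measurable_wt {x y : ℤ × ℤ} (q : Z2.Walk x y) :
    Measurable (fun w : Sym2 (ℤ × ℤ) → ℝ => wt w q) := by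
  have : (fun w : Sym2 (ℤ × ℤ) → ℝ => wt w q) = fun w => (q.edges.map w).sum := rfl
  rw [this]
  induction q.edges with
  | nil => simp
  | cons e l ih =>
    simp only [List.map_cons, List.sum_cons]
    exact (measurable_pi_apply e).add ih

instance (x y : ℤ × ℤ) : Countable (Z2.Walk x y) := by
  have hinj : Function.Injective (fun q : Z2.Walk x y => q.support) := by
    intro p q h
    exact SimpleGraph.Walk.support_injective h
  exact hinj.countable

lemma badC_meas (r δ : ℝ) (k : ℕ) (u : ℤ × ℤ) : MeasurableSet {w | BadC r δ k u w} := by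
  by_cases hz : ∃ z, u = HalfAux.ctr k z
  · have : {w | BadC r δ k u w} = {w | ∀ x ∈ Bx u k, ∀ y, dst y u = 3 * k → ∀ q : Z2.Walk x y,
      (∀ v ∈ q.support, v ∈ Bx u (3 * k)) → r * l1 x y + δ ≤ wt w q}ᶜ := by
      ext w
      simp only [BadC, hz, true_and, Set.mem_ofPred_eq, Set.mem_compl_iff]
    rw [this]
    apply MeasurableSet.compl
    have h2 : {w : Sym2 (ℤ × ℤ) → ℝ | ∀ x ∈ Bx u k, ∀ y, dst y u = 3 * k → ∀ q : Z2.Walk x y,
      (∀ v ∈ q.support, v ∈ Bx u (3 * k)) → r * l1 x y + δ ≤ wt w q} =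
      ⋂ (x : ℤ × ℤ) (_ : x ∈ Bx u k) (y : ℤ × ℤ) (_ : dst y u = 3 * k) (q : Z2.Walk x y)
        (_ : ∀ v ∈ q.support, v ∈ Bx u (3 * k)), {w | r * l1 x y + δ ≤ wt w q} := by
      ext w
      simp only [Set.mem_ofPred_eq, Set.mem_iInter]
    rw [h2]
    refine MeasurableSet.iInter fun x => MeasurableSet.iInter fun _ => MeasurableSet.iInter fun y =>
      MeasurableSet.iInter fun _ => MeasurableSet.iInter fun q => MeasurableSet.iInter fun _ => ?_
    exact measurableSet_le measurable_const (measurable_wt q)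
  · have : {w | BadC r δ k u w} = ∅ := by
      ext w
      simp only [BadC, hz, false_and, Set.mem_ofPred_eq, Set.mem_empty_iff_false]
    rw [this]
    exact MeasurableSet.empty

lemma ctr_far {k : ℕ} {z z' : ℤ × ℤ} (hs : Same z z') (hne : z ≠ z') :
    6 * k + 3 ≤ dst (HalfAux.ctr k z) (HalfAux.ctr k z') := by
  have h : z.1 ≠ z'.1 ∨ z.2 ≠ z'.2 := by
    by_contra hc
    push Not at hc
    exact hne (Prod.ext hc.1 hc.2)
  obtain ⟨h1, h2⟩ := hs
  have key : ∀ a b : ℤ, a % 3 = b % 3 → a ≠ b →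
      6 * k + 3 ≤ ((2 * (k : ℤ) + 1) * a - (2 * k + 1) * b).natAbs := by
    intro a b hab hne
    have h3 : 3 ≤ (a - b).natAbs := by omega
    have h4 : ((2 * (k : ℤ) + 1) * a - (2 * k + 1) * b).natAbs = (2 * k + 1) * (a - b).natAbs := by
      rw [← mul_sub, Int.natAbs_mul]
      congr 1
    rw [h4]
    nlinarith
  unfold dst HalfAux.ctr
  rcases h with h | h
  · exact (key _ _ h1 h).trans (le_max_left _ _)
  · exact (key _ _ h2 h).trans (le_max_right _ _)

section
variable {Ω : Type} [MeasurableSpace Ω] {P : Measure Ω} [IsProbabilityMeasure P]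
  {W : Z2.edgeSet → Ω → ℝ}

lemma prob_class (hm : ∀ e, Measurable (W e)) (hind : iIndepFun W P) {r δ : ℝ} {k : ℕ} {p : ℝ}
    (hp0 : 0 ≤ p) (hgood : ∀ z : ℤ × ℤ, P.real {ω | ¬ BlkGood (ext W ω) r δ k z} ≤ p)
    (T : Finset (ℤ × ℤ)) (hT : ∀ z ∈ T, ∀ z' ∈ T, Same z z') :
    P.real {ω | ∀ z ∈ T, ¬ BlkGood (ext W ω) r δ k z} ≤ p ^ T.card := by
  have h1 : ∀ u, P.real {ω | BadC r δ k u (ext W ω)} ≤ p := by
    intro u
    by_cases hz : ∃ z, u = HalfAux.ctr k z
    · obtain ⟨z, rfl⟩ := hz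
      have : {ω | BadC r δ k (HalfAux.ctr k z) (ext W ω)} =
          {ω | ¬ BlkGood (ext W ω) r δ k z} := by
        ext ω
        exact badC_ctr
      rw [this]
      exact hgood z
    · have : {ω | BadC r δ k u (ext W ω)} = ∅ := by
        ext ω
        simp only [BadC, hz, false_and, Set.mem_ofPred_eq, Set.mem_empty_iff_false]
      rw [this]
      simpa using hp0
  have h2 := prob_pairwise hm hind (badC_loc r δ k) (badC_meas r δ k) h1
    (T.toList.map (HalfAux.ctr k)) ?_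
  · rw [List.length_map, Finset.length_toList] at h2
    refine le_trans (le_of_eq ?_) h2
    congr 1
    ext ω
    simp only [Set.mem_ofPred_eq, List.mem_map, Finset.mem_toList, forall_exists_index, and_imp,
      forall_apply_eq_imp_iff₂, badC_ctr]
  · rw [List.pairwise_map]
    have h3 : T.toList.Pairwise (fun a b => a ≠ b) := T.nodup_toList
    refine h3.imp_of_mem ?_
    intro a b ha hb hab
    rw [Finset.mem_toList] at ha hb
    have := ctr_far (k := k) (hT a ha b hb) hab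
    omega

end

lemma dst_tri' (a b c : ℤ × ℤ) : dst a c ≤ dst a b + dst b c := dst_tri a b c

lemma l1_le_length {x y : ℤ × ℤ} (q : Z2.Walk x y) : l1 x y ≤ q.length := by
  have := OrGeoAux.l1_getVert q q.length 0 (by omega)
  rwa [zero_add, q.getVert_zero, q.getVert_length] at this

/-- Class of a block. -/
def cls (z : ℤ × ℤ) : ℤ × ℤ := (z.1 % 3, z.2 % 3)

/-- Pigeonhole for the nine classes. -/
lemma exists_class (V : Finset (ℤ × ℤ)) : ∃ T ⊆ V, V.card ≤ 9 * T.card ∧
    ∀ z ∈ T, ∀ z' ∈ T, Same z z' := by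
  classical
  set K : Finset (ℤ × ℤ) := Finset.Icc 0 2 ×ˢ Finset.Icc 0 2 with hK
  have hKc : K.card = 9 := by
    rw [hK, Finset.card_product]
    simp
  have hmaps : ∀ z ∈ V, cls z ∈ K := by
    intro z _
    rw [hK, Finset.mem_product, Finset.mem_Icc, Finset.mem_Icc]
    unfold cls
    simp only
    omega
  by_contra hcon
  push Not at hcon
  have h1 : ∀ c ∈ K, 9 * (V.filter (fun z => cls z = c)).card < V.card := by
    intro c _
    by_contra hle
    push Not at hle
    obtain ⟨z, hz, z', hz', hne⟩ := hcon _ (Finset.filter_subset _ _) hle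
    rw [Finset.mem_filter] at hz hz'
    apply hne
    have := hz.2.trans hz'.2.symm
    unfold cls at this
    rw [Prod.mk.injEq] at this
    exact this
  have h2 : V.card = ∑ c ∈ K, (V.filter (fun z => cls z = c)).card :=
    Finset.card_eq_sum_card_fiberwise hmaps
  have h3 : ∑ c ∈ K, 9 * (V.filter (fun z => cls z = c)).card < ∑ c ∈ K, V.card := by
    apply Finset.sum_lt_sum_of_nonempty
    · rw [← Finset.card_pos, hKc]; norm_num
    · exact h1
  rw [← Finset.mul_sum, ← h2, Finset.sum_const, hKc, smul_eq_mul] at h3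
  exact lt_irrefl _ h3

/-- Removing the blocks near a point from a class. -/
lemma remove_near {k : ℕ} (T : Finset (ℤ × ℤ)) (hT : ∀ z ∈ T, ∀ z' ∈ T, Same z z') (x : ℤ × ℤ) :
    ∃ T' ⊆ T, T.card ≤ T'.card + 1 ∧ ∀ z ∈ T', 3 * k ≤ dst x (HalfAux.ctr k z) := by
  classical
  refine ⟨T.filter (fun z => 3 * k ≤ dst x (HalfAux.ctr k z)), Finset.filter_subset _ _, ?_,
    fun z hz => (Finset.mem_filter.1 hz).2⟩
  have h1 : (T.filter (fun z => ¬ 3 * k ≤ dst x (HalfAux.ctr k z))).card ≤ 1 := by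
    rw [Finset.card_le_one]
    intro a ha b hb
    rw [Finset.mem_filter] at ha hb
    by_contra hne
    have h2 := ctr_far (k := k) (hT a ha.1 b hb.1) hne
    have h3 := dst_tri' (HalfAux.ctr k a) x (HalfAux.ctr k b)
    rw [dst_comm (HalfAux.ctr k a) x] at h3
    omega
  have h2 := Finset.card_filter_add_card_filter_not (s := T)
    (fun z => 3 * k ≤ dst x (HalfAux.ctr k z))
  omega

/-- Deterministic part. -/
lemma det {w : Sym2 (ℤ × ℤ) → ℝ} (hw0 : ∀ e, 0 ≤ w e) {r δ : ℝ} (hr : 0 < r) (hδ : 0 < δ)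
    (hw : ∀ e ∈ Z2.edgeSet, r ≤ w e) {k : ℕ} {x y : ℤ × ℤ} (q : Z2.Walk x y) {G : ℤ × ℤ → Prop}
    (hG : ∀ z, G z → BlkGood w r δ k z) :
    r * l1 x y + 2 * δ * (gcount G k q / 9 - 2) ≤ wt w q := by
  classical
  obtain ⟨T, hTV, hTc, hTs⟩ := exists_class ((vis k q).filter G)
  obtain ⟨T₁, hT₁, hT₁c, hx⟩ := remove_near (k := k) T hTs x
  obtain ⟨T₂, hT₂, hT₂c, hy⟩ := remove_near (k := k) T₁
    (fun z hz z' hz' => hTs z (hT₁ hz) z' (hT₁ hz')) y
  have hg : gcount G k q ≤ 9 * (T₂.card + 2) := by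
    have : gcount G k q = ((vis k q).filter G).card := by
      unfold gcount
      congr
    omega
  have hin : ∀ z ∈ T₂, z ∈ vis k q ∧ G z := fun z hz =>
    Finset.mem_filter.1 (hTV (hT₁ (hT₂ hz)))
  set w' : Sym2 (ℤ × ℤ) → ℝ := fun e => if ∃ z ∈ T₂, ∀ v ∈ e, v ∈ OB k z then min r (w e) else w e
    with hw'
  obtain ⟨p', -, hp'⟩ := improve (w := w) (w' := w') hw0 hr.le T₂
    (fun z hz z' hz' => hTs z (hT₁ (hT₂ hz)) z' (hT₁ (hT₂ hz')))
    (fun z hz => hG z (hin z hz).2)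
    (fun e _ => by
      simp only [hw']
      split_ifs
      · exact min_le_right _ _
      · exact le_refl _)
    (fun z hz e _ hv => by
      have : ∃ z ∈ T₂, ∀ v ∈ e, v ∈ OB k z := ⟨z, hz, hv⟩
      simp only [hw', this, if_true]
      exact min_le_left _ _)
    q (fun z hz => hx z (hT₂ hz)) hy
    (fun z hz => by
      have h1 := (hin z hz).1
      unfold vis at h1
      rw [Finset.mem_image] at h1
      obtain ⟨v, hv, hvz⟩ := h1
      rw [List.mem_toFinset] at hv
      refine ⟨v, hv, ?_⟩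
      obtain ⟨a1, a2, a3, a4⟩ := HalfAux.blk_spec k v
      rw [hvz] at a1 a2 a3 a4
      show dst v (HalfAux.ctr k z) ≤ k
      unfold dst
      omega)
  have h1 : r * p'.length ≤ wt w' p' := by
    apply OrGeoAux.wt_ge_len
    intro e he
    simp only [hw']
    split_ifs
    · exact le_min le_rfl (hw e he)
    · exact hw e he
  have h2 : ((l1 x y : ℕ) : ℝ) ≤ p'.length := by exact_mod_cast l1_le_length p'
  have h3 : r * (l1 x y : ℕ) ≤ r * p'.length := mul_le_mul_of_nonneg_left h2 hr.le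
  have h4 : ((gcount G k q : ℕ) : ℝ) ≤ 9 * (T₂.card + 2) := by exact_mod_cast hg
  have h5 : 2 * δ * ((gcount G k q : ℕ) / 9 - 2) ≤ 2 * δ * T₂.card := by
    apply mul_le_mul_of_nonneg_left _ (by linarith)
    linarith
  linarith

end SlopeGtAux

open SlopeGtAux

theorem slope_gt {Ω : Type} [MeasurableSpace Ω] {P : Measure Ω} [IsProbabilityMeasure P]
    {F : Measure ℝ} [IsProbabilityMeasure F] {W : Z2.edgeSet → Ω → ℝ}
    (hm : ∀ e, Measurable (W e)) (hind : iIndepFun W P) (hF : ∀ e, P.map (W e) = F)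
    {r δ : ℝ} (hr : 0 < r) (hW : ∀ e ω, r ≤ W e ω) (hδ : 0 < δ) {k : ℕ} (hk : 1 ≤ k)
    (hgood : ∀ z : ℤ × ℤ, P.real {ω | ¬ BlkGood (ext W ω) r δ k z} ≤ (1 / 64 : ℝ) ^ 18)
    {μ : ℝ} (hμ : TendstoInMeasure P (fun (n : ℕ) ω => passageTime (ext W ω) 0 (pt n 0) / n) atTop
      (fun _ => μ)) : 2 * r < μ := by
  by_contra hcon
  push Not at hcon
  have h0 : ∀ e ω, 0 ≤ W e ω := fun e ω => hr.le.trans (hW e ω)
  have hw0 : ∀ ω e, 0 ≤ ext W ω e := fun ω e => LM.ext_nonneg h0 ω e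
  have hwr : ∀ ω, ∀ e ∈ Z2.edgeSet, r ≤ ext W ω e := by
    intro ω e he
    unfold ext
    rw [dif_pos he]
    exact hW _ _
  set s : ℝ := (2 * (k : ℝ) + 1) ^ 2 with hs
  have hs1 : 1 ≤ s := by
    have : (1 : ℝ) ≤ 2 * (k : ℝ) + 1 := by
      have : (0 : ℝ) ≤ k := Nat.cast_nonneg k
      linarith
    exact one_le_pow₀ this
  have hs0 : 0 < s := by linarith
  set κ : ℝ := δ / (9 * s) with hκ
  have hκ0 : 0 < κ := by positivity
  obtain ⟨K, hK⟩ := exists_nat_ge (2 + κ / r)
  obtain ⟨C, ρ, hC, hρ0, hρ1, hpei⟩ := block_peierls k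
  -- the two bad events
  have hE1 : Tendsto (fun n : ℕ => P.real {ω | ENNReal.ofReal κ ≤
      edist (passageTime (ext W ω) 0 (pt n 0) / n) μ}) atTop (𝓝 0) := by
    have h1 := hμ (ENNReal.ofReal κ) (by simpa using hκ0)
    have h2 := (ENNReal.tendsto_toReal ENNReal.zero_ne_top).comp h1
    rw [ENNReal.toReal_zero] at h2
    exact h2
  have hE2 : Tendsto (fun n : ℕ => C * (2 * ((K * n : ℕ) : ℝ) + 1) ^ 2 * ρ ^ (2 * n)) atTop (𝓝 0) := by
    have h1 : Tendsto (fun n : ℕ => (n : ℝ) ^ 2 * (ρ ^ 2) ^ n) atTop (𝓝 0) :=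
      tendsto_pow_const_mul_const_pow_of_lt_one 2 (by positivity) (by nlinarith)
    have h2 : Tendsto (fun n : ℕ => (C * (2 * K + 1) ^ 2) * ((n : ℝ) ^ 2 * (ρ ^ 2) ^ n)) atTop
        (𝓝 ((C * (2 * K + 1) ^ 2) * 0)) := h1.const_mul _
    rw [mul_zero] at h2
    refine squeeze_zero' (Eventually.of_forall fun n => by positivity) ?_ h2
    filter_upwards [eventually_ge_atTop 1] with n hn
    have hn' : (1 : ℝ) ≤ n := by exact_mod_cast hn
    have h3 : 2 * ((K * n : ℕ) : ℝ) + 1 ≤ (2 * K + 1) * n := by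
      push_cast
      linarith
    have h4 : (2 * ((K * n : ℕ) : ℝ) + 1) ^ 2 ≤ ((2 * K + 1) * n) ^ 2 :=
      pow_le_pow_left₀ (by positivity) h3 2
    calc C * (2 * ((K * n : ℕ) : ℝ) + 1) ^ 2 * ρ ^ (2 * n)
        ≤ C * ((2 * K + 1) * n) ^ 2 * ρ ^ (2 * n) := by gcongr
      _ = (C * (2 * K + 1) ^ 2) * ((n : ℝ) ^ 2 * (ρ ^ 2) ^ n) := by
          rw [← pow_mul]; ring
  obtain ⟨N₀, hN₀⟩ := exists_nat_ge (36 * s + 1)
  have hev := ((hE1.add hE2).eventually (gt_mem_nhds (show (0 : ℝ) + 0 < 1 by norm_num))).and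
    (eventually_ge_atTop (max N₀ 1))
  obtain ⟨n, hn1, hn2⟩ := hev.exists
  have hnN : (36 * s + 1 : ℝ) ≤ n := hN₀.trans (by exact_mod_cast (le_max_left _ _).trans hn2)
  have hn0 : (0 : ℝ) < n := by linarith
  -- a configuration outside the two bad events
  have hpe := hpei (Ω := Ω) (fun E => P.real {ω | E ω}) (fun E => measureReal_nonneg)
    (fun E => measureReal_le_one) (fun E E' h => measureReal_mono h)
    (fun s E => by
      have : {ω | ∃ i ∈ s, E i ω} = ⋃ i ∈ s, {ω | E i ω} := by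
        ext ω
        simp
      rw [this]
      exact measureReal_biUnion_finset_le s _) Set.univ
    (fun z ω => BlkGood (ext W ω) r δ k z)
    (fun T _ hT => prob_class hm hind (by positivity) hgood T hT) (K * n) (2 * n)
  have hex : ∃ ω, ¬ (ENNReal.ofReal κ ≤ edist (passageTime (ext W ω) 0 (pt n 0) / n) μ) ∧
      ¬ (∃ (x y : ℤ × ℤ) (q : Z2.Walk x y), q.IsPath ∧
        (∀ v ∈ q.support, v ∈ box (K * n) ∧ HalfAux.blk k v ∈ (Set.univ : Set (ℤ × ℤ))) ∧
        2 * n ≤ q.length ∧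
        2 * (2 * k + 1) ^ 2 * gcount (fun z => BlkGood (ext W ω) r δ k z) k q < q.length) := by
    by_contra hno
    push Not at hno
    have hcov : (Set.univ : Set Ω) ⊆ {ω | ENNReal.ofReal κ ≤
        edist (passageTime (ext W ω) 0 (pt n 0) / n) μ} ∪
        {ω | ∃ (x y : ℤ × ℤ) (q : Z2.Walk x y), q.IsPath ∧
        (∀ v ∈ q.support, v ∈ box (K * n) ∧ HalfAux.blk k v ∈ (Set.univ : Set (ℤ × ℤ))) ∧
        2 * n ≤ q.length ∧
        2 * (2 * k + 1) ^ 2 * gcount (fun z => BlkGood (ext W ω) r δ k z) k q < q.length} := by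
      intro ω _
      by_cases h : ENNReal.ofReal κ ≤ edist (passageTime (ext W ω) 0 (pt n 0) / n) μ
      · exact Or.inl h
      · right
        exact hno ω (not_le.1 h)
    have h1 := measureReal_mono (μ := P) hcov
    have h2 := h1.trans (measureReal_union_le _ _)
    rw [probReal_univ] at h2
    linarith
  obtain ⟨ω, hω1, hω2⟩ := hex
  -- an almost optimal path
  have hpt : passageTime (ext W ω) 0 (pt n 0) < (2 * r + κ) * n := by
    rw [not_le, edist_dist, ENNReal.ofReal_lt_ofReal_iff hκ0, Real.dist_eq] at hω1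
    have h1 := (abs_lt.1 hω1).2
    have h2 : passageTime (ext W ω) 0 (pt n 0) / n < 2 * r + κ := by linarith
    rwa [div_lt_iff₀ hn0] at h2
  have hne : Nonempty (Z2.Walk 0 (pt n 0)) := by
    obtain ⟨q, -⟩ := LM.box_connected (R := n) (x := 0) (y := pt n 0) (by
      rw [mem_box]; simp) (by rw [mem_box]; unfold pt; simp)
    exact ⟨q⟩
  obtain ⟨q₀, hq₀⟩ := exists_lt_of_ciInf_lt hpt
  set q := q₀.bypass with hq
  have hqp : q.IsPath := q₀.bypass_isPath
  have hqw : wt (ext W ω) q < (2 * r + κ) * n := (wt_bypass_le (hw0 ω) q₀).trans_lt hq₀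
  have hlen : r * q.length ≤ wt (ext W ω) q := OrGeoAux.wt_ge_len q (hwr ω)
  have hl1 : l1 0 (pt n 0) = 2 * n := by
    unfold l1 pt
    simp
    omega
  have h2n : 2 * n ≤ q.length := by
    rw [← hl1]
    exact l1_le_length q
  have hKn : q.length ≤ K * n := by
    have h1 : r * q.length < (2 * r + κ) * n := hlen.trans_lt hqw
    have h2 : (2 * r + κ) * n ≤ r * (K * n) := by
      have : r * (2 + κ / r) ≤ r * K := mul_le_mul_of_nonneg_left hK hr.le
      have e : r * (2 + κ / r) = 2 * r + κ := by field_simp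
      rw [e] at this
      calc (2 * r + κ) * n ≤ (r * K) * n := mul_le_mul_of_nonneg_right this hn0.le
        _ = r * (K * n) := by ring
    have h3 : (q.length : ℝ) < K * n := lt_of_mul_lt_mul_left (h1.trans_le h2) hr.le
    exact_mod_cast h3.le
  have hbox : ∀ v ∈ q.support, v ∈ box (K * n) := by
    intro v hv
    have h1 := Greedy.dst_le_len (q.takeUntil v hv)
    have h2 := q.length_takeUntil_le_length hv
    rw [mem_box]
    unfold dst at h1
    simp only [Prod.fst_zero, Prod.snd_zero] at h1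
    omega
  have hgc : (q.length : ℝ) ≤ 2 * s * gcount (fun z => BlkGood (ext W ω) r δ k z) k q := by
    by_contra hlt
    push Not at hlt
    apply hω2
    refine ⟨0, pt n 0, q, hqp, fun v hv => ⟨hbox v hv, Set.mem_univ _⟩, h2n, ?_⟩
    rw [hs] at hlt
    exact_mod_cast hlt
  have hdet := det (hw0 ω) hr hδ (hwr ω) q (G := fun z => BlkGood (ext W ω) r δ k z)
    (fun z h => h)
  rw [hl1] at hdet
  set g : ℝ := (gcount (fun z => BlkGood (ext W ω) r δ k z) k q : ℝ) with hg
  have h2n' : (2 * n : ℝ) ≤ q.length := by exact_mod_cast h2n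
  have hgn : (n : ℝ) / s ≤ g := by
    rw [div_le_iff₀ hs0]
    linarith
  have h1 : 2 * δ * (n / s / 9 - 2) ≤ 2 * δ * (g / 9 - 2) := by
    apply mul_le_mul_of_nonneg_left _ (by linarith)
    linarith
  have h2 : 2 * δ * (n / s / 9 - 2) < κ * n := by
    have : ((2 * n : ℕ) : ℝ) = 2 * n := by push_cast; ring
    rw [this] at hdet
    linarith
  have h3 : κ * n = δ * (n / s / 9) := by
    rw [hκ]
    field_simp
  rw [h3] at h2
  have h4 : δ * (n / s / 9) < δ * 4 := by linarith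
  have h5 : (n : ℝ) / s / 9 < 4 := lt_of_mul_lt_mul_left h4 hδ.le
  have h6 : (n : ℝ) < 36 * s := by
    rw [div_div, div_lt_iff₀ (by positivity)] at h5
    linarith
  linarith

end Pool.Agent.Helper33_FPP
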