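import Pool.Agent.Helper33_FPP.Reduce
import Pool.Agent.Helper33_FPP.LowUnif
import Pool.Agent.Helper33_FPP.CaseA
import Pool.Agent.Helper33_FPP.OrExp
import Pool.Agent.Helper33_FPP.OrBlk
import Pool.Agent.Helper33_FPP.SlopeGt

/-!
# Slope equal to the infimum of the support
-/

set_option autoImplicit false

open MeasureTheory ProbabilityTheory Filter Topology

namespace Pool.Agent.Helper33_FPP

/-- All weights equal to `r`. -/
theorem no_square_const {Ω : Type} [MeasurableSpace Ω] {P : Measure Ω} [IsProbabilityMeasure P]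
    {F : Measure ℝ} [IsProbabilityMeasure F] {W : Z2.edgeSet → Ω → ℝ}
    (hm : ∀ e, Measurable (W e)) (hF : ∀ e, P.map (W e) = F)
    {r : ℝ} (hr : 0 < r) (hW : ∀ e ω, r ≤ W e ω) (hp : F.real {r} = 1)
    (hμ : TendstoInMeasure P
      (fun (n : ℕ) ω => passageTime (ext W ω) 0 (n • ((1, 0) : ℤ × ℤ)) / n) atTop
      (fun _ => 2 * r)) : False := by
  have hae : ∀ᵐ ω ∂P, ∀ e, W e ω = r := by
    rw [ae_all_iff]
    intro e
    have h1 : P.real (W e ⁻¹' {r}) = 1 := by
      rw [← map_measureReal_apply (hm e) (MeasurableSet.singleton r), hF e, hp]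
    have h2 : MeasurableSet (W e ⁻¹' {r}) := hm e (MeasurableSet.singleton r)
    have h3 : P (W e ⁻¹' {r}) = 1 := by
      rw [measureReal_def] at h1
      rw [← ENNReal.ofReal_toReal (measure_ne_top P (W e ⁻¹' {r})), h1, ENNReal.ofReal_one]
    have h4 := (prob_compl_eq_zero_iff h2).2 h3
    rw [ae_iff]
    exact h4
  have h1 := hμ (ENNReal.ofReal r) (by simpa using hr)
  have h2 : ∀ᶠ n : ℕ in atTop, P {ω | ENNReal.ofReal r ≤
      edist (passageTime (ext W ω) 0 (n • ((1, 0) : ℤ × ℤ)) / n) (2 * r)} = 1 := by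
    filter_upwards [eventually_ge_atTop 1] with n hn
    have h3 : ∀ᵐ ω ∂P, ω ∈ {ω | ENNReal.ofReal r ≤
        edist (passageTime (ext W ω) 0 (n • ((1, 0) : ℤ × ℤ)) / n) (2 * r)} := by
      filter_upwards [hae] with ω hω
      have hn' : (0 : ℝ) < n := by exact_mod_cast hn
      have h4 : passageTime (ext W ω) 0 (n • ((1, 0) : ℤ × ℤ)) ≤ r * n := by
        apply passageTime_axis_le
        · intro e
          unfold ext
          split_ifs with h
          · rw [hω]
            exact hr.le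
          · exact le_rfl
        · intro e
          unfold ext
          split_ifs with h
          · rw [hω]
          · exact hr.le
      have h5 : passageTime (ext W ω) 0 (n • ((1, 0) : ℤ × ℤ)) / n ≤ r := by
        rw [div_le_iff₀ hn']
        exact h4
      change ENNReal.ofReal r ≤
        edist (passageTime (ext W ω) 0 (n • ((1, 0) : ℤ × ℤ)) / n) (2 * r)
      rw [edist_dist, Real.dist_eq]
      apply ENNReal.ofReal_le_ofReal
      rw [le_abs]
      right
      linarith
    rw [← measure_univ (μ := P)]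
    apply measure_congr
    filter_upwards [h3] with ω hω
    exact propext ⟨fun _ => trivial, fun _ => hω⟩
  have h6 : Tendsto (fun n : ℕ => P {ω | ENNReal.ofReal r ≤
      edist (passageTime (ext W ω) 0 (n • ((1, 0) : ℤ × ℤ)) / n) (2 * r)}) atTop (𝓝 1) :=
    tendsto_const_nhds.congr' (h2.mono fun n hn => hn.symm)
  have h7 := tendsto_nhds_unique h1 h6
  norm_num at h7

/-- **No square**, case of an atom at the infimum `r > 0`, slope `r`. -/
theorem no_square_III {Ω : Type} [MeasurableSpace Ω] {P : Measure Ω} [IsProbabilityMeasure P]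
    {F : Measure ℝ} [IsProbabilityMeasure F] {W : Z2.edgeSet → Ω → ℝ}
    (hm : ∀ e, Measurable (W e)) (hind : iIndepFun W P) (hF : ∀ e, P.map (W e) = F)
    {r : ℝ} (hr : 0 < r) (hW : ∀ e ω, r ≤ W e ω) (hFr : F (Set.Iio r) = 0)
    (hatom : 0 < F.real {r})
    (hμ : ∀ z : ℤ × ℤ, TendstoInMeasure P (fun (n : ℕ) ω => passageTime (ext W ω) 0 (n • z) / n)
      atTop (fun _ => r * ((|A z| + |B z| : ℤ) : ℝ))) : False := by
  have h0 : ∀ e ω, 0 ≤ W e ω := fun e ω => hr.le.trans (hW e ω)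
  have hlow : F.real (Set.Iio r) ≤ 0 := by
    rw [measureReal_def, hFr, ENNReal.toReal_zero]
  have hp1 : F.real {r} ≤ 1 := measureReal_le_one
  rcases hp1.eq_or_lt with hp | hp
  · refine no_square_const hm hF hr hW hp ?_
    have h1 := hμ (1, 0)
    have h2 : r * ((|A (1, 0)| + |B (1, 0)| : ℤ) : ℝ) = 2 * r := by
      unfold A B
      norm_num
      ring
    rwa [h2] at h1
  obtain ⟨p, hpdef⟩ : ∃ p : ℝ, p = F.real {r} := ⟨_, rfl⟩
  rw [← hpdef] at hatom hp
  have hε : 0 < p ^ 3 * (1 - p) ^ 2 := by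
    have : 0 < 1 - p := by linarith
    positivity
  by_cases hb : ∃ n M : ℕ, 1 ≤ n ∧ 2 * mr p n M ≤ (1 - p ^ 3 * (1 - p) ^ 2) * n
  · -- no long oriented open paths
    obtain ⟨n, M, hn, hmr⟩ := hb
    obtain ⟨C, ρ, hC, hρ0, hρ1, hdec⟩ := or_decay hatom.le hp.le hε hn hmr
    rw [hpdef] at hdec hε
    obtain ⟨k, hk, δ, hδ, hgood⟩ := or_block hm hind hF hr hW hε hC hρ0 hρ1 hn hdec
      (η := (1 / 64 : ℝ) ^ 18) (by positivity)
    have h1 := hμ (1, 1)
    have h11 : r * ((|A (1, 1)| + |B (1, 1)| : ℤ) : ℝ) = 2 * r := by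
      unfold A B
      norm_num
      ring
    rw [h11] at h1
    have hdiag : ∀ n : ℕ, (n • ((1, 1) : ℤ × ℤ)) = pt n 0 := by
      intro n
      unfold pt
      apply Prod.ext <;> simp
    simp only [hdiag] at h1
    exact absurd (slope_gt hm hind hF hr hW hδ hk hgood h1) (lt_irrefl _)
  · push Not at hb
    refine case_a hm hind hF hr hW hpdef.symm hatom hp ?_ (fun n M hn => (hb n M hn).le)
    intro ε hε'
    obtain ⟨C₀, b₀, hC₀, hml⟩ := mean_low' hm hind hF h0 le_rfl (by norm_num : (0 : ℝ) < 1 / 2) hr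
      hlow hμ
    obtain ⟨b, hb0, hbr, hbe⟩ : ∃ b : ℝ, b₀ ≤ b ∧ r ≤ b ∧
        Real.exp (-Real.sqrt b / C₀) ≤ min r (ε / 128) := by
      have h1 : Tendsto (fun b : ℝ => Real.exp (-Real.sqrt b / C₀)) atTop (𝓝 0) := by
        have h2 : Tendsto (fun b : ℝ => Real.sqrt b / C₀) atTop atTop :=
          Real.tendsto_sqrt_atTop.atTop_div_const hC₀
        have h3 := Real.tendsto_exp_neg_atTop_nhds_zero.comp h2
        refine h3.congr (fun b => ?_)
        simp only [Function.comp]
        rw [neg_div]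
      have h4 := h1.eventually (gt_mem_nhds (show 0 < min r (ε / 128) by positivity))
      obtain ⟨b₁, h5, h6⟩ := (h4.and (eventually_ge_atTop (max b₀ r))).exists
      exact ⟨b₁, (le_max_left _ _).trans h6, (le_max_right _ _).trans h6, h5.le⟩
    obtain ⟨e, hedef⟩ : ∃ e : ℝ, e = Real.exp (-Real.sqrt b / C₀) := ⟨_, rfl⟩
    have he0 : 0 < e := by
      rw [hedef]
      exact Real.exp_pos _
    have her : e ≤ r := by
      rw [hedef]
      exact hbe.trans (min_le_left _ _)
    have heε : e ≤ ε / 128 := by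
      rw [hedef]
      exact hbe.trans (min_le_right _ _)
    obtain ⟨n₀, hn₀⟩ := low_unif hm hind hF hr hW (c := r - e) (b := b) (by linarith) hbr
      (fun R x hx y hy => by
        have h1 := hml b hb0 R x hx y hy
        rw [← hedef] at h1
        linarith) (ε := ε / 2) (by linarith)
    refine ⟨n₀, fun n hn => ?_⟩
    refine le_trans (measureReal_mono ?_ (measure_ne_top P _)) ((hn₀ n hn).trans (by linarith))
    rintro ω ⟨x, hx, y, hy, hlt⟩
    refine ⟨x, hx, y, hy, ?_⟩
    have h1 : TT (ext (Wb W b) ω) (box (8 * n)) x y ≤ TT (ext W ω) (box (8 * n)) x y := by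
      obtain ⟨q, hq, -⟩ := box_walk hx hy
      unfold TT
      have hne : {c : ℝ | ∃ p : Z2.Walk x y, IsIn (box (8 * n) : Set (ℤ × ℤ)) p ∧
          wt (ext W ω) p = c}.Nonempty := ⟨_, q, hq, rfl⟩
      apply le_csInf hne
      rintro _ ⟨q', hq', rfl⟩
      have hbdd : BddBelow {c : ℝ | ∃ p : Z2.Walk x y, IsIn (box (8 * n) : Set (ℤ × ℤ)) p ∧
          wt (ext (Wb W b) ω) p = c} := by
        refine ⟨0, ?_⟩
        rintro _ ⟨q'', _, rfl⟩
        apply wt_nonneg
        intro e'
        unfold ext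
        split_ifs with h
        · exact le_max_left _ _
        · exact le_rfl
      refine (csInf_le hbdd ⟨q', hq', rfl⟩).trans ?_
      apply wt_mono
      intro e'
      unfold ext
      split_ifs with h
      · exact max_le (h0 _ _) (min_le_left _ _)
      · exact le_rfl
    have h2 : ((|(A x - A y : ℤ)| + |(B x - B y : ℤ)| : ℤ) : ℝ) ≤ 64 * n := by
      have h7 := QAux.abs_A_le hx hy
      have h8 : ((|(A x - A y : ℤ)| + |(B x - B y : ℤ)| : ℤ) : ℝ) ≤ 8 * ((8 * n : ℕ) : ℝ) := by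
        exact_mod_cast h7
      push_cast at h8 ⊢
      linarith
    have h3 : 0 ≤ ((|(A x - A y : ℤ)| + |(B x - B y : ℤ)| : ℤ) : ℝ) := by
      have : (0 : ℤ) ≤ |(A x - A y : ℤ)| + |(B x - B y : ℤ)| := by positivity
      exact_mod_cast this
    have h4 : e * ((|(A x - A y : ℤ)| + |(B x - B y : ℤ)| : ℤ) : ℝ) ≤ ε / 128 * (64 * n) :=
      mul_le_mul heε h2 h3 (by linarith)
    have h5 : (r - e) * ((|(A x - A y : ℤ)| + |(B x - B y : ℤ)| : ℤ) : ℝ) =
        r * ((|(A x - A y : ℤ)| + |(B x - B y : ℤ)| : ℤ) : ℝ) -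
          e * ((|(A x - A y : ℤ)| + |(B x - B y : ℤ)| : ℤ) : ℝ) := by ring
    change TT (ext (Wb W b) ω) (box (8 * n)) x y < (r - e) * _ - ε / 2 * n
    rw [h5]
    have h6 : TT (ext W ω) (box (8 * n)) x y <
      r * ((|(A x - A y : ℤ)| + |(B x - B y : ℤ)| : ℤ) : ℝ) - ε * n := hlt
    linarith

end Pool.Agent.Helper33_FPP
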