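import Pool.Agent.Helper33_FPP.Orient

/-!
# The enhanced process: open paths
-/

set_option autoImplicit false

namespace Pool.Agent.Helper33_FPP

open Finset

namespace EnhPathAux

/-- There is an open walk from the half-line to `v` of length at most `l`. -/
def Rch (O : Sym2 (ℤ × ℤ) → Prop) (v : ℤ × ℤ) (l : ℕ) : Prop :=
  ∃ u ∈ HL 0 0, ∃ q : Z2.Walk u v, (∀ e ∈ q.edges, O e) ∧ q.length ≤ l

theorem Rch.mono {O : Sym2 (ℤ × ℤ) → Prop} {v : ℤ × ℤ} {l l' : ℕ} (h : Rch O v l) (hl : l ≤ l') :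
    Rch O v l' := by
  obtain ⟨u, hu, q, hq, hql⟩ := h
  exact ⟨u, hu, q, hq, hql.trans hl⟩

theorem Rch.step {O : Sym2 (ℤ × ℤ) → Prop} {v w : ℤ × ℤ} {l : ℕ} (h : Rch O v l)
    (hadj : Z2.Adj v w) (hO : O s(v, w)) : Rch O w (l + 1) := by
  obtain ⟨u, hu, q, hq, hql⟩ := h
  refine ⟨u, hu, q.concat hadj, ?_, ?_⟩
  · intro e he
    rw [SimpleGraph.Walk.edges_concat, List.concat_eq_append, List.mem_append] at he
    rcases he with he | he
    · exact hq e he
    · rw [List.mem_singleton] at he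
      rw [he]; exact hO
  · rw [SimpleGraph.Walk.length_concat]
    omega

theorem adj_e (a b : ℤ) : Z2.Adj (a, b) (a + 1, b) := by
  change (a - (a + 1)).natAbs + (b - b).natAbs = 1
  omega

theorem adj_n (a b : ℤ) : Z2.Adj (a, b) (a, b + 1) := by
  change (a - a).natAbs + (b - (b + 1)).natAbs = 1
  omega

theorem enh_sub (O : Sym2 (ℤ × ℤ) → Prop) (M : ℕ) : ∀ t : ℕ, ∀ v ∈ enh O M t,
    v.1 ≤ 2 * t ∧ A v = t := by
  intro t
  induction t with
  | zero =>
    intro v hv
    change A v = 0 ∧ v.1 ≤ 0 at hv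
    exact ⟨by push_cast; linarith [hv.2], by push_cast; exact hv.1⟩
  | succ t ih =>
    intro v hv
    rcases hv with hv | ⟨hG, hv⟩
    · rcases hv with ⟨hv, -⟩ | ⟨hv, -⟩
      · obtain ⟨h1, h2⟩ := ih _ hv
        unfold A at h2 ⊢
        push_cast
        simp only at h1 h2
        omega
      · obtain ⟨h1, h2⟩ := ih _ hv
        unfold A at h2 ⊢
        push_cast
        simp only at h1 h2
        omega
    · have hne := hG.1
      have hr : rmost (enh O M t) ≤ 2 * t := by
        apply csSup_le (hne.image _)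
        rintro _ ⟨u, hu, rfl⟩
        exact (ih u hu).1
      rw [hv]
      unfold A xadd
      push_cast
      omega

theorem rmost_mem {O : Sym2 (ℤ × ℤ) → Prop} {M t : ℕ} (hne : (enh O M t).Nonempty) :
    (rmost (enh O M t), (t : ℤ) - rmost (enh O M t)) ∈ enh O M t := by
  have hb : BddAbove (Prod.fst '' enh O M t) := by
    refine ⟨2 * t, ?_⟩
    rintro _ ⟨u, hu, rfl⟩
    exact (enh_sub O M t u hu).1
  obtain ⟨u, hu, hu1⟩ := Int.csSup_mem (hne.image Prod.fst) hb
  have h2 := (enh_sub O M t u hu).2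
  unfold A at h2
  have h3 : (rmost (enh O M t), (t : ℤ) - rmost (enh O M t)) = u := by
    unfold rmost
    rw [← hu1]
    ext
    · rfl
    · simp only
      omega
  rw [h3]; exact hu

/-- an open outgoing edge -/
def Out (O : Sym2 (ℤ × ℤ) → Prop) (v : ℤ × ℤ) : Prop :=
  O s(v, (v.1 + 1, v.2)) ∨ O s(v, (v.1, v.2 + 1))

theorem nused_le (O : Sym2 (ℤ × ℤ) → Prop) (M t : ℕ) : nused O M t ≤ nused O M (t + 1) := by
  classical
  unfold nused
  apply Finset.card_le_card
  intro i hi
  simp only [Finset.mem_filter, Finset.mem_range] at hi ⊢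
  exact ⟨by omega, hi.2⟩

theorem nused_succ {O : Sym2 (ℤ × ℤ) → Prop} {M t : ℕ} (h : usedAt O M t) :
    nused O M t + 1 ≤ nused O M (t + 1) := by
  classical
  unfold nused
  rw [Finset.range_add_one, Finset.filter_insert, if_pos h, Finset.card_insert_of_notMem (by simp)]

theorem main (O : Sym2 (ℤ × ℤ) → Prop) (M : ℕ) : ∀ t : ℕ, ∀ v ∈ enh O M t,
    Rch O v (t + 2 * nused O M t + 2) ∧ (Out O v → Rch O v (t + 2 * nused O M t)) := by
  intro t
  induction t with
  | zero =>
    intro v hv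
    have h0 : Rch O v 0 := ⟨v, hv, SimpleGraph.Walk.nil, by simp, by simp⟩
    exact ⟨h0.mono (Nat.zero_le _), fun _ => h0.mono (Nat.zero_le _)⟩
  | succ t ih =>
    intro v hv
    rcases hv with hv | ⟨hG, hv⟩
    · have key : Rch O v (t + 1 + 2 * nused O M (t + 1)) := by
        have hn := nused_le O M t
        rcases hv with ⟨hv, ho⟩ | ⟨hv, ho⟩
        · have h1 := (ih _ hv).2 (Or.inl (by
            have : (v.1 - 1 + 1, v.2) = v := by ext <;> simp
            simp only
            rw [this]; exact ho))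
          have h2 : Z2.Adj (v.1 - 1, v.2) v := by
            have := adj_e (v.1 - 1) v.2
            rwa [sub_add_cancel] at this
          exact (h1.step h2 ho).mono (by omega)
        · have h1 := (ih _ hv).2 (Or.inr (by
            have : (v.1, v.2 - 1 + 1) = v := by ext <;> simp
            simp only
            rw [this]; exact ho))
          have h2 : Z2.Adj (v.1, v.2 - 1) v := by
            have := adj_n v.1 (v.2 - 1)
            rwa [sub_add_cancel] at this
          exact (h1.step h2 ho).mono (by omega)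
      exact ⟨key.mono (by omega), fun _ => key⟩
    · obtain ⟨hne, hM, h1, h2, h3⟩ := hG
      obtain ⟨b, hb⟩ : ∃ b, b = rmost (enh O M t) := ⟨_, rfl⟩
      rw [← hb] at h1 h2 h3
      have hm := rmost_mem hne
      rw [← hb] at hm
      have h4 := (ih _ hm).2 (Or.inl h1)
      have h5 := h4.step (adj_e b ((t : ℤ) - b)) h1
      have h6 : Z2.Adj (b + 1, (t : ℤ) - b) (b + 1, (t : ℤ) - b - 1) := by
        have := (adj_n (b + 1) ((t : ℤ) - b - 1)).symm
        rwa [sub_add_cancel] at this
      have h7 := h5.step h6 (by rw [Sym2.eq_swap]; exact h2)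
      have h8 : Z2.Adj (b + 1, (t : ℤ) - b - 1) (b + 2, (t : ℤ) - b - 1) := by
        have := adj_e (b + 1) ((t : ℤ) - b - 1)
        rwa [show b + 1 + 1 = b + 2 by ring] at this
      have h9 := h7.step h8 h3
      have hv' : v = (b + 2, (t : ℤ) - b - 1) := by
        rw [hv, hb]; rfl
      rw [hv']
      have hn := nused_le O M t
      refine ⟨h9.mono (by omega), fun ho => ?_⟩
      have hu : usedAt O M t := by
        refine ⟨⟨hne, hM, ?_, ?_, ?_⟩, ?_⟩
        · rw [← hb]; exact h1
        · rw [← hb]; exact h2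
        · rw [← hb]; exact h3
        · unfold xadd
          rw [← hb]
          exact ho
      have hn' := nused_succ hu
      exact h9.mono (by omega)

end EnhPathAux

theorem enh_path {O : Sym2 (ℤ × ℤ) → Prop} {M n : ℕ} {v : ℤ × ℤ} (hv : v ∈ enh O M n) :
    v.1 ≤ 2 * n ∧ A v = n ∧ ∃ u ∈ HL 0 0, ∃ q : Z2.Walk u v, (∀ e ∈ q.edges, O e) ∧
      q.length ≤ n + 2 * (nused O M n + 1) := by
  obtain ⟨h1, h2⟩ := EnhPathAux.enh_sub O M n v hv
  obtain ⟨u, hu, q, hq, hl⟩ := (EnhPathAux.main O M n v hv).1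
  exact ⟨h1, h2, u, hu, q, hq, by omega⟩

end Pool.Agent.Helper33_FPP
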