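import Pool.Agent.Helper33_FPP.PeierlsHalfCore
import Pool.Agent.Helper33_FPP.AnnulusSmall

/-!
# Peierls bound for all low probabilities below one half
-/

set_option autoImplicit false

namespace Pool.Agent.Helper33_FPP

theorem peierls_half (p₀ : ℝ) (h0 : 0 ≤ p₀) (h1 : p₀ < 1 / 2) : ∃ θ : ℝ, 0 < θ ∧ θ ≤ 1 ∧
    ∃ ρ : ℝ, 0 < ρ ∧ ρ < 1 ∧ ∃ C : ℝ, 0 < C ∧
    ∀ (V : Type) [Fintype V] (p : V → ℝ) (val : V → ℝ) (hi : ℝ), IsProb p →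
      (∑ v, if val v < hi then p v else 0) ≤ p₀ → ∀ R m₀ : ℕ,
      Pr p (fun ω : EIdx R → V => ¬ PGood R m₀ θ hi (wOf val ω)) ≤
        C * (2 * R + 1) ^ 2 * ρ ^ m₀ :=
  peierls_half_of p₀ h0 h1 (annulus_small h0 h1 (by positivity))

end Pool.Agent.Helper33_FPP
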