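import Pool.Agent.Helper33_FPP.Net
import Pool.Agent.Helper33_FPP.Conc
import Pool.Agent.Helper33_FPP.PeierlsHalf

/-!
# The good event has overwhelming probability (module Q1)
-/

set_option autoImplicit false

namespace Pool.Agent.Helper33_FPP

open Finset

namespace QAux

theorem hstep (a b : ℤ) (n : ℕ) : ∃ p : Z2.Walk (a, b) (a + n, b), p.length = n ∧
    ∀ v ∈ p.support, v.2 = b ∧ a ≤ v.1 ∧ v.1 ≤ a + n := by
  induction n with
  | zero =>
    refine ⟨(SimpleGraph.Walk.nil : Z2.Walk (a, b) (a, b)).copy rfl (by simp), ?_, ?_⟩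
    · simp
    · intro v hv
      simp only [SimpleGraph.Walk.support_copy, SimpleGraph.Walk.support_nil,
        List.mem_singleton] at hv
      subst hv
      simp
  | succ n ih =>
    obtain ⟨p, hp, hs⟩ := ih
    refine ⟨p.concat (w := (a + ((n + 1 : ℕ) : ℤ), b)) ?_, ?_, ?_⟩
    · rw [Z2_adj_iff]
      push_cast
      simp
    · rw [SimpleGraph.Walk.length_concat, hp]
    · intro v hv
      rw [SimpleGraph.Walk.support_concat, List.mem_append, List.mem_singleton] at hv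
      rcases hv with h | rfl
      · obtain ⟨h1, h2, h3⟩ := hs v h
        refine ⟨h1, h2, ?_⟩
        push_cast
        linarith
      · refine ⟨rfl, ?_, le_rfl⟩
        push_cast
        linarith [(Nat.cast_nonneg n : (0 : ℤ) ≤ n)]

theorem vstep (a b : ℤ) (n : ℕ) : ∃ p : Z2.Walk (a, b) (a, b + n), p.length = n ∧
    ∀ v ∈ p.support, v.1 = a ∧ b ≤ v.2 ∧ v.2 ≤ b + n := by
  induction n with
  | zero =>
    refine ⟨(SimpleGraph.Walk.nil : Z2.Walk (a, b) (a, b)).copy rfl (by simp), ?_, ?_⟩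
    · simp
    · intro v hv
      simp only [SimpleGraph.Walk.support_copy, SimpleGraph.Walk.support_nil,
        List.mem_singleton] at hv
      subst hv
      simp
  | succ n ih =>
    obtain ⟨p, hp, hs⟩ := ih
    refine ⟨p.concat (w := (a, b + ((n + 1 : ℕ) : ℤ))) ?_, ?_, ?_⟩
    · rw [Z2_adj_iff]
      push_cast
      simp
    · rw [SimpleGraph.Walk.length_concat, hp]
    · intro v hv
      rw [SimpleGraph.Walk.support_concat, List.mem_append, List.mem_singleton] at hv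
      rcases hv with h | rfl
      · obtain ⟨h1, h2, h3⟩ := hs v h
        refine ⟨h1, h2, ?_⟩
        push_cast
        linarith
      · refine ⟨rfl, ?_, le_rfl⟩
        push_cast
        linarith [(Nat.cast_nonneg n : (0 : ℤ) ≤ n)]

theorem hseg (a a' b : ℤ) : ∃ p : Z2.Walk (a, b) (a', b), p.length = (a - a').natAbs ∧
    ∀ v ∈ p.support, v.2 = b ∧ min a a' ≤ v.1 ∧ v.1 ≤ max a a' := by
  rcases le_total a a' with h | h
  · obtain ⟨p, hp, hs⟩ := hstep a b (a' - a).toNat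
    have e : a + ((a' - a).toNat : ℤ) = a' := by omega
    refine ⟨p.copy rfl (by rw [e]), ?_, ?_⟩
    · rw [SimpleGraph.Walk.length_copy, hp]
      omega
    · intro v hv
      rw [SimpleGraph.Walk.support_copy] at hv
      obtain ⟨h1, h2, h3⟩ := hs v hv
      refine ⟨h1, ?_, ?_⟩ <;> omega
  · obtain ⟨p, hp, hs⟩ := hstep a' b (a - a').toNat
    have e : a' + ((a - a').toNat : ℤ) = a := by omega
    refine ⟨(p.copy rfl (by rw [e])).reverse, ?_, ?_⟩
    · rw [SimpleGraph.Walk.length_reverse, SimpleGraph.Walk.length_copy, hp]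
      omega
    · intro v hv
      rw [SimpleGraph.Walk.support_reverse, List.mem_reverse, SimpleGraph.Walk.support_copy] at hv
      obtain ⟨h1, h2, h3⟩ := hs v hv
      refine ⟨h1, ?_, ?_⟩ <;> omega

theorem vseg (a b b' : ℤ) : ∃ p : Z2.Walk (a, b) (a, b'), p.length = (b - b').natAbs ∧
    ∀ v ∈ p.support, v.1 = a ∧ min b b' ≤ v.2 ∧ v.2 ≤ max b b' := by
  rcases le_total b b' with h | h
  · obtain ⟨p, hp, hs⟩ := vstep a b (b' - b).toNat
    have e : b + ((b' - b).toNat : ℤ) = b' := by omega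
    refine ⟨p.copy rfl (by rw [e]), ?_, ?_⟩
    · rw [SimpleGraph.Walk.length_copy, hp]
      omega
    · intro v hv
      rw [SimpleGraph.Walk.support_copy] at hv
      obtain ⟨h1, h2, h3⟩ := hs v hv
      refine ⟨h1, ?_, ?_⟩ <;> omega
  · obtain ⟨p, hp, hs⟩ := vstep a b' (b - b').toNat
    have e : b' + ((b - b').toNat : ℤ) = b := by omega
    refine ⟨(p.copy rfl (by rw [e])).reverse, ?_, ?_⟩
    · rw [SimpleGraph.Walk.length_reverse, SimpleGraph.Walk.length_copy, hp]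
      omega
    · intro v hv
      rw [SimpleGraph.Walk.support_reverse, List.mem_reverse, SimpleGraph.Walk.support_copy] at hv
      obtain ⟨h1, h2, h3⟩ := hs v hv
      refine ⟨h1, ?_, ?_⟩ <;> omega

/-- An L-shaped walk in the box. -/
theorem lwalk {R : ℕ} {x y : ℤ × ℤ} (hx : x ∈ box R) (hy : y ∈ box R) :
    ∃ p : Z2.Walk x y, IsIn (box R) p ∧
      p.length = (x.1 - y.1).natAbs + (x.2 - y.2).natAbs := by
  obtain ⟨a, b⟩ := x
  obtain ⟨a', b'⟩ := y
  rw [mem_box] at hx hy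
  obtain ⟨p, hp, hps⟩ := hseg a a' b
  obtain ⟨q, hq, hqs⟩ := vseg a' b b'
  refine ⟨p.append q, ?_, ?_⟩
  · apply isIn_append
    · intro v hv
      obtain ⟨h1, h2, h3⟩ := hps v hv
      rw [Finset.mem_coe, mem_box]
      simp only at hx hy
      omega
    · intro v hv
      obtain ⟨h1, h2, h3⟩ := hqs v hv
      rw [Finset.mem_coe, mem_box]
      simp only at hx hy
      omega
  · rw [SimpleGraph.Walk.length_append, hp, hq]

/-- The edges of a walk, as indices. -/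
noncomputable def eset {R : ℕ} {x y : ℤ × ℤ} (q : Z2.Walk x y) : Finset (EIdx R) := by
  classical
  exact univ.filter (fun i => i.1 ∈ q.edges)

/-- The family of the edge sets of the self-avoiding walks with at most `k` edges. -/
noncomputable def fam (R k : ℕ) (x y : ℤ × ℤ) : Finset (Finset (EIdx R)) := by
  classical
  exact univ.filter (fun S => ∃ q : Z2.Walk x y, q.IsPath ∧ IsIn (box R) q ∧ q.length ≤ k ∧
    S = eset q)

theorem mem_fam {R k : ℕ} {x y : ℤ × ℤ} {S : Finset (EIdx R)} : S ∈ fam R k x y ↔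
    ∃ q : Z2.Walk x y, q.IsPath ∧ IsIn (box R) q ∧ q.length ≤ k ∧ S = eset q := by
  unfold fam
  simp

theorem wOf_coe {R : ℕ} {V : Type} (val : V → ℝ) (ω : EIdx R → V) (i : EIdx R) :
    wOf val ω i.1 = val (ω i) := by
  unfold wOf
  rw [dif_pos i.2]

theorem wOf_nonneg {R : ℕ} {V : Type} {val : V → ℝ} (h : ∀ v, 0 ≤ val v) (ω : EIdx R → V)
    (e : Sym2 (ℤ × ℤ)) : 0 ≤ wOf val ω e := by
  unfold wOf
  split_ifs
  · exact h _
  · exact le_rfl

theorem wOf_le {R : ℕ} {V : Type} {val : V → ℝ} {b : ℝ} (hb : 0 ≤ b) (h : ∀ v, val v ≤ b)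
    (ω : EIdx R → V) (e : Sym2 (ℤ × ℤ)) : wOf val ω e ≤ b := by
  unfold wOf
  split_ifs
  · exact h _
  · exact hb

theorem eset_image {R : ℕ} {x y : ℤ × ℤ} {q : Z2.Walk x y} (hq : IsIn (box R) q) :
    (eset q : Finset (EIdx R)).map ⟨Subtype.val, Subtype.val_injective⟩ = q.edges.toFinset := by
  ext e
  rw [Finset.mem_map, List.mem_toFinset]
  constructor
  · rintro ⟨i, hi, rfl⟩
    unfold eset at hi
    rw [mem_filter] at hi
    exact hi.2
  · intro he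
    have h1 : e ∈ edgesIn R := by
      rw [mem_edgesIn]
      refine ⟨fun v hv => ?_, q.edges_subset_edgeSet he⟩
      exact Finset.mem_coe.1 (hq v (q.mem_support_of_mem_edges he hv))
    refine ⟨⟨e, h1⟩, ?_, rfl⟩
    unfold eset
    rw [mem_filter]
    exact ⟨mem_univ _, he⟩

theorem card_eset {R : ℕ} {x y : ℤ × ℤ} {q : Z2.Walk x y} (hq : IsIn (box R) q) :
    (eset q : Finset (EIdx R)).card ≤ q.length := by
  have h := congrArg Finset.card (eset_image hq)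
  rw [Finset.card_map] at h
  rw [h, ← SimpleGraph.Walk.length_edges]
  exact List.toFinset_card_le _

theorem sum_eset {R : ℕ} {V : Type} (val : V → ℝ) (ω : EIdx R → V) {x y : ℤ × ℤ}
    {q : Z2.Walk x y} (hp : q.IsPath) (hq : IsIn (box R) q) :
    ∑ i ∈ eset q, val (ω i) = wt (wOf val ω) q := by
  unfold wt
  rw [← List.sum_toFinset _ hp.isTrail.edges_nodup, ← eset_image hq, Finset.sum_map]
  refine Finset.sum_congr rfl fun i _ => ?_
  exact (wOf_coe val ω i).symm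

theorem TT_le_minW {R k : ℕ} {V : Type} {val : V → ℝ} (h0 : ∀ v, 0 ≤ val v) (ω : EIdx R → V)
    {x y : ℤ × ℤ} (h : (fam R k x y).Nonempty) :
    TT (wOf val ω) (box R) x y ≤ minW (fam R k x y) h (fun i => val (ω i)) := by
  unfold minW
  apply Finset.le_inf'
  intro S hS
  obtain ⟨q, hp, hq, _, rfl⟩ := mem_fam.1 hS
  rw [sum_eset val ω hp hq]
  exact TT_le (wOf_nonneg h0 ω) hq

theorem minW_le {R k : ℕ} {V : Type} {val : V → ℝ} (ω : EIdx R → V)
    {x y : ℤ × ℤ} (h : (fam R k x y).Nonempty) {q : Z2.Walk x y} (hp : q.IsPath)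
    (hq : IsIn (box R) q) (hk : q.length ≤ k) :
    minW (fam R k x y) h (fun i => val (ω i)) ≤ wt (wOf val ω) q := by
  unfold minW
  rw [← sum_eset val ω hp hq]
  exact Finset.inf'_le _ (mem_fam.2 ⟨q, hp, hq, hk, rfl⟩)

theorem fam_nonempty {R k : ℕ} {x y : ℤ × ℤ} {q : Z2.Walk x y} (hp : q.IsPath)
    (hq : IsIn (box R) q) (hk : q.length ≤ k) : (fam R k x y).Nonempty :=
  ⟨_, mem_fam.2 ⟨q, hp, hq, hk, rfl⟩⟩

/-- Deviation of the restricted passage time. -/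
def Dev (R k : ℕ) {V : Type} [Fintype V] (p : V → ℝ) (val : V → ℝ) (t : ℝ)
    (z : (ℤ × ℤ) × (ℤ × ℤ)) (ω : EIdx R → V) : Prop :=
  ∃ h : (fam R k z.1 z.2).Nonempty, t ≤ |minW (fam R k z.1 z.2) h (fun i => val (ω i)) -
    Ex p (fun ω : EIdx R → V => minW (fam R k z.1 z.2) h (fun i => val (ω i)))|

theorem Pr_false {ι V : Type*} [Fintype ι] [DecidableEq ι] [Fintype V] (p : V → ℝ)
    {E : (ι → V) → Prop} (h : ∀ ω, ¬ E ω) : Pr p E = 0 := by
  classical
  rw [PeierlsAux.Pr_eq]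
  apply Finset.sum_eq_zero
  intro ω _
  rw [if_neg (h ω), mul_zero]

theorem Pr_dev {R k : ℕ} {V : Type} [Fintype V] {p : V → ℝ} (hp : IsProb p) {val : V → ℝ}
    {b : ℝ} (hb : 0 < b) (hval : ∀ v, 0 ≤ val v ∧ val v ≤ b) {t : ℝ} (ht : 0 ≤ t)
    (z : (ℤ × ℤ) × (ℤ × ℤ)) :
    Pr p (Dev R k p val t z) ≤ 4 * Real.exp (-(t / (2 * b * Real.sqrt (k + 1)))) := by
  by_cases h : (fam R k z.1 z.2).Nonempty
  · have hk : ∀ S ∈ fam R k z.1 z.2, S.card ≤ k := by
      intro S hS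
      obtain ⟨q, _, hq, hk, rfl⟩ := mem_fam.1 hS
      exact (card_eset hq).trans hk
    refine le_trans (PeierlsAux.Pr_mono hp ?_) (concentration hp hb hval _ h hk ht)
    rintro ω ⟨_, h1⟩
    exact h1
  · rw [Pr_false p (fun ω h1 => h h1.1)]
    positivity

/-- On the Peierls event the length of a self-avoiding walk is controlled by its weight. -/
theorem length_le {R m₀ k : ℕ} {θ hi W : ℝ} {w : Sym2 (ℤ × ℤ) → ℝ} (hw : ∀ e, 0 ≤ w e)
    (hθ : 0 < θ) (hhi : 0 < hi) (hG : PGood R m₀ θ hi w) (hm : m₀ ≤ k) (hk : W ≤ hi * θ * k)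
    {x y : ℤ × ℤ} {q : Z2.Walk x y} (hp : q.IsPath) (hq : IsIn (box R) q) (hW : wt w q ≤ W) :
    q.length ≤ k := by
  by_contra hcon
  push Not at hcon
  have h1 := hG x y q hp (fun v hv => Finset.mem_coe.1 (hq v hv)) (by omega)
  have h2 : hi * ((q.edges.filter (fun e => hi ≤ w e)).length : ℝ) ≤ wt w q := by
    unfold wt
    have h3 : ∀ l : List (Sym2 (ℤ × ℤ)),
        hi * ((l.filter (fun e => hi ≤ w e)).length : ℝ) ≤ (l.map w).sum := by
      intro l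
      induction l with
      | nil => simp
      | cons e l ih =>
        rw [List.filter_cons, List.map_cons, List.sum_cons]
        split_ifs with h
        · rw [List.length_cons]
          push_cast
          have : hi ≤ w e := by simpa using h
          nlinarith
        · have := hw e
          linarith
    exact h3 _
  have h4 : (k : ℝ) < q.length := by exact_mod_cast hcon
  have h5 : hi * (θ * q.length) ≤ wt w q := (mul_le_mul_of_nonneg_left h1 hhi.le).trans h2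
  have h6 : hi * θ * k < hi * θ * q.length := by
    apply mul_lt_mul_of_pos_left h4 (by positivity)
  nlinarith

theorem low_bound {R k m₀ : ℕ} {V : Type} [Fintype V] {p : V → ℝ} (hp : IsProb p)
    {val : V → ℝ} (h0 : ∀ v, 0 ≤ val v) {θ hi W t : ℝ} (hθ : 0 < θ) (hhi : 0 < hi) (ht : 0 ≤ t)
    (hm : m₀ ≤ k) (hk : W ≤ hi * θ * k) {x y : ℤ × ℤ} (hx : x ∈ box R) (hy : y ∈ box R)
    {ω : EIdx R → V} (hG : PGood R m₀ θ hi (wOf val ω)) (hdev : ¬ Dev R k p val t (x, y) ω)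
    (hmean : W - 2 ≤ Ex p (fun ω : EIdx R → V => TT (wOf val ω) (box R) x y)) :
    W - 2 - t ≤ TT (wOf val ω) (box R) x y := by
  by_contra hcon
  push Not at hcon
  have hw := wOf_nonneg h0 ω
  obtain ⟨l, hl, hll⟩ := lwalk hx hy
  obtain ⟨q, hq, hqw⟩ := exists_minPath hw (box R).finite_toSet hl
  have hlen : q.length ≤ k := length_le hw hθ hhi hG hm hk hq.1 hq.2.1 (by rw [hqw]; linarith)
  have hne : (fam R k x y).Nonempty := fam_nonempty hq.1 hq.2.1 hlen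
  have h1 := minW_le (val := val) ω hne hq.1 hq.2.1 hlen
  have h2 : Ex p (fun ω : EIdx R → V => TT (wOf val ω) (box R) x y) ≤
      Ex p (fun ω : EIdx R → V => minW (fam R k x y) hne (fun i => val (ω i))) :=
    ConcAux.Ex_mono hp.nonneg fun ω => TT_le_minW h0 ω hne
  have h3 : ¬ t ≤ |minW (fam R k x y) hne (fun i => val (ω i)) -
    Ex p (fun ω : EIdx R → V => minW (fam R k x y) hne (fun i => val (ω i)))| :=
    fun h => hdev ⟨hne, h⟩
  rw [not_le, abs_lt] at h3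
  rw [hqw] at h1
  linarith [h3.1]

theorem up_bound {R k m₀ L : ℕ} {V : Type} [Fintype V] {p : V → ℝ} (hp : IsProb p)
    {val : V → ℝ} {b : ℝ} (hb : 0 ≤ b) (hval : ∀ v, 0 ≤ val v ∧ val v ≤ b)
    {θ hi t M : ℝ} (hθ : 0 < θ) (hhi : 0 < hi)
    (hm : m₀ ≤ k) (hk : b * L ≤ hi * θ * k) {x y : ℤ × ℤ} (hx : x ∈ box R) (hy : y ∈ box R)
    (hL : (x.1 - y.1).natAbs + (x.2 - y.2).natAbs = L) (hLk : L ≤ k)
    (hPr : b * L * Pr p (fun ω : EIdx R → V => ¬ PGood R m₀ θ hi (wOf val ω)) ≤ 1)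
    {ω : EIdx R → V} (hdev : ¬ Dev R k p val t (x, y) ω)
    (hmean : Ex p (fun ω : EIdx R → V => TT (wOf val ω) (box R) x y) ≤ M) :
    TT (wOf val ω) (box R) x y ≤ M + 1 + t := by
  classical
  have h0 : ∀ v, 0 ≤ val v := fun v => (hval v).1
  obtain ⟨l, hl, hll⟩ := lwalk hx hy
  have hbl : l.bypass.length ≤ L := (l.length_bypass_le_length).trans (by rw [hll, hL])
  have hne : (fam R k x y).Nonempty :=
    fam_nonempty l.bypass_isPath (isIn_bypass hl) (hbl.trans hLk)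
  have hlw : ∀ ω : EIdx R → V, wt (wOf val ω) l.bypass ≤ b * L := by
    intro ω
    refine (wt_le_length (wOf_le hb (fun v => (hval v).2) ω) _).trans ?_
    gcongr
  have key : ∀ ω : EIdx R → V, minW (fam R k x y) hne (fun i => val (ω i)) ≤
      TT (wOf val ω) (box R) x y +
        b * L * (if ¬ PGood R m₀ θ hi (wOf val ω) then 1 else 0) := by
    intro ω
    have hw := wOf_nonneg h0 ω
    by_cases hG : PGood R m₀ θ hi (wOf val ω)
    · rw [if_neg (by simpa using hG), mul_zero, add_zero]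
      obtain ⟨q, hq, hqw⟩ := exists_minPath hw (box R).finite_toSet hl
      have h1 : wt (wOf val ω) q ≤ b * L := by
        rw [hqw]
        exact (TT_le hw (isIn_bypass hl)).trans (hlw ω)
      have hlen : q.length ≤ k := length_le hw hθ hhi hG hm hk hq.1 hq.2.1 h1
      have h2 := minW_le (val := val) ω hne hq.1 hq.2.1 hlen
      rwa [hqw] at h2
    · rw [if_pos hG, mul_one]
      have h1 := minW_le (val := val) ω hne l.bypass_isPath (isIn_bypass hl) (hbl.trans hLk)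
      have h2 := TT_nonneg hw (box R) x y
      linarith [hlw ω]
  have h1 : Ex p (fun ω : EIdx R → V => minW (fam R k x y) hne (fun i => val (ω i))) ≤
      M + 1 := by
    calc Ex p (fun ω : EIdx R → V => minW (fam R k x y) hne (fun i => val (ω i))) ≤
        Ex p (fun ω : EIdx R → V => TT (wOf val ω) (box R) x y +
          b * L * (if ¬ PGood R m₀ θ hi (wOf val ω) then 1 else 0)) :=
          ConcAux.Ex_mono hp.nonneg key
      _ = Ex p (fun ω : EIdx R → V => TT (wOf val ω) (box R) x y) +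
          b * L * Pr p (fun ω : EIdx R → V => ¬ PGood R m₀ θ hi (wOf val ω)) := by
          rw [ConcAux.Ex_add, ConcAux.Ex_mul_left]
          congr 2
          rw [PeierlsAux.Pr_eq]
          rfl
      _ ≤ M + 1 := by linarith
  have h3 : ¬ t ≤ |minW (fam R k x y) hne (fun i => val (ω i)) -
    Ex p (fun ω : EIdx R → V => minW (fam R k x y) hne (fun i => val (ω i)))| :=
    fun h => hdev ⟨hne, h⟩
  rw [not_le, abs_lt] at h3
  have h4 := TT_le_minW h0 ω hne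
  linarith [h3.2]

theorem Pr_or {ι V : Type*} [Fintype ι] [DecidableEq ι] [Fintype V] {p : V → ℝ}
    (hp : IsProb p) (E F : (ι → V) → Prop) :
    Pr p (fun ω => E ω ∨ F ω) ≤ Pr p E + Pr p F := by
  classical
  rw [PeierlsAux.Pr_eq, PeierlsAux.Pr_eq, PeierlsAux.Pr_eq, ← Finset.sum_add_distrib]
  refine Finset.sum_le_sum fun ω _ => ?_
  rw [← mul_add]
  refine mul_le_mul_of_nonneg_left ?_ (PeierlsAux.prod_nonneg' hp ω)
  by_cases hE : E ω <;> by_cases hF : F ω <;> simp [hE, hF]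

theorem card_box (R : ℕ) : (box R).card = (2 * R + 1) ^ 2 := by
  unfold box
  rw [Finset.card_product, Int.card_Icc]
  have : ((R : ℤ) + 1 - -(R : ℤ)).toNat = 2 * R + 1 := by omega
  rw [this, sq]

theorem expo {X b : ℝ} (hX : 1 ≤ X) (hb0 : 0 < b) (hb : b ≤ X) (n : ℕ) :
    Real.exp (-((X ^ (n + 3) / 2) / (2 * b * Real.sqrt (X ^ (2 * n) + 1)))) ≤
      Real.exp (-(X ^ 2 / 8)) := by
  have hX0 : 0 < X := by linarith
  have h1 : Real.sqrt (X ^ (2 * n) + 1) ≤ 2 * X ^ n := by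
    rw [Real.sqrt_le_left (by positivity)]
    have h2 : (1 : ℝ) ≤ X ^ (2 * n) := one_le_pow₀ hX
    calc X ^ (2 * n) + 1 ≤ 4 * X ^ (2 * n) := by linarith
      _ = (2 * X ^ n) ^ 2 := by ring
  have h0 : 0 < Real.sqrt (X ^ (2 * n) + 1) := Real.sqrt_pos.2 (by positivity)
  apply Real.exp_le_exp.2
  apply neg_le_neg
  have h3 : 2 * b * Real.sqrt (X ^ (2 * n) + 1) ≤ 4 * X ^ (n + 1) := by
    calc 2 * b * Real.sqrt (X ^ (2 * n) + 1) ≤ 2 * X * (2 * X ^ n) := by gcongr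
      _ = 4 * X ^ (n + 1) := by ring
  calc X ^ 2 / 8 = (X ^ (n + 3) / 2) / (4 * X ^ (n + 1)) := by
        rw [show n + 3 = (n + 1) + 2 by ring, pow_add X (n + 1) 2]
        field_simp
        norm_num
    _ ≤ (X ^ (n + 3) / 2) / (2 * b * Real.sqrt (X ^ (2 * n) + 1)) := by
        apply div_le_div_of_nonneg_left (by positivity) (by positivity) h3

theorem abs_A_le {R : ℕ} {x y : ℤ × ℤ} (hx : x ∈ box R) (hy : y ∈ box R) :
    |A x - A y| + |B x - B y| ≤ 8 * (R : ℤ) := by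
  rw [mem_box] at hx hy
  have h1 : |A x - A y| ≤ 4 * (R : ℤ) := by
    unfold A
    rw [abs_le]
    omega
  have h2 : |B x - B y| ≤ 4 * (R : ℤ) := by
    unfold B
    rw [abs_le]
    omega
  linarith

end QAux

open QAux Filter Topology in
theorem good_prob_aux {p₀ hi c : ℝ} (h0 : 0 ≤ p₀) (h1 : p₀ < 1 / 2) (hhi : 0 < hi)
    (hc : 0 < c) :
    ∃ θ : ℝ, 0 < θ ∧ θ ≤ 1 ∧ ∃ X₀ : ℕ, ∀ X : ℕ, X₀ ≤ X →
      ∀ (V : Type) [Fintype V] (p : V → ℝ) (val : V → ℝ) (b : ℝ), IsProb p → 1 ≤ b →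
        b ≤ X → (∀ v, 0 ≤ val v ∧ val v ≤ b) → (∑ v, if val v < hi then p v else 0) ≤ p₀ →
        ∀ P : Par, P.σ = X ^ 106 → P.N = X ^ 94 → P.R = X ^ 201 → P.c = c → P.E₂ = X ^ 104 →
          P.E₃ = X ^ 57 →
        (∀ x ∈ box P.R, ∀ y ∈ box P.R,
          c * (|(A x - A y : ℤ)| + |(B x - B y : ℤ)| : ℤ) - 2 ≤
            Ex p (fun ω : EIdx P.R → V => TT (wOf val ω) (box P.R) x y)) →
        (∀ j ≤ P.N, Ex p (fun ω : EIdx P.R → V =>
          TT (wOf val ω) (box P.R) (pt 0 (2 * j * P.σ))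
            (pt (2 * P.N * P.σ) (2 * j * P.σ)))
              ≤ c * (4 * P.N * P.σ) + X ^ 103) →
        (∀ i ≤ P.N, Ex p (fun ω : EIdx P.R → V =>
          TT (wOf val ω) (box P.R) (pt (2 * i * P.σ) 0)
            (pt (2 * i * P.σ) (2 * P.N * P.σ)))
              ≤ c * (4 * P.N * P.σ) + X ^ 103) →
        Pr p (fun ω : EIdx P.R → V => ¬ (P.Good (wOf val ω) ∧
          PGood P.R X θ hi (wOf val ω))) ≤ 1 / (X : ℝ) ^ 1000 := by
  obtain ⟨θ, hθ, hθ1, ρ, hρ0, hρ1, C, hC, hP⟩ := peierls_half p₀ h0 h1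
  refine ⟨θ, hθ, hθ1, ?_⟩
  set r : ℝ := Real.exp (-(1 / 8)) with hr
  have hr0 : 0 ≤ r := (Real.exp_pos _).le
  have hr1 : r < 1 := by rw [hr, Real.exp_lt_one_iff]; norm_num
  have hhθ : 0 < hi * θ := mul_pos hhi hθ
  have t1 : Tendsto (fun n : ℕ => 36 * C * ((n : ℝ) ^ 603 * ρ ^ n)) atTop (𝓝 0) := by
    have := (tendsto_pow_const_mul_const_pow_of_lt_one 603 hρ0.le hρ1).const_mul (36 * C)
    rwa [mul_zero] at this
  have t2 : Tendsto (fun n : ℕ => 9 * C * ((n : ℝ) ^ 1402 * ρ ^ n)) atTop (𝓝 0) := by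
    have := (tendsto_pow_const_mul_const_pow_of_lt_one 1402 hρ0.le hρ1).const_mul (9 * C)
    rwa [mul_zero] at this
  have t3 : Tendsto (fun n : ℕ => 648 * ((n : ℝ) ^ 1804 * r ^ n)) atTop (𝓝 0) := by
    have := (tendsto_pow_const_mul_const_pow_of_lt_one 1804 hr0 hr1).const_mul 648
    rwa [mul_zero] at this
  have e1 := t1.eventually_le_const (show (0 : ℝ) < 1 by norm_num)
  have e2 := t2.eventually_le_const (show (0 : ℝ) < 1 / 2 by norm_num)
  have e3 := t3.eventually_le_const (show (0 : ℝ) < 1 / 2 by norm_num)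
  have e4 : ∀ᶠ n : ℕ in atTop, 8 * c / (hi * θ) ≤ (n : ℝ) :=
    tendsto_natCast_atTop_atTop.eventually_ge_atTop _
  have e5 : ∀ᶠ n : ℕ in atTop, 16 * c / (hi * θ) ≤ (n : ℝ) :=
    tendsto_natCast_atTop_atTop.eventually_ge_atTop _
  have e6 : ∀ᶠ n : ℕ in atTop, 4 / (hi * θ) ≤ (n : ℝ) :=
    tendsto_natCast_atTop_atTop.eventually_ge_atTop _
  have e7 : ∀ᶠ n : ℕ in atTop, 8 ≤ n := eventually_ge_atTop 8
  obtain ⟨X₀, hX₀⟩ := eventually_atTop.1 (e1.and (e2.and (e3.and (e4.and (e5.and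
    (e6.and e7))))))
  refine ⟨X₀, fun X hX => ?_⟩
  obtain ⟨f1, f2, f3, f4, f5, f6, f7⟩ := hX₀ X hX
  intro V _ p val b hp hb1 hbX hval hlow P hσ hN hR hPc hE2 hE3 hmean hU hV
  have hX8 : (8 : ℝ) ≤ X := by exact_mod_cast f7
  have hX1 : (1 : ℝ) ≤ X := by linarith
  have hX0 : (0 : ℝ) < X := by linarith
  have hb0 : 0 < b := by linarith
  have hval0 : ∀ v, 0 ≤ val v := fun v => (hval v).1
  have hPr := hP V p val hi hp hlow P.R X
  -- numerical facts
  have hX1n : 1 ≤ X := by omega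
  have k2 : X ≤ X ^ 202 := by
    calc X = X ^ 1 := (pow_one X).symm
      _ ≤ X ^ 202 := Nat.pow_le_pow_right hX1n (by norm_num)
  have k3 : X ≤ X ^ 108 := by
    calc X = X ^ 1 := (pow_one X).symm
      _ ≤ X ^ 108 := Nat.pow_le_pow_right hX1n (by norm_num)
  have n1 : c * (8 * (X : ℝ) ^ 201) ≤ hi * θ * ((X ^ 202 : ℕ) : ℝ) := by
    have h2 : 8 * c ≤ X * (hi * θ) := (div_le_iff₀ hhθ).1 f4
    have h3 : (0 : ℝ) < (X : ℝ) ^ 201 := by positivity
    push_cast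
    calc c * (8 * (X : ℝ) ^ 201) = (8 * c) * (X : ℝ) ^ 201 := by ring
      _ ≤ (X * (hi * θ)) * (X : ℝ) ^ 201 := by gcongr
      _ = hi * θ * (X : ℝ) ^ 202 := by ring
  have n2 : c * (16 * (X : ℝ) ^ 106) ≤ hi * θ * ((X ^ 108 : ℕ) : ℝ) := by
    have h2 : 16 * c ≤ X * (hi * θ) := (div_le_iff₀ hhθ).1 f5
    have h4 : (X : ℝ) ^ 107 ≤ (X : ℝ) ^ 108 := pow_le_pow_right₀ hX1 (by norm_num)
    push_cast
    calc c * (16 * (X : ℝ) ^ 106) = (16 * c) * (X : ℝ) ^ 106 := by ring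
      _ ≤ (X * (hi * θ)) * (X : ℝ) ^ 106 := by gcongr
      _ = hi * θ * (X : ℝ) ^ 107 := by ring
      _ ≤ hi * θ * (X : ℝ) ^ 108 := by gcongr
  have n3 : b * ((4 * X ^ 200 : ℕ) : ℝ) ≤ hi * θ * ((X ^ 202 : ℕ) : ℝ) := by
    have h2 : 4 ≤ X * (hi * θ) := (div_le_iff₀ hhθ).1 f6
    push_cast
    calc b * (4 * (X : ℝ) ^ 200) ≤ X * (4 * (X : ℝ) ^ 200) := by gcongr
      _ = 4 * (X : ℝ) ^ 201 := by ring
      _ ≤ (X * (hi * θ)) * (X : ℝ) ^ 201 := by gcongr
      _ = hi * θ * (X : ℝ) ^ 202 := by ring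
  have n4 : 4 * X ^ 200 ≤ X ^ 201 := by
    calc 4 * X ^ 200 ≤ X * X ^ 200 := Nat.mul_le_mul_right _ (by omega)
      _ = X ^ 201 := by ring
  have n5 : X ^ 201 ≤ X ^ 202 := Nat.pow_le_pow_right hX1n (by norm_num)
  have hcardR : (2 * (P.R : ℝ) + 1) ≤ 3 * (X : ℝ) ^ 201 := by
    rw [hR]
    push_cast
    have : (1 : ℝ) ≤ (X : ℝ) ^ 201 := one_le_pow₀ hX1
    linarith
  have hPr2 : Pr p (fun ω : EIdx P.R → V => ¬ PGood P.R X θ hi (wOf val ω)) ≤
      9 * C * ((X : ℝ) ^ 402 * ρ ^ X) := by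
    refine hPr.trans ?_
    calc C * (2 * (P.R : ℝ) + 1) ^ 2 * ρ ^ X ≤ C * (3 * (X : ℝ) ^ 201) ^ 2 * ρ ^ X := by
          gcongr
      _ = 9 * C * ((X : ℝ) ^ 402 * ρ ^ X) := by ring
  have hPr3 : b * ((4 * X ^ 200 : ℕ) : ℝ) *
      Pr p (fun ω : EIdx P.R → V => ¬ PGood P.R X θ hi (wOf val ω)) ≤ 1 := by
    have hnn : 0 ≤ Pr p (fun ω : EIdx P.R → V => ¬ PGood P.R X θ hi (wOf val ω)) := by
      classical
      rw [PeierlsAux.Pr_eq]
      exact Finset.sum_nonneg fun ω _ =>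
        mul_nonneg (PeierlsAux.prod_nonneg' hp ω) (by split_ifs <;> norm_num)
    push_cast
    calc b * (4 * (X : ℝ) ^ 200) *
        Pr p (fun ω : EIdx P.R → V => ¬ PGood P.R X θ hi (wOf val ω)) ≤
          X * (4 * (X : ℝ) ^ 200) * (9 * C * ((X : ℝ) ^ 402 * ρ ^ X)) := by gcongr
      _ = 36 * C * ((X : ℝ) ^ 603 * ρ ^ X) := by ring
      _ ≤ 1 := f1
  -- the exceptional events
  have hsub : ∀ ω : EIdx P.R → V, ¬ (P.Good (wOf val ω) ∧ PGood P.R X θ hi (wOf val ω)) →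
      (¬ PGood P.R X θ hi (wOf val ω)) ∨
      ((∃ z ∈ box P.R ×ˢ box P.R, Dev P.R (X ^ 202) p val ((X : ℝ) ^ 104 / 2) z ω) ∨
        (∃ z ∈ box P.R ×ˢ box P.R, Dev P.R (X ^ 108) p val ((X : ℝ) ^ 57 / 2) z ω)) := by
    intro ω hω
    by_contra hcon
    push Not at hcon
    obtain ⟨hG, hd2, hd3⟩ := hcon
    apply hω
    refine ⟨?_, hG⟩
    have hup : ∀ x ∈ box P.R, ∀ y ∈ box P.R,
        (x.1 - y.1).natAbs + (x.2 - y.2).natAbs = 4 * X ^ 200 →
        Ex p (fun ω : EIdx P.R → V => TT (wOf val ω) (box P.R) x y) ≤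
          c * (4 * P.N * P.σ) + X ^ 103 →
        TT (wOf val ω) (box P.R) x y ≤ P.c * (4 * P.N * P.σ) + P.E₂ := by
      intro x hx y hy hL hM
      have h2 := up_bound (m₀ := X) hp hb0.le hval hθ hhi k2 n3 hx hy hL (n4.trans n5) hPr3
        (hd2 (x, y) (mem_product.2 ⟨hx, hy⟩)) hM
      rw [hPc, hE2]
      have h3 : (X : ℝ) ^ 103 + 1 + (X : ℝ) ^ 104 / 2 ≤ (X : ℝ) ^ 104 := by
        have h4 : (1 : ℝ) ≤ (X : ℝ) ^ 103 := one_le_pow₀ hX1
        have h5 : (X : ℝ) ^ 104 = X * (X : ℝ) ^ 103 := by ring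
        rw [h5]
        nlinarith
      linarith
    refine ⟨fun e => wOf_nonneg hval0 ω e, ?_, ?_, ?_, ?_⟩
    · intro x hx y hy
      have hD := abs_A_le hx hy
      have hD' : ((|A x - A y| + |B x - B y| : ℤ) : ℝ) ≤ 8 * (X : ℝ) ^ 201 := by
        calc ((|A x - A y| + |B x - B y| : ℤ) : ℝ) ≤ ((8 * (P.R : ℤ) : ℤ) : ℝ) := by
              exact_mod_cast hD
          _ = 8 * (X : ℝ) ^ 201 := by rw [hR]; push_cast; ring
      have h2 := low_bound (m₀ := X) hp hval0 hθ hhi (t := (X : ℝ) ^ 104 / 2) (by positivity) k2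
        (W := c * ((|A x - A y| + |B x - B y| : ℤ) : ℝ))
        ((mul_le_mul_of_nonneg_left hD' hc.le).trans n1) hx hy hG
        (hd2 (x, y) (mem_product.2 ⟨hx, hy⟩)) (hmean x hx y hy)
      rw [hPc, hE2]
      have h3 : (2 : ℝ) + (X : ℝ) ^ 104 / 2 ≤ (X : ℝ) ^ 104 := by
        have h4 : (X : ℝ) ≤ (X : ℝ) ^ 104 := by
          calc (X : ℝ) = (X : ℝ) ^ 1 := (pow_one _).symm
            _ ≤ (X : ℝ) ^ 104 := pow_le_pow_right₀ hX1 (by norm_num)
        linarith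
      linarith
    · intro x hx y hy hA hB
      have hD' : ((|A x - A y| + |B x - B y| : ℤ) : ℝ) ≤ 16 * (X : ℝ) ^ 106 := by
        calc ((|A x - A y| + |B x - B y| : ℤ) : ℝ) ≤ ((16 * (P.σ : ℤ) : ℤ) : ℝ) := by
              exact_mod_cast (by linarith : |A x - A y| + |B x - B y| ≤ 16 * (P.σ : ℤ))
          _ = 16 * (X : ℝ) ^ 106 := by rw [hσ]; push_cast; ring
      have h2 := low_bound (m₀ := X) hp hval0 hθ hhi (t := (X : ℝ) ^ 57 / 2) (by positivity) k3
        (W := c * ((|A x - A y| + |B x - B y| : ℤ) : ℝ))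
        ((mul_le_mul_of_nonneg_left hD' hc.le).trans n2) hx hy hG
        (hd3 (x, y) (mem_product.2 ⟨hx, hy⟩)) (hmean x hx y hy)
      rw [hPc, hE3]
      have h3 : (2 : ℝ) + (X : ℝ) ^ 57 / 2 ≤ (X : ℝ) ^ 57 := by
        have h4 : (X : ℝ) ≤ (X : ℝ) ^ 57 := by
          calc (X : ℝ) = (X : ℝ) ^ 1 := (pow_one _).symm
            _ ≤ (X : ℝ) ^ 57 := pow_le_pow_right₀ hX1 (by norm_num)
        linarith
      linarith
    · intro j hj
      have hjσ : (j : ℤ) * P.σ ≤ (X : ℤ) ^ 200 := by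
        calc (j : ℤ) * P.σ ≤ (P.N : ℤ) * P.σ := by
              gcongr
          _ = (X : ℤ) ^ 200 := by rw [hN, hσ]; push_cast; ring
      have hNσ : (P.N : ℤ) * P.σ = (X : ℤ) ^ 200 := by rw [hN, hσ]; push_cast; ring
      have hj0 : 0 ≤ (j : ℤ) * P.σ := by positivity
      have n4' : 4 * (X : ℤ) ^ 200 ≤ (X : ℤ) ^ 201 := by exact_mod_cast n4
      have hRz : (P.R : ℤ) = (X : ℤ) ^ 201 := by rw [hR]; push_cast; ring
      refine hup _ ?_ _ ?_ ?_ (hU j hj)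
      · rw [mem_box]
        unfold pt
        simp only
        rw [hRz]
        refine ⟨⟨?_, ?_⟩, ?_, ?_⟩ <;> linarith
      · rw [mem_box]
        unfold pt
        simp only
        rw [hRz]
        refine ⟨⟨?_, ?_⟩, ?_, ?_⟩ <;> linarith
      · unfold pt
        simp only
        have e1 : (0 : ℤ) + 2 * j * P.σ - (2 * P.N * P.σ + 2 * j * P.σ) =
          -(2 * (P.N * P.σ)) := by ring
        have e2 : (0 : ℤ) - 2 * j * P.σ - (2 * P.N * P.σ - 2 * j * P.σ) =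
          -(2 * (P.N * P.σ)) := by ring
        rw [e1, e2, hNσ]
        zify
        rw [abs_neg, abs_of_nonneg (by positivity)]
        ring
    · intro i hi'
      have hjσ : (i : ℤ) * P.σ ≤ (X : ℤ) ^ 200 := by
        calc (i : ℤ) * P.σ ≤ (P.N : ℤ) * P.σ := by
              gcongr
          _ = (X : ℤ) ^ 200 := by rw [hN, hσ]; push_cast; ring
      have hNσ : (P.N : ℤ) * P.σ = (X : ℤ) ^ 200 := by rw [hN, hσ]; push_cast; ring
      have hj0 : 0 ≤ (i : ℤ) * P.σ := by positivity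
      have n4' : 4 * (X : ℤ) ^ 200 ≤ (X : ℤ) ^ 201 := by exact_mod_cast n4
      have hRz : (P.R : ℤ) = (X : ℤ) ^ 201 := by rw [hR]; push_cast; ring
      refine hup _ ?_ _ ?_ ?_ (hV i hi')
      · rw [mem_box]
        unfold pt
        simp only
        rw [hRz]
        refine ⟨⟨?_, ?_⟩, ?_, ?_⟩ <;> linarith
      · rw [mem_box]
        unfold pt
        simp only
        rw [hRz]
        refine ⟨⟨?_, ?_⟩, ?_, ?_⟩ <;> linarith
      · unfold pt
        simp only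
        have e1 : 2 * (i : ℤ) * P.σ + 0 - (2 * i * P.σ + 2 * P.N * P.σ) =
          -(2 * (P.N * P.σ)) := by ring
        have e2 : 2 * (i : ℤ) * P.σ - 0 - (2 * i * P.σ - 2 * P.N * P.σ) =
          2 * (P.N * P.σ) := by ring
        rw [e1, e2, hNσ]
        zify
        rw [abs_neg, abs_of_nonneg (by positivity)]
        ring
  -- the union bound
  have hcard : (((box P.R ×ˢ box P.R).card : ℕ) : ℝ) ≤ 81 * (X : ℝ) ^ 804 := by
    rw [Finset.card_product, card_box]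
    push_cast
    calc (2 * (P.R : ℝ) + 1) ^ 2 * (2 * (P.R : ℝ) + 1) ^ 2 = (2 * (P.R : ℝ) + 1) ^ 4 := by ring
      _ ≤ (3 * (X : ℝ) ^ 201) ^ 4 := by gcongr
      _ = 81 * (X : ℝ) ^ 804 := by ring
  have hexp : Real.exp (-((X : ℝ) ^ 2 / 8)) ≤ r ^ X := by
    rw [hr, ← Real.exp_nat_mul]
    apply Real.exp_le_exp.2
    nlinarith
  have hdev2 : ∀ z, Pr p (Dev P.R (X ^ 202) p val ((X : ℝ) ^ 104 / 2) z) ≤ 4 * r ^ X := by
    intro z
    refine (Pr_dev hp hb0 hval (by positivity) z).trans ?_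
    have := expo hX1 hb0 hbX 101
    norm_num only at this
    push_cast
    gcongr
    exact this.trans hexp
  have hdev3 : ∀ z, Pr p (Dev P.R (X ^ 108) p val ((X : ℝ) ^ 57 / 2) z) ≤ 4 * r ^ X := by
    intro z
    refine (Pr_dev hp hb0 hval (by positivity) z).trans ?_
    have := expo hX1 hb0 hbX 54
    norm_num only at this
    push_cast
    gcongr
    exact this.trans hexp
  have hs2 : Pr p (fun ω => ∃ z ∈ box P.R ×ˢ box P.R,
      Dev P.R (X ^ 202) p val ((X : ℝ) ^ 104 / 2) z ω) ≤ 81 * (X : ℝ) ^ 804 * (4 * r ^ X) := by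
    refine (PeierlsAux.Pr_exists_le hp _ _).trans ?_
    refine (Finset.sum_le_card_nsmul _ _ _ fun z _ => hdev2 z).trans ?_
    rw [nsmul_eq_mul]
    gcongr
  have hs3 : Pr p (fun ω => ∃ z ∈ box P.R ×ˢ box P.R,
      Dev P.R (X ^ 108) p val ((X : ℝ) ^ 57 / 2) z ω) ≤ 81 * (X : ℝ) ^ 804 * (4 * r ^ X) := by
    refine (PeierlsAux.Pr_exists_le hp _ _).trans ?_
    refine (Finset.sum_le_card_nsmul _ _ _ fun z _ => hdev3 z).trans ?_
    rw [nsmul_eq_mul]
    gcongr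
  refine (PeierlsAux.Pr_mono hp hsub).trans ?_
  refine (Pr_or hp _ _).trans ?_
  refine (add_le_add le_rfl (Pr_or hp _ _)).trans ?_
  rw [le_div_iff₀ (by positivity)]
  calc (Pr p (fun ω : EIdx P.R → V => ¬ PGood P.R X θ hi (wOf val ω)) +
      (Pr p (fun ω => ∃ z ∈ box P.R ×ˢ box P.R,
        Dev P.R (X ^ 202) p val ((X : ℝ) ^ 104 / 2) z ω) +
      Pr p (fun ω => ∃ z ∈ box P.R ×ˢ box P.R,
        Dev P.R (X ^ 108) p val ((X : ℝ) ^ 57 / 2) z ω))) * (X : ℝ) ^ 1000 ≤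
      (9 * C * ((X : ℝ) ^ 402 * ρ ^ X) + (81 * (X : ℝ) ^ 804 * (4 * r ^ X) +
        81 * (X : ℝ) ^ 804 * (4 * r ^ X))) * (X : ℝ) ^ 1000 := by gcongr
    _ = 9 * C * ((X : ℝ) ^ 1402 * ρ ^ X) + 648 * ((X : ℝ) ^ 1804 * r ^ X) := by ring
    _ ≤ 1 / 2 + 1 / 2 := add_le_add f2 f3
    _ = 1 := by norm_num

/-- The parameters at scale `X`. -/
def Pars (X : ℕ) (c : ℝ) : Par where
  σ := X ^ 106
  N := X ^ 94
  w₀ := X ^ 105
  R := X ^ 201
  c := c
  E₂ := X ^ 104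
  E₃ := X ^ 57

theorem good_prob {p₀ hi c : ℝ} (h0 : 0 ≤ p₀) (h1 : p₀ < 1 / 2) (hhi : 0 < hi) (hc : 0 < c) :
    ∃ θ : ℝ, 0 < θ ∧ θ ≤ 1 ∧ ∃ X₀ : ℕ, ∀ X : ℕ, X₀ ≤ X →
      ∀ (V : Type) [Fintype V] (p : V → ℝ) (val : V → ℝ) (b : ℝ), IsProb p → 1 ≤ b →
        b ^ 4 ≤ X → (∀ v, 0 ≤ val v ∧ val v ≤ b) → (∑ v, if val v < hi then p v else 0) ≤ p₀ →
        (∀ x ∈ box (Pars X c).R, ∀ y ∈ box (Pars X c).R,
          c * (|(A x - A y : ℤ)| + |(B x - B y : ℤ)| : ℤ) - 2 ≤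
            Ex p (fun ω : EIdx (Pars X c).R → V => TT (wOf val ω) (box (Pars X c).R) x y)) →
        (∀ j ≤ (Pars X c).N, Ex p (fun ω : EIdx (Pars X c).R → V =>
          TT (wOf val ω) (box (Pars X c).R) (pt 0 (2 * j * (Pars X c).σ))
            (pt (2 * (Pars X c).N * (Pars X c).σ) (2 * j * (Pars X c).σ)))
              ≤ c * (4 * (Pars X c).N * (Pars X c).σ) + X ^ 103) →
        (∀ i ≤ (Pars X c).N, Ex p (fun ω : EIdx (Pars X c).R → V =>
          TT (wOf val ω) (box (Pars X c).R) (pt (2 * i * (Pars X c).σ) 0)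
            (pt (2 * i * (Pars X c).σ) (2 * (Pars X c).N * (Pars X c).σ)))
              ≤ c * (4 * (Pars X c).N * (Pars X c).σ) + X ^ 103) →
        Pr p (fun ω : EIdx (Pars X c).R → V => ¬ ((Pars X c).Good (wOf val ω) ∧
          PGood (Pars X c).R X θ hi (wOf val ω))) ≤ 1 / (X : ℝ) ^ 1000 := by
  obtain ⟨θ, hθ, hθ1, X₀, hX₀⟩ := good_prob_aux (c := c) h0 h1 hhi hc
  refine ⟨θ, hθ, hθ1, X₀, fun X hX V _ p val b hp hb1 hb4 hval hlow hmean hU hV => ?_⟩
  have hbX : b ≤ X := by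
    refine le_trans ?_ hb4
    calc b = b ^ 1 := (pow_one b).symm
      _ ≤ b ^ 4 := pow_le_pow_right₀ hb1 (by norm_num)
  exact hX₀ X hX V p val b hp hb1 hbX hval hlow (Pars X c) rfl rfl rfl rfl rfl rfl hmean hU hV

end Pool.Agent.Helper33_FPP
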