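import Pool.Agent.Helper33_FPP.Net
import Pool.Agent.Helper33_FPP.Cross

/-!
# The lines of the network (modules N1, N2)
-/

set_option autoImplicit false

namespace Pool.Agent.Helper33_FPP

open Finset

variable {P : Par} {w w' : Sym2 (ℤ × ℤ) → ℝ}

/-! ### Explicit walks -/

/-- A straight horizontal walk. -/
theorem hwalk (D : Set (ℤ × ℤ)) (b : ℤ) (n : ℕ) : ∀ a : ℤ,
    (∀ k : ℤ, a ≤ k → k ≤ a + n → (k, b) ∈ D) →
    ∃ p : Z2.Walk (a, b) (a + n, b), IsIn D p ∧ p.length = n := by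
  induction n with
  | zero =>
    intro a h
    refine ⟨(SimpleGraph.Walk.nil : Z2.Walk (a, b) (a, b)).copy rfl (by simp), ?_, by simp⟩
    refine isIn_copy _ _ ?_
    intro v hv
    simp only [SimpleGraph.Walk.support_nil, List.mem_singleton] at hv
    rw [hv]
    exact h a le_rfl (by simp)
  | succ n ih =>
    intro a h
    obtain ⟨p, hp, hl⟩ := ih a (fun k h1 h2 => h k h1 (by push_cast; omega))
    refine ⟨p.concat (w := (a + ((n + 1 : ℕ) : ℤ), b)) ?_, ?_, ?_⟩
    · rw [Z2_adj_iff]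
      push_cast
      simp
    · intro v hv
      rw [SimpleGraph.Walk.support_concat, List.mem_append] at hv
      rcases hv with hv | hv
      · exact hp v hv
      · rw [List.mem_singleton] at hv
        rw [hv]
        exact h _ (by push_cast; omega) le_rfl
    · rw [SimpleGraph.Walk.length_concat, hl]

/-- A straight vertical walk. -/
theorem vwalk (D : Set (ℤ × ℤ)) (a : ℤ) (n : ℕ) : ∀ b : ℤ,
    (∀ k : ℤ, b ≤ k → k ≤ b + n → (a, k) ∈ D) →
    ∃ p : Z2.Walk (a, b) (a, b + n), IsIn D p ∧ p.length = n := by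
  induction n with
  | zero =>
    intro b h
    refine ⟨(SimpleGraph.Walk.nil : Z2.Walk (a, b) (a, b)).copy rfl (by simp), ?_, by simp⟩
    refine isIn_copy _ _ ?_
    intro v hv
    simp only [SimpleGraph.Walk.support_nil, List.mem_singleton] at hv
    rw [hv]
    exact h b le_rfl (by simp)
  | succ n ih =>
    intro b h
    obtain ⟨p, hp, hl⟩ := ih b (fun k h1 h2 => h k h1 (by push_cast; omega))
    refine ⟨p.concat (w := (a, b + ((n + 1 : ℕ) : ℤ))) ?_, ?_, ?_⟩
    · rw [Z2_adj_iff]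
      push_cast
      simp
    · intro v hv
      rw [SimpleGraph.Walk.support_concat, List.mem_append] at hv
      rcases hv with hv | hv
      · exact hp v hv
      · rw [List.mem_singleton] at hv
        rw [hv]
        exact h _ (by push_cast; omega) le_rfl
    · rw [SimpleGraph.Walk.length_concat, hl]

theorem hwalk' (D : Set (ℤ × ℤ)) (b a a' : ℤ)
    (h : ∀ k : ℤ, min a a' ≤ k → k ≤ max a a' → (k, b) ∈ D) :
    ∃ p : Z2.Walk (a, b) (a', b), IsIn D p ∧ p.length = (a - a').natAbs := by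
  rcases le_total a a' with haa | haa
  · obtain ⟨p, hp, hl⟩ := hwalk D b (a' - a).toNat a (fun k h1 h2 => h k (by omega) (by omega))
    have e : a + ((a' - a).toNat : ℤ) = a' := by omega
    exact ⟨p.copy rfl (by rw [e]), isIn_copy _ _ hp, by
      rw [SimpleGraph.Walk.length_copy, hl]; omega⟩
  · obtain ⟨p, hp, hl⟩ := hwalk D b (a - a').toNat a' (fun k h1 h2 => h k (by omega) (by omega))
    have e : a' + ((a - a').toNat : ℤ) = a := by omega
    exact ⟨(p.copy rfl (by rw [e])).reverse, isIn_reverse (isIn_copy _ _ hp), by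
      rw [SimpleGraph.Walk.length_reverse, SimpleGraph.Walk.length_copy, hl]; omega⟩

theorem vwalk' (D : Set (ℤ × ℤ)) (a b b' : ℤ)
    (h : ∀ k : ℤ, min b b' ≤ k → k ≤ max b b' → (a, k) ∈ D) :
    ∃ p : Z2.Walk (a, b) (a, b'), IsIn D p ∧ p.length = (b - b').natAbs := by
  rcases le_total b b' with hbb | hbb
  · obtain ⟨p, hp, hl⟩ := vwalk D a (b' - b).toNat b (fun k h1 h2 => h k (by omega) (by omega))
    have e : b + ((b' - b).toNat : ℤ) = b' := by omega
    exact ⟨p.copy rfl (by rw [e]), isIn_copy _ _ hp, by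
      rw [SimpleGraph.Walk.length_copy, hl]; omega⟩
  · obtain ⟨p, hp, hl⟩ := vwalk D a (b - b').toNat b' (fun k h1 h2 => h k (by omega) (by omega))
    have e : b' + ((b - b').toNat : ℤ) = b := by omega
    exact ⟨(p.copy rfl (by rw [e])).reverse, isIn_reverse (isIn_copy _ _ hp), by
      rw [SimpleGraph.Walk.length_reverse, SimpleGraph.Walk.length_copy, hl]; omega⟩

theorem box_walk {R : ℕ} {x y : ℤ × ℤ} (hx : x ∈ box R) (hy : y ∈ box R) :
    ∃ p : Z2.Walk x y, IsIn (box R) p ∧ p.length = max (A x - A y).natAbs (B x - B y).natAbs := by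
  obtain ⟨x1, x2⟩ := x
  obtain ⟨y1, y2⟩ := y
  rw [mem_box] at hx hy
  simp only at hx hy
  obtain ⟨p, hp, hl⟩ := hwalk' (box R : Set (ℤ × ℤ)) x2 x1 y1 (fun k h1 h2 => by
    rw [Finset.mem_coe, mem_box]
    simp only
    omega)
  obtain ⟨q, hq, hl'⟩ := vwalk' (box R : Set (ℤ × ℤ)) y1 x2 y2 (fun k h1 h2 => by
    rw [Finset.mem_coe, mem_box]
    simp only
    omega)
  refine ⟨p.append q, isIn_append hp hq, ?_⟩
  rw [SimpleGraph.Walk.length_append, hl, hl']
  unfold A B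
  simp only
  omega

/-- The zigzag walk in the direction of increasing `A`. -/
theorem zigU (D : Set (ℤ × ℤ)) (b : ℤ) (n : ℕ) : ∀ a : ℤ,
    (∀ v : ℤ × ℤ, 2 * a ≤ A v → A v ≤ 2 * (a + n) → 2 * b ≤ B v → B v ≤ 2 * b + 1 → v ∈ D) →
    ∃ p : Z2.Walk (pt a b) (pt (a + n) b), IsIn D p := by
  induction n with
  | zero =>
    intro a h
    refine ⟨(SimpleGraph.Walk.nil : Z2.Walk (pt a b) (pt a b)).copy rfl (by simp), ?_⟩
    refine isIn_copy _ _ ?_
    intro v hv
    simp only [SimpleGraph.Walk.support_nil, List.mem_singleton] at hv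
    rw [hv]
    exact h _ (by simp) (by simp) (by simp) (by simp)
  | succ n ih =>
    intro a h
    obtain ⟨p, hp⟩ := ih a (fun v h1 h2 h3 h4 => h v h1 (by push_cast; omega) h3 h4)
    have h1 : Z2.Adj (pt (a + n) b) (a + n + b + 1, a + n - b) := by
      rw [Z2_adj_iff]
      unfold pt
      simp
    have h2 : Z2.Adj (a + n + b + 1, a + n - b) (pt (a + (n + 1 : ℕ)) b) := by
      rw [Z2_adj_iff]
      unfold pt
      push_cast
      omega
    refine ⟨(p.concat h1).concat h2, ?_⟩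
    intro v hv
    rw [SimpleGraph.Walk.support_concat, List.mem_append,
      SimpleGraph.Walk.support_concat, List.mem_append] at hv
    rcases hv with (hv | hv) | hv
    · exact hp v hv
    · rw [List.mem_singleton] at hv
      rw [hv]
      refine h _ ?_ ?_ ?_ ?_ <;> simp only [A, B] <;> push_cast <;> omega
    · rw [List.mem_singleton] at hv
      rw [hv]
      refine h _ ?_ ?_ ?_ ?_ <;> simp only [A_pt, B_pt] <;> push_cast <;> omega

/-- The zigzag walk in the direction of increasing `B`. -/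
theorem zigV (D : Set (ℤ × ℤ)) (a : ℤ) (n : ℕ) : ∀ b : ℤ,
    (∀ v : ℤ × ℤ, 2 * b ≤ B v → B v ≤ 2 * (b + n) → 2 * a ≤ A v → A v ≤ 2 * a + 1 → v ∈ D) →
    ∃ p : Z2.Walk (pt a b) (pt a (b + n)), IsIn D p := by
  induction n with
  | zero =>
    intro b h
    refine ⟨(SimpleGraph.Walk.nil : Z2.Walk (pt a b) (pt a b)).copy rfl (by simp), ?_⟩
    refine isIn_copy _ _ ?_
    intro v hv
    simp only [SimpleGraph.Walk.support_nil, List.mem_singleton] at hv
    rw [hv]
    exact h _ (by simp) (by simp) (by simp) (by simp)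
  | succ n ih =>
    intro b h
    obtain ⟨p, hp⟩ := ih b (fun v h1 h2 h3 h4 => h v h1 (by push_cast; omega) h3 h4)
    have h1 : Z2.Adj (pt a (b + n)) (a + (b + n) + 1, a - (b + n)) := by
      rw [Z2_adj_iff]
      unfold pt
      simp
    have h2 : Z2.Adj (a + (b + n) + 1, a - (b + n)) (pt a (b + (n + 1 : ℕ))) := by
      rw [Z2_adj_iff]
      unfold pt
      push_cast
      omega
    refine ⟨(p.concat h1).concat h2, ?_⟩
    intro v hv
    rw [SimpleGraph.Walk.support_concat, List.mem_append,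
      SimpleGraph.Walk.support_concat, List.mem_append] at hv
    rcases hv with (hv | hv) | hv
    · exact hp v hv
    · rw [List.mem_singleton] at hv
      rw [hv]
      refine h _ ?_ ?_ ?_ ?_ <;> simp only [A, B] <;> push_cast <;> omega
    · rw [List.mem_singleton] at hv
      rw [hv]
      refine h _ ?_ ?_ ?_ ?_ <;> simp only [A_pt, B_pt] <;> push_cast <;> omega

/-! ### Strips -/

theorem par_bound (hP : P.Ok) {j : ℕ} (hj : j ≤ P.N) :
    (j : ℤ) * P.σ ≤ P.N * P.σ ∧ 0 ≤ (j : ℤ) * P.σ ∧ 8 * ((P.N : ℤ) * P.σ) ≤ P.R ∧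
      16 ≤ (P.σ : ℤ) ∧ 8 * (P.w₀ : ℤ) ≤ P.σ ∧ 4 * (P.σ : ℤ) ≤ P.N * P.σ ∧ 2 ≤ (P.w₀ : ℤ) := by
  have h1 := hP.hw1
  have h2 := hP.hσ
  have h3 := hP.hN
  have h4 := hP.hR
  refine ⟨?_, by positivity, ?_, by omega, by omega, ?_, by omega⟩
  · exact_mod_cast Nat.mul_le_mul_right _ hj
  · have : 8 * (P.N * P.σ) ≤ P.R := by rw [← mul_assoc]; exact h4
    exact_mod_cast this
  · exact_mod_cast Nat.mul_le_mul_right P.σ h3

theorem stripU_subset_box (hP : P.Ok) {j : ℕ} (hj : j ≤ P.N) :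
    P.stripU j ⊆ (box P.R : Set (ℤ × ℤ)) := by
  intro v hv
  obtain ⟨h1, h2, h3⟩ := hv
  obtain ⟨a1, a2, a3, a4, a5, a6, a7⟩ := par_bound hP hj
  rw [Finset.mem_coe, mem_box]
  rw [abs_le] at h1
  have e1 : (4 * (j : ℤ) * P.σ) = 4 * ((j : ℤ) * P.σ) := by ring
  have e2 : (4 * (P.N : ℤ) * P.σ) = 4 * ((P.N : ℤ) * P.σ) := by ring
  rw [e1] at h1
  rw [e2] at h3
  generalize (j : ℤ) * P.σ = J at *
  generalize (P.N : ℤ) * P.σ = N at *
  unfold A B at *
  omega

theorem stripV_subset_box (hP : P.Ok) {i : ℕ} (hi : i ≤ P.N) :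
    P.stripV i ⊆ (box P.R : Set (ℤ × ℤ)) := by
  intro v hv
  obtain ⟨h1, h2, h3⟩ := hv
  obtain ⟨a1, a2, a3, a4, a5, a6, a7⟩ := par_bound hP hi
  rw [Finset.mem_coe, mem_box]
  rw [abs_le] at h1
  have e1 : (4 * (i : ℤ) * P.σ) = 4 * ((i : ℤ) * P.σ) := by ring
  have e2 : (4 * (P.N : ℤ) * P.σ) = 4 * ((P.N : ℤ) * P.σ) := by ring
  rw [e1] at h1
  rw [e2] at h3
  generalize (i : ℤ) * P.σ = J at *
  generalize (P.N : ℤ) * P.σ = N at *
  unfold A B at *
  omega

theorem lineU_mem (hP : P.Ok) (hw : ∀ e, 0 ≤ w e) {j : ℕ} (hj : j ≤ P.N) :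
    P.lineU w j ∈ minPaths w (P.stripU j) _ _ := by
  refine pick_mem ?_
  have hfin : (P.stripU j).Finite := (box P.R).finite_toSet.subset (stripU_subset_box hP hj)
  obtain ⟨a1, a2, a3, a4, a5, a6, a7⟩ := par_bound hP hj
  obtain ⟨p, hp⟩ := zigU (P.stripU j) (2 * j * P.σ) (2 * P.N * P.σ) 0 (by
    intro v h1 h2 h3 h4
    push_cast at h2
    refine ⟨?_, ?_, ?_⟩
    · rw [abs_le]
      constructor <;> linarith
    · linarith
    · linarith)
  have e : (0 : ℤ) + ((2 * P.N * P.σ : ℕ) : ℤ) = 2 * P.N * P.σ := by push_cast; ring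
  obtain ⟨q, hq, -⟩ := exists_minPath hw hfin (isIn_copy rfl (by rw [e]) hp :
    IsIn (P.stripU j) (p.copy rfl (by rw [e])))
  exact ⟨q, hq⟩

theorem lineV_mem (hP : P.Ok) (hw : ∀ e, 0 ≤ w e) {i : ℕ} (hi : i ≤ P.N) :
    P.lineV w i ∈ minPaths w (P.stripV i) _ _ := by
  refine pick_mem ?_
  have hfin : (P.stripV i).Finite := (box P.R).finite_toSet.subset (stripV_subset_box hP hi)
  obtain ⟨a1, a2, a3, a4, a5, a6, a7⟩ := par_bound hP hi
  obtain ⟨p, hp⟩ := zigV (P.stripV i) (2 * i * P.σ) (2 * P.N * P.σ) 0 (by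
    intro v h1 h2 h3 h4
    push_cast at h2
    refine ⟨?_, ?_, ?_⟩
    · rw [abs_le]
      constructor <;> linarith
    · linarith
    · linarith)
  have e : (0 : ℤ) + ((2 * P.N * P.σ : ℕ) : ℤ) = 2 * P.N * P.σ := by push_cast; ring
  obtain ⟨q, hq, -⟩ := exists_minPath hw hfin (isIn_copy rfl (by rw [e]) hp :
    IsIn (P.stripV i) (p.copy rfl (by rw [e])))
  exact ⟨q, hq⟩

/-! ### Generic estimates for nearly optimal walks -/

/-- A walk in `D` of weight at most `c L + E` along which `f` grows from `0` to `L`, in a field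
where passage times are at least `c (|Δ f| + |Δ g|) - E`. -/
structure Near (w : Sym2 (ℤ × ℤ) → ℝ) (D : Set (ℤ × ℤ)) (c E : ℝ) (f g : ℤ × ℤ → ℤ) (L : ℤ)
    {x y : ℤ × ℤ} (p : Z2.Walk x y) : Prop where
  hc : 0 < c
  nonneg : ∀ e, 0 ≤ w e
  low : ∀ u ∈ D, ∀ v ∈ D, c * (|(f u - f v : ℤ)| + |(g u - g v : ℤ)| : ℤ) - E ≤ TT w D u v
  isIn : IsIn D p
  start : f x = 0
  stop : f y = L
  up : wt w p ≤ c * L + E

namespace Near

variable {D : Set (ℤ × ℤ)} {c E : ℝ} {f g : ℤ × ℤ → ℤ} {L : ℤ} {x y : ℤ × ℤ} {p : Z2.Walk x y}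

theorem getVert_mem (h : Near w D c E f g L p) (t : ℕ) : p.getVert t ∈ D :=
  h.isIn _ (p.getVert_mem_support t)

theorem low_seg (h : Near w D c E f g L p) {s t : ℕ} (hst : s ≤ t) (ht : t ≤ p.length) :
    c * (|(f (p.getVert s) - f (p.getVert t) : ℤ)| + |(g (p.getVert s) - g (p.getVert t) : ℤ)|
      : ℤ) - E ≤ segw w p s t :=
  (h.low _ (h.getVert_mem s) _ (h.getVert_mem t)).trans (TT_le_segw h.nonneg h.isIn hst ht)

/-- Upper bound for the weight of a piece. -/
theorem segw_le (h : Near w D c E f g L p) {s t : ℕ} (hst : s ≤ t) (ht : t ≤ p.length) :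
    segw w p s t ≤ c * (f (p.getVert t) - f (p.getVert s) : ℤ) + 3 * E := by
  have h1 := h.low_seg (Nat.zero_le s) (hst.trans ht)
  have h2 := h.low_seg ht le_rfl
  have h3 : wt w p = segw w p 0 s + segw w p s t + segw w p t p.length := by
    rw [wt_eq_segw, segw_add w p (Nat.zero_le s) hst, segw_add w p (Nat.zero_le t) ht]
  have h4 := h.up
  rw [p.getVert_zero, h.start] at h1
  rw [p.getVert_length, h.stop] at h2
  have h5 : (f (p.getVert s) : ℤ) ≤ |(0 - f (p.getVert s) : ℤ)| + |g x - g (p.getVert s)| := by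
    have e1 := neg_abs_le (0 - f (p.getVert s) : ℤ)
    have e2 := abs_nonneg (g x - g (p.getVert s))
    linarith
  have h6 : L - f (p.getVert t) ≤ |(f (p.getVert t) - L : ℤ)| + |g (p.getVert t) - g y| := by
    have e1 := neg_abs_le (f (p.getVert t) - L : ℤ)
    have e2 := abs_nonneg (g (p.getVert t) - g y)
    linarith
  have h7 : c * ((f (p.getVert s) : ℤ) : ℝ) ≤ c * ((|(0 - f (p.getVert s) : ℤ)| +
      |g x - g (p.getVert s)| : ℤ) : ℝ) :=
    mul_le_mul_of_nonneg_left (by exact_mod_cast h5) h.hc.le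
  have h8 : c * ((L - f (p.getVert t) : ℤ) : ℝ) ≤ c * ((|(f (p.getVert t) - L : ℤ)| +
      |g (p.getVert t) - g y| : ℤ) : ℝ) :=
    mul_le_mul_of_nonneg_left (by exact_mod_cast h6) h.hc.le
  rw [Int.cast_sub] at h8 ⊢
  nlinarith [h1, h2, h3, h4, h7, h8]

/-- The walk hardly moves back. -/
theorem backtrack (h : Near w D c E f g L p) {s t : ℕ} (hst : s ≤ t) (ht : t ≤ p.length) :
    c * ((f (p.getVert s) - f (p.getVert t) : ℤ) : ℝ) ≤ 2 * E := by
  have h1 := h.segw_le hst ht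
  have h2 := h.low_seg hst ht
  have h5 : f (p.getVert s) - f (p.getVert t) ≤ |(f (p.getVert s) - f (p.getVert t) : ℤ)| +
      |g (p.getVert s) - g (p.getVert t)| := by
    have e1 := le_abs_self (f (p.getVert s) - f (p.getVert t) : ℤ)
    have e2 := abs_nonneg (g (p.getVert s) - g (p.getVert t))
    linarith
  have h7 : c * ((f (p.getVert s) - f (p.getVert t) : ℤ) : ℝ) ≤
      c * ((|(f (p.getVert s) - f (p.getVert t) : ℤ)| +
      |g (p.getVert s) - g (p.getVert t)| : ℤ) : ℝ) :=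
    mul_le_mul_of_nonneg_left (by exact_mod_cast h5) h.hc.le
  have h8 : c * ((f (p.getVert t) - f (p.getVert s) : ℤ) : ℝ) =
      -(c * ((f (p.getVert s) - f (p.getVert t) : ℤ) : ℝ)) := by push_cast; ring
  linarith [h1, h2, h7, h8]

/-- Confinement of the walk. -/
theorem confined (h : Near w D c E f g L p) {g₀ : ℤ} (hgx : g x = g₀) (hgy : g y = g₀)
    {v : ℤ × ℤ} (hv : v ∈ p.support) :
    c * ((|f v| + |L - f v| - L + 2 * |g v - g₀| : ℤ) : ℝ) ≤ 3 * E := by
  obtain ⟨t, rfl, ht⟩ := exists_getVert p hv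
  have h1 := h.low_seg (Nat.zero_le t) ht
  have h2 := h.low_seg ht le_rfl
  have h3 : wt w p = segw w p 0 t + segw w p t p.length := by
    rw [wt_eq_segw, segw_add w p (Nat.zero_le t) ht]
  have h4 := h.up
  rw [p.getVert_zero, h.start, hgx] at h1
  rw [p.getVert_length, h.stop, hgy] at h2
  have e : ((|f (p.getVert t)| + |L - f (p.getVert t)| - L + 2 * |g (p.getVert t) - g₀| : ℤ) : ℝ)
      = ((|(0 - f (p.getVert t) : ℤ)| + |g₀ - g (p.getVert t)| : ℤ) : ℝ) +
        ((|(f (p.getVert t) - L : ℤ)| + |g (p.getVert t) - g₀| : ℤ) : ℝ) - (L : ℝ) := by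
    rw [zero_sub, abs_neg, abs_sub_comm g₀, abs_sub_comm _ L]
    push_cast
    ring
  rw [e]
  nlinarith [h1, h2, h3, h4]

end Near

/-- The lower bound in the form used by `Near`, first kind. -/
theorem low_UD (hG : P.Good w) : ∀ u ∈ (box P.R : Set (ℤ × ℤ)), ∀ v ∈ (box P.R : Set (ℤ × ℤ)),
    P.c * (|(A u - A v : ℤ)| + |(B u - B v : ℤ)| : ℤ) - P.E₂ ≤ TT w (box P.R) u v :=
  fun u hu v hv => hG.low₂ u hu v hv

theorem low_VD (hG : P.Good w) : ∀ u ∈ (box P.R : Set (ℤ × ℤ)), ∀ v ∈ (box P.R : Set (ℤ × ℤ)),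
    P.c * (|(B u - B v : ℤ)| + |(A u - A v : ℤ)| : ℤ) - P.E₂ ≤ TT w (box P.R) u v := by
  intro u hu v hv
  have := hG.low₂ u hu v hv
  rw [add_comm (|B u - B v|)]
  exact this

theorem E₂_le (hP : P.Ok) : 4 * P.E₂ ≤ P.c * P.w₀ := hP.hw

theorem pt_mem_box (hP : P.Ok) {a b : ℤ} (ha : |a| ≤ 2 * P.N * P.σ) (hb : |b| ≤ 2 * P.N * P.σ) :
    pt a b ∈ (box P.R : Set (ℤ × ℤ)) := by
  obtain ⟨a1, a2, a3, a4, a5, a6, a7⟩ := par_bound hP le_rfl
  rw [Finset.mem_coe, mem_box]
  rw [abs_le] at ha hb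
  unfold pt
  simp only
  have e2 : (2 * (P.N : ℤ) * P.σ) = 2 * ((P.N : ℤ) * P.σ) := by ring
  rw [e2] at ha hb
  generalize (P.N : ℤ) * P.σ = N at *
  omega

theorem wt_lineU_le (hP : P.Ok) (hG : P.Good w) {j : ℕ} (hj : j ≤ P.N) :
    wt w (P.lineU w j) ≤ P.c * (4 * P.N * P.σ) + P.E₂ := by
  obtain ⟨a1, a2, a3, a4, a5, a6, a7⟩ := par_bound hP hj
  have hNσ : (0 : ℤ) ≤ P.N * P.σ := by positivity
  have hx : pt 0 (2 * j * P.σ) ∈ (box P.R : Set (ℤ × ℤ)) :=
    pt_mem_box hP (by rw [abs_zero]; linarith) (by rw [abs_of_nonneg (by linarith)]; linarith)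
  have hy : pt (2 * P.N * P.σ) (2 * j * P.σ) ∈ (box P.R : Set (ℤ × ℤ)) :=
    pt_mem_box hP (by rw [abs_of_nonneg (by linarith)])
      (by rw [abs_of_nonneg (by linarith)]; linarith)
  obtain ⟨p0, hp0, -⟩ := box_walk hx hy
  obtain ⟨p, hp, hpw⟩ := exists_minPath hG.nonneg (box P.R).finite_toSet hp0
  have hN : Near w (box P.R) P.c P.E₂ A B (4 * P.N * P.σ) p := by
    refine ⟨hP.hc, hG.nonneg, low_UD hG, hp.2.1, by simp, by rw [A_pt]; ring, ?_⟩
    rw [hpw]
    refine (hG.upU j hj).trans_eq ?_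
    push_cast
    ring
  have hstrip : IsIn (P.stripU j) p := by
    intro v hv
    have h1 := hN.confined (g₀ := 4 * j * P.σ) (by rw [B_pt]; ring) (by rw [B_pt]; ring) hv
    have h2 : P.c * ((|A v| + |4 * P.N * P.σ - A v| - 4 * P.N * P.σ +
        2 * |B v - 4 * j * P.σ| : ℤ) : ℝ) ≤ P.c * (P.w₀ : ℝ) := by
      have := hP.hw
      have := hP.hE₂
      linarith
    have h3 : (|A v| + |4 * P.N * P.σ - A v| - 4 * P.N * P.σ +
        2 * |B v - 4 * j * P.σ| : ℤ) ≤ P.w₀ := by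
      have := le_of_mul_le_mul_left h2 hP.hc
      exact_mod_cast this
    have e2 : (4 * (P.N : ℤ) * P.σ) = 4 * ((P.N : ℤ) * P.σ) := by ring
    refine ⟨?_, ?_, ?_⟩
    · have := le_abs_self (A v)
      have := le_abs_self (4 * P.N * P.σ - A v)
      have := abs_nonneg (B v - 4 * j * P.σ)
      linarith
    · have := neg_abs_le (A v)
      have := le_abs_self (4 * P.N * P.σ - A v)
      have := abs_nonneg (B v - 4 * j * P.σ)
      by_contra hcon
      push Not at hcon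
      have h5 := abs_of_neg (show A v < 0 by linarith)
      rw [h5] at h3
      linarith
    · have := le_abs_self (A v)
      have := abs_nonneg (B v - 4 * j * P.σ)
      by_contra hcon
      push Not at hcon
      have h5 := abs_of_neg (show 4 * (P.N : ℤ) * P.σ - A v < 0 by linarith)
      rw [h5] at h3
      linarith
  have hmin := (lineU_mem hP hG.nonneg hj).2.2 p hstrip
  refine hmin.trans ?_
  rw [hpw]
  exact hG.upU j hj

theorem wt_lineV_le (hP : P.Ok) (hG : P.Good w) {i : ℕ} (hi : i ≤ P.N) :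
    wt w (P.lineV w i) ≤ P.c * (4 * P.N * P.σ) + P.E₂ := by
  obtain ⟨a1, a2, a3, a4, a5, a6, a7⟩ := par_bound hP hi
  have hNσ : (0 : ℤ) ≤ P.N * P.σ := by positivity
  have hx : pt (2 * i * P.σ) 0 ∈ (box P.R : Set (ℤ × ℤ)) :=
    pt_mem_box hP (by rw [abs_of_nonneg (by linarith)]; linarith) (by rw [abs_zero]; linarith)
  have hy : pt (2 * i * P.σ) (2 * P.N * P.σ) ∈ (box P.R : Set (ℤ × ℤ)) :=
    pt_mem_box hP (by rw [abs_of_nonneg (by linarith)]; linarith)
      (by rw [abs_of_nonneg (by linarith)])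
  obtain ⟨p0, hp0, -⟩ := box_walk hx hy
  obtain ⟨p, hp, hpw⟩ := exists_minPath hG.nonneg (box P.R).finite_toSet hp0
  have hN : Near w (box P.R) P.c P.E₂ B A (4 * P.N * P.σ) p := by
    refine ⟨hP.hc, hG.nonneg, low_VD hG, hp.2.1, by simp, by rw [B_pt]; ring, ?_⟩
    rw [hpw]
    refine (hG.upV i hi).trans_eq ?_
    push_cast
    ring
  have hstrip : IsIn (P.stripV i) p := by
    intro v hv
    have h1 := hN.confined (g₀ := 4 * i * P.σ) (by rw [A_pt]; ring) (by rw [A_pt]; ring) hv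
    have h2 : P.c * ((|B v| + |4 * P.N * P.σ - B v| - 4 * P.N * P.σ +
        2 * |A v - 4 * i * P.σ| : ℤ) : ℝ) ≤ P.c * (P.w₀ : ℝ) := by
      have := hP.hw
      have := hP.hE₂
      linarith
    have h3 : (|B v| + |4 * P.N * P.σ - B v| - 4 * P.N * P.σ +
        2 * |A v - 4 * i * P.σ| : ℤ) ≤ P.w₀ := by
      have := le_of_mul_le_mul_left h2 hP.hc
      exact_mod_cast this
    refine ⟨?_, ?_, ?_⟩
    · have := le_abs_self (B v)
      have := le_abs_self (4 * P.N * P.σ - B v)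
      have := abs_nonneg (A v - 4 * i * P.σ)
      linarith
    · have := le_abs_self (4 * P.N * P.σ - B v)
      have := abs_nonneg (A v - 4 * i * P.σ)
      by_contra hcon
      push Not at hcon
      have h5 := abs_of_neg (show B v < 0 by linarith)
      rw [h5] at h3
      linarith
    · have := le_abs_self (B v)
      have := abs_nonneg (A v - 4 * i * P.σ)
      by_contra hcon
      push Not at hcon
      have h5 := abs_of_neg (show 4 * (P.N : ℤ) * P.σ - B v < 0 by linarith)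
      rw [h5] at h3
      linarith
  have hmin := (lineV_mem hP hG.nonneg hi).2.2 p hstrip
  refine hmin.trans ?_
  rw [hpw]
  exact hG.upV i hi

end Pool.Agent.Helper33_FPP
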