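import Pool.Agent.Helper33_FPP.Sums
import Pool.Agent.Helper33_FPP.MidE

/-!
# Lowering weights in the middle of a line
-/

set_option autoImplicit false

namespace Pool.Agent.Helper33_FPP

open Finset

variable {P : Par} {w w' : Sym2 (ℤ × ℤ) → ℝ}

/-- The minimal paths in a region depend only on the weights of the edges in the region. -/
theorem minPaths_congr {D : Set (ℤ × ℤ)} {x y : ℤ × ℤ}
    (h : ∀ e : Sym2 (ℤ × ℤ), (∀ v ∈ e, v ∈ D) → w e = w' e) :
    minPaths w D x y = minPaths w' D x y := by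
  have hwt : ∀ q : Z2.Walk x y, IsIn D q → wt w q = wt w' q := by
    intro q hq
    apply wt_congr
    intro e he
    exact h e fun v hv => hq v (q.mem_support_of_mem_edges he hv)
  ext p
  constructor
  · rintro ⟨h1, h2, h3⟩
    exact ⟨h1, h2, fun q hq => by rw [← hwt p h2, ← hwt q hq]; exact h3 q hq⟩
  · rintro ⟨h1, h2, h3⟩
    exact ⟨h1, h2, fun q hq => by rw [hwt p h2, hwt q hq]; exact h3 q hq⟩

theorem segw_congr_in {D : Set (ℤ × ℤ)} {x y : ℤ × ℤ} {p : Z2.Walk x y} (hp : IsIn D p)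
    (h : ∀ e : Sym2 (ℤ × ℤ), (∀ v ∈ e, v ∈ D) → w e = w' e) (i j : ℕ) :
    segw w p i j = segw w' p i j := by
  unfold segw
  refine Finset.sum_congr rfl fun t _ => h _ ?_
  intro v hv
  rw [Sym2.mem_iff] at hv
  rcases hv with rfl | rfl
  · exact hp _ (p.getVert_mem_support _)
  · exact hp _ (p.getVert_mem_support _)

/-- The edges of `midE` lie between the crossing points. -/
theorem midE_between (hP : P.Ok) (hG : P.Good w) {i j : ℕ} (hi : 1 ≤ i)
    (hi' : i + 2 ≤ P.N) (hj : 1 ≤ j) (hj' : j + 1 ≤ P.N) {t : ℕ} (ht : t < (P.lineU w j).length)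
    (h1 : 4 * i * P.σ + P.σ ≤ A ((P.lineU w j).getVert t))
    (h2 : A ((P.lineU w j).getVert t) ≤ 4 * i * P.σ + 3 * P.σ) :
    pos (P.lineU w j) (P.cr w i j) ≤ t ∧ t + 1 ≤ pos (P.lineU w j) (P.cr w (i + 1) j) := by
  have hσ : (8 : ℝ) * P.w₀ ≤ P.σ := by exact_mod_cast hP.hσ
  have hw1 : (2 : ℝ) ≤ P.w₀ := by exact_mod_cast hP.hw1
  have hw := hP.hw
  have hc := hP.hc
  have hE := hP.hE₂
  have hu1 := cr_mem_U hP hG.nonneg hi (by omega : i + 1 ≤ P.N) hj hj'
  have hu2 := cr_mem_V hP hG.nonneg hi (by omega : i + 1 ≤ P.N) hj hj'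
  have hv1 := cr_mem_U hP hG.nonneg (by omega : 1 ≤ i + 1) (by omega : i + 1 + 1 ≤ P.N) hj hj'
  have hv2 := cr_mem_V hP hG.nonneg (by omega : 1 ≤ i + 1) (by omega : i + 1 + 1 ≤ P.N) hj hj'
  have hsu := (lineV_mem hP hG.nonneg (i := i) (by omega)).2.1 _ hu2
  have hsv := (lineV_mem hP hG.nonneg (i := i + 1) (by omega)).2.1 _ hv2
  have hau : (A (P.cr w i j) : ℝ) ≤ 4 * i * P.σ + P.w₀ := by
    have := (abs_le.1 hsu.1).2
    have h : A (P.cr w i j) ≤ 4 * i * P.σ + P.w₀ := by linarith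
    exact_mod_cast h
  have hav : (4 * (i + 1) * P.σ - P.w₀ : ℝ) ≤ A (P.cr w (i + 1) j) := by
    have := (abs_le.1 hsv.1).1
    have h : (4 * ((i + 1 : ℕ) : ℤ) * P.σ - P.w₀ : ℤ) ≤ A (P.cr w (i + 1) j) := by linarith
    exact_mod_cast h
  have h1' : (4 * i * P.σ + P.σ : ℝ) ≤ A ((P.lineU w j).getVert t) := by exact_mod_cast h1
  have h2' : (A ((P.lineU w j).getVert t) : ℝ) ≤ 4 * i * P.σ + 3 * P.σ := by exact_mod_cast h2
  constructor
  · by_contra hn
    push Not at hn
    have hb := backtrack_U hP hG (j := j) (by omega) hn.le (pos_le_length _ hu1)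
    rw [getVert_pos _ hu1] at hb
    push_cast at hb
    nlinarith
  · by_contra hn
    push Not at hn
    have hb := backtrack_U hP hG (j := j) (by omega) (Nat.lt_succ_iff.1 hn) ht.le
    rw [getVert_pos _ hv1] at hb
    push_cast at hb
    nlinarith

theorem modification (hP : P.Ok) (hG : P.Good w) (hG' : P.Good w') {i j : ℕ} (hi : 1 ≤ i)
    (hi' : i + 2 ≤ P.N) (hj : 1 ≤ j) (hj' : j + 3 ≤ P.N) (hle : ∀ e, w' e ≤ w e)
    (hoff : ∀ e, w' e ≠ w e → ∀ v ∈ e, 4 * i * P.σ + P.σ ≤ A v ∧ A v ≤ 4 * i * P.σ + 3 * P.σ ∧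
      |B v - 4 * (j + 1 : ℕ) * P.σ| ≤ P.w₀)
    {U : Finset (Sym2 (ℤ × ℤ))} (hU : U ⊆ P.midE w i (j + 1)) {Δ : ℝ} (hΔ : 0 < Δ)
    (hUΔ : ∀ e ∈ U, w' e ≤ w e - Δ) :
    Δ * U.card - (P.mid w i j - P.dia w i j) ≤ P.bot w' i j - P.dia w' i j := by
  classical
  have hσ : (8 : ℤ) * P.w₀ ≤ P.σ := by exact_mod_cast hP.hσ
  have hw1 : (2 : ℤ) ≤ P.w₀ := by exact_mod_cast hP.hw1
  have hnn : ∀ e, 0 ≤ w' e := hG'.nonneg
  -- weights agree on the strips
  have hne : ∀ e : Sym2 (ℤ × ℤ), ∃ v, v ∈ e := fun e => by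
    induction e with | _ a b => exact ⟨a, Sym2.mem_mk_left a b⟩
  have hUstrip : ∀ j' : ℕ, (j' = j ∨ j' = j + 2) → ∀ e : Sym2 (ℤ × ℤ),
      (∀ v ∈ e, v ∈ P.stripU j') → w e = w' e := by
    intro j' hj'' e he
    by_contra hn
    obtain ⟨v, hv⟩ := hne e
    obtain ⟨_, _, h3⟩ := hoff e (fun h => hn h.symm) v hv
    have h4 := (he v hv).1
    rw [abs_le] at h3 h4
    rcases hj'' with rfl | rfl
    · push_cast at h3 h4
      nlinarith [h3.1, h3.2, h4.1, h4.2]
    · push_cast at h3 h4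
      nlinarith [h3.1, h3.2, h4.1, h4.2]
  have hVstrip : ∀ i' : ℕ, (i' = i ∨ i' = i + 1) → ∀ e : Sym2 (ℤ × ℤ),
      (∀ v ∈ e, v ∈ P.stripV i') → w e = w' e := by
    intro i' hi'' e he
    by_contra hn
    obtain ⟨v, hv⟩ := hne e
    obtain ⟨h1, h2, _⟩ := hoff e (fun h => hn h.symm) v hv
    have h4 := (he v hv).1
    rw [abs_le] at h4
    rcases hi'' with rfl | rfl
    · nlinarith [h4.1, h4.2]
    · push_cast at h4
      nlinarith [h4.1, h4.2]
  have eU0 : P.lineU w' j = P.lineU w j := by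
    unfold Par.lineU
    rw [minPaths_congr (hUstrip j (Or.inl rfl))]
  have eU2 : P.lineU w' (j + 2) = P.lineU w (j + 2) := by
    unfold Par.lineU
    rw [minPaths_congr (hUstrip (j + 2) (Or.inr rfl))]
  have eV0 : P.lineV w' i = P.lineV w i := by
    unfold Par.lineV
    rw [minPaths_congr (hVstrip i (Or.inl rfl))]
  have eV1 : P.lineV w' (i + 1) = P.lineV w (i + 1) := by
    unfold Par.lineV
    rw [minPaths_congr (hVstrip (i + 1) (Or.inr rfl))]
  have c00 : P.cr w' i j = P.cr w i j := by unfold Par.cr; rw [eU0, eV0]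
  have c10 : P.cr w' (i + 1) j = P.cr w (i + 1) j := by unfold Par.cr; rw [eU0, eV1]
  have c12 : P.cr w' (i + 1) (j + 2) = P.cr w (i + 1) (j + 2) := by unfold Par.cr; rw [eU2, eV1]
  -- lines in their strips
  have mU0 := lineU_mem hP hG.nonneg (j := j) (by omega)
  have mU1 := lineU_mem hP hG.nonneg (j := j + 1) (by omega)
  have mV0 := lineV_mem hP hG.nonneg (i := i) (by omega)
  have mV1 := lineV_mem hP hG.nonneg (i := i + 1) (by omega)
  have hbot : P.bot w' i j = P.bot w i j := by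
    unfold Par.bot Par.aU Par.bV2 segv
    rw [eU0, eV1, c00, c10, c12]
    rw [segw_congr_in mU0.2.1 (hUstrip j (Or.inl rfl)),
      segw_congr_in mV1.2.1 (hVstrip (i + 1) (Or.inr rfl))]
  have hdiabot := dia_le_bot hP hG hi hi' hj hj'
  -- the middle route
  set u := P.cr w i (j + 1) with hu
  set v := P.cr w (i + 1) (j + 1) with hv
  set p := P.lineU w (j + 1) with hp
  have huU : u ∈ p.support := cr_mem_U hP hG.nonneg hi (by omega) (by omega) (by omega)
  have huV : u ∈ (P.lineV w i).support := cr_mem_V hP hG.nonneg hi (by omega) (by omega) (by omega)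
  have hvU : v ∈ p.support := cr_mem_U hP hG.nonneg (by omega) (by omega) (by omega) (by omega)
  have hvV : v ∈ (P.lineV w (i + 1)).support :=
    cr_mem_V hP hG.nonneg (by omega) (by omega) (by omega) (by omega)
  have haV : P.cr w i j ∈ (P.lineV w i).support :=
    cr_mem_V hP hG.nonneg hi (by omega) (by omega) (by omega)
  have hbV : P.cr w (i + 1) (j + 2) ∈ (P.lineV w (i + 1)).support :=
    cr_mem_V hP hG.nonneg (by omega) (by omega) (by omega) (by omega)
  have hpb : IsIn (box P.R : Set (ℤ × ℤ)) p := fun z hz =>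
    stripU_subset_box hP (by omega) (mU1.2.1 z hz)
  have hV0b : IsIn (box P.R : Set (ℤ × ℤ)) (P.lineV w i) := fun z hz =>
    stripV_subset_box hP (by omega) (mV0.2.1 z hz)
  have hV1b : IsIn (box P.R : Set (ℤ × ℤ)) (P.lineV w (i + 1)) := fun z hz =>
    stripV_subset_box hP (by omega) (mV1.2.1 z hz)
  have t1 : TT w' (box P.R) (P.cr w i j) u ≤ P.bV w i j := by
    have h := TT_le_segv hnn hV0b haV huV (pos_cr_V hP hG hi (by omega) hj
      (by omega : j < j + 1) (by omega)).le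
    have h2 : segv w' (P.lineV w i) (P.cr w i j) u = P.bV w i j := by
      unfold Par.bV segv
      rw [segw_congr_in mV0.2.1 (hVstrip i (Or.inl rfl))]
    rw [h2] at h
    exact h
  have t3 : TT w' (box P.R) v (P.cr w (i + 1) (j + 2)) ≤ P.bV w (i + 1) (j + 1) := by
    have h := TT_le_segv hnn hV1b hvV hbV (pos_cr_V hP hG (by omega) (by omega) (by omega)
      (by omega : j + 1 < j + 2) (by omega)).le
    have h2 : segv w' (P.lineV w (i + 1)) v (P.cr w (i + 1) (j + 2)) = P.bV w (i + 1) (j + 1) := by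
      unfold Par.bV segv
      rw [segw_congr_in mV1.2.1 (hVstrip (i + 1) (Or.inr rfl))]
    rw [h2] at h
    exact h
  have t2 : TT w' (box P.R) u v ≤ P.aU w i (j + 1) - Δ * U.card := by
    have h := TT_le_segv hnn hpb huU hvU (pos_cr_U hP hG hi (by omega : i < i + 1)
      (by omega) (by omega) (by omega)).le
    refine h.trans ?_
    have h2 : P.aU w i (j + 1) = segv w p u v := rfl
    rw [h2]
    unfold segv segw
    set I := Finset.Ico (pos p u) (pos p v) with hI
    have h3 : ∀ t ∈ I, w' s(p.getVert t, p.getVert (t + 1)) ≤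
        w s(p.getVert t, p.getVert (t + 1)) -
          (if s(p.getVert t, p.getVert (t + 1)) ∈ U then Δ else 0) := by
      intro t _
      split_ifs with hh
      · exact hUΔ _ hh
      · rw [sub_zero]; exact hle _
    have h4 := Finset.sum_le_sum h3
    rw [Finset.sum_sub_distrib] at h4
    have h5 : (U.card : ℝ) * Δ ≤
        ∑ t ∈ I, (if s(p.getVert t, p.getVert (t + 1)) ∈ U then Δ else 0) := by
      rw [← Finset.sum_filter, Finset.sum_const, nsmul_eq_mul]
      refine mul_le_mul_of_nonneg_right ?_ hΔ.le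
      have h6 : U ⊆ (I.filter fun t => s(p.getVert t, p.getVert (t + 1)) ∈ U).image
          (fun t => s(p.getVert t, p.getVert (t + 1))) := by
        intro e he
        have hem := mem_midE.1 (hU he)
        obtain ⟨t, ht, rfl⟩ := exists_index_of_mem_edges _ hem.1
        have hA := hem.2 _ (Sym2.mem_mk_left _ _)
        have hbt := midE_between hP hG hi hi' (j := j + 1) (by omega) (by omega) ht hA.1 hA.2
        rw [Finset.mem_image]
        refine ⟨t, Finset.mem_filter.2 ⟨Finset.mem_Ico.2 ⟨hbt.1, hbt.2⟩, he⟩, rfl⟩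
      exact_mod_cast (Finset.card_le_card h6).trans Finset.card_image_le
    linarith
  -- triangle inequality in the box
  have hab : P.cr w i j ∈ box P.R := hV0b _ haV
  have hub : u ∈ box P.R := hpb _ huU
  have hvb : v ∈ box P.R := hpb _ hvU
  have hbb : P.cr w (i + 1) (j + 2) ∈ box P.R := hV1b _ hbV
  obtain ⟨q1, hq1, -⟩ := box_walk hab hub
  obtain ⟨q2, hq2, -⟩ := box_walk hub hvb
  obtain ⟨q3, hq3, -⟩ := box_walk hvb hbb
  have tr1 := TT_triangle hnn hq1 (isIn_append hq2 hq3)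
  have tr2 := TT_triangle hnn hq2 hq3
  have hdia' : P.dia w' i j = TT w' (box P.R) (P.cr w i j) (P.cr w (i + 1) (j + 2)) := by
    unfold Par.dia
    rw [c00, c12]
  have hmid : P.mid w i j = P.bV w i j + P.aU w i (j + 1) + P.bV w (i + 1) (j + 1) := rfl
  rw [hbot, hdia']
  linarith

theorem modification_line (hP : P.Ok) (hG : P.Good w) (hG' : P.Good w') {i j : ℕ} (hi : 1 ≤ i)
    (hi' : i + 2 ≤ P.N) (hj : 1 ≤ j) (hj' : j + 3 ≤ P.N) (hle : ∀ e, w' e ≤ w e)
    {U : Finset (Sym2 (ℤ × ℤ))} (hU : U ⊆ P.midE w i (j + 1)) (hne : U.Nonempty)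
    (hUΔ : ∀ e ∈ U, w' e < w e) : ∃ e ∈ (P.lineU w' (j + 1)).edges, w' e < w e := by
  by_contra hn
  push Not at hn
  have m := lineU_mem hP hG.nonneg (j := j + 1) (by omega)
  have m' := lineU_mem hP hG'.nonneg (j := j + 1) (by omega)
  have h1 : wt w' (P.lineU w' (j + 1)) = wt w (P.lineU w' (j + 1)) :=
    wt_congr _ fun e he => le_antisymm (hle e) (hn e he)
  have h2 := m.2.2 _ m'.2.1
  have h3 := m'.2.2 _ m.2.1
  obtain ⟨e, he⟩ := hne
  have he' := (mem_midE.1 (hU he)).1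
  have h4 : wt w' (P.lineU w (j + 1)) < wt w (P.lineU w (j + 1)) := by
    unfold wt
    exact List.sum_lt_sum _ _ (fun e _ => hle e) ⟨e, he', hUΔ e he⟩
  linarith

end Pool.Agent.Helper33_FPP
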