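import Pool.Agent.Helper33_FPP.Mod
import Pool.Agent.Helper33_FPP.Block

/-!
# Modification of the weights in the middle of a line, general form
-/

set_option autoImplicit false

namespace Pool.Agent.Helper33_FPP

open Finset

variable {P : Par} {w w' : Sym2 (ℤ × ℤ) → ℝ}

/-- The effect of an improvement of the passage time between the crossing points. -/
theorem modification_core (hP : P.Ok) (hG : P.Good w) (hG' : P.Good w') {i j : ℕ} (hi : 1 ≤ i)
    (hi' : i + 2 ≤ P.N) (hj : 1 ≤ j) (hj' : j + 3 ≤ P.N)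
    (hoff : ∀ e, w' e ≠ w e → ∀ v ∈ e, P.reg i (j + 1) v) {Δ : ℝ}
    (t2 : TT w' (box P.R) (P.cr w i (j + 1)) (P.cr w (i + 1) (j + 1)) ≤ P.aU w i (j + 1) - Δ) :
    Δ - (P.mid w i j - P.dia w i j) ≤ P.bot w' i j - P.dia w' i j := by
  classical
  have hσ : (8 : ℤ) * P.w₀ ≤ P.σ := by exact_mod_cast hP.hσ
  have hw1 : (2 : ℤ) ≤ P.w₀ := by exact_mod_cast hP.hw1
  have hnn : ∀ e, 0 ≤ w' e := hG'.nonneg
  -- weights agree on the strips
  have hne : ∀ e : Sym2 (ℤ × ℤ), ∃ v, v ∈ e := fun e => by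
    induction e with | _ a b => exact ⟨a, Sym2.mem_mk_left a b⟩
  have hUstrip : ∀ j' : ℕ, (j' = j ∨ j' = j + 2) → ∀ e : Sym2 (ℤ × ℤ),
      (∀ v ∈ e, v ∈ P.stripU j') → w e = w' e := by
    intro j' hj'' e he
    by_contra hn
    obtain ⟨v, hv⟩ := hne e
    obtain ⟨_, _, h3⟩ := hoff e (fun h => hn h.symm) v hv
    have h4 := (he v hv).1
    rw [abs_le] at h3 h4
    rcases hj'' with rfl | rfl
    · push_cast at h3 h4
      nlinarith [h3.1, h3.2, h4.1, h4.2]
    · push_cast at h3 h4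
      nlinarith [h3.1, h3.2, h4.1, h4.2]
  have hVstrip : ∀ i' : ℕ, (i' = i ∨ i' = i + 1) → ∀ e : Sym2 (ℤ × ℤ),
      (∀ v ∈ e, v ∈ P.stripV i') → w e = w' e := by
    intro i' hi'' e he
    by_contra hn
    obtain ⟨v, hv⟩ := hne e
    obtain ⟨h1, h2, _⟩ := hoff e (fun h => hn h.symm) v hv
    have h4 := (he v hv).1
    rw [abs_le] at h4
    rcases hi'' with rfl | rfl
    · nlinarith [h4.1, h4.2]
    · push_cast at h4
      nlinarith [h4.1, h4.2]
  have eU0 : P.lineU w' j = P.lineU w j := by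
    unfold Par.lineU
    rw [minPaths_congr (hUstrip j (Or.inl rfl))]
  have eU2 : P.lineU w' (j + 2) = P.lineU w (j + 2) := by
    unfold Par.lineU
    rw [minPaths_congr (hUstrip (j + 2) (Or.inr rfl))]
  have eV0 : P.lineV w' i = P.lineV w i := by
    unfold Par.lineV
    rw [minPaths_congr (hVstrip i (Or.inl rfl))]
  have eV1 : P.lineV w' (i + 1) = P.lineV w (i + 1) := by
    unfold Par.lineV
    rw [minPaths_congr (hVstrip (i + 1) (Or.inr rfl))]
  have c00 : P.cr w' i j = P.cr w i j := by unfold Par.cr; rw [eU0, eV0]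
  have c10 : P.cr w' (i + 1) j = P.cr w (i + 1) j := by unfold Par.cr; rw [eU0, eV1]
  have c12 : P.cr w' (i + 1) (j + 2) = P.cr w (i + 1) (j + 2) := by unfold Par.cr; rw [eU2, eV1]
  -- lines in their strips
  have mU0 := lineU_mem hP hG.nonneg (j := j) (by omega)
  have mU1 := lineU_mem hP hG.nonneg (j := j + 1) (by omega)
  have mV0 := lineV_mem hP hG.nonneg (i := i) (by omega)
  have mV1 := lineV_mem hP hG.nonneg (i := i + 1) (by omega)
  have hbot : P.bot w' i j = P.bot w i j := by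
    unfold Par.bot Par.aU Par.bV2 segv
    rw [eU0, eV1, c00, c10, c12]
    rw [segw_congr_in mU0.2.1 (hUstrip j (Or.inl rfl)),
      segw_congr_in mV1.2.1 (hVstrip (i + 1) (Or.inr rfl))]
  have hdiabot := dia_le_bot hP hG hi hi' hj hj'
  -- the middle route
  set u := P.cr w i (j + 1) with hu
  set v := P.cr w (i + 1) (j + 1) with hv
  set p := P.lineU w (j + 1) with hp
  have huU : u ∈ p.support := cr_mem_U hP hG.nonneg hi (by omega) (by omega) (by omega)
  have huV : u ∈ (P.lineV w i).support := cr_mem_V hP hG.nonneg hi (by omega) (by omega) (by omega)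
  have hvU : v ∈ p.support := cr_mem_U hP hG.nonneg (by omega) (by omega) (by omega) (by omega)
  have hvV : v ∈ (P.lineV w (i + 1)).support :=
    cr_mem_V hP hG.nonneg (by omega) (by omega) (by omega) (by omega)
  have haV : P.cr w i j ∈ (P.lineV w i).support :=
    cr_mem_V hP hG.nonneg hi (by omega) (by omega) (by omega)
  have hbV : P.cr w (i + 1) (j + 2) ∈ (P.lineV w (i + 1)).support :=
    cr_mem_V hP hG.nonneg (by omega) (by omega) (by omega) (by omega)
  have hpb : IsIn (box P.R : Set (ℤ × ℤ)) p := fun z hz =>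
    stripU_subset_box hP (by omega) (mU1.2.1 z hz)
  have hV0b : IsIn (box P.R : Set (ℤ × ℤ)) (P.lineV w i) := fun z hz =>
    stripV_subset_box hP (by omega) (mV0.2.1 z hz)
  have hV1b : IsIn (box P.R : Set (ℤ × ℤ)) (P.lineV w (i + 1)) := fun z hz =>
    stripV_subset_box hP (by omega) (mV1.2.1 z hz)
  have t1 : TT w' (box P.R) (P.cr w i j) u ≤ P.bV w i j := by
    have h := TT_le_segv hnn hV0b haV huV (pos_cr_V hP hG hi (by omega) hj
      (by omega : j < j + 1) (by omega)).le
    have h2 : segv w' (P.lineV w i) (P.cr w i j) u = P.bV w i j := by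
      unfold Par.bV segv
      rw [segw_congr_in mV0.2.1 (hVstrip i (Or.inl rfl))]
    rw [h2] at h
    exact h
  have t3 : TT w' (box P.R) v (P.cr w (i + 1) (j + 2)) ≤ P.bV w (i + 1) (j + 1) := by
    have h := TT_le_segv hnn hV1b hvV hbV (pos_cr_V hP hG (by omega) (by omega) (by omega)
      (by omega : j + 1 < j + 2) (by omega)).le
    have h2 : segv w' (P.lineV w (i + 1)) v (P.cr w (i + 1) (j + 2)) = P.bV w (i + 1) (j + 1) := by
      unfold Par.bV segv
      rw [segw_congr_in mV1.2.1 (hVstrip (i + 1) (Or.inr rfl))]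
    rw [h2] at h
    exact h
  -- triangle inequality in the box
  have hab : P.cr w i j ∈ box P.R := hV0b _ haV
  have hub : u ∈ box P.R := hpb _ huU
  have hvb : v ∈ box P.R := hpb _ hvU
  have hbb : P.cr w (i + 1) (j + 2) ∈ box P.R := hV1b _ hbV
  obtain ⟨q1, hq1, -⟩ := box_walk hab hub
  obtain ⟨q2, hq2, -⟩ := box_walk hub hvb
  obtain ⟨q3, hq3, -⟩ := box_walk hvb hbb
  have tr1 := TT_triangle hnn hq1 (isIn_append hq2 hq3)
  have tr2 := TT_triangle hnn hq2 hq3
  have hdia' : P.dia w' i j = TT w' (box P.R) (P.cr w i j) (P.cr w (i + 1) (j + 2)) := by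
    unfold Par.dia
    rw [c00, c12]
  have hmid : P.mid w i j = P.bV w i j + P.aU w i (j + 1) + P.bV w (i + 1) (j + 1) := rfl
  rw [hbot, hdia']
  linarith

end Pool.Agent.Helper33_FPP
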