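import Pool.Agent.Helper33_FPP.Improve
import Pool.Agent.Helper33_FPP.ModCore

/-!
# Module PC6: effect of lowering the weights of good blocks
-/

set_option autoImplicit false

namespace Pool.Agent.Helper33_FPP

open Finset

namespace ModBAux

theorem mem_OB' {k : ℕ} {z v : ℤ × ℤ} : v ∈ OB k z ↔ dst v (HalfAux.ctr k z) ≤ 3 * k := Iff.rfl

/-- the block of a vertex contains it -/
theorem mem_Bx_blk {k : ℕ} {v z : ℤ × ℤ} (h : HalfAux.blk k v = z) :
    v ∈ Bx (HalfAux.ctr k z) k := by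
  obtain ⟨b1, b2, b3, b4⟩ := HalfAux.blk_spec k v
  rw [h] at b1 b2 b3 b4
  show dst v (HalfAux.ctr k z) ≤ k
  unfold dst
  exact max_le (by omega) (by omega)

theorem Bx_sub_OB {k : ℕ} {v z : ℤ × ℤ} (h : v ∈ Bx (HalfAux.ctr k z) k) : v ∈ OB k z := by
  have h' : dst v (HalfAux.ctr k z) ≤ k := h
  rw [mem_OB']
  omega

theorem getVert_mem_part {x y : ℤ × ℤ} (p : Z2.Walk x y) {i j t : ℕ} (hit : i ≤ t) (htj : t ≤ j)
    (hj : j ≤ p.length) : p.getVert t ∈ (part p i j).support := by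
  unfold part
  rw [SimpleGraph.Walk.support_copy, SimpleGraph.Walk.mem_support_iff_exists_getVert]
  refine ⟨t - i, ?_, ?_⟩
  · rw [SimpleGraph.Walk.take_getVert, SimpleGraph.Walk.drop_getVert]
    congr 1
    omega
  · rw [SimpleGraph.Walk.take_length, SimpleGraph.Walk.drop_length]
    omega

variable {P : Par} {w : Sym2 (ℤ × ℤ) → ℝ}

theorem reg_stripU (hP : P.Ok) {i j : ℕ} (hi' : i + 2 ≤ P.N) {v : ℤ × ℤ} (hv : P.reg i j v) :
    v ∈ P.stripU j := by
  obtain ⟨h1, h2, h3⟩ := hv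
  refine ⟨h3, ?_, ?_⟩
  · have : (0 : ℤ) ≤ 4 * i * P.σ + P.σ := by positivity
    have h4 : (0 : ℤ) ≤ P.w₀ := Int.natCast_nonneg _
    linarith
  · have h4 : (4 * (i : ℤ) + 3) * P.σ ≤ (4 * P.N) * P.σ := by
      apply mul_le_mul_of_nonneg_right _ (Int.natCast_nonneg _)
      have : (i : ℤ) + 2 ≤ P.N := by exact_mod_cast hi'
      linarith
    have h5 : (0 : ℤ) ≤ P.w₀ := Int.natCast_nonneg _
    have h6 : (4 * (i : ℤ) + 3) * P.σ = 4 * i * P.σ + 3 * P.σ := by ring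
    linarith

theorem gblk_spec {a δ : ℝ} {k i j : ℕ} {z : ℤ × ℤ} (hz : z ∈ P.gblk w a δ k i j) :
    BlkGood w a δ k z ∧ (∀ v ∈ OB k z, P.reg i j v) ∧
      ∃ v ∈ (P.lineU w j).support, v ∈ Bx (HalfAux.ctr k z) k := by
  classical
  unfold Par.gblk at hz
  rw [mem_filter] at hz
  obtain ⟨hvis, hg, hreg⟩ := hz
  unfold vis at hvis
  rw [mem_image] at hvis
  obtain ⟨v0, hv0, hv0z⟩ := hvis
  rw [List.mem_toFinset] at hv0
  exact ⟨hg, hreg, v0, hv0, mem_Bx_blk hv0z⟩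

theorem far_of_not_reg {a δ : ℝ} {k i j : ℕ} {z u : ℤ × ℤ} (hz : z ∈ P.gblk w a δ k i j)
    (hu : ¬ P.reg i j u) : 3 * k ≤ dst u (HalfAux.ctr k z) := by
  by_contra hcon
  push Not at hcon
  exact hu ((gblk_spec hz).2.1 u (mem_OB'.2 hcon.le))

end ModBAux

open ModBAux

/-- MODULE PC6, first part. -/
theorem modification_blk {P : Par} {w w' : Sym2 (ℤ × ℤ) → ℝ} (hP : P.Ok) (hG : P.Good w)
    (hG' : P.Good w') {i j : ℕ} (hi : 1 ≤ i) (hi' : i + 2 ≤ P.N) (hj : 1 ≤ j) (hj' : j + 3 ≤ P.N)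
    (hle : ∀ e, w' e ≤ w e) (hoff : ∀ e, w' e ≠ w e → ∀ v ∈ e, P.reg i (j + 1) v)
    {a δ : ℝ} (ha : 0 ≤ a) (hδ : 0 < δ) {k : ℕ} (Bs : Finset (ℤ × ℤ))
    (hBs : Bs ⊆ P.gblk w a δ k i (j + 1)) (hsame : ∀ z ∈ Bs, ∀ z' ∈ Bs, Same z z')
    (hlow : ∀ z ∈ Bs, ∀ e ∈ Z2.edgeSet, (∀ v ∈ e, v ∈ OB k z) → w' e ≤ a) :
    2 * δ * Bs.card - (P.mid w i j - P.dia w i j) ≤ P.bot w' i j - P.dia w' i j := by
  have hσ : (8 : ℤ) * P.w₀ ≤ P.σ := by exact_mod_cast hP.hσ
  have hw1 : (2 : ℤ) ≤ P.w₀ := by exact_mod_cast hP.hw1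
  refine modification_core hP hG hG' hi hi' hj hj' hoff ?_
  set u := P.cr w i (j + 1) with hu
  set v := P.cr w (i + 1) (j + 1) with hv
  set p := P.lineU w (j + 1) with hp
  have mU1 := lineU_mem hP hG.nonneg (j := j + 1) (by omega)
  have mV0 := lineV_mem hP hG.nonneg (i := i) (by omega)
  have mV1 := lineV_mem hP hG.nonneg (i := i + 1) (by omega)
  have huU : u ∈ p.support := cr_mem_U hP hG.nonneg hi (by omega) (by omega) (by omega)
  have huV : u ∈ (P.lineV w i).support := cr_mem_V hP hG.nonneg hi (by omega) (by omega) (by omega)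
  have hvU : v ∈ p.support := cr_mem_U hP hG.nonneg (by omega) (by omega) (by omega) (by omega)
  have hvV : v ∈ (P.lineV w (i + 1)).support :=
    cr_mem_V hP hG.nonneg (by omega) (by omega) (by omega) (by omega)
  have hlt : pos p u < pos p v := pos_cr_U hP hG hi (by omega : i < i + 1)
      (by omega) (by omega) (by omega)
  have hjl : pos p v ≤ p.length := pos_le_length _ hvU
  have e1 : p.getVert (pos p u) = u := getVert_pos _ huU
  have e2 : p.getVert (pos p u + (pos p v - pos p u)) = v := by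
    have : pos p u + (pos p v - pos p u) = pos p v := by omega
    rw [this]
    exact getVert_pos _ hvU
  set p0 : Z2.Walk u v := (part p (pos p u) (pos p v)).copy e1 e2 with hp0
  have hp0s : ∀ x ∈ p0.support, x ∈ p.support := by
    intro x hx
    rw [hp0, SimpleGraph.Walk.support_copy] at hx
    exact support_part_subset _ _ _ _ hx
  have hp0w : wt w p0 = P.aU w i (j + 1) := by
    rw [hp0, wt_copy, wt_part w p hlt.le hjl]
    rfl
  -- the crossing points are not in the middle region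
  have hun : ¬ P.reg i (j + 1) u := by
    rintro ⟨h1, _, _⟩
    have h2 := (abs_le.1 (mV0.2.1 _ huV).1).2
    linarith
  have hvn : ¬ P.reg i (j + 1) v := by
    rintro ⟨_, h1, _⟩
    have h2 := (abs_le.1 (mV1.2.1 _ hvV).1).1
    push_cast at h2
    linarith
  obtain ⟨p', hp's, hp'w⟩ := improve hG.nonneg ha Bs hsame
    (fun z hz => (gblk_spec (hBs hz)).1) (fun e _ => hle e) hlow p0
    (fun z hz => far_of_not_reg (hBs hz) hun) (fun z hz => far_of_not_reg (hBs hz) hvn) (by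
      intro z hz
      obtain ⟨_, hreg, v0, hv0, hv0B⟩ := gblk_spec (hBs hz)
      refine ⟨v0, ?_, hv0B⟩
      have hr0 := hreg v0 (Bx_sub_OB hv0B)
      obtain ⟨t, ht, htl⟩ := exists_getVert p hv0
      have htl' : t < p.length := by
        rcases Nat.lt_or_ge t p.length with h | h
        · exact h
        · exfalso
          rw [p.getVert_of_length_le h] at ht
          have h2 := hr0.2.1
          rw [← ht, A_pt] at h2
          have h4 : (4 * (i : ℤ) + 4) * P.σ ≤ (2 * (2 * P.N)) * P.σ := by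
            apply mul_le_mul_of_nonneg_right _ (Int.natCast_nonneg _)
            have : (i : ℤ) + 2 ≤ P.N := by exact_mod_cast hi'
            linarith
          nlinarith
      have hbt := midE_between hP hG hi hi' (j := j + 1) (by omega) (by omega) htl'
        (by rw [← hp, ht]; exact hr0.1) (by rw [← hp, ht]; exact hr0.2.1)
      rw [hp0, SimpleGraph.Walk.support_copy, ← ht]
      exact getVert_mem_part p hbt.1 (by
        have := hbt.2
        exact (Nat.le_succ t).trans this) hjl)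
  rw [hp0w] at hp'w
  refine le_trans (TT_le hG'.nonneg ?_) hp'w
  intro x hx
  rcases hp's x hx with h | ⟨z, hz, h⟩
  · exact stripU_subset_box hP (by omega) (mU1.2.1 x (hp0s x h))
  · exact stripU_subset_box hP (by omega) (reg_stripU hP hi' ((gblk_spec (hBs hz)).2.1 x h))

/-- MODULE PC6, second part. -/
theorem modification_line_blk {P : Par} {w w' : Sym2 (ℤ × ℤ) → ℝ} (hP : P.Ok) (hG : P.Good w)
    (hG' : P.Good w') {i j : ℕ} (hi : 1 ≤ i) (hi' : i + 2 ≤ P.N) (hj : 1 ≤ j) (hj' : j + 3 ≤ P.N)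
    (hle : ∀ e, w' e ≤ w e)
    {a δ : ℝ} (ha : 0 ≤ a) (hδ : 0 < δ) {k : ℕ} (Bs : Finset (ℤ × ℤ)) (hne : Bs.Nonempty)
    (hBs : Bs ⊆ P.gblk w a δ k i (j + 1)) (hsame : ∀ z ∈ Bs, ∀ z' ∈ Bs, Same z z')
    (hlow : ∀ z ∈ Bs, ∀ e ∈ Z2.edgeSet, (∀ v ∈ e, v ∈ OB k z) → w' e ≤ a) :
    ∃ e ∈ (P.lineU w' (j + 1)).edges, w' e < w e := by
  have hσ : (8 : ℤ) * P.w₀ ≤ P.σ := by exact_mod_cast hP.hσ
  have hw1 : (2 : ℤ) ≤ P.w₀ := by exact_mod_cast hP.hw1
  by_contra hn
  push Not at hn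
  have m := lineU_mem hP hG.nonneg (j := j + 1) (by omega)
  have m' := lineU_mem hP hG'.nonneg (j := j + 1) (by omega)
  have h1 : wt w' (P.lineU w' (j + 1)) = wt w (P.lineU w' (j + 1)) :=
    wt_congr _ fun e he => le_antisymm (hle e) (hn e he)
  have h2 := m.2.2 _ m'.2.1
  have hst : ¬ P.reg i (j + 1) (pt 0 (2 * (j + 1 : ℕ) * P.σ)) := by
    rintro ⟨h3, _, _⟩
    rw [A_pt] at h3
    have : (0 : ℤ) ≤ 4 * i * P.σ := by positivity
    linarith
  have hen : ¬ P.reg i (j + 1) (pt (2 * P.N * P.σ) (2 * (j + 1 : ℕ) * P.σ)) := by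
    rintro ⟨_, h3, _⟩
    rw [A_pt] at h3
    have h4 : (4 * (i : ℤ) + 4) * P.σ ≤ (2 * (2 * P.N)) * P.σ := by
      apply mul_le_mul_of_nonneg_right _ (Int.natCast_nonneg _)
      have : (i : ℤ) + 2 ≤ P.N := by exact_mod_cast hi'
      linarith
    nlinarith
  obtain ⟨p', hp's, hp'w⟩ := improve hG.nonneg ha Bs hsame
    (fun z hz => (gblk_spec (hBs hz)).1) (fun e _ => hle e) hlow (P.lineU w (j + 1))
    (fun z hz => far_of_not_reg (hBs hz) hst) (fun z hz => far_of_not_reg (hBs hz) hen)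
    (fun z hz => (gblk_spec (hBs hz)).2.2)
  have h3 := m'.2.2 p' (by
    intro x hx
    rcases hp's x hx with h | ⟨z, hz, h⟩
    · exact m.2.1 x h
    · exact reg_stripU hP hi' ((gblk_spec (hBs hz)).2.1 x h))
  have h5 : 0 < 2 * δ * (Bs.card : ℝ) := by
    have : (0 : ℝ) < Bs.card := by exact_mod_cast hne.card_pos
    positivity
  linarith

end Pool.Agent.Helper33_FPP
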