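import Pool.Agent.Helper33_FPP.Bypass

/-!
# Definitions for the module NoMoment
-/

set_option autoImplicit false

namespace Pool.Agent.Helper33_FPP

/-- Pairs of points within sup-distance `r + 1` of `v`. -/
noncomputable def near (v : ℤ × ℤ) (r : ℕ) : Finset (Sym2 (ℤ × ℤ)) :=
  ((Finset.Icc (v.1 - (r + 1)) (v.1 + (r + 1))) ×ˢ
    (Finset.Icc (v.2 - (r + 1)) (v.2 + (r + 1)))).sym2

/-- No chain at the scales `ℓ₀ 2^i` around the vertices at distance more than `r` whose box of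
twice the size meets `v`. -/
def FarGood (w : Sym2 (ℤ × ℤ) → ℝ) (M : ℝ) (ℓ₀ r : ℕ) (v : ℤ × ℤ) : Prop :=
  ∀ (u : ℤ × ℤ) (i : ℕ), r < dst u v → dst u v ≤ 20 * (ℓ₀ * 2 ^ i) →
    NoChain w M (Bx u (10 * (ℓ₀ * 2 ^ i))) (ℓ₀ * 2 ^ i)

end Pool.Agent.Helper33_FPP
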