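import Pool.Agent.Helper33_FPP.SurgeryCore
import Pool.Agent.Helper33_FPP.Link

/-! # Surgery (module PB3) -/

set_option autoImplicit false

namespace Pool.Agent.Helper33_FPP

theorem surgery {w : Sym2 (ℤ × ℤ) → ℝ} (hw : ∀ e, 0 ≤ w e) {M : ℝ} (hM : 0 ≤ M) {R : ℕ}
    {x y : ℤ × ℤ} (γ : Z2.Walk x y) (hγp : γ.IsPath) (hγ : IsIn (box R : Set (ℤ × ℤ)) γ)
    (H : Finset (Sym2 (ℤ × ℤ))) (hHM : ∀ e ∈ H, M < w e) (ctr : Sym2 (ℤ × ℤ) → ℤ × ℤ)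
    (rad : Sym2 (ℤ × ℤ) → ℕ) (hctr : ∀ e ∈ H, ctr e ∈ e)
    (hrad : ∀ e ∈ H, 1 ≤ rad e ∧ rad e ≤ R)
    (hno : ∀ e ∈ H, e ∈ γ.edges → NoChain w M (Bx (ctr e) (10 * rad e)) (rad e))
    (hx : ∀ e ∈ H, e ∈ γ.edges → x ∉ Bx (ctr e) (10 * rad e))
    (hy : ∀ e ∈ H, e ∈ γ.edges → y ∉ Bx (ctr e) (10 * rad e)) :
    ∃ γ' : Z2.Walk x y, IsIn (box R : Set (ℤ × ℤ)) γ' ∧
      wt w γ' ≤ ∑ e ∈ γ.edges.toFinset \ H, w e +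
        ∑ e ∈ γ.edges.toFinset ∩ H, M * (20 * (rad e : ℝ) + 1) ^ 2 :=
  surgery_of link hw hM γ hγp hγ H hHM ctr rad hctr hrad hno hx hy

theorem heavy_bad {w : Sym2 (ℤ × ℤ) → ℝ} (hw : ∀ e, 0 ≤ w e) {M b : ℝ} (hM : 0 ≤ M) {R : ℕ}
    {x y : ℤ × ℤ} {γ : Z2.Walk x y}
    (hγ : γ ∈ minPaths (fun e => max 0 (min (w e) b)) (box R : Set (ℤ × ℤ)) x y)
    {e : Sym2 (ℤ × ℤ)} (he : e ∈ γ.edges) (hbe : b < w e) {u : ℤ × ℤ} (hu : u ∈ e) {ℓ : ℕ}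
    (hℓ : 1 ≤ ℓ) (hℓR : ℓ ≤ R) (hb : M * (20 * (ℓ : ℝ) + 1) ^ 2 < b)
    (hx : x ∉ Bx u (10 * ℓ)) (hy : y ∉ Bx u (10 * ℓ)) :
    ¬ NoChain w M (Bx u (10 * ℓ)) ℓ :=
  heavy_bad_of link hw hM hγ he hbe hu hℓ hℓR hb hx hy

end Pool.Agent.Helper33_FPP
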