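import Pool.Agent.Helper33_FPP.NMDefs
import Pool.Agent.Helper33_FPP.Surgery

/-!
# Module PB5c: the deterministic bypass estimate
-/

set_option autoImplicit false

namespace Pool.Agent.Helper33_FPP

open Finset

namespace NMDet

theorem dst_comm (a b : ℤ × ℤ) : dst a b = dst b a := by
  unfold dst
  have h1 : (a.1 - b.1).natAbs = (b.1 - a.1).natAbs := by omega
  have h2 : (a.2 - b.2).natAbs = (b.2 - a.2).natAbs := by omega
  rw [h1, h2]

theorem mem_near {v : ℤ × ℤ} {r : ℕ} {e : Sym2 (ℤ × ℤ)} (he : e ∈ Z2.edgeSet) {u : ℤ × ℤ}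
    (hu : u ∈ e) (hd : dst u v ≤ r) : e ∈ near v r := by
  obtain ⟨u', rfl⟩ := Sym2.mem_iff_exists.1 hu
  have hadj : Z2.Adj u u' := he
  rw [Z2_adj_iff] at hadj
  unfold dst at hd
  have h1 : (u.1 - v.1).natAbs ≤ r := le_trans (le_max_left _ _) hd
  have h2 : (u.2 - v.2).natAbs ≤ r := le_trans (le_max_right _ _) hd
  unfold near
  rw [Finset.mem_sym2_iff]
  intro a ha
  rw [Sym2.mem_iff] at ha
  rw [Finset.mem_product, Finset.mem_Icc, Finset.mem_Icc]
  rcases ha with rfl | rfl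
  · refine ⟨⟨?_, ?_⟩, ?_, ?_⟩ <;> omega
  · refine ⟨⟨?_, ?_⟩, ?_, ?_⟩ <;> omega

/-- at most four edges contain a given vertex -/
theorem card_edges_at (E : Finset (Sym2 (ℤ × ℤ))) (hE : ∀ e ∈ E, e ∈ Z2.edgeSet) (u : ℤ × ℤ)
    (hu : ∀ e ∈ E, u ∈ e) : E.card ≤ 4 := by
  classical
  have hsub : E ⊆ (({(u.1 + 1, u.2), (u.1 - 1, u.2), (u.1, u.2 + 1), (u.1, u.2 - 1)} :
      Finset (ℤ × ℤ)).image (fun v => s(u, v))) := by
    intro e he
    obtain ⟨u', rfl⟩ := Sym2.mem_iff_exists.1 (hu e he)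
    have hadj : Z2.Adj u u' := hE _ he
    rw [Z2_adj_iff] at hadj
    rw [Finset.mem_image]
    refine ⟨u', ?_, rfl⟩
    obtain ⟨a, b⟩ := u
    obtain ⟨a', b'⟩ := u'
    simp only [Finset.mem_insert, Finset.mem_singleton, Prod.mk.injEq]
    simp only at hadj
    omega
  refine (Finset.card_le_card hsub).trans (Finset.card_image_le.trans ?_)
  exact (Finset.card_insert_le _ _).trans (by
    have := Finset.card_insert_le ((u.1 - 1, u.2) : ℤ × ℤ) {(u.1, u.2 + 1), (u.1, u.2 - 1)}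
    have h2 := Finset.card_insert_le ((u.1, u.2 + 1) : ℤ × ℤ) {(u.1, u.2 - 1)}
    rw [Finset.card_singleton] at h2
    omega)

end NMDet

open NMDet

/-- MODULE PB5c. -/
theorem det_bypass {w : Sym2 (ℤ × ℤ) → ℝ} (hw : ∀ e, 0 ≤ w e) {M b : ℝ} (hM : 0 ≤ M)
    {ℓ₀ I R r : ℕ} (hℓ₀ : 1 ≤ ℓ₀) (hb : M * (20 * (ℓ₀ : ℝ) + 1) ^ 2 < b) (hR : ℓ₀ * 2 ^ I ≤ R)
    (hr : 10 * ℓ₀ ≤ r) {x y : ℤ × ℤ} {γ : Z2.Walk x y}
    (hγ : γ ∈ minPaths (fun e => max 0 (min (w e) b)) (box R : Set (ℤ × ℤ)) x y)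
    (hI : ∀ u ∈ box R, NoChain w M (Bx u (10 * (ℓ₀ * 2 ^ I))) (ℓ₀ * 2 ^ I))
    (hx : FarGood w M ℓ₀ r x) (hy : FarGood w M ℓ₀ r y) (c : ℕ → ℕ)
    (hc : ∀ i < I, {u ∈ (γ.support.toFinset : Set (ℤ × ℤ)) |
      ¬ NoChain w M (Bx u (10 * (ℓ₀ * 2 ^ i))) (ℓ₀ * 2 ^ i)}.ncard ≤ c i) :
    ∃ γ' : Z2.Walk x y, wt w γ' ≤ wt (fun e => max 0 (min (w e) b)) γ +
      ∑ e ∈ near x r, w e + ∑ e ∈ near y r, w e +
      ∑ i ∈ Finset.range I, 4 * (M * (40 * ((ℓ₀ : ℝ) * 2 ^ i) + 1) ^ 2) * c i := by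
  classical
  have hℓR : ℓ₀ ≤ R := le_trans (Nat.le_mul_of_pos_right _ (by positivity)) hR
  have hMb : M < b := by
    refine lt_of_le_of_lt ?_ hb
    have h1 : (1 : ℝ) ≤ (20 * (ℓ₀ : ℝ) + 1) ^ 2 := by
      have : (0 : ℝ) ≤ ℓ₀ := Nat.cast_nonneg _
      nlinarith
    nlinarith
  set ctr : Sym2 (ℤ × ℤ) → ℤ × ℤ := fun e => e.out.1 with hctr
  have hctrm : ∀ e, ctr e ∈ e := fun e => Sym2.out_fst_mem e
  set G : ℤ × ℤ → Set ℕ := fun u => {i | NoChain w M (Bx u (10 * (ℓ₀ * 2 ^ i))) (ℓ₀ * 2 ^ i)} with hG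
  set idx : ℤ × ℤ → ℕ := fun u => sInf (G u) with hidx
  set rad : Sym2 (ℤ × ℤ) → ℕ := fun e => ℓ₀ * 2 ^ idx (ctr e) with hrad
  have hidxI : ∀ u ∈ box R, idx u ≤ I := fun u hu => Nat.sInf_le (hI u hu)
  have hidxG : ∀ u ∈ box R, idx u ∈ G u := fun u hu => Nat.sInf_mem ⟨I, hI u hu⟩
  have hidxF : ∀ u i, i < idx u → ¬ NoChain w M (Bx u (10 * (ℓ₀ * 2 ^ i))) (ℓ₀ * 2 ^ i) :=
    fun u i hi h => Nat.notMem_of_lt_sInf hi h
  have hEedge : ∀ e ∈ γ.edges, e ∈ Z2.edgeSet := fun e he => γ.edges_subset_edgeSet he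
  have hEsupp : ∀ e ∈ γ.edges, ctr e ∈ γ.support := fun e he =>
    γ.mem_support_of_mem_edges he (hctrm e)
  have hEbox : ∀ e ∈ γ.edges, ctr e ∈ box R := fun e he => hγ.2.1 _ (hEsupp e he)
  set E := γ.edges.toFinset with hE
  set H : Finset (Sym2 (ℤ × ℤ)) := E.filter (fun e => b < w e ∧ x ∉ Bx (ctr e) (10 * rad e) ∧
    y ∉ Bx (ctr e) (10 * rad e)) with hH
  have hHE : ∀ e ∈ H, e ∈ γ.edges := fun e he => by
    rw [hH, Finset.mem_filter, hE, List.mem_toFinset] at he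
    exact he.1
  have hradle : ∀ e, ℓ₀ ≤ rad e := fun e => Nat.le_mul_of_pos_right _ (by positivity)
  obtain ⟨γ', _, hγ'⟩ := surgery hw hM (R := R) γ hγ.1 hγ.2.1 H
    (fun e he => by
      rw [hH, Finset.mem_filter] at he
      exact hMb.trans he.2.1) ctr rad (fun e _ => hctrm e)
    (fun e he => ⟨hℓ₀.trans (hradle e), le_trans (Nat.mul_le_mul_left _
      (Nat.pow_le_pow_right (by norm_num) (hidxI _ (hEbox e (hHE e he))))) hR⟩)
    (fun e _ he => hidxG _ (hEbox e he))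
    (fun e he _ => by
      rw [hH, Finset.mem_filter] at he
      exact he.2.2.1)
    (fun e he _ => by
      rw [hH, Finset.mem_filter] at he
      exact he.2.2.2)
  refine ⟨γ', hγ'.trans ?_⟩
  -- first part
  have hnear : ∀ v : ℤ × ℤ, FarGood w M ℓ₀ r v → ∀ e ∈ E, v ∈ Bx (ctr e) (10 * rad e) →
      e ∈ near v r := by
    intro v hv e he hve
    rw [hE, List.mem_toFinset] at he
    refine mem_near (hEedge e he) (hctrm e) ?_
    by_contra hcon
    push Not at hcon
    have hd : dst v (ctr e) ≤ 10 * rad e := hve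
    rw [dst_comm] at hd
    rcases Nat.eq_zero_or_pos (idx (ctr e)) with h0 | h0
    · have : rad e = ℓ₀ := by
        show ℓ₀ * 2 ^ idx (ctr e) = ℓ₀
        rw [h0]; simp
      rw [this] at hd
      omega
    · obtain ⟨j, hj⟩ : ∃ j, idx (ctr e) = j + 1 := ⟨idx (ctr e) - 1, by omega⟩
      refine hidxF (ctr e) j (by omega) (hv (ctr e) j hcon ?_)
      refine hd.trans (le_of_eq ?_)
      show 10 * (ℓ₀ * 2 ^ idx (ctr e)) = _
      rw [hj, pow_succ]
      ring
  have h1 : ∑ e ∈ E \ H, w e ≤ wt (fun e => max 0 (min (w e) b)) γ +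
      ∑ e ∈ near x r, w e + ∑ e ∈ near y r, w e := by
    have hsum : wt (fun e => max 0 (min (w e) b)) γ = ∑ e ∈ E, max 0 (min (w e) b) := by
      rw [hE, List.sum_toFinset _ hγ.1.isTrail.edges_nodup]
      rfl
    have hle : ∀ e ∈ E \ H, w e ≤ max 0 (min (w e) b) + (if e ∈ near x r then w e else 0) +
        (if e ∈ near y r then w e else 0) := by
      intro e he
      rw [Finset.mem_sdiff] at he
      have i1 : 0 ≤ (if e ∈ near x r then w e else 0) := by
        split_ifs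
        · exact hw e
        · exact le_rfl
      have i2 : 0 ≤ (if e ∈ near y r then w e else 0) := by
        split_ifs
        · exact hw e
        · exact le_rfl
      have i3 : 0 ≤ max 0 (min (w e) b) := le_max_left _ _
      rcases le_or_gt (w e) b with hwb | hwb
      · have : max 0 (min (w e) b) = w e := by rw [min_eq_left hwb, max_eq_right (hw e)]
        linarith
      · have hne : ¬ (x ∉ Bx (ctr e) (10 * rad e) ∧ y ∉ Bx (ctr e) (10 * rad e)) := by
          intro hcon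
          apply he.2
          rw [hH, Finset.mem_filter]
          exact ⟨he.1, hwb, hcon⟩
        rw [not_and_or, not_not, not_not] at hne
        rcases hne with h | h
        · rw [if_pos (hnear x hx e he.1 h)] at *
          linarith
        · rw [if_pos (hnear y hy e he.1 h)] at *
          linarith
    refine (Finset.sum_le_sum hle).trans ?_
    rw [Finset.sum_add_distrib, Finset.sum_add_distrib, Finset.sum_ite_mem, Finset.sum_ite_mem,
      hsum]
    refine add_le_add (add_le_add ?_ ?_) ?_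
    · exact Finset.sum_le_sum_of_subset_of_nonneg Finset.sdiff_subset
        (fun e _ _ => le_max_left _ _)
    · exact Finset.sum_le_sum_of_subset_of_nonneg Finset.inter_subset_right (fun e _ _ => hw e)
    · exact Finset.sum_le_sum_of_subset_of_nonneg Finset.inter_subset_right (fun e _ _ => hw e)
  -- second part
  have hpos : ∀ e ∈ H, ∃ j, idx (ctr e) = j + 1 ∧ j < I := by
    intro e he
    have heE := hHE e he
    have hle := hidxI _ (hEbox e heE)
    rcases Nat.eq_zero_or_pos (idx (ctr e)) with h0 | h0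
    · exfalso
      have hr0 : rad e = ℓ₀ := by
        show ℓ₀ * 2 ^ idx (ctr e) = ℓ₀
        rw [h0]; simp
      rw [hH, Finset.mem_filter] at he
      have h2 := hidxG _ (hEbox e heE)
      rw [h0] at h2
      have h3 : NoChain w M (Bx (ctr e) (10 * (ℓ₀ * 2 ^ 0))) (ℓ₀ * 2 ^ 0) := h2
      rw [pow_zero, mul_one] at h3
      refine heavy_bad hw hM hγ heE he.2.1 (hctrm e) hℓ₀ hℓR hb ?_ ?_ h3
      · have := he.2.2.1
        rwa [hr0] at this
      · have := he.2.2.2
        rwa [hr0] at this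
    · exact ⟨idx (ctr e) - 1, by omega, by omega⟩
  have h2 : ∑ e ∈ E ∩ H, M * (20 * (rad e : ℝ) + 1) ^ 2 ≤
      ∑ i ∈ Finset.range I, 4 * (M * (40 * ((ℓ₀ : ℝ) * 2 ^ i) + 1) ^ 2) * c i := by
    have hmaps : ∀ e ∈ E ∩ H, idx (ctr e) - 1 ∈ Finset.range I := by
      intro e he
      obtain ⟨j, hj, hjI⟩ := hpos e (Finset.mem_inter.1 he).2
      rw [Finset.mem_range]
      omega
    rw [← Finset.sum_fiberwise_of_maps_to hmaps]
    refine Finset.sum_le_sum fun i hi => ?_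
    rw [Finset.mem_range] at hi
    have hterm : ∀ e ∈ (E ∩ H).filter (fun e => idx (ctr e) - 1 = i),
        M * (20 * (rad e : ℝ) + 1) ^ 2 = M * (40 * ((ℓ₀ : ℝ) * 2 ^ i) + 1) ^ 2 := by
      intro e he
      rw [Finset.mem_filter] at he
      obtain ⟨j, hj, hjI⟩ := hpos e (Finset.mem_inter.1 he.1).2
      have hji : j = i := by omega
      have : (rad e : ℝ) = (ℓ₀ : ℝ) * 2 ^ (i + 1) := by
        show ((ℓ₀ * 2 ^ idx (ctr e) : ℕ) : ℝ) = _
        rw [hj, hji]
        push_cast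
        ring
      rw [this, pow_succ]
      ring
    rw [Finset.sum_congr rfl hterm, Finset.sum_const, nsmul_eq_mul]
    have hcard : ((E ∩ H).filter (fun e => idx (ctr e) - 1 = i)).card ≤ 4 * c i := by
      set T := γ.support.toFinset.filter (fun u =>
        ¬ NoChain w M (Bx u (10 * (ℓ₀ * 2 ^ i))) (ℓ₀ * 2 ^ i)) with hT
      have hTc : T.card ≤ c i := by
        refine le_trans (le_of_eq ?_) (hc i hi)
        rw [← Set.ncard_coe_finset]
        congr 1
        rw [hT, Finset.coe_filter]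
        rfl
      refine le_trans (Finset.card_le_mul_card_image_of_maps_to (f := ctr) (t := T) ?_ 4 ?_)
        (Nat.mul_le_mul_left 4 hTc)
      · intro e he
        rw [Finset.mem_filter] at he
        obtain ⟨j, hj, hjI⟩ := hpos e (Finset.mem_inter.1 he.1).2
        have hji : j = i := by omega
        rw [hT, Finset.mem_filter, List.mem_toFinset]
        exact ⟨hEsupp e (hHE e (Finset.mem_inter.1 he.1).2), hidxF _ _ (by omega)⟩
      · intro u _
        apply card_edges_at _ _ u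
        · intro e he
          rw [Finset.mem_filter] at he
          rw [← he.2]
          exact hctrm e
        · intro e he
          rw [Finset.mem_filter, Finset.mem_filter] at he
          exact hEedge e (hHE e (Finset.mem_inter.1 he.1.1).2)
    have hcard' : (((E ∩ H).filter (fun e => idx (ctr e) - 1 = i)).card : ℝ) ≤ 4 * c i := by
      exact_mod_cast hcard
    calc _ ≤ (4 * (c i : ℝ)) * (M * (40 * ((ℓ₀ : ℝ) * 2 ^ i) + 1) ^ 2) := by
          apply mul_le_mul_of_nonneg_right hcard' (by positivity)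
      _ = _ := by ring
  linarith

end Pool.Agent.Helper33_FPP
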