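import Pool.Agent.Helper33_FPP.Net
import Pool.Agent.Helper33_FPP.Transfer
import Pool.Agent.Helper33_FPP.PeierlsHalf

/-!
# Peierls estimate for measures and positivity of the speed
-/

set_option autoImplicit false

namespace Pool.Agent.Helper33_FPP

open Finset MeasureTheory ProbabilityTheory Filter Topology

/-- `PGood` is monotone: it suffices to compare the high edges inside the box. -/
theorem PGood_mono {R m₀ : ℕ} {θ hi hi' : ℝ} {w w' : Sym2 (ℤ × ℤ) → ℝ}
    (h : ∀ e ∈ edgesIn R, hi ≤ w e → hi' ≤ w' e) (hG : PGood R m₀ θ hi w) :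
    PGood R m₀ θ hi' w' := by
  classical
  intro x y q hq hqR hm
  have h1 := hG x y q hq hqR hm
  refine h1.trans ?_
  have h2 : (q.edges.filter (fun e => hi ≤ w e)).length ≤
      (q.edges.filter (fun e => hi' ≤ w' e)).length := by
    rw [← List.countP_eq_length_filter, ← List.countP_eq_length_filter]
    apply List.countP_mono_left
    intro e he hhe
    simp only [decide_eq_true_eq] at hhe ⊢
    refine h e ?_ hhe
    rw [mem_edgesIn]
    refine ⟨fun v hv => hqR v (q.mem_support_of_mem_edges he hv), q.edges_subset_edgeSet he⟩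
  convert (Nat.cast_le (α := ℝ)).2 h2 using 3

theorem peierls_measure {p₀ : ℝ} (h0 : 0 ≤ p₀) (h1 : p₀ < 1 / 2) :
    ∃ θ : ℝ, 0 < θ ∧ θ ≤ 1 ∧ ∃ ρ : ℝ, 0 < ρ ∧ ρ < 1 ∧ ∃ C : ℝ, 0 < C ∧
      ∀ {Ω : Type} [MeasurableSpace Ω] {P : Measure Ω} [IsProbabilityMeasure P]
        {F : Measure ℝ} [IsProbabilityMeasure F] {W : Z2.edgeSet → Ω → ℝ} (hi : ℝ),
        (∀ e, Measurable (W e)) → iIndepFun W P → (∀ e, P.map (W e) = F) →
        (∀ e ω, 0 ≤ W e ω) → 0 < hi → F.real (Set.Iio hi) ≤ p₀ → ∀ R m₀ : ℕ,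
          P.real {ω | ¬ PGood R m₀ θ (hi / 2) (ext W ω)} ≤ C * (2 * R + 1) ^ 2 * ρ ^ m₀ := by
  obtain ⟨θ, hθ0, hθ1, ρ, hρ0, hρ1, C, hC, H⟩ := peierls_half p₀ h0 h1
  refine ⟨θ, hθ0, hθ1, ρ, hρ0, hρ1, C, hC, ?_⟩
  intro Ω _ P _ F _ W hi hm hind hF hW0 hhi hlow R m₀
  classical
  obtain ⟨m, hm2⟩ := exists_nat_ge (2 / hi)
  have hmpos : (0 : ℝ) < m := lt_of_lt_of_le (by positivity) hm2
  set K : ℕ := ⌊(m : ℝ) * hi⌋₊ with hK
  have hmhi : (2 : ℝ) ≤ m * hi := by
    have := mul_le_mul_of_nonneg_right hm2 hhi.le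
    rwa [div_mul_cancel₀ _ hhi.ne'] at this
  have hK1 : (K : ℝ) ≤ m * hi := Nat.floor_le (by positivity)
  have hK2 : (m : ℝ) * hi < K + 1 := Nat.lt_floor_add_one _
  let val : Fin (K + 1) → ℝ := fun v => (v : ℕ) / (m : ℝ)
  have hlow' : (∑ v, if val v < (K : ℝ) / m then dscP F m K v else 0) ≤ p₀ := by
    refine le_trans ?_ hlow
    have e1 : (∑ v, if val v < (K : ℝ) / m then dscP F m K v else 0) =
        ∑ v ∈ univ.filter (fun v : Fin (K + 1) => val v < (K : ℝ) / m), dscP F m K v := by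
      rw [Finset.sum_filter]
    rw [e1]
    unfold dscP
    rw [← measureReal_biUnion_finset]
    · refine measureReal_mono ?_ (measure_ne_top _ _)
      intro x hx
      simp only [Set.mem_iUnion, Finset.mem_filter, Finset.mem_univ, true_and,
        Set.mem_ofPred_eq, exists_prop] at hx
      obtain ⟨v, hv, hxv⟩ := hx
      have hv' : (v : ℕ) < K := by
        have h3 : ((v : ℕ) : ℝ) / m < (K : ℝ) / m := hv
        have h4 := (div_lt_div_iff_of_pos_right hmpos).1 h3
        exact_mod_cast h4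
      rw [Set.mem_Iio]
      by_contra hcon
      push Not at hcon
      have h5 : K ≤ ⌊(m : ℝ) * x⌋₊ :=
        Nat.floor_le_floor (mul_le_mul_of_nonneg_left hcon hmpos.le)
      have h6 : (dsc m K x : ℕ) = K := by
        simp only [dsc]
        exact min_eq_right h5
      rw [hxv] at h6
      omega
    · intro v _ v' _ hvv'
      rw [Function.onFun, Set.disjoint_left]
      intro x hx hx'
      exact hvv' (hx.symm.trans hx')
    · intro v _
      exact measurable_dsc m K (MeasurableSet.singleton v)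
  have key := H (Fin (K + 1)) (dscP F m K) val ((K : ℝ) / m) (dscP_isProb F m K) hlow' R m₀
  let w : EIdx R → Ω → ℝ := fun e ω => W ⟨e.1, (mem_edgesIn.1 e.2).2⟩ ω
  have hinj : Function.Injective (fun e : EIdx R => (⟨e.1, (mem_edgesIn.1 e.2).2⟩ : Z2.edgeSet)) := by
    intro e e' hee
    have := congrArg Subtype.val hee
    exact Subtype.ext this
  have hind' : iIndepFun w P := hind.precomp hinj
  have tr := Pr_transfer (P := P) (F := F) (w := w) (fun i => hm _) hind' (fun i => hF _) m K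
    (fun a => ¬ PGood R m₀ θ ((K : ℝ) / m) (wOf val a))
  refine le_trans ?_ (tr.le.trans key)
  refine measureReal_mono ?_ (measure_ne_top _ _)
  intro ω hω
  simp only [Set.mem_ofPred_eq] at hω ⊢
  intro hcon
  apply hω
  refine PGood_mono ?_ hcon
  intro e he hle
  have hmem := (mem_edgesIn.1 he).2
  have e2 : wOf val (fun i => dsc m K (w i ω)) e = ((dsc m K (W ⟨e, hmem⟩ ω) : ℕ) : ℝ) / m := by
    unfold wOf
    rw [dif_pos he]
  have e3 : ext W ω e = W ⟨e, hmem⟩ ω := by
    unfold ext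
    rw [dif_pos hmem]
  rw [e2] at hle
  rw [e3]
  have h7 : ((dsc m K (W ⟨e, hmem⟩ ω) : ℕ) : ℝ) ≤ m * W ⟨e, hmem⟩ ω := by
    have h8 : (dsc m K (W ⟨e, hmem⟩ ω) : ℕ) ≤ ⌊(m : ℝ) * W ⟨e, hmem⟩ ω⌋₊ := by
      simp only [dsc]
      exact min_le_left _ _
    have h9 : ((⌊(m : ℝ) * W ⟨e, hmem⟩ ω⌋₊ : ℕ) : ℝ) ≤ m * W ⟨e, hmem⟩ ω :=
      Nat.floor_le (mul_nonneg hmpos.le (hW0 _ _))
    exact le_trans (by exact_mod_cast h8) h9
  have h10 : (K : ℝ) ≤ m * W ⟨e, hmem⟩ ω := by
    have := (div_le_div_iff_of_pos_right hmpos).1 hle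
    linarith
  have h11 : (m : ℝ) * (hi / 2) ≤ m * W ⟨e, hmem⟩ ω := by nlinarith
  exact le_of_mul_le_mul_left h11 hmpos

/-- The first coordinates along a walk move by at most one per step. -/
theorem getVert_abs_le {x y : ℤ × ℤ} (p : Z2.Walk x y) (n : ℕ) :
    |(p.getVert n).1 - x.1| ≤ n ∧ |(p.getVert n).2 - x.2| ≤ n := by
  induction n with
  | zero => simp
  | succ n ih =>
    rcases lt_or_ge n p.length with h | h
    · have hadj := p.adj_getVert_succ h
      rw [Z2_adj_iff] at hadj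
      obtain ⟨h1, h2⟩ := ih
      rw [abs_le] at h1 h2 ⊢
      rw [abs_le]
      push_cast
      omega
    · rw [p.getVert_of_length_le (by omega : p.length ≤ n + 1)]
      rw [p.getVert_of_length_le h] at ih
      obtain ⟨h1, h2⟩ := ih
      push_cast
      exact ⟨by omega, by omega⟩

/-- On the Peierls event every walk from the origin to `(n, 0)` is heavy. -/
theorem le_passageTime_of_PGood {n : ℕ} {θ hi : ℝ} (hhi : 0 ≤ hi) {w : Sym2 (ℤ × ℤ) → ℝ}
    (hw : ∀ e, 0 ≤ w e) (hG : PGood n n θ hi w) :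
    θ * n * hi ≤ passageTime w 0 (n • (1, 0)) := by
  classical
  unfold passageTime
  refine le_ciInf fun p => ?_
  refine le_trans ?_ (wt_bypass_le hw p)
  set q := p.bypass with hq
  have hqp : q.IsPath := p.bypass_isPath
  have hlen : n ≤ q.length := by
    have h1 := (getVert_abs_le q q.length).1
    rw [q.getVert_length] at h1
    have e0 : (n • ((1 : ℤ), (0 : ℤ))).1 = n := by
      rw [Prod.smul_fst]
      simp
    rw [e0, Prod.fst_zero, sub_zero, abs_le] at h1
    omega
  have hr : (q.take n).IsPath := hqp.take n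
  have hrlen : (q.take n).length = n := by
    rw [SimpleGraph.Walk.take_length, min_eq_left hlen]
  have hrbox : ∀ v ∈ (q.take n).support, v ∈ box n := by
    intro v hv
    obtain ⟨t, ht, htl⟩ := SimpleGraph.Walk.mem_support_iff_exists_getVert.1 hv
    rw [hrlen] at htl
    have h1 := getVert_abs_le (q.take n) t
    rw [ht] at h1
    obtain ⟨h1, h2⟩ := h1
    rw [mem_box]
    rw [abs_le] at h1 h2
    simp only [Prod.fst_zero, Prod.snd_zero, sub_zero] at h1 h2
    omega
  have h2 := hG _ _ (q.take n) hr hrbox (by rw [hrlen])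
  rw [hrlen] at h2
  have h3 : ((((q.take n).edges.filter (fun e => hi ≤ w e)).length : ℕ) : ℝ) * hi ≤
      wt w (q.take n) := by
    unfold wt
    have h4 : ((((q.take n).edges.filter (fun e => hi ≤ w e)).length : ℕ) : ℝ) * hi ≤
        (((q.take n).edges.filter (fun e => hi ≤ w e)).map w).sum := by
      have h5 := List.card_nsmul_le_sum
        (((q.take n).edges.filter (fun e => hi ≤ w e)).map w) hi (by
          intro a ha
          obtain ⟨e, he, rfl⟩ := List.mem_map.1 ha
          have := (List.mem_filter.1 he).2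
          simpa using this)
      simpa using h5
    refine h4.trans ?_
    apply List.Sublist.sum_le_sum (List.filter_sublist.map w)
    intro a ha
    obtain ⟨e, _, rfl⟩ := List.mem_map.1 ha
    exact hw e
  have h6 : wt w (q.take n) ≤ wt w q := by
    have h7 : q.edges = (q.take n).edges ++ (q.drop n).edges := by
      conv_lhs => rw [← q.append_take_drop_eq n]
      rw [SimpleGraph.Walk.edges_append]
    unfold wt
    rw [h7, List.map_append, List.sum_append]
    have : 0 ≤ (List.map w (q.drop n).edges).sum := wt_nonneg hw (q.drop n)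
    linarith
  calc θ * n * hi ≤ ((((q.take n).edges.filter (fun e => hi ≤ w e)).length : ℕ) : ℝ) * hi := by
        refine mul_le_mul_of_nonneg_right ?_ hhi
        convert h2
    _ ≤ wt w (q.take n) := h3
    _ ≤ wt w q := h6

theorem tendsto_sq_mul_pow {ρ : ℝ} (h0 : 0 < ρ) (h1 : ρ < 1) (C : ℝ) :
    Tendsto (fun n : ℕ => C * (2 * n + 1) ^ 2 * ρ ^ n) atTop (𝓝 0) := by
  have h2 : Tendsto (fun n : ℕ => (n : ℝ) ^ 2 * ρ ^ n) atTop (𝓝 0) :=
    tendsto_pow_const_mul_const_pow_of_abs_lt_one 2 (by rw [abs_of_pos h0]; exact h1)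
  have h3 : Tendsto (fun n : ℕ => (n : ℝ) ^ 1 * ρ ^ n) atTop (𝓝 0) :=
    tendsto_pow_const_mul_const_pow_of_abs_lt_one 1 (by rw [abs_of_pos h0]; exact h1)
  have h4 : Tendsto (fun n : ℕ => ρ ^ n) atTop (𝓝 0) :=
    tendsto_pow_atTop_nhds_zero_of_lt_one h0.le h1
  have h5 := ((h2.const_mul (4 * C)).add (h3.const_mul (4 * C))).add (h4.const_mul C)
  simp only [mul_zero, add_zero] at h5
  refine h5.congr (fun n => ?_)
  ring

theorem speed_pos {Ω : Type} [MeasurableSpace Ω] {P : Measure Ω} [IsProbabilityMeasure P]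
    {F : Measure ℝ} [IsProbabilityMeasure F] {W : Z2.edgeSet → Ω → ℝ}
    (hm : ∀ e, Measurable (W e)) (hind : iIndepFun W P) (hF : ∀ e, P.map (W e) = F)
    (h0 : ∀ e ω, 0 ≤ W e ω) {p₀ hi : ℝ} (hp0 : 0 ≤ p₀) (hp1 : p₀ < 1 / 2) (hhi : 0 < hi)
    (hlow : F.real (Set.Iio hi) ≤ p₀) {μz : ℝ}
    (hμ : TendstoInMeasure P (fun (n : ℕ) ω => passageTime (ext W ω) 0 (n • (1, 0)) / n) atTop
      (fun _ => μz)) : 0 < μz := by
  obtain ⟨θ, hθ0, hθ1, ρ, hρ0, hρ1, C, hC, H⟩ := peierls_measure hp0 hp1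
  by_contra hcon
  push Not at hcon
  set δ : ℝ := θ * (hi / 2) with hδ
  have hδ0 : 0 < δ := by positivity
  have hext : ∀ ω e, 0 ≤ ext W ω e := by
    intro ω e
    unfold ext
    split_ifs with he
    · exact h0 _ _
    · exact le_rfl
  -- the complement of the Peierls event has small probability
  have hbad : Tendsto (fun n : ℕ => P.real {ω | ¬ PGood n n θ (hi / 2) (ext W ω)}) atTop (𝓝 0) := by
    refine tendsto_of_tendsto_of_tendsto_of_le_of_le tendsto_const_nhds
      (tendsto_sq_mul_pow hρ0 hρ1 C) (fun n => measureReal_nonneg) (fun n => ?_)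
    exact H hi hm hind hF h0 hhi hlow n n
  have hconv := (tendstoInMeasure_iff_dist.1 hμ) δ hδ0
  have hconv' : Tendsto (fun n : ℕ => P.real {ω | δ ≤ dist (passageTime (ext W ω) 0 (n • (1, 0)) / n)
      μz}) atTop (𝓝 0) := by
    have := (ENNReal.tendsto_toReal (ENNReal.zero_ne_top)).comp hconv
    simpa [Measure.real, Function.comp_def] using this
  have hsum := hbad.add hconv'
  rw [add_zero] at hsum
  have hge : ∀ᶠ n : ℕ in atTop, (1 : ℝ) ≤ P.real {ω | ¬ PGood n n θ (hi / 2) (ext W ω)} +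
      P.real {ω | δ ≤ dist (passageTime (ext W ω) 0 (n • (1, 0)) / n) μz} := by
    filter_upwards [eventually_gt_atTop 0] with n hn
    have hn' : (0 : ℝ) < n := by exact_mod_cast hn
    have hcover : (Set.univ : Set Ω) ⊆ {ω | ¬ PGood n n θ (hi / 2) (ext W ω)} ∪
        {ω | δ ≤ dist (passageTime (ext W ω) 0 (n • (1, 0)) / n) μz} := by
      intro ω _
      by_cases hG : PGood n n θ (hi / 2) (ext W ω)
      · right
        have h1 := le_passageTime_of_PGood (by positivity) (hext ω) hG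
        have h2 : δ ≤ passageTime (ext W ω) 0 (n • (1, 0)) / n := by
          rw [le_div_iff₀ hn', hδ]
          linarith
        show δ ≤ dist (passageTime (ext W ω) 0 (n • (1, 0)) / n) μz
        rw [Real.dist_eq]
        refine le_trans ?_ (le_abs_self _)
        linarith
      · left
        exact hG
    have h3 : P.real (Set.univ : Set Ω) = 1 := by simp
    rw [← h3]
    exact (measureReal_mono hcover (measure_ne_top _ _)).trans (measureReal_union_le _ _)
  have := ge_of_tendsto hsum hge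
  linarith

end Pool.Agent.Helper33_FPP
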