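import Pool.Agent.Helper33_FPP.NMDet
import Pool.Agent.Helper33_FPP.GoodProb
import Pool.Agent.Helper33_FPP.P0
import Pool.Agent.Helper33_FPP.LowerMean

/-!
# Module PB5d: numerical and deterministic lemmas
-/

set_option autoImplicit false

namespace Pool.Agent.Helper33_FPP

open Finset Filter Topology

namespace NM

/-- coefficients of the bypass cost -/
noncomputable def ai (M K : ℝ) (ℓ₀ i : ℕ) : ℝ :=
  4 * (M * (40 * ((ℓ₀ : ℝ) * 2 ^ i) + 1) ^ 2) *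
    ((40 * ((ℓ₀ : ℝ) * 2 ^ i) + 7) ^ 2 * (K * Real.exp (-((ℓ₀ : ℝ) * 2 ^ i) / 2)))

lemma poly_le {l : ℝ} (hl : 1 ≤ l) : (40 * l + 1) ^ 2 * (40 * l + 7) ^ 2 ≤ (47 * l) ^ 4 := by
  have h1 : (40 * l + 1) ^ 2 ≤ (47 * l) ^ 2 := by
    apply pow_le_pow_left₀ <;> linarith
  have h2 : (40 * l + 7) ^ 2 ≤ (47 * l) ^ 2 := by
    apply pow_le_pow_left₀ <;> linarith
  calc _ ≤ (47 * l) ^ 2 * (47 * l) ^ 2 := mul_le_mul h1 h2 (by positivity) (by positivity)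
    _ = _ := by ring

lemma pow_four_le {l : ℝ} (hl : 0 ≤ l) : l ^ 4 ≤ 6144 * Real.exp (l / 4) := by
  have h := Real.pow_div_factorial_le_exp (l / 4) (by positivity) 4
  have h2 : (Nat.factorial 4 : ℝ) = 24 := by norm_num [Nat.factorial]
  rw [h2, div_le_iff₀ (by norm_num)] at h
  have h3 : (l / 4) ^ 4 = l ^ 4 / 256 := by ring
  rw [h3] at h
  linarith

lemma ai_le {M K : ℝ} (hM : 0 ≤ M) (hK : 0 ≤ K) {ℓ₀ : ℕ} (hℓ₀ : 1 ≤ ℓ₀) (i : ℕ) :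
    ai M K ℓ₀ i ≤ (4 * M * K * 47 ^ 4 * 6144) * (Real.exp (-(ℓ₀ : ℝ) / 4) *
      Real.exp (-(1 / 4)) ^ i) := by
  set l : ℝ := (ℓ₀ : ℝ) * 2 ^ i with hl
  have h1' : (1 : ℝ) ≤ ℓ₀ := by exact_mod_cast hℓ₀
  have h2i : (i : ℝ) + 1 ≤ 2 ^ i := by
    have : i + 1 ≤ 2 ^ i := Nat.lt_two_pow_self
    exact_mod_cast this
  have hli : (ℓ₀ : ℝ) + i ≤ l := by
    rw [hl]
    have hi : (0 : ℝ) ≤ i := Nat.cast_nonneg _
    nlinarith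
  have hl1 : 1 ≤ l := by
    have hi : (0 : ℝ) ≤ i := Nat.cast_nonneg _
    linarith
  have e1 : ai M K ℓ₀ i = 4 * M * K * (((40 * l + 1) ^ 2 * (40 * l + 7) ^ 2) * Real.exp (-l / 2)) := by
    unfold ai
    ring
  rw [e1]
  have h3 : ((40 * l + 1) ^ 2 * (40 * l + 7) ^ 2) * Real.exp (-l / 2) ≤
      47 ^ 4 * 6144 * Real.exp (-l / 4) := by
    have h4 := poly_le hl1
    have h5 := pow_four_le (l := l) (by linarith)
    have h6 : (47 * l) ^ 4 ≤ 47 ^ 4 * 6144 * Real.exp (l / 4) := by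
      have : (47 * l) ^ 4 = 47 ^ 4 * l ^ 4 := by ring
      rw [this]
      linarith
    calc _ ≤ (47 ^ 4 * 6144 * Real.exp (l / 4)) * Real.exp (-l / 2) :=
          mul_le_mul_of_nonneg_right (h4.trans h6) (Real.exp_pos _).le
      _ = 47 ^ 4 * 6144 * (Real.exp (l / 4) * Real.exp (-l / 2)) := by ring
      _ = _ := by
          rw [← Real.exp_add]
          congr 2
          ring
  have h7 : Real.exp (-l / 4) ≤ Real.exp (-(ℓ₀ : ℝ) / 4) * Real.exp (-(1 / 4)) ^ i := by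
    rw [← Real.exp_nat_mul, ← Real.exp_add]
    apply Real.exp_le_exp.2
    have : -l ≤ -(ℓ₀ : ℝ) - i := by linarith
    linarith
  calc _ ≤ 4 * M * K * (47 ^ 4 * 6144 * (Real.exp (-(ℓ₀ : ℝ) / 4) * Real.exp (-(1 / 4)) ^ i)) := by
        refine mul_le_mul_of_nonneg_left (h3.trans ?_) (by positivity)
        exact mul_le_mul_of_nonneg_left h7 (by norm_num)
    _ = _ := by ring

lemma sum_ai_le {M K : ℝ} (hM : 0 ≤ M) (hK : 0 ≤ K) : ∃ A₀ : ℝ, 0 ≤ A₀ ∧ ∀ ℓ₀ : ℕ, 1 ≤ ℓ₀ →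
    ∀ I : ℕ, ∑ i ∈ range I, ai M K ℓ₀ i ≤ A₀ * Real.exp (-(ℓ₀ : ℝ) / 4) := by
  set r := Real.exp (-(1 / 4)) with hr
  have hr0 : 0 ≤ r := (Real.exp_pos _).le
  have hr1 : r < 1 := by
    rw [hr, Real.exp_lt_one_iff]
    norm_num
  refine ⟨(4 * M * K * 47 ^ 4 * 6144) * (1 - r)⁻¹, ?_, ?_⟩
  · have : 0 ≤ (1 - r)⁻¹ := inv_nonneg.2 (by linarith)
    positivity
  · intro ℓ₀ hℓ₀ I
    have h1 : ∑ i ∈ range I, r ^ i ≤ (1 - r)⁻¹ := by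
      rw [← tsum_geometric_of_lt_one hr0 hr1]
      exact (summable_geometric_of_lt_one hr0 hr1).sum_le_tsum _ (fun i _ => pow_nonneg hr0 i)
    calc ∑ i ∈ range I, ai M K ℓ₀ i ≤ ∑ i ∈ range I, (4 * M * K * 47 ^ 4 * 6144) *
          (Real.exp (-(ℓ₀ : ℝ) / 4) * r ^ i) := Finset.sum_le_sum fun i _ => ai_le hM hK hℓ₀ i
      _ = (4 * M * K * 47 ^ 4 * 6144) * (Real.exp (-(ℓ₀ : ℝ) / 4) * ∑ i ∈ range I, r ^ i) := by
          rw [Finset.mul_sum, Finset.mul_sum]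
      _ ≤ (4 * M * K * 47 ^ 4 * 6144) * (Real.exp (-(ℓ₀ : ℝ) / 4) * (1 - r)⁻¹) := by
          refine mul_le_mul_of_nonneg_left ?_ (by positivity)
          exact mul_le_mul_of_nonneg_left h1 (Real.exp_pos _).le
      _ = _ := by ring

lemma greedy_num {C₁ C₂ l n k : ℝ} (hC₁ : 0 < C₁) (hC₂ : 0 < C₂)
    (hK : 4 * (C₁ * C₂ + 1) * Real.exp (-l / 2) ≤ 1) (hn : 0 ≤ n) (hk : 0 < k)
    (hkn : 4 * (C₁ * C₂ + 1) * Real.exp (-l / 2) * n ≤ k) :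
    C₁ * ((n + k) / k) ^ 2 * (C₂ * Real.exp (-l)) ≤ 1 / 4 := by
  set s := Real.exp (-l / 2) with hs
  have hs0 : 0 < s := Real.exp_pos _
  have hs2 : Real.exp (-l) = s ^ 2 := by
    rw [hs, ← Real.exp_nat_mul]
    congr 1
    push_cast
    ring
  set D := C₁ * C₂ + 1 with hD
  have hCC : 0 < C₁ * C₂ := mul_pos hC₁ hC₂
  have hD1 : 1 < D := by rw [hD]; linarith
  have h1 : (n + k) / k * s ≤ 2 / (4 * D) := by
    rw [div_mul_eq_mul_div, div_le_div_iff₀ hk (by positivity)]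
    nlinarith
  have h2 : 0 ≤ (n + k) / k * s := by positivity
  have h3 : ((n + k) / k * s) ^ 2 ≤ (2 / (4 * D)) ^ 2 := pow_le_pow_left₀ h2 h1 2
  have h4 : C₁ * ((n + k) / k) ^ 2 * (C₂ * Real.exp (-l)) = C₁ * C₂ * ((n + k) / k * s) ^ 2 := by
    rw [hs2]
    ring
  rw [h4]
  calc C₁ * C₂ * ((n + k) / k * s) ^ 2 ≤ C₁ * C₂ * (2 / (4 * D)) ^ 2 :=
        mul_le_mul_of_nonneg_left h3 hCC.le
    _ = (C₁ * C₂) / (4 * D ^ 2) := by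
        field_simp
        ring
    _ ≤ 1 / 4 := by
        rw [div_le_div_iff₀ (by positivity) (by norm_num)]
        nlinarith

/-- deterministic bound of the passage time on the good event -/
lemma good_bound {w : Sym2 (ℤ × ℤ) → ℝ} (hw : ∀ e, 0 ≤ w e) {θ h₁ M b : ℝ} (hθ : 0 < θ)
    (hh₁ : 0 < h₁) (hM : 0 ≤ M) (hb1 : h₁ ≤ b) {ℓ₀ I RN r m₀ n : ℕ} (hℓ₀ : 1 ≤ ℓ₀)
    (hb : M * (20 * (ℓ₀ : ℝ) + 1) ^ 2 < b) (hR : ℓ₀ * 2 ^ I ≤ RN) (hr : 10 * ℓ₀ ≤ r) {X K : ℝ}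
    {v : ℤ × ℤ} (q : Z2.Walk 0 v) (hq : IsIn (box RN : Set (ℤ × ℤ)) q)
    (hqX : wt (fun e => max 0 (min (w e) b)) q ≤ X) (hmn : m₀ ≤ n) (hXn : X ≤ h₁ * θ * n)
    (hPG : PGood RN m₀ θ h₁ w)
    (hI : ∀ u ∈ box RN, NoChain w M (Bx u (10 * (ℓ₀ * 2 ^ I))) (ℓ₀ * 2 ^ I))
    (hx : FarGood w M ℓ₀ r 0) (hxK : ∑ e ∈ near 0 r, w e ≤ K) (hy : FarGood w M ℓ₀ r v)
    (hyK : ∑ e ∈ near v r, w e ≤ K) (c : ℕ → ℕ)
    (hgr : ∀ i < I, ¬ ∃ (y : ℤ × ℤ) (q : Z2.Walk 0 y), q.length ≤ n ∧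
      c i ≤ {u ∈ (q.support.toFinset : Set (ℤ × ℤ)) |
        ¬ NoChain w M (Bx u (10 * (ℓ₀ * 2 ^ i))) (ℓ₀ * 2 ^ i)}.ncard) :
    passageTime w 0 v ≤ X + 2 * K +
      ∑ i ∈ range I, 4 * (M * (40 * ((ℓ₀ : ℝ) * 2 ^ i) + 1) ^ 2) * c i := by
  have hwb : ∀ e, 0 ≤ (fun e => max 0 (min (w e) b)) e := fun e => le_max_left _ _
  obtain ⟨γ, hγ, hγw⟩ := exists_minPath hwb (box RN).finite_toSet hq
  have h1 : wt (fun e => max 0 (min (w e) b)) γ ≤ X := by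
    rw [hγw]
    exact (TT_le hwb hq).trans hqX
  have hPG' : PGood RN m₀ θ h₁ (fun e => max 0 (min (w e) b)) := by
    refine PGood_mono (fun e _ he => ?_) hPG
    exact le_trans (le_min he hb1) (le_max_right _ _)
  have hlen : γ.length ≤ n := QAux.length_le hwb hθ hh₁ hPG' hmn hXn hγ.1 hγ.2.1 h1
  obtain ⟨γ', hγ'⟩ := det_bypass hw hM hℓ₀ hb hR hr hγ hI hx hy c (fun i hi => by
    by_contra hcon
    push Not at hcon
    exact hgr i hi ⟨v, γ, hlen, hcon.le⟩)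
  have h2 := LM.passageTime_le hw γ'
  linarith

/-- the bypass cost -/
lemma sum_cost_le {M K : ℝ} (hM : 0 ≤ M) {ℓ₀ : ℕ} (hℓ₀ : 1 ≤ ℓ₀) {I n T : ℕ}
    (k : ℕ → ℕ)
    (hk : ∀ i, (k i : ℝ) ≤ K * Real.exp (-((ℓ₀ : ℝ) * 2 ^ i) / 2) * n + 2 * T) :
    ∑ i ∈ range I, 4 * (M * (40 * ((ℓ₀ : ℝ) * 2 ^ i) + 1) ^ 2) *
      (((4 * (10 * (ℓ₀ * 2 ^ i) + 1) + 3) ^ 2 * k i : ℕ) : ℝ) ≤
      n * ∑ i ∈ range I, ai M K ℓ₀ i + I * (8 * M * T * (47 * (ℓ₀ * 2 ^ I)) ^ 4) := by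
  have h1' : (1 : ℝ) ≤ ℓ₀ := by exact_mod_cast hℓ₀
  have hterm : ∀ i ∈ range I, 4 * (M * (40 * ((ℓ₀ : ℝ) * 2 ^ i) + 1) ^ 2) *
      (((4 * (10 * (ℓ₀ * 2 ^ i) + 1) + 3) ^ 2 * k i : ℕ) : ℝ) ≤
      n * ai M K ℓ₀ i + 8 * M * T * (47 * (ℓ₀ * 2 ^ I)) ^ 4 := by
    intro i hi
    rw [Finset.mem_range] at hi
    set l : ℝ := (ℓ₀ : ℝ) * 2 ^ i with hl
    have h2i : (1 : ℝ) ≤ 2 ^ i := one_le_pow₀ (by norm_num)
    have hl1 : 1 ≤ l := by rw [hl]; nlinarith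
    have hlI : l ≤ ℓ₀ * 2 ^ I := by
      rw [hl]
      apply mul_le_mul_of_nonneg_left _ (by linarith)
      exact pow_le_pow_right₀ (by norm_num) hi.le
    have e1 : (((4 * (10 * (ℓ₀ * 2 ^ i) + 1) + 3) ^ 2 * k i : ℕ) : ℝ) =
        (40 * l + 7) ^ 2 * k i := by
      push_cast
      rw [hl]
      ring
    rw [e1]
    have h3 : (40 * l + 7) ^ 2 * (k i : ℝ) ≤ (40 * l + 7) ^ 2 *
        (K * Real.exp (-l / 2) * n + 2 * T) := mul_le_mul_of_nonneg_left (hk i) (by positivity)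
    have h4 : 4 * (M * (40 * l + 1) ^ 2) * ((40 * l + 7) ^ 2 * (k i : ℝ)) ≤
        4 * (M * (40 * l + 1) ^ 2) * ((40 * l + 7) ^ 2 *
        (K * Real.exp (-l / 2) * n + 2 * T)) := mul_le_mul_of_nonneg_left h3 (by positivity)
    refine h4.trans ?_
    have e2 : 4 * (M * (40 * l + 1) ^ 2) * ((40 * l + 7) ^ 2 *
        (K * Real.exp (-l / 2) * n + 2 * T)) = n * ai M K ℓ₀ i +
        8 * M * T * ((40 * l + 1) ^ 2 * (40 * l + 7) ^ 2) := by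
      unfold ai
      rw [← hl]
      ring
    rw [e2]
    refine add_le_add le_rfl (mul_le_mul_of_nonneg_left ?_ (by positivity))
    refine (poly_le hl1).trans ?_
    apply pow_le_pow_left₀ (by positivity)
    linarith
  refine (Finset.sum_le_sum hterm).trans (le_of_eq ?_)
  rw [Finset.sum_add_distrib, Finset.sum_const, Finset.card_range, nsmul_eq_mul, Finset.mul_sum]

lemma tendsto_two_pow (k : ℕ) {r : ℝ} (h0 : 0 < r) (h1 : r < 1) :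
    Tendsto (fun I : ℕ => ((2 : ℝ) ^ I) ^ k * r ^ (2 ^ I)) atTop (𝓝 0) := by
  have h2 : Tendsto (fun n : ℕ => (n : ℝ) ^ k * r ^ n) atTop (𝓝 0) :=
    tendsto_pow_const_mul_const_pow_of_abs_lt_one k (by rw [abs_of_pos h0]; exact h1)
  have h3 : Tendsto (fun I : ℕ => 2 ^ I) atTop atTop :=
    tendsto_pow_atTop_atTop_of_one_lt (by norm_num)
  have h4 := h2.comp h3
  refine h4.congr (fun I => ?_)
  simp [Function.comp]

end NM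

end Pool.Agent.Helper33_FPP
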