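import Pool.Agent.Helper33_FPP.Perc
import Pool.Agent.Helper33_FPP.Geo

/-!
# Oriented percolation: definitions

Oriented steps go to the east or to the north; `A` increases by one at each step.
-/

set_option autoImplicit false

namespace Pool.Agent.Helper33_FPP

open Finset

/-- One step of oriented percolation. -/
def stp (O : Sym2 (ℤ × ℤ) → Prop) (S : Set (ℤ × ℤ)) : Set (ℤ × ℤ) :=
  {v | ((v.1 - 1, v.2) ∈ S ∧ O s((v.1 - 1, v.2), v)) ∨
    ((v.1, v.2 - 1) ∈ S ∧ O s((v.1, v.2 - 1), v))}

/-- Half-line at the level `t` of `A`. -/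
def HL (t j : ℤ) : Set (ℤ × ℤ) := {v | A v = t ∧ v.1 ≤ j}

/-- Largest first coordinate, with floor `-M`. -/
noncomputable def redge (M : ℕ) (S : Set (ℤ × ℤ)) : ℤ :=
  sSup (insert (-(M : ℤ)) (Prod.fst '' S))

/-- Mean of the right edge after `n` steps, started from a half-line, with floor `-M`. -/
noncomputable def mr (t : ℝ) (n M : ℕ) : ℝ :=
  Ex (bern t) (fun ω : EIdx (M + 3 * n + 3) → Bool => (redge M ((stp (opn ω))^[n] (HL 0 0)) : ℝ))

/-- Largest first coordinate. -/
noncomputable def rmost (S : Set (ℤ × ℤ)) : ℤ := sSup (Prod.fst '' S)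

/-- The added point: two to the right and one down of the right-most point of level `t`. -/
noncomputable def xadd (t : ℕ) (S : Set (ℤ × ℤ)) : ℤ × ℤ := (rmost S + 2, t - rmost S - 1)

/-- The condition under which a point is added after the step from the level `t`. -/
def GG (O : Sym2 (ℤ × ℤ) → Prop) (M t : ℕ) (S : Set (ℤ × ℤ)) : Prop :=
  S.Nonempty ∧ -(M : ℤ) ≤ rmost S ∧
  O s((rmost S, t - rmost S), (rmost S + 1, t - rmost S)) ∧
  O s((rmost S + 1, t - rmost S - 1), (rmost S + 1, t - rmost S)) ∧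
  O s((rmost S + 1, t - rmost S - 1), (rmost S + 2, t - rmost S - 1))

/-- The enhanced process. -/
noncomputable def enh (O : Sym2 (ℤ × ℤ) → Prop) (M : ℕ) : ℕ → Set (ℤ × ℤ)
  | 0 => HL 0 0
  | t + 1 => stp O (enh O M t) ∪ {v | GG O M t (enh O M t) ∧ v = xadd t (enh O M t)}

/-- A point is added after the step from the level `t`, and one of its outgoing edges is open. -/
def usedAt (O : Sym2 (ℤ × ℤ) → Prop) (M t : ℕ) : Prop :=
  GG O M t (enh O M t) ∧
    (O s(xadd t (enh O M t), ((xadd t (enh O M t)).1 + 1, (xadd t (enh O M t)).2)) ∨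
      O s(xadd t (enh O M t), ((xadd t (enh O M t)).1, (xadd t (enh O M t)).2 + 1)))

/-- Number of useful additions before the level `n`. -/
noncomputable def nused (O : Sym2 (ℤ × ℤ) → Prop) (M n : ℕ) : ℕ := by
  classical
  exact ((range n).filter (usedAt O M)).card

/-- Reflection in the horizontal axis. -/
def refl2 (v : ℤ × ℤ) : ℤ × ℤ := (v.1, -v.2)

end Pool.Agent.Helper33_FPP
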