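import Pool.Agent.Helper61_FPP.Upper
import Pool.Agent.Helper33_FPP.P0

/-!
# Upper bound for the mean passage time along the diagonal direction
-/

set_option autoImplicit false

namespace Pool.Agent.Helper33_FPP

open Finset MeasureTheory ProbabilityTheory Filter Topology

/-- truncation to `[0, b]` -/
noncomputable def Wb {Ω : Type*} (W : Z2.edgeSet → Ω → ℝ) (b : ℝ) (e : Z2.edgeSet) (ω : Ω) : ℝ :=
  max 0 (min (W e ω) b)

namespace UpperMean

/-- the truncated weights are again i.i.d. -/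
lemma iid_Wb {Ω : Type} [MeasurableSpace Ω] {P : Measure Ω}
    {F : Measure ℝ} {W : Z2.edgeSet → Ω → ℝ}
    (hm : ∀ e, Measurable (W e)) (hind : iIndepFun W P) (hF : ∀ e, P.map (W e) = F) {b : ℝ}
    (hb : 0 ≤ b) : Iid P (F.map (fun x => max 0 (min x b))) (Wb W b) b where
  meas e := by
    unfold Wb
    exact measurable_const.max ((hm e).min measurable_const)
  indep := hind.comp (fun _ => fun x => max 0 (min x b)) fun _ => by fun_prop
  law e := by
    rw [← hF e, Measure.map_map (by fun_prop) (hm e)]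
    rfl
  nonneg e ω := le_max_left _ _
  le e ω := max_le hb (min_le_right _ _)

/-- polynomial times geometric is bounded -/
lemma exists_bound {C₀ ρ : ℝ} (hC₀ : 0 ≤ C₀) (hρ0 : 0 < ρ) (hρ1 : ρ < 1) :
    ∃ C₁ : ℝ, 0 ≤ C₁ ∧ ∀ m : ℕ, 1 ≤ m → C₀ * (2 * (2 * m) + 1) ^ 2 * ρ ^ m ≤ C₁ / m := by
  have h1 := (tendsto_pow_const_mul_const_pow_of_abs_lt_one 3
    (by rw [abs_of_pos hρ0]; exact hρ1) : Tendsto (fun n : ℕ => (n : ℝ) ^ 3 * ρ ^ n) atTop (𝓝 0))
  obtain ⟨M, hM⟩ := h1.bddAbove_range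
  have hM' : ∀ m : ℕ, (m : ℝ) ^ 3 * ρ ^ m ≤ M := fun m => hM ⟨m, rfl⟩
  have hM0 : 0 ≤ M := by simpa using hM' 0
  refine ⟨25 * C₀ * M, by positivity, fun m hm => ?_⟩
  have hm' : (1 : ℝ) ≤ m := by exact_mod_cast hm
  rw [le_div_iff₀ (by positivity)]
  have h2 : (2 * (2 * m) + 1 : ℝ) ^ 2 ≤ 25 * m ^ 2 := by nlinarith
  calc C₀ * (2 * (2 * m) + 1) ^ 2 * ρ ^ m * m ≤ C₀ * (25 * m ^ 2) * ρ ^ m * m := by gcongr
    _ = 25 * C₀ * (m ^ 3 * ρ ^ m) := by ring
    _ ≤ 25 * C₀ * M := mul_le_mul_of_nonneg_left (hM' m) (by positivity)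

lemma sqrt_bound {κ n : ℕ} (hκ : 2 ≤ κ) (hn : 1 ≤ n) :
    Real.sqrt ((κ * n : ℕ) + 1) ≤ 2 * κ * Real.sqrt n := by
  have hn' : (1 : ℝ) ≤ n := by exact_mod_cast hn
  have hκ' : (2 : ℝ) ≤ κ := by exact_mod_cast hκ
  rw [Real.sqrt_le_left (by positivity), mul_pow, Real.sq_sqrt (by positivity)]
  push_cast
  have h3 : (1 : ℝ) ≤ κ * n := by nlinarith
  nlinarith

lemma union_arith {b : ℝ} (hb0 : 0 < b) {κ n : ℕ} (hκ : 2 ≤ κ) (hn : 1 ≤ n) :
    4 * b * n * ((2 * (κ * n : ℕ) + 1) * (4 * (1 / (n : ℝ) ^ 2))) ≤ 48 * (b * κ) := by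
  have hn' : (1 : ℝ) ≤ n := by exact_mod_cast hn
  have hκ' : (2 : ℝ) ≤ κ := by exact_mod_cast hκ
  have e2 : 4 * b * n * ((2 * (κ * n : ℕ) + 1) * (4 * (1 / (n : ℝ) ^ 2))) =
      16 * b * ((2 * (κ * n : ℕ) + 1) / n) := by
    field_simp
    ring
  rw [e2]
  have h3 : (2 * (κ * n : ℕ) + 1) / (n : ℝ) ≤ 3 * κ := by
    rw [div_le_iff₀ (by positivity)]
    push_cast
    nlinarith
  calc 16 * b * ((2 * (κ * n : ℕ) + 1) / n) ≤ 16 * b * (3 * κ) := by gcongr
    _ = 48 * (b * κ) := by ring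

/-- choice of the slope -/
lemma exists_slope {b c h θ : ℝ} (hb : 1 ≤ b) (hc : 0 < c) (hhθ : 0 < h * θ) :
    ∃ κ : ℕ, 2 ≤ κ ∧ (κ : ℝ) ≤ ((2 * c + 4) / (h * θ) + 3) * b ∧
      2 * b + 2 * c + 2 ≤ h * (θ * κ) := by
  have hb0 : 0 < b := by linarith
  have h0 : 0 ≤ (2 * b + 2 * c + 2) / (h * θ) := by positivity
  refine ⟨⌈(2 * b + 2 * c + 2) / (h * θ)⌉₊ + 2, by omega, ?_, ?_⟩
  · have h1 := (Nat.ceil_lt_add_one h0).le
    push_cast
    have h2 : (2 * b + 2 * c + 2) / (h * θ) ≤ (2 * c + 4) / (h * θ) * b := by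
      have e : (2 * c + 4) / (h * θ) * b = ((2 * c + 4) * b) / (h * θ) := by ring
      rw [e]
      apply div_le_div_of_nonneg_right _ hhθ.le
      have := mul_le_mul_of_nonneg_left hb hc.le
      linarith
    rw [add_mul]
    linarith
  · have h1 := Nat.le_ceil ((2 * b + 2 * c + 2) / (h * θ))
    rw [div_le_iff₀ hhθ] at h1
    push_cast
    have h2 : h * (θ * (⌈(2 * b + 2 * c + 2) / (h * θ)⌉₊ + 2)) =
        ⌈(2 * b + 2 * c + 2) / (h * θ)⌉₊ * (h * θ) + 2 * (h * θ) := by ring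
    rw [h2]
    linarith

/-- bookkeeping of the error terms -/
lemma final_arith {b c C₁ K₀ κ L sn sq G C t al N u : ℝ} (hb : 1 ≤ b) (hc : 0 < c) (hC₁ : 0 ≤ C₁)
    (hK₀0 : 0 < K₀) (hκup : κ ≤ K₀ * b) (hL : 0 ≤ L) (hS1 : 1 ≤ sn)
    (hG : G = 40 * K₀ + 4 * C₁)
    (hC : C = K₀ + (6 * G + (6 * G + 1 + 8 * K₀) / c + 48 * K₀))
    (hsqrt : sq ≤ 2 * κ * sn) (ht : t = 2 * b * sq * (2 * L))
    (hal : al ≤ 2 * c * N + 2 * (40 * b * κ + 4 * b * C₁) * (sn * (L + 3)))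
    (hu : u ≤ 48 * (b * κ)) :
    al + b / c * (al - 2 * c * N + 1 + t) + u ≤
        2 * c * N + C * b ^ 4 * sn * (L + 1) ^ 2 := by
  have hb0 : 0 < b := by linarith
  have hG0 : 0 < G := by rw [hG]; positivity
  have hC0 : 0 < C := by rw [hC]; positivity
  set S := sn * (L + 1) with hS
  have hSL : sn * L ≤ S := by rw [hS, mul_add]; linarith
  have hSs : sn ≤ S := by
    rw [hS, mul_add]
    have : 0 ≤ sn * L := mul_nonneg (by linarith) hL
    linarith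
  have hSge : 1 ≤ S := hS1.trans hSs
  have hS0 : 0 ≤ S := by linarith
  have hbκ : b * κ ≤ b * (K₀ * b) := mul_le_mul_of_nonneg_left hκup hb0.le
  have hbb : b ≤ b ^ 2 := by
    have := mul_le_mul_of_nonneg_left hb hb0.le
    rw [pow_two]
    linarith
  have hE : 40 * b * κ + 4 * b * C₁ ≤ G * b ^ 2 := by
    have h2 : b * C₁ ≤ b ^ 2 * C₁ := mul_le_mul_of_nonneg_right hbb hC₁
    have h3 : G * b ^ 2 = 40 * (b * (K₀ * b)) + 4 * (b ^ 2 * C₁) := by rw [hG]; ring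
    rw [h3]
    linarith
  have hal' : al - 2 * c * N ≤ 6 * (G * b ^ 2) * S := by
    have h2 : sn * (L + 3) ≤ 3 * S := by
      have : sn * (L + 3) = S + 2 * sn := by rw [hS]; ring
      rw [this]
      linarith
    have h3 : 0 ≤ sn * (L + 3) := mul_nonneg (by linarith) (by linarith)
    have h1 : 2 * (40 * b * κ + 4 * b * C₁) * (sn * (L + 3)) ≤ 2 * (G * b ^ 2) * (3 * S) :=
      mul_le_mul (by linarith) h2 h3 (by positivity)
    linarith
  have htS : t ≤ 8 * (K₀ * b ^ 2) * S := by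
    have h0 : sq ≤ 2 * (K₀ * b) * sn := by
      refine hsqrt.trans ?_
      have := mul_le_mul_of_nonneg_right hκup (show 0 ≤ 2 * sn by linarith)
      linarith
    have h1 : 2 * b * sq * (2 * L) ≤ 2 * b * (2 * (K₀ * b) * sn) * (2 * L) := by gcongr
    have h3 : 2 * b * (2 * (K₀ * b) * sn) * (2 * L) = 8 * (K₀ * b ^ 2) * (sn * L) := by ring
    rw [ht]
    rw [h3] at h1
    exact h1.trans (mul_le_mul_of_nonneg_left hSL (by positivity))
  have hu' : u ≤ 48 * (K₀ * b ^ 2) * S := by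
    have h1 : 48 * (b * κ) ≤ 48 * (K₀ * b ^ 2) := by
      have : b * (K₀ * b) = K₀ * b ^ 2 := by ring
      linarith
    have h2 : 48 * (K₀ * b ^ 2) ≤ 48 * (K₀ * b ^ 2) * S :=
      le_mul_of_one_le_right (by positivity) hSge
    linarith
  have hbc : b / c * (al - 2 * c * N + 1 + t) ≤
      b / c * ((6 * (G * b ^ 2) + 1 + 8 * (K₀ * b ^ 2)) * S) := by
    apply mul_le_mul_of_nonneg_left _ (by positivity)
    have : (6 * (G * b ^ 2) + 1 + 8 * (K₀ * b ^ 2)) * S =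
      6 * (G * b ^ 2) * S + S + 8 * (K₀ * b ^ 2) * S := by ring
    rw [this]
    linarith
  have hb23 : b ^ 2 ≤ b ^ 4 := pow_le_pow_right₀ hb (by norm_num)
  have hb34 : b ^ 3 ≤ b ^ 4 := pow_le_pow_right₀ hb (by norm_num)
  have hb14 : b ≤ b ^ 4 := by
    have := pow_le_pow_right₀ hb (show 1 ≤ 4 by norm_num)
    rwa [pow_one] at this
  have hfin : 6 * (G * b ^ 2) * S + b / c * ((6 * (G * b ^ 2) + 1 + 8 * (K₀ * b ^ 2)) * S) +
      48 * (K₀ * b ^ 2) * S ≤ C * b ^ 4 * S := by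
    have i1 : 6 * (G * b ^ 2) ≤ 6 * G * b ^ 4 := by
      have := mul_le_mul_of_nonneg_left hb23 hG0.le
      linarith
    have i2 : b / c * (6 * (G * b ^ 2) + 1 + 8 * (K₀ * b ^ 2)) ≤
        (6 * G + 1 + 8 * K₀) / c * b ^ 4 := by
      have e3 : b / c * (6 * (G * b ^ 2) + 1 + 8 * (K₀ * b ^ 2)) =
          (6 * G * b ^ 3 + b + 8 * K₀ * b ^ 3) / c := by
        field_simp
      have e4 : (6 * G + 1 + 8 * K₀) / c * b ^ 4 = ((6 * G + 1 + 8 * K₀) * b ^ 4) / c := by ring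
      rw [e3, e4]
      apply div_le_div_of_nonneg_right _ hc.le
      have j1 := mul_le_mul_of_nonneg_left hb34 hG0.le
      have j2 := mul_le_mul_of_nonneg_left hb34 hK₀0.le
      linarith
    have i3 : 48 * (K₀ * b ^ 2) ≤ 48 * K₀ * b ^ 4 := by
      have := mul_le_mul_of_nonneg_left hb23 hK₀0.le
      linarith
    have i4 : 6 * (G * b ^ 2) + b / c * (6 * (G * b ^ 2) + 1 + 8 * (K₀ * b ^ 2)) +
        48 * (K₀ * b ^ 2) ≤ C * b ^ 4 := by
      rw [hC]
      have : 0 ≤ K₀ * b ^ 4 := by positivity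
      linarith
    have := mul_le_mul_of_nonneg_right i4 hS0
    linarith
  have hlast : C * b ^ 4 * S ≤ C * b ^ 4 * sn * (L + 1) ^ 2 := by
    have e4 : C * b ^ 4 * sn * (L + 1) ^ 2 = C * b ^ 4 * S * (L + 1) := by
      rw [hS]
      ring
    rw [e4]
    exact le_mul_of_one_le_right (by positivity) (by linarith)
  linarith

end UpperMean

open UpperMean in
theorem upper_mean_U {Ω : Type} [MeasurableSpace Ω] {P : Measure Ω} [IsProbabilityMeasure P]
    {F : Measure ℝ} [IsProbabilityMeasure F] {W : Z2.edgeSet → Ω → ℝ}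
    (hm : ∀ e, Measurable (W e)) (hind : iIndepFun W P) (hF : ∀ e, P.map (W e) = F)
    (h0 : ∀ e ω, 0 ≤ W e ω) {p₀ hi : ℝ} (hp0 : 0 ≤ p₀) (hp1 : p₀ < 1 / 2) (hhi : 0 < hi)
    (hlow : F.real (Set.Iio hi) ≤ p₀) {c : ℝ} (hc : 0 < c)
    (hlim : ∀ ε > 0, Tendsto (fun n : ℕ =>
      P.real {ω | (2 * c + ε) * n ≤ passageTime (ext W ω) 0 (pt n 0)}) atTop (𝓝 0)) :
    ∃ C : ℝ, 0 < C ∧ ∀ b : ℝ, 1 ≤ b → hi ≤ b → ∀ (n R : ℕ) (x : ℤ × ℤ), 1 ≤ n →
      (∀ v : ℤ × ℤ, |(v.1 - x.1 : ℤ)| ≤ C * b * n → |(v.2 - x.2 : ℤ)| ≤ C * b * n → v ∈ box R) →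
      (∀ y ∈ box R, c * (|(A x - A y : ℤ)| + |(B x - B y : ℤ)| : ℤ) - 1 ≤
        ∫ ω, TT (ext (Wb W b) ω) (box R) x y ∂P) →
      ∫ ω, TT (ext (Wb W b) ω) (box R) x (x + pt n 0) ∂P ≤
        2 * c * n + C * b ^ 4 * Real.sqrt n * (Real.log n + 1) ^ 2 := by
  obtain ⟨θ, hθ0, hθ1, ρ, hρ0, hρ1, C₀, hC₀, hPei⟩ := peierls_measure hp0 hp1
  obtain ⟨C₁, hC₁, hC₁'⟩ := exists_bound hC₀.le hρ0 hρ1
  set h := hi / 2 with hh
  have hh0 : 0 < h := by positivity
  have hhθ : 0 < h * θ := mul_pos hh0 hθ0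
  set K₀ : ℝ := (2 * c + 4) / (h * θ) + 3 with hK₀
  have hK₀0 : 0 < K₀ := by positivity
  set G : ℝ := 40 * K₀ + 4 * C₁ with hG
  have hG0 : 0 < G := by positivity
  set C : ℝ := K₀ + (6 * G + (6 * G + 1 + 8 * K₀) / c + 48 * K₀) with hC
  have hC0 : 0 < C := by positivity
  refine ⟨C, hC0, ?_⟩
  intro b hb hhib n R x hn hbox hlowTT
  have hb0 : 0 < b := by linarith
  have hn' : (1 : ℝ) ≤ n := by exact_mod_cast hn
  set X := Wb W b with hXdef
  have hXi : Iid P (F.map (fun x => max 0 (min x b))) X b := iid_Wb hm hind hF hb0.le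
  have hfm : Measurable fun x : ℝ => max 0 (min x b) := by fun_prop
  have hprob : IsProbabilityMeasure (F.map (fun x => max 0 (min x b))) :=
    Measure.isProbabilityMeasure_map hfm.aemeasurable
  have hlowb : (F.map (fun x => max 0 (min x b))).real (Set.Iio hi) ≤ p₀ := by
    refine le_trans (le_of_eq ?_) hlow
    rw [map_measureReal_apply hfm measurableSet_Iio]
    congr 1
    ext y
    simp only [Set.mem_preimage, Set.mem_Iio, max_lt_iff, min_lt_iff]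
    constructor
    · rintro ⟨_, h2 | h2⟩
      · exact h2
      · linarith
    · intro h2
      exact ⟨hhi, Or.inl h2⟩
  -- the slope
  obtain ⟨κ, hκ, hκup, hslope⟩ := exists_slope hb hc hhθ
  have hκ' : (2 : ℝ) ≤ κ := by exact_mod_cast hκ
  -- Peierls probabilities
  have hPG1 : ∀ n : ℕ, 1 ≤ n →
      P.real {ω | ¬ PGood (κ * (2 * n)) (κ * n) θ h (ex (fun e => X e ω))} ≤ C₁ / n := by
    intro n hn
    have hn' : (1 : ℝ) ≤ n := by exact_mod_cast hn
    have h1 := hPei (P := P) (F := F.map (fun x => max 0 (min x b))) (W := X) hi hXi.meas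
      hXi.indep hXi.law hXi.nonneg hhi hlowb (κ * (2 * n)) (κ * n)
    have h2 := hC₁' (κ * n) (Nat.one_le_iff_ne_zero.2 (by positivity))
    have e1 : ((κ * (2 * n) : ℕ) : ℝ) = 2 * (κ * n : ℕ) := by
      push_cast
      ring
    rw [e1] at h1
    refine h1.trans (h2.trans ?_)
    apply div_le_div_of_nonneg_left hC₁ (by positivity)
    push_cast
    nlinarith
  have hPG2 : ∀ n : ℕ, 1 ≤ n →
      P.real {ω | ¬ PGood (κ * n) (κ * n) θ h (ex (fun e => X e ω))} ≤ C₁ / n := by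
    intro n hn
    have hn' : (1 : ℝ) ≤ n := by exact_mod_cast hn
    have h1 := hPei (P := P) (F := F.map (fun x => max 0 (min x b))) (W := X) hi hXi.meas
      hXi.indep hXi.law hXi.nonneg hhi hlowb (κ * n) (κ * n)
    have h2 := hC₁' (κ * n) (Nat.one_le_iff_ne_zero.2 (by positivity))
    have h3 : C₀ * (2 * (κ * n : ℕ) + 1) ^ 2 * ρ ^ (κ * n) ≤
        C₀ * (2 * (2 * (κ * n : ℕ)) + 1) ^ 2 * ρ ^ (κ * n) := by
      gcongr
      have : (0 : ℝ) ≤ (κ * n : ℕ) := Nat.cast_nonneg _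
      linarith
    refine h1.trans (h3.trans (h2.trans ?_))
    apply div_le_div_of_nonneg_left hC₁ (by positivity)
    push_cast
    nlinarith
  -- the limit
  have hlim' : ∀ ε > 0, Tendsto (fun n : ℕ =>
      P.real {ω | (2 * c + ε) * n ≤ passageTime (ext X ω) 0 (pt n 0)}) atTop (𝓝 0) := by
    intro ε hε
    refine squeeze_zero (fun n => measureReal_nonneg) (fun n => ?_) (hlim ε hε)
    refine measureReal_mono fun ω hω => ?_
    refine le_trans (show (2 * c + ε) * n ≤ passageTime (ext X ω) 0 (pt n 0) from hω) ?_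
    unfold passageTime
    refine ciInf_mono ⟨0, ?_⟩ fun p => ?_
    · rintro _ ⟨p, rfl⟩
      exact wt_nonneg (ex_nonneg fun e => hXi.nonneg e ω) p
    · refine wt_mono (fun e => ?_) p
      show ex (fun e => X e ω) e ≤ ex (fun e => W e ω) e
      unfold ex
      split_ifs
      · exact max_le (h0 _ ω) (min_le_left _ _)
      · exact le_rfl
  -- the main bound at scale `n`
  have hstep := fun (m : ℕ) (hm : 1 ≤ m) => hXi.step hb hκ hh0.le hθ0.le
    (show 2 * b < h * (θ * κ) by linarith) hPG1 (n := m) hm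
  have hal := iterate_dyadic (α := fun m => al P X κ hκ m) (ℓ := 2 * c)
    (show 0 ≤ 40 * b * κ + 4 * b * C₁ by positivity) hstep
    (fun ε hε => hXi.al_lim hb hκ hh0.le hc.le (by linarith) hPG2 hlim' hε) hn
  have hL : 0 ≤ Real.log n := Real.log_nonneg hn'
  have hS1 : 1 ≤ Real.sqrt n := by
    rw [← Real.sqrt_one]
    exact Real.sqrt_le_sqrt hn'
  set t := 2 * b * Real.sqrt ((κ * n : ℕ) + 1) * (2 * Real.log n) with ht
  have ht0 : 0 ≤ t := by positivity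
  have hup := hXi.upper hb hc (κ := κ) (n := n) (R := R) hκ (x := x) (by
      intro v h1 h2
      have hle : ((κ : ℝ) * n) ≤ C * b * n := by
        have : (κ : ℝ) ≤ C * b := by
          refine hκup.trans (mul_le_mul_of_nonneg_right ?_ hb0.le)
          rw [hC]
          have : 0 ≤ 6 * G + (6 * G + 1 + 8 * K₀) / c + 48 * K₀ := by positivity
          linarith
        exact mul_le_mul_of_nonneg_right this (by positivity)
      have h1' : ((|v.1 - x.1| : ℤ) : ℝ) ≤ κ * n := by exact_mod_cast h1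
      have h2' : ((|v.2 - x.2| : ℤ) : ℝ) ≤ κ * n := by exact_mod_cast h2
      exact hbox v (h1'.trans hle) (h2'.trans hle)) hlowTT ht0
  have e1 : t / (2 * b * Real.sqrt ((κ * n : ℕ) + 1)) = 2 * Real.log n := by
    have : 0 < Real.sqrt ((κ * n : ℕ) + 1 : ℝ) := Real.sqrt_pos.2 (by positivity)
    rw [ht]
    field_simp
  rw [e1, exp_two_log hn] at hup
  refine hup.trans ?_
  set S := Real.sqrt n * (Real.log n + 1) with hS
  have hSge : 1 ≤ S := by
    rw [hS]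
    nlinarith
  exact final_arith hb hc hC₁ hK₀0 hκup hL hS1 hG hC (sqrt_bound hκ hn) ht hal
    (union_arith hb0 hκ hn)

end Pool.Agent.Helper33_FPP
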