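import Pool.Agent.Helper33_FPP.Sums

/-!
# Parallelogram sums (module N4)
-/

set_option autoImplicit false

namespace Pool.Agent.Helper33_FPP

open Finset

/-- summation along the lines -/
lemma fiber_sum (M : ℕ) (F : ℕ → ℕ → ℝ) :
    ∑ m ∈ range M, ∑ j ∈ Icc 1 M, F m (j + 2 * m) =
      ∑ J ∈ Icc 1 (3 * M - 2), ∑ m ∈ Ico ((J + 1 - M) / 2) (min M ((J + 1) / 2)), F m J := by
  rw [Finset.sum_sigma', Finset.sum_sigma']
  refine Finset.sum_nbij' (fun z => ⟨z.2 + 2 * z.1, z.1⟩) (fun z => ⟨z.2, z.1 - 2 * z.2⟩)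
    ?_ ?_ ?_ ?_ ?_
  · rintro ⟨m, j⟩ h
    simp only [mem_sigma, mem_range, mem_Icc, mem_Ico] at h ⊢
    omega
  · rintro ⟨J, m⟩ h
    simp only [mem_sigma, mem_range, mem_Icc, mem_Ico] at h ⊢
    omega
  · rintro ⟨m, j⟩ h
    simp only [mem_sigma, mem_range, mem_Icc] at h
    simp
  · rintro ⟨J, m⟩ h
    simp only [mem_sigma, mem_Icc, mem_Ico] at h
    have : J - 2 * m + 2 * m = J := by omega
    simp [this]
  · rintro ⟨m, j⟩ h
    rfl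

lemma fiber_le {M : ℕ} (hM : 1 ≤ M) {J : ℕ} (hJ : J ∈ Icc 1 (3 * M - 2)) :
    (J + 1 - M) / 2 ≤ min M ((J + 1) / 2) := by
  rw [mem_Icc] at hJ
  omega

/-- a general bound for the sum over the parallelogram of quantities with a bound along lines -/
lemma para_bound {M : ℕ} (hM : 1 ≤ M) (F : ℕ → ℕ → ℝ) {α β : ℝ} (hβ : 0 ≤ β)
    (hF : ∀ J ∈ Icc 1 (3 * M - 2), ∀ i₁ i₂, 1 ≤ i₁ → i₁ ≤ i₂ → i₂ ≤ M + 1 →
      ∑ i ∈ Ico i₁ i₂, F i J ≤ α * ((i₂ : ℝ) - i₁) + β) :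
    ∑ m ∈ range M, ∑ j ∈ Icc 1 M, F (1 + m) (j + 2 * m) ≤ α * M ^ 2 + 3 * M * β := by
  rw [fiber_sum M (fun m J => F (1 + m) J)]
  have h1 : ∀ J ∈ Icc 1 (3 * M - 2),
      ∑ m ∈ Ico ((J + 1 - M) / 2) (min M ((J + 1) / 2)), F (1 + m) J ≤
        α * ∑ _m ∈ Ico ((J + 1 - M) / 2) (min M ((J + 1) / 2)), (1 : ℝ) + β := by
    intro J hJ
    have h2 := fiber_le hM hJ
    rw [Finset.sum_Ico_add (fun i => F i J)]
    have h3 := hF J hJ ((J + 1 - M) / 2 + 1) (min M ((J + 1) / 2) + 1) (by omega) (by omega)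
      (by omega)
    refine h3.trans (le_of_eq ?_)
    rw [Finset.sum_const, Nat.card_Ico, nsmul_eq_mul, Nat.cast_sub h2]
    push_cast
    ring
  refine (Finset.sum_le_sum h1).trans ?_
  rw [Finset.sum_add_distrib, ← Finset.mul_sum, ← fiber_sum M (fun _ _ => (1 : ℝ))]
  simp only [Finset.sum_const, Nat.card_Icc, card_range, nsmul_eq_mul, mul_one]
  have h4 : ((3 * M - 2 + 1 - 1 : ℕ) : ℝ) ≤ 3 * M := by
    have : 3 * M - 2 + 1 - 1 ≤ 3 * M := by omega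
    exact_mod_cast this
  have h5 : ((3 * M - 2 + 1 - 1 : ℕ) : ℝ) * β ≤ 3 * M * β := mul_le_mul_of_nonneg_right h4 hβ
  have h6 : ((M + 1 - 1 : ℕ) : ℝ) = M := by simp
  rw [h6]
  nlinarith

/-- summation along the other family of lines -/
lemma col_bound {M : ℕ} (F : ℕ → ℕ → ℝ) {α β : ℝ} (s : ℕ)
    (hF : ∀ i ∈ Icc 1 M, ∀ j₁, 1 ≤ j₁ → j₁ + M ≤ 3 * M - 1 + s →
      ∑ j ∈ Ico j₁ (j₁ + M), F i j ≤ α * M + β) :
    ∑ m ∈ range M, ∑ j ∈ Icc 1 M, F (1 + m) (j + 2 * m + s) ≤ α * M ^ 2 + M * β := by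
  have h1 : ∀ m ∈ range M, ∑ j ∈ Icc 1 M, F (1 + m) (j + 2 * m + s) ≤ α * M + β := by
    intro m hm
    rw [mem_range] at hm
    have h2 : ∑ j ∈ Icc 1 M, F (1 + m) (j + 2 * m + s) =
        ∑ j ∈ Ico (1 + (2 * m + s)) (1 + (2 * m + s) + M), F (1 + m) j := by
      have e1 : Icc 1 M = Ico 1 (M + 1) := by
        ext x; simp only [mem_Icc, mem_Ico]; omega
      have e2 : 1 + (2 * m + s) + M = (M + 1) + (2 * m + s) := by ring
      rw [e1, e2, ← Finset.sum_Ico_add' (F (1 + m)) 1 (M + 1) (2 * m + s)]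
      refine Finset.sum_congr rfl fun j _ => ?_
      rw [add_assoc]
    rw [h2]
    exact hF (1 + m) (by rw [mem_Icc]; omega) _ (by omega) (by omega)
  refine (Finset.sum_le_sum h1).trans (le_of_eq ?_)
  rw [Finset.sum_const, card_range, nsmul_eq_mul]
  ring

variable {P : Par} {w : Sym2 (ℤ × ℤ) → ℝ}

/-- lower bound for the sum of the passage times across the double cells -/
lemma dia_sum (hP : P.Ok) (hG : P.Good w) {M : ℕ} (_hM : 1 ≤ M) (hMN : 3 * M + 4 ≤ P.N) :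
    12 * P.c * P.σ * M ^ 2 - 5 * M * (P.c * P.w₀) ≤
      ∑ m ∈ range M, ∑ j ∈ Icc 1 M, P.dia w (1 + m) (j + 2 * m) := by
  rw [Finset.sum_comm]
  have h1 : ∀ j ∈ Icc 1 M, 12 * P.c * P.σ * M - 5 * P.c * P.w₀ ≤
      ∑ m ∈ range M, P.dia w (1 + m) (j + 2 * m) := by
    intro j hj
    rw [mem_Icc] at hj
    exact sum_dia_ge hP hG le_rfl (by omega) hj.1 (by omega)
  refine le_trans (le_of_eq ?_) (Finset.sum_le_sum h1)
  rw [Finset.sum_const, Nat.card_Icc, nsmul_eq_mul]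
  simp only [add_tsub_cancel_right]
  ring

theorem net_mid (hP : P.Ok) (hG : P.Good w) {M : ℕ} (hM : 1 ≤ M) (hMN : 3 * M + 4 ≤ P.N) :
    ∑ m ∈ range M, ∑ j ∈ Icc 1 M, (P.mid w (1 + m) (j + 2 * m) - P.dia w (1 + m) (j + 2 * m))
      ≤ 20 * M * (P.c * P.w₀) := by
  have hc := hP.hc
  have hd := dia_sum hP hG hM hMN
  have hβ : 0 ≤ 3 * P.c * P.w₀ := by positivity
  have h1 : ∑ m ∈ range M, ∑ j ∈ Icc 1 M, P.bV w (1 + m) (j + 2 * m + 0) ≤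
      4 * P.c * P.σ * M ^ 2 + M * (3 * P.c * P.w₀) := by
    refine col_bound (fun i j => P.bV w i j) 0 ?_
    intro i hi j₁ hj₁ hj₂
    rw [mem_Icc] at hi
    have := sum_bV_le hP hG (i := i) (j₁ := j₁) (j₂ := j₁ + M) hi.1 (by omega) hj₁ (by omega)
      (by omega)
    push_cast at this
    rw [add_sub_cancel_left] at this
    exact this
  have h2 : ∑ m ∈ range M, ∑ j ∈ Icc 1 M, P.aU w (1 + m) (j + 2 * m + 1) ≤
      4 * P.c * P.σ * M ^ 2 + 3 * M * (3 * P.c * P.w₀) := by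
    refine para_bound hM (fun i j => P.aU w i (j + 1)) hβ ?_
    intro J hJ i₁ i₂ hi₁ hi₂ hi₃
    rw [mem_Icc] at hJ
    exact sum_aU_le hP hG hi₁ hi₂ (by omega) (by omega) (by omega)
  have h3 : ∑ m ∈ range M, ∑ j ∈ Icc 1 M, P.bV w (1 + m + 1) (j + 2 * m + 1) ≤
      4 * P.c * P.σ * M ^ 2 + M * (3 * P.c * P.w₀) := by
    refine col_bound (fun i j => P.bV w (i + 1) j) 1 ?_
    intro i hi j₁ hj₁ hj₂
    rw [mem_Icc] at hi
    have := sum_bV_le hP hG (i := i + 1) (j₁ := j₁) (j₂ := j₁ + M) (by omega) (by omega) hj₁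
      (by omega) (by omega)
    push_cast at this
    rw [add_sub_cancel_left] at this
    exact this
  have h4 : ∑ m ∈ range M, ∑ j ∈ Icc 1 M,
      (P.mid w (1 + m) (j + 2 * m) - P.dia w (1 + m) (j + 2 * m)) =
      ∑ m ∈ range M, ∑ j ∈ Icc 1 M, P.bV w (1 + m) (j + 2 * m + 0) +
      ∑ m ∈ range M, ∑ j ∈ Icc 1 M, P.aU w (1 + m) (j + 2 * m + 1) +
      ∑ m ∈ range M, ∑ j ∈ Icc 1 M, P.bV w (1 + m + 1) (j + 2 * m + 1) -
      ∑ m ∈ range M, ∑ j ∈ Icc 1 M, P.dia w (1 + m) (j + 2 * m) := by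
    simp only [Par.mid, Finset.sum_add_distrib, Finset.sum_sub_distrib, add_zero]
  rw [h4]
  linarith

theorem net_bot (hP : P.Ok) (hG : P.Good w) {M : ℕ} (hM : 1 ≤ M) (hMN : 3 * M + 4 ≤ P.N) :
    ∑ m ∈ range M, ∑ j ∈ Icc 1 M, (P.bot w (1 + m) (j + 2 * m) - P.dia w (1 + m) (j + 2 * m))
      ≤ 20 * M * (P.c * P.w₀) := by
  have hc := hP.hc
  have hd := dia_sum hP hG hM hMN
  have hβ : 0 ≤ 3 * P.c * P.w₀ := by positivity
  have h1 : ∑ m ∈ range M, ∑ j ∈ Icc 1 M, P.bV w (1 + m + 1) (j + 2 * m + 0) ≤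
      4 * P.c * P.σ * M ^ 2 + M * (3 * P.c * P.w₀) := by
    refine col_bound (fun i j => P.bV w (i + 1) j) 0 ?_
    intro i hi j₁ hj₁ hj₂
    rw [mem_Icc] at hi
    have := sum_bV_le hP hG (i := i + 1) (j₁ := j₁) (j₂ := j₁ + M) (by omega) (by omega) hj₁
      (by omega) (by omega)
    push_cast at this
    rw [add_sub_cancel_left] at this
    exact this
  have h2 : ∑ m ∈ range M, ∑ j ∈ Icc 1 M, P.aU w (1 + m) (j + 2 * m) ≤
      4 * P.c * P.σ * M ^ 2 + 3 * M * (3 * P.c * P.w₀) := by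
    refine para_bound hM (fun i j => P.aU w i j) hβ ?_
    intro J hJ i₁ i₂ hi₁ hi₂ hi₃
    rw [mem_Icc] at hJ
    exact sum_aU_le hP hG hi₁ hi₂ (by omega) (by omega) (by omega)
  have h3 : ∑ m ∈ range M, ∑ j ∈ Icc 1 M, P.bV w (1 + m + 1) (j + 2 * m + 1) ≤
      4 * P.c * P.σ * M ^ 2 + M * (3 * P.c * P.w₀) := by
    refine col_bound (fun i j => P.bV w (i + 1) j) 1 ?_
    intro i hi j₁ hj₁ hj₂
    rw [mem_Icc] at hi
    have := sum_bV_le hP hG (i := i + 1) (j₁ := j₁) (j₂ := j₁ + M) (by omega) (by omega) hj₁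
      (by omega) (by omega)
    push_cast at this
    rw [add_sub_cancel_left] at this
    exact this
  have h5 : ∀ m ∈ range M, ∀ j ∈ Icc 1 M,
      P.bot w (1 + m) (j + 2 * m) = P.aU w (1 + m) (j + 2 * m) +
        (P.bV w (1 + m + 1) (j + 2 * m + 0) + P.bV w (1 + m + 1) (j + 2 * m + 1)) := by
    intro m hm j hj
    rw [mem_range] at hm
    rw [mem_Icc] at hj
    rw [Par.bot, bV2_eq hP hG (by omega) (by omega) (by omega) (by omega), add_zero]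
  have h4 : ∑ m ∈ range M, ∑ j ∈ Icc 1 M,
      (P.bot w (1 + m) (j + 2 * m) - P.dia w (1 + m) (j + 2 * m)) =
      ∑ m ∈ range M, ∑ j ∈ Icc 1 M, P.aU w (1 + m) (j + 2 * m) +
      (∑ m ∈ range M, ∑ j ∈ Icc 1 M, P.bV w (1 + m + 1) (j + 2 * m + 0) +
      ∑ m ∈ range M, ∑ j ∈ Icc 1 M, P.bV w (1 + m + 1) (j + 2 * m + 1)) -
      ∑ m ∈ range M, ∑ j ∈ Icc 1 M, P.dia w (1 + m) (j + 2 * m) := by
    simp only [← Finset.sum_add_distrib, ← Finset.sum_sub_distrib]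
    refine Finset.sum_congr rfl fun m hm => Finset.sum_congr rfl fun j hj => ?_
    rw [h5 m hm j hj]
  rw [h4]
  linarith

theorem net_rng (hP : P.Ok) (hG : P.Good w) {M : ℕ} (hM : 1 ≤ M) (hMN : 3 * M + 4 ≤ P.N) :
    P.c * ∑ m ∈ range M, ∑ j ∈ Icc 1 M, (P.rng w (1 + m) (j + 2 * m + 1) : ℝ)
      ≤ 9 * M * P.E₂ + 2 * M ^ 2 * P.E₃ := by
  have hE := hP.hE₂
  have h := para_bound hM (fun i j => P.c * (P.rng w i (j + 1) : ℝ)) (α := 2 * P.E₃)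
    (β := 3 * P.E₂) (by positivity) ?_
  · have e : P.c * ∑ m ∈ range M, ∑ j ∈ Icc 1 M, (P.rng w (1 + m) (j + 2 * m + 1) : ℝ) =
        ∑ m ∈ range M, ∑ j ∈ Icc 1 M, P.c * (P.rng w (1 + m) (j + 2 * m + 1) : ℝ) := by
      rw [Finset.mul_sum]
      exact Finset.sum_congr rfl fun m _ => Finset.mul_sum _ _ _
    rw [e]
    refine h.trans (le_of_eq ?_)
    ring
  · intro J hJ i₁ i₂ hi₁ hi₂ hi₃
    rw [mem_Icc] at hJ
    rw [← Finset.mul_sum]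
    have := sum_rng_le hP hG hi₁ hi₂ (j := J + 1) (by omega) (by omega) (by omega)
    linarith

end Pool.Agent.Helper33_FPP
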