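import Pool.Agent.Helper33_FPP.PartIc
import Pool.Agent.Helper33_FPP.Block

/-!
# Part I for blocks: averages over the cells, for a general good event
-/

set_option autoImplicit false

namespace Pool.Agent.Helper33_FPP

open Finset

namespace PartB

variable {V : Type} [Fintype V]

open Classical in
/-- Slack of the middle route on the good event. -/
noncomputable def fmid (P : Par) (G : (EIdx P.R → V) → Prop) (val : V → ℝ) (z : ℕ × ℕ)
    (ω : EIdx P.R → V) : ℝ :=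
  if G ω then
    P.mid (wOf val ω) (1 + z.1) (z.2 + 2 * z.1) - P.dia (wOf val ω) (1 + z.1) (z.2 + 2 * z.1)
  else 0

open Classical in
/-- Slack of the bottom route on the good event. -/
noncomputable def fbot (P : Par) (G : (EIdx P.R → V) → Prop) (val : V → ℝ) (z : ℕ × ℕ)
    (ω : EIdx P.R → V) : ℝ :=
  if G ω then
    P.bot (wOf val ω) (1 + z.1) (z.2 + 2 * z.1) - P.dia (wOf val ω) (1 + z.1) (z.2 + 2 * z.1)
  else 0

open Classical in
/-- Range of the middle line on the good event. -/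
noncomputable def frng (P : Par) (G : (EIdx P.R → V) → Prop) (val : V → ℝ) (z : ℕ × ℕ)
    (ω : EIdx P.R → V) : ℝ :=
  if G ω then (P.rng (wOf val ω) (1 + z.1) (z.2 + 2 * z.1 + 1) : ℝ) else 0

variable {P : Par} {G : (EIdx P.R → V) → Prop} {val : V → ℝ} {ω : EIdx P.R → V} {p : V → ℝ}

omit [Fintype V] in
theorem fmid_of (h : G ω) (z : ℕ × ℕ) : fmid P G val z ω =
      P.mid (wOf val ω) (1 + z.1) (z.2 + 2 * z.1) - P.dia (wOf val ω) (1 + z.1) (z.2 + 2 * z.1) := by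
  unfold fmid
  rw [if_pos h]

omit [Fintype V] in
theorem fbot_of (h : G ω) (z : ℕ × ℕ) : fbot P G val z ω =
      P.bot (wOf val ω) (1 + z.1) (z.2 + 2 * z.1) - P.dia (wOf val ω) (1 + z.1) (z.2 + 2 * z.1) := by
  unfold fbot
  rw [if_pos h]

omit [Fintype V] in
theorem frng_of (h : G ω) (z : ℕ × ℕ) : frng P G val z ω =
      (P.rng (wOf val ω) (1 + z.1) (z.2 + 2 * z.1 + 1) : ℝ) := by
  unfold frng
  rw [if_pos h]

omit [Fintype V] in
theorem fmid_not (h : ¬ G ω) (z : ℕ × ℕ) : fmid P G val z ω = 0 := by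
  unfold fmid
  rw [if_neg h]

omit [Fintype V] in
theorem fbot_not (h : ¬ G ω) (z : ℕ × ℕ) : fbot P G val z ω = 0 := by
  unfold fbot
  rw [if_neg h]

omit [Fintype V] in
theorem frng_not (h : ¬ G ω) (z : ℕ × ℕ) : frng P G val z ω = 0 := by
  unfold frng
  rw [if_neg h]

omit [Fintype V] in
theorem fmid_nonneg (hP : P.Ok) (hGd : ∀ ω, G ω → P.Good (wOf val ω)) {M : ℕ}
    (hMN : 3 * M + 4 ≤ P.N) {z : ℕ × ℕ} (hz : z ∈ cells M) (ω : EIdx P.R → V) :
    0 ≤ fmid P G val z ω := by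
  obtain ⟨e1, e2, e3, e4⟩ := cells_idx hMN hz
  by_cases hG : G ω
  · rw [fmid_of hG]
    linarith [dia_le_mid hP (hGd ω hG) e1 e2 e3 e4]
  · rw [fmid_not hG]

omit [Fintype V] in
theorem fbot_nonneg (hP : P.Ok) (hGd : ∀ ω, G ω → P.Good (wOf val ω)) {M : ℕ}
    (hMN : 3 * M + 4 ≤ P.N) {z : ℕ × ℕ} (hz : z ∈ cells M) (ω : EIdx P.R → V) :
    0 ≤ fbot P G val z ω := by
  obtain ⟨e1, e2, e3, e4⟩ := cells_idx hMN hz
  by_cases hG : G ω
  · rw [fbot_of hG]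
    linarith [dia_le_bot hP (hGd ω hG) e1 e2 e3 e4]
  · rw [fbot_not hG]

omit [Fintype V] in
theorem frng_nonneg (z : ℕ × ℕ) (ω : EIdx P.R → V) : 0 ≤ frng P G val z ω := by
  by_cases hG : G ω
  · rw [frng_of hG]
    exact Nat.cast_nonneg _
  · rw [frng_not hG]

theorem avg_mid (hP : P.Ok) (hp : IsProb p) (hGd : ∀ ω, G ω → P.Good (wOf val ω)) {M : ℕ}
    (hM : 1 ≤ M) (hMN : 3 * M + 4 ≤ P.N) :
    ∑ z ∈ cells M, Ex p (fmid P G val z) ≤ 20 * M * (P.c * P.w₀) := by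
  have hc := hP.hc
  rw [← ConcAux.Ex_sum]
  have h3 : ∀ ω, ∑ z ∈ cells M, fmid P G val z ω ≤ 20 * M * (P.c * P.w₀) := by
    intro ω
    by_cases hG : G ω
    · refine le_trans (le_of_eq ?_) (net_mid hP (hGd ω hG) hM hMN)
      unfold cells
      rw [sum_product]
      apply sum_congr rfl
      intro m _
      apply sum_congr rfl
      intro j _
      rw [fmid_of hG]
    · rw [sum_congr rfl (fun z _ => fmid_not hG z), sum_const_zero]
      positivity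
  have h4 := ConcAux.Ex_mono hp.nonneg h3
  rwa [ConcAux.Ex_const hp] at h4

theorem avg_bot (hP : P.Ok) (hp : IsProb p) (hGd : ∀ ω, G ω → P.Good (wOf val ω)) {M : ℕ}
    (hM : 1 ≤ M) (hMN : 3 * M + 4 ≤ P.N) :
    ∑ z ∈ cells M, Ex p (fbot P G val z) ≤ 20 * M * (P.c * P.w₀) := by
  have hc := hP.hc
  rw [← ConcAux.Ex_sum]
  have h3 : ∀ ω, ∑ z ∈ cells M, fbot P G val z ω ≤ 20 * M * (P.c * P.w₀) := by
    intro ω
    by_cases hG : G ω
    · refine le_trans (le_of_eq ?_) (net_bot hP (hGd ω hG) hM hMN)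
      unfold cells
      rw [sum_product]
      apply sum_congr rfl
      intro m _
      apply sum_congr rfl
      intro j _
      rw [fbot_of hG]
    · rw [sum_congr rfl (fun z _ => fbot_not hG z), sum_const_zero]
      positivity
  have h4 := ConcAux.Ex_mono hp.nonneg h3
  rwa [ConcAux.Ex_const hp] at h4

theorem avg_rng (hP : P.Ok) (hp : IsProb p) (hGd : ∀ ω, G ω → P.Good (wOf val ω)) {M : ℕ}
    (hM : 1 ≤ M) (hMN : 3 * M + 4 ≤ P.N) :
    ∑ z ∈ cells M, Ex p (frng P G val z) ≤ (9 * M * P.E₂ + 2 * M ^ 2 * P.E₃) / P.c := by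
  have hc := hP.hc
  have hE2 := hP.hE₂
  have hE3 := hP.hE₃
  rw [← ConcAux.Ex_sum]
  have h3 : ∀ ω, ∑ z ∈ cells M, frng P G val z ω ≤
      (9 * M * P.E₂ + 2 * M ^ 2 * P.E₃) / P.c := by
    intro ω
    by_cases hG : G ω
    · have h5 := net_rng hP (hGd ω hG) hM hMN
      rw [le_div_iff₀ hc, mul_comm]
      refine le_trans (le_of_eq ?_) h5
      congr 1
      unfold cells
      rw [sum_product]
      apply sum_congr rfl
      intro m _
      apply sum_congr rfl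
      intro j _
      rw [frng_of hG]
    · rw [sum_congr rfl (fun z _ => frng_not hG z), sum_const_zero]
      positivity
  have h4 := ConcAux.Ex_mono hp.nonneg h3
  rwa [ConcAux.Ex_const hp] at h4

/-- The selection of a cell. -/
theorem select_cell {X : ℕ} {c : ℝ} (hc : 0 < c) (hX8 : 8 ≤ X) (hP : (Pars X c).Ok) {p : V → ℝ}
    (hp : IsProb p) {val : V → ℝ} {G : (EIdx (Pars X c).R → V) → Prop}
    (hGd : ∀ ω, G ω → (Pars X c).Good (wOf val ω)) :
    ∃ z ∈ cells (X ^ 93), 3 * (X ^ 93) + 4 ≤ (Pars X c).N ∧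
      Ex p (fmid (Pars X c) G val z) ≤ 60 * c * (X : ℝ) ^ 12 ∧
      Ex p (fbot (Pars X c) G val z) ≤ 60 * c * (X : ℝ) ^ 12 ∧
      Ex p (frng (Pars X c) G val z) ≤ 33 / c * (X : ℝ) ^ 57 := by
  have hx8 : (8 : ℝ) ≤ X := by exact_mod_cast hX8
  have hx1 : (1 : ℝ) ≤ X := by linarith
  have hx0 : (0 : ℝ) < X := by linarith
  have hM1 : 1 ≤ X ^ 93 := Nat.one_le_pow _ _ (by omega)
  have hMN : 3 * X ^ 93 + 4 ≤ (Pars X c).N := by
    change 3 * X ^ 93 + 4 ≤ X ^ 94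
    calc 3 * X ^ 93 + 4 ≤ 8 * X ^ 93 := by omega
      _ ≤ X * X ^ 93 := Nat.mul_le_mul_right _ hX8
      _ = X ^ 94 := by ring
  have e1 := avg_mid hP hp hGd hM1 hMN
  have e2 := avg_bot hP hp hGd hM1 hMN
  have e3 := avg_rng hP hp hGd hM1 hMN
  have hPc : (Pars X c).c = c := rfl
  have hw₀ : ((Pars X c).w₀ : ℝ) = (X : ℝ) ^ 105 := by
    change ((X ^ 105 : ℕ) : ℝ) = _
    push_cast
    ring
  have hE₂ : (Pars X c).E₂ = (X : ℝ) ^ 104 := rfl
  have hE₃ : (Pars X c).E₃ = (X : ℝ) ^ 57 := rfl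
  have hMx : ((X ^ 93 : ℕ) : ℝ) = (X : ℝ) ^ 93 := by
    push_cast
    ring
  rw [hPc, hw₀, hMx] at e1 e2
  rw [hPc, hE₂, hE₃, hMx] at e3
  have f1 : 20 * (X : ℝ) ^ 93 * (c * (X : ℝ) ^ 105) =
      (20 * c * (X : ℝ) ^ 12) * ((cells (X ^ 93)).card : ℝ) := by
    rw [card_cells, hMx]
    ring
  have f3 : (9 * (X : ℝ) ^ 93 * (X : ℝ) ^ 104 + 2 * ((X : ℝ) ^ 93) ^ 2 * (X : ℝ) ^ 57) / c ≤
      (11 * (X : ℝ) ^ 57 / c) * ((cells (X ^ 93)).card : ℝ) := by
    rw [card_cells, hMx, div_mul_eq_mul_div]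
    apply div_le_div_of_nonneg_right _ hc.le
    have h6 : (X : ℝ) ^ 197 ≤ (X : ℝ) ^ 243 := pow_le_pow_right₀ hx1 (by norm_num)
    have h7 : 9 * (X : ℝ) ^ 93 * (X : ℝ) ^ 104 + 2 * ((X : ℝ) ^ 93) ^ 2 * (X : ℝ) ^ 57 =
        9 * (X : ℝ) ^ 197 + 2 * (X : ℝ) ^ 243 := by ring
    have h8 : 11 * (X : ℝ) ^ 57 * ((X : ℝ) ^ 93 * (X : ℝ) ^ 93) = 11 * (X : ℝ) ^ 243 := by ring
    rw [h7, h8]
    linarith
  rw [f1] at e1 e2
  obtain ⟨z, hz, hzm, hzb, hzr⟩ := select_three (cells (X ^ 93)) (cells_nonempty hM1)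
    (fun z => Ex p (fmid (Pars X c) G val z)) (fun z => Ex p (fbot (Pars X c) G val z))
    (fun z => Ex p (frng (Pars X c) G val z))
    (fun z hz => ConcAux.Ex_nonneg hp.nonneg (fmid_nonneg hP hGd hMN hz))
    (fun z hz => ConcAux.Ex_nonneg hp.nonneg (fbot_nonneg hP hGd hMN hz))
    (fun z _ => ConcAux.Ex_nonneg hp.nonneg (frng_nonneg z))
    (K₁ := 20 * c * (X : ℝ) ^ 12) (K₂ := 20 * c * (X : ℝ) ^ 12) (K₃ := 11 * (X : ℝ) ^ 57 / c)
    (by positivity) (by positivity) (by positivity) e1 e2 (e3.trans f3)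
  refine ⟨z, hz, hMN, hzm.trans (le_of_eq ?_), hzb.trans (le_of_eq ?_), hzr.trans (le_of_eq ?_)⟩
  · ring
  · ring
  · ring

end PartB

end Pool.Agent.Helper33_FPP
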