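import Pool.Agent.Helper33_FPP.Tilt

/-!
# Block version of the tilting lemma

Changing independently, with a small probability `q`, the configuration in the disjoint cells of a
family `Tb` into a low one costs only a bounded factor in probability if `q ^ 2 * |Tb| ≤ 1`.
-/

set_option autoImplicit false

open Finset

namespace Pool.Agent.Helper33_FPP

namespace TiltBAux

open Pool.Agent.Helper33_FPP.Tilt

section Main

variable {K : Type} [Fintype K] [DecidableEq K] {V : K → Type} [∀ k, Fintype (V k)]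
  [∀ k, DecidableEq (V k)] {Hi Lo : ∀ k, Finset (V k)} {p : ∀ k, V k → ℝ} {q : ℝ} {Tb : Finset K}

/-- The product kernel. -/
noncomputable def KK (Hi Lo : ∀ k, Finset (V k)) (p : ∀ k, V k → ℝ) (q : ℝ) (Tb : Finset K)
    (ω ω' : ∀ k, V k) : ℝ :=
  ∏ i, (if i ∈ Tb then ker (Hi i) (Lo i) (p i) q (ω i) (ω' i) else if ω' i = ω i then 1 else 0)

lemma KK_nonneg (hp : ∀ k, IsProb (p k)) (h0 : 0 ≤ q) (h1 : q ≤ 1) (ω ω' : ∀ k, V k) :
    0 ≤ KK Hi Lo p q Tb ω ω' := by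
  unfold KK
  refine Finset.prod_nonneg fun i _ => ?_
  split_ifs
  · exact ker_nonneg (hp i) h0 h1 _ _
  · norm_num
  · norm_num

lemma KK_ne_zero {ω ω' : ∀ k, V k} (h : KK Hi Lo p q Tb ω ω' ≠ 0) (i : K) :
    ω' i = ω i ∨ (i ∈ Tb ∧ ω i ∈ Hi i ∧ ω' i ∈ Lo i) := by
  unfold KK at h
  have h1 := Finset.prod_ne_zero_iff.1 h i (Finset.mem_univ i)
  by_cases hi : i ∈ Tb
  · simp only [hi, if_true] at h1
    rcases ker_ne_zero h1 with h2 | h2
    · exact Or.inl h2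
    · exact Or.inr ⟨hi, h2.1, h2.2⟩
  · simp only [hi, if_false] at h1
    by_cases h2 : ω' i = ω i
    · exact Or.inl h2
    · simp [h2] at h1

lemma sum_KK_mul (ω : ∀ k, V k) (φ : ∀ k, V k → ℝ) :
    ∑ ω' : (∀ k, V k), KK Hi Lo p q Tb ω ω' * ∏ i, φ i (ω' i) =
      ∏ i, ∑ v' : V i, (if i ∈ Tb then ker (Hi i) (Lo i) (p i) q (ω i) v' else
        if v' = ω i then 1 else 0) * φ i v' := by
  rw [Finset.prod_univ_sum]
  simp only [Fintype.piFinset_univ]
  refine Finset.sum_congr rfl fun ω' _ => ?_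
  unfold KK
  rw [← Finset.prod_mul_distrib]

lemma sum_KK (hL : ∀ k ∈ Tb, 0 < ∑ u ∈ Lo k, p k u) (ω : ∀ k, V k) :
    ∑ ω' : (∀ k, V k), KK Hi Lo p q Tb ω ω' = 1 := by
  have h := sum_KK_mul (Hi := Hi) (Lo := Lo) (p := p) (q := q) (Tb := Tb) ω (fun _ _ => 1)
  simp only [Finset.prod_const_one, mul_one] at h
  rw [h]
  refine Finset.prod_eq_one fun i _ => ?_
  by_cases hi : i ∈ Tb
  · simp only [hi, if_true]; exact sum_ker (hL i hi) _
  · simp [hi]

/-- For a fixed configuration, most of the mass of the kernel flips many members of `U`. -/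
lemma bad_le (hp : ∀ k, IsProb (p k)) (hL : ∀ k ∈ Tb, 0 < ∑ u ∈ Lo k, p k u)
    (hd : ∀ k ∈ Tb, Disjoint (Hi k) (Lo k)) (h0 : 0 ≤ q)
    (h1 : q ≤ 1) (ω : ∀ k, V k) (U : Finset K) (n : ℕ) (hU : U ⊆ Tb) (hHi : ∀ i ∈ U, ω i ∈ Hi i)
    (hn : n ≤ U.card) :
    ∑ ω' : (∀ k, V k), KK Hi Lo p q Tb ω ω' *
      (if q * n / 4 ≤ (((U.filter (fun i => ω' i ∈ Lo i)).card : ℕ) : ℝ) then 0 else 1)
      ≤ Real.exp (-(q * n / 8)) := by
  set c : ℝ := Real.exp (-1) with hc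
  have hc0 : 0 < c := Real.exp_pos _
  have hc1 : c ≤ 5 / 8 := by
    rw [hc, Real.exp_neg, inv_le_comm₀ (Real.exp_pos _) (by norm_num)]
    have := Real.exp_one_gt_d9
    norm_num
    linarith
  have key : ∀ ω' : (∀ k, V k), KK Hi Lo p q Tb ω ω' *
      (if q * n / 4 ≤ (((U.filter (fun i => ω' i ∈ Lo i)).card : ℕ) : ℝ) then 0 else 1) ≤
      Real.exp (q * n / 4) * (KK Hi Lo p q Tb ω ω' *
        ∏ i, (if i ∈ U then (if ω' i ∈ Lo i then c else 1) else 1)) := by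
    intro ω'
    have hK := KK_nonneg (Tb := Tb) (Hi := Hi) (Lo := Lo) hp h0 h1 ω ω'
    have hprod : ∏ i, (if i ∈ U then (if ω' i ∈ Lo i then c else 1) else 1) =
        Real.exp (-(((U.filter (fun i => ω' i ∈ Lo i)).card : ℕ) : ℝ)) := by
      rw [Finset.prod_ite_mem, Finset.univ_inter, ← Finset.prod_filter, Finset.prod_const, hc,
        ← Real.exp_nat_mul]
      congr 1; ring
    rw [hprod]
    have hr : Real.exp (q * n / 4) * (KK Hi Lo p q Tb ω ω' *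
        Real.exp (-(((U.filter (fun i => ω' i ∈ Lo i)).card : ℕ) : ℝ))) =
        KK Hi Lo p q Tb ω ω' * Real.exp (q * n / 4 -
        (((U.filter (fun i => ω' i ∈ Lo i)).card : ℕ) : ℝ)) := by
      rw [sub_eq_add_neg, Real.exp_add]; ring
    rw [hr]
    refine mul_le_mul_of_nonneg_left ?_ hK
    split_ifs with h2
    · exact (Real.exp_pos _).le
    · push Not at h2
      apply Real.one_le_exp
      linarith
  refine (Finset.sum_le_sum fun ω' _ => key ω').trans ?_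
  rw [← Finset.mul_sum]
  have h2 := sum_KK_mul (Hi := Hi) (Lo := Lo) (p := p) (q := q) (Tb := Tb) ω
    (fun i v' => (if i ∈ U then (if v' ∈ Lo i then c else 1) else 1))
  rw [h2]
  have h3 : ∀ i, ∑ v' : V i, (if i ∈ Tb then ker (Hi i) (Lo i) (p i) q (ω i) v' else
        if v' = ω i then 1 else 0)
        * (if i ∈ U then (if v' ∈ Lo i then c else 1) else 1) =
        if i ∈ U then 1 - q + q * c else 1 := by
    intro i
    by_cases hi : i ∈ U
    · have hiT : i ∈ Tb := hU hi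
      simp only [hi, hiT, if_true]
      exact sum_ker_exp (hL i hiT) (hd i hiT) (hHi i hi) c
    · by_cases hiT : i ∈ Tb
      · simp only [hi, hiT, if_true, if_false, mul_one]
        exact sum_ker (hL i hiT) _
      · simp [hi, hiT]
  rw [Finset.prod_congr rfl fun i _ => h3 i, Finset.prod_ite_mem, Finset.univ_inter,
    Finset.prod_const]
  have h4 : (1 - q + q * c) ≤ Real.exp (-(3 / 8 * q)) := by
    have h5 := Real.add_one_le_exp (-(3 / 8 * q))
    nlinarith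
  have h5 : 0 ≤ 1 - q + q * c := by nlinarith
  have h6 : (1 - q + q * c) ≤ 1 := by nlinarith
  have h7 : (1 - q + q * c) ^ U.card ≤ (1 - q + q * c) ^ n := pow_le_pow_of_le_one h5 h6 hn
  have h8 : (1 - q + q * c) ^ n ≤ Real.exp (-(3 / 8 * q)) ^ n := pow_le_pow_left₀ h5 h4 n
  rw [← Real.exp_nat_mul] at h8
  calc Real.exp (q * n / 4) * (1 - q + q * c) ^ U.card
      ≤ Real.exp (q * n / 4) * Real.exp (n * (-(3 / 8 * q))) := by
        gcongr
        exact h7.trans h8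
    _ = Real.exp (-(q * n / 8)) := by
        rw [← Real.exp_add]
        congr 1; ring

lemma sum_w_KK (hL : ∀ k ∈ Tb, 0 < ∑ u ∈ Lo k, p k u) (hd : ∀ k ∈ Tb, Disjoint (Hi k) (Lo k))
    (ω' : ∀ k, V k) :
    ∑ ω : (∀ k, V k), (∏ i, p i (ω i)) * KK Hi Lo p q Tb ω ω' =
      (∏ i, p i (ω' i)) * ∏ i, (if i ∈ Tb then dens (Hi i) (Lo i) (p i) q (ω' i) else 1) := by
  have h1 : ∀ ω : (∀ k, V k), (∏ i, p i (ω i)) * KK Hi Lo p q Tb ω ω' =
      ∏ i, (p i (ω i) * (if i ∈ Tb then ker (Hi i) (Lo i) (p i) q (ω i) (ω' i) else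
        if ω' i = ω i then 1 else 0)) := by
    intro ω
    unfold KK
    rw [Finset.prod_mul_distrib]
  rw [Finset.sum_congr rfl fun ω _ => h1 ω, ← Finset.prod_mul_distrib]
  have h2 : ∏ i, ∑ v : V i, (p i v * (if i ∈ Tb then ker (Hi i) (Lo i) (p i) q v (ω' i) else
        if ω' i = v then 1 else 0)) = ∑ ω : (∀ k, V k), ∏ i, (p i (ω i) * (if i ∈ Tb then
        ker (Hi i) (Lo i) (p i) q (ω i) (ω' i) else if ω' i = ω i then 1 else 0)) := by
    rw [Finset.prod_univ_sum]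
    simp only [Fintype.piFinset_univ]
  rw [← h2]
  refine Finset.prod_congr rfl fun i _ => ?_
  by_cases hi : i ∈ Tb
  · simp only [hi, if_true]; exact sum_p_ker (hL i hi) (hd i hi) _
  · simp [hi]

lemma sum_w_dens_pow (hp : ∀ k, IsProb (p k)) {pL : ℝ} (hpL : 0 < pL)
    (hL : ∀ k ∈ Tb, pL ≤ ∑ u ∈ Lo k, p k u)
    (hd : ∀ k ∈ Tb, Disjoint (Hi k) (Lo k)) (h0 : 0 ≤ q) (h1 : q ≤ 1) (N : ℕ) (hN : 1 ≤ N)
    (hq : N * q ≤ pL) (hT : q ^ 2 * Tb.card ≤ 1) :
    ∑ ω : (∀ k, V k), (∏ i, p i (ω i)) *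
      (∏ i, (if i ∈ Tb then dens (Hi i) (Lo i) (p i) q (ω i) else 1)) ^ N ≤
      Real.exp (2 * (N : ℝ) ^ 2 / pL) := by
  have h2 : ∀ ω : (∀ k, V k), (∏ i, p i (ω i)) *
      (∏ i, (if i ∈ Tb then dens (Hi i) (Lo i) (p i) q (ω i) else 1)) ^ N =
      ∏ i, (p i (ω i) * (if i ∈ Tb then dens (Hi i) (Lo i) (p i) q (ω i) ^ N else 1)) := by
    intro ω
    rw [← Finset.prod_pow, ← Finset.prod_mul_distrib]
    refine Finset.prod_congr rfl fun i _ => ?_
    by_cases hi : i ∈ Tb <;> simp [hi]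
  rw [Finset.sum_congr rfl fun ω _ => h2 ω]
  have h3 : ∏ i, ∑ v : V i, (p i v * (if i ∈ Tb then dens (Hi i) (Lo i) (p i) q v ^ N else 1)) =
      ∑ ω : (∀ k, V k), ∏ i, (p i (ω i) *
        (if i ∈ Tb then dens (Hi i) (Lo i) (p i) q (ω i) ^ N else 1)) := by
    rw [Finset.prod_univ_sum]
    simp only [Fintype.piFinset_univ]
  rw [← h3]
  have h4 : ∀ i : K, ∑ v : V i, (p i v *
      (if i ∈ Tb then dens (Hi i) (Lo i) (p i) q v ^ N else 1)) ≤
      if i ∈ Tb then Real.exp (2 * (N : ℝ) ^ 2 * q ^ 2 / pL) else 1 := by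
    intro i
    by_cases hi : i ∈ Tb
    · simp only [hi, if_true]
      exact sum_dens_pow (hp i) hpL (hL i hi) (hd i hi) h0 N hN hq
    · simp only [hi, if_false, mul_one]
      exact (hp i).sum_eq.le
  have h5 : ∏ i, ∑ v : V i, (p i v * (if i ∈ Tb then dens (Hi i) (Lo i) (p i) q v ^ N else 1)) ≤
      ∏ i : K, (if i ∈ Tb then Real.exp (2 * (N : ℝ) ^ 2 * q ^ 2 / pL) else 1) := by
    refine Finset.prod_le_prod (fun i _ => ?_) fun i _ => h4 i
    refine Finset.sum_nonneg fun v _ => mul_nonneg ((hp i).nonneg v) ?_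
    split_ifs
    · exact pow_nonneg (dens_nonneg (hp i) h0 h1 v) N
    · norm_num
  refine h5.trans ?_
  rw [Finset.prod_ite_mem, Finset.univ_inter, Finset.prod_const, ← Real.exp_nat_mul]
  apply Real.exp_le_exp.2
  have h6 : (Tb.card : ℝ) * (2 * (N : ℝ) ^ 2 * q ^ 2 / pL) =
      (2 * (N : ℝ) ^ 2 / pL) * (q ^ 2 * Tb.card) := by ring
  rw [h6]
  have h7 : 0 ≤ 2 * (N : ℝ) ^ 2 / pL := by positivity
  calc (2 * (N : ℝ) ^ 2 / pL) * (q ^ 2 * Tb.card) ≤ (2 * (N : ℝ) ^ 2 / pL) * 1 := by gcongr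
    _ = _ := by ring

end Main

open Classical in
/-- Probability for a product of different spaces. -/
noncomputable def PrD {K : Type} [Fintype K] [DecidableEq K] {V : K → Type} [∀ k, Fintype (V k)]
    (p : ∀ k, V k → ℝ) (E : (∀ k, V k) → Prop) : ℝ :=
  ∑ ω : (∀ k, V k), (∏ i, p i (ω i)) * (if E ω then 1 else 0)

/-- Tilting lemma for a product of different spaces. -/
theorem tilt_dep (pL : ℝ) (hpL : 0 < pL) (N₀ : ℕ) (hN : 2 ≤ N₀)
    {K : Type} [Fintype K] [DecidableEq K] {V : K → Type} [∀ k, Fintype (V k)]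
    [∀ k, DecidableEq (V k)] {p : ∀ k, V k → ℝ} (hp : ∀ k, IsProb (p k))
    (Hi Lo : ∀ k, Finset (V k)) (Tb : Finset K) (hd : ∀ k ∈ Tb, Disjoint (Hi k) (Lo k))
    (hL : ∀ k ∈ Tb, pL ≤ ∑ v ∈ Lo k, p k v) (q : ℝ) (hq : 0 < q) (hq1 : q ≤ 1)
    (hNq : N₀ * q ≤ pL) (hT : q ^ 2 * Tb.card ≤ 1)
    (𝒜 ℬ : (∀ k, V k) → Prop) (U : (∀ k, V k) → Finset K) (n : ℕ)
    (hU : ∀ ω, 𝒜 ω → U ω ⊆ Tb ∧ (∀ i ∈ U ω, ω i ∈ Hi i) ∧ n ≤ (U ω).card)
    (hB : ∀ ω ω', 𝒜 ω → (∀ i, ω' i = ω i ∨ (i ∈ Tb ∧ ω i ∈ Hi i ∧ ω' i ∈ Lo i)) →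
      q * n / 4 ≤ (((U ω).filter (fun i => ω' i ∈ Lo i)).card : ℝ) → ℬ ω') :
    (1 - Real.exp (-(q * n / 8))) * PrD p 𝒜 ≤
      Real.exp (2 * (N₀ : ℝ) ^ 2 / pL) * (PrD p ℬ) ^ (1 - 1 / (N₀ : ℝ)) := by
  classical
  have hL0 : ∀ k ∈ Tb, 0 < ∑ u ∈ Lo k, p k u := fun k hk => lt_of_lt_of_le hpL (hL k hk)
  have hN' : (2 : ℝ) ≤ N₀ := by exact_mod_cast hN
  have hw : ∀ ω : (∀ k, V k), 0 ≤ ∏ i, p i (ω i) :=
    fun ω => Finset.prod_nonneg fun i _ => (hp i).nonneg _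
  -- step 1
  have h1 : ∀ ω : (∀ k, V k), 𝒜 ω → 1 - Real.exp (-(q * n / 8)) ≤
      ∑ ω' : (∀ k, V k), KK Hi Lo p q Tb ω ω' * (if ℬ ω' then 1 else 0) := by
    intro ω hω
    obtain ⟨hU1, hU2, hU3⟩ := hU ω hω
    have h2 := bad_le (Tb := Tb) hp hL0 hd hq.le hq1 ω (U ω) n hU1 hU2 hU3
    have h3 := sum_KK (Hi := Hi) (Tb := Tb) (q := q) hL0 ω
    have h4 : ∀ ω' : (∀ k, V k), KK Hi Lo p q Tb ω ω' - KK Hi Lo p q Tb ω ω' *
        (if q * n / 4 ≤ ((((U ω).filter (fun i => ω' i ∈ Lo i)).card : ℕ) : ℝ) then 0 else 1) ≤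
        KK Hi Lo p q Tb ω ω' * (if ℬ ω' then 1 else 0) := by
      intro ω'
      have hK := KK_nonneg (Tb := Tb) (Hi := Hi) (Lo := Lo) hp hq.le hq1 ω ω'
      by_cases h5 : q * n / 4 ≤ ((((U ω).filter (fun i => ω' i ∈ Lo i)).card : ℕ) : ℝ)
      · simp only [h5, if_true, mul_zero, sub_zero]
        by_cases h6 : KK Hi Lo p q Tb ω ω' = 0
        · simp [h6]
        · have h7 : ℬ ω' := hB ω ω' hω (fun i => KK_ne_zero h6 i) h5
          simp [h7]
      · simp only [h5, if_false, mul_one, sub_self]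
        split_ifs <;> simp [hK]
    have h5 := Finset.sum_le_sum fun (ω' : (∀ k, V k)) (_ : ω' ∈ Finset.univ) => h4 ω'
    rw [Finset.sum_sub_distrib, h3] at h5
    linarith
  -- step 2
  have h2 : (1 - Real.exp (-(q * n / 8))) * PrD p 𝒜 ≤
      ∑ ω' : (∀ k, V k), ((∏ i, p i (ω' i)) * (if ℬ ω' then 1 else 0)) *
        ∏ i, (if i ∈ Tb then dens (Hi i) (Lo i) (p i) q (ω' i) else 1) := by
    unfold PrD
    rw [Finset.mul_sum]
    calc ∑ ω : (∀ k, V k), (1 - Real.exp (-(q * n / 8))) *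
          ((∏ i, p i (ω i)) * (if 𝒜 ω then 1 else 0))
        ≤ ∑ ω : (∀ k, V k), (∏ i, p i (ω i)) *
            ∑ ω' : (∀ k, V k), KK Hi Lo p q Tb ω ω' * (if ℬ ω' then 1 else 0) := by
          refine Finset.sum_le_sum fun ω _ => ?_
          by_cases h3 : 𝒜 ω
          · simp only [h3, if_true, mul_one]
            rw [mul_comm]
            exact mul_le_mul_of_nonneg_left (h1 ω h3) (hw ω)
          · simp only [h3, if_false, mul_zero]
            refine mul_nonneg (hw ω) (Finset.sum_nonneg fun ω' _ => mul_nonneg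
              (KK_nonneg hp hq.le hq1 _ _) ?_)
            split_ifs <;> norm_num
      _ = ∑ ω' : (∀ k, V k), (if ℬ ω' then 1 else 0) *
            ∑ ω : (∀ k, V k), (∏ i, p i (ω i)) * KK Hi Lo p q Tb ω ω' := by
          simp only [Finset.mul_sum]
          rw [Finset.sum_comm]
          refine Finset.sum_congr rfl fun ω' _ => Finset.sum_congr rfl fun ω _ => ?_
          ring
      _ = _ := by
          refine Finset.sum_congr rfl fun ω' _ => ?_
          rw [sum_w_KK hL0 hd]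
          ring
  refine h2.trans ?_
  -- step 3: Hölder
  have hN1 : (1 : ℝ) ≤ N₀ := by linarith
  have h3 := Real.inner_le_weight_mul_Lp_of_nonneg Finset.univ hN1
    (fun ω' : (∀ k, V k) => ((∏ i, p i (ω' i)) * (if ℬ ω' then 1 else 0)))
    (fun ω' : (∀ k, V k) => ∏ i, (if i ∈ Tb then dens (Hi i) (Lo i) (p i) q (ω' i) else 1))
    (fun ω' => mul_nonneg (hw ω') (by split_ifs <;> norm_num))
    (fun ω' => Finset.prod_nonneg fun i _ => by
      split_ifs
      · exact dens_nonneg (hp i) hq.le hq1 _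
      · norm_num)
  refine h3.trans ?_
  have hPrD : ∑ ω' : (∀ k, V k), ((∏ i, p i (ω' i)) * (if ℬ ω' then 1 else 0)) = PrD p ℬ := rfl
  rw [hPrD, one_div, mul_comm]
  have hPr : 0 ≤ PrD p ℬ := by
    unfold PrD
    exact Finset.sum_nonneg fun ω' _ => mul_nonneg (hw ω') (by split_ifs <;> norm_num)
  refine mul_le_mul_of_nonneg_right ?_ (Real.rpow_nonneg hPr _)
  have h4 : ∑ ω' : (∀ k, V k), ((∏ i, p i (ω' i)) * (if ℬ ω' then 1 else 0)) *
      (∏ i, (if i ∈ Tb then dens (Hi i) (Lo i) (p i) q (ω' i) else 1)) ^ (N₀ : ℝ) ≤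
      Real.exp (2 * (N₀ : ℝ) ^ 2 / pL) := by
    refine le_trans ?_ (sum_w_dens_pow (Tb := Tb) (Hi := Hi) hp hpL hL hd hq.le hq1 N₀
      (by omega) hNq hT)
    refine Finset.sum_le_sum fun ω' _ => ?_
    rw [Real.rpow_natCast]
    refine mul_le_mul_of_nonneg_right ?_ (pow_nonneg (Finset.prod_nonneg fun i _ => by
      split_ifs
      · exact dens_nonneg (hp i) hq.le hq1 _
      · norm_num) _)
    have := hw ω'
    split_ifs
    · simp
    · simpa using this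
  have h5 : 0 ≤ ∑ ω' : (∀ k, V k), ((∏ i, p i (ω' i)) * (if ℬ ω' then 1 else 0)) *
      (∏ i, (if i ∈ Tb then dens (Hi i) (Lo i) (p i) q (ω' i) else 1)) ^ (N₀ : ℝ) := by
    refine Finset.sum_nonneg fun ω' _ => mul_nonneg (mul_nonneg (hw ω') (by split_ifs <;> norm_num))
      (Real.rpow_nonneg (Finset.prod_nonneg fun i _ => by
      split_ifs
      · exact dens_nonneg (hp i) hq.le hq1 _
      · norm_num) _)
  calc (∑ ω' : (∀ k, V k), ((∏ i, p i (ω' i)) * (if ℬ ω' then 1 else 0)) *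
      (∏ i, (if i ∈ Tb then dens (Hi i) (Lo i) (p i) q (ω' i) else 1)) ^ (N₀ : ℝ)) ^ ((N₀ : ℝ)⁻¹)
      ≤ (Real.exp (2 * (N₀ : ℝ) ^ 2 / pL)) ^ ((N₀ : ℝ)⁻¹) :=
        Real.rpow_le_rpow h5 h4 (by positivity)
    _ ≤ (Real.exp (2 * (N₀ : ℝ) ^ 2 / pL)) ^ (1 : ℝ) := by
        apply Real.rpow_le_rpow_of_exponent_le
        · apply Real.one_le_exp; positivity
        · exact inv_le_one_of_one_le₀ hN1
    _ = _ := Real.rpow_one _

end TiltBAux

open Pool.Agent.Helper33_FPP.TiltBAux in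
/-- **Block version of the tilting lemma.** -/
theorem tilt_blocks (pL : ℝ) (hpL : 0 < pL) (m N₀ : ℕ) (hN : 2 ≤ N₀) : ∃ C : ℝ, 0 < C ∧
    ∀ {ι κ V : Type} [Fintype ι] [DecidableEq ι] [DecidableEq κ] [Fintype V] {p : V → ℝ},
    IsProb p → ∀ (L : Finset V), pL ≤ ∑ v ∈ L, p v →
    ∀ (Tb : Finset κ) (E : κ → Finset ι), (∀ z ∈ Tb, ∀ z' ∈ Tb, z ≠ z' → Disjoint (E z) (E z')) →
    (∀ z ∈ Tb, (E z).card ≤ m) →
    ∀ (Hi : κ → (ι → V) → Prop),
    (∀ z ∈ Tb, ∀ ω ω' : ι → V, (∀ i ∈ E z, ω i = ω' i) → Hi z ω → Hi z ω') →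
    (∀ z ∈ Tb, ∀ ω : ι → V, Hi z ω → ¬ ∀ i ∈ E z, ω i ∈ L) →
    ∀ q : ℝ, 0 < q → N₀ * q ≤ pL ^ m → q ^ 2 * Tb.card ≤ 1 →
    ∀ (𝒜 ℬ : (ι → V) → Prop) (U : (ι → V) → Finset κ) (n : ℕ),
    (∀ ω, 𝒜 ω → U ω ⊆ Tb ∧ (∀ z ∈ U ω, Hi z ω) ∧ n ≤ (U ω).card) →
    (∀ ω ω', 𝒜 ω → ∀ F ⊆ Tb, (∀ z ∈ F, Hi z ω ∧ ∀ i ∈ E z, ω' i ∈ L) →
      (∀ i, (∀ z ∈ F, i ∉ E z) → ω' i = ω i) → q * n / 4 ≤ ((U ω ∩ F).card : ℝ) → ℬ ω') →
    (1 - Real.exp (-(q * n / 8))) * Pr p 𝒜 ≤ C * (Pr p ℬ) ^ (1 - 1 / (N₀ : ℝ)) := by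
  classical
  refine ⟨Real.exp (2 * (N₀ : ℝ) ^ 2 / pL ^ m), Real.exp_pos _, ?_⟩
  intro ι κ V _ _ _ _ p hp L hL Tb E hdis hcard Hi hloc hlow q hq hNq hT 𝒜 ℬ U n hU hB
  have hL1 : ∑ u ∈ L, p u ≤ 1 := by
    rw [← hp.sum_eq]
    exact Finset.sum_le_sum_of_subset_of_nonneg (Finset.subset_univ _) fun u _ _ => hp.nonneg u
  have hpL1 : pL ≤ 1 := hL.trans hL1
  have hpm : pL ^ m ≤ 1 := pow_le_one₀ hpL.le hpL1
  have hN' : (2 : ℝ) ≤ N₀ := by exact_mod_cast hN
  have hq1 : q ≤ 1 := by nlinarith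
  -- the cells
  set f : ι → Option {z // z ∈ Tb} := fun i =>
    if h : ∃ z : {z // z ∈ Tb}, i ∈ E z then some (Classical.choose h) else none with hf
  have hf1 : ∀ (i : ι) (z : {z // z ∈ Tb}), f i = some z ↔ i ∈ E z := by
    intro i z
    rw [hf]
    simp only
    constructor
    · intro h
      split_ifs at h with h1
      · have := Classical.choose_spec h1
        rw [Option.some.injEq] at h
        rwa [h] at this
    · intro h
      have h1 : ∃ z : {z // z ∈ Tb}, i ∈ E z := ⟨z, h⟩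
      rw [dif_pos h1, Option.some.injEq]
      by_contra hne
      have hne' : ((Classical.choose h1 : {z // z ∈ Tb}) : κ) ≠ z := fun h2 => hne (Subtype.ext h2)
      exact Finset.disjoint_left.1 (hdis _ (Classical.choose h1).2 _ z.2 hne')
        (Classical.choose_spec h1) h
  -- the equivalence
  let W : Option {z // z ∈ Tb} → Type := fun c => {i // f i = c} → V
  let e : (ι → V) ≃ (∀ c, W c) :=
    { toFun := fun ω c i => ω i.1
      invFun := fun g i => g (f i) ⟨i, rfl⟩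
      left_inv := fun ω => rfl
      right_inv := fun g => by
        funext c ⟨i, hi⟩
        subst hi
        rfl }
  let P : ∀ c, W c → ℝ := fun c η => ∏ i, p (η i)
  have hP : ∀ c, IsProb (P c) := by
    intro c
    refine ⟨fun η => Finset.prod_nonneg fun i _ => hp.nonneg _, ?_⟩
    show ∑ η : ({i // f i = c} → V), ∏ i, p (η i) = 1
    have := Finset.prod_univ_sum (fun _ : {i // f i = c} => (Finset.univ : Finset V))
      (fun _ v => p v)
    rw [Fintype.piFinset_univ] at this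
    rw [← this]
    exact Finset.prod_eq_one fun i _ => hp.sum_eq
  have hPr : ∀ A : (ι → V) → Prop, Pr p A = PrD P (fun g => A (e.symm g)) := by
    intro A
    rw [Tilt.Pr_eq]
    unfold PrD
    rw [← Equiv.sum_comp e.symm]
    refine Finset.sum_congr rfl fun g _ => ?_
    congr 1
    have h1 := Fintype.prod_fiberwise f (fun i => p (e.symm g i))
    rw [← h1]
    refine Finset.prod_congr rfl fun c _ => ?_
    refine Finset.prod_congr rfl fun i _ => ?_
    obtain ⟨i, hi⟩ := i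
    subst hi
    rfl
  let Hi' : ∀ c, Finset (W c) := fun c => Finset.univ.filter fun η =>
    ∃ z : {z // z ∈ Tb}, c = some z ∧ ∃ ω : ι → V, (∀ i : {i // f i = c}, ω i.1 = η i) ∧ Hi z ω
  let Lo' : ∀ c, Finset (W c) := fun c => Finset.univ.filter fun η => ∀ i, η i ∈ L
  let Tb' : Finset (Option {z // z ∈ Tb}) := Finset.univ.filter fun c => ∃ z, c = some z
  have hHi' : ∀ (z : {z // z ∈ Tb}) (ω : ι → V), e ω (some z) ∈ Hi' (some z) ↔ Hi z ω := by
    intro z ω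
    constructor
    · intro h
      obtain ⟨z', hz', ω', hω', hH⟩ := (Finset.mem_filter.1 h).2
      rw [Option.some.injEq] at hz'
      subst hz'
      refine hloc z z.2 ω' ω (fun i hi => ?_) hH
      exact hω' ⟨i, (hf1 i z).2 hi⟩
    · intro h
      exact Finset.mem_filter.2 ⟨Finset.mem_univ _, z, rfl, ω, fun i => rfl, h⟩
  have hLo' : ∀ (z : {z // z ∈ Tb}) (ω : ι → V), e ω (some z) ∈ Lo' (some z) ↔
      ∀ i ∈ E z, ω i ∈ L := by
    intro z ω
    constructor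
    · intro h i hi
      exact (Finset.mem_filter.1 h).2 ⟨i, (hf1 i z).2 hi⟩
    · intro h
      exact Finset.mem_filter.2 ⟨Finset.mem_univ _, fun i => h i.1 ((hf1 i.1 z).1 i.2)⟩
  have hd' : ∀ c ∈ Tb', Disjoint (Hi' c) (Lo' c) := by
    intro c hc
    obtain ⟨z, rfl⟩ := (Finset.mem_filter.1 hc).2
    rw [Finset.disjoint_left]
    intro η h1 h2
    obtain ⟨z', hz', ω, hω, hH⟩ := (Finset.mem_filter.1 h1).2
    rw [Option.some.injEq] at hz'
    subst hz'
    refine hlow z z.2 ω hH fun i hi => ?_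
    have := (Finset.mem_filter.1 h2).2 ⟨i, (hf1 i z).2 hi⟩
    rwa [← hω] at this
  have hL' : ∀ c ∈ Tb', pL ^ m ≤ ∑ η ∈ Lo' c, P c η := by
    intro c hc
    obtain ⟨z, rfl⟩ := (Finset.mem_filter.1 hc).2
    have h1 : ∑ η ∈ Lo' (some z), P (some z) η =
        ∏ _i : {i // f i = some z}, ∑ v ∈ L, p v := by
      rw [Finset.prod_univ_sum]
      refine Finset.sum_congr ?_ fun _ _ => rfl
      ext η
      refine Iff.trans ?_ (Fintype.mem_piFinset (t := fun _ : {i // f i = some z} => L)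
        (f := η)).symm
      simp only [Lo', Finset.mem_filter, Finset.mem_univ, true_and]
    rw [h1, Finset.prod_const]
    have h2 : (Finset.univ : Finset {i // f i = some z}).card ≤ m := by
      rw [Finset.card_univ, Fintype.card_subtype]
      refine le_trans (Finset.card_le_card ?_) (hcard z z.2)
      intro i hi
      exact (hf1 i z).1 (Finset.mem_filter.1 hi).2
    have hL0 : 0 ≤ ∑ v ∈ L, p v := Finset.sum_nonneg fun u _ => hp.nonneg u
    calc pL ^ m ≤ (∑ v ∈ L, p v) ^ m := pow_le_pow_left₀ hpL.le hL m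
      _ ≤ _ := pow_le_pow_of_le_one hL0 hL1 h2
  have hcardT : ∀ A : Finset κ, A ⊆ Tb →
      ((Finset.univ.filter fun c : Option {z // z ∈ Tb} => ∃ z, c = some z ∧ z.1 ∈ A)).card =
        A.card := by
    intro A hA
    symm
    refine Finset.card_bij (fun a ha => some ⟨a, hA ha⟩) ?_ ?_ ?_
    · intro a ha
      exact Finset.mem_filter.2 ⟨Finset.mem_univ _, ⟨a, hA ha⟩, rfl, ha⟩
    · intro a ha b hb h
      simpa using h
    · intro c hc
      obtain ⟨z, rfl, hz⟩ := (Finset.mem_filter.1 hc).2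
      exact ⟨z.1, hz, rfl⟩
  have hTb' : Tb'.card = Tb.card := by
    rw [← hcardT Tb (Finset.Subset.refl _)]
    congr 1
    ext c
    simp only [Tb', Finset.mem_filter, Finset.mem_univ, true_and]
    constructor
    · rintro ⟨z, rfl⟩
      exact ⟨z, rfl, z.2⟩
    · rintro ⟨z, rfl, _⟩
      exact ⟨z, rfl⟩
  rw [hPr 𝒜, hPr ℬ]
  refine tilt_dep (pL ^ m) (pow_pos hpL m) N₀ hN hP Hi' Lo' Tb' hd' hL' q hq hq1 hNq
    (by rw [hTb']; exact hT) _ _
    (fun g => Finset.univ.filter fun c : Option {z // z ∈ Tb} =>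
      ∃ z, c = some z ∧ z.1 ∈ U (e.symm g)) n ?_ ?_
  · intro g hg
    obtain ⟨h1, h2, h3⟩ := hU _ hg
    refine ⟨?_, ?_, ?_⟩
    · intro c hc
      obtain ⟨z, rfl, hz⟩ := (Finset.mem_filter.1 hc).2
      exact Finset.mem_filter.2 ⟨Finset.mem_univ _, z, rfl⟩
    · intro c hc
      obtain ⟨z, rfl, hz⟩ := (Finset.mem_filter.1 hc).2
      have := (hHi' z (e.symm g)).2 (h2 z hz)
      rwa [Equiv.apply_symm_apply] at this
    · rw [hcardT _ h1]
      exact h3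
  · intro g g' hg hgg' hn
    obtain ⟨h1, h2, h3⟩ := hU _ hg
    set ω := e.symm g with hω
    set ω' := e.symm g' with hω'
    have hgω : g = e ω := by rw [hω, Equiv.apply_symm_apply]
    have hgω' : g' = e ω' := by rw [hω', Equiv.apply_symm_apply]
    set F : Finset κ := Tb.filter fun z => Hi z ω ∧ ∀ i ∈ E z, ω' i ∈ L with hF
    refine hB ω ω' hg F (Finset.filter_subset _ _) (fun z hz => (Finset.mem_filter.1 hz).2) ?_ ?_
    · intro i hi
      rcases hgg' (f i) with h | ⟨hT', hH, hLo⟩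
      · have := congrFun h ⟨i, rfl⟩
        rw [hgω, hgω'] at this
        exact this
      · exfalso
        obtain ⟨z, hz⟩ := (Finset.mem_filter.1 hT').2
        have hiz : i ∈ E z := (hf1 i z).1 hz
        rw [hz, hgω] at hH
        rw [hz, hgω'] at hLo
        exact hi z (Finset.mem_filter.2 ⟨z.2, (hHi' z ω).1 hH, (hLo' z ω').1 hLo⟩) hiz
    · refine hn.trans ?_
      have hsub : ((Finset.univ.filter fun c : Option {z // z ∈ Tb} =>
          ∃ z, c = some z ∧ z.1 ∈ U ω).filter fun c => g' c ∈ Lo' c) ⊆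
          (Finset.univ.filter fun c : Option {z // z ∈ Tb} =>
            ∃ z, c = some z ∧ z.1 ∈ U ω ∩ F) := by
        intro c hc
        obtain ⟨hc1, hc2⟩ := Finset.mem_filter.1 hc
        obtain ⟨z, rfl, hz⟩ := (Finset.mem_filter.1 hc1).2
        refine Finset.mem_filter.2 ⟨Finset.mem_univ _, z, rfl, Finset.mem_inter.2 ⟨hz, ?_⟩⟩
        rw [hgω'] at hc2
        exact Finset.mem_filter.2 ⟨z.2, h2 z hz, (hLo' z ω').1 hc2⟩
      have h4 := Finset.card_le_card hsub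
      rw [hcardT (U ω ∩ F) (Finset.inter_subset_left.trans h1)] at h4
      exact_mod_cast h4

end Pool.Agent.Helper33_FPP
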