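import Pool.Agent.Helper33_FPP.Basic

/-!
# Tilting lemma (module M4)

Changing independently, with a small probability `q`, the high values in a set `Tb` of coordinates
into low values costs only a bounded factor in probability if `q ^ 2 * |Tb| ≤ 1`.
-/

set_option autoImplicit false

open Finset

namespace Pool.Agent.Helper33_FPP

namespace Tilt

/-- `(1 - q) ^ n ≤ 1 - n q + n² q²` -/
lemma one_sub_pow_le (n : ℕ) {q : ℝ} (h0 : 0 ≤ q) (h1 : q ≤ 1) :
    (1 - q) ^ n ≤ 1 - n * q + (n : ℝ) ^ 2 * q ^ 2 := by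
  induction n with
  | zero => simp
  | succ k ih =>
    rw [pow_succ]
    have hk : (0 : ℝ) ≤ k := Nat.cast_nonneg k
    have h2 : (1 - q) ^ k * (1 - q) ≤ (1 - k * q + (k : ℝ) ^ 2 * q ^ 2) * (1 - q) :=
      mul_le_mul_of_nonneg_right ih (by linarith)
    refine h2.trans ?_
    push_cast
    nlinarith [mul_nonneg hk (sq_nonneg q), mul_nonneg (mul_nonneg hk hk) (mul_nonneg (sq_nonneg q) h0),
      sq_nonneg q]

/-- `(1 + x) ^ n ≤ 1 + n x + n² x²` if `n x ≤ 1`. -/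
lemma one_add_pow_le (n : ℕ) {x : ℝ} (h0 : 0 ≤ x) (h1 : n * x ≤ 1) :
    (1 + x) ^ n ≤ 1 + n * x + (n : ℝ) ^ 2 * x ^ 2 := by
  have h2 : (1 + x) ^ n ≤ Real.exp (n * x) := by
    rw [mul_comm, Real.exp_mul, Real.rpow_natCast]
    exact pow_le_pow_left₀ (by linarith) (by linarith [Real.add_one_le_exp x]) n
  have h3 : |Real.exp (n * x) - 1 - n * x| ≤ (n * x) ^ 2 :=
    Real.abs_exp_sub_one_sub_id_le (by
      rw [abs_of_nonneg (mul_nonneg (Nat.cast_nonneg n) h0)]; exact h1)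
  have h4 := (abs_le.1 h3).2
  have h5 : ((n : ℝ) * x) ^ 2 = (n : ℝ) ^ 2 * x ^ 2 := by ring
  linarith

section Kernel

variable {V : Type} [Fintype V] [DecidableEq V]

/-- The one-coordinate kernel: a high value is changed with probability `q` into a low one. -/
noncomputable def ker (Hi Lo : Finset V) (p : V → ℝ) (q : ℝ) (v v' : V) : ℝ :=
  if v ∈ Hi then (1 - q) * (if v' = v then 1 else 0) +
    (if v' ∈ Lo then q * p v' / (∑ u ∈ Lo, p u) else 0)
  else (if v' = v then 1 else 0)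

/-- The density of the marginal. -/
noncomputable def dens (Hi Lo : Finset V) (p : V → ℝ) (q : ℝ) (v : V) : ℝ :=
  if v ∈ Hi then 1 - q else if v ∈ Lo then 1 + q * (∑ u ∈ Hi, p u) / (∑ u ∈ Lo, p u) else 1

variable {Hi Lo : Finset V} {p : V → ℝ} {q : ℝ}

lemma ker_nonneg (hp : IsProb p) (h0 : 0 ≤ q) (h1 : q ≤ 1) (v v' : V) : 0 ≤ ker Hi Lo p q v v' := by
  unfold ker
  have h2 : 0 ≤ ∑ u ∈ Lo, p u := Finset.sum_nonneg fun u _ => hp.nonneg u
  split_ifs <;>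
    first
      | positivity
      | (have := mul_nonneg h0 (hp.nonneg v'); have h3 := div_nonneg this h2; nlinarith)

omit [Fintype V] in
lemma ker_ne_zero {v v' : V} (h : ker Hi Lo p q v v' ≠ 0) : v' = v ∨ (v ∈ Hi ∧ v' ∈ Lo) := by
  unfold ker at h
  by_cases h1 : v' = v
  · exact Or.inl h1
  · refine Or.inr ?_
    by_cases h2 : v ∈ Hi
    · by_cases h3 : v' ∈ Lo
      · exact ⟨h2, h3⟩
      · simp [h1, h2, h3] at h
    · simp [h1, h2] at h

lemma sum_ker (hL : 0 < ∑ u ∈ Lo, p u) (v : V) : ∑ v', ker Hi Lo p q v v' = 1 := by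
  unfold ker
  by_cases h : v ∈ Hi
  · simp only [h, if_true]
    rw [Finset.sum_add_distrib, ← Finset.mul_sum]
    have h1 : ∑ v' : V, (if v' = v then (1 : ℝ) else 0) = 1 := by simp
    have h2 : ∑ v' : V, (if v' ∈ Lo then q * p v' / (∑ u ∈ Lo, p u) else 0) = q := by
      rw [← Finset.sum_filter]
      have h3 : (univ.filter fun v' : V => v' ∈ Lo) = Lo := by ext; simp
      rw [h3, ← Finset.sum_div, ← Finset.mul_sum]
      field_simp
    rw [h1, h2]; ring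
  · simp [h]

lemma sum_ker_exp (hL : 0 < ∑ u ∈ Lo, p u) (hd : Disjoint Hi Lo) {v : V} (hv : v ∈ Hi) (c : ℝ) :
    ∑ v', ker Hi Lo p q v v' * (if v' ∈ Lo then c else 1) = 1 - q + q * c := by
  have hv' : v ∉ Lo := fun h => (Finset.disjoint_left.1 hd hv h)
  unfold ker
  simp only [hv, if_true]
  have h0 : ∀ v' : V, ((1 - q) * (if v' = v then 1 else 0) +
      (if v' ∈ Lo then q * p v' / (∑ u ∈ Lo, p u) else 0)) * (if v' ∈ Lo then c else 1)
      = (1 - q) * (if v' = v then 1 else 0) +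
      (if v' ∈ Lo then c * (q * p v' / (∑ u ∈ Lo, p u)) else 0) := by
    intro v'
    by_cases h1 : v' = v
    · subst h1; simp [hv']
    · by_cases h2 : v' ∈ Lo <;> simp [h1, h2, mul_comm]
  rw [Finset.sum_congr rfl fun v' _ => h0 v', Finset.sum_add_distrib, ← Finset.mul_sum]
  have h1 : ∑ v' : V, (if v' = v then (1 : ℝ) else 0) = 1 := by simp
  have h2 : ∑ v' : V, (if v' ∈ Lo then c * (q * p v' / (∑ u ∈ Lo, p u)) else 0) = q * c := by
    rw [← Finset.sum_filter]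
    have h3 : (univ.filter fun v' : V => v' ∈ Lo) = Lo := by ext; simp
    rw [h3, ← Finset.mul_sum, ← Finset.sum_div, ← Finset.mul_sum]
    field_simp
  rw [h1, h2]; ring

lemma sum_p_ker (hL : 0 < ∑ u ∈ Lo, p u) (hd : Disjoint Hi Lo) (v' : V) :
    ∑ v, p v * ker Hi Lo p q v v' = p v' * dens Hi Lo p q v' := by
  have h0 : ∀ v : V, p v * ker Hi Lo p q v v' =
      (if v = v' then (if v' ∈ Hi then (1 - q) * p v' else p v') else 0) +
      (if v ∈ Hi then (p v * (if v' ∈ Lo then q * p v' / (∑ u ∈ Lo, p u) else 0)) else 0) := by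
    intro v
    unfold ker
    by_cases h1 : v = v'
    · subst h1
      by_cases h2 : v ∈ Hi
      · have hv' : v ∉ Lo := fun h => (Finset.disjoint_left.1 hd h2 h)
        simp [h2, hv', mul_comm]
      · simp [h2]
    · have h1' : ¬ v' = v := fun h => h1 h.symm
      by_cases h2 : v ∈ Hi <;> simp [h1, h1', h2]
  rw [Finset.sum_congr rfl fun v _ => h0 v, Finset.sum_add_distrib]
  have h1 : ∑ v : V, (if v = v' then (if v' ∈ Hi then (1 - q) * p v' else p v') else 0) =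
      (if v' ∈ Hi then (1 - q) * p v' else p v') := by simp
  have h2 : ∑ v : V, (if v ∈ Hi then (p v * (if v' ∈ Lo then q * p v' / (∑ u ∈ Lo, p u) else 0))
      else 0) = (∑ u ∈ Hi, p u) * (if v' ∈ Lo then q * p v' / (∑ u ∈ Lo, p u) else 0) := by
    rw [← Finset.sum_filter]
    have h3 : (univ.filter fun v' : V => v' ∈ Hi) = Hi := by ext; simp
    rw [h3, Finset.sum_mul]
  rw [h1, h2]
  unfold dens
  by_cases h3 : v' ∈ Hi
  · have hv' : v' ∉ Lo := fun h => (Finset.disjoint_left.1 hd h3 h)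
    simp [h3, hv', mul_comm]
  · by_cases h4 : v' ∈ Lo
    · simp only [h3, h4, if_true, if_false]
      field_simp
    · simp [h3, h4]

lemma dens_nonneg (hp : IsProb p) (h0 : 0 ≤ q) (h1 : q ≤ 1) (v : V) : 0 ≤ dens Hi Lo p q v := by
  unfold dens
  have h2 : 0 ≤ ∑ u ∈ Lo, p u := Finset.sum_nonneg fun u _ => hp.nonneg u
  have h3 : 0 ≤ ∑ u ∈ Hi, p u := Finset.sum_nonneg fun u _ => hp.nonneg u
  split_ifs
  · linarith
  · positivity
  · norm_num

lemma sum_dens_pow (hp : IsProb p) {pL : ℝ} (hpL : 0 < pL) (hL : pL ≤ ∑ u ∈ Lo, p u)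
    (hd : Disjoint Hi Lo) (h0 : 0 ≤ q) (N : ℕ) (hN : 1 ≤ N) (hq : N * q ≤ pL) :
    ∑ v, p v * dens Hi Lo p q v ^ N ≤ Real.exp (2 * (N : ℝ) ^ 2 * q ^ 2 / pL) := by
  have hL0 : 0 < ∑ u ∈ Lo, p u := lt_of_lt_of_le hpL hL
  have hN' : (1 : ℝ) ≤ N := by exact_mod_cast hN
  have hH0 : 0 ≤ ∑ u ∈ Hi, p u := Finset.sum_nonneg fun u _ => hp.nonneg u
  have hsum : (∑ u ∈ Hi, p u) + (∑ u ∈ Lo, p u) ≤ 1 := by
    rw [← Finset.sum_union hd, ← hp.sum_eq]
    exact Finset.sum_le_sum_of_subset_of_nonneg (Finset.subset_univ _) fun u _ _ => hp.nonneg u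
  have hpL1 : pL ≤ 1 := by linarith
  have hq1 : q ≤ 1 := by nlinarith
  set h := ∑ u ∈ Hi, p u with hh
  set l := ∑ u ∈ Lo, p u with hl
  have hh1 : h ≤ 1 := by linarith
  have hx0 : 0 ≤ q * h / l := by positivity
  have hx1 : q * h / l ≤ q / pL := by
    rw [div_le_div_iff₀ hL0 hpL]
    have : q * h * pL ≤ q * 1 * pL := by gcongr
    have h5 : q * pL ≤ q * l := by gcongr
    nlinarith
  have hNx : N * (q * h / l) ≤ 1 := by
    have : N * (q * h / l) ≤ N * (q / pL) := by gcongr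
    refine this.trans ?_
    rw [← mul_div_assoc, div_le_one hpL]; exact hq
  -- split the sum
  have hsplit : ∑ v, p v * dens Hi Lo p q v ^ N =
      h * (1 - q) ^ N + l * (1 + q * h / l) ^ N + (1 - h - l) := by
    have h1 : ∀ v : V, p v * dens Hi Lo p q v ^ N =
        (if v ∈ Hi then p v * ((1 - q) ^ N - 1) else 0) +
        (if v ∈ Lo then p v * ((1 + q * h / l) ^ N - 1) else 0) + p v := by
      intro v
      unfold dens
      by_cases h3 : v ∈ Hi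
      · have hv' : v ∉ Lo := fun h => (Finset.disjoint_left.1 hd h3 h)
        simp only [h3, hv', if_true, if_false]; ring
      · by_cases h4 : v ∈ Lo
        · simp only [h3, h4, if_true, if_false, ← hh, ← hl]; ring
        · simp [h3, h4]
    rw [Finset.sum_congr rfl fun v _ => h1 v, Finset.sum_add_distrib, Finset.sum_add_distrib,
      hp.sum_eq, ← Finset.sum_filter, ← Finset.sum_filter]
    have h3 : (univ.filter fun v' : V => v' ∈ Hi) = Hi := by ext; simp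
    have h4 : (univ.filter fun v' : V => v' ∈ Lo) = Lo := by ext; simp
    rw [h3, h4, ← Finset.sum_mul, ← Finset.sum_mul, ← hh, ← hl]
    ring
  rw [hsplit]
  have h1 := one_sub_pow_le N h0 hq1
  have h2 := one_add_pow_le N hx0 hNx
  have h3 : h * (1 - q) ^ N ≤ h * (1 - N * q + (N : ℝ) ^ 2 * q ^ 2) :=
    mul_le_mul_of_nonneg_left h1 hH0
  have h4 : l * (1 + q * h / l) ^ N ≤ l * (1 + N * (q * h / l) + (N : ℝ) ^ 2 * (q * h / l) ^ 2) :=
    mul_le_mul_of_nonneg_left h2 hL0.le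
  have h5 : l * (1 + N * (q * h / l) + (N : ℝ) ^ 2 * (q * h / l) ^ 2) =
      l + N * q * h + (N : ℝ) ^ 2 * q ^ 2 * h ^ 2 / l := by
    field_simp
  have h6 : (N : ℝ) ^ 2 * q ^ 2 * h ^ 2 / l ≤ (N : ℝ) ^ 2 * q ^ 2 / pL := by
    apply div_le_div₀ (by positivity) _ hpL hL
    have : h ^ 2 ≤ 1 := by nlinarith
    calc (N : ℝ) ^ 2 * q ^ 2 * h ^ 2 ≤ (N : ℝ) ^ 2 * q ^ 2 * 1 := by gcongr
      _ = _ := by ring
  have h7 : (N : ℝ) ^ 2 * q ^ 2 ≤ (N : ℝ) ^ 2 * q ^ 2 / pL := by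
    rw [le_div_iff₀ hpL]
    have : (N : ℝ) ^ 2 * q ^ 2 * pL ≤ (N : ℝ) ^ 2 * q ^ 2 * 1 := by gcongr
    linarith
  have h8 : h * ((N : ℝ) ^ 2 * q ^ 2) ≤ 1 * ((N : ℝ) ^ 2 * q ^ 2) := by gcongr
  have h9 : 2 * (N : ℝ) ^ 2 * q ^ 2 / pL + 1 ≤ Real.exp (2 * (N : ℝ) ^ 2 * q ^ 2 / pL) :=
    Real.add_one_le_exp _
  have h10 : 2 * (N : ℝ) ^ 2 * q ^ 2 / pL = 2 * ((N : ℝ) ^ 2 * q ^ 2 / pL) := by ring
  nlinarith

end Kernel

section Main

open Classical in
lemma Pr_eq {ι V : Type*} [Fintype ι] [DecidableEq ι] [Fintype V] (p : V → ℝ)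
    (E : (ι → V) → Prop) : Pr p E = ∑ ω : ι → V, (∏ i, p (ω i)) * (if E ω then 1 else 0) := by
  unfold Pr Ex
  rfl

variable {ι V : Type} [Fintype ι] [DecidableEq ι] [Fintype V] [DecidableEq V]
  {Hi Lo : Finset V} {p : V → ℝ} {q : ℝ} {Tb : Finset ι}

/-- The product kernel. -/
noncomputable def KK (Hi Lo : Finset V) (p : V → ℝ) (q : ℝ) (Tb : Finset ι) (ω ω' : ι → V) : ℝ :=
  ∏ i, (if i ∈ Tb then ker Hi Lo p q (ω i) (ω' i) else if ω' i = ω i then 1 else 0)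

omit [DecidableEq ι] in
lemma KK_nonneg [DecidableEq ι] (hp : IsProb p) (h0 : 0 ≤ q) (h1 : q ≤ 1) (ω ω' : ι → V) :
    0 ≤ KK Hi Lo p q Tb ω ω' := by
  unfold KK
  refine Finset.prod_nonneg fun i _ => ?_
  split_ifs
  · exact ker_nonneg hp h0 h1 _ _
  · norm_num
  · norm_num

omit [Fintype V] in
lemma KK_ne_zero {p : V → ℝ} {ω ω' : ι → V} (h : (∏ i, (if i ∈ Tb then ker Hi Lo p q (ω i) (ω' i) else
    if ω' i = ω i then (1 : ℝ) else 0)) ≠ 0) (i : ι) :
    ω' i = ω i ∨ (i ∈ Tb ∧ ω i ∈ Hi ∧ ω' i ∈ Lo) := by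
  have h1 := Finset.prod_ne_zero_iff.1 h i (Finset.mem_univ i)
  by_cases hi : i ∈ Tb
  · simp only [hi, if_true] at h1
    rcases ker_ne_zero h1 with h2 | h2
    · exact Or.inl h2
    · exact Or.inr ⟨hi, h2.1, h2.2⟩
  · simp only [hi, if_false] at h1
    by_cases h2 : ω' i = ω i
    · exact Or.inl h2
    · simp [h2] at h1

lemma sum_KK_mul (ω : ι → V) (φ : ι → V → ℝ) :
    ∑ ω' : ι → V, KK Hi Lo p q Tb ω ω' * ∏ i, φ i (ω' i) =
      ∏ i, ∑ v' : V, (if i ∈ Tb then ker Hi Lo p q (ω i) v' else if v' = ω i then 1 else 0)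
        * φ i v' := by
  rw [Finset.prod_univ_sum]
  simp only [Fintype.piFinset_univ]
  refine Finset.sum_congr rfl fun ω' _ => ?_
  unfold KK
  rw [← Finset.prod_mul_distrib]

lemma sum_KK (hL : 0 < ∑ u ∈ Lo, p u) (ω : ι → V) :
    ∑ ω' : ι → V, KK Hi Lo p q Tb ω ω' = 1 := by
  have h := sum_KK_mul (Hi := Hi) (Lo := Lo) (p := p) (q := q) (Tb := Tb) ω (fun _ _ => 1)
  simp only [Finset.prod_const_one, mul_one] at h
  rw [h]
  refine Finset.prod_eq_one fun i _ => ?_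
  by_cases hi : i ∈ Tb
  · simp only [hi, if_true]; exact sum_ker hL _
  · simp [hi]

/-- For a fixed configuration, most of the mass of the kernel flips many members of `U`. -/
lemma bad_le (hp : IsProb p) (hL : 0 < ∑ u ∈ Lo, p u) (hd : Disjoint Hi Lo) (h0 : 0 ≤ q)
    (h1 : q ≤ 1) (ω : ι → V) (U : Finset ι) (n : ℕ) (hU : U ⊆ Tb) (hHi : ∀ i ∈ U, ω i ∈ Hi)
    (hn : n ≤ U.card) :
    ∑ ω' : ι → V, KK Hi Lo p q Tb ω ω' *
      (if q * n / 4 ≤ (((U.filter (fun i => ω' i ∈ Lo)).card : ℕ) : ℝ) then 0 else 1)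
      ≤ Real.exp (-(q * n / 8)) := by
  set c : ℝ := Real.exp (-1) with hc
  have hc0 : 0 < c := Real.exp_pos _
  have hc1 : c ≤ 5 / 8 := by
    rw [hc, Real.exp_neg, inv_le_comm₀ (Real.exp_pos _) (by norm_num)]
    have := Real.exp_one_gt_d9
    norm_num
    linarith
  have key : ∀ ω' : ι → V, KK Hi Lo p q Tb ω ω' *
      (if q * n / 4 ≤ (((U.filter (fun i => ω' i ∈ Lo)).card : ℕ) : ℝ) then 0 else 1) ≤
      Real.exp (q * n / 4) * (KK Hi Lo p q Tb ω ω' *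
        ∏ i, (if i ∈ U then (if ω' i ∈ Lo then c else 1) else 1)) := by
    intro ω'
    have hK := KK_nonneg (Tb := Tb) (Hi := Hi) (Lo := Lo) hp h0 h1 ω ω'
    have hprod : ∏ i, (if i ∈ U then (if ω' i ∈ Lo then c else 1) else 1) =
        Real.exp (-(((U.filter (fun i => ω' i ∈ Lo)).card : ℕ) : ℝ)) := by
      rw [Finset.prod_ite_mem, Finset.univ_inter, ← Finset.prod_filter, Finset.prod_const, hc,
        ← Real.exp_nat_mul]
      congr 1; ring
    rw [hprod]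
    have hr : Real.exp (q * n / 4) * (KK Hi Lo p q Tb ω ω' *
        Real.exp (-(((U.filter (fun i => ω' i ∈ Lo)).card : ℕ) : ℝ))) =
        KK Hi Lo p q Tb ω ω' * Real.exp (q * n / 4 -
        (((U.filter (fun i => ω' i ∈ Lo)).card : ℕ) : ℝ)) := by
      rw [sub_eq_add_neg, Real.exp_add]; ring
    rw [hr]
    refine mul_le_mul_of_nonneg_left ?_ hK
    split_ifs with h2
    · exact (Real.exp_pos _).le
    · push Not at h2
      apply Real.one_le_exp
      linarith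
  refine (Finset.sum_le_sum fun ω' _ => key ω').trans ?_
  rw [← Finset.mul_sum]
  have h2 := sum_KK_mul (Hi := Hi) (Lo := Lo) (p := p) (q := q) (Tb := Tb) ω
    (fun i v' => (if i ∈ U then (if v' ∈ Lo then c else 1) else 1))
  rw [h2]
  have h3 : ∀ i, ∑ v' : V, (if i ∈ Tb then ker Hi Lo p q (ω i) v' else if v' = ω i then 1 else 0)
        * (if i ∈ U then (if v' ∈ Lo then c else 1) else 1) =
        if i ∈ U then 1 - q + q * c else 1 := by
    intro i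
    by_cases hi : i ∈ U
    · have hiT : i ∈ Tb := hU hi
      simp only [hi, hiT, if_true]
      exact sum_ker_exp hL hd (hHi i hi) c
    · by_cases hiT : i ∈ Tb
      · simp only [hi, hiT, if_true, if_false, mul_one]
        exact sum_ker hL _
      · simp [hi, hiT]
  rw [Finset.prod_congr rfl fun i _ => h3 i, Finset.prod_ite_mem, Finset.univ_inter,
    Finset.prod_const]
  have h4 : (1 - q + q * c) ≤ Real.exp (-(3 / 8 * q)) := by
    have h5 := Real.add_one_le_exp (-(3 / 8 * q))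
    nlinarith
  have h5 : 0 ≤ 1 - q + q * c := by nlinarith
  have h6 : (1 - q + q * c) ≤ 1 := by nlinarith
  have h7 : (1 - q + q * c) ^ U.card ≤ (1 - q + q * c) ^ n := pow_le_pow_of_le_one h5 h6 hn
  have h8 : (1 - q + q * c) ^ n ≤ Real.exp (-(3 / 8 * q)) ^ n := pow_le_pow_left₀ h5 h4 n
  rw [← Real.exp_nat_mul] at h8
  calc Real.exp (q * n / 4) * (1 - q + q * c) ^ U.card
      ≤ Real.exp (q * n / 4) * Real.exp (n * (-(3 / 8 * q))) := by
        gcongr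
        exact h7.trans h8
    _ = Real.exp (-(q * n / 8)) := by
        rw [← Real.exp_add]
        congr 1; ring

lemma sum_w_KK (hL : 0 < ∑ u ∈ Lo, p u) (hd : Disjoint Hi Lo) (ω' : ι → V) :
    ∑ ω : ι → V, (∏ i, p (ω i)) * KK Hi Lo p q Tb ω ω' =
      (∏ i, p (ω' i)) * ∏ i, (if i ∈ Tb then dens Hi Lo p q (ω' i) else 1) := by
  have h1 : ∀ ω : ι → V, (∏ i, p (ω i)) * KK Hi Lo p q Tb ω ω' =
      ∏ i, (p (ω i) * (if i ∈ Tb then ker Hi Lo p q (ω i) (ω' i) else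
        if ω' i = ω i then 1 else 0)) := by
    intro ω
    unfold KK
    rw [Finset.prod_mul_distrib]
  rw [Finset.sum_congr rfl fun ω _ => h1 ω, ← Finset.prod_mul_distrib]
  have h2 : ∏ i, ∑ v : V, (p v * (if i ∈ Tb then ker Hi Lo p q v (ω' i) else
        if ω' i = v then 1 else 0)) = ∑ ω : ι → V, ∏ i, (p (ω i) * (if i ∈ Tb then
        ker Hi Lo p q (ω i) (ω' i) else if ω' i = ω i then 1 else 0)) := by
    rw [Finset.prod_univ_sum]
    simp only [Fintype.piFinset_univ]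
  rw [← h2]
  refine Finset.prod_congr rfl fun i _ => ?_
  by_cases hi : i ∈ Tb
  · simp only [hi, if_true]; exact sum_p_ker hL hd _
  · simp [hi]

lemma sum_w_dens_pow (hp : IsProb p) {pL : ℝ} (hpL : 0 < pL) (hL : pL ≤ ∑ u ∈ Lo, p u)
    (hd : Disjoint Hi Lo) (h0 : 0 ≤ q) (h1 : q ≤ 1) (N : ℕ) (hN : 1 ≤ N) (hq : N * q ≤ pL)
    (hT : q ^ 2 * Tb.card ≤ 1) :
    ∑ ω : ι → V, (∏ i, p (ω i)) * (∏ i, (if i ∈ Tb then dens Hi Lo p q (ω i) else 1)) ^ N ≤
      Real.exp (2 * (N : ℝ) ^ 2 / pL) := by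
  have h2 : ∀ ω : ι → V, (∏ i, p (ω i)) * (∏ i, (if i ∈ Tb then dens Hi Lo p q (ω i) else 1)) ^ N =
      ∏ i, (p (ω i) * (if i ∈ Tb then dens Hi Lo p q (ω i) ^ N else 1)) := by
    intro ω
    rw [← Finset.prod_pow, ← Finset.prod_mul_distrib]
    refine Finset.prod_congr rfl fun i _ => ?_
    by_cases hi : i ∈ Tb <;> simp [hi]
  rw [Finset.sum_congr rfl fun ω _ => h2 ω]
  have h3 : ∏ i, ∑ v : V, (p v * (if i ∈ Tb then dens Hi Lo p q v ^ N else 1)) =
      ∑ ω : ι → V, ∏ i, (p (ω i) * (if i ∈ Tb then dens Hi Lo p q (ω i) ^ N else 1)) := by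
    rw [Finset.prod_univ_sum]
    simp only [Fintype.piFinset_univ]
  rw [← h3]
  have h4 : ∀ i : ι, ∑ v : V, (p v * (if i ∈ Tb then dens Hi Lo p q v ^ N else 1)) ≤
      if i ∈ Tb then Real.exp (2 * (N : ℝ) ^ 2 * q ^ 2 / pL) else 1 := by
    intro i
    by_cases hi : i ∈ Tb
    · simp only [hi, if_true]
      exact sum_dens_pow hp hpL hL hd h0 N hN hq
    · simp only [hi, if_false, mul_one]
      exact hp.sum_eq.le
  have h5 : ∏ i, ∑ v : V, (p v * (if i ∈ Tb then dens Hi Lo p q v ^ N else 1)) ≤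
      ∏ i : ι, (if i ∈ Tb then Real.exp (2 * (N : ℝ) ^ 2 * q ^ 2 / pL) else 1) := by
    refine Finset.prod_le_prod (fun i _ => ?_) fun i _ => h4 i
    refine Finset.sum_nonneg fun v _ => mul_nonneg (hp.nonneg v) ?_
    split_ifs
    · exact pow_nonneg (dens_nonneg hp h0 h1 v) N
    · norm_num
  refine h5.trans ?_
  rw [Finset.prod_ite_mem, Finset.univ_inter, Finset.prod_const, ← Real.exp_nat_mul]
  apply Real.exp_le_exp.2
  have h6 : (Tb.card : ℝ) * (2 * (N : ℝ) ^ 2 * q ^ 2 / pL) =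
      (2 * (N : ℝ) ^ 2 / pL) * (q ^ 2 * Tb.card) := by ring
  rw [h6]
  have h7 : 0 ≤ 2 * (N : ℝ) ^ 2 / pL := by positivity
  calc (2 * (N : ℝ) ^ 2 / pL) * (q ^ 2 * Tb.card) ≤ (2 * (N : ℝ) ^ 2 / pL) * 1 := by gcongr
    _ = _ := by ring

end Main

end Tilt

open Pool.Agent.Helper33_FPP.Tilt in
/-- **Tilting lemma.** -/
theorem tilt (pL : ℝ) (hpL : 0 < pL) (N₀ : ℕ) (hN : 2 ≤ N₀) : ∃ C : ℝ, 0 < C ∧
    ∀ {ι V : Type} [Fintype ι] [DecidableEq ι] [Fintype V] [DecidableEq V] {p : V → ℝ},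
    IsProb p → ∀ (Hi Lo : Finset V), Disjoint Hi Lo → pL ≤ ∑ v ∈ Lo, p v →
    ∀ (Tb : Finset ι) (q : ℝ), 0 < q → N₀ * q ≤ pL → q ^ 2 * Tb.card ≤ 1 →
    ∀ (𝒜 ℬ : (ι → V) → Prop) (U : (ι → V) → Finset ι) (n : ℕ),
    (∀ ω, 𝒜 ω → U ω ⊆ Tb ∧ (∀ i ∈ U ω, ω i ∈ Hi) ∧ n ≤ (U ω).card) →
    (∀ ω ω', 𝒜 ω → (∀ i, ω' i = ω i ∨ (i ∈ Tb ∧ ω i ∈ Hi ∧ ω' i ∈ Lo)) →
      q * n / 4 ≤ (((U ω).filter (fun i => ω' i ∈ Lo)).card : ℝ) → ℬ ω') →
    (1 - Real.exp (-(q * n / 8))) * Pr p 𝒜 ≤ C * (Pr p ℬ) ^ (1 - 1 / (N₀ : ℝ)) := by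
  classical
  refine ⟨Real.exp (2 * (N₀ : ℝ) ^ 2 / pL), Real.exp_pos _, ?_⟩
  intro ι V _ _ _ _ p hp Hi Lo hd hL Tb q hq hNq hT 𝒜 ℬ U n hU hB
  have hL0 : 0 < ∑ u ∈ Lo, p u := lt_of_lt_of_le hpL hL
  have hL1 : ∑ u ∈ Lo, p u ≤ 1 := by
    rw [← hp.sum_eq]
    exact Finset.sum_le_sum_of_subset_of_nonneg (Finset.subset_univ _) fun u _ _ => hp.nonneg u
  have hN' : (2 : ℝ) ≤ N₀ := by exact_mod_cast hN
  have hq1 : q ≤ 1 := by nlinarith
  have hw : ∀ ω : ι → V, 0 ≤ ∏ i, p (ω i) := fun ω => Finset.prod_nonneg fun i _ => hp.nonneg _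
  -- step 1
  have h1 : ∀ ω : ι → V, 𝒜 ω → 1 - Real.exp (-(q * n / 8)) ≤
      ∑ ω' : ι → V, KK Hi Lo p q Tb ω ω' * (if ℬ ω' then 1 else 0) := by
    intro ω hω
    obtain ⟨hU1, hU2, hU3⟩ := hU ω hω
    have h2 := bad_le (Tb := Tb) hp hL0 hd hq.le hq1 ω (U ω) n hU1 hU2 hU3
    have h3 := sum_KK (Hi := Hi) (Tb := Tb) (q := q) hL0 ω
    have h4 : ∀ ω' : ι → V, KK Hi Lo p q Tb ω ω' - KK Hi Lo p q Tb ω ω' *
        (if q * n / 4 ≤ ((((U ω).filter (fun i => ω' i ∈ Lo)).card : ℕ) : ℝ) then 0 else 1) ≤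
        KK Hi Lo p q Tb ω ω' * (if ℬ ω' then 1 else 0) := by
      intro ω'
      have hK := KK_nonneg (Tb := Tb) (Hi := Hi) (Lo := Lo) hp hq.le hq1 ω ω'
      by_cases h5 : q * n / 4 ≤ ((((U ω).filter (fun i => ω' i ∈ Lo)).card : ℕ) : ℝ)
      · simp only [h5, if_true, mul_zero, sub_zero]
        by_cases h6 : KK Hi Lo p q Tb ω ω' = 0
        · simp [h6]
        · have h7 : ℬ ω' := hB ω ω' hω (fun i => KK_ne_zero (by unfold KK at h6; exact h6) i) h5
          simp [h7]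
      · simp only [h5, if_false, mul_one, sub_self]
        split_ifs <;> simp [hK]
    have h5 := Finset.sum_le_sum fun (ω' : ι → V) (_ : ω' ∈ Finset.univ) => h4 ω'
    rw [Finset.sum_sub_distrib, h3] at h5
    linarith
  -- step 2
  have h2 : (1 - Real.exp (-(q * n / 8))) * Pr p 𝒜 ≤
      ∑ ω' : ι → V, ((∏ i, p (ω' i)) * (if ℬ ω' then 1 else 0)) *
        ∏ i, (if i ∈ Tb then dens Hi Lo p q (ω' i) else 1) := by
    rw [Pr_eq, Finset.mul_sum]
    calc ∑ ω : ι → V, (1 - Real.exp (-(q * n / 8))) * ((∏ i, p (ω i)) * (if 𝒜 ω then 1 else 0))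
        ≤ ∑ ω : ι → V, (∏ i, p (ω i)) *
            ∑ ω' : ι → V, KK Hi Lo p q Tb ω ω' * (if ℬ ω' then 1 else 0) := by
          refine Finset.sum_le_sum fun ω _ => ?_
          by_cases h3 : 𝒜 ω
          · simp only [h3, if_true, mul_one]
            rw [mul_comm]
            exact mul_le_mul_of_nonneg_left (h1 ω h3) (hw ω)
          · simp only [h3, if_false, mul_zero]
            refine mul_nonneg (hw ω) (Finset.sum_nonneg fun ω' _ => mul_nonneg
              (KK_nonneg hp hq.le hq1 _ _) ?_)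
            split_ifs <;> norm_num
      _ = ∑ ω' : ι → V, (if ℬ ω' then 1 else 0) *
            ∑ ω : ι → V, (∏ i, p (ω i)) * KK Hi Lo p q Tb ω ω' := by
          simp only [Finset.mul_sum]
          rw [Finset.sum_comm]
          refine Finset.sum_congr rfl fun ω' _ => Finset.sum_congr rfl fun ω _ => ?_
          ring
      _ = _ := by
          refine Finset.sum_congr rfl fun ω' _ => ?_
          rw [sum_w_KK hL0 hd]
          ring
  refine h2.trans ?_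
  -- step 3: Hölder
  have hN1 : (1 : ℝ) ≤ N₀ := by linarith
  have h3 := Real.inner_le_weight_mul_Lp_of_nonneg Finset.univ hN1
    (fun ω' : ι → V => ((∏ i, p (ω' i)) * (if ℬ ω' then 1 else 0)))
    (fun ω' : ι → V => ∏ i, (if i ∈ Tb then dens Hi Lo p q (ω' i) else 1))
    (fun ω' => mul_nonneg (hw ω') (by split_ifs <;> norm_num))
    (fun ω' => Finset.prod_nonneg fun i _ => by
      split_ifs
      · exact dens_nonneg hp hq.le hq1 _
      · norm_num)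
  refine h3.trans ?_
  rw [← Pr_eq, one_div, mul_comm]
  have hPr : 0 ≤ Pr p ℬ := by
    rw [Pr_eq]
    exact Finset.sum_nonneg fun ω' _ => mul_nonneg (hw ω') (by split_ifs <;> norm_num)
  refine mul_le_mul_of_nonneg_right ?_ (Real.rpow_nonneg hPr _)
  have h4 : ∑ ω' : ι → V, ((∏ i, p (ω' i)) * (if ℬ ω' then 1 else 0)) *
      (∏ i, (if i ∈ Tb then dens Hi Lo p q (ω' i) else 1)) ^ (N₀ : ℝ) ≤
      Real.exp (2 * (N₀ : ℝ) ^ 2 / pL) := by
    refine le_trans ?_ (sum_w_dens_pow (Tb := Tb) (Hi := Hi) hp hpL hL hd hq.le hq1 N₀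
      (by omega) hNq hT)
    refine Finset.sum_le_sum fun ω' _ => ?_
    rw [Real.rpow_natCast]
    refine mul_le_mul_of_nonneg_right ?_ (pow_nonneg (Finset.prod_nonneg fun i _ => by
      split_ifs
      · exact dens_nonneg hp hq.le hq1 _
      · norm_num) _)
    have := hw ω'
    split_ifs
    · simp
    · simpa using this
  have h5 : 0 ≤ ∑ ω' : ι → V, ((∏ i, p (ω' i)) * (if ℬ ω' then 1 else 0)) *
      (∏ i, (if i ∈ Tb then dens Hi Lo p q (ω' i) else 1)) ^ (N₀ : ℝ) := by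
    refine Finset.sum_nonneg fun ω' _ => mul_nonneg (mul_nonneg (hw ω') (by split_ifs <;> norm_num))
      (Real.rpow_nonneg (Finset.prod_nonneg fun i _ => by
      split_ifs
      · exact dens_nonneg hp hq.le hq1 _
      · norm_num) _)
  calc (∑ ω' : ι → V, ((∏ i, p (ω' i)) * (if ℬ ω' then 1 else 0)) *
      (∏ i, (if i ∈ Tb then dens Hi Lo p q (ω' i) else 1)) ^ (N₀ : ℝ)) ^ ((N₀ : ℝ)⁻¹)
      ≤ (Real.exp (2 * (N₀ : ℝ) ^ 2 / pL)) ^ ((N₀ : ℝ)⁻¹) :=
        Real.rpow_le_rpow h5 h4 (by positivity)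
    _ ≤ (Real.exp (2 * (N₀ : ℝ) ^ 2 / pL)) ^ (1 : ℝ) := by
        apply Real.rpow_le_rpow_of_exponent_le
        · apply Real.one_le_exp; positivity
        · exact inv_le_one_of_one_le₀ hN1
    _ = _ := Real.rpow_one _

end Pool.Agent.Helper33_FPP
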