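import Pool.Agent.Helper33_FPP.Prelim
import Pool.Agent.Helper33_FPP.Tilt
import Pool.Agent.Helper33_FPP.Para
import Pool.Agent.Helper33_FPP.Mod
import Pool.Agent.Helper33_FPP.High
import Pool.Agent.Helper33_FPP.GoodProb

/-!
# Lowering the weights in a tube
-/

set_option autoImplicit false

namespace Pool.Agent.Helper33_FPP

open Finset

/-- The height from which the tubes around line `U (j+1)` are counted. -/
def Par.base (P : Par) (j : ℕ) : ℤ := 4 * (j + 1 : ℕ) * P.σ - P.w₀

/-- The edges of tube number `k`. -/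
noncomputable def Par.tubeE (P : Par) (i j r k : ℕ) : Finset (EIdx P.R) := by
  classical
  exact univ.filter (fun e => ∀ v ∈ e.1, (4 * i * P.σ + P.σ ≤ A v ∧ A v ≤ 4 * i * P.σ + 3 * P.σ ∧
    |B v - 4 * (j + 1 : ℕ) * P.σ| ≤ P.w₀) ∧ InTube (P.base j) r k v)

theorem mem_tubeE {P : Par} {i j r k : ℕ} {e : EIdx P.R} :
    e ∈ P.tubeE i j r k ↔ ∀ v ∈ e.1, (4 * i * P.σ + P.σ ≤ A v ∧ A v ≤ 4 * i * P.σ + 3 * P.σ ∧
    |B v - 4 * (j + 1 : ℕ) * P.σ| ≤ P.w₀) ∧ InTube (P.base j) r k v := by
  unfold Par.tubeE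
  simp

theorem card_tubeE {P : Par} (hσ : 1 ≤ P.σ) (i j r k : ℕ) :
    (P.tubeE i j r k).card ≤ 24 * P.σ * r := by
  classical
  set rect : Finset (ℤ × ℤ) := Icc (4 * i * P.σ + P.σ : ℤ) (4 * i * P.σ + 3 * P.σ) ×ˢ
    Ico (P.base j + k * r : ℤ) (P.base j + (k + 2) * r) with hrect
  set S : Finset (ℤ × ℤ) := rect.image (fun z => ((z.1 + z.2) / 2, (z.1 - z.2) / 2)) with hS
  set D : Finset (ℤ × ℤ) := {((1 : ℤ), (0 : ℤ)), (-1, 0), (0, 1), (0, -1)} with hD
  have h1 : ((P.tubeE i j r k).map (Function.Embedding.subtype _)) ⊆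
      (S ×ˢ D).image (fun z => s(z.1, z.1 + z.2)) := by
    intro e he
    rw [mem_map] at he
    obtain ⟨⟨e', he'⟩, hmem, rfl⟩ := he
    rw [mem_tubeE] at hmem
    rw [mem_edgesIn] at he'
    induction e' using Sym2.ind with
    | _ x y =>
      have hadj : Z2.Adj x y := he'.2
      obtain ⟨⟨hx1, hx2, _⟩, hx3, hx4⟩ := hmem x (Sym2.mem_mk_left x y)
      rw [mem_image]
      refine ⟨(x, y - x), ?_, ?_⟩
      · rw [mem_product]
        constructor
        · rw [hS, mem_image]
          refine ⟨(A x, B x), ?_, ?_⟩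
          · rw [hrect, mem_product, mem_Icc, mem_Ico]
            refine ⟨⟨hx1, hx2⟩, ?_, ?_⟩
            · change P.base j + k * r ≤ B x
              linarith
            · change B x < P.base j + (k + 2) * r
              linarith
          · unfold A B
            apply Prod.ext
            · change (x.1 + x.2 + (x.1 - x.2)) / 2 = x.1
              omega
            · change (x.1 + x.2 - (x.1 - x.2)) / 2 = x.2
              omega
        · rw [Z2_adj_iff] at hadj
          change y - x ∈ D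
          rw [hD]
          simp only [mem_insert, mem_singleton, Prod.ext_iff, Prod.fst_sub, Prod.snd_sub]
          omega
      · change s(x, x + (y - x)) = s(x, y)
        rw [add_sub_cancel]
  have h2 := card_le_card h1
  rw [card_map] at h2
  refine h2.trans (card_image_le.trans ?_)
  rw [card_product]
  have h3 : S.card ≤ (2 * P.σ + 1) * (2 * r) := by
    refine card_image_le.trans ?_
    rw [hrect, card_product, Int.card_Icc, Int.card_Ico]
    apply le_of_eq
    congr 1
    · have : (4 * i * P.σ + 3 * P.σ + 1 - (4 * i * P.σ + P.σ) : ℤ) = ((2 * P.σ + 1 : ℕ) : ℤ) := by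
        push_cast
        ring
      rw [this, Int.toNat_natCast]
    · have : (P.base j + (k + 2) * r - (P.base j + k * r) : ℤ) = ((2 * r : ℕ) : ℤ) := by
        push_cast
        ring
      rw [this, Int.toNat_natCast]
  have h4 : D.card ≤ 4 := by
    rw [hD]
    exact card_le_four
  calc S.card * D.card ≤ (2 * P.σ + 1) * (2 * r) * 4 := Nat.mul_le_mul h3 h4
    _ ≤ (3 * P.σ) * (2 * r) * 4 := by
        apply Nat.mul_le_mul_right
        apply Nat.mul_le_mul_right
        omega
    _ = 24 * P.σ * r := by ring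

variable {V : Type} [Fintype V]

/-- The good configurations. -/
def Gd (P : Par) (m₀ : ℕ) (θ hi : ℝ) (val : V → ℝ) (ω : EIdx P.R → V) : Prop :=
  P.Good (wOf val ω) ∧ PGood P.R m₀ θ hi (wOf val ω)

/-- Good configurations whose line `U (j+1)` passes column `i` in tube `k` and for which the middle
route is almost optimal. -/
def evA (P : Par) (m₀ : ℕ) (θ hi : ℝ) (val : V → ℝ) (i j r k : ℕ) (u : ℝ) (ω : EIdx P.R → V) :
    Prop :=
  Gd P m₀ θ hi val ω ∧ P.mid (wOf val ω) i j - P.dia (wOf val ω) i j ≤ u ∧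
    ∀ v ∈ P.midV (wOf val ω) i (j + 1), InTube (P.base j) r k v

/-- Configurations that are not good or for which the double cell has a large shortcut. -/
def evB (P : Par) (m₀ : ℕ) (θ hi : ℝ) (val : V → ℝ) (i j r k : ℕ) (u : ℝ) (ω : EIdx P.R → V) :
    Prop :=
  ¬ Gd P m₀ θ hi val ω ∨ (Gd P m₀ θ hi val ω ∧
    3 * u ≤ P.bot (wOf val ω) i j - P.dia (wOf val ω) i j ∧
    ∃ v ∈ P.midV (wOf val ω) i (j + 1), InTube (P.base j) r k v)

theorem wOf_of_mem {R : ℕ} {V : Type} (val : V → ℝ) (ω : EIdx R → V) {e : Sym2 (ℤ × ℤ)}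
    (h : e ∈ edgesIn R) : wOf val ω e = val (ω ⟨e, h⟩) := by
  unfold wOf
  rw [dif_pos h]

theorem wOf_of_notMem {R : ℕ} {V : Type} (val : V → ℝ) (ω : EIdx R → V) {e : Sym2 (ℤ × ℤ)}
    (h : e ∉ edgesIn R) : wOf val ω e = 0 := by
  unfold wOf
  rw [dif_neg h]

/-- The tilting step for one tube. -/
theorem tube_step {pL : ℝ} (hpL : 0 < pL) : ∃ C : ℝ, 0 < C ∧
    ∀ (P : Par) (_ : P.Ok) {V : Type} [Fintype V] {p : V → ℝ} (_ : IsProb p) {val : V → ℝ}
      (_ : ∀ v, 0 ≤ val v) {lo hi : ℝ} (_ : lo < hi)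
      (_ : pL ≤ ∑ v, if val v ≤ lo then p v else 0) {m₀ : ℕ} {θ : ℝ} (_ : 0 ≤ θ)
      (_ : m₀ ≤ 2 * P.σ) {i j r k : ℕ} (_ : 1 ≤ i) (_ : i + 2 ≤ P.N) (_ : 1 ≤ j) (_ : j + 3 ≤ P.N)
      {q : ℝ} (_ : 0 < q) (_ : 32 * q ≤ pL) (_ : q ^ 2 * (24 * P.σ * r) ≤ 1) {n : ℕ}
      (_ : 1 ≤ n) (_ : (n : ℝ) ≤ θ * (2 * P.σ)),
      (1 - Real.exp (-(q * n / 8))) *
          Pr p (evA P m₀ θ hi val i j r k ((hi - lo) * (q * n) / 16)) ≤
        C * (Pr p (evB P m₀ θ hi val i j r k ((hi - lo) * (q * n) / 16))) ^ (1 - 1 / (32 : ℝ)) := by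
  classical
  obtain ⟨C, hC, hT⟩ := tilt pL hpL 32 (by norm_num)
  refine ⟨C, hC, ?_⟩
  intro P hP V _ p hp val hval lo hi hlohi hmass m₀ θ hθ hm₀ i j r k hi1 hi2 hj1 hj2 q hq hq1 hq2 n
    hn1 hn
  have hσ : 1 ≤ P.σ := by
    have := hP.hσ
    have := hP.hw1
    omega
  have hgap : 0 < hi - lo := by linarith
  have hqn : 0 < q * n := mul_pos hq (by exact_mod_cast hn1)
  set Hi : Finset V := univ.filter (fun v => hi ≤ val v) with hHi
  set Lo : Finset V := univ.filter (fun v => val v ≤ lo) with hLo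
  have hdisj : Disjoint Hi Lo := by
    rw [disjoint_left]
    intro v h1 h2
    rw [hHi, mem_filter] at h1
    rw [hLo, mem_filter] at h2
    linarith [h1.2, h2.2]
  have hLom : pL ≤ ∑ v ∈ Lo, p v := by
    rw [hLo, sum_filter]
    exact hmass
  have hcard : q ^ 2 * ((P.tubeE i j r k).card : ℝ) ≤ 1 := by
    refine le_trans ?_ hq2
    apply mul_le_mul_of_nonneg_left _ (sq_nonneg q)
    exact_mod_cast card_tubeE hσ i j r k
  set U : (EIdx P.R → V) → Finset (EIdx P.R) := fun ω => (P.tubeE i j r k).filter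
    (fun e => e.1 ∈ P.midE (wOf val ω) i (j + 1) ∧ ω e ∈ Hi) with hU
  have key := hT hp Hi Lo hdisj hLom (P.tubeE i j r k) q hq (by exact_mod_cast hq1) hcard
    (evA P m₀ θ hi val i j r k ((hi - lo) * (q * n) / 16))
    (evB P m₀ θ hi val i j r k ((hi - lo) * (q * n) / 16)) U n ?_ ?_
  · exact_mod_cast key
  · -- many high edges of the line in the tube
    intro ω hA
    refine ⟨filter_subset _ _, ?_, ?_⟩
    · intro e he
      exact (mem_filter.1 he).2.2
    · obtain ⟨⟨hG, hPG⟩, _, htube⟩ := hA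
      have hhigh := midE_high hP hG hθ hPG hm₀ hi1 hi2 (i := i) (j := j + 1) (by omega) (by omega)
      have himg : ((P.midE (wOf val ω) i (j + 1)).filter (fun e => hi ≤ wOf val ω e)) ⊆
          (U ω).map (Function.Embedding.subtype _) := by
        intro e he
        rw [mem_filter] at he
        obtain ⟨hmid, hhi⟩ := he
        have hline := lineU_mem hP hG.nonneg (j := j + 1) (by omega)
        have hmid' := mem_midE.1 hmid
        have hin : ∀ v ∈ e, v ∈ P.stripU (j + 1) := fun v hv =>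
          hline.2.1 v ((P.lineU (wOf val ω) (j + 1)).mem_support_of_mem_edges hmid'.1 hv)
        have hbox : e ∈ edgesIn P.R := by
          rw [mem_edgesIn]
          refine ⟨fun v hv => ?_, (P.lineU (wOf val ω) (j + 1)).edges_subset_edgeSet hmid'.1⟩
          have := stripU_subset_box hP (j := j + 1) (by omega) (hin v hv)
          exact_mod_cast this
        rw [mem_map]
        refine ⟨⟨e, hbox⟩, ?_, rfl⟩
        rw [hU, mem_filter, mem_tubeE]
        refine ⟨?_, hmid, ?_⟩
        · intro v hv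
          refine ⟨⟨(hmid'.2 v hv).1, (hmid'.2 v hv).2, ?_⟩, htube v (midE_midV hmid hv)⟩
          have := (hin v hv).1
          exact_mod_cast this
        · rw [hHi, mem_filter]
          refine ⟨mem_univ _, ?_⟩
          rw [wOf_of_mem val ω hbox] at hhi
          exact hhi
      have h1 := card_le_card himg
      rw [card_map] at h1
      have h2 : (n : ℝ) ≤ ((U ω).card : ℝ) :=
        hn.trans (hhigh.trans (by exact_mod_cast h1))
      exact_mod_cast h2
  · -- effect of the lowering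
    intro ω ω' hA hω hflip
    by_cases hGd : Gd P m₀ θ hi val ω'
    swap
    · exact Or.inl hGd
    right
    refine ⟨hGd, ?_⟩
    obtain ⟨⟨hG, _⟩, hmid, htube⟩ := hA
    have hG' := hGd.1
    have hle : ∀ e, wOf val ω' e ≤ wOf val ω e := by
      intro e
      by_cases hb : e ∈ edgesIn P.R
      · rw [wOf_of_mem val ω hb, wOf_of_mem val ω' hb]
        rcases hω ⟨e, hb⟩ with h | ⟨_, h1, h2⟩
        · rw [h]
        · rw [hHi, mem_filter] at h1
          rw [hLo, mem_filter] at h2
          linarith [h1.2, h2.2]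
      · rw [wOf_of_notMem val ω hb, wOf_of_notMem val ω' hb]
    have hch : ∀ e, wOf val ω' e ≠ wOf val ω e → ∃ hb : e ∈ edgesIn P.R,
        (⟨e, hb⟩ : EIdx P.R) ∈ P.tubeE i j r k := by
      intro e hne
      by_cases hb : e ∈ edgesIn P.R
      · refine ⟨hb, ?_⟩
        rcases hω ⟨e, hb⟩ with h | ⟨h0, _, _⟩
        · exfalso
          apply hne
          rw [wOf_of_mem val ω hb, wOf_of_mem val ω' hb, h]
        · exact h0
      · exfalso
        apply hne
        rw [wOf_of_notMem val ω hb, wOf_of_notMem val ω' hb]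
    have hoff : ∀ e, wOf val ω' e ≠ wOf val ω e → ∀ v ∈ e, 4 * i * P.σ + P.σ ≤ A v ∧
        A v ≤ 4 * i * P.σ + 3 * P.σ ∧ |B v - 4 * (j + 1 : ℕ) * P.σ| ≤ P.w₀ := by
      intro e hne v hv
      obtain ⟨hb, ht⟩ := hch e hne
      exact (mem_tubeE.1 ht v hv).1
    set U' : Finset (Sym2 (ℤ × ℤ)) := ((U ω).filter (fun e => ω' e ∈ Lo)).map
      (Function.Embedding.subtype _) with hU'
    have hU'sub : U' ⊆ P.midE (wOf val ω) i (j + 1) := by
      intro e he
      rw [hU', mem_map] at he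
      obtain ⟨e', he', rfl⟩ := he
      rw [mem_filter, hU, mem_filter] at he'
      exact he'.1.2.1
    have hU'gap : ∀ e ∈ U', wOf val ω' e ≤ wOf val ω e - (hi - lo) := by
      intro e he
      rw [hU', mem_map] at he
      obtain ⟨e', he', rfl⟩ := he
      rw [mem_filter, hU, mem_filter] at he'
      have h1 := he'.1.2.2
      have h2 := he'.2
      rw [hHi, mem_filter] at h1
      rw [hLo, mem_filter] at h2
      change wOf val ω' e'.1 ≤ wOf val ω e'.1 - (hi - lo)
      rw [wOf_of_mem val ω e'.2, wOf_of_mem val ω' e'.2]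
      linarith [h1.2, h2.2]
    have hcardU' : q * n / 4 ≤ (U'.card : ℝ) := by
      rw [hU', card_map]
      exact hflip
    have hmod := modification hP hG hG' hi1 hi2 hj1 hj2 hle hoff hU'sub hgap hU'gap
    have hmul : (hi - lo) * (q * n / 4) ≤ (hi - lo) * U'.card :=
      mul_le_mul_of_nonneg_left hcardU' hgap.le
    refine ⟨by linarith, ?_⟩
    have hne : U'.Nonempty := by
      rw [← card_pos]
      have : (0 : ℝ) < U'.card := lt_of_lt_of_le (by linarith) hcardU'
      exact_mod_cast this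
    obtain ⟨e, he, hlt⟩ := modification_line hP hG hG' hi1 hi2 hj1 hj2 hle hU'sub hne
      (fun e he => by linarith [hU'gap e he])
    obtain ⟨hb, ht⟩ := hch e hlt.ne
    induction e using Sym2.ind with
    | _ x y =>
      have hx := mem_tubeE.1 ht x (Sym2.mem_mk_left x y)
      refine ⟨x, ?_, hx.2⟩
      rw [mem_midV]
      exact ⟨(P.lineU (wOf val ω') (j + 1)).mem_support_of_mem_edges he (Sym2.mem_mk_left x y),
        hx.1.1, hx.1.2.1⟩

end Pool.Agent.Helper33_FPP
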