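import Pool.Agent.Helper33_FPP.Block
import Pool.Agent.Helper33_FPP.Tube
import Pool.Agent.Helper33_FPP.TiltB
import Pool.Agent.Helper33_FPP.ModB

/-!
# Lowering the weights of the good blocks of a tube
-/

set_option autoImplicit false
open Finset
namespace Pool.Agent.Helper33_FPP

namespace TubeBAux

/-- The blocks of class `s` in the wide tube number `t`. -/
noncomputable def tubeB (P : Par) (i j r t k : ℕ) (s : ℤ × ℤ) : Finset (ℤ × ℤ) := by
  classical
  exact (((Icc (4 * i * P.σ + P.σ : ℤ) (4 * i * P.σ + 3 * P.σ)) ×ˢ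
    (Ico (P.base j + ((t : ℤ) - 1) * r : ℤ) (P.base j + ((t : ℤ) + 3) * r))).image
      (fun z => HalfAux.blk k ((z.1 + z.2) / 2, (z.1 - z.2) / 2))).filter
    (fun z => Same z s ∧ ∀ v ∈ OB k z, P.reg i (j + 1) v ∧ InTubeW (P.base j) r t v)

theorem ctr_mem_OB (k : ℕ) (z : ℤ × ℤ) : HalfAux.ctr k z ∈ OB k z := by
  change dst _ _ ≤ _
  unfold dst
  simp

theorem blk_ctr (k : ℕ) (z : ℤ × ℤ) : HalfAux.blk k (HalfAux.ctr k z) = z := by
  have key : ∀ x : ℤ, ((2 * k + 1) * x + k) / (2 * k + 1) = x := by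
    intro x
    have h : ((2 * k + 1 : ℤ) * x + k) = k + (2 * k + 1) * x := by ring
    rw [h, Int.add_mul_ediv_left _ _ (by positivity), Int.ediv_eq_zero_of_lt (by positivity)
      (by linarith [Int.natCast_nonneg k]), zero_add]
  unfold HalfAux.blk HalfAux.ctr
  exact Prod.ext (key _) (key _)

theorem mem_tubeB {P : Par} {i j r t k : ℕ} {s z : ℤ × ℤ} :
    z ∈ tubeB P i j r t k s ↔
      Same z s ∧ ∀ v ∈ OB k z, P.reg i (j + 1) v ∧ InTubeW (P.base j) r t v := by
  classical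
  unfold tubeB
  rw [mem_filter, and_iff_right_iff_imp]
  rintro ⟨_, h⟩
  obtain ⟨⟨h1, h2, _⟩, h3, h4⟩ := h _ (ctr_mem_OB k z)
  rw [mem_image]
  refine ⟨(A (HalfAux.ctr k z), B (HalfAux.ctr k z)), ?_, ?_⟩
  · rw [mem_product, mem_Icc, mem_Ico]
    refine ⟨⟨h1, h2⟩, ?_, ?_⟩
    · change P.base j + ((t : ℤ) - 1) * r ≤ B (HalfAux.ctr k z)
      linarith
    · change B (HalfAux.ctr k z) < P.base j + ((t : ℤ) + 3) * r
      linarith
  · have : (((A (HalfAux.ctr k z) + B (HalfAux.ctr k z)) / 2,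
        (A (HalfAux.ctr k z) - B (HalfAux.ctr k z)) / 2) : ℤ × ℤ) = HalfAux.ctr k z := by
      unfold A B
      generalize HalfAux.ctr k z = c
      apply Prod.ext
      · change (c.1 + c.2 + (c.1 - c.2)) / 2 = c.1
        omega
      · change (c.1 + c.2 - (c.1 - c.2)) / 2 = c.2
        omega
    change HalfAux.blk k (((A (HalfAux.ctr k z) + B (HalfAux.ctr k z)) / 2,
        (A (HalfAux.ctr k z) - B (HalfAux.ctr k z)) / 2) : ℤ × ℤ) = z
    rw [this, blk_ctr]

theorem card_tubeB {P : Par} (hσ : 1 ≤ P.σ) (i j r t k : ℕ) (s : ℤ × ℤ) :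
    (tubeB P i j r t k s).card ≤ 24 * P.σ * r := by
  classical
  unfold tubeB
  refine (card_filter_le _ _).trans (card_image_le.trans ?_)
  rw [card_product, Int.card_Icc, Int.card_Ico]
  have h1 : (4 * i * P.σ + 3 * P.σ + 1 - (4 * i * P.σ + P.σ) : ℤ) = ((2 * P.σ + 1 : ℕ) : ℤ) := by
    push_cast
    ring
  have h2 : (P.base j + ((t : ℤ) + 3) * r - (P.base j + ((t : ℤ) - 1) * r) : ℤ) =
      ((4 * r : ℕ) : ℤ) := by
    push_cast
    ring
  rw [h1, h2, Int.toNat_natCast, Int.toNat_natCast]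
  calc (2 * P.σ + 1) * (4 * r) ≤ (6 * P.σ) * (4 * r) := by
        apply Nat.mul_le_mul_right
        omega
    _ = 24 * P.σ * r := by ring

/-- The edges in the outer box of a block. -/
noncomputable def EB (R k : ℕ) (z : ℤ × ℤ) : Finset (EIdx R) := by
  classical
  exact univ.filter (fun e => ∀ v ∈ e.1, v ∈ OB k z)

theorem mem_EB {R k : ℕ} {z : ℤ × ℤ} {e : EIdx R} : e ∈ EB R k z ↔ ∀ v ∈ e.1, v ∈ OB k z := by
  unfold EB
  simp

theorem card_EB (R k : ℕ) (z : ℤ × ℤ) : (EB R k z).card ≤ 2 * (6 * k + 1) ^ 2 := by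
  classical
  set c := HalfAux.ctr k z with hc
  set S : Finset (ℤ × ℤ) := Icc (c.1 - 3 * k) (c.1 + 3 * k) ×ˢ Icc (c.2 - 3 * k) (c.2 + 3 * k)
    with hS
  have hmem : ∀ v, v ∈ OB k z → v ∈ S := by
    intro v hv
    have h1 : dst v c ≤ 3 * k := hv
    unfold dst at h1
    rw [max_le_iff] at h1
    rw [hS, mem_product, mem_Icc, mem_Icc]
    omega
  set D : Finset (ℤ × ℤ) := {((1 : ℤ), (0 : ℤ)), (0, 1)} with hD
  have h1 : ((EB R k z).map (Function.Embedding.subtype _)) ⊆
      (S ×ˢ D).image (fun z => s(z.1, z.1 + z.2)) := by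
    intro e he
    rw [mem_map] at he
    obtain ⟨⟨e', he'⟩, hm, rfl⟩ := he
    rw [mem_EB] at hm
    rw [mem_edgesIn] at he'
    induction e' using Sym2.ind with
    | _ x y =>
      have hadj : Z2.Adj x y := he'.2
      have hx := hmem x (hm x (Sym2.mem_mk_left x y))
      have hy := hmem y (hm y (Sym2.mem_mk_right x y))
      rw [Z2_adj_iff] at hadj
      rw [mem_image]
      by_cases hd : y - x ∈ D
      · exact ⟨(x, y - x), mem_product.2 ⟨hx, hd⟩, by
          change s(x, x + (y - x)) = s(x, y)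
          rw [add_sub_cancel]⟩
      · refine ⟨(y, x - y), mem_product.2 ⟨hy, ?_⟩, ?_⟩
        · change x - y ∈ D
          rw [hD] at hd ⊢
          simp only [mem_insert, mem_singleton, Prod.ext_iff, Prod.fst_sub, Prod.snd_sub] at hd ⊢
          omega
        · change s(y, y + (x - y)) = s(x, y)
          rw [add_sub_cancel, Sym2.eq_swap]
  have h2 := card_le_card h1
  rw [card_map] at h2
  refine h2.trans (card_image_le.trans ?_)
  rw [card_product]
  have h3 : S.card = (6 * k + 1) ^ 2 := by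
    rw [hS, card_product, Int.card_Icc, Int.card_Icc, sq]
    congr 1 <;> omega
  have h4 : D.card ≤ 2 := by
    rw [hD]
    exact card_le_two
  rw [h3]
  calc (6 * k + 1) ^ 2 * D.card ≤ (6 * k + 1) ^ 2 * 2 := Nat.mul_le_mul_left _ h4
    _ = 2 * (6 * k + 1) ^ 2 := by ring

theorem good_local {R k : ℕ} {V : Type} {val : V → ℝ} {a δ : ℝ} {z : ℤ × ℤ} {ω ω' : EIdx R → V}
    (h : ∀ i ∈ EB R k z, ω i = ω' i) (hg : BlkGood (wOf val ω) a δ k z) :
    BlkGood (wOf val ω') a δ k z := by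
  intro x hx y hy q hq
  have h1 := hg x hx y hy q hq
  have h2 : wt (wOf val ω) q = wt (wOf val ω') q := by
    apply wt_congr
    intro e he
    by_cases hin : e ∈ edgesIn R
    · rw [wOf_of_mem val ω hin, wOf_of_mem val ω' hin, h ⟨e, hin⟩]
      rw [mem_EB]
      intro v hv
      exact hq v (q.mem_support_of_mem_edges he hv)
    · rw [wOf_of_notMem val ω hin, wOf_of_notMem val ω' hin]
  rw [← h2]
  exact h1

theorem not_good_low {w : Sym2 (ℤ × ℤ) → ℝ} {a δ : ℝ} (hδ : 0 < δ) {k : ℕ} {z : ℤ × ℤ}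
    (h : ∀ e, (∀ v ∈ e, v ∈ OB k z) → w e ≤ a) : ¬ BlkGood w a δ k z := by
  intro hg
  set c := HalfAux.ctr k z with hc
  set y : ℤ × ℤ := (c.1 + 3 * k, c.2) with hy
  have hcy : dst y c = 3 * k := by
    unfold dst
    rw [hy]
    simp
    omega
  have hcc : c ∈ Bx c k := by
    change dst c c ≤ k
    unfold dst
    simp
  obtain ⟨L, hL, hlen⟩ := ImproveAux.straight (m := 3 * k) (c := c) (l1 c y) c y
    (by change dst c c ≤ _; unfold dst; simp) hcy.le rfl
  have h1 := hg c hcc y hcy L hL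
  have h2 : wt w L ≤ a * L.length := by
    unfold wt
    have h5 : ∀ l : List (Sym2 (ℤ × ℤ)), (∀ e ∈ l, w e ≤ a) → (l.map w).sum ≤ a * l.length := by
      intro l
      induction l with
      | nil => intro _; simp
      | cons e l ih =>
        intro h'
        rw [List.map_cons, List.sum_cons, List.length_cons]
        have e1 := ih (fun e' he' => h' e' (List.mem_cons_of_mem _ he'))
        have e2 := h' e List.mem_cons_self
        push_cast
        linarith
    have h6 := h5 L.edges (fun e he => h e (fun v hv => hL v (L.mem_support_of_mem_edges he hv)))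
    rwa [L.length_edges] at h6
  rw [hlen] at h2
  linarith

theorem same_of {z z' s : ℤ × ℤ} (h : Same z s) (h' : Same z' s) : Same z z' :=
  ⟨h.1.trans h'.1.symm, h.2.trans h'.2.symm⟩

end TubeBAux

open TubeBAux

variable {V : Type} [Fintype V]

/-- The good configurations. -/
def GdB (P : Par) (m₀ k : ℕ) (a : ℝ) (val : V → ℝ) (ω : EIdx P.R → V) : Prop :=
  P.Good (wOf val ω) ∧ BG P.R m₀ k a 1 (wOf val ω)

/-- Good configurations whose line `U (j+1)` passes column `i` in tube `t`, visiting at least `n`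
good blocks of the class `s`, and for which the middle route is almost optimal. -/
def evAB (P : Par) (m₀ k : ℕ) (a : ℝ) (val : V → ℝ) (i j r t : ℕ) (s : ℤ × ℤ) (n : ℕ) (u : ℝ)
    (ω : EIdx P.R → V) : Prop :=
  GdB P m₀ k a val ω ∧ P.mid (wOf val ω) i j - P.dia (wOf val ω) i j ≤ u ∧
    (∀ v ∈ P.midV (wOf val ω) i (j + 1), InTube (P.base j) r t v) ∧
    ∃ S ⊆ P.gblk (wOf val ω) a 1 k i (j + 1), (∀ z ∈ S, Same z s) ∧ n ≤ S.card

/-- Configurations that are not good or for which the double cell has a large shortcut. -/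
def evBB (P : Par) (m₀ k : ℕ) (a : ℝ) (val : V → ℝ) (i j r t : ℕ) (u : ℝ) (ω : EIdx P.R → V) :
    Prop :=
  ¬ GdB P m₀ k a val ω ∨ (GdB P m₀ k a val ω ∧
    7 * u ≤ P.bot (wOf val ω) i j - P.dia (wOf val ω) i j ∧
    ∃ v ∈ P.midV (wOf val ω) i (j + 1), InTubeW (P.base j) r t v)

/-- The tilting step for the good blocks of one tube. -/
theorem tube_step_blk {pL : ℝ} (hpL : 0 < pL) (k : ℕ) : ∃ C : ℝ, 0 < C ∧
    ∀ (P : Par) (_ : P.Ok) {V : Type} [Fintype V] {p : V → ℝ} (_ : IsProb p) {val : V → ℝ}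
      {a : ℝ} (_ : 0 < a) (_ : ∀ v, a ≤ val v)
      (_ : pL ≤ ∑ v, if val v ≤ a then p v else 0) {m₀ : ℕ}
      {i j r t : ℕ} {s : ℤ × ℤ} (_ : 1 ≤ i) (_ : i + 2 ≤ P.N) (_ : 1 ≤ j) (_ : j + 3 ≤ P.N)
      (_ : 8 * k ≤ r) {q : ℝ} (_ : 0 < q) (_ : 32 * q ≤ pL ^ (2 * (6 * k + 1) ^ 2))
      (_ : q ^ 2 * (24 * P.σ * r) ≤ 1) {n : ℕ} (_ : 1 ≤ n),
      (1 - Real.exp (-(q * n / 8))) *
          Pr p (evAB P m₀ k a val i j r t s n (q * n / 16)) ≤
        C * (Pr p (evBB P m₀ k a val i j r t (q * n / 16))) ^ (1 - 1 / (32 : ℝ)) := by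
  classical
  obtain ⟨C, hC, hT⟩ := tilt_blocks pL hpL (2 * (6 * k + 1) ^ 2) 32 (by norm_num)
  refine ⟨C, hC, ?_⟩
  intro P hP V _ p hp val a ha hval hmass m₀ i j r t s hi1 hi2 hj1 hj2 hkr q hq hq1 hq2 n hn1
  have hσ : 1 ≤ P.σ := by
    have := hP.hσ
    have := hP.hw1
    omega
  have hqn : 0 < q * n := mul_pos hq (by exact_mod_cast hn1)
  set Lo : Finset V := univ.filter (fun v => val v ≤ a) with hLo
  have hLom : pL ≤ ∑ v ∈ Lo, p v := by
    rw [hLo, sum_filter]
    exact hmass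
  have hcard : q ^ 2 * ((tubeB P i j r t k s).card : ℝ) ≤ 1 := by
    refine le_trans ?_ hq2
    apply mul_le_mul_of_nonneg_left _ (sq_nonneg q)
    exact_mod_cast card_tubeB hσ i j r t k s
  set U : (EIdx P.R → V) → Finset (ℤ × ℤ) := fun ω =>
    (P.gblk (wOf val ω) a 1 k i (j + 1)) ∩ tubeB P i j r t k s with hU
  have key := hT hp Lo hLom (tubeB P i j r t k s) (EB P.R k) ?_ (fun z _ => card_EB _ _ _)
    (fun z ω => BlkGood (wOf val ω) a 1 k z) (fun z _ ω ω' h hg => good_local h hg) ?_ q hq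
    (by exact_mod_cast hq1) hcard
    (evAB P m₀ k a val i j r t s n (q * n / 16))
    (evBB P m₀ k a val i j r t (q * n / 16)) U n ?_ ?_
  · exact_mod_cast key
  · -- disjointness
    intro z hz z' hz' hne
    rw [disjoint_left]
    intro e he he'
    rw [mem_EB] at he he'
    have hv := Sym2.out_fst_mem e.1
    exact ImproveAux.disj (same_of (mem_tubeB.1 hz).1 (mem_tubeB.1 hz').1) hne (he _ hv) (he' _ hv)
  · -- a block with low weights is not good
    intro z _ ω hg hlow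
    refine not_good_low one_pos (fun e he => ?_) hg
    by_cases hin : e ∈ edgesIn P.R
    · rw [wOf_of_mem val ω hin]
      have := hlow ⟨e, hin⟩ (mem_EB.2 he)
      rw [hLo, mem_filter] at this
      exact this.2
    · rw [wOf_of_notMem val ω hin]
      exact ha.le
  · -- many good blocks on the line in the tube
    intro ω hA
    obtain ⟨⟨hG, _⟩, _, htube, S, hS, hSs, hSn⟩ := hA
    refine ⟨inter_subset_right, fun z hz => (ModBAux.gblk_spec (mem_of_mem_inter_left hz)).1, ?_⟩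
    refine hSn.trans (card_le_card ?_)
    intro z hz
    rw [hU, mem_inter]
    refine ⟨hS hz, ?_⟩
    rw [mem_tubeB]
    obtain ⟨_, hreg, v₀, hv₀, hv₀k⟩ := ModBAux.gblk_spec (hS hz)
    refine ⟨hSs z hz, fun v hv => ⟨hreg v hv, ?_⟩⟩
    have hv₀OB : v₀ ∈ OB k z := ModBAux.Bx_sub_OB hv₀k
    have h0 := hreg v₀ hv₀OB
    have h1 := htube v₀ (by
      rw [mem_midV]
      exact ⟨hv₀, h0.1, h0.2.1⟩)
    have h2 : dst v₀ (HalfAux.ctr k z) ≤ k := hv₀k
    have h3 : dst v (HalfAux.ctr k z) ≤ 3 * k := hv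
    unfold dst at h2 h3
    rw [max_le_iff] at h2 h3
    have h4 : |B v - B v₀| ≤ 8 * k := by
      unfold B
      rw [abs_le]
      omega
    have h5 : (8 * k : ℤ) ≤ r := by exact_mod_cast hkr
    rw [abs_le] at h4
    obtain ⟨h6, h7⟩ := h1
    constructor
    · linarith
    · linarith
  · -- effect of the lowering
    intro ω ω' hA F hF hFω hFω' hflip
    by_cases hGd : GdB P m₀ k a val ω'
    swap
    · exact Or.inl hGd
    right
    refine ⟨hGd, ?_⟩
    obtain ⟨⟨hG, _⟩, hmid, htube, _⟩ := hA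
    have hG' := hGd.1
    have hch : ∀ e, wOf val ω' e ≠ wOf val ω e → ∃ z ∈ F, ∀ v ∈ e, v ∈ OB k z := by
      intro e hne
      by_contra hcon
      push Not at hcon
      apply hne
      by_cases hb : e ∈ edgesIn P.R
      · rw [wOf_of_mem val ω hb, wOf_of_mem val ω' hb, hFω' ⟨e, hb⟩ ?_]
        intro z hz hmem
        rw [mem_EB] at hmem
        obtain ⟨v, hv, hv'⟩ := hcon z hz
        exact hv' (hmem v hv)
      · rw [wOf_of_notMem val ω hb, wOf_of_notMem val ω' hb]
    have hlowF : ∀ z ∈ F, ∀ e, (∀ v ∈ e, v ∈ OB k z) → wOf val ω' e ≤ a := by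
      intro z hz e he
      by_cases hb : e ∈ edgesIn P.R
      · rw [wOf_of_mem val ω' hb]
        have := (hFω z hz).2 ⟨e, hb⟩ (mem_EB.2 he)
        rw [hLo, mem_filter] at this
        exact this.2
      · rw [wOf_of_notMem val ω' hb]
        exact ha.le
    have hle : ∀ e, wOf val ω' e ≤ wOf val ω e := by
      intro e
      by_cases heq : wOf val ω' e = wOf val ω e
      · exact heq.le
      · obtain ⟨z, hz, he⟩ := hch e heq
        by_cases hb : e ∈ edgesIn P.R
        · refine (hlowF z hz e he).trans ?_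
          rw [wOf_of_mem val ω hb]
          exact hval _
        · rw [wOf_of_notMem val ω hb, wOf_of_notMem val ω' hb]
    have hoff : ∀ e, wOf val ω' e ≠ wOf val ω e → ∀ v ∈ e, P.reg i (j + 1) v := by
      intro e hne v hv
      obtain ⟨z, hz, he⟩ := hch e hne
      exact ((mem_tubeB.1 (hF hz)).2 v (he v hv)).1
    set Bs : Finset (ℤ × ℤ) := U ω ∩ F with hBs
    have hBsub : Bs ⊆ P.gblk (wOf val ω) a 1 k i (j + 1) := by
      intro z hz
      rw [hBs, hU, mem_inter, mem_inter] at hz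
      exact hz.1.1
    have hBF : ∀ z ∈ Bs, z ∈ F := fun z hz => by
      rw [hBs, mem_inter] at hz
      exact hz.2
    have hsame : ∀ z ∈ Bs, ∀ z' ∈ Bs, Same z z' := fun z hz z' hz' =>
      same_of (mem_tubeB.1 (hF (hBF z hz))).1 (mem_tubeB.1 (hF (hBF z' hz'))).1
    have hlow : ∀ z ∈ Bs, ∀ e ∈ Z2.edgeSet, (∀ v ∈ e, v ∈ OB k z) → wOf val ω' e ≤ a :=
      fun z hz e _ he => hlowF z (hBF z hz) e he
    have hmod := modification_blk hP hG hG' hi1 hi2 hj1 hj2 hle hoff ha.le one_pos Bs hBsub hsame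
      hlow
    refine ⟨by linarith, ?_⟩
    have hne : Bs.Nonempty := by
      rw [← card_pos]
      have : (0 : ℝ) < Bs.card := lt_of_lt_of_le (by linarith) hflip
      exact_mod_cast this
    obtain ⟨e, he, hlt⟩ := modification_line_blk hP hG hG' hi1 hi2 hj1 hj2 hle ha.le one_pos Bs hne
      hBsub hsame hlow
    obtain ⟨z, hz, hin⟩ := hch e hlt.ne
    have hv := Sym2.out_fst_mem e
    have hx := (mem_tubeB.1 (hF hz)).2 _ (hin _ hv)
    refine ⟨_, ?_, hx.2⟩
    rw [mem_midV]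
    exact ⟨(P.lineU (wOf val ω') (j + 1)).mem_support_of_mem_edges he hv, hx.1.1, hx.1.2.1⟩

end Pool.Agent.Helper33_FPP
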