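import Pool.Agent.Helper33_FPP.PartBa
import Pool.Agent.Helper33_FPP.TubeB
import Pool.Agent.Helper33_FPP.BlocksLine

/-!
# Part I for blocks: the covering and the contradiction in a cell
-/

set_option autoImplicit false

namespace Pool.Agent.Helper33_FPP

open Finset

namespace PartB

/-- Representatives of the classes modulo `3`. -/
def S9 : Finset (ℤ × ℤ) := ({0, 1, 2} : Finset ℤ) ×ˢ ({0, 1, 2} : Finset ℤ)

theorem card_S9 : S9.card = 9 := by
  unfold S9
  rfl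

/-- Pigeonhole for the classes. -/
theorem exists_class {T : Finset (ℤ × ℤ)} {n : ℕ} (h : 9 * n ≤ T.card) :
    ∃ s ∈ S9, ∃ S ⊆ T, (∀ z ∈ S, Same z s) ∧ n ≤ S.card := by
  classical
  have hmaps : ∀ z ∈ T, ((z.1 % 3, z.2 % 3) : ℤ × ℤ) ∈ S9 := by
    intro z _
    unfold S9
    simp only [mem_product, mem_insert, mem_singleton]
    omega
  have hcard : S9.card * n ≤ T.card := by
    rw [card_S9]
    exact h
  have hne : S9.Nonempty := by
    rw [← card_pos, card_S9]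
    norm_num
  obtain ⟨s, hs, hn⟩ := exists_le_card_fiber_of_mul_le_card_of_maps_to hmaps hne hcard
  refine ⟨s, hs, _, filter_subset _ _, ?_, hn⟩
  intro z hz
  obtain ⟨_, h2⟩ := mem_filter.1 hz
  unfold Same
  rw [← h2]
  simp only
  omega

/-- Number of wide tubes met by a set of small range. -/
theorem card_tubesW_le (S : Finset (ℤ × ℤ)) {b₀ : ℤ} {r ρ : ℕ} (hr : 0 < r)
    (hrng : ∀ v ∈ S, ∀ v' ∈ S, B v - B v' ≤ (ρ : ℤ)) (T : Finset ℕ)
    (hT : ∀ t ∈ T, ∃ v ∈ S, InTubeW b₀ r t v) :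
    (T.card : ℝ) ≤ ρ / r + 5 := by
  have hrR : (0 : ℝ) < r := by exact_mod_cast hr
  rcases T.eq_empty_or_nonempty with h | h
  · rw [h]
    simp only [card_empty, CharP.cast_eq_zero]
    positivity
  · set m := T.min' h
    set M := T.max' h
    obtain ⟨v, hv, h1, h2⟩ := hT m (T.min'_mem h)
    obtain ⟨v', hv', h3, h4⟩ := hT M (T.max'_mem h)
    have h5 := hrng v' hv' v hv
    have hcard : T.card ≤ M + 1 - m := by
      have hsub : T ⊆ Icc m M := fun k hk => mem_Icc.2 ⟨T.min'_le k hk, T.le_max' k hk⟩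
      have := card_le_card hsub
      rwa [Nat.card_Icc] at this
    have hmM : m ≤ M := T.min'_le_max' h
    have hcardR : (T.card : ℝ) ≤ (M : ℝ) + 1 - m := by
      have h6 : (T.card : ℝ) ≤ ((M + 1 - m : ℕ) : ℝ) := by exact_mod_cast hcard
      rw [Nat.cast_sub (by omega)] at h6
      push_cast at h6
      exact h6
    have h7 : ((M : ℝ) - 1) * r ≤ ρ + ((m : ℝ) + 3) * r := by
      have h8 : ((M : ℤ) - 1) * r ≤ ρ + ((m : ℤ) + 3) * r := by linarith
      exact_mod_cast h8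
    have h9 : (M : ℝ) - m ≤ ρ / r + 4 := by
      rw [← sub_le_iff_le_add, le_div_iff₀ hrR]
      linarith
    linarith

variable {V : Type} [Fintype V]

/-- The covering by tubes and classes. -/
theorem cover {P : Par} (hP : P.Ok) {p : V → ℝ} (hp : IsProb p) {val : V → ℝ} {m₀ k : ℕ} {a : ℝ}
    {i j r K n : ℕ} (hi1 : 1 ≤ i) (hi2 : i + 2 ≤ P.N) (hj : j + 2 ≤ P.N) (hr : 0 < r)
    (hK : 2 * P.w₀ = K * r) (hk : 16 * k ≤ P.w₀) (hm : m₀ ≤ P.σ)
    (hn : 18 * (2 * k + 1) ^ 2 * n ≤ P.σ) (u : ℝ) :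
    1 ≤ Pr p (fun ω => ¬ GdB P m₀ k a val ω)
      + Pr p (fun ω => GdB P m₀ k a val ω ∧ u < P.mid (wOf val ω) i j - P.dia (wOf val ω) i j)
      + Pr p (fun ω => GdB P m₀ k a val ω ∧ r < P.rng (wOf val ω) i (j + 1))
      + ∑ t ∈ range (K + 1), ∑ s ∈ S9, Pr p (evAB P m₀ k a val i j r t s n u) := by
  classical
  have h1 : Pr p (fun _ : EIdx P.R → V => True) = 1 := by
    unfold Pr
    simp only [if_true]
    exact ConcAux.Ex_one hp
  rw [← h1]
  have h2 : Pr p (fun _ : EIdx P.R → V => True) ≤ Pr p (fun ω => ((¬ GdB P m₀ k a val ω ∨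
      (GdB P m₀ k a val ω ∧ u < P.mid (wOf val ω) i j - P.dia (wOf val ω) i j)) ∨
      (GdB P m₀ k a val ω ∧ r < P.rng (wOf val ω) i (j + 1))) ∨
      (∃ t ∈ range (K + 1), ∃ s ∈ S9, evAB P m₀ k a val i j r t s n u ω)) := by
    apply Pr_mono hp
    intro ω _
    by_cases hG : GdB P m₀ k a val ω
    swap
    · exact Or.inl (Or.inl (Or.inl hG))
    by_cases hu : u < P.mid (wOf val ω) i j - P.dia (wOf val ω) i j
    · exact Or.inl (Or.inl (Or.inr ⟨hG, hu⟩))
    by_cases hrr : r < P.rng (wOf val ω) i (j + 1)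
    · exact Or.inl (Or.inr ⟨hG, hrr⟩)
    right
    push Not at hu hrr
    have hcardg := gblk_card hP hG.1 hk hm hG.2 hi1 hi2 (i := i) (j := j + 1) (by omega)
      (by omega)
    have h9 : 9 * n ≤ (P.gblk (wOf val ω) a 1 k i (j + 1)).card := by
      have h3 : 2 * (2 * k + 1) ^ 2 * (9 * n) ≤
          2 * (2 * k + 1) ^ 2 * (P.gblk (wOf val ω) a 1 k i (j + 1)).card := by
        calc 2 * (2 * k + 1) ^ 2 * (9 * n) = 18 * (2 * k + 1) ^ 2 * n := by ring
          _ ≤ _ := hn.trans hcardg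
      exact Nat.le_of_mul_le_mul_left h3 (by positivity)
    obtain ⟨s, hs, S, hS1, hS2, hS3⟩ := exists_class h9
    rcases (P.midV (wOf val ω) i (j + 1)).eq_empty_or_nonempty with hemp | hne
    · refine ⟨0, mem_range.2 (Nat.succ_pos K), s, hs, hG, hu, ?_, S, hS1, hS2, hS3⟩
      intro v hv
      rw [hemp] at hv
      exact absurd hv (notMem_empty v)
    · have hline := lineU_mem hP hG.1.nonneg (j := j + 1) (by omega)
      have hstrip : ∀ v ∈ P.midV (wOf val ω) i (j + 1),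
          |B v - 4 * (j + 1 : ℕ) * P.σ| ≤ P.w₀ := fun v hv =>
        (hline.2.1 v (mem_midV.1 hv).1).1
      have hex : ∃ t ∈ range (K + 1), ∀ v ∈ P.midV (wOf val ω) i (j + 1),
          InTube (P.base j) r t v := by
        refine exists_tube hne hr ?_ ?_ ?_
        · intro v hv
          have := abs_le.1 (hstrip v hv)
          unfold Par.base
          linarith [this.1]
        · intro v hv
          have := abs_le.1 (hstrip v hv)
          have hK' : (2 * P.w₀ : ℤ) = K * r := by exact_mod_cast hK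
          unfold Par.base
          linarith [this.2]
        · intro v hv v' hv'
          have := mem_midV_range hv hv'
          have h3 : (P.rng (wOf val ω) i (j + 1) : ℤ) ≤ r := by exact_mod_cast hrr
          linarith
      obtain ⟨t, ht, htube⟩ := hex
      exact ⟨t, ht, s, hs, hG, hu, htube, S, hS1, hS2, hS3⟩
  refine h2.trans ((Pr_or_le hp _ _).trans ?_)
  refine add_le_add ((Pr_or_le hp _ _).trans ?_) ((Pr_exists_le hp _ _).trans ?_)
  · exact add_le_add (Pr_or_le hp _ _) le_rfl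
  · exact sum_le_sum fun t _ => Pr_exists_le hp _ _

/-- The wide tubes met by the line when there is a large shortcut. -/
theorem sum_evBB {P : Par} {p : V → ℝ} (hp : IsProb p) {val : V → ℝ} {m₀ k : ℕ} {a : ℝ}
    {i j r K : ℕ} (hr : 0 < r) {u : ℝ} (hu : 0 < u)
    {fb fr : (EIdx P.R → V) → ℝ} (hfb0 : ∀ ω, 0 ≤ fb ω) (hfr0 : ∀ ω, 0 ≤ fr ω)
    (hfb : ∀ ω, GdB P m₀ k a val ω → P.bot (wOf val ω) i j - P.dia (wOf val ω) i j ≤ fb ω)
    (hfr : ∀ ω, GdB P m₀ k a val ω → (P.rng (wOf val ω) i (j + 1) : ℝ) ≤ fr ω) :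
    ∑ t ∈ range (K + 1), Pr p (evBB P m₀ k a val i j r t u) ≤
      (K + 1) * Pr p (fun ω => ¬ GdB P m₀ k a val ω) + (Ex p fr / r + Ex p fb / u) := by
  classical
  set g : ℕ → (EIdx P.R → V) → Prop := fun t ω => GdB P m₀ k a val ω ∧
    7 * u ≤ P.bot (wOf val ω) i j - P.dia (wOf val ω) i j ∧
    ∃ v ∈ P.midV (wOf val ω) i (j + 1), InTubeW (P.base j) r t v with hg
  have h1 : ∀ t, Pr p (evBB P m₀ k a val i j r t u) ≤
      Pr p (fun ω => ¬ GdB P m₀ k a val ω) + Pr p (g t) := fun t => Pr_or_le hp _ _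
  have h2 : ∑ t ∈ range (K + 1), Pr p (evBB P m₀ k a val i j r t u) ≤
      (K + 1) * Pr p (fun ω => ¬ GdB P m₀ k a val ω) + ∑ t ∈ range (K + 1), Pr p (g t) := by
    refine (sum_le_sum (fun t _ => h1 t)).trans (le_of_eq ?_)
    rw [sum_add_distrib, sum_const, card_range, nsmul_eq_mul]
    push_cast
    ring
  refine h2.trans (add_le_add le_rfl ?_)
  have hrR : (0 : ℝ) < r := by exact_mod_cast hr
  have h3 : ∑ t ∈ range (K + 1), Pr p (g t) =
      Ex p (fun ω => ∑ t ∈ range (K + 1), if g t ω then (1 : ℝ) else 0) := by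
    rw [ConcAux.Ex_sum]
    apply sum_congr rfl
    intro t _
    unfold Pr
    congr 1
    funext ω
    by_cases h : g t ω
    · rw [if_pos h, if_pos h]
    · rw [if_neg h, if_neg h]
  have h4 : Ex p fr / r + Ex p fb / u = Ex p (fun ω => (r : ℝ)⁻¹ * fr ω + u⁻¹ * fb ω) := by
    rw [ConcAux.Ex_add, ConcAux.Ex_mul_left, ConcAux.Ex_mul_left]
    ring
  rw [h3, h4]
  apply ConcAux.Ex_mono hp.nonneg
  intro ω
  rw [← sum_filter, sum_const, nsmul_eq_mul, mul_one]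
  by_cases hG : GdB P m₀ k a val ω ∧ 7 * u ≤ P.bot (wOf val ω) i j - P.dia (wOf val ω) i j
  · have hc := card_tubesW_le (P.midV (wOf val ω) i (j + 1)) (b₀ := P.base j) (r := r)
      (ρ := P.rng (wOf val ω) i (j + 1)) hr (fun v hv v' hv' => mem_midV_range hv hv')
      ((range (K + 1)).filter (fun t => g t ω)) (fun t ht => (mem_filter.1 ht).2.2.2)
    refine hc.trans ?_
    have h5 := hfr ω hG.1
    have h6 := hfb ω hG.1
    have h7 : (P.rng (wOf val ω) i (j + 1) : ℝ) / r ≤ (r : ℝ)⁻¹ * fr ω := by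
      rw [div_eq_inv_mul]
      exact mul_le_mul_of_nonneg_left h5 (by positivity)
    have h8 : 7 ≤ u⁻¹ * fb ω := by
      rw [← div_eq_inv_mul, le_div_iff₀ hu]
      linarith [hG.2]
    linarith
  · have hemp : (range (K + 1)).filter (fun t => g t ω) = ∅ := by
      rw [filter_eq_empty_iff]
      intro t _ ht
      exact hG ⟨ht.1, ht.2.1⟩
    rw [hemp, card_empty]
    have e1 := hfr0 ω
    have e2 := hfb0 ω
    have e3 : 0 ≤ (r : ℝ)⁻¹ * fr ω := mul_nonneg (by positivity) e1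
    have e4 : 0 ≤ u⁻¹ * fb ω := mul_nonneg (by positivity) e2
    push_cast
    linarith

/-- The contradiction, once a cell is selected. -/
theorem cell_contra {P : Par} (hP : P.Ok) {p : V → ℝ} (hp : IsProb p)
    {val : V → ℝ} {m₀ k : ℕ} {a : ℝ} {i j r K n : ℕ}
    (hi1 : 1 ≤ i) (hi2 : i + 2 ≤ P.N) (hj2 : j + 3 ≤ P.N) (hr : 0 < r)
    (hKr : 2 * P.w₀ = K * r) (hk : 16 * k ≤ P.w₀) (hm : m₀ ≤ P.σ)
    (hn : 18 * (2 * k + 1) ^ 2 * n ≤ P.σ) {u : ℝ} (hu : 0 < u) {fm fb fr : (EIdx P.R → V) → ℝ}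
    (hfm0 : ∀ ω, 0 ≤ fm ω) (hfb0 : ∀ ω, 0 ≤ fb ω) (hfr0 : ∀ ω, 0 ≤ fr ω)
    (hfm : ∀ ω, GdB P m₀ k a val ω → P.mid (wOf val ω) i j - P.dia (wOf val ω) i j ≤ fm ω)
    (hfb : ∀ ω, GdB P m₀ k a val ω → P.bot (wOf val ω) i j - P.dia (wOf val ω) i j ≤ fb ω)
    (hfr : ∀ ω, GdB P m₀ k a val ω → (P.rng (wOf val ω) i (j + 1) : ℝ) ≤ fr ω)
    {g₀ g₁ g₂ g₃ : ℝ} (hg₀ : Pr p (fun ω => ¬ GdB P m₀ k a val ω) ≤ g₀)
    (hg₁ : Ex p fm / u ≤ g₁) (hg₂ : Ex p fb / u ≤ g₂) (hg₃ : Ex p fr / r ≤ g₃)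
    (h8 : g₀ + g₁ + g₃ ≤ 1 / 2) {C : ℝ} (hC : 0 < C)
    (hone : ∀ t, ∀ s : ℤ × ℤ, 1 / 2 * Pr p (evAB P m₀ k a val i j r t s n u) ≤
      C * (Pr p (evBB P m₀ k a val i j r t u)) ^ (1 - 1 / (32 : ℝ))) :
    ∃ S : ℝ, 0 ≤ S ∧ S ≤ (K + 1) * g₀ + (g₃ + g₂) ∧
      1 / 4 ≤ (9 * C) * (((K + 1 : ℕ) : ℝ) ^ (1 / (32 : ℝ)) * S ^ (1 - 1 / (32 : ℝ))) := by
  have hcov := cover hP hp (val := val) (m₀ := m₀) (k := k) (a := a) (i := i) (j := j) (r := r)
    (K := K) (n := n) hi1 hi2 (by omega) hr hKr hk hm hn u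
  have hrR : (0 : ℝ) < r := by exact_mod_cast hr
  have hPm : Pr p (fun ω => GdB P m₀ k a val ω ∧
      u < P.mid (wOf val ω) i j - P.dia (wOf val ω) i j) ≤ g₁ := by
    refine (Pr_markov hp hfm0 hu ?_).trans hg₁
    intro ω hω
    exact hω.2.le.trans (hfm ω hω.1)
  have hPr : Pr p (fun ω => GdB P m₀ k a val ω ∧ r < P.rng (wOf val ω) i (j + 1)) ≤ g₃ := by
    refine (Pr_markov hp hfr0 hrR ?_).trans hg₃
    intro ω hω
    refine le_trans ?_ (hfr ω hω.1)
    exact_mod_cast hω.2.le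
  have hsumA : 1 / 2 ≤ ∑ t ∈ range (K + 1), ∑ s ∈ S9, Pr p (evAB P m₀ k a val i j r t s n u) := by
    linarith
  refine ⟨∑ t ∈ range (K + 1), Pr p (evBB P m₀ k a val i j r t u),
    sum_nonneg (fun t _ => Pr_nonneg hp _), ?_, ?_⟩
  · have h3 := sum_evBB hp (val := val) (m₀ := m₀) (k := k) (a := a) (i := i) (j := j) (K := K)
      hr hu hfb0 hfr0 hfb hfr
    refine h3.trans ?_
    have h4 : ((K : ℝ) + 1) * Pr p (fun ω => ¬ GdB P m₀ k a val ω) ≤ (K + 1) * g₀ :=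
      mul_le_mul_of_nonneg_left hg₀ (by positivity)
    linarith
  · calc (1 : ℝ) / 4 ≤ 1 / 2 * ∑ t ∈ range (K + 1), ∑ s ∈ S9,
            Pr p (evAB P m₀ k a val i j r t s n u) := by
          linarith
      _ = ∑ t ∈ range (K + 1), ∑ s ∈ S9, 1 / 2 * Pr p (evAB P m₀ k a val i j r t s n u) := by
          rw [mul_sum]
          exact sum_congr rfl fun t _ => by rw [mul_sum]
      _ ≤ ∑ t ∈ range (K + 1), ∑ s ∈ S9,
            C * (Pr p (evBB P m₀ k a val i j r t u)) ^ (1 - 1 / (32 : ℝ)) :=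
          sum_le_sum (fun t _ => sum_le_sum fun s _ => hone t s)
      _ = (9 * C) * ∑ t ∈ range (K + 1),
            (Pr p (evBB P m₀ k a val i j r t u)) ^ (1 - 1 / (32 : ℝ)) := by
          rw [mul_sum]
          refine sum_congr rfl fun t _ => ?_
          rw [sum_const, card_S9, nsmul_eq_mul]
          push_cast
          ring
      _ ≤ _ := by
          apply mul_le_mul_of_nonneg_left _ (by positivity)
          have := sum_rpow_le (range (K + 1)) (fun t => Pr p (evBB P m₀ k a val i j r t u))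
            (fun t _ => Pr_nonneg hp _)
          rw [card_range] at this
          exact this

end PartB

end Pool.Agent.Helper33_FPP
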