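import Pool.Agent.Helper33_FPP.Tube

/-!
# Part I: the finite-volume contradiction
-/

set_option autoImplicit false

namespace Pool.Agent.Helper33_FPP

open Finset

theorem pars_ok {X : ℕ} {c : ℝ} (hc : 0 < c) (h1 : 8 ≤ X) (h2 : 4 / c ≤ X) : (Pars X c).Ok where
  hc := hc
  hE₂ := by
    change (0 : ℝ) ≤ (X : ℝ) ^ 104
    positivity
  hE₃ := by
    change (0 : ℝ) ≤ (X : ℝ) ^ 57
    positivity
  hw1 := by
    change 2 ≤ X ^ 105
    calc 2 ≤ X := by omega
      _ = X ^ 1 := (pow_one X).symm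
      _ ≤ X ^ 105 := Nat.pow_le_pow_right (by omega) (by norm_num)
  hw := by
    change 4 * (X : ℝ) ^ 104 ≤ c * ((X ^ 105 : ℕ) : ℝ)
    push_cast
    have h3 : 4 ≤ c * X := by
      rw [div_le_iff₀ hc] at h2
      linarith
    calc 4 * (X : ℝ) ^ 104 ≤ (c * X) * (X : ℝ) ^ 104 :=
          mul_le_mul_of_nonneg_right h3 (by positivity)
      _ = c * (X : ℝ) ^ 105 := by ring
  hσ := by
    change 8 * X ^ 105 ≤ X ^ 106
    calc 8 * X ^ 105 ≤ X * X ^ 105 := Nat.mul_le_mul_right _ h1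
      _ = X ^ 106 := by ring
  hN := by
    change 4 ≤ X ^ 94
    calc 4 ≤ X := by omega
      _ = X ^ 1 := (pow_one X).symm
      _ ≤ X ^ 94 := Nat.pow_le_pow_right (by omega) (by norm_num)
  hR := by
    change 8 * X ^ 94 * X ^ 106 ≤ X ^ 201
    calc 8 * X ^ 94 * X ^ 106 = 8 * X ^ 200 := by ring
      _ ≤ X * X ^ 200 := Nat.mul_le_mul_right _ h1
      _ = X ^ 201 := by ring

theorem mem_midV_range {P : Par} {w : Sym2 (ℤ × ℤ) → ℝ} {i j : ℕ} {v v' : ℤ × ℤ}
    (hv : v ∈ P.midV w i j) (hv' : v' ∈ P.midV w i j) : B v - B v' ≤ (P.rng w i j : ℤ) := by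
  unfold Par.rng
  have h := Finset.le_sup (f := fun z : (ℤ × ℤ) × (ℤ × ℤ) => (B z.1 - B z.2).toNat)
    (mem_product.2 ⟨hv, hv'⟩ : (v, v') ∈ P.midV w i j ×ˢ P.midV w i j)
  have h2 : B v - B v' ≤ ((B v - B v').toNat : ℤ) := Int.self_le_toNat _
  exact h2.trans (by exact_mod_cast h)

section

variable {V : Type} [Fintype V]

/-- The covering by tubes. -/
theorem cover {P : Par} (hP : P.Ok) {p : V → ℝ} (hp : IsProb p) {val : V → ℝ} {m₀ : ℕ} {θ hi : ℝ}
    {i j r K : ℕ} (hj : j + 1 ≤ P.N) (hr : 0 < r) (hK : 2 * P.w₀ = K * r) (u : ℝ) :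
    1 ≤ Pr p (fun ω => ¬ Gd P m₀ θ hi val ω)
      + Pr p (fun ω => Gd P m₀ θ hi val ω ∧ u < P.mid (wOf val ω) i j - P.dia (wOf val ω) i j)
      + Pr p (fun ω => Gd P m₀ θ hi val ω ∧ r < P.rng (wOf val ω) i (j + 1))
      + ∑ k ∈ range (K + 1), Pr p (evA P m₀ θ hi val i j r k u) := by
  classical
  have h1 : Pr p (fun _ : EIdx P.R → V => True) = 1 := by
    unfold Pr
    simp only [if_true]
    exact ConcAux.Ex_one hp
  rw [← h1]
  have h2 : Pr p (fun _ : EIdx P.R → V => True) ≤ Pr p (fun ω => ((¬ Gd P m₀ θ hi val ω ∨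
      (Gd P m₀ θ hi val ω ∧ u < P.mid (wOf val ω) i j - P.dia (wOf val ω) i j)) ∨
      (Gd P m₀ θ hi val ω ∧ r < P.rng (wOf val ω) i (j + 1))) ∨
      (∃ k ∈ range (K + 1), evA P m₀ θ hi val i j r k u ω)) := by
    apply Pr_mono hp
    intro ω _
    by_cases hG : Gd P m₀ θ hi val ω
    swap
    · exact Or.inl (Or.inl (Or.inl hG))
    by_cases hu : u < P.mid (wOf val ω) i j - P.dia (wOf val ω) i j
    · exact Or.inl (Or.inl (Or.inr ⟨hG, hu⟩))
    by_cases hrr : r < P.rng (wOf val ω) i (j + 1)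
    · exact Or.inl (Or.inr ⟨hG, hrr⟩)
    right
    push Not at hu hrr
    rcases (P.midV (wOf val ω) i (j + 1)).eq_empty_or_nonempty with hemp | hne
    · refine ⟨0, mem_range.2 (Nat.succ_pos K), hG, hu, ?_⟩
      intro v hv
      rw [hemp] at hv
      exact absurd hv (notMem_empty v)
    · have hline := lineU_mem hP hG.1.nonneg (j := j + 1) hj
      have hstrip : ∀ v ∈ P.midV (wOf val ω) i (j + 1),
          |B v - 4 * (j + 1 : ℕ) * P.σ| ≤ P.w₀ := fun v hv =>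
        (hline.2.1 v (mem_midV.1 hv).1).1
      have hex : ∃ k ∈ range (K + 1), ∀ v ∈ P.midV (wOf val ω) i (j + 1),
          InTube (P.base j) r k v := by
        refine exists_tube hne hr ?_ ?_ ?_
        · intro v hv
          have := abs_le.1 (hstrip v hv)
          unfold Par.base
          linarith [this.1]
        · intro v hv
          have := abs_le.1 (hstrip v hv)
          have hK' : (2 * P.w₀ : ℤ) = K * r := by exact_mod_cast hK
          unfold Par.base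
          linarith [this.2]
        · intro v hv v' hv'
          have := mem_midV_range hv hv'
          have h3 : (P.rng (wOf val ω) i (j + 1) : ℤ) ≤ r := by exact_mod_cast hrr
          linarith
      obtain ⟨k, hk, htube⟩ := hex
      exact ⟨k, hk, hG, hu, htube⟩
  refine h2.trans ((Pr_or_le hp _ _).trans ?_)
  refine add_le_add ((Pr_or_le hp _ _).trans ?_) (Pr_exists_le hp _ _)
  exact add_le_add (Pr_or_le hp _ _) le_rfl

/-- The tubes met by the line when there is a large shortcut. -/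
theorem sum_evB {P : Par} (hP : P.Ok) {p : V → ℝ} (hp : IsProb p) {val : V → ℝ} {m₀ : ℕ}
    {θ hi : ℝ} {i j r K : ℕ} (hi1 : 1 ≤ i) (hi2 : i + 2 ≤ P.N) (hj1 : 1 ≤ j) (hj2 : j + 3 ≤ P.N)
    (hr : 0 < r) {u : ℝ} (hu : 0 < u)
    {fb fr : (EIdx P.R → V) → ℝ} (hfb0 : ∀ ω, 0 ≤ fb ω) (hfr0 : ∀ ω, 0 ≤ fr ω)
    (hfb : ∀ ω, Gd P m₀ θ hi val ω → P.bot (wOf val ω) i j - P.dia (wOf val ω) i j ≤ fb ω)
    (hfr : ∀ ω, Gd P m₀ θ hi val ω → (P.rng (wOf val ω) i (j + 1) : ℝ) ≤ fr ω) :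
    ∑ k ∈ range (K + 1), Pr p (evB P m₀ θ hi val i j r k u) ≤
      (K + 1) * Pr p (fun ω => ¬ Gd P m₀ θ hi val ω) + (Ex p fr / r + Ex p fb / u) := by
  classical
  set g : ℕ → (EIdx P.R → V) → Prop := fun k ω => Gd P m₀ θ hi val ω ∧
    3 * u ≤ P.bot (wOf val ω) i j - P.dia (wOf val ω) i j ∧
    ∃ v ∈ P.midV (wOf val ω) i (j + 1), InTube (P.base j) r k v with hg
  have h1 : ∀ k, Pr p (evB P m₀ θ hi val i j r k u) ≤
      Pr p (fun ω => ¬ Gd P m₀ θ hi val ω) + Pr p (g k) := fun k => Pr_or_le hp _ _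
  have h2 : ∑ k ∈ range (K + 1), Pr p (evB P m₀ θ hi val i j r k u) ≤
      (K + 1) * Pr p (fun ω => ¬ Gd P m₀ θ hi val ω) + ∑ k ∈ range (K + 1), Pr p (g k) := by
    refine (sum_le_sum (fun k _ => h1 k)).trans (le_of_eq ?_)
    rw [sum_add_distrib, sum_const, card_range, nsmul_eq_mul]
    push_cast
    ring
  refine h2.trans (add_le_add le_rfl ?_)
  have hrR : (0 : ℝ) < r := by exact_mod_cast hr
  have h3 : ∑ k ∈ range (K + 1), Pr p (g k) =
      Ex p (fun ω => ∑ k ∈ range (K + 1), if g k ω then (1 : ℝ) else 0) := by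
    rw [ConcAux.Ex_sum]
    apply sum_congr rfl
    intro k _
    unfold Pr
    congr 1
    funext ω
    by_cases h : g k ω
    · rw [if_pos h, if_pos h]
    · rw [if_neg h, if_neg h]
  have h4 : Ex p fr / r + Ex p fb / u = Ex p (fun ω => (r : ℝ)⁻¹ * fr ω + u⁻¹ * fb ω) := by
    rw [ConcAux.Ex_add, ConcAux.Ex_mul_left, ConcAux.Ex_mul_left]
    ring
  rw [h3, h4]
  apply ConcAux.Ex_mono hp.nonneg
  intro ω
  rw [← sum_filter, sum_const, nsmul_eq_mul, mul_one]
  by_cases hG : Gd P m₀ θ hi val ω ∧ 3 * u ≤ P.bot (wOf val ω) i j - P.dia (wOf val ω) i j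
  · have hc := card_tubes_le (P.midV (wOf val ω) i (j + 1)) (b₀ := P.base j) (r := r)
      (K := K) (ρ := P.rng (wOf val ω) i (j + 1)) hr (fun v hv v' hv' => mem_midV_range hv hv')
      ((range (K + 1)).filter (fun k => g k ω)) (fun k hk => (mem_filter.1 hk).2.2.2)
    refine hc.trans ?_
    have h5 := hfr ω hG.1
    have h6 := hfb ω hG.1
    have h7 : (P.rng (wOf val ω) i (j + 1) : ℝ) / r ≤ (r : ℝ)⁻¹ * fr ω := by
      rw [div_eq_inv_mul]
      exact mul_le_mul_of_nonneg_left h5 (by positivity)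
    have h8 : 3 ≤ u⁻¹ * fb ω := by
      rw [← div_eq_inv_mul, le_div_iff₀ hu]
      linarith [hG.2]
    linarith
  · have hemp : (range (K + 1)).filter (fun k => g k ω) = ∅ := by
      rw [filter_eq_empty_iff]
      intro k _ hk
      exact hG ⟨hk.1, hk.2.1⟩
    rw [hemp, card_empty]
    have e1 := hfr0 ω
    have e2 := hfb0 ω
    have e3 : 0 ≤ (r : ℝ)⁻¹ * fr ω := mul_nonneg (by positivity) e1
    have e4 : 0 ≤ u⁻¹ * fb ω := mul_nonneg (by positivity) e2
    push_cast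
    linarith

end

end Pool.Agent.Helper33_FPP
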