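import Pool.Agent.Helper33_FPP.PartIb

/-!
# Part I: numerical facts and the contradiction in a cell
-/

set_option autoImplicit false

namespace Pool.Agent.Helper33_FPP

open Finset

/-- The last numerical step. -/
theorem final_numeric {x C a S Kn : ℝ} (hx : 1 ≤ x) (hC : 0 < C) (ha : 0 < a) (hS0 : 0 ≤ S)
    (hS : S ≤ a / x ^ 3) (hK0 : 0 ≤ Kn) (hK : Kn ≤ 3 * x ^ 45)
    (h : 1 / 4 ≤ C * (Kn ^ (1 / (32 : ℝ)) * S ^ (1 - 1 / (32 : ℝ)))) :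
    x ≤ 4 ^ 32 * (C ^ 32 * (3 * a ^ 31)) := by
  have hpow := pow_le_pow_left₀ (by norm_num : (0 : ℝ) ≤ 1 / 4) h 32
  rw [mul_pow, mul_pow, ← Real.rpow_natCast (Kn ^ (1 / (32 : ℝ))) 32,
    ← Real.rpow_mul hK0, ← Real.rpow_natCast (S ^ (1 - 1 / (32 : ℝ))) 32,
    ← Real.rpow_mul hS0] at hpow
  have e1 : (1 / (32 : ℝ)) * ((32 : ℕ) : ℝ) = 1 := by norm_num
  have e2 : (1 - 1 / (32 : ℝ)) * ((32 : ℕ) : ℝ) = ((31 : ℕ) : ℝ) := by norm_num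
  rw [e1, e2, Real.rpow_one, Real.rpow_natCast] at hpow
  have hS31 : S ^ 31 ≤ (a / x ^ 3) ^ 31 := pow_le_pow_left₀ hS0 hS 31
  have hx0 : 0 < x := by linarith
  have hfin : (1 / 4 : ℝ) ^ 32 ≤ C ^ 32 * (3 * x ^ 45 * (a / x ^ 3) ^ 31) := by
    refine hpow.trans ?_
    apply mul_le_mul_of_nonneg_left _ (by positivity)
    exact mul_le_mul hK hS31 (by positivity) (by positivity)
  have e3 : C ^ 32 * (3 * x ^ 45 * (a / x ^ 3) ^ 31) = C ^ 32 * (3 * a ^ 31) / x ^ 48 := by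
    rw [div_pow, ← pow_mul]
    have : x ^ (3 * 31) = x ^ 45 * x ^ 48 := by rw [← pow_add]
    rw [this]
    field_simp
  rw [e3, le_div_iff₀ (by positivity)] at hfin
  have h9 : x ^ 48 ≤ 4 ^ 32 * (C ^ 32 * (3 * a ^ 31)) := by
    have h10 : (4 : ℝ) ^ 32 * ((1 / 4 : ℝ) ^ 32 * x ^ 48) ≤
        4 ^ 32 * (C ^ 32 * (3 * a ^ 31)) := mul_le_mul_of_nonneg_left hfin (by positivity)
    have h11 : (4 : ℝ) ^ 32 * ((1 / 4 : ℝ) ^ 32 * x ^ 48) = x ^ 48 := by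
      rw [← mul_assoc, ← mul_pow]
      norm_num
    rwa [h11] at h10
  exact (le_pow_of_one_le hx (by norm_num)).trans h9

/-- Choice of the probability `q`, the number `n` of changes and the gain `u`. -/
theorem choice_numeric {θ gap pL c : ℝ} (hθ0 : 0 < θ) (hgap : 0 < gap) (hpL : 0 < pL) (hc : 0 < c)
    {X : ℕ} (hX8 : 8 ≤ X) (hxp : 32 / pL ≤ X) (hxθ : 40 / θ ≤ X) :
    ∃ q : ℝ, ∃ n : ℕ, 0 < q ∧ 32 * q ≤ pL ∧
      q ^ 2 * (24 * (Pars X c).σ * ((X ^ 60 : ℕ) : ℝ)) ≤ 1 ∧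
      1 ≤ n ∧ (n : ℝ) ≤ θ * (2 * (Pars X c).σ) ∧ 8 ≤ q * n ∧ 0 < gap * (q * n) / 16 ∧
      ∀ t : ℝ, t ≤ 60 * c * (X : ℝ) ^ 12 →
        t / (gap * (q * n) / 16) ≤ 4800 * c / (gap * θ) / (X : ℝ) ^ 11 := by
  have hx8 : (8 : ℝ) ≤ X := by exact_mod_cast hX8
  have hx1 : (1 : ℝ) ≤ X := by linarith
  have hx0 : (0 : ℝ) < X := by linarith
  have hσr : ((Pars X c).σ : ℝ) = (X : ℝ) ^ 106 := by
    change ((X ^ 106 : ℕ) : ℝ) = _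
    push_cast
    ring
  have hr : ((X ^ 60 : ℕ) : ℝ) = (X : ℝ) ^ 60 := by
    push_cast
    ring
  have hq0 : 0 < 1 / (5 * (X : ℝ) ^ 83) := by positivity
  have hθX : 40 ≤ θ * X := by
    rw [div_le_iff₀ hθ0] at hxθ
    linarith
  have hσ1 : (X : ℝ) ≤ (X : ℝ) ^ 106 := le_pow_of_one_le hx1 (by norm_num)
  have hθσ : 40 ≤ θ * (X : ℝ) ^ 106 := hθX.trans (mul_le_mul_of_nonneg_left hσ1 hθ0.le)
  have hnle : ((⌊θ * (2 * (X : ℝ) ^ 106)⌋₊ : ℕ) : ℝ) ≤ θ * (2 * (X : ℝ) ^ 106) :=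
    Nat.floor_le (by positivity)
  have hnge : θ * (X : ℝ) ^ 106 ≤ ((⌊θ * (2 * (X : ℝ) ^ 106)⌋₊ : ℕ) : ℝ) := by
    have := Nat.sub_one_lt_floor (θ * (2 * (X : ℝ) ^ 106))
    linarith
  have hqn : θ * (X : ℝ) ^ 23 / 5 ≤
      1 / (5 * (X : ℝ) ^ 83) * ((⌊θ * (2 * (X : ℝ) ^ 106)⌋₊ : ℕ) : ℝ) := by
    have h3 : 1 / (5 * (X : ℝ) ^ 83) * (θ * (X : ℝ) ^ 106) = θ * (X : ℝ) ^ 23 / 5 := by
      field_simp
    rw [← h3]
    exact mul_le_mul_of_nonneg_left hnge hq0.le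
  have hx23 : (X : ℝ) ≤ (X : ℝ) ^ 23 := le_pow_of_one_le hx1 (by norm_num)
  have hqn8 : 8 ≤ 1 / (5 * (X : ℝ) ^ 83) * ((⌊θ * (2 * (X : ℝ) ^ 106)⌋₊ : ℕ) : ℝ) := by
    refine le_trans ?_ hqn
    rw [le_div_iff₀ (by norm_num)]
    have := mul_le_mul_of_nonneg_left hx23 hθ0.le
    linarith
  have hu0 : 0 < gap * (1 / (5 * (X : ℝ) ^ 83) *
      ((⌊θ * (2 * (X : ℝ) ^ 106)⌋₊ : ℕ) : ℝ)) / 16 := by
    have h8 : 0 < 1 / (5 * (X : ℝ) ^ 83) * ((⌊θ * (2 * (X : ℝ) ^ 106)⌋₊ : ℕ) : ℝ) := by linarith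
    positivity
  refine ⟨1 / (5 * (X : ℝ) ^ 83), ⌊θ * (2 * (X : ℝ) ^ 106)⌋₊, hq0, ?_, ?_, ?_, ?_, hqn8, hu0, ?_⟩
  · rw [mul_one_div, div_le_iff₀ (by positivity)]
    rw [div_le_iff₀ hpL] at hxp
    have h3 : (X : ℝ) ≤ (X : ℝ) ^ 83 := le_pow_of_one_le hx1 (by norm_num)
    have h4 : pL * X ≤ pL * (X : ℝ) ^ 83 := mul_le_mul_of_nonneg_left h3 hpL.le
    have h5 : 0 ≤ pL * (X : ℝ) ^ 83 := by positivity
    linarith
  · rw [hσr, hr, div_pow, one_pow, div_mul_eq_mul_div, one_mul, div_le_one (by positivity)]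
    have h3 : (5 * (X : ℝ) ^ 83) ^ 2 = 25 * (X : ℝ) ^ 166 := by ring
    have h4 : 24 * (X : ℝ) ^ 106 * (X : ℝ) ^ 60 = 24 * (X : ℝ) ^ 166 := by ring
    rw [h3, h4]
    have h5 : 0 < (X : ℝ) ^ 166 := by positivity
    linarith
  · have : (1 : ℝ) ≤ ((⌊θ * (2 * (X : ℝ) ^ 106)⌋₊ : ℕ) : ℝ) := by linarith
    exact_mod_cast this
  · rw [hσr]
    exact hnle
  · intro t ht
    have ha0 : 0 < 4800 * c / (gap * θ) := by positivity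
    rw [div_le_div_iff₀ hu0 (by positivity)]
    have h3 : t * (X : ℝ) ^ 11 ≤ 60 * c * (X : ℝ) ^ 23 := by
      calc t * (X : ℝ) ^ 11 ≤ 60 * c * (X : ℝ) ^ 12 * (X : ℝ) ^ 11 :=
            mul_le_mul_of_nonneg_right ht (by positivity)
        _ = 60 * c * (X : ℝ) ^ 23 := by ring
    have h4 : 4800 * c / (gap * θ) * (gap * (θ * (X : ℝ) ^ 23 / 5) / 16) =
        60 * c * (X : ℝ) ^ 23 := by
      field_simp
      ring
    have h5 : 4800 * c / (gap * θ) * (gap * (θ * (X : ℝ) ^ 23 / 5) / 16) ≤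
        4800 * c / (gap * θ) * (gap * (1 / (5 * (X : ℝ) ^ 83) *
          ((⌊θ * (2 * (X : ℝ) ^ 106)⌋₊ : ℕ) : ℝ)) / 16) := by
      apply mul_le_mul_of_nonneg_left _ ha0.le
      apply div_le_div_of_nonneg_right _ (by norm_num)
      exact mul_le_mul_of_nonneg_left hqn hgap.le
    linarith

/-- The contradiction, once a cell is selected. -/
theorem cell_contra {V : Type} [Fintype V] {P : Par} (hP : P.Ok) {p : V → ℝ} (hp : IsProb p)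
    {val : V → ℝ} {m₀ : ℕ} {θ hi : ℝ} {i j r K : ℕ}
    (hi1 : 1 ≤ i) (hi2 : i + 2 ≤ P.N) (hj1 : 1 ≤ j) (hj2 : j + 3 ≤ P.N) (hr : 0 < r)
    (hKr : 2 * P.w₀ = K * r) {u : ℝ} (hu : 0 < u) {fm fb fr : (EIdx P.R → V) → ℝ}
    (hfm0 : ∀ ω, 0 ≤ fm ω) (hfb0 : ∀ ω, 0 ≤ fb ω) (hfr0 : ∀ ω, 0 ≤ fr ω)
    (hfm : ∀ ω, Gd P m₀ θ hi val ω → P.mid (wOf val ω) i j - P.dia (wOf val ω) i j ≤ fm ω)
    (hfb : ∀ ω, Gd P m₀ θ hi val ω → P.bot (wOf val ω) i j - P.dia (wOf val ω) i j ≤ fb ω)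
    (hfr : ∀ ω, Gd P m₀ θ hi val ω → (P.rng (wOf val ω) i (j + 1) : ℝ) ≤ fr ω)
    {g₀ g₁ g₂ g₃ : ℝ} (hg₀ : Pr p (fun ω => ¬ Gd P m₀ θ hi val ω) ≤ g₀)
    (hg₁ : Ex p fm / u ≤ g₁) (hg₂ : Ex p fb / u ≤ g₂) (hg₃ : Ex p fr / r ≤ g₃)
    (h8 : g₀ + g₁ + g₃ ≤ 1 / 2) {C : ℝ} (hC : 0 < C)
    (hone : ∀ k, 1 / 2 * Pr p (evA P m₀ θ hi val i j r k u) ≤
      C * (Pr p (evB P m₀ θ hi val i j r k u)) ^ (1 - 1 / (32 : ℝ))) :
    ∃ S : ℝ, 0 ≤ S ∧ S ≤ (K + 1) * g₀ + (g₃ + g₂) ∧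
      1 / 4 ≤ C * (((K + 1 : ℕ) : ℝ) ^ (1 / (32 : ℝ)) * S ^ (1 - 1 / (32 : ℝ))) := by
  have hcov := cover hP hp (val := val) (m₀ := m₀) (θ := θ) (hi := hi) (i := i) (j := j) (r := r)
    (K := K) (by omega) hr hKr u
  have hrR : (0 : ℝ) < r := by exact_mod_cast hr
  have hPm : Pr p (fun ω => Gd P m₀ θ hi val ω ∧
      u < P.mid (wOf val ω) i j - P.dia (wOf val ω) i j) ≤ g₁ := by
    refine (Pr_markov hp hfm0 hu ?_).trans hg₁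
    intro ω hω
    exact hω.2.le.trans (hfm ω hω.1)
  have hPr : Pr p (fun ω => Gd P m₀ θ hi val ω ∧ r < P.rng (wOf val ω) i (j + 1)) ≤ g₃ := by
    refine (Pr_markov hp hfr0 hrR ?_).trans hg₃
    intro ω hω
    refine le_trans ?_ (hfr ω hω.1)
    exact_mod_cast hω.2.le
  have hsumA : 1 / 2 ≤ ∑ k ∈ range (K + 1), Pr p (evA P m₀ θ hi val i j r k u) := by
    linarith
  refine ⟨∑ k ∈ range (K + 1), Pr p (evB P m₀ θ hi val i j r k u),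
    sum_nonneg (fun k _ => Pr_nonneg hp _), ?_, ?_⟩
  · have h3 := sum_evB hP hp (val := val) (m₀ := m₀) (θ := θ) (hi := hi) (K := K) hi1 hi2 hj1 hj2
      hr hu hfb0 hfr0 hfb hfr
    refine h3.trans ?_
    have h4 : ((K : ℝ) + 1) * Pr p (fun ω => ¬ Gd P m₀ θ hi val ω) ≤ (K + 1) * g₀ :=
      mul_le_mul_of_nonneg_left hg₀ (by positivity)
    linarith
  · calc (1 : ℝ) / 4 ≤ 1 / 2 * ∑ k ∈ range (K + 1), Pr p (evA P m₀ θ hi val i j r k u) := by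
          linarith
      _ = ∑ k ∈ range (K + 1), 1 / 2 * Pr p (evA P m₀ θ hi val i j r k u) := by rw [mul_sum]
      _ ≤ ∑ k ∈ range (K + 1), C * (Pr p (evB P m₀ θ hi val i j r k u)) ^ (1 - 1 / (32 : ℝ)) :=
          sum_le_sum (fun k _ => hone k)
      _ = C * ∑ k ∈ range (K + 1), (Pr p (evB P m₀ θ hi val i j r k u)) ^ (1 - 1 / (32 : ℝ)) := by
          rw [mul_sum]
      _ ≤ _ := by
          apply mul_le_mul_of_nonneg_left _ hC.le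
          have := sum_rpow_le (range (K + 1)) (fun k => Pr p (evB P m₀ θ hi val i j r k u))
            (fun k _ => Pr_nonneg hp _)
          rw [card_range] at this
          exact this

end Pool.Agent.Helper33_FPP
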