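import Pool.Agent.Helper33_FPP.CaseI

/-!
# Reduction to weights bounded below by the infimum of the support
-/

set_option autoImplicit false

open MeasureTheory ProbabilityTheory Filter Topology

namespace Pool.Agent.Helper33_FPP

instance : Countable Z2.edgeSet := by
  have : Countable (Sym2 (ℤ × ℤ)) := by
    unfold Sym2
    infer_instance
  infer_instance

section

variable {Ω : Type} [MeasurableSpace Ω] {P : Measure Ω} [IsProbabilityMeasure P]
  {F : Measure ℝ} [IsProbabilityMeasure F] {W : Z2.edgeSet → Ω → ℝ} {r : ℝ}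

/-- The weights raised to at least `r`. -/
noncomputable def Wr (W : Z2.edgeSet → Ω → ℝ) (r : ℝ) (e : Z2.edgeSet) (ω : Ω) : ℝ :=
  max (W e ω) r

omit [IsProbabilityMeasure P] [IsProbabilityMeasure F] in
theorem Wr_ae (hm : ∀ e, Measurable (W e)) (hF : ∀ e, P.map (W e) = F)
    (hr : F (Set.Iio r) = 0) : ∀ᵐ ω ∂P, ext (Wr W r) ω = ext W ω := by
  have h1 : ∀ e, ∀ᵐ ω ∂P, Wr W r e ω = W e ω := by
    intro e
    have h2 : P (W e ⁻¹' Set.Iio r) = 0 := by
      rw [← Measure.map_apply (hm e) measurableSet_Iio, hF e, hr]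
    rw [ae_iff]
    refine measure_mono_null ?_ h2
    intro ω hω
    simp only [Set.mem_preimage, Set.mem_Iio]
    by_contra h3
    push Not at h3
    exact hω (max_eq_left h3)
  filter_upwards [ae_all_iff.2 h1] with ω hω
  funext e
  unfold ext
  by_cases h : e ∈ Z2.edgeSet
  · rw [dif_pos h, dif_pos h, hω]
  · rw [dif_neg h, dif_neg h]

omit [IsProbabilityMeasure P] [IsProbabilityMeasure F] in
theorem Wr_law (hm : ∀ e, Measurable (W e)) (hF : ∀ e, P.map (W e) = F)
    (hr : F (Set.Iio r) = 0) (e : Z2.edgeSet) : P.map (Wr W r e) = F := by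
  rw [← hF e]
  apply Measure.map_congr
  have h2 : P (W e ⁻¹' Set.Iio r) = 0 := by
    rw [← Measure.map_apply (hm e) measurableSet_Iio, hF e, hr]
  change ∀ᵐ ω ∂P, Wr W r e ω = W e ω
  rw [ae_iff]
  refine measure_mono_null ?_ h2
  intro ω hω
  simp only [Set.mem_preimage, Set.mem_Iio]
  by_contra h3
  push Not at h3
  exact hω (max_eq_left h3)

omit [IsProbabilityMeasure P] in
theorem Wr_indep (hind : iIndepFun W P) : iIndepFun (Wr W r) P :=
  hind.comp (fun _ x => max x r) (fun _ => measurable_id.max measurable_const)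

theorem Wr_tendsto (hm : ∀ e, Measurable (W e)) (hF : ∀ e, P.map (W e) = F)
    (hr : F (Set.Iio r) = 0) {z : ℤ × ℤ} {μz : ℝ}
    (hμ : TendstoInMeasure P (fun (n : ℕ) ω => passageTime (ext W ω) 0 (n • z) / n) atTop
      (fun _ => μz)) :
    TendstoInMeasure P (fun (n : ℕ) ω => passageTime (ext (Wr W r) ω) 0 (n • z) / n) atTop
      (fun _ => μz) := by
  refine hμ.congr_left ?_
  intro n
  filter_upwards [Wr_ae hm hF hr] with ω hω
  rw [hω]

end

/-- Lower bound of the passage time along the diagonal. -/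
theorem diag_le_passageTime {w : Sym2 (ℤ × ℤ) → ℝ} {r : ℝ} (hr : 0 ≤ r)
    (hw : ∀ e ∈ Z2.edgeSet, r ≤ w e) (n : ℕ) :
    r * (2 * n) ≤ passageTime w 0 (n • ((1, 1) : ℤ × ℤ)) := by
  unfold passageTime
  apply le_ciInf
  intro p
  have h1 : (2 * n : ℤ) ≤ p.length := by
    have := length_ge_A p (Nat.zero_le p.length) le_rfl
    rw [p.getVert_zero, p.getVert_length] at this
    have h2 : A (n • ((1, 1) : ℤ × ℤ)) = 2 * n := by
      unfold A
      simp
      ring
    have h3 : A (0 : ℤ × ℤ) = 0 := by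
      unfold A
      simp
    rw [h2, h3] at this
    simpa using this
  have h1' : (2 * n : ℝ) ≤ p.length := by exact_mod_cast h1
  have h4 : r * p.length ≤ wt w p := by
    unfold wt
    have h5 : ∀ l : List (Sym2 (ℤ × ℤ)), (∀ e ∈ l, e ∈ Z2.edgeSet) →
        r * l.length ≤ (l.map w).sum := by
      intro l
      induction l with
      | nil => intro _; simp
      | cons e l ih =>
        intro h
        rw [List.map_cons, List.sum_cons, List.length_cons]
        have e1 := ih (fun e' he' => h e' (List.mem_cons_of_mem _ he'))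
        have e2 := hw e (h e List.mem_cons_self)
        push_cast
        linarith
    have h6 := h5 p.edges (fun e he => p.edges_subset_edgeSet he)
    rwa [p.length_edges] at h6
  exact (mul_le_mul_of_nonneg_left h1' hr).trans h4

/-- Upper bound of the passage time along the first axis. -/
theorem passageTime_axis_le {w : Sym2 (ℤ × ℤ) → ℝ} {r : ℝ}
    (hw0 : ∀ e, 0 ≤ w e) (hw : ∀ e, w e ≤ r) (n : ℕ) :
    passageTime w 0 (n • ((1, 0) : ℤ × ℤ)) ≤ r * n := by
  obtain ⟨p, hp, -⟩ := QAux.hstep 0 0 n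
  have h1 : ((0 : ℤ) + (n : ℤ), (0 : ℤ)) = n • ((1, 0) : ℤ × ℤ) := by
    apply Prod.ext <;> simp
  have h2 : ((0 : ℤ), (0 : ℤ)) = (0 : ℤ × ℤ) := rfl
  have key : ∀ y : ℤ × ℤ, ∀ q : Z2.Walk (0 : ℤ × ℤ) y, q.length = n →
      passageTime w 0 y ≤ r * n := by
    intro y q hq
    unfold passageTime
    have hbdd : BddBelow (Set.range fun q : Z2.Walk (0 : ℤ × ℤ) y => wt w q) :=
      ⟨0, by rintro _ ⟨q, rfl⟩; exact wt_nonneg hw0 q⟩
    refine (ciInf_le hbdd q).trans ?_
    have := wt_le_length hw q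
    rw [hq] at this
    linarith
  rw [← h1]
  exact key _ p hp

/-- The limit is at least a lower bound. -/
theorem le_of_tendsto_low {Ω : Type} [MeasurableSpace Ω] {P : Measure Ω} [IsProbabilityMeasure P]
    {W : Z2.edgeSet → Ω → ℝ} {z : ℤ × ℤ} {μz a : ℝ}
    (hμ : TendstoInMeasure P (fun (n : ℕ) ω => passageTime (ext W ω) 0 (n • z) / n) atTop
      (fun _ => μz)) (h : ∀ (n : ℕ) ω, a * n ≤ passageTime (ext W ω) 0 (n • z)) : a ≤ μz := by
  by_contra hcon
  push Not at hcon
  have h1 := upper_tail_of_tendsto hμ (show 0 < a - μz by linarith)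
  have h2 : ∀ n : ℕ, P.real {ω | (μz + (a - μz)) * n ≤ passageTime (ext W ω) 0 (n • z)} = 1 := by
    intro n
    have : {ω | (μz + (a - μz)) * n ≤ passageTime (ext W ω) 0 (n • z)} = Set.univ := by
      ext ω
      simp only [Set.mem_univ, iff_true]
      change (μz + (a - μz)) * n ≤ passageTime (ext W ω) 0 (n • z)
      have := h n ω
      have e : μz + (a - μz) = a := by ring
      rw [e]
      exact this
    rw [this]
    simp
  simp_rw [h2] at h1
  have h3 := tendsto_nhds_unique h1 (tendsto_const_nhds (x := (1 : ℝ)))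
  norm_num at h3

end Pool.Agent.Helper33_FPP
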