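import Pool.Agent.Helper33_FPP.Order

/-!
# Sums of weights of the pieces of the lines (module N3)
-/

set_option autoImplicit false

namespace Pool.Agent.Helper33_FPP

open Finset

variable {P : Par} {w w' : Sym2 (ℤ × ℤ) → ℝ}

theorem w₀_facts (hP : P.Ok) : 0 ≤ P.c * (P.w₀ : ℝ) ∧ 4 * P.E₂ ≤ P.c * P.w₀ ∧ 0 ≤ P.E₂ := by
  refine ⟨mul_nonneg hP.hc.le (by positivity), hP.hw, hP.hE₂⟩

theorem sum_aU_eq (hP : P.Ok) (hG : P.Good w) {i₁ j : ℕ} (h1 : 1 ≤ i₁)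
    (hj : 1 ≤ j) (hj' : j + 1 ≤ P.N) (k : ℕ) (h2 : i₁ + k + 1 ≤ P.N) :
    ∑ i ∈ Ico i₁ (i₁ + k), P.aU w i j =
      segw w (P.lineU w j) (pos (P.lineU w j) (P.cr w i₁ j))
        (pos (P.lineU w j) (P.cr w (i₁ + k) j)) ∧
      pos (P.lineU w j) (P.cr w i₁ j) ≤ pos (P.lineU w j) (P.cr w (i₁ + k) j) := by
  induction k with
  | zero => simp [segw]
  | succ k ih =>
    obtain ⟨e1, e2⟩ := ih (by omega)
    have h3 := pos_cr_U hP hG (i := i₁ + k) (i' := i₁ + (k + 1)) (j := j) (by omega) (by omega)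
      h2 hj hj'
    refine ⟨?_, e2.trans h3.le⟩
    rw [← add_assoc, sum_Ico_succ_top (by omega), e1]
    exact segw_add w _ e2 h3.le

theorem sum_bV_eq (hP : P.Ok) (hG : P.Good w) {i j₁ : ℕ} (hi : 1 ≤ i)
    (hi' : i + 1 ≤ P.N) (h1 : 1 ≤ j₁) (k : ℕ) (h2 : j₁ + k + 1 ≤ P.N) :
    ∑ j ∈ Ico j₁ (j₁ + k), P.bV w i j =
      segw w (P.lineV w i) (pos (P.lineV w i) (P.cr w i j₁))
        (pos (P.lineV w i) (P.cr w i (j₁ + k))) ∧
      pos (P.lineV w i) (P.cr w i j₁) ≤ pos (P.lineV w i) (P.cr w i (j₁ + k)) := by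
  induction k with
  | zero => simp [segw]
  | succ k ih =>
    obtain ⟨e1, e2⟩ := ih (by omega)
    have h3 := pos_cr_V hP hG (i := i) (j := j₁ + k) (j' := j₁ + (k + 1)) hi hi' (by omega)
      (by omega) h2
    refine ⟨?_, e2.trans h3.le⟩
    rw [← add_assoc, sum_Ico_succ_top (by omega), e1]
    exact segw_add w _ e2 h3.le

theorem sum_aU_le (hP : P.Ok) (hG : P.Good w) {i₁ i₂ j : ℕ} (h1 : 1 ≤ i₁) (h12 : i₁ ≤ i₂)
    (h2 : i₂ + 1 ≤ P.N) (hj : 1 ≤ j) (hj' : j + 1 ≤ P.N) :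
    ∑ i ∈ Ico i₁ i₂, P.aU w i j ≤ 4 * P.c * P.σ * ((i₂ : ℝ) - i₁) + 3 * P.c * P.w₀ := by
  obtain ⟨k, rfl⟩ := Nat.exists_eq_add_of_le h12
  obtain ⟨e1, e2⟩ := sum_aU_eq hP hG h1 hj hj' k h2
  have m1 := cr_mem_U hP hG.nonneg h1 (by omega) hj hj'
  have m2 := cr_mem_U hP hG.nonneg (show 1 ≤ i₁ + k by omega) h2 hj hj'
  have c1 := cr_A hP hG.nonneg h1 (by omega) hj hj'
  have c2 := cr_A hP hG.nonneg (show 1 ≤ i₁ + k by omega) h2 hj hj'
  have h3 := (near_U hP hG (show j ≤ P.N by omega)).segw_le e2 (pos_le_length _ m2)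
  rw [getVert_pos _ m1, getVert_pos _ m2] at h3
  rw [e1]
  refine h3.trans ?_
  obtain ⟨f1, f2, f3⟩ := w₀_facts hP
  rw [abs_le] at c1 c2
  have h4 : A (P.cr w (i₁ + k) j) - A (P.cr w i₁ j) ≤ 4 * k * P.σ + 2 * P.w₀ := by
    have := c1.1
    have := c2.2
    push_cast at this
    linarith
  have h5 : P.c * ((A (P.cr w (i₁ + k) j) - A (P.cr w i₁ j) : ℤ) : ℝ) ≤
      P.c * ((4 * k * P.σ + 2 * P.w₀ : ℤ) : ℝ) :=
    mul_le_mul_of_nonneg_left (by exact_mod_cast h4) hP.hc.le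
  push_cast at h5 ⊢
  nlinarith [h5, f1, f2, f3]

theorem sum_bV_le (hP : P.Ok) (hG : P.Good w) {i j₁ j₂ : ℕ} (hi : 1 ≤ i) (hi' : i + 1 ≤ P.N)
    (h1 : 1 ≤ j₁) (h12 : j₁ ≤ j₂) (h2 : j₂ + 1 ≤ P.N) :
    ∑ j ∈ Ico j₁ j₂, P.bV w i j ≤ 4 * P.c * P.σ * ((j₂ : ℝ) - j₁) + 3 * P.c * P.w₀ := by
  obtain ⟨k, rfl⟩ := Nat.exists_eq_add_of_le h12
  obtain ⟨e1, e2⟩ := sum_bV_eq hP hG hi hi' h1 k h2
  have m1 := cr_mem_V hP hG.nonneg hi hi' h1 (by omega)
  have m2 := cr_mem_V hP hG.nonneg hi hi' (show 1 ≤ j₁ + k by omega) h2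
  have c1 := cr_B hP hG.nonneg hi hi' h1 (by omega)
  have c2 := cr_B hP hG.nonneg hi hi' (show 1 ≤ j₁ + k by omega) h2
  have h3 := (near_V hP hG (show i ≤ P.N by omega)).segw_le e2 (pos_le_length _ m2)
  rw [getVert_pos _ m1, getVert_pos _ m2] at h3
  rw [e1]
  refine h3.trans ?_
  obtain ⟨f1, f2, f3⟩ := w₀_facts hP
  rw [abs_le] at c1 c2
  have h4 : B (P.cr w i (j₁ + k)) - B (P.cr w i j₁) ≤ 4 * k * P.σ + 2 * P.w₀ := by
    have := c1.1
    have := c2.2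
    push_cast at this
    linarith
  have h5 : P.c * ((B (P.cr w i (j₁ + k)) - B (P.cr w i j₁) : ℤ) : ℝ) ≤
      P.c * ((4 * k * P.σ + 2 * P.w₀ : ℤ) : ℝ) :=
    mul_le_mul_of_nonneg_left (by exact_mod_cast h4) hP.hc.le
  push_cast at h5 ⊢
  nlinarith [h5, f1, f2, f3]

theorem bV2_eq (hP : P.Ok) (hG : P.Good w) {i j : ℕ} (hi : 1 ≤ i) (hi' : i + 1 ≤ P.N)
    (hj : 1 ≤ j) (hj' : j + 3 ≤ P.N) : P.bV2 w i j = P.bV w i j + P.bV w i (j + 1) := by
  have h1 := pos_cr_V hP hG (i := i) (j := j) (j' := j + 1) hi hi' hj (by omega) (by omega)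
  have h2 := pos_cr_V hP hG (i := i) (j := j + 1) (j' := j + 2) hi hi' (by omega) (by omega)
    (by omega)
  exact (segv_add w _ h1.le h2.le).symm

theorem exists_box_walk (hP : P.Ok) (hw : ∀ e, 0 ≤ w e) {i j i' j' : ℕ} (hi : 1 ≤ i)
    (hi2 : i + 1 ≤ P.N) (hj : 1 ≤ j) (hj2 : j + 1 ≤ P.N) (hi' : 1 ≤ i') (hi2' : i' + 1 ≤ P.N)
    (hj' : 1 ≤ j') (hj2' : j' + 1 ≤ P.N) :
    ∃ p : Z2.Walk (P.cr w i j) (P.cr w i' j'), IsIn (box P.R : Set (ℤ × ℤ)) p := by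
  obtain ⟨p, hp, -⟩ := box_walk (Finset.mem_coe.1 (cr_mem_box hP hw hi hi2 hj hj2))
    (Finset.mem_coe.1 (cr_mem_box hP hw hi' hi2' hj' hj2'))
  exact ⟨p, hp⟩

theorem TT_tri_cr (hP : P.Ok) (hG : P.Good w) {i j i' j' i'' j'' : ℕ} (hi : 1 ≤ i)
    (hi2 : i + 1 ≤ P.N) (hj : 1 ≤ j) (hj2 : j + 1 ≤ P.N) (hi' : 1 ≤ i') (hi2' : i' + 1 ≤ P.N)
    (hj' : 1 ≤ j') (hj2' : j' + 1 ≤ P.N) (hi'' : 1 ≤ i'') (hi2'' : i'' + 1 ≤ P.N)
    (hj'' : 1 ≤ j'') (hj2'' : j'' + 1 ≤ P.N) :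
    TT w (box P.R) (P.cr w i j) (P.cr w i'' j'') ≤
      TT w (box P.R) (P.cr w i j) (P.cr w i' j') +
        TT w (box P.R) (P.cr w i' j') (P.cr w i'' j'') := by
  obtain ⟨p, hp⟩ := exists_box_walk hP hG.nonneg hi hi2 hj hj2 hi' hi2' hj' hj2'
  obtain ⟨q, hq⟩ := exists_box_walk hP hG.nonneg hi' hi2' hj' hj2' hi'' hi2'' hj'' hj2''
  exact TT_triangle hG.nonneg hp hq

theorem TT_le_aU (hP : P.Ok) (hG : P.Good w) {i j : ℕ} (hi : 1 ≤ i) (hi' : i + 2 ≤ P.N)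
    (hj : 1 ≤ j) (hj' : j + 1 ≤ P.N) :
    TT w (box P.R) (P.cr w i j) (P.cr w (i + 1) j) ≤ P.aU w i j :=
  TT_le_segv hG.nonneg (lineU_isIn_box hP hG.nonneg (by omega))
    (cr_mem_U hP hG.nonneg hi (by omega) hj hj')
    (cr_mem_U hP hG.nonneg (by omega) (by omega) hj hj')
    (pos_cr_U hP hG hi (by omega) (by omega) hj hj').le

theorem TT_le_bV (hP : P.Ok) (hG : P.Good w) {i j : ℕ} (hi : 1 ≤ i) (hi' : i + 1 ≤ P.N)
    (hj : 1 ≤ j) (hj' : j + 2 ≤ P.N) :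
    TT w (box P.R) (P.cr w i j) (P.cr w i (j + 1)) ≤ P.bV w i j :=
  TT_le_segv hG.nonneg (lineV_isIn_box hP hG.nonneg (by omega))
    (cr_mem_V hP hG.nonneg hi hi' hj (by omega))
    (cr_mem_V hP hG.nonneg hi hi' (by omega) (by omega))
    (pos_cr_V hP hG hi hi' hj (by omega) (by omega)).le

theorem dia_le_mid (hP : P.Ok) (hG : P.Good w) {i j : ℕ} (hi : 1 ≤ i) (hi' : i + 2 ≤ P.N)
    (hj : 1 ≤ j) (hj' : j + 3 ≤ P.N) : P.dia w i j ≤ P.mid w i j := by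
  unfold Par.dia Par.mid
  have h1 := TT_tri_cr hP hG (i := i) (j := j) (i' := i) (j' := j + 1) (i'' := i + 1)
    (j'' := j + 2) hi (by omega) hj (by omega) hi (by omega) (by omega) (by omega) (by omega)
    (by omega) (by omega) (by omega)
  have h2 := TT_tri_cr hP hG (i := i) (j := j + 1) (i' := i + 1) (j' := j + 1) (i'' := i + 1)
    (j'' := j + 2) hi (by omega) (by omega) (by omega) (by omega) (by omega) (by omega)
    (by omega) (by omega) (by omega) (by omega) (by omega)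
  have h3 := TT_le_bV hP hG hi (show i + 1 ≤ P.N by omega) hj (show j + 2 ≤ P.N by omega)
  have h4 := TT_le_aU hP hG hi hi' (show 1 ≤ j + 1 by omega) (show j + 1 + 1 ≤ P.N by omega)
  have h5 := TT_le_bV hP hG (show 1 ≤ i + 1 by omega) (show i + 1 + 1 ≤ P.N by omega)
    (show 1 ≤ j + 1 by omega) (show j + 1 + 2 ≤ P.N by omega)
  have h6 : j + 1 + 1 = j + 2 := rfl
  rw [h6] at h5
  linarith

theorem dia_le_bot (hP : P.Ok) (hG : P.Good w) {i j : ℕ} (hi : 1 ≤ i) (hi' : i + 2 ≤ P.N)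
    (hj : 1 ≤ j) (hj' : j + 3 ≤ P.N) : P.dia w i j ≤ P.bot w i j := by
  unfold Par.dia Par.bot
  have h1 := TT_tri_cr hP hG (i := i) (j := j) (i' := i + 1) (j' := j) (i'' := i + 1)
    (j'' := j + 2) hi (by omega) hj (by omega) (by omega) (by omega) (by omega) (by omega)
    (by omega) (by omega) (by omega) (by omega)
  have h4 := TT_le_aU hP hG hi hi' hj (show j + 1 ≤ P.N by omega)
  have h5 : TT w (box P.R) (P.cr w (i + 1) j) (P.cr w (i + 1) (j + 2)) ≤ P.bV2 w (i + 1) j :=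
    TT_le_segv hG.nonneg (lineV_isIn_box hP hG.nonneg (by omega))
      (cr_mem_V hP hG.nonneg (by omega) (by omega) hj (by omega))
      (cr_mem_V hP hG.nonneg (by omega) (by omega) (by omega) (by omega))
      (pos_cr_V hP hG (by omega) (by omega) hj (by omega) (by omega)).le
  linarith

theorem TT_le_sum_dia (hP : P.Ok) (hG : P.Good w) {i j : ℕ} (hi : 1 ≤ i) (hj : 1 ≤ j) (M : ℕ)
    (hM : 1 ≤ M) (hi' : i + M + 1 ≤ P.N) (hj' : j + 2 * M + 1 ≤ P.N) :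
    TT w (box P.R) (P.cr w i j) (P.cr w (i + M) (j + 2 * M)) ≤
      ∑ m ∈ range M, P.dia w (i + m) (j + 2 * m) := by
  induction M, hM using Nat.le_induction with
  | base =>
    rw [sum_range_one]
    exact le_refl _
  | succ M hM ih =>
    have h1 := ih (by omega) (by omega)
    rw [sum_range_succ]
    have h2 := TT_tri_cr hP hG (i := i) (j := j) (i' := i + M) (j' := j + 2 * M)
      (i'' := i + (M + 1)) (j'' := j + 2 * (M + 1)) hi (by omega) hj (by omega) (by omega)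
      (by omega) (by omega) (by omega) (by omega) (by omega) (by omega) (by omega)
    have h3 : P.dia w (i + M) (j + 2 * M) = TT w (box P.R) (P.cr w (i + M) (j + 2 * M))
        (P.cr w (i + (M + 1)) (j + 2 * (M + 1))) := rfl
    rw [h3]
    linarith

theorem sum_dia_ge (hP : P.Ok) (hG : P.Good w) {i j M : ℕ} (hi : 1 ≤ i) (hi' : i + M + 1 ≤ P.N)
    (hj : 1 ≤ j) (hj' : j + 2 * M + 1 ≤ P.N) :
    12 * P.c * P.σ * M - 5 * P.c * P.w₀ ≤ ∑ m ∈ range M, P.dia w (i + m) (j + 2 * m) := by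
  obtain ⟨f1, f2, f3⟩ := w₀_facts hP
  rcases Nat.eq_zero_or_pos M with rfl | hM
  · simp only [CharP.cast_eq_zero, mul_zero, range_zero, sum_empty, zero_sub]
    linarith
  · refine le_trans ?_ (TT_le_sum_dia hP hG hi hj M hM hi' hj')
    have h1 := hG.low₂ _ (Finset.mem_coe.1 (cr_mem_box hP hG.nonneg hi (show i + 1 ≤ P.N by omega)
      hj (show j + 1 ≤ P.N by omega))) _
      (Finset.mem_coe.1 (cr_mem_box hP hG.nonneg (show 1 ≤ i + M by omega) hi'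
      (show 1 ≤ j + 2 * M by omega) hj'))
    refine le_trans ?_ h1
    have c1 := cr_A hP hG.nonneg hi (show i + 1 ≤ P.N by omega) hj (show j + 1 ≤ P.N by omega)
    have c2 := cr_A hP hG.nonneg (show 1 ≤ i + M by omega) hi' (show 1 ≤ j + 2 * M by omega) hj'
    have c3 := cr_B hP hG.nonneg hi (show i + 1 ≤ P.N by omega) hj (show j + 1 ≤ P.N by omega)
    have c4 := cr_B hP hG.nonneg (show 1 ≤ i + M by omega) hi' (show 1 ≤ j + 2 * M by omega) hj'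
    rw [abs_le] at c1 c2 c3 c4
    have h2 : (12 * M * P.σ - 4 * P.w₀ : ℤ) ≤
        |(A (P.cr w i j) - A (P.cr w (i + M) (j + 2 * M)) : ℤ)| +
        |(B (P.cr w i j) - B (P.cr w (i + M) (j + 2 * M)) : ℤ)| := by
      have e1 := neg_abs_le (A (P.cr w i j) - A (P.cr w (i + M) (j + 2 * M)) : ℤ)
      have e2 := neg_abs_le (B (P.cr w i j) - B (P.cr w (i + M) (j + 2 * M)) : ℤ)
      have e3 := c1.2
      have e4 := c2.1
      have e5 := c3.2
      have e6 := c4.1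
      push_cast at e4 e6
      linarith
    have h3 : P.c * ((12 * M * P.σ - 4 * P.w₀ : ℤ) : ℝ) ≤
        P.c * ((|(A (P.cr w i j) - A (P.cr w (i + M) (j + 2 * M)) : ℤ)| +
        |(B (P.cr w i j) - B (P.cr w (i + M) (j + 2 * M)) : ℤ)| : ℤ) : ℝ) :=
      mul_le_mul_of_nonneg_left (by exact_mod_cast h2) hP.hc.le
    push_cast at h3 ⊢
    nlinarith [h3, f1, f2, f3]

/-- A walk takes all intermediate values of `A`. -/
theorem exists_A_eq {x y : ℤ × ℤ} (p : Z2.Walk x y) (a : ℤ) (hx : A x ≤ a) (hy : a ≤ A y) :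
    ∃ t ≤ p.length, A (p.getVert t) = a := by
  classical
  by_contra hcon
  push Not at hcon
  have h : ∀ t, t ≤ p.length → A (p.getVert t) < a := by
    intro t
    induction t with
    | zero =>
      intro _
      have := hcon 0 (Nat.zero_le _)
      rw [p.getVert_zero] at this ⊢
      omega
    | succ t ih =>
      intro ht
      have h1 := ih (by omega)
      have h2 := hcon (t + 1) ht
      have h3 := (adj_AB (p.adj_getVert_succ (show t < p.length by omega))).1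
      omega
  have := h p.length le_rfl
  rw [p.getVert_length] at this
  omega

theorem mem_midV {i j : ℕ} {v : ℤ × ℤ} : v ∈ P.midV w i j ↔ v ∈ (P.lineU w j).support ∧
    4 * i * P.σ + P.σ ≤ A v ∧ A v ≤ 4 * i * P.σ + 3 * P.σ := by
  unfold Par.midV
  simp only [mem_filter, List.mem_toFinset]

/-- The range of `B` in the middle of a column is attained at two positions of the line. -/
theorem exists_rng {i j : ℕ} (hi' : i + 1 ≤ P.N) :
    ∃ s t : ℕ, s ≤ t ∧ t ≤ (P.lineU w j).length ∧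
      (4 * i * P.σ + P.σ ≤ A ((P.lineU w j).getVert s) ∧
        A ((P.lineU w j).getVert s) ≤ 4 * i * P.σ + 3 * P.σ) ∧
      (4 * i * P.σ + P.σ ≤ A ((P.lineU w j).getVert t) ∧
        A ((P.lineU w j).getVert t) ≤ 4 * i * P.σ + 3 * P.σ) ∧
      (P.rng w i j : ℤ) ≤
        |B ((P.lineU w j).getVert s) - B ((P.lineU w j).getVert t)| := by
  have h2 : (i : ℤ) * P.σ + P.σ ≤ P.N * P.σ := by
    have : (i + 1) * P.σ ≤ P.N * P.σ := Nat.mul_le_mul_right _ hi'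
    rw [Nat.add_mul, one_mul] at this
    exact_mod_cast this
  have h0 : (0 : ℤ) ≤ i * P.σ := by positivity
  have hσ : (0 : ℤ) ≤ P.σ := by positivity
  obtain ⟨t0, ht0, hA0⟩ := exists_A_eq (P.lineU w j) (4 * i * P.σ + P.σ)
    (by rw [A_pt]; linarith) (by rw [A_pt]; linarith)
  have hne : (P.midV w i j ×ˢ P.midV w i j).Nonempty := by
    have hm : (P.lineU w j).getVert t0 ∈ P.midV w i j := by
      rw [mem_midV]
      exact ⟨(P.lineU w j).getVert_mem_support t0, by rw [hA0], by rw [hA0]; linarith⟩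
    exact ⟨(_, _), mem_product.2 ⟨hm, hm⟩⟩
  obtain ⟨z, hz, hzr⟩ := exists_mem_eq_sup _ hne
    (fun z : (ℤ × ℤ) × (ℤ × ℤ) => (B z.1 - B z.2).toNat)
  rw [mem_product, mem_midV, mem_midV] at hz
  obtain ⟨⟨s1, a1, a2⟩, s2, b1, b2⟩ := hz
  obtain ⟨s, hs, hsl⟩ := exists_getVert _ s1
  obtain ⟨t, ht, htl⟩ := exists_getVert _ s2
  have hr : (P.rng w i j : ℤ) ≤ |B z.1 - B z.2| := by
    have e1 : P.rng w i j = (B z.1 - B z.2).toNat := hzr
    rw [e1]
    have e2 := le_abs_self (B z.1 - B z.2)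
    have e3 := abs_nonneg (B z.1 - B z.2)
    omega
  rcases le_total s t with hst | hst
  · refine ⟨s, t, hst, htl, ?_, ?_, ?_⟩
    · rw [hs]; exact ⟨a1, a2⟩
    · rw [ht]; exact ⟨b1, b2⟩
    · rw [hs, ht]; exact hr
  · refine ⟨t, s, hst, hsl, ?_, ?_, ?_⟩
    · rw [ht]; exact ⟨b1, b2⟩
    · rw [hs]; exact ⟨a1, a2⟩
    · rw [hs, ht, abs_sub_comm]; exact hr

theorem low3_seg (hP : P.Ok) (hG : P.Good w) {j : ℕ} (hj' : j ≤ P.N) {s t : ℕ} (hst : s ≤ t)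
    (ht : t ≤ (P.lineU w j).length)
    (hA : |A ((P.lineU w j).getVert s) - A ((P.lineU w j).getVert t)| ≤ 8 * P.σ) :
    P.c * ((A ((P.lineU w j).getVert t) - A ((P.lineU w j).getVert s) : ℤ) : ℝ) +
      P.c * ((|B ((P.lineU w j).getVert s) - B ((P.lineU w j).getVert t)| : ℤ) : ℝ) - P.E₃ ≤
      segw w (P.lineU w j) s t := by
  have hin := lineU_isIn_box hP hG.nonneg hj'
  have m1 := hin _ ((P.lineU w j).getVert_mem_support s)
  have m2 := hin _ ((P.lineU w j).getVert_mem_support t)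
  have n1 := ((lineU_mem hP hG.nonneg hj').2.1 _ ((P.lineU w j).getVert_mem_support s)).1
  have n2 := ((lineU_mem hP hG.nonneg hj').2.1 _ ((P.lineU w j).getVert_mem_support t)).1
  obtain ⟨a1, a2, a3, a4, a5, a6, a7⟩ := par_bound hP hj'
  have h1 := hG.low₃ _ m1 _ m2 hA (by
    rw [abs_le] at n1 n2 ⊢
    constructor <;> linarith)
  have h2 := TT_le_segw hG.nonneg hin hst ht
  have h3 : A ((P.lineU w j).getVert t) - A ((P.lineU w j).getVert s) ≤
      |A ((P.lineU w j).getVert s) - A ((P.lineU w j).getVert t)| := by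
    rw [abs_sub_comm]
    exact le_abs_self _
  have h4 : P.c * ((A ((P.lineU w j).getVert t) - A ((P.lineU w j).getVert s) : ℤ) : ℝ) ≤
      P.c * ((|A ((P.lineU w j).getVert s) - A ((P.lineU w j).getVert t)| : ℤ) : ℝ) :=
    mul_le_mul_of_nonneg_left (by exact_mod_cast h3) hP.hc.le
  rw [Int.cast_add, mul_add] at h1
  linarith

theorem sum_rng_aux (hP : P.Ok) (hG : P.Good w) {i₁ j : ℕ} (hj' : j ≤ P.N) (k : ℕ) (hk : 1 ≤ k)
    (h2 : i₁ + k ≤ P.N) :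
    ∃ s t : ℕ, s ≤ t ∧ t ≤ (P.lineU w j).length ∧
      (4 * ((i₁ + k - 1 : ℕ) : ℤ) * P.σ + P.σ ≤ A ((P.lineU w j).getVert t) ∧
        A ((P.lineU w j).getVert t) ≤ 4 * ((i₁ + k - 1 : ℕ) : ℤ) * P.σ + 3 * P.σ) ∧
      P.c * ∑ i ∈ Ico i₁ (i₁ + k), (P.rng w i j : ℝ) +
        P.c * ((A ((P.lineU w j).getVert t) - A ((P.lineU w j).getVert s) : ℤ) : ℝ) -
        2 * (k : ℝ) * P.E₃ ≤ segw w (P.lineU w j) s t := by
  obtain ⟨a1, a2, a3, a4, a5, a6, a7⟩ := par_bound hP hj'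
  have hE3 := hP.hE₃
  induction k, hk using Nat.le_induction with
  | base =>
    obtain ⟨s, t, hst, ht, hs1, ht1, hr⟩ := exists_rng (P := P) (w := w) (i := i₁) (j := j) h2
    refine ⟨s, t, hst, ht, ?_, ?_⟩
    · rw [Nat.add_sub_cancel]; exact ht1
    · rw [Nat.Ico_succ_singleton, sum_singleton]
      have h3 := low3_seg hP hG hj' hst ht (by
        rw [abs_le]
        constructor <;> linarith [hs1.1, hs1.2, ht1.1, ht1.2])
      have h4 : P.c * (P.rng w i₁ j : ℝ) ≤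
          P.c * ((|B ((P.lineU w j).getVert s) - B ((P.lineU w j).getVert t)| : ℤ) : ℝ) :=
        mul_le_mul_of_nonneg_left (by exact_mod_cast hr) hP.hc.le
      rw [Nat.cast_one]
      linarith
  | succ k hk ih =>
    obtain ⟨s, t, hst, ht, ht1, hsum⟩ := ih (by omega)
    obtain ⟨s', t', hst', ht', hs1', ht1', hr⟩ := exists_rng (P := P) (w := w) (i := i₁ + k)
      (j := j) (by omega)
    have e : ((i₁ + k : ℕ) : ℤ) = ((i₁ + k - 1 : ℕ) : ℤ) + 1 := by omega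
    rw [e] at hs1' ht1'
    have hlt : t < s' := by
      refine order_of_gap hP (near_U hP hG hj') (hst'.trans ht') ht ?_
      linarith [ht1.2, hs1'.1]
    have h3 := low3_seg hP hG hj' hlt.le (hst'.trans ht') (by
      rw [abs_le]
      constructor <;> linarith [hs1'.1, hs1'.2, ht1.1, ht1.2])
    have h4 := low3_seg hP hG hj' hst' ht' (by
      rw [abs_le]
      constructor <;> linarith [hs1'.1, hs1'.2, ht1'.1, ht1'.2])
    refine ⟨s, t', hst.trans (hlt.le.trans hst'), ht', ?_, ?_⟩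
    · have e2 : ((i₁ + (k + 1) - 1 : ℕ) : ℤ) = ((i₁ + k - 1 : ℕ) : ℤ) + 1 := by omega
      rw [e2]
      exact ht1'
    · rw [← add_assoc i₁ k 1, sum_Ico_succ_top (by omega), mul_add]
      have h5 : P.c * (P.rng w (i₁ + k) j : ℝ) ≤
          P.c * ((|B ((P.lineU w j).getVert s') - B ((P.lineU w j).getVert t')| : ℤ) : ℝ) :=
        mul_le_mul_of_nonneg_left (by exact_mod_cast hr) hP.hc.le
      have h6 : (0 : ℝ) ≤ P.c * ((|B ((P.lineU w j).getVert t) -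
          B ((P.lineU w j).getVert s')| : ℤ) : ℝ) :=
        mul_nonneg hP.hc.le (by exact_mod_cast abs_nonneg _)
      have h7 := segw_add w (P.lineU w j) hst hlt.le
      have h8 := segw_add w (P.lineU w j) (hst.trans hlt.le) hst'
      have h9 : P.c * ((A ((P.lineU w j).getVert t') - A ((P.lineU w j).getVert s) : ℤ) : ℝ) =
          P.c * ((A ((P.lineU w j).getVert t) - A ((P.lineU w j).getVert s) : ℤ) : ℝ) +
          P.c * ((A ((P.lineU w j).getVert s') - A ((P.lineU w j).getVert t) : ℤ) : ℝ) +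
          P.c * ((A ((P.lineU w j).getVert t') - A ((P.lineU w j).getVert s') : ℤ) : ℝ) := by
        push_cast
        ring
      have h10 : 2 * ((k + 1 : ℕ) : ℝ) * P.E₃ = 2 * (k : ℝ) * P.E₃ + P.E₃ + P.E₃ := by
        push_cast
        ring
      rw [h9, h10]
      linarith

theorem sum_rng_le (hP : P.Ok) (hG : P.Good w) {i₁ i₂ j : ℕ} (h1 : 1 ≤ i₁) (h12 : i₁ ≤ i₂)
    (h2 : i₂ + 1 ≤ P.N) (hj : 1 ≤ j) (hj' : j + 1 ≤ P.N) :
    P.c * ∑ i ∈ Ico i₁ i₂, (P.rng w i j : ℝ) ≤ 3 * P.E₂ + 2 * ((i₂ : ℝ) - i₁) * P.E₃ := by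
  obtain ⟨k, rfl⟩ := Nat.exists_eq_add_of_le h12
  have hE2 := hP.hE₂
  rcases Nat.eq_zero_or_pos k with rfl | hk
  · simp only [add_zero, Ico_self, sum_empty, mul_zero, sub_self, zero_mul]
    linarith
  · obtain ⟨s, t, hst, ht, -, hsum⟩ := sum_rng_aux hP hG (i₁ := i₁) (show j ≤ P.N by omega) k hk
      (by omega)
    have h3 := (near_U hP hG (show j ≤ P.N by omega)).segw_le hst ht
    push_cast at hsum h3 ⊢
    linarith

end Pool.Agent.Helper33_FPP
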