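import Pool.Agent.Helper33_FPP.Bypass

/-!
# Surgery: bypassing the heavy edges of a path
-/

set_option autoImplicit false

namespace Pool.Agent.Helper33_FPP

/-- The linking property used by the surgery. -/
def LinkStatement : Prop :=
  ∀ {w : Sym2 (ℤ × ℤ) → ℝ} {M : ℝ} {a b : ℤ × ℤ} {ℓ : ℕ} (_ : 1 ≤ ℓ)
    (_ : a.1 + ℓ ≤ b.1) (_ : a.2 + ℓ ≤ b.2) (_ : NoChain w M (Rect a b) ℓ)
    {x x' y y' : ℤ × ℤ} (p₁ : Z2.Walk x x') (p₂ : Z2.Walk y y')
    (_ : ∀ v ∈ p₁.support, v ∈ Rect a b) (_ : ∀ v ∈ p₂.support, v ∈ Rect a b)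
    (_ : ∃ u ∈ p₁.support, ∃ v ∈ p₁.support, ℓ ≤ dst u v)
    (_ : ∃ u ∈ p₂.support, ∃ v ∈ p₂.support, ℓ ≤ dst u v),
    ∃ u ∈ p₁.support, ∃ v ∈ p₂.support, ∃ q : Z2.Walk u v, q.IsPath ∧
      (∀ z ∈ q.support, z ∈ Rect a b) ∧ ∀ e ∈ q.edges, w e ≤ M

namespace SurgeryAux

open Finset SimpleGraph

/-- The part of a walk before it leaves `D`. -/
theorem exit {D : Set (ℤ × ℤ)} {z y : ℤ × ℤ} (β : Z2.Walk z y) (hz : z ∈ D) (hy : y ∉ D) :
    ∃ (t : ℤ × ℤ) (β₁ : Z2.Walk z t) (β₂ : Z2.Walk t y), β₁.append β₂ = β ∧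
      (∀ v ∈ β₁.support, v ∈ D) ∧ ∃ t', t' ∉ D ∧ Z2.Adj t t' := by
  induction β with
  | nil => exact absurd hz hy
  | @cons u w v h p ih =>
    by_cases hw : w ∈ D
    · obtain ⟨t, β₁, β₂, h1, h2, h3⟩ := ih hw hy
      refine ⟨t, Walk.cons h β₁, β₂, by rw [Walk.cons_append, h1], ?_, h3⟩
      intro z hz'
      rw [Walk.support_cons, List.mem_cons] at hz'
      rcases hz' with rfl | hz'
      · exact hz
      · exact h2 z hz'
    · refine ⟨u, Walk.nil, Walk.cons h p, by simp, ?_, w, hw, h⟩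
      intro z hz'
      simp only [Walk.support_nil, List.mem_singleton] at hz'
      subst hz'
      exact hz

/-- Decomposition of a walk at one of its edges. -/
theorem split_edge {x y : ℤ × ℤ} (γ : Z2.Walk x y) {e : Sym2 (ℤ × ℤ)} (he : e ∈ γ.edges) :
    ∃ (c₁ c₂ : ℤ × ℤ) (h : Z2.Adj c₁ c₂) (α : Z2.Walk x c₁) (β : Z2.Walk c₂ y),
      γ = α.append (Walk.cons h β) ∧ e = s(c₁, c₂) := by
  induction γ with
  | nil => simp at he
  | @cons u w v h p ih =>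
    rw [Walk.edges_cons, List.mem_cons] at he
    rcases he with he | he
    · exact ⟨u, w, h, Walk.nil, p, by simp, he⟩
    · obtain ⟨c₁, c₂, h', α, β, h1, h2⟩ := ih he
      exact ⟨c₁, c₂, h', Walk.cons h α, β, by rw [Walk.cons_append, ← h1], h2⟩

theorem path_length_le {a b : ℤ × ℤ} {r : ℕ} (h1 : b.1 ≤ a.1 + 20 * r) (h2 : b.2 ≤ a.2 + 20 * r)
    {u v : ℤ × ℤ} (q : Z2.Walk u v) (hq : q.IsPath) (hin : ∀ z ∈ q.support, z ∈ Rect a b) :
    q.length ≤ (20 * r + 1) ^ 2 := by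
  classical
  have hsub : q.support.toFinset ⊆ Finset.Icc a.1 b.1 ×ˢ Finset.Icc a.2 b.2 := by
    intro z hz
    rw [List.mem_toFinset] at hz
    obtain ⟨h3, h4, h5, h6⟩ := hin z hz
    rw [Finset.mem_product, Finset.mem_Icc, Finset.mem_Icc]
    exact ⟨⟨h3, h4⟩, h5, h6⟩
  have hcard := Finset.card_le_card hsub
  rw [List.toFinset_card_of_nodup hq.support_nodup, Walk.length_support, Finset.card_product,
    Int.card_Icc, Int.card_Icc] at hcard
  have h7 : (b.1 + 1 - a.1).toNat ≤ 20 * r + 1 := by omega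
  have h8 : (b.2 + 1 - a.2).toNat ≤ 20 * r + 1 := by omega
  have h9 := Nat.mul_le_mul h7 h8
  rw [sq]
  omega

/-- Lower left corner of the rectangle. -/
def cA (c : ℤ × ℤ) (r R : ℕ) : ℤ × ℤ :=
  (max (c.1 - 10 * r) (-(R : ℤ)), max (c.2 - 10 * r) (-(R : ℤ)))
/-- Upper right corner of the rectangle. -/
def cB (c : ℤ × ℤ) (r R : ℕ) : ℤ × ℤ :=
  (min (c.1 + 10 * r) (R : ℤ), min (c.2 + 10 * r) (R : ℤ))

theorem mem_rect {c : ℤ × ℤ} {r R : ℕ} {v : ℤ × ℤ} :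
    v ∈ Rect (cA c r R) (cB c r R) ↔ v ∈ Bx c (10 * r) ∧ v ∈ box R := by
  rw [mem_box]
  change (max (c.1 - 10 * r) (-(R : ℤ)) ≤ v.1 ∧ v.1 ≤ min (c.1 + 10 * r) (R : ℤ) ∧
    max (c.2 - 10 * r) (-(R : ℤ)) ≤ v.2 ∧ v.2 ≤ min (c.2 + 10 * r) (R : ℤ)) ↔
    (max (v.1 - c.1).natAbs (v.2 - c.2).natAbs ≤ 10 * r ∧ _)
  omega

theorem far_aux {c c₁ t t' : ℤ × ℤ} {r : ℕ} (hr : 1 ≤ r) (hd : dst c₁ c ≤ 1)
    (ht : Z2.Adj t t') (h : t' ∉ Bx c (10 * r)) : r ≤ dst c₁ t := by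
  have h1 : (t.1 - t'.1).natAbs + (t.2 - t'.2).natAbs = 1 := ht
  have h2 : ¬ max (t'.1 - c.1).natAbs (t'.2 - c.2).natAbs ≤ 10 * r := h
  have h3 : max (c₁.1 - c.1).natAbs (c₁.2 - c.2).natAbs ≤ 1 := hd
  change r ≤ max (c₁.1 - t.1).natAbs (c₁.2 - t.2).natAbs
  obtain ⟨c1, c2⟩ := c
  obtain ⟨d1, d2⟩ := c₁
  obtain ⟨t1, t2⟩ := t
  obtain ⟨s1, s2⟩ := t'
  simp only at *
  clear hd ht h
  rw [Nat.max_le, not_and_or] at h2
  rw [Nat.max_le] at h3
  rw [le_max_iff]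
  rcases h2 with h2 | h2
  · left; omega
  · right; omega

theorem near_aux {c c₁ c₂ : ℤ × ℤ} (hadj : Z2.Adj c₁ c₂) (hc : c = c₁ ∨ c = c₂) :
    dst c₁ c ≤ 1 ∧ dst c₂ c ≤ 1 := by
  have h1 : (c₁.1 - c₂.1).natAbs + (c₁.2 - c₂.2).natAbs = 1 := hadj
  change max (c₁.1 - c.1).natAbs (c₁.2 - c.2).natAbs ≤ 1 ∧
    max (c₂.1 - c.1).natAbs (c₂.2 - c.2).natAbs ≤ 1
  rw [Nat.max_le, Nat.max_le]
  rcases hc with rfl | rfl <;> omega

theorem side_aux {c : ℤ × ℤ} {r R : ℕ} (hc : c ∈ box R) (hr : r ≤ R) :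
    (cA c r R).1 + r ≤ (cB c r R).1 ∧ (cA c r R).2 + r ≤ (cB c r R).2 := by
  have hc' := mem_box.1 hc
  change max (c.1 - 10 * r) (-(R : ℤ)) + r ≤ min (c.1 + 10 * r) (R : ℤ) ∧
    max (c.2 - 10 * r) (-(R : ℤ)) + r ≤ min (c.2 + 10 * r) (R : ℤ)
  clear hc
  omega

theorem width_aux (c : ℤ × ℤ) (r R : ℕ) :
    (cB c r R).1 ≤ (cA c r R).1 + 20 * r ∧ (cB c r R).2 ≤ (cA c r R).2 + 20 * r := by
  change min (c.1 + 10 * r) (R : ℤ) ≤ max (c.1 - 10 * r) (-(R : ℤ)) + 20 * r ∧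
    min (c.2 + 10 * r) (R : ℤ) ≤ max (c.2 - 10 * r) (-(R : ℤ)) + 20 * r
  omega

/-- One step of the surgery. -/
theorem step (hlink : LinkStatement) {w : Sym2 (ℤ × ℤ) → ℝ} {M : ℝ} {R r : ℕ} {x y : ℤ × ℤ}
    (γ : Z2.Walk x y) (hγp : γ.IsPath) (hγ : IsIn (box R : Set (ℤ × ℤ)) γ)
    {e : Sym2 (ℤ × ℤ)} (he : e ∈ γ.edges) {c : ℤ × ℤ} (hc : c ∈ e) (hr1 : 1 ≤ r) (hrR : r ≤ R)
    (hno : NoChain w M (Bx c (10 * r)) r) (hx : x ∉ Bx c (10 * r)) (hy : y ∉ Bx c (10 * r)) :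
    ∃ γ₁ : Z2.Walk x y, γ₁.IsPath ∧ IsIn (box R : Set (ℤ × ℤ)) γ₁ ∧
      ∃ Q : Finset (Sym2 (ℤ × ℤ)), (Q.card : ℝ) ≤ (20 * (r : ℝ) + 1) ^ 2 ∧ (∀ f ∈ Q, w f ≤ M) ∧
        ∀ f ∈ γ₁.edges, f ∈ Q ∨ (f ∈ γ.edges ∧ f ≠ e) := by
  classical
  obtain ⟨c₁, c₂, hadj, α, β, hγe, hec⟩ := split_edge γ he
  have hnod : γ.edges.Nodup := hγp.isTrail.edges_nodup
  rw [hγe, Walk.edges_append, Walk.edges_cons, ← hec] at hnod
  have hnod' := List.nodup_append.1 hnod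
  have heα : e ∉ α.edges := fun h => hnod'.2.2 e h e (by simp) rfl
  have heβ : e ∉ β.edges := (List.nodup_cons.1 hnod'.2.1).1
  have hαsub : ∀ v ∈ α.support, v ∈ γ.support := by
    intro v hv
    rw [hγe, Walk.mem_support_append_iff]
    exact Or.inl hv
  have hβsub : ∀ v ∈ β.support, v ∈ γ.support := by
    intro v hv
    rw [hγe, Walk.mem_support_append_iff, Walk.support_cons]
    exact Or.inr (by simp [hv])
  have hc12 : c = c₁ ∨ c = c₂ := by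
    rw [hec, Sym2.mem_iff] at hc
    exact hc
  obtain ⟨hd1, hd2⟩ := near_aux hadj hc12
  have hc1D : c₁ ∈ Bx c (10 * r) := le_trans hd1 (by omega)
  have hc2D : c₂ ∈ Bx c (10 * r) := le_trans hd2 (by omega)
  obtain ⟨t, α₁, α₂, hα12, hα1, t', ht', htt'⟩ := exit α.reverse hc1D hx
  obtain ⟨s, β₁, β₂, hβ12, hβ1, s', hs', hss'⟩ := exit β hc2D hy
  have hα1γ : ∀ v ∈ α₁.support, v ∈ γ.support := by
    intro v hv
    apply hαsub
    rw [← List.mem_reverse, ← Walk.support_reverse, ← hα12, Walk.mem_support_append_iff]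
    exact Or.inl hv
  have hα2γ : ∀ v ∈ α₂.support, v ∈ γ.support := by
    intro v hv
    apply hαsub
    rw [← List.mem_reverse, ← Walk.support_reverse, ← hα12, Walk.mem_support_append_iff]
    exact Or.inr hv
  have hβ1γ : ∀ v ∈ β₁.support, v ∈ γ.support := by
    intro v hv
    apply hβsub
    rw [← hβ12, Walk.mem_support_append_iff]
    exact Or.inl hv
  have hβ2γ : ∀ v ∈ β₂.support, v ∈ γ.support := by
    intro v hv
    apply hβsub
    rw [← hβ12, Walk.mem_support_append_iff]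
    exact Or.inr hv
  have hαe : ∀ f, f ∈ α₁.edges ∨ f ∈ α₂.edges → f ∈ α.edges := by
    intro f hf
    rw [← List.mem_reverse, ← Walk.edges_reverse, ← hα12, Walk.edges_append, List.mem_append]
    exact hf
  have hβe : ∀ f, f ∈ β₁.edges ∨ f ∈ β₂.edges → f ∈ β.edges := by
    intro f hf
    rw [← hβ12, Walk.edges_append, List.mem_append]
    exact hf
  have hfar1 : r ≤ dst c₁ t := far_aux hr1 hd1 htt' ht'
  have hfar2 : r ≤ dst c₂ s := far_aux hr1 hd2 hss' hs'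
  have hcR : c ∈ box R := by
    rcases hc12 with rfl | rfl
    · exact hγ _ (hαsub _ (by simp))
    · exact hγ _ (hβsub _ (by simp))
  obtain ⟨hside1, hside2⟩ := side_aux hcR hrR
  have hno' : NoChain w M (Rect (cA c r R) (cB c r R)) r := by
    intro L hL hLD
    exact hno L hL fun v hv => ⟨(mem_rect.1 (hLD v hv).1).1, (hLD v hv).2⟩
  obtain ⟨u, hu, v, hv, q, hqp, hqR, hqM⟩ := hlink hr1 hside1 hside2 hno' α₁ β₁
    (fun z hz => mem_rect.2 ⟨hα1 z hz, hγ z (hα1γ z hz)⟩)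
    (fun z hz => mem_rect.2 ⟨hβ1 z hz, hγ z (hβ1γ z hz)⟩)
    ⟨c₁, by simp, t, by simp, hfar1⟩ ⟨c₂, by simp, s, by simp, hfar2⟩
  let A : Z2.Walk x u := α₂.reverse.append (α₁.dropUntil u hu).reverse
  let B : Z2.Walk v y := (β₁.dropUntil v hv).append β₂
  let γ₀ : Z2.Walk x y := A.append (q.append B)
  have hA : IsIn (box R : Set (ℤ × ℤ)) A := by
    apply isIn_append
    · exact isIn_reverse fun z hz => hγ z (hα2γ z hz)
    · exact isIn_reverse fun z hz => hγ z (hα1γ z (α₁.support_dropUntil_subset_support hu hz))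
  have hB : IsIn (box R : Set (ℤ × ℤ)) B := by
    apply isIn_append
    · exact fun z hz => hγ z (hβ1γ z (β₁.support_dropUntil_subset_support hv hz))
    · exact fun z hz => hγ z (hβ2γ z hz)
  have hγ₀ : IsIn (box R : Set (ℤ × ℤ)) γ₀ :=
    isIn_append hA (isIn_append (fun z hz => (mem_rect.1 (hqR z hz)).2) hB)
  refine ⟨γ₀.bypass, γ₀.bypass_isPath, isIn_bypass hγ₀, q.edges.toFinset, ?_, ?_, ?_⟩
  · have h1 : q.edges.toFinset.card ≤ q.edges.length := List.toFinset_card_le _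
    rw [Walk.length_edges] at h1
    have h2 : q.length ≤ (20 * r + 1) ^ 2 := by
      exact path_length_le (width_aux c r R).1 (width_aux c r R).2 q hqp hqR
    have h3 := h1.trans h2
    exact_mod_cast h3
  · intro f hf
    exact hqM f (List.mem_toFinset.1 hf)
  · intro f hf
    have hf' : f ∈ γ₀.edges := γ₀.edges_bypass_subset_edges hf
    rw [Walk.edges_append, Walk.edges_append, Walk.edges_append, Walk.edges_append,
      Walk.edges_reverse, Walk.edges_reverse] at hf'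
    simp only [List.mem_append, List.mem_reverse] at hf'
    have hγedge : ∀ g, g ∈ α.edges ∨ g ∈ β.edges → g ∈ γ.edges ∧ g ≠ e := by
      intro g hg
      constructor
      · rw [hγe, Walk.edges_append, Walk.edges_cons]
        rcases hg with hg | hg
        · simp [hg]
        · simp [hg]
      · rintro rfl
        rcases hg with hg | hg
        · exact heα hg
        · exact heβ hg
    rcases hf' with (hf' | hf') | hf' | hf' | hf'
    · exact Or.inr (hγedge f (Or.inl (hαe f (Or.inr hf'))))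
    · exact Or.inr (hγedge f (Or.inl (hαe f (Or.inl (α₁.edges_dropUntil_subset_edges hu hf')))))
    · exact Or.inl (List.mem_toFinset.2 hf')
    · exact Or.inr (hγedge f (Or.inr (hβe f (Or.inl (β₁.edges_dropUntil_subset_edges hv hf')))))
    · exact Or.inr (hγedge f (Or.inr (hβe f (Or.inr hf'))))

end SurgeryAux

open SurgeryAux Finset in
theorem surgery_of (hlink : LinkStatement) {w : Sym2 (ℤ × ℤ) → ℝ} (hw : ∀ e, 0 ≤ w e) {M : ℝ}
    (hM : 0 ≤ M) {R : ℕ}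
    {x y : ℤ × ℤ} (γ : Z2.Walk x y) (hγp : γ.IsPath) (hγ : IsIn (box R : Set (ℤ × ℤ)) γ)
    (H : Finset (Sym2 (ℤ × ℤ))) (hHM : ∀ e ∈ H, M < w e) (ctr : Sym2 (ℤ × ℤ) → ℤ × ℤ)
    (rad : Sym2 (ℤ × ℤ) → ℕ) (hctr : ∀ e ∈ H, ctr e ∈ e)
    (hrad : ∀ e ∈ H, 1 ≤ rad e ∧ rad e ≤ R)
    (hno : ∀ e ∈ H, e ∈ γ.edges → NoChain w M (Bx (ctr e) (10 * rad e)) (rad e))
    (hx : ∀ e ∈ H, e ∈ γ.edges → x ∉ Bx (ctr e) (10 * rad e))
    (hy : ∀ e ∈ H, e ∈ γ.edges → y ∉ Bx (ctr e) (10 * rad e)) :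
    ∃ γ' : Z2.Walk x y, IsIn (box R : Set (ℤ × ℤ)) γ' ∧
      wt w γ' ≤ ∑ e ∈ γ.edges.toFinset \ H, w e +
        ∑ e ∈ γ.edges.toFinset ∩ H, M * (20 * (rad e : ℝ) + 1) ^ 2 := by
  classical
  generalize hn : (γ.edges.toFinset ∩ H).card = n
  induction n using Nat.strong_induction_on generalizing γ with
  | _ n ih =>
  rcases Finset.eq_empty_or_nonempty (γ.edges.toFinset ∩ H) with hemp | hne
  · refine ⟨γ, hγ, ?_⟩
    rw [hemp, Finset.sum_empty, add_zero]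
    have h1 : γ.edges.toFinset \ H = γ.edges.toFinset := by
      rw [Finset.sdiff_eq_self_iff_disjoint, Finset.disjoint_iff_inter_eq_empty]
      exact hemp
    rw [h1, List.sum_toFinset w hγp.isTrail.edges_nodup]
    exact le_rfl
  · obtain ⟨e, he⟩ := hne
    have he' := he
    rw [Finset.mem_inter, List.mem_toFinset] at he
    obtain ⟨γ₁, hp1, hin1, Q, hQc, hQM, hsub⟩ := step hlink γ hγp hγ he.1 (hctr e he.2)
      (hrad e he.2).1 (hrad e he.2).2 (hno e he.2 he.1) (hx e he.2 he.1) (hy e he.2 he.1)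
    have hHsub : ∀ f ∈ H, f ∈ γ₁.edges → f ∈ γ.edges ∧ f ≠ e := by
      intro f hf hfe
      rcases hsub f hfe with h | h
      · exact absurd (hQM f h) (not_le.2 (hHM f hf))
      · exact h
    have hinter : γ₁.edges.toFinset ∩ H ⊆ (γ.edges.toFinset ∩ H).erase e := by
      intro f hf
      rw [Finset.mem_inter, List.mem_toFinset] at hf
      rw [Finset.mem_erase, Finset.mem_inter, List.mem_toFinset]
      have := hHsub f hf.2 hf.1
      exact ⟨this.2, this.1, hf.2⟩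
    have hdiff : γ₁.edges.toFinset \ H ⊆ (γ.edges.toFinset \ H) ∪ Q := by
      intro f hf
      rw [Finset.mem_sdiff, List.mem_toFinset] at hf
      rw [Finset.mem_union, Finset.mem_sdiff, List.mem_toFinset]
      rcases hsub f hf.1 with h | h
      · exact Or.inr h
      · exact Or.inl ⟨h.1, hf.2⟩
    have hcard : (γ₁.edges.toFinset ∩ H).card < n := by
      have h1 := Finset.card_le_card hinter
      rw [Finset.card_erase_of_mem he', hn] at h1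
      have h2 : 0 < n := by
        rw [← hn]
        exact Finset.card_pos.2 ⟨e, he'⟩
      omega
    obtain ⟨γ', hγ', hle⟩ := ih _ hcard γ₁ hp1 hin1 (fun f hf hfe => hno f hf (hHsub f hf hfe).1)
      (fun f hf hfe => hx f hf (hHsub f hf hfe).1) (fun f hf hfe => hy f hf (hHsub f hf hfe).1) rfl
    refine ⟨γ', hγ', hle.trans ?_⟩
    have h1 : ∑ f ∈ γ₁.edges.toFinset \ H, w f ≤
        ∑ f ∈ γ.edges.toFinset \ H, w f + M * (20 * (rad e : ℝ) + 1) ^ 2 := by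
      calc ∑ f ∈ γ₁.edges.toFinset \ H, w f
          ≤ ∑ f ∈ (γ.edges.toFinset \ H) ∪ Q, w f :=
            Finset.sum_le_sum_of_subset_of_nonneg hdiff fun f _ _ => hw f
        _ ≤ ∑ f ∈ γ.edges.toFinset \ H, w f + ∑ f ∈ Q, w f := by
            rw [← Finset.sum_union_inter]
            exact le_add_of_nonneg_right (Finset.sum_nonneg fun f _ => hw f)
        _ ≤ ∑ f ∈ γ.edges.toFinset \ H, w f + M * (20 * (rad e : ℝ) + 1) ^ 2 := by
            have h3 : ∑ f ∈ Q, w f ≤ ∑ _f ∈ Q, M := Finset.sum_le_sum hQM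
            rw [Finset.sum_const, nsmul_eq_mul] at h3
            have h4 : (Q.card : ℝ) * M ≤ (20 * (rad e : ℝ) + 1) ^ 2 * M :=
              mul_le_mul_of_nonneg_right hQc hM
            linarith
    have h2 : ∑ f ∈ γ₁.edges.toFinset ∩ H, M * (20 * (rad f : ℝ) + 1) ^ 2 ≤
        ∑ f ∈ (γ.edges.toFinset ∩ H).erase e, M * (20 * (rad f : ℝ) + 1) ^ 2 :=
      Finset.sum_le_sum_of_subset_of_nonneg hinter fun f _ _ => by positivity
    have h3 := Finset.sum_erase_add (γ.edges.toFinset ∩ H)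
      (fun f => M * (20 * (rad f : ℝ) + 1) ^ 2) he'
    linarith

theorem heavy_bad_of (hlink : LinkStatement) {w : Sym2 (ℤ × ℤ) → ℝ} (hw : ∀ e, 0 ≤ w e)
    {M b : ℝ} (hM : 0 ≤ M) {R : ℕ}
    {x y : ℤ × ℤ} {γ : Z2.Walk x y}
    (hγ : γ ∈ minPaths (fun e => max 0 (min (w e) b)) (box R : Set (ℤ × ℤ)) x y)
    {e : Sym2 (ℤ × ℤ)} (he : e ∈ γ.edges) (hbe : b < w e) {u : ℤ × ℤ} (hu : u ∈ e) {ℓ : ℕ}
    (hℓ : 1 ≤ ℓ) (hℓR : ℓ ≤ R) (hb : M * (20 * (ℓ : ℝ) + 1) ^ 2 < b)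
    (hx : x ∉ Bx u (10 * ℓ)) (hy : y ∉ Bx u (10 * ℓ)) :
    ¬ NoChain w M (Bx u (10 * ℓ)) ℓ := by
  classical
  intro hno
  have hMb : M < b := by
    refine lt_of_le_of_lt ?_ hb
    have h1 : (1 : ℝ) ≤ (20 * (ℓ : ℝ) + 1) ^ 2 := by
      have : (0 : ℝ) ≤ ℓ := Nat.cast_nonneg ℓ
      nlinarith
    nlinarith
  have hb0 : 0 < b := lt_of_le_of_lt hM hMb
  have hwb : ∀ f, max 0 (min (w f) b) ≤ w f := fun f => max_le (hw f) (min_le_left _ _)
  have hno' : NoChain (fun f => max 0 (min (w f) b)) M (Bx u (10 * ℓ)) ℓ := by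
    intro L hL hLD
    refine hno L hL fun v hv => ⟨(hLD v hv).1, ?_⟩
    obtain ⟨v', hv', hlt⟩ := (hLD v hv).2
    exact ⟨v', hv', lt_of_lt_of_le hlt (hwb _)⟩
  have hwe : max 0 (min (w e) b) = b := by
    rw [min_eq_right hbe.le, max_eq_right hb0.le]
  obtain ⟨γ', hγ', hle⟩ := surgery_of hlink (w := fun f => max 0 (min (w f) b))
    (fun f => le_max_left _ _) hM γ hγ.1 hγ.2.1 {e}
    (by
      intro f hf
      rw [Finset.mem_singleton] at hf
      subst hf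
      rw [hwe]
      exact hMb)
    (fun _ => u) (fun _ => ℓ)
    (by
      intro f hf
      rw [Finset.mem_singleton] at hf
      subst hf
      exact hu)
    (fun _ _ => ⟨hℓ, hℓR⟩) (fun _ _ _ => hno') (fun _ _ _ => hx) (fun _ _ _ => hy)
  have hmin := hγ.2.2 γ' hγ'
  have h1 : γ.edges.toFinset ∩ {e} = {e} := by
    rw [Finset.inter_eq_right, Finset.singleton_subset_iff, List.mem_toFinset]
    exact he
  rw [h1, Finset.sum_singleton] at hle
  have h2 : wt (fun f => max 0 (min (w f) b)) γ =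
      ∑ f ∈ γ.edges.toFinset, max 0 (min (w f) b) := by
    unfold wt
    rw [List.sum_toFinset _ hγ.1.isTrail.edges_nodup]
  have h3 := Finset.sum_sdiff (s₁ := {e}) (s₂ := γ.edges.toFinset)
    (f := fun f => max 0 (min (w f) b))
    (by rw [Finset.singleton_subset_iff, List.mem_toFinset]; exact he)
  rw [Finset.sum_singleton, hwe] at h3
  rw [h2, ← h3] at hmin
  have h4 : ∑ f ∈ γ.edges.toFinset \ {e}, max 0 (min (w f) b) + b ≤
      ∑ f ∈ γ.edges.toFinset \ {e}, max 0 (min (w f) b) + M * (20 * (ℓ : ℝ) + 1) ^ 2 :=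
    hmin.trans hle
  linarith

end Pool.Agent.Helper33_FPP
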