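import Pool.Agent.Helper33_FPP.Perc

/-!
# Three primal and three dual alternating arms give three separate clusters

The statement about crossings of primal and dual walks is a hypothesis here (`Cross`).
-/

set_option autoImplicit false

namespace Pool.Agent.Helper33_FPP

open Finset

/-- The crossing property of primal and dual walks used below. -/
def CrossStatement : Prop :=
  ∀ {n : ℕ} {a b c d : ℤ × ℤ} (P : Z2.Walk a b) (D : Z2.Walk c d),
    a.1 = -((n : ℤ) + 1) → b.1 = (n : ℤ) + 1 →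
    (∀ v ∈ P.support, -(n : ℤ) ≤ v.2 ∧ v.2 ≤ (n : ℤ) + 1) →
    c.2 = (n : ℤ) + 1 → d.2 = -((n : ℤ) + 1) →
    (∀ v ∈ D.support, -((n : ℤ) + 1) ≤ v.1 ∧ v.1 ≤ n) →
    ∃ e ∈ D.edges, dualE e ∈ P.edges

theorem ta_mem_box {k : ℕ} {v : ℤ × ℤ} :
    v ∈ box k ↔ (-(k : ℤ) ≤ v.1 ∧ v.1 ≤ k) ∧ (-(k : ℤ) ≤ v.2 ∧ v.2 ≤ k) := by
  simp [box, Finset.mem_product]

theorem Conn.refl' {O : Sym2 (ℤ × ℤ) → Prop} {S : Set (ℤ × ℤ)} {x : ℤ × ℤ} (h : x ∈ S) :
    Conn O S x x := ⟨SimpleGraph.Walk.nil, by simpa using h, by simp⟩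

theorem Conn.symm' {O : Sym2 (ℤ × ℤ) → Prop} {S : Set (ℤ × ℤ)} {x y : ℤ × ℤ}
    (h : Conn O S x y) : Conn O S y x := by
  obtain ⟨q, h1, h2⟩ := h
  exact ⟨q.reverse, by simpa using h1, by simpa using h2⟩

theorem Conn.trans' {O : Sym2 (ℤ × ℤ) → Prop} {S : Set (ℤ × ℤ)} {x y z : ℤ × ℤ}
    (h : Conn O S x y) (h' : Conn O S y z) : Conn O S x z := by
  obtain ⟨q, h1, h2⟩ := h
  obtain ⟨q', h1', h2'⟩ := h'
  refine ⟨q.append q', ?_, ?_⟩
  · intro v hv
    rw [SimpleGraph.Walk.mem_support_append_iff] at hv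
    exact hv.elim (h1 v) (h1' v)
  · intro e he
    rw [SimpleGraph.Walk.edges_append, List.mem_append] at he
    exact he.elim (h2 e) (h2' e)

theorem Conn.mono' {O O' : Sym2 (ℤ × ℤ) → Prop} {S S' : Set (ℤ × ℤ)} {x y : ℤ × ℤ}
    (h : Conn O S x y) (hO : ∀ e, e ∈ Z2.edgeSet → (∀ v ∈ e, v ∈ S) → O e → O' e)
    (hS : S ⊆ S') : Conn O' S' x y := by
  obtain ⟨q, h1, h2⟩ := h
  refine ⟨q, fun v hv => hS (h1 v hv), fun e he => hO e (q.edges_subset_edgeSet he) ?_ (h2 e he)⟩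
  intro v hv
  exact h1 v (SimpleGraph.Walk.mem_support_of_mem_edges he hv)

theorem Conn.single {O : Sym2 (ℤ × ℤ) → Prop} {S : Set (ℤ × ℤ)} {x y : ℤ × ℤ}
    (h : Z2.Adj x y) (hO : O s(x, y)) (hx : x ∈ S) (hy : y ∈ S) : Conn O S x y := by
  refine ⟨SimpleGraph.Walk.cons h SimpleGraph.Walk.nil, ?_, ?_⟩
  · intro v hv
    simp only [SimpleGraph.Walk.support_cons, SimpleGraph.Walk.support_nil, List.mem_cons,
      List.not_mem_nil, or_false] at hv
    rcases hv with rfl | rfl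
    · exact hx
    · exact hy
  · intro e he
    simp only [SimpleGraph.Walk.edges_cons, SimpleGraph.Walk.edges_nil, List.mem_cons,
      List.not_mem_nil, or_false] at he
    rw [he]
    exact hO

/-- A horizontal segment. -/
theorem ta_row_conn (i m : ℤ) (d : ℕ) :
    Conn (fun e => ∃ l : ℤ, i ≤ l ∧ l < i + d ∧ e = s((l, m), (l + 1, m)))
      {v | v.2 = m ∧ i ≤ v.1 ∧ v.1 ≤ i + d} (i, m) (i + d, m) := by
  induction d with
  | zero =>
    simp only [Nat.cast_zero, add_zero]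
    exact Conn.refl' (by simp)
  | succ d ih =>
    have h1 := ih.mono' (O' := fun e => ∃ l : ℤ, i ≤ l ∧ l < i + (d + 1 : ℕ) ∧
        e = s((l, m), (l + 1, m))) (S' := {v | v.2 = m ∧ i ≤ v.1 ∧ v.1 ≤ i + (d + 1 : ℕ)})
      (by
        rintro e - - ⟨l, hl1, hl2, rfl⟩
        exact ⟨l, hl1, by push_cast; omega, rfl⟩)
      (by
        rintro v ⟨hv1, hv2, hv3⟩
        refine ⟨hv1, hv2, ?_⟩
        push_cast
        omega)
    refine h1.trans' (Conn.single (x := (i + d, m)) (y := (i + (d + 1 : ℕ), m)) ?_ ?_ ?_ ?_)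
    · show ((i + d) - (i + (d + 1 : ℕ))).natAbs + (m - m).natAbs = 1
      push_cast
      omega
    · refine ⟨i + d, by omega, by push_cast; omega, ?_⟩
      push_cast
      rw [add_assoc]
    · refine ⟨rfl, ?_, ?_⟩
      · show i ≤ i + d
        omega
      · show i + (d : ℤ) ≤ i + (d + 1 : ℕ)
        push_cast
        omega
    · refine ⟨rfl, ?_, le_refl _⟩
      show i ≤ i + (d + 1 : ℕ)
      omega

/-- A vertical segment. -/
theorem ta_col_conn (m j : ℤ) (d : ℕ) :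
    Conn (fun e => ∃ l : ℤ, j ≤ l ∧ l < j + d ∧ e = s((m, l), (m, l + 1)))
      {v | v.1 = m ∧ j ≤ v.2 ∧ v.2 ≤ j + d} (m, j) (m, j + d) := by
  induction d with
  | zero =>
    simp only [Nat.cast_zero, add_zero]
    exact Conn.refl' (by simp)
  | succ d ih =>
    have h1 := ih.mono' (O' := fun e => ∃ l : ℤ, j ≤ l ∧ l < j + (d + 1 : ℕ) ∧
        e = s((m, l), (m, l + 1))) (S' := {v | v.1 = m ∧ j ≤ v.2 ∧ v.2 ≤ j + (d + 1 : ℕ)})
      (by
        rintro e - - ⟨l, hl1, hl2, rfl⟩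
        exact ⟨l, hl1, by push_cast; omega, rfl⟩)
      (by
        rintro v ⟨hv1, hv2, hv3⟩
        refine ⟨hv1, hv2, ?_⟩
        push_cast
        omega)
    refine h1.trans' (Conn.single (x := (m, j + d)) (y := (m, j + (d + 1 : ℕ))) ?_ ?_ ?_ ?_)
    · show (m - m).natAbs + ((j + d) - (j + (d + 1 : ℕ))).natAbs = 1
      push_cast
      omega
    · refine ⟨j + d, by omega, by push_cast; omega, ?_⟩
      push_cast
      rw [add_assoc]
    · refine ⟨rfl, ?_, ?_⟩
      · show j ≤ j + d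
        omega
      · show j + (d : ℤ) ≤ j + (d + 1 : ℕ)
        push_cast
        omega
    · refine ⟨rfl, ?_, le_refl _⟩
      show j ≤ j + (d + 1 : ℕ)
      omega

theorem ta_row_conn' {i i' m : ℤ} (h : i ≤ i') :
    Conn (fun e => ∃ l : ℤ, i ≤ l ∧ l < i' ∧ e = s((l, m), (l + 1, m)))
      {v | v.2 = m ∧ i ≤ v.1 ∧ v.1 ≤ i'} (i, m) (i', m) := by
  obtain ⟨d, hd⟩ := Int.le.dest h
  rw [← hd]
  exact ta_row_conn i m d

theorem ta_col_conn' {j j' m : ℤ} (h : j ≤ j') :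
    Conn (fun e => ∃ l : ℤ, j ≤ l ∧ l < j' ∧ e = s((m, l), (m, l + 1)))
      {v | v.1 = m ∧ j ≤ v.2 ∧ v.2 ≤ j'} (m, j) (m, j') := by
  obtain ⟨d, hd⟩ := Int.le.dest h
  rw [← hd]
  exact ta_col_conn m j d

/-- Any two points of a box are joined inside the box. -/
theorem ta_box_conn {k : ℕ} {x y : ℤ × ℤ} (hx : x ∈ box k) (hy : y ∈ box k) :
    Conn (fun e => ∀ v ∈ e, v ∈ box k) (box k : Set (ℤ × ℤ)) x y := by
  rw [ta_mem_box] at hx hy
  have row : ∀ {i i' m : ℤ}, -(k : ℤ) ≤ i → i ≤ k → -(k : ℤ) ≤ i' → i' ≤ k → -(k : ℤ) ≤ m → m ≤ k →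
      i ≤ i' → Conn (fun e => ∀ v ∈ e, v ∈ box k) (box k : Set (ℤ × ℤ)) (i, m) (i', m) := by
    intro i i' m h1 h2 h3 h4 h5 h6 h
    have hS : {v : ℤ × ℤ | v.2 = m ∧ i ≤ v.1 ∧ v.1 ≤ i'} ⊆ (box k : Set (ℤ × ℤ)) := by
      rintro v ⟨hv1, hv2, hv3⟩
      rw [Finset.mem_coe, ta_mem_box]
      omega
    exact (ta_row_conn' (m := m) h).mono' (fun e _ he _ v hv => hS (he v hv)) hS
  have col : ∀ {j j' m : ℤ}, -(k : ℤ) ≤ j → j ≤ k → -(k : ℤ) ≤ j' → j' ≤ k → -(k : ℤ) ≤ m → m ≤ k →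
      j ≤ j' → Conn (fun e => ∀ v ∈ e, v ∈ box k) (box k : Set (ℤ × ℤ)) (m, j) (m, j') := by
    intro j j' m h1 h2 h3 h4 h5 h6 h
    have hS : {v : ℤ × ℤ | v.1 = m ∧ j ≤ v.2 ∧ v.2 ≤ j'} ⊆ (box k : Set (ℤ × ℤ)) := by
      rintro v ⟨hv1, hv2, hv3⟩
      rw [Finset.mem_coe, ta_mem_box]
      omega
    exact (ta_col_conn' (m := m) h).mono' (fun e _ he _ v hv => hS (he v hv)) hS
  obtain ⟨a, b⟩ := x
  obtain ⟨c, d⟩ := y
  simp only at hx hy
  have h1 : Conn (fun e => ∀ v ∈ e, v ∈ box k) (box k : Set (ℤ × ℤ)) (a, b) (c, b) := by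
    rcases le_total a c with h | h
    · exact row (by omega) (by omega) (by omega) (by omega) (by omega) (by omega) h
    · exact (row (by omega) (by omega) (by omega) (by omega) (by omega) (by omega) h).symm'
  have h2 : Conn (fun e => ∀ v ∈ e, v ∈ box k) (box k : Set (ℤ × ℤ)) (c, b) (c, d) := by
    rcases le_total b d with h | h
    · exact col (by omega) (by omega) (by omega) (by omega) (by omega) (by omega) h
    · exact (col (by omega) (by omega) (by omega) (by omega) (by omega) (by omega) h).symm'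
  exact h1.trans' h2

/-- The last exit from the box of radius `k`. -/
theorem ta_last_exit {O : Sym2 (ℤ × ℤ) → Prop} {k n : ℕ} {x u : ℤ × ℤ} (q : Z2.Walk x u)
    (hu : u ∉ box k) (hS : ∀ v ∈ q.support, v ∈ box n) (hO : ∀ e ∈ q.edges, O e) :
    Conn O ((box n : Set (ℤ × ℤ)) \ (box k : Set (ℤ × ℤ))) x u ∨
      ∃ w v, w ∈ box k ∧ v ∉ box k ∧ v ∈ box n ∧ Z2.Adj w v ∧ O s(w, v) ∧
        Conn O ((box n : Set (ℤ × ℤ)) \ (box k : Set (ℤ × ℤ))) v u := by
  induction q with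
  | nil =>
    left
    exact Conn.refl' ⟨by simpa using hS _ (by simp), by simpa using hu⟩
  | @cons x x' u h q ih =>
    rcases ih hu (fun v hv => hS v (by simp [hv])) (fun e he => hO e (by simp [he])) with h1 | h1
    · by_cases hx : x ∈ box k
      · right
        refine ⟨x, x', hx, ?_, ?_, h, hO _ (by simp), h1⟩
        · obtain ⟨p, hp, -⟩ := h1
          exact (hp x' (by simp)).2
        · obtain ⟨p, hp, -⟩ := h1
          exact (hp x' (by simp)).1
      · left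
        exact (Conn.single (S := (box n : Set (ℤ × ℤ)) \ (box k : Set (ℤ × ℤ))) h (hO _ (by simp))
          ⟨by simpa using hS x (by simp), by simpa using hx⟩
          (by
            obtain ⟨p, hp, -⟩ := h1
            exact hp x' (by simp))).trans' h1
    · exact Or.inr h1

/-- The part of a primal arm after the last exit from the box of radius `k`. -/
theorem ta_arm_tail {O : Sym2 (ℤ × ℤ) → Prop} {k n : ℕ} (hkn : k < n) {a : ℕ → ℤ × ℤ → Prop}
    (ha : ∀ y, a (n + 1) y → y.1 = (n : ℤ) + 1 ∨ y.1 = -((n : ℤ) + 1) ∨ y.2 = (n : ℤ) + 1 ∨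
      y.2 = -((n : ℤ) + 1)) (h : Arm O k n a) :
    ∃ w v u y, w ∈ box k ∧ v ∉ box k ∧ v ∈ box n ∧ Z2.Adj w v ∧ O s(w, v) ∧
      Conn O ((box n : Set (ℤ × ℤ)) \ (box k : Set (ℤ × ℤ))) v u ∧ OnSph n u ∧ u ∈ box n ∧
      Z2.Adj u y ∧ O s(u, y) ∧ a (n + 1) y := by
  obtain ⟨x, hx, u, y, hy, huy, hO, q, hq1, hq2⟩ := h
  have hub : u ∈ box n := by simpa using hq1 u (by simp)
  have hadj : (u.1 - y.1).natAbs + (u.2 - y.2).natAbs = 1 := huy
  have hy' := ha y hy
  have hub' := ta_mem_box.1 hub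
  have hsph : OnSph n u := by
    unfold OnSph
    omega
  have huk : u ∉ box k := by
    rw [ta_mem_box]
    omega
  rcases ta_last_exit q huk (fun v hv => by simpa using hq1 v hv) hq2 with h1 | h1
  · exfalso
    obtain ⟨p, hp, -⟩ := h1
    exact (hp x (by simp)).2 (by simpa using hx)
  · obtain ⟨w, v, h1, h2, h3, h4, h5, h6⟩ := h1
    exact ⟨w, v, u, y, h1, h2, h3, h4, h5, h6, hsph, hub, huy, hO, hy⟩

/-- The two kinds of dual edges. -/
theorem ta_edge_cases {e : Sym2 (ℤ × ℤ)} (he : e ∈ Z2.edgeSet) :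
    (∃ i j : ℤ, e = s((i, j), (i + 1, j)) ∧ dualE e = s((i + 1, j), (i + 1, j + 1))) ∨
      (∃ i j : ℤ, e = s((i, j), (i, j + 1)) ∧ dualE e = s((i, j + 1), (i + 1, j + 1))) := by
  induction e using Sym2.ind with
  | _ x y =>
    obtain ⟨a, b⟩ := x
    obtain ⟨c, d⟩ := y
    have h : (a - c).natAbs + (b - d).natAbs = 1 := he
    by_cases hbd : b = d
    · left
      subst hbd
      rcases lt_or_gt_of_ne (show a ≠ c by rintro rfl; simp at h) with hac | hac
      · have : c = a + 1 := by omega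
        subst this
        refine ⟨a, b, rfl, ?_⟩
        simp [dualE]
      · have : a = c + 1 := by omega
        subst this
        refine ⟨c, b, Sym2.eq_swap, ?_⟩
        simp [dualE]
    · right
      have hac : a = c := by omega
      subst hac
      rcases lt_or_gt_of_ne hbd with hh | hh
      · have : d = b + 1 := by omega
        subst this
        refine ⟨a, b, rfl, ?_⟩
        simp [dualE]
      · have : b = d + 1 := by omega
        subst this
        refine ⟨a, d, Sym2.eq_swap, ?_⟩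
        simp [dualE]

end Pool.Agent.Helper33_FPP
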